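import Pool.Agent.Fbc.NGg
import Pool.Agent.Stf.Prj

/-!
# Regular lattices descend: no hypothesis on the lattice
-/

set_option autoImplicit false

namespace Pool.Agent.Fbc

open Pool.Fml (Ser SymRing formal micro IsFormal IsMicro)

variable {d : ℕ}

/-- every regular lattice has a coframe with microdifferential matrices -/
theorem FLat.exists_cof (M : FLat (formal d)) (hM : M.Regular) :
    ∃ r b : ℕ, Nonempty (Cof M r b) := by
  obtain ⟨m, r, N, f, hf, hs⟩ := Pool.Agent.Stf.exists_frame M.L M.sinj M.P M.P_smul
  exact ⟨r, N, Pool.Agent.Fbc.exists_cof M hM m f hf hs⟩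

/-- Every regular lattice over the formal symbols is the extension of scalars of a regular lattice
over the microdifferential symbols. -/
theorem FLat.descent (M : FLat (formal d)) (hM : M.Regular) :
    ∃ N : FLat (micro d), N.Regular ∧ FExt N M := by
  obtain ⟨r, b, ⟨D⟩⟩ := M.exists_cof hM
  exact ⟨D.lat, D.regular hM, D.ext⟩

end Pool.Agent.Fbc
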