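import Pool.Agent.Fbc.MaxP

/-!
# Block matrices over a noncommutative ring: Lemmas 1.1 and 6.1
-/

set_option autoImplicit false

namespace Pool.Agent.Fbc

section blk

variable {S : Type} [Ring S] {k : ℕ}

/-- the block shift `J` (blocks `0, …, k`) -/
def Jm : Matrix (Fin (k + 1)) (Fin (k + 1)) S := fun a b => if a.val = b.val + 1 then 1 else 0

/-- `ρ E^T`: the column `ρ` in the last block column -/
def colE (ρ : Fin (k + 1) → S) : Matrix (Fin (k + 1)) (Fin (k + 1)) S :=
  fun a b => if b = Fin.last k then ρ a else 0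

/-- `diag(A, …, A)` -/
def dg (A : S) : Matrix (Fin (k + 1)) (Fin (k + 1)) S := Matrix.diagonal fun _ => A

/-- the column `ρ = (B_{k+1}, …, B_2, B_1 + β)` -/
def rho (B : ℕ → S) (β : S) (a : Fin (k + 1)) : S :=
  B (k + 1 - a.val) + if a = Fin.last k then β else 0

/-- `Ω_t = J + ρ R E^T` -/
def OmT (B : ℕ → S) (β R : S) : Matrix (Fin (k + 1)) (Fin (k + 1)) S :=
  Jm + colE fun a => rho (k := k) B β a * R

/-- `Ω_D = Ω_t diag(A)` -/
def OmD (B : ℕ → S) (β R A : S) : Matrix (Fin (k + 1)) (Fin (k + 1)) S := OmT B β R * dg A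

/-- `om_t(b) = (c + ρ R b_0) R E^T`, `c_a = b_{k+1-a}` -/
def omT (B : ℕ → S) (β R : S) (b : ℕ → S) : Matrix (Fin (k + 1)) (Fin (k + 1)) S :=
  colE fun a => (b (k + 1 - a.val) + rho (k := k) B β a * R * b 0) * R

/-- `om_D(b) = om_t(b) diag(A) + Ω_t diag(α)` -/
def omD (B : ℕ → S) (β R A α : S) (b : ℕ → S) : Matrix (Fin (k + 1)) (Fin (k + 1)) S :=
  omT B β R b * dg A + OmT B β R * dg α

/-- the linearised equation -/
def Lam (D : S → S) (B : ℕ → S) (A α : S) (b : ℕ → S) (j : ℕ) : S :=
  D (b j) + (if j = 0 then α else 0) + (α * B (j + 1) - B (j + 1) * α)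
    + (A * b (j + 1) - b (j + 1) * A)

/-- the shift of a column -/
private def b1_sh (ρ : Fin (k + 1) → S) (a : Fin (k + 1)) : S :=
  if h : a.val = 0 then 0 else ρ ⟨a.val - 1, by omega⟩

private lemma b1_colE_dg (ρ : Fin (k + 1) → S) (A : S) :
    colE ρ * dg A = colE fun a => ρ a * A := by
  ext a b
  simp only [dg, colE, Matrix.mul_diagonal]
  split_ifs <;> simp

private lemma b1_dg_colE (ρ : Fin (k + 1) → S) (A : S) :
    dg A * colE ρ = colE fun a => A * ρ a := by
  ext a b
  simp only [dg, colE, Matrix.diagonal_mul]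
  split_ifs <;> simp

private lemma b1_Jm_dg (A : S) : Jm (k := k) * dg A = dg A * Jm := by
  ext a b
  simp only [dg, Jm, Matrix.mul_diagonal, Matrix.diagonal_mul]
  split_ifs <;> simp

private lemma b1_Jm_colE (ρ : Fin (k + 1) → S) : Jm * colE ρ = colE (b1_sh ρ) := by
  ext a b
  simp only [Jm, colE, Matrix.mul_apply, b1_sh]
  by_cases hb : b = Fin.last k
  · simp only [if_pos hb]
    by_cases h : a.val = 0
    · rw [dif_pos h]
      refine Finset.sum_eq_zero fun c _ => ?_
      rw [if_neg (by omega), zero_mul]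
    · rw [dif_neg h, Finset.sum_eq_single ⟨a.val - 1, by omega⟩]
      · rw [if_pos (by simp only; omega), one_mul]
      · intro c _ hc
        rw [if_neg, zero_mul]
        intro h2
        apply hc
        ext
        simp only
        omega
      · intro h2
        exact absurd (Finset.mem_univ _) h2
  · simp only [if_neg hb, mul_zero, Finset.sum_const_zero]

private lemma b1_colE_colE (ρ σ : Fin (k + 1) → S) :
    colE ρ * colE σ = colE fun a => ρ a * σ (Fin.last k) := by
  ext a b
  simp only [colE, Matrix.mul_apply]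
  by_cases hb : b = Fin.last k
  · simp only [if_pos hb]
    rw [Finset.sum_eq_single (Fin.last k)]
    · rw [if_pos rfl]
    · intro c _ hc
      rw [if_neg hc, zero_mul]
    · intro h2
      exact absurd (Finset.mem_univ _) h2
  · simp only [if_neg hb, mul_zero, Finset.sum_const_zero]

private lemma b1_add (ρ σ : Fin (k + 1) → S) :
    colE ρ + colE σ = colE fun a => ρ a + σ a := by
  ext a b
  simp only [colE, Matrix.add_apply]
  split_ifs <;> simp

private lemma b1_sub (ρ σ : Fin (k + 1) → S) :
    colE ρ - colE σ = colE fun a => ρ a - σ a := by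
  ext a b
  simp only [colE, Matrix.sub_apply]
  split_ifs <;> simp

private lemma b1_mat_colE (D : Der S) (ρ : Fin (k + 1) → S) :
    D.mat (colE ρ) = colE fun a => D (ρ a) := by
  ext a b
  simp only [colE, Der.mat_apply]
  split_ifs
  · rfl
  · exact map_zero D

private lemma b1_mat_Jm (D : Der S) : D.mat (Jm (k := k)) = 0 := by
  ext a b
  simp only [Jm, Der.mat_apply, Matrix.zero_apply]
  split_ifs
  · exact D.map_one'
  · exact map_zero D

private lemma b1_mat_dg (D : Der S) (A : S) (h : D A = 0) : D.mat (dg (k := k) A) = 0 := by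
  ext a b
  simp only [dg, Der.mat_apply, Matrix.zero_apply, Matrix.diagonal_apply]
  split_ifs
  · exact h
  · exact map_zero D

private lemma b1_rho_last (B : ℕ → S) (β : S) : rho (k := k) B β (Fin.last k) = B 1 + β := by
  simp only [rho, if_pos, Fin.val_last]
  congr 2
  omega

private lemma b1_D_rho (D : Der S) (B : ℕ → S) (β : S) (hDβ : D β = 0) (a : Fin (k + 1)) :
    D (rho B β a) = D (B (k + 1 - a.val)) := by
  simp only [rho, map_add]
  split_ifs
  · rw [hDβ, add_zero]
  · rw [map_zero, add_zero]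

/-- the commutator of `OmT` with a diagonal block matrix -/
private lemma b1_comm (B : ℕ → S) (β R A : S) :
    dg A * OmT (k := k) B β R - OmT (k := k) B β R * dg A
      = colE fun a => A * (rho (k := k) B β a * R) - rho (k := k) B β a * R * A := by
  rw [OmT, mul_add, add_mul, b1_Jm_dg, b1_dg_colE, b1_colE_dg, add_sub_add_left_eq_sub, b1_sub]

private lemma b1_OmT_colE (B : ℕ → S) (β R : S) (τ : Fin (k + 1) → S) :
    OmT (k := k) B β R * colE τ
      = colE fun a => b1_sh τ a + rho (k := k) B β a * R * τ (Fin.last k) := by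
  rw [OmT, add_mul, b1_Jm_colE, b1_colE_colE, b1_add]

private lemma b1_sh_rho (B : ℕ → S) (β : S) (a : Fin (k + 1)) (ha : a.val ≠ 0) :
    rho (k := k) B β ⟨a.val - 1, by omega⟩ = B (k + 1 - a.val + 1) := by
  have h : (⟨a.val - 1, by omega⟩ : Fin (k + 1)) ≠ Fin.last k := by
    intro h
    have := congrArg Fin.val h
    simp only [Fin.val_last] at this
    omega
  simp only [rho, if_neg h, add_zero]
  congr 1
  omega

/-- Lemma 1.1 (module b1). -/
theorem curvature (D T : Der S) (B : ℕ → S) (β R A : S)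
    (hk : ∀ j, k + 1 < j → B j = 0)
    (hTR : T R = -(R * R)) (hDR : D R = R * D (B 0) * R) (hAR : A * R = R * A)
    (hTA : T A = 0) (hTB : ∀ j, T (B j) = 0) (hTβ : T β = 0) (hDβ : D β = 0)
    (hβ : ∀ x, β * x = x * β) :
    D.mat (OmT (k := k) B β R) - T.mat (OmD (k := k) B β R A)
      + OmD (k := k) B β R A * OmT (k := k) B β R - OmT (k := k) B β R * OmD (k := k) B β R A
    = omT B β R fun j => D (B j) + (if j = 0 then A else 0)
        + (A * B (j + 1) - B (j + 1) * A) := by
  have h1 : OmD (k := k) B β R A * OmT (k := k) B β R - OmT (k := k) B β R * OmD (k := k) B β R A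
      = OmT (k := k) B β R * (dg A * OmT (k := k) B β R - OmT (k := k) B β R * dg A) := by
    rw [OmD]; noncomm_ring
  have hTρ : ∀ a, T (rho (k := k) B β a) = 0 := fun a => by
    rw [b1_D_rho T B β hTβ, hTB]
  have h2 : T.mat (OmD (k := k) B β R A)
      = colE fun a => -(rho (k := k) B β a * (R * R) * A) := by
    rw [OmD, Der.leib, b1_mat_dg T A hTA, mul_zero, add_zero, OmT, map_add, b1_mat_Jm, zero_add,
      b1_mat_colE, b1_colE_dg]
    congr 1
    funext a
    rw [Der.leib, hTρ, zero_mul, zero_add, hTR]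
    noncomm_ring
  have h3 : D.mat (OmT (k := k) B β R)
      = colE fun a => D (B (k + 1 - a.val)) * R + rho (k := k) B β a * (R * D (B 0) * R) := by
    rw [OmT, map_add, b1_mat_Jm, zero_add, b1_mat_colE]
    congr 1
    funext a
    rw [Der.leib, b1_D_rho D B β hDβ, hDR]
  rw [add_sub_assoc, h1, h2, h3, b1_comm, b1_OmT_colE, b1_sub, b1_add, omT]
  congr 1
  funext a
  rw [b1_rho_last]
  have hne : k + 1 - a.val ≠ 0 := by omega
  simp only [if_neg hne, if_pos, b1_sh]
  have hβA := hβ A
  split_ifs with ha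
  · have hz : B (k + 1 - a.val + 1) = 0 := hk _ (by omega)
    rw [hz]
    generalize rho (k := k) B β a = r
    generalize D (B (k + 1 - a.val)) = d
    linear_combination (norm := noncomm_ring)
      (-(r * R) + r * R * B 1 + r * R * β) * hAR - r * R * hβA * R
  · rw [b1_sh_rho B β a ha]
    generalize rho (k := k) B β a = r
    generalize D (B (k + 1 - a.val)) = d
    generalize B (k + 1 - a.val + 1) = e
    linear_combination (norm := noncomm_ring)
      (-(r * R) + r * R * B 1 + r * R * β + e) * hAR - r * R * hβA * R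

/-- Lemma 6.1 (module b2) -/
theorem linearised (D T : Der S) (B b : ℕ → S) (β R A α : S)
    (hk : ∀ j, k + 1 < j → B j = 0) (hb : ∀ j, k < j → b j = 0)
    (hTR : T R = -(R * R)) (hDR : D R = R * D (B 0) * R) (hAR : A * R = R * A)
    (hTA : T A = 0) (hTB : ∀ j, T (B j) = 0) (hTβ : T β = 0) (hDβ : D β = 0)
    (hβ : ∀ x, β * x = x * β) (hTb : ∀ j, T (b j) = 0) (hTα : T α = 0)
    (hB : ∀ j, D (B j) = -(if j = 0 then A else 0) - (A * B (j + 1) - B (j + 1) * A))
    (hα : α * B 0 - B 0 * α + (A * b 0 - b 0 * A) = 0)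
    (hαR : α * R - R * α = R * (α * B 0 - B 0 * α) * R) :
    (D.mat (omT (k := k) B β R b) + OmD (k := k) B β R A * omT (k := k) B β R b
        - omT (k := k) B β R b * OmD (k := k) B β R A)
      - (T.mat (omD (k := k) B β R A α b) + OmT (k := k) B β R * omD (k := k) B β R A α b
        - omD (k := k) B β R A α b * OmT (k := k) B β R)
    = omT B β R (Lam D B A α b) := by
  have hTρ : ∀ a, T (rho (k := k) B β a) = 0 := fun a => by
    rw [b1_D_rho T B β hTβ, hTB]
  have h1 : (D.mat (omT (k := k) B β R b) + OmD (k := k) B β R A * omT (k := k) B β R b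
        - omT (k := k) B β R b * OmD (k := k) B β R A)
      - (T.mat (omD (k := k) B β R A α b) + OmT (k := k) B β R * omD (k := k) B β R A α b
        - omD (k := k) B β R A α b * OmT (k := k) B β R)
      = D.mat (omT (k := k) B β R b) - T.mat (omT (k := k) B β R b) * dg A
        - T.mat (OmT (k := k) B β R) * dg α
        + OmT (k := k) B β R * (dg A * omT (k := k) B β R b - omT (k := k) B β R b * dg A)
        + omT (k := k) B β R b * (dg A * OmT (k := k) B β R - OmT (k := k) B β R * dg A)
        + OmT (k := k) B β R * (dg α * OmT (k := k) B β R - OmT (k := k) B β R * dg α) := by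
    rw [omD, OmD, map_add, Der.leib, Der.leib, b1_mat_dg T A hTA, b1_mat_dg T α hTα]
    noncomm_ring
  set σ : Fin (k + 1) → S := fun a => (b (k + 1 - a.val) + rho (k := k) B β a * R * b 0) * R with hσ
  have hom : omT (k := k) B β R b = colE σ := rfl
  have hTO : T.mat (OmT (k := k) B β R) = colE fun a => -(rho (k := k) B β a * (R * R)) := by
    rw [OmT, map_add, b1_mat_Jm, zero_add, b1_mat_colE]
    congr 1
    funext a
    rw [Der.leib, hTρ, zero_mul, zero_add, hTR]
    noncomm_ring
  have hDσ : ∀ a, D (σ a) = (D (b (k + 1 - a.val)) + D (B (k + 1 - a.val)) * R * b 0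
      + rho (k := k) B β a * (R * D (B 0) * R) * b 0 + rho (k := k) B β a * R * D (b 0)) * R
      + (b (k + 1 - a.val) + rho (k := k) B β a * R * b 0) * (R * D (B 0) * R) := fun a => by
    rw [hσ]
    simp only [Der.leib, map_add]
    rw [b1_D_rho D B β hDβ, hDR]
    noncomm_ring
  have hTσ : ∀ a, T (σ a) = -(rho (k := k) B β a * (R * R) * b 0 * R)
      - (b (k + 1 - a.val) + rho (k := k) B β a * R * b 0) * (R * R) := fun a => by
    rw [hσ]
    simp only [Der.leib, map_add]
    rw [hTρ, hTR, hTb, hTb]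
    noncomm_ring
  rw [h1, b1_comm, b1_comm, hom, b1_mat_colE, b1_mat_colE, hTO, b1_colE_dg, b1_colE_dg,
    b1_dg_colE, b1_colE_dg, b1_sub, b1_sub, b1_sub, b1_OmT_colE, b1_colE_colE, b1_OmT_colE,
    b1_add, b1_add, b1_add, omT]
  congr 1
  funext a
  rw [hDσ, hTσ, b1_rho_last, hσ]
  simp only [b1_rho_last, b1_sh, Lam]
  have hne : k + 1 - a.val ≠ 0 := by omega
  have hlast : k + 1 - (Fin.last k).val = 1 := by rw [Fin.val_last]; omega
  simp only [if_neg hne, if_pos, hlast]
  have hβA := hβ A
  have hβα := hβ α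
  have hB0 := hB 0
  rw [if_pos rfl] at hB0
  have hBj := hB (k + 1 - a.val)
  rw [if_neg hne] at hBj
  split_ifs with ha
  · have hz : B (k + 1 - a.val + 1) = 0 := hk _ (by omega)
    have hz2 : b (k + 1 - a.val) = 0 := hb _ (by omega)
    have hz3 : b (k + 1 - a.val + 1) = 0 := hb _ (by omega)
    rw [hz] at hBj ⊢
    rw [hz2, hz3, hBj, hB0]
    generalize rho (k := k) B β a = r
    linear_combination (norm := noncomm_ring)
      r * R * b 0 * R * (-1 + B 1 + β) * hAR - r * R * b 0 * R * hβA * R
      + r * R * b 1 * hAR + r * R * (B 1 + β) * hαR - r * R * hβα * R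
      - r * R * hβA * R * b 0 * R + r * R * (B 1 + β) * hAR * b 0 * R
      + r * R * (B 1 + β) * R * hα * R + r * R * (B 1 + β) * R * b 0 * hAR
      - r * R * hαR - r * R * R * hα * R - r * R * hAR * b 0 * R - r * R * R * b 0 * hAR
  · rw [b1_sh_rho B β a ha, hBj, hB0]
    have hi : k + 1 - (a.val - 1) = k + 1 - a.val + 1 := by omega
    simp only [hi]
    generalize rho (k := k) B β a = r
    generalize b (k + 1 - a.val) = c
    generalize b (k + 1 - a.val + 1) = c'
    generalize B (k + 1 - a.val + 1) = e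
    linear_combination (norm := noncomm_ring)
      (c + r * R * b 0) * R * (-1 + B 1 + β) * hAR - (c + r * R * b 0) * R * hβA * R
      + e * hαR + e * R * hα * R + e * hAR * b 0 * R + e * R * b 0 * hAR + c' * hAR
      + r * R * b 1 * hAR + r * R * (B 1 + β) * hαR - r * R * hβα * R
      - r * R * hβA * R * b 0 * R + r * R * (B 1 + β) * hAR * b 0 * R
      + r * R * (B 1 + β) * R * hα * R + r * R * (B 1 + β) * R * b 0 * hAR
      - r * R * hαR - r * R * R * hα * R - r * R * hAR * b 0 * R - r * R * R * b 0 * hAR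

end blk

end Pool.Agent.Fbc
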