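import Pool.Agent.Fbc.Val

/-!
# module t2: connections `θ + G`, growth
-/

set_option autoImplicit false

namespace Pool.Agent.Fbc

open Polynomial

section general

variable {L L' : Type} [CommRing L] [CommRing L'] {ι : Type} [Fintype ι] [DecidableEq ι]

/-- `[θ₁ + G₁, θ₂ + G₂] = 0` for commuting `θ₁`, `θ₂` -/
def Flat (θ₁ θ₂ : Der L) (G₁ G₂ : Matrix ι ι L) : Prop :=
  G₂.map θ₁ - G₁.map θ₂ + G₁ * G₂ - G₂ * G₁ = 0

lemma con_add (θ : Der L) (G : Matrix ι ι L) (v w : ι → L) :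
    con θ G (v + w) = con θ G v + con θ G w := by
  funext i
  simp only [con, Pi.add_apply, map_add, Matrix.mulVec_add]
  ring

lemma con_smul (θ : Der L) (G : Matrix ι ι L) (x : L) (v : ι → L) :
    con θ G (x • v) = θ x • v + x • con θ G v := by
  funext i
  simp only [con, Pi.add_apply, Pi.smul_apply, smul_eq_mul, Der.leib, Matrix.mulVec_smul]
  ring

/-- the columns of `itr` are the iterates of the basis vectors -/
lemma con_iterate_single (θ : Der L) (G : Matrix ι ι L) (n : ℕ) (j : ι) :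
    (con θ G)^[n] (Pi.single j 1) = fun i => itr θ G n i j := by
  induction n with
  | zero =>
    funext i
    simp only [Function.iterate_zero, id, itr, Matrix.one_apply, Pi.single_apply]
  | succ n ih =>
    rw [Function.iterate_succ_apply', ih]
    rfl

private lemma Conn_dv (θ : Der L) (M : Matrix ι ι L) (w : ι → L) (i : ι) :
    θ (M.mulVec w i) = (M.map θ).mulVec w i + M.mulVec (fun j => θ (w j)) i := by
  simp only [Matrix.mulVec, dotProduct, map_sum, Der.leib, Matrix.map_apply, Finset.sum_add_distrib]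

private lemma Conn_con_mulVec (θ : Der L) (G M : Matrix ι ι L) (w : ι → L) :
    con θ G (M.mulVec w) = (M.map θ + G * M).mulVec w + M.mulVec (fun j => θ (w j)) := by
  funext i
  simp only [con, Conn_dv, Matrix.add_mulVec, Matrix.mulVec_mulVec, Pi.add_apply]
  ring

private lemma Conn_con_zero (θ : Der L) (G : Matrix ι ι L) : con θ G 0 = 0 := by
  funext i
  simp only [con, Matrix.mulVec_zero, Pi.zero_apply, map_zero, add_zero]

private lemma Conn_con_sum (θ : Der L) (G : Matrix ι ι L) {κ : Type} (s : Finset κ) (f : κ → ι → L) :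
    con θ G (∑ a ∈ s, f a) = ∑ a ∈ s, con θ G (f a) := by
  classical
  induction s using Finset.induction_on with
  | empty => rw [Finset.sum_empty, Finset.sum_empty, Conn_con_zero]
  | insert a s ha ih => rw [Finset.sum_insert ha, Finset.sum_insert ha, con_add, ih]

private lemma Conn_nat (θ : Der L) (n : ℕ) : θ (n : L) = 0 := by
  induction n with
  | zero => rw [Nat.cast_zero, map_zero]
  | succ n ih => rw [Nat.cast_succ, map_add, ih, θ.map_one', add_zero]

private lemma Conn_pascal (n : ℕ) (a : ℕ → ι → L) :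
    ∑ i ∈ Finset.range (n + 1), ((n.choose i : ℕ) : L) • (a (i + 1) + a i) =
      ∑ i ∈ Finset.range (n + 2), (((n + 1).choose i : ℕ) : L) • a i := by
  rw [Finset.sum_range_succ' _ (n + 1)]
  simp only [smul_add, Finset.sum_add_distrib, Nat.choose_succ_succ, Nat.cast_add, add_smul]
  have h1 : ∑ i ∈ Finset.range (n + 1), ((n.choose i : ℕ) : L) • a i =
      ∑ i ∈ Finset.range n, ((n.choose (i + 1) : ℕ) : L) • a (i + 1) + ((n.choose 0 : ℕ) : L) • a 0 :=
    Finset.sum_range_succ' _ n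
  have h2 : ∑ i ∈ Finset.range (n + 1), ((n.choose i.succ : ℕ) : L) • a (i + 1) =
      ∑ i ∈ Finset.range n, ((n.choose (i + 1) : ℕ) : L) • a (i + 1) := by
    rw [Finset.sum_range_succ, Nat.choose_succ_self, Nat.cast_zero, zero_smul, add_zero]
  rw [h1]
  simp only [Nat.succ_eq_add_one] at h2
  rw [h2]
  simp only [Nat.choose_zero_right]
  abel

/-- Leibniz for the iterates -/
lemma con_iterate (θ : Der L) (G : Matrix ι ι L) (n : ℕ) (v : ι → L) :
    (con θ G)^[n] v = ∑ i ∈ Finset.range (n + 1), (n.choose i : L) •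
      (itr θ G i).mulVec (fun j => (θ^[n - i]) (v j)) := by
  induction n with
  | zero =>
    simp only [Function.iterate_zero, id, zero_add, Finset.range_one, Finset.sum_singleton,
      Nat.choose_self, Nat.cast_one, one_smul, itr, Matrix.one_mulVec, Nat.sub_self]
  | succ n ih =>
    rw [Function.iterate_succ_apply', ih, Conn_con_sum,
      ← Conn_pascal n (fun i => (itr θ G i).mulVec (fun j => (θ^[n + 1 - i]) (v j)))]
    refine Finset.sum_congr rfl fun i hi => ?_
    have hi' : i ≤ n := Nat.lt_succ_iff.1 (Finset.mem_range.1 hi)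
    rw [con_smul, Conn_nat, zero_smul, zero_add, Conn_con_mulVec]
    congr 1
    have e1 : n + 1 - (i + 1) = n - i := by omega
    have e2 : n + 1 - i = (n - i) + 1 := by omega
    simp only [e1, e2, Function.iterate_succ_apply']
    rfl

lemma itr_add (θ : Der L) (G : Matrix ι ι L) (m n : ℕ) (j : ι) :
    (con θ G)^[m] (fun i => itr θ G n i j) = fun i => itr θ G (m + n) i j := by
  rw [← con_iterate_single, ← Function.iterate_add_apply, con_iterate_single]

lemma itr_map (φ : L →+* L') (θ : Der L) (θ' : Der L') (h : ∀ x, φ (θ x) = θ' (φ x))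
    (G : Matrix ι ι L) (n : ℕ) : (itr θ G n).map φ = itr θ' (G.map φ) n := by
  induction n with
  | zero =>
    simp only [itr]
    exact Matrix.map_one φ (map_zero φ) (map_one φ)
  | succ n ih =>
    simp only [itr]
    rw [← ih]
    ext i j
    simp only [Matrix.map_apply, Matrix.add_apply, Matrix.mul_apply, map_add, map_sum, map_mul, h]

private lemma Conn_curv {θ₁ θ₂ : Der L} (hθ : ∀ x, θ₁ (θ₂ x) = θ₂ (θ₁ x)) (G₁ G₂ : Matrix ι ι L)
    (v : ι → L) : con θ₁ G₁ (con θ₂ G₂ v) - con θ₂ G₂ (con θ₁ G₁ v) =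
      (G₂.map θ₁ - G₁.map θ₂ + G₁ * G₂ - G₂ * G₁).mulVec v := by
  have key : ∀ (θ θ' : Der L) (G G' : Matrix ι ι L) (i : ι), con θ G (con θ' G' v) i =
      θ (θ' (v i)) + (G'.map θ).mulVec v i + G'.mulVec (fun j => θ (v j)) i +
        G.mulVec (fun j => θ' (v j)) i + (G * G').mulVec v i := by
    intro θ θ' G G' i
    have e : con θ' G' v = (fun j => θ' (v j)) + G'.mulVec v := rfl
    rw [e, con_add, Conn_con_mulVec]
    simp only [Pi.add_apply, con, Matrix.add_mulVec]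
    ring
  funext i
  rw [Pi.sub_apply, key, key, hθ]
  simp only [Matrix.sub_mulVec, Matrix.add_mulVec, Pi.add_apply, Pi.sub_apply]
  ring

lemma con_comm {θ₁ θ₂ : Der L} (hθ : ∀ x, θ₁ (θ₂ x) = θ₂ (θ₁ x)) {G₁ G₂ : Matrix ι ι L}
    (h : Flat θ₁ θ₂ G₁ G₂) (v : ι → L) :
    con θ₁ G₁ (con θ₂ G₂ v) = con θ₂ G₂ (con θ₁ G₁ v) := by
  have h1 := Conn_curv hθ G₁ G₂ v
  rw [Flat] at h
  rw [h, Matrix.zero_mulVec] at h1
  exact sub_eq_zero.1 h1

/-- change of basis `v = P w` -/
lemma con_gauge (θ : Der L) (G P Q : Matrix ι ι L) (hPQ : P * Q = 1) (w : ι → L) :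
    con θ G (P.mulVec w) = P.mulVec (con θ (Q * (P.map θ + G * P)) w) := by
  have e : con θ (Q * (P.map θ + G * P)) w =
      (fun j => θ (w j)) + (Q * (P.map θ + G * P)).mulVec w := rfl
  rw [e, Conn_con_mulVec, Matrix.mulVec_add, Matrix.mulVec_mulVec, ← Matrix.mul_assoc, hPQ,
    Matrix.one_mul, add_comm]

private lemma Conn_gauge' (θ : Der L) (G P Q : Matrix ι ι L) (hPQ : P * Q = 1) (w : ι → L) :
    con θ (Q * (P.map θ + G * P)) w = Q.mulVec (con θ G (P.mulVec w)) := by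
  rw [con_gauge θ G P Q hPQ, Matrix.mulVec_mulVec, mul_eq_one_comm.1 hPQ, Matrix.one_mulVec]

/-- flatness is independent of the basis -/
lemma Flat.gauge {θ₁ θ₂ : Der L} (hθ : ∀ x, θ₁ (θ₂ x) = θ₂ (θ₁ x)) {G₁ G₂ P Q : Matrix ι ι L}
    (hPQ : P * Q = 1) (h : Flat θ₁ θ₂ G₁ G₂) :
    Flat θ₁ θ₂ (Q * (P.map θ₁ + G₁ * P)) (Q * (P.map θ₂ + G₂ * P)) := by
  have h1 : ∀ w : ι → L, ((Q * (P.map θ₂ + G₂ * P)).map θ₁ - (Q * (P.map θ₁ + G₁ * P)).map θ₂ +
      (Q * (P.map θ₁ + G₁ * P)) * (Q * (P.map θ₂ + G₂ * P)) -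
      (Q * (P.map θ₂ + G₂ * P)) * (Q * (P.map θ₁ + G₁ * P))).mulVec w = 0 := by
    intro w
    rw [← Conn_curv hθ, Conn_gauge' θ₁ G₁ P Q hPQ, Conn_gauge' θ₂ G₂ P Q hPQ,
      Conn_gauge' θ₂ G₂ P Q hPQ, Conn_gauge' θ₁ G₁ P Q hPQ]
    simp only [Matrix.mulVec_mulVec, hPQ, Matrix.one_mulVec]
    rw [con_comm hθ h, sub_self]
  rw [Flat]
  ext i j
  have h2 := congrFun (h1 (Pi.single j 1)) i
  rw [Matrix.mulVec_single_one] at h2
  exact h2

end general

section growth

variable {k : Type} [Field k] {ι : Type} [Fintype ι] [DecidableEq ι]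

/-- `θ` preserves the valuation filtration -/
def Pres (θ : Der (LS k)) : Prop := ∀ (c : ℝ) (x : LS k), Vge c x → Vge c (θ x)

lemma pres_zd : Pres (zd : Der (LS k)) := fun _ _ h => h.zd

lemma pres_cd (δ : Der k) : Pres (cd δ) := fun _ _ h => h.cd δ

lemma Gr.mono {θ : Der (LS k)} {G : Matrix ι ι (LS k)} {σ σ' : ℝ} (h : Gr θ G σ)
    (hσ : σ ≤ σ') : Gr θ G σ' := by
  obtain ⟨C, hC⟩ := h
  refine ⟨C, fun n => (hC n).mono ?_⟩
  have h1 : σ * n ≤ σ' * n := mul_le_mul_of_nonneg_right hσ (Nat.cast_nonneg n)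
  linarith

private lemma Conn_pres_iter {θ : Der (LS k)} (hθ : Pres θ) (n : ℕ) {c : ℝ} {x : LS k}
    (h : Vge c x) : Vge c (θ^[n] x) := by
  induction n with
  | zero => exact h
  | succ n ih =>
    rw [Function.iterate_succ_apply']
    exact hθ _ _ ih

omit [Fintype ι] [DecidableEq ι] in
private lemma Conn_vsum {κ : Type} {s : Finset κ} {c : ℝ} {f : κ → ι → LS k}
    (h : ∀ a ∈ s, VVge c (f a)) : VVge c (∑ a ∈ s, f a) := by
  intro i
  rw [Finset.sum_apply]
  exact Vge.sum fun a ha => h a ha i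

/-- growth on vectors -/
lemma Gr.vec {θ : Der (LS k)} (hθ : Pres θ) {G : Matrix ι ι (LS k)} {σ : ℝ} (hσ : 0 ≤ σ)
    (h : Gr θ G σ) : ∃ C : ℝ, 0 ≤ C ∧ ∀ (n : ℕ) (c : ℝ) (v : ι → LS k), VVge c v →
      VVge (c - σ * n - C) ((con θ G)^[n] v) := by
  obtain ⟨C, hC⟩ := h
  refine ⟨|C|, abs_nonneg C, fun n c v hv => ?_⟩
  rw [con_iterate]
  refine Conn_vsum fun i hi => ?_
  have hi' : i ≤ n := Nat.lt_succ_iff.1 (Finset.mem_range.1 hi)
  have h1 : VVge (-(σ * i) - C + c) ((itr θ G i).mulVec (fun j => (θ^[n - i]) (v j))) :=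
    (hC i).mulVec fun j => Conn_pres_iter hθ _ (hv j)
  intro a
  rw [Pi.smul_apply, smul_eq_mul]
  refine (Vge.natCast _).mul0 ((h1 a).mono ?_)
  have h2 : σ * i ≤ σ * n := mul_le_mul_of_nonneg_left (by exact_mod_cast hi') hσ
  linarith [le_abs_self C]

lemma Gr_of_vec {θ : Der (LS k)} {G : Matrix ι ι (LS k)} {σ : ℝ}
    (h : ∃ C : ℝ, ∀ (n : ℕ) (j : ι), VVge (-(σ * n) - C) ((con θ G)^[n] (Pi.single j 1))) :
    Gr θ G σ := by
  obtain ⟨C, hC⟩ := h
  refine ⟨C, fun n i j => ?_⟩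
  have h1 := hC n j i
  rw [con_iterate_single] at h1
  exact h1

/-- a trivial bound -/
lemma Gr_of_MVge {θ : Der (LS k)} (hθ : Pres θ) {G : Matrix ι ι (LS k)} {c : ℝ} (hc : 0 ≤ c)
    (h : MVge (-c) G) : Gr θ G c := by
  refine ⟨0, fun n => ?_⟩
  induction n with
  | zero =>
    refine MVge.one.mono ?_
    simp
  | succ n ih =>
    have e : -(c * ((n + 1 : ℕ) : ℝ)) - 0 = -c + (-(c * n) - 0) := by
      push_cast
      ring
    rw [e]
    refine MVge.add ?_ (h.mul ih)
    intro i j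
    exact (hθ _ _ (ih i j)).mono (by linarith)

private lemma Conn_single (j : ι) : VVge 0 (Pi.single j (1 : LS k) : ι → LS k) := by
  intro i
  rw [Pi.single_apply]
  split_ifs
  · exact Vge.one
  · exact Vge.zero 0

/-- growth is invariant under change of basis -/
lemma Gr.gauge {θ : Der (LS k)} (hθ : Pres θ) {G P Q : Matrix ι ι (LS k)} (hPQ : P * Q = 1)
    {σ : ℝ} (hσ : 0 ≤ σ) (h : Gr θ G σ) : Gr θ (Q * (P.map θ + G * P)) σ := by
  obtain ⟨C, hC0, hC⟩ := Gr.vec hθ hσ h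
  obtain ⟨cP, hP⟩ := exists_MVge P
  obtain ⟨cQ, hQ⟩ := exists_MVge Q
  have hQP : Q * P = 1 := mul_eq_one_comm.1 hPQ
  have hit : ∀ (n : ℕ) (w : ι → LS k), (con θ (Q * (P.map θ + G * P)))^[n] w =
      Q.mulVec ((con θ G)^[n] (P.mulVec w)) := by
    intro n w
    induction n with
    | zero =>
      rw [Function.iterate_zero, id, Function.iterate_zero, id, Matrix.mulVec_mulVec, hQP,
        Matrix.one_mulVec]
    | succ n ih =>
      rw [Function.iterate_succ_apply', ih, Conn_gauge' θ G P Q hPQ, Matrix.mulVec_mulVec, hPQ,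
        Matrix.one_mulVec, Function.iterate_succ_apply']
  refine Gr_of_vec ⟨C - cP - cQ, fun n j => ?_⟩
  rw [hit]
  have h1 := hQ.mulVec (hC n (cP + 0) _ (hP.mulVec (Conn_single j)))
  intro i
  refine (h1 i).mono ?_
  linarith

private lemma Conn_iter_add (θ : Der (LS k)) (G : Matrix ι ι (LS k)) (n : ℕ) (v w : ι → LS k) :
    (con θ G)^[n] (v + w) = (con θ G)^[n] v + (con θ G)^[n] w := by
  induction n generalizing v w with
  | zero => rfl
  | succ n ih => rw [Function.iterate_succ_apply, con_add, ih, Function.iterate_succ_apply,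
      Function.iterate_succ_apply]

/-- Lemma 2.2 of the text -/
theorem Gr.comb {θ₁ θ₂ : Der (LS k)} (h₁ : Pres θ₁) (h₂ : Pres θ₂)
    (hθ : ∀ x, θ₁ (θ₂ x) = θ₂ (θ₁ x)) {G₁ G₂ : Matrix ι ι (LS k)} (hflat : Flat θ₁ θ₂ G₁ G₂)
    {σ : ℝ} (hσ : 0 ≤ σ) (hg₁ : Gr θ₁ G₁ σ) (hg₂ : Gr θ₂ G₂ σ) {φ ψ : LS k} (hφ : Vge 0 φ)
    (hψ : Vge 0 ψ) : Gr (φ • θ₁ + ψ • θ₂) (φ • G₁ + ψ • G₂) σ := by
  obtain ⟨C₁, hC₁0, hC₁⟩ := Gr.vec h₁ hσ hg₁
  obtain ⟨C₂, hC₂0, hC₂⟩ := Gr.vec h₂ hσ hg₂
  -- the filtration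
  let V : ℝ → (ι → LS k) → Prop := fun c v => ∀ a b : ℕ,
    VVge (c - σ * (a + b)) ((con θ₁ G₁)^[a] ((con θ₂ G₂)^[b] v))
  have hcomm : ∀ v, con θ₁ G₁ (con θ₂ G₂ v) = con θ₂ G₂ (con θ₁ G₁ v) := con_comm hθ hflat
  have hcomm' : ∀ (b : ℕ) (v : ι → LS k), (con θ₂ G₂)^[b] (con θ₁ G₁ v) =
      con θ₁ G₁ ((con θ₂ G₂)^[b] v) := by
    intro b
    induction b with
    | zero => intro v; rfl
    | succ b ih =>
      intro v
      rw [Function.iterate_succ_apply, ← hcomm, ih, Function.iterate_succ_apply]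
  have V1 : ∀ c v, V c v → V (c - σ) (con θ₁ G₁ v) := by
    intro c v hv a b
    rw [hcomm', ← Function.iterate_succ_apply]
    have := hv (a + 1) b
    intro i
    refine (this i).mono ?_
    push_cast
    linarith
  have V2 : ∀ c v, V c v → V (c - σ) (con θ₂ G₂ v) := by
    intro c v hv a b
    rw [← Function.iterate_succ_apply (con θ₂ G₂)]
    have := hv a (b + 1)
    intro i
    refine (this i).mono ?_
    push_cast
    linarith
  have Vadd : ∀ c v w, V c v → V c w → V c (v + w) := by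
    intro c v w hv hw a b i
    rw [Conn_iter_add, Conn_iter_add, Pi.add_apply]
    exact (hv a b i).add (hw a b i)
  have Vs0 : ∀ (a : ℕ) (g : LS k) (c : ℝ) (v : ι → LS k), Vge 0 g → V c v →
      VVge (c - σ * a) ((con θ₁ G₁)^[a] (g • v)) := by
    intro a
    induction a with
    | zero =>
      intro g c v hg hv i
      have := hv 0 0 i
      rw [Function.iterate_zero, id, Pi.smul_apply, smul_eq_mul]
      refine hg.mul0 (this.mono ?_)
      simp
    | succ a ih =>
      intro g c v hg hv i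
      rw [Function.iterate_succ_apply, con_smul, Conn_iter_add, Pi.add_apply]
      refine Vge.add ((ih (θ₁ g) c v (h₁ _ _ hg) hv i).mono ?_)
        ((ih g (c - σ) (con θ₁ G₁ v) hg (V1 c v hv) i).mono ?_)
      · push_cast
        nlinarith
      · push_cast
        linarith
  have Vs : ∀ (b a : ℕ) (g : LS k) (c : ℝ) (v : ι → LS k), Vge 0 g → V c v →
      VVge (c - σ * (a + b)) ((con θ₁ G₁)^[a] ((con θ₂ G₂)^[b] (g • v))) := by
    intro b
    induction b with
    | zero =>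
      intro a g c v hg hv i
      refine (Vs0 a g c v hg hv i).mono ?_
      simp
    | succ b ih =>
      intro a g c v hg hv i
      rw [Function.iterate_succ_apply, con_smul, Conn_iter_add, Conn_iter_add, Pi.add_apply]
      refine Vge.add ((ih a (θ₂ g) c v (h₂ _ _ hg) hv i).mono ?_)
        ((ih a g (c - σ) (con θ₂ G₂ v) hg (V2 c v hv) i).mono ?_)
      · push_cast
        nlinarith
      · push_cast
        linarith
  have Vsmul : ∀ c g v, Vge 0 g → V c v → V c (g • v) := fun c g v hg hv a b => Vs b a g c v hg hv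
  have hcon : ∀ v, con (φ • θ₁ + ψ • θ₂) (φ • G₁ + ψ • G₂) v =
      φ • con θ₁ G₁ v + ψ • con θ₂ G₂ v := by
    intro v
    funext i
    simp only [con, Der.add_apply, Der.smul_apply, Matrix.add_mulVec, Matrix.smul_mulVec,
      Pi.add_apply, Pi.smul_apply, smul_eq_mul]
    ring
  have Vcon : ∀ c v, V c v → V (c - σ) (con (φ • θ₁ + ψ • θ₂) (φ • G₁ + ψ • G₂) v) := by
    intro c v hv
    rw [hcon]
    exact Vadd _ _ _ (Vsmul _ _ _ hφ (V1 c v hv)) (Vsmul _ _ _ hψ (V2 c v hv))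
  have Vit : ∀ (n : ℕ) c v, V c v →
      V (c - σ * n) ((con (φ • θ₁ + ψ • θ₂) (φ • G₁ + ψ • G₂))^[n] v) := by
    intro n
    induction n with
    | zero =>
      intro c v hv
      simpa using hv
    | succ n ih =>
      intro c v hv
      rw [Function.iterate_succ_apply']
      have := Vcon _ _ (ih c v hv)
      have e : c - σ * ((n + 1 : ℕ) : ℝ) = c - σ * n - σ := by
        push_cast
        ring
      rw [e]
      exact this
  have Vst : ∀ j : ι, V (-C₁ - C₂) (Pi.single j 1) := by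
    intro j a b i
    refine (hC₁ a _ _ (hC₂ b 0 _ (Conn_single j)) i).mono ?_
    linarith
  refine Gr_of_vec ⟨C₁ + C₂, fun n j i => ?_⟩
  have := Vit n _ _ (Vst j) 0 0 i
  refine this.mono ?_
  simp
  linarith

end growth

end Pool.Agent.Fbc
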