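import Pool.Agent.Fbc.Star

/-!
# Convergent Laurent series (modules l1, l2)
-/

set_option autoImplicit false

namespace Pool.Agent.Fbc

open Polynomial

/-- the `ℓ¹` norm at radius `ρ` is finite -/
def Lsum (ρ : ℝ) (x : K) : Prop := Summable fun n : ℤ => ‖x.coeff n‖ * ρ ^ n

/-- convergent Laurent series -/
def Cv (x : K) : Prop := ∃ ρ : ℝ, 0 < ρ ∧ Lsum ρ x

/-! ### module l1 -/

private lemma l1_fin {ρ : ℝ} {x : K} (N : ℤ) (h : ∀ n, N ≤ n → x.coeff n = 0) : Lsum ρ x := by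
  obtain ⟨M, hM⟩ := x.exists_lb
  refine summable_of_ne_finset_zero (s := Finset.Ico M N) fun n hn => ?_
  have h0 : x.coeff n = 0 := by
    rcases lt_or_ge n M with h1 | h1
    · exact hM n h1
    · rcases lt_or_ge n N with h2 | h2
      · exact absurd (Finset.mem_Ico.2 ⟨h1, h2⟩) hn
      · exact h n h2
  rw [h0, norm_zero, zero_mul]

lemma Lsum.mono {ρ ρ' : ℝ} (h0 : 0 < ρ') (h : ρ' ≤ ρ) {x : K} (hx : Lsum ρ x) : Lsum ρ' x := by
  obtain ⟨M, hM⟩ := x.exists_lb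
  have hρ : 0 < ρ := h0.trans_le h
  refine Summable.of_nonneg_of_le (fun n => by positivity) (fun n => ?_)
    (hx.mul_left ((ρ' / ρ) ^ M))
  rcases lt_or_ge n M with h1 | h1
  · rw [hM n h1, norm_zero, zero_mul, zero_mul, mul_zero]
  · have h2 : (ρ' / ρ) ^ n ≤ (ρ' / ρ) ^ M :=
      zpow_le_zpow_right_of_le_one₀ (div_pos h0 hρ) ((div_le_one hρ).2 h) h1
    have h3 : ρ' ^ n = (ρ' / ρ) ^ n * ρ ^ n := by
      rw [div_zpow, div_mul_cancel₀ _ (zpow_pos hρ n).ne']
    rw [h3]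
    calc ‖x.coeff n‖ * ((ρ' / ρ) ^ n * ρ ^ n) = (ρ' / ρ) ^ n * (‖x.coeff n‖ * ρ ^ n) := by ring
      _ ≤ (ρ' / ρ) ^ M * (‖x.coeff n‖ * ρ ^ n) := by gcongr

lemma Lsum.zero (ρ : ℝ) : Lsum ρ 0 := l1_fin 0 fun n _ => LS.coeff_zero n

lemma Lsum.single {ρ : ℝ} (n : ℤ) (a : ℂ) : Lsum ρ (LS.single n a) :=
  l1_fin (n + 1) fun m hm => by rw [LS.coeff_single, if_neg (by omega)]

lemma Lsum.one {ρ : ℝ} : Lsum ρ (1 : K) := by
  rw [← LS.single_zero_one]
  exact Lsum.single 0 1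

lemma Lsum.C {ρ : ℝ} (a : ℂ) : Lsum ρ (LS.C a) := by
  rw [LS.C_apply]
  exact Lsum.single 0 a

lemma Lsum.add {ρ : ℝ} (h0 : 0 < ρ) {x y : K} (hx : Lsum ρ x) (hy : Lsum ρ y) :
    Lsum ρ (x + y) := by
  refine Summable.of_nonneg_of_le (fun n => by positivity) (fun n => ?_) (Summable.add hx hy)
  rw [LS.coeff_add, ← add_mul]
  exact mul_le_mul_of_nonneg_right (norm_add_le _ _) (zpow_pos h0 n).le

lemma Lsum.neg {ρ : ℝ} {x : K} (hx : Lsum ρ x) : Lsum ρ (-x) := by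
  refine (summable_congr fun n => ?_).1 hx
  rw [LS.coeff_neg, norm_neg]

lemma Lsum.sub {ρ : ℝ} (h0 : 0 < ρ) {x y : K} (hx : Lsum ρ x) (hy : Lsum ρ y) :
    Lsum ρ (x - y) := by
  rw [sub_eq_add_neg]
  exact Lsum.add h0 hx (Lsum.neg hy)

lemma Lsum.mul {ρ : ℝ} (h0 : 0 < ρ) {x y : K} (hx : Lsum ρ x) (hy : Lsum ρ y) :
    Lsum ρ (x * y) := by
  obtain ⟨N, hN⟩ := x.exists_lb
  obtain ⟨M, hM⟩ := y.exists_lb
  let f : ℤ → ℝ := fun n => ‖x.coeff n‖ * ρ ^ n
  let g : ℤ → ℝ := fun n => ‖y.coeff n‖ * ρ ^ n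
  have hf : Summable f := hx
  have hg : Summable g := hy
  have f0 : ∀ n, 0 ≤ f n := fun n => by positivity
  have g0 : ∀ n, 0 ≤ g n := fun n => by positivity
  have h1 : Summable fun p : ℤ × ℤ => f p.1 * g p.2 := hf.mul_of_nonneg hg f0 g0
  let e : ℤ × ℤ ≃ ℤ × ℤ :=
    { toFun := fun p => (p.2, p.1 - p.2)
      invFun := fun p => (p.1 + p.2, p.1)
      left_inv := fun p => by ext <;> simp
      right_inv := fun p => by ext <;> simp }
  have h2 : Summable fun p : ℤ × ℤ => f p.2 * g (p.1 - p.2) := (e.summable_iff).2 h1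
  have h2' : 0 ≤ fun p : ℤ × ℤ => f p.2 * g (p.1 - p.2) := fun p => mul_nonneg (f0 _) (g0 _)
  obtain ⟨h3, h4⟩ := (summable_prod_of_nonneg h2').1 h2
  refine Summable.of_nonneg_of_le (fun n => by positivity) (fun n => ?_) h4
  have h5 : ∑ i ∈ Finset.Icc N (n - M), f i * g (n - i) ≤ ∑' i, f i * g (n - i) :=
    (h3 n).sum_le_tsum _ fun i _ => mul_nonneg (f0 _) (g0 _)
  refine le_trans ?_ h5
  rw [LS.coeff_mul hN hM]
  refine (mul_le_mul_of_nonneg_right (norm_sum_le _ _) (zpow_pos h0 n).le).trans ?_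
  rw [Finset.sum_mul]
  refine Finset.sum_le_sum fun i _ => le_of_eq ?_
  show ‖x.coeff i * y.coeff (n - i)‖ * ρ ^ n = ‖x.coeff i‖ * ρ ^ i * (‖y.coeff (n - i)‖ * ρ ^ (n - i))
  have h6 : ρ ^ n = ρ ^ i * ρ ^ (n - i) := by rw [← zpow_add₀ h0.ne', add_sub_cancel]
  rw [norm_mul, h6]
  ring

lemma Lsum.sum {ρ : ℝ} (h0 : 0 < ρ) {ι : Type} {s : Finset ι} {f : ι → K}
    (h : ∀ i ∈ s, Lsum ρ (f i)) : Lsum ρ (∑ i ∈ s, f i) := by
  classical
  induction s using Finset.induction_on with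
  | empty => rw [Finset.sum_empty]; exact Lsum.zero ρ
  | insert i s hi ih =>
    rw [Finset.sum_insert hi]
    exact Lsum.add h0 (h i (Finset.mem_insert_self i s))
      (ih fun j hj => h j (Finset.mem_insert_of_mem hj))

lemma Lsum.prod {ρ : ℝ} (h0 : 0 < ρ) {ι : Type} {s : Finset ι} {f : ι → K}
    (h : ∀ i ∈ s, Lsum ρ (f i)) : Lsum ρ (∏ i ∈ s, f i) := by
  classical
  induction s using Finset.induction_on with
  | empty => rw [Finset.prod_empty]; exact Lsum.one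
  | insert i s hi ih =>
    rw [Finset.prod_insert hi]
    exact Lsum.mul h0 (h i (Finset.mem_insert_self i s))
      (ih fun j hj => h j (Finset.mem_insert_of_mem hj))

lemma Lsum.pow {ρ : ℝ} (h0 : 0 < ρ) {x : K} (hx : Lsum ρ x) (n : ℕ) : Lsum ρ (x ^ n) := by
  induction n with
  | zero => rw [pow_zero]; exact Lsum.one
  | succ n ih => rw [pow_succ]; exact Lsum.mul h0 ih hx

private lemma l1_bd {r : ℝ} (h0 : 0 < r) (h1 : r < 1) (M : ℤ) :
    ∃ C : ℝ, ∀ n : ℤ, M ≤ n → |(n : ℝ)| * r ^ n ≤ C := by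
  refine ⟨r / (1 - r) + |(M : ℝ)| * r ^ M, fun n hn => ?_⟩
  have h2 : 0 < 1 - r := by linarith
  rcases lt_or_ge n 0 with h3 | h3
  · have h4 : |(n : ℝ)| ≤ |(M : ℝ)| := by
      have h5 : (n : ℝ) < 0 := by exact_mod_cast h3
      have h6 : (M : ℝ) ≤ n := by exact_mod_cast hn
      rw [abs_of_neg h5, abs_of_neg (h6.trans_lt h5)]
      linarith
    have h5 : r ^ n ≤ r ^ M := zpow_le_zpow_right_of_le_one₀ h0 h1.le hn
    have h6 : |(n : ℝ)| * r ^ n ≤ |(M : ℝ)| * r ^ M := by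
      have := (zpow_pos h0 n).le
      gcongr
    have h7 : 0 ≤ r / (1 - r) := by positivity
    linarith
  · obtain ⟨k, rfl⟩ := Int.eq_ofNat_of_zero_le h3
    have h4 : 0 ≤ |(M : ℝ)| * r ^ M := by positivity
    have h5 : (k : ℝ) * r ^ k ≤ r / (1 - r) := by
      have h6 : 1 + (k : ℝ) * ((1 - r) / r) ≤ (1 + (1 - r) / r) ^ k :=
        one_add_mul_le_pow (by
          have : 0 ≤ (1 - r) / r := by positivity
          linarith) k
      have h7 : 1 + (1 - r) / r = 1 / r := by field_simp; ring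
      rw [h7, one_div, inv_pow] at h6
      have h8 : 0 < r ^ k := pow_pos h0 k
      rw [le_div_iff₀ h2]
      have h9 : (k : ℝ) * ((1 - r) / r) ≤ (r ^ k)⁻¹ := by linarith
      have h10 : (k : ℝ) * ((1 - r) / r) * r ^ k ≤ 1 := by
        calc (k : ℝ) * ((1 - r) / r) * r ^ k ≤ (r ^ k)⁻¹ * r ^ k := by gcongr
          _ = 1 := inv_mul_cancel₀ h8.ne'
      calc (k : ℝ) * r ^ k * (1 - r) = ((k : ℝ) * ((1 - r) / r) * r ^ k) * r := by
            field_simp
        _ ≤ 1 * r := by gcongr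
        _ = r := one_mul r
    have h6 : |(((k : ℤ) : ℝ))| * r ^ (k : ℤ) = (k : ℝ) * r ^ k := by
      rw [zpow_natCast, Int.cast_natCast, abs_of_nonneg (Nat.cast_nonneg k)]
    rw [h6]
    linarith

/-- derivation costs radius -/
lemma Lsum.zd {ρ ρ' : ℝ} (h0 : 0 < ρ') (h : ρ' < ρ) {x : K} (hx : Lsum ρ x) :
    Lsum ρ' (zd x) := by
  obtain ⟨M, hM⟩ := x.exists_lb
  have hρ : 0 < ρ := h0.trans h
  obtain ⟨C, hC⟩ := l1_bd (div_pos h0 hρ) ((div_lt_one hρ).2 h) M
  refine Summable.of_nonneg_of_le (fun n => by positivity) (fun n => ?_) (hx.mul_left C)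
  rw [zd_coeff]
  rcases lt_or_ge n M with h1 | h1
  · rw [hM n h1, mul_zero, norm_zero, zero_mul, zero_mul, mul_zero]
  · have h3 : ρ' ^ n = (ρ' / ρ) ^ n * ρ ^ n := by
      rw [div_zpow, div_mul_cancel₀ _ (zpow_pos hρ n).ne']
    have h4 : ‖(n : ℂ)‖ = |(n : ℝ)| := by
      rw [Complex.norm_intCast]
    rw [h3, norm_mul, h4]
    calc |(n : ℝ)| * ‖x.coeff n‖ * ((ρ' / ρ) ^ n * ρ ^ n) =
        (|(n : ℝ)| * (ρ' / ρ) ^ n) * (‖x.coeff n‖ * ρ ^ n) := by ring
      _ ≤ C * (‖x.coeff n‖ * ρ ^ n) := by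
        have := hC n h1
        gcongr

lemma Lsum_of_finite {ρ : ℝ} {x : K} (N : ℤ) (h : ∀ n, N ≤ n → x.coeff n = 0) : Lsum ρ x :=
  l1_fin N h

/-! ### module l2 -/

private lemma l2_two {x y : K} (hx : Cv x) (hy : Cv y) : ∃ ρ : ℝ, 0 < ρ ∧ Lsum ρ x ∧ Lsum ρ y := by
  obtain ⟨ρ, h0, h1⟩ := hx
  obtain ⟨ρ', h0', h1'⟩ := hy
  have hm : 0 < min ρ ρ' := lt_min h0 h0'
  exact ⟨min ρ ρ', hm, Lsum.mono hm (min_le_left _ _) h1, Lsum.mono hm (min_le_right _ _) h1'⟩

lemma Cv.add {x y : K} (hx : Cv x) (hy : Cv y) : Cv (x + y) := by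
  obtain ⟨ρ, h0, h1, h2⟩ := l2_two hx hy
  exact ⟨ρ, h0, Lsum.add h0 h1 h2⟩

lemma Cv.sub {x y : K} (hx : Cv x) (hy : Cv y) : Cv (x - y) := by
  obtain ⟨ρ, h0, h1, h2⟩ := l2_two hx hy
  exact ⟨ρ, h0, Lsum.sub h0 h1 h2⟩

lemma Cv.neg {x : K} (hx : Cv x) : Cv (-x) := by
  obtain ⟨ρ, h0, h1⟩ := hx
  exact ⟨ρ, h0, Lsum.neg h1⟩

lemma Cv.mul {x y : K} (hx : Cv x) (hy : Cv y) : Cv (x * y) := by
  obtain ⟨ρ, h0, h1, h2⟩ := l2_two hx hy
  exact ⟨ρ, h0, Lsum.mul h0 h1 h2⟩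

lemma Cv.zd {x : K} (hx : Cv x) : Cv (zd x) := by
  obtain ⟨ρ, h0, h1⟩ := hx
  exact ⟨ρ / 2, half_pos h0, Lsum.zd (half_pos h0) (half_lt_self h0) h1⟩

lemma Cv.single (n : ℤ) (a : ℂ) : Cv (LS.single n a) := ⟨1, one_pos, Lsum.single n a⟩

lemma Cv.zero : Cv 0 := ⟨1, one_pos, Lsum.zero 1⟩

lemma Cv.one : Cv 1 := ⟨1, one_pos, Lsum.one⟩

lemma Cv.sum {ι : Type} {s : Finset ι} {f : ι → K} (h : ∀ i ∈ s, Cv (f i)) :
    Cv (∑ i ∈ s, f i) := by
  classical
  induction s using Finset.induction_on with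
  | empty => rw [Finset.sum_empty]; exact Cv.zero
  | insert i s hi ih =>
    rw [Finset.sum_insert hi]
    exact Cv.add (h i (Finset.mem_insert_self i s))
      (ih fun j hj => h j (Finset.mem_insert_of_mem hj))

lemma Cv.prod {ι : Type} {s : Finset ι} {f : ι → K} (h : ∀ i ∈ s, Cv (f i)) :
    Cv (∏ i ∈ s, f i) := by
  classical
  induction s using Finset.induction_on with
  | empty => rw [Finset.prod_empty]; exact Cv.one
  | insert i s hi ih =>
    rw [Finset.prod_insert hi]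
    exact Cv.mul (h i (Finset.mem_insert_self i s))
      (ih fun j hj => h j (Finset.mem_insert_of_mem hj))

lemma Cv.pow {x : K} (hx : Cv x) (n : ℕ) : Cv (x ^ n) := by
  obtain ⟨ρ, h0, h1⟩ := hx
  exact ⟨ρ, h0, Lsum.pow h0 h1 n⟩

private lemma l2_of_bound {x : K} {R C : ℝ} (hR : 0 < R) (h : ∀ n : ℤ, ‖x.coeff n‖ ≤ C * R ^ n) :
    Cv x := by
  obtain ⟨M, hM⟩ := x.exists_lb
  refine ⟨1 / (2 * R), by positivity, ?_⟩
  have hC : 0 ≤ C := by
    have := (norm_nonneg _).trans (h 0)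
    simpa using this
  have h1 : Summable fun n : ℤ => if M ≤ n then C * (1 / 2 : ℝ) ^ n else 0 := by
    have h2 : Summable fun k : ℕ => (C * (1 / 2 : ℝ) ^ M) * (1 / 2 : ℝ) ^ k :=
      (summable_geometric_of_lt_one (by norm_num) (by norm_num)).mul_left _
    have hinj : Function.Injective fun k : ℕ => M + (k : ℤ) := fun a b hab => by
      simpa using hab
    refine (hinj.summable_iff fun n hn => ?_).1 ?_
    · have h3 : ¬ M ≤ n := by
        intro h4
        exact hn ⟨(n - M).toNat, by simp only; omega⟩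
      rw [if_neg h3]
    · refine h2.congr fun k => ?_
      simp only [Function.comp]
      rw [if_pos (by omega), zpow_add₀ (by norm_num), zpow_natCast]
      ring
  refine Summable.of_nonneg_of_le (fun n => by positivity) (fun n => ?_) h1
  rcases lt_or_ge n M with h2 | h2
  · rw [hM n h2, norm_zero, zero_mul, if_neg (by omega)]
  · rw [if_pos h2]
    have h3 : (1 / (2 * R)) ^ n * R ^ n = (1 / 2 : ℝ) ^ n := by
      rw [← mul_zpow]
      congr 1
      field_simp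
    calc ‖x.coeff n‖ * (1 / (2 * R)) ^ n ≤ C * R ^ n * (1 / (2 * R)) ^ n := by
          have := h n
          gcongr
      _ = C * ((1 / (2 * R)) ^ n * R ^ n) := by ring
      _ = C * (1 / 2 : ℝ) ^ n := by rw [h3]

private lemma l2_bound {x : K} (hx : Cv x) :
    ∃ R : ℝ, 0 < R ∧ ∃ C : ℝ, 0 ≤ C ∧ ∀ n : ℤ, ‖x.coeff n‖ ≤ C * R ^ n := by
  obtain ⟨ρ, h0, h1⟩ := hx
  have h2 : ∀ n : ℤ, ‖x.coeff n‖ * ρ ^ n ≤ ∑' n : ℤ, ‖x.coeff n‖ * ρ ^ n := fun n =>
    h1.le_tsum n fun m _ => by positivity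
  refine ⟨ρ⁻¹, inv_pos.2 h0, ∑' n : ℤ, ‖x.coeff n‖ * ρ ^ n, ?_, fun n => ?_⟩
  · exact le_trans (by positivity) (h2 0)
  · rw [inv_zpow, ← div_eq_mul_inv, le_div_iff₀ (zpow_pos h0 n)]
    exact h2 n

/-- the convergent Laurent series form a field -/
lemma Cv.inv {x : K} (hx : Cv x) : Cv x⁻¹ := by
  by_cases hx0 : x = 0
  · rw [hx0, inv_zero]
    exact Cv.zero
  obtain ⟨S, hS, B, hB, hb⟩ := l2_bound hx
  have hy0 : x⁻¹ ≠ 0 := inv_ne_zero hx0
  have hord : (x⁻¹).ord = -x.ord := by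
    have h1 := LS.ord_mul hx0 hy0
    rw [mul_inv_cancel₀ hx0, LS.ord_one] at h1
    omega
  set N := x.ord with hN
  set y := x⁻¹ with hy
  have c0 : x.coeff N ≠ 0 := LS.coeff_ord_ne hx0
  have hxl : ∀ n < N, x.coeff n = 0 := fun n hn => LS.coeff_of_lt_ord hn
  have hyl : ∀ n < -N, y.coeff n = 0 := fun n hn => LS.coeff_of_lt_ord (by rw [hord]; exact hn)
  let a : ℝ := ‖x.coeff N‖
  have ha : 0 < a := norm_pos_iff.2 c0
  let B' : ℝ := B * S ^ N
  have hB' : a ≤ B' := hb N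
  have hB0 : 0 < B' := ha.trans_le hB'
  let b : ℝ := B' / a
  have hb0 : 0 < b := div_pos hB0 ha
  let R : ℝ := S * (1 + b)
  have hR : 0 < R := by positivity
  -- the recursion
  have hrec : ∀ m : ℕ, ‖y.coeff (-N + m)‖ ≤ ‖y.coeff (-N)‖ * R ^ m := by
    intro m
    induction m using Nat.strong_induction_on with
    | _ m ih =>
      rcases Nat.eq_zero_or_pos m with rfl | hm
      · simp
      have h1 : (x * y).coeff (m : ℤ) = 0 := by
        rw [hy, mul_inv_cancel₀ hx0, LS.coeff_one, if_neg (by omega)]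
      rw [LS.coeff_mul hxl hyl] at h1
      have h2 : (Finset.Icc N ((m : ℤ) - -N)) = insert N (Finset.Icc (N + 1) ((m : ℤ) + N)) := by
        ext i
        simp only [Finset.mem_Icc, Finset.mem_insert]
        omega
      rw [h2, Finset.sum_insert (by simp)] at h1
      have h3 : x.coeff N * y.coeff (m - N) = - ∑ i ∈ Finset.Icc (N + 1) ((m : ℤ) + N),
          x.coeff i * y.coeff (m - i) := by
        linear_combination h1
      have h4 : (Finset.Icc (N + 1) ((m : ℤ) + N)) =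
          (Finset.range m).image fun j : ℕ => N + 1 + (j : ℤ) := by
        ext i
        simp only [Finset.mem_Icc, Finset.mem_image, Finset.mem_range]
        constructor
        · rintro ⟨h5, h6⟩
          exact ⟨(i - (N + 1)).toNat, by omega, by omega⟩
        · rintro ⟨j, hj, rfl⟩
          omega
      rw [h4, Finset.sum_image (by intro j _ j' _ h; simpa using h)] at h3
      have h5 : a * ‖y.coeff (m - N)‖ ≤ ∑ j ∈ Finset.range m,
          B' * S ^ (j + 1) * (‖y.coeff (-N)‖ * R ^ (m - 1 - j)) := by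
        have h6 : a * ‖y.coeff (m - N)‖ = ‖∑ j ∈ Finset.range m,
            x.coeff (N + 1 + (j : ℤ)) * y.coeff (m - (N + 1 + (j : ℤ)))‖ := by
          rw [← norm_neg (∑ j ∈ Finset.range m, _), ← h3, norm_mul]
        rw [h6]
        refine (norm_sum_le _ _).trans (Finset.sum_le_sum fun j hj => ?_)
        have hj' := Finset.mem_range.1 hj
        rw [norm_mul]
        have h7 : ‖x.coeff (N + 1 + (j : ℤ))‖ ≤ B' * S ^ (j + 1) := by
          have h8 := hb (N + 1 + (j : ℤ))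
          have h9 : B * S ^ (N + 1 + (j : ℤ)) = B' * S ^ (j + 1) := by
            show B * S ^ (N + 1 + (j : ℤ)) = B * S ^ N * S ^ (j + 1)
            rw [add_assoc, zpow_add₀ hS.ne', mul_assoc, ← zpow_natCast]
            congr 3
            push_cast
            ring
          rwa [h9] at h8
        have h8 : ‖y.coeff (m - (N + 1 + (j : ℤ)))‖ ≤ ‖y.coeff (-N)‖ * R ^ (m - 1 - j) := by
          have h9 := ih (m - 1 - j) (by omega)
          have h10 : (-N + ((m - 1 - j : ℕ) : ℤ)) = m - (N + 1 + (j : ℤ)) := by omega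
          rwa [h10] at h9
        gcongr
      have h6 : ∑ j ∈ Finset.range m, B' * S ^ (j + 1) * (‖y.coeff (-N)‖ * R ^ (m - 1 - j)) ≤
          a * (‖y.coeff (-N)‖ * R ^ m) := by
        have h7 : ∀ j ∈ Finset.range m, B' * S ^ (j + 1) * (‖y.coeff (-N)‖ * R ^ (m - 1 - j)) =
            (‖y.coeff (-N)‖ * B' * R ^ m) * (1 / (1 + b)) ^ (j + 1) := by
          intro j hj
          have hj' := Finset.mem_range.1 hj
          have h8 : R ^ m = R ^ (j + 1) * R ^ (m - 1 - j) := by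
            rw [← pow_add]; congr 1; omega
          have h9 : R ^ (j + 1) * (1 / (1 + b)) ^ (j + 1) = S ^ (j + 1) := by
            rw [← mul_pow]
            congr 1
            show S * (1 + b) * (1 / (1 + b)) = S
            field_simp
          rw [h8]
          calc B' * S ^ (j + 1) * (‖y.coeff (-N)‖ * R ^ (m - 1 - j)) =
              ‖y.coeff (-N)‖ * B' * R ^ (m - 1 - j) * S ^ (j + 1) := by ring
            _ = ‖y.coeff (-N)‖ * B' * R ^ (m - 1 - j) * (R ^ (j + 1) * (1 / (1 + b)) ^ (j + 1)) := by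
              rw [h9]
            _ = _ := by ring
        rw [Finset.sum_congr rfl h7, ← Finset.mul_sum]
        have h8 : ∑ j ∈ Finset.range m, (1 / (1 + b)) ^ (j + 1) ≤ 1 / b := by
          have h9 : ∀ k : ℕ, ∑ j ∈ Finset.range k, (1 / (1 + b)) ^ (j + 1) =
              (1 - (1 / (1 + b)) ^ k) / b := by
            intro k
            induction k with
            | zero => simp
            | succ k ihk =>
              rw [Finset.sum_range_succ, ihk, pow_succ]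
              field_simp
              ring
          rw [h9]
          gcongr
          have : 0 ≤ (1 / (1 + b)) ^ m := by positivity
          linarith
        calc ‖y.coeff (-N)‖ * B' * R ^ m * ∑ j ∈ Finset.range m, (1 / (1 + b)) ^ (j + 1) ≤
            ‖y.coeff (-N)‖ * B' * R ^ m * (1 / b) := by gcongr
          _ = a * (‖y.coeff (-N)‖ * R ^ m) := by
            show ‖y.coeff (-N)‖ * B' * R ^ m * (1 / (B' / a)) = _
            field_simp
      have h7 : a * ‖y.coeff (m - N)‖ ≤ a * (‖y.coeff (-N)‖ * R ^ m) := h5.trans h6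
      have h8 := le_of_mul_le_mul_left h7 ha
      have h9 : (m : ℤ) - N = -N + m := by ring
      rwa [h9] at h8
  refine l2_of_bound (R := R) (C := ‖y.coeff (-N)‖ * R ^ N) hR fun n => ?_
  rcases lt_or_ge n (-N) with h1 | h1
  · rw [hyl n h1, norm_zero]
    positivity
  · have h2 := hrec (n + N).toNat
    have h3 : (-N + ((n + N).toNat : ℤ)) = n := by omega
    rw [h3] at h2
    refine h2.trans (le_of_eq ?_)
    rw [mul_assoc, ← zpow_add₀ hR.ne', ← zpow_natCast]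
    congr 2
    omega

/-- a common radius for finitely many series -/
lemma Cv.common {ι : Type} [Finite ι] {f : ι → K} (h : ∀ i, Cv (f i)) :
    ∃ ρ : ℝ, 0 < ρ ∧ ∀ i, Lsum ρ (f i) := by
  choose r h0 h1 using h
  rcases isEmpty_or_nonempty ι with he | he
  · exact ⟨1, one_pos, fun i => (he.false i).elim⟩
  · obtain ⟨i0, hi0⟩ := Finite.exists_min r
    exact ⟨r i0, h0 i0, fun i => Lsum.mono (h0 i0) (hi0 i) (h1 i)⟩

private lemma l2_det {ι : Type} [Fintype ι] [DecidableEq ι] {P : Matrix ι ι K}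
    (hP : ∀ i j, Cv (P i j)) : Cv P.det := by
  rw [Matrix.det_apply']
  refine Cv.sum fun σ _ => Cv.mul ?_ (Cv.prod fun i _ => hP _ _)
  rcases Int.units_eq_one_or (Equiv.Perm.sign σ) with h | h
  · rw [h, Units.val_one, Int.cast_one]
    exact Cv.one
  · rw [h, Units.val_neg, Units.val_one, Int.cast_neg, Int.cast_one]
    exact Cv.neg Cv.one

/-- the inverse of a matrix with convergent entries -/
lemma Cv.matInv {ι : Type} [Fintype ι] [DecidableEq ι] {P Q : Matrix ι ι K} (hPQ : P * Q = 1)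
    (hP : ∀ i j, Cv (P i j)) : ∀ i j, Cv (Q i j) := by
  intro i j
  rw [← Matrix.inv_eq_right_inv hPQ, Matrix.inv_def, Ring.inverse_eq_inv', Matrix.smul_apply,
    smul_eq_mul, Matrix.adjugate_apply]
  refine Cv.mul (Cv.inv (l2_det hP)) (l2_det fun k l => ?_)
  rw [Matrix.updateRow_apply]
  split_ifs
  · by_cases h : l = i
    · rw [h, Pi.single_eq_same]
      exact Cv.one
    · rw [Pi.single_eq_of_ne h]
      exact Cv.zero
  · exact hP k l

/-- a power series with geometric bounds converges, and conversely -/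
lemma Cv_iff_bound {x : K} : Cv x ↔ ∃ R : ℝ, 0 < R ∧ ∃ C : ℝ, ∀ n : ℤ, ‖x.coeff n‖ ≤ C * R ^ n := by
  constructor
  · intro h
    obtain ⟨R, hR, C, -, h1⟩ := l2_bound h
    exact ⟨R, hR, C, h1⟩
  · rintro ⟨R, hR, C, h⟩
    exact l2_of_bound hR h

end Pool.Agent.Fbc
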