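import Pool.Agent.Fbc.LS

/-!
# Derivations, growth: definitions
-/

set_option autoImplicit false

namespace Pool.Agent.Fbc

open Polynomial

/-- all terms of `x` have order `≥ c` -/
def Vge {k : Type} [Field k] (c : ℝ) (x : LS k) : Prop :=
  ∀ n : ℤ, (n : ℝ) < c → x.coeff n = 0

/-- all entries have order `≥ c` -/
def MVge {k m n : Type} [Field k] (c : ℝ) (M : Matrix m n (LS k)) : Prop :=
  ∀ i j, Vge c (M i j)

/-- all entries of the vector have order `≥ c` -/
def VVge {k m : Type} [Field k] (c : ℝ) (v : m → LS k) : Prop :=
  ∀ i, Vge c (v i)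

/-- derivations of a (possibly noncommutative) ring: additive maps with the Leibniz rule -/
structure Der (L : Type) [Ring L] extends L →+ L where
  leib' : ∀ x y : L, toFun (x * y) = toFun x * y + x * toFun y

namespace Der

instance {L : Type} [Ring L] : FunLike (Der L) L L where
  coe θ := θ.toFun
  coe_injective := by
    rintro ⟨θ, h⟩ ⟨θ', h'⟩ hh
    congr
    exact DFunLike.coe_injective hh

instance {L : Type} [Ring L] : AddMonoidHomClass (Der L) L L where
  map_add θ := θ.map_add'
  map_zero θ := θ.map_zero'

variable {L : Type}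

lemma leib [Ring L] (θ : Der L) (x y : L) : θ (x * y) = θ x * y + x * θ y := θ.leib' x y

lemma map_one' [Ring L] (θ : Der L) : θ 1 = 0 := by
  have h := θ.leib 1 1
  rw [mul_one, mul_one, one_mul] at h
  simpa using h

@[ext] lemma ext [Ring L] {θ θ' : Der L} (h : ∀ x, θ x = θ' x) : θ = θ' := DFunLike.ext _ _ h

instance [Ring L] : Add (Der L) where
  add θ θ' :=
    { toFun := fun x => θ x + θ' x
      map_zero' := by simp
      map_add' := fun x y => by simp only [map_add]; abel
      leib' := fun x y => by simp only [leib]; noncomm_ring }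

@[simp] lemma add_apply [Ring L] (θ θ' : Der L) (x : L) : (θ + θ') x = θ x + θ' x := rfl

instance [CommRing L] : SMul L (Der L) where
  smul c θ :=
    { toFun := fun x => c * θ x
      map_zero' := by simp
      map_add' := fun x y => by simp only [map_add]; ring
      leib' := fun x y => by simp only [leib]; ring }

@[simp] lemma smul_apply [CommRing L] (c : L) (θ : Der L) (x : L) : (c • θ) x = c * θ x := rfl

/-- entrywise derivation of square matrices -/
def mat {n : Type} [Fintype n] [DecidableEq n] [Ring L] (θ : Der L) : Der (Matrix n n L) where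
  toFun M := M.map θ
  map_zero' := by ext; simp
  map_add' M N := by ext; simp
  leib' M N := by
    ext i j
    simp only [Matrix.map_apply, Matrix.mul_apply, map_sum, leib, Matrix.add_apply,
      Finset.sum_add_distrib]

@[simp] lemma mat_apply {n : Type} [Fintype n] [DecidableEq n] [Ring L] (θ : Der L)
    (M : Matrix n n L) (i j : n) : θ.mat M i j = θ (M i j) := rfl

end Der

section der

variable {k : Type} [Field k]

/-- coefficientwise application of additive maps -/
noncomputable def cmap (φ : ℤ → k →+ k) (x : LS k) : LS k :=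
  LS.mk (fun n => φ n (x.coeff n)) (by
    obtain ⟨N, hN⟩ := x.exists_lb
    exact ⟨N, fun n hn => by rw [hN n hn, map_zero]⟩)

@[simp] lemma cmap_coeff (φ : ℤ → k →+ k) (x : LS k) (n : ℤ) :
    (cmap φ x).coeff n = φ n (x.coeff n) := rfl

/-- coefficientwise application, as a derivation -/
noncomputable def cder (φ : ℤ → k →+ k)
    (h : ∀ m n a b, φ (m + n) (a * b) = φ m a * b + a * φ n b) : Der (LS k) where
  toFun := cmap φ
  map_zero' := by ext n; simp
  map_add' := fun x y => by ext n; simp
  leib' := fun x y => by
    obtain ⟨N, hN⟩ := x.exists_lb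
    obtain ⟨M, hM⟩ := y.exists_lb
    ext n
    rw [LS.coeff_add, cmap_coeff, LS.coeff_mul hN hM,
      LS.coeff_mul (x := cmap φ x) (N := N) (fun n hn => by rw [cmap_coeff, hN n hn, map_zero]) hM,
      LS.coeff_mul (y := cmap φ y) (M := M) hN (fun n hn => by rw [cmap_coeff, hM n hn, map_zero]),
      map_sum, ← Finset.sum_add_distrib]
    refine Finset.sum_congr rfl fun i _ => ?_
    rw [cmap_coeff, cmap_coeff, ← h, add_sub_cancel]

/-- the derivation `z ∂_z` of `k((z))` -/
noncomputable def zd : Der (LS k) :=
  cder (fun n => AddMonoidHom.mulLeft (n : k)) fun m n a b => by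
    simp only [AddMonoidHom.coe_mulLeft]; push_cast; ring

@[simp] lemma zd_coeff (x : LS k) (n : ℤ) : (zd x).coeff n = (n : k) * x.coeff n := rfl

/-- a derivation of `k`, applied coefficientwise -/
noncomputable def cd (δ : Der k) : Der (LS k) :=
  cder (fun _ => δ.toAddMonoidHom) fun _ _ a b => δ.leib a b

@[simp] lemma cd_coeff (δ : Der k) (x : LS k) (n : ℤ) : (cd δ x).coeff n = δ (x.coeff n) := rfl

end der

end Pool.Agent.Fbc
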