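import Pool.Agent.Fbc.Defs

/-!
# Extension of derivations to polynomials and fractions; the embeddings of `K(t)`
-/

set_option autoImplicit false

namespace Pool.Agent.Fbc

open Polynomial

section frac

variable {A : Type} [CommRing A] (L : Type) [Field L] [Algebra A L] [IsFractionRing A L]

/-- `a ↦ a + ε θ(a)` -/
noncomputable def frAux (θ : Der A) : A →+* TrivSqZeroExt L L where
  toFun a := TrivSqZeroExt.inl (algebraMap A L a) +
    TrivSqZeroExt.inr (algebraMap A L (θ a))
  map_one' := by
    rw [θ.map_one', map_one, map_zero, TrivSqZeroExt.inr_zero, add_zero]; rfl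
  map_zero' := by
    rw [map_zero, map_zero, map_zero, TrivSqZeroExt.inr_zero, add_zero]; rfl
  map_add' a b := by
    simp only [map_add, TrivSqZeroExt.inl_add, TrivSqZeroExt.inr_add]; abel
  map_mul' a b := by
    rw [map_mul, θ.leib, map_add, map_mul, map_mul]
    ext
    · simp only [TrivSqZeroExt.fst_add, TrivSqZeroExt.fst_inl, TrivSqZeroExt.fst_inr, add_zero,
        TrivSqZeroExt.fst_mul]
    · simp only [TrivSqZeroExt.snd_add, TrivSqZeroExt.snd_inl, TrivSqZeroExt.snd_inr, zero_add,
        TrivSqZeroExt.snd_mul, TrivSqZeroExt.fst_add, TrivSqZeroExt.fst_inl,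
        TrivSqZeroExt.fst_inr, add_zero, MulOpposite.smul_eq_mul_unop, MulOpposite.unop_op,
        smul_eq_mul]
      ring

lemma frAux_unit (θ : Der A) (y : nonZeroDivisors A) : IsUnit (frAux L θ y) := by
  rw [TrivSqZeroExt.isUnit_iff_isUnit_fst]
  have : (frAux L θ y).fst = algebraMap A L y := by
    change (TrivSqZeroExt.inl (algebraMap A L y) +
      TrivSqZeroExt.inr (algebraMap A L (θ y)) :
      TrivSqZeroExt L L).fst = _
    simp only [TrivSqZeroExt.fst_add, TrivSqZeroExt.fst_inl, TrivSqZeroExt.fst_inr, add_zero]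
  rw [this]
  exact IsLocalization.map_units _ y

/-- the extension to the dual numbers -/
noncomputable def frHom (θ : Der A) :
    L →+* TrivSqZeroExt L L :=
  IsLocalization.lift (M := nonZeroDivisors A) (frAux_unit L θ)

lemma frHom_algebraMap (θ : Der A) (a : A) : frHom L θ (algebraMap A L a) = frAux L θ a :=
  IsLocalization.lift_eq _ _

lemma frHom_fst (θ : Der A) (x : L) : (frHom L θ x).fst = x := by
  have h : ((TrivSqZeroExt.fstHom L L L).toRingHom.comp (frHom L θ)) = RingHom.id _ := by
    refine IsLocalization.ringHom_ext (nonZeroDivisors A) ?_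
    ext a
    change (frHom L θ (algebraMap A L a)).fst = algebraMap A L a
    rw [frHom_algebraMap]
    change (TrivSqZeroExt.inl (algebraMap A L a) +
      TrivSqZeroExt.inr (algebraMap A L (θ a)) :
      TrivSqZeroExt L L).fst = _
    simp only [TrivSqZeroExt.fst_add, TrivSqZeroExt.fst_inl, TrivSqZeroExt.fst_inr, add_zero]
  exact congrArg (fun g : L →+* L => g x) h

/-- extension of a derivation to the field of fractions -/
noncomputable def frD (θ : Der A) : Der L where
  toFun x := (frHom L θ x).snd
  map_zero' := by rw [map_zero]; rfl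
  map_add' x y := by rw [map_add]; rfl
  leib' x y := by
    rw [map_mul, TrivSqZeroExt.snd_mul, frHom_fst, frHom_fst]
    simp only [MulOpposite.smul_eq_mul_unop, MulOpposite.unop_op, smul_eq_mul]
    ring

@[simp] lemma frD_algebraMap (θ : Der A) (a : A) :
    frD L θ (algebraMap A L a) = algebraMap A L (θ a) := by
  change (frHom L θ (algebraMap A L a)).snd = _
  rw [frHom_algebraMap]
  change (TrivSqZeroExt.inl (algebraMap A L a) +
      TrivSqZeroExt.inr (algebraMap A L (θ a)) :
      TrivSqZeroExt L L).snd = _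
  simp only [TrivSqZeroExt.snd_add, TrivSqZeroExt.snd_inl, TrivSqZeroExt.snd_inr, zero_add]

end frac

section poly

variable {A : Type} [CommRing A]

/-- the additive map on polynomials -/
noncomputable def polDa (θ : Der A) : A[X] →+ A[X] where
  toFun p := p.sum fun n a => monomial n (θ a)
  map_zero' := by simp
  map_add' p q := Polynomial.sum_add_index p q _ (fun n => by simp) (fun n a b => by simp)

lemma polDa_coeff (θ : Der A) (p : A[X]) (n : ℕ) : (polDa θ p).coeff n = θ (p.coeff n) := by
  change (p.sum fun n a => monomial n (θ a)).coeff n = _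
  rw [Polynomial.sum_def, Polynomial.finsetSum_coeff]
  simp only [Polynomial.coeff_monomial]
  rw [Finset.sum_ite_eq']
  split_ifs with h
  · rfl
  · rw [Polynomial.notMem_support_iff.1 h, map_zero]

/-- a derivation of `A`, applied to the coefficients of a polynomial -/
noncomputable def polD (θ : Der A) : Der A[X] where
  toFun := polDa θ
  map_zero' := map_zero _
  map_add' := map_add _
  leib' p q := by
    ext n
    rw [polDa_coeff, Polynomial.coeff_add, Polynomial.coeff_mul, Polynomial.coeff_mul,
      Polynomial.coeff_mul, map_sum, ← Finset.sum_add_distrib]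
    refine Finset.sum_congr rfl fun x _ => ?_
    rw [polDa_coeff, polDa_coeff, θ.leib]

@[simp] lemma polD_coeff (θ : Der A) (p : A[X]) (n : ℕ) :
    (polD θ p).coeff n = θ (p.coeff n) := polDa_coeff θ p n

/-- the derivation `d/dX` -/
noncomputable def dX : Der A[X] where
  toFun := fun p => derivative p
  map_zero' := by simp
  map_add' p q := by simp
  leib' p q := by rw [derivative_mul]

@[simp] lemma dX_apply (p : A[X]) : dX p = derivative p := rfl

end poly

/-- `K = ℂ((z))` -/
abbrev K : Type := LS ℂ

/-- `K(t)` -/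
abbrev KT : Type := RatFunc K

/-- `K → K(t)` -/
noncomputable def cT (a : K) : KT := algebraMap K[X] KT (C a)

/-- the variable `t` -/
noncomputable def tT : KT := algebraMap K[X] KT X

/-- `z ∂_z` on `K(t)`, with `t` constant -/
noncomputable def DK : Der KT := frD (A := K[X]) KT (polD zd)

/-- `∂_t` on `K(t)` -/
noncomputable def Dt : Der KT := frD (A := K[X]) KT dX

/-- the derivation `D + D(a) ∂_t` of `K(t)`, which kills `t - a` -/
noncomputable def DX (a : K) : Der KT := DK + cT (zd a) • Dt

/-- the derivation `(t - a) ∂_t` -/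
noncomputable def DY (a : K) : Der KT := (tT - cT a) • Dt

/-- `F = K((z))`: the field in which `K(t)` is embedded. -/
abbrev F : Type := LS K

/-- a ring homomorphism, applied coefficientwise -/
noncomputable def mapLS {k k' : Type} [Field k] [Field k'] (φ : k →+* k') : LS k →+* LS k' where
  toFun x := LS.mk (fun n => φ (x.coeff n)) (by
    obtain ⟨N, hN⟩ := x.exists_lb
    exact ⟨N, fun n hn => by rw [hN n hn, map_zero]⟩)
  map_one' := by
    ext n
    rw [LS.coeff_mk, LS.coeff_one, LS.coeff_one]
    split_ifs <;> simp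
  map_zero' := by ext n; rw [LS.coeff_mk, LS.coeff_zero, map_zero, LS.coeff_zero]
  map_add' x y := by ext n; simp only [LS.coeff_mk, LS.coeff_add, map_add]
  map_mul' x y := by
    obtain ⟨N, hN⟩ := x.exists_lb
    obtain ⟨M, hM⟩ := y.exists_lb
    ext n
    rw [LS.coeff_mk, LS.coeff_mul hN hM, LS.coeff_mul (N := N) (M := M)
      (fun n hn => by rw [LS.coeff_mk, hN n hn, map_zero])
      (fun n hn => by rw [LS.coeff_mk, hM n hn, map_zero]), map_sum]
    refine Finset.sum_congr rfl fun i _ => ?_
    rw [map_mul, LS.coeff_mk, LS.coeff_mk]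

@[simp] lemma mapLS_coeff {k k' : Type} [Field k] [Field k'] (φ : k →+* k') (x : LS k) (n : ℤ) :
    (mapLS φ x).coeff n = φ (x.coeff n) := rfl

/-- the embedding `ℂ((z)) → ℂ((τ))((z))` -/
noncomputable def inn : K →+* F := mapLS (LS.C : ℂ →+* K)

@[simp] lemma inn_coeff (x : K) (n : ℤ) : (inn x).coeff n = LS.C (x.coeff n) := rfl

/-- evaluation of a polynomial at the node `(a, κ)`: `t ↦ a + z^κ τ`; outer variable `z`, inner
variable `τ` -/
noncomputable def nodeP (a : K) (κ : ℕ) : K[X] →+* F :=
  eval₂RingHom inn (inn a + LS.single (κ : ℤ) (LS.single (1 : ℤ) (1 : ℂ)))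

/-- `t ↦ a + T`; outer variable `T = t - a`, inner variable `z` -/
noncomputable def locP (a : K) : K[X] →+* F :=
  eval₂RingHom LS.C (LS.C a + LS.single (1 : ℤ) (1 : K))

/-- `t ↦ T⁻¹`; outer variable `T`, inner variable `z` -/
noncomputable def infP : K[X] →+* F :=
  eval₂RingHom LS.C (LS.single (-1 : ℤ) (1 : K))

private lemma e0_single_pow {k : Type} [Field k] (m : ℤ) (a : k) (n : ℕ) :
    (LS.single m a) ^ n = LS.single (n * m) (a ^ n) := by
  induction n with
  | zero => simp [LS.single_zero_one]
  | succ n ih =>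
    rw [pow_succ, ih, LS.single_mul_single, pow_succ]
    congr 1
    push_cast
    ring

private lemma e0_eval₂ {R : Type} [Field R] (φ : K →+* R) (a : K) (s : R) (p : K[X]) :
    eval₂ φ (φ a + s) p = eval₂ φ s (taylor a p) := by
  rw [taylor_apply, eval₂_comp, eval₂_add, eval₂_X, eval₂_C, add_comm]

private lemma e0_taylor {a : K} {p : K[X]} (h : taylor a p = 0) : p = 0 := by
  apply taylor_injective a
  rw [h, map_zero]

lemma nodeP_inj (a : K) (κ : ℕ) : Function.Injective (nodeP a κ) := by
  rw [injective_iff_map_eq_zero]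
  intro p hp
  apply e0_taylor (a := a)
  have hp' : eval₂ inn (LS.single (κ : ℤ) (LS.single (1 : ℤ) (1 : ℂ))) (taylor a p) = 0 := by
    rw [← e0_eval₂]
    exact hp
  generalize taylor a p = q at hp'
  by_contra hq
  obtain ⟨n0, hn0⟩ : ∃ n, q.coeff n ≠ 0 := by
    by_contra hc
    apply hq
    ext1 n
    rw [coeff_zero]
    by_contra hn
    exact hc ⟨n, hn⟩
  apply hn0
  ext M
  rw [eval₂_eq_sum, sum_def] at hp'
  have h1 := congrArg (fun y : F => (y.coeff (M + n0 * κ)).coeff n0) hp'
  simp only [LS.coeff_sum, LS.coeff_zero] at h1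
  rw [LS.coeff_zero, ← h1]
  have h2 : ∀ n : ℕ, (((inn (q.coeff n)) * (LS.single (κ : ℤ) (LS.single (1 : ℤ) (1 : ℂ))) ^ n).coeff
      (M + n0 * κ)).coeff n0 = if n0 = n then (q.coeff n).coeff M else 0 := by
    intro n
    rw [e0_single_pow, e0_single_pow, mul_comm, LS.coeff_single_mul, LS.coeff_single_mul,
      inn_coeff, LS.coeff_C, one_pow, one_mul]
    by_cases h : n0 = n
    · subst h
      rw [if_pos (by ring), if_pos rfl, add_sub_cancel_right]
    · rw [if_neg, if_neg h]
      intro hh
      apply h
      have h3 : (n0 : ℤ) = n := by linarith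
      exact_mod_cast h3
  rw [Finset.sum_congr rfl fun n _ => h2 n, Finset.sum_ite_eq, if_pos (mem_support_iff.2 hn0)]

lemma locP_inj (a : K) : Function.Injective (locP a) := by
  rw [injective_iff_map_eq_zero]
  intro p hp
  apply e0_taylor (a := a)
  have hp' : eval₂ (LS.C : K →+* F) (LS.single (1 : ℤ) (1 : K)) (taylor a p) = 0 := by
    rw [← e0_eval₂]
    exact hp
  generalize taylor a p = q at hp'
  ext1 n0
  by_contra hn0
  rw [coeff_zero] at hn0
  rw [eval₂_eq_sum, sum_def] at hp'
  have h1 := congrArg (fun y : F => y.coeff n0) hp'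
  simp only [LS.coeff_sum, LS.coeff_zero] at h1
  apply hn0
  rw [← h1]
  have h2 : ∀ n : ℕ, ((LS.C (q.coeff n)) * (LS.single (1 : ℤ) (1 : K)) ^ n).coeff n0 =
      if n0 = n then q.coeff n else 0 := by
    intro n
    rw [e0_single_pow, LS.coeff_C_mul, LS.coeff_single, one_pow, mul_one]
    by_cases h : n0 = n
    · rw [if_pos (by rw [h]), if_pos h, mul_one]
    · rw [if_neg, if_neg h, mul_zero]
      intro hh
      apply h
      exact_mod_cast hh
  rw [Finset.sum_congr rfl fun n _ => h2 n, Finset.sum_ite_eq, if_pos (mem_support_iff.2 hn0)]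

lemma infP_inj : Function.Injective infP := by
  rw [injective_iff_map_eq_zero]
  intro p hp
  have hp' : eval₂ (LS.C : K →+* F) (LS.single (-1 : ℤ) (1 : K)) p = 0 := hp
  ext1 n0
  by_contra hn0
  rw [coeff_zero] at hn0
  rw [eval₂_eq_sum, sum_def] at hp'
  have h1 := congrArg (fun y : F => y.coeff (-n0)) hp'
  simp only [LS.coeff_sum, LS.coeff_zero] at h1
  apply hn0
  rw [← h1]
  have h2 : ∀ n : ℕ, ((LS.C (p.coeff n)) * (LS.single (-1 : ℤ) (1 : K)) ^ n).coeff (-n0) =
      if n0 = n then p.coeff n else 0 := by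
    intro n
    rw [e0_single_pow, LS.coeff_C_mul, LS.coeff_single, one_pow]
    by_cases h : n0 = n
    · rw [if_pos (by rw [h]; ring), if_pos h, mul_one]
    · rw [if_neg, if_neg h, mul_zero]
      intro hh
      apply h
      have h3 : (n0 : ℤ) = n := by linarith
      exact_mod_cast h3
  rw [Finset.sum_congr rfl fun n _ => h2 n, Finset.sum_ite_eq, if_pos (mem_support_iff.2 hn0)]

/-- the node `(a, κ)` -/
noncomputable def node (a : K) (κ : ℕ) : KT →+* F := IsFractionRing.lift (nodeP_inj a κ)

/-- the expansion at `t = a` -/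
noncomputable def loc (a : K) : KT →+* F := IsFractionRing.lift (locP_inj a)

/-- the expansion at `t = ∞` -/
noncomputable def inf : KT →+* F := IsFractionRing.lift infP_inj

lemma node_algebraMap (a : K) (κ : ℕ) (p : K[X]) :
    node a κ (algebraMap K[X] KT p) = nodeP a κ p := IsFractionRing.lift_algebraMap _ _

lemma loc_algebraMap (a : K) (p : K[X]) : loc a (algebraMap K[X] KT p) = locP a p :=
  IsFractionRing.lift_algebraMap _ _

lemma inf_algebraMap (p : K[X]) : inf (algebraMap K[X] KT p) = infP p :=
  IsFractionRing.lift_algebraMap _ _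

section conn

variable {L : Type} [CommRing L] {ι : Type} [Fintype ι] [DecidableEq ι]

/-- the matrices of the iterates of the connection `θ + G` -/
def itr (θ : Der L) (G : Matrix ι ι L) : ℕ → Matrix ι ι L
  | 0 => 1
  | n + 1 => (itr θ G n).map θ + G * itr θ G n

/-- the connection `θ + G` on vectors -/
def con (θ : Der L) (G : Matrix ι ι L) (v : ι → L) : ι → L := fun i => θ (v i) + G.mulVec v i

end conn

/-- growth rate `≤ σ` of the connection `θ + G` -/
def Gr {k : Type} [Field k] {ι : Type} [Fintype ι] [DecidableEq ι]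
    (θ : Der (LS k)) (G : Matrix ι ι (LS k)) (σ : ℝ) : Prop :=
  ∃ C : ℝ, ∀ n : ℕ, MVge (-(σ * n) - C) (itr θ G n)

end Pool.Agent.Fbc
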