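import Pool.Agent.Fbc.Ode

/-!
# Convergence of the gauge, uniform radius (section 10), `z`-version
-/

set_option autoImplicit false

namespace Pool.Agent.Fbc

open Polynomial

open Finset.HasAntidiagonal (antidiagonal mem_antidiagonal)

variable {l k r : ℕ}

/-- the data: `a_j`, `b_j` (original frame, any number of terms), `a' = A`, `B'_j` (new frame),
`g_j` the coefficients of the gauge transformation -/
structure GData (k : ℕ) (u : Fin l → K) (e e' : Fin l → MK r) (a b B' g : ℕ → MK r) : Prop where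
  dat : Dat k u e' B'
  idem : ∀ i, e i * e i = e i
  orth : ∀ i j, i ≠ j → e i * e j = 0
  sum : ∑ i, e i = 1
  b0 : b 0 = ∑ i, u i • e i
  a0 : a 0 = -∑ i, zd (u i) • e i
  /-- coefficient of `s^{j+1}` of `P G = G P'` -/
  eqP : ∀ j, (g j).map zd + ∑ p ∈ antidiagonal (j + 1), a p.1 * g p.2
    = g (j + 1) * Am u e'
  eqP0 : a 0 * g 0 = g 0 * Am u e'
  /-- coefficient of `s^{j+1}` of `T G = G T'` -/
  eqT : ∀ j : ℕ, (j : K) • g j + ∑ p ∈ antidiagonal (j + 1), b p.1 * g p.2
    = ∑ p ∈ antidiagonal (j + 1), g p.1 * B' p.2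
  eqT0 : b 0 * g 0 = g 0 * B' 0

variable {u : Fin l → K} {e e' : Fin l → MK r} {a b B' g : ℕ → MK r}

/-- the diagonal part -/
noncomputable def Pr (e e' : Fin l → MK r) (y : MK r) : MK r := ∑ i, e i * y * e' i

/-- `C = ∑ e_i D(e_i) + ∑ e_i a_1 e_i` -/
noncomputable def Cg (e : Fin l → MK r) (a1 : MK r) : MK r := Cd e + ∑ i, e i * a1 * e i

/-! ### module q1: algebra -/

private lemma q1_sum_mul {e : Fin l → MK r} (idem : ∀ i, e i * e i = e i)
    (orth : ∀ i j, i ≠ j → e i * e j = 0) (c : Fin l → K) (p : Fin l) :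
    e p * (∑ i, c i • e i) = c p • e p := by
  rw [Finset.mul_sum, Finset.sum_eq_single p]
  · rw [Matrix.mul_smul, idem]
  · intro i _ hi
    rw [Matrix.mul_smul, orth p i (Ne.symm hi), smul_zero]
  · intro h; exact absurd (Finset.mem_univ p) h

private lemma q1_mul_sum {e : Fin l → MK r} (idem : ∀ i, e i * e i = e i)
    (orth : ∀ i j, i ≠ j → e i * e j = 0) (c : Fin l → K) (p : Fin l) :
    (∑ i, c i • e i) * e p = c p • e p := by
  rw [Finset.sum_mul, Finset.sum_eq_single p]
  · rw [Matrix.smul_mul, idem]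
  · intro i _ hi
    rw [Matrix.smul_mul, orth i p hi, smul_zero]
  · intro h; exact absurd (Finset.mem_univ p) h

private lemma q1_split {e e' : Fin l → MK r} (hs : ∑ i, e i = 1) (hs' : ∑ i, e' i = 1)
    (x : MK r) : x = ∑ p, ∑ q, e p * x * e' q := by
  have : x = (∑ p, e p) * x * (∑ q, e' q) := by rw [hs, hs', one_mul, mul_one]
  conv_lhs => rw [this]
  rw [Finset.sum_mul, Finset.sum_mul]
  refine Finset.sum_congr rfl fun p _ => ?_
  rw [Finset.mul_sum]

/-- `x - Pr x` in terms of the commutator -/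
private lemma q1_off (h : GData k u e e' a b B' g) (x : MK r) :
    x - Pr e e' x =
      ∑ p, ∑ q, (u p - u q)⁻¹ • (e p * (b 0 * x - x * B' 0) * e' q) := by
  have hb : ∀ p q, e p * (b 0 * x - x * B' 0) * e' q = (u p - u q) • (e p * x * e' q) := by
    intro p q
    have h1 : e p * b 0 = u p • e p := by rw [h.b0, q1_sum_mul h.idem h.orth]
    have h2 : B' 0 * e' q = u q • e' q := h.dat.Be q
    rw [mul_sub, sub_mul, ← mul_assoc, h1, ← mul_assoc (e p) x (B' 0), mul_assoc (e p * x), h2,
      Matrix.smul_mul, Matrix.smul_mul, Matrix.mul_smul, sub_smul]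
  conv_lhs => rw [q1_split h.sum h.dat.sum x]
  rw [Pr, ← Finset.sum_sub_distrib]
  refine Finset.sum_congr rfl fun p _ => ?_
  rw [← Finset.add_sum_erase Finset.univ _ (Finset.mem_univ p),
    ← Finset.add_sum_erase Finset.univ (fun q => (u p - u q)⁻¹ •
      (e p * (b 0 * x - x * B' 0) * e' q)) (Finset.mem_univ p)]
  have hpp : e p * (∑ p, ∑ q, e p * x * e' q) * e' p = e p * x * e' p := by
    rw [← q1_split h.sum h.dat.sum x]
  rw [hpp, add_sub_cancel_left, hb p p, sub_self, inv_zero, zero_smul, zero_add]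
  refine Finset.sum_congr rfl fun q hq => ?_
  have hne : u p - u q ≠ 0 := by
    rw [sub_ne_zero]
    intro hc
    exact (Finset.ne_of_mem_erase hq) (h.dat.uinj hc).symm
  rw [hb p q, smul_smul, inv_mul_cancel₀ hne, one_smul]

/-- the off-diagonal part is determined algebraically -/
lemma offdiag (h : GData k u e e' a b B' g) (j : ℕ) : ∃ R : MK r,
    R = ∑ p ∈ antidiagonal j, (g p.1 * B' (p.2 + 1) - b (p.2 + 1) * g p.1)
      - (j : K) • g j ∧
    g (j + 1) - Pr e e' (g (j + 1)) = ∑ p, ∑ q, (u p - u q)⁻¹ • (e p * R * e' q) := by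
  refine ⟨_, rfl, ?_⟩
  have hR : b 0 * g (j + 1) - g (j + 1) * B' 0 =
      ∑ p ∈ antidiagonal j, (g p.1 * B' (p.2 + 1) - b (p.2 + 1) * g p.1)
      - (j : K) • g j := by
    have hE := h.eqT j
    rw [Finset.Nat.sum_antidiagonal_succ, Finset.Nat.sum_antidiagonal_succ'] at hE
    simp only [] at hE
    have hsw : ∑ p ∈ antidiagonal j, b (p.1 + 1) * g p.2
        = ∑ p ∈ antidiagonal j, b (p.2 + 1) * g p.1 := by
      rw [← Finset.Nat.sum_antidiagonal_swap]
      rfl
    rw [hsw] at hE
    rw [Finset.sum_sub_distrib]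
    have : b 0 * g (j + 1) = (g (j + 1) * B' 0 + ∑ p ∈ antidiagonal j, g p.1 * B' (p.2 + 1))
        - (j : K) • g j - ∑ p ∈ antidiagonal j, b (p.2 + 1) * g p.1 := by
      rw [← hE]; abel
    rw [this]; abel
  rw [q1_off h, hR]

lemma offdiag0 (h : GData k u e e' a b B' g) : Pr e e' (g 0) = g 0 := by
  have h1 := q1_off h (g 0)
  rw [h.eqT0, sub_self] at h1
  simp only [mul_zero, zero_mul, smul_zero, Finset.sum_const_zero] at h1
  exact (sub_eq_zero.1 h1).symm

private lemma q1_Pr_add (x y : MK r) : Pr e e' (x + y) = Pr e e' x + Pr e e' y := by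
  simp only [Pr, mul_add, add_mul, Finset.sum_add_distrib]

private lemma q1_Pr_sub (x y : MK r) : Pr e e' (x - y) = Pr e e' x - Pr e e' y := by
  simp only [Pr, mul_sub, sub_mul, Finset.sum_sub_distrib]

private lemma q1_ePr (h : GData k u e e' a b B' g) (x : MK r) (i : Fin l) :
    e i * Pr e e' x = e i * x * e' i := by
  rw [Pr, Finset.mul_sum, Finset.sum_eq_single i]
  · rw [← mul_assoc, ← mul_assoc, h.idem]
  · intro j _ hj
    rw [← mul_assoc, ← mul_assoc, h.orth i j (Ne.symm hj), zero_mul, zero_mul]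
  · intro hc; exact absurd (Finset.mem_univ i) hc

private lemma q1_Pre (h : GData k u e e' a b B' g) (x : MK r) (i : Fin l) :
    Pr e e' x * e' i = e i * x * e' i := by
  rw [Pr, Finset.sum_mul, Finset.sum_eq_single i]
  · rw [mul_assoc, h.dat.idem]
  · intro j _ hj
    rw [mul_assoc, h.dat.orth j i hj, mul_zero]
  · intro hc; exact absurd (Finset.mem_univ i) hc

private lemma q1_map_mul (x y : MK r) : (x * y).map zd = x.map zd * y + x * y.map zd :=
  (Der.mat (n := Fin r) (zd : Der K)).leib x y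

private lemma q1_map_sub (x y : MK r) : (x - y).map zd = x.map zd - y.map zd := by
  ext i j; simp

/-- the equation for the diagonal part -/
lemma diag_eq (h : GData k u e e' a b B' g) (j : ℕ) :
    (Pr e e' (g j)).map zd + Cg e (a 1) * Pr e e' (g j) - Pr e e' (g j) * Cd e'
      = -Pr e e' ((g j - Pr e e' (g j)).map zd + a 1 * (g j - Pr e e' (g j))
        + ∑ p ∈ (antidiagonal (j + 1)).filter (fun p => 2 ≤ p.1), a p.1 * g p.2) := by
  set S2 := ∑ p ∈ (antidiagonal (j + 1)).filter (fun p => 2 ≤ p.1), a p.1 * g p.2 with hS2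
  set y := Pr e e' (g j) with hy
  -- the equation `eqP` split
  have hsplit : ∑ p ∈ antidiagonal (j + 1), a p.1 * g p.2
      = a 0 * g (j + 1) + a 1 * g j + S2 := by
    rw [← Finset.sum_filter_add_sum_filter_not (antidiagonal (j + 1)) (fun p => 2 ≤ p.1),
      ← hS2, add_comm]
    congr 1
    have : (antidiagonal (j + 1)).filter (fun p => ¬ 2 ≤ p.1) = {(0, j + 1), (1, j)} := by
      ext ⟨p, q⟩
      simp only [Finset.mem_filter, mem_antidiagonal, Finset.mem_insert, Finset.mem_singleton,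
        Prod.mk.injEq]
      omega
    rw [this, Finset.sum_pair (by simp)]
  have hP := h.eqP j
  rw [hsplit] at hP
  -- apply Pr
  have hPr0 : Pr e e' (a 0 * g (j + 1)) = Pr e e' (g (j + 1) * Am u e') := by
    rw [Pr, Pr]
    refine Finset.sum_congr rfl fun i _ => ?_
    have h1 : e i * a 0 = -(zd (u i) • e i) := by
      rw [h.a0, mul_neg, q1_sum_mul h.idem h.orth (fun i => zd (u i))]
    have h2 : Am u e' * e' i = -(zd (u i) • e' i) := h.dat.Ae i
    rw [← mul_assoc, h1, ← mul_assoc (e i), mul_assoc (e i * g (j + 1)), h2]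
    simp only [neg_mul, mul_neg, Matrix.smul_mul, Matrix.mul_smul]
  have hPr := congrArg (Pr e e') hP
  rw [q1_Pr_add, q1_Pr_add, q1_Pr_add, hPr0] at hPr
  -- the diagonal part of `y'`
  have hyy : ∀ i, e i * y = y * e' i := fun i => by rw [hy, q1_ePr h, q1_Pre h]
  have hPry' : Pr e e' (y.map zd) = y.map zd + Cd e * y - y * Cd e' := by
    have hi : ∀ i, e i * y.map zd * e' i = e i * (e i).map zd * y + e i * y.map zd
        - y * (e' i * (e' i).map zd) := by
      intro i
      have hd : (e i).map zd * y + e i * y.map zd = y.map zd * e' i + y * (e' i).map zd := by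
        rw [← q1_map_mul, ← q1_map_mul, hyy i]
      have : y.map zd * e' i = (e i).map zd * y + e i * y.map zd - y * (e' i).map zd := by
        rw [hd]; abel
      rw [mul_assoc, this, mul_sub, mul_add, ← mul_assoc, ← mul_assoc, h.idem, ← mul_assoc (e i) y,
        hyy i, mul_assoc y]
    rw [Pr, Finset.sum_congr rfl fun i _ => hi i, Finset.sum_sub_distrib, Finset.sum_add_distrib,
      ← Finset.sum_mul, ← Finset.sum_mul, ← Finset.mul_sum, h.sum, one_mul, Cd, Cd]
    abel
  have hPra : Pr e e' (a 1 * y) = (∑ i, e i * a 1 * e i) * y := by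
    rw [Pr, Finset.sum_mul]
    refine Finset.sum_congr rfl fun i _ => ?_
    rw [← mul_assoc (e i), mul_assoc (e i * a 1) y, ← hyy i, mul_assoc (e i * a 1) (e i) y]
  have hg : g j = y + (g j - y) := by abel
  have hz1 : Pr e e' ((g j).map zd) = Pr e e' (y.map zd) + Pr e e' ((g j - y).map zd) := by
    rw [← q1_Pr_add, q1_map_sub]; congr 1; abel
  have hz2 : Pr e e' (a 1 * g j) = Pr e e' (a 1 * y) + Pr e e' (a 1 * (g j - y)) := by
    rw [← q1_Pr_add, mul_sub]; congr 1; abel
  rw [hz1, hz2, hPry', hPra] at hPr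
  rw [q1_Pr_add, q1_Pr_add, Cg, add_mul, eq_neg_iff_add_eq_zero]
  have h3 : y.map zd + Cd e * y - y * Cd e' + Pr e e' ((g j - y).map zd) +
      ((∑ i, e i * a 1 * e i) * y + Pr e e' (a 1 * (g j - y)) + Pr e e' S2) = 0 := by
    have h4 := sub_eq_zero.2 hPr
    rw [← h4]; abel
  rw [← h3]; abel

/-! ### module q2: regularity of the operator `y ↦ D y + C y - y C'` -/

/-- the matrix of `y ↦ C y - y C'` -/
noncomputable def bim (C C' : MK r) : Matrix (Fin r × Fin r) (Fin r × Fin r) K :=
  fun p q => C p.1 q.1 * (if p.2 = q.2 then 1 else 0) - (if p.1 = q.1 then 1 else 0) * C' q.2 p.2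

lemma con_bim (C C' y : MK r) (p : Fin r × Fin r) :
    con zd (bim C C') (fun q => y q.1 q.2) p = (y.map zd + C * y - y * C') p.1 p.2 := by
  have h1 : (bim C C').mulVec (fun q => y q.1 q.2) p = (C * y) p.1 p.2 - (y * C') p.1 p.2 := by
    rw [Matrix.mulVec, dotProduct, Matrix.mul_apply, Matrix.mul_apply]
    have h2 : ∀ q : Fin r × Fin r, bim C C' p q * y q.1 q.2 =
        (if p.2 = q.2 then C p.1 q.1 * y q.1 q.2 else 0) -
          (if p.1 = q.1 then y q.1 q.2 * C' q.2 p.2 else 0) := by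
      intro q
      unfold bim
      split_ifs <;> ring
    rw [Finset.sum_congr rfl fun q _ => h2 q, Finset.sum_sub_distrib]
    congr 1
    · rw [Fintype.sum_prod_type]
      refine Finset.sum_congr rfl fun a _ => ?_
      simp
    · rw [Fintype.sum_prod_type_right]
      refine Finset.sum_congr rfl fun b _ => ?_
      simp
  unfold con
  rw [h1, Matrix.sub_apply, Matrix.add_apply, Matrix.map_apply]
  ring

private lemma q2_bim_eq (C C' : MK r) :
    bim C C' = Matrix.kronecker C (1 : MK r) - Matrix.kronecker (1 : MK r) C'.transpose := by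
  funext p q
  simp only [bim, Matrix.sub_apply, Matrix.kronecker, Matrix.kroneckerMap_apply,
    Matrix.one_apply, Matrix.transpose_apply]

private lemma q2_zd_mul (M N : MK r) : (M * N).map zd = M.map zd * N + M * N.map zd :=
  (Der.mat (n := Fin r) (zd : Der K)).leib M N

private lemma q2_zd_kron (M N : MK r) : (Matrix.kronecker M N).map zd =
    Matrix.kronecker (M.map zd) N + Matrix.kronecker M (N.map zd) := by
  refine Matrix.ext fun p q => ?_
  simp only [Matrix.map_apply, Matrix.add_apply, Matrix.kronecker, Matrix.kroneckerMap_apply]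
  rw [(zd : Der K).leib]

private lemma q2_mul (A B A' B' : MK r) : Matrix.kronecker A B * Matrix.kronecker A' B' =
    Matrix.kronecker (A * A') (B * B') := (Matrix.mul_kronecker_mul A A' B B').symm

lemma Rg_bim (C C' g₀ h₀ : MK r) (hg : g₀ * h₀ = 1) (hC' : Rg C')
    (h : g₀.map zd + C * g₀ - g₀ * C' = 0) : Rg (bim C C') := by
  obtain ⟨P, Q, hPQ, hM⟩ := hC'
  set M := Q * (P.map zd + C' * P) with hMdef
  have hQP : Q * P = 1 := mul_eq_one_comm.1 hPQ
  have hg' : h₀ * g₀ = 1 := mul_eq_one_comm.1 hg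
  have h1 : P.map zd + C' * P = P * M := by
    rw [hMdef, ← Matrix.mul_assoc, hPQ, Matrix.one_mul]
  have h1' : P.map zd = P * M - C' * P := eq_sub_of_add_eq h1
  have hz1 : (1 : MK r).map zd = 0 := (Der.mat (n := Fin r) (zd : Der K)).map_one'
  have h2 : Q.map zd = Q * C' - M * Q := by
    have h3 := q2_zd_mul Q P
    rw [hQP, hz1] at h3
    have h4 : Q.map zd * P = -(Q * P.map zd) := eq_neg_of_add_eq_zero_left h3.symm
    calc Q.map zd = Q.map zd * P * Q := by rw [Matrix.mul_assoc, hPQ, Matrix.mul_one]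
      _ = -(Q * (P * M - C' * P)) * Q := by rw [h4, h1']
      _ = (Q * C') * (P * Q) - (Q * P) * M * Q := by noncomm_ring
      _ = Q * C' - M * Q := by rw [hPQ, hQP, Matrix.mul_one, Matrix.one_mul]
  have h5 : g₀.map zd + C * g₀ = g₀ * C' := sub_eq_zero.1 h
  refine ⟨Matrix.kronecker (g₀ * P) Q.transpose, Matrix.kronecker (Q * h₀) P.transpose, ?_, ?_⟩
  · rw [q2_mul, ← Matrix.transpose_mul, hPQ, Matrix.transpose_one,
      show g₀ * P * (Q * h₀) = 1 by
        rw [Matrix.mul_assoc, ← Matrix.mul_assoc P Q h₀, hPQ, Matrix.one_mul, hg]]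
    exact Matrix.one_kronecker_one
  · have h6 : (Matrix.kronecker (g₀ * P) Q.transpose).map zd +
        bim C C' * Matrix.kronecker (g₀ * P) Q.transpose =
        Matrix.kronecker (g₀ * P) Q.transpose * bim M M := by
      have h7 : (g₀ * P).map zd + C * (g₀ * P) = g₀ * P * M := by
        rw [q2_zd_mul, h1', ← Matrix.mul_assoc C g₀ P]
        calc g₀.map zd * P + g₀ * (P * M - C' * P) + C * g₀ * P =
            (g₀.map zd + C * g₀) * P + g₀ * (P * M) - g₀ * C' * P := by noncomm_ring
          _ = g₀ * P * M := by rw [h5]; noncomm_ring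
      have h8 : Q.transpose.map zd - C'.transpose * Q.transpose =
          -(Q.transpose * M.transpose) := by
        rw [Matrix.transpose_map, h2, ← Matrix.transpose_mul, ← Matrix.transpose_mul,
          Matrix.transpose_sub]
        abel
      rw [q2_zd_kron, q2_bim_eq, q2_bim_eq, Matrix.sub_mul, Matrix.mul_sub, q2_mul, q2_mul, q2_mul,
        q2_mul, Matrix.one_mul, Matrix.one_mul, Matrix.mul_one, Matrix.mul_one]
      have h9 : ∀ A B D : MK r, Matrix.kronecker (A + B) D =
          Matrix.kronecker A D + Matrix.kronecker B D := fun A B D =>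
        Matrix.add_kronecker A B D
      have h10 : ∀ A B D : MK r, Matrix.kronecker D (A - B) =
          Matrix.kronecker D A - Matrix.kronecker D B := by
        intro A B D
        refine Matrix.ext fun p q => ?_
        simp only [Matrix.sub_apply, Matrix.kronecker, Matrix.kroneckerMap_apply]
        exact mul_sub _ _ _
      have h11 : ∀ A D : MK r, Matrix.kronecker D (-A) = -Matrix.kronecker D A := by
        intro A D
        refine Matrix.ext fun p q => ?_
        simp only [Matrix.neg_apply, Matrix.kronecker, Matrix.kroneckerMap_apply]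
        exact mul_neg _ _
      calc Matrix.kronecker ((g₀ * P).map zd) Q.transpose +
            Matrix.kronecker (g₀ * P) (Q.transpose.map zd) +
            (Matrix.kronecker (C * (g₀ * P)) Q.transpose -
              Matrix.kronecker (g₀ * P) (C'.transpose * Q.transpose)) =
          Matrix.kronecker ((g₀ * P).map zd + C * (g₀ * P)) Q.transpose +
            Matrix.kronecker (g₀ * P) (Q.transpose.map zd - C'.transpose * Q.transpose) := by
            rw [h9, h10]
            abel
        _ = Matrix.kronecker (g₀ * P * M) Q.transpose -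
            Matrix.kronecker (g₀ * P) (Q.transpose * M.transpose) := by
            rw [h7, h8, h11, sub_eq_add_neg]
    rw [h6, ← Matrix.mul_assoc, q2_mul, ← Matrix.transpose_mul, hQP, Matrix.transpose_one,
      show Q * h₀ * (g₀ * P) = 1 by
        rw [Matrix.mul_assoc, ← Matrix.mul_assoc h₀ g₀ P, hg', Matrix.one_mul, hQP]]
    rw [show Matrix.kronecker (1 : MK r) (1 : MK r) = 1 from Matrix.one_kronecker_one,
      Matrix.one_mul]
    intro p q
    unfold bim
    refine Vge.sub ?_ ?_
    · split_ifs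
      · rw [mul_one]
        exact hM _ _
      · rw [mul_zero]
        exact Vge.zero 0
    · split_ifs
      · rw [one_mul]
        exact hM _ _
      · rw [zero_mul]
        exact Vge.zero 0

/-! ### module q3: conclusion -/

private lemma q3_mul {ρ : ℝ} (h0 : 0 < ρ) {x y : MK r} (hx : ∀ p q, Lsum ρ (x p q))
    (hy : ∀ p q, Lsum ρ (y p q)) (p q : Fin r) : Lsum ρ ((x * y) p q) := by
  rw [Matrix.mul_apply]
  exact Lsum.sum h0 fun i _ => (hx p i).mul h0 (hy i q)

private lemma q3_add {ρ : ℝ} (h0 : 0 < ρ) {x y : MK r} (hx : ∀ p q, Lsum ρ (x p q))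
    (hy : ∀ p q, Lsum ρ (y p q)) (p q : Fin r) : Lsum ρ ((x + y) p q) :=
  (hx p q).add h0 (hy p q)

private lemma q3_sub {ρ : ℝ} (h0 : 0 < ρ) {x y : MK r} (hx : ∀ p q, Lsum ρ (x p q))
    (hy : ∀ p q, Lsum ρ (y p q)) (p q : Fin r) : Lsum ρ ((x - y) p q) :=
  (hx p q).sub h0 (hy p q)

private lemma q3_neg {ρ : ℝ} {x : MK r} (hx : ∀ p q, Lsum ρ (x p q)) (p q : Fin r) :
    Lsum ρ ((-x) p q) := (hx p q).neg

private lemma q3_smul {ρ : ℝ} (h0 : 0 < ρ) {c : K} (hc : Lsum ρ c) {x : MK r}
    (hx : ∀ p q, Lsum ρ (x p q)) (p q : Fin r) : Lsum ρ ((c • x) p q) := by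
  rw [Matrix.smul_apply, smul_eq_mul]
  exact hc.mul h0 (hx p q)

private lemma q3_sum {ρ : ℝ} (h0 : 0 < ρ) {ι : Type} {s : Finset ι} {f : ι → MK r}
    (h : ∀ i ∈ s, ∀ p q, Lsum ρ (f i p q)) (p q : Fin r) : Lsum ρ ((∑ i ∈ s, f i) p q) := by
  rw [Matrix.sum_apply]
  exact Lsum.sum h0 fun i hi => h i hi p q

private lemma q3_Pr {ρ : ℝ} (h0 : 0 < ρ) (he : ∀ i p q, Lsum ρ (e i p q))
    (he' : ∀ i p q, Lsum ρ (e' i p q)) {x : MK r} (hx : ∀ p q, Lsum ρ (x p q))
    (p q : Fin r) : Lsum ρ ((Pr e e' x) p q) := by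
  rw [Pr]
  exact q3_sum h0 (fun i _ => q3_mul h0 (q3_mul h0 (he i) hx) (he' i)) p q

private lemma q3_nat {ρ : ℝ} (n : ℕ) : Lsum ρ (n : K) := by
  have : (n : K) = LS.C (n : ℂ) := by rw [map_natCast]
  rw [this]
  exact Lsum.C _

theorem gauge_conv (h : GData k u e e' a b B' g) (h₀ : MK r) (hg : g 0 * h₀ = 1) {ρ : ℝ}
    (hρ : 0 < ρ) (ha : ∀ j p q, Lsum ρ (a j p q)) (hb : ∀ j p q, Lsum ρ (b j p q))
    (hu : ∀ i, Cv (u i)) (he : ∀ i p q, Cv (e i p q)) (he' : ∀ i p q, Cv (e' i p q))
    (hB' : ∀ j p q, Cv (B' j p q)) :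
    ∃ ρ' : ℝ, 0 < ρ' ∧ ∀ j p q, Lsum ρ' (g j p q) := by
  -- common radii
  obtain ⟨ρ1, hρ1, hE⟩ := Cv.common (f := fun x : Fin l × Fin r × Fin r => e x.1 x.2.1 x.2.2)
    fun x => he _ _ _
  obtain ⟨ρ2, hρ2, hE'⟩ := Cv.common (f := fun x : Fin l × Fin r × Fin r => e' x.1 x.2.1 x.2.2)
    fun x => he' _ _ _
  obtain ⟨ρ3, hρ3, hU⟩ := Cv.common (f := fun x : Fin l × Fin l => (u x.1 - u x.2)⁻¹)
    fun x => ((hu _).sub (hu _)).inv
  obtain ⟨ρ4, hρ4, hB4⟩ := Cv.common
    (f := fun x : Fin (k + 2) × Fin r × Fin r => B' x.1.val x.2.1 x.2.2) fun x => hB' _ _ _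
  have hBall : ∀ j p q, Lsum ρ4 (B' j p q) := by
    intro j p q
    by_cases hj : k + 1 < j
    · rw [h.dat.top j hj]; exact Lsum.zero _
    · exact hB4 (⟨j, by omega⟩, p, q)
  -- the differential operator
  have hCg : ∀ p q, Cv (Cg e (a 1) p q) := by
    intro p q
    rw [Cg, Cd, Matrix.add_apply, Matrix.sum_apply, Matrix.sum_apply]
    refine (Cv.sum fun i _ => ?_).add (Cv.sum fun i _ => ?_)
    · rw [Matrix.mul_apply]
      exact Cv.sum fun m _ => (he _ _ _).mul (he _ _ _).zd
    · rw [Matrix.mul_apply]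
      refine Cv.sum fun m _ => Cv.mul ?_ (he _ _ _)
      rw [Matrix.mul_apply]
      exact Cv.sum fun m' _ => (he _ _ _).mul ⟨ρ, hρ, ha _ _ _⟩
  have hCd : ∀ p q, Cv (Cd e' p q) := by
    intro p q
    rw [Cd, Matrix.sum_apply]
    refine Cv.sum fun i _ => ?_
    rw [Matrix.mul_apply]
    exact Cv.sum fun m _ => (he' _ _ _).mul (he' _ _ _).zd
  have hG : ∀ p q, Cv (bim (Cg e (a 1)) (Cd e') p q) := by
    intro p q
    have hite : ∀ P : Prop, [Decidable P] → Cv (if P then (1 : K) else 0) := by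
      intro P _
      split_ifs
      · exact Cv.one
      · exact Cv.zero
    exact ((hCg _ _).mul (hite _)).sub ((hite _).mul (hCd _ _))
  have hreg : Rg (bim (Cg e (a 1)) (Cd e')) := by
    refine Rg_bim _ _ (g 0) h₀ hg (Rg_Cd h.dat) ?_
    have h0 := diag_eq h 0
    rw [offdiag0 h, sub_self] at h0
    rw [h0]
    have hz : ((0 : MK r).map zd) = 0 := by ext i j; simp
    have hS : ∑ p ∈ (antidiagonal (0 + 1)).filter (fun p => 2 ≤ p.1), a p.1 * g p.2 = 0 := by
      refine Finset.sum_eq_zero fun p hp => ?_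
      rw [Finset.mem_filter, mem_antidiagonal] at hp
      omega
    rw [hS, hz, mul_zero, add_zero, add_zero, Pr]
    simp
  obtain ⟨ρ0, hρ0, hlode⟩ := lode _ hG hreg
  -- the radius
  obtain ⟨R, hR, hRle⟩ : ∃ R : ℝ, 0 < R ∧ (R ≤ ρ ∧ R ≤ ρ0 ∧ R ≤ ρ1 ∧ R ≤ ρ2 ∧ R ≤ ρ3 ∧ R ≤ ρ4) := by
    refine ⟨min ρ (min ρ0 (min ρ1 (min ρ2 (min ρ3 ρ4)))), by positivity, ?_⟩
    simp only [min_le_iff, le_refl, true_or, or_true, and_self]
  obtain ⟨hr, hr0, hr1, hr2, hr3, hr4⟩ := hRle
  have key : ∀ j, ∀ ρ' : ℝ, 0 < ρ' → ρ' < R → ∀ p q, Lsum ρ' (g j p q) := by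
    intro j
    induction j using Nat.strong_induction_on with
    | _ j ih =>
    -- the off-diagonal part
    have hoff : ∀ ρ' : ℝ, 0 < ρ' → ρ' < R → ∀ p q, Lsum ρ' ((g j - Pr e e' (g j)) p q) := by
      intro ρ' h0' hR'
      have me : ∀ i p q, Lsum ρ' (e i p q) := fun i p q =>
        Lsum.mono h0' (by linarith) (hE (i, p, q))
      have me' : ∀ i p q, Lsum ρ' (e' i p q) := fun i p q =>
        Lsum.mono h0' (by linarith) (hE' (i, p, q))
      cases j with
      | zero =>
        intro p q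
        rw [offdiag0 h, sub_self]
        exact Lsum.zero _
      | succ j =>
        obtain ⟨S, hS, hSe⟩ := offdiag h j
        have hSl : ∀ p q, Lsum ρ' (S p q) := by
          rw [hS]
          refine q3_sub h0' (q3_sum h0' fun p hp => ?_) ?_
          · have hp1 : p.1 < j + 1 := by
              rw [mem_antidiagonal] at hp; omega
            exact q3_sub h0'
              (q3_mul h0' (ih _ hp1 ρ' h0' hR')
                (fun x y => Lsum.mono h0' (by linarith) (hBall _ x y)))
              (q3_mul h0' (fun x y => Lsum.mono h0' (by linarith) (hb _ x y))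
                (ih _ hp1 ρ' h0' hR'))
          · exact q3_smul h0' (q3_nat j) (ih j (by omega) ρ' h0' hR')
        rw [hSe]
        refine q3_sum h0' fun p _ => q3_sum h0' fun q _ => q3_smul h0' ?_
          (q3_mul h0' (q3_mul h0' (me p) hSl) (me' q))
        exact Lsum.mono h0' (by linarith) (hU (p, q))
    intro ρ' h0' hR'
    have me : ∀ i p q, Lsum ρ' (e i p q) := fun i p q =>
      Lsum.mono h0' (by linarith) (hE (i, p, q))
    have me' : ∀ i p q, Lsum ρ' (e' i p q) := fun i p q =>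
      Lsum.mono h0' (by linarith) (hE' (i, p, q))
    -- the right hand side of the equation for the diagonal part
    have hd := diag_eq h j
    have hrhs : ∀ p q, Lsum ρ' ((-Pr e e' ((g j - Pr e e' (g j)).map zd
        + a 1 * (g j - Pr e e' (g j))
        + ∑ p ∈ (antidiagonal (j + 1)).filter (fun p => 2 ≤ p.1), a p.1 * g p.2)) p q) := by
      refine q3_neg (q3_Pr h0' me me' (q3_add h0' (q3_add h0' ?_ ?_) (q3_sum h0' fun p hp => ?_)))
      · intro p q
        rw [Matrix.map_apply]
        exact Lsum.zd (ρ := (ρ' + R) / 2) h0' (by linarith)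
          (hoff _ (by linarith) (by linarith) p q)
      · exact q3_mul h0' (fun x y => Lsum.mono h0' (by linarith) (ha _ x y)) (hoff ρ' h0' hR')
      · rw [Finset.mem_filter, mem_antidiagonal] at hp
        exact q3_mul h0' (fun x y => Lsum.mono h0' (by linarith) (ha _ x y))
          (ih _ (by omega) ρ' h0' hR')
    have hy := hlode ρ' h0' (by linarith)
      (fun q => (-Pr e e' ((g j - Pr e e' (g j)).map zd
        + a 1 * (g j - Pr e e' (g j))
        + ∑ p ∈ (antidiagonal (j + 1)).filter (fun p => 2 ≤ p.1), a p.1 * g p.2)) q.1 q.2)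
      (fun q => Pr e e' (g j) q.1 q.2) (fun q => hrhs _ _) (by
        intro q
        have := con_bim (Cg e (a 1)) (Cd e') (Pr e e' (g j)) q
        rw [hd] at this
        exact this)
    intro p q
    have : g j = Pr e e' (g j) + (g j - Pr e e' (g j)) := by abel
    rw [this]
    exact q3_add h0' (fun x y => hy (x, y)) (hoff ρ' h0' hR') p q
  exact ⟨R / 2, by linarith, fun j => key j _ (by linarith) (by linarith)⟩

end Pool.Agent.Fbc
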