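import Pool.Agent.Fbc.Sys

/-!
# The growth of the linearised equation (section 7)
-/

set_option autoImplicit false

namespace Pool.Agent.Fbc

open Polynomial

variable {l k r : ℕ}

section defs

variable (k : ℕ) (u : Fin l → K) (e : Fin l → MK r) (B : ℕ → MK r) (β : ℂ)

/-- the matrix of `X_i` for the concrete system -/
noncomputable def GXi (i : Fin l) : Matrix (IX k r) (IX k r) KT :=
  gX u (OT k u e B β) (OD k u e B β) i

/-- the correction terms `c^i_n` -/
noncomputable def cs (b : ℕ → MK r) (i : Fin l) : ℕ → Matrix (IX k r) (IX k r) KT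
  | 0 => 0
  | n + 1 => nab (DX (u i)) (GXi k u e B β i) (cs b i n)
      + yI k u e B β i ((LamK u e B)^[n] b)

/-- the value of `c^i_n` at infinity -/
noncomputable def ch (b : ℕ → MK r) (i : Fin l) (n : ℕ) : Matrix (IX k r) (IX k r) K :=
  fun p q => (inf (cs k u e B β b i n p q)).coeff 0

/-- the `(a, a')` block -/
def blk (M : Matrix (IX k r) (IX k r) K) (a a' : Fin (k + 1)) : MK r :=
  fun p q => M (a, p) (a', q)

end defs

variable {u : Fin l → K} {e : Fin l → MK r} {B : ℕ → MK r}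

private lemma g1_nab_add {ι L : Type} [Fintype ι] [DecidableEq ι] [CommRing L] (θ : Der L)
    (G M N : Matrix ι ι L) : nab θ G (M + N) = nab θ G M + nab θ G N := by
  have h1 : (M + N).map θ = M.map θ + N.map θ := by
    ext a b
    simp only [Matrix.map_apply, Matrix.add_apply, map_add]
  unfold nab
  rw [h1, Matrix.mul_add, Matrix.add_mul]
  abel

private lemma g1_nab_zero {ι L : Type} [Fintype ι] [DecidableEq ι] [CommRing L] (θ : Der L)
    (G : Matrix ι ι L) : nab θ G 0 = 0 := by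
  have h1 : (0 : Matrix ι ι L).map θ = 0 := by
    ext a b
    simp only [Matrix.map_apply, Matrix.zero_apply, map_zero]
  unfold nab
  rw [h1, Matrix.mul_zero, Matrix.zero_mul]
  simp

private lemma g1_nab_sub {ι L : Type} [Fintype ι] [DecidableEq ι] [CommRing L] (θ : Der L)
    (G M N : Matrix ι ι L) : nab θ G (M - N) = nab θ G M - nab θ G N := by
  have h := g1_nab_add θ G (M - N) N
  rw [sub_add_cancel] at h
  rw [h, add_sub_cancel_right]

private lemma g1_iter_zero {ι L : Type} [Fintype ι] [DecidableEq ι] [CommRing L] (θ : Der L)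
    (G : Matrix ι ι L) (n : ℕ) : (nab θ G)^[n] 0 = 0 :=
  Function.iterate_fixed (g1_nab_zero θ G) n

private lemma g1_iter_add {ι L : Type} [Fintype ι] [DecidableEq ι] [CommRing L] (θ : Der L)
    (G M N : Matrix ι ι L) (n : ℕ) :
    (nab θ G)^[n] (M + N) = (nab θ G)^[n] M + (nab θ G)^[n] N := by
  induction n with
  | zero => rfl
  | succ n ih =>
    rw [Function.iterate_succ_apply', Function.iterate_succ_apply',
      Function.iterate_succ_apply', ih, g1_nab_add]

/-- `∇_{θ + q θ'} = ∇_θ + q ∇_θ'` -/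
private lemma g1_nab_comb {ι L : Type} [Fintype ι] [DecidableEq ι] [CommRing L] (θ θ' : Der L)
    (q : L) (G G' M : Matrix ι ι L) :
    nab (θ + q • θ') (G + q • G') M = nab θ G M + q • nab θ' G' M := by
  have h1 : M.map (θ + q • θ') = M.map θ + q • M.map θ' := by
    ext a b
    simp only [Matrix.map_apply, Matrix.add_apply, Matrix.smul_apply, Der.add_apply,
      Der.smul_apply, smul_eq_mul]
  unfold nab
  rw [h1, Matrix.add_mul, Matrix.mul_add, Matrix.smul_mul, Matrix.mul_smul, smul_sub, smul_add]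
  abel

private lemma g1_comm (a : K) (x : KT) : DX a (Dt x) = Dt (DX a x) := by
  have h1 : DX a (Dt x) = DK (Dt x) + cT (zd a) * Dt (Dt x) := rfl
  have h2 : DX a x = DK x + cT (zd a) * Dt x := rfl
  rw [h1, h2, map_add, Dt.leib, Dt_cT, zero_mul, zero_add, DK_Dt]

private lemma g1_flat (h : Dat k u e B) (β : ℂ) (i : Fin l) :
    Flat (DX (u i)) Dt (GXi k u e B β i) (OT k u e B β) := by
  have hf : Flat DK Dt (OD k u e B β) (OT k u e B β) := (adm_sys h β).flat
  unfold Flat at hf ⊢
  have h1 : (OT k u e B β).map (DX (u i)) =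
      (OT k u e B β).map DK + cT (zd (u i)) • (OT k u e B β).map Dt := by
    ext a b
    rfl
  have h2 : (GXi k u e B β i).map Dt =
      (OD k u e B β).map Dt + cT (zd (u i)) • (OT k u e B β).map Dt := by
    ext a b
    change Dt (OD k u e B β a b + cT (zd (u i)) * OT k u e B β a b) =
      Dt (OD k u e B β a b) + cT (zd (u i)) * Dt (OT k u e B β a b)
    rw [map_add, Dt.leib, Dt_cT, zero_mul, zero_add]
  have h3 : GXi k u e B β i = OD k u e B β + cT (zd (u i)) • OT k u e B β := rfl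
  rw [h1, h2, h3, Matrix.add_mul, Matrix.mul_add, Matrix.smul_mul, Matrix.mul_smul, ← hf]
  abel

lemma LamK_iter_top (h : Dat k u e B) {b : ℕ → MK r} (hb : ∀ j, k < j → b j = 0) (n j : ℕ)
    (hj : k < j) : ((LamK u e B)^[n] b) j = 0 := by
  induction n generalizing j with
  | zero => exact hb j hj
  | succ n ih =>
    rw [Function.iterate_succ_apply']
    exact LamK_top h (fun j hj => ih j hj) j hj

/-! ### module g1 -/

theorem X_iter (h : Dat k u e B) (β : ℂ) (i : Fin l) {b : ℕ → MK r} (hb : ∀ j, k < j → b j = 0)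
    (n : ℕ) : (nab (DX (u i)) (GXi k u e B β i))^[n] (wT k u e B β b) =
      wT k u e B β ((LamK u e B)^[n] b) + nab Dt (OT k u e B β) (cs k u e B β b i n) := by
  induction n with
  | zero =>
    have h0 : cs k u e B β b i 0 = 0 := rfl
    rw [h0, g1_nab_zero, add_zero]
    rfl
  | succ n ih =>
    have hc : cs k u e B β b i (n + 1) = nab (DX (u i)) (GXi k u e B β i) (cs k u e B β b i n)
      + yI k u e B β i ((LamK u e B)^[n] b) := rfl
    rw [Function.iterate_succ_apply', Function.iterate_succ_apply', ih, g1_nab_add,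
      show GXi k u e B β i = gX u (OT k u e B β) (OD k u e B β) i from rfl,
      X_wT h β i (fun j hj => LamK_iter_top h hb n j hj),
      show gX u (OT k u e B β) (OD k u e B β) i = GXi k u e B β i from rfl,
      nab_comm (g1_comm (u i)) (g1_flat h β i), hc, g1_nab_add]
    abel

theorem cs_diff (h : Dat k u e B) (β : ℂ) (i j : Fin l) {b : ℕ → MK r}
    (hb : ∀ j, k < j → b j = 0) (n : ℕ) :
    cs k u e B β b i (n + 1) - cs k u e B β b j (n + 1) =
      nab (DX (u j)) (GXi k u e B β j) (cs k u e B β b i n - cs k u e B β b j n)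
      + cT (zd (u i - u j)) • (nab (DX (u i)) (GXi k u e B β i))^[n] (wT k u e B β b) := by
  have hci : cs k u e B β b i (n + 1) = nab (DX (u i)) (GXi k u e B β i) (cs k u e B β b i n)
      + yI k u e B β i ((LamK u e B)^[n] b) := rfl
  have hcj : cs k u e B β b j (n + 1) = nab (DX (u j)) (GXi k u e B β j) (cs k u e B β b j n)
      + yI k u e B β j ((LamK u e B)^[n] b) := rfl
  have hcT : cT (zd (u i)) = cT (zd (u j)) + cT (zd (u i - u j)) := by
    unfold cT
    rw [map_sub, map_sub, map_sub, add_sub_cancel]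
  have hX : DX (u i) = DX (u j) + cT (zd (u i - u j)) • Dt := by
    ext x
    change DK x + cT (zd (u i)) * Dt x = (DK x + cT (zd (u j)) * Dt x) +
      cT (zd (u i - u j)) * Dt x
    rw [hcT]
    ring
  have hG : GXi k u e B β i = GXi k u e B β j + cT (zd (u i - u j)) • OT k u e B β := by
    change OD k u e B β + cT (zd (u i)) • OT k u e B β =
      (OD k u e B β + cT (zd (u j)) • OT k u e B β) + cT (zd (u i - u j)) • OT k u e B β
    rw [hcT, add_smul, add_assoc]
  have h1 : nab (DX (u i)) (GXi k u e B β i) (cs k u e B β b i n) =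
      nab (DX (u j)) (GXi k u e B β j) (cs k u e B β b i n) +
        cT (zd (u i - u j)) • nab Dt (OT k u e B β) (cs k u e B β b i n) := by
    rw [hX, hG, g1_nab_comb]
  have h2 := yI_sub (u := u) (e := e) (B := B) (k := k) i j β ((LamK u e B)^[n] b)
  rw [X_iter h β i hb n, hci, hcj, h1, g1_nab_sub, smul_add, ← h2]
  abel

/-! ### module g2 -/

theorem cs_diff_bound (h : Dat k u e B) (β : ℂ) (K₀ : ℕ) (hK : 1 ≤ K₀)
    (hK₀ : ∀ i j, i ≠ j → ¬ Vge (K₀ : ℝ) (u i - u j)) {b : ℕ → MK r}
    (hb : ∀ j, k < j → b j = 0) {σ : ℝ} (hσ : 0 < σ) :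
    ∃ C : ℝ, ∀ (n : ℕ) (i j : Fin l) (κ : ℕ), κ ≤ K₀ → Vge (κ : ℝ) (u i - u j) →
      MVge (-(σ * n) - C)
        ((cs k u e B β b i n - cs k u e B β b j n).map (node (u i) κ)) := by
  obtain ⟨C0, hC0, hgr⟩ := grow_XE (adm_sys h β) h.uint K₀ hK hK₀ hσ
  -- a common lower bound for `om_t(b)` at the nodes
  have hw : ∃ c : ℝ, ∀ (i : Fin l) (κ : ℕ), κ ≤ K₀ →
      MVge c ((wT k u e B β b).map (node (u i) κ)) := by
    have h1 : ∀ p : Fin l × Fin (K₀ + 1), ∃ c : ℝ,
        MVge c ((wT k u e B β b).map (node (u p.1) p.2)) := fun p => exists_MVge _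
    choose f hf using h1
    refine ⟨-∑ p, |f p|, fun i κ hκ => ?_⟩
    have h2 := hf (i, ⟨κ, by omega⟩)
    refine h2.mono ?_
    have h3 : |f (i, ⟨κ, by omega⟩)| ≤ ∑ p, |f p| :=
      Finset.single_le_sum (f := fun p => |f p|) (fun p _ => abs_nonneg _) (Finset.mem_univ _)
    have h4 := neg_abs_le (f (i, ⟨κ, by omega⟩))
    linarith
  obtain ⟨cw, hcw⟩ := hw
  refine ⟨2 * C0 - cw, fun n i j κ hκ hij => ?_⟩
  have hji : Vge (κ : ℝ) (u j - u i) := by
    have := hij.neg
    rwa [neg_sub] at this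
  -- transfer between the nodes of `i` and `j`
  have htr : ∀ (c : ℝ) (M : Matrix (IX k r) (IX k r) KT),
      MVge c (M.map (node (u i) κ)) ↔ MVge c (M.map (node (u j) κ)) := fun c M =>
    forall_congr' fun p => forall_congr' fun q => node_Vge_congr hji c (M p q)
  have hq : Vge 0 (node (u j) κ (cT (zd (u i - u j)))) := by
    rw [node_cT, Vge_inn]
    exact (hij.zd).mono (by positivity)
  have key : ∀ n m : ℕ, MVge (cw - σ * (n + m) - 2 * C0)
      (((nab (DX (u j)) (GXi k u e B β j))^[m]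
        (cs k u e B β b i n - cs k u e B β b j n)).map (node (u j) κ)) := by
    intro n
    induction n with
    | zero =>
      intro m
      have h0 : cs k u e B β b i 0 - cs k u e B β b j 0 = 0 := sub_self _
      rw [h0, g1_iter_zero]
      intro p q
      rw [Matrix.map_apply, Matrix.zero_apply, map_zero]
      exact Vge.zero _
    | succ n ih =>
      intro m
      rw [cs_diff h β i j hb n, g1_iter_add, ← Function.iterate_succ_apply]
      have h1 := ih (m + 1)
      have h2 : MVge (cw - σ * n - C0)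
          ((cT (zd (u i - u j)) • (nab (DX (u i)) (GXi k u e B β i))^[n]
            (wT k u e B β b)).map (node (u j) κ)) := by
        have h3 := (htr _ _).1 (hgr i κ hκ n cw _ (hcw i κ hκ))
        intro p q
        rw [Matrix.map_apply, Matrix.smul_apply, smul_eq_mul, map_mul]
        exact hq.mul0 (h3 p q)
      have h4 := hgr j κ hκ m _ _ h2
      intro p q
      rw [Matrix.map_apply, Matrix.add_apply, map_add]
      refine Vge.add ((h1 p q).mono ?_) ((h4 p q).mono ?_)
      · push_cast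
        linarith
      · push_cast
        nlinarith
  have h5 := key n 0
  rw [Function.iterate_zero, id] at h5
  rw [htr]
  refine h5.mono ?_
  push_cast
  linarith

/-! ### module g3 -/

private lemma g3_isPol_nab {ι : Type} [Fintype ι] {G M : Matrix ι ι KT} (a : K)
    (hG : ∀ p q, IsPol u (G p q)) (hM : ∀ p q, IsPol u (M p q)) (p q : ι) :
    IsPol u (nab (DX a) G M p q) := by
  have h1 : nab (DX a) G M p q = (DK (M p q) + cT (zd a) * Dt (M p q))
      + ∑ x, G p x * M x q - ∑ x, M p x * G x q := rfl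
  rw [h1]
  exact ((((hM p q).DK).add ((IsPol.cT _).mul (hM p q).Dt)).add
    (IsPol.sum fun x _ => (hG p x).mul (hM x q))).sub (IsPol.sum fun x _ => (hM p x).mul (hG x q))

private lemma g3_isPol_G (h : Dat k u e B) (β : ℂ) (i : Fin l) (p q : IX k r) :
    IsPol u (GXi k u e B β i p q) :=
  ((adm_sys h β).polD p q).add ((IsPol.cT _).mul ((adm_sys h β).polt p q))

theorem cs_isPol (h : Dat k u e B) (β : ℂ) (b : ℕ → MK r) (i : Fin l) (n : ℕ) (p q : IX k r) :
    IsPol u (cs k u e B β b i n p q) := by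
  induction n generalizing p q with
  | zero =>
    have := IsPol.poly u 0
    rwa [map_zero] at this
  | succ n ih =>
    exact (g3_isPol_nab (u i) (g3_isPol_G h β i) ih p q).add (yI_isPol β i _ p q)

private lemma g3_nab_map {L' : Type} [CommRing L'] {ι : Type} [Fintype ι] (φ : KT →+* L')
    (θ : Der KT) (G M : Matrix ι ι KT) :
    (nab θ G M).map φ = (M.map θ).map φ + G.map φ * M.map φ - M.map φ * G.map φ := by
  ext p q
  simp only [nab, Matrix.map_apply, Matrix.add_apply, Matrix.sub_apply, Matrix.mul_apply,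
    map_add, map_sub, map_sum, map_mul]

theorem cs_reg (h : Dat k u e B) (β : ℂ) (b : ℕ → MK r) (i : Fin l) (n : ℕ) :
    MVge 0 ((cs k u e B β b i n).map (loc (u i))) := by
  induction n with
  | zero =>
    intro p q
    change Vge 0 (loc (u i) 0)
    rw [map_zero]
    exact Vge.zero 0
  | succ n ih =>
    have hG : MVge 0 ((GXi k u e B β i).map (loc (u i))) := (adm_sys h β).regX i
    have h1 : MVge 0 ((nab (DX (u i)) (GXi k u e B β i) (cs k u e B β b i n)).map (loc (u i))) := by
      rw [g3_nab_map]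
      have e1 : (((cs k u e B β b i n).map (DX (u i))).map (loc (u i)))
          = ((cs k u e B β b i n).map (loc (u i))).map (cd zd) := by
        ext p q : 2
        simp only [Matrix.map_apply]
        rw [loc_DX]
      rw [e1]
      have h2 := hG.mul ih
      have h3 := ih.mul hG
      rw [add_zero] at h2 h3
      exact ((ih.map_cd zd).add h2).sub h3
    have h2 := yI_reg h β i ((LamK u e B)^[n] b)
    intro p q
    have := (h1 p q).add (h2 p q)
    simp only [Matrix.map_apply] at this ⊢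
    rw [← map_add] at this
    exact this

private lemma g3_inf_DX (a : K) (g : KT) :
    inf (DX a g) = cd zd (inf g) + LS.C (zd a) * (-(LS.single 1 1 * zd (inf g))) := by
  have h1 : DX a g = DK g + cT (zd a) * Dt g := rfl
  rw [h1, map_add, map_mul, inf_DK, inf_Dt, inf_cT]

private lemma g3_inf_DX_Vge (a : K) {g : KT} (hg : Vge 0 (inf g)) : Vge 0 (inf (DX a g)) := by
  rw [g3_inf_DX]
  refine (hg.cd zd).add ?_
  refine Vge.mul0 (Vge.C _) (Vge.neg (Vge.mul0 ?_ hg.zd))
  exact Vge.single (by norm_num) _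

private lemma g3_dg (x : MK r) :
    (cmp (dg (k := k) (cM x)) : Matrix (IX k r) (IX k r) KT) = (cmp (dg (k := k) x)).map cT := by
  ext ⟨a, p⟩ ⟨b, q⟩
  simp only [cmp, dg, Matrix.map_apply, Matrix.diagonal_apply]
  by_cases hab : a = b
  · rw [if_pos hab, if_pos hab, cM_apply]
  · rw [if_neg hab, if_neg hab]
    simp [cT]

private lemma g3_Jdg (x : MK r) :
    (cmp (Jm (k := k) * dg (cM x)) : Matrix (IX k r) (IX k r) KT)
      = (cmp (Jm (k := k) * dg x)).map cT := by
  ext ⟨a, p⟩ ⟨b, q⟩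
  simp only [cmp, dg, Jm, Matrix.map_apply, Matrix.mul_diagonal]
  by_cases hab : a.val = b.val + 1
  · rw [if_pos hab, if_pos hab, one_mul, one_mul, cM_apply]
  · rw [if_neg hab, if_neg hab, zero_mul, zero_mul]
    simp [cT]

private lemma g3_OD (β : ℂ) :
    OD k u e B β = OT k u e B β * (cmp (dg (k := k) (Am u e))).map cT := by
  unfold OD OmD OT
  rw [cmp_mul, g3_dg]

private lemma g3_cT_map_inf {ι : Type} (M : Matrix ι ι K) :
    MVge 0 ((M.map cT).map inf) := by
  intro p q
  simp only [Matrix.map_apply]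
  rw [inf_cT]
  exact Vge.C _

/-- the coefficient of `T ^ n` at infinity -/
private noncomputable def g5a_cf (n : ℤ) (M : MT r) : MK r := fun p q => (inf (M p q)).coeff n

private lemma g5a_cf_add (n : ℤ) (M N : MT r) : g5a_cf n (M + N) = g5a_cf n M + g5a_cf n N := by
  funext p q
  simp only [g5a_cf, Matrix.add_apply, map_add, LS.coeff_add]

private lemma g5a_cf_cM_mul (n : ℤ) (N : MK r) (M : MT r) :
    g5a_cf n (cM N * M) = N * g5a_cf n M := by
  funext p q
  simp only [g5a_cf, Matrix.mul_apply, map_sum, map_mul, LS.coeff_sum, cM_apply, inf_cT,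
    LS.coeff_C_mul]

private lemma g5a_cf_mul_cM (n : ℤ) (N : MK r) (M : MT r) :
    g5a_cf n (M * cM N) = g5a_cf n M * N := by
  funext p q
  simp only [g5a_cf, Matrix.mul_apply, map_sum, map_mul, LS.coeff_sum, cM_apply, inf_cT]
  refine Finset.sum_congr rfl fun j _ => ?_
  rw [mul_comm, LS.coeff_C_mul, mul_comm]

private lemma g5a_V_cM_mul {c : ℝ} (N : MK r) {M : MT r} (hM : ∀ p q, Vge c (inf (M p q))) (p q : Fin r) :
    Vge c (inf ((cM N * M) p q)) := by
  intro n hn
  have h := congrFun (congrFun (g5a_cf_cM_mul n N M) p) q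
  change (inf ((cM N * M) p q)).coeff n = _ at h
  rw [h, Matrix.mul_apply]
  exact Finset.sum_eq_zero fun j _ => by
    rw [show g5a_cf n M j q = 0 from hM j q n hn, mul_zero]

private lemma g5a_V_mul_cM {c : ℝ} (N : MK r) {M : MT r} (hM : ∀ p q, Vge c (inf (M p q))) (p q : Fin r) :
    Vge c (inf ((M * cM N) p q)) := by
  intro n hn
  have h := congrFun (congrFun (g5a_cf_mul_cM n N M) p) q
  change (inf ((M * cM N) p q)).coeff n = _ at h
  rw [h, Matrix.mul_apply]
  exact Finset.sum_eq_zero fun j _ => by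
    rw [show g5a_cf n M p j = 0 from hM p j n hn, zero_mul]

private lemma g5a_V_add {c : ℝ} {M N : MT r} (hM : ∀ p q, Vge c (inf (M p q)))
    (hN : ∀ p q, Vge c (inf (N p q))) (p q : Fin r) : Vge c (inf ((M + N) p q)) := by
  rw [Matrix.add_apply, map_add]
  exact (hM p q).add (hN p q)

/-- products of two series of order `≥ 1` -/
private lemma g5a_two {x y : F} (hx : Vge 1 x) (hy : Vge 1 y) :
    Vge 2 (x * y) ∧ (x * y).coeff 2 = x.coeff 1 * y.coeff 1 := by
  have h1 : ∀ n < (1 : ℤ), x.coeff n = 0 := fun n hn => hx n (by exact_mod_cast hn)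
  have h2 : ∀ n < (1 : ℤ), y.coeff n = 0 := fun n hn => hy n (by exact_mod_cast hn)
  refine ⟨?_, ?_⟩
  · have h3 := hx.mul hy
    norm_num at h3
    exact h3
  · rw [LS.coeff_mul h1 h2, show (2 : ℤ) - 1 = 1 by norm_num, Finset.Icc_self,
      Finset.sum_singleton, show (2 : ℤ) - 1 = 1 by norm_num]

private lemma g5a_mul {M N : MT r} (hM : ∀ p q, Vge 1 (inf (M p q)))
    (hN : ∀ p q, Vge 1 (inf (N p q))) :
    (∀ p q, Vge 2 (inf ((M * N) p q))) ∧ g5a_cf 2 (M * N) = g5a_cf 1 M * g5a_cf 1 N := by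
  constructor
  · intro p q
    rw [Matrix.mul_apply, map_sum]
    refine Vge.sum fun j _ => ?_
    rw [map_mul]
    exact (g5a_two (hM p j) (hN j q)).1
  · funext p q
    simp only [g5a_cf, Matrix.mul_apply, map_sum, map_mul, LS.coeff_sum]
    exact Finset.sum_congr rfl fun j _ => (g5a_two (hM p j) (hN j q)).2

/-- `1 / (t - a)` at infinity -/
private lemma g5a_inv (a : K) : Vge 1 (inf (tT - cT a)⁻¹) ∧ (inf (tT - cT a)⁻¹).coeff 1 = 1 ∧
    (inf (tT - cT a)⁻¹).coeff 2 = a := by
  set x : F := inf (tT - cT a) with hx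
  have hx1 : x = LS.single (-1) 1 - LS.C a := by
    rw [hx, map_sub, inf_tT, inf_cT]
  have hxc : ∀ n, x.coeff n = (if n = -1 then 1 else 0) - (if n = 0 then a else 0) := by
    intro n
    rw [hx1, LS.coeff_sub, LS.coeff_single, LS.coeff_C]
  have hxn : x ≠ 0 := by
    intro h
    have h1 := hxc (-1)
    rw [h, LS.coeff_zero, if_pos rfl, if_neg (by norm_num), sub_zero] at h1
    exact zero_ne_one h1
  have hord : x.ord = -1 := by
    apply le_antisymm
    · by_contra hc
      have h1 := LS.coeff_of_lt_ord (not_le.1 hc)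
      rw [hxc, if_pos rfl, if_neg (by norm_num), sub_zero] at h1
      exact one_ne_zero h1
    · rw [LS.le_ord_iff hxn]
      intro n hn
      rw [hxc, if_neg (by omega), if_neg (by omega), sub_zero]
  have hyx : inf (tT - cT a)⁻¹ = x⁻¹ := by rw [map_inv₀]
  rw [hyx]
  have hV : Vge 1 x⁻¹ := by
    refine Vge_of_mul hxn ?_
    rw [mul_inv_cancel₀ hxn, hord]
    norm_num
    exact Vge.one
  have hmul : ∀ n : ℤ, (x⁻¹).coeff (n + 1) - a * (x⁻¹).coeff n = if n = 0 then 1 else 0 := by
    intro n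
    have h1 : x * x⁻¹ = 1 := mul_inv_cancel₀ hxn
    have h2 : (x * x⁻¹).coeff n = (1 : F).coeff n := by rw [h1]
    rw [LS.coeff_one] at h2
    have h3 : x * x⁻¹ = LS.single (-1) 1 * x⁻¹ - LS.C a * x⁻¹ := by
      rw [← sub_mul, ← hx1]
    rw [← h2, h3, LS.coeff_sub, LS.coeff_single_mul, LS.coeff_C_mul, one_mul, sub_neg_eq_add]
  have h0 : (x⁻¹).coeff 0 = 0 := hV 0 (by norm_num)
  have h1 : (x⁻¹).coeff 1 = 1 := by
    have := hmul 0
    rw [h0, mul_zero, sub_zero, if_pos rfl] at this
    simpa using this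
  refine ⟨hV, h1, ?_⟩
  have := hmul 1
  rw [h1, mul_one, if_neg one_ne_zero] at this
  have h2 : (x⁻¹).coeff (1 + 1) = a := sub_eq_zero.1 this
  simpa using h2

private lemma g5a_R (h : Dat k u e B) : (∀ p q, Vge 1 (inf (Rm u e p q))) ∧
    g5a_cf 1 (Rm u e) = 1 ∧ g5a_cf 2 (Rm u e) = B 0 := by
  have h1 : ∀ p q, inf (Rm u e p q) = ∑ i, LS.C (e i p q) * inf (tT - cT (u i))⁻¹ := by
    intro p q
    rw [Rm, Matrix.sum_apply, map_sum]
    refine Finset.sum_congr rfl fun i _ => ?_
    rw [Matrix.smul_apply, smul_eq_mul, map_mul, cM_apply, inf_cT, mul_comm]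
  refine ⟨?_, ?_, ?_⟩
  · intro p q
    rw [h1]
    refine Vge.sum fun i _ => ?_
    exact (Vge.C _).mul0 (g5a_inv (u i)).1
  · funext p q
    rw [← h.sum, Matrix.sum_apply]
    change (inf (Rm u e p q)).coeff 1 = _
    rw [h1, LS.coeff_sum]
    refine Finset.sum_congr rfl fun i _ => ?_
    rw [LS.coeff_C_mul, (g5a_inv (u i)).2.1, mul_one]
  · funext p q
    rw [h.B0, Matrix.sum_apply]
    change (inf (Rm u e p q)).coeff 2 = _
    rw [h1, LS.coeff_sum]
    refine Finset.sum_congr rfl fun i _ => ?_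
    rw [LS.coeff_C_mul, (g5a_inv (u i)).2.2, Matrix.smul_apply, smul_eq_mul, mul_comm]

private lemma g5a_rho (β : ℂ) (a : Fin (k + 1)) :
    rho (k := k) (fun j => cM (B j)) (bet (r := r) β) a =
      cM (rho (k := k) B (LS.C β • (1 : MK r)) a) := by
  unfold rho
  rw [map_add]
  congr 1
  split_ifs
  · unfold bet
    ext p q
    rw [cM_apply, Matrix.smul_apply, Matrix.smul_apply, smul_eq_mul, smul_eq_mul,
      Matrix.one_apply, Matrix.one_apply]
    unfold cT
    split_ifs
    · rw [mul_one, mul_one]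
    · rw [mul_zero, mul_zero, C_0, map_zero]
  · rw [map_zero]

private lemma g5a_J (p q : IX k r) :
    inf ((Jm : Matrix (Fin (k+1)) (Fin (k+1)) (MT r)) p.1 q.1 p.2 q.2) =
      LS.C (cmp (Jm : Matrix (Fin (k+1)) (Fin (k+1)) (MK r)) p q) := by
  unfold cmp Jm
  split_ifs
  · rw [Matrix.one_apply, Matrix.one_apply]
    split_ifs
    · rw [map_one, map_one]
    · rw [map_zero, map_zero]
  · rw [Matrix.zero_apply, Matrix.zero_apply, map_zero, map_zero]

/-- the first coefficients at `t = ∞` of `Ω_t` -/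
theorem OT_inf (h : Dat k u e B) (β : ℂ) (p q : IX k r) :
    Vge 0 (inf (OT k u e B β p q)) ∧
    (inf (OT k u e B β p q)).coeff 0 = cmp (Jm : Matrix (Fin (k+1)) (Fin (k+1)) (MK r)) p q ∧
    (inf (OT k u e B β p q)).coeff 1
      = cmp (colE (rho (k := k) B (LS.C β • (1 : MK r)))) p q ∧
    (inf (OT k u e B β p q)).coeff 2
      = cmp (colE fun a => rho (k := k) B (LS.C β • (1 : MK r)) a * B 0) p q := by
  obtain ⟨hR0, hR1, hR2⟩ := g5a_R h
  have h1 : OT k u e B β p q = (Jm : Matrix (Fin (k+1)) (Fin (k+1)) (MT r)) p.1 q.1 p.2 q.2 +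
      (if q.1 = Fin.last k then
        cM (rho (k := k) B (LS.C β • (1 : MK r)) p.1) * Rm u e else 0) p.2 q.2 := by
    rw [← g5a_rho]
    rfl
  rw [h1, map_add, g5a_J, LS.coeff_add, LS.coeff_add, LS.coeff_add, LS.coeff_C, LS.coeff_C,
    LS.coeff_C, if_pos rfl, if_neg one_ne_zero, if_neg two_ne_zero, zero_add, zero_add]
  by_cases hq : q.1 = Fin.last k
  · have hV := g5a_V_cM_mul (rho (k := k) B (LS.C β • (1 : MK r)) p.1) hR0 p.2 q.2
    rw [if_pos hq]
    refine ⟨(Vge.C _).add (hV.mono zero_le_one), ?_, ?_, ?_⟩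
    · rw [hV 0 (by norm_num), add_zero]
    · have h2 := congrFun (congrFun (g5a_cf_cM_mul 1
        (rho (k := k) B (LS.C β • (1 : MK r)) p.1) (Rm u e)) p.2) q.2
      rw [hR1, mul_one] at h2
      refine h2.trans ?_
      unfold cmp colE
      rw [if_pos hq]
    · have h2 := congrFun (congrFun (g5a_cf_cM_mul 2
        (rho (k := k) B (LS.C β • (1 : MK r)) p.1) (Rm u e)) p.2) q.2
      rw [hR2] at h2
      refine h2.trans ?_
      unfold cmp colE
      rw [if_pos hq]
  · rw [if_neg hq, Matrix.zero_apply, map_zero, add_zero, LS.coeff_zero, LS.coeff_zero,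
      LS.coeff_zero]
    refine ⟨Vge.C _, add_zero _, ?_, ?_⟩
    · unfold cmp colE
      rw [if_neg hq, Matrix.zero_apply]
    · unfold cmp colE
      rw [if_neg hq, Matrix.zero_apply]

private lemma g3_OT_inf (h : Dat k u e B) (β : ℂ) : MVge 0 ((OT k u e B β).map inf) :=
  fun p q => (OT_inf h β p q).1

private lemma g3_G_inf (h : Dat k u e B) (β : ℂ) (i : Fin l) :
    MVge 0 ((GXi k u e B β i).map inf) := by
  have h1 : (GXi k u e B β i).map inf = (OT k u e B β).map inf
      * ((cmp (dg (k := k) (Am u e))).map cT).map inf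
      + LS.C (zd (u i)) • (OT k u e B β).map inf := by
    unfold GXi gX
    rw [g3_OD]
    ext p q : 2
    simp only [Matrix.map_apply, Matrix.add_apply, Matrix.smul_apply, smul_eq_mul, map_add,
      map_mul, Matrix.mul_apply, map_sum]
    rw [inf_cT]
  rw [h1]
  have h2 := (g3_OT_inf h β).mul (g3_cT_map_inf (cmp (dg (k := k) (Am u e))))
  have h3 := MVge.smul (Vge.C (zd (u i))) (g3_OT_inf h β)
  rw [add_zero] at h2 h3
  exact h2.add h3

private lemma g3_yI_inf (h : Dat k u e B) (β : ℂ) (i : Fin l) (b : ℕ → MK r) (p q : IX k r) :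
    Vge 0 (inf (yI k u e B β i b p q)) ∧
      (inf (yI k u e B β i b p q)).coeff 0
        = cmp (Jm (k := k) * dg (alp u e (b 0))) p q := by
  have h1 := yI_inf h β i b p q
  rw [g3_Jdg] at h1
  simp only [Matrix.map_apply, Matrix.sub_apply, map_sub] at h1
  rw [inf_cT] at h1
  have h2 : inf (yI k u e B β i b p q)
      = (inf (yI k u e B β i b p q) - LS.C (cmp (Jm (k := k) * dg (alp u e (b 0))) p q))
        + LS.C (cmp (Jm (k := k) * dg (alp u e (b 0))) p q) := by
    rw [sub_add_cancel]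
  constructor
  · rw [h2]
    exact (h1.mono (by norm_num)).add (Vge.C _)
  · have h3 := h1 0 (by norm_num)
    rw [LS.coeff_sub, LS.coeff_C, if_pos rfl] at h3
    exact sub_eq_zero.1 h3

/-- bounded at infinity -/
theorem cs_inf (h : Dat k u e B) (β : ℂ) (b : ℕ → MK r) (i : Fin l) (n : ℕ) :
    MVge 0 ((cs k u e B β b i n).map inf) := by
  induction n with
  | zero =>
    intro p q
    change Vge 0 (inf 0)
    rw [map_zero]
    exact Vge.zero 0
  | succ n ih =>
    have hG := g3_G_inf h β i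
    have h1 : MVge 0 ((nab (DX (u i)) (GXi k u e B β i) (cs k u e B β b i n)).map inf) := by
      rw [g3_nab_map]
      have h2 := hG.mul ih
      have h3 := ih.mul hG
      rw [add_zero] at h2 h3
      refine MVge.sub (MVge.add ?_ h2) h3
      intro p q
      exact g3_inf_DX_Vge (u i) (ih p q)
    intro p q
    have := (h1 p q).add (g3_yI_inf h β i ((LamK u e B)^[n] b) p q).1
    simp only [Matrix.map_apply] at this ⊢
    rw [← map_add] at this
    exact this

private lemma g3_coeff_mul {x y : F} (hx : Vge 0 x) (hy : Vge 0 y) :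
    (x * y).coeff 0 = x.coeff 0 * y.coeff 0 := by
  have hx' : ∀ n < (0 : ℤ), x.coeff n = 0 := fun n hn => hx n (by exact_mod_cast hn)
  have hy' : ∀ n < (0 : ℤ), y.coeff n = 0 := fun n hn => hy n (by exact_mod_cast hn)
  rw [LS.coeff_mul hx' hy', sub_zero, Finset.Icc_self, Finset.sum_singleton, sub_zero]

private lemma g3_mat_mul {ι : Type} [Fintype ι] {M N : Matrix ι ι F} (hM : MVge 0 M)
    (hN : MVge 0 N) (p q : ι) :
    ((M * N) p q).coeff 0 = ∑ x, (M p x).coeff 0 * (N x q).coeff 0 := by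
  rw [Matrix.mul_apply, LS.coeff_sum]
  exact Finset.sum_congr rfl fun x _ => g3_coeff_mul (hM p x) (hN x q)

private lemma g3_G_coeff (h : Dat k u e B) (β : ℂ) (i : Fin l) (p q : IX k r) :
    (inf (GXi k u e B β i p q)).coeff 0
      = cmp (Jm (k := k) * dg (Am u e + zd (u i) • 1)) p q := by
  have h1 : inf (GXi k u e B β i p q) = ((OT k u e B β).map inf
      * ((cmp (dg (k := k) (Am u e))).map cT).map inf) p q
      + LS.C (zd (u i)) * inf (OT k u e B β p q) := by
    unfold GXi gX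
    rw [g3_OD]
    simp only [Matrix.map_apply, Matrix.add_apply, Matrix.smul_apply, smul_eq_mul, map_add,
      map_mul, Matrix.mul_apply, map_sum]
    rw [inf_cT]
  rw [h1, LS.coeff_add, g3_mat_mul (g3_OT_inf h β) (g3_cT_map_inf _), LS.coeff_C_mul,
    (OT_inf h β p q).2.1]
  have h2 : ∀ x, ((OT k u e B β).map inf p x).coeff 0
      * ((((cmp (dg (k := k) (Am u e))).map cT).map inf) x q).coeff 0
      = cmp (Jm : Matrix (Fin (k+1)) (Fin (k+1)) (MK r)) p x * cmp (dg (k := k) (Am u e)) x q := by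
    intro x
    simp only [Matrix.map_apply]
    rw [(OT_inf h β p x).2.1, inf_cT, LS.coeff_C, if_pos rfl]
  rw [Finset.sum_congr rfl fun x _ => h2 x, ← Matrix.mul_apply, ← cmp_mul]
  have h3 : (Jm (k := k) * dg (Am u e + zd (u i) • 1) : Matrix (Fin (k+1)) (Fin (k+1)) (MK r))
      = Jm * dg (Am u e) + Jm * dg (zd (u i) • (1 : MK r)) := by
    rw [← mul_add]
    congr 1
    ext a b : 1
    simp only [dg, Matrix.add_apply, Matrix.diagonal_apply]
    split_ifs
    · rfl
    · rw [add_zero]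
  rw [h3, cmp_add, Matrix.add_apply]
  congr 1
  obtain ⟨a, p⟩ := p
  obtain ⟨b, q⟩ := q
  simp only [cmp, dg, Jm, Matrix.mul_diagonal]
  by_cases hab : a.val = b.val + 1
  · rw [if_pos hab, one_mul, Matrix.smul_apply, smul_eq_mul]
  · rw [if_neg hab, zero_mul, Matrix.zero_apply, mul_zero]

/-- the recursion of the values at infinity -/
theorem ch_succ (h : Dat k u e B) (β : ℂ) (b : ℕ → MK r) (i : Fin l) (n : ℕ) :
    ch k u e B β b i (n + 1) = (ch k u e B β b i n).map zd
      + (cmp (Jm * dg (Am u e + zd (u i) • 1)) * ch k u e B β b i n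
        - ch k u e B β b i n * cmp (Jm * dg (Am u e + zd (u i) • 1)))
      + cmp (Jm * dg (alp u e (((LamK u e B)^[n] b) 0))) := by
  ext p q : 1
  have hcs := cs_inf h β b i n
  have hG := g3_G_inf h β i
  have h1 : inf (cs k u e B β b i (n + 1) p q)
      = inf (DX (u i) (cs k u e B β b i n p q))
        + ((GXi k u e B β i).map inf * (cs k u e B β b i n).map inf) p q
        - ((cs k u e B β b i n).map inf * (GXi k u e B β i).map inf) p q
        + inf (yI k u e B β i ((LamK u e B)^[n] b) p q) := by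
    have h2 := congrFun (congrFun (g3_nab_map inf (DX (u i)) (GXi k u e B β i)
      (cs k u e B β b i n)) p) q
    simp only [Matrix.map_apply, Matrix.add_apply, Matrix.sub_apply] at h2
    rw [← h2, ← map_add]
    rfl
  have h3 : (inf (DX (u i) (cs k u e B β b i n p q))).coeff 0
      = zd ((inf (cs k u e B β b i n p q)).coeff 0) := by
    rw [g3_inf_DX, LS.coeff_add, cd_coeff, LS.coeff_C_mul, LS.coeff_neg, LS.coeff_single_mul,
      zd_coeff]
    have : (inf (cs k u e B β b i n p q)).coeff (0 - 1) = 0 := hcs p q _ (by norm_num)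
    rw [this]
    simp
  change (inf (cs k u e B β b i (n + 1) p q)).coeff 0 = _
  rw [h1, LS.coeff_add, LS.coeff_sub, LS.coeff_add, h3, g3_mat_mul hG hcs, g3_mat_mul hcs hG,
    (g3_yI_inf h β i _ p q).2]
  simp only [Matrix.add_apply, Matrix.sub_apply, Matrix.map_apply, Matrix.mul_apply]
  simp only [g3_G_coeff h β i]
  rw [add_sub_assoc]
  rfl

/-! ### module g4: Liouville -/

/-- the difference of two corrections is bounded at the Gauss node, hence so are the values at `∞` -/
private theorem g4_ch_diff (h : Dat k u e B) (β : ℂ) (b : ℕ → MK r) (n : ℕ) (i j : Fin l) {c : ℝ}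
    (hd : MVge c ((cs k u e B β b i n - cs k u e B β b j n).map (node (u i) 0)))
    (p q : IX k r) : Vge c (ch k u e B β b i n p q - ch k u e B β b j n p q) := by
  have hpol : IsPol u (cs k u e B β b i n p q - cs k u e B β b j n p q) :=
    (cs_isPol h β b i n p q).sub (cs_isPol h β b j n p q)
  have h0 : Vge c (node (u i) 0 (cs k u e B β b i n p q - cs k u e B β b j n p q)) := hd p q
  have hz : Vge ((0 : ℕ) : ℝ) ((0 : K) - u i) := by
    rw [zero_sub]
    have := h.uint i
    simpa using this.neg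
  rw [node_Vge_congr hz] at h0
  have h1 := inf_coeff u h.uint hpol h0 0
  rw [map_sub, LS.coeff_sub] at h1
  exact h1

theorem cs_liouville (h : Dat k u e B) (β : ℂ) (K₀ : ℕ) (hK : 1 ≤ K₀)
    (hK₀ : ∀ i j, i ≠ j → ¬ Vge (K₀ : ℝ) (u i - u j)) {b : ℕ → MK r}
    (hb : ∀ j, k < j → b j = 0) {σ : ℝ} (hσ : 0 < σ) :
    ∃ C : ℝ, ∀ (n : ℕ) (i : Fin l), MVge (-(σ * n) - C)
      ((cs k u e B β b i n - (ch k u e B β b i n).map cT).map (node (u i) 0)) := by
  obtain ⟨C, hC⟩ := cs_diff_bound h β K₀ hK hK₀ hb hσ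
  refine ⟨C, fun n i p q => ?_⟩
  have e1 : -(σ * (n : ℝ)) - C = -(σ * n + C) := by ring
  have key := liouville u h.uint K₀ hK hK₀
    (fun i => cs k u e B β b i n p q - cT (ch k u e B β b i n p q)) ?_ ?_ ?_ (σ * n + C) ?_ i 0
    (Nat.zero_le _)
  · rw [e1]
    exact key
  · intro i
    exact (cs_isPol h β b i n p q).sub (IsPol.cT _)
  · intro i
    have h1 : Vge 0 (loc (u i) (cs k u e B β b i n p q)) := cs_reg h β b i n p q
    change Vge 0 (loc (u i) (cs k u e B β b i n p q - cT (ch k u e B β b i n p q)))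
    rw [map_sub, loc_cT]
    exact h1.sub (Vge.C _)
  · intro i
    have h1 : Vge 0 (inf (cs k u e B β b i n p q)) := cs_inf h β b i n p q
    change Vge 1 (inf (cs k u e B β b i n p q - cT (ch k u e B β b i n p q)))
    rw [map_sub, inf_cT]
    intro m hm
    rw [LS.coeff_sub, LS.coeff_C]
    have hm' : m < 1 := by exact_mod_cast hm
    rcases (show m < 0 ∨ m = 0 by omega) with hm0 | rfl
    · rw [h1 m (by exact_mod_cast hm0), if_neg (by omega), sub_zero]
    · rw [if_pos rfl]
      exact sub_self _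
  · intro i j κ hκ hij
    have h1 := hC n i j κ hκ hij
    have h2 : MVge (-(σ * n) - C)
        ((cs k u e B β b i n - cs k u e B β b j n).map (node (u i) 0)) :=
      hC n i j 0 (Nat.zero_le _) (by
        have := (h.uint i).sub (h.uint j)
        simpa using this)
    have h3 := g4_ch_diff h β b n i j h2 p q
    have e2 : (cs k u e B β b i n p q - cT (ch k u e B β b i n p q)) -
        (cs k u e B β b j n p q - cT (ch k u e B β b j n p q)) =
        (cs k u e B β b i n p q - cs k u e B β b j n p q) -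
          cT (ch k u e B β b i n p q - ch k u e B β b j n p q) := by
      have : cT (ch k u e B β b i n p q - ch k u e B β b j n p q) =
          cT (ch k u e B β b i n p q) - cT (ch k u e B β b j n p q) := by
        unfold cT
        rw [C_sub, map_sub]
      rw [this]
      ring
    change Vge (-(σ * n + C)) (node (u i) κ
      ((cs k u e B β b i n p q - cT (ch k u e B β b i n p q)) -
        (cs k u e B β b j n p q - cT (ch k u e B β b j n p q))))
    rw [e2, map_sub, node_cT, ← e1]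
    refine Vge.sub (h1 p q) (Vge_inn.mpr h3)

/-- at a node of radius `1` the derivative `∂_t` does not lose anything -/
private theorem g4_Dt (a : K) {c : ℝ} {g : KT} (hg : Vge c (node a 0 g)) :
    Vge c (node a 0 (Dt g)) := by
  have h1 : Vge c (node a 0 (DY a g)) := by
    rw [node_DY]
    exact hg.cd _
  have h2 : DY a g = (tT - cT a) * Dt g := rfl
  rw [h2, map_mul, map_sub, node_tT, node_cT, add_sub_cancel_left] at h1
  have h3 : (LS.single ((0 : ℕ) : ℤ) (LS.single (1 : ℤ) (1 : ℂ)) : F) ≠ 0 := by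
    intro h0
    have := congrArg (fun x : F => (x.coeff 0).coeff 1) h0
    simp at this
  have h4 : ((LS.single ((0 : ℕ) : ℤ) (LS.single (1 : ℤ) (1 : ℂ)) : F)).ord = 0 := by
    rw [LS.ord_single]
    · rfl
    · intro h0
      have := congrArg (fun x : K => x.coeff 1) h0
      simp at this
  refine Vge_of_mul h3 ?_
  rw [h4]
  simpa using h1

private theorem g4_nabt (h : Dat k u e B) (β : ℂ) (i : Fin l) {c : ℝ}
    {M : Matrix (IX k r) (IX k r) KT} (hM : MVge c (M.map (node (u i) 0))) :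
    MVge c ((nab Dt (OT k u e B β) M).map (node (u i) 0)) := by
  have hO : MVge 0 ((OT k u e B β).map (node (u i) 0)) := by
    intro p q
    have h1 : Vge 0 (node 0 0 (OT k u e B β p q)) := (adm_sys h β).gt p q
    have hz : Vge ((0 : ℕ) : ℝ) (u i - (0 : K)) := by
      rw [sub_zero]
      simpa using h.uint i
    rw [node_Vge_congr hz] at h1
    exact h1
  have e1 : (nab Dt (OT k u e B β) M).map (node (u i) 0) =
      (M.map Dt).map (node (u i) 0) +
        (OT k u e B β).map (node (u i) 0) * M.map (node (u i) 0) -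
        M.map (node (u i) 0) * (OT k u e B β).map (node (u i) 0) := by
    unfold nab
    rw [Matrix.map_sub (hf := map_sub _), Matrix.map_add (hf := map_add _), Matrix.map_mul,
      Matrix.map_mul]
  rw [e1]
  refine MVge.sub (MVge.add ?_ ?_) ?_
  · intro p q
    exact g4_Dt (u i) (hM p q)
  · simpa using hO.mul hM
  · simpa using hM.mul hO

/-- (7.2) -/
theorem gauss_bound (h : Dat k u e B) (β : ℂ) (K₀ : ℕ) (hK : 1 ≤ K₀)
    (hK₀ : ∀ i j, i ≠ j → ¬ Vge (K₀ : ℝ) (u i - u j)) {b : ℕ → MK r}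
    (hb : ∀ j, k < j → b j = 0) {σ : ℝ} (hσ : 0 < σ) :
    ∃ C : ℝ, ∀ (n : ℕ) (i : Fin l), MVge (-(σ * n) - C)
      ((wT k u e B β ((LamK u e B)^[n] b)
        + (OT k u e B β * (ch k u e B β b i n).map cT
          - (ch k u e B β b i n).map cT * OT k u e B β)).map (node (u i) 0)) := by
  obtain ⟨C₁, hC₁⟩ := cs_liouville h β K₀ hK hK₀ hb hσ
  obtain ⟨C₂, _, hC₂⟩ := grow_XE (adm_sys h β) h.uint K₀ hK hK₀ hσ
  have hw : ∀ i : Fin l, ∃ c : ℝ, MVge c ((wT k u e B β b).map (node (u i) 0)) :=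
    fun i => exists_MVge _
  choose c₀ hc₀ using hw
  have hfin : ∃ c : ℝ, ∀ i, c ≤ c₀ i := by
    obtain ⟨c, hc⟩ := (Set.finite_range c₀).bddBelow
    exact ⟨c, fun i => hc ⟨i, rfl⟩⟩
  obtain ⟨c₁, hc₁⟩ := hfin
  refine ⟨max C₁ (C₂ - c₁), fun n i => ?_⟩
  have hX := X_iter h β i hb n
  have e1 : wT k u e B β ((LamK u e B)^[n] b)
        + (OT k u e B β * (ch k u e B β b i n).map cT
          - (ch k u e B β b i n).map cT * OT k u e B β) =
      (nab (DX (u i)) (GXi k u e B β i))^[n] (wT k u e B β b) -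
        nab Dt (OT k u e B β) (cs k u e B β b i n - (ch k u e B β b i n).map cT) := by
    rw [hX]
    have e2 : ((ch k u e B β b i n).map cT).map Dt = 0 := by
      ext p q
      simp only [Matrix.map_apply, Matrix.zero_apply]
      exact Dt_cT _
    unfold nab
    rw [Matrix.map_sub (hf := map_sub _), e2]
    noncomm_ring
  rw [e1, Matrix.map_sub (hf := map_sub _)]
  refine MVge.sub ?_ ?_
  · refine (hC₂ i 0 (Nat.zero_le _) n c₁ (wT k u e B β b) ((hc₀ i).mono (hc₁ i))).mono ?_
    have := le_max_right C₁ (C₂ - c₁)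
    linarith
  · refine (g4_nabt h β i (hC₁ n i)).mono ?_
    have := le_max_left C₁ (C₂ - c₁)
    linarith

/-! ### module g5: coefficients at infinity and block analysis -/

/-- the first coefficients at `t = ∞` of `om_t(b)` -/
theorem wT_inf (h : Dat k u e B) (β : ℂ) (b : ℕ → MK r) (p q : IX k r) :
    Vge 1 (inf (wT k u e B β b p q)) ∧
    (inf (wT k u e B β b p q)).coeff 1
      = cmp (colE fun a : Fin (k+1) => b (k + 1 - a.val)) p q ∧
    (inf (wT k u e B β b p q)).coeff 2
      = cmp (colE fun a : Fin (k+1) => b (k + 1 - a.val) * B 0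
          + rho (k := k) B (LS.C β • (1 : MK r)) a * b 0) p q := by
  obtain ⟨hR0, hR1, hR2⟩ := g5a_R h
  have h1 : wT k u e B β b p q = (if q.1 = Fin.last k then
      (cM (b (k + 1 - p.1.val)) + cM (rho (k := k) B (LS.C β • (1 : MK r)) p.1) * Rm u e
        * cM (b 0)) * Rm u e else 0) p.2 q.2 := by
    rw [← g5a_rho]
    rfl
  by_cases hq : q.1 = Fin.last k
  · rw [h1, if_pos hq, add_mul]
    set ρ := rho (k := k) B (LS.C β • (1 : MK r)) p.1 with hρ
    have hV1 := g5a_V_cM_mul (b (k + 1 - p.1.val)) hR0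
    have hV2 : ∀ a c, Vge 1 (inf ((cM ρ * Rm u e * cM (b 0)) a c)) :=
      g5a_V_mul_cM (b 0) (g5a_V_cM_mul ρ hR0)
    obtain ⟨hV3, hc3⟩ := g5a_mul hV2 hR0
    refine ⟨?_, ?_, ?_⟩
    · exact g5a_V_add hV1 (fun a c => (hV3 a c).mono one_le_two) p.2 q.2
    · have h2 := congrFun (congrFun (g5a_cf_add 1 (cM (b (k + 1 - p.1.val)) * Rm u e)
        (cM ρ * Rm u e * cM (b 0) * Rm u e)) p.2) q.2
      refine h2.trans ?_
      rw [g5a_cf_cM_mul, hR1, mul_one, Matrix.add_apply]
      have h3 : g5a_cf 1 (cM ρ * Rm u e * cM (b 0) * Rm u e) p.2 q.2 = 0 :=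
        hV3 p.2 q.2 1 (by norm_num)
      rw [h3, add_zero]
      unfold cmp colE
      rw [if_pos hq]
    · have h2 := congrFun (congrFun (g5a_cf_add 2 (cM (b (k + 1 - p.1.val)) * Rm u e)
        (cM ρ * Rm u e * cM (b 0) * Rm u e)) p.2) q.2
      refine h2.trans ?_
      rw [g5a_cf_cM_mul, hR2, hc3, g5a_cf_mul_cM, g5a_cf_cM_mul, hR1, mul_one, mul_one]
      unfold cmp colE
      rw [if_pos hq]
  · rw [h1, if_neg hq, Matrix.zero_apply, map_zero, LS.coeff_zero, LS.coeff_zero]
    refine ⟨Vge.zero 1, ?_, ?_⟩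
    · unfold cmp colE
      rw [if_neg hq, Matrix.zero_apply]
    · unfold cmp colE
      rw [if_neg hq, Matrix.zero_apply]

private lemma g5b_mulL {δ : ℝ} {M N : MK r} (hM : MVge 0 M) (hN : MVge δ N) :
    MVge δ (M * N) := by
  have h := MVge.mul hM hN
  rwa [zero_add] at h

private lemma g5b_mulR {δ : ℝ} {M N : MK r} (hM : MVge δ M) (hN : MVge 0 N) :
    MVge δ (M * N) := by
  have h := MVge.mul hM hN
  rwa [add_zero] at h

/-- blocks of a matrix which has order at least `δ` -/
private lemma g5b_blk {δ : ℝ} {X : Matrix (Fin (k + 1)) (Fin (k + 1)) (MK r)}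
    (h : MVge δ (cmp X)) (a b : Fin (k + 1)) : MVge δ (X a b) :=
  fun p q => h (a, p) (b, q)

private lemma g5b_cmp_blk (M : Matrix (IX k r) (IX k r) K) :
    cmp (fun a b => blk k M a b) = M := rfl

private lemma g5b_Jmul_succ (X : Matrix (Fin (k + 1)) (Fin (k + 1)) (MK r)) (a : ℕ)
    (ha : a + 1 < k + 1) (b : Fin (k + 1)) :
    ((Jm : Matrix (Fin (k + 1)) (Fin (k + 1)) (MK r)) * X) ⟨a + 1, ha⟩ b =
      X ⟨a, by omega⟩ b := by
  rw [Matrix.mul_apply, Finset.sum_eq_single (⟨a, by omega⟩ : Fin (k + 1))]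
  · simp only [Jm, if_true, one_mul]
  · intro c _ hc
    have : ¬ (a + 1 = c.val + 1) := fun h => hc (Fin.ext (by simp only; omega))
    simp only [Jm, if_neg this, zero_mul]
  · intro h; exact absurd (Finset.mem_univ _) h

private lemma g5b_Jmul_zero (X : Matrix (Fin (k + 1)) (Fin (k + 1)) (MK r))
    (b : Fin (k + 1)) :
    ((Jm : Matrix (Fin (k + 1)) (Fin (k + 1)) (MK r)) * X) 0 b = 0 := by
  rw [Matrix.mul_apply]
  refine Finset.sum_eq_zero fun c _ => ?_
  have : ¬ ((0 : Fin (k + 1)).val = c.val + 1) := by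
    rw [Fin.val_zero]; omega
  simp only [Jm, if_neg this, zero_mul]

private lemma g5b_mulJ (X : Matrix (Fin (k + 1)) (Fin (k + 1)) (MK r)) (a : Fin (k + 1))
    (b : ℕ) (hb : b + 1 < k + 1) :
    (X * (Jm : Matrix (Fin (k + 1)) (Fin (k + 1)) (MK r))) a ⟨b, by omega⟩ =
      X a ⟨b + 1, hb⟩ := by
  rw [Matrix.mul_apply, Finset.sum_eq_single (⟨b + 1, hb⟩ : Fin (k + 1))]
  · simp only [Jm, if_true, mul_one]
  · intro c _ hc
    have : ¬ (c.val = b + 1) := fun h => hc (Fin.ext (by simp only; omega))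
    simp only [Jm, if_neg this, mul_zero]
  · intro h; exact absurd (Finset.mem_univ _) h

private lemma g5b_colmul (ρ : Fin (k + 1) → MK r)
    (X : Matrix (Fin (k + 1)) (Fin (k + 1)) (MK r)) (a b : Fin (k + 1)) :
    (colE ρ * X) a b = ρ a * X (Fin.last k) b := by
  rw [Matrix.mul_apply, Finset.sum_eq_single (Fin.last k)]
  · simp only [colE, if_true]
  · intro c _ hc
    simp only [colE, if_neg hc, zero_mul]
  · intro h; exact absurd (Finset.mem_univ _) h

private lemma g5b_mulcol (ρ : Fin (k + 1) → MK r)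
    (X : Matrix (Fin (k + 1)) (Fin (k + 1)) (MK r)) (a b : Fin (k + 1)) :
    (X * colE ρ) a b = if b = Fin.last k then ∑ c, X a c * ρ c else 0 := by
  rw [Matrix.mul_apply]
  split_ifs with h
  · refine Finset.sum_congr rfl fun c _ => ?_
    simp only [colE, if_pos h]
  · refine Finset.sum_eq_zero fun c _ => ?_
    simp only [colE, if_neg h, mul_zero]

/-- the Toeplitz property -/
private lemma g5b_toeplitz {δ : ℝ} {X : Matrix (Fin (k + 1)) (Fin (k + 1)) (MK r)}
    (h0 : MVge δ (cmp ((Jm : Matrix (Fin (k+1)) (Fin (k+1)) (MK r)) * X - X * Jm)))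
    (m a b : ℕ) (ha : a + m < k + 1) (hb : b + m < k + 1) :
    MVge δ (X ⟨a + m, ha⟩ ⟨b + m, hb⟩ - X ⟨a, by omega⟩ ⟨b, by omega⟩) := by
  induction m with
  | zero =>
    have : X ⟨a + 0, ha⟩ ⟨b + 0, hb⟩ - X ⟨a, by omega⟩ ⟨b, by omega⟩ = 0 := sub_self _
    rw [this]; exact MVge.zero _
  | succ m ih =>
    have h1 := ih (by omega) (by omega)
    have h2 := g5b_blk h0 ⟨a + m + 1, ha⟩ ⟨b + m, by omega⟩
    rw [Matrix.sub_apply, g5b_Jmul_succ X (a + m) ha, g5b_mulJ X _ (b + m) hb] at h2
    have h3 := h1.sub h2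
    have : X ⟨a + (m + 1), ha⟩ ⟨b + (m + 1), hb⟩ - X ⟨a, by omega⟩ ⟨b, by omega⟩ =
        X ⟨a + m, by omega⟩ ⟨b + m, by omega⟩ - X ⟨a, by omega⟩ ⟨b, by omega⟩
        - (X ⟨a + m, by omega⟩ ⟨b + m, by omega⟩ - X ⟨a + m + 1, ha⟩ ⟨b + m + 1, hb⟩) := by
      have e1 : X ⟨a + (m + 1), ha⟩ ⟨b + (m + 1), hb⟩ = X ⟨a + m + 1, ha⟩ ⟨b + m + 1, hb⟩ := rfl
      rw [e1]; abel
    rw [this]; exact h3

/-- all the blocks outside the diagonal vanish, and the diagonal is constant -/
private lemma g5b_diag {δ : ℝ} {X : Matrix (Fin (k + 1)) (Fin (k + 1)) (MK r)}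
    (h0 : MVge δ (cmp ((Jm : Matrix (Fin (k+1)) (Fin (k+1)) (MK r)) * X - X * Jm)))
    (h1 : ∀ b : Fin (k + 1), b ≠ Fin.last k → MVge δ (X (Fin.last k) b))
    (a c : Fin (k + 1)) : MVge δ (X a c - if a = c then X 0 0 else 0) := by
  have hrow : ∀ b : ℕ, ∀ hb : b + 1 < k + 1, MVge δ (X 0 ⟨b + 1, hb⟩) := by
    intro b hb
    have h2 := g5b_blk h0 0 ⟨b, by omega⟩
    rw [Matrix.sub_apply, g5b_Jmul_zero, g5b_mulJ X _ b hb, zero_sub] at h2
    have h3 := h2.neg
    rwa [neg_neg] at h3
  obtain ⟨a, ha⟩ := a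
  obtain ⟨c, hc⟩ := c
  rcases lt_trichotomy a c with h | h | h
  · have hne : (⟨a, ha⟩ : Fin (k + 1)) ≠ ⟨c, hc⟩ := fun hh => by
      rw [Fin.mk.injEq] at hh; omega
    rw [if_neg hne, sub_zero]
    obtain ⟨d, rfl⟩ : ∃ d, c = d + 1 + a := ⟨c - a - 1, by omega⟩
    have h2 := g5b_toeplitz h0 a 0 (d + 1) (by omega) hc
    have h3 := h2.add (hrow d (by omega))
    have e : X ⟨0 + a, by omega⟩ ⟨d + 1 + a, hc⟩ = X ⟨a, ha⟩ ⟨d + 1 + a, hc⟩ := by
      have : (⟨0 + a, by omega⟩ : Fin (k + 1)) = ⟨a, ha⟩ := Fin.ext (by simp only; omega)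
      rw [this]
    rw [e] at h3
    have e2 : X ⟨a, ha⟩ ⟨d + 1 + a, hc⟩ - X ⟨0, by omega⟩ ⟨d + 1, by omega⟩
        + X 0 ⟨d + 1, by omega⟩ = X ⟨a, ha⟩ ⟨d + 1 + a, hc⟩ := sub_add_cancel _ _
    rw [e2] at h3
    exact h3
  · subst h
    rw [if_pos rfl]
    have h2 := g5b_toeplitz h0 a 0 0 (by omega) (by omega)
    have e : X ⟨0 + a, by omega⟩ ⟨0 + a, by omega⟩ = X ⟨a, ha⟩ ⟨a, hc⟩ := by
      have : (⟨0 + a, by omega⟩ : Fin (k + 1)) = ⟨a, ha⟩ := Fin.ext (by simp only; omega)
      rw [this]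
    rw [e] at h2
    exact h2
  · have hne : (⟨a, ha⟩ : Fin (k + 1)) ≠ ⟨c, hc⟩ := fun hh => by
      rw [Fin.mk.injEq] at hh; omega
    rw [if_neg hne, sub_zero]
    obtain ⟨d, rfl⟩ : ∃ d, a = d + c := ⟨a - c, by omega⟩
    have h2 := g5b_toeplitz h0 c d 0 ha (by omega)
    have h3 := g5b_toeplitz h0 (k - d) d 0 (by omega) (by omega)
    have hlast : (⟨d + (k - d), by omega⟩ : Fin (k + 1)) = Fin.last k :=
      Fin.ext (by simp only [Fin.val_last]; omega)
    have h4 : MVge δ (X ⟨d + (k - d), by omega⟩ ⟨0 + (k - d), by omega⟩) := by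
      rw [hlast]
      refine h1 _ fun hh => ?_
      have := congrArg Fin.val hh
      simp only [Fin.val_last] at this
      omega
    have h5 := (h2.sub h3).add h4
    have e : X ⟨d + c, ha⟩ ⟨0 + c, by omega⟩ = X ⟨d + c, ha⟩ ⟨c, hc⟩ := by
      have : (⟨0 + c, by omega⟩ : Fin (k + 1)) = ⟨c, hc⟩ := Fin.ext (by simp only; omega)
      rw [this]
    rw [e] at h5
    have e2 : X ⟨d + c, ha⟩ ⟨c, hc⟩ - X ⟨d, by omega⟩ ⟨0, by omega⟩
        - (X ⟨d + (k - d), by omega⟩ ⟨0 + (k - d), by omega⟩ - X ⟨d, by omega⟩ ⟨0, by omega⟩)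
        + X ⟨d + (k - d), by omega⟩ ⟨0 + (k - d), by omega⟩ = X ⟨d + c, ha⟩ ⟨c, hc⟩ := by
      abel
    rw [e2] at h5
    exact h5

/-- block analysis (pure linear algebra over `K`): `v(x - y) ≥ δ - C` for all the relations.
`Bi` is an integral inverse of `B_1 + β`. -/
theorem block_analysis (B : ℕ → MK r) (hB : ∀ j, MVge 0 (B j)) (β : ℂ) (Bi : MK r)
    (hBi : MVge 0 Bi) (hinv : Bi * (B 1 + LS.C β • 1) = 1) (ĉ : Matrix (IX k r) (IX k r) K)
    (b : ℕ → MK r) (hb : ∀ j, k < j → b j = 0) (δ : ℝ)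
    (h0 : MVge δ (cmp (Jm : Matrix (Fin (k+1)) (Fin (k+1)) (MK r)) * ĉ
      - ĉ * cmp (Jm : Matrix (Fin (k+1)) (Fin (k+1)) (MK r))))
    (h1 : MVge δ (cmp (colE fun a : Fin (k+1) => b (k + 1 - a.val))
      + (cmp (colE (rho (k := k) B (LS.C β • (1 : MK r)))) * ĉ
        - ĉ * cmp (colE (rho (k := k) B (LS.C β • (1 : MK r)))))))
    (h2 : MVge δ (cmp (colE fun a : Fin (k+1) => b (k + 1 - a.val) * B 0
          + rho (k := k) B (LS.C β • (1 : MK r)) a * b 0)
      + (cmp (colE fun a => rho (k := k) B (LS.C β • (1 : MK r)) a * B 0) * ĉ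
        - ĉ * cmp (colE fun a => rho (k := k) B (LS.C β • (1 : MK r)) a * B 0)))) :
    (∀ j ≤ k, MVge δ (b j - (blk k ĉ 0 0 * B j - B j * blk k ĉ 0 0))) ∧
    (∀ a : Fin (k + 1), a ≠ 0 → MVge δ (blk k ĉ 0 a)) := by
  -- pass to block matrices
  obtain ⟨X, hX⟩ : ∃ X : Matrix (Fin (k + 1)) (Fin (k + 1)) (MK r), X = fun a b => blk k ĉ a b :=
    ⟨_, rfl⟩
  have hĉ : cmp X = ĉ := by rw [hX]; rfl
  have hX0 : ∀ a b, blk k ĉ a b = X a b := fun a b => by rw [hX]
  rw [← hĉ, ← cmp_mul, ← cmp_mul, ← cmp_sub] at h0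
  rw [← hĉ, ← cmp_mul, ← cmp_mul, ← cmp_sub, ← cmp_add] at h1 h2
  simp only [hX0]
  obtain ⟨ρ, hρ⟩ : ∃ ρ : Fin (k + 1) → MK r, ρ = rho (k := k) B (LS.C β • (1 : MK r)) :=
    ⟨_, rfl⟩
  rw [← hρ] at h1 h2
  have hβ0 : MVge 0 (LS.C β • (1 : MK r)) := by
    have h := MVge.smul (Vge.C β) (MVge.one (m := Fin r) (k := ℂ))
    rwa [zero_add] at h
  have hρ0 : ∀ a, MVge 0 (ρ a) := by
    intro a
    rw [hρ]
    unfold rho
    refine (hB _).add ?_
    split_ifs
    · exact hβ0
    · exact MVge.zero _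
  have hρl : ρ (Fin.last k) = B 1 + LS.C β • (1 : MK r) := by
    rw [hρ]
    unfold rho
    rw [if_pos rfl, Fin.val_last, Nat.add_sub_cancel_left]
  -- the last row
  have hrow : ∀ b : Fin (k + 1), b ≠ Fin.last k → MVge δ (X (Fin.last k) b) := by
    intro c hc
    have h := g5b_blk h1 (Fin.last k) c
    rw [Matrix.add_apply, Matrix.sub_apply, g5b_colmul, g5b_mulcol, if_neg hc] at h
    simp only [colE, if_neg hc, zero_add, sub_zero] at h
    have h3 := g5b_mulL hBi h
    rw [hρl, ← mul_assoc, hinv, one_mul] at h3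
    exact h3
  have hd := g5b_diag h0 hrow
  obtain ⟨γ, hγ⟩ : ∃ γ, γ = X 0 0 := ⟨_, rfl⟩
  rw [← hγ] at hd
  rw [← hγ]
  -- sums over a row
  have hsum : ∀ (a : Fin (k + 1)) (y : Fin (k + 1) → MK r), (∀ c, MVge 0 (y c)) →
      MVge δ (∑ c, X a c * y c - γ * y a) := by
    intro a y hy
    have h : MVge δ (∑ c, (X a c - if a = c then γ else 0) * y c) :=
      MVge.sum fun c _ => g5b_mulR (hd a c) (hy c)
    have e : ∑ c, (X a c - if a = c then γ else 0) * y c = ∑ c, X a c * y c - γ * y a := by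
      simp only [sub_mul, Finset.sum_sub_distrib]
      congr 1
      rw [Finset.sum_eq_single a]
      · rw [if_pos rfl]
      · intro c _ hc
        rw [if_neg (Ne.symm hc), zero_mul]
      · intro h; exact absurd (Finset.mem_univ _) h
    rwa [e] at h
  have hll : MVge δ (X (Fin.last k) (Fin.last k) - γ) := by
    have h := hd (Fin.last k) (Fin.last k)
    rwa [if_pos rfl] at h
  -- the last column of `h1`
  have hcol : ∀ a : Fin (k + 1), MVge δ (b (k + 1 - a.val) - (γ * ρ a - ρ a * γ)) := by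
    intro a
    have h := g5b_blk h1 a (Fin.last k)
    rw [Matrix.add_apply, Matrix.sub_apply, g5b_colmul, g5b_mulcol, if_pos rfl] at h
    simp only [colE, if_true] at h
    have h3 := (h.sub (g5b_mulL (hρ0 a) hll)).add (hsum a ρ hρ0)
    have e : b (k + 1 - a.val) + (ρ a * X (Fin.last k) (Fin.last k) - ∑ c, X a c * ρ c)
        - ρ a * (X (Fin.last k) (Fin.last k) - γ) + (∑ c, X a c * ρ c - γ * ρ a) =
        b (k + 1 - a.val) - (γ * ρ a - ρ a * γ) := by
      rw [mul_sub]; abel
    rwa [e] at h3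
  have hcomm : γ * (LS.C β • (1 : MK r)) - (LS.C β • (1 : MK r)) * γ = 0 := by
    rw [mul_smul_comm, smul_mul_assoc, mul_one, one_mul, sub_self]
  have hcolB : ∀ a : Fin (k + 1),
      MVge δ (b (k + 1 - a.val) - (γ * B (k + 1 - a.val) - B (k + 1 - a.val) * γ)) := by
    intro a
    have h := hcol a
    have e : γ * ρ a - ρ a * γ = γ * B (k + 1 - a.val) - B (k + 1 - a.val) * γ := by
      rw [hρ]
      unfold rho
      rw [mul_add, add_mul, add_sub_add_comm]
      split_ifs
      · rw [hcomm, add_zero]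
      · rw [mul_zero, zero_mul, sub_zero, add_zero]
    rwa [e] at h
  refine ⟨?_, ?_⟩
  · intro j hj
    rcases Nat.eq_zero_or_pos j with h | h
    · subst h
      have h3 := g5b_blk h2 (Fin.last k) (Fin.last k)
      rw [Matrix.add_apply, Matrix.sub_apply, g5b_colmul, g5b_mulcol, if_pos rfl] at h3
      simp only [colE, if_true] at h3
      have h4 := hsum (Fin.last k) (fun c => ρ c * B 0) fun c => g5b_mulL (hρ0 c) (hB 0)
      have h5 := g5b_mulL (g5b_mulL (hρ0 (Fin.last k)) (hB 0)) hll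
      have h6 := hcol (Fin.last k)
      have h7 := g5b_mulR h6 (hB 0)
      have h8 := ((h3.add h4).sub h5).sub h7
      have e : b (k + 1 - (Fin.last k).val) * B 0 + ρ (Fin.last k) * b 0
          + (ρ (Fin.last k) * B 0 * X (Fin.last k) (Fin.last k)
            - ∑ c, X (Fin.last k) c * (ρ c * B 0))
          + (∑ c, X (Fin.last k) c * (ρ c * B 0) - γ * (ρ (Fin.last k) * B 0))
          - ρ (Fin.last k) * B 0 * (X (Fin.last k) (Fin.last k) - γ)
          - (b (k + 1 - (Fin.last k).val) - (γ * ρ (Fin.last k) - ρ (Fin.last k) * γ)) * B 0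
          = ρ (Fin.last k) * (b 0 - (γ * B 0 - B 0 * γ)) := by
        noncomm_ring
      rw [e] at h8
      have h9 := g5b_mulL hBi h8
      rwa [hρl, ← mul_assoc, hinv, one_mul] at h9
    · have h3 := hcolB ⟨k + 1 - j, by omega⟩
      have e : k + 1 - (⟨k + 1 - j, by omega⟩ : Fin (k + 1)).val = j := by
        simp only; omega
      rwa [e] at h3
  · intro a ha
    have h := hd 0 a
    rwa [if_neg (Ne.symm ha), sub_zero] at h

/-- the ring of integral elements -/
private def g8_O : Subring K where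
  carrier := {x | Vge 0 x}
  mul_mem' := fun {x y} hx hy => by
    have := Vge.mul hx hy
    rwa [add_zero] at this
  one_mem' := Vge.one
  add_mem' := fun hx hy => Vge.add hx hy
  zero_mem' := Vge.zero 0
  neg_mem' := fun hx => Vge.neg hx

private lemma g8_mem (x : K) : x ∈ g8_O ↔ Vge 0 x := Iff.rfl

private lemma g8_coeff_mul {x y : K} (hx : Vge 0 x) (hy : Vge 0 y) :
    (x * y).coeff 0 = x.coeff 0 * y.coeff 0 := by
  rw [LS.coeff_mul (N := 0) (M := 0) (fun n hn => hx n (by exact_mod_cast hn))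
    (fun n hn => hy n (by exact_mod_cast hn))]
  simp

/-- the constant term -/
private noncomputable def g8_c : g8_O →+* ℂ where
  toFun x := (x : K).coeff 0
  map_one' := by
    change (1 : K).coeff 0 = 1
    rw [LS.coeff_one, if_pos rfl]
  map_mul' x y := g8_coeff_mul x.2 y.2
  map_zero' := rfl
  map_add' _ _ := rfl

private lemma g8_c_apply (x : g8_O) : g8_c x = (x : K).coeff 0 := rfl

private lemma g8_inv {x : K} (hx : Vge 0 x) (h0 : x.coeff 0 ≠ 0) : Vge 0 x⁻¹ := by
  have hx0 : x ≠ 0 := by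
    rintro rfl
    exact h0 (LS.coeff_zero 0)
  have h1 : x.ord ≤ 0 := by
    by_contra hc
    exact h0 (LS.coeff_of_lt_ord (not_le.1 hc))
  rw [Vge_iff_ord (inv_ne_zero hx0), ord_inv hx0]
  push_cast
  have : (x.ord : ℝ) ≤ 0 := by exact_mod_cast h1
  linarith

/-- existence of `β` and of an integral inverse (module g8) -/
lemma exists_beta (B1 : MK r) (hB : MVge 0 B1) :
    ∃ (β : ℂ) (Bi : MK r), MVge 0 Bi ∧ Bi * (B1 + LS.C β • 1) = 1 := by
  -- the matrix over the ring of integral elements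
  obtain ⟨B', hB'⟩ : ∃ B' : Matrix (Fin r) (Fin r) g8_O, B'.map g8_O.subtype = B1 :=
    ⟨fun i j => ⟨B1 i j, hB i j⟩, rfl⟩
  obtain ⟨β, hβ⟩ : ∃ β : ℂ, (Matrix.scalar (Fin r) β + B'.map g8_c).det ≠ 0 := by
    by_contra hcon
    push Not at hcon
    have h1 : (-(B'.map g8_c)).charpoly = 0 := by
      apply Polynomial.funext
      intro β
      rw [Matrix.eval_charpoly, Polynomial.eval_zero, sub_neg_eq_add]
      exact hcon β
    exact (Matrix.charpoly_monic _).ne_zero h1
  have hC : Vge 0 (LS.C β : K) := Vge.C β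
  -- the matrix `M = B' + β`
  obtain ⟨M, hM⟩ : ∃ M : Matrix (Fin r) (Fin r) g8_O,
      M = B' + (⟨LS.C β, hC⟩ : g8_O) • (1 : Matrix (Fin r) (Fin r) g8_O) := ⟨_, rfl⟩
  have hMK : M.map g8_O.subtype = B1 + (LS.C β : K) • (1 : MK r) := by
    rw [hM, ← hB']
    refine Matrix.ext fun i j => ?_
    simp only [Matrix.map_apply, Matrix.add_apply, Matrix.smul_apply, smul_eq_mul,
      Subring.coe_subtype, Subring.coe_add, Subring.coe_mul]
    by_cases hij : i = j
    · subst hij
      rw [Matrix.one_apply_eq, Matrix.one_apply_eq, Subring.coe_one]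
    · rw [Matrix.one_apply_ne hij, Matrix.one_apply_ne hij, Subring.coe_zero]
  have hMC : M.map g8_c = Matrix.scalar (Fin r) β + B'.map g8_c := by
    rw [hM, add_comm (Matrix.scalar (Fin r) β)]
    refine Matrix.ext fun i j => ?_
    simp only [Matrix.map_apply, Matrix.add_apply, Matrix.smul_apply, smul_eq_mul, map_add,
      map_mul]
    congr 1
    have e1 : g8_c (⟨LS.C β, hC⟩ : g8_O) = β := by
      rw [g8_c_apply]
      change (LS.C β : K).coeff 0 = β
      rw [LS.coeff_C, if_pos rfl]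
    rw [e1]
    by_cases hij : i = j
    · subst hij
      rw [Matrix.one_apply_eq, map_one, mul_one, Matrix.scalar_apply, Matrix.diagonal_apply_eq]
    · rw [Matrix.one_apply_ne hij, map_zero, mul_zero, Matrix.scalar_apply,
        Matrix.diagonal_apply_ne _ hij]
  have hdet0 : (M.det : K).coeff 0 ≠ 0 := by
    rw [← g8_c_apply, RingHom.map_det]
    change (M.map g8_c).det ≠ 0
    rw [hMC]
    exact hβ
  have hne : (M.det : K) ≠ 0 := by
    intro h
    rw [h] at hdet0
    exact hdet0 (LS.coeff_zero 0)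
  refine ⟨β, (M.det : K)⁻¹ • M.adjugate.map g8_O.subtype, ?_, ?_⟩
  · intro i j
    rw [Matrix.smul_apply, smul_eq_mul, Matrix.map_apply]
    have h1 := Vge.mul (g8_inv M.det.2 hdet0) (M.adjugate i j).2
    rwa [add_zero] at h1
  · rw [← hMK, Matrix.smul_mul]
    have h2 : M.adjugate.map g8_O.subtype * M.map g8_O.subtype = (M.det : K) • 1 := by
      rw [← Matrix.map_mul, Matrix.adjugate_mul]
      refine Matrix.ext fun i j => ?_
      simp only [Matrix.map_apply, Matrix.smul_apply, smul_eq_mul, Subring.coe_subtype]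
      by_cases hij : i = j
      · subst hij
        rw [Matrix.one_apply_eq, Matrix.one_apply_eq, mul_one, mul_one]
      · rw [Matrix.one_apply_ne hij, Matrix.one_apply_ne hij, mul_zero, mul_zero,
          Subring.coe_zero]
    rw [h2, smul_smul, inv_mul_cancel₀ hne, one_smul]

/-- existence of `K₀` (module g8) -/
lemma exists_K0 (u : Fin l → K) (hinj : Function.Injective u) :
    ∃ K₀ : ℕ, 1 ≤ K₀ ∧ ∀ i j, i ≠ j → ¬ Vge (K₀ : ℝ) (u i - u j) := by
  refine ⟨1 + ∑ i, ∑ j, (u i - u j).ord.toNat, by omega, ?_⟩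
  intro i j hij h
  have hne : u i - u j ≠ 0 := sub_ne_zero.2 fun hh => hij (hinj hh)
  rw [Vge_iff_ord hne] at h
  have h1 : (u i - u j).ord.toNat ≤ ∑ i, ∑ j, (u i - u j).ord.toNat := by
    calc (u i - u j).ord.toNat ≤ ∑ j, (u i - u j).ord.toNat :=
          Finset.single_le_sum (f := fun j => (u i - u j).ord.toNat) (fun _ _ => Nat.zero_le _)
            (Finset.mem_univ j)
      _ ≤ _ := Finset.single_le_sum (f := fun i => ∑ j, (u i - u j).ord.toNat)
            (fun _ _ => Nat.zero_le _) (Finset.mem_univ i)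
  have h2 : ((1 + ∑ i, ∑ j, (u i - u j).ord.toNat : ℕ) : ℤ) ≤ (u i - u j).ord := by
    exact_mod_cast h
  have h3 : (u i - u j).ord ≤ ((u i - u j).ord.toNat : ℤ) := Int.self_le_toNat _
  push_cast at h2
  have h4 : ((u i - u j).ord.toNat : ℤ) ≤ ∑ i, ∑ j, ((u i - u j).ord.toNat : ℤ) := by
    exact_mod_cast h1
  linarith

/-! ### module g6: conclusion -/

-- mods_rh g6 (helper47): section to paste into GrowL.lean in place of `Lam_growth`
-- (exists_beta (module g8) has to be placed BEFORE it; needs only the lemmas of GrowL as stated)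
/-- the coefficient of `T ^ m` at infinity, as an additive map on `K(t)` -/
noncomputable def g6_ci (m : ℤ) : KT →+ K := (LS.coeffHom m).comp inf.toAddMonoidHom

lemma g6_ci_apply (m : ℤ) (g : KT) : g6_ci m g = (inf g).coeff m := rfl

lemma g6_ci_mul_cT (m : ℤ) (g : KT) (x : K) : g6_ci m (g * cT x) = g6_ci m g * x := by
  rw [g6_ci_apply, g6_ci_apply, map_mul, inf_cT, mul_comm, LS.coeff_C_mul, mul_comm]

lemma g6_ci_cT_mul (m : ℤ) (g : KT) (x : K) : g6_ci m (cT x * g) = x * g6_ci m g := by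
  rw [g6_ci_apply, g6_ci_apply, map_mul, inf_cT, LS.coeff_C_mul]

lemma g6_ci_comm {ι : Type} [Fintype ι] (m : ℤ) (W G : Matrix ι ι KT) (c : Matrix ι ι K)
    (w g : Matrix ι ι K) (hw : ∀ p q, g6_ci m (W p q) = w p q)
    (hg : ∀ p q, g6_ci m (G p q) = g p q) (p q : ι) :
    g6_ci m ((W + (G * c.map cT - c.map cT * G)) p q) = (w + (g * c - c * g)) p q := by
  simp only [Matrix.add_apply, Matrix.sub_apply, Matrix.mul_apply, map_add, map_sub, map_sum,
    Matrix.map_apply, g6_ci_mul_cT, g6_ci_cT_mul, hw, hg]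

lemma g6_isPol (h : Dat k u e B) (β : ℂ) (b : ℕ → MK r) (c : Matrix (IX k r) (IX k r) K)
    (p q : IX k r) : IsPol u ((wT k u e B β b
      + (OT k u e B β * c.map cT - c.map cT * OT k u e B β)) p q) := by
  simp only [Matrix.add_apply, Matrix.sub_apply, Matrix.mul_apply]
  refine (wT_isPol β b p q).add (IsPol.sub (IsPol.sum fun s _ => ?_) (IsPol.sum fun s _ => ?_))
  · exact ((adm_sys h β).polt p s).mul (IsPol.cT _)
  · exact IsPol.mul (IsPol.cT _) ((adm_sys h β).polt s q)

lemma g6_blk_mul (M N : Matrix (IX k r) (IX k r) K) (a a' : Fin (k + 1)) :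
    blk k (M * N) a a' = ∑ s, blk k M a s * blk k N s a' := by
  ext p q
  rw [Matrix.sum_apply]
  simp only [blk, Matrix.mul_apply]
  rw [Fintype.sum_prod_type]

lemma g6_blk_cmp (M : Matrix (Fin (k + 1)) (Fin (k + 1)) (MK r)) (a a' : Fin (k + 1)) :
    blk k (cmp M) a a' = M a a' := rfl

lemma g6_J (X : MK r) (a a' : Fin (k + 1)) :
    (Jm * dg X : Matrix (Fin (k + 1)) (Fin (k + 1)) (MK r)) a a' =
      if a.val = a'.val + 1 then X else 0 := by
  rw [dg, Matrix.mul_diagonal, Jm]
  split_ifs <;> simp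

lemma g6_zd_blk (M : Matrix (IX k r) (IX k r) K) (a a' : Fin (k + 1)) :
    blk k (M.map zd) a a' = (blk k M a a').map zd := rfl

/-- the recursion of `γ` -/
lemma g6_gam (h : Dat k u e B) (β : ℂ) (b : ℕ → MK r) (i : Fin l) (n : ℕ) :
    blk k (ch k u e B β b i (n + 1)) 0 0 = (blk k (ch k u e B β b i n) 0 0).map zd
      - ∑ s : Fin (k + 1), (blk k (ch k u e B β b i n) 0 s *
          (if s.val = 1 then Am u e + zd (u i) • 1 else 0)) := by
  have h1 := congrArg (fun M => blk k M 0 0) (ch_succ h β b i n)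
  have h2 : ∀ M N : Matrix (IX k r) (IX k r) K, blk k (M + N) 0 0 = blk k M 0 0 + blk k N 0 0 :=
    fun M N => rfl
  have h3 : ∀ M N : Matrix (IX k r) (IX k r) K, blk k (M - N) 0 0 = blk k M 0 0 - blk k N 0 0 :=
    fun M N => rfl
  simp only [h2, h3, g6_blk_mul, g6_blk_cmp, g6_J, g6_zd_blk] at h1
  rw [h1]
  have h4 : ∀ s : Fin (k + 1), ((0 : Fin (k + 1)).val = s.val + 1) = False := fun s => by
    simp
  have h5 : ∀ s : Fin (k + 1), (s.val = (0 : Fin (k + 1)).val + 1) = (s.val = 1) := fun s => by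
    simp
  simp only [h4, if_false, zero_mul, Finset.sum_const_zero, h5, zero_sub, add_zero]
  rw [← sub_eq_add_neg]

/-- Theorem 7.3 -/
theorem Lam_growth (h : Dat k u e B) (K₀ : ℕ) (hK : 1 ≤ K₀)
    (hK₀ : ∀ i j, i ≠ j → ¬ Vge (K₀ : ℝ) (u i - u j)) (hl : 0 < l) {b : ℕ → MK r}
    (hb : ∀ j, k < j → b j = 0) {σ : ℝ} (hσ : 0 < σ) :
    ∃ C : ℝ, ∀ (n j : ℕ), MVge (-(σ * n) - C) (((LamK u e B)^[n] b) j) := by
  obtain ⟨β, Bi, hBi, hinv⟩ := exists_beta (B 1) (h.Bint 1)
  obtain ⟨C, hC⟩ := gauss_bound h β K₀ hK hK₀ hb hσ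
  set i₀ : Fin l := ⟨0, hl⟩ with hi₀
  have hu0 : Vge ((0 : ℕ) : ℝ) (0 - u i₀) := by
    rw [zero_sub, Nat.cast_zero]
    exact (h.uint i₀).neg
  -- coefficients at infinity
  have key : ∀ (n : ℕ) (m : ℤ) (p q : IX k r), Vge (-(σ * n) - C)
      (g6_ci m ((wT k u e B β ((LamK u e B)^[n] b)
        + (OT k u e B β * (ch k u e B β b i₀ n).map cT
          - (ch k u e B β b i₀ n).map cT * OT k u e B β)) p q)) := by
    intro n m p q
    rw [g6_ci_apply]
    refine inf_coeff u h.uint (g6_isPol h β _ _ p q) ?_ m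
    exact (node_Vge_congr hu0 _ _).1 (hC n i₀ p q)
  have blkan : ∀ n : ℕ,
      (∀ j ≤ k, MVge (-(σ * n) - C) ((LamK u e B)^[n] b j -
        (blk k (ch k u e B β b i₀ n) 0 0 * B j - B j * blk k (ch k u e B β b i₀ n) 0 0))) ∧
      (∀ a : Fin (k + 1), a ≠ 0 → MVge (-(σ * n) - C) (blk k (ch k u e B β b i₀ n) 0 a)) := by
    intro n
    refine block_analysis B h.Bint β Bi hBi hinv (ch k u e B β b i₀ n) _
      (fun j hj => LamK_iter_top h hb n j hj) _ ?_ ?_ ?_
    · intro p q
      have h1 := key n 0 p q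
      rw [g6_ci_comm (0 : ℤ) _ _ _ 0 _ (fun p q => by
        rw [g6_ci_apply]
        exact (wT_inf h β _ p q).1 0 (by norm_num))
        (fun p q => (OT_inf h β p q).2.1), zero_add] at h1
      exact h1
    · intro p q
      have h1 := key n 1 p q
      rw [g6_ci_comm (1 : ℤ) _ _ _ _ _ (fun p q => (wT_inf h β _ p q).2.1)
        (fun p q => (OT_inf h β p q).2.2.1)] at h1
      exact h1
    · intro p q
      have h1 := key n 2 p q
      rw [g6_ci_comm (2 : ℤ) _ _ _ _ _ (fun p q => (wT_inf h β _ p q).2.2)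
        (fun p q => (OT_inf h β p q).2.2.2)] at h1
      exact h1
  have hgam : ∀ n : ℕ, MVge (-(σ * n) - C) (blk k (ch k u e B β b i₀ n) 0 0) := by
    intro n
    induction n with
    | zero =>
      have : blk k (ch k u e B β b i₀ 0) 0 0 = 0 := by
        ext p q
        simp only [blk, ch, cs, Matrix.zero_apply, map_zero, LS.coeff_zero]
      rw [this]
      exact MVge.zero _
    | succ n ih =>
      have hle : -(σ * ((n + 1 : ℕ) : ℝ)) - C ≤ -(σ * n) - C := by
        push_cast; nlinarith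
      refine MVge.mono ?_ hle
      rw [g6_gam h]
      refine MVge.sub ih.map_zd (MVge.sum fun s _ => ?_)
      split_ifs with hs
      · have h1 := (blkan n).2 s (fun h0 => by rw [h0] at hs; simp at hs)
        have h2 : MVge 0 (Am u e + zd (u i₀) • (1 : MK r)) := by
          refine h.Aint.add ?_
          have := MVge.smul ((h.uint i₀).zd) (MVge.one (k := ℂ) (m := Fin r))
          rwa [add_zero] at this
        have := h1.mul h2
        rwa [add_zero] at this
      · rw [mul_zero]; exact MVge.zero _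
  refine ⟨C, fun n j => ?_⟩
  by_cases hj : j ≤ k
  · have h1 := (blkan n).1 j hj
    have h2 : MVge (-(σ * n) - C) (blk k (ch k u e B β b i₀ n) 0 0 * B j) := by
      have := (hgam n).mul (h.Bint j)
      rwa [add_zero] at this
    have h3 : MVge (-(σ * n) - C) (B j * blk k (ch k u e B β b i₀ n) 0 0) := by
      have := (h.Bint j).mul (hgam n)
      rwa [zero_add] at this
    have h4 := h1.add (h2.sub h3)
    rwa [sub_add_cancel] at h4
  · rw [LamK_iter_top h hb n j (not_le.1 hj)]
    exact MVge.zero _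

/-- the matrix of the diagonal connection -/
noncomputable def Cd (e : Fin l → MK r) : MK r := ∑ i, e i * (e i).map zd

/-- the value at `t = a` -/
private noncomputable def g7_ev (a : K) (g : KT) : K := (loc a g).coeff 0

private lemma g7_ev_add (a : K) (g h : KT) : g7_ev a (g + h) = g7_ev a g + g7_ev a h := by
  unfold g7_ev
  rw [map_add, LS.coeff_add]

private lemma g7_ev_sum (a : K) {ι : Type} (s : Finset ι) (g : ι → KT) :
    g7_ev a (∑ i ∈ s, g i) = ∑ i ∈ s, g7_ev a (g i) := by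
  unfold g7_ev
  rw [map_sum, LS.coeff_sum]

private lemma g7_ev_cT_mul (a x : K) (g : KT) : g7_ev a (cT x * g) = x * g7_ev a g := by
  unfold g7_ev
  rw [map_mul, loc_cT, LS.coeff_C_mul]

private lemma g7_ev_cT (a x : K) : g7_ev a (cT x) = x := by
  unfold g7_ev
  rw [loc_cT, LS.coeff_C, if_pos rfl]

private lemma g7_coeff_mul {x y : F} (hx : Vge 0 x) (hy : Vge 0 y) :
    (x * y).coeff 0 = x.coeff 0 * y.coeff 0 := by
  rw [LS.coeff_mul (N := 0) (M := 0) (fun n hn => hx n (by exact_mod_cast hn))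
    (fun n hn => hy n (by exact_mod_cast hn))]
  simp

private lemma g7_ev_mul {a : K} {g h : KT} (hg : Vge 0 (loc a g)) (hh : Vge 0 (loc a h)) :
    g7_ev a (g * h) = g7_ev a g * g7_ev a h := by
  unfold g7_ev
  rw [map_mul, g7_coeff_mul hg hh]

private lemma g7_inv {x : F} (hx : Vge 0 x) (h0 : x.coeff 0 ≠ 0) : Vge 0 x⁻¹ := by
  have hx0 : x ≠ 0 := by
    rintro rfl
    exact h0 (LS.coeff_zero 0)
  have h1 : x.ord ≤ 0 := by
    by_contra hc
    exact h0 (LS.coeff_of_lt_ord (not_le.1 hc))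
  rw [Vge_iff_ord (inv_ne_zero hx0), ord_inv hx0]
  push_cast
  have : (x.ord : ℝ) ≤ 0 := by exact_mod_cast h1
  linarith

private lemma g7_ev_inv {a b : K} (hab : a ≠ b) :
    g7_ev a ((tT - cT b)⁻¹) = (a - b)⁻¹ := by
  have hx : loc a (tT - cT b) = LS.C (a - b) + LS.single 1 1 := by
    rw [map_sub, loc_tT, loc_cT, map_sub]
    ring
  have h1 : Vge 0 (loc a (tT - cT b)) := by
    rw [hx]
    exact (Vge.C _).add (Vge.single (by norm_num) _)
  have h0 : (loc a (tT - cT b)).coeff 0 = a - b := by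
    rw [hx, LS.coeff_add, LS.coeff_C, if_pos rfl, LS.coeff_single, if_neg (by norm_num), add_zero]
  have h0' : (loc a (tT - cT b)).coeff 0 ≠ 0 := by
    rw [h0]
    exact sub_ne_zero.2 hab
  have h2 : Vge 0 (loc a ((tT - cT b)⁻¹)) := by
    rw [map_inv₀]
    exact g7_inv h1 h0'
  have h3 := g7_ev_mul h1 h2
  rw [mul_inv_cancel₀ (tT_sub_ne b)] at h3
  have h4 : g7_ev a 1 = 1 := by
    unfold g7_ev
    rw [map_one, LS.coeff_one, if_pos rfl]
  have h5 : g7_ev a (tT - cT b) = a - b := h0
  rw [h4, h5] at h3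
  exact eq_inv_of_mul_eq_one_right h3.symm

private lemma g7_DX (a : K) (g : KT) : DX a g = DK g + cT (zd a) * Dt g := rfl

private lemma g7_ev_DX (a : K) (g : KT) : g7_ev a (DX a g) = zd (g7_ev a g) := by
  unfold g7_ev
  rw [loc_DX, cd_coeff]

section con

variable {ι : Type} [Fintype ι] [DecidableEq ι]

private lemma g7_con_apply {L : Type} [CommRing L] (θ : Der L) (G : Matrix ι ι L) (v : ι → L)
    (p : ι) : con θ G v p = θ (v p) + ∑ q, G p q * v q := rfl

private lemma g7_reg_con {a : K} {G : Matrix ι ι KT} (hG : MVge 0 (G.map (loc a)))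
    {v : ι → KT} (hv : ∀ p, Vge 0 (loc a (v p))) (p : ι) :
    Vge 0 (loc a (con (DX a) G v p)) := by
  rw [g7_con_apply, map_add, loc_DX, map_sum]
  refine (Vge.cd (hv p) zd).add (Vge.sum fun q _ => ?_)
  rw [map_mul]
  have := Vge.mul (hG p q) (hv q)
  rwa [add_zero] at this

private lemma g7_ev_con {a : K} {G : Matrix ι ι KT} (hG : MVge 0 (G.map (loc a)))
    {v : ι → KT} (hv : ∀ p, Vge 0 (loc a (v p))) (p : ι) :
    g7_ev a (con (DX a) G v p) =
      con zd (fun p q => g7_ev a (G p q)) (fun q => g7_ev a (v q)) p := by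
  rw [g7_con_apply, g7_con_apply, g7_ev_add, g7_ev_DX, g7_ev_sum]
  congr 1
  exact Finset.sum_congr rfl fun q _ => g7_ev_mul (hG p q) (hv q)

private lemma g7_iter {a : K} {G : Matrix ι ι KT} (hG : MVge 0 (G.map (loc a)))
    {v : ι → KT} (hv : ∀ p, Vge 0 (loc a (v p))) (n : ℕ) :
    (∀ p, Vge 0 (loc a ((con (DX a) G)^[n] v p))) ∧
    (fun p => g7_ev a ((con (DX a) G)^[n] v p)) =
      (con zd (fun p q => g7_ev a (G p q)))^[n] (fun q => g7_ev a (v q)) := by
  induction n with
  | zero => exact ⟨hv, rfl⟩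
  | succ n ih =>
    rw [Function.iterate_succ_apply', Function.iterate_succ_apply', ← ih.2]
    exact ⟨g7_reg_con hG ih.1, funext fun p => g7_ev_con hG ih.1 p⟩

private lemma g7_isPol {a : K} {G : Matrix ι ι KT} (hG : ∀ p q, IsPol u (G p q))
    {v : ι → KT} (hv : ∀ p, IsPol u (v p)) (n : ℕ) :
    ∀ p, IsPol u ((con (DX a) G)^[n] v p) := by
  induction n with
  | zero => exact hv
  | succ n ih =>
    intro p
    rw [Function.iterate_succ_apply', g7_con_apply, g7_DX]
    exact (((ih p).DK).add ((IsPol.cT _).mul (ih p).Dt)).add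
      (IsPol.sum fun q _ => (hG p q).mul (ih q))

private lemma g7_con_sum {L : Type} [CommRing L] (θ : Der L) (G : Matrix ι ι L) {J : Type}
    (s : Finset J) (v : J → ι → L) (n : ℕ) :
    (con θ G)^[n] (∑ i ∈ s, v i) = ∑ i ∈ s, (con θ G)^[n] (v i) := by
  classical
  have h0 : con θ G 0 = 0 := by
    have h := con_smul θ G 0 (0 : ι → L)
    simpa using h
  have h1 : ∀ w : J → ι → L, con θ G (∑ i ∈ s, w i) = ∑ i ∈ s, con θ G (w i) := by
    intro w
    induction s using Finset.induction_on with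
    | empty => rw [Finset.sum_empty, Finset.sum_empty, h0]
    | insert j s hj ih => rw [Finset.sum_insert hj, Finset.sum_insert hj, con_add, ih]
  induction n with
  | zero => rfl
  | succ n ih =>
    rw [Function.iterate_succ_apply', ih, h1]
    exact Finset.sum_congr rfl fun i _ => (Function.iterate_succ_apply' _ _ _).symm

end con

private lemma g7_mat (M : MK r) : (zd : Der K).mat M = M.map zd := rfl

private lemma g7_smul (x : K) (M : MK r) :
    (zd : Der K).mat (x • M) = zd x • M + x • (zd : Der K).mat M := by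
  refine Matrix.ext fun i j => ?_
  change zd (x * M i j) = zd x * M i j + x * zd (M i j)
  rw [Der.leib]

private lemma g7_iii (h : Dat k u e B) (i : Fin l) : e i * (zd : Der K).mat (e i) * e i = 0 := by
  have h1 := (zd : Der K).mat.leib (e i) (e i)
  rw [h.idem i] at h1
  have h2 : e i * (zd : Der K).mat (e i) * e i =
      e i * (zd : Der K).mat (e i) * e i + e i * (zd : Der K).mat (e i) * e i := by
    calc e i * (zd : Der K).mat (e i) * e i
        = e i * ((zd : Der K).mat (e i) * e i + e i * (zd : Der K).mat (e i)) * e i := by rw [← h1]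
      _ = e i * (zd : Der K).mat (e i) * (e i * e i) +
          (e i * e i) * (zd : Der K).mat (e i) * e i := by noncomm_ring
      _ = _ := by rw [h.idem i]
  exact left_eq_add.1 h2

private lemma g7_jji (h : Dat k u e B) {i j : Fin l} (hij : j ≠ i) :
    e j * (zd : Der K).mat (e j) * e i = -(e j * (zd : Der K).mat (e i)) := by
  have h1 := (zd : Der K).mat.leib (e j) (e i)
  rw [h.orth j i hij, map_zero] at h1
  have h2 : (zd : Der K).mat (e j) * e i = -(e j * (zd : Der K).mat (e i)) :=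
    eq_neg_of_add_eq_zero_left h1.symm
  rw [mul_assoc, h2, mul_neg, ← mul_assoc, h.idem j]

private lemma g7_Cd (h : Dat k u e B) (i : Fin l) :
    e i * (zd : Der K).mat (e i) = (zd : Der K).mat (e i) + Cd e * e i := by
  have h1 : Cd e * e i = -(zd : Der K).mat (e i) + e i * (zd : Der K).mat (e i) := by
    unfold Cd
    rw [Finset.sum_mul]
    have h2 : ∀ j, e j * (e j).map zd * e i = -(e j * (zd : Der K).mat (e i)) +
        if j = i then e i * (zd : Der K).mat (e i) else 0 := by
      intro j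
      by_cases hj : j = i
      · subst hj
        rw [if_pos rfl, neg_add_cancel]
        exact g7_iii h j
      · rw [if_neg hj, add_zero]
        exact g7_jji h hj
    rw [Finset.sum_congr rfl fun j _ => h2 j, Finset.sum_add_distrib, Finset.sum_neg_distrib,
      ← Finset.sum_mul, h.sum, one_mul, Finset.sum_ite_eq', if_pos (Finset.mem_univ i)]
  rw [h1]
  abel

/-- `(u_i' - u_j') e_i B_1 e_j = (u_i - u_j) e_i D(e_i) e_j` -/
private lemma g7_key (h : Dat k u e B) {i j : Fin l} (hij : i ≠ j) :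
    (zd (u i) - zd (u j)) • (e i * B 1 * e j) =
      (u i - u j) • (e i * (zd : Der K).mat (e i) * e j) := by
  have h0 := h.eqn 0
  rw [if_pos rfl, zero_add] at h0
  have h1 : e i * (zd : Der K).mat (B 0) * e j = (zd (u i) - zd (u j)) • (e i * B 1 * e j) := by
    rw [g7_mat, h0]
    have e1 : e i * (-Am u e - (Am u e * B 1 - B 1 * Am u e)) * e j =
        -(e i * Am u e) * e j - (e i * Am u e) * B 1 * e j + e i * B 1 * (Am u e * e j) := by
      noncomm_ring
    rw [e1, h.eA, h.Ae, neg_neg, Matrix.smul_mul, h.orth i j hij, smul_zero, zero_sub,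
      Matrix.neg_mul, Matrix.neg_mul, neg_neg, Matrix.smul_mul, Matrix.smul_mul, Matrix.mul_neg,
      Matrix.mul_smul, sub_smul]
    abel
  have h2 := (zd : Der K).mat.leib (e i) (B 0)
  rw [h.eB, g7_smul] at h2
  have h3 : e i * (zd : Der K).mat (B 0) =
      zd (u i) • e i + u i • (zd : Der K).mat (e i) - (zd : Der K).mat (e i) * B 0 := by
    rw [h2]
    abel
  have h4 : e i * (zd : Der K).mat (B 0) * e j =
      (u i - u j) • ((zd : Der K).mat (e i) * e j) := by
    rw [h3, sub_mul, add_mul, Matrix.smul_mul, h.orth i j hij, smul_zero, zero_add,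
      Matrix.smul_mul, mul_assoc, h.Be, Matrix.mul_smul, sub_smul]
  have h5 : e i * (e i * (zd : Der K).mat (B 0) * e j) = e i * (zd : Der K).mat (B 0) * e j := by
    rw [← mul_assoc, ← mul_assoc, h.idem]
  rw [← h1, ← h5, h4, Matrix.mul_smul, ← mul_assoc]

private lemma g7_cM_smul (x : K) (M : MK r) : cM (x • M) = cT x • cM M := by
  refine Matrix.ext fun i j => ?_
  rw [cM_apply, Matrix.smul_apply, Matrix.smul_apply, cM_apply, smul_eq_mul, smul_eq_mul]
  unfold cT
  rw [Polynomial.C_mul, map_mul]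

private lemma g7_bet (β : ℂ) : (bet β : MT r) = cM (LS.C β • (1 : MK r)) := by
  rw [g7_cM_smul, map_one]
  rfl

/-- the last block row of the matrix of `X_i`, multiplied by `e_i`, evaluated at `t = u_i` -/
private lemma g7_core (h : Dat k u e B) (β : ℂ) (i : Fin l) (b : Fin (k + 1)) (a c : Fin r) :
    ∑ a', e i a a' * g7_ev (u i)
        (gX u (OT k u e B β) (OD k u e B β) i (Fin.last k, a') (b, c)) =
      if b = Fin.last k then (e i * (zd : Der K).mat (e i)) a c else 0 := by
  -- the block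
  have hblock : ∀ a', gX u (OT k u e B β) (OD k u e B β) i (Fin.last k, a') (b, c) =
      (OmT (k := k) (fun j => cM (B j)) (bet β) (Rm u e) (Fin.last k) b *
        cM (Am u e + zd (u i) • 1) : MT r) a' c := by
    intro a'
    have h1 : OmD (k := k) (fun j => cM (B j)) (bet β) (Rm u e) (cM (Am u e)) (Fin.last k) b =
        OmT (k := k) (fun j => cM (B j)) (bet β) (Rm u e) (Fin.last k) b * cM (Am u e) := by
      unfold OmD dg
      rw [Matrix.mul_diagonal]
    have h2 : OD k u e B β (Fin.last k, a') (b, c) =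
        (OmT (k := k) (fun j => cM (B j)) (bet β) (Rm u e) (Fin.last k) b * cM (Am u e) :
          MT r) a' c := by
      rw [← h1]
      rfl
    have h3 : gX u (OT k u e B β) (OD k u e B β) i (Fin.last k, a') (b, c) =
        OD k u e B β (Fin.last k, a') (b, c) +
          cT (zd (u i)) * OmT (k := k) (fun j => cM (B j)) (bet β) (Rm u e) (Fin.last k) b a' c :=
      rfl
    rw [h3, h2, map_add, mul_add, Matrix.add_apply, g7_cM_smul, map_one, Matrix.mul_smul, mul_one,
      Matrix.smul_apply, smul_eq_mul]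
  have hsum : ∑ a', e i a a' * g7_ev (u i)
        (gX u (OT k u e B β) (OD k u e B β) i (Fin.last k, a') (b, c)) =
      g7_ev (u i) ((cM (e i) * (OmT (k := k) (fun j => cM (B j)) (bet β) (Rm u e) (Fin.last k) b *
        cM (Am u e + zd (u i) • 1)) : MT r) a c) := by
    rw [Matrix.mul_apply, g7_ev_sum]
    refine Finset.sum_congr rfl fun a' _ => ?_
    rw [cM_apply, g7_ev_cT_mul, hblock]
  rw [hsum]
  have hAi : e i * (Am u e + zd (u i) • 1) = 0 := by
    rw [mul_add, h.eA, Matrix.mul_smul, mul_one, neg_add_cancel]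
  by_cases hb : b = Fin.last k
  · subst hb
    rw [if_pos rfl]
    -- the block `(B_1 + β) R`
    have h1 : OmT (k := k) (fun j => cM (B j)) (bet β) (Rm u e) (Fin.last k) (Fin.last k) =
        cM (B 1 + LS.C β • 1) * Rm u e := by
      unfold OmT colE rho Jm
      rw [Matrix.add_apply, if_neg (by rw [Fin.val_last]; omega), zero_add, if_pos rfl]
      change (cM (B (k + 1 - (Fin.last k).val)) + if Fin.last k = Fin.last k then bet β else 0) *
        Rm u e = _
      rw [if_pos rfl, Fin.val_last, Nat.add_sub_cancel_left, g7_bet, map_add]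
    have h2 : Rm u e * cM (Am u e + zd (u i) • 1) =
        ∑ j, (tT - cT (u j))⁻¹ • cM ((zd (u i) - zd (u j)) • e j) := by
      unfold Rm
      rw [Finset.sum_mul]
      refine Finset.sum_congr rfl fun j _ => ?_
      rw [Matrix.smul_mul, ← map_mul, mul_add, h.eA, Matrix.mul_smul, mul_one, sub_smul]
      congr 2
      abel
    have h3 : cM (e i) * (cM (B 1 + LS.C β • 1) * Rm u e * cM (Am u e + zd (u i) • 1)) =
        ∑ j, (tT - cT (u j))⁻¹ • cM ((u i - u j) • (e i * (zd : Der K).mat (e i) * e j)) := by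
      rw [mul_assoc, h2, ← mul_assoc, Finset.mul_sum]
      refine Finset.sum_congr rfl fun j _ => ?_
      rw [Matrix.mul_smul, ← map_mul, ← map_mul]
      by_cases hij : i = j
      · subst hij
        rw [sub_self, sub_self, zero_smul, zero_smul, mul_zero]
      · rw [← g7_key h hij]
        congr 2
        rw [Matrix.mul_smul, mul_add, add_mul, Matrix.mul_smul, mul_one, Matrix.smul_mul,
          h.orth i j hij, smul_zero, add_zero]
    rw [h1, h3, Matrix.sum_apply, g7_ev_sum]
    have h4 : ∀ j, g7_ev (u i)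
        (((tT - cT (u j))⁻¹ • cM ((u i - u j) • (e i * (zd : Der K).mat (e i) * e j))) a c) =
        (e i * (zd : Der K).mat (e i) * e j) a c := by
      intro j
      rw [Matrix.smul_apply, smul_eq_mul, cM_apply, mul_comm, g7_ev_cT_mul, Matrix.smul_apply,
        smul_eq_mul]
      by_cases hij : i = j
      · subst hij
        rw [g7_iii h i, Matrix.zero_apply, mul_zero, zero_mul]
      · have hu : u i ≠ u j := fun hh => hij (h.uinj hh)
        rw [g7_ev_inv hu, mul_comm (u i - u j), mul_assoc, mul_inv_cancel₀ (sub_ne_zero.2 hu),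
          mul_one]
    rw [Finset.sum_congr rfl fun j _ => h4 j, ← Matrix.sum_apply, ← Finset.mul_sum, h.sum, mul_one]
  · rw [if_neg hb]
    have h1 : OmT (k := k) (fun j => cM (B j)) (bet β) (Rm u e) (Fin.last k) b =
        Jm (Fin.last k) b := by
      unfold OmT colE
      rw [Matrix.add_apply, if_neg hb, add_zero]
    have h2 : cM (e i) * ((Jm (Fin.last k) b : MT r) * cM (Am u e + zd (u i) • 1)) = 0 := by
      unfold Jm
      split_ifs
      · rw [one_mul, ← map_mul, hAi, map_zero]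
      · rw [zero_mul, mul_zero]
    rw [h1, h2, Matrix.zero_apply]
    unfold g7_ev
    rw [map_zero, LS.coeff_zero]

/-- the intertwining relation -/
private lemma g7_pi (h : Dat k u e B) (β : ℂ) (i : Fin l) (w : IX k r → K) :
    (e i).mulVec (fun b => con zd (fun p q => g7_ev (u i)
        (gX u (OT k u e B β) (OD k u e B β) i p q)) w (Fin.last k, b)) =
      con zd (Cd e) ((e i).mulVec fun b => w (Fin.last k, b)) := by
  funext a
  have h1 : (e i).mulVec (fun b => con zd (fun p q => g7_ev (u i)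
        (gX u (OT k u e B β) (OD k u e B β) i p q)) w (Fin.last k, b)) a =
      ∑ a', e i a a' * zd (w (Fin.last k, a')) +
        ∑ c, (e i * (zd : Der K).mat (e i)) a c * w (Fin.last k, c) := by
    change ∑ a', e i a a' * (zd (w (Fin.last k, a')) + ∑ q, g7_ev (u i)
        (gX u (OT k u e B β) (OD k u e B β) i (Fin.last k, a') q) * w q) = _
    rw [Finset.sum_congr rfl fun a' _ => mul_add _ _ _, Finset.sum_add_distrib]
    congr 1
    have h2 : ∀ a', e i a a' * ∑ q, g7_ev (u i)
          (gX u (OT k u e B β) (OD k u e B β) i (Fin.last k, a') q) * w q =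
        ∑ q, e i a a' * g7_ev (u i)
          (gX u (OT k u e B β) (OD k u e B β) i (Fin.last k, a') q) * w q := by
      intro a'
      rw [Finset.mul_sum]
      exact Finset.sum_congr rfl fun q _ => by rw [mul_assoc]
    rw [Finset.sum_congr rfl fun a' _ => h2 a', Finset.sum_comm, Fintype.sum_prod_type]
    have h3 : ∀ (b : Fin (k + 1)) (c : Fin r), ∑ a', e i a a' * g7_ev (u i)
          (gX u (OT k u e B β) (OD k u e B β) i (Fin.last k, a') (b, c)) * w (b, c) =
        if b = Fin.last k then (e i * (zd : Der K).mat (e i)) a c * w (b, c) else 0 := by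
      intro b c
      rw [← Finset.sum_mul, g7_core h β i b a c]
      split_ifs
      · rfl
      · rw [zero_mul]
    rw [Finset.sum_congr rfl fun b _ => Finset.sum_congr rfl fun c _ => h3 b c, Finset.sum_comm]
    refine Finset.sum_congr rfl fun c _ => ?_
    rw [Finset.sum_ite_eq', if_pos (Finset.mem_univ _)]
  rw [h1]
  have h4 : con zd (Cd e) ((e i).mulVec fun b => w (Fin.last k, b)) a =
      zd (∑ a', e i a a' * w (Fin.last k, a')) +
        (Cd e).mulVec ((e i).mulVec fun b => w (Fin.last k, b)) a := rfl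
  rw [h4, Matrix.mulVec_mulVec, map_sum, Finset.sum_congr rfl fun a' _ => Der.leib _ _ _,
    Finset.sum_add_distrib]
  have h5 : (Cd e * e i).mulVec (fun b => w (Fin.last k, b)) a =
      ∑ c, (Cd e * e i) a c * w (Fin.last k, c) := rfl
  rw [h5, g7_Cd h i]
  have h6 : ∀ c, ((zd : Der K).mat (e i) + Cd e * e i) a c * w (Fin.last k, c) =
      zd (e i a c) * w (Fin.last k, c) + (Cd e * e i) a c * w (Fin.last k, c) := by
    intro c
    rw [Matrix.add_apply, Der.mat_apply, add_mul]
  rw [Finset.sum_congr rfl fun c _ => h6 c, Finset.sum_add_distrib]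
  ring

/-- Theorem 7.4 (module g7) -/
theorem diag_growth (h : Dat k u e B) (K₀ : ℕ) (hK : 1 ≤ K₀)
    (hK₀ : ∀ i j, i ≠ j → ¬ Vge (K₀ : ℝ) (u i - u j)) {σ : ℝ} (hσ : 0 < σ) :
    Gr zd (Cd e) σ := by
  have hadm := adm_sys h 0
  obtain ⟨C, hC0, hC⟩ := grow_X hadm h.uint K₀ hK hK₀ hσ
  obtain ⟨κ, rfl⟩ : ∃ κ, K₀ = κ + 1 := ⟨K₀ - 1, by omega⟩
  have hE : ∃ C' : ℝ, ∀ i, MVge (-C') (e i) := by
    choose c hc using fun i => exists_MVge (e i)
    refine ⟨∑ i, |c i|, fun i => (hc i).mono ?_⟩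
    have h1 : |c i| ≤ ∑ i, |c i| :=
      Finset.single_le_sum (f := fun i => |c i|) (fun _ _ => abs_nonneg _) (Finset.mem_univ i)
    have h2 := neg_abs_le (c i)
    linarith
  obtain ⟨C', hC'⟩ := hE
  refine Gr_of_vec ⟨C + C', fun n j => ?_⟩
  -- the decomposition of the basis vector
  have hdec : (Pi.single j 1 : Fin r → K) = ∑ i, (e i).mulVec (Pi.single j 1) := by
    rw [← Matrix.sum_mulVec, h.sum, Matrix.one_mulVec]
  rw [hdec, g7_con_sum]
  -- one summand
  have hone : ∀ i, VVge (-(σ * n) - (C + C')) ((con zd (Cd e))^[n] ((e i).mulVec (Pi.single j 1))) := by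
    intro i
    obtain ⟨v, hv⟩ : ∃ v : IX k r → KT, v = fun p =>
      cT (if p.1 = Fin.last k then (Pi.single j 1 : Fin r → K) p.2 else 0) := ⟨_, rfl⟩
    have hvK : ∀ p : IX k r, Vge 0 (if p.1 = Fin.last k then (Pi.single j 1 : Fin r → K) p.2
        else 0) := by
      intro p
      split_ifs
      · by_cases hp : p.2 = j
        · rw [hp, Pi.single_eq_same]
          exact Vge.one
        · rw [Pi.single_eq_of_ne hp]
          exact Vge.zero 0
      · exact Vge.zero 0
    have hvreg : ∀ p, Vge 0 (loc (u i) (v p)) := by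
      intro p
      rw [hv]
      change Vge 0 (loc (u i) (cT _))
      rw [loc_cT]
      exact Vge.C _
    have hvpol : ∀ p, IsPol u (v p) := by
      intro p
      rw [hv]
      exact IsPol.cT _
    have hvnode : VVge 0 (fun p => node (u i) (κ + 1) (v p)) := by
      intro p
      rw [hv]
      change Vge 0 (node (u i) (κ + 1) (cT _))
      rw [node_cT, Vge_inn]
      exact hvK p
    have hGreg : MVge 0 ((gX u (OT k u e B 0) (OD k u e B 0) i).map (loc (u i))) := hadm.regX i
    have hGpol : ∀ p q, IsPol u (gX u (OT k u e B 0) (OD k u e B 0) i p q) := by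
      intro p q
      exact (hadm.polD p q).add ((IsPol.cT _).mul (hadm.polt p q))
    have hit := g7_iter hGreg hvreg n
    have hpol := g7_isPol (a := u i) hGpol hvpol n
    have hb := hC i (κ + 1) le_rfl n 0 v hvnode
    have hval : ∀ p, Vge (0 - σ * n - C) (g7_ev (u i)
        ((con (DX (u i)) (gX u (OT k u e B 0) (OD k u e B 0) i))^[n] v p)) := by
      intro p
      refine value_at u i κ (fun j' hj' => ?_) (hpol p) (hit.1 p) (hb p)
      have := hK₀ j' i hj'
      push_cast at this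
      exact this
    -- the intertwining relation, iterated
    have hsemi : Function.Semiconj (fun w : IX k r → K => (e i).mulVec fun b => w (Fin.last k, b))
        (con zd (fun p q => g7_ev (u i) (gX u (OT k u e B 0) (OD k u e B 0) i p q)))
        (con zd (Cd e)) := fun w => g7_pi h 0 i w
    have hs := (hsemi.iterate_right n) (fun q => g7_ev (u i) (v q))
    have hv0 : (fun b => g7_ev (u i) (v (Fin.last k, b))) = (Pi.single j 1 : Fin r → K) := by
      funext b
      rw [hv]
      change g7_ev (u i) (cT _) = _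
      rw [g7_ev_cT, if_pos rfl]
    have hs' : (e i).mulVec (fun b => (con zd (fun p q => g7_ev (u i)
          (gX u (OT k u e B 0) (OD k u e B 0) i p q)))^[n] (fun q => g7_ev (u i) (v q))
          (Fin.last k, b)) =
        (con zd (Cd e))^[n] ((e i).mulVec fun b => g7_ev (u i) (v (Fin.last k, b))) := hs
    rw [hv0, ← hit.2] at hs'
    rw [← hs']
    have hfin := (hC' i).mulVec (v := fun b => g7_ev (u i)
      ((con (DX (u i)) (gX u (OT k u e B 0) (OD k u e B 0) i))^[n] v (Fin.last k, b)))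
      (fun b => hval (Fin.last k, b))
    intro a
    exact (hfin a).mono (by linarith)
  intro a
  rw [Finset.sum_apply]
  exact Vge.sum fun i _ => hone i a

end Pool.Agent.Fbc
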