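import Pool.Agent.Fbc.Ext
import Pool.Agent.Fml.Final

/-!
# Interface between the formal normal form (helper49) and the convergence theorem (helper69)
-/

set_option autoImplicit false

namespace Pool.Agent.Fbc

open Polynomial
open Pool.Fml (Ser SymRing formal micro IsFormal IsMicro)

variable {d : ℕ}

/-- square matrices of power series in `x_1, …, x_d, s` -/
abbrev Mx (d r : ℕ) : Type := Matrix (Fin r) (Fin r) (Ser d)

/-- the partial derivative as a `Der` -/
noncomputable def serD (i : Option (Fin d)) : Der (Ser d) where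
  toFun f := MvPowerSeries.pderiv ℂ i f
  map_zero' := map_zero _
  map_add' f g := map_add _ f g
  leib' f g := by
    rw [Derivation.leibniz, smul_eq_mul, smul_eq_mul]; ring

@[simp] lemma serD_apply (i : Option (Fin d)) (f : Ser d) :
    serD i f = MvPowerSeries.pderiv ℂ i f := rfl

/-- the coefficient of `s ^ j` of `f`, as a power series in `x` -/
noncomputable def sco (j : ℕ) (f : Ser d) : Ser d :=
  fun m => if m none = 0 then MvPowerSeries.coeff (m + Finsupp.single none j) f else 0

/-- `sco` for matrices -/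
noncomputable def sc {r : ℕ} (j : ℕ) (M : Mx d r) : Mx d r := M.map (sco j)

/-- `s` and `x_i` as power series -/
noncomputable def sS : Ser d := MvPowerSeries.X none

/-- `f` does not contain `s` -/
def SFree (f : Ser d) : Prop := ∀ m, m none ≠ 0 → MvPowerSeries.coeff m f = 0

/-- polynomials whose coefficients are convergent power series in `x` -/
structure PolOK (p : (Ser d)[X]) : Prop where
  free : ∀ n, SFree (p.coeff n)
  formal : ∀ n, IsFormal (p.coeff n)

/-- the gauge transformation `G` (inverse `H`) carries `P_i = s ∂_i + A_i`, `T = s² ∂_s + B` to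
`s ∂_i + A'_i`, `s² ∂_s + B'` with `A'_i` free of `s` and `B'` of degree `≤ k` in `s` -/
structure NF {r : ℕ} (k : ℕ) (A A' : Fin d → Mx d r) (B B' G H : Mx d r) : Prop where
  GH : G * H = 1
  HG : H * G = 1
  P : ∀ i, (sS : Ser d) • G.map (serD (some i)) + A i * G = G * A' i
  T : (sS : Ser d) ^ 2 • G.map (serD none) + B * G = G * B'
  free : ∀ i a b, SFree (A' i a b)
  deg : ∀ a b m, k < m none → MvPowerSeries.coeff m (B' a b) = 0
  comm0 : ∀ i, A' i * sc 0 B' = sc 0 B' * A' i
  eq0 : ∀ i, (sc 0 B').map (serD (some i)) = -A' i - (A' i * sc 1 B' - sc 1 B' * A' i)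
  eqj : ∀ i j, 1 ≤ j →
    (sc j B').map (serD (some i)) = -(A' i * sc (j + 1) B' - sc (j + 1) B' * A' i)

/-- `p(x, B_0) = 0` and `A_{i,0} p_t(B_0) = p_{x_i}(B_0)`, where `B_0`, `A_{i,0}` are the parts
free of `s` -/
structure Eig {r : ℕ} (p : (Ser d)[X]) (A : Fin d → Mx d r) (B : Mx d r) : Prop where
  comm : ∀ i, sc 0 (A i) * sc 0 B = sc 0 B * sc 0 (A i)
  root : aeval (sc 0 B) p = 0
  rel : ∀ i, sc 0 (A i) * aeval (sc 0 B) (derivative p) = aeval (sc 0 B) (polD (serD (some i)) p)

end Pool.Agent.Fbc
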