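import Mathlib

/-!
# The field `k((z))`
-/

set_option autoImplicit false

namespace Pool.Agent.Fbc

/-- the field `k((z))` -/
def LS (k : Type) [Field k] : Type := LaurentSeries k

noncomputable instance (k : Type) [Field k] : Field (LS k) := inferInstanceAs (Field (LaurentSeries k))

namespace LS

variable {k : Type} [Field k]

/-- the underlying Hahn series (definitional equality) -/
noncomputable def toH : LS k ≃+* LaurentSeries k := RingEquiv.refl (LaurentSeries k)

/-- the coefficient of `z ^ n` -/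
noncomputable def coeff (x : LS k) (n : ℤ) : k := HahnSeries.coeff (toH x) n

/-- `a z ^ n` -/
noncomputable def single (n : ℤ) (a : k) : LS k := toH.symm (HahnSeries.single n a)

/-- constants -/
noncomputable def C : k →+* LS k := (toH (k := k)).symm.toRingHom.comp HahnSeries.C

@[ext] lemma ext {x y : LS k} (h : ∀ n, x.coeff n = y.coeff n) : x = y :=
  HahnSeries.ext (funext h)

@[simp] lemma coeff_zero (n : ℤ) : (0 : LS k).coeff n = 0 := rfl

@[simp] lemma coeff_add (x y : LS k) (n : ℤ) : (x + y).coeff n = x.coeff n + y.coeff n := rfl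

@[simp] lemma coeff_neg (x : LS k) (n : ℤ) : (-x).coeff n = -x.coeff n := rfl

@[simp] lemma coeff_sub (x y : LS k) (n : ℤ) : (x - y).coeff n = x.coeff n - y.coeff n := rfl

/-- the coefficient as an additive map -/
noncomputable def coeffHom (n : ℤ) : LS k →+ k where
  toFun x := x.coeff n
  map_zero' := rfl
  map_add' _ _ := rfl

@[simp] lemma coeff_sum {ι : Type} (s : Finset ι) (f : ι → LS k) (n : ℤ) :
    (∑ i ∈ s, f i).coeff n = ∑ i ∈ s, (f i).coeff n := map_sum (coeffHom n) f s

lemma coeff_single (m n : ℤ) (a : k) : (single m a).coeff n = if n = m then a else 0 := by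
  change (HahnSeries.single m a).coeff n = _
  rw [HahnSeries.coeff_single]
  split_ifs <;> rfl

@[simp] lemma coeff_single_same (n : ℤ) (a : k) : (single n a).coeff n = a := by
  rw [coeff_single, if_pos rfl]

lemma C_apply (a : k) : (C a : LS k) = single 0 a := rfl

lemma coeff_C (a : k) (n : ℤ) : (C a : LS k).coeff n = if n = 0 then a else 0 := by
  rw [C_apply, coeff_single]

lemma single_zero_one : single 0 (1 : k) = 1 := rfl

lemma coeff_one (n : ℤ) : (1 : LS k).coeff n = if n = 0 then 1 else 0 := by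
  rw [← single_zero_one, coeff_single]

lemma single_mul_single (m n : ℤ) (a b : k) : single m a * single n b = single (m + n) (a * b) :=
  HahnSeries.single_mul_single

lemma coeff_single_mul (m n : ℤ) (a : k) (x : LS k) :
    (single m a * x).coeff n = a * x.coeff (n - m) := by
  have := HahnSeries.coeff_single_mul_add (r := a) (x := toH x) (a := n - m) (b := m)
  rw [sub_add_cancel] at this
  exact this

lemma coeff_C_mul (n : ℤ) (a : k) (x : LS k) : (C a * x).coeff n = a * x.coeff n := by
  rw [C_apply, coeff_single_mul, sub_zero]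

lemma exists_lb (x : LS k) : ∃ N : ℤ, ∀ n < N, x.coeff n = 0 := by
  by_cases hx : x = 0
  · exact ⟨0, fun n _ => by rw [hx, coeff_zero]⟩
  · refine ⟨HahnSeries.order (toH x), fun n hn => HahnSeries.coeff_eq_zero_of_lt_order hn⟩

/-- a Laurent series from its coefficients -/
noncomputable def mk (f : ℤ → k) (h : ∃ N : ℤ, ∀ n < N, f n = 0) : LS k :=
  toH.symm ⟨f, by
    obtain ⟨N, hN⟩ := h
    have : (Function.support f) ⊆ Set.Ici N := fun n hn => by
      by_contra hc
      exact hn (hN n (not_le.1 hc))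
    exact (Set.IsWF.mono (BddBelow.isWF ⟨N, fun n hn => hn⟩) this).isPWO⟩

@[simp] lemma coeff_mk (f : ℤ → k) (h : ∃ N : ℤ, ∀ n < N, f n = 0) (n : ℤ) :
    (mk f h).coeff n = f n := rfl

lemma coeff_mul {x y : LS k} {N M : ℤ} (hx : ∀ n < N, x.coeff n = 0) (hy : ∀ n < M, y.coeff n = 0)
    (n : ℤ) : (x * y).coeff n = ∑ i ∈ Finset.Icc N (n - M), x.coeff i * y.coeff (n - i) := by
  change (toH x * toH y).coeff n = _
  rw [HahnSeries.coeff_mul]
  refine Finset.sum_bij_ne_zero (fun p _ _ => p.1) ?_ ?_ ?_ ?_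
  · rintro ⟨i, j⟩ hp _
    rw [Finset.mem_antidiagonal] at hp
    obtain ⟨h1, h2, h3⟩ := hp
    rw [Finset.mem_Icc]
    have h4 : N ≤ i := by by_contra hc; exact h1 (hx i (not_le.1 hc))
    have h5 : M ≤ j := by by_contra hc; exact h2 (hy j (not_le.1 hc))
    simp only at h3 ⊢
    omega
  · rintro ⟨i, j⟩ hp _ ⟨i', j'⟩ hp' _ h
    rw [Finset.mem_antidiagonal] at hp hp'
    have h3 := hp.2.2
    have h4 := hp'.2.2
    simp only at h3 h4 h
    rw [Prod.mk.injEq]
    omega
  · intro i _ hne
    refine ⟨(i, n - i), ?_, hne, rfl⟩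
    rw [Finset.mem_antidiagonal]
    refine ⟨left_ne_zero_of_mul hne, right_ne_zero_of_mul hne, ?_⟩
    simp
  · rintro ⟨i, j⟩ hp _
    rw [Finset.mem_antidiagonal] at hp
    have h3 := hp.2.2
    simp only at h3
    have : j = n - i := by omega
    rw [this]; rfl

/-- the order -/
noncomputable def ord (x : LS k) : ℤ := HahnSeries.order (toH x)

lemma coeff_ord_ne {x : LS k} (hx : x ≠ 0) : x.coeff x.ord ≠ 0 := by
  have : toH x ≠ 0 := hx
  exact HahnSeries.coeff_order_eq_zero.not.2 this

lemma coeff_of_lt_ord {x : LS k} {n : ℤ} (h : n < x.ord) : x.coeff n = 0 :=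
  HahnSeries.coeff_eq_zero_of_lt_order h

lemma ord_mul {x y : LS k} (hx : x ≠ 0) (hy : y ≠ 0) : (x * y).ord = x.ord + y.ord :=
  HahnSeries.order_mul (x := toH x) (y := toH y) hx hy

lemma ord_single {n : ℤ} {a : k} (ha : a ≠ 0) : (single n a).ord = n := HahnSeries.order_single ha

lemma ord_one : (1 : LS k).ord = 0 := HahnSeries.order_one

lemma le_ord_iff {x : LS k} (hx : x ≠ 0) (N : ℤ) : N ≤ x.ord ↔ ∀ n < N, x.coeff n = 0 := by
  constructor
  · intro h n hn; exact coeff_of_lt_ord (lt_of_lt_of_le hn h)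
  · intro h; by_contra hc; exact coeff_ord_ne hx (h _ (not_le.1 hc))

instance [CharZero k] : CharZero (LS k) :=
  charZero_of_injective_ringHom (RingHom.injective (C : k →+* LS k))

end LS

end Pool.Agent.Fbc
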