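import Pool.Agent.Fbc.Cv

/-!
# Lattices from growth, linear equations with uniform radius, Malgrange's theorem (section 8)
-/

set_option autoImplicit false

namespace Pool.Agent.Fbc

open Polynomial

variable {κ : Type} [Fintype κ] [DecidableEq κ]

/-- `z ∂_z + G` is regular singular: it has a stable lattice -/
def Rg (G : Matrix κ κ K) : Prop :=
  ∃ P Q : Matrix κ κ K, P * Q = 1 ∧ MVge 0 (Q * (P.map zd + G * P))

/-! ### module l3: from growth to a lattice -/

/-- the connection as an additive map -/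
private noncomputable def l3_nab (G : Matrix κ κ K) : (κ → K) →+ (κ → K) :=
  AddMonoidHom.mk' (con zd G) (con_add zd G)

private lemma l3_nab_apply (G : Matrix κ κ K) (v : κ → K) : l3_nab G v = con zd G v := rfl

/-- the chain of lattices -/
private noncomputable def l3_L (G : Matrix κ κ K) : ℕ → AddSubgroup (κ → K)
  | 0 =>
    { carrier := {v | VVge 0 v}
      add_mem' := fun ha hb i => (ha i).add (hb i)
      zero_mem' := fun _ => Vge.zero 0
      neg_mem' := fun ha i => (ha i).neg }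
  | n + 1 => l3_L G n ⊔ (l3_L G n).map (l3_nab G)

private lemma l3_mem_zero (G : Matrix κ κ K) (v : κ → K) : v ∈ l3_L G 0 ↔ VVge 0 v := Iff.rfl

private lemma l3_le (G : Matrix κ κ K) (n : ℕ) : l3_L G n ≤ l3_L G (n + 1) := by
  rw [l3_L]
  exact le_sup_left

private lemma l3_nab_mem (G : Matrix κ κ K) (n : ℕ) {v : κ → K} (hv : v ∈ l3_L G n) :
    con zd G v ∈ l3_L G (n + 1) := by
  rw [l3_L]
  exact AddSubgroup.mem_sup_right ⟨v, hv, rfl⟩

private lemma l3_mem_succ (G : Matrix κ κ K) (n : ℕ) {v : κ → K} (hv : v ∈ l3_L G (n + 1)) :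
    ∃ a ∈ l3_L G n, ∃ b ∈ l3_L G n, v = a + con zd G b := by
  rw [l3_L, AddSubgroup.mem_sup] at hv
  obtain ⟨a, ha, c, ⟨b, hb, rfl⟩, rfl⟩ := hv
  exact ⟨a, ha, b, hb, rfl⟩

private lemma l3_smul (G : Matrix κ κ K) (n : ℕ) : ∀ (x : K) (v : κ → K), Vge 0 x →
    v ∈ l3_L G n → x • v ∈ l3_L G n := by
  induction n with
  | zero =>
    intro x v hx hv i
    exact Vge.mul0 hx (hv i)
  | succ n ih =>
    intro x v hx hv
    obtain ⟨a, ha, b, hb, rfl⟩ := l3_mem_succ G n hv
    have h1 : x • con zd G b = con zd G (x • b) - zd x • b := by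
      rw [con_smul, add_sub_cancel_left]
    rw [smul_add, h1]
    exact (l3_L G (n + 1)).add_mem (l3_le G n (ih x a hx ha))
      ((l3_L G (n + 1)).sub_mem (l3_nab_mem G n (ih x b hx hb)) (l3_le G n (ih _ b hx.zd hb)))

private lemma l3_std (G : Matrix κ κ K) (n : ℕ) (j : κ) : Pi.single j 1 ∈ l3_L G n := by
  induction n with
  | zero =>
    intro i
    rw [Pi.single_apply]
    split_ifs
    · exact Vge.one
    · exact Vge.zero 0
  | succ n ih => exact l3_le G n ih

private lemma l3_bound (G : Matrix κ κ K) {σ C : ℝ}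
    (hC : ∀ (n : ℕ) (c : ℝ) (v : κ → K), VVge c v → VVge (c - σ * n - C) ((con zd G)^[n] v))
    (hσ : 0 ≤ σ) (n : ℕ) : ∀ v ∈ l3_L G n, ∀ m : ℕ, VVge (-(σ * (n + m)) - C)
      ((con zd G)^[m] v) := by
  induction n with
  | zero =>
    intro v hv m i
    exact (hC m 0 v hv i).mono (by push_cast; linarith)
  | succ n ih =>
    intro v hv m
    obtain ⟨a, ha, b, hb, rfl⟩ := l3_mem_succ G n hv
    have h1 : ∀ m : ℕ, (con zd G)^[m] (a + con zd G b) =
        (con zd G)^[m] a + (con zd G)^[m + 1] b := by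
      intro m
      induction m with
      | zero => rfl
      | succ m ihm =>
        rw [Function.iterate_succ_apply', ihm, con_add, Function.iterate_succ_apply' (con zd G) m a,
          Function.iterate_succ_apply' (con zd G) (m + 1) b]
    rw [h1]
    intro i
    refine ((ih a ha m i).mono ?_).add ((ih b hb (m + 1) i).mono ?_)
    · push_cast
      nlinarith
    · push_cast
      nlinarith

private lemma l3_prod {ι : Type} (s : Finset ι) (f : ι → K) (c : ℝ) (h : ∀ i ∈ s, Vge c (f i)) :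
    Vge (s.card * c) (∏ i ∈ s, f i) := by
  classical
  induction s using Finset.induction_on with
  | empty =>
    rw [Finset.prod_empty, Finset.card_empty]
    exact Vge.one.mono (by simp)
  | insert a s ha ih =>
    rw [Finset.prod_insert ha, Finset.card_insert_of_notMem ha]
    refine (Vge.mul (h a (Finset.mem_insert_self a s))
      (ih fun i hi => h i (Finset.mem_insert_of_mem hi))).mono ?_
    push_cast
    linarith

private lemma l3_det {c : ℝ} {M : Matrix κ κ K} (h : MVge c M) :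
    Vge (Fintype.card κ * c) M.det := by
  rw [Matrix.det_apply]
  refine Vge.sum fun σ _ => ?_
  have h1 : Vge (Fintype.card κ * c) (∏ i, M (σ i) i) :=
    l3_prod Finset.univ _ c fun i _ => h _ _
  rcases Int.units_eq_one_or (Equiv.Perm.sign σ) with h2 | h2
  · rw [h2, one_smul]; exact h1
  · rw [h2, Units.neg_smul, one_smul]; exact h1.neg

private lemma l3_adj {M : Matrix κ κ K} (h : MVge 0 M) : MVge 0 M.adjugate := by
  intro i j
  rw [Matrix.adjugate_apply]
  refine (l3_det (c := 0) (M := M.updateRow j (Pi.single i 1)) ?_).mono (by simp)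
  intro a b
  rw [Matrix.updateRow_apply]
  split_ifs
  · rw [Pi.single_apply]
    split_ifs
    · exact Vge.one
    · exact Vge.zero 0
  · exact h a b

/-- the inverse of an integral matrix whose determinant has order `0` -/
private lemma l3_inv {R R' : Matrix κ κ K} (h : MVge 0 R) (hR : R' * R = 1)
    (h0 : R.det.ord = 0) : MVge 0 R' := by
  have hd : R.det ≠ 0 := by
    intro h1
    have := congrArg Matrix.det hR
    rw [Matrix.det_mul, h1, mul_zero, Matrix.det_one] at this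
    exact zero_ne_one this
  have h1 : R.adjugate = R.det • R' := by
    calc R.adjugate = (R' * R) * R.adjugate := by rw [hR, Matrix.one_mul]
      _ = R' * (R * R.adjugate) := by rw [Matrix.mul_assoc]
      _ = R.det • R' := by rw [Matrix.mul_adjugate, Matrix.mul_smul, Matrix.mul_one]
  intro i j
  refine Vge_of_mul hd ?_
  rw [h0]
  have h2 := l3_adj h i j
  rw [h1] at h2
  exact h2.mono (by simp)

omit [DecidableEq κ] in
private lemma l3_col (A : Matrix κ κ K) (B : Matrix κ κ K) (j : κ) :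
    (fun i => (A * B) i j) = A.mulVec (fun i => B i j) := by
  funext i
  rw [Matrix.mul_apply]
  rfl

/-- if `z ∂_z + G` has growth rate `0` then it is regular singular: the chain
`L_n = ∑_{i ≤ n} ∇^i O^κ` is stationary, because `L_n ⊆ z^(-σn-C) O^κ` with `σ |κ| < 1` -/
theorem Rg_of_growth (G : Matrix κ κ K) (h : ∀ σ : ℝ, 0 < σ → Gr zd G σ) : Rg G := by
  set N : ℝ := (Fintype.card κ : ℝ) with hN
  have hN0 : 0 ≤ N := Nat.cast_nonneg _
  set σ : ℝ := 1 / (2 * (N + 1)) with hσ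
  have hσ0 : 0 < σ := by positivity
  have hNσ : N * σ ≤ 1 / 2 := by
    rw [hσ, mul_one_div, div_le_div_iff₀ (by positivity) (by norm_num)]
    linarith
  obtain ⟨C, hC0, hC⟩ := (h σ hσ0).vec pres_zd hσ0.le
  have hb : ∀ n : ℕ, ∀ v ∈ l3_L G n, VVge (-(σ * n) - C) v := by
    intro n v hv i
    have := l3_bound G hC hσ0.le n v hv 0 i
    exact this.mono (by push_cast; linarith)
  choose P Q hPQ hQP hL using fun n => lattice_basis (l3_L G n) (l3_smul G n) (l3_std G n) _ (hb n)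
  have hPcol : ∀ n j, (fun i => P n i j) ∈ l3_L G n := by
    intro n j
    rw [hL, ← l3_col, hQP]
    intro i
    exact MVge.one i j
  have hPb : ∀ n : ℕ, MVge (-(σ * n) - C) (P n) := fun n i j => hb n _ (hPcol n j) i
  have hPd : ∀ n, (P n).det ≠ 0 := by
    intro n h1
    have := congrArg Matrix.det (hPQ n)
    rw [Matrix.det_mul, h1, zero_mul, Matrix.det_one] at this
    exact zero_ne_one this
  -- the chain is stationary
  obtain ⟨n, hn⟩ : ∃ n, l3_L G (n + 1) ≤ l3_L G n := by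
    by_contra hcon
    push Not at hcon
    have hstep : ∀ n, (P (n + 1)).det.ord + 1 ≤ (P n).det.ord := by
      intro n
      have hRi : MVge 0 (Q (n + 1) * P n) := by
        intro i j
        have h1 : (fun i => P n i j) ∈ l3_L G (n + 1) := l3_le G n (hPcol n j)
        rw [hL, ← l3_col] at h1
        exact h1 i
      have hPR : P (n + 1) * (Q (n + 1) * P n) = P n := by
        rw [← Matrix.mul_assoc, hPQ, Matrix.one_mul]
      have hRd : (Q (n + 1) * P n).det ≠ 0 := by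
        intro h1
        have := congrArg Matrix.det hPR
        rw [Matrix.det_mul, h1, mul_zero] at this
        exact hPd n this.symm
      have hord : (P n).det.ord = (P (n + 1)).det.ord + (Q (n + 1) * P n).det.ord := by
        rw [← LS.ord_mul (hPd _) hRd, ← Matrix.det_mul, hPR]
      have hRo : 0 ≤ (Q (n + 1) * P n).det.ord := by
        have h1 : Vge 0 (Q (n + 1) * P n).det := (l3_det hRi).mono (by simp)
        rw [Vge_iff_ord hRd] at h1
        exact_mod_cast h1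
      rcases hRo.lt_or_eq with h1 | h1
      · omega
      · exfalso
        apply hcon n
        have hRinv : MVge 0 (Q n * P (n + 1)) := by
          refine l3_inv hRi ?_ h1.symm
          calc Q n * P (n + 1) * (Q (n + 1) * P n) = Q n * (P (n + 1) * (Q (n + 1) * P n)) := by
                rw [Matrix.mul_assoc]
            _ = 1 := by rw [hPR, hQP]
        intro v hv
        rw [hL] at hv ⊢
        have h2 : (Q n).mulVec v = (Q n * P (n + 1)).mulVec ((Q (n + 1)).mulVec v) := by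
          rw [Matrix.mulVec_mulVec, Matrix.mul_assoc, hPQ, Matrix.mul_one]
        rw [h2]
        have := hRinv.mulVec hv
        rwa [add_zero] at this
    have hall : ∀ n : ℕ, (P n).det.ord + n ≤ (P 0).det.ord := by
      intro n
      induction n with
      | zero => simp
      | succ n ih =>
        have := hstep n
        push_cast
        omega
    have hlow : ∀ n : ℕ, N * (-(σ * n) - C) ≤ ((P n).det.ord : ℝ) := by
      intro n
      exact (Vge_iff_ord (hPd n) _).1 (l3_det (hPb n))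
    obtain ⟨n, hn⟩ := exists_nat_gt (2 * (((P 0).det.ord : ℝ) + N * C))
    have h1 := hall n
    have h2 := hlow n
    have h3 : ((P n).det.ord : ℝ) + n ≤ ((P 0).det.ord : ℝ) := by exact_mod_cast h1
    have h4 : N * (σ * n) ≤ 1 / 2 * n := by
      rw [← mul_assoc]
      exact mul_le_mul_of_nonneg_right hNσ (Nat.cast_nonneg n)
    linarith
  refine ⟨P n, Q n, hPQ n, fun i j => ?_⟩
  have h1 : con zd G (fun i => P n i j) ∈ l3_L G n := hn (l3_nab_mem G n (hPcol n j))
  rw [hL] at h1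
  have h2 : (fun i => (Q n * ((P n).map zd + G * P n)) i j) =
      (Q n).mulVec (con zd G (fun i => P n i j)) := by
    rw [l3_col]
    congr 1
  have h3 := h1 i
  rw [← h2] at h3
  exact h3

/-! ### module l4: the lattice has a convergent basis -/

private lemma l4_iter {R S : Matrix κ κ K} (hR : MVge 1 R) (hS : S = 1 + R * S) : MVge 0 S := by
  obtain ⟨c, hc⟩ := exists_MVge S
  have h : ∀ n : ℕ, MVge (min 0 (c + n)) S := by
    intro n
    induction n with
    | zero => exact hc.mono (by rw [Nat.cast_zero, add_zero]; exact min_le_right _ _)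
    | succ n ih =>
      have h1 : MVge (min 0 (c + ((n + 1 : ℕ) : ℝ))) (1 + R * S) := by
        refine MVge.add (MVge.one.mono (min_le_left _ _)) ?_
        refine (hR.mul ih).mono ?_
        push_cast
        rcases le_total 0 (c + n) with h1 | h1
        · rw [min_eq_left h1]
          exact (min_le_left _ _).trans (by norm_num)
        · rw [min_eq_right h1]
          exact (min_le_right _ _).trans (by linarith)
      rw [← hS] at h1
      exact h1
  obtain ⟨n, hn⟩ := exists_nat_ge (-c)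
  refine (h n).mono ?_
  rw [min_eq_left (by linarith)]

private lemma l4_inv {R : Matrix κ κ K} (hR : MVge 1 R) :
    ∃ S : Matrix κ κ K, (1 - R) * S = 1 ∧ MVge 0 S := by
  have hdet : (1 - R).det ≠ 0 := by
    intro h0
    obtain ⟨v, hv, hv0⟩ := Matrix.exists_mulVec_eq_zero_iff.2 h0
    have h1 : v = R.mulVec v := by
      rw [Matrix.sub_mulVec, Matrix.one_mulVec, sub_eq_zero] at hv0
      exact hv0
    obtain ⟨c, hc⟩ := exists_VVge v
    have h2 : ∀ n : ℕ, VVge (c + n) v := by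
      intro n
      induction n with
      | zero =>
        intro i
        exact (hc i).mono (by rw [Nat.cast_zero, add_zero])
      | succ n ih =>
        have h3 := hR.mulVec ih
        rw [← h1] at h3
        intro i
        refine (h3 i).mono ?_
        push_cast
        linarith
    apply hv
    funext i
    refine eq_zero_of_Vge fun d => ?_
    obtain ⟨n, hn⟩ := exists_nat_ge (d - c)
    exact ⟨c + n, by linarith, h2 n i⟩
  have hunit : IsUnit (1 - R).det := hdet.isUnit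
  have h3 := Matrix.mul_nonsing_inv _ hunit
  refine ⟨(1 - R)⁻¹, h3, ?_⟩
  refine l4_iter hR ?_
  rw [Matrix.sub_mul, Matrix.one_mul] at h3
  exact sub_eq_iff_eq_add.1 h3

private lemma l4_leib (A B : Matrix κ κ K) : (A * B).map zd = A.map zd * B + A * B.map zd :=
  (Der.mat (n := κ) (zd : Der K)).leib A B

private lemma l4_sub (A B : Matrix κ κ K) : (A - B).map zd = A.map zd - B.map zd := by
  ext1 i j
  simp only [Matrix.map_apply, Matrix.sub_apply, map_sub]

private lemma l4_one : (1 : Matrix κ κ K).map zd = 0 :=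
  (Der.mat (n := κ) (zd : Der K)).map_one'

theorem Rg.conv {G : Matrix κ κ K} (h : Rg G) :
    ∃ P Q : Matrix κ κ K, P * Q = 1 ∧ (∀ i j, Cv (P i j)) ∧ (∀ i j, Cv (Q i j)) ∧
      MVge 0 (Q * (P.map zd + G * P)) := by
  obtain ⟨P, Q, hPQ, hG⟩ := h
  have hQP : Q * P = 1 := mul_eq_one_comm.1 hPQ
  obtain ⟨c, hc⟩ := exists_MVge Q
  obtain ⟨N, hN⟩ := exists_nat_ge (1 - c)
  choose T hT1 hT2 hT3 using fun i j => exists_trunc (P i j) (N : ℤ)
  let P' : Matrix κ κ K := Matrix.of T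
  have hE : MVge (N : ℝ) (P - P') := fun i j => by
    have h1 := hT3 i j
    push_cast at h1
    exact h1
  obtain ⟨R, hRdef⟩ : ∃ R : Matrix κ κ K, R = Q * (P - P') := ⟨_, rfl⟩
  have hR : MVge 1 R := by
    rw [hRdef]
    exact (hc.mul hE).mono (by linarith)
  have hP' : P' = P * (1 - R) := by
    rw [Matrix.mul_sub, Matrix.mul_one, hRdef, ← Matrix.mul_assoc, hPQ, Matrix.one_mul, sub_sub_cancel]
  obtain ⟨S, hS1, hS0⟩ := l4_inv hR
  have hS2 : S * (1 - R) = 1 := mul_eq_one_comm.1 hS1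
  have hPQ' : P' * (S * Q) = 1 := by
    rw [hP', Matrix.mul_assoc, ← Matrix.mul_assoc (1 - R), hS1, Matrix.one_mul, hPQ]
  have hcvP : ∀ i j, Cv (P' i j) := fun i j => ⟨1, one_pos, Lsum_of_finite (N : ℤ) (hT1 i j)⟩
  refine ⟨P', S * Q, hPQ', hcvP, Cv.matInv hPQ' hcvP, ?_⟩
  have hmap : P'.map zd = P.map zd * (1 - R) - P * R.map zd := by
    rw [hP', l4_leib, l4_sub, l4_one, zero_sub, Matrix.mul_neg, ← sub_eq_add_neg]
  have hfin : S * Q * (P'.map zd + G * P') = S * (Q * (P.map zd + G * P) * (1 - R) - R.map zd) := by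
    rw [hmap, Matrix.mul_assoc]
    congr 1
    have h1 : R.map zd = Q * (P * R.map zd) := by
      rw [← Matrix.mul_assoc, hQP, Matrix.one_mul]
    conv_rhs => rw [h1]
    rw [hP']
    simp only [Matrix.mul_add, Matrix.add_mul, Matrix.mul_sub, Matrix.mul_assoc]
    abel
  rw [hfin]
  have h1 : MVge 0 (1 - R) := MVge.one.sub (hR.mono zero_le_one)
  have h2 : MVge 0 (Q * (P.map zd + G * P) * (1 - R)) := (hG.mul h1).mono (by norm_num)
  have h3 : MVge 0 (R.map zd) := hR.map_zd.mono zero_le_one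
  exact (hS0.mul (h2.sub h3)).mono (by norm_num)

lemma Rg.gauge {G P Q : Matrix κ κ K} (hPQ : P * Q = 1)
    (h : Rg (Q * (P.map zd + G * P))) : Rg G := by
  obtain ⟨P₁, Q₁, h1, h2⟩ := h
  have hQP : Q * P = 1 := mul_eq_one_comm.1 hPQ
  refine ⟨P * P₁, Q₁ * Q, ?_, ?_⟩
  · rw [Matrix.mul_assoc, ← Matrix.mul_assoc P₁, h1, Matrix.one_mul, hPQ]
  · have h3 : Q₁ * Q * ((P * P₁).map zd + G * (P * P₁)) =
        Q₁ * (P₁.map zd + Q * (P.map zd + G * P) * P₁) := by
      rw [l4_leib, Matrix.mul_assoc]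
      congr 1
      have h4 : P₁.map zd = Q * (P * P₁.map zd) := by
        rw [← Matrix.mul_assoc, hQP, Matrix.one_mul]
      conv_rhs => rw [h4]
      simp only [Matrix.mul_add, Matrix.add_mul, Matrix.mul_assoc]
      abel
    rw [h3]
    exact h2

/-! ### module l5: linear equations, uniform radius -/

private lemma l5_shift (a : ℤ → ℝ) (ha : ∀ n, 0 ≤ a n) (B : ℤ) (haB : ∀ n < B, a n = 0)
    (n₀ N m : ℤ) (hm : 0 ≤ m) :
    ∑ n ∈ Finset.Icc n₀ N, a (n - m) ≤ ∑ k ∈ Finset.Icc B N, a k := by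
  classical
  have h1 : ∑ n ∈ Finset.Icc n₀ N, a (n - m) =
      ∑ k ∈ (Finset.Icc n₀ N).image (fun n => n - m), a k := by
    rw [Finset.sum_image]
    intro x _ y _ h
    exact sub_left_injective h
  rw [h1, ← Finset.sum_filter_ne_zero]
  refine Finset.sum_le_sum_of_subset_of_nonneg ?_ (fun k _ _ => ha k)
  intro k hk
  rw [Finset.mem_filter, Finset.mem_image] at hk
  obtain ⟨⟨n, hn, rfl⟩, hne⟩ := hk
  rw [Finset.mem_Icc] at hn ⊢
  constructor
  · by_contra hc
    exact hne (haB _ (not_le.1 hc))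
  · omega

private lemma l5_bound (a H μ : ℤ → ℝ) (ha : ∀ n, 0 ≤ a n) (hH0 : ∀ n, 0 ≤ H n)
    (hμ0 : ∀ n, 0 ≤ μ n) (hH : Summable H) (hμ : Summable μ) (B : ℤ) (haB : ∀ n < B, a n = 0)
    (h : ∀ n : ℤ, (n : ℝ) * a n ≤ H n + ∑ m ∈ Finset.Icc 0 (n - B), μ m * a (n - m)) :
    Summable a := by
  classical
  set L : ℝ := ∑' m, μ m with hL
  have hL0 : 0 ≤ L := tsum_nonneg hμ0
  set n₀ : ℤ := max B (⌈L⌉ + 1) with hn₀
  have hn₀B : B ≤ n₀ := le_max_left _ _
  have hn₀L : L + 1 ≤ n₀ := by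
    have h1 : ((⌈L⌉ + 1 : ℤ) : ℝ) ≤ n₀ := by exact_mod_cast le_max_right _ _
    push_cast at h1
    linarith [Int.le_ceil L]
  set A₀ : ℝ := ∑ k ∈ Finset.Icc B n₀, a k with hA₀
  have hA₀0 : 0 ≤ A₀ := Finset.sum_nonneg fun k _ => ha k
  set HH : ℝ := ∑' n, H n with hHH
  have hS : ∀ N : ℤ, ∑ k ∈ Finset.Icc n₀ N, a k ≤ HH + L * A₀ := by
    intro N
    set SN : ℝ := ∑ k ∈ Finset.Icc n₀ N, a k with hSN
    have hSN0 : 0 ≤ SN := Finset.sum_nonneg fun k _ => ha k
    have h1 : (n₀ : ℝ) * SN ≤ ∑ n ∈ Finset.Icc n₀ N, (n : ℝ) * a n := by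
      rw [hSN, Finset.mul_sum]
      refine Finset.sum_le_sum fun n hn => ?_
      refine mul_le_mul_of_nonneg_right ?_ (ha n)
      exact_mod_cast (Finset.mem_Icc.1 hn).1
    have h2 : ∑ n ∈ Finset.Icc n₀ N, (n : ℝ) * a n ≤
        ∑ n ∈ Finset.Icc n₀ N, H n + ∑ n ∈ Finset.Icc n₀ N,
          ∑ m ∈ Finset.Icc 0 (N - B), μ m * a (n - m) := by
      rw [← Finset.sum_add_distrib]
      refine Finset.sum_le_sum fun n hn => (h n).trans ?_
      refine add_le_add le_rfl ?_
      refine Finset.sum_le_sum_of_subset_of_nonneg ?_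
        (fun m _ _ => mul_nonneg (hμ0 m) (ha _))
      intro m hm
      rw [Finset.mem_Icc] at hm hn ⊢
      omega
    have h3 : ∑ n ∈ Finset.Icc n₀ N, ∑ m ∈ Finset.Icc 0 (N - B), μ m * a (n - m) ≤
        L * ∑ k ∈ Finset.Icc B N, a k := by
      rw [Finset.sum_comm]
      have h4 : ∀ m ∈ Finset.Icc 0 (N - B), ∑ n ∈ Finset.Icc n₀ N, μ m * a (n - m) ≤
          μ m * ∑ k ∈ Finset.Icc B N, a k := by
        intro m hm
        rw [← Finset.mul_sum]
        exact mul_le_mul_of_nonneg_left (l5_shift a ha B haB n₀ N m (Finset.mem_Icc.1 hm).1) (hμ0 m)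
      refine (Finset.sum_le_sum h4).trans ?_
      rw [← Finset.sum_mul]
      refine mul_le_mul_of_nonneg_right ?_ (Finset.sum_nonneg fun k _ => ha k)
      exact hμ.sum_le_tsum _ (fun m _ => hμ0 m)
    have h5 : ∑ k ∈ Finset.Icc B N, a k ≤ A₀ + SN := by
      have h6 : ∑ k ∈ Finset.Icc B N, a k ≤ ∑ k ∈ Finset.Icc B n₀ ∪ Finset.Icc n₀ N, a k := by
        refine Finset.sum_le_sum_of_subset_of_nonneg ?_ (fun k _ _ => ha k)
        intro k hk
        rw [Finset.mem_union, Finset.mem_Icc, Finset.mem_Icc]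
        rw [Finset.mem_Icc] at hk
        omega
      refine h6.trans ?_
      have h7 := Finset.sum_union_inter (s₁ := Finset.Icc B n₀) (s₂ := Finset.Icc n₀ N) (f := a)
      have h8 : 0 ≤ ∑ k ∈ Finset.Icc B n₀ ∩ Finset.Icc n₀ N, a k :=
        Finset.sum_nonneg fun k _ => ha k
      linarith
    have h9 : ∑ n ∈ Finset.Icc n₀ N, H n ≤ HH := hH.sum_le_tsum _ (fun n _ => hH0 n)
    have h10 : L * ∑ k ∈ Finset.Icc B N, a k ≤ L * (A₀ + SN) := mul_le_mul_of_nonneg_left h5 hL0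
    have h11 : (L + 1) * SN ≤ n₀ * SN := mul_le_mul_of_nonneg_right hn₀L hSN0
    nlinarith
  refine summable_of_sum_le (c := A₀ + (HH + L * A₀)) ha ?_
  intro u
  obtain ⟨N, hN⟩ := u.exists_le
  have h1 : ∑ x ∈ u, a x ≤ ∑ k ∈ Finset.Icc B n₀ ∪ Finset.Icc n₀ N, a k := by
    rw [← Finset.sum_filter_ne_zero]
    refine Finset.sum_le_sum_of_subset_of_nonneg ?_ (fun k _ _ => ha k)
    intro k hk
    rw [Finset.mem_filter] at hk
    have h2 : B ≤ k := by
      by_contra hc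
      exact hk.2 (haB _ (not_le.1 hc))
    have h3 := hN k hk.1
    rw [Finset.mem_union, Finset.mem_Icc, Finset.mem_Icc]
    omega
  refine h1.trans ?_
  have h7 := Finset.sum_union_inter (s₁ := Finset.Icc B n₀) (s₂ := Finset.Icc n₀ N) (f := a)
  have h8 : 0 ≤ ∑ k ∈ Finset.Icc B n₀ ∩ Finset.Icc n₀ N, a k :=
    Finset.sum_nonneg fun k _ => ha k
  have h9 := hS N
  linarith

/-- integral case -/
theorem lode_int (M : Matrix κ κ K) (hM : MVge 0 M) {ρ : ℝ} (hρ : 0 < ρ)
    (hMs : ∀ i j, Lsum ρ (M i j)) (h y : κ → K) (hh : ∀ i, Lsum ρ (h i))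
    (hy : ∀ i, zd (y i) + M.mulVec y i = h i) : ∀ i, Lsum ρ (y i) := by
  obtain ⟨c, hc⟩ := exists_VVge y
  set B : ℤ := ⌊c⌋ with hB
  have hyB : ∀ j, ∀ n < B, (y j).coeff n = 0 := by
    intro j n hn
    refine hc j n ?_
    have h1 : (n : ℝ) < (⌊c⌋ : ℤ) := by exact_mod_cast hn
    exact lt_of_lt_of_le h1 (Int.floor_le c)
  have hM0 : ∀ i j, ∀ n < (0 : ℤ), (M i j).coeff n = 0 := by
    intro i j n hn
    exact hM i j n (by exact_mod_cast hn)
  set a : ℤ → ℝ := fun n => ∑ j, ‖(y j).coeff n‖ * ρ ^ n with ha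
  set H : ℤ → ℝ := fun n => ∑ i, ‖(h i).coeff n‖ * ρ ^ n with hH
  set μ : ℤ → ℝ := fun n => ∑ i, ∑ j, ‖(M i j).coeff n‖ * ρ ^ n with hμ
  have hpow : ∀ n : ℤ, 0 < ρ ^ n := fun n => zpow_pos hρ n
  have hterm : ∀ (x : K) (n : ℤ), 0 ≤ ‖x.coeff n‖ * ρ ^ n := fun x n =>
    mul_nonneg (norm_nonneg _) (hpow n).le
  have ha0 : ∀ n, 0 ≤ a n := fun n => Finset.sum_nonneg fun j _ => hterm _ n
  have hH0 : ∀ n, 0 ≤ H n := fun n => Finset.sum_nonneg fun j _ => hterm _ n
  have hμ0 : ∀ n, 0 ≤ μ n := fun n =>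
    Finset.sum_nonneg fun i _ => Finset.sum_nonneg fun j _ => hterm _ n
  have hHs : Summable H := summable_sum fun i _ => hh i
  have hμs : Summable μ := summable_sum fun i _ => summable_sum fun j _ => hMs i j
  have haB : ∀ n < B, a n = 0 := by
    intro n hn
    refine Finset.sum_eq_zero fun j _ => ?_
    rw [hyB j n hn, norm_zero, zero_mul]
  have hrec : ∀ n : ℤ, (n : ℝ) * a n ≤ H n + ∑ m ∈ Finset.Icc 0 (n - B), μ m * a (n - m) := by
    intro n
    have h1 : ∀ i, (n : ℝ) * (‖(y i).coeff n‖ * ρ ^ n) ≤ ‖(h i).coeff n‖ * ρ ^ n +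
        ∑ j, ∑ m ∈ Finset.Icc 0 (n - B),
          (‖(M i j).coeff m‖ * ρ ^ m) * (‖(y j).coeff (n - m)‖ * ρ ^ (n - m)) := by
      intro i
      have h2 := congrArg (fun x : K => x.coeff n) (hy i)
      simp only [LS.coeff_add, zd_coeff, Matrix.mulVec, dotProduct, LS.coeff_sum] at h2
      have h3 : (n : ℂ) * (y i).coeff n = (h i).coeff n - ∑ j, (M i j * y j).coeff n := by
        rw [← h2]
        ring
      have h4 : (n : ℝ) * ‖(y i).coeff n‖ ≤ ‖(n : ℂ) * (y i).coeff n‖ := by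
        rw [norm_mul, Complex.norm_intCast]
        exact mul_le_mul_of_nonneg_right (le_abs_self _) (norm_nonneg _)
      have h5 : ‖(n : ℂ) * (y i).coeff n‖ ≤ ‖(h i).coeff n‖ + ∑ j, ∑ m ∈ Finset.Icc 0 (n - B),
          ‖(M i j).coeff m‖ * ‖(y j).coeff (n - m)‖ := by
        rw [h3]
        refine (norm_sub_le _ _).trans (add_le_add le_rfl ?_)
        refine (norm_sum_le _ _).trans (Finset.sum_le_sum fun j _ => ?_)
        rw [LS.coeff_mul (hM0 i j) (hyB j)]
        refine (norm_sum_le _ _).trans (Finset.sum_le_sum fun m _ => ?_)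
        rw [norm_mul]
      have h6 := mul_le_mul_of_nonneg_right (h4.trans h5) (hpow n).le
      have h7 : (‖(h i).coeff n‖ + ∑ j, ∑ m ∈ Finset.Icc 0 (n - B),
          ‖(M i j).coeff m‖ * ‖(y j).coeff (n - m)‖) * ρ ^ n = ‖(h i).coeff n‖ * ρ ^ n +
        ∑ j, ∑ m ∈ Finset.Icc 0 (n - B),
          (‖(M i j).coeff m‖ * ρ ^ m) * (‖(y j).coeff (n - m)‖ * ρ ^ (n - m)) := by
        rw [add_mul, Finset.sum_mul]
        congr 1
        refine Finset.sum_congr rfl fun j _ => ?_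
        rw [Finset.sum_mul]
        refine Finset.sum_congr rfl fun m _ => ?_
        have h8 : ρ ^ n = ρ ^ m * ρ ^ (n - m) := by
          rw [← zpow_add₀ hρ.ne']
          congr 1
          ring
        rw [h8]
        ring
      rw [h7] at h6
      calc (n : ℝ) * (‖(y i).coeff n‖ * ρ ^ n) = (n : ℝ) * ‖(y i).coeff n‖ * ρ ^ n := by ring
        _ ≤ _ := h6
    have h9 : (n : ℝ) * a n ≤ H n + ∑ i, ∑ j, ∑ m ∈ Finset.Icc 0 (n - B),
          (‖(M i j).coeff m‖ * ρ ^ m) * (‖(y j).coeff (n - m)‖ * ρ ^ (n - m)) := by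
      rw [ha, hH]
      simp only
      rw [Finset.mul_sum, ← Finset.sum_add_distrib]
      exact Finset.sum_le_sum fun i _ => h1 i
    refine h9.trans (add_le_add le_rfl ?_)
    have h10 : ∑ i, ∑ j, ∑ m ∈ Finset.Icc 0 (n - B),
          (‖(M i j).coeff m‖ * ρ ^ m) * (‖(y j).coeff (n - m)‖ * ρ ^ (n - m)) =
        ∑ m ∈ Finset.Icc 0 (n - B), ∑ i, ∑ j,
          (‖(M i j).coeff m‖ * ρ ^ m) * (‖(y j).coeff (n - m)‖ * ρ ^ (n - m)) := by
      refine (Finset.sum_congr rfl fun i _ => Finset.sum_comm).trans ?_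
      exact Finset.sum_comm
    rw [h10]
    refine Finset.sum_le_sum fun m _ => ?_
    rw [hμ]
    simp only
    rw [Finset.sum_mul]
    refine Finset.sum_le_sum fun i _ => ?_
    rw [Finset.sum_mul]
    refine Finset.sum_le_sum fun j _ => ?_
    refine mul_le_mul_of_nonneg_left ?_ (hterm _ m)
    exact Finset.single_le_sum (f := fun j => ‖(y j).coeff (n - m)‖ * ρ ^ (n - m))
      (fun j _ => hterm _ _) (Finset.mem_univ j)
  have hsum := l5_bound a H μ ha0 hH0 hμ0 hHs hμs B haB hrec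
  intro i
  refine Summable.of_nonneg_of_le (fun n => hterm _ n) (fun n => ?_) hsum
  exact Finset.single_le_sum (f := fun j => ‖(y j).coeff n‖ * ρ ^ n)
      (fun j _ => hterm _ _) (Finset.mem_univ i)

/-- regular singular case: the radius does not depend on the right hand side -/
theorem lode (G : Matrix κ κ K) (hG : ∀ i j, Cv (G i j)) (hreg : Rg G) :
    ∃ ρ₀ : ℝ, 0 < ρ₀ ∧ ∀ ρ : ℝ, 0 < ρ → ρ ≤ ρ₀ → ∀ h y : κ → K, (∀ i, Lsum ρ (h i)) →
      (∀ i, zd (y i) + G.mulVec y i = h i) → ∀ i, Lsum ρ (y i) := by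
  obtain ⟨P, Q, hPQ, hP, hQ, hM⟩ := hreg.conv
  have hQP : Q * P = 1 := mul_eq_one_comm.1 hPQ
  obtain ⟨M, hMdef⟩ : ∃ M : Matrix κ κ K, M = Q * (P.map zd + G * P) := ⟨_, rfl⟩
  rw [← hMdef] at hM
  have hMc : ∀ i j, Cv (M i j) := by
    intro i j
    rw [hMdef, Matrix.mul_apply]
    refine Cv.sum fun k _ => (hQ i k).mul ?_
    rw [Matrix.add_apply, Matrix.map_apply, Matrix.mul_apply]
    exact (hP k j).zd.add (Cv.sum fun l _ => (hG k l).mul (hP l j))
  obtain ⟨ρP, hρP, hLP⟩ := Cv.common (f := fun p : κ × κ => P p.1 p.2) (fun p => hP p.1 p.2)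
  obtain ⟨ρQ, hρQ, hLQ⟩ := Cv.common (f := fun p : κ × κ => Q p.1 p.2) (fun p => hQ p.1 p.2)
  obtain ⟨ρM, hρM, hLM⟩ := Cv.common (f := fun p : κ × κ => M p.1 p.2) (fun p => hMc p.1 p.2)
  refine ⟨min ρP (min ρQ ρM), lt_min hρP (lt_min hρQ hρM), ?_⟩
  intro ρ hρ hle h y hh hy
  have hle1 : ρ ≤ ρP := hle.trans (min_le_left _ _)
  have hle2 : ρ ≤ ρQ := hle.trans ((min_le_right _ _).trans (min_le_left _ _))
  have hle3 : ρ ≤ ρM := hle.trans ((min_le_right _ _).trans (min_le_right _ _))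
  have hPs : ∀ i j, Lsum ρ (P i j) := fun i j => (hLP (i, j)).mono hρ hle1
  have hQs : ∀ i j, Lsum ρ (Q i j) := fun i j => (hLQ (i, j)).mono hρ hle2
  have hMs : ∀ i j, Lsum ρ (M i j) := fun i j => (hLM (i, j)).mono hρ hle3
  obtain ⟨w, hw⟩ : ∃ w : κ → K, w = Q.mulVec y := ⟨_, rfl⟩
  have hyw : y = P.mulVec w := by
    rw [hw, Matrix.mulVec_mulVec, hPQ, Matrix.one_mulVec]
  have hcon : con zd G y = h := funext hy
  rw [hyw, con_gauge zd G P Q hPQ, ← hMdef] at hcon
  have hcon2 : con zd M w = Q.mulVec h := by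
    rw [← hcon, Matrix.mulVec_mulVec, hQP, Matrix.one_mulVec]
  have hwL : ∀ i, Lsum ρ (w i) := by
    refine lode_int M hM hρ hMs (Q.mulVec h) w ?_ (fun i => congrFun hcon2 i)
    intro i
    rw [Matrix.mulVec, dotProduct]
    exact Lsum.sum hρ fun j _ => (hQs i j).mul hρ (hh j)
  intro i
  rw [hyw, Matrix.mulVec, dotProduct]
  exact Lsum.sum hρ fun j _ => (hPs i j).mul hρ (hwL j)

/-! ### module l6: majorants -/

/-- the partial sums of a power series at `r` -/
private noncomputable def l6_S (r : ℝ) (N : ℕ) (f : PowerSeries ℝ) : ℝ :=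
  ∑ n ∈ Finset.range (N + 1), PowerSeries.coeff n f * r ^ n

private lemma l6_conv (N M : ℕ) (a b : ℕ → ℝ) (ha : ∀ n, 0 ≤ a n) (hb : ∀ n, 0 ≤ b n)
    (h : ∀ i k, i + k ≤ N → a i ≠ 0 → k ≤ M) :
    ∑ n ∈ Finset.range (N + 1), ∑ p ∈ Finset.HasAntidiagonal.antidiagonal n, a p.1 * b p.2 ≤
      (∑ i ∈ Finset.range (N + 1), a i) * ∑ k ∈ Finset.range (M + 1), b k := by
  classical
  obtain ⟨T, hT⟩ : ∃ T : Finset (ℕ × ℕ), T = (Finset.range (N + 1) ×ˢ Finset.range (N + 1)).filter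
    (fun p => p.1 + p.2 ≤ N) := ⟨_, rfl⟩
  have hmem : ∀ p : ℕ × ℕ, p ∈ T ↔ p.1 + p.2 ≤ N := by
    intro p
    rw [hT, Finset.mem_filter, Finset.mem_product, Finset.mem_range, Finset.mem_range]
    constructor
    · exact fun hp => hp.2
    · exact fun hp => ⟨⟨by omega, by omega⟩, hp⟩
  have e1 : ∑ n ∈ Finset.range (N + 1), ∑ p ∈ Finset.HasAntidiagonal.antidiagonal n, a p.1 * b p.2 =
      ∑ p ∈ T, a p.1 * b p.2 := by
    rw [← Finset.sum_fiberwise_of_maps_to (s := T) (t := Finset.range (N + 1))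
      (g := fun p => p.1 + p.2) (fun p hp => by
        rw [Finset.mem_range]
        have := (hmem p).1 hp
        omega)]
    refine Finset.sum_congr rfl fun n hn => ?_
    refine Finset.sum_congr ?_ fun _ _ => rfl
    ext p
    rw [Finset.mem_filter, hmem, Finset.HasAntidiagonal.mem_antidiagonal]
    rw [Finset.mem_range] at hn
    omega
  have e2 : ∑ p ∈ T, a p.1 * b p.2 = ∑ p ∈ T with p.2 ≤ M, a p.1 * b p.2 := by
    rw [Finset.sum_filter_of_ne]
    intro p hp hne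
    exact h p.1 p.2 ((hmem p).1 hp) (left_ne_zero_of_mul hne)
  rw [e1, e2, Finset.sum_mul_sum, ← Finset.sum_product']
  refine Finset.sum_le_sum_of_subset_of_nonneg ?_ fun p _ _ => mul_nonneg (ha _) (hb _)
  intro p hp
  rw [Finset.mem_filter, hmem] at hp
  rw [Finset.mem_product, Finset.mem_range, Finset.mem_range]
  exact ⟨by omega, by omega⟩

private lemma l6_mul {r : ℝ} (hr : 0 ≤ r) (N M : ℕ) {f h : PowerSeries ℝ}
    (hf : ∀ n, 0 ≤ PowerSeries.coeff n f) (hh : ∀ n, 0 ≤ PowerSeries.coeff n h)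
    (hc : M = N ∨ (N = M + 1 ∧ PowerSeries.coeff 0 f = 0)) :
    l6_S r N (f * h) ≤ l6_S r N f * l6_S r M h := by
  unfold l6_S
  refine le_trans (le_of_eq ?_) (l6_conv N M (fun n => PowerSeries.coeff n f * r ^ n)
    (fun n => PowerSeries.coeff n h * r ^ n) (fun n => mul_nonneg (hf n) (pow_nonneg hr n))
    (fun n => mul_nonneg (hh n) (pow_nonneg hr n)) ?_)
  · refine Finset.sum_congr rfl fun n _ => ?_
    rw [PowerSeries.coeff_mul, Finset.sum_mul]
    refine Finset.sum_congr rfl fun p hp => ?_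
    rw [Finset.HasAntidiagonal.mem_antidiagonal] at hp
    rw [← hp, pow_add]
    ring
  · intro i k hik hne
    rcases hc with h1 | ⟨h1, h2⟩
    · omega
    · rcases Nat.eq_zero_or_pos i with h3 | h3
      · exfalso
        apply hne
        simp only [h3, h2, zero_mul]
      · omega

private lemma l6_mul_nn {f h : PowerSeries ℝ} (hf : ∀ n, 0 ≤ PowerSeries.coeff n f)
    (hh : ∀ n, 0 ≤ PowerSeries.coeff n h) (n : ℕ) : 0 ≤ PowerSeries.coeff n (f * h) := by
  rw [PowerSeries.coeff_mul]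
  exact Finset.sum_nonneg fun p _ => mul_nonneg (hf _) (hh _)

private lemma l6_one_nn (n : ℕ) : 0 ≤ PowerSeries.coeff n (1 : PowerSeries ℝ) := by
  rw [PowerSeries.coeff_one]
  split_ifs <;> norm_num

private lemma l6_pow_nn {f : PowerSeries ℝ} (hf : ∀ n, 0 ≤ PowerSeries.coeff n f) (j : ℕ) :
    ∀ n, 0 ≤ PowerSeries.coeff n (f ^ j) := by
  induction j with
  | zero => intro n; rw [pow_zero]; exact l6_one_nn n
  | succ j ih => intro n; rw [pow_succ]; exact l6_mul_nn ih hf n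

private lemma l6_S_nn {r : ℝ} (hr : 0 ≤ r) (N : ℕ) {f : PowerSeries ℝ}
    (hf : ∀ n, 0 ≤ PowerSeries.coeff n f) : 0 ≤ l6_S r N f :=
  Finset.sum_nonneg fun n _ => mul_nonneg (hf n) (pow_nonneg hr n)

private lemma l6_S_one (r : ℝ) (N : ℕ) : l6_S r N 1 = 1 := by
  unfold l6_S
  rw [Finset.sum_eq_single 0]
  · rw [PowerSeries.coeff_one, if_pos rfl, pow_zero, mul_one]
  · intro n _ hn
    rw [PowerSeries.coeff_one, if_neg hn, zero_mul]
  · intro h
    exact absurd (Finset.mem_range.2 (Nat.succ_pos N)) h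

private lemma l6_pow {r : ℝ} (hr : 0 ≤ r) (N : ℕ) {f : PowerSeries ℝ}
    (hf : ∀ n, 0 ≤ PowerSeries.coeff n f) (j : ℕ) : l6_S r N (f ^ j) ≤ l6_S r N f ^ j := by
  induction j with
  | zero => rw [pow_zero, pow_zero, l6_S_one]
  | succ j ih =>
    rw [pow_succ, pow_succ]
    exact (l6_mul hr N N (l6_pow_nn hf j) hf (Or.inl rfl)).trans
      (mul_le_mul_of_nonneg_right ih (l6_S_nn hr N hf))

/-- `a_n ≤ [X^n] ∑_j g_j(X) a(X)^j` with `g_j(0) = 0` for `j ≥ 1`: then `a` converges. (For `ρ`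
small there is `y₀` with `∑_j g_j(ρ) y₀^j ≤ y₀`; the partial sums of `a_n ρ^n` stay `≤ y₀`.) -/
theorem majorant (D : ℕ) (g : ℕ → ℕ → ℝ) (hg0 : ∀ j n, 0 ≤ g j n) {ρ : ℝ} (hρ : 0 < ρ)
    (hg : ∀ j ≤ D, Summable fun n => g j n * ρ ^ n) (hgz : ∀ j, 1 ≤ j → g j 0 = 0)
    (a : ℕ → ℝ) (ha : ∀ n, 0 ≤ a n)
    (h : ∀ n, a n ≤ ∑ j ∈ Finset.range (D + 1),
      PowerSeries.coeff n (PowerSeries.mk (g j) * PowerSeries.mk a ^ j)) :
    ∃ ρ' : ℝ, 0 < ρ' ∧ ρ' ≤ ρ ∧ Summable fun n => a n * ρ' ^ n := by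
  obtain ⟨G, hG⟩ : ∃ G : ℕ → ℝ, G = fun j => ∑' n, g j n * ρ ^ n := ⟨_, rfl⟩
  have hG0 : ∀ j, 0 ≤ G j := by
    intro j
    rw [hG]
    exact tsum_nonneg fun n => mul_nonneg (hg0 j n) (pow_nonneg hρ.le n)
  obtain ⟨y, hy⟩ : ∃ y : ℝ, y = g 0 0 + 1 := ⟨_, rfl⟩
  have hy0 : 0 ≤ y := by
    rw [hy]
    linarith [hg0 0 0]
  obtain ⟨B, hB⟩ : ∃ B : ℝ, B = ∑ j ∈ Finset.range (D + 1), G j * y ^ j := ⟨_, rfl⟩
  have hB0 : 0 ≤ B := by
    rw [hB]
    exact Finset.sum_nonneg fun j _ => mul_nonneg (hG0 j) (pow_nonneg hy0 j)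
  obtain ⟨t, ht⟩ : ∃ t : ℝ, t = 1 / (B + 1) := ⟨_, rfl⟩
  have ht0 : 0 < t := by
    rw [ht]
    positivity
  have ht1 : t ≤ 1 := by
    rw [ht, div_le_one (by linarith)]
    linarith
  have htB : t * B ≤ 1 := by
    rw [ht, div_mul_eq_mul_div, one_mul, div_le_one (by linarith)]
    linarith
  have hr0 : 0 < ρ * t := mul_pos hρ ht0
  have hann : ∀ n, 0 ≤ PowerSeries.coeff n (PowerSeries.mk a) := by
    intro n
    rw [PowerSeries.coeff_mk]
    exact ha n
  have hgnn : ∀ j n, 0 ≤ PowerSeries.coeff n (PowerSeries.mk (g j)) := by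
    intro j n
    rw [PowerSeries.coeff_mk]
    exact hg0 j n
  -- the partial sums of `g j`
  have hSg : ∀ j ≤ D, ∀ N, l6_S (ρ * t) N (PowerSeries.mk (g j)) ≤ g j 0 + t * G j := by
    intro j hj N
    unfold l6_S
    have e1 : ∀ n ∈ Finset.range (N + 1), PowerSeries.coeff n (PowerSeries.mk (g j)) *
        (ρ * t) ^ n ≤ (if n = 0 then g j 0 else 0) + t * (g j n * ρ ^ n) := by
      intro n _
      rw [PowerSeries.coeff_mk, mul_pow]
      have h1 : 0 ≤ g j n * ρ ^ n := mul_nonneg (hg0 j n) (pow_nonneg hρ.le n)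
      rcases Nat.eq_zero_or_pos n with h2 | h2
      · rw [if_pos h2]
        rw [h2] at h1 ⊢
        simp only [pow_zero, mul_one] at h1 ⊢
        have := mul_nonneg ht0.le h1
        linarith
      · rw [if_neg (by omega), zero_add]
        have h3 : t ^ n ≤ t := pow_le_of_le_one ht0.le ht1 (by omega)
        calc g j n * (ρ ^ n * t ^ n) = (g j n * ρ ^ n) * t ^ n := by ring
          _ ≤ (g j n * ρ ^ n) * t := mul_le_mul_of_nonneg_left h3 h1
          _ = t * (g j n * ρ ^ n) := by ring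
    refine (Finset.sum_le_sum e1).trans ?_
    rw [Finset.sum_add_distrib, ← Finset.mul_sum]
    have e2 : ∑ n ∈ Finset.range (N + 1), (if n = 0 then g j 0 else 0) = g j 0 := by
      rw [Finset.sum_ite_eq' (Finset.range (N + 1)) 0,
        if_pos (Finset.mem_range.2 (Nat.succ_pos N))]
    have e3 : ∑ n ∈ Finset.range (N + 1), g j n * ρ ^ n ≤ G j := by
      rw [hG]
      exact (hg j hj).sum_le_tsum _ fun n _ => mul_nonneg (hg0 j n) (pow_nonneg hρ.le n)
    rw [e2]
    have := mul_le_mul_of_nonneg_left e3 ht0.le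
    linarith
  -- the partial sums of `a`
  have hSa : ∀ N, l6_S (ρ * t) N (PowerSeries.mk a) ≤ y := by
    intro N
    induction N with
    | zero =>
      unfold l6_S
      rw [zero_add, Finset.sum_range_one, PowerSeries.coeff_mk, pow_zero, mul_one]
      refine (h 0).trans ?_
      have e1 : ∀ j ∈ Finset.range (D + 1),
          PowerSeries.coeff 0 (PowerSeries.mk (g j) * PowerSeries.mk a ^ j) =
            if j = 0 then g 0 0 else 0 := by
        intro j _
        rw [PowerSeries.coeff_mul, Finset.Nat.antidiagonal_zero, Finset.sum_singleton,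
          PowerSeries.coeff_mk]
        by_cases hj : j = 0
        · rw [if_pos hj, hj, pow_zero, PowerSeries.coeff_one, if_pos rfl, mul_one]
        · rw [if_neg hj, hgz j (by omega), zero_mul]
      rw [Finset.sum_congr rfl e1, Finset.sum_ite_eq' (Finset.range (D + 1)) 0,
        if_pos (Finset.mem_range.2 (Nat.succ_pos D)), hy]
      linarith
    | succ N ih =>
      have e1 : l6_S (ρ * t) (N + 1) (PowerSeries.mk a) ≤ ∑ j ∈ Finset.range (D + 1),
          l6_S (ρ * t) (N + 1) (PowerSeries.mk (g j) * PowerSeries.mk a ^ j) := by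
        unfold l6_S
        rw [Finset.sum_comm]
        refine Finset.sum_le_sum fun n _ => ?_
        rw [← Finset.sum_mul, PowerSeries.coeff_mk]
        exact mul_le_mul_of_nonneg_right (h n) (pow_nonneg hr0.le n)
      have e2 : ∀ j ∈ Finset.range (D + 1),
          l6_S (ρ * t) (N + 1) (PowerSeries.mk (g j) * PowerSeries.mk a ^ j) ≤
            (if j = 0 then g 0 0 else 0) + t * (G j * y ^ j) := by
        intro j hj
        have hjD : j ≤ D := by
          rw [Finset.mem_range] at hj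
          omega
        by_cases hj0 : j = 0
        · rw [if_pos hj0, hj0, pow_zero, pow_zero, mul_one, mul_one]
          exact hSg 0 (Nat.zero_le D) (N + 1)
        · rw [if_neg hj0, zero_add]
          have hz := hgz j (by omega)
          have h1 := l6_mul hr0.le (N + 1) N (hgnn j) (l6_pow_nn hann j)
            (Or.inr ⟨rfl, by rw [PowerSeries.coeff_mk, hz]⟩)
          have h2 := hSg j hjD (N + 1)
          rw [hz, zero_add] at h2
          have h3 := (l6_pow hr0.le N hann j).trans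
            (pow_le_pow_left₀ (l6_S_nn hr0.le N hann) ih j)
          refine h1.trans ?_
          calc l6_S (ρ * t) (N + 1) (PowerSeries.mk (g j)) *
                l6_S (ρ * t) N (PowerSeries.mk a ^ j) ≤ (t * G j) * y ^ j :=
                mul_le_mul h2 h3 (l6_S_nn hr0.le N (l6_pow_nn hann j))
                  (mul_nonneg ht0.le (hG0 j))
            _ = t * (G j * y ^ j) := by ring
      refine e1.trans ((Finset.sum_le_sum e2).trans ?_)
      rw [Finset.sum_add_distrib, ← Finset.mul_sum, ← hB,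
        Finset.sum_ite_eq' (Finset.range (D + 1)) 0,
        if_pos (Finset.mem_range.2 (Nat.succ_pos D)), hy]
      linarith
  refine ⟨ρ * t, hr0, mul_le_of_le_one_right hρ.le ht1, ?_⟩
  refine summable_of_sum_range_le (c := y) (fun n => mul_nonneg (ha n) (pow_nonneg hr0.le n))
    fun n => ?_
  rcases n with _ | n
  · rw [Finset.sum_range_zero]
    exact hy0
  · have h1 := hSa n
    unfold l6_S at h1
    simp only [PowerSeries.coeff_mk] at h1
    exact h1

/-! ### module l7: Briot-Bouquet -/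

/-- `x` is integral and dominated by the series `f` -/
private def l7_Dom (x : K) (f : PowerSeries ℝ) : Prop :=
  Vge 0 x ∧ ∀ n : ℕ, ‖x.coeff n‖ ≤ PowerSeries.coeff n f

private lemma l7_neg {x : K} (hx : Vge 0 x) {n : ℤ} (hn : n < 0) : x.coeff n = 0 :=
  hx n (by exact_mod_cast hn)

private lemma l7_nn {x : K} {f : PowerSeries ℝ} (h : l7_Dom x f) (n : ℕ) :
    0 ≤ PowerSeries.coeff n f := (norm_nonneg _).trans (h.2 n)

private lemma l7_mono {x : K} {f g : PowerSeries ℝ} (h : l7_Dom x f)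
    (hfg : ∀ n, PowerSeries.coeff n f ≤ PowerSeries.coeff n g) : l7_Dom x g :=
  ⟨h.1, fun n => (h.2 n).trans (hfg n)⟩

private lemma l7_self {x : K} (hx : Vge 0 x) :
    l7_Dom x (PowerSeries.mk fun n => ‖x.coeff (n : ℤ)‖) :=
  ⟨hx, fun n => by rw [PowerSeries.coeff_mk]⟩

private lemma l7_add {x y : K} {f g : PowerSeries ℝ} (hx : l7_Dom x f) (hy : l7_Dom y g) :
    l7_Dom (x + y) (f + g) := by
  refine ⟨hx.1.add hy.1, fun n => ?_⟩
  rw [LS.coeff_add, map_add]
  exact (norm_add_le _ _).trans (add_le_add (hx.2 n) (hy.2 n))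

private lemma l7_sub {x y : K} {f g : PowerSeries ℝ} (hx : l7_Dom x f) (hy : l7_Dom y g) :
    l7_Dom (x - y) (f + g) := by
  refine ⟨hx.1.sub hy.1, fun n => ?_⟩
  rw [LS.coeff_sub, map_add]
  exact (norm_sub_le _ _).trans (add_le_add (hx.2 n) (hy.2 n))

private lemma l7_zero : l7_Dom (0 : K) 0 := by
  refine ⟨Vge.zero 0, fun n => ?_⟩
  rw [LS.coeff_zero, norm_zero, map_zero]

private lemma l7_sum {ι : Type} (s : Finset ι) {x : ι → K} {f : ι → PowerSeries ℝ}
    (h : ∀ i ∈ s, l7_Dom (x i) (f i)) : l7_Dom (∑ i ∈ s, x i) (∑ i ∈ s, f i) := by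
  classical
  induction s using Finset.induction_on with
  | empty => simpa using l7_zero
  | insert a s ha ih =>
    rw [Finset.sum_insert ha, Finset.sum_insert ha]
    exact l7_add (h a (Finset.mem_insert_self a s))
      (ih fun i hi => h i (Finset.mem_insert_of_mem hi))

private lemma l7_coeff_mul {x y : K} (hx : Vge 0 x) (hy : Vge 0 y) (n : ℕ) :
    (x * y).coeff n = ∑ p ∈ Finset.HasAntidiagonal.antidiagonal n,
      x.coeff (p.1 : ℤ) * y.coeff (p.2 : ℤ) := by
  rw [LS.coeff_mul (N := 0) (M := 0) (fun m hm => l7_neg hx hm) (fun m hm => l7_neg hy hm),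
    sub_zero]
  symm
  refine Finset.sum_bij (fun p _ => (p.1 : ℤ)) ?_ ?_ ?_ ?_
  · intro p hp
    rw [Finset.HasAntidiagonal.mem_antidiagonal] at hp
    rw [Finset.mem_Icc]
    omega
  · intro p hp p' hp' h
    rw [Finset.HasAntidiagonal.mem_antidiagonal] at hp hp'
    have h1 : p.1 = p'.1 := by exact_mod_cast h
    exact Prod.ext h1 (by omega)
  · intro i hi
    rw [Finset.mem_Icc] at hi
    refine ⟨(i.toNat, n - i.toNat), ?_, ?_⟩
    · rw [Finset.HasAntidiagonal.mem_antidiagonal]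
      omega
    · simp only
      omega
  · intro p hp
    rw [Finset.HasAntidiagonal.mem_antidiagonal] at hp
    have h1 : (p.2 : ℤ) = (n : ℤ) - (p.1 : ℤ) := by omega
    rw [h1]

private lemma l7_mul {x y : K} {f g : PowerSeries ℝ} (hx : l7_Dom x f) (hy : l7_Dom y g) :
    l7_Dom (x * y) (f * g) := by
  refine ⟨hx.1.mul0 hy.1, fun n => ?_⟩
  rw [l7_coeff_mul hx.1 hy.1, PowerSeries.coeff_mul]
  refine (norm_sum_le _ _).trans (Finset.sum_le_sum fun p _ => ?_)
  rw [norm_mul]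
  exact mul_le_mul (hx.2 _) (hy.2 _) (norm_nonneg _) (l7_nn hx _)

private lemma l7_one : l7_Dom (1 : K) 1 := by
  refine ⟨Vge.one, fun n => ?_⟩
  rw [LS.coeff_one, PowerSeries.coeff_one]
  by_cases h : n = 0
  · rw [if_pos (by exact_mod_cast h), if_pos h, norm_one]
  · rw [if_neg (by exact_mod_cast h), if_neg h, norm_zero]

private lemma l7_pow {x : K} {f : PowerSeries ℝ} (hx : l7_Dom x f) (n : ℕ) :
    l7_Dom (x ^ n) (f ^ n) := by
  induction n with
  | zero => rw [pow_zero, pow_zero]; exact l7_one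
  | succ n ih => rw [pow_succ, pow_succ]; exact l7_mul ih hx

private lemma l7_prod {ι : Type} (s : Finset ι) {x : ι → K} {f : ι → PowerSeries ℝ}
    (h : ∀ i ∈ s, l7_Dom (x i) (f i)) : l7_Dom (∏ i ∈ s, x i) (∏ i ∈ s, f i) := by
  classical
  induction s using Finset.induction_on with
  | empty => simpa using l7_one
  | insert a s ha ih =>
    rw [Finset.prod_insert ha, Finset.prod_insert ha]
    exact l7_mul (h a (Finset.mem_insert_self a s))
      (ih fun i hi => h i (Finset.mem_insert_of_mem hi))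

private lemma l7_nat {ρ : ℝ} {x : K} (h : Lsum ρ x) :
    Summable fun n : ℕ => ‖x.coeff (n : ℤ)‖ * ρ ^ n := by
  have h1 : Summable fun n : ℤ => ‖x.coeff n‖ * ρ ^ n := h
  have h2 := h1.comp_injective (i := fun n : ℕ => (n : ℤ)) Nat.cast_injective
  refine h2.congr fun n => ?_
  simp only [Function.comp, zpow_natCast]

private lemma l7_lsum {ρ : ℝ} {x : K} (hx : Vge 0 x)
    (h : Summable fun n : ℕ => ‖x.coeff (n : ℤ)‖ * ρ ^ n) : Lsum ρ x := by
  unfold Lsum
  have hi : Function.Injective fun n : ℕ => (n : ℤ) := Nat.cast_injective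
  rw [← hi.summable_iff]
  · refine h.congr fun n => ?_
    simp only [Function.comp, zpow_natCast]
  · intro n hn
    have h1 : n < 0 := by
      by_contra hc
      exact hn ⟨n.toNat, by simp only; omega⟩
    rw [l7_neg hx h1, norm_zero, zero_mul]

/-- `(z ∂_z + N + M) U = R(U)` with `M` integral, `N` larger than the norm of `M(0)`, all
coefficients of `R` divisible by `z` -/
theorem briot_bouquet (M : Matrix κ κ K) (hM : MVge 0 M) (hMc : ∀ i j, Cv (M i j)) (N : ℕ)
    (hN : (∑ i, ∑ j, ‖(M i j).coeff 0‖) + 1 ≤ N) (R : κ → MvPolynomial κ K)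
    (hR : ∀ i m, Cv ((R i).coeff m)) (hR1 : ∀ i m, Vge 1 ((R i).coeff m)) (U : κ → K)
    (hU : ∀ i, Vge 0 (U i))
    (h : ∀ i, zd (U i) + (N : K) * U i + M.mulVec U i = MvPolynomial.eval U (R i)) :
    ∀ i, Cv (U i) := by
  classical
  have hR0 : ∀ i m, Vge 0 ((R i).coeff m) := fun i m => (hR1 i m).mono (by norm_num)
  -- the matrix without its constant term
  obtain ⟨M', hM'⟩ : ∃ M' : Matrix κ κ K,
    M' = fun i j => M i j - LS.C ((M i j).coeff 0) := ⟨_, rfl⟩
  have hM'g : ∀ i j, Vge 0 (M' i j) := by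
    intro i j
    rw [hM']
    exact (hM i j).sub (Vge.C _)
  have hM'c : ∀ i j, Cv (M' i j) := by
    intro i j
    rw [hM']
    refine (hMc i j).sub ?_
    rw [LS.C_apply]
    exact Cv.single 0 _
  have hM'0 : ∀ i j, (M' i j).coeff 0 = 0 := by
    intro i j
    rw [hM']
    simp only [LS.coeff_sub, LS.coeff_C, if_true, sub_self]
  -- the majorants
  obtain ⟨a, ha⟩ : ∃ a : ℕ → ℝ, a = fun n : ℕ => ∑ i, ‖(U i).coeff (n : ℤ)‖ := ⟨_, rfl⟩
  have ha0 : ∀ n, 0 ≤ a n := by
    intro n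
    rw [ha]
    exact Finset.sum_nonneg fun i _ => norm_nonneg _
  obtain ⟨u, hu⟩ : ∃ u : PowerSeries ℝ, u = PowerSeries.mk a := ⟨_, rfl⟩
  have hUd : ∀ i, l7_Dom (U i) u := by
    intro i
    refine ⟨hU i, fun n => ?_⟩
    rw [hu, PowerSeries.coeff_mk, ha]
    exact Finset.single_le_sum (f := fun i => ‖(U i).coeff (n : ℤ)‖)
      (fun i _ => norm_nonneg _) (Finset.mem_univ i)
  obtain ⟨r, hr⟩ : ∃ r : κ → (κ →₀ ℕ) → PowerSeries ℝ,
    r = fun i d => PowerSeries.mk fun n => ‖((R i).coeff d).coeff (n : ℤ)‖ := ⟨_, rfl⟩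
  obtain ⟨μ, hμ⟩ : ∃ μ : κ → κ → PowerSeries ℝ,
    μ = fun i j => PowerSeries.mk fun n => ‖(M' i j).coeff (n : ℤ)‖ := ⟨_, rfl⟩
  have hRd : ∀ i, l7_Dom (MvPolynomial.eval U (R i))
      (∑ d ∈ (R i).support, r i d * u ^ (∑ k, d k)) := by
    intro i
    rw [MvPolynomial.eval_eq']
    refine l7_sum _ fun d _ => ?_
    refine l7_mul ?_ ?_
    · rw [hr]
      exact l7_self (hR0 i d)
    · rw [← Finset.prod_pow_eq_pow_sum]
      exact l7_prod _ fun k _ => l7_pow (hUd k) _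
  have hMd : ∀ i, l7_Dom (∑ j, M' i j * U j) (∑ j, μ i j * u) := by
    intro i
    refine l7_sum _ fun j _ => l7_mul ?_ (hUd j)
    rw [hμ]
    exact l7_self (hM'g i j)
  obtain ⟨W, hW⟩ : ∃ W : κ → K,
    W = fun i => MvPolynomial.eval U (R i) - ∑ j, M' i j * U j := ⟨_, rfl⟩
  have hWd : ∀ i, l7_Dom (W i)
      ((∑ d ∈ (R i).support, r i d * u ^ (∑ k, d k)) + ∑ j, μ i j * u) := by
    intro i
    rw [hW]
    exact l7_sub (hRd i) (hMd i)
  have hWe : ∀ i, ∀ n : ℕ, (n + N : ℂ) * (U i).coeff (n : ℤ) =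
      (W i).coeff (n : ℤ) - ∑ j, (M i j).coeff 0 * (U j).coeff (n : ℤ) := by
    intro i n
    have h1 := h i
    have h2 : M.mulVec U i = ∑ j, LS.C ((M i j).coeff 0) * U j + ∑ j, M' i j * U j := by
      rw [Matrix.mulVec, dotProduct, ← Finset.sum_add_distrib]
      refine Finset.sum_congr rfl fun j _ => ?_
      rw [hM']
      ring
    have h3 : W i = zd (U i) + (N : K) * U i + ∑ j, LS.C ((M i j).coeff 0) * U j := by
      rw [hW]
      simp only
      rw [← h1, h2]
      ring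
    have h4 : ((N : K)) = LS.C (N : ℂ) := (map_natCast LS.C N).symm
    have h5 := congrArg (fun x : K => x.coeff (n : ℤ)) h3
    simp only [LS.coeff_add, LS.coeff_sum, zd_coeff, h4, LS.coeff_C_mul] at h5
    rw [h5]
    push_cast
    ring
  -- the inequality
  have hineq : ∀ n, a n ≤ ∑ i, PowerSeries.coeff n
      ((∑ d ∈ (R i).support, r i d * u ^ (∑ k, d k)) + ∑ j, μ i j * u) := by
    intro n
    have h1 : ∀ i, ((n : ℝ) + N) * ‖(U i).coeff (n : ℤ)‖ ≤ ‖(W i).coeff (n : ℤ)‖ +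
        ∑ j, ‖(M i j).coeff 0‖ * ‖(U j).coeff (n : ℤ)‖ := by
      intro i
      have h2 : ((n : ℝ) + N) * ‖(U i).coeff (n : ℤ)‖ = ‖(n + N : ℂ) * (U i).coeff (n : ℤ)‖ := by
        rw [norm_mul]
        congr 1
        have h3 : ((n : ℂ) + N) = (((n : ℝ) + N : ℝ) : ℂ) := by push_cast; rfl
        rw [h3, Complex.norm_real, Real.norm_eq_abs, abs_of_nonneg (by positivity)]
      rw [h2, hWe i n]
      refine (norm_sub_le _ _).trans (add_le_add le_rfl ?_)
      refine (norm_sum_le _ _).trans (Finset.sum_le_sum fun j _ => ?_)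
      rw [norm_mul]
    have h2 := Finset.sum_le_sum fun i (_ : i ∈ Finset.univ) => h1 i
    rw [← Finset.mul_sum, Finset.sum_add_distrib] at h2
    have h3 : ∑ i, ∑ j, ‖(M i j).coeff 0‖ * ‖(U j).coeff (n : ℤ)‖ ≤
        (∑ i, ∑ j, ‖(M i j).coeff 0‖) * a n := by
      rw [Finset.sum_mul]
      refine Finset.sum_le_sum fun i _ => ?_
      rw [Finset.sum_mul]
      refine Finset.sum_le_sum fun j _ => mul_le_mul_of_nonneg_left ?_ (norm_nonneg _)
      rw [ha]
      exact Finset.single_le_sum (f := fun i => ‖(U i).coeff (n : ℤ)‖)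
        (fun i _ => norm_nonneg _) (Finset.mem_univ j)
    have h4 : ∑ i, ‖(W i).coeff (n : ℤ)‖ ≤ ∑ i, PowerSeries.coeff n
        ((∑ d ∈ (R i).support, r i d * u ^ (∑ k, d k)) + ∑ j, μ i j * u) :=
      Finset.sum_le_sum fun i _ => (hWd i).2 n
    have h5 : ((n : ℝ) + N) * a n ≤ ∑ i, ‖(W i).coeff (n : ℤ)‖ +
        (∑ i, ∑ j, ‖(M i j).coeff 0‖) * a n := by
      have h6 : ∑ i, ‖(U i).coeff (n : ℤ)‖ = a n := by rw [ha]
      rw [h6] at h2
      linarith
    have h7 : a n ≤ ((n : ℝ) + N - ∑ i, ∑ j, ‖(M i j).coeff 0‖) * a n := by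
      have h8 : (1 : ℝ) ≤ (n : ℝ) + N - ∑ i, ∑ j, ‖(M i j).coeff 0‖ := by
        have : (0 : ℝ) ≤ n := Nat.cast_nonneg n
        linarith
      have := mul_le_mul_of_nonneg_right h8 (ha0 n)
      linarith
    have h9 : ((n : ℝ) + N - ∑ i, ∑ j, ‖(M i j).coeff 0‖) * a n ≤
        ∑ i, ‖(W i).coeff (n : ℤ)‖ := by
      have : ((n : ℝ) + N - ∑ i, ∑ j, ‖(M i j).coeff 0‖) * a n =
        ((n : ℝ) + N) * a n - (∑ i, ∑ j, ‖(M i j).coeff 0‖) * a n := by ring
      linarith
    linarith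
  -- grouping by the degree
  obtain ⟨D, hD1, hD⟩ : ∃ D : ℕ, 1 ≤ D ∧ ∀ i, ∀ d ∈ (R i).support, ∑ k, d k ≤ D := by
    refine ⟨1 + ∑ i, ∑ d ∈ (R i).support, ∑ k, d k, by omega, fun i d hd => ?_⟩
    have h1 : ∑ k, d k ≤ ∑ d ∈ (R i).support, ∑ k, d k :=
      Finset.single_le_sum (f := fun d : κ →₀ ℕ => ∑ k, d k) (fun _ _ => Nat.zero_le _) hd
    have h2 : ∑ d ∈ (R i).support, ∑ k, d k ≤ ∑ i, ∑ d ∈ (R i).support, ∑ k, d k :=
      Finset.single_le_sum (f := fun i => ∑ d ∈ (R i).support, ∑ k, d k)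
        (fun _ _ => Nat.zero_le _) (Finset.mem_univ i)
    omega
  obtain ⟨g, hg⟩ : ∃ g : ℕ → ℕ → ℝ, g = fun (j n : ℕ) =>
    (∑ i, ∑ d ∈ (R i).support with ∑ k, d k = j, ‖((R i).coeff d).coeff (n : ℤ)‖) +
      if j = 1 then ∑ i, ∑ k, ‖(M' i k).coeff (n : ℤ)‖ else 0 := ⟨_, rfl⟩
  have hgmk : ∀ j, PowerSeries.mk (g j) =
      (∑ i, ∑ d ∈ (R i).support with ∑ k, d k = j, r i d) +
        if j = 1 then ∑ i, ∑ k, μ i k else 0 := by
    intro j
    ext n
    have e0 : PowerSeries.coeff n (PowerSeries.mk (g j)) =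
        (∑ i, ∑ d ∈ (R i).support with ∑ k, d k = j, ‖((R i).coeff d).coeff (n : ℤ)‖) +
          if j = 1 then ∑ i, ∑ k, ‖(M' i k).coeff (n : ℤ)‖ else 0 := by
      rw [PowerSeries.coeff_mk, hg]
    rw [e0, map_add, map_sum]
    congr 1
    · refine Finset.sum_congr rfl fun i _ => ?_
      rw [map_sum]
      refine Finset.sum_congr rfl fun d _ => ?_
      rw [hr, PowerSeries.coeff_mk]
    · by_cases hj : j = 1
      · rw [if_pos hj, if_pos hj, map_sum]
        refine Finset.sum_congr rfl fun i _ => ?_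
        rw [map_sum]
        refine Finset.sum_congr rfl fun k _ => ?_
        rw [hμ, PowerSeries.coeff_mk]
      · rw [if_neg hj, if_neg hj, map_zero]
  have hkey : ∑ j ∈ Finset.range (D + 1), PowerSeries.mk (g j) * u ^ j =
      ∑ i, ((∑ d ∈ (R i).support, r i d * u ^ (∑ k, d k)) + ∑ j, μ i j * u) := by
    have e1 : ∀ j ∈ Finset.range (D + 1), PowerSeries.mk (g j) * u ^ j =
        (∑ i, ∑ d ∈ (R i).support with ∑ k, d k = j, r i d * u ^ (∑ k, d k)) +
          if j = 1 then ∑ i, ∑ k, μ i k * u else 0 := by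
      intro j _
      rw [hgmk, add_mul]
      congr 1
      · rw [Finset.sum_mul]
        refine Finset.sum_congr rfl fun i _ => ?_
        rw [Finset.sum_mul]
        refine Finset.sum_congr rfl fun d hd => ?_
        rw [(Finset.mem_filter.1 hd).2]
      · by_cases hj : j = 1
        · rw [if_pos hj, if_pos hj, hj, pow_one, Finset.sum_mul]
          refine Finset.sum_congr rfl fun i _ => ?_
          rw [Finset.sum_mul]
        · rw [if_neg hj, if_neg hj, zero_mul]
    rw [Finset.sum_congr rfl e1, Finset.sum_add_distrib, Finset.sum_comm,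
      Finset.sum_ite_eq' (Finset.range (D + 1)) 1, if_pos (Finset.mem_range.2 (by omega)),
      Finset.sum_add_distrib]
    congr 1
    refine Finset.sum_congr rfl fun i _ => ?_
    exact Finset.sum_fiberwise_of_maps_to (g := fun d : κ →₀ ℕ => ∑ k, d k)
      (fun d hd => Finset.mem_range.2 (Nat.lt_succ_of_le (hD i d hd))) _
  -- the common radius
  obtain ⟨ρ, hρ, hρs⟩ := Cv.common (ι := (κ × κ) ⊕ (Σ i : κ, (R i).support))
    (f := Sum.elim (fun q => M' q.1 q.2) fun q => (R q.1).coeff q.2.1) (by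
      rintro (q | q)
      · exact hM'c q.1 q.2
      · exact hR q.1 q.2.1)
  have hgs : ∀ j ≤ D, Summable fun n => g j n * ρ ^ n := by
    intro j _
    have e1 : (fun n => g j n * ρ ^ n) = fun n : ℕ =>
        (∑ i, ∑ d ∈ (R i).support with ∑ k, d k = j,
          ‖((R i).coeff d).coeff (n : ℤ)‖ * ρ ^ n) +
          if j = 1 then ∑ i, ∑ k, ‖(M' i k).coeff (n : ℤ)‖ * ρ ^ n else 0 := by
      funext n
      rw [hg]
      simp only
      rw [add_mul]
      congr 1
      · rw [Finset.sum_mul]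
        refine Finset.sum_congr rfl fun i _ => ?_
        rw [Finset.sum_mul]
      · by_cases hj : j = 1
        · rw [if_pos hj, if_pos hj, Finset.sum_mul]
          refine Finset.sum_congr rfl fun i _ => ?_
          rw [Finset.sum_mul]
        · rw [if_neg hj, if_neg hj, zero_mul]
    rw [e1]
    refine Summable.add ?_ ?_
    · refine summable_sum fun i _ => summable_sum fun d hd => ?_
      exact l7_nat (hρs (Sum.inr ⟨i, d, (Finset.mem_filter.1 hd).1⟩))
    · by_cases hj : j = 1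
      · simp only [if_pos hj]
        refine summable_sum fun i _ => summable_sum fun k _ => ?_
        exact l7_nat (hρs (Sum.inl (i, k)))
      · simp only [if_neg hj]
        exact summable_zero
  have hg0 : ∀ j n, 0 ≤ g j n := by
    intro j n
    rw [hg]
    refine add_nonneg (Finset.sum_nonneg fun i _ => Finset.sum_nonneg fun d _ => norm_nonneg _) ?_
    split_ifs
    · exact Finset.sum_nonneg fun i _ => Finset.sum_nonneg fun d _ => norm_nonneg _
    · exact le_rfl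
  have hgz : ∀ j, 1 ≤ j → g j 0 = 0 := by
    intro j _
    rw [hg]
    simp only
    have e1 : ∀ i d, ((R i).coeff d).coeff ((0 : ℕ) : ℤ) = 0 := fun i d =>
      hR1 i d _ (by norm_num)
    have e2 : ∀ i k, (M' i k).coeff ((0 : ℕ) : ℤ) = 0 := fun i k => hM'0 i k
    simp only [e1, e2, norm_zero, Finset.sum_const_zero, ite_self, add_zero]
  obtain ⟨ρ', hρ', -, hs⟩ := majorant D g hg0 hρ hgs hgz a ha0 (by
    intro n
    refine (hineq n).trans (le_of_eq ?_)
    rw [← map_sum, ← hkey, map_sum, hu])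
  intro i
  refine ⟨ρ', hρ', l7_lsum (hU i) ?_⟩
  refine Summable.of_nonneg_of_le (fun n => mul_nonneg (norm_nonneg _) (pow_nonneg hρ'.le n))
    (fun n => mul_le_mul_of_nonneg_right ?_ (pow_nonneg hρ'.le n)) hs
  rw [ha]
  exact Finset.single_le_sum (f := fun i => ‖(U i).coeff (n : ℤ)‖)
    (fun i _ => norm_nonneg _) (Finset.mem_univ i)

/-! ### module l8: Malgrange's reduction -/

/-- the Jacobian matrix along `V` -/
noncomputable def Jac (Fv : κ → MvPolynomial κ K) (V : κ → K) : Matrix κ κ K :=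
  fun i j => MvPolynomial.eval V (MvPolynomial.pderiv j (Fv i))

set_option linter.unusedSectionVars false

/-- all coefficients have order `≥ c` -/
def l8_PV (c : ℝ) (Φ : MvPolynomial κ K) : Prop := ∀ m, Vge c (Φ.coeff m)

lemma l8_PV.mono {c c' : ℝ} {Φ : MvPolynomial κ K} (h : l8_PV c Φ) (hc : c' ≤ c) : l8_PV c' Φ :=
  fun m => (h m).mono hc

lemma l8_PV.add {c : ℝ} {Φ Ψ : MvPolynomial κ K} (h : l8_PV c Φ) (h' : l8_PV c Ψ) :
    l8_PV c (Φ + Ψ) := fun m => by
  rw [MvPolynomial.coeff_add]; exact (h m).add (h' m)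

lemma l8_PV.sub {c : ℝ} {Φ Ψ : MvPolynomial κ K} (h : l8_PV c Φ) (h' : l8_PV c Ψ) :
    l8_PV c (Φ - Ψ) := fun m => by
  rw [MvPolynomial.coeff_sub]; exact (h m).sub (h' m)

lemma l8_PV.sum {ι : Type} {s : Finset ι} {c : ℝ} {Φ : ι → MvPolynomial κ K}
    (h : ∀ i ∈ s, l8_PV c (Φ i)) : l8_PV c (∑ i ∈ s, Φ i) := fun m => by
  rw [MvPolynomial.coeff_sum]; exact Vge.sum fun i hi => h i hi m

lemma l8_PV.mul {c c' : ℝ} {Φ Ψ : MvPolynomial κ K} (h : l8_PV c Φ) (h' : l8_PV c' Ψ) :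
    l8_PV (c + c') (Φ * Ψ) := fun m => by
  rw [MvPolynomial.coeff_mul]
  exact Vge.sum fun x _ => (h _).mul (h' _)

lemma l8_PV.C {c : ℝ} {a : K} (h : Vge c a) :
    l8_PV c (MvPolynomial.C a : MvPolynomial κ K) := fun m => by
  rw [MvPolynomial.coeff_C]
  split_ifs
  · exact h
  · exact Vge.zero c

lemma l8_PV.X (a : κ) : l8_PV 0 (MvPolynomial.X a : MvPolynomial κ K) := fun m => by
  rw [MvPolynomial.coeff_X]
  split_ifs
  · exact Vge.one
  · exact Vge.zero 0

/-- all coefficients converge -/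
def l8_PC (Φ : MvPolynomial κ K) : Prop := ∀ m, Cv (Φ.coeff m)

lemma l8_PC.add {Φ Ψ : MvPolynomial κ K} (h : l8_PC Φ) (h' : l8_PC Ψ) :
    l8_PC (Φ + Ψ) := fun m => by
  rw [MvPolynomial.coeff_add]; exact (h m).add (h' m)

lemma l8_PC.sub {Φ Ψ : MvPolynomial κ K} (h : l8_PC Φ) (h' : l8_PC Ψ) :
    l8_PC (Φ - Ψ) := fun m => by
  rw [MvPolynomial.coeff_sub]; exact (h m).sub (h' m)

lemma l8_PC.sum {ι : Type} {s : Finset ι} {Φ : ι → MvPolynomial κ K}
    (h : ∀ i ∈ s, l8_PC (Φ i)) : l8_PC (∑ i ∈ s, Φ i) := fun m => by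
  rw [MvPolynomial.coeff_sum]; exact Cv.sum fun i hi => h i hi m

lemma l8_PC.mul {Φ Ψ : MvPolynomial κ K} (h : l8_PC Φ) (h' : l8_PC Ψ) :
    l8_PC (Φ * Ψ) := fun m => by
  rw [MvPolynomial.coeff_mul]
  exact Cv.sum fun x _ => (h _).mul (h' _)

lemma l8_PC.C {a : K} (h : Cv a) : l8_PC (MvPolynomial.C a : MvPolynomial κ K) := fun m => by
  rw [MvPolynomial.coeff_C]
  split_ifs
  · exact h
  · exact Cv.zero

lemma l8_PC.X (a : κ) : l8_PC (MvPolynomial.X a : MvPolynomial κ K) := fun m => by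
  rw [MvPolynomial.coeff_X]
  split_ifs
  · exact Cv.one
  · exact Cv.zero

lemma l8_PC.one : l8_PC (1 : MvPolynomial κ K) := by
  rw [← MvPolynomial.C_1]; exact l8_PC.C Cv.one

lemma l8_PC.pow {Φ : MvPolynomial κ K} (h : l8_PC Φ) (n : ℕ) : l8_PC (Φ ^ n) := by
  induction n with
  | zero => rw [pow_zero]; exact l8_PC.one
  | succ n ih => rw [pow_succ]; exact ih.mul h

lemma l8_PC.prod {ι : Type} (s : Finset ι) {Φ : ι → MvPolynomial κ K}
    (h : ∀ i ∈ s, l8_PC (Φ i)) : l8_PC (∏ i ∈ s, Φ i) := by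
  classical
  induction s using Finset.induction_on with
  | empty => rw [Finset.prod_empty]; exact l8_PC.one
  | insert a s ha ih =>
    rw [Finset.prod_insert ha]
    exact (h a (Finset.mem_insert_self a s)).mul
      (ih fun i hi => h i (Finset.mem_insert_of_mem hi))

lemma l8_PC.aeval {F : MvPolynomial κ K} (hF : l8_PC F) {g : κ → MvPolynomial κ K}
    (hg : ∀ a, l8_PC (g a)) : l8_PC (MvPolynomial.aeval g F) := by
  rw [MvPolynomial.aeval_def, MvPolynomial.eval₂_eq']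
  refine l8_PC.sum fun m _ => ?_
  exact (l8_PC.C (hF m)).mul (l8_PC.prod _ fun i _ => (hg i).pow _)

lemma l8_Cv_eval {F : MvPolynomial κ K} (hF : l8_PC F) {V : κ → K} (hV : ∀ i, Cv (V i)) :
    Cv (MvPolynomial.eval V F) := by
  rw [MvPolynomial.eval_eq']
  exact Cv.sum fun m _ => (hF m).mul (Cv.prod fun i _ => (hV i).pow _)

lemma l8_Cv_natCast (n : ℕ) : Cv ((n : ℕ) : K) := by
  have h : ((n : ℕ) : K) = LS.single 0 (n : ℂ) := by
    rw [← LS.C_apply, map_natCast]
  rw [h]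
  exact Cv.single 0 _

lemma l8_PC.pderiv {F : MvPolynomial κ K} (hF : l8_PC F) (j : κ) :
    l8_PC (MvPolynomial.pderiv j F) := fun m => by
  rw [MvPolynomial.coeff_pderiv]
  have h : ((m j : ℕ) : K) + 1 = ((m j + 1 : ℕ) : K) := by push_cast; rfl
  rw [h]
  exact (hF _).mul (l8_Cv_natCast _)

lemma l8_nat_bound (c : ℝ) : ∃ N : ℕ, -(N : ℝ) ≤ c := by
  obtain ⟨N, hN⟩ := exists_nat_ge (-c)
  exact ⟨N, by linarith⟩

lemma l8_bound_one (F : MvPolynomial κ K) : ∃ N : ℕ, l8_PV (-(N : ℝ)) F := by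
  induction F using MvPolynomial.induction_on' with
  | add p q hp hq =>
    obtain ⟨N, hN⟩ := hp
    obtain ⟨N', hN'⟩ := hq
    refine ⟨N + N', (hN.mono ?_).add (hN'.mono ?_)⟩
    · push_cast
      have : (0 : ℝ) ≤ N' := Nat.cast_nonneg _
      linarith
    · push_cast
      have : (0 : ℝ) ≤ N := Nat.cast_nonneg _
      linarith
  | monomial n a =>
    obtain ⟨c, hc⟩ := exists_Vge a
    obtain ⟨N, hN⟩ := l8_nat_bound c
    refine ⟨N, fun m => ?_⟩
    rw [MvPolynomial.coeff_monomial]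
    split_ifs
    · exact hc.mono hN
    · exact Vge.zero _

lemma l8_bound {ι : Type} [Finite ι] (F : ι → MvPolynomial κ K) :
    ∃ N : ℕ, ∀ i, l8_PV (-(N : ℝ)) (F i) := by
  choose N hN using fun i => l8_bound_one (F i)
  obtain ⟨M, hM⟩ := Finite.exists_le N
  refine ⟨M, fun i => (hN i).mono ?_⟩
  have : (N i : ℝ) ≤ M := by exact_mod_cast hM i
  linarith

lemma l8_mat_bound (P : Matrix κ κ K) : ∃ N : ℕ, MVge (-(N : ℝ)) P := by
  obtain ⟨c, hc⟩ := exists_MVge P
  obtain ⟨N, hN⟩ := l8_nat_bound c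
  exact ⟨N, hc.mono hN⟩

lemma l8_pow_sub {a b : K} {N : ℝ} (ha : Vge 0 a) (hb : Vge 0 b) (h : Vge N (a - b)) (n : ℕ) :
    Vge N (a ^ n - b ^ n) := by
  induction n with
  | zero => rw [pow_zero, pow_zero, sub_self]; exact Vge.zero N
  | succ n ih =>
    have e : a ^ (n + 1) - b ^ (n + 1) = a ^ n * (a - b) + b * (a ^ n - b ^ n) := by ring
    rw [e]
    exact ((ha.pow0 n).mul0 h).add (hb.mul0 ih)

lemma l8_prod_sub (s : Finset κ) {a b : κ → K} {N : ℝ} (ha : ∀ i, Vge 0 (a i))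
    (hb : ∀ i, Vge 0 (b i)) (h : ∀ i, Vge N (a i - b i)) :
    Vge N (∏ i ∈ s, a i - ∏ i ∈ s, b i) := by
  induction s using Finset.induction_on with
  | empty => rw [Finset.prod_empty, Finset.prod_empty, sub_self]; exact Vge.zero N
  | insert x s hx ih =>
    rw [Finset.prod_insert hx, Finset.prod_insert hx]
    have e : a x * ∏ i ∈ s, a i - b x * ∏ i ∈ s, b i
        = (∏ i ∈ s, a i) * (a x - b x) + b x * (∏ i ∈ s, a i - ∏ i ∈ s, b i) := by ring
    rw [e]
    exact ((Vge.prod0 fun i _ => ha i).mul0 (h x)).add ((hb x).mul0 ih)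

lemma l8_eval {c : ℝ} {F : MvPolynomial κ K} (hF : l8_PV c F) {V : κ → K}
    (hV : ∀ i, Vge 0 (V i)) : Vge c (MvPolynomial.eval V F) := by
  rw [MvPolynomial.eval_eq']
  refine Vge.sum fun m _ => ?_
  have := (hF m).mul (Vge.prod0 (s := Finset.univ) fun i _ => (hV i).pow0 (m i))
  rwa [add_zero] at this

lemma l8_eval_sub {c N : ℝ} {F : MvPolynomial κ K} (hF : l8_PV c F) {V V' : κ → K}
    (hV : ∀ i, Vge 0 (V i)) (hV' : ∀ i, Vge 0 (V' i)) (h : ∀ i, Vge N (V i - V' i)) :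
    Vge (c + N) (MvPolynomial.eval V F - MvPolynomial.eval V' F) := by
  rw [MvPolynomial.eval_eq', MvPolynomial.eval_eq', ← Finset.sum_sub_distrib]
  refine Vge.sum fun m _ => ?_
  rw [← mul_sub]
  exact (hF m).mul (l8_prod_sub _ (fun i => (hV i).pow0 _) (fun i => (hV' i).pow0 _)
    fun i => l8_pow_sub (hV i) (hV' i) (h i) _)

/-- the linear part -/
noncomputable def l8_D (V₀ : κ → K) (S : κ → MvPolynomial κ K) (F : MvPolynomial κ K) :
    MvPolynomial κ K :=
  ∑ a, MvPolynomial.C (MvPolynomial.eval V₀ (MvPolynomial.pderiv a F)) * S a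

/-- the Taylor expansion without constant and linear part -/
noncomputable def l8_H (V₀ : κ → K) (S : κ → MvPolynomial κ K) (F : MvPolynomial κ K) :
    MvPolynomial κ K :=
  MvPolynomial.aeval (fun a => MvPolynomial.C (V₀ a) + S a) F
    - MvPolynomial.C (MvPolynomial.eval V₀ F) - l8_D V₀ S F

lemma l8_D_mul (V₀ : κ → K) (S : κ → MvPolynomial κ K) (F G : MvPolynomial κ K) :
    l8_D V₀ S (F * G) = MvPolynomial.C (MvPolynomial.eval V₀ F) * l8_D V₀ S G
      + l8_D V₀ S F * MvPolynomial.C (MvPolynomial.eval V₀ G) := by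
  rw [l8_D, l8_D, l8_D, Finset.mul_sum, Finset.sum_mul, ← Finset.sum_add_distrib]
  refine Finset.sum_congr rfl fun a _ => ?_
  rw [MvPolynomial.pderiv_mul, map_add, map_mul, map_mul, map_add, map_mul, map_mul]
  ring

lemma l8_D_add (V₀ : κ → K) (S : κ → MvPolynomial κ K) (F G : MvPolynomial κ K) :
    l8_D V₀ S (F + G) = l8_D V₀ S F + l8_D V₀ S G := by
  rw [l8_D, l8_D, l8_D, ← Finset.sum_add_distrib]
  refine Finset.sum_congr rfl fun a _ => ?_
  rw [map_add, map_add, map_add]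
  ring

lemma l8_H_add (V₀ : κ → K) (S : κ → MvPolynomial κ K) (F G : MvPolynomial κ K) :
    l8_H V₀ S (F + G) = l8_H V₀ S F + l8_H V₀ S G := by
  rw [l8_H, l8_H, l8_H, l8_D_add, map_add, map_add, map_add]
  ring

lemma l8_D_C (V₀ : κ → K) (S : κ → MvPolynomial κ K) (a : K) :
    l8_D V₀ S (MvPolynomial.C a) = 0 := by
  rw [l8_D]
  refine Finset.sum_eq_zero fun b _ => ?_
  rw [MvPolynomial.pderiv_C, map_zero, map_zero, zero_mul]

lemma l8_H_C (V₀ : κ → K) (S : κ → MvPolynomial κ K) (a : K) :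
    l8_H V₀ S (MvPolynomial.C a) = 0 := by
  rw [l8_H, l8_D_C, MvPolynomial.aeval_C, MvPolynomial.eval_C, sub_zero]
  exact sub_self _

lemma l8_H_C_mul (V₀ : κ → K) (S : κ → MvPolynomial κ K) (a : K) (F : MvPolynomial κ K) :
    l8_H V₀ S (MvPolynomial.C a * F) = MvPolynomial.C a * l8_H V₀ S F := by
  have h := l8_D_mul V₀ S (MvPolynomial.C a) F
  rw [l8_D_C, zero_mul, add_zero, MvPolynomial.eval_C] at h
  rw [l8_H, l8_H, h, map_mul, map_mul, map_mul, MvPolynomial.aeval_C, MvPolynomial.eval_C]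
  have e : (algebraMap K (MvPolynomial κ K)) a = MvPolynomial.C a := rfl
  rw [e]
  ring

/-- the estimates for a monomial -/
def l8_Good (V₀ : κ → K) (S : κ → MvPolynomial κ K) (w : ℝ) (F : MvPolynomial κ K) : Prop :=
  Vge 0 (MvPolynomial.eval V₀ F) ∧ l8_PV w (l8_D V₀ S F) ∧ l8_PV (2 * w) (l8_H V₀ S F)

lemma l8_Good.one (V₀ : κ → K) (S : κ → MvPolynomial κ K) (w : ℝ) :
    l8_Good V₀ S w (1 : MvPolynomial κ K) := by
  have h0 : ∀ c : ℝ, l8_PV c (0 : MvPolynomial κ K) := fun c m => by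
    rw [MvPolynomial.coeff_zero]; exact Vge.zero c
  rw [← MvPolynomial.C_1]
  refine ⟨?_, ?_, ?_⟩
  · rw [MvPolynomial.eval_C]; exact Vge.one
  · rw [l8_D_C]; exact h0 _
  · rw [l8_H_C]; exact h0 _

lemma l8_Good.mul {V₀ : κ → K} {S : κ → MvPolynomial κ K} {w : ℝ} (hw : 0 ≤ w)
    {F G : MvPolynomial κ K} (hF : l8_Good V₀ S w F) (hG : l8_Good V₀ S w G) :
    l8_Good V₀ S w (F * G) := by
  obtain ⟨f0, f1, f2⟩ := hF
  obtain ⟨g0, g1, g2⟩ := hG
  have F0 : l8_PV 0 (MvPolynomial.C (MvPolynomial.eval V₀ F) : MvPolynomial κ K) := l8_PV.C f0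
  have G0 : l8_PV 0 (MvPolynomial.C (MvPolynomial.eval V₀ G) : MvPolynomial κ K) := l8_PV.C g0
  refine ⟨?_, ?_, ?_⟩
  · rw [map_mul]; exact f0.mul0 g0
  · rw [l8_D_mul]
    refine l8_PV.add ?_ ?_
    · have := F0.mul g1; rwa [zero_add] at this
    · have := f1.mul G0; rwa [add_zero] at this
  · have e : l8_H V₀ S (F * G) = l8_D V₀ S F * l8_D V₀ S G
        + (MvPolynomial.C (MvPolynomial.eval V₀ F) + l8_D V₀ S F) * l8_H V₀ S G
        + l8_H V₀ S F * (MvPolynomial.C (MvPolynomial.eval V₀ G) + l8_D V₀ S G + l8_H V₀ S G) := by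
      rw [l8_H, l8_D_mul, map_mul, map_mul, map_mul]
      rw [l8_H, l8_H]
      ring
    rw [e]
    have h1 := f1.mul g1
    have h2 := (F0.add (f1.mono hw)).mul g2
    have h3 := f2.mul ((G0.add (g1.mono hw)).add (g2.mono (by linarith : (0 : ℝ) ≤ 2 * w)))
    rw [zero_add] at h2
    rw [add_zero] at h3
    refine ((h1.mono ?_).add h2).add h3
    linarith

lemma l8_Good.X {V₀ : κ → K} (hV₀ : ∀ i, Vge 0 (V₀ i)) {S : κ → MvPolynomial κ K} {w : ℝ}
    (hS : ∀ a, l8_PV w (S a)) (b : κ) : l8_Good V₀ S w (MvPolynomial.X b) := by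
  have hD : l8_D V₀ S (MvPolynomial.X b) = S b := by
    rw [l8_D, Finset.sum_eq_single b]
    · rw [MvPolynomial.pderiv_X_self, map_one, map_one, one_mul]
    · intro a _ hab
      rw [MvPolynomial.pderiv_X_of_ne (fun h => hab h.symm), map_zero, map_zero, zero_mul]
    · intro h; exact absurd (Finset.mem_univ b) h
  refine ⟨?_, ?_, ?_⟩
  · rw [MvPolynomial.eval_X]; exact hV₀ b
  · rw [hD]; exact hS b
  · rw [l8_H, hD, MvPolynomial.aeval_X, MvPolynomial.eval_X]
    have e : MvPolynomial.C (V₀ b) + S b - MvPolynomial.C (V₀ b) - S b = 0 := by ring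
    rw [e]
    intro m
    rw [MvPolynomial.coeff_zero]; exact Vge.zero _

lemma l8_Good.monomial {V₀ : κ → K} (hV₀ : ∀ i, Vge 0 (V₀ i)) {S : κ → MvPolynomial κ K} {w : ℝ}
    (hw : 0 ≤ w) (hS : ∀ a, l8_PV w (S a)) (m : κ →₀ ℕ) :
    l8_Good V₀ S w (MvPolynomial.monomial m 1) := by
  have hX : ∀ (b : κ) (n : ℕ), l8_Good V₀ S w (MvPolynomial.X b ^ n) := by
    intro b n
    induction n with
    | zero => rw [pow_zero]; exact l8_Good.one V₀ S w
    | succ n ih => rw [pow_succ]; exact ih.mul hw (l8_Good.X hV₀ hS b)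
  have hP : ∀ s : Finset κ, l8_Good V₀ S w (∏ b ∈ s, MvPolynomial.X b ^ m b) := by
    intro s
    induction s using Finset.induction_on with
    | empty => rw [Finset.prod_empty]; exact l8_Good.one V₀ S w
    | insert x s hx ih => rw [Finset.prod_insert hx]; exact (hX x _).mul hw ih
  rw [MvPolynomial.monomial_eq, MvPolynomial.C_1, one_mul, Finsupp.prod]
  exact hP _

lemma l8_H_bound {V₀ : κ → K} (hV₀ : ∀ i, Vge 0 (V₀ i)) {S : κ → MvPolynomial κ K} {w : ℝ}
    (hw : 0 ≤ w) (hS : ∀ a, l8_PV w (S a)) {c : ℝ} {F : MvPolynomial κ K} (hF : l8_PV c F) :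
    l8_PV (c + 2 * w) (l8_H V₀ S F) := by
  have h0 : l8_H V₀ S 0 = 0 := by
    rw [← MvPolynomial.C_0]; exact (l8_H_C V₀ S 0).trans MvPolynomial.C_0.symm
  let Hh : MvPolynomial κ K →+ MvPolynomial κ K := ⟨⟨l8_H V₀ S, h0⟩, l8_H_add V₀ S⟩
  have e : l8_H V₀ S F = ∑ m ∈ F.support,
      MvPolynomial.C (F.coeff m) * l8_H V₀ S (MvPolynomial.monomial m 1) := by
    have e1 : F = ∑ m ∈ F.support, MvPolynomial.C (F.coeff m) * MvPolynomial.monomial m 1 := by
      conv_lhs => rw [F.as_sum]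
      refine Finset.sum_congr rfl fun m _ => ?_
      rw [MvPolynomial.C_mul_monomial, mul_one]
    have e2 : l8_H V₀ S F = Hh F := rfl
    rw [e2]
    conv_lhs => rw [e1]
    rw [map_sum]
    refine Finset.sum_congr rfl fun m _ => ?_
    exact l8_H_C_mul V₀ S _ _
  rw [e]
  exact l8_PV.sum fun m _ => (l8_PV.C (hF m)).mul (l8_Good.monomial hV₀ hw hS m).2.2

lemma l8_H_PC {V₀ : κ → K} (hV₀ : ∀ i, Cv (V₀ i)) {S : κ → MvPolynomial κ K}
    (hS : ∀ a, l8_PC (S a)) {F : MvPolynomial κ K} (hF : l8_PC F) : l8_PC (l8_H V₀ S F) := by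
  refine ((hF.aeval fun a => (l8_PC.C (hV₀ a)).add (hS a)).sub
    (l8_PC.C (l8_Cv_eval hF hV₀))).sub ?_
  exact l8_PC.sum fun a _ => (l8_PC.C (l8_Cv_eval (hF.pderiv a) hV₀)).mul (hS a)

lemma l8_eval_aeval (U : κ → K) (g : κ → MvPolynomial κ K) (F : MvPolynomial κ K) :
    MvPolynomial.eval U (MvPolynomial.aeval g F)
      = MvPolynomial.eval (fun a => MvPolynomial.eval U (g a)) F := by
  conv_rhs => rw [MvPolynomial.eval_eq']
  rw [MvPolynomial.aeval_def, MvPolynomial.eval₂_eq', map_sum]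
  refine Finset.sum_congr rfl fun m _ => ?_
  rw [map_mul, map_prod]
  have e : MvPolynomial.eval U ((algebraMap K (MvPolynomial κ K)) (F.coeff m)) = F.coeff m :=
    MvPolynomial.eval_C _
  rw [e]
  congr 1
  exact Finset.prod_congr rfl fun i _ => map_pow _ _ _

lemma l8_eval_H (U V₀ W : κ → K) (S : κ → MvPolynomial κ K)
    (hW : ∀ a, MvPolynomial.eval U (S a) = W a) (F : MvPolynomial κ K) :
    MvPolynomial.eval U (l8_H V₀ S F) = MvPolynomial.eval (fun a => V₀ a + W a) F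
      - MvPolynomial.eval V₀ F
      - ∑ a, MvPolynomial.eval V₀ (MvPolynomial.pderiv a F) * W a := by
  have e1 : (fun a => MvPolynomial.eval U (MvPolynomial.C (V₀ a) + S a))
      = fun a => V₀ a + W a := by
    funext a
    rw [map_add, MvPolynomial.eval_C, hW]
  have e2 : MvPolynomial.eval U (l8_D V₀ S F)
      = ∑ a, MvPolynomial.eval V₀ (MvPolynomial.pderiv a F) * W a := by
    rw [l8_D, map_sum]
    refine Finset.sum_congr rfl fun a _ => ?_
    rw [map_mul, MvPolynomial.eval_C, hW]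
  rw [l8_H, map_sub, map_sub, l8_eval_aeval, MvPolynomial.eval_C, e1, e2]

lemma l8_zd_mulVec (P : Matrix κ κ K) (U : κ → K) (i : κ) :
    zd (P.mulVec U i) = (P.map zd).mulVec U i + P.mulVec (fun j => zd (U j)) i := by
  rw [Matrix.mulVec, Matrix.mulVec, Matrix.mulVec, dotProduct, dotProduct, dotProduct, map_sum,
    ← Finset.sum_add_distrib]
  refine Finset.sum_congr rfl fun j _ => ?_
  rw [zd.leib]
  rfl

theorem malgrange_reduction (Fv : κ → MvPolynomial κ K) (hF : ∀ i m, Cv ((Fv i).coeff m))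
    (V : κ → K) (hV0 : ∀ i, Vge 0 (V i)) (hV : ∀ i, zd (V i) = MvPolynomial.eval V (Fv i))
    (hreg : Rg (-Jac Fv V)) :
    ∃ (M P : Matrix κ κ K) (N : ℕ) (R : κ → MvPolynomial κ K) (U V₀ : κ → K),
      MVge 0 M ∧ (∀ i j, Cv (M i j)) ∧ (∑ i, ∑ j, ‖(M i j).coeff 0‖) + 1 ≤ N ∧
      (∀ i m, Cv ((R i).coeff m)) ∧ (∀ i m, Vge 1 ((R i).coeff m)) ∧ (∀ i, Vge 0 (U i)) ∧
      (∀ i, zd (U i) + (N : K) * U i + M.mulVec U i = MvPolynomial.eval U (R i)) ∧
      (∀ i j, Cv (P i j)) ∧ (∀ i, Cv (V₀ i)) ∧ ∀ i, V i = V₀ i + P.mulVec U i := by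
  obtain ⟨P, Q, hPQ, hPc, hQc, hint⟩ := hreg.conv
  have hQP : Q * P = 1 := mul_eq_one_comm.1 hPQ
  obtain ⟨cp, hcp⟩ := l8_mat_bound P
  obtain ⟨cq, hcq⟩ := l8_mat_bound Q
  obtain ⟨cf, hcf⟩ := l8_bound Fv
  obtain ⟨cj, hcj⟩ := l8_bound fun p : κ × κ => MvPolynomial.pderiv p.2 (Fv p.1)
  obtain ⟨n0, hn0⟩ := exists_nat_ge
    ((∑ i, ∑ j, ‖((Q * (P.map zd + -Jac Fv V * P)) i j).coeff 0‖) + 1)
  obtain ⟨N₃, hN₃a, hN₃b⟩ : ∃ N₃ : ℕ, n0 ≤ N₃ ∧ 1 + 2 * cp + cf + cq ≤ N₃ :=
    ⟨n0 + (1 + 2 * cp + cf + cq), by omega, by omega⟩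
  obtain ⟨N₁, hN₁⟩ : ∃ N₁ : ℕ, N₃ + cq + cf + cj + cp + 1 ≤ N₁ := ⟨_, le_rfl⟩
  have hN₃b' : (1 : ℝ) + 2 * cp + cf + cq ≤ N₃ := by exact_mod_cast hN₃b
  have hN₁' : (N₃ : ℝ) + cq + cf + cj + cp + 1 ≤ N₁ := by exact_mod_cast hN₁
  have cp0 : (0 : ℝ) ≤ cp := Nat.cast_nonneg _
  have cq0 : (0 : ℝ) ≤ cq := Nat.cast_nonneg _
  have cf0 : (0 : ℝ) ≤ cf := Nat.cast_nonneg _
  have cj0 : (0 : ℝ) ≤ cj := Nat.cast_nonneg _
  have N30 : (0 : ℝ) ≤ N₃ := Nat.cast_nonneg _
  choose V₀ hV₁ hV₂ hV₃ using fun i => exists_trunc (V i) (N₁ : ℤ)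
  have hV₃' : ∀ i, Vge (N₁ : ℝ) (V i - V₀ i) := fun i => by
    have := hV₃ i
    rwa [Int.cast_natCast] at this
  have hV₀int : ∀ i, Vge 0 (V₀ i) := by
    intro i n hn
    have hn0 : n < 0 := by exact_mod_cast hn
    rw [hV₂ i n (by omega)]
    exact hV0 i n hn
  have hV₀c : ∀ i, Cv (V₀ i) := fun i => ⟨1, one_pos, Lsum_of_finite (N₁ : ℤ) (hV₁ i)⟩
  set s : K := LS.single (N₃ : ℤ) (1 : ℂ) with hs
  set t : K := LS.single (-(N₃ : ℤ)) (1 : ℂ) with ht
  have hts : t * s = 1 := by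
    rw [hs, ht, LS.single_mul_single, neg_add_cancel, mul_one, LS.single_zero_one]
  have hst : s * t = 1 := by rw [mul_comm, hts]
  have hsV : Vge (N₃ : ℝ) s := Vge.single (by rw [Int.cast_natCast]) 1
  have htV : Vge (-(N₃ : ℝ)) t := Vge.single (by rw [Int.cast_neg, Int.cast_natCast]) 1
  have hsc : Cv s := Cv.single _ _
  have htc : Cv t := Cv.single _ _
  -- the vectors
  set W : κ → K := fun i => V i - V₀ i with hWdef
  set U : κ → K := fun i => t * Q.mulVec W i with hUdef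
  have hPU : ∀ i, s * P.mulVec U i = W i := by
    have h1 : P.mulVec U = t • W := by
      have : U = t • Q.mulVec W := rfl
      rw [this, Matrix.mulVec_smul, Matrix.mulVec_mulVec, hPQ, Matrix.one_mulVec]
    intro i
    rw [h1, Pi.smul_apply, smul_eq_mul, ← mul_assoc, hst, one_mul]
  -- the matrices
  have hJ : MVge (-(cj : ℝ) + N₁) (Jac Fv V - Jac Fv V₀) := fun i j =>
    l8_eval_sub (hcj (i, j)) hV0 hV₀int hV₃'
  set M : Matrix κ κ K := Q * (P.map zd - Jac Fv V₀ * P) with hM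
  have hMe : M = Q * (P.map zd + -Jac Fv V * P) + Q * ((Jac Fv V - Jac Fv V₀) * P) := by
    rw [hM, ← mul_add]
    congr 1
    rw [sub_mul, neg_mul]
    abel
  have hM2 : MVge 1 (Q * ((Jac Fv V - Jac Fv V₀) * P)) := by
    refine (hcq.mul (hJ.mul hcp)).mono ?_
    linarith
  have hMint : MVge 0 M := by
    rw [hMe]
    exact hint.add (hM2.mono zero_le_one)
  have hMc : ∀ i j, Cv (M i j) := by
    intro i j
    rw [hM, Matrix.mul_apply]
    refine Cv.sum fun a _ => (hQc i a).mul ?_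
    rw [Matrix.sub_apply, Matrix.map_apply, Matrix.mul_apply]
    refine (hPc a j).zd.sub (Cv.sum fun b _ => Cv.mul ?_ (hPc b j))
    exact l8_Cv_eval (l8_PC.pderiv (hF a) b) hV₀c
  have hMN : (∑ i, ∑ j, ‖(M i j).coeff 0‖) + 1 ≤ (N₃ : ℝ) := by
    have e : ∀ i j, (M i j).coeff 0 = ((Q * (P.map zd + -Jac Fv V * P)) i j).coeff 0 := by
      intro i j
      rw [hMe, Matrix.add_apply, LS.coeff_add,
        hM2 i j 0 (by rw [Int.cast_zero]; exact one_pos), add_zero]
    simp only [e]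
    refine hn0.trans ?_
    exact_mod_cast hN₃a
  -- the polynomials
  set S : κ → MvPolynomial κ K :=
    fun a => ∑ b, MvPolynomial.C (s * P a b) * MvPolynomial.X b with hS
  have hSV : ∀ a, l8_PV ((N₃ : ℝ) - cp) (S a) := by
    intro a
    refine l8_PV.sum fun b _ => ?_
    have := (l8_PV.C (κ := κ) (hsV.mul (hcp a b))).mul (l8_PV.X b)
    refine this.mono ?_
    linarith
  have hSC : ∀ a, l8_PC (S a) := fun a =>
    l8_PC.sum fun b _ => (l8_PC.C (hsc.mul (hPc a b))).mul (l8_PC.X b)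
  have hSU : ∀ a, MvPolynomial.eval U (S a) = W a := by
    intro a
    rw [hS, map_sum, ← hPU a, Matrix.mulVec, dotProduct, Finset.mul_sum]
    refine Finset.sum_congr rfl fun b _ => ?_
    rw [map_mul, MvPolynomial.eval_C, MvPolynomial.eval_X, mul_assoc]
  have hw : 0 ≤ (N₃ : ℝ) - cp := by linarith
  set R : κ → MvPolynomial κ K := fun i => ∑ j, MvPolynomial.C (t * Q i j) *
    (l8_H V₀ S (Fv j) + MvPolynomial.C (MvPolynomial.eval V₀ (Fv j) - zd (V₀ j))) with hR
  have hRc : ∀ i, l8_PC (R i) := by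
    intro i
    refine l8_PC.sum fun j _ => (l8_PC.C (htc.mul (hQc i j))).mul ?_
    exact (l8_H_PC hV₀c hSC (hF j)).add (l8_PC.C ((l8_Cv_eval (hF j) hV₀c).sub (hV₀c j).zd))
  have hRV : ∀ i, l8_PV 1 (R i) := by
    intro i
    refine l8_PV.sum fun j _ => ?_
    rw [mul_add]
    refine l8_PV.add ?_ ?_
    · refine ((l8_PV.C (htV.mul (hcq i j))).mul (l8_H_bound hV₀int hw hSV (hcf j))).mono ?_
      linarith
    · have e : MvPolynomial.eval V₀ (Fv j) - zd (V₀ j)
          = zd (V j - V₀ j) - (MvPolynomial.eval V (Fv j) - MvPolynomial.eval V₀ (Fv j)) := by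
        rw [map_sub, hV j]; ring
      have h1 : Vge (-(cf : ℝ) + N₁) (MvPolynomial.eval V₀ (Fv j) - zd (V₀ j)) := by
        rw [e]
        refine Vge.sub ((hV₃' j).zd.mono ?_) (l8_eval_sub (hcf j) hV0 hV₀int hV₃')
        linarith
      refine ((l8_PV.C (htV.mul (hcq i j))).mul (l8_PV.C h1)).mono ?_
      linarith
  refine ⟨M, s • P, N₃, R, U, V₀, hMint, hMc, hMN, hRc, hRV, ?_, ?_, ?_, hV₀c, ?_⟩
  · intro i
    refine (htV.mul (hcq.mulVec hV₃' i)).mono ?_
    linarith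
  · -- the equation
    intro i
    have hcalc : MvPolynomial.eval U (R i) = t * Q.mulVec (fun j => zd (W j)
        - (Jac Fv V₀).mulVec W j) i := by
      rw [hR, map_sum, Matrix.mulVec, dotProduct, Finset.mul_sum]
      refine Finset.sum_congr rfl fun j _ => ?_
      have hVW : (fun a => V₀ a + W a) = V := by
        funext a; rw [hWdef]; ring
      rw [map_mul, map_add, MvPolynomial.eval_C, MvPolynomial.eval_C, l8_eval_H U V₀ W S hSU, hVW,
        ← hV j, mul_assoc]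
      congr 2
      have e1 : (Jac Fv V₀).mulVec W j
          = ∑ a, MvPolynomial.eval V₀ (MvPolynomial.pderiv a (Fv j)) * W a := rfl
      have e2 : zd (W j) = zd (V j) - zd (V₀ j) := map_sub _ _ _
      rw [e1, e2]
      ring
    have hzW : (fun j => zd (W j)) = s • ((N₃ : K) • P.mulVec U + (P.map zd).mulVec U
        + P.mulVec fun j => zd (U j)) := by
      funext j
      rw [← hPU j, zd.leib, l8_zd_mulVec, hs, zd_single]
      simp only [Pi.smul_apply, Pi.add_apply, smul_eq_mul, Int.cast_natCast]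
      ring
    have hJW : (fun j => (Jac Fv V₀).mulVec W j) = s • (Jac Fv V₀).mulVec (P.mulVec U) := by
      have : W = s • P.mulVec U := by funext j; exact (hPU j).symm
      rw [← Matrix.mulVec_smul, ← this]
    have hsub : (fun j => zd (W j) - (Jac Fv V₀).mulVec W j)
        = (fun j => zd (W j)) - fun j => (Jac Fv V₀).mulVec W j := rfl
    have hts' : ∀ x : K, t * (s * x) = x := fun x => by rw [← mul_assoc, hts, one_mul]
    rw [hcalc, hsub, hzW, hJW, ← smul_sub, Matrix.mulVec_smul, Pi.smul_apply, smul_eq_mul,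
      hts', Matrix.mulVec_sub, Matrix.mulVec_add, Matrix.mulVec_add,
      Matrix.mulVec_smul, Matrix.mulVec_mulVec, Matrix.mulVec_mulVec, Matrix.mulVec_mulVec,
      Matrix.mulVec_mulVec, Matrix.mulVec_mulVec, hQP, Matrix.one_mulVec, Matrix.one_mulVec, hM,
      mul_sub, Matrix.sub_mulVec]
    simp only [Pi.sub_apply, Pi.add_apply, Pi.smul_apply, smul_eq_mul, mul_assoc]
    ring
  · intro i j
    exact hsc.mul (hPc i j)
  · intro i
    rw [Matrix.smul_mulVec, Pi.smul_apply, smul_eq_mul, hPU i, hWdef]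
    ring

/-- MALGRANGE: a formal solution of a polynomial system with convergent coefficients converges if
the linearised equation is regular singular -/
theorem malgrange (Fv : κ → MvPolynomial κ K) (hF : ∀ i m, Cv ((Fv i).coeff m))
    (V : κ → K) (hV0 : ∀ i, Vge 0 (V i)) (hV : ∀ i, zd (V i) = MvPolynomial.eval V (Fv i))
    (hreg : Rg (-Jac Fv V)) (i : κ) : Cv (V i) := by
  obtain ⟨M, P, N, R, U, V₀, hM, hMc, hN, hR, hR1, hU, hUe, hP, hV₀, hVU⟩ :=
    malgrange_reduction Fv hF V hV0 hV hreg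
  have hUc := briot_bouquet M hM hMc N hN R hR hR1 U hU hUe
  rw [hVU]
  refine (hV₀ i).add ?_
  rw [Matrix.mulVec, dotProduct]
  exact Cv.sum fun j _ => (hP i j).mul (hUc j)

end Pool.Agent.Fbc
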