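import Pool.Agent.Fbc.Conn

/-!
# module w (helper99): the trace lemma (section 4)
-/

set_option autoImplicit false

namespace Pool.Agent.Fbc

section

variable {k : Type} [Field k]

/-- power series as Laurent series -/
private noncomputable def Star_ps : PowerSeries k →+* LS k :=
  (LS.toH (k := k)).symm.toRingHom.comp (HahnSeries.ofPowerSeries ℤ k)

private lemma Star_ps_nat (p : PowerSeries k) (n : ℕ) :
    (Star_ps p).coeff (n : ℤ) = PowerSeries.coeff n p :=
  HahnSeries.ofPowerSeries_apply_coeff p n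

private lemma Star_ps_neg (p : PowerSeries k) {n : ℤ} (h : n < 0) : (Star_ps p).coeff n = 0 := by
  change (HahnSeries.ofPowerSeries ℤ k p).coeff n = 0
  rw [HahnSeries.ofPowerSeries_apply]
  apply HahnSeries.embDomain_of_notMem_range
  rintro ⟨m, hm⟩
  have : (m : ℤ) = n := hm
  omega

private lemma Star_ps_Vge (p : PowerSeries k) : Vge 0 (Star_ps p) := fun n hn =>
  Star_ps_neg p (by exact_mod_cast hn)

private lemma Star_ps_surj {x : LS k} (hx : Vge 0 x) : ∃ p : PowerSeries k, Star_ps p = x := by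
  refine ⟨PowerSeries.mk (fun n => x.coeff (n : ℤ)), ?_⟩
  ext n
  rcases lt_or_ge n 0 with h | h
  · rw [Star_ps_neg _ h, hx n (by exact_mod_cast h)]
  · obtain ⟨m, rfl⟩ := Int.eq_ofNat_of_zero_le h
    rw [Star_ps_nat, PowerSeries.coeff_mk]

private lemma Star_ps_inj : Function.Injective (Star_ps : PowerSeries k → LS k) :=
  HahnSeries.ofPowerSeries_injective (Γ := ℤ) (R := k)

/-- THE LATTICE BASIS THEOREM (used again in section 8): a bounded additive subgroup of
`k((z))^ι`, stable under multiplication by integral scalars and containing the standard basis, is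
free: `L = P · k[[z]]^ι` -/
theorem lattice_basis {ι : Type} [Fintype ι] [DecidableEq ι] (L : AddSubgroup (ι → LS k))
    (hsmul : ∀ (x : LS k) (v : ι → LS k), Vge 0 x → v ∈ L → x • v ∈ L)
    (hstd : ∀ j, Pi.single j 1 ∈ L) (C : ℝ) (hb : ∀ v ∈ L, VVge C v) :
    ∃ P Q : Matrix ι ι (LS k), P * Q = 1 ∧ Q * P = 1 ∧ ∀ v, v ∈ L ↔ VVge 0 (Q.mulVec v) := by
  classical
  obtain ⟨N, hN⟩ : ∃ N : ℕ, -(N : ℝ) ≤ C := by
    obtain ⟨N, hN⟩ := exists_nat_ge (-C)
    exact ⟨N, by linarith⟩
  set z : LS k := LS.single (-(N : ℤ)) 1 with hz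
  set z' : LS k := LS.single (N : ℤ) 1 with hz'
  have hzz : z * z' = 1 := by
    rw [hz, hz', LS.single_mul_single, neg_add_cancel, mul_one, LS.single_zero_one]
  have hz'g : Vge (N : ℝ) z' := Vge.single (by simp) 1
  obtain ⟨xN, hxN⟩ := Star_ps_surj (Vge.mono hz'g (Nat.cast_nonneg N))
  let M : Submodule (PowerSeries k) (ι → PowerSeries k) :=
    { carrier := {w | (fun i => z * Star_ps (w i)) ∈ L}
      add_mem' := by
        intro a b ha hb'
        simp only [Set.mem_ofPred_eq] at ha hb' ⊢
        have := L.add_mem ha hb'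
        have e : (fun i => z * Star_ps ((a + b) i)) =
            (fun i => z * Star_ps (a i)) + fun i => z * Star_ps (b i) := by
          funext i
          simp only [Pi.add_apply, map_add, mul_add]
        rw [e]
        exact this
      zero_mem' := by
        simp only [Set.mem_ofPred_eq]
        have e : (fun i => z * Star_ps ((0 : ι → PowerSeries k) i)) = 0 := by
          funext i
          simp
        rw [e]
        exact L.zero_mem
      smul_mem' := by
        intro c a ha
        simp only [Set.mem_ofPred_eq] at ha ⊢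
        have := hsmul (Star_ps c) _ (Star_ps_Vge c) ha
        have e : (fun i => z * Star_ps ((c • a) i)) =
            Star_ps c • fun i => z * Star_ps (a i) := by
          funext i
          simp only [Pi.smul_apply, smul_eq_mul, map_mul]
          ring
        rw [e]
        exact this }
  have hM : ∀ w : ι → PowerSeries k, w ∈ M ↔ (fun i => z * Star_ps (w i)) ∈ L := fun w => Iff.rfl
  obtain ⟨n, b⟩ := Submodule.basisOfPid (Pi.basisFun (PowerSeries k) ι) M
  set V : Matrix ι (Fin n) (LS k) := fun i j => z * Star_ps ((b j : ι → PowerSeries k) i) with hVd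
  have hV : ∀ c : Fin n → PowerSeries k, V.mulVec (fun j => Star_ps (c j)) =
      fun i => z * Star_ps ((∑ j, c j • (b j : ι → PowerSeries k)) i) := by
    intro c
    funext i
    simp only [Matrix.mulVec, dotProduct, Finset.sum_apply, Pi.smul_apply, smul_eq_mul, map_sum,
      map_mul, Finset.mul_sum, hVd]
    exact Finset.sum_congr rfl fun j _ => by ring
  have mem1 : ∀ v ∈ L, ∃ c : Fin n → PowerSeries k, v = V.mulVec (fun j => Star_ps (c j)) := by
    intro v hv
    have h1 : ∀ i, ∃ p : PowerSeries k, Star_ps p = z' * v i := fun i =>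
      Star_ps_surj (Vge.mono (Vge.mul hz'g (hb v hv i)) (by linarith))
    choose w hw using h1
    have hwM : w ∈ M := by
      rw [hM]
      have e : (fun i => z * Star_ps (w i)) = v := by
        funext i
        rw [hw, ← mul_assoc, hzz, one_mul]
      rw [e]
      exact hv
    refine ⟨fun j => b.repr ⟨w, hwM⟩ j, ?_⟩
    rw [hV]
    have h2 := b.sum_repr ⟨w, hwM⟩
    have h3 := congrArg (fun m : M => (m : ι → PowerSeries k)) h2
    simp only [Submodule.coe_sum, Submodule.coe_smul] at h3
    rw [h3]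
    funext i
    rw [hw, ← mul_assoc, hzz, one_mul]
  have mem2 : ∀ c : Fin n → PowerSeries k, V.mulVec (fun j => Star_ps (c j)) ∈ L := by
    intro c
    rw [hV, ← hM]
    exact Submodule.sum_mem _ fun j _ => Submodule.smul_mem _ _ (b j).2
  have inj : ∀ c : Fin n → PowerSeries k, V.mulVec (fun j => Star_ps (c j)) = 0 → c = 0 := by
    intro c hc
    rw [hV] at hc
    have hzne : z ≠ 0 := left_ne_zero_of_mul_eq_one hzz
    have h1 : (∑ j, c j • (b j : ι → PowerSeries k)) = 0 := by
      funext i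
      have := congrFun hc i
      simp only [Pi.zero_apply, mul_eq_zero, hzne, false_or] at this
      exact Star_ps_inj (this.trans (map_zero _).symm)
    have h2 : ∑ j, c j • b j = 0 := by
      apply Subtype.ext
      simp only [Submodule.coe_sum, Submodule.coe_smul, Submodule.coe_zero]
      exact h1
    funext j
    exact Fintype.linearIndependent_iff.1 b.linearIndependent c h2 j
  choose cc hcc using fun j => mem1 _ (hstd j)
  set W : Matrix (Fin n) ι (LS k) := fun a j => Star_ps (cc j a) with hWd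
  have hVW : V * W = 1 := by
    ext i j
    have := congrFun (hcc j) i
    rw [Matrix.one_apply, Matrix.mul_apply]
    rw [Pi.single_apply] at this
    rw [this]
    rfl
  have hWV : W * V = 1 := by
    have key : ∀ a, (fun a' => z' * ((W * V) a' a - (1 : Matrix (Fin n) (Fin n) (LS k)) a' a)) = 0 := by
      intro a
      set c : Fin n → PowerSeries k := fun a' =>
        (∑ i, cc i a' * (b a : ι → PowerSeries k) i) - (if a' = a then xN else 0) with hc
      have hc1 : (fun a' => z' * ((W * V) a' a - (1 : Matrix (Fin n) (Fin n) (LS k)) a' a)) =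
          fun a' => Star_ps (c a') := by
        funext a'
        have e1 : (W * V) a' a = ∑ i, Star_ps (cc i a') * (z * Star_ps ((b a : ι → PowerSeries k) i)) :=
          Matrix.mul_apply
        rw [e1, Matrix.one_apply]
        simp only [hc, map_sub, map_sum, map_mul]
        rw [mul_sub, Finset.mul_sum]
        congr 1
        · refine Finset.sum_congr rfl fun i _ => ?_
          rw [show z' * (Star_ps (cc i a') * (z * Star_ps ((b a : ι → PowerSeries k) i))) =
            (z * z') * (Star_ps (cc i a') * Star_ps ((b a : ι → PowerSeries k) i)) from by ring,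
            hzz, one_mul]
        · split_ifs
          · rw [mul_one, hxN]
          · rw [mul_zero, map_zero]
      rw [hc1]
      have hc0 : c = 0 := by
        apply inj
        rw [← hc1]
        have e : V.mulVec (fun a' => z' * ((W * V) a' a -
            (1 : Matrix (Fin n) (Fin n) (LS k)) a' a)) =
            fun i => z' * ((V * (W * V)) i a - V i a) := by
          funext i
          have e2 : V i a = ∑ a', V i a' * (1 : Matrix (Fin n) (Fin n) (LS k)) a' a := by
            rw [← Matrix.mul_apply, Matrix.mul_one]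
          have e3 : (V * (W * V)) i a = ∑ a', V i a' * (W * V) a' a := Matrix.mul_apply
          rw [e3, e2, ← Finset.sum_sub_distrib, Finset.mul_sum]
          change ∑ a', V i a' * (z' * ((W * V) a' a -
            (1 : Matrix (Fin n) (Fin n) (LS k)) a' a)) = _
          exact Finset.sum_congr rfl fun a' _ => by ring
        rw [e, ← Matrix.mul_assoc, hVW, Matrix.one_mul]
        funext i
        simp
      rw [hc0]
      funext a'
      simp
    have hz'ne : z' ≠ 0 := right_ne_zero_of_mul_eq_one hzz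
    apply Matrix.ext
    intro a' a
    have := congrFun (key a) a'
    simp only [Pi.zero_apply, mul_eq_zero, hz'ne, false_or] at this
    exact sub_eq_zero.1 this
  have hcard : n = Fintype.card ι := by
    have e : (Fin n → LS k) ≃ₗ[LS k] (ι → LS k) :=
      LinearEquiv.ofLinearMap (Matrix.toLin' V) (Matrix.toLin' W)
        (by rw [← Matrix.toLin'_mul, hVW, Matrix.toLin'_one])
        (by rw [← Matrix.toLin'_mul, hWV, Matrix.toLin'_one])
    have := e.finrank_eq
    rw [Module.finrank_fin_fun, Module.finrank_pi] at this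
    exact this
  obtain ⟨e⟩ : Nonempty (Fin n ≃ ι) := ⟨Fintype.equivOfCardEq (by rw [Fintype.card_fin]; exact hcard)⟩
  refine ⟨V.submatrix id e.symm, W.submatrix e.symm id, ?_, ?_, ?_⟩
  · rw [Matrix.submatrix_mul_equiv, hVW]
    rfl
  · have := Matrix.submatrix_mul W V e.symm id e.symm Function.bijective_id
    rw [← this, hWV, Matrix.submatrix_one_equiv]
  · intro v
    have hQ : ∀ j, (W.submatrix e.symm id).mulVec v j = W.mulVec v (e.symm j) := fun j => rfl
    constructor
    · intro hv
      obtain ⟨c, hc⟩ := mem1 v hv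
      intro j
      rw [hQ, hc, Matrix.mulVec_mulVec, hWV, Matrix.one_mulVec]
      exact Star_ps_Vge _
    · intro hv
      have h1 : ∀ a, ∃ p : PowerSeries k, Star_ps p = W.mulVec v a := by
        intro a
        apply Star_ps_surj
        have := hv (e a)
        rw [hQ, e.symm_apply_apply] at this
        exact this
      choose c hc using h1
      have h2 : v = V.mulVec (fun j => Star_ps (c j)) := by
        rw [funext hc, Matrix.mulVec_mulVec, hVW, Matrix.one_mulVec]
      rw [h2]
      exact mem2 c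

section newton

open Polynomial Matrix

private theorem Star_jacobi {R ι : Type} [CommRing R] [Fintype ι] [DecidableEq ι]
    (M : Matrix ι ι R) :
    derivative M.charpoly = (adjugate (charmatrix M)).trace := by
  have hdet : ∀ A : Matrix ι ι R[X], A.det =
      ∑ σ : Equiv.Perm ι, ((Equiv.Perm.sign σ : ℤ) : R[X]) * ∏ i, A i (σ i) := by
    intro A
    rw [← det_transpose, det_apply']
    rfl
  have hder : ∀ a b : ι, derivative (charmatrix M a b) = if a = b then (1 : R[X]) else 0 := by
    intro a b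
    by_cases h : a = b
    · subst h
      rw [charmatrix_apply_eq, if_pos rfl]
      simp
    · rw [charmatrix_apply_ne _ _ _ h, if_neg h]
      simp
  rw [Matrix.charpoly, hdet, derivative_sum, Matrix.trace]
  simp only [Matrix.diag_apply, adjugate_apply]
  simp_rw [hdet]
  rw [Finset.sum_comm]
  refine Finset.sum_congr rfl fun σ _ => ?_
  rw [derivative_intCast_mul, derivative_prod_finset, Finset.mul_sum]
  refine Finset.sum_congr rfl fun i _ => ?_
  rw [← Finset.prod_erase_mul Finset.univ _ (Finset.mem_univ i), hder]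
  congr 1
  congr 1
  · refine Finset.prod_congr rfl fun j hj => ?_
    rw [Matrix.updateRow_ne (Finset.ne_of_mem_erase hj)]
  · rw [Matrix.updateRow_self, Pi.single_apply]
    by_cases h : i = σ i
    · rw [if_pos h, if_pos h.symm]
    · rw [if_neg h, if_neg (fun hh => h hh.symm)]

/-- matrices with traces of powers in an ideal -/
private theorem Star_newton {R ι : Type} [CommRing R] [Fintype ι] [DecidableEq ι] (I : Ideal R)
    (hu : ∀ n : ℕ, n ≠ 0 → IsUnit (n : R)) (M : Matrix ι ι R)
    (h : ∀ j : ℕ, (M ^ (j + 1)).trace ∈ I) : ∀ i j, (M ^ Fintype.card ι) i j ∈ I := by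
  rcases subsingleton_or_nontrivial R with hR | hR
  · intro i j
    rw [Subsingleton.elim ((M ^ Fintype.card ι) i j) 0]
    exact I.zero_mem
  intro i0 j0
  have hm : Fintype.card ι ≠ 0 := by
    have : Nonempty ι := ⟨i0⟩
    exact Fintype.card_ne_zero
  set χ := M.charpoly with hχ
  set A := adjugate (charmatrix M) with hA
  set B : ℕ → Matrix ι ι R := fun i => Matrix.of fun a b => (A a b).coeff i with hB
  have hBa : ∀ i a b, B i a b = (A a b).coeff i := fun i a b => rfl
  have hmul : A * charmatrix M = χ • (1 : Matrix ι ι R[X]) := adjugate_mul _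
  have hent : ∀ a b, A a b * X - ∑ c, A a c * C (M c b) = χ * (1 : Matrix ι ι R[X]) a b := by
    intro a b
    have := congrFun (congrFun hmul a) b
    rw [Matrix.smul_apply, smul_eq_mul, Matrix.mul_apply] at this
    rw [← this]
    simp only [charmatrix_apply, mul_sub, Finset.sum_sub_distrib]
    congr 1
    rw [Finset.sum_eq_single b]
    · rw [Matrix.diagonal_apply_eq]
    · intro c _ hc
      rw [Matrix.diagonal_apply_ne _ hc, mul_zero]
    · intro hh
      exact absurd (Finset.mem_univ b) hh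
  have hone : ∀ (a b : ι) (i : ℕ), (χ * (1 : Matrix ι ι R[X]) a b).coeff i =
      χ.coeff i * (1 : Matrix ι ι R) a b := by
    intro a b i
    by_cases hab : a = b
    · subst hab
      rw [Matrix.one_apply_eq, Matrix.one_apply_eq, mul_one, mul_one]
    · rw [Matrix.one_apply_ne hab, Matrix.one_apply_ne hab, mul_zero, mul_zero, coeff_zero]
  have hrec : ∀ i, B i = B (i + 1) * M + χ.coeff (i + 1) • (1 : Matrix ι ι R) := by
    intro i
    ext a b
    have := congrArg (fun p : R[X] => p.coeff (i + 1)) (hent a b)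
    simp only [coeff_sub, coeff_mul_X, finsetSum_coeff, coeff_mul_C, hone] at this
    rw [Matrix.add_apply, Matrix.smul_apply, smul_eq_mul, Matrix.mul_apply, ← this]
    simp only [hBa]
    ring
  have hrec0 : B 0 * M + χ.coeff 0 • (1 : Matrix ι ι R) = 0 := by
    ext a b
    have := congrArg (fun p : R[X] => p.coeff 0) (hent a b)
    simp only [coeff_sub, finsetSum_coeff, coeff_mul_C, hone, mul_coeff_zero, coeff_X_zero,
      mul_zero, zero_sub] at this
    rw [Matrix.add_apply, Matrix.smul_apply, smul_eq_mul, Matrix.mul_apply, ← this]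
    simp only [hBa]
    simp
  obtain ⟨D, hD⟩ : ∃ D : ℕ, ∀ i, D ≤ i → B i = 0 := by
    refine ⟨(Finset.univ.sup fun a : ι => Finset.univ.sup fun b : ι => (A a b).natDegree) + 1, ?_⟩
    intro i hi
    ext a b
    rw [hBa, Matrix.zero_apply]
    apply coeff_eq_zero_of_natDegree_lt
    have h1 : (A a b).natDegree ≤ Finset.univ.sup fun b : ι => (A a b).natDegree :=
      Finset.le_sup (f := fun b : ι => (A a b).natDegree) (Finset.mem_univ b)
    have h2 : (Finset.univ.sup fun b : ι => (A a b).natDegree) ≤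
        Finset.univ.sup fun a : ι => Finset.univ.sup fun b : ι => (A a b).natDegree :=
      Finset.le_sup (f := fun a : ι => Finset.univ.sup fun b : ι => (A a b).natDegree)
        (Finset.mem_univ a)
    omega
  have key : ∀ n i j : ℕ, D ≤ i + n → (B i * M ^ (j + 1)).trace ∈ I := by
    intro n
    induction n with
    | zero =>
      intro i j hi
      rw [hD i (by omega), Matrix.zero_mul, Matrix.trace_zero]
      exact I.zero_mem
    | succ n ih =>
      intro i j hi
      rw [hrec i, Matrix.add_mul, Matrix.trace_add, Matrix.mul_assoc, ← pow_succ',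
        Matrix.smul_mul, Matrix.one_mul, Matrix.trace_smul, smul_eq_mul]
      exact I.add_mem (ih (i + 1) (j + 1) (by omega)) (I.mul_mem_left _ (h j))
  have key' : ∀ i, (B i * M).trace ∈ I := by
    intro i
    have := key D i 0 (by omega)
    rwa [zero_add, pow_one] at this
  have htr : ∀ i, (B i).trace = χ.coeff (i + 1) * ((i : R) + 1) := by
    intro i
    have := congrArg (fun p : R[X] => p.coeff i) (Star_jacobi M)
    simp only [coeff_derivative] at this
    rw [this, Matrix.trace, Matrix.trace, finsetSum_coeff]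
    rfl
  have hχI : ∀ i, i < Fintype.card ι → χ.coeff i ∈ I := by
    intro i hi
    rcases i with _ | i
    · have h1 := congrArg Matrix.trace hrec0
      rw [Matrix.trace_add, Matrix.trace_smul, Matrix.trace_one, smul_eq_mul, Matrix.trace_zero] at h1
      have h2 : χ.coeff 0 * (Fintype.card ι : R) ∈ I := by
        have : χ.coeff 0 * (Fintype.card ι : R) = -(B 0 * M).trace := by linear_combination h1
        rw [this]
        exact I.neg_mem (key' 0)
      exact (Ideal.mul_unit_mem_iff_mem I (hu _ hm)).1 h2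
    · have h1 := congrArg Matrix.trace (hrec i)
      rw [Matrix.trace_add, Matrix.trace_smul, Matrix.trace_one, smul_eq_mul, htr] at h1
      have h2 : χ.coeff (i + 1) * ((Fintype.card ι - (i + 1) : ℕ) : R) ∈ I := by
        have : χ.coeff (i + 1) * ((Fintype.card ι - (i + 1) : ℕ) : R) = -(B (i + 1) * M).trace := by
          rw [Nat.cast_sub (by omega)]
          push_cast
          linear_combination -h1
        rw [this]
        exact I.neg_mem (key' (i + 1))
      exact (Ideal.mul_unit_mem_iff_mem I (hu _ (by omega))).1 h2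
  have hCH := Matrix.aeval_self_charpoly M
  rw [aeval_eq_sum_range, Matrix.charpoly_natDegree_eq_dim, Finset.sum_range_succ] at hCH
  have hlead : M.charpoly.coeff (Fintype.card ι) = 1 := by
    have h1 := Matrix.charpoly_monic M
    rw [← Matrix.charpoly_natDegree_eq_dim M]
    exact h1
  rw [hlead, one_smul] at hCH
  have h2 : M ^ Fintype.card ι = -∑ x ∈ Finset.range (Fintype.card ι), M.charpoly.coeff x • M ^ x := by
    rw [eq_neg_iff_add_eq_zero, add_comm]
    exact hCH
  rw [h2, Matrix.neg_apply, Matrix.sum_apply]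
  refine I.neg_mem (I.sum_mem fun x hx => ?_)
  rw [Matrix.smul_apply, smul_eq_mul]
  exact I.mul_mem_right _ (hχI x (Finset.mem_range.1 hx))

end newton

section aux

set_option linter.unusedSectionVars false

variable {ι : Type} [Fintype ι] [DecidableEq ι]

/-- ramification `z ↦ z ^ q` -/
private noncomputable def Star_ram (q : ℕ) (hq : 0 < q) : LS k →+* LS k :=
  (LS.toH (k := k)).symm.toRingHom.comp ((HahnSeries.embDomainRingHom
    (AddMonoidHom.mulLeft (q : ℤ))
    (fun a b h => by
      have hq' : (q : ℤ) ≠ 0 := by exact_mod_cast hq.ne'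
      exact mul_left_cancel₀ hq' h)
    (fun a b => by
      have hq' : (0 : ℤ) < q := by exact_mod_cast hq
      exact mul_le_mul_iff_right₀ hq')).comp (LS.toH (k := k)).toRingHom)

private lemma Star_ram_mul (q : ℕ) (hq : 0 < q) (x : LS k) (n : ℤ) :
    (Star_ram q hq x).coeff ((q : ℤ) * n) = x.coeff n :=
  HahnSeries.embDomain_mk_coeff (f := fun a : ℤ => (q : ℤ) * a) _ _

private lemma Star_ram_not (q : ℕ) (hq : 0 < q) (x : LS k) {n : ℤ} (h : ¬ (q : ℤ) ∣ n) :
    (Star_ram q hq x).coeff n = 0 := by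
  refine HahnSeries.embDomain_of_notMem_range ?_
  rintro ⟨m, hm⟩
  exact h ⟨m, hm.symm⟩

private lemma Star_ram_Vge (q : ℕ) (hq : 0 < q) (x : LS k) (c : ℝ) :
    Vge ((q : ℝ) * c) (Star_ram q hq x) ↔ Vge c x := by
  have hq' : (0 : ℝ) < q := by exact_mod_cast hq
  constructor
  · intro h n hn
    rw [← Star_ram_mul q hq x n]
    apply h
    push_cast
    exact mul_lt_mul_of_pos_left hn hq'
  · intro h n hn
    by_cases hd : (q : ℤ) ∣ n
    · obtain ⟨m, rfl⟩ := hd
      rw [Star_ram_mul]
      apply h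
      push_cast at hn
      exact lt_of_mul_lt_mul_left hn hq'.le
    · exact Star_ram_not q hq x hd

private lemma Star_ram_zd [CharZero k] (q : ℕ) (hq : 0 < q) (x : LS k) :
    Star_ram q hq (zd x) = (LS.C (q : k)⁻¹ • zd : Der (LS k)) (Star_ram q hq x) := by
  ext n
  rw [Der.smul_apply, LS.coeff_C_mul, zd_coeff]
  by_cases hd : (q : ℤ) ∣ n
  · obtain ⟨m, rfl⟩ := hd
    rw [Star_ram_mul, Star_ram_mul, zd_coeff]
    have : (q : k) ≠ 0 := by exact_mod_cast hq.ne'
    push_cast
    field_simp
  · rw [Star_ram_not q hq _ hd, Star_ram_not q hq _ hd, mul_zero, mul_zero]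

private lemma Star_ram_cd (q : ℕ) (hq : 0 < q) (δ : Der k) (x : LS k) :
    Star_ram q hq (cd δ x) = cd δ (Star_ram q hq x) := by
  ext n
  rw [cd_coeff]
  by_cases hd : (q : ℤ) ∣ n
  · obtain ⟨m, rfl⟩ := hd
    rw [Star_ram_mul, Star_ram_mul, cd_coeff]
  · rw [Star_ram_not q hq _ hd, Star_ram_not q hq _ hd, map_zero]

private lemma Star_ram_Gr (q : ℕ) (hq : 0 < q) {θ θ' : Der (LS k)}
    (h : ∀ x, Star_ram q hq (θ x) = θ' (Star_ram q hq x)) (G : Matrix ι ι (LS k)) (σ : ℝ) :
    Gr θ' (G.map (Star_ram q hq)) ((q : ℝ) * σ) ↔ Gr θ G σ := by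
  have hq' : (0 : ℝ) < q := by exact_mod_cast hq
  constructor
  · rintro ⟨C, hC⟩
    refine ⟨C / q, fun n i j => ?_⟩
    have := hC n i j
    rw [← itr_map (Star_ram q hq) θ θ' h, Matrix.map_apply] at this
    rw [← Star_ram_Vge q hq]
    convert this using 1
    field_simp
  · rintro ⟨C, hC⟩
    refine ⟨q * C, fun n i j => ?_⟩
    have := hC n i j
    rw [← itr_map (Star_ram q hq) θ θ' h, Matrix.map_apply]
    rw [← Star_ram_Vge q hq] at this
    convert this using 1
    ring

private lemma Star_ram_Flat (q : ℕ) (hq : 0 < q) {θ₁ θ₁' θ₂ θ₂' : Der (LS k)}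
    (h₁ : ∀ x, Star_ram q hq (θ₁ x) = θ₁' (Star_ram q hq x))
    (h₂ : ∀ x, Star_ram q hq (θ₂ x) = θ₂' (Star_ram q hq x)) {G₁ G₂ : Matrix ι ι (LS k)}
    (h : Flat θ₁ θ₂ G₁ G₂) :
    Flat θ₁' θ₂' (G₁.map (Star_ram q hq)) (G₂.map (Star_ram q hq)) := by
  have e := congrArg (fun M : Matrix ι ι (LS k) => M.map (Star_ram q hq)) h
  unfold Flat
  refine Matrix.ext fun i j => ?_
  have e1 := congrFun (congrFun e i) j
  simp only [Matrix.map_apply, Matrix.add_apply, Matrix.sub_apply, Matrix.mul_apply, map_add,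
    map_sub, map_sum, map_mul, Matrix.zero_apply, map_zero, h₁, h₂] at e1 ⊢
  exact e1

/-- the connection as an additive map -/
private noncomputable def Star_con (θ : Der (LS k)) (G : Matrix ι ι (LS k)) : (ι → LS k) →+ (ι → LS k) :=
  AddMonoidHom.mk' (con θ G) (con_add θ G)

@[simp] private lemma Star_con_apply (θ : Der (LS k)) (G : Matrix ι ι (LS k)) (v : ι → LS k) :
    Star_con θ G v = con θ G v := rfl

/-- the family of growth conditions -/
private def Star_fam (T₁ T₂ : (ι → LS k) →+ (ι → LS k)) (p s c : ℝ) (v : ι → LS k) : Prop :=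
  ∀ i j : ℕ, VVge (c - (p * i + s * j)) (T₁^[i] (T₂^[j] v))

private lemma Star_it_add (T : (ι → LS k) →+ (ι → LS k)) (n : ℕ) (v w : ι → LS k) :
    T^[n] (v + w) = T^[n] v + T^[n] w := by
  induction n generalizing v w with
  | zero => rfl
  | succ n ih => rw [Function.iterate_succ_apply, map_add, ih, ← Function.iterate_succ_apply,
      ← Function.iterate_succ_apply]

private lemma Star_it_neg (T : (ι → LS k) →+ (ι → LS k)) (n : ℕ) (v : ι → LS k) :
    T^[n] (-v) = -T^[n] v := by
  induction n generalizing v with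
  | zero => rfl
  | succ n ih => rw [Function.iterate_succ_apply, map_neg, ih, ← Function.iterate_succ_apply]

private lemma Star_it_zero (T : (ι → LS k) →+ (ι → LS k)) (n : ℕ) :
    T^[n] 0 = 0 := by
  induction n with
  | zero => rfl
  | succ n ih => rw [Function.iterate_succ_apply, map_zero, ih]

private lemma Star_VVge_add {c : ℝ} {v w : ι → LS k} (hv : VVge c v) (hw : VVge c w) :
    VVge c (v + w) := fun i => (hv i).add (hw i)

private lemma Star_VVge_neg {c : ℝ} {v : ι → LS k} (hv : VVge c v) : VVge c (-v) :=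
  fun i => (hv i).neg

private lemma Star_VVge_zero (c : ℝ) : VVge c (0 : ι → LS k) := fun _ => Vge.zero c

private lemma Star_VVge_smul {c c' : ℝ} {x : LS k} {v : ι → LS k} (hx : Vge c x)
    (hv : VVge c' v) : VVge (c + c') (x • v) := fun i => hx.mul (hv i)

private lemma Star_VVge_mono {c c' : ℝ} {v : ι → LS k} (hv : VVge c v) (h : c' ≤ c) :
    VVge c' v := fun i => (hv i).mono h

private lemma Star_fam_mono {T₁ T₂ : (ι → LS k) →+ (ι → LS k)} {p s c c' : ℝ} {v : ι → LS k}
    (h : Star_fam T₁ T₂ p s c v) (hc : c' ≤ c) : Star_fam T₁ T₂ p s c' v :=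
  fun i j => Star_VVge_mono (h i j) (by linarith)

private lemma Star_fam_add {T₁ T₂ : (ι → LS k) →+ (ι → LS k)} {p s c : ℝ} {v w : ι → LS k}
    (h : Star_fam T₁ T₂ p s c v) (h' : Star_fam T₁ T₂ p s c w) :
    Star_fam T₁ T₂ p s c (v + w) := fun i j => by
  rw [Star_it_add, Star_it_add]
  exact Star_VVge_add (h i j) (h' i j)

private lemma Star_fam_neg {T₁ T₂ : (ι → LS k) →+ (ι → LS k)} {p s c : ℝ} {v : ι → LS k}
    (h : Star_fam T₁ T₂ p s c v) : Star_fam T₁ T₂ p s c (-v) := fun i j => by
  rw [Star_it_neg, Star_it_neg]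
  exact Star_VVge_neg (h i j)

private lemma Star_fam_zero (T₁ T₂ : (ι → LS k) →+ (ι → LS k)) (p s c : ℝ) :
    Star_fam T₁ T₂ p s c 0 := fun i j => by
  rw [Star_it_zero, Star_it_zero]
  exact Star_VVge_zero _

private lemma Star_it_comm {T₁ T₂ : (ι → LS k) →+ (ι → LS k)}
    (hT : ∀ v, T₁ (T₂ v) = T₂ (T₁ v)) (j : ℕ) (v : ι → LS k) :
    T₂^[j] (T₁ v) = T₁ (T₂^[j] v) := by
  induction j generalizing v with
  | zero => rfl
  | succ j ih => rw [Function.iterate_succ_apply, ← hT, ih, ← Function.iterate_succ_apply]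

private lemma Star_fam_T1 {T₁ T₂ : (ι → LS k) →+ (ι → LS k)}
    (hT : ∀ v, T₁ (T₂ v) = T₂ (T₁ v)) {p s c : ℝ} {v : ι → LS k}
    (h : Star_fam T₁ T₂ p s c v) : Star_fam T₁ T₂ p s (c - p) (T₁ v) := fun i j => by
  rw [Star_it_comm hT, ← Function.iterate_succ_apply]
  refine Star_VVge_mono (h (i + 1) j) ?_
  push_cast
  linarith

private lemma Star_fam_T2 {T₁ T₂ : (ι → LS k) →+ (ι → LS k)} {p s c : ℝ} {v : ι → LS k}
    (h : Star_fam T₁ T₂ p s c v) : Star_fam T₁ T₂ p s (c - s) (T₂ v) := fun i j => by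
  rw [← Function.iterate_succ_apply]
  refine Star_VVge_mono (h i (j + 1)) ?_
  push_cast
  linarith

private lemma Star_fam_smul {θ₁ θ₂ : Der (LS k)} (h₁ : Pres θ₁) (h₂ : Pres θ₂)
    {G₁ G₂ : Matrix ι ι (LS k)} {p s : ℝ} (hp : 0 ≤ p) (hs : 0 ≤ s)
    (hT : ∀ v, con θ₁ G₁ (con θ₂ G₂ v) = con θ₂ G₂ (con θ₁ G₁ v)) :
    ∀ (n i j : ℕ), i + j = n → ∀ (c e : ℝ) (x : LS k) (v : ι → LS k), Vge e x →
      Star_fam (Star_con θ₁ G₁) (Star_con θ₂ G₂) p s c v →
      VVge (c + e - (p * i + s * j)) ((Star_con θ₁ G₁)^[i] ((Star_con θ₂ G₂)^[j] (x • v))) := by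
  intro n
  induction n with
  | zero =>
    intro i j hij c e x v hx hv
    obtain ⟨rfl, rfl⟩ : i = 0 ∧ j = 0 := by omega
    have := Star_VVge_smul hx (hv 0 0)
    simp only [Function.iterate_zero, id_eq] at this ⊢
    refine Star_VVge_mono this ?_
    push_cast
    linarith
  | succ n ih =>
    intro i j hij c e x v hx hv
    rcases j with _ | j
    · rcases i with _ | i
      · omega
      · have e1 : (Star_con θ₁ G₁)^[i + 1] ((Star_con θ₂ G₂)^[0] (x • v)) =
            (Star_con θ₁ G₁)^[i] ((Star_con θ₂ G₂)^[0] (θ₁ x • v)) +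
              (Star_con θ₁ G₁)^[i] ((Star_con θ₂ G₂)^[0] (x • Star_con θ₁ G₁ v)) := by
          simp only [Function.iterate_zero, id_eq]
          rw [Function.iterate_succ_apply, Star_con_apply, con_smul, Star_it_add, Star_con_apply]
        rw [e1]
        refine Star_VVge_add ?_ ?_
        · refine Star_VVge_mono (ih i 0 (by omega) c e (θ₁ x) v (h₁ e x hx) hv) ?_
          push_cast
          nlinarith
        · refine Star_VVge_mono (ih i 0 (by omega) (c - p) e x _ hx
            (Star_fam_T1 (fun v => hT v) hv)) ?_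
          push_cast
          nlinarith
    · have e1 : (Star_con θ₁ G₁)^[i] ((Star_con θ₂ G₂)^[j + 1] (x • v)) =
            (Star_con θ₁ G₁)^[i] ((Star_con θ₂ G₂)^[j] (θ₂ x • v)) +
              (Star_con θ₁ G₁)^[i] ((Star_con θ₂ G₂)^[j] (x • Star_con θ₂ G₂ v)) := by
        rw [Function.iterate_succ_apply (Star_con θ₂ G₂), Star_con_apply, con_smul, Star_it_add,
          Star_it_add, Star_con_apply]
      rw [e1]
      refine Star_VVge_add ?_ ?_
      · refine Star_VVge_mono (ih i j (by omega) c e (θ₂ x) v (h₂ e x hx) hv) ?_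
        push_cast
        nlinarith
      · refine Star_VVge_mono (ih i j (by omega) (c - s) e x _ hx (Star_fam_T2 hv)) ?_
        push_cast
        nlinarith

private lemma Star_mulVec_single (M : Matrix ι ι (LS k)) (j : ι) :
    M.mulVec (Pi.single j 1) = fun i => M i j := by
  funext i
  rw [Matrix.mulVec_single_one]
  rfl

private lemma Star_con_single (θ : Der (LS k)) (G : Matrix ι ι (LS k)) (j : ι) :
    con θ G (Pi.single j 1) = fun i => G i j := by
  funext i
  unfold con
  rw [Star_mulVec_single]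
  have : θ ((Pi.single j 1 : ι → LS k) i) = 0 := by
    rw [Pi.single_apply]
    split_ifs
    · exact θ.map_one'
    · exact map_zero θ
  rw [this, zero_add]

/-- a lattice for two commuting connections -/
private lemma Star_lattice {θ₁ θ₂ : Der (LS k)} (h₁ : Pres θ₁) (h₂ : Pres θ₂)
    (hθ : ∀ x, θ₁ (θ₂ x) = θ₂ (θ₁ x)) {G₁ G₂ : Matrix ι ι (LS k)} (hflat : Flat θ₁ θ₂ G₁ G₂)
    {p s : ℕ} (hG₁ : Gr θ₁ G₁ (p : ℝ)) (hG₂ : Gr θ₂ G₂ (s : ℝ)) :
    ∃ P Q : Matrix ι ι (LS k), P * Q = 1 ∧ Q * P = 1 ∧ MVge 0 Q ∧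
      MVge (-(p : ℝ)) (Q * (P.map θ₁ + G₁ * P)) ∧ MVge (-(s : ℝ)) (Q * (P.map θ₂ + G₂ * P)) := by
  have hp : (0 : ℝ) ≤ p := Nat.cast_nonneg p
  have hs : (0 : ℝ) ≤ s := Nat.cast_nonneg s
  obtain ⟨C1, -, hC1⟩ := Gr.vec h₁ hp hG₁
  obtain ⟨C2, -, hC2⟩ := Gr.vec h₂ hs hG₂
  have hT : ∀ v, con θ₁ G₁ (con θ₂ G₂ v) = con θ₂ G₂ (con θ₁ G₁ v) := con_comm hθ hflat
  set c0 : ℝ := C1 + C2 with hc0
  let L : AddSubgroup (ι → LS k) :=
    { carrier := {v | Star_fam (Star_con θ₁ G₁) (Star_con θ₂ G₂) p s (-c0) v}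
      add_mem' := fun ha hb => Star_fam_add ha hb
      zero_mem' := Star_fam_zero _ _ _ _ _
      neg_mem' := fun ha => Star_fam_neg ha }
  have hL : ∀ v, v ∈ L ↔ Star_fam (Star_con θ₁ G₁) (Star_con θ₂ G₂) p s (-c0) v :=
    fun v => Iff.rfl
  have hstd : ∀ j, Pi.single j 1 ∈ L := by
    intro l
    rw [hL]
    intro i j
    have e0 : VVge 0 (Pi.single l 1 : ι → LS k) := by
      intro a
      rw [Pi.single_apply]
      split_ifs
      · exact Vge.one
      · exact Vge.zero 0
    have e1 := hC2 j 0 _ e0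
    have e2 := hC1 i _ _ e1
    refine Star_VVge_mono e2 ?_
    rw [hc0]
    linarith
  obtain ⟨P, Q, hPQ, hQP, hQ⟩ := lattice_basis L
    (fun x v hx hv => by
      rw [hL] at hv ⊢
      intro i j
      have := Star_fam_smul h₁ h₂ hp hs hT (i + j) i j rfl _ 0 x v hx hv
      rwa [add_zero] at this) hstd (-c0)
    (fun v hv => by
      rw [hL] at hv
      have := hv 0 0
      simp only [Function.iterate_zero, id_eq] at this
      refine Star_VVge_mono this ?_
      push_cast
      linarith)
  have hPj : ∀ j, P.mulVec (Pi.single j 1) ∈ L := by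
    intro j
    rw [hQ, Matrix.mulVec_mulVec, hQP, Matrix.one_mulVec]
    intro a
    rw [Pi.single_apply]
    split_ifs
    · exact Vge.one
    · exact Vge.zero 0
  -- the general step
  have key : ∀ (θ : Der (LS k)) (G : Matrix ι ι (LS k)) (t : ℕ),
      (∀ v, Star_fam (Star_con θ₁ G₁) (Star_con θ₂ G₂) p s (-c0) v →
        Star_fam (Star_con θ₁ G₁) (Star_con θ₂ G₂) p s (-c0 - t) (con θ G v)) →
      MVge (-(t : ℝ)) (Q * (P.map θ + G * P)) := by
    intro θ G t hstep a b
    have e1 : Star_fam (Star_con θ₁ G₁) (Star_con θ₂ G₂) p s (-c0)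
        (LS.single (t : ℤ) (1 : k) • con θ G (P.mulVec (Pi.single b 1))) := by
      intro i j
      have hx : Vge (t : ℝ) (LS.single (t : ℤ) (1 : k)) := Vge.single (by simp) 1
      refine Star_VVge_mono (Star_fam_smul h₁ h₂ hp hs hT (i + j) i j rfl _ _ _ _ hx
        (hstep _ ((hL _).1 (hPj b)))) ?_
      linarith
    rw [← hL, hQ, Matrix.mulVec_smul, con_gauge θ G P Q hPQ, Matrix.mulVec_mulVec, hQP,
      Matrix.one_mulVec, Star_con_single] at e1
    have e2 := e1 a
    rw [Pi.smul_apply, smul_eq_mul] at e2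
    have hne : LS.single (t : ℤ) (1 : k) ≠ 0 := by
      intro h0
      have := congrArg (fun x => LS.coeff x (t : ℤ)) h0
      simp only [LS.coeff_single_same, LS.coeff_zero] at this
      exact one_ne_zero this
    refine Vge_of_mul hne ?_
    rw [LS.ord_single one_ne_zero]
    push_cast
    rw [neg_add_cancel]
    exact e2
  refine ⟨P, Q, hPQ, hQP, ?_, ?_, ?_⟩
  · intro a b
    have := (hQ _).1 (hstd b) a
    rwa [Star_mulVec_single] at this
  · exact key θ₁ G₁ p (fun v hv => Star_fam_T1 (fun v => hT v) hv)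
  · exact key θ₂ G₂ s (fun v hv => Star_fam_T2 hv)

/-- nilpotency modulo a power of the variable -/
private lemma Star_nil [CharZero k] (G : Matrix ι ι (LS k)) (hG : MVge 0 G) (r : ℕ)
    (ht : ∀ j : ℕ, Vge (r : ℝ) ((G ^ (j + 1)).trace)) :
    MVge (r : ℝ) (G ^ Fintype.card ι) := by
  have h1 : ∀ i j, ∃ f : PowerSeries k, Star_ps f = G i j := fun i j => Star_ps_surj (hG i j)
  choose G0 hG0 using h1
  have hmap : ∀ n, G ^ n = ((Matrix.of G0) ^ n).map Star_ps := by
    intro n
    have e : G = (Star_ps (k := k)).mapMatrix (Matrix.of G0) := by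
      refine Matrix.ext fun i j => ?_
      rw [RingHom.mapMatrix_apply, Matrix.map_apply, Matrix.of_apply, hG0]
    rw [e, ← map_pow]
    rfl
  have hu : ∀ n : ℕ, n ≠ 0 → IsUnit (n : PowerSeries k) := by
    intro n hn
    rw [PowerSeries.isUnit_iff_constantCoeff, map_natCast, isUnit_iff_ne_zero]
    exact Nat.cast_ne_zero.2 hn
  have hI : ∀ f : PowerSeries k, Vge (r : ℝ) (Star_ps f) ↔
      f ∈ Ideal.span {(PowerSeries.X : PowerSeries k) ^ r} := by
    intro f
    rw [Ideal.mem_span_singleton, PowerSeries.X_pow_dvd_iff]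
    constructor
    · intro h m hm
      rw [← Star_ps_nat]
      apply h
      push_cast
      exact_mod_cast hm
    · intro h n hn
      rcases lt_or_ge n 0 with h0 | h0
      · exact Star_ps_neg _ h0
      · obtain ⟨m, rfl⟩ := Int.eq_ofNat_of_zero_le h0
        rw [Star_ps_nat]
        apply h
        exact_mod_cast hn
  intro i j
  rw [hmap, Matrix.map_apply, hI]
  refine Star_newton _ hu _ (fun l => ?_) i j
  rw [← hI]
  have e2 := ht l
  rw [hmap] at e2
  convert e2 using 1
  simp only [Matrix.trace, Matrix.diag_apply, Matrix.map_apply, map_sum]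

private lemma Star_tr1 {L : Type} [CommRing L] (θ : Der L) (N : Matrix ι ι L) (j : ℕ) :
    ∀ i, (θ.mat (N ^ (j + 1)) * N ^ i).trace = ((j : L) + 1) * (N ^ (i + j) * θ.mat N).trace := by
  induction j with
  | zero =>
    intro i
    rw [zero_add, pow_one, Matrix.trace_mul_comm]
    simp
  | succ j ih =>
    intro i
    rw [pow_succ N (j + 1), θ.mat.leib, add_mul, Matrix.trace_add, mul_assoc, ← pow_succ', ih,
      mul_assoc, Matrix.trace_mul_comm (N ^ (j + 1)), mul_assoc, ← pow_add,
      Matrix.trace_mul_comm (θ.mat N), show i + (j + 1) = i + 1 + j from by ring]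
    push_cast
    ring

private lemma Star_tr2 {L : Type} [CommRing L] {θ₁ θ₂ : Der L} {H N : Matrix ι ι L}
    (h : Flat θ₁ θ₂ H N) (j : ℕ) :
    θ₁ (N ^ (j + 1)).trace = ((j : L) + 1) * (N ^ j * H.map θ₂).trace := by
  have h1 : θ₁ (N ^ (j + 1)).trace = (θ₁.mat (N ^ (j + 1))).trace := by
    simp only [Matrix.trace, Matrix.diag_apply, map_sum, Der.mat_apply]
  have h2 := Star_tr1 θ₁ N j 0
  rw [pow_zero, mul_one, zero_add] at h2
  rw [h1, h2]
  have h3 : θ₁.mat N = H.map θ₂ - H * N + N * H := by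
    have : N.map θ₁ - H.map θ₂ + H * N - N * H = 0 := h
    have e : θ₁.mat N = N.map θ₁ := rfl
    rw [e]
    have e2 : N.map θ₁ = (N.map θ₁ - H.map θ₂ + H * N - N * H) + (H.map θ₂ - H * N + N * H) := by
      abel
    rw [e2, this, zero_add]
  rw [h3, mul_add, mul_sub, Matrix.trace_add, Matrix.trace_sub]
  have h4 : (N ^ j * (H * N)).trace = (N ^ j * (N * H)).trace := by
    rw [← mul_assoc, Matrix.trace_mul_comm, ← mul_assoc, ← mul_assoc, ← pow_succ', pow_succ]
  rw [h4]
  ring

private lemma Star_tr3 [CharZero k] (δ : Der k) {a : k} (ha : a ≠ 0) {H N : Matrix ι ι (LS k)}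
    (h : Flat (LS.C a • zd) (cd δ) H N) {p s : ℕ} (hH : MVge (-(p : ℝ)) H)
    (hN : MVge (-(s : ℝ)) N) (j : ℕ) : Vge (-((s : ℝ) * j + p)) ((N ^ (j + 1)).trace) := by
  have h0 : -((s : ℝ) * j + p) ≤ 0 := by
    have : (0 : ℝ) ≤ (s : ℝ) * j + p := by positivity
    linarith
  apply Vge_of_zd h0
  have h1 := Star_tr2 h j
  rw [Der.smul_apply] at h1
  have h2 : zd ((N ^ (j + 1)).trace) = LS.C a⁻¹ * (((j : LS k) + 1) *
      (N ^ j * H.map (cd δ)).trace) := by
    rw [← h1, ← mul_assoc, ← map_mul, inv_mul_cancel₀ ha, map_one, one_mul]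
  rw [h2]
  refine Vge.mul0 (Vge.C _) (Vge.mul0 ?_ ?_)
  · have := Vge.natCast (k := k) (j + 1)
    push_cast at this
    exact this
  · refine MVge.trace (MVge.mono (MVge.mul (MVge.pow hN j) (hH.map_cd δ)) ?_)
    linarith

private lemma Star_single_ne (c : ℤ) : LS.single c (1 : k) ≠ 0 := by
  intro h0
  have := congrArg (fun x => LS.coeff x c) h0
  simp only [LS.coeff_single_same, LS.coeff_zero] at this
  exact one_ne_zero this

private lemma Star_single_pow (c : ℤ) (n : ℕ) : LS.single c (1 : k) ^ n = LS.single (c * n) 1 := by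
  induction n with
  | zero => rw [pow_zero, Nat.cast_zero, mul_zero, LS.single_zero_one]
  | succ n ih =>
    rw [pow_succ, ih, LS.single_mul_single, one_mul]
    congr 1
    push_cast
    ring

/-- multiplication by a power of the variable -/
private lemma Star_single_VVge (c : ℤ) (d : ℝ) (v : ι → LS k) :
    VVge (c + d) (LS.single c (1 : k) • v) ↔ VVge d v := by
  constructor
  · intro h i
    refine Vge_of_mul (Star_single_ne (k := k) c) ?_
    rw [LS.ord_single one_ne_zero, add_comm]
    exact h i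
  · intro h
    exact Star_VVge_smul (Vge.single (le_refl _) 1) h

private lemma Star_con_mul (δ : Der k) (N : Matrix ι ι (LS k)) (c : ℤ) (v : ι → LS k) :
    con (cd δ) N (LS.single c (1 : k) • v) = LS.single c (1 : k) • con (cd δ) N v := by
  rw [con_smul, cd_single, δ.map_one']
  have : LS.single c (0 : k) = 0 := by
    ext n
    rw [LS.coeff_single]
    split_ifs <;> rfl
  rw [this, zero_smul, zero_add]

/-- the operator `y ^ s (δ + N)` -/
private noncomputable def Star_S (δ : Der k) (N : Matrix ι ι (LS k)) (s : ℕ) :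
    (ι → LS k) →+ (ι → LS k) :=
  AddMonoidHom.mk' (fun v => LS.single (s : ℤ) (1 : k) • con (cd δ) N v) (fun v w => by
    rw [con_add, smul_add])

private lemma Star_S_apply (δ : Der k) (N : Matrix ι ι (LS k)) (s : ℕ) (v : ι → LS k) :
    Star_S δ N s v = LS.single (s : ℤ) (1 : k) • con (cd δ) N v := rfl

private lemma Star_S_eq (δ : Der k) (N : Matrix ι ι (LS k)) (s : ℕ) (v : ι → LS k) :
    Star_S δ N s v = LS.single (s : ℤ) (1 : k) • (fun i => cd δ (v i)) +
      (LS.single (s : ℤ) (1 : k) • N).mulVec v := by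
  rw [Star_S_apply, Matrix.smul_mulVec, ← smul_add]
  rfl

private lemma Star_S_mul (δ : Der k) (N : Matrix ι ι (LS k)) (s : ℕ) (c : ℤ) (n : ℕ)
    (v : ι → LS k) :
    (Star_S δ N s)^[n] (LS.single c (1 : k) • v) = LS.single c (1 : k) • (Star_S δ N s)^[n] v := by
  induction n generalizing v with
  | zero => rfl
  | succ n ih =>
    rw [Function.iterate_succ_apply, Star_S_apply, Star_con_mul, smul_comm, ih, ← Star_S_apply,
      ← Function.iterate_succ_apply]

private lemma Star_S_con (δ : Der k) (N : Matrix ι ι (LS k)) (s : ℕ) (n : ℕ) (v : ι → LS k) :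
    (Star_S δ N s)^[n] v = LS.single ((s : ℤ) * n) (1 : k) • (con (cd δ) N)^[n] v := by
  induction n generalizing v with
  | zero =>
    rw [Nat.cast_zero, mul_zero, LS.single_zero_one, one_smul]
    rfl
  | succ n ih =>
    rw [Function.iterate_succ_apply, Star_S_apply, Star_S_mul, ih, smul_smul,
      LS.single_mul_single, one_mul, ← Function.iterate_succ_apply]
    congr 2
    push_cast
    ring

private lemma Star_S_int (δ : Der k) {N : Matrix ι ι (LS k)} {s : ℕ}
    (hG : MVge 0 (LS.single (s : ℤ) (1 : k) • N)) (n : ℕ) {w : ι → LS k} (hw : VVge 0 w) :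
    VVge 0 ((Star_S δ N s)^[n] w) ∧
      VVge (s : ℝ) ((Star_S δ N s)^[n] w - ((LS.single (s : ℤ) (1 : k) • N) ^ n).mulVec w) := by
  have hs : (0 : ℝ) ≤ s := Nat.cast_nonneg s
  induction n with
  | zero =>
    refine ⟨hw, ?_⟩
    rw [pow_zero, Matrix.one_mulVec, Function.iterate_zero, id_eq, sub_self]
    exact fun _ => Vge.zero _
  | succ n ih =>
    obtain ⟨h1, h2⟩ := ih
    set G := LS.single (s : ℤ) (1 : k) • N with hGd
    set u := (Star_S δ N s)^[n] w with hu
    have e0 : VVge (s : ℝ) (LS.single (s : ℤ) (1 : k) • (fun i => cd δ (u i))) := by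
      have := (Star_single_VVge (k := k) (s : ℤ) 0 (fun i => cd δ (u i))).2
        (fun i => (h1 i).cd δ)
      rw [add_zero] at this
      push_cast at this
      exact this
    have e1 : (Star_S δ N s)^[n + 1] w = LS.single (s : ℤ) (1 : k) • (fun i => cd δ (u i)) +
        G.mulVec u := by
      rw [Function.iterate_succ_apply', ← hu, Star_S_eq]
    constructor
    · rw [e1]
      refine Star_VVge_add (Star_VVge_mono e0 hs) ?_
      have := MVge.mulVec hG h1
      rwa [add_zero] at this
    · have e2 : (Star_S δ N s)^[n + 1] w - (G ^ (n + 1)).mulVec w =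
          LS.single (s : ℤ) (1 : k) • (fun i => cd δ (u i)) +
            G.mulVec (u - (G ^ n).mulVec w) := by
        rw [e1, Matrix.mulVec_sub, Matrix.mulVec_mulVec, ← pow_succ', add_sub_assoc]
      rw [e2]
      refine Star_VVge_add e0 ?_
      have := MVge.mulVec hG h2
      rwa [zero_add] at this

private lemma Star_S_step (δ : Der k) {N : Matrix ι ι (LS k)} {s r m : ℕ} (hrs : r ≤ s)
    (hG : MVge 0 (LS.single (s : ℤ) (1 : k) • N))
    (hm : MVge (r : ℝ) ((LS.single (s : ℤ) (1 : k) • N) ^ m)) (t : ℕ) {w : ι → LS k}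
    (hw : VVge 0 w) : VVge ((r : ℝ) * t) ((Star_S δ N s)^[m * t] w) := by
  have h1 : ∀ w : ι → LS k, VVge 0 w → VVge (r : ℝ) ((Star_S δ N s)^[m] w) := by
    intro w hw
    have e := (Star_S_int δ hG m hw).2
    have e2 : VVge (r : ℝ) (((LS.single (s : ℤ) (1 : k) • N) ^ m).mulVec w) := by
      have := MVge.mulVec hm hw
      rwa [add_zero] at this
    have e3 := Star_VVge_add (Star_VVge_mono e (by exact_mod_cast hrs : (r : ℝ) ≤ s)) e2
    rwa [sub_add_cancel] at e3
  have h2 : ∀ (c : ℤ) (w : ι → LS k), VVge (c : ℝ) w → VVge (c + r : ℝ) ((Star_S δ N s)^[m] w) := by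
    intro c w hw
    have e1 : w = LS.single c (1 : k) • (LS.single (-c) (1 : k) • w) := by
      rw [smul_smul, LS.single_mul_single, add_neg_cancel, mul_one, LS.single_zero_one, one_smul]
    have e2 : VVge 0 (LS.single (-c) (1 : k) • w) := by
      have := (Star_single_VVge (-c) (c : ℝ) w).2 hw
      push_cast at this
      rwa [neg_add_cancel] at this
    rw [e1, Star_S_mul, Star_single_VVge]
    exact h1 _ e2
  induction t generalizing w with
  | zero =>
    rw [mul_zero, Function.iterate_zero, id_eq, Nat.cast_zero, mul_zero]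
    exact hw
  | succ t ih =>
    have e1 : m * (t + 1) = m + m * t := by ring
    rw [e1, Function.iterate_add_apply]
    have := h2 ((r : ℤ) * t) _ (by push_cast; exact ih hw)
    refine Star_VVge_mono this ?_
    push_cast
    linarith

private lemma Star_S_all (δ : Der k) {N : Matrix ι ι (LS k)} {s r m : ℕ} (hm0 : 0 < m)
    (hrs : r ≤ s) (hG : MVge 0 (LS.single (s : ℤ) (1 : k) • N))
    (hm : MVge (r : ℝ) ((LS.single (s : ℤ) (1 : k) • N) ^ m)) (n : ℕ) {w : ι → LS k}
    (hw : VVge 0 w) :
    VVge (-(((s : ℝ) - (r : ℝ) / m) * n) - r) ((con (cd δ) N)^[n] w) := by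
  have h1 : VVge ((r : ℝ) * (n / m : ℕ)) ((Star_S δ N s)^[n] w) := by
    have e := Star_S_step δ hrs hG hm (n / m) (Star_S_int δ hG (n % m) hw).1
    rwa [← Function.iterate_add_apply, Nat.div_add_mod] at e
  rw [Star_S_con] at h1
  have h2 := (Star_single_VVge ((s : ℤ) * n) ((r : ℝ) * (n / m : ℕ) - s * n)
    ((con (cd δ) N)^[n] w)).1 (by push_cast; rw [add_sub_cancel]; exact h1)
  refine Star_VVge_mono h2 ?_
  have h3 : (n : ℝ) / m - 1 ≤ ((n / m : ℕ) : ℝ) := by
    have hm' : (0 : ℝ) < m := by exact_mod_cast hm0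
    rw [sub_le_iff_le_add, div_le_iff₀ hm']
    have h4 : n < m * (n / m + 1) := Nat.lt_mul_div_succ n hm0
    have h5 : (n : ℝ) < m * ((n / m : ℕ) + 1) := by exact_mod_cast h4
    linarith
  have hr : (0 : ℝ) ≤ r := Nat.cast_nonneg r
  have h4 := mul_le_mul_of_nonneg_left h3 hr
  have h5 : (r : ℝ) / m * n = r * (n / m) := by ring
  linarith

/-- the integral case -/
private lemma Star_main [CharZero k] [Nonempty ι] (δ : Der k) {a : k} (ha : a ≠ 0)
    (hδa : δ a = 0) {GD Gδ : Matrix ι ι (LS k)} (hflat : Flat (LS.C a • zd) (cd δ) GD Gδ)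
    {p s : ℕ} (hps : p < s) (hD : Gr (LS.C a • zd : Der (LS k)) GD (p : ℝ))
    (hδ : Gr (cd δ) Gδ (s : ℝ)) :
    Gr (cd δ) Gδ ((s : ℝ) - ((s : ℝ) - p) / Fintype.card ι) := by
  have hpres : Pres (LS.C a • zd : Der (LS k)) := fun c x hx => by
    rw [Der.smul_apply]
    exact Vge.mul0 (Vge.C a) hx.zd
  have hcomm : ∀ x, (LS.C a • zd : Der (LS k)) (cd δ x) = cd δ ((LS.C a • zd : Der (LS k)) x) := by
    intro x
    rw [Der.smul_apply, Der.smul_apply, (cd δ).leib, LS.C_apply, cd_single, hδa, zd_cd]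
    have : LS.single 0 (0 : k) = 0 := by
      ext n
      rw [LS.coeff_single]
      split_ifs <;> rfl
    rw [this, zero_mul, zero_add]
  obtain ⟨P, Q, hPQ, hQP, hQ0, hH, hN⟩ := Star_lattice hpres (pres_cd δ) hcomm hflat hD hδ
  have hfl := Flat.gauge hcomm hPQ hflat
  set H := Q * (P.map (LS.C a • zd : Der (LS k)) + GD * P) with hHd
  set N := Q * (P.map (cd δ) + Gδ * P) with hNd
  have hG : MVge 0 (LS.single (s : ℤ) (1 : k) • N) := by
    have := MVge.smul (Vge.single (c := (s : ℝ)) (n := (s : ℤ)) (by push_cast; rfl) (1 : k)) hN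
    rwa [add_neg_cancel] at this
  set r := s - p with hr
  have hrc : (r : ℝ) = (s : ℝ) - p := by
    rw [hr, Nat.cast_sub hps.le]
  have hm : MVge (r : ℝ) ((LS.single (s : ℤ) (1 : k) • N) ^ Fintype.card ι) := by
    refine Star_nil _ hG r fun j => ?_
    rw [smul_pow, Matrix.trace_smul, smul_eq_mul, Star_single_pow]
    have := Vge.mul (Vge.single (c := (s : ℝ) * (j + 1)) (n := (s : ℤ) * ((j + 1 : ℕ) : ℤ))
      (by push_cast; rfl) (1 : k)) (Star_tr3 δ ha hfl hH hN j)
    refine Vge.mono this ?_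
    rw [hrc]
    linarith
  obtain ⟨cP, hcP⟩ := exists_MVge P
  refine Gr_of_vec ⟨r - cP, fun n j => ?_⟩
  have hQj : VVge 0 (Q.mulVec (Pi.single j 1)) := by
    rw [Star_mulVec_single]
    exact fun i => hQ0 i j
  have e1 : ∀ (n : ℕ) (w : ι → LS k), (con (cd δ) Gδ)^[n] (P.mulVec w) =
      P.mulVec ((con (cd δ) N)^[n] w) := by
    intro n
    induction n with
    | zero => intro w; rfl
    | succ n ih =>
      intro w
      rw [Function.iterate_succ_apply, con_gauge (cd δ) Gδ P Q hPQ, ih,
        ← Function.iterate_succ_apply]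
  have e2 : (Pi.single j 1 : ι → LS k) = P.mulVec (Q.mulVec (Pi.single j 1)) := by
    rw [Matrix.mulVec_mulVec, hPQ, Matrix.one_mulVec]
  rw [e2, e1]
  have e3 := MVge.mulVec hcP (Star_S_all δ Fintype.card_pos (Nat.sub_le s p) hG hm n hQj)
  refine Star_VVge_mono e3 ?_
  rw [← hr, ← hrc]
  linarith

end aux

/-- the trace lemma (4.1) -/
theorem star [CharZero k] {ι : Type} [Fintype ι] [DecidableEq ι] [Nonempty ι] (δ : Der k)
    (GD Gδ : Matrix ι ι (LS k)) (hflat : Flat zd (cd δ) GD Gδ) {σ' σ : ℚ} (h0 : 0 ≤ σ')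
    (h1 : σ' < σ) (hD : Gr zd GD (σ' : ℝ)) (hδ : Gr (cd δ) Gδ (σ : ℝ)) :
    Gr (cd δ) Gδ ((σ : ℝ) - ((σ : ℝ) - σ') / Fintype.card ι) := by
  obtain ⟨q, hq, p, s, hp, hs⟩ : ∃ q : ℕ, 0 < q ∧ ∃ p s : ℕ, (p : ℚ) = q * σ' ∧
      (s : ℚ) = q * σ := by
    have hσ0 : 0 ≤ σ := h0.trans h1.le
    refine ⟨σ'.den * σ.den, Nat.mul_pos σ'.den_pos σ.den_pos, σ.den * σ'.num.toNat,
      σ'.den * σ.num.toNat, ?_, ?_⟩
    · have e1 : ((σ'.num.toNat : ℕ) : ℚ) = σ'.num := by
        have : ((σ'.num.toNat : ℕ) : ℤ) = σ'.num := Int.toNat_of_nonneg (Rat.num_nonneg.2 h0)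
        exact_mod_cast this
      have e2 := Rat.den_mul_eq_num σ'
      push_cast
      rw [e1]
      linear_combination -(σ.den : ℚ) * e2
    · have e1 : ((σ.num.toNat : ℕ) : ℚ) = σ.num := by
        have : ((σ.num.toNat : ℕ) : ℤ) = σ.num := Int.toNat_of_nonneg (Rat.num_nonneg.2 hσ0)
        exact_mod_cast this
      have e2 := Rat.den_mul_eq_num σ
      push_cast
      rw [e1]
      linear_combination -(σ'.den : ℚ) * e2
  have hqQ : (0 : ℚ) < q := by exact_mod_cast hq
  have hqR : (0 : ℝ) < q := by exact_mod_cast hq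
  have hpR : (p : ℝ) = q * σ' := by exact_mod_cast congrArg (fun x : ℚ => (x : ℝ)) hp
  have hsR : (s : ℝ) = q * σ := by exact_mod_cast congrArg (fun x : ℚ => (x : ℝ)) hs
  have hps : p < s := by
    have : (p : ℚ) < s := by
      rw [hp, hs]
      exact mul_lt_mul_of_pos_left h1 hqQ
    exact_mod_cast this
  have hqk : (q : k)⁻¹ ≠ 0 := inv_ne_zero (Nat.cast_ne_zero.2 hq.ne')
  have hδq : δ (q : k)⁻¹ = 0 := by
    have h2 : ∀ n : ℕ, δ (n : k) = 0 := by
      intro n
      induction n with
      | zero => rw [Nat.cast_zero, map_zero]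
      | succ n ih => rw [Nat.cast_succ, map_add, ih, δ.map_one', add_zero]
    have h3 := δ.leib (q : k) (q : k)⁻¹
    rw [mul_inv_cancel₀ (Nat.cast_ne_zero.2 hq.ne'), δ.map_one', h2, zero_mul, zero_add] at h3
    exact (mul_eq_zero.1 h3.symm).resolve_left (Nat.cast_ne_zero.2 hq.ne')
  have hfl := Star_ram_Flat q hq (Star_ram_zd q hq) (Star_ram_cd q hq δ) hflat
  have hD' := (Star_ram_Gr q hq (Star_ram_zd q hq) GD (σ' : ℝ)).2 hD
  have hδ' := (Star_ram_Gr q hq (Star_ram_cd q hq δ) Gδ (σ : ℝ)).2 hδ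
  rw [← hpR] at hD'
  rw [← hsR] at hδ'
  have := Star_main δ hqk hδq hfl hps hD' hδ'
  rw [← Star_ram_Gr q hq (Star_ram_cd q hq δ)]
  convert this using 1
  rw [hpR, hsR]
  ring

end

end Pool.Agent.Fbc
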