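import Pool.Agent.Fbc.Node

import Pool.Agent.Fbc.Star

/-!
# The maximum principle (section 5)
-/

set_option autoImplicit false

namespace Pool.Agent.Fbc

open Polynomial

variable {l : ℕ} {ι : Type} [Fintype ι] [DecidableEq ι]

/-- admissible system (section 2) -/
structure Adm (u : Fin l → K) (Gt GD : Matrix ι ι KT) : Prop where
  polt : ∀ a b, IsPol u (Gt a b)
  polD : ∀ a b, IsPol u (GD a b)
  flat : Flat DK Dt GD Gt
  gt : MVge 0 (Gt.map (node 0 0))
  gD : MVge 0 (GD.map (node 0 0))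
  regX : ∀ i, MVge 0 ((GD + cT (zd (u i)) • Gt).map (loc (u i)))
  regY : ∀ i, MVge 0 (((tT - cT (u i)) • Gt).map (loc (u i)))

/-- the matrix of `X_i` -/
noncomputable def gX (u : Fin l → K) (Gt GD : Matrix ι ι KT) (i : Fin l) : Matrix ι ι KT :=
  GD + cT (zd (u i)) • Gt

/-- the matrix of `Y_i` -/
noncomputable def gY (u : Fin l → K) (Gt : Matrix ι ι KT) (i : Fin l) : Matrix ι ι KT :=
  (tT - cT (u i)) • Gt

/-- growth `≤ σ` at the node `(i, κ)` of `D_ξ = X_i + κ Y_i` and of `Y_i` -/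
def GrN (u : Fin l → K) (Gt GD : Matrix ι ι KT) (i : Fin l) (κ : ℕ) (σ : ℝ) : Prop :=
  Gr zd ((gX u Gt GD i + (κ : KT) • gY u Gt i).map (node (u i) κ)) σ ∧
    Gr (cd zd) ((gY u Gt i).map (node (u i) κ)) σ

variable {u : Fin l → K} {Gt GD : Matrix ι ι KT}

/-! ### module m1 -/

private lemma m1_c (i : Fin l) (κ : ℕ) (u : Fin l → K) (g : KT) :
    zd (node (u i) κ g) = node (u i) κ (DK g + (cT (zd (u i)) +
      (κ : KT) * (tT - cT (u i))) * Dt g) := by
  rw [← node_DX]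
  congr 1
  simp only [DX, DY, Der.add_apply, Der.smul_apply]
  ring

/-- flatness at a node -/
lemma flat_node (h : Adm u Gt GD) (i : Fin l) (κ : ℕ) :
    Flat zd (cd zd) ((gX u Gt GD i + (κ : KT) • gY u Gt i).map (node (u i) κ))
      ((gY u Gt i).map (node (u i) κ)) := by
  have hf := h.flat
  unfold Flat at hf ⊢
  have hnat : Dt ((κ : KT)) = 0 := by
    have hk : (κ : KT) = cT (κ : K) := by simp [cT]
    rw [hk, Dt_cT]
  have hw : Dt (tT - cT (u i)) = 1 := by rw [map_sub, Dt_tT, Dt_cT, sub_zero]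
  have hw' : DK (tT - cT (u i)) = -cT (zd (u i)) := by
    rw [map_sub, DK_tT, DK_cT, zero_sub]
  refine Matrix.ext fun a b => ?_
  have hab := congrFun (congrFun hf a) b
  simp only [Matrix.add_apply, Matrix.sub_apply, Matrix.map_apply, Matrix.mul_apply,
    Matrix.zero_apply, gX, gY, Matrix.smul_apply, smul_eq_mul] at hab ⊢
  rw [m1_c, ← node_DY]
  simp only [← map_mul, ← map_sum, ← map_sub, ← map_add]
  rw [← map_zero (node (u i) κ)]
  congr 1
  simp only [DY, Der.smul_apply, Der.leib, map_add, hnat, hw, hw', Dt_cT]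
  have e1 : (∑ x, (GD a x + cT (zd (u i)) * Gt a x + (κ : KT) * ((tT - cT (u i)) * Gt a x)) *
      ((tT - cT (u i)) * Gt x b)) =
      (tT - cT (u i)) * (∑ x, GD a x * Gt x b) +
        ((cT (zd (u i)) + (κ : KT) * (tT - cT (u i))) * (tT - cT (u i))) *
          ∑ x, Gt a x * Gt x b := by
    rw [Finset.mul_sum, Finset.mul_sum, ← Finset.sum_add_distrib]
    refine Finset.sum_congr rfl fun x _ => ?_
    ring
  have e2 : (∑ x, ((tT - cT (u i)) * Gt a x) *
      (GD x b + cT (zd (u i)) * Gt x b + (κ : KT) * ((tT - cT (u i)) * Gt x b))) =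
      (tT - cT (u i)) * (∑ x, Gt a x * GD x b) +
        ((cT (zd (u i)) + (κ : KT) * (tT - cT (u i))) * (tT - cT (u i))) *
          ∑ x, Gt a x * Gt x b := by
    rw [Finset.mul_sum, Finset.mul_sum, ← Finset.sum_add_distrib]
    refine Finset.sum_congr rfl fun x _ => ?_
    ring
  rw [e1, e2]
  linear_combination (tT - cT (u i)) * hab

/-- at the Gauss point there is no growth -/
lemma GrN_gauss (h : Adm u Gt GD) (hu : ∀ i, Vge 0 (u i)) (i : Fin l) : GrN u Gt GD i 0 0 := by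
  have hb : Vge ((0 : ℕ) : ℝ) (u i - 0) := by
    rw [sub_zero, Nat.cast_zero]; exact hu i
  have h1 : ∀ a b, Vge 0 (node (u i) 0 (Gt a b)) := fun a b =>
    (node_Vge_congr hb 0 _).1 (h.gt a b)
  have h2 : ∀ a b, Vge 0 (node (u i) 0 (GD a b)) := fun a b =>
    (node_Vge_congr hb 0 _).1 (h.gD a b)
  have h3 : Vge 0 (node (u i) 0 (tT - cT (u i))) := by
    rw [map_sub, node_tT, node_cT, add_sub_cancel_left]
    exact Vge.single (by simp) _
  have h4 : Vge 0 (node (u i) 0 (cT (zd (u i)))) := by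
    rw [node_cT]; exact Vge_inn.2 (hu i).zd
  have hY : MVge (-(0 : ℝ)) ((gY u Gt i).map (node (u i) 0)) := by
    intro a b
    rw [neg_zero]
    simp only [gY, Matrix.map_apply, Matrix.smul_apply, smul_eq_mul, map_mul]
    exact h3.mul0 (h1 a b)
  refine ⟨Gr_of_MVge pres_zd le_rfl ?_, Gr_of_MVge (pres_cd _) le_rfl hY⟩
  intro a b
  rw [neg_zero]
  simp only [gX, Matrix.map_apply, Matrix.add_apply, Matrix.smul_apply, smul_eq_mul, map_mul,
    map_add, Nat.cast_zero, zero_mul, add_zero]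
  exact (h2 a b).add (h4.mul0 (h1 a b))

lemma GrN.mono {i : Fin l} {κ : ℕ} {σ σ' : ℝ} (h : GrN u Gt GD i κ σ) (hσ : σ ≤ σ') :
    GrN u Gt GD i κ σ' := by
  exact ⟨Gr.mono h.1 hσ, Gr.mono h.2 hσ⟩

/-- a trivial common bound -/
lemma GrN_exists (h : Adm u Gt GD) (K₀ : ℕ) :
    ∃ σ : ℚ, 0 < σ ∧ ∀ i κ, κ ≤ K₀ → GrN u Gt GD i κ (σ : ℝ) := by
  have h1 : ∀ (i : Fin l) (κ : ℕ), ∃ σ : ℝ, 0 ≤ σ ∧ GrN u Gt GD i κ σ := by
    intro i κ
    obtain ⟨c1, hc1⟩ := exists_MVge ((gX u Gt GD i + (κ : KT) • gY u Gt i).map (node (u i) κ))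
    obtain ⟨c2, hc2⟩ := exists_MVge ((gY u Gt i).map (node (u i) κ))
    refine ⟨|c1| + |c2|, by positivity, Gr_of_MVge pres_zd (by positivity) ?_,
      Gr_of_MVge (pres_cd _) (by positivity) ?_⟩
    · exact hc1.mono (by have := neg_abs_le c1; have := abs_nonneg c2; linarith)
    · exact hc2.mono (by have := neg_abs_le c2; have := abs_nonneg c1; linarith)
  choose s hs0 hs using h1
  obtain ⟨q, hq⟩ := exists_rat_gt (∑ i, ∑ κ ∈ Finset.range (K₀ + 1), s i κ)
  have hpos : 0 ≤ ∑ i, ∑ κ ∈ Finset.range (K₀ + 1), s i κ :=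
    Finset.sum_nonneg fun i _ => Finset.sum_nonneg fun κ _ => hs0 i κ
  refine ⟨q, by exact_mod_cast lt_of_le_of_lt hpos hq, fun i κ hκ => (hs i κ).mono ?_⟩
  refine le_trans ?_ hq.le
  refine le_trans ?_ (Finset.single_le_sum (f := fun i => ∑ κ ∈ Finset.range (K₀ + 1), s i κ)
    (fun i _ => Finset.sum_nonneg fun κ _ => hs0 i κ) (Finset.mem_univ i))
  exact Finset.single_le_sum (f := fun κ => s i κ) (fun κ _ => hs0 i κ)
    (Finset.mem_range.2 (by omega))

/-! ### module m2 -/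

/-- growth at the node `(j, κ')` of the connection over `D + c ∂_t` -/
lemma grow_at (h : Adm u Gt GD) (j : Fin l) (κ' : ℕ) (c : KT)
    (hc : Vge 0 (node (u j) κ' ((c - cT (zd (u j))) / (tT - cT (u j)) - κ')))
    {σ : ℝ} (hσ : 0 ≤ σ) (hg : GrN u Gt GD j κ' σ) :
    ∃ C : ℝ, ∀ n : ℕ, MVge (-(σ * n) - C)
      ((itr (DK + c • Dt) (GD + c • Gt) n).map (node (u j) κ')) := by
  have hne : tT - cT (u j) ≠ 0 := tT_sub_ne (u j)
  have hcc : c = cT (zd (u j)) + ((κ' : KT) +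
      ((c - cT (zd (u j))) / (tT - cT (u j)) - κ')) * (tT - cT (u j)) := by
    field_simp
    ring
  generalize ((c - cT (zd (u j))) / (tT - cT (u j)) - (κ' : KT)) = ψ at hc hcc
  have hgr := Gr.comb (φ := (1 : F)) (ψ := node (u j) κ' ψ) pres_zd (pres_cd zd) (zd_cd zd)
    (flat_node h j κ') hσ hg.1 hg.2 Vge.one hc
  obtain ⟨C, hC⟩ := hgr
  refine ⟨C, fun n => ?_⟩
  have hmap : ∀ x : KT, node (u j) κ' ((DK + c • Dt) x) =
      ((1 : F) • (zd : Der F) + node (u j) κ' ψ • (cd zd : Der F) : Der F) (node (u j) κ' x) := by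
    intro x
    have e1 : (DK + c • Dt) x = (DX (u j) x + (κ' : KT) * DY (u j) x) + ψ * DY (u j) x := by
      have e2 : DX (u j) x = DK x + cT (zd (u j)) * Dt x := rfl
      have e3 : DY (u j) x = (tT - cT (u j)) * Dt x := rfl
      rw [Der.add_apply, Der.smul_apply, e2, e3]
      conv_lhs => rw [hcc]
      ring
    rw [e1, map_add, map_mul, node_DX, node_DY, Der.add_apply, Der.smul_apply, Der.smul_apply,
      one_mul]
  rw [itr_map (node (u j) κ') (DK + c • Dt) _ hmap]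
  have hG : (GD + c • Gt).map (node (u j) κ') =
      (1 : F) • (gX u Gt GD j + (κ' : KT) • gY u Gt j).map (node (u j) κ')
        + node (u j) κ' ψ • (gY u Gt j).map (node (u j) κ') := by
    refine Matrix.ext fun a b => ?_
    simp only [Matrix.map_apply, Matrix.add_apply, Matrix.smul_apply, smul_eq_mul, gX, gY, one_mul]
    rw [← map_mul, ← map_add]
    congr 1
    conv_lhs => rw [hcc]
    ring
  rw [hG]
  exact hC n

/-- the coefficient `c` of `D_ξ`, `ξ = (i, κ + 1)` -/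
noncomputable def cxi (u : Fin l → K) (i : Fin l) (κ : ℕ) : KT :=
  cT (zd (u i)) + ((κ : KT) + 1) * (tT - cT (u i))

/-- at the parent -/
lemma cxi_parent (u : Fin l → K) (i : Fin l) (κ : ℕ) :
    Vge 0 (node (u i) κ ((cxi u i κ - cT (zd (u i))) / (tT - cT (u i)) - κ)) := by
  have h1 : (cxi u i κ - cT (zd (u i))) / (tT - cT (u i)) - κ = 1 := by
    rw [cxi, add_sub_cancel_left, mul_div_cancel_right₀ _ (tT_sub_ne (u i)), add_sub_cancel_left]
  rw [h1, map_one]
  exact Vge.one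

private lemma m2b_cT_sub (a b : K) : cT (a - b) = cT a - cT b := by
  unfold cT
  rw [C_sub, map_sub]

private lemma m2b_num {κ : ℕ} {δ : K} (h : Vge ((κ : ℝ) + 1) δ) :
    Vge ((κ : ℝ) + 2) (-(zd δ) + ((κ : K) + 1) * δ) := by
  intro n hn
  have h0 : ((κ : K) + 1) = LS.C ((κ : ℂ) + 1) := by
    rw [map_add, map_natCast, map_one]
  rw [LS.coeff_add, LS.coeff_neg, zd_coeff, h0, LS.coeff_C_mul]
  by_cases h1 : (n : ℝ) < (κ : ℝ) + 1
  · rw [h n h1, mul_zero, mul_zero, neg_zero, add_zero]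
  · have h2 : n = (κ : ℤ) + 1 := by
      have h3 : (κ : ℤ) + 1 ≤ n := by
        have : ((κ : ℤ) + 1 : ℝ) ≤ (n : ℝ) := by
          rw [Int.cast_natCast]
          exact not_lt.1 h1
        exact_mod_cast this
      have h4 : n < (κ : ℤ) + 2 := by
        have : (n : ℝ) < (((κ : ℤ) + 2 : ℤ) : ℝ) := by
          push_cast
          exact hn
        exact_mod_cast this
      omega
    rw [h2]
    push_cast
    ring

/-- at a child -/
lemma cxi_child (u : Fin l → K) (i j : Fin l) (κ : ℕ) (hj : Vge ((κ : ℝ) + 1) (u j - u i)) :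
    Vge 0 (node (u j) (κ + 2)
      ((cxi u i κ - cT (zd (u j))) / (tT - cT (u j)) - ((κ + 2 : ℕ) : KT))) := by
  have hne := tT_sub_ne (u j)
  have h1 : (cxi u i κ - cT (zd (u j))) / (tT - cT (u j)) - ((κ + 2 : ℕ) : KT) =
      cT (-(zd (u j - u i)) + ((κ : K) + 1) * (u j - u i)) / (tT - cT (u j)) - 1 := by
    have h2 : cT (-(zd (u j - u i)) + ((κ : K) + 1) * (u j - u i)) =
        cT (zd (u i)) - cT (zd (u j)) + ((κ : KT) + 1) * (cT (u j) - cT (u i)) := by
      have h3 : cT (((κ : K) + 1) * (u j - u i)) = ((κ : KT) + 1) * (cT (u j) - cT (u i)) := by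
        rw [← m2b_cT_sub]
        unfold cT
        rw [C_mul, map_mul, C_add, map_add, C_1, map_one, C_eq_natCast, map_natCast]
      have h4 : -(zd (u j - u i)) + ((κ : K) + 1) * (u j - u i) =
          zd (u i) - zd (u j) - (-(((κ : K) + 1) * (u j - u i))) := by
        rw [map_sub]
        ring
      rw [h4, m2b_cT_sub, m2b_cT_sub, ← zero_sub, m2b_cT_sub, h3]
      unfold cT
      rw [C_0, map_zero]
      ring
    rw [h2, cxi, div_sub' hne, div_sub' hne]
    congr 1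
    push_cast
    ring
  rw [h1, map_sub, map_one, map_div₀]
  refine Vge.sub ?_ Vge.one
  have h9 : node (u j) (κ + 2) (tT - cT (u j)) =
      LS.single (((κ + 2 : ℕ) : ℤ)) (LS.single (1 : ℤ) (1 : ℂ)) := by
    rw [map_sub, node_cT, node_tT, add_sub_cancel_left]
  rw [node_cT, h9]
  have h5 : (LS.single (1 : ℤ) (1 : ℂ) : K) ≠ 0 := by
    intro h
    have := congrArg (fun x : K => x.coeff 1) h
    simp only [LS.coeff_single_same, LS.coeff_zero] at this
    exact one_ne_zero this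
  have h6 : (LS.single (((κ + 2 : ℕ) : ℤ)) (LS.single (1 : ℤ) (1 : ℂ)) : F) ≠ 0 := by
    intro h
    have := congrArg (fun x : F => x.coeff ((κ + 2 : ℕ) : ℤ)) h
    simp only [LS.coeff_single_same, LS.coeff_zero] at this
    exact h5 this
  refine Vge_of_mul h6 ?_
  rw [mul_div_cancel₀ _ h6, LS.ord_single h5, Vge_inn]
  have h7 := m2b_num hj
  have h8 : (0 : ℝ) + (((κ + 2 : ℕ) : ℤ) : ℝ) = (κ : ℝ) + 2 := by
    push_cast
    ring
  rw [h8]
  exact h7

/-! ### module m3 -/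

private lemma m3_isPol_zero (u : Fin l → K) : IsPol u 0 := by
  simpa using IsPol.poly u 0

private lemma m3_isPol_one (u : Fin l → K) : IsPol u 1 := by
  simpa using IsPol.poly u 1

private lemma m3_isPol_nat (u : Fin l → K) (n : ℕ) : IsPol u (n : KT) := by
  simpa using IsPol.poly u (n : K[X])

/-- the iterates stay in `K[t, 1/f]` -/
lemma itr_isPol {G : Matrix ι ι KT} (hG : ∀ a b, IsPol u (G a b)) {c : KT} (hc : IsPol u c)
    (n : ℕ) (a b : ι) : IsPol u (itr (DK + c • Dt) G n a b) := by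
  induction n generalizing a b with
  | zero =>
    change IsPol u ((1 : Matrix ι ι KT) a b)
    rw [Matrix.one_apply]
    split_ifs
    · exact m3_isPol_one u
    · exact m3_isPol_zero u
  | succ n ih =>
    change IsPol u (((itr (DK + c • Dt) G n).map (DK + c • Dt) + G * itr (DK + c • Dt) G n) a b)
    rw [Matrix.add_apply, Matrix.map_apply, Matrix.mul_apply, Der.add_apply, Der.smul_apply]
    exact ((ih a b).DK.add (hc.mul (ih a b).Dt)).add
      (IsPol.sum fun x _ => (hG a x).mul (ih x b))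

private lemma m3_cxi_isPol (u : Fin l → K) (i : Fin l) (κ : ℕ) : IsPol u (cxi u i κ) :=
  (IsPol.cT _).add (((m3_isPol_nat u κ).add (m3_isPol_one u)).mul (IsPol.tT.sub (IsPol.cT _)))

/-- first half of (5.2): growth of `D_ξ` at `ξ = (i, κ + 1)` -/
theorem step_D (h : Adm u Gt GD) (i : Fin l) (κ : ℕ) {σ σ' : ℝ} (h0 : 0 ≤ σ') (h1 : σ' ≤ σ)
    (hc : ∀ j, Vge ((κ : ℝ) + 1) (u j - u i) → GrN u Gt GD j (κ + 2) σ)
    (hp : GrN u Gt GD i κ σ') :
    Gr zd ((gX u Gt GD i + ((κ + 1 : ℕ) : KT) • gY u Gt i).map (node (u i) (κ + 1)))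
      ((l * σ + σ') / (l + 1)) := by
  classical
  have hσ : 0 ≤ σ := h0.trans h1
  -- common constant for the children
  have hch : ∀ j : Fin l, ∃ C : ℝ, Vge ((κ : ℝ) + 1) (u j - u i) → ∀ n : ℕ,
      MVge (-(σ * n) - C)
        ((itr (DK + cxi u i κ • Dt) (GD + cxi u i κ • Gt) n).map (node (u j) (κ + 2))) := by
    intro j
    by_cases hj : Vge ((κ : ℝ) + 1) (u j - u i)
    · obtain ⟨C, hC⟩ := grow_at h j (κ + 2) (cxi u i κ) (cxi_child u i j κ hj) hσ (hc j hj)
      exact ⟨C, fun _ => hC⟩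
    · exact ⟨0, fun hj' => absurd hj' hj⟩
  choose C hC using hch
  obtain ⟨C', hC'⟩ := grow_at h i κ (cxi u i κ) (cxi_parent u i κ) h0 hp
  set B : ℝ := |C'| + ∑ j, |C j| with hB
  have hBj : ∀ j, C j ≤ B := fun j => by
    have h2 : |C j| ≤ ∑ j, |C j| :=
      Finset.single_le_sum (fun j _ => abs_nonneg (C j)) (Finset.mem_univ j)
    have h3 := le_abs_self (C j)
    have h4 := abs_nonneg C'
    linarith
  have hB' : C' ≤ B := by
    have h2 : 0 ≤ ∑ j, |C j| := Finset.sum_nonneg fun j _ => abs_nonneg (C j)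
    have h3 := le_abs_self C'
    linarith
  refine ⟨B, fun n => ?_⟩
  have hmap : itr zd ((gX u Gt GD i + ((κ + 1 : ℕ) : KT) • gY u Gt i).map (node (u i) (κ + 1))) n =
      (itr (DK + cxi u i κ • Dt) (GD + cxi u i κ • Gt) n).map (node (u i) (κ + 1)) := by
    rw [itr_map (node (u i) (κ + 1)) (DK + cxi u i κ • Dt) zd]
    · congr 2
      ext a b
      simp only [gX, gY, cxi, Matrix.add_apply, Matrix.smul_apply, smul_eq_mul]
      push_cast
      ring
    · intro x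
      rw [← node_DX]
      congr 1
      simp only [DX, DY, cxi, Der.add_apply, Der.smul_apply]
      push_cast
      ring
  rw [hmap]
  intro a b
  rw [Matrix.map_apply]
  have hpol : IsPol u (itr (DK + cxi u i κ • Dt) (GD + cxi u i κ • Gt) n a b) := by
    refine itr_isPol ?_ (m3_cxi_isPol u i κ) n a b
    intro a b
    rw [Matrix.add_apply, Matrix.smul_apply, smul_eq_mul]
    exact (h.polD a b).add ((m3_cxi_isPol u i κ).mul (h.polt a b))
  have hn : (0 : ℝ) ≤ n := Nat.cast_nonneg n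
  have hkey := convex u i κ hpol (ν := -(σ * n) - B) (ν' := -(σ' * n) - B)
    (by have := mul_le_mul_of_nonneg_right h1 hn; linarith)
    (fun j hj => (hC j hj n a b).mono (by have := hBj j; linarith))
    ((hC' n a b).mono (by linarith))
  refine hkey.mono (le_of_eq ?_)
  have hl : (l : ℝ) + 1 ≠ 0 := by positivity
  field_simp
  ring

/-! ### module m4 -/

/-- (5.2) -/
theorem step [Nonempty ι] (h : Adm u Gt GD) (i : Fin l) (κ : ℕ) {σ ε : ℚ} (hσ : 0 < σ)
    (hε : 0 < ε) (hε1 : ε ≤ 1)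
    (hc : ∀ j, Vge ((κ : ℝ) + 1) (u j - u i) → GrN u Gt GD j (κ + 2) (σ : ℝ))
    (hs : GrN u Gt GD i (κ + 1) (σ : ℝ)) (hp : GrN u Gt GD i κ (((1 - ε) * σ : ℚ) : ℝ)) :
    GrN u Gt GD i (κ + 1) (((1 - ε / ((l + 1) * Fintype.card ι)) * σ : ℚ) : ℝ) := by
  have hσ' : 0 ≤ (1 - ε) * σ := mul_nonneg (sub_nonneg.2 hε1) hσ.le
  have hσ'' : (1 - ε) * σ ≤ σ := by nlinarith [mul_pos hε hσ]
  have h1 := step_D h i κ (σ := (σ : ℝ)) (σ' := (((1 - ε) * σ : ℚ) : ℝ))
    (by exact_mod_cast hσ') (by exact_mod_cast hσ'') hc hp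
  obtain ⟨σ₁, hσ₁⟩ : ∃ σ₁ : ℚ, σ₁ = (l * σ + (1 - ε) * σ) / (l + 1) := ⟨_, rfl⟩
  have hl : (0 : ℚ) < (l : ℚ) + 1 := by positivity
  have hl0 : (0 : ℚ) ≤ (l : ℚ) := Nat.cast_nonneg l
  have hc1 : (1 : ℚ) ≤ (Fintype.card ι : ℚ) := by exact_mod_cast Fintype.card_pos
  have hc0 : (0 : ℚ) < (Fintype.card ι : ℚ) := by linarith
  have e1 : ((l * (σ : ℝ) + (((1 - ε) * σ : ℚ) : ℝ)) / (l + 1)) = ((σ₁ : ℚ) : ℝ) := by
    rw [hσ₁]; push_cast; ring
  rw [e1] at h1
  have hσ₁0 : 0 ≤ σ₁ := by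
    rw [hσ₁]
    exact div_nonneg (add_nonneg (mul_nonneg hl0 hσ.le) hσ') hl.le
  have hσ₁e : σ₁ = σ - ε * σ / (l + 1) := by
    rw [hσ₁]; field_simp; ring
  have hpos : 0 < ε * σ / (l + 1) := div_pos (mul_pos hε hσ) hl
  have hσ₁1 : σ₁ < σ := by rw [hσ₁e]; linarith
  have h2 := star (zd : Der K) _ _ (flat_node h i (κ + 1)) hσ₁0 hσ₁1 h1 hs.2
  have e2 : ((σ : ℝ) - ((σ : ℝ) - (σ₁ : ℝ)) / (Fintype.card ι : ℝ)) =
      (((1 - ε / ((l + 1) * Fintype.card ι)) * σ : ℚ) : ℝ) := by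
    have e3 : (σ - (σ - σ₁) / (Fintype.card ι : ℚ)) =
        (1 - ε / ((l + 1) * Fintype.card ι)) * σ := by
      rw [hσ₁e]; field_simp; ring
    rw [← e3]; push_cast; ring
  rw [e2] at h2
  refine ⟨h1.mono ?_, h2⟩
  have h3 : σ₁ ≤ (1 - ε / ((l + 1) * Fintype.card ι)) * σ := by
    have e3 : (1 - ε / ((l + 1) * Fintype.card ι)) * σ =
        σ - ε * σ / (l + 1) / (Fintype.card ι : ℚ) := by
      field_simp
    rw [e3, hσ₁e]
    have h4 : ε * σ / (l + 1) / (Fintype.card ι : ℚ) ≤ ε * σ / (l + 1) :=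
      div_le_self hpos.le hc1
    linarith
  exact_mod_cast h3

/-- iterates of an integral connection are integral -/
private lemma m4_reg {θ : Der F} (hθ : Pres θ) {G : Matrix ι ι F} (hG : MVge 0 G) (n : ℕ) :
    MVge 0 (itr θ G n) := by
  induction n with
  | zero => exact MVge.one
  | succ n ih =>
    change MVge 0 ((itr θ G n).map θ + G * itr θ G n)
    refine MVge.add (fun a b => hθ 0 _ (ih a b)) ?_
    have h := MVge.mul hG ih
    rwa [zero_add] at h

omit [Fintype ι] [DecidableEq ι] in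
/-- the passage to the leaf for a family of matrices -/
private lemma m4_leaf (u : Fin l → K) (i : Fin l) (κ : ℕ)
    (hi : ∀ j, j ≠ i → ¬ Vge ((κ : ℝ) + 1) (u j - u i)) {M : Matrix ι ι KT}
    (hM : ∀ a b, IsPol u (M a b)) (hr : MVge 0 (M.map (loc (u i)))) {c : ℝ}
    (h : MVge c (M.map (node (u i) κ))) : MVge c (M.map (node (u i) (κ + 1))) :=
  fun a b => leaf u i κ hi (hM a b) (hr a b) (h a b)

private lemma m4_isPol_zero (u : Fin l → K) : IsPol u 0 := by
  have h := IsPol.poly u (0 : K[X])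
  rwa [map_zero] at h

private lemma m4_isPol_one (u : Fin l → K) : IsPol u 1 := by
  have h := IsPol.poly u (1 : K[X])
  rwa [map_one] at h

private lemma m4_isPol_nat (u : Fin l → K) (n : ℕ) : IsPol u (n : KT) := by
  have h := IsPol.poly u (n : K[X])
  rwa [map_natCast] at h

/-- the iterates of `Y_i` stay in `K[t, 1/f]` -/
private lemma m4_itrY_isPol (i : Fin l) {G : Matrix ι ι KT} (hG : ∀ a b, IsPol u (G a b))
    (n : ℕ) (a b : ι) : IsPol u (itr (DY (u i)) G n a b) := by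
  induction n generalizing a b with
  | zero =>
    change IsPol u ((1 : Matrix ι ι KT) a b)
    rw [Matrix.one_apply]
    split_ifs
    · exact m4_isPol_one u
    · exact m4_isPol_zero u
  | succ n ih =>
    change IsPol u (((itr (DY (u i)) G n).map (DY (u i)) + G * itr (DY (u i)) G n) a b)
    rw [Matrix.add_apply, Matrix.map_apply, Matrix.mul_apply]
    exact ((IsPol.tT.sub (IsPol.cT _)).mul (ih a b).Dt).add
      (IsPol.sum fun x _ => (hG a x).mul (ih x b))

/-- (5.1) -/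
theorem leaf_step (h : Adm u Gt GD) (i : Fin l) (κ : ℕ)
    (hi : ∀ j, j ≠ i → ¬ Vge ((κ : ℝ) + 1) (u j - u i)) {σ : ℝ} (hσ : 0 ≤ σ)
    (hg : GrN u Gt GD i κ σ) : GrN u Gt GD i (κ + 1) σ := by
  refine ⟨?_, ?_⟩
  · obtain ⟨C, hC⟩ := grow_at h i κ (cxi u i κ) (cxi_parent u i κ) hσ hg
    refine ⟨C, fun n => ?_⟩
    have hmap : itr zd ((gX u Gt GD i + ((κ + 1 : ℕ) : KT) • gY u Gt i).map
        (node (u i) (κ + 1))) n =
        (itr (DK + cxi u i κ • Dt) (GD + cxi u i κ • Gt) n).map (node (u i) (κ + 1)) := by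
      rw [itr_map (node (u i) (κ + 1)) (DK + cxi u i κ • Dt) zd]
      · congr 2
        ext a b
        simp only [gX, gY, cxi, Matrix.add_apply, Matrix.smul_apply, smul_eq_mul]
        push_cast
        ring
      · intro x
        rw [← node_DX]
        congr 1
        simp only [DX, DY, cxi, Der.add_apply, Der.smul_apply]
        push_cast
        ring
    rw [hmap]
    have hcp : IsPol u (cxi u i κ) := (IsPol.cT _).add
      (((m4_isPol_nat u κ).add (m4_isPol_one u)).mul (IsPol.tT.sub (IsPol.cT _)))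
    refine m4_leaf u i κ hi ?_ ?_ (hC n)
    · refine itr_isPol ?_ hcp n
      intro a b
      rw [Matrix.add_apply, Matrix.smul_apply, smul_eq_mul]
      exact (h.polD a b).add (hcp.mul (h.polt a b))
    · have hloc : ∀ x : KT, loc (u i) ((DK + cxi u i κ • Dt) x) =
          ((cd zd : Der F) + ((κ + 1 : ℕ) : F) • (zd : Der F)) (loc (u i) x) := by
        intro x
        have e1 : (DK + cxi u i κ • Dt) x = DX (u i) x + ((κ + 1 : ℕ) : KT) * DY (u i) x := by
          simp only [DX, DY, cxi, Der.add_apply, Der.smul_apply]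
          push_cast
          ring
        rw [e1, map_add, map_mul, loc_DX, loc_DY, map_natCast, Der.add_apply, Der.smul_apply]
      rw [itr_map (loc (u i)) (DK + cxi u i κ • Dt) _ hloc]
      refine m4_reg ?_ ?_ n
      · intro c x hx
        rw [Der.add_apply, Der.smul_apply]
        exact (hx.cd zd).add (Vge.mul0 (Vge.natCast _) hx.zd)
      · intro a b
        have e1 : (GD + cxi u i κ • Gt) a b = (GD + cT (zd (u i)) • Gt) a b
            + ((κ + 1 : ℕ) : KT) * ((tT - cT (u i)) • Gt) a b := by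
          simp only [cxi, Matrix.add_apply, Matrix.smul_apply, smul_eq_mul]
          push_cast
          ring
        rw [Matrix.map_apply, e1, map_add, map_mul, map_natCast]
        exact (h.regX i a b).add (Vge.mul0 (Vge.natCast _) (h.regY i a b))
  · obtain ⟨C, hC⟩ := hg.2
    refine ⟨C, fun n => ?_⟩
    rw [← itr_map (node (u i) (κ + 1)) (DY (u i)) (cd zd) fun x => node_DY _ _ _]
    have h1 := hC n
    rw [← itr_map (node (u i) κ) (DY (u i)) (cd zd) fun x => node_DY _ _ _] at h1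
    refine m4_leaf u i κ hi ?_ ?_ h1
    · refine m4_itrY_isPol i ?_ n
      intro a b
      change IsPol u ((tT - cT (u i)) * Gt a b)
      exact (IsPol.tT.sub (IsPol.cT _)).mul (h.polt a b)
    · rw [itr_map (loc (u i)) (DY (u i)) zd fun x => loc_DY _ _]
      exact m4_reg pres_zd (h.regY i) n

/-! ### module m5 -/

/-- one round: growth `≤ σ` at all nodes implies growth `≤ (1 - ε) σ` at all nodes -/
private lemma m5_round [Nonempty ι] (h : Adm u Gt GD) (hu : ∀ i, Vge 0 (u i)) (K₀ : ℕ)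
    (hK₀ : ∀ i j, i ≠ j → ¬ Vge (K₀ : ℝ) (u i - u j)) {σ : ℚ} (hσ : 0 < σ)
    (hall : ∀ i κ, κ ≤ K₀ → GrN u Gt GD i κ (σ : ℝ)) (i : Fin l) (κ : ℕ) (hκ : κ ≤ K₀) :
    GrN u Gt GD i κ (((1 - (1 / (((l : ℚ) + 1) * Fintype.card ι)) ^ κ) * σ : ℚ) : ℝ) := by
  have hm : (1 : ℚ) ≤ ((l : ℚ) + 1) * Fintype.card ι := by
    have h1 : (1 : ℚ) ≤ (Fintype.card ι : ℚ) := by exact_mod_cast Fintype.card_pos
    have h2 : (1 : ℚ) ≤ (l : ℚ) + 1 := by
      have : (0 : ℚ) ≤ (l : ℚ) := Nat.cast_nonneg l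
      linarith
    nlinarith
  set M : ℚ := ((l : ℚ) + 1) * Fintype.card ι with hM
  have hM0 : 0 < M := by linarith
  have hMi : 1 / M ≤ 1 := by rw [div_le_one hM0]; exact hm
  have hMi0 : 0 < 1 / M := by positivity
  induction κ with
  | zero =>
    have := GrN_gauss h hu i
    simpa using this
  | succ κ ih =>
    have ih' := ih (by omega)
    set ε : ℚ := (1 / M) ^ κ with hε
    have hε0 : 0 < ε := pow_pos hMi0 κ
    have hε1 : ε ≤ 1 := pow_le_one₀ hMi0.le hMi
    rcases Nat.lt_or_ge (κ + 1) K₀ with hlt | hge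
    · have := step h i κ hσ hε0 hε1 (fun j _ => hall j (κ + 2) (by omega)) (hall i (κ + 1) hκ) ih'
      have he : (1 / M) ^ (κ + 1) = ε / M := by
        rw [pow_succ, hε]; ring
      rw [he]
      exact this
    · have hkeq : κ + 1 = K₀ := le_antisymm hκ hge
      have hnn : (0 : ℝ) ≤ (((1 - ε) * σ : ℚ) : ℝ) := by
        have : (0 : ℚ) ≤ (1 - ε) * σ := mul_nonneg (by linarith) hσ.le
        exact_mod_cast this
      have := leaf_step h i κ (by
        intro j hj hc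
        have e : ((κ : ℝ) + 1) = (K₀ : ℝ) := by rw [← hkeq]; push_cast; ring
        rw [e] at hc
        exact hK₀ j i hj hc) hnn ih'
      refine this.mono ?_
      have : (1 - ε) * σ ≤ (1 - (1 / M) ^ (κ + 1)) * σ := by
        apply mul_le_mul_of_nonneg_right _ hσ.le
        have : (1 / M) ^ (κ + 1) ≤ ε := by
          rw [pow_succ]
          exact mul_le_of_le_one_right hε0.le hMi
        linarith
      exact_mod_cast this

/-- (5.3): no growth at any node -/
theorem max_principle (h : Adm u Gt GD) (hu : ∀ i, Vge 0 (u i)) (K₀ : ℕ) (hK : 1 ≤ K₀)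
    (hK₀ : ∀ i j, i ≠ j → ¬ Vge (K₀ : ℝ) (u i - u j)) {σ : ℝ} (hσ : 0 < σ) (i : Fin l) (κ : ℕ)
    (hκ : κ ≤ K₀) : GrN u Gt GD i κ σ := by
  rcases isEmpty_or_nonempty ι with he | hne
  · exact ⟨⟨0, fun n a _ => he.elim a⟩, ⟨0, fun n a _ => he.elim a⟩⟩
  obtain ⟨σ₀, hσ₀, hall⟩ := GrN_exists h K₀
  have hl : 1 ≤ l := by
    have := i.isLt
    omega
  have hm : (2 : ℚ) ≤ ((l : ℚ) + 1) * Fintype.card ι := by
    have h1 : (1 : ℚ) ≤ (Fintype.card ι : ℚ) := by exact_mod_cast Fintype.card_pos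
    have h2 : (2 : ℚ) ≤ (l : ℚ) + 1 := by
      have : (1 : ℚ) ≤ (l : ℚ) := by exact_mod_cast hl
      linarith
    nlinarith
  set M : ℚ := ((l : ℚ) + 1) * Fintype.card ι with hM
  have hM0 : 0 < M := by linarith
  have hMi : 1 / M ≤ 1 := by rw [div_le_one hM0]; linarith
  have hMi0 : 0 < 1 / M := by positivity
  have hMi2 : 1 / M < 1 := by rw [div_lt_one hM0]; linarith
  set ε : ℚ := (1 / M) ^ K₀ with hε
  have hε0 : 0 < ε := pow_pos hMi0 K₀
  have hε1 : ε < 1 := pow_lt_one₀ hMi0.le hMi2 (by omega)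
  -- iterate
  have hit : ∀ N : ℕ, ∀ i κ, κ ≤ K₀ → GrN u Gt GD i κ (((1 - ε) ^ N * σ₀ : ℚ) : ℝ) := by
    intro N
    induction N with
    | zero => intro i κ hκ; simpa using hall i κ hκ
    | succ N ih =>
      intro i κ hκ
      have hpos : 0 < (1 - ε) ^ N * σ₀ := mul_pos (pow_pos (by linarith) N) hσ₀
      refine (m5_round h hu K₀ hK₀ hpos ih i κ hκ).mono ?_
      have h1 : ε ≤ (1 / M) ^ κ := pow_le_pow_of_le_one hMi0.le hMi hκ
      have h2 : (1 - (1 / M) ^ κ) * ((1 - ε) ^ N * σ₀) ≤ (1 - ε) * ((1 - ε) ^ N * σ₀) :=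
        mul_le_mul_of_nonneg_right (by linarith) hpos.le
      have h3 : (1 - ε) ^ (N + 1) * σ₀ = (1 - ε) * ((1 - ε) ^ N * σ₀) := by
        rw [pow_succ]; ring
      rw [h3]
      exact Rat.cast_le.2 h2
  obtain ⟨N, hN⟩ := exists_pow_lt_of_lt_one (show (0 : ℝ) < σ / σ₀ by
    have : (0 : ℝ) < (σ₀ : ℝ) := by exact_mod_cast hσ₀
    positivity) (show ((1 - ε : ℚ) : ℝ) < 1 by
    have : (1 - ε : ℚ) < 1 := by linarith
    exact_mod_cast this)
  refine (hit N i κ hκ).mono ?_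
  have hσ₀' : (0 : ℝ) < (σ₀ : ℝ) := by exact_mod_cast hσ₀
  rw [lt_div_iff₀ hσ₀'] at hN
  push_cast at hN ⊢
  exact hN.le

/-! ### module m6 -/

private lemma m6_con_map {L L' : Type} [CommRing L] [CommRing L'] (φ : L →+* L') (θ : Der L)
    (θ' : Der L') (h : ∀ x, φ (θ x) = θ' (φ x)) (G : Matrix ι ι L) (v : ι → L) :
    (fun a => φ (con θ G v a)) = con θ' (G.map φ) (fun a => φ (v a)) := by
  funext a
  simp only [con, map_add, h, Matrix.mulVec, dotProduct, map_sum, map_mul, Matrix.map_apply]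

private lemma m6_con_iter_map {L L' : Type} [CommRing L] [CommRing L'] (φ : L →+* L') (θ : Der L)
    (θ' : Der L') (h : ∀ x, φ (θ x) = θ' (φ x)) (G : Matrix ι ι L) (n : ℕ) (v : ι → L) :
    (fun a => φ ((con θ G)^[n] v a)) = (con θ' (G.map φ))^[n] (fun a => φ (v a)) := by
  induction n generalizing v with
  | zero => rfl
  | succ n ih =>
    rw [Function.iterate_succ_apply, Function.iterate_succ_apply, ih, m6_con_map φ θ θ' h]

private lemma m6_one (u : Fin l → K) {Gt GD : Matrix ι ι KT} (h : Adm u Gt GD) {σ : ℝ}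
    (hσ : 0 < σ) (i : Fin l) (κ : ℕ) (hg : GrN u Gt GD i κ σ) :
    ∃ C : ℝ, 0 ≤ C ∧ ∀ (n : ℕ) (c : ℝ) (v : ι → KT),
      VVge c (fun a => node (u i) κ (v a)) →
      VVge (c - σ * n - C)
        (fun a => node (u i) κ ((con (DX (u i)) (gX u Gt GD i))^[n] v a)) := by
  have hψ : Vge 0 (-(κ : F)) := (Vge.natCast κ).neg
  have hcomb := Gr.comb pres_zd (pres_cd zd) (fun x => zd_cd zd x) (flat_node h i κ) hσ.le hg.1 hg.2
    (φ := 1) (ψ := -(κ : F)) Vge.one hψ
  have hG : (1 : F) • ((gX u Gt GD i + (κ : KT) • gY u Gt i).map (node (u i) κ))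
      + (-(κ : F)) • ((gY u Gt i).map (node (u i) κ)) = (gX u Gt GD i).map (node (u i) κ) := by
    ext a b : 2
    simp only [Matrix.add_apply, Matrix.smul_apply, Matrix.map_apply, map_add, smul_eq_mul,
      map_mul, map_natCast]
    rw [one_mul, neg_mul, add_neg_cancel_right]
  rw [hG] at hcomb
  have hpres : Pres ((1 : F) • (zd : Der F) + (-(κ : F)) • cd zd : Der F) := by
    intro c x hx
    rw [Der.add_apply, Der.smul_apply, Der.smul_apply]
    exact (Vge.mul0 Vge.one hx.zd).add (Vge.mul0 hψ (hx.cd zd))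
  obtain ⟨C, hC, hv⟩ := Gr.vec hpres hσ.le hcomb
  refine ⟨C, hC, fun n c v hc => ?_⟩
  have hn : ∀ x, node (u i) κ (DX (u i) x)
      = ((1 : F) • (zd : Der F) + (-(κ : F)) • cd zd : Der F) (node (u i) κ x) := by
    intro x
    have h1 := node_DX (u i) κ x
    have h2 := node_DY (u i) κ x
    rw [map_add, map_mul, map_natCast, h2] at h1
    rw [Der.add_apply, Der.smul_apply, Der.smul_apply, ← h1, one_mul, neg_mul,
      add_neg_cancel_right]
  rw [m6_con_iter_map (node (u i) κ) (DX (u i)) _ hn]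
  exact hv n c _ hc

/-- (5.4): growth of `X_i` on vectors, uniformly in the nodes -/
theorem grow_X (h : Adm u Gt GD) (hu : ∀ i, Vge 0 (u i)) (K₀ : ℕ) (hK : 1 ≤ K₀)
    (hK₀ : ∀ i j, i ≠ j → ¬ Vge (K₀ : ℝ) (u i - u j)) {σ : ℝ} (hσ : 0 < σ) :
    ∃ C : ℝ, 0 ≤ C ∧ ∀ (i : Fin l) (κ : ℕ), κ ≤ K₀ → ∀ (n : ℕ) (c : ℝ) (v : ι → KT),
      VVge c (fun a => node (u i) κ (v a)) →
      VVge (c - σ * n - C)
        (fun a => node (u i) κ ((con (DX (u i)) (gX u Gt GD i))^[n] v a)) := by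
  classical
  have hex : ∀ (i : Fin l) (κ : Fin (K₀ + 1)), ∃ C : ℝ, 0 ≤ C ∧ ∀ (n : ℕ) (c : ℝ) (v : ι → KT),
      VVge c (fun a => node (u i) κ (v a)) →
      VVge (c - σ * n - C)
        (fun a => node (u i) κ ((con (DX (u i)) (gX u Gt GD i))^[n] v a)) := fun i κ =>
    m6_one u h hσ i κ (max_principle h hu K₀ hK hK₀ hσ i κ (Nat.lt_succ_iff.1 κ.2))
  choose C hC hv using hex
  refine ⟨∑ i, ∑ κ, C i κ, Finset.sum_nonneg fun i _ => Finset.sum_nonneg fun κ _ => hC i κ,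
    fun i κ hκ n c v hc => ?_⟩
  have hle : C i ⟨κ, Nat.lt_succ_iff.2 hκ⟩ ≤ ∑ i, ∑ κ, C i κ :=
    (Finset.single_le_sum (f := fun κ => C i κ) (fun κ _ => hC i κ)
      (Finset.mem_univ ⟨κ, Nat.lt_succ_iff.2 hκ⟩)).trans
      (Finset.single_le_sum (f := fun i => ∑ κ, C i κ)
        (fun i _ => Finset.sum_nonneg fun κ _ => hC i κ) (Finset.mem_univ i))
  intro a
  exact (hv i ⟨κ, Nat.lt_succ_iff.2 hκ⟩ n c v hc a).mono (by linarith)

/-! ### module m7: the connection on `End` -/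

/-- the matrix of `M ↦ G M - M G` -/
def adM {L : Type} [CommRing L] (G : Matrix ι ι L) : Matrix (ι × ι) (ι × ι) L :=
  fun p q => G p.1 q.1 * (if p.2 = q.2 then 1 else 0) - (if p.1 = q.1 then 1 else 0) * G q.2 p.2

/-- the connection on `End` -/
def nab {L : Type} [CommRing L] (θ : Der L) (G M : Matrix ι ι L) : Matrix ι ι L :=
  M.map θ + G * M - M * G

lemma con_adM {L : Type} [CommRing L] (θ : Der L) (G M : Matrix ι ι L) (p : ι × ι) :
    con θ (adM G) (fun q => M q.1 q.2) p = nab θ G M p.1 p.2 := by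
  obtain ⟨a, b⟩ := p
  simp only [con, nab, adM, Matrix.mulVec, dotProduct, Matrix.sub_apply, Matrix.add_apply,
    Matrix.map_apply, Matrix.mul_apply, sub_mul, Finset.sum_sub_distrib, Fintype.sum_prod_type,
    mul_ite, ite_mul, mul_one, mul_zero, zero_mul, one_mul]
  have h1 : ∑ x, ∑ y, (if b = y then G a x * M x y else 0) = ∑ x, G a x * M x b := by
    refine Finset.sum_congr rfl fun x _ => ?_
    rw [Finset.sum_ite_eq]
    simp
  have h2 : ∑ x, ∑ y, (if a = x then G y b * M x y else 0) = ∑ y, M a y * G y b := by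
    rw [Finset.sum_comm]
    refine Finset.sum_congr rfl fun y _ => ?_
    rw [Finset.sum_ite_eq]
    simp [mul_comm]
  rw [h1, h2]
  ring

open Kronecker in
private lemma m6_adM_eq {L : Type} [CommRing L] (G : Matrix ι ι L) :
    adM G = Matrix.kroneckerMap (· * ·) G (1 : Matrix ι ι L)
      - Matrix.kroneckerMap (· * ·) (1 : Matrix ι ι L) G.transpose := by
  ext ⟨a, b⟩ ⟨c, d⟩
  simp only [adM, Matrix.sub_apply, Matrix.kroneckerMap_apply, Matrix.one_apply,
    Matrix.transpose_apply]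

private lemma m6_adM_comm {L : Type} [CommRing L] (A B : Matrix ι ι L) :
    adM A * adM B - adM B * adM A = adM (A * B - B * A) := by
  rw [m6_adM_eq, m6_adM_eq, m6_adM_eq]
  simp only [mul_sub, sub_mul, ← Matrix.mul_kronecker_mul, Matrix.one_mul, Matrix.mul_one,
    Matrix.transpose_sub, Matrix.transpose_mul]
  ext ⟨a, b⟩ ⟨c, d⟩
  simp only [Matrix.sub_apply, Matrix.kroneckerMap_apply]
  ring

private lemma m6_adM_add {L : Type} [CommRing L] (A B : Matrix ι ι L) :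
    adM (A + B) = adM A + adM B := by
  ext ⟨a, b⟩ ⟨c, d⟩
  simp only [adM, Matrix.add_apply]
  ring

private lemma m6_adM_sub {L : Type} [CommRing L] (A B : Matrix ι ι L) :
    adM (A - B) = adM A - adM B := by
  ext ⟨a, b⟩ ⟨c, d⟩
  simp only [adM, Matrix.sub_apply]
  ring

private lemma m6_adM_smul {L : Type} [CommRing L] (x : L) (A : Matrix ι ι L) :
    adM (x • A) = x • adM A := by
  ext ⟨a, b⟩ ⟨c, d⟩
  simp only [adM, Matrix.smul_apply, smul_eq_mul]
  ring

private lemma m6_adM_zero {L : Type} [CommRing L] : adM (0 : Matrix ι ι L) = 0 := by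
  ext ⟨a, b⟩ ⟨c, d⟩
  simp [adM]

private lemma m6_adM_map {L : Type} [CommRing L] (θ : Der L) (A : Matrix ι ι L) :
    (adM A).map θ = adM (A.map θ) := by
  ext ⟨a, b⟩ ⟨c, d⟩
  simp only [adM, Matrix.map_apply, map_sub, θ.leib]
  have h1 : θ (if b = d then (1 : L) else 0) = 0 := by
    split_ifs
    · exact θ.map_one'
    · exact map_zero θ
  have h2 : θ (if a = c then (1 : L) else 0) = 0 := by
    split_ifs
    · exact θ.map_one'
    · exact map_zero θ
  rw [h1, h2]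
  ring

private lemma m6_flat {L : Type} [CommRing L] {θ₁ θ₂ : Der L} {G₁ G₂ : Matrix ι ι L}
    (h : Flat θ₁ θ₂ G₁ G₂) : Flat θ₁ θ₂ (adM G₁) (adM G₂) := by
  unfold Flat at h ⊢
  have h' : G₂.map θ₁ - G₁.map θ₂ + (G₁ * G₂ - G₂ * G₁) = 0 := by
    rw [← h]; abel
  have : (adM G₂).map θ₁ - (adM G₁).map θ₂ + adM G₁ * adM G₂ - adM G₂ * adM G₁
      = adM (G₂.map θ₁ - G₁.map θ₂ + (G₁ * G₂ - G₂ * G₁)) := by
    rw [m6_adM_add, m6_adM_sub, ← m6_adM_comm, m6_adM_map, m6_adM_map]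
    abel
  rw [this, h', m6_adM_zero]

private lemma m6_MVge {k : Type} [Field k] {c : ℝ} {G : Matrix ι ι (LS k)} (h : MVge c G) :
    MVge c (adM G) := by
  rintro ⟨a, b⟩ ⟨a', b'⟩
  simp only [adM]
  refine Vge.sub ?_ ?_
  · split_ifs
    · rw [mul_one]; exact h _ _
    · rw [mul_zero]; exact Vge.zero c
  · split_ifs
    · rw [one_mul]; exact h _ _
    · rw [zero_mul]; exact Vge.zero c

private lemma m6_adM_ring {L L' : Type} [CommRing L] [CommRing L'] (φ : L →+* L')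
    (A : Matrix ι ι L) : (adM A).map φ = adM (A.map φ) := by
  ext ⟨a, b⟩ ⟨c, d⟩
  simp only [adM, Matrix.map_apply, map_sub, map_mul]
  have h1 : φ (if b = d then (1 : L) else 0) = if b = d then (1 : L') else 0 := by
    split_ifs <;> simp
  have h2 : φ (if a = c then (1 : L) else 0) = if a = c then (1 : L') else 0 := by
    split_ifs <;> simp
  rw [h1, h2]

private lemma m6_pol {G : Matrix ι ι KT} (h : ∀ a b, IsPol u (G a b)) (p q : ι × ι) :
    IsPol u (adM G p q) := by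
  simp only [adM]
  have h0 : IsPol u (0 : KT) := by
    have := IsPol.poly u 0
    rwa [map_zero] at this
  refine IsPol.sub ?_ ?_
  · split_ifs
    · rw [mul_one]; exact h _ _
    · rw [mul_zero]; exact h0
  · split_ifs
    · rw [one_mul]; exact h _ _
    · rw [zero_mul]; exact h0

theorem Adm.ad (h : Adm u Gt GD) : Adm u (adM Gt) (adM GD) where
  polt := m6_pol h.polt
  polD := m6_pol h.polD
  flat := m6_flat h.flat
  gt := by
    rw [m6_adM_ring]; exact m6_MVge h.gt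
  gD := by
    rw [m6_adM_ring]; exact m6_MVge h.gD
  regX := fun i => by
    rw [← m6_adM_smul, ← m6_adM_add, m6_adM_ring]; exact m6_MVge (h.regX i)
  regY := fun i => by
    rw [← m6_adM_smul, m6_adM_ring]; exact m6_MVge (h.regY i)

private lemma m6_nab_eq {L : Type} [CommRing L] (θ : Der L) (G M : Matrix ι ι L) :
    (fun q : ι × ι => nab θ G M q.1 q.2) = con θ (adM G) (fun q => M q.1 q.2) := by
  funext p
  rw [con_adM]

lemma nab_comm {L : Type} [CommRing L] {θ₁ θ₂ : Der L} (hθ : ∀ x, θ₁ (θ₂ x) = θ₂ (θ₁ x))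
    {G₁ G₂ : Matrix ι ι L} (h : Flat θ₁ θ₂ G₁ G₂) (M : Matrix ι ι L) :
    nab θ₁ G₁ (nab θ₂ G₂ M) = nab θ₂ G₂ (nab θ₁ G₁ M) := by
  ext a b
  have h1 := congrFun (con_comm hθ (m6_flat h) (fun q : ι × ι => M q.1 q.2)) (a, b)
  rw [← m6_nab_eq θ₂ G₂ M, ← m6_nab_eq θ₁ G₁ M, ← m6_nab_eq θ₁ G₁ (nab θ₂ G₂ M),
    ← m6_nab_eq θ₂ G₂ (nab θ₁ G₁ M)] at h1
  exact h1

/-- growth of `X_i` on `End` -/
theorem grow_XE (h : Adm u Gt GD) (hu : ∀ i, Vge 0 (u i)) (K₀ : ℕ) (hK : 1 ≤ K₀)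
    (hK₀ : ∀ i j, i ≠ j → ¬ Vge (K₀ : ℝ) (u i - u j)) {σ : ℝ} (hσ : 0 < σ) :
    ∃ C : ℝ, 0 ≤ C ∧ ∀ (i : Fin l) (κ : ℕ), κ ≤ K₀ → ∀ (n : ℕ) (c : ℝ) (M : Matrix ι ι KT),
      MVge c (M.map (node (u i) κ)) →
      MVge (c - σ * n - C) (((nab (DX (u i)) (gX u Gt GD i))^[n] M).map (node (u i) κ)) := by
  obtain ⟨C, hC, hv⟩ := grow_X (Adm.ad h) hu K₀ hK hK₀ hσ
  refine ⟨C, hC, fun i κ hκ n c M hM => ?_⟩
  have h1 := hv i κ hκ n c (fun q => M q.1 q.2) (fun q => hM q.1 q.2)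
  have hX : gX u (adM Gt) (adM GD) i = adM (gX u Gt GD i) := by
    unfold gX
    rw [m6_adM_add, m6_adM_smul]
  have hit : ∀ n, (con (DX (u i)) (adM (gX u Gt GD i)))^[n] (fun q => M q.1 q.2)
      = fun q => ((nab (DX (u i)) (gX u Gt GD i))^[n] M) q.1 q.2 := by
    intro n
    induction n with
    | zero => rfl
    | succ n ih =>
      rw [Function.iterate_succ_apply', Function.iterate_succ_apply', ih, ← m6_nab_eq]
  rw [hX, hit] at h1
  intro a b
  exact h1 (a, b)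

end Pool.Agent.Fbc
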