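import Pool.Agent.Fbc.NFe
import Pool.Agent.Fml.Bridge

/-!
# Every regular formal lattice in generic position is convergent: public form
-/

set_option autoImplicit false

namespace Pool.Agent.Fbc

open Pool.Fml (Ser SymRing formal micro)

/-- the descent theorem in the public form -/
theorem main {d : ℕ} (M : Pool.Fmd.Lattice (formal d)) (hM : M.Regular) :
    ∃ N : Pool.Fmd.Lattice (micro d), N.Regular ∧ Pool.Fmd.IsExtension N M := by
  have h1 : (Pool.Fmd.toInt M).Regular := hM
  obtain ⟨N, hN, φ, hφ, hφT, hφP, r, b, c, hbc⟩ := descent_all (Pool.Fmd.toInt M) h1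
  exact ⟨Pool.Fmd.ofInt N, hN, φ, hφ, hφT, hφP, r, b, c, hbc⟩

end Pool.Agent.Fbc
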