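import Pool.Agent.Fbc.Defs

/-!
# Finite determinacy of connections `s² d/ds + Y(s)` (helper49)

`ℂ((s))` is `LS ℂ`; orders are integers here.
-/

set_option autoImplicit false

namespace Pool.Agent.Fbc

open Polynomial

/-- the derivation `s² d/ds` of `ℂ((s))` -/
noncomputable def s2d : Der (LS ℂ) := (LS.single 1 1 : LS ℂ) • (zd : Der (LS ℂ))

/-- order `≥ m` -/
def Oge (m : ℤ) (x : LS ℂ) : Prop := ∀ n < m, x.coeff n = 0

/-! ## n1: scalar equations -/

lemma s2d_coeff (x : LS ℂ) (n : ℤ) : (s2d x).coeff n = ((n - 1 : ℤ) : ℂ) * x.coeff (n - 1) := by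
  have h : s2d x = LS.single 1 1 * (zd x : LS ℂ) := rfl
  rw [h, LS.coeff_single_mul, one_mul, zd_coeff]

private lemma n1_iter (j : ℕ) (x : LS ℂ) : ∀ n : ℤ, (s2d^[j] x).coeff n =
    (∏ i ∈ Finset.range j, (((n - 1 - i : ℤ)) : ℂ)) * x.coeff (n - j) := by
  induction j with
  | zero => intro n; simp
  | succ j ih =>
    intro n
    rw [Function.iterate_succ_apply', s2d_coeff, ih (n - 1), Finset.prod_range_succ']
    have h1 : n - 1 - (j : ℤ) = n - ((j + 1 : ℕ) : ℤ) := by push_cast; ring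
    have h2 : ∏ i ∈ Finset.range j, (((n - 1 - 1 - i : ℤ)) : ℂ) =
        ∏ i ∈ Finset.range j, (((n - 1 - ((i + 1 : ℕ) : ℤ) : ℤ)) : ℂ) := by
      refine Finset.prod_congr rfl fun i _ => ?_
      congr 1
      push_cast
      ring
    have h3 : (n - 1 : ℤ) = n - 1 - ((0 : ℕ) : ℤ) := by push_cast; ring
    rw [h1, h2]
    conv_lhs => rw [← mul_assoc, mul_comm (((n - 1 : ℤ)) : ℂ)]
    rw [← h3]

private lemma n1_sign (j : ℕ) (x : LS ℂ) (n : ℤ) :
    ((-1) ^ j * x).coeff n = (-1) ^ j * x.coeff n := by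
  rcases neg_one_pow_eq_or (LS ℂ) j with h | h <;> rcases neg_one_pow_eq_or ℂ j with h' | h'
  · rw [h, h', one_mul, one_mul]
  · exfalso
    rcases Nat.even_or_odd j with he | ho
    · rw [he.neg_one_pow] at h'
      norm_num at h'
    · rw [ho.neg_one_pow] at h
      have h2 := congrArg (fun z : LS ℂ => z.coeff 0) h
      simp only [LS.coeff_neg, LS.coeff_one, if_true] at h2
      norm_num at h2
  · exfalso
    rcases Nat.even_or_odd j with he | ho
    · rw [he.neg_one_pow] at h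
      have h2 := congrArg (fun z : LS ℂ => z.coeff 0) h
      simp only [LS.coeff_neg, LS.coeff_one, if_true] at h2
      norm_num at h2
    · rw [ho.neg_one_pow] at h'
      norm_num at h'
  · rw [h, h', neg_one_mul, neg_one_mul, LS.coeff_neg]

/-- the solution of a triangular system -/
private noncomputable def n1_rec (K : ℕ → ℕ → ℂ) (W : ℕ → ℂ) : ℕ → ℂ
  | q => (W q - ∑ q' : Fin q, K q q'.1 * n1_rec K W q'.1) / K q q
termination_by q => q
decreasing_by exact q'.2

private lemma n1_rec_eq (K : ℕ → ℕ → ℂ) (W : ℕ → ℂ) (q : ℕ) (hq : K q q ≠ 0) :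
    ∑ q' ∈ Finset.range (q + 1), K q q' * n1_rec K W q' = W q := by
  rw [Finset.sum_range_succ, ← Fin.sum_univ_eq_sum_range (fun q' => K q q' * n1_rec K W q') q]
  conv_lhs =>
    enter [2, 2]
    rw [n1_rec]
  rw [mul_div_cancel₀ _ hq]
  ring

/-- the indicial polynomial has finitely many roots -/
private lemma n1_indicial (e : ℕ) (c : ℤ) (β : ℕ → ℂ) (hβ : ∃ j ≤ e, β j ≠ 0) :
    ∃ m₀ : ℤ, ∀ p : ℤ, m₀ ≤ p → ∑ j ∈ Finset.range (e + 1), (-1) ^ j *
      ((∏ i ∈ Finset.range j, (((p + c - 1 - i : ℤ)) : ℂ)) * β j) ≠ 0 := by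
  classical
  obtain ⟨j₀, hj₀, hne⟩ := hβ
  -- the largest index
  obtain ⟨J, hJ, hmax⟩ := Finset.exists_max_image
    ((Finset.range (e + 1)).filter fun j => β j ≠ 0) (fun j => j)
    ⟨j₀, Finset.mem_filter.2 ⟨Finset.mem_range.2 (by omega), hne⟩⟩
  rw [Finset.mem_filter, Finset.mem_range] at hJ
  let Q : ℕ → Polynomial ℂ := fun j => ∏ i ∈ Finset.range j, (X + C (((c - 1 - i : ℤ)) : ℂ))
  have hQm : ∀ j, (Q j).Monic := fun j => monic_prod_of_monic _ _ fun i _ => monic_X_add_C _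
  have hQd : ∀ j, (Q j).natDegree = j := fun j => by
    rw [natDegree_prod_of_monic _ _ fun i _ => monic_X_add_C _,
      Finset.sum_congr rfl fun i _ => natDegree_X_add_C _, Finset.sum_const, Finset.card_range,
      smul_eq_mul, mul_one]
  let R : Polynomial ℂ := ∑ j ∈ Finset.range (e + 1), C ((-1) ^ j * β j) * Q j
  have hR : R.coeff J = (-1) ^ J * β J := by
    show (∑ j ∈ Finset.range (e + 1), C ((-1) ^ j * β j) * Q j).coeff J = _
    rw [finsetSum_coeff, Finset.sum_eq_single J]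
    · rw [coeff_C_mul]
      have h1 := hQm J
      rw [Monic, leadingCoeff, hQd J] at h1
      rw [h1, mul_one]
    · intro j hj hjJ
      rw [coeff_C_mul]
      rcases lt_or_gt_of_ne hjJ with h | h
      · rw [coeff_eq_zero_of_natDegree_lt (by rw [hQd]; exact h), mul_zero]
      · have h2 : β j = 0 := by
          by_contra hc
          have h3 : j ≤ J := hmax j (Finset.mem_filter.2 ⟨hj, hc⟩)
          omega
        rw [h2, mul_zero, zero_mul]
    · intro h
      exact absurd (Finset.mem_range.2 hJ.1) h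
  have hR0 : R ≠ 0 := by
    intro h
    rw [h, coeff_zero] at hR
    have := (mul_ne_zero (pow_ne_zero J (neg_ne_zero.2 one_ne_zero)) hJ.2)
    exact this hR.symm
  have hfin : {p : ℤ | R.eval (p : ℂ) = 0}.Finite := by
    have h1 : (R.roots.toFinset : Set ℂ).Finite := Finset.finite_toSet _
    refine (h1.preimage (f := fun p : ℤ => (p : ℂ)) (Int.cast_injective.injOn)).subset ?_
    intro p hp
    simp only [Set.mem_preimage, Finset.mem_coe, Multiset.mem_toFinset]
    rw [mem_roots hR0]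
    exact hp
  obtain ⟨M, hM⟩ := hfin.bddAbove
  refine ⟨M + 1, fun p hp h => ?_⟩
  have h2 : R.eval (p : ℂ) = 0 := by
    rw [← h]
    show (∑ j ∈ Finset.range (e + 1), C ((-1) ^ j * β j) * Q j).eval (p : ℂ) = _
    rw [eval_finsetSum]
    refine Finset.sum_congr rfl fun j _ => ?_
    rw [eval_mul, eval_C]
    show _ * (∏ i ∈ Finset.range j, (X + C (((c - 1 - i : ℤ)) : ℂ))).eval (p : ℂ) = _
    rw [eval_prod]
    have h3 : ∏ i ∈ Finset.range j, (X + C (((c - 1 - i : ℤ)) : ℂ)).eval (p : ℂ) =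
        ∏ i ∈ Finset.range j, (((p + c - 1 - i : ℤ)) : ℂ) := by
      refine Finset.prod_congr rfl fun i _ => ?_
      rw [eval_add, eval_X, eval_C]
      push_cast
      ring
    rw [h3]
    ring
  have := hM h2
  omega

/-- MODULE n1. Scalar differential operators `y ↦ ∑_{j ≤ e} (-1)^j δ^j (a_j y)` are surjective in
high order, with bounded loss. -/
theorem scalar_srj (e : ℕ) (a : ℕ → LS ℂ) (ha : ∃ j ≤ e, a j ≠ 0) :
    ∃ c m₀ : ℤ, ∀ m, m₀ ≤ m → ∀ w, Oge (m + c) w → ∃ y, Oge m y ∧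
      ∑ j ∈ Finset.range (e + 1), (-1) ^ j * s2d^[j] (a j * y) = w := by
  classical
  obtain ⟨j₁, hj₁, hne⟩ := ha
  obtain ⟨j₀, hj₀, hmin⟩ := Finset.exists_min_image
    ((Finset.range (e + 1)).filter fun j => a j ≠ 0) (fun j => (a j).ord + (j : ℤ))
    ⟨j₁, Finset.mem_filter.2 ⟨Finset.mem_range.2 (by omega), hne⟩⟩
  rw [Finset.mem_filter, Finset.mem_range] at hj₀
  set c : ℤ := (a j₀).ord + j₀ with hc
  have h1 : ∀ j ∈ Finset.range (e + 1), ∀ n < c - j, (a j).coeff n = 0 := by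
    intro j hj n hn
    by_cases h0 : a j = 0
    · rw [h0, LS.coeff_zero]
    · have h3 : (a j₀).ord + (j₀ : ℤ) ≤ (a j).ord + (j : ℤ) :=
        hmin j (Finset.mem_filter.2 ⟨hj, h0⟩)
      exact LS.coeff_of_lt_ord (by omega)
  have h2 : (a j₀).coeff (c - j₀) ≠ 0 := by
    have : c - j₀ = (a j₀).ord := by rw [hc]; ring
    rw [this]
    exact LS.coeff_ord_ne hj₀.2
  obtain ⟨m₀, hm₀⟩ := n1_indicial e c (fun j => (a j).coeff (c - j)) ⟨j₀, by omega, h2⟩
  refine ⟨c, m₀, fun m hm w hw => ?_⟩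
  -- the kernel
  let K : ℕ → ℕ → ℂ := fun q q' => ∑ j ∈ Finset.range (e + 1), (-1) ^ j *
    ((∏ i ∈ Finset.range j, (((m + q + c - 1 - i : ℤ)) : ℂ)) *
      (a j).coeff (c + q - j - q'))
  have hK : ∀ q, K q q ≠ 0 := by
    intro q
    have h3 := hm₀ (m + q) (by omega)
    have h4 : K q q = ∑ j ∈ Finset.range (e + 1), (-1) ^ j *
      ((∏ i ∈ Finset.range j, (((m + q + c - 1 - i : ℤ)) : ℂ)) * (a j).coeff (c - j)) := by
      refine Finset.sum_congr rfl fun j _ => ?_
      have h5 : c + (q : ℤ) - j - q = c - j := by ring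
      rw [h5]
    rw [h4]
    exact h3
  let Y : ℕ → ℂ := n1_rec K (fun q => w.coeff (m + c + q))
  let y : LS ℂ := LS.mk (fun n => if m ≤ n then Y (n - m).toNat else 0)
    ⟨m, fun n hn => if_neg (not_le.2 hn)⟩
  have hyc : ∀ n, y.coeff n = if m ≤ n then Y (n - m).toNat else 0 := fun n => rfl
  have hy : ∀ n < m, y.coeff n = 0 := fun n hn => by rw [hyc, if_neg (not_le.2 hn)]
  refine ⟨y, hy, ?_⟩
  ext n
  rw [LS.coeff_sum]
  have h6 : ∀ j ∈ Finset.range (e + 1), ((-1) ^ j * s2d^[j] (a j * y)).coeff n =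
      ∑ p ∈ Finset.Icc m (n - c), ((-1) ^ j *
        ((∏ i ∈ Finset.range j, (((n - 1 - i : ℤ)) : ℂ)) * (a j).coeff (n - j - p))) *
          y.coeff p := by
    intro j hj
    rw [n1_sign, n1_iter, mul_comm (a j) y, LS.coeff_mul hy (h1 j hj)]
    have h7 : n - j - (c - j) = n - c := by ring
    rw [h7, Finset.mul_sum, Finset.mul_sum]
    refine Finset.sum_congr rfl fun p _ => ?_
    ring
  rw [Finset.sum_congr rfl h6, Finset.sum_comm]
  by_cases hn : n < m + c
  · rw [Finset.Icc_eq_empty (by omega), Finset.sum_empty, hw n hn]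
  · obtain ⟨q, hq⟩ := Int.eq_ofNat_of_zero_le (show 0 ≤ n - (m + c) by omega)
    have hnq : n = m + c + q := by omega
    have h8 := n1_rec_eq K (fun q => w.coeff (m + c + q)) q (hK q)
    rw [hnq, ← h8]
    symm
    refine Finset.sum_bij (fun (q' : ℕ) _ => m + (q' : ℤ)) ?_ ?_ ?_ ?_
    · intro q' hq'
      rw [Finset.mem_range] at hq'
      rw [Finset.mem_Icc]
      constructor <;> omega
    · intro q₁ _ q₂ _ h
      omega
    · intro p hp
      rw [Finset.mem_Icc] at hp
      refine ⟨(p - m).toNat, ?_, ?_⟩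
      · rw [Finset.mem_range]
        omega
      · omega
    · intro q' _
      rw [hyc, if_pos (by omega), Finset.sum_mul]
      have h9 : (m + (q' : ℤ) - m).toNat = q' := by omega
      rw [h9]
      refine Finset.sum_congr rfl fun j _ => ?_
      have h10 : ∏ i ∈ Finset.range j, (((m + q + c - 1 - i : ℤ)) : ℂ) =
          ∏ i ∈ Finset.range j, (((m + c + q - 1 - i : ℤ)) : ℂ) := by
        refine Finset.prod_congr rfl fun i _ => ?_
        push_cast
        ring
      have h11 : c + (q : ℤ) - j - q' = m + c + q - j - (m + q') := by ring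
      rw [h10, h11]

/-! ## connections -/

variable {V : Type} [AddCommGroup V] [Module (LS ℂ) V]

/-- `T` is a connection over `s² d/ds` -/
def IsConn (T : V →+ V) : Prop := ∀ (f : LS ℂ) (u : V), T (f • u) = f • T u + s2d f • u

/-- all coordinates in the basis have order `≥ m` -/
def BOge {ι : Type} (b : Module.Basis ι (LS ℂ) V) (m : ℤ) (u : V) : Prop :=
  ∀ i, Oge m (b.repr u i)

/-- surjectivity in high order, with bounded loss -/
def Srj {ι : Type} (b : Module.Basis ι (LS ℂ) V) (T : V →+ V) : Prop :=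
  ∃ c m₀ : ℤ, ∀ m, m₀ ≤ m → ∀ w, BOge b (m + c) w → ∃ u, BOge b m u ∧ T u = w

private lemma n2_mono {m m' : ℤ} {x : LS ℂ} (h : Oge m x) (hm : m' ≤ m) : Oge m' x :=
  fun n hn => h n (by omega)

private lemma n2_sub {m : ℤ} {x y : LS ℂ} (hx : Oge m x) (hy : Oge m y) : Oge m (x - y) :=
  fun n hn => by rw [LS.coeff_sub, hx n hn, hy n hn, sub_zero]

private lemma n2_mul {p q : ℤ} {x y : LS ℂ} (hx : Oge p x) (hy : Oge q y) :
    Oge (p + q) (x * y) := fun n hn => by
  rw [LS.coeff_mul hx hy, Finset.Icc_eq_empty (by omega), Finset.sum_empty]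

private lemma n2_s2d {m : ℤ} {x : LS ℂ} (hx : Oge m x) : Oge m (s2d x) := fun n hn => by
  rw [s2d_coeff, hx (n - 1) (by omega), mul_zero]

private lemma n2_iter {m : ℤ} (j : ℕ) {x : LS ℂ} (hx : Oge m x) : Oge m (s2d^[j] x) := by
  induction j with
  | zero => exact hx
  | succ j ih =>
    rw [Function.iterate_succ_apply']
    exact n2_s2d ih

private lemma n2_sum {m : ℤ} {ι : Type} (s : Finset ι) (f : ι → LS ℂ) (h : ∀ i ∈ s, Oge m (f i)) :
    Oge m (∑ i ∈ s, f i) := fun n hn => by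
  rw [LS.coeff_sum]
  exact Finset.sum_eq_zero fun i hi => h i hi n hn

private lemma n2_sign {m : ℤ} (j : ℕ) {x : LS ℂ} (hx : Oge m x) : Oge m ((-1) ^ j * x) :=
  fun n hn => by rw [n1_sign, hx n hn, mul_zero]

/-- the descending recursion -/
private lemma n2_seq (m : ℤ) (g : ℕ → LS ℂ) (n : ℕ) : ∀ x : LS ℂ, Oge m x →
    (∀ j < n, Oge m (g j)) →
    ∑ j ∈ Finset.range n, (-1) ^ j * s2d^[j] (g j) + (-1) ^ n * s2d^[n] x = 0 →
    ∃ v : ℕ → LS ℂ, v n = x ∧ v 0 = 0 ∧ (∀ i < n, v i + s2d (v (i + 1)) = g i) ∧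
      ∀ i ≤ n, Oge m (v i) := by
  induction n with
  | zero =>
    intro x hx _ h
    simp only [Finset.range_zero, Finset.sum_empty, pow_zero, Function.iterate_zero, id_eq,
      one_mul, zero_add] at h
    exact ⟨fun _ => 0, h.symm, rfl, fun i hi => absurd hi (by omega), fun i _ n _ =>
      LS.coeff_zero n⟩
  | succ n ih =>
    intro x hx hg h
    have h1 : ∑ j ∈ Finset.range n, (-1) ^ j * s2d^[j] (g j) +
        (-1) ^ n * s2d^[n] (g n - s2d x) = 0 := by
      rw [← h, Finset.sum_range_succ, iterate_map_sub, ← Function.iterate_succ_apply]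
      ring
    obtain ⟨v, h2, h3, h4, h5⟩ := ih _ (n2_sub (hg n (by omega)) (n2_s2d hx))
      (fun j hj => hg j (by omega)) h1
    refine ⟨fun i => if i ≤ n then v i else x, ?_, ?_, ?_, ?_⟩
    · simp
    · simpa using h3
    · intro i hi
      by_cases hin : i = n
      · subst hin
        simp only [le_refl, if_true, if_neg (show ¬ i + 1 ≤ i by omega)]
        rw [h2]
        ring
      · simp only [if_pos (show i ≤ n by omega), if_pos (show i + 1 ≤ n by omega)]
        exact h4 i (by omega)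
    · intro i hi
      by_cases hin : i ≤ n
      · simp only [if_pos hin]
        exact h5 i hin
      · simp only [if_neg hin]
        exact hx

/-- MODULE n2. A cyclic connection. With `u = ∑ u_i b_i`, `δ = s² d/ds`, `T b_{e-1} = ∑ a_i b_i`,
`y = u_{e-1}`: the equation `T u = w` reads `u_{i-1} = w_i - a_i y - δ u_i` (`0 < i`) and
`0 = w_0 - a_0 y - δ u_0`, so everything follows from the scalar equation
`∑_{j < e} (-1)^j δ^j (a_j y) + (-1)^e δ^e (- y) = ∑_{j < e} (-1)^j δ^j w_j` (`scalar_srj`). -/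
theorem cyclic_srj {e : ℕ} (b : Module.Basis (Fin e) (LS ℂ) V) (T : V →+ V) (hT : IsConn T)
    (hb : ∀ (i : ℕ) (hi : i + 1 < e), T (b ⟨i, by omega⟩) = b ⟨i + 1, hi⟩) : Srj b T := by
  classical
  rcases e with _ | d
  · exact ⟨0, 0, fun m _ w _ => ⟨0, fun i => i.elim0, b.ext_elem fun i => i.elim0⟩⟩
  let a : ℕ → LS ℂ := fun j => if h : j < d + 1 then b.repr (T (b (Fin.last d))) ⟨j, h⟩ else -1
  have ha : ∃ j ≤ d + 1, a j ≠ 0 := by
    refine ⟨d + 1, le_rfl, ?_⟩
    show (if h : d + 1 < d + 1 then b.repr (T (b (Fin.last d))) ⟨d + 1, h⟩ else -1) ≠ 0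
    rw [dif_neg (lt_irrefl _)]
    exact neg_ne_zero.2 one_ne_zero
  have hai : ∀ i : Fin (d + 1), b.repr (T (b (Fin.last d))) i = a i.1 := fun i => by
    show _ = (if h : i.1 < d + 1 then b.repr (T (b (Fin.last d))) ⟨i.1, h⟩ else -1)
    rw [dif_pos i.2]
  have hal : a (d + 1) = -1 := dif_neg (lt_irrefl _)
  obtain ⟨c₀, m₀, hc₀⟩ := scalar_srj (d + 1) a ha
  -- a common bound for the orders of the `a j`
  obtain ⟨A, hA0, hA⟩ : ∃ A : ℤ, 0 ≤ A ∧ ∀ j < d + 1, Oge (-A) (a j) := by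
    choose N hN using fun j => (a j).exists_lb
    refine ⟨∑ j ∈ Finset.range (d + 1), |N j|, Finset.sum_nonneg fun _ _ => abs_nonneg _, ?_⟩
    intro j hj n hn
    refine hN j n ?_
    have h1 : |N j| ≤ ∑ j ∈ Finset.range (d + 1), |N j| :=
      Finset.single_le_sum (f := fun j => |N j|) (fun _ _ => abs_nonneg _) (Finset.mem_range.2 hj)
    have h2 := neg_abs_le (N j)
    omega
  refine ⟨max (A + c₀) 0, m₀ - A, fun m hm w hw => ?_⟩
  have hc1 := le_max_left (A + c₀) 0
  have hc2 := le_max_right (A + c₀) 0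
  let W : ℕ → LS ℂ := fun j => if h : j < d + 1 then b.repr w ⟨j, h⟩ else 0
  have hWi : ∀ i : Fin (d + 1), b.repr w i = W i.1 := fun i => by
    show _ = (if h : i.1 < d + 1 then b.repr w ⟨i.1, h⟩ else 0)
    rw [dif_pos i.2]
  have hW : ∀ j < d + 1, Oge (m + max (A + c₀) 0) (W j) := fun j hj => by
    rw [← hWi ⟨j, hj⟩]
    exact hw _
  obtain ⟨y, hy, hyW⟩ := hc₀ (m + A) (by omega)
    (∑ j ∈ Finset.range (d + 1), (-1) ^ j * s2d^[j] (W j))
    (n2_sum _ _ fun j hj => n2_sign j (n2_iter j (n2_mono (hW j (Finset.mem_range.1 hj))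
      (by omega))))
  have hy' : Oge m y := n2_mono hy (by omega)
  have hay : ∀ j < d + 1, Oge m (a j * y) := fun j hj =>
    n2_mono (n2_mul (hA j hj) hy) (by omega)
  -- the sequence
  obtain ⟨v, hv1, hv0, hv, hvm⟩ := n2_seq m (fun j => W j - a j * y) (d + 1) y hy'
    (fun j hj => n2_sub (n2_mono (hW j hj) (by omega)) (hay j hj)) (by
      have h1 : ∀ j ∈ Finset.range (d + 1), (-1) ^ j * s2d^[j] (W j - a j * y) =
          (-1) ^ j * s2d^[j] (W j) - (-1) ^ j * s2d^[j] (a j * y) := fun j _ => by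
        rw [iterate_map_sub, mul_sub]
      rw [Finset.sum_congr rfl h1, Finset.sum_sub_distrib, ← hyW, Finset.sum_range_succ _ (d + 1),
        hal, neg_one_mul, iterate_map_neg]
      ring)
  refine ⟨∑ i : Fin (d + 1), v (i.1 + 1) • b i, fun i => ?_, ?_⟩
  · rw [b.repr_sum_self (fun i : Fin (d + 1) => v (i.1 + 1))]
    exact hvm _ (by omega)
  · rw [map_sum]
    have h1 : ∀ i : Fin (d + 1), T (v (i.1 + 1) • b i) =
        v (i.1 + 1) • T (b i) + s2d (v (i.1 + 1)) • b i := fun i => hT _ _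
    rw [Finset.sum_congr rfl fun i _ => h1 i, Finset.sum_add_distrib, Fin.sum_univ_castSucc]
    have h2 : ∀ i : Fin d, v (i.castSucc.1 + 1) • T (b i.castSucc) = v i.succ.1 • b i.succ :=
      fun i => by
        have h3 := hb i.1 (by omega)
        have h4 : (⟨i.1, by omega⟩ : Fin (d + 1)) = i.castSucc := rfl
        have h5 : (⟨i.1 + 1, by omega⟩ : Fin (d + 1)) = i.succ := rfl
        rw [h4, h5] at h3
        rw [h3]
        rfl
    rw [Finset.sum_congr rfl fun i _ => h2 i]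
    have h3 : ∑ i : Fin d, v i.succ.1 • b i.succ = ∑ i : Fin (d + 1), v i.1 • b i := by
      rw [Fin.sum_univ_succ (fun i : Fin (d + 1) => v i.1 • b i)]
      have : v (0 : Fin (d + 1)).1 = 0 := hv0
      rw [this, zero_smul, zero_add]
    have h4 : v ((Fin.last d).1 + 1) • T (b (Fin.last d)) =
        ∑ i : Fin (d + 1), (a i.1 * y) • b i := by
      have h5 : v ((Fin.last d).1 + 1) = y := hv1
      rw [h5]
      conv_lhs => rw [← b.sum_repr (T (b (Fin.last d)))]
      rw [Finset.smul_sum]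
      refine Finset.sum_congr rfl fun i _ => ?_
      rw [hai, smul_smul, mul_comm]
    rw [h3, h4]
    conv_rhs => rw [← b.sum_repr w]
    rw [← Finset.sum_add_distrib, ← Finset.sum_add_distrib]
    refine Finset.sum_congr rfl fun i _ => ?_
    rw [← add_smul, ← add_smul, hWi]
    congr 1
    have h6 := hv i.1 i.2
    linear_combination h6

private lemma n3_mono {m n : ℤ} (h : m ≤ n) {x : LS ℂ} (hx : Oge n x) : Oge m x :=
  fun k hk => hx k (lt_of_lt_of_le hk h)

private lemma n3_add {m : ℤ} {x y : LS ℂ} (hx : Oge m x) (hy : Oge m y) : Oge m (x + y) :=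
  fun k hk => by rw [LS.coeff_add, hx k hk, hy k hk, add_zero]

private lemma n3_sub {m : ℤ} {x y : LS ℂ} (hx : Oge m x) (hy : Oge m y) : Oge m (x - y) :=
  fun k hk => by rw [LS.coeff_sub, hx k hk, hy k hk, sub_zero]

private lemma n3_sum {ι : Type} (s : Finset ι) (f : ι → LS ℂ) {m : ℤ}
    (h : ∀ i ∈ s, Oge m (f i)) : Oge m (∑ i ∈ s, f i) := fun k hk => by
  rw [LS.coeff_sum]
  exact Finset.sum_eq_zero fun i hi => h i hi k hk

private lemma n3_mul {a b : ℤ} {x y : LS ℂ} (hx : Oge a x) (hy : Oge b y) :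
    Oge (a + b) (x * y) := by
  intro n hn
  rw [LS.coeff_mul hx hy, Finset.Icc_eq_empty (by omega), Finset.sum_empty]

private lemma n3_s2d {m : ℤ} {x : LS ℂ} (hx : Oge m x) : Oge m (s2d x) := by
  intro n hn
  rw [s2d_coeff, hx (n - 1) (by omega), mul_zero]

private lemma n3_conv {ι κ : Type} [Finite ι] [Finite κ] (b : Module.Basis ι (LS ℂ) V)
    (b' : Module.Basis κ (LS ℂ) V) : ∃ C : ℤ, ∀ m u, BOge b m u → BOge b' (m - C) u := by
  have := Fintype.ofFinite ι
  choose N hN using fun p : ι × κ => (b'.repr (b p.1) p.2).exists_lb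
  obtain ⟨M, hM⟩ := Finite.exists_ge N
  refine ⟨-M, fun m u hu j => ?_⟩
  have h : b'.repr u j = ∑ i, b.repr u i * b'.repr (b i) j := by
    conv_lhs => rw [← b.sum_repr u]
    rw [map_sum, Finsupp.finsetSum_apply]
    simp only [map_smul, Finsupp.smul_apply, smul_eq_mul]
  rw [h]
  refine n3_sum _ _ fun i _ => ?_
  have := n3_mul (hu i) (n3_mono (hM (i, j)) (hN (i, j)))
  rwa [sub_neg_eq_add]

private lemma n3_Tb {ι : Type} [Finite ι] (b : Module.Basis ι (LS ℂ) V) (T : V →+ V)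
    (hT : IsConn T) : ∃ C : ℤ, ∀ m u, BOge b m u → BOge b (m - C) (T u) := by
  have := Fintype.ofFinite ι
  classical
  choose N hN using fun p : ι × ι => (b.repr (T (b p.1)) p.2).exists_lb
  obtain ⟨M, hM⟩ := Finite.exists_ge N
  refine ⟨max (-M) 0, fun m u hu j => ?_⟩
  have h : b.repr (T u) j = ∑ i, b.repr u i * b.repr (T (b i)) j + s2d (b.repr u j) := by
    conv_lhs => rw [← b.sum_repr u]
    rw [map_sum, Finset.sum_congr rfl fun i _ => hT _ _, map_sum, Finsupp.finsetSum_apply]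
    simp only [map_add, map_smul, Finsupp.add_apply, Finsupp.smul_apply, smul_eq_mul,
      Finset.sum_add_distrib, b.repr_self]
    congr 1
    rw [Finset.sum_eq_single j]
    · simp
    · intro i _ hij
      rw [Finsupp.single_eq_of_ne (Ne.symm hij), mul_zero]
    · intro h
      exact absurd (Finset.mem_univ j) h
  rw [h]
  refine n3_add (n3_sum _ _ fun i _ => ?_) (n3_mono (by omega) (n3_s2d (hu j)))
  exact n3_mono (by omega) (n3_mul (hu i) (n3_mono (hM (i, j)) (hN (i, j))))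

private lemma n3_split {W W' : Submodule (LS ℂ) V} (hc : IsCompl W W') {ι κ : Type}
    (b₁ : Module.Basis ι (LS ℂ) W) (b₂ : Module.Basis κ (LS ℂ) W') (m : ℤ) (u₁ : W) (u₂ : W') :
    BOge ((b₁.prod b₂).map (Submodule.prodEquivOfIsCompl W W' hc)) m ((u₁ : V) + u₂) ↔
      BOge b₁ m u₁ ∧ BOge b₂ m u₂ := by
  have h : (Submodule.prodEquivOfIsCompl W W' hc).symm ((u₁ : V) + u₂) = (u₁, u₂) := by
    rw [LinearEquiv.symm_apply_eq]
    simp
  unfold BOge
  rw [Module.Basis.map_repr, LinearEquiv.trans_apply, h]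
  constructor
  · intro hb
    exact ⟨fun i => by simpa using hb (Sum.inl i), fun i => by simpa using hb (Sum.inr i)⟩
  · rintro ⟨h1, h2⟩ (i | i)
    · simpa using h1 i
    · simpa using h2 i

private lemma n3_ext {W W' : Submodule (LS ℂ) V} (hc : IsCompl W W') {ι κ : Type} [Finite ι]
    [Finite κ] (b₁ : Module.Basis ι (LS ℂ) W) (b₂ : Module.Basis κ (LS ℂ) W') (T : V →+ V)
    (hT : IsConn T) (T₁ : W →+ W) (h₁ : ∀ u : W, (T₁ u : V) = T u) (T₂ : W' →+ W')
    (h₂ : ∀ u : W', ∃ r : W, T (u : V) = (r : V) + (T₂ u : V)) (s₁ : Srj b₁ T₁)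
    (s₂ : Srj b₂ T₂) : Srj ((b₁.prod b₂).map (Submodule.prodEquivOfIsCompl W W' hc)) T := by
  obtain ⟨c₁, m₁, s₁⟩ := s₁
  obtain ⟨c₂, m₂, s₂⟩ := s₂
  obtain ⟨C, hC⟩ := n3_Tb ((b₁.prod b₂).map (Submodule.prodEquivOfIsCompl W W' hc)) T hT
  refine ⟨max c₁ (max 0 (c₁ + C) + c₂), max m₁ m₂, fun m hm w hw => ?_⟩
  obtain ⟨⟨w₁, w₂⟩, hw'⟩ := (Submodule.prodEquivOfIsCompl W W' hc).surjective w
  have hw2 : (w₁ : V) + w₂ = w := by rw [← hw']; simp
  rw [← hw2, n3_split] at hw
  obtain ⟨u₂, hu₂, e₂⟩ := s₂ (m + max 0 (c₁ + C)) (by omega) w₂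
    (fun i => n3_mono (by omega) (hw.2 i))
  obtain ⟨r, hr⟩ := h₂ u₂
  have h0 : BOge ((b₁.prod b₂).map (Submodule.prodEquivOfIsCompl W W' hc))
      (m + max 0 (c₁ + C)) (((0 : W) : V) + u₂) :=
    (n3_split hc b₁ b₂ _ _ _).2 ⟨fun i => by
      rw [map_zero]; exact fun _ _ => rfl, hu₂⟩
  have h3 := hC _ _ h0
  rw [Submodule.coe_zero, zero_add, hr, n3_split] at h3
  obtain ⟨u₁, hu₁, e₁⟩ := s₁ m (by omega) (w₁ - r) (fun i => by
    rw [map_sub]
    exact n3_sub (n3_mono (by omega) (hw.1 i)) (n3_mono (by omega) (h3.1 i)))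
  refine ⟨(u₁ : V) + u₂, (n3_split hc b₁ b₂ _ _ _).2 ⟨hu₁, fun i => n3_mono (by omega) (hu₂ i)⟩, ?_⟩
  rw [map_add, ← h₁, e₁, hr, e₂, ← hw2, Submodule.coe_sub]
  abel

private lemma n3_cyc [Module.Finite (LS ℂ) V] (T : V →+ V) (v : V) (hv : v ≠ 0) :
    ∃ e : ℕ, 0 < e ∧ LinearIndependent (LS ℂ) (fun i : Fin e => T^[i] v) ∧
      T^[e] v ∈ Submodule.span (LS ℂ) (Set.range fun i : Fin e => T^[i] v) := by
  classical
  by_contra hcon
  push Not at hcon
  have h : ∀ e : ℕ, 0 < e → LinearIndependent (LS ℂ) (fun i : Fin e => T^[i] v) := by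
    intro e he
    induction e, he using Nat.le_induction with
    | base =>
      refine LinearIndependent.of_subsingleton (0 : Fin 1) ?_
      simpa using hv
    | succ e he ih =>
      rw [linearIndependent_finSucc']
      exact ⟨ih, hcon e he ih⟩
  have h1 := (h (Module.finrank (LS ℂ) V + 1) (Nat.succ_pos _)).fintype_card_le_finrank
  simp at h1

/-- MODULE n3. Independence of the basis. -/
theorem Srj.change {ι κ : Type} [Finite ι] [Finite κ] {b : Module.Basis ι (LS ℂ) V}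
    (b' : Module.Basis κ (LS ℂ) V) {T : V →+ V} (h : Srj b T) : Srj b' T := by
  obtain ⟨c, m₀, h⟩ := h
  obtain ⟨C, hC⟩ := n3_conv b b'
  obtain ⟨C', hC'⟩ := n3_conv b' b
  refine ⟨c + C + C', m₀ - C, fun m hm w hw => ?_⟩
  have h1 := hC' _ _ hw
  obtain ⟨u, hu, e⟩ := h (m + C) (by omega) w (by
    have : m + (c + C + C') - C' = m + C + c := by ring
    rwa [this] at h1)
  refine ⟨u, ?_, e⟩
  have h2 := hC _ _ hu
  rwa [add_sub_cancel_right] at h2

private lemma n3_main (n : ℕ) : ∀ (V : Type) [AddCommGroup V] [Module (LS ℂ) V]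
    [Module.Finite (LS ℂ) V], Module.finrank (LS ℂ) V = n → ∀ T : V →+ V, IsConn T →
    Srj (Module.finBasis (LS ℂ) V) T := by
  induction n using Nat.strong_induction_on with
  | _ n ih =>
    intro V _ _ _ hn T hT
    by_cases h0 : ∃ v : V, v ≠ 0
    · obtain ⟨v, hv⟩ := h0
      obtain ⟨e, he, hli, hmem⟩ := n3_cyc T v hv
      have hTW : ∀ u ∈ Submodule.span (LS ℂ) (Set.range fun i : Fin e => T^[i] v),
          T u ∈ Submodule.span (LS ℂ) (Set.range fun i : Fin e => T^[i] v) := by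
        intro u hu
        induction hu using Submodule.span_induction with
        | mem x hx =>
          obtain ⟨i, rfl⟩ := hx
          simp only
          rw [← Function.iterate_succ_apply' (⇑T) (i : ℕ) v]
          by_cases hi : (i : ℕ) + 1 < e
          · exact Submodule.subset_span ⟨⟨i + 1, hi⟩, rfl⟩
          · have h2 : (i : ℕ).succ = e := by omega
            rw [h2]
            exact hmem
        | zero => rw [map_zero]; exact zero_mem _
        | add x y _ _ hx hy => rw [map_add]; exact add_mem hx hy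
        | smul a x hx' hx =>
          rw [hT]
          exact add_mem (Submodule.smul_mem _ _ hx) (Submodule.smul_mem _ _ hx')
      have hdW : Module.finrank (LS ℂ)
          (Submodule.span (LS ℂ) (Set.range fun i : Fin e => T^[i] v)) = e := by
        rw [finrank_span_eq_card hli, Fintype.card_fin]
      obtain ⟨b₁, hb₁⟩ : ∃ b₁ : Module.Basis (Fin e) (LS ℂ) (Submodule.span (LS ℂ)
          (Set.range fun i : Fin e => T^[i] v)), ∀ i, ((b₁ i : Submodule.span (LS ℂ)
          (Set.range fun i : Fin e => T^[i] v)) : V) = T^[i] v :=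
        ⟨Module.Basis.span hli, fun i => by rw [Module.Basis.span_apply]⟩
      generalize Submodule.span (LS ℂ) (Set.range fun i : Fin e => T^[i] v) = W at *
      obtain ⟨W', hc⟩ := Submodule.exists_isCompl W
      let T₁ : W →+ W :=
        { toFun := fun u => ⟨T u, hTW u u.2⟩
          map_zero' := by ext; simp
          map_add' := fun x y => by ext; simp }
      have hT₁ : IsConn T₁ := fun f u => Subtype.ext (hT f u)
      have s₁ : Srj b₁ T₁ := cyclic_srj b₁ T₁ hT₁ fun i hi => Subtype.ext (by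
        show T (b₁ _ : V) = (b₁ _ : V)
        rw [hb₁, hb₁]
        exact (Function.iterate_succ_apply' T i v).symm)
      let Pr : V →ₗ[LS ℂ] W' := Submodule.projectionOnto W' W hc.symm
      let T₂ : W' →+ W' := Pr.toAddMonoidHom.comp (T.comp W'.subtype.toAddMonoidHom)
      have hP : ∀ u : W', Pr (u : V) = u := fun u =>
        Submodule.projectionOnto_apply_left hc.symm u
      have hT₂ : IsConn T₂ := by
        intro f u
        show Pr (T (f • (u : V))) = f • Pr (T u) + s2d f • u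
        rw [hT, map_add, map_smul, map_smul, hP]
      have hdim : Module.finrank (LS ℂ) W' < n := by
        have h1 := Submodule.finrank_add_eq_of_isCompl hc
        omega
      have s₂ := ih _ hdim W' rfl T₂ hT₂
      have h2 : ∀ u : W', ∃ r : W, T (u : V) = (r : V) + (T₂ u : V) := by
        intro u
        refine ⟨⟨T u - Pr (T u), ?_⟩, (sub_add_cancel _ _).symm⟩
        rw [← Submodule.ker_projectionOnto hc.symm, LinearMap.mem_ker, map_sub]
        exact sub_eq_zero.2 (hP _).symm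
      exact (n3_ext hc b₁ _ T hT T₁ (fun _ => rfl) T₂ h2 s₁ s₂).change _
    · push Not at h0
      exact ⟨0, 0, fun m _ w _ => ⟨0, fun i => by rw [map_zero]; exact fun _ _ => rfl, by
        rw [map_zero]; exact (h0 w).symm⟩⟩

/-- MODULE n3. Every connection on a finite dimensional space is surjective in high order, with
bounded loss. Induction on the dimension: take `v ≠ 0`, `e` minimal with
`T^e v ∈ span (v, …, T^(e-1) v)`, extend `v, …, T^(e-1) v` to a basis of `V` indexed by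
`Fin e ⊕ κ` (`Module.Basis.sumExtend`), use `cyclic_srj` on the span and the induction hypothesis
for the connection induced on `κ → LS ℂ`; the matrix of `T` is block triangular. -/
theorem srj_of_finite {ι : Type} [Finite ι] (b : Module.Basis ι (LS ℂ) V) (T : V →+ V)
    (hT : IsConn T) : Srj b T := by
  have : Module.Finite (LS ℂ) V := Module.Finite.of_basis b
  exact (n3_main _ V rfl T hT).change b

private lemma n4_mono {a b : ℤ} {x : LS ℂ} (h : Oge a x) (hab : b ≤ a) : Oge b x :=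
  fun n hn => h n (lt_of_lt_of_le hn hab)

private lemma n4_add {a : ℤ} {x y : LS ℂ} (hx : Oge a x) (hy : Oge a y) : Oge a (x + y) :=
  fun n hn => by rw [LS.coeff_add, hx n hn, hy n hn, add_zero]

private lemma n4_sum {ι : Type} (s : Finset ι) {a : ℤ} (f : ι → LS ℂ) (h : ∀ i ∈ s, Oge a (f i)) :
    Oge a (∑ i ∈ s, f i) :=
  fun n hn => by
    rw [LS.coeff_sum]
    exact Finset.sum_eq_zero fun i hi => h i hi n hn

private lemma n4_mul {a b : ℤ} {x y : LS ℂ} (hx : Oge a x) (hy : Oge b y) : Oge (a + b) (x * y) := by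
  intro n hn
  rw [LS.coeff_mul hx hy, Finset.Icc_eq_empty (by omega), Finset.sum_empty]

private def n4_M {r : ℕ} (m : ℤ) (A : Matrix (Fin r) (Fin r) (LS ℂ)) : Prop := ∀ i j, Oge m (A i j)

private lemma n4_Mmul {r : ℕ} {a b : ℤ} {A B : Matrix (Fin r) (Fin r) (LS ℂ)} (hA : n4_M a A)
    (hB : n4_M b B) : n4_M (a + b) (A * B) := by
  intro i j
  rw [Matrix.mul_apply]
  exact n4_sum _ _ fun l _ => n4_mul (hA i l) (hB l j)

private lemma n4_Mneg {r : ℕ} {a : ℤ} {A : Matrix (Fin r) (Fin r) (LS ℂ)} (hA : n4_M a A) :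
    n4_M a (-A) := by
  intro i j n hn
  rw [Matrix.neg_apply, LS.coeff_neg, hA i j n hn, neg_zero]

private lemma n4_coeff {x y : LS ℂ} (hx : Oge 0 x) (hy : Oge 0 y) (n : ℕ) :
    (x * y).coeff n = ∑ p ∈ Finset.HasAntidiagonal.antidiagonal n,
      x.coeff p.1 * y.coeff p.2 := by
  rw [LS.coeff_mul hx hy, Finset.Nat.sum_antidiagonal_eq_sum_range_succ_mk, sub_zero]
  refine Finset.sum_nbij' (fun i : ℤ => i.toNat) (fun k : ℕ => (k : ℤ)) ?_ ?_ ?_ ?_ ?_
  · intro i hi
    rw [Finset.mem_Icc] at hi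
    rw [Finset.mem_range]
    omega
  · intro k hk
    rw [Finset.mem_range] at hk
    rw [Finset.mem_Icc]
    omega
  · intro i hi
    rw [Finset.mem_Icc] at hi
    exact Int.toNat_of_nonneg hi.1
  · intro k _
    simp
  · intro i hi
    rw [Finset.mem_Icc] at hi
    have h1 : ((i.toNat : ℕ) : ℤ) = i := Int.toNat_of_nonneg hi.1
    have h2 : ((n - i.toNat : ℕ) : ℤ) = n - i := by omega
    simp only [h1, h2]

private lemma n4_Mcoeff {r : ℕ} {A B : Matrix (Fin r) (Fin r) (LS ℂ)} (hA : n4_M 0 A)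
    (hB : n4_M 0 B) (n : ℕ) (a b : ℕ → Matrix (Fin r) (Fin r) ℂ)
    (ha : ∀ t ≤ n, ∀ i j, (A i j).coeff t = a t i j)
    (hb : ∀ t ≤ n, ∀ i j, (B i j).coeff t = b t i j) (i j : Fin r) :
    ((A * B) i j).coeff n = (∑ p ∈ Finset.HasAntidiagonal.antidiagonal n, a p.1 * b p.2) i j := by
  rw [Matrix.mul_apply, LS.coeff_sum, Matrix.sum_apply]
  simp only [Matrix.mul_apply]
  rw [Finset.sum_comm]
  refine Finset.sum_congr rfl fun l _ => ?_
  rw [n4_coeff (hA i l) (hB l j)]
  refine Finset.sum_congr rfl fun p hp => ?_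
  rw [Finset.HasAntidiagonal.mem_antidiagonal] at hp
  rw [ha p.1 (by omega), hb p.2 (by omega)]

/-- the matrix of Laurent series with the given coefficients -/
private noncomputable def n4_up {r : ℕ} (Z : ℕ → Matrix (Fin r) (Fin r) ℂ) :
    Matrix (Fin r) (Fin r) (LS ℂ) :=
  Matrix.of fun i j => LS.mk (fun n : ℤ => if 0 ≤ n then Z n.toNat i j else 0)
    ⟨0, fun _ hn => if_neg (not_le.2 hn)⟩

private lemma n4_up_coeff {r : ℕ} (Z : ℕ → Matrix (Fin r) (Fin r) ℂ) (i j : Fin r) (n : ℤ) :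
    (n4_up Z i j).coeff n = if 0 ≤ n then Z n.toNat i j else 0 := rfl

private lemma n4_up_nat {r : ℕ} (Z : ℕ → Matrix (Fin r) (Fin r) ℂ) (i j : Fin r) (n : ℕ) :
    (n4_up Z i j).coeff n = Z n i j := by
  rw [n4_up_coeff, if_pos (by omega), Int.toNat_natCast]

private lemma n4_up_zero {r : ℕ} (Z : ℕ → Matrix (Fin r) (Fin r) ℂ) : n4_M 0 (n4_up Z) := by
  intro i j n hn
  rw [n4_up_coeff, if_neg (by omega)]

private noncomputable def n4_equiv (r : ℕ) :
    Matrix (Fin r) (Fin r) (LS ℂ) ≃ₗ[LS ℂ] (Fin r × Fin r → LS ℂ) where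
  toFun M p := M p.1 p.2
  invFun f := Matrix.of fun i j => f (i, j)
  left_inv _ := rfl
  right_inv _ := rfl
  map_add' _ _ := rfl
  map_smul' _ _ := rfl

/-- MODULE n4. FINITE DETERMINACY. `Y = ∑ Y_n s^n`, `G = ∑ G_n s^n`, `Y' = ∑ Y'_n s^n`:
`s² dG/ds + Y G = G Y'` with `G(0) = 1` and `Y'` polynomial. Proof: apply `srj_of_finite` to
`𝓛 H = s² H' + [Y, H]` on matrices; with loss `c` take `k + 1 ≥ max (m₀, 1) + max (c, 0)`, `Y'` the
truncation of `Y` at degree `k`, `E = Y - Y'` and solve `𝓛 H + H E = - E` with `H` of order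
`≥ 1` by successive approximation (`H = ∑ H_n`, `𝓛 H_0 = - E`, `𝓛 H_(n+1) = - H_n E`, orders
increase); `G = 1 + H`. -/
theorem findet {r : ℕ} (Y : ℕ → Matrix (Fin r) (Fin r) ℂ) :
    ∃ (k : ℕ) (G Y' : ℕ → Matrix (Fin r) (Fin r) ℂ), G 0 = 1 ∧ (∀ n, k < n → Y' n = 0) ∧
      Y 0 = Y' 0 ∧
      ∀ n : ℕ, (n : ℂ) • G n + ∑ p ∈ Finset.HasAntidiagonal.antidiagonal (n + 1), Y p.1 * G p.2 =
        ∑ p ∈ Finset.HasAntidiagonal.antidiagonal (n + 1), G p.1 * Y' p.2 := by
  classical
  let YY := n4_up Y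
  let T : Matrix (Fin r) (Fin r) (LS ℂ) →+ Matrix (Fin r) (Fin r) (LS ℂ) :=
    { toFun := fun H => s2d.mat H + (YY * H - H * YY)
      map_zero' := by simp
      map_add' := fun A B => by rw [map_add, mul_add, add_mul]; abel }
  have Tdef : ∀ H, T H = s2d.mat H + (YY * H - H * YY) := fun H => rfl
  have hT : IsConn T := by
    intro f u
    rw [Tdef, Tdef, Matrix.mul_smul, Matrix.smul_mul, smul_add, smul_sub]
    have h1 : s2d.mat (f • u) = f • s2d.mat u + s2d f • u := by
      ext i j : 2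
      rw [Der.mat_apply, Matrix.smul_apply, smul_eq_mul, Der.leib, Matrix.add_apply,
        Matrix.smul_apply, Matrix.smul_apply, Der.mat_apply, smul_eq_mul, smul_eq_mul, add_comm]
    rw [h1]
    abel
  let b : Module.Basis (Fin r × Fin r) (LS ℂ) (Matrix (Fin r) (Fin r) (LS ℂ)) :=
    Module.Basis.ofEquivFun (n4_equiv r)
  have hb : ∀ m u, BOge b m u ↔ n4_M m u := by
    intro m u
    constructor
    · intro h i j
      exact h (i, j)
    · intro h p
      exact h p.1 p.2
  obtain ⟨c, m₀, hS⟩ := srj_of_finite b T hT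
  have hS' : ∀ m, m₀ ≤ m → ∀ w, n4_M (m + c) w → ∃ u, n4_M m u ∧ T u = w := by
    intro m hm w hw
    obtain ⟨u, hu, huw⟩ := hS m hm w ((hb _ _).2 hw)
    exact ⟨u, (hb _ _).1 hu, huw⟩
  obtain ⟨M, hM⟩ : ∃ M, M = max m₀ 1 := ⟨_, rfl⟩
  have hM0 : m₀ ≤ M := hM ▸ le_max_left _ _
  have hM1 : 1 ≤ M := hM ▸ le_max_right _ _
  obtain ⟨k, hk⟩ : ∃ k : ℕ, k = (M + c).toNat := ⟨_, rfl⟩
  have hk1 : M + c ≤ k := by omega
  let Y' : ℕ → Matrix (Fin r) (Fin r) ℂ := fun n => if n ≤ k then Y n else 0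
  let E := YY - n4_up Y'
  have hE : n4_M (k + 1) E := by
    intro i j n hn
    show (YY i j - n4_up Y' i j).coeff n = 0
    rw [LS.coeff_sub, n4_up_coeff, n4_up_coeff]
    by_cases h0 : 0 ≤ n
    · rw [if_pos h0, if_pos h0]
      show _ - (if n.toNat ≤ k then Y n.toNat else 0) i j = 0
      rw [if_pos (by omega), sub_self]
    · rw [if_neg h0, if_neg h0, sub_self]
  have step : ∀ (n : ℕ) (H : Matrix (Fin r) (Fin r) (LS ℂ)), n4_M (M + n) H →
      ∃ H', n4_M (M + (n + 1 : ℕ)) H' ∧ T H' = -(H * E) := by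
    intro n H hH
    refine hS' _ (by push_cast; omega) _ (n4_Mneg fun i j => ?_)
    exact n4_mono (n4_Mmul hH hE i j) (by push_cast; omega)
  choose! f hf1 hf2 using step
  obtain ⟨H0, hH0, hTH0⟩ := hS' M hM0 (-E) (n4_Mneg fun i j => n4_mono (hE i j) (by omega))
  let H : ℕ → Matrix (Fin r) (Fin r) (LS ℂ) := fun n => Nat.rec H0 (fun n A => f n A) n
  have Hz : H 0 = H0 := rfl
  have Hs : ∀ n, H (n + 1) = f n (H n) := fun n => rfl
  have hH : ∀ n : ℕ, n4_M (M + n) (H n) := by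
    intro n
    induction n with
    | zero => simpa [Hz] using hH0
    | succ n ih => rw [Hs]; exact hf1 n _ ih
  have hTH : ∀ n, T (H (n + 1)) = -(H n * E) := fun n => by rw [Hs]; exact hf2 n _ (hH n)
  let S : ℕ → Matrix (Fin r) (Fin r) (LS ℂ) := fun N => ∑ n ∈ Finset.range N, H n
  have hTS : ∀ N, T (S (N + 1)) = -E - S N * E := by
    intro N
    show T (∑ n ∈ Finset.range (N + 1), H n) = -E - (∑ n ∈ Finset.range N, H n) * E
    rw [map_sum, Finset.sum_range_succ', Hz, hTH0, Finset.sum_mul]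
    simp only [hTH]
    rw [Finset.sum_neg_distrib]
    abel
  have hSc : ∀ (t N : ℕ), t + 1 ≤ N → ∀ i j, (S N i j).coeff t = (S (t + 1) i j).coeff t := by
    intro t N hN i j
    induction N, hN using Nat.le_induction with
    | base => rfl
    | succ N hN ih =>
      have h1 : S (N + 1) = S N + H N := Finset.sum_range_succ _ _
      rw [h1, Matrix.add_apply, LS.coeff_add, ih, hH N i j t (by omega), add_zero]
  let G : ℕ → Matrix (Fin r) (Fin r) ℂ := fun t => Matrix.of fun i j =>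
    ((1 + S (t + 1) : Matrix (Fin r) (Fin r) (LS ℂ)) i j).coeff t
  have hSM : ∀ N, n4_M 0 (S N) := by
    intro N i j
    show Oge 0 ((∑ n ∈ Finset.range N, H n) i j)
    rw [Matrix.sum_apply]
    refine n4_sum _ _ fun n _ => ?_
    exact n4_mono (hH n i j) (show (0 : ℤ) ≤ M + (n : ℕ) by omega)
  have h1M : n4_M 0 (1 : Matrix (Fin r) (Fin r) (LS ℂ)) := by
    intro i j n hn
    rw [Matrix.one_apply]
    split_ifs
    · rw [LS.coeff_one, if_neg (by omega)]
    · rfl
  have hGM : ∀ N, n4_M 0 (1 + S N) := fun N i j => n4_add (h1M i j) (hSM N i j)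
  refine ⟨k, G, Y', ?_, fun n hn => if_neg (by omega), (if_pos (by omega)).symm, fun n => ?_⟩
  · ext i j
    show ((1 + S 1 : Matrix (Fin r) (Fin r) (LS ℂ)) i j).coeff (0 : ℕ) = _
    have h1 : S 1 = H 0 := by show ∑ n ∈ Finset.range 1, H n = _; simp
    have h2 : (H 0 i j).coeff ((0 : ℕ) : ℤ) = 0 := hH 0 i j _ (by push_cast; omega)
    rw [h1, Matrix.add_apply, LS.coeff_add, h2, add_zero,
      Matrix.one_apply, Matrix.one_apply]
    split_ifs
    · rw [LS.coeff_one]; simp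
    · rfl
  · obtain ⟨N, hN⟩ : ∃ N, N = n + 3 := ⟨_, rfl⟩
    have hGN : ∀ t ≤ n + 1, ∀ i j, ((1 + S (N + 1) : Matrix (Fin r) (Fin r) (LS ℂ)) i j).coeff t
        = G t i j := by
      intro t ht i j
      show _ = ((1 + S (t + 1) : Matrix (Fin r) (Fin r) (LS ℂ)) i j).coeff t
      rw [Matrix.add_apply, Matrix.add_apply, LS.coeff_add, LS.coeff_add,
        hSc t (N + 1) (by omega)]
    have key : s2d.mat (1 + S (N + 1)) + YY * (1 + S (N + 1)) - (1 + S (N + 1)) * n4_up Y' =
        H N * E := by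
      have e1 := hTS N
      rw [Tdef] at e1
      have e2 : S (N + 1) = S N + H N := Finset.sum_range_succ _ _
      have e3 : n4_up Y' = YY - E := (sub_sub_cancel _ _).symm
      have e4 : s2d.mat (1 + S (N + 1)) = s2d.mat (S (N + 1)) := by
        rw [map_add, Der.map_one', zero_add]
      have e5 : H N * E = S (N + 1) * E - S N * E := by rw [e2, add_mul]; abel
      rw [e4, e3, e5]
      have e6 : s2d.mat (S (N + 1)) = -E - S N * E - (YY * S (N + 1) - S (N + 1) * YY) := by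
        rw [← e1]; abel
      rw [e6]
      noncomm_ring
    ext i j
    have hz : ((H N * E) i j).coeff ((n + 1 : ℕ) : ℤ) = 0 :=
      n4_Mmul (hH N) hE i j _ (by push_cast; omega)
    rw [← key] at hz
    rw [Matrix.sub_apply, Matrix.add_apply, LS.coeff_sub, LS.coeff_add, Der.mat_apply,
      n4_Mcoeff (n4_up_zero Y) (hGM (N + 1)) (n + 1) Y G (fun t _ i j => n4_up_nat Y i j t) hGN,
      n4_Mcoeff (hGM (N + 1)) (n4_up_zero Y') (n + 1) G Y' hGN (fun t _ i j => n4_up_nat Y' i j t),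
      s2d_coeff] at hz
    have h1 : (((n + 1 : ℕ) : ℤ) - 1) = (n : ℤ) := by push_cast; ring
    rw [h1, hGN n (by omega), sub_eq_zero] at hz
    rw [← hz, Matrix.add_apply, Matrix.smul_apply, smul_eq_mul]
    push_cast
    ring

end Pool.Agent.Fbc
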