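import Pool.Agent.Fbc.Iface

import Pool.Agent.Fbc.NFa

/-!
# Formal Birkhoff normal form of a lattice (helper49)
-/

set_option autoImplicit false

namespace Pool.Agent.Fbc

open Pool.Fml (Ser SymRing formal micro IsFormal IsMicro cm eulM)

open Finset.HasAntidiagonal (antidiagonal)

variable {d r : ℕ}

/-- the degree in `x_1, …, x_d` -/
def wx (d : ℕ) : Option (Fin d) → ℕ := fun o => o.elim 0 fun _ => 1

/-- the commutation relations `[P_i, P_j] = 0` and `[P_i, T] = - s P_i` for the operators
`P_i = s ∂_i + A_i` and `T = s² ∂_s + B` on vectors -/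
structure Rel (A : Fin d → Mx d r) (B : Mx d r) : Prop where
  PP : ∀ i j, (sS : Ser d) • (A j).map (serD (some i)) - (sS : Ser d) • (A i).map (serD (some j))
    + (A i * A j - A j * A i) = 0
  PT : ∀ i, (sS : Ser d) • B.map (serD (some i)) - (sS : Ser d) ^ 2 • (A i).map (serD none)
    + (A i * B - B * A i) = -((sS : Ser d) • A i)

/-- the gauge transformation `G`, with inverse `H` -/
structure Gau (A A' : Fin d → Mx d r) (B B' G H : Mx d r) : Prop where
  GH : G * H = 1
  HG : H * G = 1
  P : ∀ i, (sS : Ser d) • G.map (serD (some i)) + A i * G = G * A' i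
  T : (sS : Ser d) ^ 2 • G.map (serD none) + B * G = G * B'

section n5

variable {k R : Type} [CommRing k] [Ring R] [Algebra k R]

lemma n5_PP (s : k) (Di Dj : Der R) (hi : ∀ x, Di (s • x) = s • Di x)
    (hj : ∀ x, Dj (s • x) = s • Dj x) (hc : ∀ x, Di (Dj x) = Dj (Di x))
    {G H Ai Aj Ai' Aj' : R} (HG : H * G = 1) (hPi : s • Di G + Ai * G = G * Ai')
    (hPj : s • Dj G + Aj * G = G * Aj')
    (h : s • Di Aj - s • Dj Ai + (Ai * Aj - Aj * Ai) = 0) :
    s • Di Aj' - s • Dj Ai' + (Ai' * Aj' - Aj' * Ai') = 0 := by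
  have e1 : s • s • Di (Dj G) + s • (Di Aj * G + Aj * Di G) = s • (Di G * Aj' + G * Di Aj') := by
    have := congrArg (fun x => s • Di x) hPj
    simpa only [map_add, hi, Der.leib, smul_add] using this
  have e2 : s • s • Dj (Di G) + s • (Dj Ai * G + Ai * Dj G) = s • (Dj G * Ai' + G * Dj Ai') := by
    have := congrArg (fun x => s • Dj x) hPi
    simpa only [map_add, hj, Der.leib, smul_add] using this
  rw [hc] at e1
  have key : G * (s • Di Aj' - s • Dj Ai' + (Ai' * Aj' - Aj' * Ai')) = 0 := by
    have f1 : s • (Di G * Aj') = (G * Ai' - Ai * G) * Aj' := by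
      rw [← hPi]; simp only [add_sub_cancel_right, smul_mul_assoc]
    have f2 : s • (Dj G * Ai') = (G * Aj' - Aj * G) * Ai' := by
      rw [← hPj]; simp only [add_sub_cancel_right, smul_mul_assoc]
    have f3 : s • (Aj * Di G) = Aj * (G * Ai' - Ai * G) := by
      rw [← hPi]; simp only [add_sub_cancel_right, mul_smul_comm]
    have f4 : s • (Ai * Dj G) = Ai * (G * Aj' - Aj * G) := by
      rw [← hPj]; simp only [add_sub_cancel_right, mul_smul_comm]
    have f5 : (s • Di Aj - s • Dj Ai + (Ai * Aj - Aj * Ai)) * G = 0 := by rw [h, zero_mul]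
    rw [smul_add, smul_add, f1, f3] at e1
    rw [smul_add, smul_add, f2, f4] at e2
    have e3 : (s • (G * Di Aj') - s • (G * Dj Ai')) =
      (s • (Di Aj * G) + Aj * (G * Ai' - Ai * G) - (G * Ai' - Ai * G) * Aj') -
        (s • (Dj Ai * G) + Ai * (G * Aj' - Aj * G) - (G * Aj' - Aj * G) * Ai') := by
      have e4 : s • (G * Di Aj') = s • s • Dj (Di G) + (s • (Di Aj * G) + Aj * (G * Ai' - Ai * G))
        - (G * Ai' - Ai * G) * Aj' := by rw [e1]; abel
      have e5 : s • (G * Dj Ai') = s • s • Dj (Di G) + (s • (Dj Ai * G) + Ai * (G * Aj' - Aj * G))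
        - (G * Aj' - Aj * G) * Ai' := by rw [e2]; abel
      rw [e4, e5]; abel
    rw [mul_add, mul_sub, mul_smul_comm, mul_smul_comm, e3, ← f5]
    simp only [add_mul, sub_mul, mul_sub, smul_mul_assoc, mul_assoc]
    abel
  calc _ = H * G * (s • Di Aj' - s • Dj Ai' + (Ai' * Aj' - Aj' * Ai')) := by rw [HG, one_mul]
    _ = 0 := by rw [mul_assoc, key, mul_zero]

lemma n5_PT (s : k) (Di D0 : Der R) (hi : ∀ x, Di (s • x) = s • Di x)
    (h0 : ∀ x, D0 (s • x) = x + s • D0 x) (hc : ∀ x, Di (D0 x) = D0 (Di x))
    {G H A A' B B' : R} (HG : H * G = 1) (hP : s • Di G + A * G = G * A')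
    (hT : s ^ 2 • D0 G + B * G = G * B')
    (h : s • Di B - s ^ 2 • D0 A + (A * B - B * A) = -(s • A)) :
    s • Di B' - s ^ 2 • D0 A' + (A' * B' - B' * A') = -(s • A') := by
  have hi2 : ∀ x, Di (s ^ 2 • x) = s ^ 2 • Di x := fun x => by rw [sq, mul_smul, hi, hi, mul_smul]
  have e1 : s ^ 3 • Di (D0 G) + s • (Di B * G + B * Di G) = s • (Di G * B' + G * Di B') := by
    have := congrArg (fun x => s • Di x) hT
    simp only [map_add, hi2, Der.leib, smul_add] at this
    rw [smul_smul, ← pow_succ'] at this
    rw [smul_add, smul_add]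
    exact this
  have e2 : s ^ 2 • Di G + s ^ 3 • D0 (Di G) + s ^ 2 • (D0 A * G + A * D0 G) =
      s ^ 2 • (D0 G * A' + G * D0 A') := by
    have := congrArg (fun x => s ^ 2 • D0 x) hP
    simp only [map_add, h0, Der.leib, smul_add] at this
    rw [smul_smul, ← pow_succ] at this
    rw [smul_add, smul_add]
    exact this
  rw [hc] at e1
  have key : G * (s • Di B' - s ^ 2 • D0 A' + (A' * B' - B' * A')) = G * (-(s • A')) := by
    have f1 : s • (Di G * B') = (G * A' - A * G) * B' := by
      rw [← hP]; simp only [add_sub_cancel_right, smul_mul_assoc]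
    have f2 : s ^ 2 • (D0 G * A') = (G * B' - B * G) * A' := by
      rw [← hT]; simp only [add_sub_cancel_right, smul_mul_assoc]
    have f3 : s • (B * Di G) = B * (G * A' - A * G) := by
      rw [← hP]; simp only [add_sub_cancel_right, mul_smul_comm]
    have f4 : s ^ 2 • (A * D0 G) = A * (G * B' - B * G) := by
      rw [← hT]; simp only [add_sub_cancel_right, mul_smul_comm]
    have f5 : s ^ 2 • Di G = s • (G * A' - A * G) := by
      rw [← hP, add_sub_cancel_right, smul_smul, sq]
    have f6 : (s • Di B - s ^ 2 • D0 A + (A * B - B * A)) * G = -(s • A) * G := by rw [h]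
    rw [smul_add, smul_add, f1, f3] at e1
    rw [smul_add, smul_add, f2, f4, f5] at e2
    have e4 : s • (G * Di B') = s ^ 3 • D0 (Di G) + (s • (Di B * G) + B * (G * A' - A * G))
        - (G * A' - A * G) * B' := by rw [e1]; abel
    have e5 : s ^ 2 • (G * D0 A') = s • (G * A' - A * G) + s ^ 3 • D0 (Di G) +
        (s ^ 2 • (D0 A * G) + A * (G * B' - B * G)) - (G * B' - B * G) * A' := by rw [e2]; abel
    have f7 : s • (Di B * G) = s ^ 2 • (D0 A * G) - (A * B - B * A) * G - s • (A * G) := by
      simp only [add_mul, sub_mul, smul_mul_assoc, neg_mul] at f6 ⊢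
      rw [← sub_eq_zero] at f6 ⊢
      rw [← f6]
      abel
    rw [mul_add, mul_sub, mul_smul_comm, mul_smul_comm, e4, e5, f7]
    simp only [sub_mul, mul_sub, mul_assoc, smul_sub, mul_neg, mul_smul_comm]
    abel
  calc _ = H * G * (s • Di B' - s ^ 2 • D0 A' + (A' * B' - B' * A')) := by rw [HG, one_mul]
    _ = H * G * (-(s • A')) := by rw [mul_assoc, key, mul_assoc]
    _ = -(s • A') := by rw [HG, one_mul]

lemma n5_smul (θ : Der (Ser d)) (f : Ser d) (M : Mx d r) :
    θ.mat (f • M) = θ f • M + f • θ.mat M := by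
  ext i j
  rw [Der.mat_apply, Matrix.smul_apply, smul_eq_mul, θ.leib]
  rfl

lemma n5_s_x (i : Fin d) : serD (some i) (sS : Ser d) = 0 := by
  rw [serD_apply, sS, MvPowerSeries.pderiv_X]
  simp

lemma n5_s_s : serD none (sS : Ser d) = 1 := by
  rw [serD_apply, sS, MvPowerSeries.pderiv_X]
  simp

lemma n5_comm (i j : Option (Fin d)) (f : Ser d) : serD i (serD j f) = serD j (serD i f) := by
  rcases eq_or_ne i j with hij | hij
  · rw [hij]
  ext m
  simp only [serD_apply, MvPowerSeries.coeff_pderiv, Finsupp.add_apply]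
  rw [Finsupp.single_eq_of_ne hij.symm, Finsupp.single_eq_of_ne hij, add_zero, add_zero,
    add_right_comm m]
  ring

end n5

/-- MODULE n5. The relations are invariant. (`∇_i U = s ∂_i U + A_i U`, `∇_i (G U) = G ∇'_i U`,
so that `(∇_i ∇_j - ∇_j ∇_i) G = G (∇'_i ∇'_j - ∇'_j ∇'_i) 1`.) -/
theorem Rel.gauge {A A' : Fin d → Mx d r} {B B' G H : Mx d r} (h : Rel A B)
    (hg : Gau A A' B B' G H) : Rel A' B' := by
  have hs : ∀ (i : Fin d) (M : Mx d r), (serD (some i)).mat ((sS : Ser d) • M) =
      (sS : Ser d) • (serD (some i)).mat M := fun i M => by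
    rw [n5_smul, n5_s_x, zero_smul, zero_add]
  have hs0 : ∀ M : Mx d r, (serD none).mat ((sS : Ser d) • M) =
      M + (sS : Ser d) • (serD none).mat M := fun M => by
    rw [n5_smul, n5_s_s, one_smul]
  have hc : ∀ (i j : Option (Fin d)) (M : Mx d r), (serD i).mat ((serD j).mat M) =
      (serD j).mat ((serD i).mat M) := fun i j M => by
    ext a b
    exact congrArg _ (n5_comm i j (M a b))
  exact ⟨fun i j => n5_PP (sS : Ser d) (serD (some i)).mat (serD (some j)).mat (hs i) (hs j)
    (hc _ _) hg.HG (hg.P i) (hg.P j) (h.PP i j),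
    fun i => n5_PT (sS : Ser d) (serD (some i)).mat (serD none).mat (hs i) hs0
    (hc _ _) hg.HG (hg.P i) hg.T (h.PT i)⟩

/-- MODULE n5. Composition of gauge transformations. -/
theorem Gau.trans {A A' A'' : Fin d → Mx d r} {B B' B'' G H G' H' : Mx d r}
    (h : Gau A A' B B' G H) (h' : Gau A' A'' B' B'' G' H') :
    Gau A A'' B B'' (G * G') (H' * H) := by
  refine ⟨?_, ?_, fun i => ?_, ?_⟩
  · rw [mul_assoc, ← mul_assoc G', h'.GH, one_mul, h.GH]
  · rw [mul_assoc, ← mul_assoc H, h.HG, one_mul, h'.HG]
  · have h1 : (G * G').map (serD (some i)) =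
        G.map (serD (some i)) * G' + G * G'.map (serD (some i)) := (serD (some i)).mat.leib G G'
    rw [h1, smul_add, ← smul_mul_assoc, ← mul_smul_comm, ← mul_assoc (A i)]
    have h2 : (sS : Ser d) • G.map (serD (some i)) * G' + G * ((sS : Ser d) • G'.map (serD (some i)))
        + A i * G * G' = ((sS : Ser d) • G.map (serD (some i)) + A i * G) * G' +
          G * ((sS : Ser d) • G'.map (serD (some i))) := by rw [add_mul]; abel
    rw [h2, h.P i, mul_assoc, ← mul_add, add_comm, h'.P i, mul_assoc]
  · have h1 : (G * G').map (serD none) =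
        G.map (serD none) * G' + G * G'.map (serD none) := (serD none).mat.leib G G'
    rw [h1, smul_add, ← smul_mul_assoc, ← mul_smul_comm, ← mul_assoc B]
    have h2 : (sS : Ser d) ^ 2 • G.map (serD none) * G' + G * ((sS : Ser d) ^ 2 • G'.map (serD none))
        + B * G * G' = ((sS : Ser d) ^ 2 • G.map (serD none) + B * G) * G' +
          G * ((sS : Ser d) ^ 2 • G'.map (serD none)) := by rw [add_mul]; abel
    rw [h2, h.T, mul_assoc, ← mul_add, add_comm, h'.T, mul_assoc]

/-- MODULE n5. -/
theorem exists_gau (A : Fin d → Mx d r) (B : Mx d r) {G H : Mx d r} (h : G * H = 1) :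
    ∃ (A' : Fin d → Mx d r) (B' : Mx d r), Gau A A' B B' G H := by
  refine ⟨fun i => H * ((sS : Ser d) • G.map (serD (some i)) + A i * G),
    H * ((sS : Ser d) ^ 2 • G.map (serD none) + B * G), h, mul_eq_one_comm.1 h, fun i => ?_, ?_⟩
  · rw [← mul_assoc, h, one_mul]
  · rw [← mul_assoc, h, one_mul]

/-- MODULE n5. A matrix with `G(0) = 1` is invertible. -/
theorem exists_inv {G : Mx d r} (h : cm 0 G = 1) : ∃ H : Mx d r, G * H = 1 := by
  have h1 : IsUnit G.det := by
    rw [MvPowerSeries.isUnit_iff_constantCoeff]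
    have h2 : (MvPowerSeries.constantCoeff : Ser d →+* ℂ).mapMatrix G = 1 := h
    rw [RingHom.map_det, h2, Matrix.det_one]
    exact isUnit_one
  exact ⟨G⁻¹, Matrix.mul_nonsing_inv G h1⟩

lemma wx_add_single (m : Option (Fin d) →₀ ℕ) (k : ℕ) :
    Finsupp.weight (wx d) (m + Finsupp.single none k) = Finsupp.weight (wx d) m := by
  rw [map_add, Finsupp.weight_single]
  simp [wx]

lemma cm_sS_smul (M : Mx d r) (m : Option (Fin d) →₀ ℕ) :
    cm m ((sS : Ser d) • M) = if m none = 0 then 0 else cm (m - Finsupp.single none 1) M := by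
  classical
  ext i j
  rw [Pool.Fml.cm_apply, Matrix.smul_apply, smul_eq_mul, sS, MvPowerSeries.X,
    MvPowerSeries.coeff_monomial_mul]
  by_cases h : m none = 0
  · rw [if_pos h, if_neg]
    · rfl
    · intro h1
      have := h1 none
      rw [Finsupp.single_eq_same] at this
      omega
  · rw [if_neg h, if_pos, one_mul]
    · rfl
    · intro j
      rcases eq_or_ne j none with hj | hj
      · subst hj; rw [Finsupp.single_eq_same]; omega
      · rw [Finsupp.single_eq_of_ne hj]; exact Nat.zero_le _

/-- MODULE n6. Birkhoff recursion on the degree in `x`: for `Y = ∑ x_i A_i` there is `G` with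
`G(0, s) = 1` and `s E G + Y G = G A`, `A` free of `s`, `E = ∑ x_i ∂_i`. -/
theorem birkhoff (Y : Mx d r) (hY : ∀ m, Finsupp.weight (wx d) m = 0 → cm m Y = 0) :
    ∃ G A : Mx d r, (∀ m, Finsupp.weight (wx d) m = 0 → cm m G = if m = 0 then 1 else 0) ∧
      (∀ m, Finsupp.weight (wx d) m = 0 → cm m A = 0) ∧ (∀ m, m none ≠ 0 → cm m A = 0) ∧
      (sS : Ser d) • eulM (wx d) G + Y * G = G * A := by
  classical
  set wt : (Option (Fin d) →₀ ℕ) → ℕ := fun m => Finsupp.weight (wx d) m with hwt
  have wt_add : ∀ p q, wt (p + q) = wt p + wt q := fun p q => map_add _ p q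
  set e : Option (Fin d) →₀ ℕ := Finsupp.single none 1 with he
  have wt_e : ∀ m, wt (m + e) = wt m := fun m => wx_add_single m 1
  set Mt := Matrix (Fin r) (Fin r) ℂ with hMt
  set s1 : ∀ (μ m : Option (Fin d) →₀ ℕ), (∀ m', wt m' < wt m → Mt × Mt) → Mt :=
    fun μ m rec => ∑ p ∈ antidiagonal μ, if h : wt p.2 < wt m then
      cm p.1 Y * (rec p.2 h).1 else 0 with hs1
  set s2 : ∀ (μ m : Option (Fin d) →₀ ℕ), (∀ m', wt m' < wt m → Mt × Mt) → Mt :=
    fun μ m rec => ∑ p ∈ antidiagonal μ, if h : wt p.1 < wt m ∧ wt p.2 < wt m then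
      (rec p.1 h.1).1 * (rec p.2 h.2).2 else 0 with hs2
  set step : ∀ m, (∀ m', wt m' < wt m → Mt × Mt) → Mt × Mt := fun m rec =>
    if wt m = 0 then (if m = 0 then 1 else 0, 0) else
      (((wt m : ℕ) : ℂ)⁻¹ • (s2 (m + e) m rec - s1 (m + e) m rec),
        if m none = 0 then s1 m m rec - s2 m m rec else 0) with hstep
  have wf : WellFounded (fun a b : Option (Fin d) →₀ ℕ => wt a < wt b) :=
    InvImage.wf wt wellFounded_lt
  set x : (Option (Fin d) →₀ ℕ) → Mt × Mt := wf.fix step with hx
  have hxe : ∀ m, x m = step m (fun m' _ => x m') := fun m => wf.fix_eq step m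
  set G : Mx d r := fun i j => fun m => (x m).1 i j with hG
  set A : Mx d r := fun i j => fun m => (x m).2 i j with hA
  have hcG : ∀ m, cm m G = (x m).1 := fun m => rfl
  have hcA : ∀ m, cm m A = (x m).2 := fun m => rfl
  have hG0 : ∀ m, wt m = 0 → cm m G = if m = 0 then 1 else 0 := fun m hm => by
    rw [hcG, hxe, hstep]; simp only [if_pos hm]
  have hA0 : ∀ m, wt m = 0 → cm m A = 0 := fun m hm => by
    rw [hcA, hxe, hstep]; simp only [if_pos hm]
  have hAs : ∀ m, m none ≠ 0 → cm m A = 0 := fun m hm => by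
    rw [hcA, hxe, hstep]
    by_cases h : wt m = 0
    · simp only [if_pos h]
    · simp only [if_neg h, if_neg hm]
  -- the two convolutions
  have c1 : ∀ μ m, wt μ = wt m → cm μ (Y * G) = s1 μ m (fun m' _ => x m') := by
    intro μ m hμ
    rw [Pool.Fml.cm_mul, hs1]
    refine Finset.sum_congr rfl fun p hp => ?_
    rw [Finset.HasAntidiagonal.mem_antidiagonal] at hp
    have h1 : wt p.1 + wt p.2 = wt m := by rw [← wt_add, hp, hμ]
    by_cases h : wt p.2 < wt m
    · rw [dif_pos h, hcG]
    · rw [dif_neg h, hY p.1 (by have h3 : Finsupp.weight (wx d) p.1 = wt p.1 := rfl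
                                omega), zero_mul]
  have c2 : ∀ μ m, wt μ = wt m → 0 < wt m →
      cm μ (G * A) = cm μ A + s2 μ m (fun m' _ => x m') := by
    intro μ m hμ hm
    have hmem : ((0 : Option (Fin d) →₀ ℕ), μ) ∈ antidiagonal μ := by
      rw [Finset.HasAntidiagonal.mem_antidiagonal, zero_add]
    rw [Pool.Fml.cm_mul, hs2]
    simp only
    rw [← Finset.add_sum_erase _ _ hmem, ← Finset.add_sum_erase (antidiagonal μ)
      (fun p => if h : wt p.1 < wt m ∧ wt p.2 < wt m then (x p.1).1 * (x p.2).2 else 0) hmem]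
    have h0 : wt (0 : Option (Fin d) →₀ ℕ) = 0 := map_zero _
    rw [dif_neg (by simp only [hμ]; omega), zero_add]
    have e1 : cm (0 : Option (Fin d) →₀ ℕ) G = 1 := by rw [hG0 0 h0, if_pos rfl]
    simp only [e1, one_mul]
    congr 1
    refine Finset.sum_congr rfl fun p hp => ?_
    rw [Finset.mem_erase, Finset.HasAntidiagonal.mem_antidiagonal] at hp
    have h1 : wt p.1 + wt p.2 = wt m := by rw [← wt_add, hp.2, hμ]
    by_cases h : wt p.1 < wt m ∧ wt p.2 < wt m
    · rw [dif_pos h, hcG, hcA]
    · rw [dif_neg h]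
      by_cases h2 : wt p.2 = 0
      · rw [hA0 _ h2, mul_zero]
      · have h3 : wt p.1 = 0 := by
          by_contra h3
          exact h ⟨by omega, by omega⟩
        rw [hG0 _ h3, if_neg, zero_mul]
        intro h4
        refine hp.1 (Prod.ext h4 ?_)
        rw [← hp.2, h4, zero_add]
  refine ⟨G, A, hG0, hA0, hAs, Pool.Fml.cm_ext fun m => ?_⟩
  rw [map_add, cm_sS_smul]
  have hlow : ∀ m, wt m = 0 → cm m (Y * G) = 0 ∧ cm m (G * A) = 0 := fun m hm =>
    ⟨(Pool.Fml.cm_mul_low (w := wx d) (K := 0) (fun m hm => hY m (Nat.le_zero.1 hm)) G m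
      (Nat.le_zero.2 hm)).1, (Pool.Fml.cm_mul_low (w := wx d) (K := 0)
        (fun m hm => hA0 m (Nat.le_zero.1 hm)) G m (Nat.le_zero.2 hm)).2⟩
  by_cases hm : m none = 0
  · rw [if_pos hm, zero_add]
    by_cases h0 : wt m = 0
    · rw [(hlow m h0).1, (hlow m h0).2]
    · rw [c1 m m rfl, c2 m m rfl (Nat.pos_of_ne_zero h0), hcA, hxe, hstep]
      simp only [if_neg h0, if_pos hm]
      abel
  · rw [if_neg hm]
    obtain ⟨m', rfl⟩ : ∃ m', m = m' + e := by
      refine ⟨m - e, ?_⟩
      rw [tsub_add_cancel_of_le]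
      intro j
      rcases eq_or_ne j none with hj | hj
      · subst hj; rw [he, Finsupp.single_eq_same]; omega
      · rw [he, Finsupp.single_eq_of_ne hj]; exact Nat.zero_le _
    rw [add_tsub_cancel_right, Pool.Fml.cm_eulM]
    by_cases h0 : wt m' = 0
    · have h1 : wt (m' + e) = 0 := by rw [wt_e, h0]
      have h2 : Finsupp.weight (wx d) m' = 0 := h0
      rw [(hlow _ h1).1, (hlow _ h1).2, h2]
      simp
    · rw [c1 (m' + e) m' (wt_e m'), c2 (m' + e) m' (wt_e m') (Nat.pos_of_ne_zero h0),
        hAs _ hm, zero_add, hcG, hxe m', hstep]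
      simp only [if_neg h0]
      have h2 : ((Finsupp.weight (wx d) m' : ℕ) : ℂ) ≠ 0 := by exact_mod_cast h0
      rw [smul_smul, mul_inv_cancel₀ h2, one_smul]
      abel

section n7

lemma n7_cm_s (M : Mx d r) (m : Option (Fin d) →₀ ℕ) :
    cm (Finsupp.single none 1 + m) ((sS : Ser d) • M) = cm m M := by
  ext a b
  show MvPowerSeries.coeff (Finsupp.single none 1 + m) (sS * M a b) = MvPowerSeries.coeff m (M a b)
  rw [sS, MvPowerSeries.X, MvPowerSeries.coeff_add_monomial_mul, one_mul]

lemma n7_cm_s0 (M : Mx d r) : cm 0 ((sS : Ser d) • M) = 0 := by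
  ext a b
  show MvPowerSeries.coeff 0 (sS * M a b) = 0
  rw [sS, MvPowerSeries.coeff_zero_X_mul]

lemma n7_mul (M N : Mx d r) (n : ℕ) :
    cm (Finsupp.single none n) (M * N) =
      ∑ p ∈ antidiagonal n, cm (Finsupp.single none p.1) M * cm (Finsupp.single none p.2) N := by
  rw [Pool.Fml.cm_mul, Finsupp.antidiagonal_single, Finset.sum_map]
  rfl

lemma n7_der (M : Mx d r) (n : ℕ) :
    cm (Finsupp.single none (n + 1)) ((sS : Ser d) ^ 2 • M.map (serD none)) =
      (n : ℂ) • cm (Finsupp.single none n) M := by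
  have h : (Finsupp.single none (n + 1) : Option (Fin d) →₀ ℕ) =
      Finsupp.single none 1 + Finsupp.single none n := by
    rw [← Finsupp.single_add, add_comm]
  rw [h, sq, mul_smul, n7_cm_s]
  ext a b
  show MvPowerSeries.coeff (Finsupp.single none n) (sS * MvPowerSeries.pderiv ℂ none (M a b)) =
    (n : ℂ) * MvPowerSeries.coeff (Finsupp.single none n) (M a b)
  rw [sS, Pool.Fml.coeff_X_mul_pderiv, Finsupp.single_eq_same]

lemma n7_weight (m : Option (Fin d) →₀ ℕ) (h : Finsupp.weight (wx d) m = 0) :
    m = Finsupp.single none (m none) := by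
  rw [Finsupp.weight_eq_sum] at h
  ext i
  rcases i with _ | i
  · rw [Finsupp.single_eq_same]
  · rw [Finsupp.single_eq_of_ne (by simp)]
    have h1 := (Finset.sum_eq_zero_iff.1 h) (some i) (Finset.mem_univ _)
    have h2 : m (some i) * 1 = 0 := by simpa [wx] using h1
    omega

end n7

/-- MODULE n7. Step 1: after a gauge transformation depending only on `s`, `B(0, s)` is a
polynomial of degree `≤ k`. -/
theorem exists_gau_zero (A : Fin d → Mx d r) (B : Mx d r) :
    ∃ (k : ℕ) (A' : Fin d → Mx d r) (B' G H : Mx d r), Gau A A' B B' G H ∧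
      ∀ m, Finsupp.weight (wx d) m = 0 → k < m none → cm m B' = 0 := by
  obtain ⟨k, g, Y', hg0, hk, hY0, hrec⟩ := findet fun n => cm (Finsupp.single none n) B
  let G : Mx d r := fun a b => fun m => if m = Finsupp.single none (m none) then g (m none) a b else 0
  have hG : ∀ n, cm (Finsupp.single none n) G = g n := by
    intro n
    ext a b
    show (if (Finsupp.single none n : Option (Fin d) →₀ ℕ) =
      Finsupp.single none ((Finsupp.single none n : Option (Fin d) →₀ ℕ) none)
      then g ((Finsupp.single none n : Option (Fin d) →₀ ℕ) none) a b else 0) = g n a b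
    rw [Finsupp.single_eq_same, if_pos rfl]
  have hG0 : cm 0 G = 1 := by
    have h := hG 0
    rwa [Finsupp.single_zero, hg0] at h
  obtain ⟨H, hH⟩ := exists_inv hG0
  obtain ⟨A', B', hgau⟩ := exists_gau A B hH
  refine ⟨k, A', B', G, H, hgau, ?_⟩
  have hZ : ∀ n, cm (Finsupp.single none n) B' = Y' n := by
    intro n
    induction n using Nat.strong_induction_on with
    | _ n ih =>
      have h1 := congrArg (cm (Finsupp.single none n)) hgau.T
      rw [map_add, n7_mul, n7_mul] at h1
      rcases n with _ | n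
      · rw [Finsupp.single_zero, sq, mul_smul, n7_cm_s0, zero_add] at h1
        simp only [Finset.Nat.antidiagonal_zero, Finset.sum_singleton, hG, hg0, mul_one,
          one_mul] at h1
        rw [← h1]
        exact hY0
      · rw [n7_der] at h1
        simp only [hG] at h1
        have h2 := hrec n
        rw [h1] at h2
        rw [Finset.Nat.antidiagonal_succ, Finset.sum_cons, Finset.sum_cons, hg0, one_mul,
          one_mul] at h2
        have h3 : ∑ p ∈ Finset.map (Function.Embedding.prodMap ⟨Nat.succ, Nat.succ_injective⟩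
            (Function.Embedding.refl ℕ)) (antidiagonal n),
              g p.1 * cm (Finsupp.single none p.2) B' =
            ∑ p ∈ Finset.map (Function.Embedding.prodMap ⟨Nat.succ, Nat.succ_injective⟩
            (Function.Embedding.refl ℕ)) (antidiagonal n), g p.1 * Y' p.2 := by
          rw [Finset.sum_map, Finset.sum_map]
          refine Finset.sum_congr rfl fun p hp => ?_
          rw [Finset.HasAntidiagonal.mem_antidiagonal] at hp
          show g (p.1 + 1) * cm (Finsupp.single none p.2) B' = g (p.1 + 1) * Y' p.2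
          rw [ih p.2 (by omega)]
        rw [h3] at h2
        exact add_right_cancel h2
  intro m hm hkm
  rw [n7_weight m hm, hZ]
  exact hk _ hkm

section n8

lemma sco_coeff (j : ℕ) (f : Ser d) (m : Option (Fin d) →₀ ℕ) :
    MvPowerSeries.coeff m (sco j f) =
      if m none = 0 then MvPowerSeries.coeff (m + Finsupp.single none j) f else 0 := rfl

lemma sco_add (j : ℕ) (f g : Ser d) : sco j (f + g) = sco j f + sco j g := by
  ext m
  rw [map_add, sco_coeff, sco_coeff, sco_coeff]
  split_ifs <;> simp

lemma sco_zero (j : ℕ) : sco j (0 : Ser d) = 0 := by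
  ext m
  rw [sco_coeff]
  split_ifs <;> simp

/-- `sco` as an additive map -/
noncomputable def scoH (j : ℕ) : Ser d →+ Ser d where
  toFun := sco j
  map_zero' := sco_zero j
  map_add' := sco_add j

lemma sco_neg (j : ℕ) (f : Ser d) : sco j (-f) = -sco j f := map_neg (scoH j) f

lemma sco_sub (j : ℕ) (f g : Ser d) : sco j (f - g) = sco j f - sco j g := map_sub (scoH j) f g

lemma sco_sum {κ : Type} (j : ℕ) (s : Finset κ) (f : κ → Ser d) :
    sco j (∑ i ∈ s, f i) = ∑ i ∈ s, sco j (f i) := map_sum (scoH j) f s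

lemma sco_free_zero {f : Ser d} (hf : SFree f) : sco 0 f = f := by
  ext m
  rw [sco_coeff]
  split_ifs with h
  · rw [Finsupp.single_zero, add_zero]
  · rw [hf m h]

lemma sco_free_pos {f : Ser d} (hf : SFree f) {j : ℕ} (hj : j ≠ 0) : sco j f = 0 := by
  ext m
  rw [sco_coeff, map_zero]
  split_ifs with h
  · rw [hf]
    rw [Finsupp.add_apply, Finsupp.single_eq_same, h, zero_add]
    exact hj
  · rfl

lemma sco_mul_free {f : Ser d} (hf : SFree f) (j : ℕ) (g : Ser d) :
    sco j (f * g) = f * sco j g := by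
  classical
  ext m
  rw [sco_coeff, MvPowerSeries.coeff_mul, MvPowerSeries.coeff_mul]
  split_ifs with h
  · have h1 : ∀ p ∈ antidiagonal (m + Finsupp.single none j),
        MvPowerSeries.coeff p.1 f * MvPowerSeries.coeff p.2 g =
        if p.1 none = 0 then MvPowerSeries.coeff p.1 f * MvPowerSeries.coeff p.2 g else 0 := by
      intro p _
      split_ifs with h2
      · rfl
      · rw [hf p.1 h2, zero_mul]
    rw [Finset.sum_congr rfl h1, ← Finset.sum_filter]
    symm
    refine Finset.sum_bij (fun p _ => (p.1, p.2 + Finsupp.single none j)) ?_ ?_ ?_ ?_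
    · intro p hp
      rw [Finset.HasAntidiagonal.mem_antidiagonal] at hp
      rw [Finset.mem_filter, Finset.HasAntidiagonal.mem_antidiagonal]
      refine ⟨by rw [← hp, add_assoc], ?_⟩
      have : p.1 none + p.2 none = 0 := by rw [← h, ← hp]; rfl
      simp only
      omega
    · intro p _ q _ hpq
      rw [Prod.mk.injEq] at hpq
      exact Prod.ext hpq.1 (add_right_cancel hpq.2)
    · intro p hp
      rw [Finset.mem_filter, Finset.HasAntidiagonal.mem_antidiagonal] at hp
      obtain ⟨h2, h3⟩ := hp
      have h4 : Finsupp.single none j ≤ p.2 := by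
        intro i
        rcases eq_or_ne i none with hi | hi
        · subst hi
          have : p.1 none + p.2 none = m none + j := by
            rw [← Finsupp.add_apply, h2, Finsupp.add_apply, Finsupp.single_eq_same]
          rw [Finsupp.single_eq_same]; omega
        · rw [Finsupp.single_eq_of_ne hi]; exact Nat.zero_le _
      refine ⟨(p.1, p.2 - Finsupp.single none j), ?_, ?_⟩
      · rw [Finset.HasAntidiagonal.mem_antidiagonal]
        simp only
        rw [← add_tsub_assoc_of_le h4, h2, add_tsub_cancel_right]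
      · simp only
        rw [tsub_add_cancel_of_le h4]
    · intro p hp
      rw [Finset.HasAntidiagonal.mem_antidiagonal] at hp
      simp only
      rw [sco_coeff, if_pos]
      have : p.1 none + p.2 none = 0 := by rw [← h, ← hp]; rfl
      omega
  · symm
    refine Finset.sum_eq_zero fun p hp => ?_
    rw [Finset.HasAntidiagonal.mem_antidiagonal] at hp
    by_cases h1 : p.1 none = 0
    · rw [sco_coeff, if_neg, mul_zero]
      intro h2
      apply h
      rw [← hp, Finsupp.add_apply, h1, h2]
    · rw [hf p.1 h1, zero_mul]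

lemma coeff_sS_mul (f : Ser d) (m : Option (Fin d) →₀ ℕ) :
    MvPowerSeries.coeff m (sS * f) =
      if m none = 0 then 0 else MvPowerSeries.coeff (m - Finsupp.single none 1) f := by
  classical
  rw [sS, MvPowerSeries.X, MvPowerSeries.coeff_monomial_mul]
  by_cases h : m none = 0
  · rw [if_pos h, if_neg]
    intro h1
    have := h1 none
    rw [Finsupp.single_eq_same] at this
    omega
  · rw [if_neg h, if_pos, one_mul]
    intro j
    rcases eq_or_ne j none with hj | hj
    · subst hj; rw [Finsupp.single_eq_same]; omega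
    · rw [Finsupp.single_eq_of_ne hj]; exact Nat.zero_le _

lemma sco_sS_zero (f : Ser d) : sco 0 (sS * f) = 0 := by
  ext m
  rw [sco_coeff, map_zero]
  split_ifs with h
  · rw [Finsupp.single_zero, add_zero, coeff_sS_mul, if_pos h]
  · rfl

lemma sco_sS_succ (j : ℕ) (f : Ser d) : sco (j + 1) (sS * f) = sco j f := by
  ext m
  rw [sco_coeff, sco_coeff]
  split_ifs with h
  · rw [coeff_sS_mul, if_neg]
    · congr 2
      rw [Finsupp.single_add, ← add_assoc, add_tsub_cancel_right]
    · rw [Finsupp.add_apply, Finsupp.single_eq_same]; omega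
  · rfl

lemma sco_serD (j : ℕ) (i : Fin d) (f : Ser d) :
    sco j (serD (some i) f) = serD (some i) (sco j f) := by
  ext m
  rw [serD_apply, serD_apply, sco_coeff, MvPowerSeries.coeff_pderiv, MvPowerSeries.coeff_pderiv,
    sco_coeff]
  have h1 : (m + Finsupp.single (some i) 1 : Option (Fin d) →₀ ℕ) none = m none := by
    rw [Finsupp.add_apply, Finsupp.single_eq_of_ne (by simp), add_zero]
  have h2 : (m + Finsupp.single none j : Option (Fin d) →₀ ℕ) (some i) = m (some i) := by
    rw [Finsupp.add_apply, Finsupp.single_eq_of_ne (by simp), add_zero]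
  rw [h1, h2]
  split_ifs with h
  · rw [add_right_comm]
  · rw [zero_mul]

lemma serD_none_free {f : Ser d} (hf : SFree f) : serD none f = 0 := by
  ext m
  rw [serD_apply, MvPowerSeries.coeff_pderiv, hf, zero_mul, map_zero]
  rw [Finsupp.add_apply, Finsupp.single_eq_same]; omega

lemma cm_map_serD (i : Option (Fin d)) (M : Mx d r) (m : Option (Fin d) →₀ ℕ) :
    cm m (M.map (serD i)) = ((m i : ℂ) + 1) • cm (m + Finsupp.single i 1) M := by
  ext a b
  rw [Pool.Fml.cm_apply, Matrix.map_apply, serD_apply, MvPowerSeries.coeff_pderiv, Matrix.smul_apply,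
    Pool.Fml.cm_apply, smul_eq_mul, mul_comm]

lemma cm_conv_zero {U V : Mx d r} {μ : Option (Fin d) →₀ ℕ}
    (h : ∀ p q, p + q = μ → cm p U = 0 ∨ cm q V = 0) : cm μ (U * V) = 0 := by
  rw [Pool.Fml.cm_mul]
  refine Finset.sum_eq_zero fun p hp => ?_
  rw [Finset.HasAntidiagonal.mem_antidiagonal] at hp
  rcases h p.1 p.2 hp with h1 | h1
  · rw [h1, zero_mul]
  · rw [h1, mul_zero]

lemma sc_add (j : ℕ) (U V : Mx d r) : sc j (U + V) = sc j U + sc j V := by
  ext1 a b; exact sco_add j _ _

lemma sc_sub (j : ℕ) (U V : Mx d r) : sc j (U - V) = sc j U - sc j V := by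
  ext1 a b; exact sco_sub j _ _

lemma sc_neg (j : ℕ) (U : Mx d r) : sc j (-U) = -sc j U := by
  ext1 a b; exact sco_neg j _

lemma sc_zero (j : ℕ) : sc j (0 : Mx d r) = 0 := by
  ext1 a b; exact sco_zero j

lemma sc_free_mul (j : ℕ) {U : Mx d r} (hU : ∀ a b, SFree (U a b)) (V : Mx d r) :
    sc j (U * V) = U * sc j V := by
  ext1 a b
  change sco j ((U * V) a b) = _
  rw [Matrix.mul_apply, Matrix.mul_apply, sco_sum]
  exact Finset.sum_congr rfl fun c _ => sco_mul_free (hU a c) j _

lemma sc_mul_free (j : ℕ) {U : Mx d r} (hU : ∀ a b, SFree (U a b)) (V : Mx d r) :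
    sc j (V * U) = sc j V * U := by
  ext1 a b
  change sco j ((V * U) a b) = _
  rw [Matrix.mul_apply, Matrix.mul_apply, sco_sum]
  refine Finset.sum_congr rfl fun c _ => ?_
  rw [mul_comm, sco_mul_free (hU c b), mul_comm]
  rfl

lemma sc_free_zero {U : Mx d r} (hU : ∀ a b, SFree (U a b)) : sc 0 U = U := by
  ext1 a b; exact sco_free_zero (hU a b)

lemma sc_free_pos {U : Mx d r} (hU : ∀ a b, SFree (U a b)) {j : ℕ} (hj : j ≠ 0) : sc j U = 0 := by
  ext1 a b; exact sco_free_pos (hU a b) hj

lemma sc_s_zero (U : Mx d r) : sc 0 ((sS : Ser d) • U) = 0 := by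
  ext1 a b; exact sco_sS_zero _

lemma sc_s_succ (j : ℕ) (U : Mx d r) : sc (j + 1) ((sS : Ser d) • U) = sc j U := by
  ext1 a b; exact sco_sS_succ j _

lemma sc_map_serD (j : ℕ) (i : Fin d) (U : Mx d r) :
    sc j (U.map (serD (some i))) = (sc j U).map (serD (some i)) := by
  ext1 a b; exact sco_serD j i _

lemma sfree_iff {U : Mx d r} :
    (∀ a b, SFree (U a b)) ↔ ∀ m, m none ≠ 0 → cm m U = 0 := by
  constructor
  · intro h m hm
    ext a b
    exact h a b m hm
  · intro h a b m hm
    exact congrFun (congrFun (h m hm) a) b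

/-- MODULE n8. Step 2: if `∑ x_i A_i` is free of `s` and `B(0, s)` has degree `≤ k` then the `A_i`
are free of `s` and `B` has degree `≤ k` in `s`; the relations. -/
theorem nf_of_rel {k : ℕ} {A : Fin d → Mx d r} {B : Mx d r} (h : Rel A B)
    (hA : ∀ m, m none ≠ 0 → cm m (∑ i, (MvPowerSeries.X (some i) : Ser d) • A i) = 0)
    (hB : ∀ m, Finsupp.weight (wx d) m = 0 → k < m none → cm m B = 0) :
    (∀ i a b, SFree (A i a b)) ∧ (∀ a b m, k < m none → MvPowerSeries.coeff m (B a b) = 0) ∧
      (∀ i, A i * sc 0 B = sc 0 B * A i) ∧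
      (∀ i, (sc 0 B).map (serD (some i)) = -A i - (A i * sc 1 B - sc 1 B * A i)) ∧
      ∀ i j, 1 ≤ j →
        (sc j B).map (serD (some i)) = -(A i * sc (j + 1) B - sc (j + 1) B * A i) := by
  classical
  set wt : (Option (Fin d) →₀ ℕ) → ℕ := fun m => Finsupp.weight (wx d) m with hwt
  have wt_add : ∀ p q, wt (p + q) = wt p + wt q := fun p q => map_add _ p q
  set e : Option (Fin d) →₀ ℕ := Finsupp.single none 1 with he
  have wt_e : ∀ m, wt (m + e) = wt m := fun m => wx_add_single m 1
  have cm_s : ∀ (m : Option (Fin d) →₀ ℕ) (U : Mx d r), cm (m + e) ((sS : Ser d) • U) = cm m U := by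
    intro m U
    rw [cm_sS_smul, if_neg, add_tsub_cancel_right]
    rw [Finsupp.add_apply, he, Finsupp.single_eq_same]; omega
  set AE : Mx d r := ∑ i, (MvPowerSeries.X (some i) : Ser d) • A i with hAE
  -- `AE` has positive degree in `x`
  have hAE0 : ∀ m, wt m = 0 → cm m AE = 0 := by
    intro m hm
    rw [hAE, map_sum]
    refine Finset.sum_eq_zero fun i _ => ?_
    ext a b
    rw [Pool.Fml.cm_apply, Matrix.smul_apply, smul_eq_mul, MvPowerSeries.X,
      MvPowerSeries.coeff_monomial_mul, if_neg]
    · rfl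
    · intro h1
      have h2 := h1 (some i)
      rw [Finsupp.single_eq_same] at h2
      have h3 : m (some i) * wx d (some i) ≤ wt m := by
        rw [hwt]
        simp only
        rw [Finsupp.weight_eq_sum]
        exact Finset.single_le_sum (f := fun j => m j * wx d j) (fun _ _ => Nat.zero_le _)
          (Finset.mem_univ (some i))
      simp only [wx, Option.elim] at h3
      omega
  have eul_eq : ∀ U : Mx d r, ∑ j, (MvPowerSeries.X (some j) : Ser d) • U.map (serD (some j))
      = eulM (wx d) U := by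
    intro U
    ext1 a b
    rw [Matrix.sum_apply, Pool.Fml.eulM_apply, Pool.Fml.eul_apply, Fintype.sum_option]
    simp only [wx, Option.elim, zero_smul, zero_add, one_smul]
    rfl
  -- the first identity
  have id1 : ∀ i, (sS : Ser d) • AE.map (serD (some i)) - (sS : Ser d) • A i
      - (sS : Ser d) • eulM (wx d) (A i) + (A i * AE - AE * A i) = 0 := by
    intro i
    have h1 : ∑ j, (MvPowerSeries.X (some j) : Ser d) •
        ((sS : Ser d) • (A j).map (serD (some i)) - (sS : Ser d) • (A i).map (serD (some j))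
          + (A i * A j - A j * A i)) = 0 := by
      refine Finset.sum_eq_zero fun j _ => ?_
      rw [h.PP, smul_zero]
    simp only [smul_add, smul_sub, Finset.sum_add_distrib, Finset.sum_sub_distrib] at h1
    have h2 : ∑ j, (MvPowerSeries.X (some j) : Ser d) • (sS : Ser d) • (A j).map (serD (some i))
        = (sS : Ser d) • AE.map (serD (some i)) - (sS : Ser d) • A i := by
      have h3 : AE.map (serD (some i)) =
          (∑ j, (MvPowerSeries.X (some j) : Ser d) • (A j).map (serD (some i))) + A i := by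
        ext1 a b
        rw [Matrix.map_apply, hAE, Matrix.sum_apply, map_sum, Matrix.add_apply, Matrix.sum_apply]
        have h4 : ∀ j, (serD (some i)) (((MvPowerSeries.X (some j) : Ser d) • A j) a b) =
            ((MvPowerSeries.X (some j) : Ser d) • (A j).map (serD (some i))) a b
              + if j = i then A i a b else 0 := by
          intro j
          rw [Matrix.smul_apply, smul_eq_mul, Der.leib, Matrix.smul_apply, Matrix.map_apply,
            smul_eq_mul, add_comm]
          congr 1
          rw [serD_apply]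
          by_cases hji : j = i
          · subst hji
            rw [if_pos rfl, MvPowerSeries.pderiv_X_self, one_mul]
          · rw [if_neg hji, MvPowerSeries.pderiv_X_of_ne (by simpa using hji), zero_mul]
        simp only [h4, Finset.sum_add_distrib, Finset.sum_ite_eq', Finset.mem_univ, if_true]
      rw [h3, smul_add, Finset.smul_sum, add_sub_cancel_right]
      exact Finset.sum_congr rfl fun j _ => smul_comm _ _ _
    have h3 : ∑ j, (MvPowerSeries.X (some j) : Ser d) • (sS : Ser d) • (A i).map (serD (some j))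
        = (sS : Ser d) • eulM (wx d) (A i) := by
      rw [← eul_eq, Finset.smul_sum]
      exact Finset.sum_congr rfl fun j _ => smul_comm _ _ _
    have h4 : ∑ j, (MvPowerSeries.X (some j) : Ser d) • (A i * A j) = A i * AE := by
      rw [hAE, Finset.mul_sum]
      exact Finset.sum_congr rfl fun j _ => (Matrix.mul_smul _ _ _).symm
    have h5 : ∑ j, (MvPowerSeries.X (some j) : Ser d) • (A j * A i) = AE * A i := by
      rw [hAE, Finset.sum_mul]
      exact Finset.sum_congr rfl fun j _ => (Matrix.smul_mul _ _ _).symm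
    rw [h2, h3, h4, h5] at h1
    exact h1
  -- the `A i` are free of `s`
  have hfree : ∀ (i : Fin d) (N : ℕ) (m : Option (Fin d) →₀ ℕ), wt m = N → m none ≠ 0 →
      cm m (A i) = 0 := by
    intro i N
    induction N using Nat.strong_induction_on with
    | _ N ih =>
    intro m hN hm
    have h1 := congrArg (cm (m + e)) (id1 i)
    rw [map_add, map_sub, map_sub, map_sub, cm_s, cm_s, cm_s, map_zero, Pool.Fml.cm_eulM,
      cm_map_serD, hA (m + Finsupp.single (some i) 1), smul_zero, zero_sub,
      cm_conv_zero, cm_conv_zero, sub_zero, add_zero] at h1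
    · have h2 : (((Finsupp.weight (wx d) m : ℕ) : ℂ) + 1) • cm m (A i) = 0 := by
        rw [add_smul, one_smul, ← neg_eq_zero, ← h1]; abel
      rcases smul_eq_zero.1 h2 with h3 | h3
      · exfalso
        have : (((Finsupp.weight (wx d) m + 1 : ℕ) : ℂ)) = 0 := by push_cast; exact h3
        rw [Nat.cast_eq_zero] at this
        omega
      · exact h3
    · intro p q hpq
      have h3 : wt p + wt q = wt m := by rw [← wt_add, hpq, wt_e]
      have h4 : p none + q none = m none + 1 := by
        rw [← Finsupp.add_apply, hpq, Finsupp.add_apply, he, Finsupp.single_eq_same]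
      by_cases h5 : p none = 0
      · by_cases h6 : wt p = 0
        · left; exact hAE0 p h6
        · right; exact ih (wt q) (by omega) q rfl (by omega)
      · left; exact hA p h5
    · intro p q hpq
      have h3 : wt p + wt q = wt m := by rw [← wt_add, hpq, wt_e]
      have h4 : p none + q none = m none + 1 := by
        rw [← Finsupp.add_apply, hpq, Finsupp.add_apply, he, Finsupp.single_eq_same]
      by_cases h5 : q none = 0
      · by_cases h6 : wt q = 0
        · right; exact hAE0 q h6
        · left; exact ih (wt p) (by omega) p rfl (by omega)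
      · right; exact hA q h5
    · rw [Finsupp.add_apply, Finsupp.single_eq_of_ne (by simp), add_zero]
      exact hm
  have hAf : ∀ i a b, SFree (A i a b) := fun i => sfree_iff.2 fun m hm => hfree i _ m rfl hm
  -- the second identity
  have id2 : ∀ i, (sS : Ser d) • B.map (serD (some i)) + (A i * B - B * A i)
      = -((sS : Ser d) • A i) := by
    intro i
    have h1 := h.PT i
    have h2 : (A i).map (serD none) = 0 := by
      ext1 a b
      rw [Matrix.map_apply, serD_none_free (hAf i a b)]; rfl
    rw [h2, smul_zero, sub_zero] at h1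
    exact h1
  have id3 : (sS : Ser d) • eulM (wx d) B + (AE * B - B * AE) = -((sS : Ser d) • AE) := by
    have h1 : ∑ i, (MvPowerSeries.X (some i) : Ser d) • ((sS : Ser d) • B.map (serD (some i))
        + (A i * B - B * A i)) = ∑ i, (MvPowerSeries.X (some i) : Ser d) • -((sS : Ser d) • A i) :=
      Finset.sum_congr rfl fun i _ => by rw [id2]
    simp only [smul_add, smul_sub, Finset.sum_add_distrib, Finset.sum_sub_distrib, smul_neg,
      Finset.sum_neg_distrib] at h1
    have h3 : ∑ j, (MvPowerSeries.X (some j) : Ser d) • (sS : Ser d) • B.map (serD (some j))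
        = (sS : Ser d) • eulM (wx d) B := by
      rw [← eul_eq, Finset.smul_sum]
      exact Finset.sum_congr rfl fun j _ => smul_comm _ _ _
    have h4 : ∑ j, (MvPowerSeries.X (some j) : Ser d) • (A j * B) = AE * B := by
      rw [hAE, Finset.sum_mul]
      exact Finset.sum_congr rfl fun j _ => (Matrix.smul_mul _ _ _).symm
    have h5 : ∑ j, (MvPowerSeries.X (some j) : Ser d) • (B * A j) = B * AE := by
      rw [hAE, Finset.mul_sum]
      exact Finset.sum_congr rfl fun j _ => (Matrix.mul_smul _ _ _).symm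
    have h6 : ∑ j, (MvPowerSeries.X (some j) : Ser d) • (sS : Ser d) • A j = (sS : Ser d) • AE := by
      rw [hAE, Finset.smul_sum]
      exact Finset.sum_congr rfl fun j _ => smul_comm _ _ _
    rw [h3, h4, h5, h6] at h1
    exact h1
  have hdeg : ∀ (N : ℕ) (m : Option (Fin d) →₀ ℕ), wt m = N → k < m none → cm m B = 0 := by
    intro N
    induction N using Nat.strong_induction_on with
    | _ N ih =>
    intro m hN hm
    by_cases h0 : wt m = 0
    · exact hB m h0 hm
    have h1 := congrArg (cm (m + e)) id3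
    rw [map_add, map_sub, map_neg, cm_s, cm_s, Pool.Fml.cm_eulM, hA m (by omega), neg_zero,
      cm_conv_zero, cm_conv_zero, sub_zero, add_zero] at h1
    · rcases smul_eq_zero.1 h1 with h3 | h3
      · exfalso
        rw [Nat.cast_eq_zero] at h3
        exact h0 h3
      · exact h3
    · intro p q hpq
      have h3 : wt p + wt q = wt m := by rw [← wt_add, hpq, wt_e]
      have h4 : p none + q none = m none + 1 := by
        rw [← Finsupp.add_apply, hpq, Finsupp.add_apply, he, Finsupp.single_eq_same]
      by_cases h5 : q none = 0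
      · by_cases h6 : wt q = 0
        · right; exact hAE0 q h6
        · left; exact ih (wt p) (by omega) p rfl (by omega)
      · right; exact hA q h5
    · intro p q hpq
      have h3 : wt p + wt q = wt m := by rw [← wt_add, hpq, wt_e]
      have h4 : p none + q none = m none + 1 := by
        rw [← Finsupp.add_apply, hpq, Finsupp.add_apply, he, Finsupp.single_eq_same]
      by_cases h5 : p none = 0
      · by_cases h6 : wt p = 0
        · left; exact hAE0 p h6
        · right; exact ih (wt q) (by omega) q rfl (by omega)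
      · left; exact hA p h5
  refine ⟨hAf, fun a b m hm => congrFun (congrFun (hdeg _ m rfl hm) a) b, fun i => ?_, fun i => ?_,
    fun i j hj => ?_⟩
  · have h1 := congrArg (sc 0) (id2 i)
    rw [sc_add, sc_sub, sc_neg, sc_s_zero, sc_s_zero, neg_zero, zero_add, sc_free_mul 0 (hAf i),
      sc_mul_free 0 (hAf i)] at h1
    exact sub_eq_zero.1 h1
  · have h1 := congrArg (sc 1) (id2 i)
    rw [show (1 : ℕ) = 0 + 1 from rfl, sc_add, sc_sub, sc_neg, sc_s_succ, sc_s_succ,
      sc_free_mul _ (hAf i), sc_mul_free _ (hAf i), sc_map_serD, sc_free_zero (hAf i)] at h1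
    rw [eq_sub_iff_add_eq]
    exact h1
  · have h1 := congrArg (sc (j + 1)) (id2 i)
    rw [sc_add, sc_sub, sc_neg, sc_s_succ, sc_s_succ, sc_free_mul _ (hAf i),
      sc_mul_free _ (hAf i), sc_map_serD, sc_free_pos (hAf i) (by omega), neg_zero] at h1
    exact eq_neg_of_add_eq_zero_left h1

/-- THE FORMAL NORMAL FORM -/
theorem exists_NF {A : Fin d → Mx d r} {B : Mx d r} (h : Rel A B) :
    ∃ (k : ℕ) (A' : Fin d → Mx d r) (B' G H : Mx d r), NF k A A' B B' G H := by
  classical
  obtain ⟨k, A1, B1, G1, H1, g1, hB1⟩ := exists_gau_zero A B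
  have r1 := h.gauge g1
  have hY0 : ∀ m, Finsupp.weight (wx d) m = 0 →
      cm m (∑ i, (MvPowerSeries.X (some i) : Ser d) • A1 i) = 0 := by
    intro m hm
    rw [map_sum]
    refine Finset.sum_eq_zero fun i _ => ?_
    ext a b
    rw [Pool.Fml.cm_apply, Matrix.smul_apply, smul_eq_mul, MvPowerSeries.X,
      MvPowerSeries.coeff_monomial_mul, if_neg]
    · rfl
    · intro h1
      have h2 := h1 (some i)
      rw [Finsupp.single_eq_same] at h2
      have h3 : m (some i) * wx d (some i) ≤ Finsupp.weight (wx d) m := by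
        rw [Finsupp.weight_eq_sum]
        exact Finset.single_le_sum (f := fun j => m j * wx d j) (fun _ _ => Nat.zero_le _)
          (Finset.mem_univ (some i))
      simp only [wx, Option.elim] at h3
      rw [hm] at h3
      omega
  obtain ⟨G2, AE, hG2, hAE0, hAEs, heq⟩ := birkhoff _ hY0
  obtain ⟨H2, hGH2⟩ := exists_inv (G := G2) (by rw [hG2 0 (map_zero _), if_pos rfl])
  obtain ⟨A2, B2, g2⟩ := exists_gau A1 B1 hGH2
  have r2 := r1.gauge g2
  have eul_eq : ∀ U : Mx d r, ∑ j, (MvPowerSeries.X (some j) : Ser d) • U.map (serD (some j))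
      = eulM (wx d) U := by
    intro U
    ext1 a b
    rw [Matrix.sum_apply, Pool.Fml.eulM_apply, Pool.Fml.eul_apply, Fintype.sum_option]
    simp only [wx, Option.elim, zero_smul, zero_add, one_smul]
    rfl
  have hsum : ∑ i, (MvPowerSeries.X (some i) : Ser d) • A2 i = AE := by
    have h1 : G2 * ∑ i, (MvPowerSeries.X (some i) : Ser d) • A2 i = G2 * AE := by
      rw [← heq, Finset.mul_sum]
      have h2 : ∀ i, G2 * ((MvPowerSeries.X (some i) : Ser d) • A2 i) =
          (sS : Ser d) • ((MvPowerSeries.X (some i) : Ser d) • G2.map (serD (some i)))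
            + ((MvPowerSeries.X (some i) : Ser d) • A1 i) * G2 := by
        intro i
        rw [Matrix.mul_smul, ← g2.P i, smul_add, Matrix.smul_mul]
        congr 1
        exact smul_comm _ _ _
      simp only [h2, Finset.sum_add_distrib]
      rw [← Finset.smul_sum, eul_eq, ← Finset.sum_mul]
    have h3 : H2 * (G2 * ∑ i, (MvPowerSeries.X (some i) : Ser d) • A2 i) = H2 * (G2 * AE) := by
      rw [h1]
    rw [← Matrix.mul_assoc, ← Matrix.mul_assoc, g2.HG, Matrix.one_mul, Matrix.one_mul] at h3
    exact h3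
  have hB2 : ∀ m, Finsupp.weight (wx d) m = 0 → k < m none → cm m B2 = 0 := by
    intro m hm hk
    have hU : ∀ m, Finsupp.weight (wx d) m ≤ 0 → cm m (G2 - 1) = 0 := by
      intro m hm
      rw [map_sub, hG2 m (Nat.le_zero.1 hm), Pool.Fml.cm_one, sub_self]
    have h1 := g2.T
    have h2 : B2 = B1 + (sS : Ser d) ^ 2 • (G2 - 1).map (serD none) + B1 * (G2 - 1)
        - (G2 - 1) * B2 := by
      have h3 : (G2 - 1).map (serD none) = G2.map (serD none) := by
        have h4 := map_sub (Der.mat (n := Fin r) (serD (none : Option (Fin d)))) G2 1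
        rw [(Der.mat (n := Fin r) (serD (none : Option (Fin d)))).map_one', sub_zero] at h4
        exact h4
      rw [h3, Matrix.mul_sub, Matrix.sub_mul, ← h1]
      rw [Matrix.mul_one, Matrix.one_mul]
      abel
    have h5 : cm m ((sS : Ser d) ^ 2 • (G2 - 1).map (serD none)) = 0 := by
      rw [pow_two, mul_smul, cm_sS_smul]
      split_ifs with h6
      · rfl
      · rw [cm_sS_smul]
        split_ifs with h7
        · rfl
        · rw [cm_map_serD, hU, smul_zero]
          have h8 : ∀ p q : Option (Fin d) →₀ ℕ, p ≤ q → Finsupp.weight (wx d) p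
              ≤ Finsupp.weight (wx d) q := by
            intro p q hpq
            obtain ⟨c, rfl⟩ := exists_add_of_le hpq
            rw [map_add]; omega
          rw [wx_add_single]
          exact ((h8 _ _ tsub_le_self).trans (h8 _ _ tsub_le_self)).trans (le_of_eq hm)
    rw [h2, map_sub, map_add, map_add, hB1 m hm hk, h5,
      (Pool.Fml.cm_mul_low (w := wx d) (K := 0) hU B1 m (le_of_eq hm)).2,
      (Pool.Fml.cm_mul_low (w := wx d) (K := 0) hU B2 m (le_of_eq hm)).1, sub_zero, add_zero,
      add_zero]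
  obtain ⟨hfree, hdeg, hc, h0, hj⟩ := nf_of_rel r2 (by rw [hsum]; exact hAEs) hB2
  have g := g1.trans g2
  exact ⟨k, A2, B2, G1 * G2, H2 * H1,
    { GH := g.GH
      HG := g.HG
      P := g.P
      T := g.T
      free := hfree
      deg := hdeg
      comm0 := hc
      eq0 := h0
      eqj := hj }⟩

end n8

end Pool.Agent.Fbc
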