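import Pool.Agent.Fbc.NFb

/-!
# Symbols, regularity and the relation on the support (helper49)
-/

set_option autoImplicit false

namespace Pool.Agent.Fbc

open Polynomial

open Pool.Fml (Ser SymRing formal micro IsFormal IsMicro)

open Pool.Fml.Lattice (mul ops)

variable {d r : ℕ}

/-! ## m1: matrices of operators -/

section mat

variable {S : SymRing d} (M : Pool.Fml.Lattice S) (b : Module.Basis (Fin r) S.alg M.L)

/-- the matrix of an operator, as a matrix of power series -/
noncomputable def matO (F : AddMonoid.End M.L) : Mx d r := fun l j => (b.repr (F (b j)) l : Ser d)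

/-- linear modulo `s` -/
def Lin (F : AddMonoid.End M.L) : Prop :=
  ∀ (f : S.alg) (u : M.L), ∃ v, F (f • u) = f • F u + S.var none • v

/-- the principal symbol -/
noncomputable def sym (F : AddMonoid.End M.L) : Mx d r := sc 0 (matO M b F)

/-- `p(T)` for a polynomial with coefficients in the ring of symbols -/
noncomputable def evT (p : S.alg[X]) : AddMonoid.End M.L :=
  ∑ n ∈ Finset.range (p.natDegree + 1), M.mul (p.coeff n) * M.T ^ n

/-- the polynomial over `ℂ[[x, s]]` -/
noncomputable def toP (p : S.alg[X]) : (Ser d)[X] := p.map (S.alg.val : S.alg →ₐ[ℂ] Ser d).toRingHom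

lemma lin_of_mem {F : AddMonoid.End M.L} (hF : F ∈ M.ops) : Lin M F :=
  Pool.Fml.Lattice.ops_linear M F hF

private lemma p1_mul_mem (f : S.alg) : M.mul f ∈ M.ops :=
  Subring.subset_closure (Or.inl ⟨f, rfl⟩)

private lemma p1_T_mem : M.T ∈ M.ops :=
  Subring.subset_closure (Or.inr (Or.inl rfl))

lemma evT_mem (p : S.alg[X]) : evT M p ∈ M.ops := by
  rw [evT]
  exact Subring.sum_mem _ fun n _ =>
    Subring.mul_mem _ (p1_mul_mem M _) (Subring.pow_mem _ (p1_T_mem M) n)

private lemma p1_sco_coeff (f : Ser d) (m : Option (Fin d) →₀ ℕ) :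
    MvPowerSeries.coeff m (sco 0 f) = if m none = 0 then MvPowerSeries.coeff m f else 0 := by
  have : MvPowerSeries.coeff m (sco 0 f) =
      if m none = 0 then MvPowerSeries.coeff (m + Finsupp.single none 0) f else 0 := rfl
  rw [this, Finsupp.single_zero, add_zero]

private lemma p1_sco_zero : sco 0 (0 : Ser d) = 0 := by
  refine MvPowerSeries.ext fun m => ?_
  rw [p1_sco_coeff, map_zero, ite_self]

private lemma p1_sco_add (f g : Ser d) : sco 0 (f + g) = sco 0 f + sco 0 g := by
  refine MvPowerSeries.ext fun m => ?_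
  rw [map_add, p1_sco_coeff, p1_sco_coeff, p1_sco_coeff, map_add]
  split_ifs <;> simp

private lemma p1_sco_neg (f : Ser d) : sco 0 (-f) = -sco 0 f := by
  refine MvPowerSeries.ext fun m => ?_
  rw [map_neg, p1_sco_coeff, p1_sco_coeff, map_neg]
  split_ifs <;> simp

private lemma p1_sco_one : sco 0 (1 : Ser d) = 1 := by
  classical
  refine MvPowerSeries.ext fun m => ?_
  rw [p1_sco_coeff, MvPowerSeries.coeff_one]
  by_cases h : m = 0
  · subst h; simp
  · simp [h]

private lemma p1_sco_mul (f g : Ser d) : sco 0 (f * g) = sco 0 f * sco 0 g := by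
  classical
  refine MvPowerSeries.ext fun m => ?_
  rw [p1_sco_coeff, MvPowerSeries.coeff_mul, MvPowerSeries.coeff_mul]
  split_ifs with h
  · refine Finset.sum_congr rfl fun p hp => ?_
    rw [Finset.HasAntidiagonal.mem_antidiagonal] at hp
    have h2 : p.1 none + p.2 none = 0 := by rw [← Finsupp.add_apply, hp, h]
    rw [p1_sco_coeff, p1_sco_coeff, if_pos (by omega), if_pos (by omega)]
  · symm
    refine Finset.sum_eq_zero fun p hp => ?_
    rw [Finset.HasAntidiagonal.mem_antidiagonal] at hp
    have h2 : p.1 none + p.2 none ≠ 0 := by rw [← Finsupp.add_apply, hp]; exact h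
    rw [p1_sco_coeff, p1_sco_coeff]
    by_cases h1 : p.1 none = 0
    · rw [if_neg (by omega : ¬ p.2 none = 0), mul_zero]
    · rw [if_neg h1, zero_mul]

/-- `sco 0` as a ring homomorphism -/
private noncomputable def p1_sh : Ser d →+* Ser d where
  toFun := sco 0
  map_zero' := p1_sco_zero
  map_one' := p1_sco_one
  map_add' := p1_sco_add
  map_mul' := p1_sco_mul

private lemma p1_sc (U : Mx d r) : sc 0 U = p1_sh.mapMatrix U := rfl

private lemma p1_sco_s (f : Ser d) : sco 0 (MvPowerSeries.X none * f) = 0 := by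
  classical
  refine MvPowerSeries.ext fun m => ?_
  rw [p1_sco_coeff, map_zero]
  split_ifs with h
  · exact (MvPowerSeries.X_dvd_iff.1 (Dvd.intro _ rfl)) m h
  · rfl

/-- reduction modulo `s`, as a ring homomorphism -/
lemma sc_zero_mul (U V : Mx d r) : sc 0 (U * V) = sc 0 U * sc 0 V := by
  rw [p1_sc, p1_sc, p1_sc, map_mul]

private lemma p1_var (f : S.alg) : ((S.var none * f : S.alg) : Ser d) =
    MvPowerSeries.X none * (f : Ser d) := rfl

/-- MODULE m1 -/
lemma sym_mul {F : AddMonoid.End M.L} (hF : Lin M F) (G : AddMonoid.End M.L) :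
    sym M b (F * G) = sym M b F * sym M b G := by
  ext1 l j
  rw [Matrix.mul_apply]
  choose v hv using fun k => hF (b.repr (G (b j)) k) (b k)
  have h1 : (F * G) (b j) = ∑ k, (b.repr (G (b j)) k • F (b k) + S.var none • v k) := by
    change F (G (b j)) = _
    conv_lhs => rw [← b.sum_repr (G (b j)), map_sum]
    exact Finset.sum_congr rfl fun k _ => hv k
  have h2 : matO M b (F * G) l j = ∑ k, ((b.repr (G (b j)) k : Ser d) * (b.repr (F (b k)) l : Ser d)
      + MvPowerSeries.X none * (b.repr (v k) l : Ser d)) := by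
    rw [matO, h1]
    simp only [map_sum, map_add, map_smul, Finsupp.coe_finsetSum, Finset.sum_apply,
      Finsupp.add_apply, Finsupp.smul_apply, smul_eq_mul]
    push_cast
    rfl
  change sco 0 (matO M b (F * G) l j) = ∑ k, sco 0 (matO M b F l k) * sco 0 (matO M b G k j)
  rw [h2]
  change p1_sh (∑ k, _) = _
  rw [map_sum]
  refine Finset.sum_congr rfl fun k _ => ?_
  rw [map_add, map_mul]
  change sco 0 _ * sco 0 _ + sco 0 _ = _
  rw [p1_sco_s, add_zero, mul_comm]
  rfl

lemma sym_add (F G : AddMonoid.End M.L) : sym M b (F + G) = sym M b F + sym M b G := by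
  ext1 l j
  change sco 0 ((b.repr ((F + G) (b j)) l : S.alg) : Ser d) = sco 0 _ + sco 0 _
  rw [← p1_sco_add]
  have : (F + G) (b j) = F (b j) + G (b j) := rfl
  rw [this, map_add, Finsupp.add_apply]
  rfl

private lemma p1_sym_neg (F : AddMonoid.End M.L) : sym M b (-F) = -sym M b F := by
  ext1 l j
  change sco 0 ((b.repr ((-F) (b j)) l : S.alg) : Ser d) = -sco 0 _
  rw [← p1_sco_neg]
  have : (-F) (b j) = -(F (b j)) := rfl
  rw [this, map_neg, Finsupp.neg_apply]
  rfl

lemma sym_sub (F G : AddMonoid.End M.L) : sym M b (F - G) = sym M b F - sym M b G := by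
  rw [sub_eq_add_neg, sym_add, p1_sym_neg, sub_eq_add_neg]

lemma sym_smul (f : S.alg) : sym M b (M.mul f) = sco 0 (f : Ser d) • (1 : Mx d r) := by
  classical
  ext1 l j
  change sco 0 ((b.repr (f • b j) l : S.alg) : Ser d) = sco 0 (f : Ser d) • (1 : Mx d r) l j
  rw [map_smul, Finsupp.smul_apply, Module.Basis.repr_self, smul_eq_mul, smul_eq_mul,
    Matrix.one_apply, Finsupp.single_apply]
  rcases eq_or_ne j l with h | h
  · rw [if_pos h, if_pos h.symm, mul_one, mul_one]
  · rw [if_neg h, if_neg h.symm, mul_zero, mul_zero]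
    exact p1_sco_zero

private lemma p1_sym_one : sym M b 1 = 1 := by
  classical
  ext1 l j
  change sco 0 ((b.repr (b j) l : S.alg) : Ser d) = (1 : Mx d r) l j
  rw [Module.Basis.repr_self, Matrix.one_apply, Finsupp.single_apply]
  rcases eq_or_ne j l with h | h
  · rw [if_pos h, if_pos h.symm]
    exact p1_sco_one
  · rw [if_neg h, if_neg h.symm]
    exact p1_sco_zero

private lemma p1_sym_pow {F : AddMonoid.End M.L} (hF : Lin M F) (n : ℕ) :
    sym M b (F ^ n) = sym M b F ^ n := by
  induction n with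
  | zero => rw [pow_zero, pow_zero, p1_sym_one]
  | succ n ih => rw [pow_succ', pow_succ', sym_mul M b hF, ih]

/-- a ring of symbols which is stable under division by `s` -/
class SDiv (S : SymRing d) : Prop where
  div : ∀ g : Ser d, MvPowerSeries.X none * g ∈ S.alg → g ∈ S.alg

instance : SDiv (formal d) where
  div g hg := by
    classical
    obtain ⟨R, hR, h⟩ := hg
    refine ⟨R, hR, fun j => ?_⟩
    obtain ⟨C, hC⟩ := h (j + 1)
    refine ⟨C * R, fun m hm => ?_⟩
    have h1 := hC (Finsupp.single none 1 + m) (by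
      rw [Finsupp.add_apply, Finsupp.single_eq_same, hm, add_comm])
    have h2 : MvPowerSeries.coeff (Finsupp.single none 1 + m)
        ((MvPowerSeries.X none : Ser d) * g) = MvPowerSeries.coeff m g := by
      rw [MvPowerSeries.X, MvPowerSeries.coeff_add_monomial_mul, one_mul]
    rw [h2, map_add, Finsupp.degree_single] at h1
    rw [mul_assoc, ← pow_succ', add_comm m.degree 1]
    exact h1

/-- `F` kills `L / s L` if and only if its symbol is zero -/
lemma kills_iff [SDiv S] {F : AddMonoid.End M.L} (hF : Lin M F) : M.Kills F ↔ sym M b F = 0 := by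
  constructor
  · intro h
    ext1 l j
    obtain ⟨v, hv⟩ := h (b j)
    change sco 0 ((b.repr (F (b j)) l : S.alg) : Ser d) = 0
    rw [hv, map_smul, Finsupp.smul_apply, smul_eq_mul, p1_var, p1_sco_s]
  · intro h u
    have h1 : ∀ l j, ∃ g : S.alg, b.repr (F (b j)) l = S.var none * g := fun l j => by
      have h2 : sco 0 ((b.repr (F (b j)) l : S.alg) : Ser d) = 0 := congrFun (congrFun h l) j
      have h3 : (MvPowerSeries.X none : Ser d) ∣ ((b.repr (F (b j)) l : S.alg) : Ser d) := by
        rw [MvPowerSeries.X_dvd_iff]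
        intro m hm
        have := congrArg (MvPowerSeries.coeff m) h2
        rwa [p1_sco_coeff, if_pos hm, map_zero] at this
      obtain ⟨g, hg⟩ := h3
      refine ⟨⟨g, SDiv.div g ?_⟩, Subtype.ext hg⟩
      rw [← hg]
      exact (b.repr (F (b j)) l).2
    choose g hg using h1
    choose v hv using fun j => hF (b.repr u j) (b j)
    refine ⟨∑ j, (b.repr u j • ∑ l, g l j • b l + v j), ?_⟩
    conv_lhs => rw [← b.sum_repr u, map_sum]
    rw [Finset.smul_sum]
    refine Finset.sum_congr rfl fun j _ => ?_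
    rw [hv, smul_add, smul_comm (S.var none)]
    congr 2
    conv_lhs => rw [← b.sum_repr (F (b j))]
    rw [Finset.smul_sum]
    refine Finset.sum_congr rfl fun l _ => ?_
    rw [hg, mul_smul]

lemma sym_evT (p : S.alg[X]) (hp : ∀ n, SFree (p.coeff n : Ser d)) :
    sym M b (evT M p) = aeval (sym M b M.T) (toP p) := by
  have hsum : ∀ (s : Finset ℕ) (F : ℕ → AddMonoid.End M.L),
      sym M b (∑ n ∈ s, F n) = ∑ n ∈ s, sym M b (F n) := by
    intro s F
    classical
    induction s using Finset.induction_on with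
    | empty =>
      rw [Finset.sum_empty, Finset.sum_empty]
      ext1 l j
      change sco 0 ((b.repr (0 : M.L) l : S.alg) : Ser d) = 0
      rw [map_zero]
      exact p1_sco_zero
    | insert a s ha ih => rw [Finset.sum_insert ha, Finset.sum_insert ha, sym_add, ih]
  have hdeg : (toP p).natDegree < p.natDegree + 1 := Nat.lt_succ_of_le natDegree_map_le
  rw [evT, hsum, aeval_eq_sum_range' hdeg]
  refine Finset.sum_congr rfl fun n _ => ?_
  rw [sym_mul M b (lin_of_mem M (p1_mul_mem M _)), sym_smul,
    p1_sym_pow M b (lin_of_mem M (p1_T_mem M)), smul_mul_assoc, one_mul]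
  congr 1
  rw [toP, coeff_map]
  refine MvPowerSeries.ext fun m => ?_
  rw [p1_sco_coeff]
  split_ifs with h
  · rfl
  · exact (hp n m h).symm

/-- a nilpotent symbol vanishes on the support -/
lemma vanishes_of_nilpotent [SDiv S] {F : AddMonoid.End M.L} (hF : F ∈ M.ops)
    (h : IsNilpotent (sym M b F)) : M.Vanishes F := by
  obtain ⟨n, hn⟩ := h
  refine ⟨n, (kills_iff M b (lin_of_mem M (Subring.pow_mem _ hF n))).2 ?_⟩
  rw [p1_sym_pow M b (lin_of_mem M hF), hn]

private lemma p2_comp (F G : AddMonoid.End M.L) (q : S.alg → S.alg)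
    (hF : ∀ (f : S.alg) (u : M.L), F (f • u) = f • F u + q f • u) (m k : Fin r) :
    (b.repr (F (G (b k))) m : Ser d) = (matO M b F * matO M b G) m k
      + (q (b.repr (G (b k)) m) : Ser d) := by
  have h1 : F (G (b k)) = ∑ l, (b.repr (G (b k)) l • F (b l) + q (b.repr (G (b k)) l) • b l) := by
    conv_lhs => rw [← b.sum_repr (G (b k)), map_sum]
    exact Finset.sum_congr rfl fun l _ => hF _ _
  have h2 : b.repr (F (G (b k))) m
      = ∑ l, b.repr (G (b k)) l * b.repr (F (b l)) m + q (b.repr (G (b k)) m) := by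
    rw [h1, Finset.sum_add_distrib, map_add, map_sum, Finsupp.add_apply, Finsupp.coe_finsetSum,
      Finset.sum_apply]
    congr 1
    · refine Finset.sum_congr rfl fun l _ => ?_
      rw [map_smul, Finsupp.smul_apply, smul_eq_mul]
    · have := b.repr_sum_self fun l => q (b.repr (G (b k)) l)
      exact congrFun this m
  rw [h2, Subalgebra.coe_add, AddSubmonoidClass.coe_finsetSum, Matrix.mul_apply]
  congr 1
  refine Finset.sum_congr rfl fun l _ => ?_
  rw [Subalgebra.coe_mul, mul_comm]
  rfl

/-- MODULE m2: the commutation relations of the matrices -/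
theorem rel_of_lattice : Rel (fun i => matO M b (M.P i)) (matO M b M.T) := by
  have hP : ∀ i, ∀ (f : S.alg) (u : M.L),
      M.P i (f • u) = f • M.P i u + (S.var none * S.pd (some i) f) • u := M.P_smul
  have hT : ∀ (f : S.alg) (u : M.L),
      M.T (f • u) = f • M.T u + (S.var none ^ 2 * S.pd none f) • u := M.T_smul
  constructor
  · intro i j
    refine Matrix.ext fun m k => ?_
    have e1 := p2_comp M b (M.P i) (M.P j) _ (hP i) m k
    have e2 := p2_comp M b (M.P j) (M.P i) _ (hP j) m k
    have e3 : b.repr (M.P i (M.P j (b k))) m = b.repr (M.P j (M.P i (b k))) m := by rw [M.P_P]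
    rw [e3, e2] at e1
    rw [Subalgebra.coe_mul, Subalgebra.coe_mul] at e1
    simp only [Matrix.add_apply, Matrix.sub_apply, Matrix.smul_apply, Matrix.map_apply, smul_eq_mul,
      Matrix.zero_apply, serD_apply]
    change _ + (MvPowerSeries.X none : Ser d) * MvPowerSeries.pderiv ℂ (some j) (matO M b (M.P i) m k)
      = _ + (MvPowerSeries.X none : Ser d) * MvPowerSeries.pderiv ℂ (some i) (matO M b (M.P j) m k)
      at e1
    rw [sS]
    linear_combination -e1
  · intro i
    refine Matrix.ext fun m k => ?_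
    have e1 := p2_comp M b (M.P i) M.T _ (hP i) m k
    have e2 := p2_comp M b M.T (M.P i) _ hT m k
    have e3 : b.repr (M.P i (M.T (b k))) m - b.repr (M.T (M.P i (b k))) m
        = - (S.var none * b.repr (M.P i (b k)) m) := by
      rw [← Finsupp.sub_apply, ← map_sub, M.P_T, map_neg, Finsupp.neg_apply, map_smul,
        Finsupp.smul_apply, smul_eq_mul]
    have e4 := congrArg (fun x : S.alg => (x : Ser d)) e3
    simp only [Subalgebra.coe_sub, Subalgebra.coe_neg, Subalgebra.coe_mul] at e4
    rw [e1, e2, Subalgebra.coe_mul, Subalgebra.coe_mul, Subalgebra.coe_pow] at e4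
    simp only [Matrix.add_apply, Matrix.sub_apply, Matrix.smul_apply, Matrix.map_apply, smul_eq_mul,
      Matrix.neg_apply, serD_apply]
    change _ + (MvPowerSeries.X none : Ser d) * MvPowerSeries.pderiv ℂ (some i) (matO M b M.T m k)
      - (_ + (MvPowerSeries.X none : Ser d) ^ 2 * MvPowerSeries.pderiv ℂ none (matO M b (M.P i) m k))
      = -((MvPowerSeries.X none : Ser d) * matO M b (M.P i) m k) at e4
    rw [sS]
    linear_combination e4

end mat

/-! ## m3: Jacobson's lemma -/

private lemma p3_comm {S : Type} [CommRing S] (A V C : Matrix (Fin r) (Fin r) S)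
    (h : A * V - V * A = C) (hc : A * C = C * A) (g : S[X]) :
    aeval A g * V - V * aeval A g = aeval A (derivative g) * C := by
  have hpow : ∀ n : ℕ, A ^ n * V - V * A ^ n = (n : Matrix (Fin r) (Fin r) S) * A ^ (n - 1) * C := by
    intro n
    induction n with
    | zero => simp
    | succ n ih =>
      have e : A ^ (n + 1) * V - V * A ^ (n + 1) = A * (A ^ n * V - V * A ^ n) + (A * V - V * A) * A ^ n := by
        rw [pow_succ']; noncomm_ring
      rw [e, ih, h, Nat.add_sub_cancel]
      have hcn : C * A ^ n = A ^ n * C := by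
        have : Commute A C := hc
        exact (this.pow_left n).eq.symm
      rw [hcn]
      rcases n with _ | n
      · simp
      · rw [Nat.add_sub_cancel, ← mul_assoc, ← mul_assoc, ← (Nat.cast_commute (n + 1) A).eq,
          mul_assoc (((n + 1 : ℕ) : Matrix (Fin r) (Fin r) S)) A, ← pow_succ']
        push_cast
        noncomm_ring
  induction g using Polynomial.induction_on' with
  | add p q hp hq =>
    rw [map_add, derivative_add, map_add, add_mul, add_mul, mul_add, ← hp, ← hq]
    abel
  | monomial n a =>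
    rw [derivative_monomial, aeval_monomial, aeval_monomial, map_mul, map_natCast]
    have hcom : V * (algebraMap S (Matrix (Fin r) (Fin r) S) a) = algebraMap S _ a * V :=
      (Algebra.commutes a V).symm
    have e : algebraMap S (Matrix (Fin r) (Fin r) S) a * A ^ n * V
        - V * (algebraMap S (Matrix (Fin r) (Fin r) S) a * A ^ n)
        = algebraMap S (Matrix (Fin r) (Fin r) S) a * (A ^ n * V - V * A ^ n) := by
      rw [← mul_assoc V, hcom]; noncomm_ring
    rw [e, hpow]
    simp only [mul_assoc]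

/-- MODULE m3. If `C = [A, V]` commutes with `A` then `C` is nilpotent. -/
theorem jacobson {S : Type} [CommRing S] [Algebra ℂ S] (A V C : Matrix (Fin r) (Fin r) S)
    (h : A * V - V * A = C) (hc : A * C = C * A) : IsNilpotent C := by
  have hcc : ∀ g : S[X], Commute (aeval A g) C := by
    intro g
    have : Commute A C := hc
    induction g using Polynomial.induction_on' with
    | add p q hp hq => rw [map_add]; exact hp.add_left hq
    | monomial n a =>
      rw [aeval_monomial]
      exact Commute.mul_left (Algebra.commutes a C) (this.pow_left n)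
  have key : ∀ k : ℕ, aeval A (derivative^[k] A.charpoly) * C ^ (2 ^ k - 1) = 0 := by
    intro k
    induction k with
    | zero => simp [Matrix.aeval_self_charpoly]
    | succ k ih =>
      set g := derivative^[k] A.charpoly with hg
      set n := 2 ^ k - 1 with hn
      have e2 : 2 ^ (k + 1) - 1 = n + (n + 1) := by
        have : 1 ≤ 2 ^ k := Nat.one_le_two_pow
        rw [pow_succ]; omega
      rw [Function.iterate_succ_apply', ← hg, e2]
      have h1 := p3_comm A V C h hc g
      have h2 : C ^ n * (aeval A g * C ^ n * V - V * (aeval A g * C ^ n)) = 0 := by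
        rw [ih]; simp
      have hn' : Commute (C ^ n) (aeval A g) := ((hcc g).pow_right n).symm
      have hn1 : Commute (C ^ n) (aeval A (derivative g)) := ((hcc _).pow_right n).symm
      have h3 : C ^ n * aeval A g = 0 := by rw [hn'.eq, ih]
      have e3 : C ^ n * (aeval A g * C ^ n * V - V * (aeval A g * C ^ n))
          = C ^ n * aeval A g * (C ^ n * V - V * C ^ n)
            + C ^ n * (aeval A g * V - V * aeval A g) * C ^ n := by
        noncomm_ring
      rw [e3, h3, zero_mul, zero_add, h1, ← mul_assoc, hn1.eq] at h2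
      rw [pow_add, pow_succ', ← mul_assoc, ← mul_assoc]
      exact h2
  rcases subsingleton_or_nontrivial S with hS | hS
  · exact ⟨0, by ext i j; exact Subsingleton.elim _ _⟩
  have hr := key r
  have hdeg : A.charpoly.natDegree = r := by
    rw [Matrix.charpoly_natDegree_eq_dim, Fintype.card_fin]
  have hmon := Matrix.charpoly_monic A
  have hd : derivative^[r] A.charpoly = Polynomial.C ((r.factorial : ℕ) : S) := by
    ext m
    rw [Polynomial.coeff_iterate_derivative, Polynomial.coeff_C]
    rcases Nat.eq_zero_or_pos m with hm | hm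
    · subst hm
      rw [if_pos rfl, zero_add, Nat.descFactorial_self]
      have : A.charpoly.coeff r = 1 := by
        have h1 := hmon.coeff_natDegree
        rw [hdeg] at h1
        exact h1
      rw [this, nsmul_eq_mul, mul_one]
    · rw [if_neg (by omega), Polynomial.coeff_eq_zero_of_natDegree_lt (by omega), smul_zero]
  rw [hd, aeval_C] at hr
  refine ⟨2 ^ r - 1, ?_⟩
  have hu : algebraMap S (Matrix (Fin r) (Fin r) S) (algebraMap ℂ S ((r.factorial : ℂ)⁻¹))
      * algebraMap S (Matrix (Fin r) (Fin r) S) ((r.factorial : ℕ) : S) = 1 := by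
    rw [← map_mul, ← map_natCast (algebraMap ℂ S), ← map_mul, inv_mul_cancel₀, map_one, map_one]
    exact_mod_cast r.factorial_ne_zero
  calc C ^ (2 ^ r - 1) = 1 * C ^ (2 ^ r - 1) := (one_mul _).symm
    _ = 0 := by rw [← hu, mul_assoc, hr, mul_zero]

/-! ## m4: the relation on the support -/

section p4

variable {S : SymRing d} (M : Pool.Fml.Lattice S) (b : Module.Basis (Fin r) S.alg M.L)

private def p4_Mod (k : ℕ) (F : AddMonoid.End M.L) : Prop := ∀ u, ∃ v, F u = S.var none ^ k • v

private def p4_Good (F : AddMonoid.End M.L) : Prop :=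
  ∀ (k : ℕ) (u : M.L), ∃ v, F (S.var none ^ k • u) = S.var none ^ k • v

private def p4_Lin2 (F : AddMonoid.End M.L) : Prop :=
  ∀ (f : S.alg) (u : M.L), ∃ v, F (f • u) = f • F u + S.var none ^ 2 • v

variable {M}

private lemma p4_Mod.add {k : ℕ} {F G : AddMonoid.End M.L} (h : p4_Mod M k F) (h' : p4_Mod M k G) :
    p4_Mod M k (F + G) := fun u => by
  obtain ⟨v, hv⟩ := h u
  obtain ⟨v', hv'⟩ := h' u
  exact ⟨v + v', by change F u + G u = _; rw [hv, hv', smul_add]⟩

private lemma p4_Mod.neg {k : ℕ} {F : AddMonoid.End M.L} (h : p4_Mod M k F) :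
    p4_Mod M k (-F) := fun u => by
  obtain ⟨v, hv⟩ := h u
  exact ⟨-v, by change -(F u) = _; rw [hv, smul_neg]⟩

private lemma p4_Mod.sub {k : ℕ} {F G : AddMonoid.End M.L} (h : p4_Mod M k F) (h' : p4_Mod M k G) :
    p4_Mod M k (F - G) := by
  rw [sub_eq_add_neg]; exact h.add h'.neg

private lemma p4_Mod.right {k : ℕ} {F : AddMonoid.End M.L} (h : p4_Mod M k F)
    (G : AddMonoid.End M.L) : p4_Mod M k (F * G) := fun u => h (G u)

private lemma p4_Mod.left {k : ℕ} {F : AddMonoid.End M.L} (h : p4_Mod M k F)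
    {G : AddMonoid.End M.L} (hG : p4_Good M G) : p4_Mod M k (G * F) := fun u => by
  obtain ⟨v, hv⟩ := h u
  obtain ⟨v', hv'⟩ := hG k v
  exact ⟨v', by change G (F u) = _; rw [hv, hv']⟩

private lemma p4_Mod.zero {k : ℕ} : p4_Mod M k 0 := fun u => ⟨0, by rw [smul_zero]; rfl⟩

private lemma p4_Mod.sum {k : ℕ} {κ : Type} (s : Finset κ) {F : κ → AddMonoid.End M.L}
    (h : ∀ i ∈ s, p4_Mod M k (F i)) : p4_Mod M k (∑ i ∈ s, F i) := by
  classical
  induction s using Finset.induction_on with
  | empty => rw [Finset.sum_empty]; exact p4_Mod.zero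
  | insert i s hi ih =>
    rw [Finset.sum_insert hi]
    exact (h i (Finset.mem_insert_self _ _)).add (ih fun j hj => h j (Finset.mem_insert_of_mem hj))

private lemma p4_Good.mul' {F G : AddMonoid.End M.L} (h : p4_Good M F) (h' : p4_Good M G) :
    p4_Good M (F * G) := fun k u => by
  obtain ⟨v, hv⟩ := h' k u
  obtain ⟨v', hv'⟩ := h k v
  exact ⟨v', by change F (G _) = _; rw [hv, hv']⟩

private lemma p4_good_mul (f : S.alg) : p4_Good M (M.mul f) := fun k u =>
  ⟨f • u, by rw [Pool.Fml.Lattice.mul_apply, smul_comm]⟩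

private lemma p4_good_T : p4_Good M M.T := fun k u => by
  have h : S.pd none (S.var none ^ k) = (k : S.alg) * S.var none ^ (k - 1) := by
    refine S.ext' ?_
    rw [S.coe_pd]
    push_cast
    rw [S.coe_var, Derivation.leibniz_pow, MvPowerSeries.pderiv_X_self]
    simp [nsmul_eq_mul]
  rcases k with _ | k
  · exact ⟨M.T u, by rw [pow_zero, one_smul, one_smul]⟩
  · refine ⟨M.T u + ((k + 1 : ℕ) : S.alg) • S.var none • u, ?_⟩
    rw [M.T_smul, h, Nat.add_sub_cancel, smul_add, smul_smul, smul_smul]
    congr 2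
    ring

private lemma p4_good_P (i : Fin d) : p4_Good M (M.P i) := fun k u => by
  have h : S.pd (some i) (S.var none ^ k) = 0 := by
    refine S.ext' ?_
    rw [S.coe_pd]
    push_cast
    rw [S.coe_var, Derivation.leibniz_pow, MvPowerSeries.pderiv_X_of_ne (by simp)]
    simp
  exact ⟨M.P i u, by rw [M.P_smul, h, mul_zero, zero_smul, add_zero]⟩

private lemma p4_Good.pow {F : AddMonoid.End M.L} (h : p4_Good M F) (n : ℕ) :
    p4_Good M (F ^ n) := by
  induction n with
  | zero => exact fun k u => ⟨u, rfl⟩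
  | succ n ih => rw [pow_succ]; exact ih.mul' h

private lemma p4_PT (i : Fin d) : M.P i * M.T = M.T * M.P i - M.mul (S.var none) * M.P i := by
  ext u
  have h := M.P_T i u
  change M.P i (M.T u) = M.T (M.P i u) - S.var none • M.P i u
  rw [sub_eq_iff_eq_add] at h
  rw [h]; abel

private lemma p4_Pmul (i : Fin d) (c : S.alg) :
    M.P i * M.mul c = M.mul c * M.P i + M.mul (S.var none) * M.mul (S.pd (some i) c) := by
  ext u
  change M.P i (c • u) = c • M.P i u + S.var none • S.pd (some i) c • u
  rw [M.P_smul, smul_smul]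

private lemma p4_Ts (n : ℕ) :
    p4_Mod M 2 (M.T ^ n * M.mul (S.var none) - M.mul (S.var none) * M.T ^ n) := by
  induction n with
  | zero => rw [pow_zero, one_mul, mul_one, sub_self]; exact p4_Mod.zero
  | succ n ih =>
    have e : M.T ^ (n + 1) * M.mul (S.var none) - M.mul (S.var none) * M.T ^ (n + 1)
        = M.T * (M.T ^ n * M.mul (S.var none) - M.mul (S.var none) * M.T ^ n)
          + (M.T * M.mul (S.var none) - M.mul (S.var none) * M.T) * M.T ^ n := by
      rw [pow_succ']; noncomm_ring
    rw [e]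
    refine (ih.left p4_good_T).add (p4_Mod.right ?_ _)
    intro u
    refine ⟨u, ?_⟩
    change M.T (S.var none • u) - S.var none • M.T u = _
    rw [M.T_smul, S.pd_var_self, mul_one, add_sub_cancel_left]

/-- `[P_i, T^n] ≡ - n s T^(n-1) P_i` modulo `s²` -/
private lemma p4_PTn (i : Fin d) (n : ℕ) :
    p4_Mod M 2 (M.P i * M.T ^ n - M.T ^ n * M.P i
      + (n : AddMonoid.End M.L) * (M.mul (S.var none) * (M.T ^ (n - 1) * M.P i))) := by
  induction n with
  | zero => simp only [pow_zero, mul_one, one_mul, sub_self, Nat.cast_zero, zero_mul, add_zero]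
            exact p4_Mod.zero
  | succ n ih =>
    have e : M.P i * M.T ^ (n + 1) - M.T ^ (n + 1) * M.P i
        + ((n + 1 : ℕ) : AddMonoid.End M.L) * (M.mul (S.var none) * (M.T ^ (n + 1 - 1) * M.P i))
        = (M.P i * M.T ^ n - M.T ^ n * M.P i
            + (n : AddMonoid.End M.L) * (M.mul (S.var none) * (M.T ^ (n - 1) * M.P i))) * M.T
          + (n : AddMonoid.End M.L) * (M.mul (S.var none) * (M.T ^ (n - 1)
              * (M.mul (S.var none) * M.P i)))
          - (M.T ^ n * M.mul (S.var none) - M.mul (S.var none) * M.T ^ n) * M.P i := by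
      rcases n with _ | n
      · simp only [pow_zero, mul_one, one_mul, sub_self, Nat.cast_zero, zero_mul, add_zero,
          zero_add, pow_one, Nat.cast_one, Nat.sub_self]
        rw [p4_PT]
        noncomm_ring
      · rw [Nat.add_sub_cancel, Nat.add_sub_cancel, add_mul,
          show (M.P i * M.T ^ (n + 1) - M.T ^ (n + 1) * M.P i) * M.T
            = M.P i * M.T ^ (n + 1) * M.T - M.T ^ (n + 1) * (M.P i * M.T) by noncomm_ring,
          show ((n + 1 : ℕ) : AddMonoid.End M.L) * (M.mul (S.var none) * (M.T ^ n * M.P i)) * M.T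
            = ((n + 1 : ℕ) : AddMonoid.End M.L) * (M.mul (S.var none) * (M.T ^ n * (M.P i * M.T)))
              by noncomm_ring, p4_PT, pow_succ M.T (n + 1), pow_succ M.T n]
        push_cast
        noncomm_ring
    rw [e]
    refine ((ih.right _).add ?_).sub ((p4_Ts n).right _)
    intro u
    obtain ⟨v, hv⟩ := (p4_good_T (M := M)).pow (n - 1) 1 (M.P i u)
    refine ⟨(n : ℕ) • v, ?_⟩
    change ((n : ℕ) : AddMonoid.End M.L) (S.var none • (M.T ^ (n - 1)) (S.var none • M.P i u)) = _
    rw [pow_one] at hv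
    rw [hv, AddMonoid.End.natCast_apply, smul_comm (n : ℕ), smul_comm (n : ℕ), smul_smul, ← pow_two,
      smul_comm]

private lemma p4_evT_eq (p : S.alg[X]) {N : ℕ} (hN : p.natDegree < N) :
    evT M p = ∑ n ∈ Finset.range N, M.mul (p.coeff n) * M.T ^ n := by
  unfold evT
  refine Finset.sum_subset (fun n hn => ?_) fun n _ hn => ?_
  · rw [Finset.mem_range] at hn ⊢; omega
  · rw [Finset.mem_range, not_lt] at hn
    rw [coeff_eq_zero_of_natDegree_lt (by omega)]
    ext u
    change (0 : S.alg) • (M.T ^ n) u = 0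
    rw [zero_smul]

/-- derivative of the coefficients -/
private noncomputable def p4_px (i : Fin d) (p : S.alg[X]) : S.alg[X] :=
  ∑ n ∈ Finset.range (p.natDegree + 1), monomial n (S.pd (some i) (p.coeff n))

private lemma p4_pd_zero (i : Option (Fin d)) : S.pd i (0 : S.alg) = 0 := by
  refine S.ext' ?_
  rw [S.coe_pd]
  exact map_zero _

private lemma p4_px_coeff (i : Fin d) (p : S.alg[X]) (n : ℕ) :
    (p4_px i p).coeff n = S.pd (some i) (p.coeff n) := by
  unfold p4_px
  rw [finsetSum_coeff]
  simp only [coeff_monomial]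
  rw [Finset.sum_ite_eq']
  split_ifs with h
  · rfl
  · rw [Finset.mem_range, not_lt] at h
    rw [coeff_eq_zero_of_natDegree_lt (by omega), p4_pd_zero]

private lemma p4_px_deg (i : Fin d) (p : S.alg[X]) : (p4_px i p).natDegree ≤ p.natDegree := by
  rw [natDegree_le_iff_coeff_eq_zero]
  intro n hn
  rw [p4_px_coeff, coeff_eq_zero_of_natDegree_lt hn, p4_pd_zero]

private lemma p4_toP_coeff (p : S.alg[X]) (n : ℕ) : (toP p).coeff n = (p.coeff n : Ser d) := by
  unfold toP
  rw [coeff_map]; rfl

private lemma p4_toP_px (i : Fin d) (p : S.alg[X]) :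
    toP (p4_px i p) = polD (serD (some i)) (toP p) := by
  ext1 n
  rw [p4_toP_coeff, p4_px_coeff, polD_coeff, p4_toP_coeff, S.coe_pd, serD_apply]

private lemma p4_toP_der (p : S.alg[X]) : toP (derivative p) = derivative (toP p) := by
  unfold toP
  rw [derivative_map]

/-- `[P_i, p(T)] ≡ s (p_x(T) - p_t(T) P_i)` modulo `s²` -/
private lemma p4_comm (i : Fin d) (p : S.alg[X]) :
    p4_Mod M 2 (M.P i * evT M p - evT M p * M.P i
      - M.mul (S.var none) * (evT M (p4_px i p) - evT M (derivative p) * M.P i)) := by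
  set N := p.natDegree with hN
  have h1 := p4_evT_eq (M := M) p (N := N + 1) (by omega)
  have h2 := p4_evT_eq (M := M) (p4_px i p) (N := N + 1)
    (by have := p4_px_deg (S := S) i p; omega)
  have h3 := p4_evT_eq (M := M) (derivative p) (N := N + 1)
    (by have := natDegree_derivative_le p; omega)
  have h4 : ∑ n ∈ Finset.range (N + 1), M.mul ((derivative p).coeff n) * M.T ^ n
      = ∑ n ∈ Finset.range (N + 1), (n : AddMonoid.End M.L) * (M.mul (p.coeff n) * M.T ^ (n - 1)) := by
    rw [Finset.sum_range_succ, Finset.sum_range_succ' _ N]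
    have e1 : (derivative p).coeff N = 0 := by
      rw [coeff_derivative, coeff_eq_zero_of_natDegree_lt (by omega), zero_mul]
    rw [e1]
    have e2 : M.mul (0 : S.alg) * M.T ^ N = 0 := by
      ext u
      change (0 : S.alg) • (M.T ^ N) u = 0
      rw [zero_smul]
    rw [e2, add_zero, Nat.cast_zero, zero_mul, add_zero]
    refine Finset.sum_congr rfl fun n _ => ?_
    rw [coeff_derivative, Nat.add_sub_cancel]
    ext u
    change (p.coeff (n + 1) * ((n : S.alg) + 1)) • (M.T ^ n) u
      = ((n + 1 : ℕ) : AddMonoid.End M.L) (p.coeff (n + 1) • (M.T ^ n) u)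
    rw [AddMonoid.End.natCast_apply, ← Nat.cast_smul_eq_nsmul S.alg, smul_smul]
    congr 1
    push_cast
    ring
  have e : M.P i * evT M p - evT M p * M.P i
      - M.mul (S.var none) * (evT M (p4_px i p) - evT M (derivative p) * M.P i)
      = ∑ n ∈ Finset.range (N + 1), M.mul (p.coeff n) *
        (M.P i * M.T ^ n - M.T ^ n * M.P i
          + (n : AddMonoid.End M.L) * (M.mul (S.var none) * (M.T ^ (n - 1) * M.P i))) := by
    rw [h1, h2, h3, h4, mul_sub, Finset.mul_sum, Finset.sum_mul, Finset.mul_sum, Finset.sum_mul,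
      Finset.mul_sum, ← Finset.sum_sub_distrib, ← Finset.sum_sub_distrib,
      ← Finset.sum_sub_distrib]
    refine Finset.sum_congr rfl fun n _ => ?_
    rw [p4_px_coeff, ← mul_assoc (M.P i), p4_Pmul]
    have c1 : M.mul (p.coeff n) * M.mul (S.var none) = M.mul (S.var none) * M.mul (p.coeff n) := by
      ext u
      change p.coeff n • S.var none • u = S.var none • p.coeff n • u
      rw [smul_comm]
    have c2 : M.mul (p.coeff n) * ((n : AddMonoid.End M.L)
          * (M.mul (S.var none) * (M.T ^ (n - 1) * M.P i)))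
        = (n : AddMonoid.End M.L) * (M.mul (S.var none) * (M.mul (p.coeff n)
          * (M.T ^ (n - 1) * M.P i))) := by
      rw [← mul_assoc, ← (Nat.cast_commute n (M.mul (p.coeff n))).eq, mul_assoc,
        ← mul_assoc (M.mul (p.coeff n)), c1, mul_assoc]
    have c3 : M.mul (S.var none) * ((n : AddMonoid.End M.L) * (M.mul (p.coeff n) * M.T ^ (n - 1))
          * M.P i)
        = (n : AddMonoid.End M.L) * (M.mul (S.var none) * (M.mul (p.coeff n)
          * (M.T ^ (n - 1) * M.P i))) := by
      rw [mul_assoc, ← mul_assoc (M.mul (S.var none)), ← (Nat.cast_commute n _).eq, mul_assoc,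
        mul_assoc (M.mul (p.coeff n))]
    rw [mul_add, c2, c3]
    noncomm_ring
  rw [e]
  exact p4_Mod.sum _ fun n _ => (p4_PTn i n).left (p4_good_mul _)

private lemma p4_sum_apply (s : Finset ℕ) (F : ℕ → AddMonoid.End M.L) (v : M.L) :
    (∑ n ∈ s, F n) v = ∑ n ∈ s, F n v := by
  classical
  induction s using Finset.induction_on with
  | empty => rfl
  | insert i s hi ih =>
    rw [Finset.sum_insert hi, Finset.sum_insert hi, ← ih]
    rfl

/-- `F (f u) = f F u` modulo `s²` -/
private lemma p4_lin2 (p : S.alg[X]) : p4_Lin2 M (evT M p) := by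
  have hT : ∀ n : ℕ, p4_Lin2 M (M.T ^ n) := by
    intro n
    induction n with
    | zero => exact fun f u => ⟨0, by rw [pow_zero, smul_zero, add_zero]; rfl⟩
    | succ n ih =>
      intro f u
      obtain ⟨v, hv⟩ := ih f u
      obtain ⟨w, hw⟩ := p4_good_T (M := M) 2 v
      refine ⟨S.pd none f • (M.T ^ n) u + w, ?_⟩
      rw [pow_succ']
      change M.T ((M.T ^ n) (f • u)) = f • M.T ((M.T ^ n) u) + _
      rw [hv, map_add, M.T_smul, hw, smul_add, smul_smul, add_assoc]
  intro f u
  choose w hw using fun n => hT n f u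
  refine ⟨∑ n ∈ Finset.range (p.natDegree + 1), p.coeff n • w n, ?_⟩
  have e : ∀ v, evT M p v = ∑ n ∈ Finset.range (p.natDegree + 1), p.coeff n • (M.T ^ n) v := by
    intro v
    unfold evT
    rw [p4_sum_apply]; rfl
  rw [e, e, Finset.smul_sum, Finset.smul_sum, ← Finset.sum_add_distrib]
  refine Finset.sum_congr rfl fun n _ => ?_
  rw [hw, smul_add, smul_comm (p.coeff n) f, smul_comm (p.coeff n)]

private lemma p4_cancel (b : Module.Basis (Fin r) S.alg M.L) {u v : M.L}
    (h : S.var none • u = S.var none • v) : u = v := by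
  refine b.ext_elem fun l => S.var_cancel (i := none) ?_
  have h1 := congrArg (fun x => b.repr x l) h
  simp only [map_smul, Finsupp.smul_apply, smul_eq_mul] at h1
  exact h1

private lemma p4_sym_eq [SDiv S] {F G : AddMonoid.End M.L} (hF : Lin M F) (hG : Lin M G)
    (h : ∀ u, ∃ w, F u = G u + S.var none • w) : sym M b F = sym M b G := by
  have hFG : Lin M (F - G) := by
    intro f u
    obtain ⟨v, hv⟩ := hF f u
    obtain ⟨w, hw⟩ := hG f u
    refine ⟨v - w, ?_⟩
    change F (f • u) - G (f • u) = f • (F u - G u) + _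
    rw [hv, hw, smul_sub, smul_sub]; abel
  have h1 : M.Kills (F - G) := by
    intro u
    obtain ⟨w, hw⟩ := h u
    refine ⟨w, ?_⟩
    change F u - G u = _
    rw [hw, add_sub_cancel_left]
  have h2 := (kills_iff M b hFG).1 h1
  rw [sym_sub, sub_eq_zero] at h2
  exact h2

end p4

private lemma p4_aeval_comm {A B C : Mx d r} (h : A * B = C * A) (q : (Ser d)[X]) :
    A * aeval B q = aeval C q * A := by
  induction q using Polynomial.induction_on' with
  | add p q hp hq => rw [map_add, map_add, mul_add, add_mul, hp, hq]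
  | monomial n a =>
    have hp : ∀ n : ℕ, A * B ^ n = C ^ n * A := by
      intro n
      induction n with
      | zero => rw [pow_zero, pow_zero, mul_one, one_mul]
      | succ n ih => rw [pow_succ, pow_succ, ← mul_assoc, ih, mul_assoc, h, mul_assoc]
    rw [aeval_monomial, aeval_monomial, ← mul_assoc, ← Algebra.commutes a A, mul_assoc, hp,
      mul_assoc]

private lemma p4_sco_coeff (f : Ser d) (m : Option (Fin d) →₀ ℕ) :
    MvPowerSeries.coeff m (sco 0 f) = if m none = 0 then MvPowerSeries.coeff m f else 0 := by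
  have : MvPowerSeries.coeff m (sco 0 f) =
      if m none = 0 then MvPowerSeries.coeff (m + Finsupp.single none 0) f else 0 := rfl
  rw [this, Finsupp.single_zero, add_zero]

private lemma p4_sc_add (U V : Mx d r) : sc 0 (U + V) = sc 0 U + sc 0 V := by
  ext1 i j
  refine MvPowerSeries.ext fun m => ?_
  change MvPowerSeries.coeff m (sco 0 (U i j + V i j))
    = MvPowerSeries.coeff m (sco 0 (U i j) + sco 0 (V i j))
  rw [map_add, p4_sco_coeff, p4_sco_coeff, p4_sco_coeff, map_add]
  split_ifs <;> simp

private lemma p4_sc_one : sc 0 (1 : Mx d r) = 1 := by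
  classical
  ext1 i j
  refine MvPowerSeries.ext fun m => ?_
  change MvPowerSeries.coeff m (sco 0 ((1 : Mx d r) i j)) = _
  rw [p4_sco_coeff]
  by_cases hij : i = j
  · subst hij
    rw [Matrix.one_apply_eq, MvPowerSeries.coeff_one]
    by_cases h : m = 0
    · subst h; simp
    · simp [h]
  · rw [Matrix.one_apply_ne hij, map_zero, ite_self]

private lemma p4_sc_s (U : Mx d r) : sc 0 ((sS : Ser d) • U) = 0 := by
  classical
  ext1 i j
  refine MvPowerSeries.ext fun m => ?_
  change MvPowerSeries.coeff m (sco 0 (MvPowerSeries.X none * U i j)) = 0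
  rw [p4_sco_coeff]
  split_ifs with h
  · exact (MvPowerSeries.X_dvd_iff.1 (Dvd.intro _ rfl)) m h
  · rfl

private lemma p4_free_der {d : ℕ} (i : Fin d) {f : Ser d} (hf : SFree f) :
    SFree (MvPowerSeries.pderiv ℂ (some i) f) := fun m hm => by
  rw [MvPowerSeries.coeff_pderiv, hf, zero_mul]
  rw [Finsupp.add_apply, Finsupp.single_eq_of_ne (by simp), add_zero]
  exact hm

/-- MODULE m4. For a regular lattice: if `p(T)` vanishes on the support then `p(B_0) = 0` and
`A_i p_t(B_0) = p_{x_i}(B_0)`. Proof: `p(T) = s V`;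
`s (P_i V - V P_i) = [P_i, p(T)] ≡ s (p_{x_i}(T) - p_t(T) P_i)` modulo `s²`, hence
`C = p_{x_i}(B_0) - p_t(B_0) A_i = [A_i, V_0]` commutes with `A_i` and is nilpotent; it is the
symbol of the operator `p_{x_i}(T) - p_t(T) P_i`. -/
theorem eig_of_regular (M : Pool.Fml.Lattice (formal d)) (hM : M.Regular)
    (b : Module.Basis (Fin r) (formal d).alg M.L) (p : (formal d).alg[X])
    (hp : ∀ n, SFree (p.coeff n : Ser d)) (hv : M.Vanishes (evT M p)) :
    Eig (toP p) (fun i => matO M b (M.P i)) (matO M b M.T) := by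
  have hmul : ∀ f, M.mul f ∈ M.ops := fun f => Subring.subset_closure (Or.inl ⟨f, rfl⟩)
  have hT : M.T ∈ M.ops := Subring.subset_closure (Or.inr (Or.inl rfl))
  have hP : ∀ i, M.P i ∈ M.ops := fun i => Subring.subset_closure (Or.inr (Or.inr ⟨i, rfl⟩))
  have hcomm : ∀ i, sym M b (M.P i) * sym M b M.T = sym M b M.T * sym M b (M.P i) := by
    intro i
    rw [← sym_mul M b (lin_of_mem M (hP i)), ← sym_mul M b (lin_of_mem M hT)]
    refine p4_sym_eq b (lin_of_mem M (mul_mem (hP i) hT)) (lin_of_mem M (mul_mem hT (hP i)))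
      fun u => ⟨-M.P i u, ?_⟩
    have h := M.P_T i u
    change M.P i (M.T u) = M.T (M.P i u) + _
    rw [sub_eq_iff_eq_add] at h
    rw [h, smul_neg]; abel
  have hkill : M.Kills (evT M p) := hM _ (evT_mem M p) hv
  refine ⟨hcomm, ?_, ?_⟩
  · have h := (kills_iff M b (lin_of_mem M (evT_mem M p))).1 hkill
    rw [sym_evT M b p hp] at h
    exact h
  · intro i
    change sym M b (M.P i) * aeval (sym M b M.T) (derivative (toP p))
      = aeval (sym M b M.T) (polD (serD (some i)) (toP p))
    choose V₀ hV₀ using hkill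
    set V : AddMonoid.End M.L :=
      { toFun := V₀
        map_zero' := p4_cancel b (by rw [← hV₀, map_zero, smul_zero])
        map_add' := fun u v => p4_cancel b (by rw [← hV₀, map_add, smul_add, ← hV₀, ← hV₀]) }
      with hVdef
    have hV : ∀ u, evT M p u = (formal d).var none • V u := hV₀
    have hVL : Lin M V := by
      intro f u
      obtain ⟨w, hw⟩ := p4_lin2 (M := M) p f u
      refine ⟨w, p4_cancel b ?_⟩
      rw [← hV, hw, hV, smul_add, smul_comm f, pow_two, mul_smul]
    set E : AddMonoid.End M.L := evT M (p4_px i p) - evT M (derivative p) * M.P i with hE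
    have hEm : E ∈ M.ops := sub_mem (evT_mem M _) (mul_mem (evT_mem M _) (hP i))
    have hfree1 : ∀ n, SFree ((p4_px i p).coeff n : Ser d) := fun n => by
      rw [p4_px_coeff]
      exact p4_free_der i (hp n)
    have hfree2 : ∀ n, SFree ((derivative p).coeff n : Ser d) := fun n m hm => by
      rw [coeff_derivative]
      have e : ((p.coeff (n + 1) * ((n : (formal d).alg) + 1) : (formal d).alg) : Ser d)
          = ((n + 1 : ℕ) : ℂ) • (p.coeff (n + 1) : Ser d) := by
        push_cast
        rw [Algebra.smul_def, mul_comm]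
        push_cast
        rfl
      rw [e, map_smul, hp (n + 1) m hm, smul_zero]
    have hsE : sym M b E = aeval (sym M b M.T) (polD (serD (some i)) (toP p))
        - sym M b (M.P i) * aeval (sym M b M.T) (derivative (toP p)) := by
      rw [hE, sym_sub, sym_mul M b (lin_of_mem M (evT_mem M _)), sym_evT M b _ hfree1,
        sym_evT M b _ hfree2, p4_toP_px, p4_toP_der, p4_aeval_comm (hcomm i)]
    have hPV : sym M b (M.P i) * sym M b V - sym M b V * sym M b (M.P i) = sym M b E := by
      rw [← sym_mul M b (lin_of_mem M (hP i)), ← sym_mul M b hVL, ← sym_sub]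
      have hl1 : Lin M (M.P i * V - V * M.P i) := by
        intro f u
        obtain ⟨w1, hw1⟩ := hVL f u
        obtain ⟨w2, hw2⟩ := lin_of_mem M (hP i) f (V u)
        obtain ⟨w3, hw3⟩ := p4_good_P (M := M) i 1 w1
        obtain ⟨w4, hw4⟩ := hVL f (M.P i u)
        have hw5 := M.P_smul i f u
        obtain ⟨w6, hw6⟩ := hVL ((formal d).var none * (formal d).pd (some i) f) u
        rw [pow_one] at hw3
        refine ⟨w2 + w3 - w4 - (formal d).pd (some i) f • V u - w6, ?_⟩
        change M.P i (V (f • u)) - V (M.P i (f • u)) = f • (M.P i (V u) - V (M.P i u)) + _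
        rw [hw1, hw5, map_add, map_add, hw2, hw3, hw4, hw6, mul_smul]
        simp only [smul_add, smul_sub]
        abel
      refine p4_sym_eq b hl1 (lin_of_mem M hEm) fun u => ?_
      obtain ⟨w, hw⟩ := p4_comm (M := M) i p u
      refine ⟨w, p4_cancel b ?_⟩
      have h1 : M.P i (evT M p u) - evT M p (M.P i u) - (formal d).var none • E u
          = (formal d).var none ^ 2 • w := hw
      rw [hV, hV, M.P_smul, (formal d).pd_var_ne (by simp), mul_zero, zero_smul, add_zero] at h1
      change (formal d).var none • (M.P i (V u) - V (M.P i u)) = _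
      rw [smul_sub, smul_add, smul_smul, ← pow_two, ← h1]
      abel
    have hnil : IsNilpotent (sym M b E) := by
      refine jacobson (sym M b (M.P i)) (sym M b V) _ hPV ?_
      rw [hsE, mul_sub, sub_mul, p4_aeval_comm (hcomm i), mul_assoc, p4_aeval_comm (hcomm i)]
    have h1 := hM E hEm (vanishes_of_nilpotent M b hEm hnil)
    have h2 := (kills_iff M b (lin_of_mem M hEm)).1 h1
    rw [hsE, sub_eq_zero] at h2
    exact h2.symm

/-- MODULE m4 -/
theorem Eig.gauge {p : (Ser d)[X]} {A A' : Fin d → Mx d r} {B B' G H : Mx d r}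
    (h : Eig p A B) (hg : Gau A A' B B' G H) : Eig p A' B' := by
  have hHG : sc 0 H * sc 0 G = 1 := by rw [← sc_zero_mul, hg.HG, p4_sc_one]
  have hinj : ∀ {U V : Mx d r}, sc 0 G * U = sc 0 G * V → U = V := fun {U V} h => by
    have := congrArg (fun W => sc 0 H * W) h
    simp only [← mul_assoc, hHG, one_mul] at this
    exact this
  have hA : ∀ i, sc 0 (A i) * sc 0 G = sc 0 G * sc 0 (A' i) := fun i => by
    have := congrArg (sc 0) (hg.P i)
    rw [p4_sc_add, p4_sc_s, zero_add, sc_zero_mul, sc_zero_mul] at this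
    exact this
  have hB : sc 0 B * sc 0 G = sc 0 G * sc 0 B' := by
    have := congrArg (sc 0) hg.T
    rw [p4_sc_add, pow_two, mul_smul, p4_sc_s, zero_add, sc_zero_mul, sc_zero_mul] at this
    exact this
  have hq : ∀ q : (Ser d)[X], sc 0 G * aeval (sc 0 B') q = aeval (sc 0 B) q * sc 0 G := fun q =>
    p4_aeval_comm hB.symm q
  refine ⟨fun i => hinj ?_, hinj ?_, fun i => hinj ?_⟩
  · rw [← mul_assoc, ← hA, mul_assoc, ← hB, ← mul_assoc, h.comm, mul_assoc, hA, ← mul_assoc, hB,
      mul_assoc]
  · rw [hq, h.root, zero_mul, mul_zero]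
  · rw [← mul_assoc, ← hA, mul_assoc, hq, ← mul_assoc, h.rel, ← hq]

/-! ## m5: inverses of formal symbols -/

/-- MODULE m5. Hint: `Pool.Fml.basic_est` with a weight function for which
`∑_{m ≠ 0} ‖f_m‖ ω_m < ‖f_0‖` (`Pool.Fml.core_omega`, with `R` replaced by a large multiple). -/
theorem isFormal_inv {f g : Ser d} (hf : IsFormal f) (h : f * g = 1) : IsFormal g := by
  classical
  obtain ⟨R, hR, C, hC⟩ := Pool.Fml.Tame.exists_C ((Pool.Fml.isFormal_iff f).1 hf)
  set S : ℝ := ∑' m : Option (Fin d) →₀ ℕ, (1 / 2 : ℝ) ^ m.degree with hSdef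
  have hS : Summable fun m : Option (Fin d) →₀ ℕ => (1 / 2 : ℝ) ^ m.degree :=
    Pool.Fml.summable_deg (1 / 2) (by norm_num) (by norm_num)
  have hS0 : 0 ≤ S := tsum_nonneg fun m => by positivity
  have h0 : MvPowerSeries.coeff 0 f * MvPowerSeries.coeff 0 g = 1 := by
    have h1 := congrArg (MvPowerSeries.constantCoeff (σ := Option (Fin d)) (R := ℂ)) h
    rw [map_mul, map_one] at h1
    rw [MvPowerSeries.coeff_zero_eq_constantCoeff_apply,
      MvPowerSeries.coeff_zero_eq_constantCoeff_apply]
    exact h1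
  have hK : 0 < ‖MvPowerSeries.coeff 0 f‖ := by
    rw [norm_pos_iff]
    intro h1
    rw [h1, zero_mul] at h0
    exact zero_ne_one h0
  set κ : ℝ := ‖MvPowerSeries.coeff 0 f‖ with hκ
  set D : ℝ := max |C 0| 1 with hD
  have hD0 : 0 < D := lt_of_lt_of_le one_pos (le_max_right _ _)
  set L : ℝ := D * S / κ + 1 with hL
  have hL1 : 1 ≤ L := by
    have : 0 ≤ D * S / κ := div_nonneg (mul_nonneg hD0.le hS0) hK.le
    linarith
  have hL0 : 0 < L := lt_of_lt_of_le one_pos hL1
  have hLK : D * S < κ * L := by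
    rw [hL, mul_add, mul_one, mul_div_cancel₀ _ hK.ne']
    linarith
  set u : (Option (Fin d) →₀ ℕ) → ℝ := fun m =>
    if m = 0 then 0 else ‖MvPowerSeries.coeff m f‖ with hu
  have hu0 : ∀ m, 0 ≤ u m := by
    intro m
    simp only [hu]
    split_ifs
    · exact le_rfl
    · exact norm_nonneg _
  have hdeg : ∀ m : Option (Fin d) →₀ ℕ, m ≠ 0 → 1 ≤ m.degree := by
    intro m hm
    rw [Nat.one_le_iff_ne_zero]
    intro h1
    exact hm ((Finsupp.degree_eq_zero_iff m).1 h1)
  have hLu : ∀ m, L * u m ≤ |C (m none)| * (L * R) ^ m.degree := by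
    intro m
    simp only [hu]
    split_ifs with hm
    · rw [mul_zero]
      positivity
    · have h1 : ‖MvPowerSeries.coeff m f‖ ≤ |C (m none)| * R ^ m.degree :=
        (hC m).trans (mul_le_mul_of_nonneg_right (le_abs_self _) (by positivity))
      have h2 : L ≤ L ^ m.degree := le_self_pow₀ hL1 (by have := hdeg m hm; omega)
      calc L * ‖MvPowerSeries.coeff m f‖ ≤ L ^ m.degree * (|C (m none)| * R ^ m.degree) :=
            mul_le_mul h2 h1 (norm_nonneg _) (by positivity)
        _ = |C (m none)| * (L * R) ^ m.degree := by rw [mul_pow]; ring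
  obtain ⟨τ, h1, h2, h3⟩ := Pool.Fml.core_omega (a := fun m => L * u m)
    (fun m => mul_nonneg hL0.le (hu0 m)) (R := L * R) (by positivity) (C := fun j => |C j|) hLu
  have hρ : (0 : ℝ) < 1 / (2 * (L * R)) := by positivity
  have hω := Pool.Fml.om_sub (ν := Fin d) hρ h1 h2
  have h4 : ∀ m, u m * Pool.Fml.om (1 / (2 * (L * R))) τ m ≤ D / L * (1 / 2) ^ m.degree := by
    intro m
    have h5 := h3 m
    rw [div_mul_eq_mul_div, le_div_iff₀ hL0]
    calc u m * Pool.Fml.om (1 / (2 * (L * R))) τ m * L =
          L * u m * Pool.Fml.om (1 / (2 * (L * R))) τ m := by ring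
      _ ≤ _ := h5
  have hus : Summable fun m => u m * Pool.Fml.om (1 / (2 * (L * R))) τ m :=
    Summable.of_nonneg_of_le (fun m => mul_nonneg (hu0 m) (hω.1 m).le) h4 (hS.mul_left _)
  have hulim : ∑' m, u m * Pool.Fml.om (1 / (2 * (L * R))) τ m < κ := by
    calc ∑' m, u m * Pool.Fml.om (1 / (2 * (L * R))) τ m ≤
          ∑' m : Option (Fin d) →₀ ℕ, D / L * (1 / 2) ^ m.degree :=
          hus.tsum_le_tsum h4 (hS.mul_left _)
      _ = D / L * S := by rw [tsum_mul_left]
      _ < κ := by
        rw [div_mul_eq_mul_div, div_lt_iff₀ hL0]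
        exact hLK
  set a : (Option (Fin d) →₀ ℕ) → ℝ := fun m => ‖MvPowerSeries.coeff m g‖ with ha
  have ha0 : ∀ m, 0 ≤ a m := fun m => norm_nonneg _
  set δ : (Option (Fin d) →₀ ℕ) → ℝ := fun m => if m = 0 then 1 else 0 with hδ
  have hδ0 : ∀ m, 0 ≤ δ m := by
    intro m
    simp only [hδ]
    split_ifs
    · exact zero_le_one
    · exact le_rfl
  have hδs : Summable fun m => δ m * Pool.Fml.om (1 / (2 * (L * R))) τ m := by
    refine summable_of_ne_finset_zero (s := {0}) fun m hm => ?_
    rw [Finset.mem_singleton] at hm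
    simp only [hδ]
    rw [if_neg hm, zero_mul]
  have key : ∀ m, κ * a m ≤
      (∑ p ∈ Finset.HasAntidiagonal.antidiagonal m, u p.1 * a p.2) + δ m := by
    intro m
    have h5 := congrArg (MvPowerSeries.coeff m) h
    rw [MvPowerSeries.coeff_mul, MvPowerSeries.coeff_one] at h5
    have hmem : ((0 : Option (Fin d) →₀ ℕ), m) ∈ Finset.HasAntidiagonal.antidiagonal m := by
      rw [Finset.HasAntidiagonal.mem_antidiagonal]
      exact zero_add m
    rw [← Finset.add_sum_erase _ _ hmem] at h5
    simp only at h5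
    have h6 : MvPowerSeries.coeff 0 f * MvPowerSeries.coeff m g =
        (if m = 0 then 1 else 0) - ∑ p ∈ (Finset.HasAntidiagonal.antidiagonal m).erase (0, m),
          MvPowerSeries.coeff p.1 f * MvPowerSeries.coeff p.2 g := eq_sub_of_add_eq h5
    have h7 : κ * a m = ‖MvPowerSeries.coeff 0 f * MvPowerSeries.coeff m g‖ := by
      rw [norm_mul]
    rw [h7, h6, ← Finset.add_sum_erase _ _ hmem]
    refine (norm_sub_le _ _).trans ?_
    have h8 : ‖(if m = 0 then (1 : ℂ) else 0)‖ = δ m := by
      simp only [hδ]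
      split_ifs
      · exact norm_one
      · exact norm_zero
    have h9 : ‖∑ p ∈ (Finset.HasAntidiagonal.antidiagonal m).erase (0, m),
          MvPowerSeries.coeff p.1 f * MvPowerSeries.coeff p.2 g‖ ≤
        ∑ p ∈ (Finset.HasAntidiagonal.antidiagonal m).erase (0, m), u p.1 * a p.2 := by
      refine (norm_sum_le _ _).trans (Finset.sum_le_sum fun p hp => ?_)
      rw [Finset.mem_erase, Finset.HasAntidiagonal.mem_antidiagonal] at hp
      have h10 : p.1 ≠ 0 := by
        intro h11
        apply hp.1
        have h12 := hp.2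
        rw [h11, zero_add] at h12
        exact Prod.ext h11 h12
      rw [norm_mul]
      simp only [hu]
      rw [if_neg h10]
    have h13 : 0 ≤ u 0 * a m := mul_nonneg (hu0 _) (ha0 _)
    rw [h8]
    simp only
    linarith
  have hfin := Pool.Fml.basic_est hω κ ha0 hu0 hδ0 hus hδs hulim key
  exact (Pool.Fml.isFormal_iff g).2 (Pool.Fml.tame_of_summable ha0 hρ h1 hfin)

/-! ## m6: assembly -/

/-- MODULE m6 -/
theorem isMicro_of_low {k : ℕ} {f : Ser d} (hf : IsFormal f)
    (h : ∀ m, k < m none → MvPowerSeries.coeff m f = 0) : IsMicro f := by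
  obtain ⟨R, hR, hC⟩ := hf
  choose C hC using hC
  set D : ℝ := max (max 1 R) (∑ j ∈ Finset.range (k + 1), |C j|) with hD
  have hD1 : 1 ≤ D := (le_max_left _ _).trans (le_max_left _ _)
  have hDR : R ≤ D := (le_max_right _ _).trans (le_max_left _ _)
  have hDC : ∀ j ≤ k, |C j| ≤ D := fun j hj =>
    (Finset.single_le_sum (f := fun j => |C j|) (fun _ _ => abs_nonneg _)
      (Finset.mem_range.2 (by omega))).trans (le_max_right _ _)
  have hD0 : 0 ≤ D := zero_le_one.trans hD1
  refine ⟨D, fun m => ?_⟩
  have hfac : (1 : ℝ) ≤ (m none).factorial := by exact_mod_cast Nat.factorial_pos _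
  by_cases hm : k < m none
  · rw [h m hm, norm_zero]
    positivity
  · rw [not_lt] at hm
    calc ‖MvPowerSeries.coeff m f‖ ≤ C (m none) * R ^ m.degree := hC _ m rfl
      _ ≤ |C (m none)| * R ^ m.degree :=
          mul_le_mul_of_nonneg_right (le_abs_self _) (by positivity)
      _ ≤ D * D ^ m.degree :=
          mul_le_mul (hDC _ hm) (pow_le_pow_left₀ hR.le hDR _) (by positivity) hD0
      _ = D ^ (m.degree + 1) := by rw [pow_succ']
      _ ≤ D ^ (m.degree + 1) * (m none).factorial :=
          le_mul_of_one_le_right (by positivity) hfac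

private lemma p6_det {G : Mx d r} (hG : ∀ a b, IsFormal (G a b)) : IsFormal G.det := by
  have h1 : G.det ∈ (formal d).alg := by
    rw [Matrix.det_apply]
    refine sum_mem fun σ _ => ?_
    refine zsmul_mem ?_ _ 
    exact prod_mem fun i _ => hG _ _
  exact h1

/-- the matrix of an operator in the new basis -/
private lemma p6_mat (M : Pool.Fml.Lattice (formal d)) (b c : Module.Basis (Fin r) (formal d).alg M.L)
    (G' : Matrix (Fin r) (Fin r) (formal d).alg) (hc : ∀ j, c j = ∑ l, G' l j • b l)
    (Q : AddMonoid.End M.L) (q : (formal d).alg → (formal d).alg)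
    (hQ : ∀ (f : (formal d).alg) (u : M.L), Q (f • u) = f • Q u + q f • u)
    (Z : Matrix (Fin r) (Fin r) (formal d).alg)
    (hZ : ∀ k j, q (G' k j) + ∑ l, b.repr (Q (b l)) k * G' l j = ∑ l, G' k l * Z l j)
    (l j : Fin r) : c.repr (Q (c j)) l = Z l j := by
  have h1 : Q (c j) = ∑ l, Z l j • c l := by
    have h2 : Q (c j) = ∑ k, (q (G' k j) + ∑ l, b.repr (Q (b l)) k * G' l j) • b k := by
      rw [hc, map_sum]
      have h3 : ∀ l, Q (G' l j • b l) = ∑ k, (b.repr (Q (b l)) k * G' l j) • b k + q (G' l j) • b l := by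
        intro l
        rw [hQ]
        congr 1
        conv_lhs => rw [← b.sum_repr (Q (b l)), Finset.smul_sum]
        refine Finset.sum_congr rfl fun k _ => ?_
        rw [smul_smul, mul_comm]
      simp only [h3, add_smul, Finset.sum_add_distrib, Finset.sum_smul]
      rw [add_comm, Finset.sum_comm]
    rw [h2]
    simp only [hZ, hc, Finset.sum_smul, Finset.smul_sum, smul_smul]
    rw [Finset.sum_comm]
    refine Finset.sum_congr rfl fun k _ => Finset.sum_congr rfl fun l _ => ?_
    rw [mul_comm]
  rw [h1, c.repr_sum_self]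

/-- MODULE m6. The basis `c_j = ∑_l G_lj b_l` has matrices `A'`, `B'` with microdifferential
entries; see `Pool.Fml.Lattice.exists_micro`, `descend`, `regular_of_extension`. -/
theorem assemble (M : Pool.Fml.Lattice (formal d)) (hM : M.Regular)
    (b : Module.Basis (Fin r) (formal d).alg M.L) {k : ℕ} {A' : Fin d → Mx d r} {B' G H : Mx d r}
    (hg : NF k (fun i => matO M b (M.P i)) A' (matO M b M.T) B' G H)
    (hA' : ∀ i a b, IsFormal (A' i a b)) (hB' : ∀ a b, IsFormal (B' a b))
    (hG : ∀ a b, IsFormal (G a b)) :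
    ∃ N : Pool.Fml.Lattice (micro d), N.Regular ∧
      Pool.Fml.IsExtension Pool.Fml.micro_le_formal N M := by
  classical
  have hdet : G.det * H.det = 1 := by rw [← Matrix.det_mul, hg.GH, Matrix.det_one]
  have hdH : IsFormal H.det := isFormal_inv (p6_det hG) hdet
  set G' : Matrix (Fin r) (Fin r) (formal d).alg := fun a b => ⟨G a b, hG a b⟩ with hG'
  have hcoe : G'.map (fun x : (formal d).alg => (x : Ser d)) = G := rfl
  have hdetG' : ((G'.det : (formal d).alg) : Ser d) = G.det := by
    have h1 := RingHom.map_det ((formal d).alg.val : (formal d).alg →ₐ[ℂ] Ser d).toRingHom G'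
    exact h1
  have hu : IsUnit G'.det := by
    refine IsUnit.of_mul_eq_one (⟨H.det, hdH⟩ : (formal d).alg) ?_
    refine Subtype.ext ?_
    rw [Subalgebra.coe_mul, hdetG']
    exact hdet
  have hGH' : G' * G'⁻¹ = 1 := Matrix.mul_nonsing_inv _ hu
  have hHG' : G'⁻¹ * G' = 1 := Matrix.nonsing_inv_mul _ hu
  set eqv : M.L ≃ₗ[(formal d).alg] M.L := LinearEquiv.ofLinearMap (Matrix.toLin b b G')
    (Matrix.toLin b b G'⁻¹)
    (by rw [← Matrix.toLin_mul, hGH', Matrix.toLin_one])
    (by rw [← Matrix.toLin_mul, hHG', Matrix.toLin_one]) with heqv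
  set c := b.map eqv with hc
  have hcj : ∀ j, c j = ∑ l, G' l j • b l := fun j => by
    rw [hc, Module.Basis.map_apply]
    exact Matrix.toLin_self b b G' j
  have hmatT : ∀ l j, ((c.repr (M.T (c j)) l : (formal d).alg) : Ser d) = B' l j := by
    intro l j
    rw [p6_mat M b c G' hcj M.T (fun f => (formal d).var none ^ 2 * (formal d).pd none f) M.T_smul
      (fun a b => ⟨B' a b, hB' a b⟩) (fun k j => ?_) l j]
    refine Subtype.ext ?_
    have h1 := congrFun (congrFun hg.T k) j
    rw [Matrix.add_apply, Matrix.smul_apply, Matrix.mul_apply, Matrix.mul_apply] at h1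
    push_cast
    exact h1
  have hmatP : ∀ i l j, ((c.repr (M.P i (c j)) l : (formal d).alg) : Ser d) = A' i l j := by
    intro i l j
    rw [p6_mat M b c G' hcj (M.P i) (fun f => (formal d).var none * (formal d).pd (some i) f)
      (M.P_smul i) (fun a b => ⟨A' i a b, hA' i a b⟩) (fun k j => ?_) l j]
    refine Subtype.ext ?_
    have h1 := congrFun (congrFun (hg.P i) k) j
    rw [Matrix.add_apply, Matrix.smul_apply, Matrix.mul_apply, Matrix.mul_apply] at h1
    push_cast
    exact h1
  have hYT : ∀ l j, IsMicro (c.repr (M.T (c j)) l : Ser d) := fun l j => by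
    rw [hmatT]
    exact isMicro_of_low (hB' l j) (hg.deg l j)
  have hYP : ∀ i l j, IsMicro (c.repr (M.P i (c j)) l : Ser d) := fun i l j => by
    rw [hmatP]
    exact isMicro_of_low (k := 0) (hA' i l j) fun m hm => hg.free i l j m (by omega)
  set N := Pool.Fml.Lattice.descend M c (fun l j => ⟨_, hYT l j⟩) (fun l j => Subtype.ext rfl)
    (fun i l j => ⟨_, hYP i l j⟩) (fun i l j => Subtype.ext rfl) with hN
  have hext : Pool.Fml.IsExtension Pool.Fml.micro_le_formal N M := by
    refine ⟨Pool.Fml.Lattice.phi M c, fun f u => Pool.Fml.Lattice.phi_smul M c f u, fun u => ?_,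
      fun i u => ?_, r, Pi.basisFun (micro d).alg (Fin r), c, fun j => ?_⟩
    · exact Pool.Fml.Lattice.phi_opr M c _ (Pool.Fml.Lattice.qT_add _)
        (Pool.Fml.Lattice.qT (formal d)) (fun f => Subtype.ext rfl) M.T M.T_smul _
        (fun l j => Subtype.ext rfl) u
    · exact Pool.Fml.Lattice.phi_opr M c _ (Pool.Fml.Lattice.qP_add _ i)
        (Pool.Fml.Lattice.qP (formal d) i) (fun f => Subtype.ext rfl) (M.P i)
        (M.P_smul i) _ (fun l j => Subtype.ext rfl) u
    · change ∑ l, Pool.Fml.Lattice.inc d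
        ((Pi.basisFun (micro d).alg (Fin r) j : Fin r → (micro d).alg) l) • c l = c j
      rw [Pi.basisFun_apply]
      rw [Finset.sum_eq_single j]
      · rw [Pi.single_eq_same, map_one, one_smul]
      · intro l _ hl
        rw [Pi.single_eq_of_ne hl, map_zero, zero_smul]
      · intro h; exact absurd (Finset.mem_univ j) h
  exact ⟨N, Pool.Fml.Lattice.regular_of_extension hext hM
    fun f g hf hfg => Pool.Fml.IsMicro.div hf hfg, hext⟩

/-! ## m7: one variable -/

lemma SFree.mul {f g : Ser d} (hf : SFree f) (hg : SFree g) : SFree (f * g) := by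
  classical
  intro m hm
  rw [MvPowerSeries.coeff_mul]
  refine Finset.sum_eq_zero fun p hp => ?_
  rw [Finset.HasAntidiagonal.mem_antidiagonal] at hp
  by_cases h1 : p.1 none = 0
  · rw [hg p.2, mul_zero]
    intro h2
    apply hm
    rw [← hp, Finsupp.add_apply, h1, h2]
  · rw [hf p.1 h1, zero_mul]

lemma SFree.add {f g : Ser d} (hf : SFree f) (hg : SFree g) : SFree (f + g) := fun m hm => by
  rw [map_add, hf m hm, hg m hm, add_zero]

lemma SFree.const (c : ℂ) : SFree (algebraMap ℂ (Ser d) c) := fun m hm => by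
  classical
  rw [MvPowerSeries.algebraMap_apply, MvPowerSeries.coeff_C, if_neg]
  · rintro rfl
    exact hm rfl

lemma SFree.X (i : Fin d) : SFree (MvPowerSeries.X (some i) : Ser d) := fun m hm => by
  classical
  rw [MvPowerSeries.coeff_X, if_neg]
  rintro rfl
  exact hm (Finsupp.single_eq_of_ne (by simp))

/-- the convergent power series in `x` -/
noncomputable def CvS (d : ℕ) : Subalgebra ℂ (Ser d) where
  carrier := {f | IsFormal f ∧ SFree f}
  mul_mem' := fun h h' => ⟨Pool.Fml.isFormal_mul h.1 h'.1, h.2.mul h'.2⟩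
  add_mem' := fun h h' => ⟨Pool.Fml.isFormal_add h.1 h'.1, h.2.add h'.2⟩
  algebraMap_mem' := fun c => ⟨Pool.Fml.isFormal_const c, SFree.const c⟩

lemma X_mem_Cv (i : Fin d) : (MvPowerSeries.X (some i) : Ser d) ∈ CvS d :=
  ⟨Pool.Fml.isFormal_X _, SFree.X i⟩

private lemma p7_sco_coeff (f : Ser d) (m : Option (Fin d) →₀ ℕ) :
    MvPowerSeries.coeff m (sco 0 f) = if m none = 0 then MvPowerSeries.coeff m f else 0 := by
  have : MvPowerSeries.coeff m (sco 0 f) =
      if m none = 0 then MvPowerSeries.coeff (m + Finsupp.single none 0) f else 0 := rfl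
  rw [this, Finsupp.single_zero, add_zero]

private lemma p7_sco_one : sco 0 (1 : Ser d) = 1 := by
  classical
  refine MvPowerSeries.ext fun m => ?_
  rw [p7_sco_coeff, MvPowerSeries.coeff_one]
  by_cases h : m = 0
  · subst h; simp
  · simp [h]

private lemma p7_sco_mul (f g : Ser d) : sco 0 (f * g) = sco 0 f * sco 0 g := by
  classical
  refine MvPowerSeries.ext fun m => ?_
  rw [p7_sco_coeff, MvPowerSeries.coeff_mul, MvPowerSeries.coeff_mul]
  split_ifs with h
  · refine Finset.sum_congr rfl fun p hp => ?_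
    rw [Finset.HasAntidiagonal.mem_antidiagonal] at hp
    have h2 : p.1 none + p.2 none = 0 := by rw [← Finsupp.add_apply, hp, h]
    rw [p7_sco_coeff, p7_sco_coeff, if_pos (by omega), if_pos (by omega)]
  · symm
    refine Finset.sum_eq_zero fun p hp => ?_
    rw [Finset.HasAntidiagonal.mem_antidiagonal] at hp
    have h2 : p.1 none + p.2 none ≠ 0 := by rw [← Finsupp.add_apply, hp]; exact h
    rw [p7_sco_coeff, p7_sco_coeff]
    by_cases h1 : p.1 none = 0
    · rw [if_neg (by omega : ¬ p.2 none = 0), mul_zero]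
    · rw [if_neg h1, zero_mul]

private lemma p7_sco_free {f : Ser d} (hf : SFree f) : sco 0 f = f := by
  refine MvPowerSeries.ext fun m => ?_
  rw [p7_sco_coeff]
  split_ifs with h
  · rfl
  · rw [hf m h]

private lemma p7_free_inv {u v : Ser d} (hu : SFree u) (h : u * v = 1) : SFree v := by
  have h1 : u * sco 0 v = 1 := by
    have := congrArg (sco 0) h
    rw [p7_sco_mul, p7_sco_one, p7_sco_free hu] at this
    exact this
  have h2 : sco 0 v = v := by
    calc sco 0 v = sco 0 v * (u * v) := by rw [h, mul_one]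
      _ = (u * sco 0 v) * v := by ring
      _ = v := by rw [h1, one_mul]
  intro m hm
  rw [← h2, p7_sco_coeff, if_neg hm]

/-- MODULE m7. Every nonzero convergent power series in one variable is a power of `x` times a
unit. -/
theorem Cv_one (f : Ser 1) (hf : f ∈ CvS 1) (h0 : f ≠ 0) :
    ∃ (m : ℕ) (u v : Ser 1), u ∈ CvS 1 ∧ v ∈ CvS 1 ∧ u * v = 1 ∧
      f = MvPowerSeries.X (some 0) ^ m * u := by
  classical
  obtain ⟨hf1, hf2⟩ := hf
  have hsing : ∀ p : Option (Fin 1) →₀ ℕ, p none = 0 →
      p = Finsupp.single (some 0) (p (some 0)) := by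
    intro p hp
    ext o
    rcases o with _ | i
    · rw [hp, Finsupp.single_eq_of_ne (by simp)]
    · have hi : i = 0 := Subsingleton.elim _ _
      subst hi
      rw [Finsupp.single_eq_same]
  have hex : ∃ n : ℕ, MvPowerSeries.coeff (Finsupp.single (some 0) n) f ≠ 0 := by
    by_contra hc
    push Not at hc
    refine h0 (MvPowerSeries.ext fun p => ?_)
    rw [map_zero]
    by_cases hp : p none = 0
    · rw [hsing p hp]; exact hc _
    · exact hf2 p hp
  set m := Nat.find hex with hm
  have hm1 := Nat.find_spec hex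
  have hm2 : ∀ n < m, MvPowerSeries.coeff (Finsupp.single (some 0) n) f = 0 := fun n hn =>
    not_not.1 (Nat.find_min hex hn)
  set u : Ser 1 := fun p => MvPowerSeries.coeff (p + Finsupp.single (some 0) m) f with hu
  have huc : ∀ p, MvPowerSeries.coeff p u
      = MvPowerSeries.coeff (p + Finsupp.single (some 0) m) f := fun p => rfl
  have hnone : ∀ p : Option (Fin 1) →₀ ℕ,
      (p + Finsupp.single (some 0) m : Option (Fin 1) →₀ ℕ) none = p none := by
    intro p
    rw [Finsupp.add_apply, Finsupp.single_eq_of_ne (by simp), add_zero]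
  have huf : SFree u := fun p hp => by
    rw [huc]
    exact hf2 _ (by rw [hnone]; exact hp)
  have huF : IsFormal u := by
    obtain ⟨R, hR, hC⟩ := hf1
    refine ⟨R, hR, fun j => ?_⟩
    obtain ⟨C, hC⟩ := hC j
    refine ⟨C * R ^ m, fun p hp => ?_⟩
    rw [huc]
    refine (hC _ (by rw [hnone]; exact hp)).trans (le_of_eq ?_)
    rw [map_add, Finsupp.degree_single, pow_add]
    ring
  have hc0 : MvPowerSeries.constantCoeff u ≠ 0 := by
    have : MvPowerSeries.constantCoeff u = MvPowerSeries.coeff (Finsupp.single (some 0) m) f := by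
      change MvPowerSeries.coeff 0 u = _
      rw [huc, zero_add]
    rw [this]
    exact hm1
  have huv : u * u⁻¹ = 1 := MvPowerSeries.mul_inv_cancel u hc0
  refine ⟨m, u, u⁻¹, ⟨huF, huf⟩, ⟨isFormal_inv huF huv, p7_free_inv huf huv⟩, huv, ?_⟩
  refine MvPowerSeries.ext fun p => ?_
  rw [MvPowerSeries.X_pow_eq, MvPowerSeries.coeff_monomial_mul]
  split_ifs with h
  · rw [one_mul, huc, tsub_add_cancel_of_le h]
  · by_cases hp : p none = 0
    · rw [hsing p hp]
      refine hm2 _ ?_
      by_contra hc
      rw [not_lt] at hc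
      refine h ?_
      rw [Finsupp.single_le_iff]
      exact hc
    · exact hf2 p hp

private lemma p8_gen {D : Type} [CommRing D] [IsDomain D] [IsIntegrallyClosed D] [CharZero D]
    (χ : D[X]) (hχ : χ.Monic) : ∃ (c : D) (p α β : D[X]) (n : ℕ), c ≠ 0 ∧ p.Monic ∧
      α * p + β * derivative p = C c ∧ χ ∣ p ^ n := by
  classical
  set K := FractionRing D with hK
  have hinj : Function.Injective (algebraMap D K) := IsFractionRing.injective D K
  have : CharZero K := charZero_of_injective_algebraMap hinj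
  set χK : K[X] := χ.map (algebraMap D K) with hχK
  have hχK1 : χK.Monic := hχ.map _
  have hχK0 : χK ≠ 0 := hχK1.ne_zero
  set ρ := UniqueFactorizationMonoid.radical χK with hρ
  have hρd : ρ ∣ χK := UniqueFactorizationMonoid.radical_dvd_self
  have hρ0 : ρ ≠ 0 := fun h => hχK0 (by rw [h] at hρd; exact zero_dvd_iff.1 hρd)
  obtain ⟨p, hp⟩ := IsIntegrallyClosed.eq_map_mul_C_of_dvd K hχ hρd
  have hlc : ρ.leadingCoeff ≠ 0 := leadingCoeff_ne_zero.2 hρ0
  have hpm : (p.map (algebraMap D K)).Monic := by
    have h1 := congrArg leadingCoeff hp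
    rw [leadingCoeff_mul, leadingCoeff_C] at h1
    have h2 : (p.map (algebraMap D K)).leadingCoeff * ρ.leadingCoeff = 1 * ρ.leadingCoeff := by
      rw [one_mul]; exact h1
    exact mul_right_cancel₀ hlc h2
  have hpM : p.Monic := monic_of_injective hinj hpm
  have hass : Associated (p.map (algebraMap D K)) ρ := by
    rw [← hp]
    exact (associated_mul_unit_right _ _ (isUnit_C.2 (isUnit_iff_ne_zero.2 hlc)))
  have hsq : Squarefree (p.map (algebraMap D K)) :=
    UniqueFactorizationMonoid.squarefree_radical.squarefree_of_dvd hass.dvd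
  have hsep : (p.map (algebraMap D K)).Separable := PerfectField.separable_iff_squarefree.2 hsq
  obtain ⟨a, b, hab⟩ := hsep
  obtain ⟨n, hn⟩ := UniqueFactorizationMonoid.exists_dvd_radical_self_pow hχK0
  obtain ⟨c₁, hc₁', h₁⟩ := IsLocalization.integerNormalization_spec (nonZeroDivisors D) a
  obtain ⟨c₂, hc₂', h₂⟩ := IsLocalization.integerNormalization_spec (nonZeroDivisors D) b
  have hc₁ : c₁ ≠ 0 := nonZeroDivisors.ne_zero hc₁'
  have hc₂ : c₂ ≠ 0 := nonZeroDivisors.ne_zero hc₂'
  set a' := IsLocalization.integerNormalization (nonZeroDivisors D) a with ha'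
  set b' := IsLocalization.integerNormalization (nonZeroDivisors D) b with hb'
  refine ⟨c₁ * c₂, p, C c₂ * a', C c₁ * b', n, mul_ne_zero hc₁ hc₂, hpM, ?_, ?_⟩
  · refine map_injective _ hinj ?_
    have e : ∀ (c : D) (q : K[X]), c • q = C (algebraMap D K c) * q := fun c q => by
      rw [← algebraMap_smul K c q, smul_eq_C_mul]
    rw [Polynomial.map_add, Polynomial.map_mul, Polynomial.map_mul, Polynomial.map_mul,
      Polynomial.map_mul, h₁, h₂, map_C, map_C, map_C, e, e, ← derivative_map, map_mul, C_mul]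
    linear_combination (C (algebraMap D K c₁) * C (algebraMap D K c₂)) * hab
  · rw [← map_dvd_map (algebraMap D K) hinj hχ, Polynomial.map_pow]
    exact hn.trans ((hass.pow_pow (n := n)).symm.dvd)

/-- MODULE m8. Let `χ` be the characteristic polynomial of `B_0` over the discrete valuation ring
`CvS 1`, `p` the radical of `χ` over the field of fractions; `p` is monic with coefficients in
`CvS 1` (`IsIntegrallyClosed.eq_map_mul_C_of_dvd`), separable, and `χ` divides a power of `p`. -/
theorem exists_disc (B : Mx 1 r) (hB : ∀ i j, B i j ∈ CvS 1) :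
    ∃ (m : ℕ) (p α β : (CvS 1)[X]) (n : ℕ), p.Monic ∧
      α * p + β * derivative p = C (⟨MvPowerSeries.X (some 0), X_mem_Cv 0⟩ ^ m) ∧
      aeval B (p ^ n) = 0 := by
  classical
  have hdom0 : IsDomain (Ser 1) := NoZeroDivisors.to_isDomain _
  have hdom : IsDomain (CvS 1) := inferInstance
  set x : CvS 1 := ⟨MvPowerSeries.X (some 0), X_mem_Cv 0⟩ with hx
  have hfac : ∀ f : CvS 1, f ≠ 0 → ∃ (m : ℕ) (u v : CvS 1), u * v = 1 ∧ f = x ^ m * u := by
    intro f hf
    obtain ⟨m, u, v, hu, hv, huv, h⟩ := Cv_one f f.2 (fun h => hf (Subtype.ext h))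
    exact ⟨m, ⟨u, hu⟩, ⟨v, hv⟩, Subtype.ext huv, Subtype.ext h⟩
  have hxu : ¬ IsUnit x := by
    intro h
    obtain ⟨y, hy⟩ := h.exists_right_inv
    have h1 : (MvPowerSeries.X (some 0) : Ser 1) * (y : Ser 1) = 1 := congrArg Subtype.val hy
    have h2 := congrArg MvPowerSeries.constantCoeff h1
    rw [map_mul, MvPowerSeries.constantCoeff_X, zero_mul, map_one] at h2
    exact zero_ne_one h2
  have hx0 : x ≠ 0 := by
    intro h
    have h1 : (MvPowerSeries.X (some 0) : Ser 1) = 0 := congrArg Subtype.val h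
    have h2 := congrArg (MvPowerSeries.coeff (Finsupp.single (some 0) 1)) h1
    rw [MvPowerSeries.coeff_X, if_pos rfl, map_zero] at h2
    exact one_ne_zero h2
  have hirr : Irreducible x := by
    refine ⟨hxu, fun a b hab => ?_⟩
    have ha0 : a ≠ 0 := fun h => hx0 (by rw [hab, h, zero_mul])
    have hb0 : b ≠ 0 := fun h => hx0 (by rw [hab, h, mul_zero])
    obtain ⟨m, u, v, huv, ha⟩ := hfac a ha0
    obtain ⟨n, u', v', huv', hb⟩ := hfac b hb0
    rcases m with _ | m
    · left
      rw [ha, pow_zero, one_mul]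
      exact IsUnit.of_mul_eq_one v huv
    · rcases n with _ | n
      · right
        rw [hb, pow_zero, one_mul]
        exact IsUnit.of_mul_eq_one v' huv'
      · exfalso
        refine hxu ?_
        have h1 : x * (x ^ (m + n) * x * u * u') = x * 1 := by
          rw [mul_one]
          conv_rhs => rw [hab, ha, hb]
          ring
        have h2 := mul_left_cancel₀ hx0 h1
        exact IsUnit.of_mul_eq_one (x ^ (m + n) * u * u') (by rw [← h2]; ring)
  have hdvr : IsDiscreteValuationRing (CvS 1) :=
    IsDiscreteValuationRing.ofHasUnitMulPowIrreducibleFactorization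
      ⟨x, hirr, fun {f} hf => by
        obtain ⟨m, u, v, huv, h⟩ := hfac f hf
        exact ⟨m, ⟨u, v, huv, by rw [mul_comm]; exact huv⟩, h.symm⟩⟩
  have : CharZero (CvS 1) := charZero_of_injective_algebraMap (R := ℂ) (algebraMap ℂ (CvS 1)).injective
  set B' : Matrix (Fin r) (Fin r) (CvS 1) := fun i j => ⟨B i j, hB i j⟩ with hB'
  obtain ⟨c, p, α, β, n, hc, hp, hd, hχ⟩ := p8_gen B'.charpoly B'.charpoly_monic
  obtain ⟨m, u, v, huv, hcm⟩ := hfac c hc
  refine ⟨m, p, C v * α, C v * β, n, hp, ?_, ?_⟩
  · have h1 : C v * α * p + C v * β * derivative p = C v * (α * p + β * derivative p) := by ring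
    rw [h1, hd, ← C_mul, hcm]
    congr 1
    calc v * (x ^ m * u) = x ^ m * (u * v) := by ring
      _ = x ^ m := by rw [huv, mul_one]
  · have h1 : B = ((Algebra.ofId (CvS 1) (Ser 1)).mapMatrix B' : Mx 1 r) := rfl
    have h2 : aeval B' (p ^ n) = 0 := by
      obtain ⟨q, hq⟩ := hχ
      rw [hq, map_mul, Matrix.aeval_self_charpoly, zero_mul]
    rw [h1, aeval_algHom_apply, h2, map_zero]

end Pool.Agent.Fbc
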