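import Pool.Agent.Fbc.NFc

/-!
# The descent theorem (helper49)
-/

set_option autoImplicit false

namespace Pool.Agent.Fbc

open Polynomial
open Pool.Fml (Ser SymRing formal micro IsFormal IsMicro)

variable {d : ℕ}

lemma NF.gau {r k : ℕ} {A A' : Fin d → Mx d r} {B B' G H : Mx d r} (h : NF k A A' B B' G H) :
    Gau A A' B B' G H := ⟨h.GH, h.HG, h.P, h.T⟩

end Pool.Agent.Fbc
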