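import Pool.Agent.Fbc.Iface

/-!
# Power series which converge on almost every line (helper49)
-/

set_option autoImplicit false

namespace Pool.Agent.Fbc

open Pool.Fml (Ser SymRing formal micro IsFormal IsMicro)

open MeasureTheory

/-! ## h1: Remez inequality in one variable -/

private lemma h1_pts (h : ℝ) (hh : 0 < h) : ∀ (k : ℕ) (F : Set ℝ), MeasurableSet F →
    F ⊆ Set.Icc 0 1 → ENNReal.ofReal (2 * h * k) < volume F →
    ∃ z : ℕ → ℝ, (∀ i ≤ k, z i ∈ F) ∧
      ∀ i j : ℕ, i ≤ j → j ≤ k → ((j : ℝ) - i) * h ≤ z j - z i := by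
  intro k
  induction k with
  | zero =>
    intro F _ _ hv
    have hne : F.Nonempty := by
      rw [Set.nonempty_iff_ne_empty]
      rintro rfl
      simp at hv
    obtain ⟨x, hx⟩ := hne
    refine ⟨fun _ => x, fun _ _ => hx, fun i j hij hj => ?_⟩
    have hj0 : j = 0 := by omega
    have hi0 : i = 0 := by omega
    subst hj0 hi0
    simp
  | succ k ih =>
    intro F hF hsub hv
    have hne : F.Nonempty := by
      rw [Set.nonempty_iff_ne_empty]
      rintro rfl
      simp at hv
    have hbd : BddBelow F := ⟨0, fun x hx => (hsub hx).1⟩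
    obtain ⟨x, hx, hxm⟩ := exists_lt_of_csInf_lt hne (show sInf F < sInf F + h by linarith)
    have hF' : MeasurableSet (F ∩ Set.Ici (x + h)) := hF.inter measurableSet_Ici
    have hcov : F ⊆ (F ∩ Set.Ici (x + h)) ∪ Set.Ico (sInf F) (x + h) := by
      intro y hy
      by_cases hyx : x + h ≤ y
      · exact Or.inl ⟨hy, hyx⟩
      · exact Or.inr ⟨csInf_le hbd hy, not_le.1 hyx⟩
    have hvol : volume F ≤ volume (F ∩ Set.Ici (x + h)) + ENNReal.ofReal (2 * h) := by
      refine (measure_mono hcov).trans ((measure_union_le _ _).trans ?_)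
      refine add_le_add le_rfl ?_
      rw [Real.volume_Ico]
      exact ENNReal.ofReal_le_ofReal (by linarith)
    have hv' : ENNReal.ofReal (2 * h * k) < volume (F ∩ Set.Ici (x + h)) := by
      have e1 : ENNReal.ofReal (2 * h * ((k + 1 : ℕ) : ℝ)) =
          ENNReal.ofReal (2 * h * k) + ENNReal.ofReal (2 * h) := by
        rw [← ENNReal.ofReal_add (by positivity) (by positivity)]
        congr 1
        push_cast
        ring
      rw [e1] at hv
      exact lt_of_add_lt_add_right (hv.trans_le hvol)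
    obtain ⟨z, hz, hzs⟩ := ih _ hF' (Set.inter_subset_left.trans hsub) hv'
    refine ⟨fun i => if i = 0 then x else z (i - 1), ?_, ?_⟩
    · intro i hi
      by_cases hi0 : i = 0
      · simpa [hi0] using hx
      · simpa [hi0] using (hz (i - 1) (by omega)).1
    · intro i j hij hj
      by_cases hi0 : i = 0
      · by_cases hj0 : j = 0
        · simp [hi0, hj0]
        · subst hi0
          obtain ⟨j, rfl⟩ := Nat.exists_eq_succ_of_ne_zero hj0
          have h1 := hzs 0 j (Nat.zero_le _) (by omega)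
          have h2 : x + h ≤ z 0 := (hz 0 (Nat.zero_le _)).2
          simp only [Nat.succ_ne_zero, if_false, if_true, Nat.succ_sub_one]
          push_cast at h1 ⊢
          nlinarith
      · have hj0 : j ≠ 0 := by omega
        obtain ⟨i, rfl⟩ := Nat.exists_eq_succ_of_ne_zero hi0
        obtain ⟨j, rfl⟩ := Nat.exists_eq_succ_of_ne_zero hj0
        have h1 := hzs i j (by omega) (by omega)
        simp only [Nat.succ_ne_zero, if_false, Nat.succ_sub_one]
        push_cast at h1 ⊢
        linarith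

private lemma h1_fact (n i : ℕ) (hi : i ≤ n) :
    ∏ j ∈ (Finset.range (n + 1)).erase i, |(i : ℝ) - j| = (i.factorial : ℝ) * (n - i).factorial := by
  have e1 : (Finset.range (n + 1)).erase i = Finset.range i ∪ Finset.Ico (i + 1) (n + 1) := by
    ext j
    simp only [Finset.mem_erase, Finset.mem_range, Finset.mem_union, Finset.mem_Ico]
    omega
  have hd : Disjoint (Finset.range i) (Finset.Ico (i + 1) (n + 1)) := by
    rw [Finset.disjoint_left]
    intro j hj hj'
    rw [Finset.mem_range] at hj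
    rw [Finset.mem_Ico] at hj'
    omega
  rw [e1, Finset.prod_union hd]
  congr 1
  · rw [← Finset.prod_range_reflect, ← Finset.prod_range_add_one_eq_factorial]
    push_cast
    refine Finset.prod_congr rfl fun j hj => ?_
    rw [Finset.mem_range] at hj
    have : ((i - 1 - j : ℕ) : ℝ) = (i : ℝ) - 1 - j := by
      rw [Nat.cast_sub (by omega), Nat.cast_sub (by omega)]
      simp
    rw [this]
    rw [abs_of_nonneg (by
      have : (0 : ℝ) ≤ j := Nat.cast_nonneg j
      linarith)]
    ring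
  · rw [Finset.prod_Ico_eq_prod_range, ← Finset.prod_range_add_one_eq_factorial]
    have : n + 1 - (i + 1) = n - i := by omega
    rw [this]
    push_cast
    refine Finset.prod_congr rfl fun j hj => ?_
    have : (i : ℝ) - (i + 1 + j) = -(j + 1) := by ring
    rw [this, abs_neg, abs_of_nonneg (by positivity)]

private lemma h1_coeff (z : ℕ → ℂ) (s : Finset ℕ) (hz : ∀ j ∈ s, ‖z j‖ ≤ 1) (k : ℕ) :
    ‖(∏ j ∈ s, (Polynomial.X - Polynomial.C (z j))).coeff k‖ ≤ 2 ^ s.card := by
  induction s using Finset.induction_on generalizing k with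
  | empty =>
    simp only [Finset.prod_empty, Finset.card_empty, pow_zero, Polynomial.coeff_one]
    split_ifs <;> simp
  | insert a s ha ih =>
    have ih' := fun k => ih (fun j hj => hz j (Finset.mem_insert_of_mem hj)) k
    rw [Finset.prod_insert ha, Finset.card_insert_of_notMem ha, sub_mul, Polynomial.coeff_sub,
      Polynomial.coeff_C_mul]
    have h1 : ‖(Polynomial.X * ∏ j ∈ s, (Polynomial.X - Polynomial.C (z j))).coeff k‖
        ≤ 2 ^ s.card := by
      cases k with
      | zero => simp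
      | succ k => rw [Polynomial.coeff_X_mul]; exact ih' k
    have h2 : ‖z a * (∏ j ∈ s, (Polynomial.X - Polynomial.C (z j))).coeff k‖ ≤ 2 ^ s.card := by
      rw [norm_mul]
      calc _ ≤ 1 * 2 ^ s.card := mul_le_mul (hz a (Finset.mem_insert_self _ _)) (ih' k)
            (norm_nonneg _) zero_le_one
        _ = _ := one_mul _
    calc _ ≤ _ := norm_sub_le _ _
      _ ≤ 2 ^ s.card + 2 ^ s.card := add_le_add h1 h2
      _ = 2 ^ (s.card + 1) := by ring

/-- MODULE h1. Cut `[0, 1]` into `N = 2 (n + 1) ⌈1/δ⌉` equal intervals: a set of measure `≥ δ` meets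
`2 (n + 1)` of them; take points of `F` in every second of these: `n + 1` points of `F` with
`|z_i - z_j| ≥ |i - j| / N`. Lagrange interpolation: the coefficients of
`∏_{j ≠ i} (X - z_j)` are at most `2^n`, the denominators at least `i! (n-i)! / N^n`, and
`(n + 1)^n / n! ≤ e^(n+1)`. -/
theorem remez_one (δ : ℝ) (hδ : 0 < δ) :
    ∃ K : ℝ, 1 ≤ K ∧ ∀ (F : Set ℝ), MeasurableSet F → F ⊆ Set.Icc 0 1 →
      ENNReal.ofReal δ ≤ volume F → ∀ (n : ℕ) (p : Polynomial ℂ) (M : ℝ), p.natDegree ≤ n →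
      (∀ t ∈ F, ‖p.eval (t : ℂ)‖ ≤ M) → ∀ k, ‖p.coeff k‖ ≤ K ^ (n + 1) * M := by
  refine ⟨(8 / δ + 1) * Real.exp 1, ?_, ?_⟩
  · have h1 : 1 ≤ 8 / δ + 1 := by
      have : 0 < 8 / δ := by positivity
      linarith
    have h2 : 1 ≤ Real.exp 1 := Real.one_le_exp zero_le_one
    nlinarith
  intro F hF hsub hv n p M hp hM k
  obtain ⟨h, hh⟩ : ∃ h, h = δ / (2 * (n + 1)) := ⟨_, rfl⟩
  have hn1 : (0 : ℝ) < n + 1 := by positivity
  have hh0 : 0 < h := by rw [hh]; positivity
  have hlt : ENNReal.ofReal (2 * h * n) < volume F := by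
    refine lt_of_lt_of_le ?_ hv
    rw [ENNReal.ofReal_lt_ofReal_iff hδ, hh]
    have : 2 * (δ / (2 * ((n : ℝ) + 1))) * n = δ * (n / (n + 1)) := by field_simp
    rw [this]
    have h1 : (n : ℝ) / (n + 1) < 1 := by rw [div_lt_one hn1]; linarith
    nlinarith
  obtain ⟨z, hz, hzs⟩ := h1_pts h hh0 n F hF hsub hlt
  have hM0 : 0 ≤ M := (norm_nonneg _).trans (hM _ (hz 0 (Nat.zero_le _)))
  have hz1 : ∀ i ≤ n, ‖((z i : ℝ) : ℂ)‖ ≤ 1 := by
    intro i hi
    rw [Complex.norm_real, Real.norm_eq_abs, abs_le]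
    have := hsub (hz i hi)
    exact ⟨by linarith [this.1], this.2⟩
  have hdist : ∀ i ≤ n, ∀ j ≤ n, |(i : ℝ) - j| * h ≤ |z i - z j| := by
    intro i hi j hj
    rcases le_total i j with hij | hij
    · have h1 := hzs i j hij hj
      have h2 : (i : ℝ) ≤ j := by exact_mod_cast hij
      rw [abs_sub_comm (i : ℝ), abs_of_nonneg (by linarith), abs_sub_comm (z i)]
      exact h1.trans (le_abs_self _)
    · have h1 := hzs j i hij hi
      have h2 : (j : ℝ) ≤ i := by exact_mod_cast hij
      rw [abs_of_nonneg (by linarith)]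
      exact h1.trans (le_abs_self _)
  have hinj : Set.InjOn (fun i : ℕ => ((z i : ℝ) : ℂ)) (Finset.range (n + 1) : Set ℕ) := by
    intro i hi j hj hij
    rw [Finset.coe_range, Set.mem_Iio] at hi hj
    simp only [Complex.ofReal_inj] at hij
    by_contra hne
    have h1 := hdist i (by omega) j (by omega)
    rw [hij, sub_self, abs_zero] at h1
    have h2 : (0 : ℝ) < |(i : ℝ) - j| := abs_pos.2 (sub_ne_zero.2 (by exact_mod_cast hne))
    have := mul_pos h2 hh0
    linarith
  have hdeg : p.degree < (Finset.range (n + 1)).card := by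
    rw [Finset.card_range]
    exact lt_of_le_of_lt (Polynomial.degree_le_of_natDegree_le hp) (by exact_mod_cast Nat.lt_succ_self n)
  have hL := Lagrange.eq_interpolate hinj hdeg
  rw [Lagrange.interpolate_apply] at hL
  have hterm : ∀ i ∈ Finset.range (n + 1),
      ‖(Polynomial.C (p.eval ((z i : ℝ) : ℂ)) *
        Lagrange.basis (Finset.range (n + 1)) (fun i : ℕ => ((z i : ℝ) : ℂ)) i).coeff k‖ ≤
      M * (2 ^ n / (h ^ n * ((i.factorial : ℝ) * (n - i).factorial))) := by
    intro i hi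
    rw [Finset.mem_range] at hi
    have hin : i ≤ n := by omega
    rw [Polynomial.coeff_C_mul, norm_mul]
    refine mul_le_mul (hM _ (hz i hin)) ?_ (norm_nonneg _) hM0
    have e1 : Lagrange.basis (Finset.range (n + 1)) (fun i : ℕ => ((z i : ℝ) : ℂ)) i =
        Polynomial.C (∏ j ∈ (Finset.range (n + 1)).erase i,
          (((z i : ℝ) : ℂ) - ((z j : ℝ) : ℂ))⁻¹) *
        ∏ j ∈ (Finset.range (n + 1)).erase i,
          (Polynomial.X - Polynomial.C ((z j : ℝ) : ℂ)) := by
      rw [Lagrange.basis]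
      simp only [Lagrange.basisDivisor]
      rw [Finset.prod_mul_distrib, map_prod]
    have hcard : ((Finset.range (n + 1)).erase i).card = n := by
      rw [Finset.card_erase_of_mem (Finset.mem_range.2 hi), Finset.card_range]
      rfl
    rw [e1, Polynomial.coeff_C_mul, norm_mul, norm_prod]
    have h2 := h1_coeff (fun j => ((z j : ℝ) : ℂ)) ((Finset.range (n + 1)).erase i) (fun j hj => by
      rw [Finset.mem_erase, Finset.mem_range] at hj
      exact hz1 j (by omega)) k
    rw [hcard] at h2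
    have h3 : h ^ n * ((i.factorial : ℝ) * (n - i).factorial) ≤
        ∏ j ∈ (Finset.range (n + 1)).erase i, |z i - z j| := by
      rw [← h1_fact n i hin]
      nth_rewrite 1 [← hcard]
      rw [← Finset.prod_const, ← Finset.prod_mul_distrib]
      refine Finset.prod_le_prod (fun j _ => by positivity) fun j hj => ?_
      rw [Finset.mem_erase, Finset.mem_range] at hj
      rw [mul_comm]
      exact hdist i hin j (by omega)
    have h4 : 0 < h ^ n * ((i.factorial : ℝ) * (n - i).factorial) := by positivity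
    have h5 : ∏ j ∈ (Finset.range (n + 1)).erase i,
        ‖(((z i : ℝ) : ℂ) - ((z j : ℝ) : ℂ))⁻¹‖ ≤
        (h ^ n * ((i.factorial : ℝ) * (n - i).factorial))⁻¹ := by
      have e2 : ∏ j ∈ (Finset.range (n + 1)).erase i,
          ‖(((z i : ℝ) : ℂ) - ((z j : ℝ) : ℂ))⁻¹‖ =
          (∏ j ∈ (Finset.range (n + 1)).erase i, |z i - z j|)⁻¹ := by
        rw [← Finset.prod_inv_distrib]
        refine Finset.prod_congr rfl fun j _ => ?_
        rw [norm_inv, ← Complex.ofReal_sub, Complex.norm_real, Real.norm_eq_abs]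
      rw [e2]
      exact inv_anti₀ h4 h3
    calc _ ≤ (h ^ n * ((i.factorial : ℝ) * (n - i).factorial))⁻¹ * 2 ^ n :=
          mul_le_mul h5 h2 (norm_nonneg _) (by positivity)
      _ = _ := by rw [div_eq_mul_inv, mul_comm]
  have hsum : ‖p.coeff k‖ ≤ ∑ i ∈ Finset.range (n + 1),
      M * (2 ^ n / (h ^ n * ((i.factorial : ℝ) * (n - i).factorial))) := by
    calc ‖p.coeff k‖ = ‖(∑ i ∈ Finset.range (n + 1), Polynomial.C (p.eval ((z i : ℝ) : ℂ)) *
        Lagrange.basis (Finset.range (n + 1)) (fun i : ℕ => ((z i : ℝ) : ℂ)) i).coeff k‖ := by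
          rw [← hL]
      _ ≤ _ := by
          rw [Polynomial.finsetSum_coeff]
          exact (norm_sum_le _ _).trans (Finset.sum_le_sum hterm)
  refine hsum.trans ?_
  have e3 : ∀ i ∈ Finset.range (n + 1),
      M * (2 ^ n / (h ^ n * ((i.factorial : ℝ) * (n - i).factorial))) =
      (M * (2 ^ n / (h ^ n * n.factorial))) * (n.choose i : ℝ) := by
    intro i hi
    rw [Finset.mem_range] at hi
    rw [Nat.cast_choose ℝ (show i ≤ n by omega)]
    field_simp
  rw [Finset.sum_congr rfl e3, ← Finset.mul_sum]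
  have e4 : ∑ i ∈ Finset.range (n + 1), (n.choose i : ℝ) = 2 ^ n := by
    exact_mod_cast Nat.sum_range_choose n
  rw [e4]
  have e5 : M * (2 ^ n / (h ^ n * n.factorial)) * 2 ^ n =
      ((8 / δ) ^ n * (((n : ℝ) + 1) ^ n / n.factorial)) * M := by
    rw [hh]
    have : (8 : ℝ) ^ n = 2 ^ n * 2 ^ n * 2 ^ n := by
      rw [← mul_pow, ← mul_pow]; norm_num
    rw [div_pow, div_pow, mul_pow, this]
    field_simp
  rw [e5]
  refine mul_le_mul_of_nonneg_right ?_ hM0
  have h6 : ((n : ℝ) + 1) ^ n / n.factorial ≤ Real.exp (n + 1) :=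
    Real.pow_div_factorial_le_exp _ hn1.le n
  have h7 : Real.exp ((n : ℝ) + 1) = Real.exp 1 ^ (n + 1) := by
    rw [← Real.exp_nat_mul]
    push_cast
    ring_nf
  have h8 : (8 / δ) ^ n ≤ (8 / δ + 1) ^ (n + 1) := by
    have h0 : 0 ≤ 8 / δ := by positivity
    calc (8 / δ) ^ n ≤ (8 / δ + 1) ^ n := pow_le_pow_left₀ h0 (by linarith) n
      _ ≤ (8 / δ + 1) ^ (n + 1) := pow_le_pow_right₀ (by linarith) (Nat.le_succ n)
  rw [mul_pow]
  refine mul_le_mul h8 (h6.trans h7.le) (by positivity) (by positivity)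

/-! ## h2: several variables -/

/-- the unit cube -/
def Cube (d : ℕ) : Set (Fin d → ℝ) := Set.pi Set.univ fun _ => Set.Icc (0 : ℝ) 1

private lemma h2_pos_section {d : ℕ} {F : Set (ℝ × (Fin d → ℝ))} (hF : MeasurableSet F)
    (hpos : volume F ≠ 0) :
    ∃ δ : ℝ, 0 < δ ∧
      volume {y : Fin d → ℝ | ENNReal.ofReal δ ≤ volume ((fun x : ℝ => (x, y)) ⁻¹' F)} ≠ 0 := by
  by_contra hcon
  push Not at hcon
  have hm : Measurable fun y : Fin d → ℝ => volume ((fun x : ℝ => (x, y)) ⁻¹' F) :=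
    measurable_measure_prodMk_right hF
  have h1 : volume F = ∫⁻ y : Fin d → ℝ, volume ((fun x : ℝ => (x, y)) ⁻¹' F) :=
    Measure.prod_apply_symm hF
  rw [h1, Ne, lintegral_eq_zero_iff hm] at hpos
  apply hpos
  have h2 : volume (⋃ k : ℕ, {y : Fin d → ℝ |
      ENNReal.ofReal (1 / ((k : ℝ) + 1)) ≤ volume ((fun x : ℝ => (x, y)) ⁻¹' F)}) = 0 :=
    measure_iUnion_null fun k => hcon _ (by positivity)
  rw [Filter.EventuallyEq, ae_iff]
  refine measure_mono_null (fun y hy => ?_) h2
  have h3 : volume ((fun x : ℝ => (x, y)) ⁻¹' F) ≠ 0 := hy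
  obtain ⟨r, hr0, hr⟩ : ∃ r : ℝ, 0 < r ∧
      ENNReal.ofReal r ≤ volume ((fun x : ℝ => (x, y)) ⁻¹' F) := by
    by_cases ht : volume ((fun x : ℝ => (x, y)) ⁻¹' F) = ⊤
    · exact ⟨1, one_pos, by rw [ht]; exact le_top⟩
    · exact ⟨_, ENNReal.toReal_pos h3 ht, by rw [ENNReal.ofReal_toReal ht]⟩
  obtain ⟨k, hk⟩ := exists_nat_one_div_lt hr0
  exact Set.mem_iUnion.2 ⟨k, (ENNReal.ofReal_le_ofReal hk.le).trans hr⟩

/-- MODULE h2. By induction on `d` (`MvPolynomial.finSuccEquiv`, Fubini): the set of `y` such that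
the section `F_y ⊆ [0, 1]` has measure `≥ δ` has positive measure for small `δ`; for these `y` the
coefficients of `p(·, y)` are at most `K^(n+1) M`; they are polynomials in `y` of total
degree `≤ n`. -/
theorem remez {d : ℕ} (F : Set (Fin d → ℝ)) (hF : MeasurableSet F) (hsub : F ⊆ Cube d)
    (hpos : 0 < volume F) :
    ∃ K : ℝ, 1 ≤ K ∧ ∀ (n : ℕ) (p : MvPolynomial (Fin d) ℂ) (M : ℝ), p.totalDegree ≤ n →
      (∀ v ∈ F, ‖MvPolynomial.eval (fun i => (v i : ℂ)) p‖ ≤ M) →
      ∀ m, ‖p.coeff m‖ ≤ K ^ (n + 1) * M := by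
  induction d with
  | zero =>
    refine ⟨1, le_rfl, fun n p M _ hM m => ?_⟩
    obtain ⟨v, hv⟩ : F.Nonempty := by
      by_contra hne
      rw [Set.not_nonempty_iff_eq_empty] at hne
      rw [hne, measure_empty] at hpos
      exact lt_irrefl _ hpos
    have h1 := hM v hv
    have h2 : p = MvPolynomial.C (MvPolynomial.coeff 0 p) := MvPolynomial.eq_C_of_isEmpty p
    rw [h2, MvPolynomial.eval_C] at h1
    rw [one_pow, one_mul, Subsingleton.elim m 0]
    exact h1
  | succ d ih =>
    let φ := MeasurableEquiv.piFinSuccAbove (fun _ : Fin (d + 1) => ℝ) 0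
    have hφ : MeasurePreserving φ volume volume := volume_preserving_piFinSuccAbove _ 0
    have hφs : ∀ z : ℝ × (Fin d → ℝ), φ.symm z = Fin.cons z.1 z.2 := by
      intro z
      exact Fin.insertNth_zero' z.1 z.2
    obtain ⟨F', hF'⟩ : ∃ F' : Set (ℝ × (Fin d → ℝ)), F' = φ.symm ⁻¹' F := ⟨_, rfl⟩
    have hF'm : MeasurableSet F' := by
      rw [hF']
      exact φ.symm.measurable hF
    have hvol : volume F' = volume F := by
      rw [hF']
      exact hφ.symm.measure_preimage_equiv F
    have hmem : ∀ x y, (x, y) ∈ F' ↔ (Fin.cons x y : Fin (d + 1) → ℝ) ∈ F := by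
      intro x y
      rw [hF', Set.mem_preimage, hφs]
    obtain ⟨δ, hδ, hG⟩ := h2_pos_section hF'm (by rw [hvol]; exact hpos.ne')
    obtain ⟨G, hGd⟩ : ∃ G : Set (Fin d → ℝ), G = {y : Fin d → ℝ |
      ENNReal.ofReal δ ≤ volume ((fun x : ℝ => (x, y)) ⁻¹' F')} := ⟨_, rfl⟩
    rw [← hGd] at hG
    have hGm : MeasurableSet G := by
      rw [hGd]
      exact measurableSet_le measurable_const (measurable_measure_prodMk_right hF'm)
    have hGs : G ⊆ Cube d := by
      intro y hy
      rw [hGd] at hy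
      have hy' : ENNReal.ofReal δ ≤ volume ((fun x : ℝ => (x, y)) ⁻¹' F') := hy
      obtain ⟨x, hx⟩ : ((fun x : ℝ => (x, y)) ⁻¹' F').Nonempty := by
        by_contra hne
        rw [Set.not_nonempty_iff_eq_empty] at hne
        rw [hne, measure_empty] at hy'
        exact absurd hy' (not_le.2 (ENNReal.ofReal_pos.2 hδ))
      have h1 := hsub ((hmem x y).1 hx)
      intro i _
      have h2 := h1 i.succ (Set.mem_univ _)
      rwa [Fin.cons_succ] at h2
    obtain ⟨K₂, hK₂, h2⟩ := ih G hGm hGs (pos_iff_ne_zero.2 hG)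
    obtain ⟨K₁, hK₁, h1⟩ := remez_one δ hδ
    refine ⟨K₂ * K₁, one_le_mul_of_one_le_of_one_le hK₂ hK₁, fun n p M hn hM m => ?_⟩
    have key : ∀ i, ∀ y ∈ G, ‖MvPolynomial.eval (fun i => (y i : ℂ))
        ((MvPolynomial.finSuccEquiv ℂ d p).coeff i)‖ ≤ K₁ ^ (n + 1) * M := by
      intro i y hy
      have h3 := h1 ((fun x : ℝ => (x, y)) ⁻¹' F') (measurable_prodMk_right hF'm)
        (fun x hx => by
          have h4 := hsub ((hmem x y).1 hx) 0 (Set.mem_univ _)
          rwa [Fin.cons_zero] at h4)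
        (by rw [hGd] at hy; exact hy) n
        ((MvPolynomial.finSuccEquiv ℂ d p).map (MvPolynomial.eval fun i => (y i : ℂ))) M
        ((Polynomial.natDegree_map_le).trans
          ((MvPolynomial.natDegree_finSuccEquiv p).le.trans
            ((MvPolynomial.degreeOf_le_totalDegree p 0).trans hn)))
        (fun t ht => by
          rw [← MvPolynomial.eval_eq_eval_mv_eval']
          have h5 := hM _ ((hmem t y).1 ht)
          have h6 : (fun i : Fin (d + 1) => (((Fin.cons t y : Fin (d + 1) → ℝ) i : ℝ) : ℂ)) =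
              Fin.cons (t : ℂ) (fun i => (y i : ℂ)) := by
            funext i
            refine Fin.cases ?_ (fun j => ?_) i
            · rw [Fin.cons_zero, Fin.cons_zero]
            · rw [Fin.cons_succ, Fin.cons_succ]
          rwa [h6] at h5) i
      rwa [Polynomial.coeff_map] at h3
    have hdeg : ((MvPolynomial.finSuccEquiv ℂ d p).coeff (m 0)).totalDegree ≤ n := by
      by_cases h0 : (MvPolynomial.finSuccEquiv ℂ d p).coeff (m 0) = 0
      · rw [h0, MvPolynomial.totalDegree_zero]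
        exact Nat.zero_le _
      · have h4 := MvPolynomial.totalDegree_coeff_finSuccEquiv_add_le p (m 0) h0
        omega
    have h5 := h2 n _ _ hdeg (key (m 0)) m.tail
    rw [MvPolynomial.finSuccEquiv_coeff_coeff, Finsupp.cons_tail, ← mul_assoc, ← mul_pow] at h5
    exact h5

/-! ## lines -/

variable {d : ℕ}

/-- the map of variables `x_i ↦ z`, `s ↦ s` -/
def toLine (d : ℕ) : Option (Fin d) → Option (Fin 1) := Option.map fun _ => 0

/-- restriction to the line `x = z v` -/
noncomputable def line (v : Fin d → ℂ) : Ser d →+* Ser 1 :=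
  (MvPowerSeries.rename (R := ℂ) (toLine d)).toRingHom.comp
    (MvPowerSeries.rescale fun o => o.elim 1 v)

/-- the exponent of `x^m s^j` -/
noncomputable def xexp (m : Fin d →₀ ℕ) (j : ℕ) : Option (Fin d) →₀ ℕ :=
  m.mapDomain some + Finsupp.single none j

/-- the coefficient of `z^n s^j` in `f(z v, s)`, as a polynomial in `v` -/
noncomputable def hpart (f : Ser d) (n j : ℕ) : MvPolynomial (Fin d) ℂ :=
  ∑ m ∈ Finset.finsuppAntidiag Finset.univ n,
    MvPolynomial.monomial m (MvPowerSeries.coeff (xexp m j) f)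

private lemma h3_none (m : Fin d →₀ ℕ) (j : ℕ) : xexp m j none = j := by
  rw [xexp, Finsupp.add_apply, Finsupp.single_eq_same,
    Finsupp.mapDomain_of_notMem_range _ _ (by simp), zero_add]

private lemma h3_some (m : Fin d →₀ ℕ) (j : ℕ) (i : Fin d) : xexp m j (some i) = m i := by
  rw [xexp, Finsupp.add_apply, Finsupp.mapDomain_apply (Option.some_injective _),
    Finsupp.single_apply, if_neg (by simp), add_zero]

private lemma h3_eta (m : Option (Fin d) →₀ ℕ) : m = xexp m.some (m none) := by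
  ext o
  cases o with
  | none => rw [h3_none]
  | some i => rw [h3_some, Finsupp.some_apply]

private lemma h3_deg (m : Fin d →₀ ℕ) (j : ℕ) : (xexp m j).degree = m.degree + j := by
  rw [Finsupp.degree_eq_sum, Fintype.sum_option, h3_none, Finsupp.degree_eq_sum, add_comm]
  congr 1
  exact Finset.sum_congr rfl fun i _ => h3_some m j i

private lemma h3_some_xexp (m : Fin d →₀ ℕ) (j : ℕ) : (xexp m j).some = m := by
  ext i
  rw [Finsupp.some_apply, h3_some]

private lemma h3_map (m : Fin d →₀ ℕ) (j : ℕ) :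
    Finsupp.mapDomain (toLine d) (xexp m j)
      = Finsupp.single (some 0) m.degree + Finsupp.single none j := by
  rw [xexp, Finsupp.mapDomain_add, Finsupp.mapDomain_single]
  refine congrArg₂ (· + ·) ?_ rfl
  rw [← Finsupp.mapDomain_comp]
  set y := Finsupp.mapDomain (toLine d ∘ some) m with hy
  have hn : y none = 0 := Finsupp.mapDomain_of_notMem_range _ _ (by
    rintro ⟨i, hi⟩
    exact Option.some_ne_none _ hi)
  have hd : y.degree = m.degree := Finsupp.degree_mapDomain _ _
  rw [Finsupp.degree_eq_sum, Fintype.sum_option, hn, zero_add, Fin.sum_univ_one] at hd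
  ext o
  match o with
  | none => rw [hn, Finsupp.single_apply, if_neg (by simp)]
  | some 0 => rw [hd, Finsupp.single_eq_same]

/-- MODULE h3 -/
lemma coeff_line (v : Fin d → ℂ) (f : Ser d) (μ : Option (Fin 1) →₀ ℕ) :
    MvPowerSeries.coeff μ (line v f) =
      MvPolynomial.eval v (hpart f (μ (some 0)) (μ none)) := by
  classical
  have h0 : line v f = MvPowerSeries.rename (toLine d)
      (MvPowerSeries.rescale (fun o => o.elim 1 v) f) := rfl
  rw [h0, MvPowerSeries.coeff_rename, hpart, map_sum]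
  refine Finset.sum_bij' (fun ν _ => ν.some) (fun m _ => xexp m (μ none)) ?_ ?_ ?_ ?_ ?_
  · intro ν hν
    rw [Set.Finite.mem_toFinset, Set.mem_preimage, Set.mem_singleton_iff] at hν
    rw [h3_eta ν, h3_map] at hν
    rw [Finset.mem_finsuppAntidiag]
    refine ⟨?_, Finset.subset_univ _⟩
    rw [← Finsupp.degree_eq_sum, ← hν, Finsupp.add_apply, Finsupp.single_eq_same,
      Finsupp.single_apply, if_neg (by simp), add_zero]
  · intro m hm
    rw [Finset.mem_finsuppAntidiag, ← Finsupp.degree_eq_sum] at hm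
    rw [Set.Finite.mem_toFinset, Set.mem_preimage, Set.mem_singleton_iff, h3_map, hm.1]
    ext o
    match o with
    | none => simp
    | some 0 => simp
  · intro ν hν
    rw [Set.Finite.mem_toFinset, Set.mem_preimage, Set.mem_singleton_iff] at hν
    have h1 : ν none = μ none := by
      rw [h3_eta ν, h3_map] at hν
      rw [← hν]
      simp
    rw [← h1]
    exact (h3_eta ν).symm
  · intro m _
    exact h3_some_xexp m _
  · intro ν hν
    rw [Set.Finite.mem_toFinset, Set.mem_preimage, Set.mem_singleton_iff] at hν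
    have h1 : ν none = μ none := by
      rw [h3_eta ν, h3_map] at hν
      rw [← hν]
      simp
    rw [MvPowerSeries.coeff_rescale, MvPolynomial.eval_monomial, ← h1, ← h3_eta ν, mul_comm]
    congr 1
    rw [Finsupp.prod_fintype _ _ (fun _ => pow_zero _), Finsupp.prod_fintype _ _ (fun _ => pow_zero _),
      Fintype.prod_option]
    simp

/-- MODULE h3 -/
lemma coeff_hpart (f : Ser d) (n j : ℕ) (m : Fin d →₀ ℕ) :
    (hpart f n j).coeff m = if m.degree = n then MvPowerSeries.coeff (xexp m j) f else 0 := by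
  classical
  rw [hpart, MvPolynomial.coeff_sum]
  simp only [MvPolynomial.coeff_monomial]
  rw [Finset.sum_ite_eq' ]
  simp only [Finset.mem_finsuppAntidiag, Finset.subset_univ, and_true]
  rw [Finsupp.degree_eq_sum]

/-- MODULE h3 -/
lemma hpart_totalDegree (f : Ser d) (n j : ℕ) : (hpart f n j).totalDegree ≤ n := by
  refine Finset.sup_le fun m hm => ?_
  rw [MvPolynomial.mem_support_iff, coeff_hpart] at hm
  split_ifs at hm with h
  · exact le_of_eq h
  · exact absurd rfl hm

/-- MODULE h3 -/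
lemma exists_xexp (m : Option (Fin d) →₀ ℕ) :
    ∃ m' : Fin d →₀ ℕ, m = xexp m' (m none) ∧ m.degree = m'.degree + m none := by
  refine ⟨m.some, h3_eta m, ?_⟩
  conv_lhs => rw [h3_eta m]
  rw [h3_deg]

private lemma h4_meas_cube (d : ℕ) : MeasurableSet (Cube d) :=
  MeasurableSet.univ_pi fun _ => measurableSet_Icc

private lemma h4_vol_cube (d : ℕ) : volume (Cube d) = 1 := by
  rw [Cube, volume_pi_pi]
  simp

private lemma h4_cont (p : MvPolynomial (Fin d) ℂ) :
    Continuous fun v : Fin d → ℝ => ‖MvPolynomial.eval (fun i => (v i : ℂ)) p‖ := by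
  refine continuous_norm.comp ((MvPolynomial.continuous_eval p).comp ?_)
  exact continuous_pi fun i => Complex.continuous_ofReal.comp (continuous_apply i)

private lemma h4_exp (n j : ℕ) : ∃ μ : Option (Fin 1) →₀ ℕ, μ (some 0) = n ∧ μ none = j ∧
    μ.degree = n + j := by
  refine ⟨Finsupp.single (some 0) n + Finsupp.single none j, ?_, ?_, ?_⟩
  · simp
  · simp
  · rw [map_add, Finsupp.degree_single, Finsupp.degree_single]

/-- MODULE h4. A nonzero power series is nonzero on almost every line (some `hpart f n j` is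
nonzero; use `remez` with `M = 0`). -/
theorem line_ne_zero {f : Ser d} (hf : f ≠ 0) :
    ∀ᵐ v ∂(volume.restrict (Cube d)), line (fun i => (v i : ℂ)) f ≠ 0 := by
  obtain ⟨μ, hμ⟩ : ∃ μ, MvPowerSeries.coeff μ f ≠ 0 := by
    by_contra hcon
    push Not at hcon
    exact hf (MvPowerSeries.ext fun μ => by rw [hcon μ, map_zero])
  obtain ⟨m, hm, -⟩ := exists_xexp μ
  obtain ⟨Q, hQ⟩ : ∃ Q, Q = hpart f m.degree (μ none) := ⟨_, rfl⟩
  have hQ0 : Q.coeff m ≠ 0 := by
    rw [hQ, coeff_hpart, if_pos rfl, ← hm]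
    exact hμ
  rw [ae_restrict_iff' (h4_meas_cube d), ae_iff]
  obtain ⟨Z, hZ⟩ : ∃ Z : Set (Fin d → ℝ),
    Z = Cube d ∩ {v | ‖MvPolynomial.eval (fun i => (v i : ℂ)) Q‖ ≤ 0} := ⟨_, rfl⟩
  have hZm : MeasurableSet Z := by
    rw [hZ]
    exact (h4_meas_cube d).inter (isClosed_le (h4_cont Q) continuous_const).measurableSet
  have hZ0 : volume Z = 0 := by
    by_contra hne
    obtain ⟨K, -, hK⟩ := remez Z hZm (by rw [hZ]; exact Set.inter_subset_left)
      (pos_iff_ne_zero.2 hne)
    have h1 := hK Q.totalDegree Q 0 le_rfl (fun v hv => by rw [hZ] at hv; exact hv.2) m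
    rw [mul_zero] at h1
    exact hQ0 (norm_le_zero_iff.1 h1)
  refine measure_mono_null (fun v hv => ?_) hZ0
  have hv' : ¬ (v ∈ Cube d → line (fun i => (v i : ℂ)) f ≠ 0) := hv
  rw [Classical.not_imp, not_not] at hv'
  rw [hZ]
  refine ⟨hv'.1, ?_⟩
  obtain ⟨ν, hν1, hν2, -⟩ := h4_exp m.degree (μ none)
  have h2 := coeff_line (fun i => (v i : ℂ)) f ν
  rw [hν1, hν2, hv'.2, map_zero, ← hQ] at h2
  show ‖MvPolynomial.eval (fun i => (v i : ℂ)) Q‖ ≤ 0
  rw [← h2, norm_zero]

/-- MODULE h4. LEMMA H. A power series which is a formal symbol on almost every line is a formal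
symbol. With `E R j C = {v | ∀ n, ‖F_{n,j}(v)‖ ≤ C R^(n+j)}` (closed): for some `R : ℕ` the set
`⋂_j ⋃_C E R j C ∩ Cube` has positive measure; for each `j` choose `C_j` with loss
`≤ ε 2^(-j-2)`; then `remez` for the intersection, with the constants `C_j R^(n+j)`. -/
theorem formal_of_lines (f : Ser d)
    (h : ∀ᵐ v ∂(volume.restrict (Cube d)), IsFormal (line (fun i => (v i : ℂ)) f)) :
    IsFormal f := by
  rw [ae_restrict_iff' (h4_meas_cube d)] at h
  let E : ℕ → ℕ → ℕ → Set (Fin d → ℝ) := fun R j C => Cube d ∩ ⋂ n : ℕ,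
    {v | ‖MvPolynomial.eval (fun i => (v i : ℂ)) (hpart f n j)‖ ≤ (C : ℝ) * (R : ℝ) ^ (n + j)}
  have hEm : ∀ R j C, MeasurableSet (E R j C) := fun R j C =>
    (h4_meas_cube d).inter (MeasurableSet.iInter fun n =>
      (isClosed_le (h4_cont (hpart f n j)) continuous_const).measurableSet)
  have hEmem : ∀ R j C v, v ∈ E R j C ↔ v ∈ Cube d ∧ ∀ n : ℕ,
      ‖MvPolynomial.eval (fun i => (v i : ℂ)) (hpart f n j)‖ ≤ (C : ℝ) * (R : ℝ) ^ (n + j) := by
    intro R j C v
    simp only [E, Set.mem_inter_iff, Set.mem_iInter, Set.mem_setOf_eq]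
  have hEmono : ∀ R j, Monotone (E R j) := by
    intro R j C C' hC v hv
    rw [hEmem] at hv ⊢
    refine ⟨hv.1, fun n => (hv.2 n).trans ?_⟩
    exact mul_le_mul_of_nonneg_right (Nat.cast_le.2 hC) (by positivity)
  let S : ℕ → Set (Fin d → ℝ) := fun R => ⋂ j : ℕ, ⋃ C : ℕ, E R j C
  have hSm : ∀ R, MeasurableSet (S R) := fun R =>
    MeasurableSet.iInter fun j => MeasurableSet.iUnion fun C => hEm R j C
  have hScube : ∀ R, S R ⊆ Cube d := by
    intro R v hv
    obtain ⟨C, hC⟩ := Set.mem_iUnion.1 (Set.mem_iInter.1 hv 0)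
    exact ((hEmem R 0 C v).1 hC).1
  have hcover : ∀ v ∈ Cube d, IsFormal (line (fun i => (v i : ℂ)) f) → ∃ R : ℕ, v ∈ S (R + 1) := by
    intro v hv hfv
    obtain ⟨R, hR, hRj⟩ := hfv
    obtain ⟨N, hN⟩ := exists_nat_ge R
    refine ⟨N, Set.mem_iInter.2 fun j => ?_⟩
    obtain ⟨C, hC⟩ := hRj j
    obtain ⟨C', hC'⟩ := exists_nat_ge |C|
    refine Set.mem_iUnion.2 ⟨C', (hEmem _ _ _ v).2 ⟨hv, fun n => ?_⟩⟩
    obtain ⟨ν, hν1, hν2, hν3⟩ := h4_exp n j
    have h1 := hC ν hν2
    rw [coeff_line, hν1, hν2, hν3] at h1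
    refine h1.trans ?_
    have h2 : C ≤ C' := (le_abs_self C).trans hC'
    have h3 : R ≤ ((N + 1 : ℕ) : ℝ) := by push_cast; linarith
    calc C * R ^ (n + j) ≤ C' * R ^ (n + j) := mul_le_mul_of_nonneg_right h2 (by positivity)
      _ ≤ C' * ((N + 1 : ℕ) : ℝ) ^ (n + j) :=
        mul_le_mul_of_nonneg_left (pow_le_pow_left₀ hR.le h3 _) (by positivity)
  obtain ⟨R, hR⟩ : ∃ R : ℕ, volume (S (R + 1)) ≠ 0 := by
    by_contra hcon
    push Not at hcon
    have h1 : volume (⋃ R : ℕ, S (R + 1)) = 0 := measure_iUnion_null hcon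
    rw [ae_iff] at h
    have h2 : volume (Cube d) ≤ 0 := by
      calc volume (Cube d) ≤ volume ((⋃ R : ℕ, S (R + 1)) ∪
            {v | ¬ (v ∈ Cube d → IsFormal (line (fun i => (v i : ℂ)) f))}) := by
            refine measure_mono fun v hv => ?_
            by_cases hfv : IsFormal (line (fun i => (v i : ℂ)) f)
            · obtain ⟨R, hR⟩ := hcover v hv hfv
              exact Or.inl (Set.mem_iUnion.2 ⟨R, hR⟩)
            · exact Or.inr fun hh => hfv (hh hv)
        _ ≤ _ := measure_union_le _ _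
        _ = 0 := by rw [h1, h, add_zero]
    rw [h4_vol_cube] at h2
    exact absurd h2 (by simp)
  have hfin : ∀ A : Set (Fin d → ℝ), A ⊆ Cube d → volume A ≠ ⊤ := by
    intro A hA
    refine ne_top_of_le_ne_top ?_ (measure_mono hA)
    rw [h4_vol_cube]
    exact ENNReal.one_ne_top
  obtain ⟨ε, hε0, hεs⟩ := ENNReal.exists_pos_sum_of_countable hR ℕ
  have hC : ∀ j : ℕ, ∃ C : ℕ, volume (S (R + 1) \ E (R + 1) j C) < ε j := by
    intro j
    have h1 : Filter.Tendsto (fun C : ℕ => volume (S (R + 1) \ E (R + 1) j C)) Filter.atTop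
        (nhds (volume (⋂ C : ℕ, S (R + 1) \ E (R + 1) j C))) := by
      refine tendsto_measure_iInter_atTop
        (fun C => ((hSm _).diff (hEm _ _ _)).nullMeasurableSet) ?_ ⟨0, ?_⟩
      · intro C C' hCC
        exact Set.sdiff_subset_sdiff_right (hEmono _ _ hCC)
      · exact hfin _ (Set.sdiff_subset.trans (hScube _))
    have h2 : (⋂ C : ℕ, S (R + 1) \ E (R + 1) j C) = ∅ := by
      rw [Set.eq_empty_iff_forall_notMem]
      intro v hv
      have h3 : v ∈ S (R + 1) := (Set.mem_iInter.1 hv 0).1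
      obtain ⟨C, hC⟩ := Set.mem_iUnion.1 (Set.mem_iInter.1 h3 j)
      exact (Set.mem_iInter.1 hv C).2 hC
    rw [h2, measure_empty] at h1
    exact (h1.eventually (gt_mem_nhds (ENNReal.coe_pos.2 (hε0 j)))).exists
  choose C hC using hC
  obtain ⟨F, hF⟩ : ∃ F : Set (Fin d → ℝ), F = S (R + 1) ∩ ⋂ j : ℕ, E (R + 1) j (C j) := ⟨_, rfl⟩
  have hFm : MeasurableSet F := by
    rw [hF]
    exact (hSm _).inter (MeasurableSet.iInter fun j => hEm _ _ _)
  have hFc : F ⊆ Cube d := by
    rw [hF]
    exact Set.inter_subset_left.trans (hScube _)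
  have hFpos : 0 < volume F := by
    rw [pos_iff_ne_zero]
    intro h0
    have h1 : volume (S (R + 1)) ≤ volume F + volume (⋃ j : ℕ, S (R + 1) \ E (R + 1) j (C j)) := by
      refine le_trans (measure_mono fun v hv => ?_) (measure_union_le _ _)
      by_cases hv2 : ∀ j : ℕ, v ∈ E (R + 1) j (C j)
      · refine Or.inl ?_
        rw [hF]
        exact ⟨hv, Set.mem_iInter.2 hv2⟩
      · push Not at hv2
        obtain ⟨j, hj⟩ := hv2
        exact Or.inr (Set.mem_iUnion.2 ⟨j, hv, hj⟩)
    have h2 : volume (⋃ j : ℕ, S (R + 1) \ E (R + 1) j (C j)) ≤ ∑' j, (ε j : ENNReal) :=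
      (measure_iUnion_le _).trans (ENNReal.tsum_le_tsum fun j => (hC j).le)
    rw [h0, zero_add] at h1
    exact absurd hεs (not_lt.2 (h1.trans h2))
  obtain ⟨K, hK1, hK⟩ := remez F hFm hFc hFpos
  refine ⟨K * ((R + 1 : ℕ) : ℝ), by positivity, fun j => ⟨K * C j, fun m hm => ?_⟩⟩
  obtain ⟨m', hm', hdeg⟩ := exists_xexp m
  have h1 := hK m'.degree (hpart f m'.degree j) (C j * ((R + 1 : ℕ) : ℝ) ^ (m'.degree + j))
    (hpart_totalDegree f _ _) (fun v hv => by
      rw [hF] at hv
      exact ((hEmem _ _ _ v).1 (Set.mem_iInter.1 hv.2 j)).2 m'.degree) m'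
  rw [coeff_hpart, if_pos rfl, ← hm, ← hm'] at h1
  refine h1.trans ?_
  rw [hdeg, hm, mul_pow]
  have h2 : K ^ (m'.degree + 1) ≤ K * K ^ (m'.degree + j) := by
    rw [pow_succ']
    exact mul_le_mul_of_nonneg_left (pow_le_pow_right₀ hK1 (Nat.le_add_right _ _))
      (zero_le_one.trans hK1)
  calc K ^ (m'.degree + 1) * (C j * ((R + 1 : ℕ) : ℝ) ^ (m'.degree + j))
      ≤ K * K ^ (m'.degree + j) * (C j * ((R + 1 : ℕ) : ℝ) ^ (m'.degree + j)) :=
        mul_le_mul_of_nonneg_right h2 (by positivity)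
    _ = K * C j * (K ^ (m'.degree + j) * ((R + 1 : ℕ) : ℝ) ^ (m'.degree + j)) := by ring

end Pool.Agent.Fbc
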