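import Pool.Agent.Fbc.Cv

/-!
# Ramification `z ↦ z^q` (module r1), Puiseux' theorem (modules r2, r3, r4)
-/

set_option autoImplicit false

namespace Pool.Agent.Fbc

open Polynomial

section ram

variable {k : Type} [Field k]

/-- multiplication by `q` on `ℤ` -/
def mulq (q : ℕ) : ℤ →+ ℤ := AddMonoidHom.mulLeft (q : ℤ)

lemma mulq_inj {q : ℕ} (hq : 0 < q) : Function.Injective (mulq q) := fun a b h => by
  have h' : (q : ℤ) * a = q * b := h
  exact mul_left_cancel₀ (by exact_mod_cast hq.ne') h'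

lemma mulq_le {q : ℕ} (hq : 0 < q) (a b : ℤ) : mulq q a ≤ mulq q b ↔ a ≤ b := by
  change (q : ℤ) * a ≤ q * b ↔ a ≤ b
  exact mul_le_mul_iff_right₀ (by exact_mod_cast hq)

/-- the ramification homomorphism `z ↦ z^q` -/
noncomputable def ram (q : ℕ) (hq : 0 < q) : LS k →+* LS k :=
  ((LS.toH (k := k)).symm.toRingHom.comp
    (HahnSeries.embDomainRingHom (mulq q) (mulq_inj hq) (mulq_le hq))).comp
      (LS.toH (k := k)).toRingHom

variable (q : ℕ) (hq : 0 < q)

/-! ### module r1 -/

lemma ram_coeff_mul (x : LS k) (n : ℤ) : (ram q hq x).coeff (q * n) = x.coeff n := by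
  exact HahnSeries.embDomain_coeff (f := ⟨⟨mulq q, mulq_inj hq⟩, mulq_le hq _ _⟩)
    (x := LS.toH x) (a := n)

lemma ram_coeff_of_not_dvd (x : LS k) (n : ℤ) (h : ¬ (q : ℤ) ∣ n) :
    (ram q hq x).coeff n = 0 := by
  refine HahnSeries.embDomain_of_notMem_range (f := ⟨⟨mulq q, mulq_inj hq⟩, mulq_le hq _ _⟩)
    (x := LS.toH x) (b := n) ?_
  rintro ⟨m, hm⟩
  exact h ⟨m, hm.symm⟩

lemma ram_Vge (x : LS k) (c : ℝ) : Vge (q * c) (ram q hq x) ↔ Vge c x := by
  have hq' : (0 : ℝ) < q := by exact_mod_cast hq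
  constructor
  · intro h n hn
    rw [← ram_coeff_mul q hq]
    refine h _ ?_
    push_cast
    exact mul_lt_mul_of_pos_left hn hq'
  · intro h n hn
    by_cases hd : (q : ℤ) ∣ n
    · obtain ⟨m, rfl⟩ := hd
      rw [ram_coeff_mul]
      refine h m ?_
      push_cast at hn
      exact lt_of_mul_lt_mul_left hn hq'.le
    · exact ram_coeff_of_not_dvd q hq x n hd

lemma ram_zd (x : LS k) : zd (ram q hq x) = (q : LS k) * ram q hq (zd x) := by
  have hC : (q : LS k) = LS.C (q : k) := (map_natCast (LS.C (k := k)) q).symm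
  ext n
  rw [hC, LS.coeff_C_mul, zd_coeff]
  by_cases hd : (q : ℤ) ∣ n
  · obtain ⟨m, rfl⟩ := hd
    rw [ram_coeff_mul, ram_coeff_mul, zd_coeff]
    push_cast
    ring
  · rw [ram_coeff_of_not_dvd q hq x n hd, ram_coeff_of_not_dvd q hq _ n hd, mul_zero, mul_zero]

lemma ram_single (n : ℤ) (a : k) : ram q hq (LS.single n a) = LS.single (q * n) a := by
  have hq' : (q : ℤ) ≠ 0 := by exact_mod_cast hq.ne'
  ext m
  by_cases hd : (q : ℤ) ∣ m
  · obtain ⟨l, rfl⟩ := hd
    rw [ram_coeff_mul, LS.coeff_single, LS.coeff_single]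
    by_cases hl : l = n
    · rw [if_pos hl, if_pos (by rw [hl])]
    · rw [if_neg hl, if_neg fun he => hl (mul_left_cancel₀ hq' he)]
  · rw [ram_coeff_of_not_dvd q hq _ m hd, LS.coeff_single, if_neg]
    rintro rfl
    exact hd (dvd_mul_right _ _)

lemma ram_C (a : k) : ram q hq (LS.C a) = LS.C a := by
  rw [LS.C_apply, ram_single, mul_zero]

end ram

lemma ram_Lsum (q : ℕ) (hq : 0 < q) {ρ : ℝ} (hρ : 0 < ρ) (x : K) :
    Lsum ρ (ram q hq x) ↔ Lsum (ρ ^ q) x := by
  have hi : Function.Injective (fun n : ℤ => (q : ℤ) * n) := mulq_inj hq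
  have h1 := hi.summable_iff (f := fun n : ℤ => ‖(ram q hq x).coeff n‖ * ρ ^ n) (by
    intro n hn
    have hd : ¬ (q : ℤ) ∣ n := by
      rintro ⟨m, rfl⟩
      exact hn ⟨m, rfl⟩
    rw [ram_coeff_of_not_dvd q hq x n hd, norm_zero, zero_mul])
  unfold Lsum
  rw [← h1]
  refine summable_congr fun n => ?_
  show ‖(ram q hq x).coeff (q * n)‖ * ρ ^ ((q : ℤ) * n) = _
  rw [ram_coeff_mul, zpow_mul, zpow_natCast]

/-! ### Puiseux -/

/-- The slice: the coefficient of `z ^ n` of a polynomial over `K`. -/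
private noncomputable def r2_sl (P : K[X]) (n : ℕ) : ℂ[X] :=
  ∑ j ∈ Finset.range (P.natDegree + 1), Polynomial.C ((P.coeff j).coeff n) * Polynomial.X ^ j

private lemma r2_sl_coeff (P : K[X]) (n j : ℕ) : (r2_sl P n).coeff j = (P.coeff j).coeff n := by
  unfold r2_sl
  rw [Polynomial.finsetSum_coeff]
  by_cases hj : j ∈ Finset.range (P.natDegree + 1)
  · rw [Finset.sum_eq_single j]
    · rw [Polynomial.coeff_C_mul, Polynomial.coeff_X_pow, if_pos rfl, mul_one]
    · intro i _ hij
      rw [Polynomial.coeff_C_mul, Polynomial.coeff_X_pow, if_neg hij.symm, mul_zero]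
    · intro h
      exact absurd hj h
  · rw [Finset.sum_eq_zero]
    · have h1 : P.natDegree < j := by
        rw [Finset.mem_range] at hj
        omega
      rw [Polynomial.coeff_eq_zero_of_natDegree_lt h1, LS.coeff_zero]
    · intro i hi
      have hij : j ≠ i := fun h => hj (h ▸ hi)
      rw [Polynomial.coeff_C_mul, Polynomial.coeff_X_pow, if_neg hij, mul_zero]

private lemma r2_mul_coeff {x y : K} (hx : Vge 0 x) (hy : Vge 0 y) (n : ℕ) :
    (x * y).coeff n = ∑ p ∈ Finset.HasAntidiagonal.antidiagonal n, x.coeff p.1 * y.coeff p.2 := by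
  have hx' : ∀ m : ℤ, m < 0 → x.coeff m = 0 := fun m hm => hx m (by exact_mod_cast hm)
  have hy' : ∀ m : ℤ, m < 0 → y.coeff m = 0 := fun m hm => hy m (by exact_mod_cast hm)
  rw [LS.coeff_mul hx' hy', sub_zero]
  symm
  refine Finset.sum_bij (fun p _ => (p.1 : ℤ)) ?_ ?_ ?_ ?_
  · rintro ⟨i, j⟩ hp
    rw [Finset.HasAntidiagonal.mem_antidiagonal] at hp
    rw [Finset.mem_Icc]
    simp only at hp ⊢
    omega
  · rintro ⟨i, j⟩ hp ⟨i', j'⟩ hp' h
    rw [Finset.HasAntidiagonal.mem_antidiagonal] at hp hp'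
    simp only at hp hp' h
    rw [Prod.mk.injEq]
    omega
  · intro i hi
    rw [Finset.mem_Icc] at hi
    refine ⟨(i.toNat, (n - i).toNat), ?_, ?_⟩
    · rw [Finset.HasAntidiagonal.mem_antidiagonal]
      simp only
      omega
    · simp only
      omega
  · rintro ⟨i, j⟩ hp
    rw [Finset.HasAntidiagonal.mem_antidiagonal] at hp
    simp only at hp ⊢
    have e : (n : ℤ) - i = j := by omega
    rw [e]

private lemma r2_sl_mul {P Q : K[X]} (hP : ∀ j, Vge 0 (P.coeff j)) (hQ : ∀ j, Vge 0 (Q.coeff j))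
    (n : ℕ) : r2_sl (P * Q) n = ∑ p ∈ Finset.HasAntidiagonal.antidiagonal n, r2_sl P p.1 * r2_sl Q p.2 := by
  ext j
  rw [r2_sl_coeff, Polynomial.finsetSum_coeff, Polynomial.coeff_mul, LS.coeff_sum]
  have h1 : ∀ q ∈ Finset.HasAntidiagonal.antidiagonal j, (P.coeff q.1 * Q.coeff q.2).coeff n =
      ∑ p ∈ Finset.HasAntidiagonal.antidiagonal n, (P.coeff q.1).coeff p.1 * (Q.coeff q.2).coeff p.2 :=
    fun q _ => r2_mul_coeff (hP _) (hQ _) n
  rw [Finset.sum_congr rfl h1, Finset.sum_comm]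
  refine Finset.sum_congr rfl fun p _ => ?_
  rw [Polynomial.coeff_mul]
  refine Finset.sum_congr rfl fun q _ => ?_
  rw [r2_sl_coeff, r2_sl_coeff]

private lemma r2_ext {P Q : K[X]} (hP : ∀ j, Vge 0 (P.coeff j)) (hQ : ∀ j, Vge 0 (Q.coeff j))
    (h : ∀ n, r2_sl P n = r2_sl Q n) : P = Q := by
  ext j n
  by_cases hn : n < 0
  · rw [hP j n (by exact_mod_cast hn), hQ j n (by exact_mod_cast hn)]
  · obtain ⟨m, rfl⟩ := Int.eq_ofNat_of_zero_le (not_lt.1 hn)
    rw [← r2_sl_coeff, ← r2_sl_coeff, h m]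

/-- The polynomial over `K` with given slices. -/
private noncomputable def r2_mk (A : ℕ → ℂ[X]) (D : ℕ) : K[X] :=
  ∑ j ∈ Finset.range (D + 1), Polynomial.C
    (LS.mk (fun n : ℤ => if 0 ≤ n then (A n.toNat).coeff j else 0)
      ⟨0, fun _ hn => if_neg (not_le.2 hn)⟩) * Polynomial.X ^ j

private lemma r2_mk_coeff {A : ℕ → ℂ[X]} {D : ℕ} (hA : ∀ n, (A n).natDegree ≤ D) (j : ℕ)
    (n : ℤ) :
    ((r2_mk A D).coeff j).coeff n = if 0 ≤ n then (A n.toNat).coeff j else 0 := by
  unfold r2_mk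
  rw [Polynomial.finsetSum_coeff]
  by_cases hj : j ∈ Finset.range (D + 1)
  · rw [Finset.sum_eq_single j]
    · rw [Polynomial.coeff_C_mul, Polynomial.coeff_X_pow, if_pos rfl, mul_one, LS.coeff_mk]
    · intro i _ hij
      rw [Polynomial.coeff_C_mul, Polynomial.coeff_X_pow, if_neg hij.symm, mul_zero]
    · intro h
      exact absurd hj h
  · have h1 : D < j := by
      rw [Finset.mem_range] at hj
      omega
    rw [Finset.sum_eq_zero]
    · rw [LS.coeff_zero, Polynomial.coeff_eq_zero_of_natDegree_lt (lt_of_le_of_lt (hA _) h1),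
        ite_self]
    · intro i hi
      have hij : j ≠ i := fun h => hj (h ▸ hi)
      rw [Polynomial.coeff_C_mul, Polynomial.coeff_X_pow, if_neg hij, mul_zero]

private lemma r2_mk_int {A : ℕ → ℂ[X]} {D : ℕ} (hA : ∀ n, (A n).natDegree ≤ D) (j : ℕ) :
    Vge 0 ((r2_mk A D).coeff j) := by
  intro n hn
  rw [r2_mk_coeff hA, if_neg]
  have : n < 0 := by exact_mod_cast hn
  omega

private lemma r2_mk_sl {A : ℕ → ℂ[X]} {D : ℕ} (hA : ∀ n, (A n).natDegree ≤ D) (n : ℕ) :
    r2_sl (r2_mk A D) n = A n := by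
  ext j
  rw [r2_sl_coeff, r2_mk_coeff hA, if_pos (by omega), Int.toNat_natCast]

private lemma r2_mk_deg (A : ℕ → ℂ[X]) (D : ℕ) : (r2_mk A D).natDegree ≤ D := by
  unfold r2_mk
  refine Polynomial.natDegree_sum_le_of_forall_le _ _ fun j hj => ?_
  refine (Polynomial.natDegree_C_mul_X_pow_le _ _).trans ?_
  have := Finset.mem_range.1 hj
  omega

private lemma r2_mk_monic {A : ℕ → ℂ[X]} {g : ℂ[X]} (hg : g.Monic) (h0 : A 0 = g)
    (h1 : ∀ n, 0 < n → (A n).degree < g.degree) :
    (∀ n, (A n).natDegree ≤ g.natDegree) ∧ (r2_mk A g.natDegree).Monic ∧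
      (r2_mk A g.natDegree).natDegree = g.natDegree := by
  have hA : ∀ n, (A n).natDegree ≤ g.natDegree := by
    intro n
    rcases Nat.eq_zero_or_pos n with rfl | hn
    · rw [h0]
    · exact Polynomial.natDegree_le_natDegree (h1 n hn).le
  have hc : (r2_mk A g.natDegree).coeff g.natDegree = 1 := by
    ext n
    rw [r2_mk_coeff hA, LS.coeff_one]
    by_cases hn : 0 ≤ n
    · rw [if_pos hn]
      obtain ⟨m, rfl⟩ := Int.eq_ofNat_of_zero_le hn
      rw [Int.toNat_natCast]
      rcases Nat.eq_zero_or_pos m with rfl | hm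
      · rw [if_pos (by norm_num), h0]
        exact hg
      · rw [if_neg (by omega)]
        refine Polynomial.coeff_eq_zero_of_degree_lt ?_
        rw [← Polynomial.degree_eq_natDegree hg.ne_zero]
        exact h1 m hm
    · rw [if_neg hn, if_neg (by omega)]
  refine ⟨hA, Polynomial.monic_of_natDegree_le_of_coeff_eq_one _ (r2_mk_deg A _) hc, ?_⟩
  exact Polynomial.natDegree_eq_of_le_of_coeff_ne_zero (r2_mk_deg A _) (by rw [hc]; exact one_ne_zero)

/-- One step of the recursion. -/
private lemma r2_bezout {g h : ℂ[X]} (hg : g.Monic) (hh : h.Monic) (hco : IsCoprime g h) (r : ℂ[X])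
    (hr : r.degree < (g * h).degree) :
    ∃ A B : ℂ[X], A.degree < g.degree ∧ B.degree < h.degree ∧ A * h + g * B = r := by
  obtain ⟨a, b, hab⟩ := hco
  have e : (r * b) %ₘ g * h + g * (r * a + h * ((r * b) /ₘ g)) = r := by
    have h1 := Polynomial.modByMonic_add_div (r * b) g
    calc _ = ((r * b) %ₘ g + g * ((r * b) /ₘ g)) * h + g * (r * a) := by ring
      _ = r * (a * g + b * h) := by rw [h1]; ring
      _ = r := by rw [hab, mul_one]
  have hA : ((r * b) %ₘ g).degree < g.degree := Polynomial.degree_modByMonic_lt _ hg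
  refine ⟨(r * b) %ₘ g, r * a + h * ((r * b) /ₘ g), hA, ?_, e⟩
  have h1 : (g * (r * a + h * ((r * b) /ₘ g))).degree < (g * h).degree := by
    have h2 : g * (r * a + h * ((r * b) /ₘ g)) = r - (r * b) %ₘ g * h := by
      rw [eq_sub_iff_add_eq, add_comm]
      exact e
    rw [h2]
    refine lt_of_le_of_lt (Polynomial.degree_sub_le _ _) (max_lt hr ?_)
    rw [Polynomial.degree_mul, Polynomial.degree_mul]
    have hh0 : h.degree ≠ ⊥ := by
      rw [Ne, Polynomial.degree_eq_bot]
      exact hh.ne_zero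
    exact WithBot.add_lt_add_right hh0 hA
  rw [Polynomial.degree_mul, Polynomial.degree_mul] at h1
  exact lt_of_add_lt_add_left h1

private lemma r2_seq {g h : ℂ[X]} (hg : g.Monic) (hh : h.Monic) (hco : IsCoprime g h)
    (p : ℕ → ℂ[X]) (h0 : p 0 = g * h) (hp : ∀ n, 0 < n → (p n).degree < (g * h).degree) :
    ∃ A B : ℕ → ℂ[X], A 0 = g ∧ B 0 = h ∧ (∀ n, 0 < n → (A n).degree < g.degree) ∧
      (∀ n, 0 < n → (B n).degree < h.degree) ∧
      ∀ n, p n = ∑ q ∈ Finset.HasAntidiagonal.antidiagonal n, A q.1 * B q.2 := by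
  classical
  choose! SA SB h1 h2 h3 using r2_bezout hg hh hco
  let R : (n : ℕ) → (ℕ → ℂ[X] × ℂ[X]) → ℂ[X] := fun n f =>
    p n - ∑ i ∈ Finset.Ioo 0 n, (f i).1 * (f (n - i)).2
  let F : (n : ℕ) → ((m : ℕ) → m < n → ℂ[X] × ℂ[X]) → ℂ[X] × ℂ[X] := fun n prev =>
    if n = 0 then (g, h) else
      (SA (R n fun m => if hm : m < n then prev m hm else 0),
        SB (R n fun m => if hm : m < n then prev m hm else 0))
  let f : ℕ → ℂ[X] × ℂ[X] := WellFounded.fix Nat.lt_wfRel.wf F
  have hf : ∀ n, f n = F n (fun m _ => f m) := fun n => WellFounded.fix_eq _ _ n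
  have hf0 : f 0 = (g, h) := by rw [hf]; exact if_pos rfl
  have hfn : ∀ n, 0 < n → f n = (SA (R n f), SB (R n f)) := by
    intro n hn
    have hR : (R n fun m => if hm : m < n then f m else 0) = R n f := by
      show p n - _ = p n - _
      congr 1
      refine Finset.sum_congr rfl fun i hi => ?_
      rw [Finset.mem_Ioo] at hi
      have e1 : i < n := hi.2
      have e2 : n - i < n := by omega
      show (if hm : i < n then f i else 0).1 * (if hm : n - i < n then f (n - i) else 0).2 = _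
      rw [dif_pos e1, dif_pos e2]
    rw [hf]
    show (if n = 0 then (g, h) else _) = _
    rw [if_neg hn.ne', hR]
  have hdeg : ∀ n, 0 < n → (f n).1.degree < g.degree ∧ (f n).2.degree < h.degree ∧
      (f n).1 * h + g * (f n).2 = R n f := by
    intro n
    induction n using Nat.strong_induction_on with
    | _ n ih =>
      intro hn
      have hr : (R n f).degree < (g * h).degree := by
        refine lt_of_le_of_lt (Polynomial.degree_sub_le _ _) (max_lt (hp n hn) ?_)
        refine lt_of_le_of_lt (Polynomial.degree_sum_le _ _) ?_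
        rw [Finset.sup_lt_iff (by
          rw [bot_lt_iff_ne_bot, Ne, Polynomial.degree_eq_bot]
          exact (hg.mul hh).ne_zero)]
        intro i hi
        rw [Finset.mem_Ioo] at hi
        have e1 := (ih i hi.2 hi.1).1
        have e2 := (ih (n - i) (by omega) (by omega)).2.1
        rw [Polynomial.degree_mul, Polynomial.degree_mul]
        have hg0 : g.degree ≠ ⊥ := by
          rw [Ne, Polynomial.degree_eq_bot]
          exact hg.ne_zero
        exact lt_of_le_of_lt (add_le_add e1.le le_rfl) (WithBot.add_lt_add_left hg0 e2)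
      rw [hfn n hn]
      exact ⟨h1 _ hr, h2 _ hr, h3 _ hr⟩
  refine ⟨fun n => (f n).1, fun n => (f n).2, by simp only [hf0], by simp only [hf0],
    fun n hn => (hdeg n hn).1, fun n hn => (hdeg n hn).2.1, ?_⟩
  intro n
  rcases Nat.eq_zero_or_pos n with rfl | hn
  · rw [Finset.Nat.antidiagonal_zero, Finset.sum_singleton]
    show p 0 = (f 0).1 * (f 0).2
    rw [hf0, h0]
  · have h4 := (hdeg n hn).2.2
    have h5 : ∑ q ∈ Finset.HasAntidiagonal.antidiagonal n, (f q.1).1 * (f q.2).2 =
        (f 0).1 * (f n).2 + (f n).1 * (f 0).2 +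
          ∑ i ∈ Finset.Ioo 0 n, (f i).1 * (f (n - i)).2 := by
      rw [Finset.Nat.sum_antidiagonal_eq_sum_range_succ_mk]
      show ∑ i ∈ Finset.range (n + 1), (f i).1 * (f (n - i)).2 = _
      have h6 : Finset.range (n + 1) = insert 0 (insert n (Finset.Ioo 0 n)) := by
        ext i
        simp only [Finset.mem_range, Finset.mem_insert, Finset.mem_Ioo]
        omega
      rw [h6, Finset.sum_insert, Finset.sum_insert, Nat.sub_zero, Nat.sub_self, add_assoc]
      · simp
      · simp only [Finset.mem_insert, Finset.mem_Ioo]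
        omega
    have h7 : R n f = p n - ∑ i ∈ Finset.Ioo 0 n, (f i).1 * (f (n - i)).2 := rfl
    rw [h5, hf0]
    rw [h7] at h4
    linear_combination -h4

/-- Hensel (module r2): a monic integral polynomial whose reduction is a product of two coprime
monic polynomials of positive degree factors -/
theorem hensel_factor (p : K[X]) (hp : p.Monic) (hint : ∀ n, Vge 0 (p.coeff n)) (g h : ℂ[X])
    (hg : g.Monic) (hh : h.Monic) (hco : IsCoprime g h)
    (hred : ∀ n, (p.coeff n).coeff 0 = (g * h).coeff n) :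
    ∃ P Q : K[X], P.Monic ∧ Q.Monic ∧ p = P * Q ∧ (∀ n, Vge 0 (P.coeff n)) ∧
      (∀ n, Vge 0 (Q.coeff n)) ∧ P.natDegree = g.natDegree ∧ Q.natDegree = h.natDegree := by
  have hgh : (g * h).Monic := hg.mul hh
  have hsl0 : r2_sl p 0 = g * h := by
    ext j
    rw [r2_sl_coeff, ← hred j, Nat.cast_zero]
  have hN : p.natDegree = (g * h).natDegree := by
    refine le_antisymm ?_ ?_
    · refine Polynomial.le_natDegree_of_ne_zero ?_
      rw [← hred, hp.coeff_natDegree, LS.coeff_one, if_pos rfl]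
      exact one_ne_zero
    · refine Polynomial.le_natDegree_of_ne_zero fun h0 => ?_
      have h1 := hred (g * h).natDegree
      rw [h0, LS.coeff_zero, hgh.coeff_natDegree] at h1
      exact zero_ne_one h1
  have hsl : ∀ n, 0 < n → (r2_sl p n).degree < (g * h).degree := by
    intro n hn
    rw [Polynomial.degree_eq_natDegree hgh.ne_zero, Polynomial.degree_lt_iff_coeff_zero]
    intro m hm
    rw [r2_sl_coeff]
    rcases hm.eq_or_lt with he | hlt
    · rw [← he, ← hN, hp.coeff_natDegree, LS.coeff_one, if_neg (by omega)]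
    · rw [Polynomial.coeff_eq_zero_of_natDegree_lt (by omega), LS.coeff_zero]
  obtain ⟨A, B, hA0, hB0, hA, hB, hAB⟩ := r2_seq hg hh hco (r2_sl p) hsl0 hsl
  obtain ⟨dA, mA, nA⟩ := r2_mk_monic hg hA0 hA
  obtain ⟨dB, mB, nB⟩ := r2_mk_monic hh hB0 hB
  refine ⟨r2_mk A g.natDegree, r2_mk B h.natDegree, mA, mB, ?_, r2_mk_int dA, r2_mk_int dB, nA,
    nB⟩
  refine r2_ext hint ?_ fun n => ?_
  · intro j
    rw [Polynomial.coeff_mul]
    exact Vge.sum fun q _ => Vge.mul0 (r2_mk_int dA _) (r2_mk_int dB _)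
  · rw [r2_sl_mul (r2_mk_int dA) (r2_mk_int dB), hAB]
    refine Finset.sum_congr rfl fun q _ => ?_
    rw [r2_mk_sl dA, r2_mk_sl dB]

private lemma r3_taylor {p : K[X]} (h : ∀ n, Vge 0 (p.coeff n)) {b : K} (hb : Vge 0 b) :
    ∀ n, Vge 0 ((taylor b p).coeff n) := by
  intro n
  rw [taylor_coeff, eval_eq_sum_range]
  refine Vge.sum fun i _ => ?_
  rw [hasseDeriv_coeff]
  exact Vge.mul0 (Vge.mul0 (Vge.natCast _) (h _)) (hb.pow0 i)

private lemma r3_scale {p : K[X]} (h : ∀ n, Vge 0 (p.coeff n)) {b : K} (hb : Vge 0 b) :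
    ∀ n, Vge 0 ((scaleRoots p b).coeff n) := by
  intro n
  rw [coeff_scaleRoots]
  exact Vge.mul0 (h n) (hb.pow0 _)

private lemma r3_monic {p : K[X]} (h : p.Monic) (b : K) : (taylor b p).Monic := by
  rw [Monic, leadingCoeff_taylor]
  exact h

/-- undo the translation -/
private lemma r3_undo (p : K[X]) (b : K) (hb : Vge 0 b) (N : ℕ) (hN : 0 < N)
    (h : ∃ P Q : K[X], P.Monic ∧ Q.Monic ∧ (taylor b p).map (ram N hN) = P * Q ∧
      (∀ n, Vge 0 (P.coeff n)) ∧ (∀ n, Vge 0 (Q.coeff n)) ∧ 0 < P.natDegree ∧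
      0 < Q.natDegree) :
    ∃ (N : ℕ) (hN : 0 < N) (P Q : K[X]), P.Monic ∧ Q.Monic ∧ p.map (ram N hN) = P * Q ∧
      (∀ n, Vge 0 (P.coeff n)) ∧ (∀ n, Vge 0 (Q.coeff n)) ∧ 0 < P.natDegree ∧
      0 < Q.natDegree := by
  obtain ⟨P, Q, h1, h2, h3, h4, h5, h6, h7⟩ := h
  have hb' : Vge 0 (-(ram N hN b)) := by
    have := (ram_Vge N hN b 0).2 hb
    rw [mul_zero] at this
    exact this.neg
  refine ⟨N, hN, taylor (-(ram N hN b)) P, taylor (-(ram N hN b)) Q, r3_monic h1 _,
    r3_monic h2 _, ?_, r3_taylor h4 hb', r3_taylor h5 hb', by rwa [natDegree_taylor], by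
      rwa [natDegree_taylor]⟩
  rw [← taylor_mul, ← h3, map_taylor, taylor_taylor, neg_add_cancel, taylor_zero]

/-- Tschirnhaus -/
private lemma r3_tsch (p : K[X]) (hp : p.Monic) (hdeg : 2 ≤ p.natDegree) (b : K) :
    (taylor b p).coeff (p.natDegree - 1) = p.coeff (p.natDegree - 1) + p.natDegree * b := by
  rw [taylor_coeff, eval_eq_sum_range' (n := 2)]
  · rw [Finset.sum_range_succ, Finset.sum_range_one, hasseDeriv_coeff, hasseDeriv_coeff, zero_add,
      Nat.choose_self, pow_zero, Nat.cast_one, one_mul, mul_one, pow_one]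
    have h1 : 1 + (p.natDegree - 1) = p.natDegree := by omega
    have h2 : p.natDegree.choose (p.natDegree - 1) = p.natDegree := by
      obtain ⟨m, hm⟩ : ∃ m, p.natDegree = m + 1 := ⟨p.natDegree - 1, by omega⟩
      rw [hm, Nat.add_sub_cancel, Nat.choose_succ_self_right]
    rw [h1, h2, hp.coeff_natDegree, mul_one]
  · have := natDegree_hasseDeriv_le p (p.natDegree - 1)
    omega

private lemma r3_pow (m : ℤ) (k : ℕ) : (LS.single m (1 : ℂ)) ^ k = LS.single (k * m) 1 := by
  induction k with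
  | zero => rw [pow_zero, Nat.cast_zero, zero_mul, LS.single_zero_one]
  | succ k ih =>
    rw [pow_succ, ih, LS.single_mul_single, mul_one]
    congr 1
    push_cast
    ring

/-- a complex monic polynomial with zero second coefficient which is not `X ^ n` is a product
of two coprime monic polynomials of positive degree -/
private lemma r3_red (r : ℂ[X]) (hr : r.Monic) (hn : 2 ≤ r.natDegree)
    (h1 : r.coeff (r.natDegree - 1) = 0) (h2 : ∃ j, j < r.natDegree ∧ r.coeff j ≠ 0) :
    ∃ g h : ℂ[X], g.Monic ∧ h.Monic ∧ IsCoprime g h ∧ r = g * h ∧ 0 < g.natDegree ∧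
      0 < h.natDegree := by
  obtain ⟨c, hc⟩ := IsAlgClosed.exists_root r (by
    rw [degree_eq_natDegree hr.ne_zero]
    exact_mod_cast (by omega : r.natDegree ≠ 0))
  obtain ⟨h, hh, hnd⟩ := exists_eq_pow_rootMultiplicity_mul_and_not_dvd r hr.ne_zero c
  have he : 0 < r.rootMultiplicity c := (rootMultiplicity_pos hr.ne_zero).2 hc
  have hg : ((X - C c) ^ r.rootMultiplicity c : ℂ[X]).Monic := (monic_X_sub_C c).pow _
  have hhm : h.Monic := hg.of_mul_monic_left (by rw [← hh]; exact hr)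
  refine ⟨(X - C c) ^ r.rootMultiplicity c, h, hg, hhm,
    ((irreducible_X_sub_C c).coprime_iff_not_dvd.2 hnd).pow_left, hh, ?_, ?_⟩
  · rw [natDegree_pow, natDegree_X_sub_C, mul_one]
    exact he
  · by_contra hcon
    have h3 : h = 1 := hhm.natDegree_eq_zero.1 (by omega)
    rw [h3, mul_one] at hh
    have h4 : r.natDegree = r.rootMultiplicity c := by
      conv_lhs => rw [hh]
      rw [natDegree_pow, natDegree_X_sub_C, mul_one]
    rw [← h4] at hh
    have h5 : c = 0 := by
      rw [hh, natDegree_pow, natDegree_X_sub_C, mul_one, sub_eq_add_neg, ← C_neg,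
        coeff_X_add_C_pow] at h1
      have h6 : r.natDegree.choose (r.natDegree - 1) = r.natDegree := by
        obtain ⟨m, hm⟩ : ∃ m, r.natDegree = m + 1 := ⟨r.natDegree - 1, by omega⟩
        rw [hm, Nat.add_sub_cancel, Nat.choose_succ_self_right]
      have h7 : r.natDegree - (r.natDegree - 1) = 1 := by omega
      rw [h6, h7, pow_one, mul_eq_zero, neg_eq_zero] at h1
      rcases h1 with h1 | h1
      · exact h1
      · exfalso
        have : r.natDegree = 0 := by exact_mod_cast h1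
        omega
    obtain ⟨j, hj, hj2⟩ := h2
    rw [h5, C_0, sub_zero] at hh
    apply hj2
    rw [hh, coeff_X_pow, if_neg hj.ne]

private lemma r3_core (p : K[X]) (hp : p.Monic) (hint : ∀ n, Vge 0 (p.coeff n))
    (hdeg : 2 ≤ p.natDegree) (h0 : p.coeff (p.natDegree - 1) = 0) :
    ∃ (N : ℕ) (hN : 0 < N) (P Q : K[X]), P.Monic ∧ Q.Monic ∧ p.map (ram N hN) = P * Q ∧
      (∀ n, Vge 0 (P.coeff n)) ∧ (∀ n, Vge 0 (Q.coeff n)) ∧ 0 < P.natDegree ∧
      0 < Q.natDegree := by
  classical
  by_cases hA : ∀ j < p.natDegree, p.coeff j = 0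
  · have e : p = X ^ p.natDegree := by
      ext1 j
      rw [coeff_X_pow]
      rcases lt_trichotomy j p.natDegree with h | h | h
      · rw [hA j h, if_neg h.ne]
      · rw [if_pos h, h, hp.coeff_natDegree]
      · rw [coeff_eq_zero_of_natDegree_lt h, if_neg h.ne']
    have hX : ∀ k j : ℕ, Vge 0 ((X ^ k : K[X]).coeff j) := by
      intro k j
      rw [coeff_X_pow]
      split_ifs
      · exact Vge.one
      · exact Vge.zero 0
    refine ⟨1, one_pos, X ^ 1, X ^ (p.natDegree - 1), monic_X_pow _, monic_X_pow _, ?_, hX _, hX _,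
      ?_, ?_⟩
    · conv_lhs => rw [e]
      rw [Polynomial.map_pow, map_X, ← pow_add]
      congr 1
      omega
    · rw [natDegree_X_pow]; exact one_pos
    · rw [natDegree_X_pow]; omega
  · push Not at hA
    obtain ⟨j₁, hj₁, hj₁'⟩ := hA
    obtain ⟨j₀, hj₀, hmin⟩ := ((Finset.range p.natDegree).filter fun j => p.coeff j ≠ 0)
      |>.exists_min_image (fun j => ((p.coeff j).ord : ℝ) / ((p.natDegree - j : ℕ) : ℝ))
        ⟨j₁, Finset.mem_filter.2 ⟨Finset.mem_range.2 hj₁, hj₁'⟩⟩
    obtain ⟨hj₀n, hj₀0⟩ := Finset.mem_filter.1 hj₀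
    rw [Finset.mem_range] at hj₀n
    obtain ⟨q, hq⟩ : ∃ q, q = p.natDegree - j₀ := ⟨_, rfl⟩
    have hq0 : 0 < q := by omega
    have hqr : (0 : ℝ) < q := by exact_mod_cast hq0
    obtain ⟨m, hm⟩ : ∃ m, m = (p.coeff j₀).ord := ⟨_, rfl⟩
    have hm0 : 0 ≤ m := by
      have := (Vge_iff_ord hj₀0 0).1 (hint j₀)
      rw [hm]
      exact_mod_cast this
    have hss : LS.single (-m) (1 : ℂ) * LS.single m 1 = 1 := by
      rw [LS.single_mul_single, neg_add_cancel, mul_one, LS.single_zero_one]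
    have hd2 : (p.map (ram q hq0)).natDegree = p.natDegree := hp.natDegree_map _
    have hc : ∀ j, ((p.map (ram q hq0)).scaleRoots (LS.single (-m) 1)).coeff j =
        ram q hq0 (p.coeff j) * LS.single (((p.natDegree - j : ℕ) : ℤ) * (-m)) 1 := by
      intro j
      rw [coeff_scaleRoots, hd2, coeff_map, r3_pow]
    have hm3 : ((p.map (ram q hq0)).scaleRoots (LS.single (-m) 1)).Monic :=
      (monic_scaleRoots_iff _).2 (hp.map _)
    have hd3 : ((p.map (ram q hq0)).scaleRoots (LS.single (-m) 1)).natDegree = p.natDegree := by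
      rw [natDegree_scaleRoots, hd2]
    have hint3 : ∀ j, Vge 0 (((p.map (ram q hq0)).scaleRoots (LS.single (-m) 1)).coeff j) := by
      intro j
      rcases lt_trichotomy j p.natDegree with h | h | h
      · rw [hc]
        by_cases hz : p.coeff j = 0
        · rw [hz, map_zero, zero_mul]
          exact Vge.zero 0
        · have h1 := hmin j (Finset.mem_filter.2 ⟨Finset.mem_range.2 h, hz⟩)
          rw [← hm, ← hq] at h1
          have hnj : (0 : ℝ) < ((p.natDegree - j : ℕ) : ℝ) := by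
            exact_mod_cast Nat.sub_pos_of_lt h
          have h2 : (m : ℝ) / q * ((p.natDegree - j : ℕ) : ℝ) ≤ ((p.coeff j).ord : ℝ) :=
            (le_div_iff₀ hnj).1 h1
          have h3 := (ram_Vge q hq0 (p.coeff j) _).2 ((Vge_iff_ord hz _).2 h2)
          have h4 : (q : ℝ) * ((m : ℝ) / q * ((p.natDegree - j : ℕ) : ℝ)) =
              (m : ℝ) * ((p.natDegree - j : ℕ) : ℝ) := by
            field_simp
          rw [h4] at h3
          have h5 := h3.mul (Vge.single (c := -((m : ℝ) * ((p.natDegree - j : ℕ) : ℝ)))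
            (n := ((p.natDegree - j : ℕ) : ℤ) * (-m)) (by
              apply le_of_eq
              simp only [Int.cast_mul, Int.cast_neg, Int.cast_natCast]
              ring) (1 : ℂ))
          rwa [add_neg_cancel] at h5
      · rw [h, ← hd3, hm3.coeff_natDegree]
        exact Vge.one
      · rw [coeff_eq_zero_of_natDegree_lt (by rw [hd3]; exact h)]
        exact Vge.zero 0
    obtain ⟨r, hr⟩ : ∃ r : ℂ[X], ∀ j, r.coeff j =
        (((p.map (ram q hq0)).scaleRoots (LS.single (-m) 1)).coeff j).coeff 0 := by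
      refine ⟨∑ j ∈ Finset.range (p.natDegree + 1), monomial j
        ((((p.map (ram q hq0)).scaleRoots (LS.single (-m) 1)).coeff j).coeff 0), fun j => ?_⟩
      rw [finsetSum_coeff]
      simp only [coeff_monomial, Finset.sum_ite_eq', Finset.mem_range]
      split_ifs with h
      · rfl
      · rw [coeff_eq_zero_of_natDegree_lt (by rw [hd3]; omega), LS.coeff_zero]
    have hrd : r.natDegree = p.natDegree := by
      refine natDegree_eq_of_le_of_coeff_ne_zero ?_ ?_
      · rw [natDegree_le_iff_coeff_eq_zero]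
        intro N hN
        rw [hr, coeff_eq_zero_of_natDegree_lt (by rw [hd3]; exact hN), LS.coeff_zero]
      · rw [hr, ← hd3, hm3.coeff_natDegree, LS.coeff_one, if_pos rfl]
        exact one_ne_zero
    have hrm : r.Monic := by
      rw [Monic, leadingCoeff, hrd, hr, ← hd3, hm3.coeff_natDegree, LS.coeff_one, if_pos rfl]
    obtain ⟨g, h, hg, hh, hco, hgh, hg0, hh0⟩ := r3_red r hrm (by rw [hrd]; exact hdeg) (by
        rw [hrd, hr, hc, h0, map_zero, zero_mul, LS.coeff_zero]) ⟨j₀, by rw [hrd]; exact hj₀n, by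
        rw [hr, hc, ← hq, mul_comm, LS.coeff_single_mul, one_mul]
        have h1 : (0 : ℤ) - (q : ℤ) * (-m) = q * m := by ring
        rw [h1, ram_coeff_mul, hm]
        exact LS.coeff_ord_ne hj₀0⟩
    obtain ⟨P, Q, hP, hQ, hPQ, hPi, hQi, hPd, hQd⟩ := hensel_factor _ hm3 hint3 g h hg hh hco
      (fun j => by rw [← hr, hgh])
    have hs0 : Vge 0 (LS.single m (1 : ℂ)) := Vge.single (by exact_mod_cast hm0) 1
    refine ⟨q, hq0, P.scaleRoots (LS.single m 1), Q.scaleRoots (LS.single m 1),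
      (monic_scaleRoots_iff _).2 hP, (monic_scaleRoots_iff _).2 hQ, ?_, r3_scale hPi hs0,
      r3_scale hQi hs0, by rw [natDegree_scaleRoots, hPd]; exact hg0, by
        rw [natDegree_scaleRoots, hQd]; exact hh0⟩
    rw [← mul_scaleRoots_of_noZeroDivisors, ← hPQ, ← scaleRoots_mul, hss, scaleRoots_one]

/-- the induction step of the Newton-Puiseux algorithm (module r3): after a ramification and
`t = b + z^m t'` (Tschirnhaus), a polynomial which is not a power `(t - b)^n` acquires a reduction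
with two different roots. Conclusion: a proper factorisation over `ℂ((z^{1/N}))`. -/
theorem puiseux_step (p : K[X]) (hp : p.Monic) (hint : ∀ n, Vge 0 (p.coeff n))
    (hdeg : 2 ≤ p.natDegree) :
    ∃ (N : ℕ) (hN : 0 < N) (P Q : K[X]), P.Monic ∧ Q.Monic ∧ p.map (ram N hN) = P * Q ∧
      (∀ n, Vge 0 (P.coeff n)) ∧ (∀ n, Vge 0 (Q.coeff n)) ∧ 0 < P.natDegree ∧
      0 < Q.natDegree := by
  have hn0 : (p.natDegree : ℂ) ≠ 0 := by
    have : p.natDegree ≠ 0 := by omega
    exact_mod_cast this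
  have hb : Vge 0 (-(LS.C ((p.natDegree : ℂ)⁻¹) * p.coeff (p.natDegree - 1))) :=
    ((Vge.C _).mul0 (hint _)).neg
  have hd : (taylor (-(LS.C ((p.natDegree : ℂ)⁻¹) * p.coeff (p.natDegree - 1))) p).natDegree =
      p.natDegree := natDegree_taylor _ _
  obtain ⟨N, hN, h⟩ := r3_core (taylor (-(LS.C ((p.natDegree : ℂ)⁻¹) *
    p.coeff (p.natDegree - 1))) p) (r3_monic hp _) (r3_taylor hint hb) (by rw [hd]; exact hdeg) (by
      rw [hd, r3_tsch p hp hdeg, ← map_natCast (LS.C : ℂ →+* K), mul_neg, ← mul_assoc, ← map_mul,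
        mul_inv_cancel₀ hn0, map_one, one_mul, add_neg_cancel])
  exact r3_undo p _ hb N hN h

/-- composition of ramifications -/
private lemma r4_comp {k : Type} [Field k] (a b : ℕ) (ha : 0 < a) (hb : 0 < b) (x : LS k) :
    ram b hb (ram a ha x) = ram (a * b) (Nat.mul_pos ha hb) x := by
  have hb' : (b : ℤ) ≠ 0 := by exact_mod_cast hb.ne'
  refine LS.ext fun n => ?_
  by_cases h : (b : ℤ) ∣ n
  · obtain ⟨m, rfl⟩ := h
    rw [ram_coeff_mul]
    by_cases h' : (a : ℤ) ∣ m
    · obtain ⟨l, rfl⟩ := h'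
      have e : (b : ℤ) * ((a : ℤ) * l) = ((a * b : ℕ) : ℤ) * l := by push_cast; ring
      rw [ram_coeff_mul, e, ram_coeff_mul]
    · rw [ram_coeff_of_not_dvd a ha x m h', ram_coeff_of_not_dvd]
      intro hd
      apply h'
      have e : ((a * b : ℕ) : ℤ) = (b : ℤ) * a := by push_cast; ring
      rw [e] at hd
      exact (mul_dvd_mul_iff_left hb').1 hd
  · rw [ram_coeff_of_not_dvd b hb _ n h, ram_coeff_of_not_dvd]
    intro hd
    apply h
    have e : ((a * b : ℕ) : ℤ) = (b : ℤ) * a := by push_cast; ring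
    rw [e] at hd
    exact dvd_trans (dvd_mul_right _ _) hd

/-- composition of ramifications, on polynomials -/
private lemma r4_map_comp (a b : ℕ) (ha : 0 < a) (hb : 0 < b) (p : K[X]) :
    (p.map (ram a ha)).map (ram b hb) = p.map (ram (a * b) (Nat.mul_pos ha hb)) := by
  refine Polynomial.ext fun n => ?_
  rw [coeff_map, coeff_map, coeff_map, r4_comp]

private lemma r4_Vge (q : ℕ) (hq : 0 < q) {x : K} (hx : Vge 0 x) : Vge 0 (ram q hq x) := by
  have h := (ram_Vge q hq x 0).2 hx
  rwa [mul_zero] at h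

private lemma r4_prod_map (q : ℕ) (hq : 0 < q) (s : Multiset K) :
    ((s.map fun a => X - C a).prod).map (ram q hq) =
      ((s.map (ram q hq)).map fun a => X - C a).prod := by
  rw [← Polynomial.coe_mapRingHom, map_multiset_prod, Multiset.map_map, Multiset.map_map]
  refine congrArg Multiset.prod (Multiset.map_congr rfl fun a _ => ?_)
  simp only [Function.comp_apply, coe_mapRingHom, Polynomial.map_sub, Polynomial.map_X,
    Polynomial.map_C]

/-- Puiseux with a multiset of roots -/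
private lemma r4_main (n : ℕ) : ∀ p : K[X], p.Monic → (∀ n, Vge 0 (p.coeff n)) →
    p.natDegree = n → ∃ (N : ℕ) (hN : 0 < N) (s : Multiset K), (∀ x ∈ s, Vge 0 x) ∧
      p.map (ram N hN) = (s.map fun a => X - C a).prod := by
  induction n using Nat.strong_induction_on with
  | _ n ih =>
    intro p hp hint hn
    rcases Nat.lt_or_ge n 2 with h2 | h2
    · rcases Nat.eq_zero_or_pos n with h0 | h0
      · subst h0
        refine ⟨1, one_pos, 0, fun x hx => absurd hx (Multiset.notMem_zero x), ?_⟩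
        rw [hp.natDegree_eq_zero.1 hn, Polynomial.map_one, Multiset.map_zero,
          Multiset.prod_zero]
      · have hn1 : p.natDegree = 1 := by omega
        refine ⟨1, one_pos, {-ram 1 one_pos (p.coeff 0)}, ?_, ?_⟩
        · intro x hx
          rw [Multiset.mem_singleton] at hx
          rw [hx]
          exact (r4_Vge 1 one_pos (hint 0)).neg
        · rw [Multiset.map_singleton, Multiset.prod_singleton, map_neg, sub_neg_eq_add]
          conv_lhs => rw [hp.eq_X_add_C hn1]
          rw [Polynomial.map_add, Polynomial.map_X, Polynomial.map_C]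
    · obtain ⟨N, hN, P, Q, hP, hQ, hPQ, hPi, hQi, hPd, hQd⟩ :=
        puiseux_step p hp hint (hn ▸ h2)
      have hdeg : P.natDegree + Q.natDegree = n := by
        rw [← hP.natDegree_mul hQ, ← hPQ, natDegree_map, hn]
      obtain ⟨N₁, hN₁, s₁, h₁, e₁⟩ := ih P.natDegree (by omega) P hP hPi rfl
      obtain ⟨N₂, hN₂, s₂, h₂, e₂⟩ := ih Q.natDegree (by omega) Q hQ hQi rfl
      refine ⟨N * (N₁ * N₂), Nat.mul_pos hN (Nat.mul_pos hN₁ hN₂),
        s₁.map (ram N₂ hN₂) + s₂.map (ram N₁ hN₁), ?_, ?_⟩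
      · intro x hx
        rcases Multiset.mem_add.1 hx with hx | hx
        · obtain ⟨y, hy, rfl⟩ := Multiset.mem_map.1 hx
          exact r4_Vge _ _ (h₁ y hy)
        · obtain ⟨y, hy, rfl⟩ := Multiset.mem_map.1 hx
          exact r4_Vge _ _ (h₂ y hy)
      · rw [← r4_map_comp N (N₁ * N₂) hN (Nat.mul_pos hN₁ hN₂), hPQ, Polynomial.map_mul,
          Multiset.map_add, Multiset.prod_add, ← r4_prod_map, ← r4_prod_map, ← e₁, ← e₂,
          r4_map_comp, r4_map_comp]
        have e : (Q.map (ram (N₁ * N₂) (Nat.mul_pos hN₁ hN₂))) =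
            Q.map (ram (N₂ * N₁) (Nat.mul_pos hN₂ hN₁)) := by
          have h : ∀ (a b : ℕ) (ha : 0 < a) (hb : 0 < b), a = b →
              Q.map (ram a ha) = Q.map (ram b hb) := by
            intro a b ha hb hab
            subst hab
            rfl
          exact h _ _ _ _ (mul_comm N₁ N₂)
        rw [e]

/-- Puiseux (module r4) -/
theorem puiseux (p : K[X]) (hp : p.Monic) (hint : ∀ n, Vge 0 (p.coeff n)) :
    ∃ (N : ℕ) (hN : 0 < N) (u : Fin p.natDegree → K), (∀ i, Vge 0 (u i)) ∧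
      p.map (ram N hN) = ∏ i, (X - C (u i)) := by
  obtain ⟨N, hN, s, hs, hps⟩ := r4_main p.natDegree p hp hint rfl
  have hcard : s.card = p.natDegree := by
    have h := congrArg Polynomial.natDegree hps
    rw [natDegree_map, Polynomial.natDegree_multiset_prod_X_sub_C_eq_card] at h
    exact h.symm
  obtain ⟨L, rfl⟩ := Quot.exists_rep s
  have hL : p.natDegree = L.length := hcard.symm
  refine ⟨N, hN, fun i => L.get (i.cast hL), fun i => hs _ (List.get_mem L _), ?_⟩
  rw [hps]
  change (Multiset.map (fun a => X - C a) (L : Multiset K)).prod = _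
  rw [Multiset.map_coe, Multiset.prod_coe]
  have h1 : (L.map fun a => X - C a) = List.ofFn fun i : Fin L.length => (X - C (L.get i)) := by
    conv_lhs => rw [← List.ofFn_get L]
    rw [List.map_ofFn]
    rfl
  rw [h1, List.prod_ofFn]
  exact (Equiv.prod_comp (finCongr hL) fun i => (X - C (L.get i))).symm

end Pool.Agent.Fbc
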