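import Pool.Agent.Fbc.Iface

import Pool.Agent.Fbc.Gau

import Pool.Agent.Fbc.Ram

/-!
# The slice `x_i = 0` for `i ≠ i₀` (one variable `x_{i₀}`), and convergence on the slice
-/

set_option autoImplicit false

namespace Pool.Agent.Fbc

open Polynomial

open Finset.HasAntidiagonal (antidiagonal mem_antidiagonal)

open Pool.Fml (Ser SymRing formal micro IsFormal IsMicro)

variable {d : ℕ} (i₀ : Fin d)

/-- the exponent of `x_{i₀}^n s^j` -/
noncomputable def sexp (n j : ℕ) : Option (Fin d) →₀ ℕ :=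
  Finsupp.single (some i₀) n + Finsupp.single none j

/-- the coefficient of `s^j` of `f` on the slice, as a power series in `z = x_{i₀}` -/
noncomputable def slc (j : ℕ) (f : Ser d) : K :=
  LS.mk (fun n => if 0 ≤ n then MvPowerSeries.coeff (sexp i₀ n.toNat j) f else 0)
    ⟨0, fun _ hn => if_neg (not_le.2 hn)⟩

/-! ### module z1: rules -/

private lemma z1_coeff_nat (j : ℕ) (f : Ser d) (n : ℕ) :
    (slc i₀ j f).coeff (n : ℤ) = MvPowerSeries.coeff (sexp i₀ n j) f := by
  unfold slc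
  rw [LS.coeff_mk, if_pos (Int.natCast_nonneg n), Int.toNat_natCast]

private lemma z1_coeff_neg (j : ℕ) (f : Ser d) {n : ℤ} (hn : n < 0) :
    (slc i₀ j f).coeff n = 0 := by
  unfold slc
  rw [LS.coeff_mk, if_neg (not_le.2 hn)]

private lemma z1_ext {j : ℕ} {f : Ser d} {x : K} (h0 : ∀ n : ℤ, n < 0 → x.coeff n = 0)
    (h1 : ∀ n : ℕ, MvPowerSeries.coeff (sexp i₀ n j) f = x.coeff n) : slc i₀ j f = x := by
  ext n
  rcases lt_or_ge n 0 with hn | hn
  · rw [z1_coeff_neg i₀ j f hn, h0 n hn]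
  · obtain ⟨m, rfl⟩ := Int.eq_ofNat_of_zero_le hn
    rw [z1_coeff_nat, h1]

private lemma z1_none (n j : ℕ) : sexp i₀ n j none = j := by
  unfold sexp; simp

private lemma z1_some (n j : ℕ) : sexp i₀ n j (some i₀) = n := by
  unfold sexp; simp

private lemma z1_other (n j : ℕ) (i : Fin d) (hi : i ≠ i₀) : sexp i₀ n j (some i) = 0 := by
  have h1 : ¬ (some i₀ = some i) := fun h => hi (Option.some.inj h).symm
  have h2 : ¬ ((none : Option (Fin d)) = some i) := by simp
  unfold sexp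
  rw [Finsupp.add_apply, Finsupp.single_apply, Finsupp.single_apply, if_neg h1, if_neg h2, add_zero]

private lemma z1_inj {n j n' j' : ℕ} (h : sexp i₀ n j = sexp i₀ n' j') : n = n' ∧ j = j' :=
  ⟨by rw [← z1_some i₀ n j, h, z1_some], by rw [← z1_none i₀ n j, h, z1_none]⟩

private lemma z1_add (n j n' j' : ℕ) :
    sexp i₀ n j + sexp i₀ n' j' = sexp i₀ (n + n') (j + j') := by
  unfold sexp
  rw [Finsupp.single_add, Finsupp.single_add]
  abel

private lemma z1_single_some (n : ℕ) : Finsupp.single (some i₀) n = sexp i₀ n 0 := by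
  unfold sexp; simp

private lemma z1_single_none (j : ℕ) : Finsupp.single none j = sexp i₀ 0 j := by
  unfold sexp; simp

private lemma z1_of_other (m : Option (Fin d) →₀ ℕ) (h : ∀ i, i ≠ i₀ → m (some i) = 0) :
    m = sexp i₀ (m (some i₀)) (m none) := by
  ext a
  rcases a with _ | i
  · rw [z1_none]
  · by_cases hi : i = i₀
    · rw [hi, z1_some]
    · rw [z1_other i₀ _ _ i hi, h i hi]

lemma slc_Vge (j : ℕ) (f : Ser d) : Vge 0 (slc i₀ j f) := by
  intro n hn
  exact z1_coeff_neg i₀ j f (by exact_mod_cast hn)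

lemma slc_add (j : ℕ) (f g : Ser d) : slc i₀ j (f + g) = slc i₀ j f + slc i₀ j g := by
  refine z1_ext i₀ (fun n hn => ?_) fun n => ?_
  · rw [LS.coeff_add, z1_coeff_neg i₀ j f hn, z1_coeff_neg i₀ j g hn, add_zero]
  · rw [LS.coeff_add, z1_coeff_nat, z1_coeff_nat, map_add]

lemma slc_neg (j : ℕ) (f : Ser d) : slc i₀ j (-f) = -slc i₀ j f := by
  refine z1_ext i₀ (fun n hn => ?_) fun n => ?_
  · rw [LS.coeff_neg, z1_coeff_neg i₀ j f hn, neg_zero]
  · rw [LS.coeff_neg, z1_coeff_nat, map_neg]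

lemma slc_zero (j : ℕ) : slc i₀ j (0 : Ser d) = 0 := by
  refine z1_ext i₀ (fun n hn => ?_) fun n => ?_
  · rw [LS.coeff_zero]
  · rw [LS.coeff_zero, map_zero]

lemma slc_one : slc i₀ 0 (1 : Ser d) = 1 := by
  classical
  refine z1_ext i₀ (fun n hn => ?_) fun n => ?_
  · rw [LS.coeff_one, if_neg hn.ne]
  · rw [LS.coeff_one, MvPowerSeries.coeff_one]
    have h : sexp i₀ n 0 = 0 ↔ (n : ℤ) = 0 := by
      rw [Int.natCast_eq_zero]
      constructor
      · intro h
        rw [← z1_some i₀ n 0, h]; rfl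
      · rintro rfl
        unfold sexp; simp
    by_cases hn : (n : ℤ) = 0
    · rw [if_pos hn, if_pos (h.2 hn)]
    · rw [if_neg hn, if_neg fun hh => hn (h.1 hh)]

lemma slc_mul (j : ℕ) (f g : Ser d) :
    slc i₀ j (f * g) = ∑ p ∈ antidiagonal j, slc i₀ p.1 f * slc i₀ p.2 g := by
  classical
  have hc : ∀ (a b : ℕ) (n : ℤ), (slc i₀ a f * slc i₀ b g).coeff n =
      ∑ i ∈ Finset.Icc (0 : ℤ) (n - 0), (slc i₀ a f).coeff i * (slc i₀ b g).coeff (n - i) :=
    fun a b n => LS.coeff_mul (fun n hn => z1_coeff_neg i₀ a f hn)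
      (fun n hn => z1_coeff_neg i₀ b g hn) n
  refine z1_ext i₀ (fun n hn => ?_) fun n => ?_
  · rw [LS.coeff_sum]
    refine Finset.sum_eq_zero fun p _ => ?_
    rw [hc, Finset.Icc_eq_empty (by omega), Finset.sum_empty]
  · rw [LS.coeff_sum, MvPowerSeries.coeff_mul]
    have h1 : ∀ p ∈ antidiagonal j, (slc i₀ p.1 f * slc i₀ p.2 g).coeff (n : ℤ) =
        ∑ q ∈ antidiagonal n, MvPowerSeries.coeff (sexp i₀ q.1 p.1) f *
          MvPowerSeries.coeff (sexp i₀ q.2 p.2) g := by
      intro p _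
      rw [hc]
      symm
      refine Finset.sum_bij (fun q _ => (q.1 : ℤ)) ?_ ?_ ?_ ?_
      · intro q hq
        rw [mem_antidiagonal] at hq
        rw [Finset.mem_Icc]
        omega
      · intro q hq q' hq' h
        rw [mem_antidiagonal] at hq hq'
        ext <;> omega
      · intro i hi
        rw [Finset.mem_Icc] at hi
        refine ⟨(i.toNat, n - i.toNat), ?_, ?_⟩
        · rw [mem_antidiagonal]; omega
        · simp only; omega
      · intro q hq
        rw [mem_antidiagonal] at hq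
        have : (n : ℤ) - (q.1 : ℤ) = (q.2 : ℤ) := by omega
        rw [this, z1_coeff_nat, z1_coeff_nat]
    rw [Finset.sum_congr rfl h1, ← Finset.sum_product']
    symm
    refine Finset.sum_bij (fun z _ => (sexp i₀ z.2.1 z.1.1, sexp i₀ z.2.2 z.1.2)) ?_ ?_ ?_ ?_
    · rintro ⟨p, q⟩ h
      rw [Finset.mem_product, mem_antidiagonal, mem_antidiagonal] at h
      rw [mem_antidiagonal]
      simp only at h ⊢
      rw [z1_add, h.1, h.2]
    · rintro ⟨p, q⟩ h ⟨p', q'⟩ h' he
      simp only [Prod.mk.injEq] at he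
      have e1 := z1_inj i₀ he.1
      have e2 := z1_inj i₀ he.2
      ext
      · exact e1.2
      · exact e2.2
      · exact e1.1
      · exact e2.1
    · rintro ⟨a, b⟩ h
      rw [mem_antidiagonal] at h
      simp only at h
      have ho : ∀ i, i ≠ i₀ → a (some i) = 0 ∧ b (some i) = 0 := by
        intro i hi
        have h2 := DFunLike.congr_fun h (some i)
        rw [z1_other i₀ _ _ i hi, Finsupp.add_apply] at h2
        omega
      have ha := z1_of_other i₀ a fun i hi => (ho i hi).1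
      have hb := z1_of_other i₀ b fun i hi => (ho i hi).2
      refine ⟨((a none, b none), (a (some i₀), b (some i₀))), ?_, ?_⟩
      · rw [Finset.mem_product, mem_antidiagonal, mem_antidiagonal]
        have h3 := DFunLike.congr_fun h none
        have h4 := DFunLike.congr_fun h (some i₀)
        rw [z1_none, Finsupp.add_apply] at h3
        rw [z1_some, Finsupp.add_apply] at h4
        exact ⟨h3, h4⟩
      · simp only
        rw [← ha, ← hb]
    · rintro ⟨p, q⟩ _
      rfl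

/-- the ring homomorphism `s = 0`, `x_i = 0` for `i ≠ i₀` -/
noncomputable def slc0 : Ser d →+* K where
  toFun := slc i₀ 0
  map_one' := slc_one i₀
  map_zero' := slc_zero i₀ 0
  map_add' := slc_add i₀ 0
  map_mul' f g := by rw [slc_mul]; simp

lemma slc_sco (j : ℕ) (f : Ser d) : slc i₀ 0 (sco j f) = slc i₀ j f := by
  refine z1_ext i₀ (fun n hn => z1_coeff_neg i₀ j f hn) fun n => ?_
  rw [z1_coeff_nat, MvPowerSeries.coeff_apply]
  unfold sco
  rw [if_pos (z1_none i₀ n 0), z1_single_none i₀, z1_add, add_zero, zero_add]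

lemma slc_of_SFree {f : Ser d} (hf : SFree f) {j : ℕ} (hj : 0 < j) : slc i₀ j f = 0 := by
  refine z1_ext i₀ (fun n hn => LS.coeff_zero n) fun n => ?_
  rw [LS.coeff_zero]
  exact hf _ (by rw [z1_none]; omega)

lemma slc_X : slc i₀ 0 (MvPowerSeries.X (some i₀) : Ser d) = LS.single 1 1 := by
  classical
  refine z1_ext i₀ (fun n hn => ?_) fun n => ?_
  · rw [LS.coeff_single, if_neg (by omega)]
  · rw [LS.coeff_single, MvPowerSeries.coeff_X, z1_single_some i₀]
    by_cases hn : (n : ℤ) = 1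
    · have : n = 1 := by omega
      rw [if_pos hn, this, if_pos rfl]
    · rw [if_neg hn, if_neg]
      intro h
      exact hn (by exact_mod_cast (z1_inj i₀ h).1)

/-- `z ∂_z` -/
lemma slc_pd (j : ℕ) (f : Ser d) :
    zd (slc i₀ j f) = LS.single 1 1 * slc i₀ j (serD (some i₀) f) := by
  ext n
  rw [zd_coeff, LS.coeff_single_mul, one_mul]
  rcases lt_trichotomy n 0 with hn | hn | hn
  · rw [z1_coeff_neg i₀ j f hn, z1_coeff_neg i₀ j _ (by omega), mul_zero]
  · rw [z1_coeff_neg i₀ j (serD (some i₀) f) (by omega), hn]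
    push_cast
    rw [zero_mul]
  · obtain ⟨m, rfl⟩ : ∃ m : ℕ, n = ((m + 1 : ℕ) : ℤ) := ⟨(n - 1).toNat, by omega⟩
    have e : ((m + 1 : ℕ) : ℤ) - 1 = (m : ℤ) := by push_cast; ring
    rw [e, z1_coeff_nat, z1_coeff_nat, serD_apply, MvPowerSeries.coeff_pderiv, z1_some,
      z1_single_some i₀, z1_add, add_zero]
    push_cast
    ring

/-- multiplication by `s` -/
lemma slc_sS_zero (f : Ser d) : slc i₀ 0 (sS * f) = 0 := by
  classical
  refine z1_ext i₀ (fun n hn => LS.coeff_zero n) fun n => ?_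
  rw [LS.coeff_zero]
  unfold sS
  rw [MvPowerSeries.X, MvPowerSeries.coeff_monomial_mul, if_neg]
  intro h
  have := h none
  rw [z1_none] at this
  simp at this

lemma slc_sS_succ (j : ℕ) (f : Ser d) : slc i₀ (j + 1) (sS * f) = slc i₀ j f := by
  classical
  refine z1_ext i₀ (fun n hn => z1_coeff_neg i₀ j f hn) fun n => ?_
  rw [z1_coeff_nat]
  unfold sS
  have e : sexp i₀ n (j + 1) = Finsupp.single none 1 + sexp i₀ n j := by
    rw [z1_single_none i₀, z1_add, zero_add, add_comm 1 j]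
  rw [MvPowerSeries.X, e, MvPowerSeries.coeff_add_monomial_mul, one_mul]

/-- `s² ∂_s` -/
lemma slc_sds (j : ℕ) (f : Ser d) :
    slc i₀ (j + 1) (sS ^ 2 * serD none f) = (j : K) * slc i₀ j f := by
  rw [pow_two, mul_assoc, slc_sS_succ]
  rcases j with _ | j
  · rw [slc_sS_zero]
    push_cast
    rw [zero_mul]
  · rw [slc_sS_succ]
    have e : ((j + 1 : ℕ) : K) = LS.C ((j + 1 : ℕ) : ℂ) := by rw [map_natCast]
    rw [e]
    refine z1_ext i₀ (fun n hn => ?_) fun n => ?_
    · rw [LS.coeff_C_mul, z1_coeff_neg i₀ _ f hn, mul_zero]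
    · rw [LS.coeff_C_mul, z1_coeff_nat, serD_apply, MvPowerSeries.coeff_pderiv, z1_none,
        z1_single_none i₀, z1_add, add_zero]
      push_cast
      ring

lemma slc_sds_zero (f : Ser d) : slc i₀ 0 (sS ^ 2 * serD none f) = 0 := by
  rw [pow_two, mul_assoc, slc_sS_zero]

/-- common radius for formal symbols -/
lemma slc_formal {f : Ser d} (hf : IsFormal f) : ∃ ρ : ℝ, 0 < ρ ∧ ∀ j, Lsum ρ (slc i₀ j f) := by
  obtain ⟨R, hR, h⟩ := hf
  refine ⟨1 / (2 * R), by positivity, fun j => ?_⟩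
  obtain ⟨C, hC⟩ := h j
  unfold Lsum
  rw [summable_int_iff_summable_nat_and_neg]
  constructor
  · have hs : Summable fun n : ℕ => C * R ^ j * (1 / 2 : ℝ) ^ n :=
      (summable_geometric_of_lt_one (by norm_num) (by norm_num)).mul_left _
    refine Summable.of_nonneg_of_le (fun n => ?_) (fun n => ?_) hs
    · positivity
    · rw [z1_coeff_nat]
      have h1 := hC (sexp i₀ n j) (z1_none i₀ n j)
      have h2 : (sexp i₀ n j).degree = n + j := by
        unfold sexp
        rw [map_add, Finsupp.degree_single, Finsupp.degree_single]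
      rw [h2] at h1
      have h3 : (0 : ℝ) ≤ (1 / (2 * R)) ^ (n : ℤ) := by positivity
      refine (mul_le_mul_of_nonneg_right h1 h3).trans (le_of_eq ?_)
      rw [zpow_natCast, pow_add]
      have h4 : R ^ n * (1 / (2 * R)) ^ n = (1 / 2) ^ n := by
        rw [← mul_pow]; congr 1; field_simp
      calc C * (R ^ n * R ^ j) * (1 / (2 * R)) ^ n = C * R ^ j * (R ^ n * (1 / (2 * R)) ^ n) := by
            ring
        _ = _ := by rw [h4]
  · refine summable_of_ne_finset_zero (s := {0}) fun n hn => ?_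
    rw [Finset.mem_singleton] at hn
    rw [z1_coeff_neg i₀ j f (by omega), norm_zero, zero_mul]

/-- in one variable, the converse -/
lemma formal_of_slc (i₀ : Fin 1) {f : Ser 1} {ρ : ℝ} (hρ : 0 < ρ)
    (h : ∀ j, Lsum ρ (slc i₀ j f)) : IsFormal f := by
  refine ⟨1 / ρ, by positivity, fun j => ?_⟩
  have hj := h j
  unfold Lsum at hj
  refine ⟨(∑' n : ℤ, ‖(slc i₀ j f).coeff n‖ * ρ ^ n) * ρ ^ j, fun m hm => ?_⟩
  have h1 := hj.le_tsum (m (some i₀) : ℤ) fun n _ => by positivity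
  have h2 : m = sexp i₀ (m (some i₀)) (m none) :=
    z1_of_other i₀ m fun i hi => absurd (Subsingleton.elim i i₀) hi
  have h3 : m.degree = m (some i₀) + j := by
    conv_lhs => rw [h2]
    unfold sexp
    rw [map_add, Finsupp.degree_single, Finsupp.degree_single, hm]
  rw [z1_coeff_nat, ← hm, ← h2, zpow_natCast] at h1
  rw [h3, hm.symm] at *
  set S := ∑' n : ℤ, ‖(slc i₀ (m none) f).coeff n‖ * ρ ^ n
  have h4 : ρ ^ m none * (1 / ρ) ^ (m (some i₀) + m none) = (1 / ρ) ^ m (some i₀) := by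
    rw [pow_add, mul_comm ((1 / ρ) ^ m (some i₀)), ← mul_assoc, ← mul_pow,
      mul_one_div_cancel hρ.ne', one_pow, one_mul]
  rw [mul_assoc, h4]
  have h5 : ρ ^ m (some i₀) * (1 / ρ) ^ m (some i₀) = 1 := by
    rw [← mul_pow, mul_one_div_cancel hρ.ne', one_pow]
  calc ‖MvPowerSeries.coeff m f‖ = ‖MvPowerSeries.coeff m f‖ * ρ ^ m (some i₀) *
        (1 / ρ) ^ m (some i₀) := by rw [mul_assoc, h5, mul_one]
    _ ≤ S * (1 / ρ) ^ m (some i₀) := mul_le_mul_of_nonneg_right h1 (by positivity)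

/-! ### module z2: roots and idempotents on the slice -/

section z2

variable {r : ℕ}

/-- a monic polynomial with `α p + β p' = δ ≠ 0` has distinct roots -/
lemma roots_inj {n : ℕ} (u : Fin n → K) (f α β : K[X]) (δ : K) (hδ : δ ≠ 0)
    (hf : f = ∏ i, (X - C (u i))) (hb : α * f + β * derivative f = C δ) :
    Function.Injective u := by
  rw [← Polynomial.separable_prod_X_sub_C_iff, ← hf]
  refine ⟨C δ⁻¹ * α, C δ⁻¹ * β, ?_⟩
  calc C δ⁻¹ * α * f + C δ⁻¹ * β * derivative f = C δ⁻¹ * (α * f + β * derivative f) := by ring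
    _ = 1 := by rw [hb, ← C_mul, inv_mul_cancel₀ hδ, C_1]

private lemma z2_zero {l : ℕ} (u : Fin l → K) (hu : Function.Injective u) (Bm : MK r)
    (hB : aeval Bm (∏ i, (X - C (u i))) = 0) (q : K[X]) (hq : ∀ i, q.eval (u i) = 0) :
    aeval Bm q = 0 := by
  have h1 : (∏ i, (X - C (u i))) ∣ q := by
    refine Finset.prod_dvd_of_coprime ?_ fun i _ => dvd_iff_isRoot.2 (hq i)
    exact (Polynomial.pairwise_coprime_X_sub_C hu).set_pairwise _
  obtain ⟨g, rfl⟩ := h1
  rw [map_mul, hB, zero_mul]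

/-- the Lagrange polynomials -/
private noncomputable def z2_L {l : ℕ} (u : Fin l → K) (i : Fin l) : K[X] :=
  Lagrange.basis Finset.univ u i

private lemma z2_L_eval {l : ℕ} (u : Fin l → K) (hu : Function.Injective u) (i j : Fin l) :
    (z2_L u i).eval (u j) = if i = j then 1 else 0 := by
  unfold z2_L
  by_cases hij : i = j
  · subst hij
    rw [if_pos rfl, Lagrange.eval_basis_self hu.injOn (Finset.mem_univ i)]
  · rw [if_neg hij, Lagrange.eval_basis_of_ne hij (Finset.mem_univ j)]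

/-- idempotents of a matrix with `f(B) = 0`, `f` with distinct roots `u_i` -/
lemma exists_idem {l : ℕ} (u : Fin l → K) (hu : Function.Injective u) (Bm : MK r)
    (hB : aeval Bm (∏ i, (X - C (u i))) = 0) :
    ∃ e : Fin l → MK r, (∀ i, e i * e i = e i) ∧ (∀ i j, i ≠ j → e i * e j = 0) ∧
      ∑ i, e i = 1 ∧ Bm = ∑ i, u i • e i := by
  refine ⟨fun i => aeval Bm (z2_L u i), ?_, ?_, ?_, ?_⟩
  · intro i
    have h := z2_zero u hu Bm hB (z2_L u i * z2_L u i - z2_L u i) (by
      intro j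
      rw [eval_sub, eval_mul, z2_L_eval u hu]
      split_ifs <;> ring)
    rw [map_sub, map_mul, sub_eq_zero] at h
    exact h
  · intro i j hij
    have h := z2_zero u hu Bm hB (z2_L u i * z2_L u j) (by
      intro m
      rw [eval_mul, z2_L_eval u hu, z2_L_eval u hu]
      by_cases h1 : i = m
      · by_cases h2 : j = m
        · exact absurd (h1.trans h2.symm) hij
        · rw [if_neg h2, mul_zero]
      · rw [if_neg h1, zero_mul])
    rw [map_mul] at h
    exact h
  · have h := z2_zero u hu Bm hB (∑ i, z2_L u i - 1) (by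
      intro m
      rw [eval_sub, eval_finsetSum, eval_one]
      rw [Finset.sum_congr rfl fun i _ => z2_L_eval u hu i m, Finset.sum_ite_eq',
        if_pos (Finset.mem_univ m), sub_self])
    rw [map_sub, map_sum, map_one, sub_eq_zero] at h
    exact h
  · have h := z2_zero u hu Bm hB (X - ∑ i, C (u i) * z2_L u i) (by
      intro m
      rw [eval_sub, eval_finsetSum, eval_X]
      have e1 : ∀ i, (C (u i) * z2_L u i).eval (u m) = if i = m then u i else 0 := by
        intro i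
        rw [eval_mul, eval_C, z2_L_eval u hu]
        split_ifs <;> ring
      rw [Finset.sum_congr rfl fun i _ => e1 i, Finset.sum_ite_eq', if_pos (Finset.mem_univ m),
        sub_self])
    rw [map_sub, map_sum, aeval_X, sub_eq_zero] at h
    refine h.trans (Finset.sum_congr rfl fun i _ => ?_)
    rw [map_mul, aeval_C, Algebra.algebraMap_eq_smul_one, smul_mul_assoc, one_mul]

private lemma z2_pow {l : ℕ} (u : Fin l → K) (e : Fin l → MK r)
    (hid : ∀ i, e i * e i = e i) (horth : ∀ i j, i ≠ j → e i * e j = 0) (hsum : ∑ i, e i = 1)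
    (Bm : MK r) (hB : Bm = ∑ i, u i • e i) (n : ℕ) : Bm ^ n = ∑ i, u i ^ n • e i := by
  induction n with
  | zero =>
    rw [pow_zero, ← hsum]
    exact Finset.sum_congr rfl fun i _ => by rw [pow_zero, one_smul]
  | succ n ih =>
    have h1 : ∀ i, (u i ^ n • e i) * Bm = u i ^ (n + 1) • e i := by
      intro i
      rw [hB, Finset.mul_sum, Finset.sum_eq_single i]
      · rw [Matrix.smul_mul, Matrix.mul_smul, hid, smul_smul, pow_succ]
      · intro j _ hj
        rw [Matrix.smul_mul, Matrix.mul_smul, horth i j (Ne.symm hj), smul_zero, smul_zero]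
      · intro h
        exact absurd (Finset.mem_univ i) h
    rw [pow_succ, ih, Finset.sum_mul]
    exact Finset.sum_congr rfl fun i _ => h1 i

private lemma z2_aeval {l : ℕ} (u : Fin l → K) (e : Fin l → MK r)
    (hid : ∀ i, e i * e i = e i) (horth : ∀ i j, i ≠ j → e i * e j = 0) (hsum : ∑ i, e i = 1)
    (Bm : MK r) (hB : Bm = ∑ i, u i • e i) (q : K[X]) :
    aeval Bm q = ∑ i, q.eval (u i) • e i := by
  rw [aeval_eq_sum_range]
  have h1 : ∀ n, q.coeff n • Bm ^ n = ∑ i, (q.coeff n * u i ^ n) • e i := by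
    intro n
    rw [z2_pow u e hid horth hsum Bm hB n, Finset.smul_sum]
    exact Finset.sum_congr rfl fun i _ => by rw [smul_smul]
  rw [Finset.sum_congr rfl fun n _ => h1 n, Finset.sum_comm]
  refine Finset.sum_congr rfl fun i _ => ?_
  rw [← Finset.sum_smul, eval_eq_sum_range]

private lemma z2_PCmul {p q : K[X]} (hp : ∀ n, Cv (p.coeff n)) (hq : ∀ n, Cv (q.coeff n)) (n : ℕ) :
    Cv ((p * q).coeff n) := by
  rw [coeff_mul]
  exact Cv.sum fun x _ => (hp _).mul (hq _)

private lemma z2_PCC {a : K} (ha : Cv a) (n : ℕ) : Cv ((C a).coeff n) := by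
  rw [coeff_C]
  split_ifs
  · exact ha
  · exact Cv.zero

private lemma z2_PCX (n : ℕ) : Cv ((X : K[X]).coeff n) := by
  rw [coeff_X]
  split_ifs
  · exact Cv.one
  · exact Cv.zero

private lemma z2_PCprod {ι : Type} (s : Finset ι) (f : ι → K[X])
    (h : ∀ i ∈ s, ∀ n, Cv ((f i).coeff n)) (n : ℕ) : Cv ((∏ i ∈ s, f i).coeff n) := by
  classical
  induction s using Finset.induction_on generalizing n with
  | empty =>
    rw [Finset.prod_empty, ← C_1]
    exact z2_PCC Cv.one n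
  | insert a s ha ih =>
    rw [Finset.prod_insert ha]
    exact z2_PCmul (h a (Finset.mem_insert_self a s))
      (fun m => ih (fun i hi => h i (Finset.mem_insert_of_mem hi)) m) n

private lemma z2_PCL {l : ℕ} (u : Fin l → K) (huc : ∀ i, Cv (u i)) (i : Fin l) (n : ℕ) :
    Cv ((z2_L u i).coeff n) := by
  unfold z2_L Lagrange.basis
  refine z2_PCprod _ _ (fun j _ m => ?_) n
  unfold Lagrange.basisDivisor
  refine z2_PCmul (fun m => z2_PCC ((huc i).sub (huc j)).inv m) (fun m => ?_) m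
  rw [coeff_sub]
  exact (z2_PCX m).sub (z2_PCC (huc j) m)

private lemma z2_matpow (Bm : MK r) (hBc : ∀ a b, Cv (Bm a b)) (n : ℕ) :
    ∀ a b, Cv ((Bm ^ n) a b) := by
  induction n with
  | zero =>
    intro a b
    rw [pow_zero]
    by_cases hab : a = b
    · rw [hab, Matrix.one_apply_eq]
      exact Cv.one
    · rw [Matrix.one_apply_ne hab]
      exact Cv.zero
  | succ n ih =>
    intro a b
    rw [pow_succ, Matrix.mul_apply]
    exact Cv.sum fun c _ => (ih a c).mul (hBc c b)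

/-- Lagrange interpolation: the idempotents converge -/
lemma idem_conv {l : ℕ} (u : Fin l → K) (hu : Function.Injective u) (e : Fin l → MK r)
    (hid : ∀ i, e i * e i = e i) (horth : ∀ i j, i ≠ j → e i * e j = 0) (hsum : ∑ i, e i = 1)
    (Bm : MK r) (hB : Bm = ∑ i, u i • e i) (huc : ∀ i, Cv (u i)) (hBc : ∀ a b, Cv (Bm a b))
    (i : Fin l) (a b : Fin r) : Cv (e i a b) := by
  have h1 : aeval Bm (z2_L u i) = e i := by
    rw [z2_aeval u e hid horth hsum Bm hB, Finset.sum_eq_single i]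
    · rw [z2_L_eval u hu, if_pos rfl, one_smul]
    · intro j _ hj
      rw [z2_L_eval u hu, if_neg (Ne.symm hj), zero_smul]
    · intro h
      exact absurd (Finset.mem_univ i) h
  rw [← h1, aeval_eq_sum_range, Matrix.sum_apply]
  refine Cv.sum fun n _ => ?_
  rw [Matrix.smul_apply, smul_eq_mul]
  exact (z2_PCL u huc i n).mul (z2_matpow Bm hBc n a b)

private lemma z2_polD_C (a : K) : polD (zd : Der K) (C a) = C (zd a) := by
  ext1 n
  rw [polD_coeff, coeff_C, coeff_C]
  split_ifs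
  · rfl
  · exact map_zero _

private lemma z2_polD_X : polD (zd : Der K) (X : K[X]) = 0 := by
  ext1 n
  rw [polD_coeff, coeff_X, coeff_zero]
  split_ifs
  · exact Der.map_one' _
  · exact map_zero _

private lemma z2_chain (x : K) (q : K[X]) :
    zd (q.eval x) = (polD zd q).eval x + (derivative q).eval x * zd x := by
  have hX : ∀ p : K[X], zd (p.eval x) = (polD zd p).eval x + (derivative p).eval x * zd x →
      zd ((p * X).eval x) = (polD zd (p * X)).eval x + (derivative (p * X)).eval x * zd x := by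
    intro p hp
    rw [eval_mul, eval_X, Der.leib, hp, Der.leib, z2_polD_X, mul_zero, add_zero, derivative_mul,
      derivative_X, mul_one, eval_mul, eval_X, eval_add, eval_mul, eval_X]
    ring
  induction q using Polynomial.induction_on with
  | C a => rw [eval_C, z2_polD_C, eval_C, derivative_C, eval_zero, zero_mul, add_zero]
  | add p q hp hq =>
    rw [eval_add, map_add, hp, hq, map_add, map_add, eval_add, eval_add]
    ring
  | monomial n a h =>
    rw [pow_succ, ← mul_assoc]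
    exact hX _ h

/-- if moreover `A f'(B) = f^D(B)` with `f^D` the coefficientwise derivative, then
`A = -∑ D(u_i) e_i` -/
lemma A_of_rel {l : ℕ} (u : Fin l → K) (hu : Function.Injective u) (e : Fin l → MK r)
    (hid : ∀ i, e i * e i = e i) (horth : ∀ i j, i ≠ j → e i * e j = 0) (hsum : ∑ i, e i = 1)
    (Bm A : MK r) (hB : Bm = ∑ i, u i • e i) (f : K[X]) (hf : f = ∏ i, (X - C (u i)))
    (hA : A * aeval Bm (derivative f) = aeval Bm (polD zd f)) :
    A = -∑ i, zd (u i) • e i := by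
  have hroot : ∀ i, f.eval (u i) = 0 := by
    intro i
    rw [hf, eval_prod]
    refine Finset.prod_eq_zero (Finset.mem_univ i) ?_
    rw [eval_sub, eval_X, eval_C, sub_self]
  have hne : ∀ i, (derivative f).eval (u i) ≠ 0 := by
    intro i h0
    have h1 := Polynomial.separable_prod_X_sub_C_iff.2 hu
    rw [← hf] at h1
    obtain ⟨a, b, hab⟩ := h1
    have h2 := congrArg (fun p : K[X] => p.eval (u i)) hab
    simp only [eval_add, eval_mul, eval_one] at h2
    rw [hroot i, h0, mul_zero, mul_zero, add_zero] at h2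
    exact zero_ne_one h2
  have hD : ∀ i, (polD zd f).eval (u i) = -(zd (u i) * (derivative f).eval (u i)) := by
    intro i
    have h1 := z2_chain (u i) f
    rw [hroot i, map_zero] at h1
    linear_combination -h1
  rw [z2_aeval u e hid horth hsum Bm hB, z2_aeval u e hid horth hsum Bm hB] at hA
  -- multiply by the inverse
  have hinv : (∑ i, (derivative f).eval (u i) • e i) *
      (∑ j, ((derivative f).eval (u j))⁻¹ • e j) = 1 := by
    rw [Finset.sum_mul, ← hsum]
    refine Finset.sum_congr rfl fun i _ => ?_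
    rw [Finset.mul_sum, Finset.sum_eq_single i]
    · rw [Matrix.smul_mul, Matrix.mul_smul, hid, smul_smul, mul_inv_cancel₀ (hne i), one_smul]
    · intro j _ hj
      rw [Matrix.smul_mul, Matrix.mul_smul, horth i j (Ne.symm hj), smul_zero, smul_zero]
    · intro h
      exact absurd (Finset.mem_univ i) h
  have h3 : A = A * (∑ i, (derivative f).eval (u i) • e i) *
      (∑ j, ((derivative f).eval (u j))⁻¹ • e j) := by
    rw [mul_assoc, hinv, mul_one]
  rw [h3, hA, Finset.sum_mul, ← Finset.sum_neg_distrib]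
  refine Finset.sum_congr rfl fun i _ => ?_
  rw [Finset.mul_sum, Finset.sum_eq_single i]
  · rw [Matrix.smul_mul, Matrix.mul_smul, hid, smul_smul, hD, neg_mul, mul_assoc,
      mul_inv_cancel₀ (hne i), mul_one, neg_smul]
  · intro j _ hj
    rw [Matrix.smul_mul, Matrix.mul_smul, horth i j (Ne.symm hj), smul_zero, smul_zero]
  · intro h
    exact absurd (Finset.mem_univ i) h

end z2

/-! ### module z3: the data on the slice -/

/-- the coefficient of `s^j` on the slice, after the ramification -/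
private noncomputable def z3_h (N : ℕ) (hN : 0 < N) (j : ℕ) : Ser d →+ K where
  toFun f := ram N hN (slc i₀ j f)
  map_zero' := by rw [slc_zero, map_zero]
  map_add' f g := by rw [slc_add, map_add]

/-- the same for `j = 0`, as a ring homomorphism -/
private noncomputable def z3_r (N : ℕ) (hN : 0 < N) : Ser d →+* K :=
  (ram N hN).comp (slc0 i₀)

/-- entrywise -/
private noncomputable def z3_M {r : ℕ} (N : ℕ) (hN : 0 < N) (j : ℕ) (M : Mx d r) : MK r :=
  M.map (z3_h i₀ N hN j)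

/-- the factor `N z^N` -/
private noncomputable def z3_c (N : ℕ) : K := (N : K) * LS.single (N : ℤ) 1

section z3aux

variable (N : ℕ) (hN : 0 < N)

private lemma z3_r_eq (f : Ser d) : z3_r i₀ N hN f = z3_h i₀ N hN 0 f := rfl

private lemma z3_mul (j : ℕ) (f g : Ser d) : z3_h i₀ N hN j (f * g) =
    ∑ p ∈ antidiagonal j, z3_h i₀ N hN p.1 f * z3_h i₀ N hN p.2 g := by
  change ram N hN (slc i₀ j (f * g)) = _
  rw [slc_mul, map_sum]
  refine Finset.sum_congr rfl fun p _ => ?_
  rw [map_mul]; rfl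

private lemma z3_zd (j : ℕ) (f : Ser d) :
    zd (z3_h i₀ N hN j f) = z3_c N * z3_h i₀ N hN j (serD (some i₀) f) := by
  change zd (ram N hN (slc i₀ j f)) = z3_c N * ram N hN (slc i₀ j (serD (some i₀) f))
  rw [ram_zd, slc_pd, map_mul, ram_single, mul_one, z3_c, mul_assoc]

private lemma z3_Vge (j : ℕ) (f : Ser d) : Vge 0 (z3_h i₀ N hN j f) := by
  have h := (ram_Vge N hN (slc i₀ j f) 0).2 (slc_Vge i₀ j f)
  rwa [mul_zero] at h

private lemma z3_c_Vge : Vge 0 (z3_c N) :=
  Vge.mul0 (Vge.natCast _) (Vge.single (by simp) _)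

private lemma z3_sco (j : ℕ) (f : Ser d) : z3_h i₀ N hN 0 (sco j f) = z3_h i₀ N hN j f := by
  change ram N hN (slc i₀ 0 (sco j f)) = ram N hN (slc i₀ j f)
  rw [slc_sco]

private lemma z3_sS_zero (f : Ser d) : z3_h i₀ N hN 0 (sS * f) = 0 := by
  change ram N hN (slc i₀ 0 (sS * f)) = 0
  rw [slc_sS_zero, map_zero]

private lemma z3_sS_succ (j : ℕ) (f : Ser d) :
    z3_h i₀ N hN (j + 1) (sS * f) = z3_h i₀ N hN j f := by
  change ram N hN (slc i₀ (j + 1) (sS * f)) = ram N hN (slc i₀ j f)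
  rw [slc_sS_succ]

private lemma z3_sds (j : ℕ) (f : Ser d) :
    z3_h i₀ N hN (j + 1) (sS ^ 2 * serD none f) = (j : K) * z3_h i₀ N hN j f := by
  change ram N hN (slc i₀ (j + 1) (sS ^ 2 * serD none f)) = (j : K) * ram N hN (slc i₀ j f)
  rw [slc_sds, map_mul, map_natCast]

private lemma z3_sds_zero (f : Ser d) : z3_h i₀ N hN 0 (sS ^ 2 * serD none f) = 0 := by
  change ram N hN (slc i₀ 0 (sS ^ 2 * serD none f)) = 0
  rw [slc_sds_zero, map_zero]

private lemma z3_free {f : Ser d} (hf : SFree f) {j : ℕ} (hj : 0 < j) :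
    z3_h i₀ N hN j f = 0 := by
  change ram N hN (slc i₀ j f) = 0
  rw [slc_of_SFree i₀ hf hj, map_zero]

private lemma z3_top {k : ℕ} {f : Ser d} (hf : ∀ m, k < m none → MvPowerSeries.coeff m f = 0)
    {j : ℕ} (hj : k < j) : z3_h i₀ N hN j f = 0 := by
  change ram N hN (slc i₀ j f) = 0
  have h : slc i₀ j f = 0 := by
    refine LS.ext fun n => ?_
    rw [slc, LS.coeff_mk, LS.coeff_zero]
    split_ifs with hn
    · refine hf _ ?_
      have e : (sexp i₀ n.toNat j) none = j := by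
        rw [sexp, Finsupp.add_apply, Finsupp.single_eq_same, Finsupp.single_eq_of_ne (by simp),
          zero_add]
      rw [e]; exact hj
    · rfl
  rw [h, map_zero]

section mat

variable {r : ℕ}

private lemma z3_M_add (j : ℕ) (M M' : Mx d r) :
    z3_M i₀ N hN j (M + M') = z3_M i₀ N hN j M + z3_M i₀ N hN j M' := by
  refine Matrix.ext fun a b => ?_
  exact map_add (z3_h i₀ N hN j) (M a b) (M' a b)

private lemma z3_M_sub (j : ℕ) (M M' : Mx d r) :
    z3_M i₀ N hN j (M - M') = z3_M i₀ N hN j M - z3_M i₀ N hN j M' := by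
  refine Matrix.ext fun a b => ?_
  exact map_sub (z3_h i₀ N hN j) (M a b) (M' a b)

private lemma z3_M_neg (j : ℕ) (M : Mx d r) :
    z3_M i₀ N hN j (-M) = -z3_M i₀ N hN j M := by
  refine Matrix.ext fun a b => ?_
  exact map_neg (z3_h i₀ N hN j) (M a b)

private lemma z3_M_mul (j : ℕ) (M M' : Mx d r) :
    z3_M i₀ N hN j (M * M') =
      ∑ p ∈ antidiagonal j, z3_M i₀ N hN p.1 M * z3_M i₀ N hN p.2 M' := by
  refine Matrix.ext fun a b => ?_
  rw [Matrix.sum_apply]
  change z3_h i₀ N hN j ((M * M') a b) = _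
  rw [Matrix.mul_apply, map_sum]
  simp only [z3_mul]
  rw [Finset.sum_comm]
  refine Finset.sum_congr rfl fun p _ => ?_
  rw [Matrix.mul_apply]
  rfl

private lemma z3_M_mul0 (M M' : Mx d r) :
    z3_M i₀ N hN 0 (M * M') = z3_M i₀ N hN 0 M * z3_M i₀ N hN 0 M' := by
  rw [z3_M_mul, Finset.Nat.antidiagonal_zero, Finset.sum_singleton]

private lemma z3_M_mul_free (j : ℕ) (M M' : Mx d r) (hM' : ∀ a b, SFree (M' a b)) :
    z3_M i₀ N hN j (M * M') = z3_M i₀ N hN j M * z3_M i₀ N hN 0 M' := by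
  rw [z3_M_mul, Finset.sum_eq_single ((j, 0) : ℕ × ℕ)]
  · rintro ⟨x, y⟩ hxy hne
    have hs := mem_antidiagonal.1 hxy
    have hy : 0 < y := by
      rcases Nat.eq_zero_or_pos y with h | h
      · exfalso
        apply hne
        subst h
        simp only at hs
        rw [add_zero] at hs
        rw [hs]
      · exact h
    have h0 : z3_M i₀ N hN y M' = 0 := by
      refine Matrix.ext fun a b => ?_
      exact z3_free i₀ N hN (hM' a b) hy
    change z3_M i₀ N hN x M * z3_M i₀ N hN y M' = 0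
    rw [h0, mul_zero]
  · intro h
    exact absurd (mem_antidiagonal.2 (by simp)) h

private lemma z3_M_zd (j : ℕ) (M : Mx d r) :
    (z3_M i₀ N hN j M).map zd = z3_c N • z3_M i₀ N hN j (M.map (serD (some i₀))) := by
  refine Matrix.ext fun a b => ?_
  exact z3_zd i₀ N hN j (M a b)

private lemma z3_M_sc (j : ℕ) (M : Mx d r) :
    z3_M i₀ N hN 0 (sc j M) = z3_M i₀ N hN j M := by
  refine Matrix.ext fun a b => ?_
  exact z3_sco i₀ N hN j (M a b)

private lemma z3_M_ring (M : Mx d r) : (z3_r i₀ N hN).mapMatrix M = z3_M i₀ N hN 0 M := rfl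

private lemma z3_aeval (M : Mx d r) (q : (Ser d)[X]) :
    z3_M i₀ N hN 0 (aeval M q) = aeval (z3_M i₀ N hN 0 M) (q.map (z3_r i₀ N hN)) := by
  rw [← z3_M_ring, ← z3_M_ring]
  refine Polynomial.map_aeval_eq_aeval_map (R := Ser d) (S := Mx d r) (T := K) (U := MK r) ?_ q M
  refine RingHom.ext fun x => Matrix.ext fun a b => ?_
  simp only [RingHom.comp_apply, Matrix.algebraMap_eq_diagonal, RingHom.mapMatrix_apply,
    Matrix.map_apply, Matrix.diagonal_apply, Pi.algebraMap_apply]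
  split_ifs
  · rfl
  · rw [map_zero]

private lemma z3_polD (q : (Ser d)[X]) :
    polD zd (q.map (z3_r i₀ N hN)) = C (z3_c N) * (polD (serD (some i₀)) q).map (z3_r i₀ N hN) := by
  ext n
  rw [polD_coeff, coeff_map, coeff_C_mul, coeff_map, polD_coeff]
  rw [z3_r_eq, z3_r_eq, z3_zd]

/-- the relation for `A` on the slice -/
private lemma z3_rel {p : (Ser d)[X]} {A : Fin d → Mx d r} {B : Mx d r} (hE : Eig p A B) :
    (z3_c N • z3_M i₀ N hN 0 (A i₀)) *
        aeval (z3_M i₀ N hN 0 B) (derivative (p.map (z3_r i₀ N hN))) =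
      aeval (z3_M i₀ N hN 0 B) (polD zd (p.map (z3_r i₀ N hN))) := by
  have h := congrArg (z3_M i₀ N hN 0) (hE.rel i₀)
  rw [z3_M_mul0, z3_aeval, z3_aeval, z3_M_sc, z3_M_sc] at h
  rw [z3_polD, map_mul, aeval_C, Polynomial.derivative_map, smul_mul_assoc, h,
    Algebra.algebraMap_eq_smul_one, smul_mul_assoc, one_mul]

private lemma z3_root {p : (Ser d)[X]} {A : Fin d → Mx d r} {B : Mx d r} (hE : Eig p A B) :
    aeval (z3_M i₀ N hN 0 B) (p.map (z3_r i₀ N hN)) = 0 := by
  have h := congrArg (z3_M i₀ N hN 0) hE.root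
  rw [z3_aeval, z3_M_sc] at h
  rw [h]
  refine Matrix.ext fun a b => ?_
  exact map_zero (z3_h i₀ N hN 0)

end mat

end z3aux

/-- the `z`-version of the normal form -/
theorem slice_data {r : ℕ} (m k : ℕ) (p α β : (Ser d)[X]) (hp : p.Monic)
    (hdisc : α * p + β * derivative p = C (MvPowerSeries.X (some i₀) ^ m))
    (A A' : Fin d → Mx d r) (B B' G H : Mx d r)
    (hNF : NF k A A' B B' G H) (hE : Eig p A B) (hE' : Eig p A' B') (N : ℕ) (hN : 0 < N)
    (u : Fin p.natDegree → K) (hu : ∀ i, Vge 0 (u i))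
    (hf : (p.map (slc0 i₀)).map (ram N hN) = ∏ i, (X - C (u i))) :
    ∃ e e' : Fin p.natDegree → MK r,
      GData k u e e'
        (fun j => ((N : K) * LS.single (N : ℤ) 1) • (A i₀).map fun f => ram N hN (slc i₀ j f))
        (fun j => B.map fun f => ram N hN (slc i₀ j f))
        (fun j => B'.map fun f => ram N hN (slc i₀ j f))
        (fun j => G.map fun f => ram N hN (slc i₀ j f)) := by
  change ∃ e e' : Fin p.natDegree → MK r,
      GData k u e e' (fun j => z3_c N • z3_M i₀ N hN j (A i₀))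
        (fun j => z3_M i₀ N hN j B) (fun j => z3_M i₀ N hN j B') (fun j => z3_M i₀ N hN j G)
  have hmap : (p.map (slc0 i₀)).map (ram N hN) = p.map (z3_r i₀ N hN) := by
    rw [Polynomial.map_map]; rfl
  rw [hmap] at hf
  -- the roots are distinct
  have hinj : Function.Injective u := by
    refine roots_inj u (p.map (z3_r i₀ N hN)) (α.map (z3_r i₀ N hN)) (β.map (z3_r i₀ N hN))
      (z3_r i₀ N hN (MvPowerSeries.X (some i₀) ^ m)) ?_ hf ?_
    · rw [map_pow]
      refine pow_ne_zero _ ?_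
      change ram N hN (slc i₀ 0 (MvPowerSeries.X (some i₀))) ≠ 0
      rw [slc_X, Ne, map_eq_zero]
      intro h
      have h1 := congrArg (fun x : K => x.coeff 1) h
      simp only [LS.coeff_single_same, LS.coeff_zero] at h1
      exact one_ne_zero h1
    · have h := congrArg (Polynomial.map (z3_r i₀ N hN)) hdisc
      rw [Polynomial.map_add, Polynomial.map_mul, Polynomial.map_mul, Polynomial.map_C,
        ← Polynomial.derivative_map] at h
      exact h
  -- the idempotents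
  obtain ⟨e, he1, he2, he3, he4⟩ := exists_idem u hinj (z3_M i₀ N hN 0 B)
    (by rw [← hf]; exact z3_root i₀ N hN hE)
  obtain ⟨e', he1', he2', he3', he4'⟩ := exists_idem u hinj (z3_M i₀ N hN 0 B')
    (by rw [← hf]; exact z3_root i₀ N hN hE')
  have hA0 := A_of_rel u hinj e he1 he2 he3 (z3_M i₀ N hN 0 B) _ he4 _ hf (z3_rel i₀ N hN hE)
  have hA0' := A_of_rel u hinj e' he1' he2' he3' (z3_M i₀ N hN 0 B') _ he4' _ hf
    (z3_rel i₀ N hN hE')
  have hAm : Am u e' = z3_c N • z3_M i₀ N hN 0 (A' i₀) := hA0'.symm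
  refine ⟨e, e', ?_⟩
  -- the equations for `B'`
  have hdat : Dat k u e' fun j => z3_M i₀ N hN j B' := by
    refine ⟨hu, hinj, he1', he2', he3', he4', fun j a b => z3_Vge i₀ N hN j _, ?_, ?_, ?_⟩
    · rw [hAm]
      intro a b
      exact Vge.mul0 (z3_c_Vge N) (z3_Vge i₀ N hN 0 _)
    · intro j hj
      refine Matrix.ext fun a b => ?_
      exact z3_top i₀ N hN (hNF.deg a b) (lt_trans (Nat.lt_succ_self k) hj)
    · intro j
      rw [hAm]
      rcases Nat.eq_zero_or_pos j with h0 | h0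
      · subst h0
        rw [if_pos rfl, ← z3_M_sc i₀ N hN 0 B', z3_M_zd, hNF.eq0 i₀, z3_M_sub, z3_M_sub,
          z3_M_neg, z3_M_mul0, z3_M_mul0, z3_M_sc]
        simp only [zero_add, smul_sub, smul_neg, smul_mul_assoc, mul_smul_comm]
      · rw [if_neg h0.ne', ← z3_M_sc i₀ N hN j B', z3_M_zd, hNF.eqj i₀ j h0, z3_M_neg,
          z3_M_sub, z3_M_mul0, z3_M_mul0, z3_M_sc]
        simp only [smul_sub, smul_neg, smul_mul_assoc, mul_smul_comm, neg_zero, zero_sub]
  refine ⟨hdat, he1, he2, he3, he4, hA0, ?_, ?_, ?_, ?_⟩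
  · -- the equation of `P`
    intro j
    have h := congrArg (z3_M i₀ N hN (j + 1)) (hNF.P i₀)
    rw [z3_M_add, z3_M_mul, z3_M_mul_free i₀ N hN (j + 1) G (A' i₀) (hNF.free i₀)] at h
    have h1 : z3_M i₀ N hN (j + 1) ((sS : Ser d) • G.map (serD (some i₀))) =
        z3_M i₀ N hN j (G.map (serD (some i₀))) := by
      refine Matrix.ext fun a b => ?_
      exact z3_sS_succ i₀ N hN j _
    rw [h1] at h
    change (z3_M i₀ N hN j G).map zd + ∑ p ∈ antidiagonal (j + 1),
      (z3_c N • z3_M i₀ N hN p.1 (A i₀)) * z3_M i₀ N hN p.2 G = z3_M i₀ N hN (j + 1) G * Am u e'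
    rw [z3_M_zd, hAm, mul_smul_comm, ← h, smul_add, Finset.smul_sum]
    congr 1
    refine Finset.sum_congr rfl fun p _ => ?_
    rw [smul_mul_assoc]
  · -- its leading part
    have h := congrArg (z3_M i₀ N hN 0) (hNF.P i₀)
    rw [z3_M_add, z3_M_mul0, z3_M_mul0] at h
    have h1 : z3_M i₀ N hN 0 ((sS : Ser d) • G.map (serD (some i₀))) = 0 := by
      refine Matrix.ext fun a b => ?_
      exact z3_sS_zero i₀ N hN _
    rw [h1, zero_add] at h
    change (z3_c N • z3_M i₀ N hN 0 (A i₀)) * z3_M i₀ N hN 0 G = z3_M i₀ N hN 0 G * Am u e'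
    rw [hAm, smul_mul_assoc, h, mul_smul_comm]
  · -- the equation of `T`
    intro j
    have h := congrArg (z3_M i₀ N hN (j + 1)) hNF.T
    rw [z3_M_add, z3_M_mul, z3_M_mul] at h
    have h1 : z3_M i₀ N hN (j + 1) ((sS : Ser d) ^ 2 • G.map (serD none)) =
        (j : K) • z3_M i₀ N hN j G := by
      refine Matrix.ext fun a b => ?_
      exact z3_sds i₀ N hN j _
    rw [h1] at h
    exact h
  · have h := congrArg (z3_M i₀ N hN 0) hNF.T
    rw [z3_M_add, z3_M_mul0, z3_M_mul0] at h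
    have h1 : z3_M i₀ N hN 0 ((sS : Ser d) ^ 2 • G.map (serD none)) = 0 := by
      refine Matrix.ext fun a b => ?_
      exact z3_sds_zero i₀ N hN _
    rw [h1, zero_add] at h
    exact h

/-! ### module z4: convergence on the slice -/

private lemma z4_min {ι : Type} [Finite ι] (ρ : ι → ℝ) (h : ∀ i, 0 < ρ i) :
    ∃ ρ₀ : ℝ, 0 < ρ₀ ∧ ∀ i, ρ₀ ≤ ρ i := by
  rcases isEmpty_or_nonempty ι with hι | hι
  · exact ⟨1, one_pos, fun i => (hι.false i).elim⟩
  · obtain ⟨j, hj⟩ := Finite.exists_min ρ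
    exact ⟨ρ j, h j, hj⟩

private lemma z4_root {ρ : ℝ} (hρ : 0 < ρ) {N : ℕ} (hN : 0 < N) :
    ∃ ρ' : ℝ, 0 < ρ' ∧ ρ' ^ N ≤ ρ := by
  refine ⟨min ρ 1, lt_min hρ one_pos, ?_⟩
  calc (min ρ 1) ^ N ≤ (min ρ 1) ^ 1 :=
        pow_le_pow_of_le_one (le_min hρ.le zero_le_one) (min_le_right _ _) hN
    _ = min ρ 1 := pow_one _
    _ ≤ ρ := min_le_left _ _

private lemma z4_ram {N : ℕ} (hN : 0 < N) {x : K} (hx : Cv x) : Cv (ram N hN x) := by
  obtain ⟨ρ, hρ, h⟩ := hx
  obtain ⟨ρ', hρ', hle⟩ := z4_root hρ hN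
  exact ⟨ρ', hρ', (ram_Lsum N hN hρ' x).2 (h.mono (pow_pos hρ' N) hle)⟩

private lemma z4_fam {r : ℕ} (M : Mx d r) (hM : ∀ a b, IsFormal (M a b)) :
    ∃ ρ : ℝ, 0 < ρ ∧ ∀ j a b, Lsum ρ (slc i₀ j (M a b)) := by
  choose ρ hρ h using fun p : Fin r × Fin r => slc_formal i₀ (hM p.1 p.2)
  obtain ⟨ρ₀, h0, h1⟩ := z4_min ρ hρ
  exact ⟨ρ₀, h0, fun j a b => (h (a, b) j).mono h0 (h1 (a, b))⟩

theorem slice_conv {r : ℕ} (m k : ℕ) (p α β : (Ser d)[X]) (hp : p.Monic)
    (hpo : PolOK p) (hα : PolOK α) (hβ : PolOK β)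
    (hdisc : α * p + β * derivative p = C (MvPowerSeries.X (some i₀) ^ m))
    (A A' : Fin d → Mx d r) (B B' G H : Mx d r)
    (hA : ∀ i a b, IsFormal (A i a b)) (hB : ∀ a b, IsFormal (B a b))
    (hNF : NF k A A' B B' G H) (hE : Eig p A B) (hE' : Eig p A' B') :
    ∃ ρ : ℝ, 0 < ρ ∧ (∀ j a b, Lsum ρ (slc i₀ j (G a b))) ∧
      (∀ j a b, Lsum ρ (slc i₀ j (B' a b))) ∧ ∀ j a b, Lsum ρ (slc i₀ j (A' i₀ a b)) := by
  rcases Nat.eq_zero_or_pos p.natDegree with hl | hl
  · -- the degenerate case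
    have hp1 : p = 1 := Polynomial.eq_one_of_monic_natDegree_zero hp hl
    have h1 := hE.root
    rw [hp1, map_one] at h1
    refine ⟨1, one_pos, fun j a b => ?_, fun j a b => ?_, fun j a b => ?_⟩ <;>
    · exfalso
      have h2 := congrFun (congrFun h1 a) a
      rw [Matrix.one_apply_eq, Matrix.zero_apply] at h2
      exact one_ne_zero h2
  -- Puiseux
  obtain ⟨N, hN, u', hu', hf'⟩ := puiseux (p.map (slc0 i₀)) (hp.map _) (by
    intro n
    rw [coeff_map]
    exact slc_Vge i₀ 0 _)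
  have hdeg : (p.map (slc0 i₀)).natDegree = p.natDegree := hp.natDegree_map _
  obtain ⟨u, hu, hf⟩ : ∃ u : Fin p.natDegree → K, (∀ i, Vge 0 (u i)) ∧
      (p.map (slc0 i₀)).map (ram N hN) = ∏ i, (X - C (u i)) := by
    rw [← hdeg]
    exact ⟨u', hu', hf'⟩
  obtain ⟨e, e', hG⟩ := slice_data i₀ m k p α β hp hdisc A A' B B' G H hNF hE hE' N hN u hu hf
  -- convergence of the coefficients of a polynomial
  have hcoef : ∀ q : (Ser d)[X], PolOK q → ∀ n, Cv (((q.map (slc0 i₀)).map (ram N hN)).coeff n) := by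
    intro q hq n
    rw [coeff_map, coeff_map]
    obtain ⟨ρ, hρ, h⟩ := slc_formal i₀ (hq.formal n)
    exact z4_ram hN ⟨ρ, hρ, h 0⟩
  -- the discriminant
  have hX : (ram N hN) (slc0 i₀ (MvPowerSeries.X (some i₀))) = LS.single (N : ℤ) 1 := by
    have h1 : slc0 i₀ (MvPowerSeries.X (some i₀)) = LS.single 1 1 := slc_X i₀
    rw [h1, ram_single, mul_one]
  have hδ : (ram N hN) (slc0 i₀ (MvPowerSeries.X (some i₀) ^ m)) = (LS.single (N : ℤ) 1 : K) ^ m := by
    rw [map_pow, map_pow, hX]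
  have hdisc' : (α.map (slc0 i₀)).map (ram N hN) * (p.map (slc0 i₀)).map (ram N hN) +
      (β.map (slc0 i₀)).map (ram N hN) * derivative ((p.map (slc0 i₀)).map (ram N hN)) =
      C ((LS.single (N : ℤ) 1 : K) ^ m) := by
    rw [derivative_map, derivative_map, ← Polynomial.map_mul, ← Polynomial.map_mul,
      ← Polynomial.map_mul, ← Polynomial.map_mul, ← Polynomial.map_add, ← Polynomial.map_add,
      hdisc, map_C, map_C, hδ]
  have hsing : (LS.single (N : ℤ) 1 : K) ≠ 0 := by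
    intro h0
    have h1 := congrArg (fun x : K => x.coeff (N : ℤ)) h0
    simp only [LS.coeff_single_same, LS.coeff_zero] at h1
    exact one_ne_zero h1
  obtain ⟨𝒜, h𝒜, hA1, hA2⟩ := exists_A u ((p.map (slc0 i₀)).map (ram N hN))
    ((α.map (slc0 i₀)).map (ram N hN)) ((β.map (slc0 i₀)).map (ram N hN))
    ((LS.single (N : ℤ) 1 : K) ^ m) (pow_ne_zero m hsing) ((Cv.single _ _).pow m) hf
    (hcoef p hpo) (hcoef β hβ) hdisc'
  have huc : ∀ i, Cv (u i) := fun i => u_conv 𝒜 h𝒜 (u i) (hu i) (hA1 i) (hA2 i)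
  have hB'c := fun j a b => B_conv hG.dat hl 𝒜 h𝒜 hA1 hA2 j a b
  have he' : ∀ i a b, Cv (e' i a b) := fun i a b => e_conv hG.dat huc (hB'c 0) i a b
  -- radii of the original frame
  obtain ⟨ρA, hρA, hAs⟩ := z4_fam i₀ (A i₀) (hA i₀)
  obtain ⟨ρB, hρB, hBs⟩ := z4_fam i₀ B hB
  obtain ⟨ρ₁, hρ₁, hle⟩ := z4_root (lt_min hρA hρB) hN
  have hpow : 0 < ρ₁ ^ N := pow_pos hρ₁ N
  have hb : ∀ j a b, Lsum ρ₁ ((B.map fun f => ram N hN (slc i₀ j f)) a b) := by
    intro j a b
    exact (ram_Lsum N hN hρ₁ _).2 ((hBs j a b).mono hpow (hle.trans (min_le_right _ _)))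
  have ha : ∀ j a b, Lsum ρ₁ ((((N : K) * LS.single (N : ℤ) 1) •
      (A i₀).map fun f => ram N hN (slc i₀ j f)) a b) := by
    intro j a b
    rw [Matrix.smul_apply, smul_eq_mul]
    have h1 : Lsum ρ₁ (N : K) := by
      have h2 : (N : K) = LS.C (N : ℂ) := (map_natCast (LS.C : ℂ →+* K) N).symm
      rw [h2]
      exact Lsum.C _
    exact ((h1.mul hρ₁ (Lsum.single _ _))).mul hρ₁
      ((ram_Lsum N hN hρ₁ _).2 ((hAs j a b).mono hpow (hle.trans (min_le_left _ _))))
  have he : ∀ i a b, Cv (e i a b) := by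
    intro i a b
    exact idem_conv u hG.dat.uinj e hG.idem hG.orth hG.sum _ hG.b0 huc
      (fun a b => ⟨ρ₁, hρ₁, hb 0 a b⟩) i a b
  -- the inverse of `G`
  have hmap : ∀ M M' : Mx d r, (M * M').map (slc0 i₀) = M.map (slc0 i₀) * M'.map (slc0 i₀) :=
    fun M M' => Matrix.map_mul
  have hmap1 : (1 : Mx d r).map (slc0 i₀) = 1 := Matrix.map_one _ (map_zero _) (map_one _)
  have hGH : G.map (slc0 i₀) * H.map (slc0 i₀) = 1 := by rw [← hmap, hNF.GH, hmap1]
  have hHG : H.map (slc0 i₀) * G.map (slc0 i₀) = 1 := by rw [← hmap, hNF.HG, hmap1]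
  have hg0 : (G.map fun f => ram N hN (slc i₀ 0 f)) *
      ((H.map (slc0 i₀)).map (ram N hN)) = 1 := by
    have h1 : (G.map fun f => ram N hN (slc i₀ 0 f)) = (G.map (slc0 i₀)).map (ram N hN) := rfl
    rw [h1, ← Matrix.map_mul, hGH]
    exact Matrix.map_one _ (map_zero _) (map_one _)
  obtain ⟨ρ₂, hρ₂, hgs⟩ := gauge_conv hG _ hg0 hρ₁ ha hb huc he he' hB'c
  have hGs : ∀ j a b, Lsum (ρ₂ ^ N) (slc i₀ j (G a b)) := fun j a b =>
    (ram_Lsum N hN hρ₂ _).1 (hgs j a b)
  -- `B'`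
  obtain ⟨ρ₃, hρ₃, hBs'⟩ := Cv.common (ι := Fin (k + 2) × (Fin r × Fin r))
    (f := fun x => (B'.map fun f => ram N hN (slc i₀ x.1.val f)) x.2.1 x.2.2)
    (fun x => hB'c x.1.val x.2.1 x.2.2)
  have hBs'' : ∀ j a b, Lsum (ρ₃ ^ N) (slc i₀ j (B' a b)) := by
    intro j a b
    rw [← ram_Lsum N hN hρ₃]
    by_cases hj : j < k + 2
    · exact hBs' (⟨j, hj⟩, (a, b))
    · have h1 := hG.dat.top j (by omega)
      have h2 : ram N hN (slc i₀ j (B' a b)) = 0 := congrFun (congrFun h1 a) b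
      rw [h2]
      exact Lsum.zero _
  -- `A'`
  have hA' : (A' i₀).map (slc0 i₀) =
      H.map (slc0 i₀) * ((A i₀).map (slc0 i₀) * G.map (slc0 i₀)) := by
    have h1 := congrArg (fun M : Mx d r => M.map (slc0 i₀)) (hNF.P i₀)
    have h2 : ((sS : Ser d) • G.map (serD (some i₀)) + A i₀ * G).map (slc0 i₀) =
        (A i₀).map (slc0 i₀) * G.map (slc0 i₀) := by
      rw [← hmap]
      refine Matrix.ext fun a b => ?_
      rw [Matrix.map_apply, Matrix.map_apply, Matrix.add_apply, map_add, Matrix.smul_apply,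
        smul_eq_mul]
      have h3 : slc0 i₀ ((sS : Ser d) * (G.map (serD (some i₀))) a b) = 0 := slc_sS_zero i₀ _
      rw [h3, zero_add]
    have h4 : (A i₀).map (slc0 i₀) * G.map (slc0 i₀) =
        G.map (slc0 i₀) * (A' i₀).map (slc0 i₀) := by
      rw [← h2, ← hmap]
      exact h1
    rw [h4, ← mul_assoc, hHG, one_mul]
  have hGc : ∀ a b, Cv ((G.map (slc0 i₀)) a b) := fun a b =>
    ⟨ρ₂ ^ N, pow_pos hρ₂ N, hGs 0 a b⟩
  have hHc : ∀ a b, Cv ((H.map (slc0 i₀)) a b) := Cv.matInv hGH hGc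
  have hAc : ∀ a b, Cv (((A i₀).map (slc0 i₀)) a b) := fun a b => ⟨ρA, hρA, hAs 0 a b⟩
  have hA'c : ∀ a b, Cv (((A' i₀).map (slc0 i₀)) a b) := by
    intro a b
    rw [hA', Matrix.mul_apply]
    refine Cv.sum fun c _ => (hHc a c).mul ?_
    rw [Matrix.mul_apply]
    exact Cv.sum fun c' _ => (hAc c c').mul (hGc c' b)
  obtain ⟨ρ₄, hρ₄, hAs'⟩ := Cv.common (ι := Fin r × Fin r)
    (f := fun x => ((A' i₀).map (slc0 i₀)) x.1 x.2) (fun x => hA'c x.1 x.2)
  have hAs'' : ∀ j a b, Lsum ρ₄ (slc i₀ j (A' i₀ a b)) := by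
    intro j a b
    rcases Nat.eq_zero_or_pos j with rfl | hj
    · exact hAs' (a, b)
    · rw [slc_of_SFree i₀ (hNF.free i₀ a b) hj]
      exact Lsum.zero _
  -- the common radius
  have h1 : 0 < ρ₂ ^ N := pow_pos hρ₂ N
  have h2 : 0 < ρ₃ ^ N := pow_pos hρ₃ N
  have h0 : 0 < min (ρ₂ ^ N) (min (ρ₃ ^ N) ρ₄) := lt_min h1 (lt_min h2 hρ₄)
  exact ⟨min (ρ₂ ^ N) (min (ρ₃ ^ N) ρ₄), h0,
    fun j a b => (hGs j a b).mono h0 (min_le_left _ _),
    fun j a b => (hBs'' j a b).mono h0 ((min_le_right _ _).trans (min_le_left _ _)),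
    fun j a b => (hAs'' j a b).mono h0 ((min_le_right _ _).trans (min_le_right _ _))⟩

/-- one variable (module z5) -/
theorem conv_one {r : ℕ} (i₀ : Fin 1) (m k : ℕ) (p α β : (Ser 1)[X]) (hp : p.Monic)
    (hpo : PolOK p) (hα : PolOK α) (hβ : PolOK β)
    (hdisc : α * p + β * derivative p = C (MvPowerSeries.X (some i₀) ^ m))
    (A A' : Fin 1 → Mx 1 r) (B B' G H : Mx 1 r)
    (hA : ∀ i a b, IsFormal (A i a b)) (hB : ∀ a b, IsFormal (B a b))
    (hNF : NF k A A' B B' G H) (hE : Eig p A B) (hE' : Eig p A' B') :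
    (∀ i a b, IsFormal (A' i a b)) ∧ (∀ a b, IsFormal (B' a b)) ∧ ∀ a b, IsFormal (G a b) := by
  obtain ⟨ρ, hρ, h1, h2, h3⟩ := slice_conv i₀ m k p α β hp hpo hα hβ hdisc A A' B B' G H hA hB
    hNF hE hE'
  refine ⟨fun i a b => ?_, fun a b => formal_of_slc i₀ hρ fun j => h2 j a b,
    fun a b => formal_of_slc i₀ hρ fun j => h1 j a b⟩
  rw [Subsingleton.elim i i₀]
  exact formal_of_slc i₀ hρ fun j => h3 j a b

end Pool.Agent.Fbc
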