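import Pool.Agent.Fbc.NFd
import Pool.Agent.Fbc.Slc

import Pool.Agent.Fbc.NFh

/-!
# Descent in any dimension, by restriction to lines (helper49)
-/

set_option autoImplicit false

namespace Pool.Agent.Fbc

open Polynomial

open Pool.Fml (Ser SymRing formal micro IsFormal IsMicro cm eulM)

open MeasureTheory

variable {d r : ℕ}

instance instDomSer : IsDomain (Ser d) := NoZeroDivisors.to_isDomain _

instance instCharZeroSer : CharZero (Ser d) :=
  charZero_of_injective_algebraMap (algebraMap ℂ (Ser d)).injective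

/-! ## e1: rules for `line` -/

private lemma e1_none (m : Fin d →₀ ℕ) (j : ℕ) : xexp m j none = j := by
  rw [xexp, Finsupp.add_apply, Finsupp.single_eq_same,
    Finsupp.mapDomain_of_notMem_range _ _ (by simp), zero_add]

private lemma e1_some (m : Fin d →₀ ℕ) (j : ℕ) (i : Fin d) : xexp m j (some i) = m i := by
  rw [xexp, Finsupp.add_apply, Finsupp.mapDomain_apply (Option.some_injective _),
    Finsupp.single_apply, if_neg (by simp), add_zero]

private lemma e1_addn (m : Fin d →₀ ℕ) (j k : ℕ) :
    xexp m j + Finsupp.single none k = xexp m (j + k) := by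
  rw [xexp, xexp, add_assoc, ← Finsupp.single_add]

private lemma e1_adds (m : Fin d →₀ ℕ) (j k : ℕ) (i : Fin d) :
    xexp m j + Finsupp.single (some i) k = xexp (m + Finsupp.single i k) j := by
  rw [xexp, xexp, Finsupp.mapDomain_add, Finsupp.mapDomain_single]
  abel

private lemma e1_coeff (v : Fin d → ℂ) (f : Ser d) (μ : Option (Fin 1) →₀ ℕ) :
    MvPowerSeries.coeff μ (line v f) =
      ∑ m ∈ Finset.finsuppAntidiag Finset.univ (μ (some 0)),
        MvPowerSeries.coeff (xexp m (μ none)) f * ∏ i, v i ^ m i := by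
  rw [coeff_line, hpart, map_sum]
  refine Finset.sum_congr rfl fun m _ => ?_
  rw [MvPolynomial.eval_monomial, Finsupp.prod_fintype _ _ fun _ => pow_zero _]

private lemma e1_X (v : Fin d → ℂ) (o : Option (Fin d)) :
    line v (MvPowerSeries.X o) =
      (o.elim 1 v : ℂ) • (MvPowerSeries.X (toLine d o) : Ser 1) := by
  have h1 : MvPowerSeries.rescale (fun o : Option (Fin d) => (o.elim 1 v : ℂ))
      (MvPowerSeries.X o) = (o.elim 1 v : ℂ) • (MvPowerSeries.X o : Ser d) := by
    classical
    ext m
    rw [MvPowerSeries.coeff_rescale, MvPowerSeries.coeff_smul, MvPowerSeries.coeff_X]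
    split_ifs with h
    · have h3 := Finsupp.prod_single_index (a := o) (b := 1)
        (h := fun (s : Option (Fin d)) (m : ℕ) => (s.elim 1 v : ℂ) ^ m) (pow_zero _)
      rw [h, h3, pow_one]
    · rw [mul_zero, mul_zero]
  have h2 : line v (MvPowerSeries.X o) = MvPowerSeries.rename (toLine d)
      (MvPowerSeries.rescale (fun o : Option (Fin d) => (o.elim 1 v : ℂ))
        (MvPowerSeries.X o)) := rfl
  rw [h2, h1, map_smul, MvPowerSeries.rename_X]

private lemma e1_sco (j : ℕ) (f : Ser d) (m : Option (Fin d) →₀ ℕ) :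
    MvPowerSeries.coeff m (sco j f) =
      if m none = 0 then MvPowerSeries.coeff (m + Finsupp.single none j) f else 0 := rfl

/-- MODULE e1 -/
lemma line_sS (v : Fin d → ℂ) : line v (sS : Ser d) = sS := by
  rw [sS, e1_X]
  exact one_smul _ _

lemma line_X (v : Fin d → ℂ) (i : Fin d) :
    line v (MvPowerSeries.X (some i)) = v i • (MvPowerSeries.X (some 0) : Ser 1) := by
  rw [e1_X]
  rfl

lemma line_serD_none (v : Fin d → ℂ) (f : Ser d) :
    line v (serD none f) = serD none (line v f) := by
  ext μ
  rw [serD_apply, serD_apply, MvPowerSeries.coeff_pderiv, e1_coeff, e1_coeff]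
  have h1 : (μ + Finsupp.single none 1 : Option (Fin 1) →₀ ℕ) (some 0) = μ (some 0) := by
    rw [Finsupp.add_apply, Finsupp.single_apply, if_neg (by simp), add_zero]
  have h2 : (μ + Finsupp.single none 1 : Option (Fin 1) →₀ ℕ) none = μ none + 1 := by
    rw [Finsupp.add_apply, Finsupp.single_eq_same]
  rw [h1, h2, Finset.sum_mul]
  refine Finset.sum_congr rfl fun m _ => ?_
  rw [MvPowerSeries.coeff_pderiv, e1_addn, e1_none]
  ring

private lemma e1_hpart (f : Ser d) (n j : ℕ) (i : Fin d) :
    hpart (serD (some i) f) n j = MvPolynomial.pderiv i (hpart f (n + 1) j) := by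
  ext m
  rw [coeff_hpart, MvPolynomial.coeff_pderiv, coeff_hpart, serD_apply,
    MvPowerSeries.coeff_pderiv, e1_adds, e1_some]
  have h : (m + Finsupp.single i 1).degree = m.degree + 1 := by
    rw [map_add, Finsupp.degree_single]
  rw [h]
  by_cases hm : m.degree = n
  · rw [if_pos hm, if_pos (by omega)]
  · rw [if_neg hm, if_neg (by omega), zero_mul]

private lemma e1_homog (f : Ser d) (n j : ℕ) : (hpart f n j).IsHomogeneous n := by
  refine MvPolynomial.IsHomogeneous.sum _ _ _ fun m hm => ?_
  rw [Finset.mem_finsuppAntidiag] at hm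
  refine MvPolynomial.isHomogeneous_monomial _ ?_
  rw [Finsupp.degree_eq_sum]
  exact hm.1

lemma line_serD (v : Fin d → ℂ) (f : Ser d) :
    serD (some 0) (line v f) = ∑ i, v i • line v (serD (some i) f) := by
  ext μ
  rw [serD_apply, MvPowerSeries.coeff_pderiv, map_sum, coeff_line]
  have h1 : (μ + Finsupp.single (some 0) 1 : Option (Fin 1) →₀ ℕ) (some 0)
      = μ (some 0) + 1 := by
    rw [Finsupp.add_apply, Finsupp.single_eq_same]
  have h2 : (μ + Finsupp.single (some 0) 1 : Option (Fin 1) →₀ ℕ) none = μ none := by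
    rw [Finsupp.add_apply, Finsupp.single_apply, if_neg (by simp), add_zero]
  rw [h1, h2]
  have h3 := congrArg (MvPolynomial.eval v)
    (e1_homog f (μ (some 0) + 1) (μ none)).sum_X_mul_pderiv
  rw [map_sum] at h3
  simp only [map_mul, MvPolynomial.eval_X, nsmul_eq_mul, map_natCast] at h3
  have h4 : ∀ i ∈ Finset.univ, MvPowerSeries.coeff μ (v i • line v (serD (some i) f)) =
      v i * MvPolynomial.eval v (MvPolynomial.pderiv i
        (hpart f (μ (some 0) + 1) (μ none))) := fun i _ => by
    rw [MvPowerSeries.coeff_smul, coeff_line, e1_hpart]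
  rw [Finset.sum_congr rfl h4, h3]
  push_cast
  ring

lemma line_sco (v : Fin d → ℂ) (j : ℕ) (f : Ser d) : line v (sco j f) = sco j (line v f) := by
  ext μ
  rw [e1_sco, e1_coeff]
  split_ifs with h
  · rw [e1_coeff]
    have h1 : (μ + Finsupp.single none j : Option (Fin 1) →₀ ℕ) (some 0) = μ (some 0) := by
      rw [Finsupp.add_apply, Finsupp.single_apply, if_neg (by simp), add_zero]
    have h2 : (μ + Finsupp.single none j : Option (Fin 1) →₀ ℕ) none = j := by
      rw [Finsupp.add_apply, Finsupp.single_eq_same, h, zero_add]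
    rw [h1, h2]
    refine Finset.sum_congr rfl fun m _ => ?_
    rw [e1_sco, e1_none, if_pos h, e1_addn, h, zero_add]
  · refine Finset.sum_eq_zero fun m _ => ?_
    rw [e1_sco, e1_none, if_neg h, zero_mul]

lemma line_SFree (v : Fin d → ℂ) {f : Ser d} (hf : SFree f) : SFree (line v f) := by
  intro μ hμ
  rw [e1_coeff]
  refine Finset.sum_eq_zero fun m _ => ?_
  rw [hf _ (by rw [e1_none]; exact hμ), zero_mul]

lemma line_low (v : Fin d → ℂ) {k : ℕ} {f : Ser d}
    (hf : ∀ m, k < m none → MvPowerSeries.coeff m f = 0) :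
    ∀ m, k < m none → MvPowerSeries.coeff m (line v f) = 0 := by
  intro μ hμ
  rw [e1_coeff]
  refine Finset.sum_eq_zero fun m _ => ?_
  rw [hf _ (by rw [e1_none]; exact hμ), zero_mul]

private lemma e1_card (d n : ℕ) :
    (Finset.finsuppAntidiag (Finset.univ : Finset (Fin d)) n).card ≤ (2 ^ d) ^ n := by
  calc (Finset.finsuppAntidiag (Finset.univ : Finset (Fin d)) n).card
      ≤ (Fintype.piFinset fun _ : Fin d => Finset.range (n + 1)).card := by
        refine Finset.card_le_card_of_injOn (fun m => (m : Fin d → ℕ)) ?_ ?_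
        · intro m hm
          rw [Finset.mem_coe, Finset.mem_finsuppAntidiag] at hm
          rw [Finset.mem_coe, Fintype.mem_piFinset]
          intro i
          rw [Finset.mem_range]
          have := Finset.single_le_sum (f := fun i => m i) (fun _ _ => Nat.zero_le _)
            (Finset.mem_univ i)
          have h1 : ∑ i, m i = n := hm.1
          change m i < n + 1
          omega
        · intro m _ m' _ h
          exact DFunLike.coe_injective h
    _ = (n + 1) ^ d := by rw [Fintype.card_piFinset_const, Finset.card_range]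
    _ ≤ (2 ^ n) ^ d := Nat.pow_le_pow_left (Nat.succ_le_of_lt n.lt_two_pow_self) d
    _ = (2 ^ d) ^ n := by rw [← pow_mul, ← pow_mul, mul_comm]

lemma line_formal (v : Fin d → ℂ) {f : Ser d} (hf : IsFormal f) : IsFormal (line v f) := by
  obtain ⟨R, hR, hC⟩ := hf
  set V : ℝ := 1 + ∑ i, ‖v i‖ with hV
  have hV0 : 0 ≤ ∑ i, ‖v i‖ := Finset.sum_nonneg fun _ _ => norm_nonneg _
  have hV1 : 1 ≤ V := by rw [hV]; linarith
  have hvV : ∀ i, ‖v i‖ ≤ V := fun i => by
    have := Finset.single_le_sum (f := fun i => ‖v i‖) (fun _ _ => norm_nonneg _)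
      (Finset.mem_univ i)
    rw [hV]
    linarith
  have h2d : (1 : ℝ) ≤ 2 ^ d := one_le_pow₀ (by norm_num)
  refine ⟨2 ^ d * V * R, by positivity, fun j => ?_⟩
  obtain ⟨C, hC⟩ := hC j
  refine ⟨|C|, fun μ hμ => ?_⟩
  have hdeg : μ.degree = μ (some 0) + j := by
    rw [Finsupp.degree_eq_sum, Fintype.sum_option, hμ, Fin.sum_univ_one, add_comm]
  set n := μ (some 0) with hn
  have hterm : ∀ m ∈ Finset.finsuppAntidiag (Finset.univ : Finset (Fin d)) n,
      ‖MvPowerSeries.coeff (xexp m (μ none)) f * ∏ i, v i ^ m i‖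
        ≤ |C| * R ^ (n + j) * V ^ n := by
    intro m hm
    rw [Finset.mem_finsuppAntidiag] at hm
    have hmd : (xexp m (μ none)).degree = n + j := by
      rw [Finsupp.degree_eq_sum, Fintype.sum_option, e1_none, hμ, add_comm]
      congr 1
      rw [← hm.1]
      exact Finset.sum_congr rfl fun i _ => e1_some m _ i
    rw [norm_mul]
    refine mul_le_mul ?_ ?_ (norm_nonneg _) (by positivity)
    · refine (hC (xexp m (μ none)) (by rw [e1_none]; exact hμ)).trans ?_
      rw [hmd]
      exact mul_le_mul_of_nonneg_right (le_abs_self C) (by positivity)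
    · rw [norm_prod]
      calc ∏ i, ‖v i ^ m i‖ ≤ ∏ i, V ^ m i := by
            refine Finset.prod_le_prod (fun _ _ => norm_nonneg _) fun i _ => ?_
            rw [norm_pow]
            exact pow_le_pow_left₀ (norm_nonneg _) (hvV i) _
        _ = V ^ n := by rw [Finset.prod_pow_eq_pow_sum, ← hm.1]
  change ‖MvPowerSeries.coeff μ (line v f)‖ ≤ _
  rw [e1_coeff]
  calc ‖∑ m ∈ Finset.finsuppAntidiag (Finset.univ : Finset (Fin d)) n,
        MvPowerSeries.coeff (xexp m (μ none)) f * ∏ i, v i ^ m i‖
      ≤ ∑ m ∈ Finset.finsuppAntidiag (Finset.univ : Finset (Fin d)) n,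
        |C| * R ^ (n + j) * V ^ n := norm_sum_le_of_le _ hterm
    _ = (Finset.finsuppAntidiag (Finset.univ : Finset (Fin d)) n).card *
        (|C| * R ^ (n + j) * V ^ n) := by rw [Finset.sum_const, nsmul_eq_mul]
    _ ≤ (2 ^ d) ^ n * (|C| * R ^ (n + j) * V ^ n) := by
        refine mul_le_mul_of_nonneg_right ?_ (by positivity)
        exact_mod_cast e1_card d n
    _ ≤ (2 ^ d) ^ (n + j) * (|C| * R ^ (n + j) * V ^ (n + j)) := by
        refine mul_le_mul (pow_le_pow_right₀ h2d (by omega)) ?_ (by positivity) (by positivity)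
        exact mul_le_mul_of_nonneg_left (pow_le_pow_right₀ hV1 (by omega)) (by positivity)
    _ = |C| * (2 ^ d * V * R) ^ μ.degree := by
        rw [hdeg, mul_pow, mul_pow]
        ring

/-! ## e2: the system on a line -/

/-- the matrix of `s ∂_z` on the line `x = z v` -/
noncomputable def lineA (v : Fin d → ℂ) (A : Fin d → Mx d r) : Fin 1 → Mx 1 r :=
  fun _ => ∑ i, v i • (A i).map (line v)

private lemma e2_mul (v : Fin d → ℂ) (M N : Mx d r) :
    (M * N).map (line v) = M.map (line v) * N.map (line v) := Matrix.map_mul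

private lemma e2_sc (v : Fin d → ℂ) (j : ℕ) (M : Mx d r) :
    sc j (M.map (line v)) = (sc j M).map (line v) := by
  ext1 a b
  exact (line_sco v j (M a b)).symm

private lemma e2_apply (v : Fin d → ℂ) (F : Fin d → Mx d r) (o : Fin 1) (a b : Fin r) :
    lineA v F o a b = ∑ i, v i • line v (F i a b) := by
  rw [lineA, Matrix.sum_apply]
  rfl

private lemma e2_add (v : Fin d → ℂ) (F F' : Fin d → Mx d r) (o : Fin 1) :
    lineA v (fun i => F i + F' i) o = lineA v F o + lineA v F' o := by
  ext1 a b
  rw [Matrix.add_apply, e2_apply, e2_apply, e2_apply, ← Finset.sum_add_distrib]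
  refine Finset.sum_congr rfl fun i _ => ?_
  rw [Matrix.add_apply, map_add, smul_add]

private lemma e2_neg (v : Fin d → ℂ) (F : Fin d → Mx d r) (o : Fin 1) :
    lineA v (fun i => -F i) o = -lineA v F o := by
  ext1 a b
  rw [Matrix.neg_apply, e2_apply, e2_apply, ← Finset.sum_neg_distrib]
  refine Finset.sum_congr rfl fun i _ => ?_
  rw [Matrix.neg_apply, map_neg, smul_neg]

private lemma e2_sub (v : Fin d → ℂ) (F F' : Fin d → Mx d r) (o : Fin 1) :
    lineA v (fun i => F i - F' i) o = lineA v F o - lineA v F' o := by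
  rw [sub_eq_add_neg, ← e2_neg, ← e2_add]
  simp only [sub_eq_add_neg]

private lemma e2_smul (v : Fin d → ℂ) (g : Ser d) (F : Fin d → Mx d r) (o : Fin 1) :
    lineA v (fun i => g • F i) o = line v g • lineA v F o := by
  ext1 a b
  rw [Matrix.smul_apply, e2_apply, e2_apply, smul_eq_mul, Finset.mul_sum]
  refine Finset.sum_congr rfl fun i _ => ?_
  rw [Matrix.smul_apply, smul_eq_mul, map_mul, mul_smul_comm]

private lemma e2_left (v : Fin d → ℂ) (N : Mx d r) (F : Fin d → Mx d r) (o : Fin 1) :
    lineA v (fun i => N * F i) o = N.map (line v) * lineA v F o := by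
  rw [lineA, lineA, Matrix.mul_sum]
  refine Finset.sum_congr rfl fun i _ => ?_
  rw [e2_mul, Matrix.mul_smul]

private lemma e2_right (v : Fin d → ℂ) (N : Mx d r) (F : Fin d → Mx d r) (o : Fin 1) :
    lineA v (fun i => F i * N) o = lineA v F o * N.map (line v) := by
  rw [lineA, lineA, Matrix.sum_mul]
  refine Finset.sum_congr rfl fun i _ => ?_
  rw [e2_mul, Matrix.smul_mul]

private lemma e2_der (v : Fin d → ℂ) (M : Mx d r) (o : Fin 1) :
    (M.map (line v)).map (serD (some o)) = lineA v (fun i => M.map (serD (some i))) o := by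
  ext1 a b
  rw [e2_apply, Subsingleton.elim o 0]
  exact line_serD v (M a b)

private lemma e2_scA (v : Fin d → ℂ) (j : ℕ) (F : Fin d → Mx d r) (o : Fin 1) :
    sc j (lineA v F o) = lineA v (fun i => sc j (F i)) o := by
  ext1 a b
  ext μ
  change MvPowerSeries.coeff μ (sco j (lineA v F o a b)) = _
  rw [e1_sco, e2_apply, e2_apply, map_sum, map_sum]
  have h1 : ∀ i ∈ (Finset.univ : Finset (Fin d)),
      MvPowerSeries.coeff μ (v i • line v (sc j (F i) a b)) =
      if μ none = 0 then
        MvPowerSeries.coeff (μ + Finsupp.single none j) (v i • line v (F i a b)) else 0 :=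
    fun i _ => by
      change MvPowerSeries.coeff μ (v i • line v (sco j (F i a b))) = _
      rw [line_sco, MvPowerSeries.coeff_smul, MvPowerSeries.coeff_smul, e1_sco]
      split_ifs
      · rfl
      · rw [mul_zero]
  rw [Finset.sum_congr rfl h1]
  split_ifs
  · rfl
  · rw [Finset.sum_const_zero]

private lemma e2_scA' (v : Fin d → ℂ) {F F' : Fin d → Mx d r} (h : ∀ i, F i = F' i)
    (o : Fin 1) : lineA v F o = lineA v F' o := by
  rw [funext h]

/-- MODULE e2 -/
theorem NF.line (v : Fin d → ℂ) {k : ℕ} {A A' : Fin d → Mx d r} {B B' G H : Mx d r}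
    (h : NF k A A' B B' G H) :
    NF k (lineA v A) (lineA v A') (B.map (line v)) (B'.map (line v)) (G.map (line v))
      (H.map (line v)) := by
  have hone : (1 : Mx d r).map (Pool.Agent.Fbc.line v) = 1 :=
    Matrix.map_one _ (map_zero _) (map_one _)
  refine ⟨?_, ?_, fun o => ?_, ?_, fun o a b => ?_, fun a b => ?_, fun o => ?_, fun o => ?_,
    fun o j hj => ?_⟩
  · rw [← e2_mul, h.GH, hone]
  · rw [← e2_mul, h.HG, hone]
  · rw [e2_der, ← line_sS v, ← e2_smul, ← e2_right, ← e2_add, ← e2_left]
    exact e2_scA' v h.P o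
  · have h1 : (G.map (Pool.Agent.Fbc.line v)).map (serD none)
        = (G.map (serD none)).map (Pool.Agent.Fbc.line v) := by
      ext1 a b
      exact (line_serD_none v (G a b)).symm
    have h2 : ((sS : Ser d) ^ 2 • G.map (serD none)).map (Pool.Agent.Fbc.line v)
        = (sS : Ser 1) ^ 2 • (G.map (serD none)).map (Pool.Agent.Fbc.line v) := by
      ext1 a b
      rw [Matrix.smul_apply, Matrix.map_apply, Matrix.smul_apply, smul_eq_mul, smul_eq_mul,
        map_mul, map_pow, line_sS]
      rfl
    rw [h1, ← h2, ← e2_mul, ← e2_mul, ← h.T]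
    ext1 a b
    rw [Matrix.add_apply, Matrix.map_apply, Matrix.map_apply, Matrix.map_apply,
      Matrix.add_apply, map_add]
  · rw [e2_apply]
    intro m hm
    rw [map_sum]
    refine Finset.sum_eq_zero fun i _ => ?_
    rw [MvPowerSeries.coeff_smul, line_SFree v (h.free i a b) m hm, mul_zero]
  · exact line_low v (h.deg a b)
  · rw [e2_sc, ← e2_right, ← e2_left]
    exact e2_scA' v h.comm0 o
  · rw [e2_sc, e2_sc, e2_der, ← e2_right, ← e2_left, ← e2_neg, ← e2_sub, ← e2_sub]
    exact e2_scA' v h.eq0 o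
  · rw [e2_sc, e2_sc, e2_der, ← e2_right, ← e2_left, ← e2_sub, ← e2_neg]
    exact e2_scA' v (fun i => h.eqj i j hj) o

private lemma e2_aeval (v : Fin d → ℂ) (M : Mx d r) (p : (Ser d)[X]) :
    aeval (M.map (line v)) (p.map (line v)) = (aeval M p).map (line v) := by
  have h1 : (line v).mapMatrix (eval₂ (algebraMap (Ser d) (Mx d r)) M p) =
      eval₂ ((line v).mapMatrix.comp (algebraMap (Ser d) (Mx d r)))
        ((line v).mapMatrix M) p := Polynomial.hom_eval₂ _ _ _ _
  have h2 : ((line v).mapMatrix.comp (algebraMap (Ser d) (Mx d r)) : Ser d →+* Mx 1 r) =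
      (algebraMap (Ser 1) (Mx 1 r)).comp (line v) := by
    ext1 f
    change (algebraMap (Ser d) (Mx d r) f).map (line v) = algebraMap (Ser 1) (Mx 1 r) (line v f)
    ext1 a b
    rw [Matrix.map_apply, Matrix.algebraMap_matrix_apply, Matrix.algebraMap_matrix_apply]
    split_ifs
    · rfl
    · exact map_zero _
  rw [aeval_def, aeval_def, eval₂_map, ← h2]
  exact h1.symm

/-- MODULE e2 -/
theorem Eig.line (v : Fin d → ℂ) {p : (Ser d)[X]} {A : Fin d → Mx d r} {B : Mx d r}
    (h : Eig p A B) : Eig (p.map (line v)) (lineA v A) (B.map (line v)) := by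
  refine ⟨fun o => ?_, ?_, fun o => ?_⟩
  · rw [e2_scA, e2_sc, ← e2_right, ← e2_left]
    exact e2_scA' v h.comm o
  · rw [e2_sc, e2_aeval, h.root]
    exact Matrix.map_zero _ (map_zero _)
  · rw [e2_scA, e2_sc, Polynomial.derivative_map, e2_aeval, ← e2_right,
      e2_scA' v h.rel o, lineA]
    have h1 : polD (serD (some o)) (p.map (Pool.Agent.Fbc.line v)) =
        ∑ i, v i • (polD (serD (some i)) p).map (Pool.Agent.Fbc.line v) := by
      ext1 n
      rw [polD_coeff, Polynomial.coeff_map, Polynomial.finsetSum_coeff, Subsingleton.elim o 0,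
        line_serD]
      refine Finset.sum_congr rfl fun i _ => ?_
      rw [Polynomial.coeff_smul, Polynomial.coeff_map, polD_coeff]
    rw [h1, map_sum]
    refine Finset.sum_congr rfl fun i _ => ?_
    rw [← e2_aeval]
    exact ((aeval ((sc 0 B).map (Pool.Agent.Fbc.line v))).toLinearMap.map_smul_of_tower
      (v i) _).symm

/-! ## e3: the polynomial `q` -/

section e3

variable {R : Type} [CommRing R] [IsDomain R] [CharZero R]

omit [CharZero R] in
private lemma e3_clear (f : (FractionRing R)[X]) :
    ∃ (D : R) (g : R[X]), D ≠ 0 ∧ g.map (algebraMap R (FractionRing R)) =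
      C (algebraMap R (FractionRing R) D) * f := by
  obtain ⟨D, hD', hD⟩ := IsLocalization.integerNormalization_spec (nonZeroDivisors R) f
  refine ⟨D, IsLocalization.integerNormalization (nonZeroDivisors R) f,
    nonZeroDivisors.ne_zero hD', ?_⟩
  rw [hD]
  ext n
  rw [Polynomial.coeff_smul, Polynomial.coeff_C_mul, Algebra.smul_def]

private lemma e3_gen {r : ℕ} (B : Matrix (Fin r) (Fin r) R) :
    ∃ (q α β : R[X]) (Δ : R) (N : ℕ), Δ ≠ 0 ∧ α * q + β * derivative q = C Δ ∧
      aeval B (q ^ N) = 0 := by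
  set L := FractionRing R
  have hι : Function.Injective (algebraMap R L) := IsFractionRing.injective R L
  have : CharZero L := charZero_of_injective_algebraMap hι
  set χ : L[X] := B.charpoly.map (algebraMap R L) with hχ
  have hχ0 : χ ≠ 0 := (B.charpoly_monic.map _).ne_zero
  obtain ⟨y, n, hy, hyx, hxy⟩ := exists_squarefree_dvd_pow_of_ne_zero hχ0
  obtain ⟨a, b, hab⟩ := PerfectField.separable_iff_squarefree.2 hy
  obtain ⟨D, q, hD, hq⟩ := e3_clear y
  obtain ⟨D₁, a₁, hD₁, ha₁⟩ := e3_clear a
  obtain ⟨D₂, b₁, hD₂, hb₁⟩ := e3_clear b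
  refine ⟨q, C D₂ * a₁, C D₁ * b₁, D * D₁ * D₂, n, mul_ne_zero (mul_ne_zero hD hD₁) hD₂, ?_, ?_⟩
  · refine Polynomial.map_injective _ hι ?_
    rw [Polynomial.map_add, Polynomial.map_mul, Polynomial.map_mul, Polynomial.map_mul,
      Polynomial.map_mul, Polynomial.map_C, Polynomial.map_C, Polynomial.map_C, ha₁, hb₁, hq,
      ← Polynomial.derivative_map, hq, Polynomial.derivative_C_mul]
    simp only [map_mul]
    linear_combination (C (algebraMap R L D) * C (algebraMap R L D₁) * C (algebraMap R L D₂)) * hab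
  · obtain ⟨h, hh⟩ := hxy
    have h1 : (q ^ n).map (algebraMap R L) = (C (algebraMap R L D)) ^ n * h * χ := by
      rw [Polynomial.map_pow, hq, mul_pow, hh]
      ring
    have h2 : ∀ f : R[X], (aeval B f).map (algebraMap R L) =
        aeval (B.map (algebraMap R L)) (f.map (algebraMap R L)) := by
      intro f
      have h3 := Polynomial.hom_eval₂ f (algebraMap R (Matrix (Fin r) (Fin r) R))
        ((algebraMap R L).mapMatrix (m := Fin r)) B
      have h4 : (aeval B f).map (algebraMap R L) = (algebraMap R L).mapMatrix (aeval B f) := rfl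
      rw [h4, Polynomial.aeval_def, h3, Polynomial.aeval_def, Polynomial.eval₂_map]
      congr 1
      ext x i j
      rw [RingHom.comp_apply, RingHom.comp_apply, RingHom.mapMatrix_apply, Matrix.map_apply,
        Matrix.algebraMap_matrix_apply, Matrix.algebraMap_matrix_apply]
      split_ifs
      · rfl
      · exact map_zero _
    have h5 : aeval (B.map (algebraMap R L)) χ = 0 := by
      rw [hχ, ← h2, Matrix.aeval_self_charpoly]
      exact Matrix.map_zero _ (map_zero _)
    have h6 : (aeval B (q ^ n)).map (algebraMap R L) = 0 := by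
      rw [h2, h1, map_mul, h5, mul_zero]
    ext i j
    have h7 := congrFun (congrFun h6 i) j
    rw [Matrix.map_apply, Matrix.zero_apply] at h7
    rw [Matrix.zero_apply]
    exact hι (h7.trans (map_zero _).symm)

end e3

/-- MODULE e3. `K` = field of fractions of the domain `CvS d`, `p` = radical of the characteristic
polynomial of `B` over `K`, `q = D p` with `D` a common denominator. -/
theorem exists_q (B : Mx d r) (hB : ∀ i j, B i j ∈ CvS d) :
    ∃ (q α β : (CvS d)[X]) (Δ : CvS d) (N : ℕ), Δ ≠ 0 ∧ α * q + β * derivative q = C Δ ∧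
      aeval B (q ^ N) = 0 := by
  have : CharZero (CvS d) := charZero_of_injective_algebraMap (algebraMap ℂ (CvS d)).injective
  set B₀ : Matrix (Fin r) (Fin r) (CvS d) := fun i j => ⟨B i j, hB i j⟩ with hB₀
  obtain ⟨q, α, β, Δ, N, hΔ, hq, h0⟩ := e3_gen B₀
  refine ⟨q, α, β, Δ, N, hΔ, hq, ?_⟩
  have e1 : B = (CvS d).val.toRingHom.mapMatrix B₀ := rfl
  have h3 := Polynomial.hom_eval₂ (q ^ N) (algebraMap (CvS d) (Matrix (Fin r) (Fin r) (CvS d)))
    ((CvS d).val.toRingHom.mapMatrix (m := Fin r)) B₀
  rw [← Polynomial.aeval_def, h0, map_zero] at h3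
  rw [Polynomial.aeval_def, e1, h3]
  congr 1
  refine RingHom.ext fun x => ?_
  ext1 i j
  rw [RingHom.comp_apply, RingHom.mapMatrix_apply, Matrix.map_apply,
    Matrix.algebraMap_matrix_apply, Matrix.algebraMap_matrix_apply]
  split_ifs
  · rfl
  · exact (map_zero _).symm

/-! ## e4: change of the polynomial -/

section e4

private lemma e4_map {S L : Type} [CommRing S] [Field L] [Algebra S L] {r : ℕ}
    (B : Matrix (Fin r) (Fin r) S) (f : S[X]) :
    (aeval B f).map (algebraMap S L) =
      aeval (B.map (algebraMap S L)) (f.map (algebraMap S L)) := by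
  have h3 := Polynomial.hom_eval₂ f (algebraMap S (Matrix (Fin r) (Fin r) S))
    ((algebraMap S L).mapMatrix (m := Fin r)) B
  have h4 : (aeval B f).map (algebraMap S L) = (algebraMap S L).mapMatrix (aeval B f) := rfl
  rw [h4, Polynomial.aeval_def, h3, Polynomial.aeval_def, Polynomial.eval₂_map]
  congr 1
  ext x i j
  rw [RingHom.comp_apply, RingHom.comp_apply, RingHom.mapMatrix_apply, Matrix.map_apply,
    Matrix.algebraMap_matrix_apply, Matrix.algebraMap_matrix_apply]
  split_ifs
  · rfl
  · exact map_zero _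

private lemma e4_field {L : Type} [Field L] (θ : Der L) {r : ℕ}
    (A B : Matrix (Fin r) (Fin r) L) (hc : A * B = B * A) (q : L[X]) (hsep : q.Separable)
    (hq0 : aeval B q = 0) (hqr : A * aeval B (derivative q) = aeval B (polD θ q)) (p : L[X])
    (n : ℕ) (hn0 : n ≠ 0) (hn : aeval B (p ^ n) = 0) :
    aeval B p = 0 ∧ A * aeval B (derivative p) = aeval B (polD θ p) := by
  have hcom : ∀ f : L[X], A * aeval B f = aeval B f * A := by
    intro f
    induction f using Polynomial.induction_on' with
    | add f g hf hg => rw [map_add, mul_add, add_mul, hf, hg]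
    | monomial m a =>
      rw [Polynomial.aeval_monomial, ← mul_assoc, ← Algebra.commutes, mul_assoc, mul_assoc]
      congr 1
      exact (Commute.pow_right hc m)
  obtain ⟨c, hqc⟩ := minpoly.dvd L B hq0
  have hdiv : minpoly L B ∣ q := ⟨c, hqc⟩
  have hsq : Squarefree (minpoly L B) := (hsep.of_dvd hdiv).squarefree
  have hpn : minpoly L B ∣ p ^ n := minpoly.dvd L B hn
  obtain ⟨c', hpc⟩ := (hsq.dvd_pow_iff_dvd hn0).1 hpn
  have hμ : aeval B (minpoly L B) = 0 := minpoly.aeval L B
  have hcop : IsCoprime (minpoly L B) c := by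
    rw [hqc] at hsep
    exact hsep.isCoprime
  obtain ⟨u, v, huv⟩ := hcop
  have hcv : aeval B c * aeval B v = 1 := by
    have h1 := congrArg (aeval B) huv
    rw [map_add, map_mul, map_mul, hμ, mul_zero, zero_add, map_one] at h1
    rw [← map_mul, mul_comm c v, map_mul]
    exact h1
  -- the defect
  have hD : ∀ f g : L[X], aeval B f = 0 →
      aeval B (polD θ (f * g)) - A * aeval B (derivative (f * g)) =
        (aeval B (polD θ f) - A * aeval B (derivative f)) * aeval B g := by
    intro f g hf
    rw [Der.leib, Polynomial.derivative_mul, map_add, map_mul, map_mul, map_add, map_mul, map_mul,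
      hf, zero_mul, zero_mul, add_zero, add_zero, sub_mul, mul_assoc]
  have hDq : aeval B (polD θ q) - A * aeval B (derivative q) = 0 := by rw [hqr, sub_self]
  have hDμ : aeval B (polD θ (minpoly L B)) - A * aeval B (derivative (minpoly L B)) = 0 := by
    rw [hqc, hD _ _ hμ] at hDq
    have h1 := congrArg (fun M => M * aeval B v) hDq
    rw [mul_assoc, hcv, mul_one, zero_mul] at h1
    exact h1
  refine ⟨by rw [hpc, map_mul, hμ, zero_mul], ?_⟩
  have hDp := hD (minpoly L B) c' hμ
  rw [hDμ, zero_mul, ← hpc] at hDp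
  exact (sub_eq_zero.1 hDp).symm

end e4

/-- MODULE e4. Over `K = FractionRing S`: let `μ` be the minimal polynomial of `B`; `q = μ c` is
separable, so `μ` is squarefree and divides `p`, `p = μ c'`, and `c(B)` is invertible. The map
`D f = f^θ(B) - A f'(B)` satisfies `D (f g) = D f g(B) + f(B) D g`, so `D q = 0` gives
`D μ = 0` and `D p = 0`. (The extension of `θ` to `K` is `frD`.) -/
theorem eig_transfer {S : Type} [CommRing S] [IsDomain S] [CharZero S] (θ : Der S)
    (A B : Matrix (Fin r) (Fin r) S) (hc : A * B = B * A) (q α β : S[X]) (Δ : S) (hΔ : Δ ≠ 0)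
    (hq : α * q + β * derivative q = C Δ) (hq0 : aeval B q = 0)
    (hqr : A * aeval B (derivative q) = aeval B (polD θ q)) (p a b : S[X]) (δ : S) (hδ : δ ≠ 0)
    (hp : a * p + b * derivative p = C δ) (n : ℕ) (hn : aeval B (p ^ n) = 0) :
    aeval B p = 0 ∧ A * aeval B (derivative p) = aeval B (polD θ p) := by
  by_cases hn0 : n = 0
  · rw [hn0, pow_zero, map_one] at hn
    have : Subsingleton (Matrix (Fin r) (Fin r) S) := subsingleton_of_zero_eq_one hn.symm
    exact ⟨Subsingleton.elim _ _, Subsingleton.elim _ _⟩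
  set L := FractionRing S
  set ι : S →+* L := algebraMap S L with hι'
  have hι : Function.Injective ι := IsFractionRing.injective S L
  have hmi : ∀ M M' : Matrix (Fin r) (Fin r) S, M.map ι = M'.map ι → M = M' := by
    intro M M' h
    ext i j
    exact hι (congrFun (congrFun h i) j)
  have hpol : ∀ f : S[X], (polD θ f).map ι = polD (frD L θ) (f.map ι) := by
    intro f
    ext m
    rw [Polynomial.coeff_map, polD_coeff, polD_coeff, Polynomial.coeff_map, hι', frD_algebraMap]
  have hmul : ∀ M M' : Matrix (Fin r) (Fin r) S, (M * M').map ι = M.map ι * M'.map ι :=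
    fun M M' => Matrix.map_mul
  have hsep : (q.map ι).Separable := by
    refine ⟨C (ι Δ)⁻¹ * α.map ι, C (ι Δ)⁻¹ * β.map ι, ?_⟩
    have h1 := congrArg (Polynomial.map ι) hq
    rw [Polynomial.map_add, Polynomial.map_mul, Polynomial.map_mul, Polynomial.map_C,
      ← Polynomial.derivative_map] at h1
    have h2 : (C (ι Δ)⁻¹ : L[X]) * C (ι Δ) = 1 := by
      rw [← C_mul, inv_mul_cancel₀ (fun h => hΔ (hι (h.trans (map_zero ι).symm))), C_1]
    linear_combination C (ι Δ)⁻¹ * h1 + h2
  have key := e4_field (frD L θ) (A.map ι) (B.map ι) (by rw [← hmul, ← hmul, hc]) (q.map ι) hsep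
    (by rw [← e4_map, hq0]; exact Matrix.map_zero _ (map_zero _))
    (by rw [Polynomial.derivative_map, ← hpol, ← e4_map, ← e4_map, ← hmul, hqr]) (p.map ι) n hn0
    (by rw [← Polynomial.map_pow, ← e4_map, hn]; exact Matrix.map_zero _ (map_zero _))
  obtain ⟨k1, k2⟩ := key
  rw [← e4_map] at k1
  rw [Polynomial.derivative_map, ← hpol, ← e4_map, ← e4_map, ← hmul] at k2
  exact ⟨hmi _ _ (k1.trans (Matrix.map_zero _ (map_zero _)).symm), hmi _ _ k2⟩

/-! ## e5: closedness -/

/-- the normal form together with the relations -/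
theorem exists_NF_rel {A : Fin d → Mx d r} {B : Mx d r} (h : Rel A B) :
    ∃ (k : ℕ) (A' : Fin d → Mx d r) (B' G H : Mx d r), NF k A A' B B' G H ∧ Rel A' B' := by
  obtain ⟨k, A', B', G, H, hNF⟩ := exists_NF h
  exact ⟨k, A', B', G, H, hNF, h.gauge hNF.gau⟩

/-- `∂_i A_j = ∂_j A_i` -/
private lemma e5_closed {A : Fin d → Mx d r} {B : Mx d r} (h : Rel A B)
    (hf : ∀ i a b, SFree (A i a b)) (i j : Fin d) :
    (A j).map (serD (some i)) = (A i).map (serD (some j)) := by
  have h1 := congrArg (sc 1) (h.PP i j)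
  rw [sc_add, sc_sub, sc_sub, sc_zero, show (1 : ℕ) = 0 + 1 from rfl, sc_s_succ, sc_s_succ,
    sc_free_mul _ (hf i), sc_free_mul _ (hf j), sc_free_pos (hf j) (by omega),
    sc_free_pos (hf i) (by omega), sc_map_serD, sc_map_serD, sc_free_zero (hf i),
    sc_free_zero (hf j), mul_zero, mul_zero, sub_zero, add_zero] at h1
  exact sub_eq_zero.1 h1

/-- `∂_i (∑ x_j A_j) = E A_i + A_i` -/
private lemma e5_eul {A : Fin d → Mx d r} {B : Mx d r} (h : Rel A B)
    (hf : ∀ i a b, SFree (A i a b)) (i : Fin d) :
    (∑ j, (MvPowerSeries.X (some j) : Ser d) • A j).map (serD (some i))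
      = eulM (wx d) (A i) + A i := by
  have eul_eq : ∀ U : Mx d r, ∑ j, (MvPowerSeries.X (some j) : Ser d) • U.map (serD (some j))
      = eulM (wx d) U := by
    intro U
    ext1 a b
    rw [Matrix.sum_apply, Pool.Fml.eulM_apply, Pool.Fml.eul_apply, Fintype.sum_option]
    simp only [wx, Option.elim, zero_smul, zero_add, one_smul]
    rfl
  have h3 : (∑ j, (MvPowerSeries.X (some j) : Ser d) • A j).map (serD (some i)) =
      (∑ j, (MvPowerSeries.X (some j) : Ser d) • (A j).map (serD (some i))) + A i := by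
    ext1 a b
    rw [Matrix.map_apply, Matrix.sum_apply, map_sum, Matrix.add_apply, Matrix.sum_apply]
    have h4 : ∀ j, (serD (some i)) (((MvPowerSeries.X (some j) : Ser d) • A j) a b) =
        ((MvPowerSeries.X (some j) : Ser d) • (A j).map (serD (some i))) a b
          + if j = i then A i a b else 0 := by
      intro j
      rw [Matrix.smul_apply, smul_eq_mul, Der.leib, Matrix.smul_apply, Matrix.map_apply,
        smul_eq_mul, add_comm]
      congr 1
      rw [serD_apply]
      by_cases hji : j = i
      · subst hji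
        rw [if_pos rfl, MvPowerSeries.pderiv_X_self, one_mul]
      · rw [if_neg hji, MvPowerSeries.pderiv_X_of_ne (by simpa using hji), zero_mul]
    simp only [h4, Finset.sum_add_distrib, Finset.sum_ite_eq', Finset.mem_univ, if_true]
  rw [h3, ← eul_eq]
  congr 1
  exact Finset.sum_congr rfl fun j _ => by rw [e5_closed h hf i j]

/-- MODULE e5. The coefficient of `s` in `[P_i, P_j] = 0`: `∂_i A_j = ∂_j A_i`; hence
`(E + 1) A_i = ∂_i (∑ x_j A_j)`. -/
theorem formal_A {A : Fin d → Mx d r} {B : Mx d r} (h : Rel A B)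
    (hf : ∀ i a b, SFree (A i a b))
    (hE : ∀ a b, IsFormal ((∑ i, (MvPowerSeries.X (some i) : Ser d) • A i) a b)) :
    ∀ i a b, IsFormal (A i a b) := by
  intro i a b
  have h1 := Pool.Fml.isFormal_pderiv (some i) _ (hE a b)
  refine Pool.Fml.Tame.mono h1 fun m => ?_
  have h2 := congrArg (fun M : Mx d r => cm m M a b) (e5_eul h hf i)
  simp only [map_add, Pool.Fml.cm_eulM] at h2
  have h3 : MvPowerSeries.coeff m (MvPowerSeries.pderiv ℂ (some i)
      ((∑ i, (MvPowerSeries.X (some i) : Ser d) • A i) a b))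
      = (((Finsupp.weight (wx d) m + 1 : ℕ) : ℂ)) * MvPowerSeries.coeff m (A i a b) := by
    push_cast
    rw [add_mul, one_mul]
    exact h2
  change ‖MvPowerSeries.coeff m (A i a b)‖ ≤ ‖MvPowerSeries.coeff m (MvPowerSeries.pderiv ℂ (some i)
      ((∑ i, (MvPowerSeries.X (some i) : Ser d) • A i) a b))‖
  rw [h3, norm_mul, Complex.norm_natCast]
  refine le_mul_of_one_le_left (norm_nonneg _) ?_
  push_cast
  have : (0 : ℝ) ≤ ((Finsupp.weight (wx d) m : ℕ) : ℝ) := Nat.cast_nonneg _
  linarith

/-! ## e6: the theorem -/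

theorem descent_all (M : Pool.Fml.Lattice (formal d)) (hM : M.Regular) :
    ∃ N : Pool.Fml.Lattice (micro d), N.Regular ∧
      Pool.Fml.IsExtension Pool.Fml.micro_le_formal N M := by
  classical
  set b := Module.finBasis (formal d).alg M.L with hb
  obtain ⟨k, A', B', G, H, hNF, hrel⟩ := exists_NF_rel (rel_of_lattice M b)
  set A : Fin d → Mx d _ := fun i => matO M b (M.P i) with hA
  set B := matO M b M.T with hB
  have hAf : ∀ i a c, IsFormal (A i a c) := fun i a c => (b.repr (M.P i (b c)) a).2
  have hBf : ∀ a c, IsFormal (B a c) := fun a c => (b.repr (M.T (b c)) a).2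
  have hB0 : ∀ i j, sc 0 B i j ∈ CvS d := by
    intro i j
    refine ⟨?_, fun m hm => ?_⟩
    · exact Pool.Fml.Tame.mono (hBf i j) fun m => by
        change ‖MvPowerSeries.coeff m (sco 0 (B i j))‖ ≤ _
        rw [sco_coeff]
        split_ifs
        · rw [Finsupp.single_zero, add_zero]
        · rw [norm_zero]; exact norm_nonneg _
    · change MvPowerSeries.coeff m (sco 0 (B i j)) = 0
      rw [sco_coeff, if_neg hm]
  obtain ⟨q, α, β, Δ, N, hΔ, hq, hqN⟩ := exists_q (sc 0 B) hB0
  -- regularity
  set φ : CvS d →+* (formal d).alg :=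
    { toFun := fun f => ⟨f, f.2.1⟩
      map_one' := rfl
      map_mul' := fun _ _ => rfl
      map_zero' := rfl
      map_add' := fun _ _ => rfl } with hφ
  have hφf : ∀ (q : (CvS d)[X]) (n : ℕ), SFree ((q.map φ).coeff n : Ser d) := fun q n => by
    rw [coeff_map]; exact (q.coeff n).2.2
  have hto : ∀ q : (CvS d)[X], toP (q.map φ) = q.map (CvS d).val.toRingHom := fun q => by
    rw [toP, Polynomial.map_map]
    rfl
  have hv : M.Vanishes (evT M (q.map φ)) := by
    refine vanishes_of_nilpotent M b (evT_mem M _) ⟨N, ?_⟩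
    rw [sym_evT M b _ (hφf q), ← map_pow, hto, ← Polynomial.map_pow, ← hqN]
    rw [Polynomial.aeval_def, Polynomial.aeval_def, Polynomial.eval₂_map]
    rfl
  have hE := eig_of_regular M hM b (q.map φ) (hφf q) hv
  rw [hto] at hE
  set Q : (Ser d)[X] := q.map (CvS d).val.toRingHom with hQ
  have hQd : (α.map (CvS d).val.toRingHom) * Q + (β.map (CvS d).val.toRingHom) * derivative Q
      = C (Δ : Ser d) := by
    have h1 := congrArg (Polynomial.map (CvS d).val.toRingHom) hq
    simp only [Polynomial.map_add, Polynomial.map_mul, Polynomial.map_C] at h1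
    rw [hQ, Polynomial.derivative_map]
    exact h1
  -- almost every line
  have hlines : ∀ᵐ v ∂(volume.restrict (Cube d)),
      (∀ i a c, IsFormal (lineA (fun i => (v i : ℂ)) A' i a c)) ∧
      (∀ a c, IsFormal (B'.map (line (fun i => (v i : ℂ))) a c)) ∧
      ∀ a c, IsFormal (G.map (line (fun i => (v i : ℂ))) a c) := by
    have hΔ' : (Δ : Ser d) ≠ 0 := fun h => hΔ (Subtype.ext h)
    filter_upwards [line_ne_zero hΔ'] with v hv0
    set w : Fin d → ℂ := fun i => (v i : ℂ) with hw
    have hNFv := hNF.line w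
    have hEv := hE.line w
    have hscB : sc 0 (B.map (line w)) = (sc 0 B).map (line w) := by
      ext1 i j
      exact (line_sco w 0 (B i j)).symm
    have hBv : ∀ i j, sc 0 (B.map (line w)) i j ∈ CvS 1 := by
      intro i j
      rw [hscB]
      exact ⟨line_formal w (hB0 i j).1, line_SFree w (hB0 i j).2⟩
    obtain ⟨m, p, a', b', n, hp, hdisc, hann⟩ := exists_disc (sc 0 (B.map (line w))) hBv
    have hX : (MvPowerSeries.X (some 0) : Ser 1) ≠ 0 := by
      intro h2
      have := congrArg (MvPowerSeries.coeff (Finsupp.single (some 0) 1)) h2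
      rw [MvPowerSeries.coeff_X, if_pos rfl, map_zero] at this
      exact one_ne_zero this
    set ψ := (CvS 1).val.toRingHom with hψ
    have hd1 : a'.map ψ * p.map ψ + b'.map ψ * derivative (p.map ψ)
        = C (MvPowerSeries.X (some 0) ^ m) := by
      have h1 := congrArg (Polynomial.map ψ) hdisc
      simp only [Polynomial.map_add, Polynomial.map_mul, Polynomial.map_C] at h1
      rw [Polynomial.derivative_map]
      exact h1
    have hqv : (α.map (CvS d).val.toRingHom).map (line w) * Q.map (line w)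
        + (β.map (CvS d).val.toRingHom).map (line w) * derivative (Q.map (line w))
        = C (line w (Δ : Ser d)) := by
      have h1 := congrArg (Polynomial.map (line w)) hQd
      simp only [Polynomial.map_add, Polynomial.map_mul, Polynomial.map_C] at h1
      rw [Polynomial.derivative_map]
      exact h1
    have hann' : aeval (sc 0 (B.map (line w))) ((p.map ψ) ^ n) = 0 := by
      rw [← Polynomial.map_pow, ← hann]
      rw [Polynomial.aeval_def, Polynomial.aeval_def, Polynomial.eval₂_map]
      rfl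
    have hsA : ∀ i, sc 0 (lineA w A i) * sc 0 (B.map (line w))
        = sc 0 (B.map (line w)) * sc 0 (lineA w A i) := hEv.comm
    have hEp : Eig (p.map ψ) (lineA w A) (B.map (line w)) := by
      refine ⟨hsA, ?_, fun i => ?_⟩
      · exact (eig_transfer (serD (some 0)) _ _ (hsA 0) _ _ _ _ hv0 hqv hEv.root
          (by
            have h1 := hEv.rel 0
            exact h1) _ _ _ _ (pow_ne_zero m hX) hd1 n hann').1
      · rw [Subsingleton.elim i 0]
        exact (eig_transfer (serD (some 0)) _ _ (hsA 0) _ _ _ _ hv0 hqv hEv.root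
          (by
            have h1 := hEv.rel 0
            exact h1) _ _ _ _ (pow_ne_zero m hX) hd1 n hann').2
    have hEp' := hEp.gauge hNFv.gau
    have hok : ∀ q : (CvS 1)[X], PolOK (q.map ψ) := fun q =>
      ⟨fun n => by rw [coeff_map]; exact (q.coeff n).2.2,
        fun n => by rw [coeff_map]; exact (q.coeff n).2.1⟩
    refine conv_one 0 m k _ _ _ (hp.map ψ) (hok p) (hok a') (hok b') hd1 _ _ _ _ _ _
      (fun i a c => ?_) (fun a c => line_formal w (hBf a c)) hNFv hEp hEp'
    rw [lineA, Matrix.sum_apply]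
    refine sum_mem (S := (formal 1).alg) fun i _ => ?_
    exact (formal 1).alg.smul_mem (line_formal w (hAf i a c)) _
  have hG : ∀ a c, IsFormal (G a c) := fun a c => formal_of_lines _ (by
    filter_upwards [hlines] with v hv0
    exact hv0.2.2 a c)
  have hB' : ∀ a c, IsFormal (B' a c) := fun a c => formal_of_lines _ (by
    filter_upwards [hlines] with v hv0
    exact hv0.2.1 a c)
  have hA' : ∀ i a c, IsFormal (A' i a c) := formal_A hrel hNF.free fun a c => formal_of_lines _ (by
    filter_upwards [hlines] with v hv0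
    have h1 := hv0.1 0 a c
    have h2 : line (fun i => (v i : ℂ)) ((∑ i, (MvPowerSeries.X (some i) : Ser d) • A' i) a c)
        = MvPowerSeries.X (some 0) * lineA (fun i => (v i : ℂ)) A' 0 a c := by
      rw [lineA, Matrix.sum_apply, Matrix.sum_apply, map_sum, Finset.mul_sum]
      refine Finset.sum_congr rfl fun i _ => ?_
      rw [Matrix.smul_apply, smul_eq_mul, map_mul, line_X, Matrix.smul_apply, Matrix.map_apply,
        smul_mul_assoc, mul_smul_comm]
    rw [h2]
    exact Pool.Fml.isFormal_mul (Pool.Fml.isFormal_X _) h1)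
  exact assemble M hM b hNF hA' hB' hG

end Pool.Agent.Fbc
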