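import Pool.Agent.Fbc.NFe

/-!
# Lattices which are not free, part a: definitions, frames with poles

P11, `MP_b26194_ag`, block B. `M` is a finitely generated lattice without `s`-torsion over the
ring of formal symbols. A frame with poles is an embedding `M.L ⊆ F = R^r` whose image contains
`s^b F`. In the frame the operators are `P_i = s ∂_i + s^(-b) A_i`, `T = s² ∂_s + s^(-b) B`,
`e = s^(-b) E`.
-/

set_option autoImplicit false
set_option linter.unusedVariables false

namespace Pool.Agent.Fbc

open Polynomial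
open Pool.Fml (Ser SymRing formal micro IsFormal IsMicro)

variable {d r : ℕ}

/-- A finitely generated lattice without `s`-torsion over a ring of symbols, with operators
`T = t` and `P_i = ∂_{x_i} ∂_t⁻¹` which satisfy the commutation relations of microdifferential
operators. -/
structure FLat (S : SymRing d) where
  /-- the lattice -/
  L : Type
  [grp : AddCommGroup L]
  [mod : Module S.alg L]
  [fin : Module.Finite S.alg L]
  sinj : ∀ u : L, S.var none • u = 0 → u = 0
  /-- the action of `t` -/
  T : AddMonoid.End L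
  /-- the action of `P_i` -/
  P : Fin d → AddMonoid.End L
  T_smul : ∀ (f : S.alg) (u : L), T (f • u) = f • T u + (S.var none ^ 2 * S.pd none f) • u
  P_smul : ∀ (i : Fin d) (f : S.alg) (u : L),
    P i (f • u) = f • P i u + (S.var none * S.pd (some i) f) • u
  P_T : ∀ (i : Fin d) (u : L), P i (T u) - T (P i u) = - (S.var none • P i u)
  P_P : ∀ (i j : Fin d) (u : L), P i (P j u) = P j (P i u)

namespace FLat

variable {S : SymRing d} (M : FLat S)

instance : AddCommGroup M.L := M.grp
instance : Module S.alg M.L := M.mod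
instance : Module.Finite S.alg M.L := M.fin

/-- multiplication by a symbol -/
noncomputable def mul (f : S.alg) : AddMonoid.End M.L := DistribSMul.toAddMonoidHom M.L f

/-- the ring of operators of order `≤ 0` generated by the symbols, `t` and the `P_i` -/
noncomputable def ops : Subring (AddMonoid.End M.L) :=
  Subring.closure (Set.range M.mul ∪ ({M.T} ∪ Set.range M.P))

/-- `F` maps the lattice `L` into `s L` -/
def Kills (F : AddMonoid.End M.L) : Prop := ∀ u, ∃ v, F u = S.var none • v

/-- `F` acts nilpotently on `L / s L` -/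
def Vanishes (F : AddMonoid.End M.L) : Prop := ∃ n : ℕ, M.Kills (F ^ n)

/-- Regularity, `J_Λ L ⊆ L` -/
def Regular : Prop := ∀ F ∈ M.ops, M.Vanishes F → M.Kills F

/-- `p(T)` for a polynomial with coefficients in the ring of symbols -/
noncomputable def evT (p : S.alg[X]) : AddMonoid.End M.L :=
  ∑ n ∈ Finset.range (p.natDegree + 1), M.mul (p.coeff n) * M.T ^ n

/-- `(∂p/∂x_i)(T)` -/
noncomputable def evD (i : Fin d) (p : S.alg[X]) : AddMonoid.End M.L :=
  ∑ n ∈ Finset.range (p.natDegree + 1), M.mul (S.pd (some i) (p.coeff n)) * M.T ^ n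

end FLat

section a1

variable {S : SymRing d} (M : FLat S)

private lemma a1_induction (p : AddMonoid.End M.L → Prop)
    (hmul : ∀ f, p (M.mul f)) (hT : p M.T) (hP : ∀ i, p (M.P i)) (h0 : p 0) (h1 : p 1)
    (hadd : ∀ F G, F ∈ M.ops → G ∈ M.ops → p F → p G → p (F + G))
    (hneg : ∀ F, F ∈ M.ops → p F → p (-F))
    (hmm : ∀ F G, F ∈ M.ops → G ∈ M.ops → p F → p G → p (F * G)) (F : AddMonoid.End M.L)
    (hF : F ∈ M.ops) : p F := by
  refine Subring.closure_induction (p := fun F _ => p F) ?_ h0 h1
    (fun F G hF hG h h' => hadd F G hF hG h h') (fun F hF h => hneg F hF h)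
    (fun F G hF hG h h' => hmm F G hF hG h h') hF
  rintro F (⟨f, rfl⟩ | rfl | ⟨i, rfl⟩)
  · exact hmul f
  · exact hT
  · exact hP i

private lemma a1_mul_mem (f : S.alg) : M.mul f ∈ M.ops :=
  Subring.subset_closure (Or.inl ⟨f, rfl⟩)

private lemma a1_T_mem : M.T ∈ M.ops := Subring.subset_closure (Or.inr (Or.inl rfl))

private lemma a1_P_mem (i : Fin d) : M.P i ∈ M.ops :=
  Subring.subset_closure (Or.inr (Or.inr ⟨i, rfl⟩))

private lemma a1_mul_apply (f : S.alg) (u : M.L) : M.mul f u = f • u := rfl

/-- MODULE a1 (copy `Pool.Fml.ops_linear`, `ops_induction`) -/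
lemma FLat.ops_lin {F : AddMonoid.End M.L} (hF : F ∈ M.ops) (f : S.alg) (u : M.L) :
    ∃ v, F (f • u) = f • F u + S.var none • v := by
  revert f u
  refine a1_induction M (fun F => ∀ (f : S.alg) (u : M.L), ∃ v, F (f • u)
    = f • F u + S.var none • v) ?_ ?_ ?_ ?_ ?_ ?_ ?_ ?_ F hF
  · intro g f u
    exact ⟨0, by rw [a1_mul_apply, a1_mul_apply, smul_zero, add_zero, smul_comm]⟩
  · intro f u
    exact ⟨(S.var none * S.pd none f) • u, by
      rw [M.T_smul, smul_smul, pow_two, mul_assoc]⟩
  · intro i f u
    exact ⟨S.pd (some i) f • u, by rw [M.P_smul, smul_smul]⟩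
  · intro f u
    exact ⟨0, by
      change (0 : M.L) = f • (0 : M.L) + S.var none • (0 : M.L)
      rw [smul_zero, smul_zero, add_zero]⟩
  · intro f u
    exact ⟨0, by
      change f • u = f • u + S.var none • (0 : M.L)
      rw [smul_zero, add_zero]⟩
  · intro F G _ _ hF hG f u
    obtain ⟨v, hv⟩ := hF f u
    obtain ⟨v', hv'⟩ := hG f u
    refine ⟨v + v', ?_⟩
    change F (f • u) + G (f • u) = f • (F u + G u) + _
    rw [hv, hv', smul_add, smul_add]; abel
  · intro F _ hF f u
    obtain ⟨v, hv⟩ := hF f u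
    refine ⟨-v, ?_⟩
    change - F (f • u) = f • (- F u) + _
    rw [hv, smul_neg, smul_neg]; abel
  · intro F G _ _ hF hG f u
    obtain ⟨v, hv⟩ := hG f u
    obtain ⟨v', hv'⟩ := hF f (G u)
    obtain ⟨v'', hv''⟩ := hF (S.var none) v
    refine ⟨v' + (F v + v''), ?_⟩
    change F (G (f • u)) = f • F (G u) + _
    rw [hv, map_add, hv', hv'', smul_add, smul_add]
    abel

/-- MODULE a1: `[F, s]` maps `L` into `s² L` -/
lemma FLat.ops_s {F : AddMonoid.End M.L} (hF : F ∈ M.ops) (u : M.L) :
    ∃ v, F (S.var none • u) = S.var none • F u + S.var none ^ 2 • v := by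
  revert u
  refine a1_induction M (fun F => ∀ u : M.L, ∃ v, F (S.var none • u)
    = S.var none • F u + S.var none ^ 2 • v) ?_ ?_ ?_ ?_ ?_ ?_ ?_ ?_ F hF
  · intro g u
    exact ⟨0, by rw [a1_mul_apply, a1_mul_apply, smul_zero, add_zero, smul_comm]⟩
  · intro u
    exact ⟨S.pd none (S.var none) • u, by rw [M.T_smul, smul_smul]⟩
  · intro i u
    have h0 : S.pd (some i) (S.var none) = 0 := by
      refine Subtype.ext ?_
      change serD (some i) sS = (0 : Ser d)
      exact n5_s_x i
    exact ⟨0, by rw [M.P_smul, h0, mul_zero, zero_smul, smul_zero]⟩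
  · intro u
    exact ⟨0, by
      change (0 : M.L) = S.var none • (0 : M.L) + S.var none ^ 2 • (0 : M.L)
      rw [smul_zero, smul_zero, add_zero]⟩
  · intro u
    exact ⟨0, by
      change S.var none • u = S.var none • u + S.var none ^ 2 • (0 : M.L)
      rw [smul_zero, add_zero]⟩
  · intro F G _ _ hF hG u
    obtain ⟨v, hv⟩ := hF u
    obtain ⟨v', hv'⟩ := hG u
    refine ⟨v + v', ?_⟩
    change F (S.var none • u) + G (S.var none • u) = S.var none • (F u + G u) + _
    rw [hv, hv', smul_add, smul_add]; abel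
  · intro F _ hF u
    obtain ⟨v, hv⟩ := hF u
    refine ⟨-v, ?_⟩
    change - F (S.var none • u) = S.var none • (- F u) + _
    rw [hv, smul_neg, smul_neg]; abel
  · intro F G _ _ hF hG u
    obtain ⟨v, hv⟩ := hG u
    obtain ⟨v', hv'⟩ := hF (G u)
    obtain ⟨w, hw⟩ := hF (S.var none • v)
    obtain ⟨w', hw'⟩ := hF v
    refine ⟨v' + (F v + S.var none • w' + w), ?_⟩
    change F (G (S.var none • u)) = S.var none • F (G u) + _
    rw [hv, map_add, hv', pow_two, ← smul_smul, ← smul_smul, ← smul_smul, hw, hw', pow_two]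
    simp only [smul_add, smul_smul]
    rw [← mul_assoc]
    abel

private lemma a1_comm_of_gen {F : AddMonoid.End M.L} (hm : ∀ f, M.Kills (F * M.mul f - M.mul f * F))
    (hT : M.Kills (F * M.T - M.T * F)) (hP : ∀ i, M.Kills (F * M.P i - M.P i * F))
    {G : AddMonoid.End M.L} (hG : G ∈ M.ops) : M.Kills (F * G - G * F) := by
  refine a1_induction M (fun G => M.Kills (F * G - G * F)) hm hT hP ?_ ?_ ?_ ?_ ?_ G hG
  · intro u
    refine ⟨0, ?_⟩
    change F 0 - 0 = S.var none • (0 : M.L)
    rw [map_zero, smul_zero, sub_zero]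
  · intro u
    refine ⟨0, ?_⟩
    change F u - F u = S.var none • (0 : M.L)
    rw [smul_zero, sub_self]
  · intro G G' _ _ h h' u
    obtain ⟨v, hv⟩ := h u
    obtain ⟨v', hv'⟩ := h' u
    refine ⟨v + v', ?_⟩
    rw [smul_add, ← hv, ← hv']
    change F (G u + G' u) - (G (F u) + G' (F u)) =
      (F (G u) - G (F u)) + (F (G' u) - G' (F u))
    rw [map_add]
    abel
  · intro G _ h u
    obtain ⟨v, hv⟩ := h u
    refine ⟨-v, ?_⟩
    rw [smul_neg, ← hv]
    change F (-(G u)) - (-(G (F u))) = -(F (G u) - G (F u))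
    rw [map_neg]
    abel
  · intro G G' hG _ h h' u
    obtain ⟨v, hv⟩ := h (G' u)
    obtain ⟨v', hv'⟩ := h' u
    obtain ⟨v'', hv''⟩ := M.ops_lin hG (S.var none) v'
    refine ⟨v + (G v' + v''), ?_⟩
    rw [smul_add, smul_add, ← hv, ← hv'', ← hv']
    change F (G (G' u)) - G (G' (F u)) =
      (F (G (G' u)) - G (F (G' u))) + G (F (G' u) - G' (F u))
    rw [map_sub]
    abel

private lemma a1_kills_symm {F G : AddMonoid.End M.L} (h : M.Kills (F * G - G * F)) :
    M.Kills (G * F - F * G) := by
  intro u
  obtain ⟨v, hv⟩ := h u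
  refine ⟨-v, ?_⟩
  rw [smul_neg, ← hv]
  change G (F u) - F (G u) = -(F (G u) - G (F u))
  rw [neg_sub]

private lemma a1_kills_self (F : AddMonoid.End M.L) : M.Kills (F * F - F * F) := by
  intro u
  refine ⟨0, ?_⟩
  change F (F u) - F (F u) = S.var none • (0 : M.L)
  rw [smul_zero, sub_self]

private lemma a1_mm (f g : S.alg) : M.Kills (M.mul f * M.mul g - M.mul g * M.mul f) := by
  intro u
  refine ⟨0, ?_⟩
  change f • g • u - g • f • u = S.var none • (0 : M.L)
  rw [smul_zero, smul_comm, sub_self]

private lemma a1_mT (f : S.alg) : M.Kills (M.mul f * M.T - M.T * M.mul f) := by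
  intro u
  refine ⟨-((S.var none * S.pd none f) • u), ?_⟩
  change f • M.T u - M.T (f • u) = _
  rw [M.T_smul, smul_neg, smul_smul, pow_two, mul_assoc]
  abel

private lemma a1_mP (f : S.alg) (i : Fin d) : M.Kills (M.mul f * M.P i - M.P i * M.mul f) := by
  intro u
  refine ⟨-(S.pd (some i) f • u), ?_⟩
  change f • M.P i u - M.P i (f • u) = _
  rw [M.P_smul, smul_neg, smul_smul]
  abel

private lemma a1_PT (i : Fin d) : M.Kills (M.P i * M.T - M.T * M.P i) := by
  intro u
  refine ⟨-(M.P i u), ?_⟩
  change M.P i (M.T u) - M.T (M.P i u) = _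
  rw [M.P_T, smul_neg]

private lemma a1_PP (i j : Fin d) : M.Kills (M.P i * M.P j - M.P j * M.P i) := by
  intro u
  refine ⟨0, ?_⟩
  change M.P i (M.P j u) - M.P j (M.P i u) = S.var none • (0 : M.L)
  rw [M.P_P, sub_self, smul_zero]

/-- MODULE a1: the operators commute modulo `s` -/
lemma FLat.ops_comm {F G : AddMonoid.End M.L} (hF : F ∈ M.ops) (hG : G ∈ M.ops) :
    M.Kills (F * G - G * F) := by
  have hm : ∀ f, M.Kills (F * M.mul f - M.mul f * F) := fun f =>
    a1_kills_symm M (a1_comm_of_gen M (a1_mm M f) (a1_mT M f) (a1_mP M f) hF)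
  have hT : M.Kills (F * M.T - M.T * F) :=
    a1_kills_symm M (a1_comm_of_gen M (fun f => a1_kills_symm M (a1_mT M f))
      (a1_kills_self M M.T) (fun i => a1_kills_symm M (a1_PT M i)) hF)
  have hP : ∀ i, M.Kills (F * M.P i - M.P i * F) := fun i =>
    a1_kills_symm M (a1_comm_of_gen M (fun f => a1_kills_symm M (a1_mP M f i))
      (a1_PT M i) (a1_PP M i) hF)
  exact a1_comm_of_gen M hm hT hP hG

/-- MODULE a1 -/
lemma FLat.evT_mem (p : S.alg[X]) : M.evT p ∈ M.ops := by
  rw [FLat.evT]
  exact Subring.sum_mem _ fun n _ =>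
    Subring.mul_mem _ (a1_mul_mem M _) (Subring.pow_mem _ (a1_T_mem M) n)

/-- MODULE a1 -/
lemma FLat.evD_mem (i : Fin d) (p : S.alg[X]) : M.evD i p ∈ M.ops := by
  rw [FLat.evD]
  exact Subring.sum_mem _ fun n _ =>
    Subring.mul_mem _ (a1_mul_mem M _) (Subring.pow_mem _ (a1_T_mem M) n)

end a1

section a2

variable {S : SymRing d}

/-- the direct sum of `M` and of `m` copies of the trivial module `S.alg` with `T = s² ∂_s`,
`P_i = s ∂_i` -/
noncomputable def FLat.plus (M : FLat S) (m : ℕ) : FLat S where
  L := M.L × (Fin m → S.alg)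
  sinj := fun u hu => by
    have h1 := M.sinj u.1 (congrArg Prod.fst hu)
    have h2 : ∀ j, S.var none * u.2 j = 0 := fun j => congrFun (congrArg Prod.snd hu) j
    have h3 : u.2 = 0 := by
      funext j
      have h4 := congrArg (fun f : S.alg => (f : Ser d)) (h2 j)
      have h5 : (MvPowerSeries.X none : Ser d) * (u.2 j : Ser d) = 0 := h4
      rcases mul_eq_zero.1 h5 with h6 | h6
      · exact absurd h6 (fun h7 => by
          have := congrArg (MvPowerSeries.coeff (Finsupp.single none 1)) h7
          rw [MvPowerSeries.coeff_X, if_pos rfl, map_zero] at this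
          exact one_ne_zero this)
      · exact Subtype.ext h6
    exact Prod.ext h1 h3
  T :=
    { toFun := fun u => (M.T u.1, fun j => S.var none ^ 2 * S.pd none (u.2 j))
      map_zero' := by
        have h0 : S.pd none (0 : S.alg) = 0 := by
          have h := S.pd_add none 0 0
          rw [add_zero] at h
          exact left_eq_add.1 h
        refine Prod.ext (map_zero _) ?_
        funext j
        change S.var none ^ 2 * S.pd none 0 = 0
        rw [h0, mul_zero]
      map_add' := fun u v => by
        refine Prod.ext (map_add _ _ _) ?_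
        funext j
        change S.var none ^ 2 * S.pd none (u.2 j + v.2 j) = _
        rw [S.pd_add, mul_add]
        rfl }
  P := fun i =>
    { toFun := fun u => (M.P i u.1, fun j => S.var none * S.pd (some i) (u.2 j))
      map_zero' := by
        have h0 : S.pd (some i) (0 : S.alg) = 0 := by
          have h := S.pd_add (some i) 0 0
          rw [add_zero] at h
          exact left_eq_add.1 h
        refine Prod.ext (map_zero _) ?_
        funext j
        change S.var none * S.pd (some i) 0 = 0
        rw [h0, mul_zero]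
      map_add' := fun u v => by
        refine Prod.ext (map_add _ _ _) ?_
        funext j
        change S.var none * S.pd (some i) (u.2 j + v.2 j) = _
        rw [S.pd_add, mul_add]
        rfl }
  T_smul := fun f u => by
    refine Prod.ext (M.T_smul f u.1) ?_
    funext j
    change S.var none ^ 2 * S.pd none (f * u.2 j) =
      f * (S.var none ^ 2 * S.pd none (u.2 j)) + (S.var none ^ 2 * S.pd none f) * u.2 j
    rw [S.pd_mul]; ring
  P_smul := fun i f u => by
    refine Prod.ext (M.P_smul i f u.1) ?_
    funext j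
    change S.var none * S.pd (some i) (f * u.2 j) =
      f * (S.var none * S.pd (some i) (u.2 j)) + (S.var none * S.pd (some i) f) * u.2 j
    rw [S.pd_mul]; ring
  P_T := fun i u => by
    refine Prod.ext (M.P_T i u.1) ?_
    funext j
    refine Subtype.ext ?_
    change sS * serD (some i) (sS ^ 2 * serD none (u.2 j : Ser d)) -
      sS ^ 2 * serD none (sS * serD (some i) (u.2 j : Ser d)) =
      -(sS * (sS * serD (some i) (u.2 j : Ser d)))
    rw [Der.leib, Der.leib, pow_two, Der.leib, n5_s_x, n5_s_s, n5_comm none (some i)]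
    ring
  P_P := fun i j u => by
    refine Prod.ext (M.P_P i j u.1) ?_
    funext l
    refine Subtype.ext ?_
    change sS * serD (some i) (sS * serD (some j) (u.2 l : Ser d)) =
      sS * serD (some j) (sS * serD (some i) (u.2 l : Ser d))
    rw [Der.leib, Der.leib, n5_s_x, n5_s_x, n5_comm (some i) (some j)]
    ring

end a2

end Pool.Agent.Fbc
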