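import Pool.Agent.Fbc.NFe

/-!
# Lattices which are not free, part b: gauge transformations with poles

The operators are `P_i = s ∂_i + s^(-b) A_i`, `T = s² ∂_s + s^(-b) B`, and the projector is
`e = s^(-b) E`; all matrices have entries in `ℂ[[x, s]]`.
-/

set_option autoImplicit false
set_option linter.unusedVariables false

namespace Pool.Agent.Fbc

open Polynomial
open Finset.HasAntidiagonal (antidiagonal mem_antidiagonal)
open Pool.Fml (Ser SymRing formal micro IsFormal IsMicro cm eulM)

variable {d r : ℕ}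

/-- the relations `[P_i, P_j] = 0`, `[P_i, T] = - s P_i`, `[P_i, e] = 0`, `[T, e] = 0`, `e² = e`,
multiplied by `s ^ (2 b)` -/
structure RelB (b : ℕ) (A : Fin d → Mx d r) (B E : Mx d r) : Prop where
  PP : ∀ i j, (sS : Ser d) ^ (b + 1) • (A j).map (serD (some i))
    - (sS : Ser d) ^ (b + 1) • (A i).map (serD (some j)) + (A i * A j - A j * A i) = 0
  PT : ∀ i, (sS : Ser d) ^ (b + 1) • B.map (serD (some i))
    - (sS : Ser d) ^ (b + 2) • (A i).map (serD none) + (A i * B - B * A i)
      = -(((b : ℂ) + 1) • (sS : Ser d) ^ (b + 1) • A i)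
  PE : ∀ i, (sS : Ser d) ^ (b + 1) • E.map (serD (some i)) + (A i * E - E * A i) = 0
  TE : (sS : Ser d) ^ (b + 2) • E.map (serD none) + (B * E - E * B)
      = (b : ℂ) • (sS : Ser d) ^ (b + 1) • E
  EE : E * E = (sS : Ser d) ^ b • E

/-- the gauge transformation `G`, with inverse `H` -/
structure GauB (b : ℕ) (A A' : Fin d → Mx d r) (B B' E E' G H : Mx d r) : Prop where
  GH : G * H = 1
  HG : H * G = 1
  P : ∀ i, (sS : Ser d) ^ (b + 1) • G.map (serD (some i)) + A i * G = G * A' i
  T : (sS : Ser d) ^ (b + 2) • G.map (serD none) + B * G = G * B'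
  E : E * G = G * E'

section g1

section g1

section g1gen

variable {k R : Type} [CommRing k] [Ring R] [Algebra k R]

/-- as `n5_PT`, with `t` in place of `s` and `u` in place of `s ^ 2` -/
private lemma g1_PT (t u c κ : k) (hu : u * c = κ * t * t) (Di D0 : Der R)
    (hi : ∀ x, Di (u • x) = u • Di x)
    (h0 : ∀ x, D0 (t • x) = c • x + t • D0 x) (hc : ∀ x, Di (D0 x) = D0 (Di x))
    {G H A A' B B' : R} (HG : H * G = 1) (hP : t • Di G + A * G = G * A')
    (hT : u • D0 G + B * G = G * B')
    (h : t • Di B - u • D0 A + (A * B - B * A) = -((κ * t) • A)) :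
    t • Di B' - u • D0 A' + (A' * B' - B' * A') = -((κ * t) • A') := by
  have e1 : t • u • Di (D0 G) + t • (Di B * G + B * Di G) = t • (Di G * B' + G * Di B') := by
    have := congrArg (fun x => t • Di x) hT
    simpa only [map_add, hi, Der.leib, smul_add] using this
  have e2 : u • (c • Di G + t • D0 (Di G)) + u • (D0 A * G + A * D0 G) =
      u • (D0 G * A' + G * D0 A') := by
    have := congrArg (fun x => u • D0 x) hP
    simpa only [map_add, h0, Der.leib, smul_add] using this
  rw [hc, smul_comm t u] at e1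
  have key : G * (t • Di B' - u • D0 A' + (A' * B' - B' * A')) = G * (-((κ * t) • A')) := by
    have f1 : t • (Di G * B') = (G * A' - A * G) * B' := by
      rw [← hP]; simp only [add_sub_cancel_right, smul_mul_assoc]
    have f2 : u • (D0 G * A') = (G * B' - B * G) * A' := by
      rw [← hT]; simp only [add_sub_cancel_right, smul_mul_assoc]
    have f3 : t • (B * Di G) = B * (G * A' - A * G) := by
      rw [← hP]; simp only [add_sub_cancel_right, mul_smul_comm]
    have f4 : u • (A * D0 G) = A * (G * B' - B * G) := by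
      rw [← hT]; simp only [add_sub_cancel_right, mul_smul_comm]
    have f5 : u • c • Di G = (κ * t) • (G * A' - A * G) := by
      rw [← hP, add_sub_cancel_right, smul_smul, smul_smul, hu]
    have f6 : (t • Di B - u • D0 A + (A * B - B * A)) * G = -((κ * t) • A) * G := by rw [h]
    rw [smul_add, smul_add, f1, f3] at e1
    rw [smul_add, smul_add, smul_add, f2, f4, f5] at e2
    have e4 : t • (G * Di B') = u • t • D0 (Di G) + (t • (Di B * G) + B * (G * A' - A * G))
        - (G * A' - A * G) * B' := by rw [e1]; abel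
    have e5 : u • (G * D0 A') = (κ * t) • (G * A' - A * G) + u • t • D0 (Di G) +
        (u • (D0 A * G) + A * (G * B' - B * G)) - (G * B' - B * G) * A' := by rw [e2]; abel
    have f7 : t • (Di B * G) = u • (D0 A * G) - (A * B - B * A) * G - (κ * t) • (A * G) := by
      simp only [add_mul, sub_mul, smul_mul_assoc, neg_mul] at f6 ⊢
      rw [← sub_eq_zero] at f6 ⊢
      rw [← f6]
      abel
    rw [mul_add, mul_sub, mul_smul_comm, mul_smul_comm, e4, e5, f7]
    simp only [sub_mul, mul_sub, mul_assoc, smul_sub, mul_neg, mul_smul_comm]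
    abel
  calc _ = H * G * (t • Di B' - u • D0 A' + (A' * B' - B' * A')) := by rw [HG, one_mul]
    _ = H * G * (-((κ * t) • A')) := by rw [mul_assoc, key, mul_assoc]
    _ = -((κ * t) • A') := by rw [HG, one_mul]

private lemma g1_E (t ρ : k) (D : Der R) {G H A A' E E' : R} (HG : H * G = 1)
    (hP : t • D G + A * G = G * A') (hE : E * G = G * E')
    (h : t • D E + (A * E - E * A) = ρ • E) : t • D E' + (A' * E' - E' * A') = ρ • E' := by
  have e1 : t • (D E * G) + t • (E * D G) = t • (D G * E') + t • (G * D E') := by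
    have := congrArg (fun x => t • D x) hE
    simpa only [Der.leib, smul_add] using this
  have f1 : t • (E * D G) = E * (G * A' - A * G) := by
    rw [← hP]; simp only [add_sub_cancel_right, mul_smul_comm]
  have f2 : t • (D G * E') = (G * A' - A * G) * E' := by
    rw [← hP]; simp only [add_sub_cancel_right, smul_mul_assoc]
  rw [f1, f2] at e1
  have e2 : t • (G * D E') = t • (D E * G) + E * (G * A' - A * G) - (G * A' - A * G) * E' := by
    rw [e1]; abel
  have f3 : t • (D E * G) = ρ • (E * G) - (A * E - E * A) * G := by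
    rw [← smul_mul_assoc, ← smul_mul_assoc, ← h]
    noncomm_ring
  have key : G * (t • D E' + (A' * E' - E' * A')) = G * (ρ • E') := by
    rw [mul_add, mul_smul_comm, e2, f3, mul_smul_comm, ← hE]
    have g1 : A * G * E' = A * (E * G) := by rw [mul_assoc, ← hE]
    have g2 : G * (E' * A') = E * G * A' := by rw [← mul_assoc, ← hE]
    rw [sub_mul (G * A'), g1, mul_sub G, g2]
    noncomm_ring
  calc _ = H * G * (t • D E' + (A' * E' - E' * A')) := by rw [HG, one_mul]
    _ = H * G * (ρ • E') := by rw [mul_assoc, key, mul_assoc]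
    _ = ρ • E' := by rw [HG, one_mul]

end g1gen

private lemma g1_pow_x (i : Fin d) (n : ℕ) : serD (some i) ((sS : Ser d) ^ n) = 0 := by
  induction n with
  | zero => rw [pow_zero, Der.map_one']
  | succ n ih => rw [pow_succ, Der.leib, ih, n5_s_x, zero_mul, mul_zero, add_zero]

private lemma g1_pow_s (n : ℕ) :
    serD none ((sS : Ser d) ^ (n + 1)) = ((n : Ser d) + 1) * sS ^ n := by
  induction n with
  | zero => rw [zero_add, pow_one, n5_s_s, Nat.cast_zero, zero_add, pow_zero, one_mul]
  | succ n ih =>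
    rw [pow_succ, Der.leib, ih, n5_s_s]
    push_cast
    ring

private lemma g1_smul_x (i : Fin d) (n : ℕ) (M : Mx d r) :
    (serD (some i)).mat ((sS : Ser d) ^ n • M) = (sS : Ser d) ^ n • (serD (some i)).mat M := by
  rw [n5_smul, g1_pow_x, zero_smul, zero_add]

private lemma g1_natC (b : ℕ) (M : Mx d r) : (b : ℂ) • M = (b : Ser d) • M := by
  rw [Nat.cast_smul_eq_nsmul, Nat.cast_smul_eq_nsmul]

private lemma g1_natC1 (b : ℕ) (M : Mx d r) : ((b : ℂ) + 1) • M = ((b : Ser d) + 1) • M := by
  rw [add_smul, add_smul, one_smul, one_smul, g1_natC]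

/-- MODULE g1. The relations are invariant. (As `Rel.gauge` in `NFb.lean`: `n5_PP`, `n5_PT` with
`s^(b+1)` in place of `s`; or: multiply the relations for `A'`, `B'`, `E'` by `G` on the left.) -/
theorem RelB.gauge {b : ℕ} {A A' : Fin d → Mx d r} {B B' E E' G H : Mx d r} (h : RelB b A B E)
    (hg : GauB b A A' B B' E E' G H) : RelB b A' B' E' := by
  have hc : ∀ (i j : Option (Fin d)) (M : Mx d r), (serD i).mat ((serD j).mat M) =
      (serD j).mat ((serD i).mat M) := fun i j M => by
    ext a c
    exact congrArg _ (n5_comm i j (M a c))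
  refine ⟨fun i j => ?_, fun i => ?_, fun i => ?_, ?_, ?_⟩
  · exact n5_PP ((sS : Ser d) ^ (b + 1)) (serD (some i)).mat (serD (some j)).mat
      (g1_smul_x i (b + 1)) (g1_smul_x j (b + 1)) (hc _ _) hg.HG (hg.P i) (hg.P j) (h.PP i j)
  · have h1 := h.PT i
    rw [g1_natC1, smul_smul] at h1 ⊢
    refine g1_PT ((sS : Ser d) ^ (b + 1)) ((sS : Ser d) ^ (b + 2)) (((b : Ser d) + 1) * sS ^ b)
      ((b : Ser d) + 1) (by ring) (serD (some i)).mat (serD none).mat (g1_smul_x i (b + 2))
      (fun x => ?_) (hc _ _) hg.HG (hg.P i) hg.T h1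
    rw [n5_smul, g1_pow_s]
  · have h1 := h.PE i
    rw [← zero_smul (Ser d) E] at h1
    rw [← zero_smul (Ser d) E']
    exact g1_E ((sS : Ser d) ^ (b + 1)) 0 (serD (some i)).mat hg.HG (hg.P i) hg.E h1
  · have h1 := h.TE
    rw [g1_natC, smul_smul] at h1 ⊢
    exact g1_E ((sS : Ser d) ^ (b + 2)) _ (serD none).mat hg.HG hg.T hg.E h1
  · calc E' * E' = H * G * (E' * E') := by rw [hg.HG, one_mul]
      _ = H * (G * E' * E') := by simp only [mul_assoc]
      _ = H * (E * E * G) := by rw [← hg.E, mul_assoc, ← hg.E, mul_assoc]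
      _ = H * G * ((sS : Ser d) ^ b • E') := by
          simp only [h.EE, smul_mul_assoc, hg.E, mul_assoc, mul_smul_comm]
      _ = _ := by rw [hg.HG, one_mul]

/-- MODULE g1. Composition of gauge transformations. -/
theorem GauB.trans {b : ℕ} {A A' A'' : Fin d → Mx d r} {B B' B'' E E' E'' G H G' H' : Mx d r}
    (h : GauB b A A' B B' E E' G H) (h' : GauB b A' A'' B' B'' E' E'' G' H') :
    GauB b A A'' B B'' E E'' (G * G') (H' * H) := by
  refine ⟨?_, ?_, fun i => ?_, ?_, ?_⟩
  · rw [mul_assoc, ← mul_assoc G', h'.GH, one_mul, h.GH]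
  · rw [mul_assoc, ← mul_assoc H, h.HG, one_mul, h'.HG]
  · have h1 : (G * G').map (serD (some i)) =
        G.map (serD (some i)) * G' + G * G'.map (serD (some i)) := (serD (some i)).mat.leib G G'
    rw [h1, smul_add, ← smul_mul_assoc, ← mul_smul_comm, ← mul_assoc (A i)]
    have h2 : (sS : Ser d) ^ (b + 1) • G.map (serD (some i)) * G'
        + G * ((sS : Ser d) ^ (b + 1) • G'.map (serD (some i)))
        + A i * G * G' = ((sS : Ser d) ^ (b + 1) • G.map (serD (some i)) + A i * G) * G' +
          G * ((sS : Ser d) ^ (b + 1) • G'.map (serD (some i))) := by rw [add_mul]; abel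
    rw [h2, h.P i, mul_assoc, ← mul_add, add_comm, h'.P i, mul_assoc]
  · have h1 : (G * G').map (serD none) =
        G.map (serD none) * G' + G * G'.map (serD none) := (serD none).mat.leib G G'
    rw [h1, smul_add, ← smul_mul_assoc, ← mul_smul_comm, ← mul_assoc B]
    have h2 : (sS : Ser d) ^ (b + 2) • G.map (serD none) * G'
        + G * ((sS : Ser d) ^ (b + 2) • G'.map (serD none))
        + B * G * G' = ((sS : Ser d) ^ (b + 2) • G.map (serD none) + B * G) * G' +
          G * ((sS : Ser d) ^ (b + 2) • G'.map (serD none)) := by rw [add_mul]; abel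
    rw [h2, h.T, mul_assoc, ← mul_add, add_comm, h'.T, mul_assoc]
  · rw [← mul_assoc, h.E, mul_assoc, h'.E, mul_assoc]

/-- MODULE g1. `A' i = H (s^(b+1) ∂_i G + A i G)` etc. -/
theorem exists_gauB (b : ℕ) (A : Fin d → Mx d r) (B E : Mx d r) {G H : Mx d r}
    (h : G * H = 1) (h' : H * G = 1) :
    ∃ (A' : Fin d → Mx d r) (B' E' : Mx d r), GauB b A A' B B' E E' G H := by
  refine ⟨fun i => H * ((sS : Ser d) ^ (b + 1) • G.map (serD (some i)) + A i * G),
    H * ((sS : Ser d) ^ (b + 2) • G.map (serD none) + B * G), H * (E * G), h, h', fun i => ?_, ?_,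
    ?_⟩
  · rw [← mul_assoc, h, one_mul]
  · rw [← mul_assoc, h, one_mul]
  · rw [← mul_assoc, h, one_mul]

end g1

end g1

section g2

private lemma g2_cm_pow (k : ℕ) (M : Mx d r) (m : Option (Fin d) →₀ ℕ) :
    cm m ((sS : Ser d) ^ k • M) = if m none < k then 0 else cm (m - Finsupp.single none k) M := by
  classical
  ext i j
  rw [Pool.Fml.cm_apply, Matrix.smul_apply, smul_eq_mul, sS, MvPowerSeries.X_pow_eq,
    MvPowerSeries.coeff_monomial_mul]
  by_cases h : m none < k
  · rw [if_pos h, if_neg]
    · rfl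
    · intro h1
      have := h1 none
      rw [Finsupp.single_eq_same] at this
      omega
  · rw [if_neg h, if_pos, one_mul]
    · rfl
    · intro j
      rcases eq_or_ne j none with hj | hj
      · subst hj; rw [Finsupp.single_eq_same]; omega
      · rw [Finsupp.single_eq_of_ne hj]; exact Nat.zero_le _

/-- MODULE g2. Birkhoff recursion with poles, on the degree in `x` (copy the proof of `birkhoff`,
which is the case `b = 0`): `s^(b+1) E G + Y G = G A` with `G(0, s) = 1`, `A` of degree `≤ b` in
`s`. In weight `n`: `n s^(b+1) G_n - A_n = (known)`; take for `n s^(b+1) G_n` the part of the right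
side of `s`-degree `≥ b + 1` and for `- A_n` the part of degree `≤ b`. -/
theorem birkhoffB (b : ℕ) (Y : Mx d r) (hY : ∀ m, Finsupp.weight (wx d) m = 0 → cm m Y = 0) :
    ∃ G A : Mx d r, (∀ m, Finsupp.weight (wx d) m = 0 → cm m G = if m = 0 then 1 else 0) ∧
      (∀ m, Finsupp.weight (wx d) m = 0 → cm m A = 0) ∧ (∀ m, b < m none → cm m A = 0) ∧
      (sS : Ser d) ^ (b + 1) • eulM (wx d) G + Y * G = G * A := by
  classical
  set wt : (Option (Fin d) →₀ ℕ) → ℕ := fun m => Finsupp.weight (wx d) m with hwt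
  have wt_add : ∀ p q, wt (p + q) = wt p + wt q := fun p q => map_add _ p q
  set e : Option (Fin d) →₀ ℕ := Finsupp.single none (b + 1) with he
  have wt_e : ∀ m, wt (m + e) = wt m := fun m => wx_add_single m (b + 1)
  set Mt := Matrix (Fin r) (Fin r) ℂ with hMt
  set s1 : ∀ (μ m : Option (Fin d) →₀ ℕ), (∀ m', wt m' < wt m → Mt × Mt) → Mt :=
    fun μ m rec => ∑ p ∈ antidiagonal μ, if h : wt p.2 < wt m then
      cm p.1 Y * (rec p.2 h).1 else 0 with hs1
  set s2 : ∀ (μ m : Option (Fin d) →₀ ℕ), (∀ m', wt m' < wt m → Mt × Mt) → Mt :=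
    fun μ m rec => ∑ p ∈ antidiagonal μ, if h : wt p.1 < wt m ∧ wt p.2 < wt m then
      (rec p.1 h.1).1 * (rec p.2 h.2).2 else 0 with hs2
  set step : ∀ m, (∀ m', wt m' < wt m → Mt × Mt) → Mt × Mt := fun m rec =>
    if wt m = 0 then (if m = 0 then 1 else 0, 0) else
      (((wt m : ℕ) : ℂ)⁻¹ • (s2 (m + e) m rec - s1 (m + e) m rec),
        if m none < b + 1 then s1 m m rec - s2 m m rec else 0) with hstep
  have wf : WellFounded (fun a b : Option (Fin d) →₀ ℕ => wt a < wt b) :=
    InvImage.wf wt wellFounded_lt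
  set x : (Option (Fin d) →₀ ℕ) → Mt × Mt := wf.fix step with hx
  have hxe : ∀ m, x m = step m (fun m' _ => x m') := fun m => wf.fix_eq step m
  set G : Mx d r := fun i j => fun m => (x m).1 i j with hG
  set A : Mx d r := fun i j => fun m => (x m).2 i j with hA
  have hcG : ∀ m, cm m G = (x m).1 := fun m => rfl
  have hcA : ∀ m, cm m A = (x m).2 := fun m => rfl
  have hG0 : ∀ m, wt m = 0 → cm m G = if m = 0 then 1 else 0 := fun m hm => by
    rw [hcG, hxe, hstep]; simp only [if_pos hm]
  have hA0 : ∀ m, wt m = 0 → cm m A = 0 := fun m hm => by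
    rw [hcA, hxe, hstep]; simp only [if_pos hm]
  have hAs : ∀ m, ¬ m none < b + 1 → cm m A = 0 := fun m hm => by
    rw [hcA, hxe, hstep]
    by_cases h : wt m = 0
    · simp only [if_pos h]
    · simp only [if_neg h, if_neg hm]
  -- the two convolutions
  have c1 : ∀ μ m, wt μ = wt m → cm μ (Y * G) = s1 μ m (fun m' _ => x m') := by
    intro μ m hμ
    rw [Pool.Fml.cm_mul, hs1]
    refine Finset.sum_congr rfl fun p hp => ?_
    rw [Finset.HasAntidiagonal.mem_antidiagonal] at hp
    have h1 : wt p.1 + wt p.2 = wt m := by rw [← wt_add, hp, hμ]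
    by_cases h : wt p.2 < wt m
    · rw [dif_pos h, hcG]
    · rw [dif_neg h, hY p.1 (by have h3 : Finsupp.weight (wx d) p.1 = wt p.1 := rfl
                                omega), zero_mul]
  have c2 : ∀ μ m, wt μ = wt m → 0 < wt m →
      cm μ (G * A) = cm μ A + s2 μ m (fun m' _ => x m') := by
    intro μ m hμ hm
    have hmem : ((0 : Option (Fin d) →₀ ℕ), μ) ∈ antidiagonal μ := by
      rw [Finset.HasAntidiagonal.mem_antidiagonal, zero_add]
    rw [Pool.Fml.cm_mul, hs2]
    simp only
    rw [← Finset.add_sum_erase _ _ hmem, ← Finset.add_sum_erase (antidiagonal μ)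
      (fun p => if h : wt p.1 < wt m ∧ wt p.2 < wt m then (x p.1).1 * (x p.2).2 else 0) hmem]
    have h0 : wt (0 : Option (Fin d) →₀ ℕ) = 0 := map_zero _
    rw [dif_neg (by simp only [hμ]; omega), zero_add]
    have e1 : cm (0 : Option (Fin d) →₀ ℕ) G = 1 := by rw [hG0 0 h0, if_pos rfl]
    simp only [e1, one_mul]
    congr 1
    refine Finset.sum_congr rfl fun p hp => ?_
    rw [Finset.mem_erase, Finset.HasAntidiagonal.mem_antidiagonal] at hp
    have h1 : wt p.1 + wt p.2 = wt m := by rw [← wt_add, hp.2, hμ]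
    by_cases h : wt p.1 < wt m ∧ wt p.2 < wt m
    · rw [dif_pos h, hcG, hcA]
    · rw [dif_neg h]
      by_cases h2 : wt p.2 = 0
      · rw [hA0 _ h2, mul_zero]
      · have h3 : wt p.1 = 0 := by
          by_contra h3
          exact h ⟨by omega, by omega⟩
        rw [hG0 _ h3, if_neg, zero_mul]
        intro h4
        refine hp.1 (Prod.ext h4 ?_)
        rw [← hp.2, h4, zero_add]
  refine ⟨G, A, hG0, hA0, fun m hm => hAs m (by omega), Pool.Fml.cm_ext fun m => ?_⟩
  rw [map_add, g2_cm_pow]
  have hlow : ∀ m, wt m = 0 → cm m (Y * G) = 0 ∧ cm m (G * A) = 0 := fun m hm =>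
    ⟨(Pool.Fml.cm_mul_low (w := wx d) (K := 0) (fun m hm => hY m (Nat.le_zero.1 hm)) G m
      (Nat.le_zero.2 hm)).1, (Pool.Fml.cm_mul_low (w := wx d) (K := 0)
        (fun m hm => hA0 m (Nat.le_zero.1 hm)) G m (Nat.le_zero.2 hm)).2⟩
  by_cases hm : m none < b + 1
  · rw [if_pos hm, zero_add]
    by_cases h0 : wt m = 0
    · rw [(hlow m h0).1, (hlow m h0).2]
    · rw [c1 m m rfl, c2 m m rfl (Nat.pos_of_ne_zero h0), hcA, hxe, hstep]
      simp only [if_neg h0, if_pos hm]
      abel
  · rw [if_neg hm]
    obtain ⟨m', rfl⟩ : ∃ m', m = m' + e := by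
      refine ⟨m - e, ?_⟩
      rw [tsub_add_cancel_of_le]
      intro j
      rcases eq_or_ne j none with hj | hj
      · subst hj; rw [he, Finsupp.single_eq_same]; omega
      · rw [he, Finsupp.single_eq_of_ne hj]; exact Nat.zero_le _
    rw [add_tsub_cancel_right, Pool.Fml.cm_eulM]
    by_cases h0 : wt m' = 0
    · have h1 : wt (m' + e) = 0 := by rw [wt_e, h0]
      have h2 : Finsupp.weight (wx d) m' = 0 := h0
      rw [(hlow _ h1).1, (hlow _ h1).2, h2]
      simp
    · rw [c1 (m' + e) m' (wt_e m'), c2 (m' + e) m' (wt_e m') (Nat.pos_of_ne_zero h0),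
        hAs _ hm, zero_add, hcG, hxe m', hstep]
      simp only [if_neg h0]
      have h2 : ((Finsupp.weight (wx d) m' : ℕ) : ℂ) ≠ 0 := by exact_mod_cast h0
      rw [smul_smul, mul_inv_cancel₀ h2, one_smul]
      abel

end g2

section g3

section g3

private lemma g3_spow (n : ℕ) (m : Option (Fin d) →₀ ℕ) (U : Mx d r) :
    cm (m + Finsupp.single none n) ((sS : Ser d) ^ n • U) = cm m U := by
  induction n generalizing m U with
  | zero => rw [Finsupp.single_zero, add_zero, pow_zero, one_smul]
  | succ n ih =>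
    have h1 : m + Finsupp.single none (n + 1) =
        (m + Finsupp.single none n) + Finsupp.single none 1 := by
      rw [add_assoc, ← Finsupp.single_add]
    rw [h1, pow_succ', mul_smul, cm_sS_smul, if_neg, add_tsub_cancel_right, ih]
    rw [Finsupp.add_apply, Finsupp.single_eq_same]
    omega

private lemma g3_none (n : ℕ) (m : Option (Fin d) →₀ ℕ) :
    (m + Finsupp.single none n : Option (Fin d) →₀ ℕ) none = m none + n := by
  rw [Finsupp.add_apply, Finsupp.single_eq_same]

private lemma g3_eul (U : Mx d r) :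
    ∑ j, (MvPowerSeries.X (some j) : Ser d) • U.map (serD (some j)) = eulM (wx d) U := by
  ext1 a b
  rw [Matrix.sum_apply, Pool.Fml.eulM_apply, Pool.Fml.eul_apply, Fintype.sum_option]
  simp only [wx, Option.elim, zero_smul, zero_add, one_smul]
  rfl

private lemma g3_left (A : Fin d → Mx d r) (U : Mx d r) :
    ∑ j, (MvPowerSeries.X (some j) : Ser d) • (U * A j) =
      U * ∑ j, (MvPowerSeries.X (some j) : Ser d) • A j := by
  rw [Finset.mul_sum]
  exact Finset.sum_congr rfl fun j _ => (Matrix.mul_smul _ _ _).symm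

private lemma g3_right (A : Fin d → Mx d r) (U : Mx d r) :
    ∑ j, (MvPowerSeries.X (some j) : Ser d) • (A j * U) =
      (∑ j, (MvPowerSeries.X (some j) : Ser d) • A j) * U := by
  rw [Finset.sum_mul]
  exact Finset.sum_congr rfl fun j _ => (Matrix.smul_mul _ _ _).symm

private lemma g3_zero (A : Fin d → Mx d r) (m : Option (Fin d) →₀ ℕ)
    (hm : Finsupp.weight (wx d) m = 0) :
    cm m (∑ i, (MvPowerSeries.X (some i) : Ser d) • A i) = 0 := by
  classical
  rw [map_sum]
  refine Finset.sum_eq_zero fun i _ => ?_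
  ext a b
  rw [Pool.Fml.cm_apply, Matrix.smul_apply, smul_eq_mul, MvPowerSeries.X,
    MvPowerSeries.coeff_monomial_mul, if_neg]
  · rfl
  · intro h1
    have h2 := h1 (some i)
    rw [Finsupp.single_eq_same] at h2
    have h3 : m (some i) * wx d (some i) ≤ Finsupp.weight (wx d) m := by
      rw [Finsupp.weight_eq_sum]
      exact Finset.single_le_sum (f := fun j => m j * wx d j) (fun _ _ => Nat.zero_le _)
        (Finset.mem_univ (some i))
    simp only [wx, Option.elim] at h3
    omega

private lemma g3_dx (A : Fin d → Mx d r) (i : Fin d) :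
    (∑ j, (MvPowerSeries.X (some j) : Ser d) • A j).map (serD (some i)) =
      (∑ j, (MvPowerSeries.X (some j) : Ser d) • (A j).map (serD (some i))) + A i := by
  classical
  ext1 a b
  rw [Matrix.map_apply, Matrix.sum_apply, map_sum, Matrix.add_apply, Matrix.sum_apply]
  have h4 : ∀ j, (serD (some i)) (((MvPowerSeries.X (some j) : Ser d) • A j) a b) =
      ((MvPowerSeries.X (some j) : Ser d) • (A j).map (serD (some i))) a b
        + if j = i then A i a b else 0 := by
    intro j
    rw [Matrix.smul_apply, smul_eq_mul, Der.leib, Matrix.smul_apply, Matrix.map_apply,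
      smul_eq_mul, add_comm]
    congr 1
    rw [serD_apply]
    by_cases hji : j = i
    · subst hji
      rw [if_pos rfl, MvPowerSeries.pderiv_X_self, one_mul]
    · rw [if_neg hji, MvPowerSeries.pderiv_X_of_ne (by simpa using hji), zero_mul]
  simp only [h4, Finset.sum_add_distrib, Finset.sum_ite_eq', Finset.mem_univ, if_true]

private lemma g3_ds (A : Fin d → Mx d r) :
    (∑ j, (MvPowerSeries.X (some j) : Ser d) • A j).map (serD none) =
      ∑ j, (MvPowerSeries.X (some j) : Ser d) • (A j).map (serD none) := by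
  ext1 a b
  rw [Matrix.map_apply, Matrix.sum_apply, map_sum, Matrix.sum_apply]
  refine Finset.sum_congr rfl fun j _ => ?_
  rw [Matrix.smul_apply, smul_eq_mul, Der.leib, Matrix.smul_apply, Matrix.map_apply,
    smul_eq_mul]
  have h1 : serD none (MvPowerSeries.X (some j) : Ser d) = 0 := by
    rw [serD_apply, MvPowerSeries.pderiv_X_of_ne (by simp)]
  rw [h1, zero_mul, zero_add]

private lemma g3_idA {b : ℕ} {A : Fin d → Mx d r} {B E : Mx d r} (h : RelB b A B E) (i : Fin d) :
    (sS : Ser d) ^ (b + 1) • (∑ j, (MvPowerSeries.X (some j) : Ser d) • A j).map (serD (some i))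
      - (sS : Ser d) ^ (b + 1) • A i - (sS : Ser d) ^ (b + 1) • eulM (wx d) (A i)
      + (A i * (∑ j, (MvPowerSeries.X (some j) : Ser d) • A j)
        - (∑ j, (MvPowerSeries.X (some j) : Ser d) • A j) * A i) = 0 := by
  have h1 : ∑ j, (MvPowerSeries.X (some j) : Ser d) •
      ((sS : Ser d) ^ (b + 1) • (A j).map (serD (some i))
        - (sS : Ser d) ^ (b + 1) • (A i).map (serD (some j))
        + (A i * A j - A j * A i)) = 0 := by
    refine Finset.sum_eq_zero fun j _ => ?_
    rw [h.PP, smul_zero]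
  simp only [smul_add, smul_sub, Finset.sum_add_distrib, Finset.sum_sub_distrib] at h1
  have h2 : ∑ j, (MvPowerSeries.X (some j) : Ser d) • (sS : Ser d) ^ (b + 1) •
      (A j).map (serD (some i)) = (sS : Ser d) ^ (b + 1) •
        (∑ j, (MvPowerSeries.X (some j) : Ser d) • A j).map (serD (some i))
        - (sS : Ser d) ^ (b + 1) • A i := by
    rw [g3_dx, smul_add, Finset.smul_sum, add_sub_cancel_right]
    exact Finset.sum_congr rfl fun j _ => smul_comm _ _ _
  have h3 : ∑ j, (MvPowerSeries.X (some j) : Ser d) • (sS : Ser d) ^ (b + 1) •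
      (A i).map (serD (some j)) = (sS : Ser d) ^ (b + 1) • eulM (wx d) (A i) := by
    rw [← g3_eul, Finset.smul_sum]
    exact Finset.sum_congr rfl fun j _ => smul_comm _ _ _
  rw [h2, h3, g3_left, g3_right] at h1
  exact h1

private lemma g3_cmA {b : ℕ} {A : Fin d → Mx d r} {B E : Mx d r} (h : RelB b A B E) (i : Fin d)
    (m : Option (Fin d) →₀ ℕ) :
    (((Finsupp.weight (wx d) m : ℕ) : ℂ) + 1) • cm m (A i) =
      cm m ((∑ j, (MvPowerSeries.X (some j) : Ser d) • A j).map (serD (some i)))
      + cm (m + Finsupp.single none (b + 1))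
        (A i * (∑ j, (MvPowerSeries.X (some j) : Ser d) • A j)
          - (∑ j, (MvPowerSeries.X (some j) : Ser d) • A j) * A i) := by
  have h1 := congrArg (cm (m + Finsupp.single none (b + 1))) (g3_idA h i)
  rw [map_add, map_sub, map_sub, g3_spow, g3_spow, g3_spow, map_zero, Pool.Fml.cm_eulM] at h1
  rw [add_smul, one_smul]
  rw [← sub_eq_zero, ← neg_eq_zero, ← h1]
  abel

/-- MODULE g3. With `Y = ∑ x_i A_i` (degree `≤ b` in `s`, no terms of weight `0`):
multiply `PP` by `x_j` and sum: `s^(b+1) (E + 1) A_i = s^(b+1) ∂_i Y + [A_i, Y]`; induction on the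
weight (degree in `x`). -/
theorem nfB_A {b : ℕ} {A : Fin d → Mx d r} {B E : Mx d r} (h : RelB b A B E)
    (hA : ∀ m, b < m none → cm m (∑ i, (MvPowerSeries.X (some i) : Ser d) • A i) = 0) :
    ∀ i m, b < m none → cm m (A i) = 0 := by
  intro i
  suffices hs : ∀ (N : ℕ) (m : Option (Fin d) →₀ ℕ), Finsupp.weight (wx d) m = N → b < m none →
      cm m (A i) = 0 from fun m hm => hs _ m rfl hm
  intro N
  induction N using Nat.strong_induction_on with
  | _ N ih =>
  intro m hN hm
  have h1 := g3_cmA h i m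
  have wt_add : ∀ p q : Option (Fin d) →₀ ℕ, p + q = m + Finsupp.single none (b + 1) →
      Finsupp.weight (wx d) p + Finsupp.weight (wx d) q = Finsupp.weight (wx d) m ∧
        p none + q none = m none + (b + 1) := by
    intro p q hpq
    constructor
    · rw [← map_add, hpq, wx_add_single]
    · rw [← Finsupp.add_apply, hpq, g3_none]
  rw [cm_map_serD, hA (m + Finsupp.single (some i) 1), smul_zero, zero_add, map_sub,
    cm_conv_zero, cm_conv_zero, sub_zero] at h1
  · rcases smul_eq_zero.1 h1 with h3 | h3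
    · exfalso
      have : (((Finsupp.weight (wx d) m + 1 : ℕ) : ℂ)) = 0 := by push_cast; exact h3
      rw [Nat.cast_eq_zero] at this
      omega
    · exact h3
  · intro p q hpq
    obtain ⟨h3, h4⟩ := wt_add p q hpq
    by_cases h5 : b < p none
    · left; exact hA p h5
    · by_cases h6 : Finsupp.weight (wx d) p = 0
      · left; exact g3_zero A p h6
      · right; exact ih _ (by omega) q rfl (by omega)
  · intro p q hpq
    obtain ⟨h3, h4⟩ := wt_add p q hpq
    by_cases h5 : b < q none
    · right; exact hA q h5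
    · by_cases h6 : Finsupp.weight (wx d) q = 0
      · right; exact g3_zero A q h6
      · left; exact ih _ (by omega) p rfl (by omega)
  · rw [Finsupp.add_apply, Finsupp.single_eq_of_ne (by simp), add_zero]
    exact hm

private lemma g3_conv {b k : ℕ} {A : Fin d → Mx d r} {U : Mx d r}
    (hA : ∀ m, b < m none → cm m (∑ i, (MvPowerSeries.X (some i) : Ser d) • A i) = 0)
    {m : Option (Fin d) →₀ ℕ} (hm : k < m none)
    (ih : ∀ q : Option (Fin d) →₀ ℕ, Finsupp.weight (wx d) q < Finsupp.weight (wx d) m →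
      k < q none → cm q U = 0) :
    cm (m + Finsupp.single none (b + 1)) ((∑ i, (MvPowerSeries.X (some i) : Ser d) • A i) * U
      - U * (∑ i, (MvPowerSeries.X (some i) : Ser d) • A i)) = 0 := by
  have wt_add : ∀ p q : Option (Fin d) →₀ ℕ, p + q = m + Finsupp.single none (b + 1) →
      Finsupp.weight (wx d) p + Finsupp.weight (wx d) q = Finsupp.weight (wx d) m ∧
        p none + q none = m none + (b + 1) := by
    intro p q hpq
    constructor
    · rw [← map_add, hpq, wx_add_single]
    · rw [← Finsupp.add_apply, hpq, g3_none]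
  rw [map_sub, cm_conv_zero, cm_conv_zero, sub_zero]
  · intro p q hpq
    obtain ⟨h3, h4⟩ := wt_add p q hpq
    by_cases h5 : b < q none
    · right; exact hA q h5
    · by_cases h6 : Finsupp.weight (wx d) q = 0
      · right; exact g3_zero A q h6
      · left; exact ih p (by omega) (by omega)
  · intro p q hpq
    obtain ⟨h3, h4⟩ := wt_add p q hpq
    by_cases h5 : b < p none
    · left; exact hA p h5
    · by_cases h6 : Finsupp.weight (wx d) p = 0
      · left; exact g3_zero A p h6
      · right; exact ih q (by omega) (by omega)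

/-- MODULE g3. Multiply `PT` by `x_i` and sum: `s^(b+1) E B = s^(b+2) ∂_s Y - [Y, B]
- (b+1) s^(b+1) Y`; induction on the weight. -/
theorem nfB_B {b k : ℕ} (hbk : b ≤ k) {A : Fin d → Mx d r} {B E : Mx d r} (h : RelB b A B E)
    (hA : ∀ m, b < m none → cm m (∑ i, (MvPowerSeries.X (some i) : Ser d) • A i) = 0)
    (hB : ∀ m, Finsupp.weight (wx d) m = 0 → k < m none → cm m B = 0) :
    ∀ m, k < m none → cm m B = 0 := by
  suffices hs : ∀ (N : ℕ) (m : Option (Fin d) →₀ ℕ), Finsupp.weight (wx d) m = N → k < m none →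
      cm m B = 0 from fun m hm => hs _ m rfl hm
  have id1 : (sS : Ser d) ^ (b + 1) • eulM (wx d) B
      - (sS : Ser d) ^ (b + 1) • ((sS : Ser d) •
        (∑ i, (MvPowerSeries.X (some i) : Ser d) • A i).map (serD none))
      + ((∑ i, (MvPowerSeries.X (some i) : Ser d) • A i) * B
        - B * (∑ i, (MvPowerSeries.X (some i) : Ser d) • A i))
      = -((sS : Ser d) ^ (b + 1) • (((b : ℂ) + 1) •
        ∑ i, (MvPowerSeries.X (some i) : Ser d) • A i)) := by
    have h1 : ∑ i, (MvPowerSeries.X (some i) : Ser d) •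
        ((sS : Ser d) ^ (b + 1) • B.map (serD (some i))
          - (sS : Ser d) ^ (b + 2) • (A i).map (serD none) + (A i * B - B * A i)) =
        ∑ i, (MvPowerSeries.X (some i) : Ser d) • -(((b : ℂ) + 1) • (sS : Ser d) ^ (b + 1) • A i) :=
      Finset.sum_congr rfl fun i _ => by rw [h.PT]
    simp only [smul_add, smul_sub, Finset.sum_add_distrib, Finset.sum_sub_distrib, smul_neg,
      Finset.sum_neg_distrib] at h1
    rw [g3_left, g3_right] at h1
    have h2 : ∑ j, (MvPowerSeries.X (some j) : Ser d) • (sS : Ser d) ^ (b + 1) •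
        B.map (serD (some j)) = (sS : Ser d) ^ (b + 1) • eulM (wx d) B := by
      rw [← g3_eul, Finset.smul_sum]
      exact Finset.sum_congr rfl fun j _ => smul_comm _ _ _
    have h3 : ∑ j, (MvPowerSeries.X (some j) : Ser d) • (sS : Ser d) ^ (b + 2) •
        (A j).map (serD none) = (sS : Ser d) ^ (b + 1) • ((sS : Ser d) •
          (∑ i, (MvPowerSeries.X (some i) : Ser d) • A i).map (serD none)) := by
      rw [g3_ds, Finset.smul_sum, Finset.smul_sum]
      refine Finset.sum_congr rfl fun j _ => ?_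
      rw [smul_smul, smul_smul, smul_smul, pow_succ (sS : Ser d) (b + 1)]
      congr 1
      ring
    have h4 : ∑ j, (MvPowerSeries.X (some j) : Ser d) • ((b : ℂ) + 1) •
        (sS : Ser d) ^ (b + 1) • A j = (sS : Ser d) ^ (b + 1) • (((b : ℂ) + 1) •
          ∑ i, (MvPowerSeries.X (some i) : Ser d) • A i) := by
      rw [Finset.smul_sum, Finset.smul_sum]
      refine Finset.sum_congr rfl fun j _ => ?_
      rw [smul_comm ((b : ℂ) + 1) ((sS : Ser d) ^ (b + 1)) (A j),
        smul_comm (MvPowerSeries.X (some j) : Ser d) ((sS : Ser d) ^ (b + 1)),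
        smul_comm (MvPowerSeries.X (some j) : Ser d) ((b : ℂ) + 1) (A j)]
    rw [h2, h3, h4] at h1
    exact h1
  intro N
  induction N using Nat.strong_induction_on with
  | _ N ih =>
  intro m hN hm
  by_cases h0 : Finsupp.weight (wx d) m = 0
  · exact hB m h0 hm
  have h1 := congrArg (cm (m + Finsupp.single none (b + 1))) id1
  have hcs : cm m ((∑ i, (MvPowerSeries.X (some i) : Ser d) • A i).map (serD none)) = 0 := by
    rw [cm_map_serD, hA _ (by rw [g3_none]; omega), smul_zero]
  have hcs' : cm m ((sS : Ser d) •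
      (∑ i, (MvPowerSeries.X (some i) : Ser d) • A i).map (serD none)) = 0 := by
    rw [cm_sS_smul, if_neg (by omega), cm_map_serD, hA, smul_zero]
    rw [g3_none]
    have h5 : (m - Finsupp.single none 1 : Option (Fin d) →₀ ℕ) none = m none - 1 := by
      rw [Finsupp.tsub_apply, Finsupp.single_eq_same]
    omega
  have hcc : cm m (((b : ℂ) + 1) • ∑ i, (MvPowerSeries.X (some i) : Ser d) • A i) = 0 := by
    have h5 : cm m (((b : ℂ) + 1) • ∑ i, (MvPowerSeries.X (some i) : Ser d) • A i) =
        ((b : ℂ) + 1) • cm m (∑ i, (MvPowerSeries.X (some i) : Ser d) • A i) := by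
      ext a c
      rfl
    rw [h5, hA m (by omega), smul_zero]
  rw [map_add, map_sub, map_neg, g3_spow, g3_spow, g3_spow, hcs', hcc,
    g3_conv hA hm (fun q h2 h3 => ih _ (by omega) q rfl h3), sub_zero, add_zero, neg_zero,
    Pool.Fml.cm_eulM] at h1
  rcases smul_eq_zero.1 h1 with h3 | h3
  · exfalso
    rw [Nat.cast_eq_zero] at h3
    exact h0 h3
  · exact h3

/-- MODULE g3. Multiply `PE` by `x_i` and sum: `s^(b+1) E_x E = - [Y, E]`; induction on the
weight. -/
theorem nfB_E {b k : ℕ} {A : Fin d → Mx d r} {B E : Mx d r} (h : RelB b A B E)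
    (hA : ∀ m, b < m none → cm m (∑ i, (MvPowerSeries.X (some i) : Ser d) • A i) = 0)
    (hE : ∀ m, Finsupp.weight (wx d) m = 0 → k < m none → cm m E = 0) :
    ∀ m, k < m none → cm m E = 0 := by
  suffices hs : ∀ (N : ℕ) (m : Option (Fin d) →₀ ℕ), Finsupp.weight (wx d) m = N → k < m none →
      cm m E = 0 from fun m hm => hs _ m rfl hm
  have id1 : (sS : Ser d) ^ (b + 1) • eulM (wx d) E
      + ((∑ i, (MvPowerSeries.X (some i) : Ser d) • A i) * E
        - E * (∑ i, (MvPowerSeries.X (some i) : Ser d) • A i)) = 0 := by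
    have h1 : ∑ i, (MvPowerSeries.X (some i) : Ser d) •
        ((sS : Ser d) ^ (b + 1) • E.map (serD (some i)) + (A i * E - E * A i)) = 0 := by
      refine Finset.sum_eq_zero fun j _ => ?_
      rw [h.PE, smul_zero]
    simp only [smul_add, smul_sub, Finset.sum_add_distrib, Finset.sum_sub_distrib] at h1
    rw [g3_left, g3_right] at h1
    have h2 : ∑ j, (MvPowerSeries.X (some j) : Ser d) • (sS : Ser d) ^ (b + 1) •
        E.map (serD (some j)) = (sS : Ser d) ^ (b + 1) • eulM (wx d) E := by
      rw [← g3_eul, Finset.smul_sum]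
      exact Finset.sum_congr rfl fun j _ => smul_comm _ _ _
    rw [h2] at h1
    exact h1
  intro N
  induction N using Nat.strong_induction_on with
  | _ N ih =>
  intro m hN hm
  by_cases h0 : Finsupp.weight (wx d) m = 0
  · exact hE m h0 hm
  have h1 := congrArg (cm (m + Finsupp.single none (b + 1))) id1
  rw [map_add, g3_spow, g3_conv hA hm (fun q h2 h3 => ih _ (by omega) q rfl h3), add_zero,
    map_zero, Pool.Fml.cm_eulM] at h1
  rcases smul_eq_zero.1 h1 with h3 | h3
  · exfalso
    rw [Nat.cast_eq_zero] at h3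
    exact h0 h3
  · exact h3

end g3

end g3

section g4

-- MODULE g4 (helper7): uses the private lemma g3_cmA of MP_b26194_nf_g3_helper7.lean (same file NGb.lean, section g3 before section g4)
section g4

/-- the part of degree `≥ j` in `s` -/
private noncomputable def g4_pt (j : ℕ) (U : Mx d r) : Mx d r :=
  fun a c => fun m => if j ≤ m none then MvPowerSeries.coeff m (U a c) else 0

private lemma g4_coeff (j : ℕ) (U : Mx d r) (a c : Fin r) (m : Option (Fin d) →₀ ℕ) :
    MvPowerSeries.coeff m (g4_pt j U a c) =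
      if j ≤ m none then MvPowerSeries.coeff m (U a c) else 0 := rfl

private lemma g4_cm (j : ℕ) (U : Mx d r) (m : Option (Fin d) →₀ ℕ) :
    cm m (g4_pt j U) = if j ≤ m none then cm m U else 0 := by
  ext a c
  rw [Pool.Fml.cm_apply, g4_coeff]
  split_ifs
  · rfl
  · rfl

private lemma g4_shift {a : (Option (Fin d) →₀ ℕ) → ℝ} (ha0 : ∀ m, 0 ≤ a m)
    (ha : Pool.Fml.Tame a) (k : ℕ) :
    Pool.Fml.Tame fun m => a (m + Finsupp.single none k) := by
  induction k with
  | zero => simpa using ha
  | succ k ih =>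
    refine Pool.Fml.Tame.shift (fun m => ha0 _) ih none fun m => ?_
    have h1 : m + Finsupp.single none (k + 1) =
        m + Finsupp.single none 1 + Finsupp.single none k := by
      rw [add_assoc, ← Finsupp.single_add, add_comm 1 k]
    rw [h1]
    refine le_mul_of_one_le_right (ha0 _) ?_
    have : (0 : ℝ) ≤ (m none : ℝ) := Nat.cast_nonneg _
    linarith

private lemma g4_conv {b j : ℕ} {U Y : Mx d r} (hY : ∀ m, b < m none → cm m Y = 0)
    {m : Option (Fin d) →₀ ℕ} (hm : m none = j) :
    cm (m + Finsupp.single none (b + 1)) (U * Y - Y * U) =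
      cm (m + Finsupp.single none (b + 1)) (g4_pt (j + 1) U * Y - Y * g4_pt (j + 1) U) := by
  have hadd : ∀ p : (Option (Fin d) →₀ ℕ) × (Option (Fin d) →₀ ℕ),
      p ∈ antidiagonal (m + Finsupp.single none (b + 1)) → p.1 none + p.2 none = j + (b + 1) := by
    intro p hp
    rw [mem_antidiagonal] at hp
    rw [← Finsupp.add_apply, hp, Finsupp.add_apply, Finsupp.single_eq_same, hm]
  rw [map_sub, map_sub, Pool.Fml.cm_mul, Pool.Fml.cm_mul, Pool.Fml.cm_mul, Pool.Fml.cm_mul]
  congr 1
  · refine Finset.sum_congr rfl fun p hp => ?_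
    have h1 := hadd p hp
    rw [g4_cm]
    by_cases h2 : b < p.2 none
    · rw [hY _ h2, mul_zero, mul_zero]
    · rw [if_pos (by omega)]
  · refine Finset.sum_congr rfl fun p hp => ?_
    have h1 := hadd p hp
    rw [g4_cm]
    by_cases h2 : b < p.1 none
    · rw [hY _ h2, zero_mul, zero_mul]
    · rw [if_pos (by omega)]

private lemma g4_sum {ι : Type} (s : Finset ι) (f : ι → Ser d) (h : ∀ i ∈ s, IsFormal (f i)) :
    IsFormal (∑ i ∈ s, f i) :=
  sum_mem (S := (formal d).alg) h

private lemma g4_mul {U V : Mx d r} (hU : ∀ a c, IsFormal (U a c)) (hV : ∀ a c, IsFormal (V a c)) :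
    ∀ a c, IsFormal ((U * V - V * U) a c) := by
  intro a c
  rw [Matrix.sub_apply, Matrix.mul_apply, Matrix.mul_apply]
  exact (formal d).alg.sub_mem (g4_sum _ _ fun i _ => Pool.Fml.isFormal_mul (hU _ _) (hV _ _))
    (g4_sum _ _ fun i _ => Pool.Fml.isFormal_mul (hV _ _) (hU _ _))

/-- MODULE g4. The coefficient of `s^(b+1+j)`, `0 ≤ j ≤ b`, in
`s^(b+1) (E + 1) A_i = s^(b+1) ∂_i Y + [A_i, Y]`, `Y = ∑ x_i A_i`, is
`(E + 1) A_{i,j} = ∂_i Y_j + ∑_{p+q=b+1+j} [A_{i,p}, Y_q]` with `q ≤ b`, so `p > j`: descending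
induction on `j`; `(E + 1)⁻¹` preserves `IsFormal` (compare `formal_A`). -/
theorem formal_AB {b : ℕ} {A : Fin d → Mx d r} {B E : Mx d r} (h : RelB b A B E)
    (hf : ∀ i m, b < m none → cm m (A i) = 0)
    (hY : ∀ l j, IsFormal ((∑ i, (MvPowerSeries.X (some i) : Ser d) • A i) l j)) :
    ∀ i l j, IsFormal (A i l j) := by
  classical
  set Y : Mx d r := ∑ i, (MvPowerSeries.X (some i) : Ser d) • A i with hYd
  have hY0 : ∀ m, b < m none → cm m Y = 0 := by
    intro m hm
    rw [hYd, map_sum]
    refine Finset.sum_eq_zero fun i _ => ?_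
    ext a c
    rw [Pool.Fml.cm_apply, Matrix.smul_apply, smul_eq_mul, MvPowerSeries.X,
      MvPowerSeries.coeff_monomial_mul]
    split_ifs with h1
    · rw [one_mul]
      have h2 := hf i (m - Finsupp.single (some i) 1) (by
        rw [Finsupp.tsub_apply, Finsupp.single_eq_of_ne (by simp)]
        exact hm)
      exact congrFun (congrFun h2 a) c
    · rfl
  intro i
  have main : ∀ n ≤ b + 1, ∀ l c, IsFormal (g4_pt (b + 1 - n) (A i) l c) := by
    intro n
    induction n with
    | zero =>
      intro _ l c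
      refine Pool.Fml.Tame.mono Pool.Fml.Tame.zero fun m => ?_
      rw [g4_coeff]
      split_ifs with h1
      · have h2 : MvPowerSeries.coeff m (A i l c) = 0 :=
          congrFun (congrFun (hf i m (by omega)) l) c
        rw [h2, norm_zero]
      · rw [norm_zero]
    | succ n ih =>
      intro hn l c
      set j := b + 1 - (n + 1) with hj
      have hj1 : b + 1 - n = j + 1 := by omega
      rw [hj1] at ih
      have ih' := ih (by omega)
      have hZ := g4_mul ih' hY
      have t1 : Pool.Fml.Tame fun m => ‖MvPowerSeries.coeff m (g4_pt (j + 1) (A i) l c)‖ := ih' l c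
      have t2 : Pool.Fml.Tame fun m =>
          ‖MvPowerSeries.coeff m (MvPowerSeries.pderiv ℂ (some i) (Y l c))‖ :=
        Pool.Fml.isFormal_pderiv (some i) _ (hY l c)
      have t3 : Pool.Fml.Tame fun m => ‖MvPowerSeries.coeff (m + Finsupp.single none (b + 1))
          ((g4_pt (j + 1) (A i) * Y - Y * g4_pt (j + 1) (A i)) l c)‖ :=
        g4_shift (a := fun m => ‖MvPowerSeries.coeff m
          ((g4_pt (j + 1) (A i) * Y - Y * g4_pt (j + 1) (A i)) l c)‖)
          (fun _ => norm_nonneg _) (hZ l c) (b + 1)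
      refine Pool.Fml.Tame.mono ((t1.add t2).add t3) fun m => ?_
      rw [g4_coeff, g4_coeff]
      have p2 := norm_nonneg (MvPowerSeries.coeff m (MvPowerSeries.pderiv ℂ (some i) (Y l c)))
      have p3 := norm_nonneg (MvPowerSeries.coeff (m + Finsupp.single none (b + 1))
          ((g4_pt (j + 1) (A i) * Y - Y * g4_pt (j + 1) (A i)) l c))
      rcases lt_trichotomy (m none) j with h1 | h1 | h1
      · rw [if_neg (by omega), if_neg (by omega), norm_zero, zero_add]
        exact add_nonneg p2 p3
      · rw [if_pos (by omega), if_neg (by omega), norm_zero, zero_add]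
        have h2 := g3_cmA h i m
        rw [← hYd, g4_conv hY0 h1] at h2
        have h3 := congrFun (congrFun h2 l) c
        have h4 : (((Finsupp.weight (wx d) m + 1 : ℕ) : ℂ)) * MvPowerSeries.coeff m (A i l c) =
            MvPowerSeries.coeff m (MvPowerSeries.pderiv ℂ (some i) (Y l c)) +
            MvPowerSeries.coeff (m + Finsupp.single none (b + 1))
              ((g4_pt (j + 1) (A i) * Y - Y * g4_pt (j + 1) (A i)) l c) := by
          push_cast
          exact h3
        refine le_trans ?_ (norm_add_le _ _)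
        rw [← h4, norm_mul, Complex.norm_natCast]
        refine le_mul_of_one_le_left (norm_nonneg _) ?_
        push_cast
        have : (0 : ℝ) ≤ ((Finsupp.weight (wx d) m : ℕ) : ℝ) := Nat.cast_nonneg _
        linarith
      · rw [if_pos (by omega), if_pos (by omega)]
        have p1 := norm_nonneg (MvPowerSeries.coeff m (A i l c))
        linarith
  intro l c
  have h1 := main (b + 1) le_rfl l c
  refine Pool.Fml.Tame.mono h1 fun m => ?_
  rw [g4_coeff, if_pos (by omega)]

end g4

end g4

/- helper77, row g5 of mods_nf: section g5 of NGb.lean, complete (paste in place of the stub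
section; statements verbatim, private helpers g5_*). -/
section g5

private lemma g5_mul (v : Fin d → ℂ) (M N : Mx d r) :
    (M * N).map (line v) = M.map (line v) * N.map (line v) := Matrix.map_mul

private lemma g5_add (v : Fin d → ℂ) (M N : Mx d r) :
    (M + N).map (line v) = M.map (line v) + N.map (line v) := by
  ext1 a b
  rw [Matrix.add_apply, Matrix.map_apply, Matrix.map_apply, Matrix.map_apply, Matrix.add_apply,
    map_add]

private lemma g5_smul (v : Fin d → ℂ) (n : ℕ) (M : Mx d r) :
    ((sS : Ser d) ^ n • M).map (line v) = (sS : Ser 1) ^ n • M.map (line v) := by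
  ext1 a b
  rw [Matrix.smul_apply, Matrix.map_apply, Matrix.map_apply, Matrix.smul_apply, smul_eq_mul,
    smul_eq_mul, map_mul, map_pow, line_sS]

private lemma g5_none (v : Fin d → ℂ) (M : Mx d r) :
    (M.map (line v)).map (serD none) = (M.map (serD none)).map (line v) := by
  ext1 a b
  exact (line_serD_none v (M a b)).symm

private lemma g5_apply (v : Fin d → ℂ) (F : Fin d → Mx d r) (o : Fin 1) (a b : Fin r) :
    lineA v F o a b = ∑ i, v i • line v (F i a b) := by
  rw [lineA, Matrix.sum_apply]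
  rfl

private lemma g5_addA (v : Fin d → ℂ) (F F' : Fin d → Mx d r) (o : Fin 1) :
    lineA v (fun i => F i + F' i) o = lineA v F o + lineA v F' o := by
  ext1 a b
  rw [Matrix.add_apply, g5_apply, g5_apply, g5_apply, ← Finset.sum_add_distrib]
  refine Finset.sum_congr rfl fun i _ => ?_
  rw [Matrix.add_apply, map_add, smul_add]

private lemma g5_smulA (v : Fin d → ℂ) (n : ℕ) (F : Fin d → Mx d r) (o : Fin 1) :
    lineA v (fun i => (sS : Ser d) ^ n • F i) o = (sS : Ser 1) ^ n • lineA v F o := by
  ext1 a b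
  rw [Matrix.smul_apply, g5_apply, g5_apply, smul_eq_mul, Finset.mul_sum]
  refine Finset.sum_congr rfl fun i _ => ?_
  rw [Matrix.smul_apply, smul_eq_mul, map_mul, map_pow, line_sS, mul_smul_comm]

private lemma g5_left (v : Fin d → ℂ) (N : Mx d r) (F : Fin d → Mx d r) (o : Fin 1) :
    lineA v (fun i => N * F i) o = N.map (line v) * lineA v F o := by
  rw [lineA, lineA, Matrix.mul_sum]
  refine Finset.sum_congr rfl fun i _ => ?_
  rw [g5_mul, Matrix.mul_smul]

private lemma g5_right (v : Fin d → ℂ) (N : Mx d r) (F : Fin d → Mx d r) (o : Fin 1) :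
    lineA v (fun i => F i * N) o = lineA v F o * N.map (line v) := by
  rw [lineA, lineA, Matrix.sum_mul]
  refine Finset.sum_congr rfl fun i _ => ?_
  rw [g5_mul, Matrix.smul_mul]

private lemma g5_der (v : Fin d → ℂ) (M : Mx d r) (o : Fin 1) :
    (M.map (line v)).map (serD (some o)) = lineA v (fun i => M.map (serD (some i))) o := by
  ext1 a b
  rw [g5_apply, Subsingleton.elim o 0]
  exact line_serD v (M a b)


/-- MODULE g5. Restriction to the line `x = z v` (compare `NF.line`). -/
theorem GauB.line (v : Fin d → ℂ) {b : ℕ} {A A' : Fin d → Mx d r} {B B' E E' G H : Mx d r}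
    (h : GauB b A A' B B' E E' G H) :
    GauB b (lineA v A) (lineA v A') (B.map (line v)) (B'.map (line v)) (E.map (line v))
      (E'.map (line v)) (G.map (line v)) (H.map (line v)) := by
  have hone : (1 : Mx d r).map (Pool.Agent.Fbc.line v) = 1 :=
    Matrix.map_one _ (map_zero _) (map_one _)
  refine ⟨?_, ?_, fun o => ?_, ?_, ?_⟩
  · rw [← g5_mul, h.GH, hone]
  · rw [← g5_mul, h.HG, hone]
  · rw [g5_der, ← g5_smulA, ← g5_right, ← g5_addA, ← g5_left]
    have h1 : (fun i => (sS : Ser d) ^ (b + 1) • G.map (serD (some i)) + A i * G)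
        = fun i => G * A' i := funext h.P
    rw [h1]
  · rw [g5_none, ← g5_smul, ← g5_mul, ← g5_mul, ← g5_add, h.T]
  · rw [← g5_mul, ← g5_mul, h.E]

/-- MODULE g5 -/
lemma cm_line_low (v : Fin d → ℂ) {k : ℕ} {A : Mx d r} (h : ∀ m, k < m none → cm m A = 0) :
    ∀ m, k < m none → cm m (A.map (line v)) = 0 := by
  intro m hm
  ext a b
  rw [Pool.Fml.cm_apply, Matrix.map_apply, Matrix.zero_apply]
  refine line_low v (fun m' hm' => ?_) m hm
  have h1 := congrFun (congrFun (h m' hm') a) b
  rwa [Pool.Fml.cm_apply, Matrix.zero_apply] at h1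

/-- MODULE g5 -/
lemma cm_lineA_low (v : Fin d → ℂ) {k : ℕ} {A : Fin d → Mx d r}
    (h : ∀ i m, k < m none → cm m (A i) = 0) :
    ∀ i m, k < m none → cm m (lineA v A i) = 0 := by
  intro o m hm
  ext a b
  rw [Pool.Fml.cm_apply, g5_apply, Matrix.zero_apply, map_sum]
  refine Finset.sum_eq_zero fun i _ => ?_
  have h1 := congrFun (congrFun (cm_line_low v (h i) m hm) a) b
  rw [Pool.Fml.cm_apply, Matrix.zero_apply, Matrix.map_apply] at h1
  rw [MvPowerSeries.coeff_smul, h1, mul_zero]

/-- MODULE g5: `z (∑ v_i A_i(z v, s)) = (∑ x_i A_i)(z v, s)` -/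
lemma line_sum_X (v : Fin d → ℂ) (A : Fin d → Mx d r) (l j : Fin r) :
    line v ((∑ i, (MvPowerSeries.X (some i) : Ser d) • A i) l j)
      = MvPowerSeries.X (some 0) * lineA v A 0 l j := by
  rw [lineA, Matrix.sum_apply, Matrix.sum_apply, map_sum, Finset.mul_sum]
  refine Finset.sum_congr rfl fun i _ => ?_
  rw [Matrix.smul_apply, smul_eq_mul, map_mul, line_X, Matrix.smul_apply, Matrix.map_apply,
    smul_mul_assoc, mul_smul_comm]

end g5

end Pool.Agent.Fbc
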