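import Pool.Agent.Fbc.NGa
import Pool.Agent.Fbc.NGb

/-!
# Lattices which are not free, part c: frames with poles
-/

set_option autoImplicit false
set_option linter.unusedVariables false

namespace Pool.Agent.Fbc

open Polynomial
open Finset.HasAntidiagonal (antidiagonal mem_antidiagonal)
open Pool.Fml (Ser SymRing formal micro IsFormal IsMicro cm eulM)

variable {d r : ℕ}

section a2

variable {S : SymRing d} [SDiv S]

private lemma a2_coeff (f : Ser d) (m : Option (Fin d) →₀ ℕ) :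
    MvPowerSeries.coeff m (sco 0 f) = if m none = 0 then MvPowerSeries.coeff m f else 0 := by
  have : MvPowerSeries.coeff m (sco 0 f) =
      if m none = 0 then MvPowerSeries.coeff (m + Finsupp.single none 0) f else 0 := rfl
  rw [this, Finsupp.single_zero, add_zero]

private lemma a2_one : sco 0 (1 : Ser d) = 1 :=
  sco_free_zero fun m hm => by
    classical
    rw [MvPowerSeries.coeff_one, if_neg]
    rintro rfl
    exact hm rfl

private lemma a2_mul (f g : Ser d) : sco 0 (f * g) = sco 0 f * sco 0 g := by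
  classical
  refine MvPowerSeries.ext fun m => ?_
  rw [a2_coeff, MvPowerSeries.coeff_mul, MvPowerSeries.coeff_mul]
  split_ifs with h
  · refine Finset.sum_congr rfl fun p hp => ?_
    rw [Finset.HasAntidiagonal.mem_antidiagonal] at hp
    have h1 : p.1 none + p.2 none = 0 := by rw [← Finsupp.add_apply, hp, h]
    rw [a2_coeff, a2_coeff, if_pos (by omega), if_pos (by omega)]
  · symm
    refine Finset.sum_eq_zero fun p hp => ?_
    rw [Finset.HasAntidiagonal.mem_antidiagonal] at hp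
    have h1 : p.1 none + p.2 none ≠ 0 := by rw [← Finsupp.add_apply, hp]; exact h
    rw [a2_coeff, a2_coeff]
    by_cases h2 : p.1 none = 0
    · rw [if_neg (show ¬ p.2 none = 0 by omega), mul_zero]
    · rw [if_neg h2, zero_mul]

private lemma a2_pow (f : Ser d) (n : ℕ) : sco 0 (f ^ n) = sco 0 f ^ n := by
  induction n with
  | zero => rw [pow_zero, pow_zero, a2_one]
  | succ n ih => rw [pow_succ, pow_succ, a2_mul, ih]

/-- `s` is a prime element of a ring of symbols -/
private lemma a2_dvd {a v : S.alg} {n : ℕ} (h : a ^ n = S.var none * v) :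
    ∃ g : S.alg, a = S.var none * g := by
  have h1 : (a : Ser d) ^ n = sS * (v : Ser d) := by
    have h2 := congrArg (fun f : S.alg => (f : Ser d)) h
    simp only [Subalgebra.coe_pow, Subalgebra.coe_mul] at h2
    exact h2
  have h3 : sco 0 (a : Ser d) = 0 := by
    have h4 : sco 0 (a : Ser d) ^ n = 0 := by rw [← a2_pow, h1, sco_sS_zero]
    exact (show IsNilpotent (sco 0 (a : Ser d)) from ⟨n, h4⟩).eq_zero
  have h5 : (MvPowerSeries.X none : Ser d) ∣ (a : Ser d) := by
    rw [MvPowerSeries.X_dvd_iff]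
    intro m hm
    have := congrArg (MvPowerSeries.coeff m) h3
    rwa [a2_coeff, if_pos hm, map_zero] at this
  obtain ⟨g, hg⟩ := h5
  refine ⟨⟨g, SDiv.div g ?_⟩, Subtype.ext hg⟩
  rw [← hg]
  exact a.2

/-- the form of the operators on the direct sum -/
private def A2 (M : FLat S) (m : ℕ) (F : AddMonoid.End (M.plus m).L) (F₁ : AddMonoid.End M.L)
    (a : S.alg) : Prop :=
  (∀ (u : M.L) (f : Fin m → S.alg), (F (u, f)).1 = F₁ u) ∧
    ∀ (u : M.L) (f : Fin m → S.alg), ∃ g : Fin m → S.alg,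
      (F (u, f)).2 = a • f + S.var none • g

private lemma a2_comp {M : FLat S} {m : ℕ} {F G : AddMonoid.End (M.plus m).L}
    {F₁ G₁ : AddMonoid.End M.L} {a c : S.alg} (hF : A2 M m F F₁ a) (hG : A2 M m G G₁ c) :
    A2 M m (F * G) (F₁ * G₁) (a * c) := by
  have hp : ∀ x : M.L × (Fin m → S.alg), x = (x.1, x.2) := fun _ => rfl
  constructor
  · intro u f
    change (F (G (u, f))).1 = F₁ (G₁ u)
    rw [← hG.1 u f]
    exact hF.1 _ _
  · intro u f
    obtain ⟨g, hg⟩ := hG.2 u f
    obtain ⟨g', hg'⟩ := hF.2 (G (u, f)).1 (G (u, f)).2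
    refine ⟨a • g + g', ?_⟩
    change (F (G (u, f))).2 = _
    have h1 : (F (G (u, f))).2 = a • (G (u, f)).2 + S.var none • g' := hg'
    rw [h1, hg, smul_add, smul_add, mul_smul, smul_comm a (S.var none), add_assoc]

private lemma a2_ex {M : FLat S} {m : ℕ} {F : AddMonoid.End (M.plus m).L}
    (hF : F ∈ (M.plus m).ops) : ∃ F₁ ∈ M.ops, ∃ a : S.alg, A2 M m F F₁ a := by
  unfold FLat.ops at hF
  induction hF using Subring.closure_induction with
  | mem F hF =>
    rcases hF with ⟨f, rfl⟩ | rfl | ⟨i, rfl⟩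
    · exact ⟨M.mul f, Subring.subset_closure (Or.inl ⟨f, rfl⟩), f, fun u g => rfl,
        fun u g => ⟨0, by rw [smul_zero, add_zero]; rfl⟩⟩
    · refine ⟨M.T, Subring.subset_closure (Or.inr (Or.inl rfl)), 0, fun u g => rfl,
        fun u g => ⟨fun j => S.var none * S.pd none (g j), ?_⟩⟩
      funext j
      change S.var none ^ 2 * S.pd none (g j) = 0 * g j + S.var none * (S.var none * S.pd none (g j))
      ring
    · refine ⟨M.P i, Subring.subset_closure (Or.inr (Or.inr ⟨i, rfl⟩)), 0, fun u g => rfl,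
        fun u g => ⟨fun j => S.pd (some i) (g j), ?_⟩⟩
      funext j
      change S.var none * S.pd (some i) (g j) = 0 * g j + S.var none * S.pd (some i) (g j)
      ring
  | zero =>
    refine ⟨0, Subring.zero_mem _, 0, fun u g => rfl, fun u g => ⟨0, ?_⟩⟩
    rw [smul_zero, add_zero, zero_smul]
    rfl
  | one =>
    refine ⟨1, Subring.one_mem _, 1, fun u g => rfl, fun u g => ⟨0, ?_⟩⟩
    rw [smul_zero, add_zero, one_smul]
    rfl
  | add F G _ _ ihF ihG =>
    obtain ⟨F₁, h1, a, h2, h3⟩ := ihF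
    obtain ⟨G₁, k1, c, k2, k3⟩ := ihG
    refine ⟨F₁ + G₁, Subring.add_mem _ h1 k1, a + c, fun u f => ?_, fun u f => ?_⟩
    · change (F (u, f)).1 + (G (u, f)).1 = F₁ u + G₁ u
      rw [h2, k2]
    · obtain ⟨g, hg⟩ := h3 u f
      obtain ⟨g', hg'⟩ := k3 u f
      refine ⟨g + g', ?_⟩
      change (F (u, f)).2 + (G (u, f)).2 = _
      rw [hg, hg', add_smul, smul_add]
      abel
  | neg F _ ihF =>
    obtain ⟨F₁, h1, a, h2, h3⟩ := ihF
    refine ⟨-F₁, Subring.neg_mem _ h1, -a, fun u f => ?_, fun u f => ?_⟩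
    · change -(F (u, f)).1 = -F₁ u
      rw [h2]
    · obtain ⟨g, hg⟩ := h3 u f
      refine ⟨-g, ?_⟩
      change -(F (u, f)).2 = _
      rw [hg]
      funext j
      change -(a * f j + S.var none * g j) = -a * f j + S.var none * -g j
      ring
  | mul F G _ _ ihF ihG =>
    obtain ⟨F₁, h1, a, h2⟩ := ihF
    obtain ⟨G₁, k1, c, k2⟩ := ihG
    exact ⟨F₁ * G₁, Subring.mul_mem _ h1 k1, a * c, a2_comp h2 k2⟩

private lemma a2_powA {M : FLat S} {m : ℕ} {F : AddMonoid.End (M.plus m).L}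
    {F₁ : AddMonoid.End M.L} {a : S.alg} (hF : A2 M m F F₁ a) (n : ℕ) :
    A2 M m (F ^ n) (F₁ ^ n) (a ^ n) := by
  induction n with
  | zero =>
    rw [pow_zero, pow_zero, pow_zero]
    refine ⟨fun u g => rfl, fun u g => ⟨0, ?_⟩⟩
    rw [smul_zero, add_zero, one_smul]
    rfl
  | succ n ih =>
    rw [pow_succ, pow_succ, pow_succ]
    exact a2_comp ih hF

/-- MODULE a2. The direct sum with the trivial module is regular. Every `F ∈ (M.plus m).ops` is of
the form `F (u, f) = (F₁ u, F₂ f)` with `F₁ ∈ M.ops` and `F₂ f ∈ a f + s S.alg^m` for some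
`a : S.alg` (`Subring.closure_induction`); if `F^n` kills then `F₁^n` kills `M`, so `F₁` does; and
if `0 < m` then `a^n ∈ (s)`, so `a ∈ (s)` (in `Ser d`, `s` is prime; `SDiv`). -/
theorem FLat.plus_regular (M : FLat S) (hM : M.Regular) (m : ℕ) : (M.plus m).Regular := by
  intro F hF hV
  obtain ⟨n, hn⟩ := hV
  obtain ⟨F₁, h1, a, h2⟩ := a2_ex hF
  have hpow := a2_powA h2 n
  have hK : M.Kills F₁ := by
    refine hM F₁ h1 ⟨n, fun u => ?_⟩
    obtain ⟨v, hv⟩ := hn (u, 0)
    refine ⟨v.1, ?_⟩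
    rw [← hpow.1 u 0, hv]
    rfl
  have ha : 0 < m → ∃ g : S.alg, a = S.var none * g := by
    intro hm
    obtain ⟨v, hv⟩ := hn (0, Pi.single ⟨0, hm⟩ 1)
    obtain ⟨g, hg⟩ := hpow.2 0 (Pi.single ⟨0, hm⟩ 1)
    rw [hv] at hg
    have h3 := congrFun hg ⟨0, hm⟩
    have h4 : S.var none * v.2 ⟨0, hm⟩ = a ^ n * 1 + S.var none * g ⟨0, hm⟩ := by
      have h5 : (Pi.single (⟨0, hm⟩ : Fin m) (1 : S.alg) : Fin m → S.alg) ⟨0, hm⟩ = 1 :=
        Pi.single_eq_same _ _
      rw [← h5]
      exact h3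
    refine a2_dvd (n := n) (v := v.2 ⟨0, hm⟩ - g ⟨0, hm⟩) ?_
    rw [mul_sub, h4]
    ring
  rintro ⟨u, f⟩
  obtain ⟨v, hv⟩ := hK u
  obtain ⟨g, hg⟩ := h2.2 u f
  rcases Nat.eq_zero_or_pos m with hm | hm
  · subst hm
    refine ⟨(v, 0), Prod.ext ?_ (funext fun j => j.elim0)⟩
    rw [h2.1 u f, hv]
    rfl
  · obtain ⟨q, hq⟩ := ha hm
    refine ⟨(v, q • f + g), Prod.ext ?_ ?_⟩
    · rw [h2.1 u f, hv]
      rfl
    · rw [hg, hq]
      change (S.var none * q) • f + S.var none • g = S.var none • (q • f + g)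
      rw [mul_smul, smul_add]

end a2

/-- a projector of a lattice -/
structure Proj {S : SymRing d} (M : FLat S) where
  /-- the projector -/
  e : M.L →ₗ[S.alg] M.L
  idem : ∀ u, e (e u) = e u
  T : ∀ u, e (M.T u) = M.T (e u)
  P : ∀ i u, e (M.P i u) = M.P i (e u)

/-- the projection of `M.plus m` to `M` -/
noncomputable def FLat.pr {S : SymRing d} (M : FLat S) (m : ℕ) : Proj (M.plus m) where
  e := (LinearMap.inl S.alg M.L (Fin m → S.alg)).comp (LinearMap.fst S.alg M.L (Fin m → S.alg))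
  idem := fun u => rfl
  T := fun u => by
    refine Prod.ext rfl ?_
    funext j
    change (0 : S.alg) = S.var none ^ 2 * S.pd none 0
    rw [S.pd_zero, mul_zero]
  P := fun i u => by
    refine Prod.ext rfl ?_
    funext j
    change (0 : S.alg) = S.var none * S.pd (some i) 0
    rw [S.pd_zero, mul_zero]

/-- a frame with poles: `M.L` is embedded in `F = S.alg ^ r` and contains `s^b F` -/
structure Fr {S : SymRing d} (M : FLat S) (r b : ℕ) where
  /-- the embedding -/
  ι : M.L →ₗ[S.alg] (Fin r → S.alg)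
  inj : Function.Injective ι
  /-- the elements `s^b f_j` -/
  u : Fin r → M.L
  hu : ∀ j, ι (u j) = Pi.single j (S.var none ^ b)

namespace Fr

variable {S : SymRing d} {M : FLat S} {b : ℕ} (φ : Fr M r b)

/-- the coordinates of an element -/
noncomputable def vec (w : M.L) : Fin r → Ser d := fun l => (φ.ι w l : Ser d)

/-- the matrix `A_i` of `P_i = s ∂_i + s^(-b) A_i` -/
noncomputable def A (i : Fin d) : Mx d r := Matrix.of fun l j => φ.vec (M.P i (φ.u j)) l

/-- the matrix `B` of `T = s² ∂_s + s^(-b) B` -/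
noncomputable def B : Mx d r :=
  Matrix.of (fun l j => φ.vec (M.T (φ.u j)) l) - ((b : ℂ) • (sS : Ser d) ^ (b + 1)) • (1 : Mx d r)

/-- the matrix `E` of `e = s^(-b) E` -/
noncomputable def E (e : M.L →ₗ[S.alg] M.L) : Mx d r := Matrix.of fun l j => φ.vec (e (φ.u j)) l

private lemma a3_pd_some (S : SymRing d) (i : Fin d) (n : ℕ) :
    S.pd (some i) (S.var none ^ n) = 0 := by
  induction n with
  | zero => rw [pow_zero, S.pd_one]
  | succ n ih => rw [pow_succ, S.pd_mul, ih, S.pd_var_ne (by simp), mul_zero, mul_zero, add_zero]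

private lemma a3_pd_none (S : SymRing d) (n : ℕ) :
    S.var none ^ 2 * S.pd none (S.var none ^ n) = (n : ℂ) • S.var none ^ (n + 1) := by
  induction n with
  | zero => rw [pow_zero, S.pd_one, mul_zero, Nat.cast_zero, zero_smul]
  | succ n ih =>
    rw [pow_succ (S.var none) n, S.pd_mul, S.pd_var_self, mul_add]
    have h1 : S.var none ^ 2 * (S.var none * S.pd none (S.var none ^ n)) =
        (n : ℂ) • S.var none ^ (n + 1 + 1) := by
      rw [mul_left_comm, ih, mul_smul_comm, ← pow_succ']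
    rw [h1, Nat.cast_succ, add_smul, one_smul, add_comm]
    congr 1
    ring

private lemma a3_sum (g : Fin r → S.alg) (l : Fin r) :
    φ.ι (∑ j, g j • φ.u j) l = S.var none ^ b * g l := by
  rw [map_sum, Finset.sum_apply, Finset.sum_eq_single l]
  · rw [map_smul, Pi.smul_apply, φ.hu, Pi.single_eq_same, smul_eq_mul, mul_comm]
  · intro j _ hj
    rw [map_smul, Pi.smul_apply, φ.hu, Pi.single_eq_of_ne hj.symm, smul_zero]
  · intro h
    exact absurd (Finset.mem_univ l) h

/-- MODULE a3. `s^b w = ∑ w_j u_j` for `w_j = φ.ι w j` (apply `ι`, which is injective). -/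
lemma s_smul (w : M.L) : S.var none ^ b • w = ∑ j, φ.ι w j • φ.u j := by
  apply φ.inj
  funext l
  rw [a3_sum φ, map_smul, Pi.smul_apply, smul_eq_mul]

private lemma a3_op (F : AddMonoid.End M.L) (q : S.alg → S.alg)
    (hF : ∀ (f : S.alg) (u : M.L), F (f • u) = f • F u + q f • u) (w : M.L) (l : Fin r) :
    S.var none ^ b * φ.ι (F w) l + q (S.var none ^ b) * φ.ι w l =
      ∑ j, φ.ι w j * φ.ι (F (φ.u j)) l + S.var none ^ b * q (φ.ι w l) := by
  have h := congrArg (fun v => φ.ι v l) (congrArg F (φ.s_smul w))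
  simp only [hF, map_sum, map_add, map_smul, Pi.add_apply, Pi.smul_apply, smul_eq_mul,
    Finset.sum_apply, Finset.sum_add_distrib] at h
  rw [h]
  congr 1
  have h2 := a3_sum φ (fun j => q (φ.ι w j)) l
  rw [map_sum, Finset.sum_apply] at h2
  simp only [map_smul, Pi.smul_apply, smul_eq_mul] at h2
  exact h2

private lemma a3_mulVec (F : AddMonoid.End M.L) (w : M.L) (l : Fin r) :
    ((∑ j, φ.ι w j * φ.ι (F (φ.u j)) l : S.alg) : Ser d) =
      (Matrix.of fun l j => φ.vec (F (φ.u j)) l).mulVec (φ.vec w) l := by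
  rw [AddSubmonoidClass.coe_finsetSum, Matrix.mulVec, dotProduct]
  refine Finset.sum_congr rfl fun j _ => ?_
  rw [Subalgebra.coe_mul, mul_comm]
  rfl

/-- MODULE a3. Apply `P_i` to `s^b w = ∑ w_j u_j`. -/
lemma vec_P (i : Fin d) (w : M.L) :
    (sS : Ser d) ^ b • φ.vec (M.P i w) =
      (sS : Ser d) ^ (b + 1) • (fun l => serD (some i) (φ.vec w l)) + (φ.A i).mulVec (φ.vec w) := by
  funext l
  have h := a3_op φ (M.P i) (fun f => S.var none * S.pd (some i) f) (M.P_smul i) w l
  rw [a3_pd_some, mul_zero, zero_mul, add_zero] at h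
  have h2 := congrArg (fun f : S.alg => (f : Ser d)) h
  simp only [Subalgebra.coe_add] at h2
  rw [a3_mulVec φ (M.P i) w l] at h2
  rw [Pi.add_apply, Pi.smul_apply, Pi.smul_apply, smul_eq_mul, smul_eq_mul, add_comm, pow_succ,
    mul_assoc]
  exact h2

/-- MODULE a3. Apply `T` to `s^b w = ∑ w_j u_j`; `s² ∂_s (s^b) = b s^(b+1)`. -/
lemma vec_T (w : M.L) :
    (sS : Ser d) ^ b • φ.vec (M.T w) =
      (sS : Ser d) ^ (b + 2) • (fun l => serD none (φ.vec w l)) + φ.B.mulVec (φ.vec w) := by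
  funext l
  have h := a3_op φ M.T (fun f => S.var none ^ 2 * S.pd none f) M.T_smul w l
  rw [a3_pd_none] at h
  have h2 := congrArg (fun f : S.alg => (f : Ser d)) h
  simp only [Subalgebra.coe_add] at h2
  rw [a3_mulVec φ M.T w l] at h2
  have h3 : φ.B.mulVec (φ.vec w) l =
      (Matrix.of fun l j => φ.vec (M.T (φ.u j)) l).mulVec (φ.vec w) l -
        ((b : ℂ) • (sS : Ser d) ^ (b + 1)) * φ.vec w l := by
    rw [B, Matrix.sub_mulVec, Pi.sub_apply, Matrix.smul_mulVec, Matrix.one_mulVec, Pi.smul_apply,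
      smul_eq_mul]
  rw [Pi.add_apply, Pi.smul_apply, Pi.smul_apply, smul_eq_mul, smul_eq_mul, h3]
  have h4 : (sS : Ser d) ^ b * φ.vec (M.T w) l + ((b : ℂ) • (sS : Ser d) ^ (b + 1)) * φ.vec w l =
      (Matrix.of fun l j => φ.vec (M.T (φ.u j)) l).mulVec (φ.vec w) l +
        (sS : Ser d) ^ b * ((sS : Ser d) ^ 2 * serD none (φ.vec w l)) := h2
  rw [eq_sub_iff_add_eq.2 h4, pow_add]
  ring

/-- MODULE a3 -/
lemma vec_E (e : M.L →ₗ[S.alg] M.L) (w : M.L) :
    (sS : Ser d) ^ b • φ.vec (e w) = (φ.E e).mulVec (φ.vec w) := by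
  funext l
  have h := a3_op φ e.toAddMonoidHom (fun _ => 0)
    (fun f u => by
      rw [zero_smul, add_zero]
      exact map_smul e f u) w l
  rw [zero_mul, add_zero, mul_zero, add_zero] at h
  have h2 := congrArg (fun f : S.alg => (f : Ser d)) h
  rw [a3_mulVec φ e.toAddMonoidHom w l] at h2
  rw [Pi.smul_apply, smul_eq_mul]
  exact h2

-- BEGIN a4 (helper42); inside namespace Fr of NGc.lean, with `variable {S : SymRing d} {M : FLat S} {b : ℕ} (φ : Fr M r b)`
private lemma a4_col (X Y : Mx d r) (y : Fin r → Ser d) (m : Fin r) (h : ∀ k, Y k m = y k)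
    (l : Fin r) : X.mulVec y l = (X * Y) l m := by
  rw [Matrix.mul_apply, Matrix.mulVec, dotProduct]
  exact Finset.sum_congr rfl fun k _ => by rw [h]

private lemma a4_A (i : Fin d) (k m : Fin r) : φ.A i k m = φ.vec (M.P i (φ.u m)) k := rfl

private lemma a4_E (e : M.L →ₗ[S.alg] M.L) (k m : Fin r) : φ.E e k m = φ.vec (e (φ.u m)) k := rfl

private lemma a4_B (k m : Fin r) : φ.vec (M.T (φ.u m)) k =
    φ.B k m + ((b : ℂ) • (sS : Ser d) ^ (b + 1)) * (1 : Mx d r) k m := by
  have h : φ.B k m = φ.vec (M.T (φ.u m)) k -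
    ((b : ℂ) • (sS : Ser d) ^ (b + 1)) * (1 : Mx d r) k m := rfl
  rw [h, sub_add_cancel]

private lemma a4_vP (i : Fin d) (w : M.L) (l : Fin r) :
    (sS : Ser d) ^ b * φ.vec (M.P i w) l =
      (sS : Ser d) ^ (b + 1) * serD (some i) (φ.vec w l) + (φ.A i).mulVec (φ.vec w) l :=
  congrFun (φ.vec_P i w) l

private lemma a4_vT (w : M.L) (l : Fin r) :
    (sS : Ser d) ^ b * φ.vec (M.T w) l =
      (sS : Ser d) ^ (b + 2) * serD none (φ.vec w l) + φ.B.mulVec (φ.vec w) l :=
  congrFun (φ.vec_T w) l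

private lemma a4_vE (e : M.L →ₗ[S.alg] M.L) (w : M.L) (l : Fin r) :
    (sS : Ser d) ^ b * φ.vec (e w) l = (φ.E e).mulVec (φ.vec w) l :=
  congrFun (φ.vec_E e w) l

/-- `X v(T u_m) = X B e_m + b s^(b+1) X e_m` -/
private lemma a4_mT (X : Mx d r) (l m : Fin r) : X.mulVec (φ.vec (M.T (φ.u m))) l =
    (X * φ.B) l m + ((b : ℂ) • (sS : Ser d) ^ (b + 1)) * X l m := by
  have h : (φ.vec (M.T (φ.u m))) = fun k => (φ.B +
      ((b : ℂ) • (sS : Ser d) ^ (b + 1)) • (1 : Mx d r)) k m := by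
    funext k
    exact a4_B φ k m
  rw [a4_col X (φ.B + ((b : ℂ) • (sS : Ser d) ^ (b + 1)) • (1 : Mx d r)) _ m
    (fun k => (congrFun h k).symm) l, mul_add, Matrix.add_apply, Matrix.mul_smul, mul_one,
    Matrix.smul_apply, smul_eq_mul]

private lemma a4_mA (X : Mx d r) (i : Fin d) (l m : Fin r) :
    X.mulVec (φ.vec (M.P i (φ.u m))) l = (X * φ.A i) l m :=
  a4_col X (φ.A i) _ m (fun _ => rfl) l

private lemma a4_mE (X : Mx d r) (e : M.L →ₗ[S.alg] M.L) (l m : Fin r) :
    X.mulVec (φ.vec (e (φ.u m))) l = (X * φ.E e) l m :=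
  a4_col X (φ.E e) _ m (fun _ => rfl) l

private lemma a4_vec_sub (w w' : M.L) (l : Fin r) :
    φ.vec (w - w') l = φ.vec w l - φ.vec w' l := by
  simp only [vec, map_sub, Pi.sub_apply]
  rfl

private lemma a4_vec_neg_s (w : M.L) (l : Fin r) :
    φ.vec (-(S.var none • w)) l = -(sS * φ.vec w l) := by
  simp only [vec, map_neg, map_smul, Pi.neg_apply, Pi.smul_apply, smul_eq_mul]
  rfl

private lemma a4_dpow (i : Fin d) (n : ℕ) : serD (some i) ((sS : Ser d) ^ n) = 0 := by
  induction n with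
  | zero => rw [pow_zero, Der.map_one']
  | succ n ih => rw [pow_succ, Der.leib, ih, n5_s_x, zero_mul, mul_zero, add_zero]

private lemma a4_cast (c : ℕ) (f : Ser d) : (c : ℂ) • f = (c : Ser d) * f := by
  rw [Nat.cast_smul_eq_nsmul, nsmul_eq_mul]

/-- the derivative of `B e_m + b s^(b+1) e_m` in the direction `x_i` -/
private lemma a4_dT (i : Fin d) (l m : Fin r) :
    serD (some i) (φ.vec (M.T (φ.u m)) l) = serD (some i) (φ.B l m) := by
  have h1 : serD (some i) ((b : Ser d) : Ser d) = 0 := by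
    have : ∀ n : ℕ, serD (some i) ((n : Ser d)) = 0 := fun n => by
      induction n with
      | zero => rw [Nat.cast_zero, map_zero]
      | succ n ih => rw [Nat.cast_succ, map_add, ih, Der.map_one', add_zero]
    exact this b
  rw [a4_B, map_add, Matrix.one_apply]
  split_ifs
  · rw [mul_one, a4_cast, Der.leib, a4_dpow, h1, zero_mul, mul_zero, add_zero, add_zero]
  · rw [mul_zero, map_zero, add_zero]

/-- MODULE a4. The relations. (Use `vec_P`, `vec_T`, `vec_E` twice on `w = u_j`, for which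
`φ.vec (u_j) = s^b e_j`, cancel `s^b`; `Ser d` is a domain.) -/
theorem rel (π : Proj M) : RelB b φ.A φ.B (φ.E π.e) := by
  refine ⟨fun i j => ?_, fun i => ?_, fun i => ?_, ?_, ?_⟩
  · ext1 l m
    have h1 := a4_vP φ i (M.P j (φ.u m)) l
    have h2 := a4_vP φ j (M.P i (φ.u m)) l
    rw [M.P_P i j, h2, a4_mA, a4_mA, ← a4_A, ← a4_A] at h1
    change (sS : Ser d) ^ (b + 1) * serD (some i) (φ.A j l m) -
      (sS : Ser d) ^ (b + 1) * serD (some j) (φ.A i l m) +
      ((φ.A i * φ.A j) l m - (φ.A j * φ.A i) l m) = 0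
    linear_combination -h1
  · ext1 l m
    have h1 := a4_vP φ i (M.T (φ.u m)) l
    have h2 := a4_vT φ (M.P i (φ.u m)) l
    have h3 := congrArg (fun w => φ.vec w l) (M.P_T i (φ.u m))
    beta_reduce at h3
    rw [a4_vec_sub, a4_vec_neg_s] at h3
    rw [a4_dT, a4_mT] at h1
    rw [a4_mA] at h2
    change (sS : Ser d) ^ (b + 1) * serD (some i) (φ.B l m) -
      (sS : Ser d) ^ (b + 2) * serD none (φ.A i l m) +
      ((φ.A i * φ.B) l m - (φ.B * φ.A i) l m) =
      -(((b : ℂ) + 1) • ((sS : Ser d) ^ (b + 1) * φ.A i l m))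
    rw [add_smul, one_smul, a4_cast]
    rw [a4_cast] at h1
    rw [← a4_A] at h2 h3
    linear_combination -h1 + h2 + (sS : Ser d) ^ b * h3
  · ext1 l m
    have h1 := a4_vP φ i (π.e (φ.u m)) l
    have h2 := a4_vE φ π.e (M.P i (φ.u m)) l
    rw [← π.P, h2, a4_mA, a4_mE, ← a4_E] at h1
    change (sS : Ser d) ^ (b + 1) * serD (some i) (φ.E π.e l m) +
      ((φ.A i * φ.E π.e) l m - (φ.E π.e * φ.A i) l m) = 0
    linear_combination -h1
  · ext1 l m
    have h1 := a4_vT φ (π.e (φ.u m)) l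
    have h2 := a4_vE φ π.e (M.T (φ.u m)) l
    rw [← π.T, h2, a4_mT, a4_mE, ← a4_E, a4_cast] at h1
    change (sS : Ser d) ^ (b + 2) * serD none (φ.E π.e l m) +
      ((φ.B * φ.E π.e) l m - (φ.E π.e * φ.B) l m) =
      (b : ℂ) • ((sS : Ser d) ^ (b + 1) * φ.E π.e l m)
    rw [a4_cast]
    linear_combination -h1
  · ext1 l m
    have h1 := a4_vE φ π.e (π.e (φ.u m)) l
    rw [π.idem, a4_mE, ← a4_E] at h1
    exact h1.symm
-- END a4

end Fr

private lemma a5_pow_inj {S : SymRing d} (M : FLat S) (b : ℕ) :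
    ∀ u : M.L, S.var none ^ b • u = 0 → u = 0 := by
  induction b with
  | zero => intro u hu; rwa [pow_zero, one_smul] at hu
  | succ b ih =>
    intro u hu
    rw [pow_succ, mul_smul] at hu
    exact M.sinj u (ih _ hu)

/-- the map `w ↦` coordinates of `s^b w` -/
private noncomputable def a5_iota {S : SymRing d} (M : FLat S) {b : ℕ} (f : Fin r → M.L)
    (hf : LinearIndependent S.alg f)
    (hs : ∀ w, S.var none ^ b • w ∈ Submodule.span S.alg (Set.range f)) :
    M.L →ₗ[S.alg] (Fin r → S.alg) :=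
  (Finsupp.linearEquivFunOnFinite S.alg S.alg (Fin r)).toLinearMap.comp
    (hf.repr.comp ((LinearMap.lsmul S.alg M.L (S.var none ^ b)).codRestrict _ hs))

/-- MODULE a5. The frame given by linearly independent elements `f_j` with `s^b M.L ⊆ ∑ S.alg f_j`:
`ι w` = coordinates of `s^b w`, `u_j = f_j`. -/
theorem exists_Fr {S : SymRing d} (M : FLat S) {b : ℕ} (f : Fin r → M.L)
    (hf : LinearIndependent S.alg f)
    (hs : ∀ w, S.var none ^ b • w ∈ Submodule.span S.alg (Set.range f)) : Nonempty (Fr M r b) := by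
  refine ⟨⟨a5_iota M f hf hs, ?_, f, fun j => ?_⟩⟩
  · rw [injective_iff_map_eq_zero]
    intro w hw
    have h1 : hf.repr ((LinearMap.lsmul S.alg M.L (S.var none ^ b)).codRestrict _ hs w) = 0 :=
      (Finsupp.linearEquivFunOnFinite S.alg S.alg (Fin r)).map_eq_zero_iff.1 hw
    have h2 := hf.linearCombination_repr
      ((LinearMap.lsmul S.alg M.L (S.var none ^ b)).codRestrict _ hs w)
    rw [h1, map_zero] at h2
    exact a5_pow_inj M b w h2.symm
  · have h1 : hf.repr ((LinearMap.lsmul S.alg M.L (S.var none ^ b)).codRestrict _ hs (f j)) =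
        Finsupp.single j (S.var none ^ b) := by
      apply hf.repr_eq
      rw [Finsupp.linearCombination_single]
      rfl
    change (Finsupp.linearEquivFunOnFinite S.alg S.alg (Fin r)) _ = _
    rw [LinearMap.comp_apply, h1]
    exact Finsupp.linearEquivFunOnFinite_single _ _ _ _ _

/-! ### The fibre `x = 0` -/

/-- the map `x = 0` from `ℂ[[x, s]]` to `ℂ[[s]]` -/
noncomputable def z0 (d : ℕ) : Ser d →+* PowerSeries ℂ :=
  (PowerSeries.map MvPowerSeries.constantCoeff).comp
    (MvPowerSeries.optionEquivLeft (Fin d) ℂ).toRingEquiv.toRingHom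

/-- the inclusion of `ℂ[[s]]` -/
noncomputable def zi (d : ℕ) : PowerSeries ℂ →+* Ser d :=
  (MvPowerSeries.optionEquivLeft (Fin d) ℂ).symm.toRingEquiv.toRingHom.comp
    (PowerSeries.map (MvPowerSeries.C (σ := Fin d)))

section f0

private lemma f0_coeff_z0 (f : Ser d) (n : ℕ) :
    PowerSeries.coeff n (z0 d f) = MvPowerSeries.constantCoeff
      (PowerSeries.coeff n (MvPowerSeries.optionEquivLeft (Fin d) ℂ f)) := by
  show PowerSeries.coeff n (PowerSeries.map MvPowerSeries.constantCoeff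
    (MvPowerSeries.optionEquivLeft (Fin d) ℂ f)) = _
  rw [PowerSeries.coeff_map]

/-- MODULE f0 -/
lemma z0_coeff (f : Ser d) (n : ℕ) :
    PowerSeries.coeff n (z0 d f) = MvPowerSeries.coeff (Finsupp.single none n) f := by
  rw [f0_coeff_z0, ← MvPowerSeries.coeff_zero_eq_constantCoeff_apply,
    MvPowerSeries.coeff_coeff_optionEquivLeft, Finsupp.optionElim_zero]

private lemma f0_equiv_zi (g : PowerSeries ℂ) :
    MvPowerSeries.optionEquivLeft (Fin d) ℂ (zi d g) =
      PowerSeries.map (MvPowerSeries.C (σ := Fin d)) g := by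
  show MvPowerSeries.optionEquivLeft (Fin d) ℂ ((MvPowerSeries.optionEquivLeft (Fin d) ℂ).symm
    (PowerSeries.map (MvPowerSeries.C (σ := Fin d)) g)) = _
  rw [AlgEquiv.apply_symm_apply]

/-- MODULE f0 -/
lemma z0_zi (g : PowerSeries ℂ) : z0 d (zi d g) = g := by
  ext n
  rw [f0_coeff_z0, f0_equiv_zi, PowerSeries.coeff_map, MvPowerSeries.constantCoeff_C]

/-- MODULE f0 -/
lemma zi_coeff (g : PowerSeries ℂ) (m : Option (Fin d) →₀ ℕ) :
    MvPowerSeries.coeff m (zi d g) =
      if m = Finsupp.single none (m none) then PowerSeries.coeff (m none) g else 0 := by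
  classical
  have h1 : MvPowerSeries.coeff m (zi d g) = MvPowerSeries.coeff m.some
      (PowerSeries.coeff (m none) (MvPowerSeries.optionEquivLeft (Fin d) ℂ (zi d g))) := by
    rw [MvPowerSeries.coeff_coeff_optionEquivLeft, Finsupp.optionElim_some]
  rw [h1, f0_equiv_zi, PowerSeries.coeff_map, MvPowerSeries.coeff_C]
  have h2 : m.some = 0 ↔ m = Finsupp.single none (m none) := by
    constructor
    · intro h
      have h3 := Finsupp.optionElim_some m
      rw [h, Finsupp.optionElim_zero] at h3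
      exact h3.symm
    · intro h
      rw [h, Finsupp.some_single_none]
  by_cases h : m.some = 0
  · rw [if_pos h, if_pos (h2.1 h)]
  · rw [if_neg h, if_neg (fun h' => h (h2.2 h'))]

/-- MODULE f0 -/
lemma z0_sS : z0 d sS = PowerSeries.X := by
  show PowerSeries.map MvPowerSeries.constantCoeff
    (MvPowerSeries.optionEquivLeft (Fin d) ℂ (MvPowerSeries.X none)) = _
  rw [MvPowerSeries.optionEquivLeft_X_none, PowerSeries.map_X]

/-- MODULE f0 -/
lemma z0_serD (f : Ser d) : z0 d (serD none f) = PowerSeries.derivative ℂ (z0 d f) := by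
  ext n
  rw [z0_coeff, serD_apply, MvPowerSeries.coeff_pderiv, PowerSeries.coeff_derivative, z0_coeff,
    Finsupp.single_eq_same, ← Finsupp.single_add]

/-- MODULE f0 -/
lemma zi_serD (g : PowerSeries ℂ) (i : Fin d) : serD (some i) (zi d g) = 0 := by
  ext m
  rw [serD_apply, MvPowerSeries.coeff_pderiv, zi_coeff, if_neg, zero_mul, map_zero]
  intro h
  have h1 := congrArg (fun q : Option (Fin d) →₀ ℕ => q (some i)) h
  simp only [Finsupp.add_apply, Finsupp.single_eq_same] at h1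
  rw [Finsupp.single_eq_of_ne (by simp)] at h1
  omega

/-- MODULE f0 -/
lemma zi_formal (g : PowerSeries ℂ) : IsFormal (zi d g) := by
  refine ⟨1, one_pos, fun j => ⟨‖PowerSeries.coeff j g‖, fun m hm => ?_⟩⟩
  rw [one_pow, mul_one, zi_coeff, hm]
  split_ifs
  · exact le_rfl
  · rw [norm_zero]
    exact norm_nonneg _

/-- MODULE f0 -/
lemma cm_of_z0 {k : ℕ} {M : Mx d r}
    (h : ∀ l j n, k < n → PowerSeries.coeff n (z0 d (M l j)) = 0) :
    ∀ m, Finsupp.weight (wx d) m = 0 → k < m none → cm m M = 0 := by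
  intro m hm hk
  ext a b
  rw [Pool.Fml.cm_apply, n7_weight m hm, ← z0_coeff]
  exact h a b _ hk

end f0

section f1

/-- the inclusion of the polynomials into the power series, for matrices -/
noncomputable def pm {r : ℕ} (p : Matrix (Fin r) (Fin r) ℂ[X]) :
    Matrix (Fin r) (Fin r) (PowerSeries ℂ) := p.map fun f => (f : PowerSeries ℂ)

/-- the inclusion of the polynomial vectors -/
private noncomputable def f1_cv {r : ℕ} (y : Fin r → ℂ[X]) : Fin r → PowerSeries ℂ :=
  fun l => (y l : PowerSeries ℂ)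

private lemma f1_cv_add {r : ℕ} (y z : Fin r → ℂ[X]) : f1_cv (y + z) = f1_cv y + f1_cv z := by
  funext l
  simp [f1_cv]

private lemma f1_cv_smul {r : ℕ} (c : ℂ[X]) (y : Fin r → ℂ[X]) :
    f1_cv (c • y) = (c : PowerSeries ℂ) • f1_cv y := by
  funext l
  simp [f1_cv]

private lemma f1_cv_sum {r : ℕ} {ι : Type} (s : Finset ι) (y : ι → Fin r → ℂ[X]) :
    f1_cv (∑ i ∈ s, y i) = ∑ i ∈ s, f1_cv (y i) := by
  classical
  induction s using Finset.induction_on with
  | empty =>
    funext l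
    simp [f1_cv]
  | insert a s ha ih => rw [Finset.sum_insert ha, Finset.sum_insert ha, f1_cv_add, ih]

private noncomputable def f1_L {r : ℕ} (g : Matrix (Fin r) (Fin r) (PowerSeries ℂ)) :
    Submodule ℂ[X] (Fin r → ℂ[X]) where
  carrier := {y | ∃ w, g.mulVec w = f1_cv y}
  add_mem' := by
    rintro y z ⟨w, hw⟩ ⟨w', hw'⟩
    exact ⟨w + w', by rw [Matrix.mulVec_add, hw, hw', f1_cv_add]⟩
  zero_mem' := ⟨0, by
    rw [Matrix.mulVec_zero]
    funext l
    simp [f1_cv]⟩
  smul_mem' := by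
    rintro c y ⟨w, hw⟩
    exact ⟨(c : PowerSeries ℂ) • w, by rw [Matrix.mulVec_smul, hw, f1_cv_smul]⟩

private lemma f1_X {r b : ℕ} {g K : Matrix (Fin r) (Fin r) (PowerSeries ℂ)}
    (h : g * K = (PowerSeries.X : PowerSeries ℂ) ^ b • 1) (y : Fin r → ℂ[X]) :
    (X : ℂ[X]) ^ b • y ∈ f1_L g := by
  refine ⟨K.mulVec (f1_cv y), ?_⟩
  rw [Matrix.mulVec_mulVec, h, Matrix.smul_mulVec, Matrix.one_mulVec, f1_cv_smul]
  simp

private lemma f1_basis {r b : ℕ} {g K : Matrix (Fin r) (Fin r) (PowerSeries ℂ)}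
    (h : g * K = (PowerSeries.X : PowerSeries ℂ) ^ b • 1) :
    Nonempty (Module.Basis (Fin r) ℂ[X] (f1_L g)) := by
  obtain ⟨n, γ⟩ := Submodule.basisOfPid (Pi.basisFun ℂ[X] (Fin r)) (f1_L g)
  have h1 : Module.finrank ℂ[X] (f1_L g) = n := by
    rw [Module.finrank_eq_card_basis γ, Fintype.card_fin]
  have h2 : Module.finrank ℂ[X] (f1_L g) ≤ r := by
    refine (Submodule.finrank_le _).trans (le_of_eq ?_)
    rw [Module.finrank_pi, Fintype.card_fin]
  have hfin : Module.Finite ℂ[X] (f1_L g) := Module.Finite.of_basis γ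
  let T : (Fin r → ℂ[X]) →ₗ[ℂ[X]] f1_L g :=
    LinearMap.codRestrict (f1_L g) (((X : ℂ[X]) ^ b) • LinearMap.id) (fun y => f1_X h y)
  have hT : Function.Injective T := by
    intro y z hyz
    have h3 := congrArg Subtype.val hyz
    have h4 : (X : ℂ[X]) ^ b • y = (X : ℂ[X]) ^ b • z := h3
    funext l
    have h5 := congrFun h4 l
    simp only [Pi.smul_apply, smul_eq_mul] at h5
    exact mul_left_cancel₀ (pow_ne_zero b Polynomial.X_ne_zero) h5
  have h3 : r ≤ Module.finrank ℂ[X] (f1_L g) := by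
    have := LinearMap.finrank_le_finrank_of_injective hT
    rwa [Module.finrank_pi, Fintype.card_fin] at this
  have h4 : n = r := by omega
  subst h4
  exact ⟨γ⟩

/-- MODULE f1. Let `Λ = {y ∈ ℂ[s]^r | y ∈ g ℂ[[s]]^r}`. It contains `s^b ℂ[s]^r`, as
`g K = s^b`; so it is a free `ℂ[s]`-module of rank `r` (`ℂ[X]` is a PID); a basis is the matrix `p`
and `s^b e_j ∈ Λ` gives `q` with `p q = s^b`. Every column of `g` is the sum of a
polynomial vector, which lies in `Λ`, and of an element of `s^b ℂ[[s]]^r`: `g = p V` with a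
matrix `V` over `ℂ[[s]]`, and `p = g U` by definition of `Λ`; `U V = 1` because `g` is
injective. -/
theorem polyBasis {b : ℕ} (g K : Matrix (Fin r) (Fin r) (PowerSeries ℂ))
    (h : g * K = (PowerSeries.X : PowerSeries ℂ) ^ b • 1)
    (h' : K * g = (PowerSeries.X : PowerSeries ℂ) ^ b • 1) :
    ∃ (U V : Matrix (Fin r) (Fin r) (PowerSeries ℂ)) (p q : Matrix (Fin r) (Fin r) ℂ[X]),
      U * V = 1 ∧ V * U = 1 ∧ g * U = pm p ∧ p * q = (X : ℂ[X]) ^ b • 1 ∧
      q * p = (X : ℂ[X]) ^ b • 1 := by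
  classical
  obtain ⟨γ⟩ := f1_basis h
  -- the matrix of the basis
  let p : Matrix (Fin r) (Fin r) ℂ[X] := Matrix.of fun l j => (γ j : Fin r → ℂ[X]) l
  -- coordinates
  have hrep : ∀ y ∈ f1_L g, ∃ c : Fin r → ℂ[X], p.mulVec c = y := by
    intro y hy
    refine ⟨fun j => γ.repr ⟨y, hy⟩ j, ?_⟩
    have h1 := congrArg Subtype.val (γ.sum_repr ⟨y, hy⟩)
    funext l
    have h2 := congrFun h1 l
    simp only [Submodule.coe_sum, Submodule.coe_smul, Finset.sum_apply, Pi.smul_apply,
      smul_eq_mul] at h2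
    simp only [Matrix.mulVec, dotProduct, p, Matrix.of_apply]
    rw [← h2]
    exact Finset.sum_congr rfl fun j _ => mul_comm _ _
  have hinj : ∀ c : Fin r → ℂ[X], p.mulVec c = 0 → c = 0 := by
    intro c hc
    have h1 : ∑ j, c j • γ j = 0 := by
      refine Subtype.ext ?_
      funext l
      have h2 := congrFun hc l
      simp only [Matrix.mulVec, dotProduct, p, Matrix.of_apply, Pi.zero_apply] at h2
      simp only [Submodule.coe_sum, Submodule.coe_smul, Finset.sum_apply, Pi.smul_apply,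
        smul_eq_mul, ZeroMemClass.coe_zero, Pi.zero_apply]
      rw [← h2]
      exact Finset.sum_congr rfl fun j _ => mul_comm _ _
    have h2 := Fintype.linearIndependent_iff.1 γ.linearIndependent c h1
    funext j
    exact h2 j
  choose! rep hrep' using hrep
  let q : Matrix (Fin r) (Fin r) ℂ[X] :=
    Matrix.of fun k j => rep ((X : ℂ[X]) ^ b • Pi.single j 1) k
  have hpq : p * q = (X : ℂ[X]) ^ b • 1 := by
    ext1 l j
    have h1 := congrFun (hrep' _ (f1_X h (Pi.single j 1))) l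
    have h2 : (p * q) l j = p.mulVec (rep ((X : ℂ[X]) ^ b • Pi.single j 1)) l := rfl
    rw [h2, h1]
    simp [Matrix.one_apply, Pi.single_apply]
  have hqp : q * p = (X : ℂ[X]) ^ b • 1 := by
    have h1 : p * (q * p - (X : ℂ[X]) ^ b • 1) = 0 := by
      rw [Matrix.mul_sub, ← Matrix.mul_assoc, hpq, Matrix.smul_mul, Matrix.one_mul,
        Matrix.mul_smul, Matrix.mul_one, sub_self]
    rw [← sub_eq_zero]
    ext1 k j
    have h2 := hinj (fun k => (q * p - (X : ℂ[X]) ^ b • 1) k j) (by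
      funext l
      exact congrFun (congrFun h1 l) j)
    exact congrFun h2 k
  -- `U`
  have hU : ∀ j, ∃ w, g.mulVec w = f1_cv (γ j : Fin r → ℂ[X]) := fun j => (γ j).2
  choose w hw using hU
  let U : Matrix (Fin r) (Fin r) (PowerSeries ℂ) := Matrix.of fun l j => w j l
  have hgU : g * U = pm p := by
    ext1 l j
    exact congrFun (hw j) l
  -- cancellation of `g`
  have hX0 : (PowerSeries.X : PowerSeries ℂ) ^ b ≠ 0 := pow_ne_zero b PowerSeries.X_ne_zero
  have hcan : ∀ A B : Matrix (Fin r) (Fin r) (PowerSeries ℂ), g * A = g * B → A = B := by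
    intro A B hAB
    have h1 : K * (g * A) = K * (g * B) := by rw [hAB]
    rw [← Matrix.mul_assoc, ← Matrix.mul_assoc, h', Matrix.smul_mul, Matrix.smul_mul,
      Matrix.one_mul, Matrix.one_mul] at h1
    ext1 l j
    have h2 := congrFun (congrFun h1 l) j
    simp only [Matrix.smul_apply, smul_eq_mul] at h2
    exact mul_left_cancel₀ hX0 h2
  -- `V`
  have hV : ∀ j, ∃ v : Fin r → PowerSeries ℂ, (pm p).mulVec v = fun l => g l j := by
    intro j
    have hdiv : ∀ l, ∃ ρ : PowerSeries ℂ, g l j - ((PowerSeries.trunc b (g l j) : ℂ[X]) :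
        PowerSeries ℂ) = (PowerSeries.X : PowerSeries ℂ) ^ b * ρ := by
      intro l
      have h1 : (PowerSeries.X : PowerSeries ℂ) ^ b ∣ g l j -
          ((PowerSeries.trunc b (g l j) : ℂ[X]) : PowerSeries ℂ) := by
        rw [PowerSeries.X_pow_dvd_iff]
        intro m hm
        rw [map_sub, Polynomial.coeff_coe, PowerSeries.coeff_trunc, if_pos hm, sub_self]
      exact h1
    choose ρ hρ using hdiv
    let t : Fin r → ℂ[X] := fun l => PowerSeries.trunc b (g l j)
    have htL : t ∈ f1_L g := by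
      refine ⟨Pi.single j 1 - K.mulVec ρ, ?_⟩
      rw [Matrix.mulVec_sub, Matrix.mulVec_mulVec, h, Matrix.smul_mulVec, Matrix.one_mulVec,
        Matrix.mulVec_single_one]
      funext l
      have h1 := hρ l
      simp only [Pi.sub_apply, Pi.smul_apply, smul_eq_mul, f1_cv, t, Matrix.col_apply]
      rw [← h1]
      ring
    refine ⟨f1_cv (rep t) + (pm q).mulVec ρ, ?_⟩
    have h1 : (pm p).mulVec (f1_cv (rep t)) = f1_cv t := by
      have h2 := hrep' t htL
      rw [← h2]
      funext l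
      simp only [Matrix.mulVec, dotProduct, pm, f1_cv, Matrix.map_apply]
      rw [h2]
      have h3 : ((∑ k, p l k * rep t k : ℂ[X]) : PowerSeries ℂ) =
          ∑ k, ((p l k : ℂ[X]) : PowerSeries ℂ) * ((rep t k : ℂ[X]) : PowerSeries ℂ) := by
        rw [← Polynomial.coeToPowerSeries.ringHom_apply, map_sum]
        refine Finset.sum_congr rfl fun k _ => ?_
        rw [map_mul, Polynomial.coeToPowerSeries.ringHom_apply,
          Polynomial.coeToPowerSeries.ringHom_apply]
      exact h3.symm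
    have h2 : pm p * pm q = (PowerSeries.X : PowerSeries ℂ) ^ b • 1 := by
      have h3 : pm (p * q) = pm p * pm q := by
        ext1 l k
        simp only [pm, Matrix.map_apply, Matrix.mul_apply]
        rw [← Polynomial.coeToPowerSeries.ringHom_apply, map_sum]
        refine Finset.sum_congr rfl fun k _ => ?_
        rw [map_mul, Polynomial.coeToPowerSeries.ringHom_apply,
          Polynomial.coeToPowerSeries.ringHom_apply]
      rw [← h3, hpq]
      ext1 l k
      simp only [pm, Matrix.map_apply, Matrix.smul_apply, Matrix.one_apply, smul_eq_mul]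
      split_ifs <;> simp
    rw [Matrix.mulVec_add, h1, Matrix.mulVec_mulVec, h2, Matrix.smul_mulVec, Matrix.one_mulVec]
    funext l
    have h3 := hρ l
    simp only [Pi.add_apply, Pi.smul_apply, smul_eq_mul, f1_cv, t]
    rw [← h3]
    ring
  choose v hv using hV
  let V : Matrix (Fin r) (Fin r) (PowerSeries ℂ) := Matrix.of fun l j => v j l
  have hpV : pm p * V = g := by
    ext1 l j
    exact congrFun (hv j) l
  have hUV : U * V = 1 := by
    apply hcan
    rw [← Matrix.mul_assoc, hgU, hpV, Matrix.mul_one]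
  exact ⟨U, V, p, q, hUV, mul_eq_one_comm.1 hUV, hgU, hpq, hqp⟩

end f1

section f2

/-- the derivation `d/ds` on matrices -/
noncomputable def dsM {r : ℕ} (g : Matrix (Fin r) (Fin r) (PowerSeries ℂ)) :
    Matrix (Fin r) (Fin r) (PowerSeries ℂ) := g.map fun f => PowerSeries.derivative ℂ f

/-- the derivation on rectangular matrices -/
private noncomputable def f2_d {m n : Type} (g : Matrix m n (PowerSeries ℂ)) :
    Matrix m n (PowerSeries ℂ) := g.map fun f => PowerSeries.derivative ℂ f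

private lemma f2_d_mul {m n l : Type} [Fintype n] (A : Matrix m n (PowerSeries ℂ))
    (B : Matrix n l (PowerSeries ℂ)) : f2_d (A * B) = f2_d A * B + A * f2_d B := by
  ext1 i j
  simp only [f2_d, Matrix.map_apply, Matrix.mul_apply, Matrix.add_apply, map_sum,
    Derivation.leibniz, smul_eq_mul]
  rw [← Finset.sum_add_distrib]
  refine Finset.sum_congr rfl fun x _ => ?_
  ring

private lemma f2_d_smul {m n : Type} (f : PowerSeries ℂ) (A : Matrix m n (PowerSeries ℂ)) :
    f2_d (f • A) = PowerSeries.derivative ℂ f • A + f • f2_d A := by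
  ext1 i j
  simp only [f2_d, Matrix.map_apply, Matrix.smul_apply, Matrix.add_apply, Derivation.leibniz,
    smul_eq_mul]
  ring

private lemma f2_dX (b : ℕ) : (PowerSeries.X : PowerSeries ℂ) ^ (b + 2) *
    PowerSeries.derivative ℂ ((PowerSeries.X : PowerSeries ℂ) ^ b) =
      (b : PowerSeries ℂ) * (PowerSeries.X : PowerSeries ℂ) ^ (2 * b + 1) := by
  rcases b with _ | b
  · simp
  · rw [Derivation.leibniz_pow, PowerSeries.derivative_X]
    simp only [smul_eq_mul, nsmul_eq_mul, Nat.add_sub_cancel, mul_one]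
    ring

private lemma f2_findet {r : ℕ} (Y : Matrix (Fin r) (Fin r) (PowerSeries ℂ)) :
    ∃ (k : ℕ) (G H Y' : Matrix (Fin r) (Fin r) (PowerSeries ℂ)), G * H = 1 ∧ H * G = 1 ∧
      (∀ l j n, k < n → PowerSeries.coeff n (Y' l j) = 0) ∧
      (PowerSeries.X : PowerSeries ℂ) ^ 2 • f2_d G + Y * G = G * Y' := by
  obtain ⟨k, g, Y', hg0, hk, hY0, hrec⟩ :=
    findet fun n => Matrix.of fun i j => PowerSeries.coeff n (Y i j)
  set G : Matrix (Fin r) (Fin r) (PowerSeries ℂ) :=
    Matrix.of fun i j => PowerSeries.mk fun n => g n i j with hG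
  set Z : Matrix (Fin r) (Fin r) (PowerSeries ℂ) :=
    Matrix.of fun i j => PowerSeries.mk fun n => Y' n i j with hZ
  have cG : ∀ n i j, PowerSeries.coeff n (G i j) = g n i j := fun n i j => by
    rw [hG, Matrix.of_apply, PowerSeries.coeff_mk]
  have cZ : ∀ n i j, PowerSeries.coeff n (Z i j) = Y' n i j := fun n i j => by
    rw [hZ, Matrix.of_apply, PowerSeries.coeff_mk]
  have hdet : IsUnit G.det := by
    rw [PowerSeries.isUnit_iff_constantCoeff]
    have h2 : (PowerSeries.constantCoeff : PowerSeries ℂ →+* ℂ).mapMatrix G = 1 := by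
      ext i j
      rw [RingHom.mapMatrix_apply, Matrix.map_apply, ← PowerSeries.coeff_zero_eq_constantCoeff_apply,
        cG, hg0]
    rw [RingHom.map_det, h2, Matrix.det_one]
    exact isUnit_one
  refine ⟨k, G, G⁻¹, Z, Matrix.mul_nonsing_inv G hdet, Matrix.nonsing_inv_mul G hdet, ?_, ?_⟩
  · intro l j n hn
    rw [cZ, hk n hn]
    rfl
  · ext1 i j
    ext n
    rw [Matrix.add_apply, Matrix.smul_apply, smul_eq_mul, map_add]
    have m1 : ∀ n, PowerSeries.coeff n ((Y * G) i j) =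
        (∑ p ∈ antidiagonal n, (Matrix.of fun i j => PowerSeries.coeff p.1 (Y i j)) * g p.2) i j := by
      intro n
      rw [Matrix.mul_apply, map_sum, Matrix.sum_apply]
      simp only [PowerSeries.coeff_mul, Matrix.mul_apply, Matrix.of_apply, cG]
      rw [Finset.sum_comm]
    have m2 : ∀ n, PowerSeries.coeff n ((G * Z) i j) =
        (∑ p ∈ antidiagonal n, g p.1 * Y' p.2) i j := by
      intro n
      rw [Matrix.mul_apply, map_sum, Matrix.sum_apply]
      simp only [PowerSeries.coeff_mul, Matrix.mul_apply, cG, cZ]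
      rw [Finset.sum_comm]
    rw [m1, m2]
    rcases n with _ | n
    · have h0 : PowerSeries.coeff 0 ((PowerSeries.X : PowerSeries ℂ) ^ 2 * f2_d G i j) = 0 := by
        simp [pow_two, mul_assoc]
      rw [h0, zero_add]
      simp only [Finset.Nat.antidiagonal_zero, Finset.sum_singleton, hg0, mul_one, one_mul]
      exact congrFun (congrFun hY0 i) j
    · have h1 : PowerSeries.coeff (n + 1) ((PowerSeries.X : PowerSeries ℂ) ^ 2 * f2_d G i j) =
          (n : ℂ) * g n i j := by
        rw [pow_two, mul_assoc, PowerSeries.coeff_succ_X_mul]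
        rcases n with _ | n
        · simp
        · rw [PowerSeries.coeff_succ_X_mul, f2_d, Matrix.map_apply, PowerSeries.coeff_derivative,
            cG]
          push_cast
          ring
      rw [h1]
      have h2 := congrFun (congrFun (hrec n) i) j
      rw [Matrix.add_apply, Matrix.smul_apply, smul_eq_mul] at h2
      exact h2

private lemma f2_block {b : ℕ} (N : Submodule (PowerSeries ℂ) (Fin r → PowerSeries ℂ))
    (B : Matrix (Fin r) (Fin r) (PowerSeries ℂ))
    (hT : ∀ y ∈ N, ∃ w ∈ N, (PowerSeries.X : PowerSeries ℂ) ^ b • w =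
      (PowerSeries.X : PowerSeries ℂ) ^ (b + 2) • (fun l => PowerSeries.derivative ℂ (y l))
        + B.mulVec y) :
    ∃ (r1 k : ℕ) (g : Matrix (Fin r) (Fin r1) (PowerSeries ℂ))
      (Y : Matrix (Fin r1) (Fin r1) (PowerSeries ℂ)),
      (∀ l j n, k < n → PowerSeries.coeff n (Y l j) = 0) ∧
      (PowerSeries.X : PowerSeries ℂ) ^ (b + 2) • f2_d g + B * g =
        (PowerSeries.X : PowerSeries ℂ) ^ b • (g * Y) ∧
      (∀ y ∈ N, ∃ c, g.mulVec c = y) ∧ (∀ c, g.mulVec c ∈ N) ∧
      ∀ c, g.mulVec c = 0 → c = 0 := by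
  obtain ⟨r1, ⟨γ⟩⟩ := N.nonempty_basis_of_pid (Pi.basisFun (PowerSeries ℂ) (Fin r))
  set g0 : Matrix (Fin r) (Fin r1) (PowerSeries ℂ) :=
    Matrix.of fun l j => (γ j : Fin r → PowerSeries ℂ) l with hg0
  have g0mv : ∀ c : Fin r1 → PowerSeries ℂ,
      g0.mulVec c = ((∑ j, c j • γ j : N) : Fin r → PowerSeries ℂ) := by
    intro c
    funext l
    rw [Matrix.mulVec, dotProduct, Submodule.coe_sum, Finset.sum_apply]
    refine Finset.sum_congr rfl fun j _ => ?_
    rw [hg0, Matrix.of_apply, Submodule.coe_smul, Pi.smul_apply, smul_eq_mul, mul_comm]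
  choose w hwN hw using fun j : Fin r1 => hT (γ j : Fin r → PowerSeries ℂ) (γ j).2
  set Y0 : Matrix (Fin r1) (Fin r1) (PowerSeries ℂ) :=
    Matrix.of fun k j => γ.repr ⟨w j, hwN j⟩ k with hY0
  have hcol : ∀ j l, (g0 * Y0) l j = w j l := by
    intro j l
    have h1 : (g0 * Y0) l j = g0.mulVec (fun k => Y0 k j) l := rfl
    rw [h1, g0mv]
    have h2 : (∑ k, Y0 k j • γ k : N) = ⟨w j, hwN j⟩ := by
      have h3 := γ.sum_repr ⟨w j, hwN j⟩
      simpa only [hY0, Matrix.of_apply] using h3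
    rw [h2]
  have hrel0 : (PowerSeries.X : PowerSeries ℂ) ^ (b + 2) • f2_d g0 + B * g0 =
      (PowerSeries.X : PowerSeries ℂ) ^ b • (g0 * Y0) := by
    ext1 l j
    rw [Matrix.smul_apply, hcol, Matrix.add_apply, Matrix.smul_apply]
    have h1 := congrFun (hw j) l
    rw [Pi.smul_apply, Pi.add_apply, Pi.smul_apply] at h1
    rw [h1]
    rfl
  obtain ⟨k, G, H, Y', hGH, hHG, hdeg, hG⟩ := f2_findet Y0
  refine ⟨r1, k, g0 * G, Y', hdeg, ?_, ?_, ?_, ?_⟩
  · rw [f2_d_mul, smul_add, ← Matrix.smul_mul, ← Matrix.mul_assoc B, add_right_comm,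
      ← Matrix.add_mul, hrel0]
    rw [show b + 2 = b + 2 from rfl, pow_add, mul_smul, Matrix.mul_assoc g0, ← hG, Matrix.mul_add,
      Matrix.mul_smul, Matrix.smul_mul, Matrix.mul_assoc g0 Y0, smul_add, add_comm]
  · intro y hy
    refine ⟨H.mulVec (γ.repr ⟨y, hy⟩), ?_⟩
    rw [Matrix.mulVec_mulVec, Matrix.mul_assoc, hGH, Matrix.mul_one, g0mv]
    have h3 := γ.sum_repr ⟨y, hy⟩
    rw [h3]
  · intro c
    rw [← Matrix.mulVec_mulVec, g0mv]
    exact Subtype.property _
  · intro c hc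
    rw [← Matrix.mulVec_mulVec, g0mv] at hc
    have h1 : (∑ j, (G.mulVec c) j • γ j : N) = 0 := Subtype.ext hc
    have h2 : G.mulVec c = 0 := by
      funext j
      exact (Fintype.linearIndependent_iff.1 γ.linearIndependent) _ h1 j
    have h3 : H.mulVec (G.mulVec c) = 0 := by rw [h2, Matrix.mulVec_zero]
    rwa [Matrix.mulVec_mulVec, hHG, Matrix.one_mulVec] at h3

private lemma f2_pm_mul (P Q : Matrix (Fin r) (Fin r) ℂ[X]) : pm P * pm Q = pm (P * Q) := by
  have h := (Matrix.map_mul (L := P) (M := Q) (f := Polynomial.coeToPowerSeries.ringHom)).symm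
  exact h

private lemma f2_pm_add (P Q : Matrix (Fin r) (Fin r) ℂ[X]) : pm P + pm Q = pm (P + Q) := by
  ext1 i j
  simp [pm]

private lemma f2_pm_smul (f : ℂ[X]) (Q : Matrix (Fin r) (Fin r) ℂ[X]) :
    (f : PowerSeries ℂ) • pm Q = pm (f • Q) := by
  ext1 i j
  simp [pm]

private lemma f2_pm_d (Q : Matrix (Fin r) (Fin r) ℂ[X]) :
    f2_d (pm Q) = pm (Q.map Polynomial.derivative) := by
  ext1 i j
  simp [pm, f2_d, PowerSeries.derivative_coe]

private lemma f2_pm_of (M : Matrix (Fin r) (Fin r) (PowerSeries ℂ)) (k : ℕ)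
    (h : ∀ l j n, k < n → PowerSeries.coeff n (M l j) = 0) : ∃ P, M = pm P := by
  refine ⟨Matrix.of fun l j => PowerSeries.trunc (k + 1) (M l j), ?_⟩
  ext1 l j
  ext n
  rw [pm, Matrix.map_apply, Matrix.of_apply, Polynomial.coeff_coe, PowerSeries.coeff_trunc]
  split_ifs with hn
  · rfl
  · exact h l j n (by omega)

private lemma f2_pm_deg (P : Matrix (Fin r) (Fin r) ℂ[X]) :
    ∃ k : ℕ, ∀ l j n, k < n → PowerSeries.coeff n (pm P l j) = 0 := by
  refine ⟨Finset.univ.sup fun l => Finset.univ.sup fun j => (P l j).natDegree, ?_⟩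
  intro l j n hn
  rw [pm, Matrix.map_apply, Polynomial.coeff_coe]
  refine Polynomial.coeff_eq_zero_of_natDegree_lt (lt_of_le_of_lt ?_ hn)
  exact le_trans (Finset.le_sup (f := fun j => (P l j).natDegree) (Finset.mem_univ j))
    (Finset.le_sup (f := fun l => Finset.univ.sup fun j => (P l j).natDegree) (Finset.mem_univ l))

/-- MODULE f2. Algebraic form of the fibre. `L ⊆ ℂ[[s]]^r` is a lattice which contains
`s^b ℂ[[s]]^r` and is stable under `T = s² d/ds + s^(-b) B` and under the projector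
`e = s^(-b) E`, which commutes with `T`. Then there is `U ∈ GL_r(ℂ[[s]])` such that in the frame
`U` the matrices of `s^b T` and `s^b e` are polynomials.

Proof: `L = e L ⊕ (1 - e) L`, both free over the PID `ℂ[[s]]`, of ranks `r₁ + r₂ = r`; by
`findet`, applied to the matrix of `T` on each of them (`T` preserves both), there is a basis `γ`
of `L` (a matrix `g`, with `K`, `g K = K g = s^b`) in which `T = s² d/ds + Y` with a polynomial `Y`
(block diagonal) and `e` is a constant diagonal matrix `D`: `s^(b+2) g' + B g = s^b g Y`,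
`E g = s^b g D`. Apply `polyBasis` to `K` and `g` (in this order): `K U = p`, `p q = q p = s^b`
with polynomials `p`, `q`; `V = U⁻¹`. Then `g p = s^b U` and
`V (s^(b+2) U' + B U) = q (s² p' - b s p + Y p)`, `V E U = q D p`. -/
theorem exists_U {b : ℕ} (L : Submodule (PowerSeries ℂ) (Fin r → PowerSeries ℂ))
    (B E : Matrix (Fin r) (Fin r) (PowerSeries ℂ))
    (hb : ∀ j, Pi.single j ((PowerSeries.X : PowerSeries ℂ) ^ b) ∈ L)
    (hT : ∀ y ∈ L, ∃ w ∈ L, (PowerSeries.X : PowerSeries ℂ) ^ b • w =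
      (PowerSeries.X : PowerSeries ℂ) ^ (b + 2) • (fun l => PowerSeries.derivative ℂ (y l))
        + B.mulVec y)
    (hE : ∀ y ∈ L, ∃ w ∈ L, (PowerSeries.X : PowerSeries ℂ) ^ b • w = E.mulVec y)
    (hEE : E * E = (PowerSeries.X : PowerSeries ℂ) ^ b • E)
    (hTE : (PowerSeries.X : PowerSeries ℂ) ^ (b + 2) • dsM E + (B * E - E * B)
      = (b : ℂ) • (PowerSeries.X : PowerSeries ℂ) ^ (b + 1) • E) :
    ∃ (k : ℕ) (U V : Matrix (Fin r) (Fin r) (PowerSeries ℂ)), U * V = 1 ∧ V * U = 1 ∧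
      (∀ l j n, k < n → PowerSeries.coeff n
        ((V * ((PowerSeries.X : PowerSeries ℂ) ^ (b + 2) • dsM U + B * U)) l j) = 0) ∧
      ∀ l j n, k < n → PowerSeries.coeff n ((V * E * U) l j) = 0 := by
  set t : PowerSeries ℂ := PowerSeries.X with ht
  have t0 : t ≠ 0 := PowerSeries.X_ne_zero
  have cancelV : ∀ (n : ℕ) {ι : Type} (u v : ι → PowerSeries ℂ), t ^ n • u = t ^ n • v → u = v := by
    intro n ι u v huv
    funext l
    exact mul_left_cancel₀ (pow_ne_zero n t0) (congrFun huv l)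
  have cancelM : ∀ (n : ℕ) {ι κ : Type} (u v : Matrix ι κ (PowerSeries ℂ)),
      t ^ n • u = t ^ n • v → u = v := by
    intro n ι κ u v huv
    ext1 l j
    exact mul_left_cancel₀ (pow_ne_zero n t0) (congrFun (congrFun huv l) j)
  have bC : ∀ {ι κ : Type} (u : Matrix ι κ (PowerSeries ℂ)), (b : ℂ) • u = (b : PowerSeries ℂ) • u := by
    intro ι κ u
    ext1 l j
    rw [Matrix.smul_apply, Matrix.smul_apply, Nat.cast_smul_eq_nsmul, smul_eq_mul, nsmul_eq_mul]
  rw [bC] at hTE
  -- the commutation of `T` and `e`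
  have key : ∀ y : Fin r → PowerSeries ℂ,
      E.mulVec (t ^ (b + 2) • (fun l => PowerSeries.derivative ℂ (y l)) + B.mulVec y) +
        (b : PowerSeries ℂ) • t ^ (b + 1) • E.mulVec y =
      t ^ (b + 2) • (fun l => PowerSeries.derivative ℂ (E.mulVec y l)) + B.mulVec (E.mulVec y) := by
    intro y
    have h1 : (fun l => PowerSeries.derivative ℂ (E.mulVec y l)) =
        (dsM E).mulVec y + E.mulVec (fun l => PowerSeries.derivative ℂ (y l)) := by
      funext l
      simp only [Matrix.mulVec, dotProduct, Pi.add_apply, map_sum, Derivation.leibniz, smul_eq_mul,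
        dsM, Matrix.map_apply]
      rw [← Finset.sum_add_distrib]
      refine Finset.sum_congr rfl fun x _ => ?_
      ring
    have h2 := congrArg (fun Z => Z.mulVec y) hTE
    simp only [Matrix.add_mulVec, Matrix.sub_mulVec, Matrix.smul_mulVec,
      ← Matrix.mulVec_mulVec] at h2
    rw [h1, Matrix.mulVec_add, Matrix.mulVec_smul, ← h2, smul_add]
    abel
  -- the two blocks
  let N1 : Submodule (PowerSeries ℂ) (Fin r → PowerSeries ℂ) :=
    { carrier := {y | y ∈ L ∧ E.mulVec y = t ^ b • y}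
      zero_mem' := ⟨L.zero_mem, by rw [Matrix.mulVec_zero, smul_zero]⟩
      add_mem' := fun {x y} hx hy => ⟨L.add_mem hx.1 hy.1, by
        rw [Matrix.mulVec_add, hx.2, hy.2, smul_add]⟩
      smul_mem' := fun c x hx => ⟨L.smul_mem c hx.1, by
        rw [Matrix.mulVec_smul, hx.2, smul_comm]⟩ }
  let N2 : Submodule (PowerSeries ℂ) (Fin r → PowerSeries ℂ) :=
    { carrier := {y | y ∈ L ∧ E.mulVec y = 0}
      zero_mem' := ⟨L.zero_mem, by rw [Matrix.mulVec_zero]⟩
      add_mem' := fun {x y} hx hy => ⟨L.add_mem hx.1 hy.1, by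
        rw [Matrix.mulVec_add, hx.2, hy.2, add_zero]⟩
      smul_mem' := fun c x hx => ⟨L.smul_mem c hx.1, by
        rw [Matrix.mulVec_smul, hx.2, smul_zero]⟩ }
  have hT1 : ∀ y ∈ N1, ∃ w ∈ N1, t ^ b • w =
      t ^ (b + 2) • (fun l => PowerSeries.derivative ℂ (y l)) + B.mulVec y := by
    intro y hy
    obtain ⟨w, hwL, hw⟩ := hT y hy.1
    refine ⟨w, ⟨hwL, ?_⟩, hw⟩
    have k1 := key y
    rw [← hw, hy.2] at k1
    refine cancelV b _ _ ?_
    rw [← Matrix.mulVec_smul]
    have k2 : (fun l => PowerSeries.derivative ℂ ((t ^ b • y) l)) =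
        PowerSeries.derivative ℂ (t ^ b) • y + t ^ b • (fun l => PowerSeries.derivative ℂ (y l)) := by
      funext l
      simp only [Pi.smul_apply, Pi.add_apply, smul_eq_mul, Derivation.leibniz]
      ring
    have k4 : t ^ (b + 2) • PowerSeries.derivative ℂ (t ^ b) • y =
        ((b : PowerSeries ℂ) * t ^ (2 * b + 1)) • y := by
      rw [smul_smul]
      congr 1
      exact f2_dX b
    rw [k2, Matrix.mulVec_smul B, smul_add, k4] at k1
    have k3 : (b : PowerSeries ℂ) • t ^ (b + 1) • t ^ b • y =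
        ((b : PowerSeries ℂ) * t ^ (2 * b + 1)) • y := by
      rw [smul_smul, smul_smul]
      congr 1
      ring
    rw [k3, smul_comm (t ^ (b + 2)) (t ^ b), add_assoc, ← smul_add, ← hw, add_comm] at k1
    exact add_left_cancel k1
  have hT2 : ∀ y ∈ N2, ∃ w ∈ N2, t ^ b • w =
      t ^ (b + 2) • (fun l => PowerSeries.derivative ℂ (y l)) + B.mulVec y := by
    intro y hy
    obtain ⟨w, hwL, hw⟩ := hT y hy.1
    refine ⟨w, ⟨hwL, ?_⟩, hw⟩
    have k1 := key y
    rw [← hw, hy.2] at k1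
    refine cancelV b _ _ ?_
    rw [← Matrix.mulVec_smul, smul_zero]
    have k2 : (fun l : Fin r => PowerSeries.derivative ℂ ((0 : Fin r → PowerSeries ℂ) l)) = 0 := by
      funext l
      simp
    rw [k2] at k1
    simpa using k1
  obtain ⟨r1, k1, g1, Y1, hd1, hr1, hs1, hm1, hi1⟩ := f2_block N1 B hT1
  obtain ⟨r2, k2, g2, Y2, hd2, hr2, hs2, hm2, hi2⟩ := f2_block N2 B hT2
  set g : Matrix (Fin r) (Fin r1 ⊕ Fin r2) (PowerSeries ℂ) := Matrix.fromCols g1 g2 with hg
  have gmv : ∀ c : Fin r1 ⊕ Fin r2 → PowerSeries ℂ,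
      g.mulVec c = g1.mulVec (c ∘ Sum.inl) + g2.mulVec (c ∘ Sum.inr) := by
    intro c
    rw [hg, Matrix.fromCols_mulVec]
  have hEg1 : ∀ c, E.mulVec (g1.mulVec c) = t ^ b • g1.mulVec c := fun c => (hm1 c).2
  have hEg2 : ∀ c, E.mulVec (g2.mulVec c) = 0 := fun c => (hm2 c).2
  have ginj : ∀ c, g.mulVec c = 0 → c = 0 := by
    intro c hc
    rw [gmv] at hc
    have h1 := congrArg E.mulVec hc
    rw [Matrix.mulVec_add, hEg1, hEg2, add_zero, Matrix.mulVec_zero] at h1
    have h2 : g1.mulVec (c ∘ Sum.inl) = 0 := cancelV b _ _ (by rw [h1, smul_zero])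
    have h3 : g2.mulVec (c ∘ Sum.inr) = 0 := by rw [h2, zero_add] at hc; exact hc
    have h4 := hi1 _ h2
    have h5 := hi2 _ h3
    funext x
    rcases x with x | x
    · exact congrFun h4 x
    · exact congrFun h5 x
  have gspan : ∀ y ∈ L, ∃ c, g.mulVec c = y := by
    intro y hy
    obtain ⟨w, hwL, hw⟩ := hE y hy
    have hEw : E.mulVec w = t ^ b • w := by
      refine cancelV b _ _ ?_
      rw [← Matrix.mulVec_smul, hw, Matrix.mulVec_mulVec, hEE, Matrix.smul_mulVec]
    have hw1 : w ∈ N1 := ⟨hwL, hEw⟩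
    have hw2 : y - w ∈ N2 := ⟨L.sub_mem hy hwL, by
      rw [Matrix.mulVec_sub, hEw, hw, sub_self]⟩
    obtain ⟨c1, hc1⟩ := hs1 w hw1
    obtain ⟨c2, hc2⟩ := hs2 _ hw2
    refine ⟨Sum.elim c1 c2, ?_⟩
    rw [gmv, Sum.elim_comp_inl, Sum.elim_comp_inr, hc1, hc2]
    abel
  choose kc hkc using fun m : Fin r => gspan _ (hb m)
  set K : Matrix (Fin r1 ⊕ Fin r2) (Fin r) (PowerSeries ℂ) := Matrix.of fun x m => kc m x with hK
  have hgK : g * K = t ^ b • 1 := by
    ext1 l m
    have h1 : (g * K) l m = g.mulVec (kc m) l := rfl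
    rw [h1, hkc, Matrix.smul_apply, Matrix.one_apply, Pi.single_apply, smul_eq_mul, mul_ite,
      mul_one, mul_zero]
  have hKg : K * g = t ^ b • 1 := by
    have h1 : ∀ c, (K * g).mulVec c = (t ^ b • (1 : Matrix _ _ (PowerSeries ℂ))).mulVec c := by
      intro c
      have e1 : (t ^ b • (1 : Matrix (Fin r1 ⊕ Fin r2) (Fin r1 ⊕ Fin r2)
          (PowerSeries ℂ))).mulVec c = t ^ b • c := by
        rw [Matrix.smul_mulVec, Matrix.one_mulVec]
      rw [e1, ← sub_eq_zero]
      apply ginj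
      rw [Matrix.mulVec_sub, Matrix.mulVec_mulVec, ← Matrix.mul_assoc, hgK, Matrix.smul_mul,
        Matrix.one_mul, Matrix.smul_mulVec, Matrix.mulVec_smul, sub_self]
    exact Matrix.mulVec_injective (funext h1)
  have hcard : Fintype.card (Fin r1 ⊕ Fin r2) = Fintype.card (Fin r) := by
    refine le_antisymm ?_ ?_
    · refine card_le_of_injective (PowerSeries ℂ) g.mulVecLin ?_
      rw [← LinearMap.ker_eq_bot, LinearMap.ker_eq_bot']
      intro c hc
      exact ginj c hc
    · refine card_le_of_injective (PowerSeries ℂ) K.mulVecLin ?_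
      rw [← LinearMap.ker_eq_bot, LinearMap.ker_eq_bot']
      intro c hc
      have h1 : g.mulVec (K.mulVec c) = 0 := by
        have h2 : K.mulVec c = 0 := hc
        rw [h2, Matrix.mulVec_zero]
      rw [Matrix.mulVec_mulVec, hgK, Matrix.smul_mulVec, Matrix.one_mulVec] at h1
      exact cancelV b _ _ (by rw [h1, smul_zero])
  let σ : Fin r1 ⊕ Fin r2 ≃ Fin r := Fintype.equivOfCardEq hcard
  set Yb : Matrix (Fin r1 ⊕ Fin r2) (Fin r1 ⊕ Fin r2) (PowerSeries ℂ) :=
    Matrix.fromBlocks Y1 0 0 Y2 with hYb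
  set Db : Matrix (Fin r1 ⊕ Fin r2) (Fin r1 ⊕ Fin r2) (PowerSeries ℂ) :=
    Matrix.fromBlocks 1 0 0 0 with hDb
  have hrel : t ^ (b + 2) • f2_d g + B * g = t ^ b • (g * Yb) := by
    have e1 : f2_d g = Matrix.fromCols (f2_d g1) (f2_d g2) := by
      ext1 l x
      rcases x with x | x <;> rfl
    rw [e1, hg, hYb, Matrix.mul_fromCols, Matrix.fromCols_mul_fromBlocks, Matrix.mul_zero,
      Matrix.mul_zero, add_zero, zero_add]
    ext1 l x
    rcases x with x | x
    · exact congrFun (congrFun hr1 l) x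
    · exact congrFun (congrFun hr2 l) x
  have hEg : E * g = t ^ b • (g * Db) := by
    refine Matrix.mulVec_injective (funext fun c => ?_)
    rw [← Matrix.mulVec_mulVec, gmv, Matrix.mulVec_add, hEg1, hEg2, add_zero, Matrix.smul_mulVec,
      ← Matrix.mulVec_mulVec, gmv, hDb]
    congr 1
    have e1 : (Matrix.fromBlocks (1 : Matrix (Fin r1) (Fin r1) (PowerSeries ℂ)) 0 0
        (0 : Matrix (Fin r2) (Fin r2) (PowerSeries ℂ))).mulVec c =
        Sum.elim (c ∘ Sum.inl) 0 := by
      rw [Matrix.fromBlocks_mulVec, Matrix.one_mulVec, Matrix.zero_mulVec, Matrix.zero_mulVec,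
        Matrix.zero_mulVec, add_zero, add_zero]
    rw [e1, Sum.elim_comp_inl, Sum.elim_comp_inr, Matrix.mulVec_zero, add_zero]
  -- reindex
  set g' : Matrix (Fin r) (Fin r) (PowerSeries ℂ) := g.submatrix id σ.symm with hg'
  set K' : Matrix (Fin r) (Fin r) (PowerSeries ℂ) := K.submatrix σ.symm id with hK'
  set Y : Matrix (Fin r) (Fin r) (PowerSeries ℂ) := Yb.submatrix σ.symm σ.symm with hY
  set D : Matrix (Fin r) (Fin r) (PowerSeries ℂ) := Db.submatrix σ.symm σ.symm with hD
  have hgK' : g' * K' = t ^ b • 1 := by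
    rw [hg', hK', Matrix.submatrix_mul_equiv, hgK]
    rfl
  have hKg' : K' * g' = t ^ b • 1 := by
    have h1 : K' * g' = (K * g).submatrix σ.symm σ.symm := by
      ext1 x y
      rfl
    rw [h1, hKg]
    ext1 x y
    rw [Matrix.submatrix_apply, Matrix.smul_apply, Matrix.smul_apply, Matrix.one_apply,
      Matrix.one_apply]
    simp only [EmbeddingLike.apply_eq_iff_eq]
  have hrel' : t ^ (b + 2) • f2_d g' + B * g' = t ^ b • (g' * Y) := by
    have h1 : g' * Y = (g * Yb).submatrix id σ.symm := by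
      rw [hg', hY, Matrix.submatrix_mul_equiv]
    have h2 : B * g' = (B * g).submatrix id σ.symm := by
      ext1 x y
      rfl
    have h3 : f2_d g' = (f2_d g).submatrix id σ.symm := rfl
    rw [h1, h2, h3]
    ext1 x y
    exact congrFun (congrFun hrel x) (σ.symm y)
  have hEg' : E * g' = t ^ b • (g' * D) := by
    have h1 : g' * D = (g * Db).submatrix id σ.symm := by
      rw [hg', hD, Matrix.submatrix_mul_equiv]
    have h2 : E * g' = (E * g).submatrix id σ.symm := by
      ext1 x y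
      rfl
    rw [h1, h2]
    ext1 x y
    exact congrFun (congrFun hEg x) (σ.symm y)
  have hYdeg : ∀ l j n, max k1 k2 < n → PowerSeries.coeff n (Y l j) = 0 := by
    intro l j n hn
    rw [hY, Matrix.submatrix_apply, hYb]
    rcases σ.symm l with x | x <;> rcases σ.symm j with y | y
    · rw [Matrix.fromBlocks_apply₁₁]
      exact hd1 _ _ _ (lt_of_le_of_lt (le_max_left _ _) hn)
    · rw [Matrix.fromBlocks_apply₁₂, Matrix.zero_apply, map_zero]
    · rw [Matrix.fromBlocks_apply₂₁, Matrix.zero_apply, map_zero]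
    · rw [Matrix.fromBlocks_apply₂₂]
      exact hd2 _ _ _ (lt_of_le_of_lt (le_max_right _ _) hn)
  have hDdeg : ∀ l j n, 0 < n → PowerSeries.coeff n (D l j) = 0 := by
    intro l j n hn
    rw [hD, Matrix.submatrix_apply, hDb]
    rcases σ.symm l with x | x <;> rcases σ.symm j with y | y
    · rw [Matrix.fromBlocks_apply₁₁, Matrix.one_apply]
      split_ifs
      · rw [PowerSeries.coeff_one, if_neg (by omega)]
      · rw [map_zero]
    · rw [Matrix.fromBlocks_apply₁₂, Matrix.zero_apply, map_zero]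
    · rw [Matrix.fromBlocks_apply₂₁, Matrix.zero_apply, map_zero]
    · rw [Matrix.fromBlocks_apply₂₂, Matrix.zero_apply, map_zero]
  obtain ⟨Yp, hYp⟩ := f2_pm_of Y _ hYdeg
  obtain ⟨Dp, hDp⟩ := f2_pm_of D _ hDdeg
  obtain ⟨U, V, p, q, hUV, hVU, hKU, hpq, hqp⟩ := polyBasis K' g' hKg' hgK'
  have hXp : (((X : ℂ[X]) ^ b : ℂ[X]) : PowerSeries ℂ) = t ^ b := by
    rw [Polynomial.coe_pow, Polynomial.coe_X]
  have hpmq : pm p * pm q = t ^ b • 1 := by
    rw [f2_pm_mul, hpq, ← f2_pm_smul, hXp]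
    congr 1
    ext1 i j
    rw [pm, Matrix.map_apply, Matrix.one_apply, Matrix.one_apply]
    split_ifs
    · exact Polynomial.coe_one
    · exact Polynomial.coe_zero
  -- `g' p = s^b U`, `V g' = q`
  have hgp : g' * pm p = t ^ b • U := by
    rw [← hKU, ← Matrix.mul_assoc, hgK', Matrix.smul_mul, Matrix.one_mul]
  have hVg : V * g' = pm q := by
    refine cancelM b _ _ ?_
    have h1 : V * g' * (pm p * pm q) = t ^ b • pm q := by
      rw [← Matrix.mul_assoc, Matrix.mul_assoc V g', hgp, Matrix.mul_smul, hVU, Matrix.smul_mul,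
        Matrix.one_mul]
    rw [hpmq, Matrix.mul_smul, Matrix.mul_one] at h1
    exact h1
  have hdU : t ^ (b + 2) • (t ^ b • f2_d U) + ((b : PowerSeries ℂ) * t ^ (2 * b + 1)) • U =
      t ^ (b + 2) • (f2_d g' * pm p) + t ^ (b + 2) • (g' * f2_d (pm p)) := by
    have h1 := congrArg f2_d hgp
    rw [f2_d_mul, f2_d_smul] at h1
    have h2 := congrArg (fun Z => t ^ (b + 2) • Z) h1
    simp only [smul_add] at h2
    rw [smul_smul (t ^ (b + 2)) (PowerSeries.derivative ℂ (t ^ b)), ht, f2_dX, ← ht] at h2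
    rw [h2]
    abel
  have final1 : V * (t ^ (b + 2) • dsM U + B * U) =
      pm (q * (Yp * p) + (X : ℂ[X]) ^ 2 • (q * p.map Polynomial.derivative)
        + (-((b : ℂ[X]) * X ^ (b + 1))) • 1) := by
    refine cancelM b _ _ ?_
    have h0 : t ^ b • (V * (t ^ (b + 2) • dsM U + B * U)) =
        V * (t ^ (b + 2) • (t ^ b • f2_d U) + B * (t ^ b • U)) := by
      rw [← Matrix.mul_smul, smul_add, smul_comm (t ^ b) (t ^ (b + 2)), Matrix.mul_smul B]
      rfl
    have h1 : t ^ (b + 2) • (t ^ b • f2_d U) =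
        t ^ (b + 2) • (f2_d g' * pm p) + t ^ (b + 2) • (g' * f2_d (pm p)) -
          ((b : PowerSeries ℂ) * t ^ (2 * b + 1)) • U := by
      rw [← hdU, add_sub_cancel_right]
    rw [h0, h1, ← hgp]
    have h2 : t ^ (b + 2) • (f2_d g' * pm p) + t ^ (b + 2) • (g' * f2_d (pm p)) -
          ((b : PowerSeries ℂ) * t ^ (2 * b + 1)) • U + B * (g' * pm p) =
        (t ^ b • (g' * Y)) * pm p + t ^ (b + 2) • (g' * f2_d (pm p)) -
          ((b : PowerSeries ℂ) * t ^ (2 * b + 1)) • U := by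
      rw [← hrel', Matrix.add_mul, Matrix.smul_mul, Matrix.mul_assoc B]
      abel
    rw [h2, Matrix.mul_sub, Matrix.mul_add, Matrix.mul_smul V, Matrix.mul_smul V, hVU,
      Matrix.smul_mul, Matrix.mul_smul V, Matrix.mul_assoc g', ← Matrix.mul_assoc V,
      ← Matrix.mul_assoc V, hVg, f2_pm_d, hYp, f2_pm_mul, f2_pm_mul, f2_pm_mul, ← f2_pm_add,
      ← f2_pm_add, ← f2_pm_smul, ← f2_pm_smul, smul_add, smul_add, smul_smul, smul_smul]
    have h3 : pm (1 : Matrix (Fin r) (Fin r) ℂ[X]) = 1 := by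
      ext1 i j
      rw [pm, Matrix.map_apply, Matrix.one_apply, Matrix.one_apply]
      split_ifs
      · exact Polynomial.coe_one
      · exact Polynomial.coe_zero
    have h4 : (((-((b : ℂ[X]) * X ^ (b + 1)) : ℂ[X])) : PowerSeries ℂ) =
        -((b : PowerSeries ℂ) * t ^ (b + 1)) := by
      have h5 : ((b : ℂ[X]) : PowerSeries ℂ) = (b : PowerSeries ℂ) :=
        map_natCast (Polynomial.coeToPowerSeries.ringHom (R := ℂ)) b
      rw [Polynomial.coe_neg, Polynomial.coe_mul, Polynomial.coe_pow, Polynomial.coe_X, h5]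
    rw [h3, h4, Polynomial.coe_pow, Polynomial.coe_X, ← ht, ← pow_add, sub_eq_add_neg, ← neg_smul]
    congr 2
    ring
  have final2 : V * E * U = pm (q * (Dp * p)) := by
    refine cancelM b _ _ ?_
    rw [← Matrix.mul_smul, ← hgp, Matrix.mul_assoc V, ← Matrix.mul_assoc E, hEg', Matrix.smul_mul,
      Matrix.mul_smul, Matrix.mul_assoc g', ← Matrix.mul_assoc V, hVg, hDp, f2_pm_mul, f2_pm_mul]
  obtain ⟨ka, hka⟩ := f2_pm_deg (q * (Yp * p) + (X : ℂ[X]) ^ 2 • (q * p.map Polynomial.derivative)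
        + (-((b : ℂ[X]) * X ^ (b + 1))) • 1)
  obtain ⟨kb, hkb⟩ := f2_pm_deg (q * (Dp * p))
  refine ⟨max ka kb, U, V, hUV, hVU, ?_, ?_⟩
  · intro l j n hn
    rw [final1]
    exact hka l j n (lt_of_le_of_lt (le_max_left _ _) hn)
  · intro l j n hn
    rw [final2]
    exact hkb l j n (lt_of_le_of_lt (le_max_right _ _) hn)

end f2

section f3

/-- the fibre of a matrix -/
private noncomputable def f3_zM : Mx d r →+* Matrix (Fin r) (Fin r) (PowerSeries ℂ) :=
  (z0 d).mapMatrix

private lemma f3_zM_apply (M : Mx d r) (l j : Fin r) : f3_zM M l j = z0 d (M l j) := rfl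

private lemma f3_smul (f : Ser d) (M : Mx d r) : f3_zM (f • M) = z0 d f • f3_zM M := by
  ext1 l j
  rw [f3_zM_apply, Matrix.smul_apply, smul_eq_mul, map_mul]
  rfl

private lemma f3_s (n : ℕ) (M : Mx d r) :
    f3_zM ((sS : Ser d) ^ n • M) = (PowerSeries.X : PowerSeries ℂ) ^ n • f3_zM M := by
  rw [f3_smul, map_pow, z0_sS]

private lemma f3_ds (M : Mx d r) : f3_zM (M.map (serD none)) = dsM (f3_zM M) := by
  ext1 l j
  rw [f3_zM_apply, Matrix.map_apply, z0_serD]
  rfl

private lemma f3_nat (b : ℕ) (M : Mx d r) : f3_zM ((b : ℂ) • M) = (b : ℂ) • f3_zM M := by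
  rw [Nat.cast_smul_eq_nsmul, Nat.cast_smul_eq_nsmul, map_nsmul]

private lemma f3_mulVec (M : Mx d r) (y : Fin r → Ser d) (l : Fin r) :
    z0 d (M.mulVec y l) = (f3_zM M).mulVec (fun l => z0 d (y l)) l := by
  simp only [Matrix.mulVec, dotProduct, map_sum, map_mul]
  rfl

private lemma f3_vec_add {b : ℕ} {M : FLat (formal d)} (φ : Fr M r b) (v w : M.L) (l : Fin r) :
    φ.vec (v + w) l = φ.vec v l + φ.vec w l := by
  simp only [Fr.vec, map_add, Pi.add_apply]
  rfl

private lemma f3_vec_smul {b : ℕ} {M : FLat (formal d)} (φ : Fr M r b) (f : (formal d).alg)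
    (w : M.L) (l : Fin r) : φ.vec (f • w) l = (f : Ser d) * φ.vec w l := by
  simp only [Fr.vec, map_smul, Pi.smul_apply, smul_eq_mul]
  rfl

/-- the fibre of the lattice -/
private noncomputable def f3_L {b : ℕ} {M : FLat (formal d)} (φ : Fr M r b) :
    Submodule (PowerSeries ℂ) (Fin r → PowerSeries ℂ) where
  carrier := {y | ∃ w : M.L, ∀ l, z0 d (φ.vec w l) = y l}
  add_mem' := by
    rintro y z ⟨v, hv⟩ ⟨w, hw⟩
    refine ⟨v + w, fun l => ?_⟩
    rw [f3_vec_add, map_add, hv, hw]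
    rfl
  zero_mem' := by
    refine ⟨0, fun l => ?_⟩
    have h1 : φ.vec (0 : M.L) l = 0 := by
      simp only [Fr.vec, map_zero, Pi.zero_apply]
      rfl
    rw [h1, map_zero]
    rfl
  smul_mem' := by
    rintro c y ⟨w, hw⟩
    refine ⟨(⟨zi d c, zi_formal c⟩ : (formal d).alg) • w, fun l => ?_⟩
    rw [f3_vec_smul, map_mul, hw]
    change z0 d (zi d c) * y l = _
    rw [z0_zi]
    rfl

/-- MODULE f3. After a gauge transformation depending only on `s` the matrices `B(0, s)` and
`E(0, s)` are polynomials. (`L` = the submodule of all `z0 (φ.vec w)`, `w ∈ M.L`; `exists_U`;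
`U ↦ zi U`; `exists_gauB`.) -/
theorem exists_gauB_zero {b : ℕ} {M : FLat (formal d)} (φ : Fr M r b) (π : Proj M) :
    ∃ (k : ℕ) (A' : Fin d → Mx d r) (B' E' G H : Mx d r),
      GauB b φ.A A' φ.B B' (φ.E π.e) E' G H ∧
      (∀ l j, IsFormal (G l j)) ∧ (∀ l j, IsFormal (H l j)) ∧
      (∀ m, Finsupp.weight (wx d) m = 0 → k < m none → cm m B' = 0) ∧
      ∀ m, Finsupp.weight (wx d) m = 0 → k < m none → cm m E' = 0 := by
  have hrel := φ.rel π
  have hb : ∀ j, Pi.single j ((PowerSeries.X : PowerSeries ℂ) ^ b) ∈ f3_L φ := by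
    intro j
    refine ⟨φ.u j, fun l => ?_⟩
    have h1 : φ.vec (φ.u j) l = ((Pi.single j ((formal d).var none ^ b) :
        Fin r → (formal d).alg) l : Ser d) := by
      rw [Fr.vec, φ.hu]
    rw [h1]
    by_cases hlj : l = j
    · subst hlj
      rw [Pi.single_eq_same, Pi.single_eq_same]
      change z0 d ((sS : Ser d) ^ b) = _
      rw [map_pow, z0_sS]
    · rw [Pi.single_eq_of_ne hlj, Pi.single_eq_of_ne hlj]
      exact map_zero _
  have hT : ∀ y ∈ f3_L φ, ∃ w ∈ f3_L φ, (PowerSeries.X : PowerSeries ℂ) ^ b • w =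
      (PowerSeries.X : PowerSeries ℂ) ^ (b + 2) • (fun l => PowerSeries.derivative ℂ (y l))
        + (f3_zM φ.B).mulVec y := by
    rintro y ⟨w, hw⟩
    refine ⟨fun l => z0 d (φ.vec (M.T w) l), ⟨M.T w, fun l => rfl⟩, ?_⟩
    have hy : y = fun l => z0 d (φ.vec w l) := funext fun l => (hw l).symm
    subst hy
    funext l
    have h1 := congrArg (z0 d) (congrFun (φ.vec_T w) l)
    simp only [Pi.smul_apply, Pi.add_apply, smul_eq_mul, map_mul, map_add, map_pow, z0_sS,
      z0_serD, f3_mulVec] at h1 ⊢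
    exact h1
  have hE : ∀ y ∈ f3_L φ, ∃ w ∈ f3_L φ, (PowerSeries.X : PowerSeries ℂ) ^ b • w =
      (f3_zM (φ.E π.e)).mulVec y := by
    rintro y ⟨w, hw⟩
    refine ⟨fun l => z0 d (φ.vec (π.e w) l), ⟨π.e w, fun l => rfl⟩, ?_⟩
    have hy : y = fun l => z0 d (φ.vec w l) := funext fun l => (hw l).symm
    subst hy
    funext l
    have h1 := congrArg (z0 d) (congrFun (φ.vec_E π.e w) l)
    simp only [Pi.smul_apply, smul_eq_mul, map_mul, map_pow, z0_sS, f3_mulVec] at h1 ⊢
    exact h1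
  have hEE : f3_zM (φ.E π.e) * f3_zM (φ.E π.e) =
      (PowerSeries.X : PowerSeries ℂ) ^ b • f3_zM (φ.E π.e) := by
    have h1 := congrArg f3_zM hrel.EE
    rwa [map_mul, f3_s] at h1
  have hTE : (PowerSeries.X : PowerSeries ℂ) ^ (b + 2) • dsM (f3_zM (φ.E π.e)) +
      (f3_zM φ.B * f3_zM (φ.E π.e) - f3_zM (φ.E π.e) * f3_zM φ.B) =
      (b : ℂ) • (PowerSeries.X : PowerSeries ℂ) ^ (b + 1) • f3_zM (φ.E π.e) := by
    have h1 := congrArg f3_zM hrel.TE
    rwa [map_add, map_sub, map_mul, map_mul, f3_s, f3_ds, f3_nat, f3_s] at h1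
  obtain ⟨k, U, V, hUV, hVU, hB, hEU⟩ := exists_U (f3_L φ) (f3_zM φ.B) (f3_zM (φ.E π.e)) hb hT hE
    hEE hTE
  have hGH : ((zi d).mapMatrix U : Mx d r) * (zi d).mapMatrix V = 1 := by
    rw [← map_mul, hUV, map_one]
  have hHG : ((zi d).mapMatrix V : Mx d r) * (zi d).mapMatrix U = 1 := by
    rw [← map_mul, hVU, map_one]
  have hz : ∀ W : Matrix (Fin r) (Fin r) (PowerSeries ℂ),
      f3_zM ((zi d).mapMatrix W : Mx d r) = W := by
    intro W
    ext1 l j
    exact z0_zi _
  obtain ⟨A', B', E', hg⟩ := exists_gauB b φ.A φ.B (φ.E π.e) hGH hHG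
  have hB' : f3_zM B' = V * ((PowerSeries.X : PowerSeries ℂ) ^ (b + 2) • dsM U +
      f3_zM φ.B * U) := by
    have h1 := congrArg f3_zM hg.T
    rw [map_add, map_mul, map_mul, f3_s, f3_ds, hz] at h1
    rw [h1, ← Matrix.mul_assoc, hVU, Matrix.one_mul]
  have hE' : f3_zM E' = V * f3_zM (φ.E π.e) * U := by
    have h1 := congrArg f3_zM hg.E
    rw [map_mul, map_mul, hz] at h1
    rw [Matrix.mul_assoc, h1, ← Matrix.mul_assoc, hVU, Matrix.one_mul]
  refine ⟨k, A', B', E', _, _, hg, fun l j => zi_formal _, fun l j => zi_formal _, ?_, ?_⟩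
  · refine cm_of_z0 fun l j n hn => ?_
    rw [← f3_zM_apply, hB']
    exact hB l j n hn
  · refine cm_of_z0 fun l j n hn => ?_
    rw [← f3_zM_apply, hE']
    exact hEU l j n hn

end f3

/-! ### The formal normal form with poles -/

/-- the normal form with poles: `A'_i` has degree `≤ b` in `s`, `B'`, `E'` have degree `≤ k` -/
structure NFB {r : ℕ} (b k : ℕ) (A A' : Fin d → Mx d r) (B B' E E' G H : Mx d r) : Prop where
  gau : GauB b A A' B B' E E' G H
  rel : RelB b A' B' E'
  degA : ∀ i m, b < m none → cm m (A' i) = 0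
  degB : ∀ m, k < m none → cm m B' = 0
  degE : ∀ m, k < m none → cm m E' = 0

private lemma f4_pow (n : ℕ) {M : Mx d r} (h : ∀ m, Finsupp.weight (wx d) m = 0 → cm m M = 0) :
    ∀ m, Finsupp.weight (wx d) m = 0 → cm m ((sS : Ser d) ^ n • M) = 0 := by
  induction n with
  | zero =>
    intro m hm
    rw [pow_zero, one_smul]
    exact h m hm
  | succ n ih =>
    intro m hm
    rw [pow_succ', mul_smul, cm_sS_smul]
    split_ifs with h1
    · rfl
    · refine ih _ ?_
      have h2 : m = (m - Finsupp.single none 1) + Finsupp.single none 1 := by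
        rw [tsub_add_cancel_of_le]
        intro j
        rcases eq_or_ne j none with hj | hj
        · subst hj; rw [Finsupp.single_eq_same]; omega
        · rw [Finsupp.single_eq_of_ne hj]; exact Nat.zero_le _
      rw [h2, wx_add_single] at hm
      exact hm

/-- MODULE f4. Compose `exists_gauB_zero` with the gauge transformation of `birkhoffB` for
`Y = ∑ x_i A_i` (inverse: `exists_inv`; in weight `0` the second transformation is `1`, so the
matrices `B`, `E` do not change there), `RelB.gauge`, and `nfB_A`, `nfB_B`, `nfB_E`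
(with `max b k`). `∑ x_i A'_i = A` because `G ∑ x_i A'_i = s^(b+1) E G + Y G`. -/
theorem exists_NFB {b : ℕ} {M : FLat (formal d)} (φ : Fr M r b) (π : Proj M) :
    ∃ (k : ℕ) (A' : Fin d → Mx d r) (B' E' G H : Mx d r),
      NFB b k φ.A A' φ.B B' (φ.E π.e) E' G H := by
  classical
  obtain ⟨k, A1, B1, E1, G1, H1, g1, -, -, hB1, hE1⟩ := exists_gauB_zero φ π
  have r1 := (φ.rel π).gauge g1
  have hY0 : ∀ m, Finsupp.weight (wx d) m = 0 →
      cm m (∑ i, (MvPowerSeries.X (some i) : Ser d) • A1 i) = 0 := by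
    intro m hm
    rw [map_sum]
    refine Finset.sum_eq_zero fun i _ => ?_
    ext a b
    rw [Pool.Fml.cm_apply, Matrix.smul_apply, smul_eq_mul, MvPowerSeries.X,
      MvPowerSeries.coeff_monomial_mul, if_neg]
    · rfl
    · intro h1
      have h2 := h1 (some i)
      rw [Finsupp.single_eq_same] at h2
      have h3 : m (some i) * wx d (some i) ≤ Finsupp.weight (wx d) m := by
        rw [Finsupp.weight_eq_sum]
        exact Finset.single_le_sum (f := fun j => m j * wx d j) (fun _ _ => Nat.zero_le _)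
          (Finset.mem_univ (some i))
      simp only [wx, Option.elim] at h3
      rw [hm] at h3
      omega
  obtain ⟨G2, AE, hG2, hAE0, hAEs, heq⟩ := birkhoffB b _ hY0
  obtain ⟨H2, hGH2⟩ := exists_inv (G := G2) (by rw [hG2 0 (map_zero _), if_pos rfl])
  obtain ⟨A2, B2, E2, g2⟩ := exists_gauB b A1 B1 E1 hGH2 (mul_eq_one_comm.1 hGH2)
  have r2 := r1.gauge g2
  have eul_eq : ∀ U : Mx d r, ∑ j, (MvPowerSeries.X (some j) : Ser d) • U.map (serD (some j))
      = eulM (wx d) U := by
    intro U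
    ext1 a b
    rw [Matrix.sum_apply, Pool.Fml.eulM_apply, Pool.Fml.eul_apply, Fintype.sum_option]
    simp only [wx, Option.elim, zero_smul, zero_add, one_smul]
    rfl
  have hsum : ∑ i, (MvPowerSeries.X (some i) : Ser d) • A2 i = AE := by
    have h1 : G2 * ∑ i, (MvPowerSeries.X (some i) : Ser d) • A2 i = G2 * AE := by
      rw [← heq, Finset.mul_sum]
      have h2 : ∀ i, G2 * ((MvPowerSeries.X (some i) : Ser d) • A2 i) =
          (sS : Ser d) ^ (b + 1) • ((MvPowerSeries.X (some i) : Ser d) • G2.map (serD (some i)))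
            + ((MvPowerSeries.X (some i) : Ser d) • A1 i) * G2 := by
        intro i
        rw [Matrix.mul_smul, ← g2.P i, smul_add, Matrix.smul_mul]
        congr 1
        exact smul_comm _ _ _
      simp only [h2, Finset.sum_add_distrib]
      rw [← Finset.smul_sum, eul_eq, ← Finset.sum_mul]
    have h3 : H2 * (G2 * ∑ i, (MvPowerSeries.X (some i) : Ser d) • A2 i) = H2 * (G2 * AE) := by
      rw [h1]
    rw [← Matrix.mul_assoc, ← Matrix.mul_assoc, g2.HG, Matrix.one_mul, Matrix.one_mul] at h3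
    exact h3
  have hU : ∀ m, Finsupp.weight (wx d) m ≤ 0 → cm m (G2 - 1) = 0 := by
    intro m hm
    rw [map_sub, hG2 m (Nat.le_zero.1 hm), Pool.Fml.cm_one, sub_self]
  have hB2 : ∀ m, Finsupp.weight (wx d) m = 0 → k < m none → cm m B2 = 0 := by
    intro m hm hk
    have h1 := g2.T
    have h2 : B2 = B1 + (sS : Ser d) ^ (b + 2) • (G2 - 1).map (serD none) + B1 * (G2 - 1)
        - (G2 - 1) * B2 := by
      have h3 : (G2 - 1).map (serD none) = G2.map (serD none) := by
        have h4 := map_sub (Der.mat (n := Fin r) (serD (none : Option (Fin d)))) G2 1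
        rw [(Der.mat (n := Fin r) (serD (none : Option (Fin d)))).map_one', sub_zero] at h4
        exact h4
      rw [h3, Matrix.mul_sub, Matrix.sub_mul, ← h1]
      rw [Matrix.mul_one, Matrix.one_mul]
      abel
    have h5 : cm m ((sS : Ser d) ^ (b + 2) • (G2 - 1).map (serD none)) = 0 := by
      refine f4_pow (b + 2) (fun q hq => ?_) m hm
      rw [cm_map_serD, hU, smul_zero]
      rw [wx_add_single]
      exact le_of_eq hq
    rw [h2, map_sub, map_add, map_add, hB1 m hm hk, h5,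
      (Pool.Fml.cm_mul_low (w := wx d) (K := 0) hU B1 m (le_of_eq hm)).2,
      (Pool.Fml.cm_mul_low (w := wx d) (K := 0) hU B2 m (le_of_eq hm)).1, sub_zero, add_zero,
      add_zero]
  have hE2 : ∀ m, Finsupp.weight (wx d) m = 0 → k < m none → cm m E2 = 0 := by
    intro m hm hk
    have h2 : E2 = E1 + E1 * (G2 - 1) - (G2 - 1) * E2 := by
      rw [Matrix.mul_sub, Matrix.sub_mul, ← g2.E]
      rw [Matrix.mul_one, Matrix.one_mul]
      abel
    rw [h2, map_sub, map_add, hE1 m hm hk,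
      (Pool.Fml.cm_mul_low (w := wx d) (K := 0) hU E1 m (le_of_eq hm)).2,
      (Pool.Fml.cm_mul_low (w := wx d) (K := 0) hU E2 m (le_of_eq hm)).1, sub_zero, add_zero]
  have hAs : ∀ m, b < m none → cm m (∑ i, (MvPowerSeries.X (some i) : Ser d) • A2 i) = 0 := by
    rw [hsum]
    exact hAEs
  exact ⟨max b k, A2, B2, E2, G1 * G2, H2 * H1,
    { gau := g1.trans g2
      rel := r2
      degA := nfB_A r2 hAs
      degB := nfB_B (le_max_left b k) r2 hAs fun m hm hk =>
        hB2 m hm (lt_of_le_of_lt (le_max_right b k) hk)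
      degE := nfB_E r2 hAs fun m hm hk =>
        hE2 m hm (lt_of_le_of_lt (le_max_right b k) hk) }⟩

end Pool.Agent.Fbc
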