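import Pool.Agent.Fbc.NGc

/-!
# Lattices which are not free, part d: restriction to a line, regularity
-/

set_option autoImplicit false
set_option linter.unusedVariables false

namespace Pool.Agent.Fbc

open Polynomial
open Finset.HasAntidiagonal (antidiagonal mem_antidiagonal)
open Pool.Fml (Ser SymRing formal micro IsFormal IsMicro cm eulM)

variable {d r : ℕ}

/-- restriction of the formal symbols to the line `x = z v` -/
noncomputable def lineF (v : Fin d → ℂ) : (formal d).alg →+* (formal 1).alg :=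
  ((line v).comp (formal d).alg.val.toRingHom).codRestrict (formal 1).alg
    (fun f => line_formal v f.2)

/-- the inclusion of the convergent power series in `x` -/
noncomputable def cvi (d : ℕ) : CvS d →+* (formal d).alg where
  toFun := fun f => ⟨f, f.2.1⟩
  map_one' := rfl
  map_mul' := fun _ _ => rfl
  map_zero' := rfl
  map_add' := fun _ _ => rfl

/-- the restriction of a lattice with a frame to the line `x = z v`: the saturation `N.L` (with
respect to `z`) of the lattice generated by the restrictions `Φ u` -/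
structure LineData {M : FLat (formal d)} {b : ℕ} (φ : Fr M r b)
    (e : M.L →ₗ[(formal d).alg] M.L) (v : Fin d → ℂ) where
  /-- the saturated lattice on the line -/
  N : Pool.Fml.Lattice (formal 1)
  /-- a basis -/
  c : Module.Basis (Fin r) (formal 1).alg N.L
  /-- the embedding -/
  j : N.L →ₗ[(formal 1).alg] (Fin r → (formal 1).alg)
  j_inj : Function.Injective j
  /-- the elements `s^b f_l` -/
  w : Fin r → N.L
  hw : ∀ l, j (w l) = Pi.single l ((formal 1).var none ^ b)
  /-- the restriction to the line -/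
  Φ : M.L →+ N.L
  jΦ : ∀ u l, j (Φ u) l = lineF v (φ.ι u l)
  Φ_T : ∀ u, Φ (M.T u) = N.T (Φ u)
  Φ_P : ∀ u, N.P 0 (Φ u) = ∑ i, (algebraMap ℂ (formal 1).alg (v i)) • Φ (M.P i u)
  /-- the endomorphism induced by `e` -/
  e' : N.L →ₗ[(formal 1).alg] N.L
  Φ_e : ∀ u, Φ (e u) = e' (Φ u)
  sat : ∀ y : N.L, ∃ n : ℕ, (formal 1).var (some 0) ^ n • y ∈
    Submodule.span (formal 1).alg (Set.range Φ)

section h1

private lemma h1_zdiv {g : Ser 1}
    (hg : IsFormal ((MvPowerSeries.X (some 0) : Ser 1) * g)) : IsFormal g := by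
  classical
  obtain ⟨R, hR, h⟩ := hg
  refine ⟨R, hR, fun j => ?_⟩
  obtain ⟨C, hC⟩ := h j
  refine ⟨C * R, fun m hm => ?_⟩
  have h1 := hC (Finsupp.single (some 0) 1 + m) (by
    rw [Finsupp.add_apply, Finsupp.single_apply, if_neg (by simp), hm, zero_add])
  have h2 : MvPowerSeries.coeff (Finsupp.single (some 0) 1 + m)
      ((MvPowerSeries.X (some 0) : Ser 1) * g) = MvPowerSeries.coeff m g := by
    rw [MvPowerSeries.X, MvPowerSeries.coeff_add_monomial_mul, one_mul]
  rw [h2, map_add, Finsupp.degree_single] at h1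
  rw [mul_assoc, ← pow_succ', add_comm m.degree 1]
  exact h1

private lemma h1_zdiv_pow {g : Ser 1} (n : ℕ)
    (hg : IsFormal ((MvPowerSeries.X (some 0) : Ser 1) ^ n * g)) : IsFormal g := by
  induction n with
  | zero => rwa [pow_zero, one_mul] at hg
  | succ n ih =>
    rw [pow_succ', mul_assoc] at hg
    exact ih (h1_zdiv hg)

private lemma h1_sdiv_pow {g : Ser 1} (n : ℕ) (hg : IsFormal ((sS : Ser 1) ^ n * g)) :
    IsFormal g := by
  induction n with
  | zero => rwa [pow_zero, one_mul] at hg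
  | succ n ih =>
    rw [pow_succ', mul_assoc] at hg
    exact ih (SDiv.div (S := formal 1) _ hg)

private lemma h1_eta (m : Option (Fin 1) →₀ ℕ) (h : m (some 0) = 0) :
    m = Finsupp.single none (m none) := by
  ext o
  match o with
  | none => rw [Finsupp.single_eq_same]
  | some 0 => rw [h, Finsupp.single_apply, if_neg (by simp)]

private lemma h1_dvd {f : Ser 1} : (MvPowerSeries.X (some 0) : Ser 1) ∣ f ↔ z0 1 f = 0 := by
  rw [MvPowerSeries.X_dvd_iff]
  constructor
  · intro h
    ext n
    rw [z0_coeff, map_zero]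
    exact h _ (by rw [Finsupp.single_apply, if_neg (by simp)])
  · intro h m hm
    rw [h1_eta m hm, ← z0_coeff, h, map_zero]

private lemma h1_sne : (sS : Ser 1) ≠ 0 := by
  intro h7
  classical
  have := congrArg (MvPowerSeries.coeff (Finsupp.single none 1)) h7
  rw [sS, MvPowerSeries.coeff_X, if_pos rfl, map_zero] at this
  exact one_ne_zero this

private lemma h1_zne : (MvPowerSeries.X (some 0) : Ser 1) ≠ 0 := by
  intro h7
  classical
  have := congrArg (MvPowerSeries.coeff (Finsupp.single (some 0) 1)) h7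
  rw [MvPowerSeries.coeff_X, if_pos rfl, map_zero] at this
  exact one_ne_zero this

private lemma h1_sco_dvd (f : Ser 1) : (sS : Ser 1) ∣ f ↔ sco 0 f = 0 := by
  rw [sS, MvPowerSeries.X_dvd_iff]
  have hc : ∀ m, MvPowerSeries.coeff m (sco 0 f) =
      if m none = 0 then MvPowerSeries.coeff (m + Finsupp.single none 0) f else 0 := fun m => rfl
  constructor
  · intro h
    ext m
    rw [hc, map_zero]
    split_ifs with h1
    · rw [Finsupp.single_zero, add_zero]
      exact h m h1
    · rfl
  · intro h m hm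
    have h1 := hc m
    rw [h, map_zero, if_pos hm, Finsupp.single_zero, add_zero] at h1
    exact h1.symm

private lemma h1_sprime : Prime (sS : Ser 1) := by
  refine ⟨h1_sne, fun h => ?_, fun a b h => ?_⟩
  · have h1 := h.map (MvPowerSeries.constantCoeff (σ := Option (Fin 1)) (R := ℂ))
    rw [sS, MvPowerSeries.constantCoeff_X] at h1
    exact not_isUnit_zero h1
  · rw [h1_sco_dvd] at h ⊢
    rw [h1_sco_dvd]
    have h1 := sc_zero_mul (d := 1) (r := 1) (Matrix.of fun _ _ => a) (Matrix.of fun _ _ => b)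
    have h2 := congrFun (congrFun h1 0) 0
    have h3 : sc 0 ((Matrix.of fun _ _ => a : Mx 1 1) * (Matrix.of fun _ _ => b : Mx 1 1)) 0 0
        = sco 0 (a * b) := by
      change sco 0 (((Matrix.of fun _ _ => a : Mx 1 1) * (Matrix.of fun _ _ => b : Mx 1 1)) 0 0) = _
      rw [Matrix.mul_apply, Fin.sum_univ_one]
      rfl
    rw [h3, h, Matrix.mul_apply, Fin.sum_univ_one] at h2
    exact mul_eq_zero.1 h2.symm

/-- reduction modulo `z` -/
private noncomputable def h1_pi : (formal 1).alg →+* PowerSeries ℂ :=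
  (z0 1).comp (formal 1).alg.val.toRingHom

private lemma h1_pi_apply (f : (formal 1).alg) : h1_pi f = z0 1 (f : Ser 1) := rfl

private noncomputable def h1_zi (c : PowerSeries ℂ) : (formal 1).alg := ⟨zi 1 c, zi_formal c⟩

private lemma h1_pi_zi (c : PowerSeries ℂ) : h1_pi (h1_zi c) = c := z0_zi c

private lemma h1_pi_zero {f : (formal 1).alg} (h : h1_pi f = 0) :
    ∃ g : (formal 1).alg, f = (formal 1).var (some 0) * g := by
  obtain ⟨g, hg⟩ := h1_dvd.2 h
  refine ⟨⟨g, h1_zdiv ?_⟩, Subtype.ext hg⟩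
  rw [← hg]
  exact f.2

/-- the fibre of `L` -/
private noncomputable def h1_L0 (L : Submodule (formal 1).alg (Fin r → (formal 1).alg)) :
    Submodule (PowerSeries ℂ) (Fin r → PowerSeries ℂ) where
  carrier := {w | ∃ y ∈ L, ∀ l, h1_pi (y l) = w l}
  zero_mem' := ⟨0, L.zero_mem, fun l => by rw [Pi.zero_apply, map_zero, Pi.zero_apply]⟩
  add_mem' := by
    rintro a b ⟨y, hy, h⟩ ⟨y', hy', h'⟩
    refine ⟨y + y', L.add_mem hy hy', fun l => ?_⟩
    rw [Pi.add_apply, map_add, h, h', Pi.add_apply]
  smul_mem' := by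
    rintro c a ⟨y, hy, h⟩
    refine ⟨h1_zi c • y, L.smul_mem _ hy, fun l => ?_⟩
    rw [Pi.smul_apply, smul_eq_mul, map_mul, h1_pi_zi, h, Pi.smul_apply, smul_eq_mul]

private lemma h1_basis0 {b : ℕ} (L : Submodule (formal 1).alg (Fin r → (formal 1).alg))
    (hb : ∀ l, Pi.single l ((formal 1).var none ^ b) ∈ L) :
    Nonempty (Module.Basis (Fin r) (PowerSeries ℂ) (h1_L0 L)) := by
  obtain ⟨n, ⟨B⟩⟩ := (h1_L0 L).nonempty_basis_of_pid (Pi.basisFun (PowerSeries ℂ) (Fin r))
  have h1 : Module.finrank (PowerSeries ℂ) (h1_L0 L) = n := by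
    rw [Module.finrank_eq_card_basis B, Fintype.card_fin]
  have h2 : Module.finrank (PowerSeries ℂ) (h1_L0 L) ≤ r := by
    refine (Submodule.finrank_le _).trans ?_
    rw [Module.finrank_fin_fun]
  have hX : ∀ w : Fin r → PowerSeries ℂ, (PowerSeries.X : PowerSeries ℂ) ^ b • w ∈ h1_L0 L := by
    intro w
    have h3 : (PowerSeries.X : PowerSeries ℂ) ^ b • w =
        ∑ l, w l • (Pi.single l ((PowerSeries.X : PowerSeries ℂ) ^ b) : Fin r → PowerSeries ℂ) := by
      funext l
      rw [Finset.sum_apply, Finset.sum_eq_single l]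
      · rw [Pi.smul_apply, Pi.smul_apply, Pi.single_eq_same, smul_eq_mul, smul_eq_mul, mul_comm]
      · intro l' _ hl'
        rw [Pi.smul_apply, Pi.single_eq_of_ne hl'.symm, smul_zero]
      · intro h; exact absurd (Finset.mem_univ l) h
    rw [h3]
    refine Submodule.sum_mem _ fun l _ => Submodule.smul_mem _ _ ⟨_, hb l, fun l' => ?_⟩
    by_cases hl : l' = l
    · subst hl
      rw [Pi.single_eq_same, Pi.single_eq_same, map_pow]
      congr 1
      exact z0_sS
    · rw [Pi.single_eq_of_ne hl, Pi.single_eq_of_ne hl, map_zero]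
  have h3 : r ≤ Module.finrank (PowerSeries ℂ) (h1_L0 L) := by
    let f : (Fin r → PowerSeries ℂ) →ₗ[PowerSeries ℂ] h1_L0 L :=
      LinearMap.codRestrict (h1_L0 L)
        ((PowerSeries.X : PowerSeries ℂ) ^ b • LinearMap.id) hX
    have hf : Function.Injective f := by
      intro w w' h
      have h4 : (PowerSeries.X : PowerSeries ℂ) ^ b • w =
        (PowerSeries.X : PowerSeries ℂ) ^ b • w' := congrArg Subtype.val h
      funext l
      have h5 := congrFun h4 l
      rw [Pi.smul_apply, Pi.smul_apply, smul_eq_mul, smul_eq_mul] at h5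
      exact mul_left_cancel₀ (pow_ne_zero _ PowerSeries.X_ne_zero) h5
    have : Module.Finite (PowerSeries ℂ) (h1_L0 L) := Module.Finite.of_basis B
    have h6 := LinearMap.finrank_le_finrank_of_injective hf
    rwa [Module.finrank_fin_fun] at h6
  have hn : n = r := by omega
  subst hn
  exact ⟨B⟩

private lemma h1_step (L : Submodule (formal 1).alg (Fin r → (formal 1).alg))
    (hsat : ∀ y, (formal 1).var (some 0) • y ∈ L → y ∈ L)
    (B : Module.Basis (Fin r) (PowerSeries ℂ) (h1_L0 L)) (e : Fin r → Fin r → (formal 1).alg)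
    (he : ∀ j, e j ∈ L) (he' : ∀ j l, h1_pi (e j l) = (B j : Fin r → PowerSeries ℂ) l)
    (y : L) : ∃ (c : Fin r → PowerSeries ℂ) (y' : L), ∀ l,
      ((y : Fin r → (formal 1).alg) l : Ser 1) = ∑ j, zi 1 (c j) * (e j l : Ser 1)
        + MvPowerSeries.X (some 0) * ((y' : Fin r → (formal 1).alg) l : Ser 1) := by
  set w : h1_L0 L := ⟨fun l => h1_pi ((y : Fin r → (formal 1).alg) l), y, y.2, fun l => rfl⟩ with hw
  set c : Fin r → PowerSeries ℂ := fun j => B.repr w j with hc
  have hsum : ∀ l, ∑ j, c j * (B j : Fin r → PowerSeries ℂ) l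
      = h1_pi ((y : Fin r → (formal 1).alg) l) := by
    intro l
    have h1 := congrArg (fun u : h1_L0 L => (u : Fin r → PowerSeries ℂ) l) (B.sum_repr w)
    simp only [Submodule.coe_sum, Submodule.coe_smul, Finset.sum_apply, Pi.smul_apply,
      smul_eq_mul] at h1
    exact h1
  set g : Fin r → (formal 1).alg := (y : Fin r → (formal 1).alg) - ∑ j, h1_zi (c j) • e j with hg
  have hgL : g ∈ L := L.sub_mem y.2 (Submodule.sum_mem _ fun j _ => L.smul_mem _ (he j))
  have hgl : ∀ l, g l = (y : Fin r → (formal 1).alg) l - ∑ j, h1_zi (c j) * e j l := by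
    intro l
    rw [hg, Pi.sub_apply, Finset.sum_apply]
    rfl
  have hg0 : ∀ l, h1_pi (g l) = 0 := by
    intro l
    rw [hgl, map_sub, map_sum, ← hsum l, sub_eq_zero]
    refine Finset.sum_congr rfl fun j _ => ?_
    rw [map_mul, h1_pi_zi, he']
  choose g' hg' using fun l => h1_pi_zero (hg0 l)
  have h2 : (formal 1).var (some 0) • g' ∈ L := by
    have h3 : (formal 1).var (some 0) • g' = g := by
      funext l
      rw [Pi.smul_apply, smul_eq_mul, hg' l]
    rw [h3]
    exact hgL
  refine ⟨c, ⟨g', hsat _ h2⟩, fun l => ?_⟩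
  have h3 : (y : Fin r → (formal 1).alg) l = ∑ j, h1_zi (c j) * e j l
      + (formal 1).var (some 0) * g' l := by
    rw [← hg' l, hgl l]
    ring
  have h4 := congrArg (formal 1).alg.val h3
  rw [map_add, map_sum, map_mul] at h4
  exact h4

private lemma h1_series (C : ℕ → PowerSeries ℂ) : ∃ k : Ser 1, ∀ n,
    (MvPowerSeries.X (some 0) : Ser 1) ^ n ∣
      k - ∑ i ∈ Finset.range n, (MvPowerSeries.X (some 0) : Ser 1) ^ i * zi 1 (C i) := by
  set k : Ser 1 := fun m => PowerSeries.coeff (m none) (C (m (some 0))) with hk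
  have hkc : ∀ m, MvPowerSeries.coeff m k = PowerSeries.coeff (m none) (C (m (some 0))) :=
    fun m => rfl
  refine ⟨k, fun n => ?_⟩
  rw [MvPowerSeries.X_pow_dvd_iff]
  intro m hm
  rw [map_sub, map_sum, hkc]
  have h1 : ∀ i ∈ Finset.range n,
      MvPowerSeries.coeff m ((MvPowerSeries.X (some 0) : Ser 1) ^ i * zi 1 (C i)) =
        if i = m (some 0) then PowerSeries.coeff (m none) (C i) else 0 := by
    intro i hi
    rw [MvPowerSeries.X_pow_eq, MvPowerSeries.coeff_monomial_mul, zi_coeff, one_mul]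
    have hn : (m - Finsupp.single (some 0) i : Option (Fin 1) →₀ ℕ) none = m none := by
      rw [Finsupp.tsub_apply, Finsupp.single_apply, if_neg (by simp), Nat.sub_zero]
    have hs : (m - Finsupp.single (some 0) i : Option (Fin 1) →₀ ℕ) (some 0) = m (some 0) - i := by
      rw [Finsupp.tsub_apply, Finsupp.single_eq_same]
    by_cases h : i = m (some 0)
    · rw [if_pos h, if_pos, if_pos, hn]
      · exact h1_eta _ (by rw [hs, h, Nat.sub_self])
      · intro o
        match o with
        | none => rw [Finsupp.single_apply, if_neg (by simp)]; exact Nat.zero_le _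
        | some 0 => rw [Finsupp.single_eq_same, h]
    · rw [if_neg h]
      split_ifs with h2 h3
      · exfalso
        have h4 := h2 (some 0)
        rw [Finsupp.single_eq_same] at h4
        have h5 := DFunLike.congr_fun h3 (some 0)
        rw [hs, Finsupp.single_apply, if_neg (by simp)] at h5
        omega
      · rfl
      · rfl
  rw [Finset.sum_congr rfl h1, Finset.sum_ite_eq', if_pos (Finset.mem_range.2 hm)]
  exact sub_self _

private lemma h1_zero_of_dvd {f : Ser 1}
    (h : ∀ n, (MvPowerSeries.X (some 0) : Ser 1) ^ n ∣ f) : f = 0 := by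
  ext m
  rw [map_zero]
  exact MvPowerSeries.X_pow_dvd_iff.1 (h (m (some 0) + 1)) m (Nat.lt_succ_self _)

private lemma h1_expand (L : Submodule (formal 1).alg (Fin r → (formal 1).alg))
    (hsat : ∀ y, (formal 1).var (some 0) • y ∈ L → y ∈ L)
    (B : Module.Basis (Fin r) (PowerSeries ℂ) (h1_L0 L)) (e : Fin r → Fin r → (formal 1).alg)
    (he : ∀ j, e j ∈ L) (he' : ∀ j l, h1_pi (e j l) = (B j : Fin r → PowerSeries ℂ) l)
    (y : L) : ∃ k : Fin r → Ser 1, ∀ l,
      ((y : Fin r → (formal 1).alg) l : Ser 1) = ∑ j, k j * (e j l : Ser 1) := by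
  choose c y' h using h1_step L hsat B e he he'
  choose k hk using fun j => h1_series fun n => c (y'^[n] y) j
  refine ⟨k, fun l => ?_⟩
  rw [← sub_eq_zero]
  refine h1_zero_of_dvd fun n => ?_
  have h1 : ∀ n, ((y : Fin r → (formal 1).alg) l : Ser 1) =
      ∑ j, (∑ i ∈ Finset.range n, (MvPowerSeries.X (some 0) : Ser 1) ^ i *
        zi 1 (c (y'^[i] y) j)) * (e j l : Ser 1)
      + (MvPowerSeries.X (some 0) : Ser 1) ^ n *
        (((y'^[n] y : L) : Fin r → (formal 1).alg) l : Ser 1) := by
    intro n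
    induction n with
    | zero => simp
    | succ n ih =>
      rw [Function.iterate_succ', Function.comp_apply, ih, h (y'^[n] y) l]
      simp only [Finset.sum_range_succ, add_mul, Finset.sum_add_distrib, mul_add, Finset.mul_sum]
      rw [pow_succ, add_assoc]
      congr 1
      rw [mul_assoc]
      congr 1
      exact Finset.sum_congr rfl fun j _ => by rw [mul_assoc]
  rw [h1 n, add_sub_right_comm, ← Finset.sum_sub_distrib]
  refine dvd_add (Finset.dvd_sum fun j _ => ?_) (dvd_mul_right _ _)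
  rw [← sub_mul, ← neg_sub, neg_mul, dvd_neg]
  exact (hk j n).mul_right _

/-- a basis of a submodule of `A^r` -/
private lemma h1_mk {A : Type} [CommRing A] (L : Submodule A (Fin r → A)) (e : Fin r → Fin r → A)
    (he : ∀ j, e j ∈ L) (hs : ∀ y ∈ L, ∃ k : Fin r → A, ∀ l, y l = ∑ j, k j * e j l)
    (hi : ∀ k : Fin r → A, (∀ l, ∑ j, k j * e j l = 0) → ∀ j, k j = 0) :
    Nonempty (Module.Basis (Fin r) A L) := by
  refine ⟨Module.Basis.mk (v := fun j => (⟨e j, he j⟩ : L)) ?_ ?_⟩
  · rw [Fintype.linearIndependent_iff]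
    intro k hk
    refine hi k fun l => ?_
    have h2 := congrArg (fun u : L => (u : Fin r → A) l) hk
    simp only [Submodule.coe_sum, Finset.sum_apply] at h2
    exact h2
  · rintro y -
    obtain ⟨k, hk⟩ := hs y y.2
    have h1 : y = ∑ j, k j • (⟨e j, he j⟩ : L) := by
      refine Subtype.ext ?_
      funext l
      rw [hk l, Submodule.coe_sum, Finset.sum_apply]
      rfl
    rw [h1]
    exact Submodule.sum_mem _ fun j _ => Submodule.smul_mem _ _ (Submodule.subset_span ⟨j, rfl⟩)

/-- MODULE h1. A `z`-saturated submodule `L ⊇ s^b F` of `F = R₁^r` is free of rank `r`.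
Proof. `L / z L ⊆ F / z F = ℂ[[s]]^r` is free over the PID `ℂ[[s]]`, of rank `r`; let
`e_1, …, e_r ∈ L` be lifts of a basis, `h` the matrix. Every `y ∈ L` is
`∑ a_j e_j + z y'` with `a_j ∈ ℂ[[s]]`, `y' ∈ L`; iterating, `y = h k` with `k` a vector of
power series. In particular `h K = s^b = K h` with `K` over `ℂ[[z, s]]`; `det h` divides a power of
`s`, so `det h = s^a u` with `u` a unit, `u` is formal (divide by `s^a`), `u⁻¹` is formal
(`isFormal_inv`), so `K = s^b adj(h) / det h` is formal and `s^b k = K y` shows that `k` is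
formal. (Other proof: `L` is finitely generated, because `L / s^b F` is a submodule of
`ℂ{z}^(b r)`, and Nakayama.) -/
theorem sat_free {b : ℕ} (L : Submodule (formal 1).alg (Fin r → (formal 1).alg))
    (hb : ∀ l, Pi.single l ((formal 1).var none ^ b) ∈ L)
    (hsat : ∀ y, (formal 1).var (some 0) • y ∈ L → y ∈ L) :
    Nonempty (Module.Basis (Fin r) (formal 1).alg L) := by
  obtain ⟨B⟩ := h1_basis0 L hb
  choose e he he' using fun j => (B j).2
  -- the matrix of the lifts
  set H : Mx 1 r := Matrix.of fun l j => (e j l : Ser 1) with hH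
  have hex : ∀ y : L, ∃ k : Fin r → Ser 1, ∀ l,
      ((y : Fin r → (formal 1).alg) l : Ser 1) = ∑ j, H l j * k j := by
    intro y
    obtain ⟨k, hk⟩ := h1_expand L hsat B e he he' y
    exact ⟨k, fun l => (hk l).trans (Finset.sum_congr rfl fun j _ => mul_comm _ _)⟩
  choose K hK using fun i => hex ⟨_, hb i⟩
  have hHK : H * (Matrix.of fun j i => K i j : Mx 1 r) = (sS : Ser 1) ^ b • (1 : Mx 1 r) := by
    ext1 l i
    rw [Matrix.mul_apply, Matrix.smul_apply, Matrix.one_apply]
    have h1 := hK i l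
    rw [show ∑ j, H l j * (Matrix.of fun j i => K i j : Mx 1 r) j i = ∑ j, H l j * K i j from rfl,
      ← h1]
    by_cases hl : l = i
    · subst hl
      rw [if_pos rfl, smul_eq_mul, mul_one]
      change ((Pi.single l ((formal 1).var none ^ b) : Fin r → (formal 1).alg) l : Ser 1) = _
      rw [Pi.single_eq_same]
      rfl
    · rw [if_neg hl, smul_zero]
      change ((Pi.single i ((formal 1).var none ^ b) : Fin r → (formal 1).alg) l : Ser 1) = _
      rw [Pi.single_eq_of_ne hl]
      rfl
  have hdvd : H.det ∣ (sS : Ser 1) ^ (b * r) := by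
    have h1 := congrArg Matrix.det hHK
    rw [Matrix.det_mul, Matrix.det_smul, Matrix.det_one, mul_one, Fintype.card_fin,
      ← pow_mul] at h1
    exact Dvd.intro _ h1
  obtain ⟨a, -, u, hu⟩ := (dvd_prime_pow h1_sprime _).1 hdvd
  -- `det H` is formal
  have hdet : IsFormal H.det := by
    have h1 : H.det ∈ (formal 1).alg := by
      rw [Matrix.det_apply]
      refine Subalgebra.sum_mem _ fun σ _ => ?_
      refine Subalgebra.zsmul_mem _ (Subalgebra.prod_mem _ fun i _ => ?_) _
      exact (e i (σ i)).2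
    exact h1
  have hui : IsFormal ((u⁻¹ : (Ser 1)ˣ) : Ser 1) := by
    refine h1_sdiv_pow a ?_
    rw [← hu, mul_assoc, Units.mul_inv, mul_one]
    exact hdet
  have huf : IsFormal (u : Ser 1) := isFormal_inv hui (Units.inv_mul u)
  have hadj : ∀ i j, IsFormal (H.adjugate i j) := by
    intro i j
    have h1 : H.adjugate i j ∈ (formal 1).alg := by
      rw [Matrix.adjugate_apply, Matrix.det_apply]
      refine Subalgebra.sum_mem _ fun σ _ => ?_
      refine Subalgebra.zsmul_mem _ (Subalgebra.prod_mem _ fun k _ => ?_) _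
      rw [Matrix.updateRow_apply]
      split_ifs with hk
      · rw [Pi.single_apply]
        split_ifs
        · exact Subalgebra.one_mem _
        · exact Subalgebra.zero_mem _
      · exact (e k (σ k)).2
    exact h1
  have hdet0 : H.det ≠ 0 := by
    intro h
    rw [h, zero_mul] at hu
    exact pow_ne_zero _ h1_sne hu.symm
  refine h1_mk L e he (fun y hy => ?_) (fun k hk => ?_)
  · obtain ⟨k, hk⟩ := hex ⟨y, hy⟩
    have hkf : ∀ j, IsFormal (k j) := by
      intro j
      refine h1_sdiv_pow a ?_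
      have h1 : H.mulVec k = fun l => (y l : Ser 1) := by
        funext l
        exact (hk l).symm
      have h2 : H.adjugate.mulVec (H.mulVec k) = H.det • k := by
        rw [Matrix.mulVec_mulVec, Matrix.adjugate_mul, Matrix.smul_mulVec, Matrix.one_mulVec]
      have h3 : (sS : Ser 1) ^ a * k j = (u : Ser 1) * (H.adjugate.mulVec
          fun l => (y l : Ser 1)) j := by
        rw [← h1, h2, Pi.smul_apply, smul_eq_mul, ← hu]
        ring
      rw [h3]
      refine Pool.Fml.isFormal_mul huf ?_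
      have h4 : (H.adjugate.mulVec fun l => (y l : Ser 1)) j ∈ (formal 1).alg := by
        refine Subalgebra.sum_mem _ fun l _ => Subalgebra.mul_mem _
          (show _ ∈ (formal 1).alg from hadj j l) ?_
        exact (y l).2
      exact h4
    refine ⟨fun j => ⟨k j, hkf j⟩, fun l => Subtype.ext ?_⟩
    have h5 : ((∑ j, (⟨k j, hkf j⟩ : (formal 1).alg) * e j l : (formal 1).alg) : Ser 1)
        = ∑ j, k j * (e j l : Ser 1) := map_sum (formal 1).alg.val _ _
    refine Eq.trans ?_ h5.symm
    rw [hk l]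
    exact Finset.sum_congr rfl fun j _ => mul_comm _ _
  · have h1 : H.mulVec (fun j => (k j : Ser 1)) = 0 := by
      funext l
      have h2 := congrArg (formal 1).alg.val (hk l)
      rw [map_sum, map_zero] at h2
      refine Eq.trans ?_ h2
      change ∑ j, (e j l : Ser 1) * (k j : Ser 1) = ∑ j, (k j : Ser 1) * (e j l : Ser 1)
      exact Finset.sum_congr rfl fun j _ => mul_comm _ _
    have h2 := Matrix.eq_zero_of_mulVec_eq_zero hdet0 h1
    exact fun j => Subtype.ext (congrFun h2 j)

end h1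

section h2

variable {M : FLat (formal d)} {b : ℕ} (φ : Fr M r b) (v : Fin d → ℂ)

/-- the span of the restrictions to the line -/
noncomputable def lineS : Submodule (formal 1).alg (Fin r → (formal 1).alg) :=
  Submodule.span (formal 1).alg (Set.range fun (u : M.L) (l : Fin r) => lineF v (φ.ι u l))

/-- the saturated lattice on the line -/
noncomputable def lineL : Submodule (formal 1).alg (Fin r → (formal 1).alg) where
  carrier := {y | ∃ n : ℕ, (formal 1).var (some 0) ^ n • y ∈ lineS φ v}
  zero_mem' := ⟨0, by rw [smul_zero]; exact zero_mem _⟩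
  add_mem' := by
    rintro x y ⟨n, hn⟩ ⟨m, hm⟩
    refine ⟨n + m, ?_⟩
    rw [smul_add]
    refine add_mem ?_ ?_
    · rw [add_comm, pow_add, mul_smul]
      exact Submodule.smul_mem _ _ hn
    · rw [pow_add, mul_smul]
      exact Submodule.smul_mem _ _ hm
  smul_mem' := by
    rintro f x ⟨n, hn⟩
    refine ⟨n, ?_⟩
    rw [smul_comm]
    exact Submodule.smul_mem _ _ hn

private lemma h2_apply (f : (formal d).alg) : ((lineF v f : (formal 1).alg) : Ser 1)
    = line v (f : Ser d) := rfl

/-- MODULE h2 -/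
lemma lineL_single (l : Fin r) : Pi.single l ((formal 1).var none ^ b) ∈ lineL φ v := by
  refine ⟨0, ?_⟩
  rw [pow_zero, one_smul]
  refine Submodule.subset_span ⟨φ.u l, ?_⟩
  funext l'
  change lineF v (φ.ι (φ.u l) l') = _
  rw [φ.hu]
  by_cases h : l' = l
  · subst h
    rw [Pi.single_eq_same, Pi.single_eq_same, map_pow]
    congr 1
    exact Subtype.ext (line_sS v)
  · rw [Pi.single_eq_of_ne h, Pi.single_eq_of_ne h, map_zero]

/-- MODULE h2 -/
lemma lineL_sat (y : Fin r → (formal 1).alg) (h : (formal 1).var (some 0) • y ∈ lineL φ v) :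
    y ∈ lineL φ v := by
  obtain ⟨n, hn⟩ := h
  refine ⟨n + 1, ?_⟩
  rw [pow_succ, mul_smul]
  exact hn

private lemma h2_ne (o : Option (Fin 1)) : (MvPowerSeries.X o : Ser 1) ≠ 0 := by
  intro h7
  classical
  have := congrArg (MvPowerSeries.coeff (Finsupp.single o 1)) h7
  rw [MvPowerSeries.coeff_X, if_pos rfl, map_zero] at this
  exact one_ne_zero this

private lemma h2_eta (m : Option (Fin 1) →₀ ℕ) (h : m (some 0) = 0) :
    m = Finsupp.single none (m none) := by
  ext o
  match o with
  | none => rw [Finsupp.single_eq_same]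
  | some 0 => rw [h, Finsupp.single_apply, if_neg (by simp)]

private lemma h2_dvd {f : Ser 1} : (MvPowerSeries.X (some 0) : Ser 1) ∣ f ↔ z0 1 f = 0 := by
  rw [MvPowerSeries.X_dvd_iff]
  constructor
  · intro h
    ext n
    rw [z0_coeff, map_zero]
    exact h _ (by rw [Finsupp.single_apply, if_neg (by simp)])
  · intro h m hm
    rw [h2_eta m hm, ← z0_coeff, h, map_zero]

private lemma h2_zprime : Prime (MvPowerSeries.X (some 0) : Ser 1) := by
  refine ⟨h2_ne _, fun h => ?_, fun f g h => ?_⟩
  · have h1 := h.map (MvPowerSeries.constantCoeff (σ := Option (Fin 1)) (R := ℂ))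
    rw [MvPowerSeries.constantCoeff_X] at h1
    exact not_isUnit_zero h1
  · rw [h2_dvd, map_mul] at h
    rw [h2_dvd, h2_dvd]
    exact mul_eq_zero.1 h

private lemma h2_znots : ¬ (MvPowerSeries.X (some 0) : Ser 1) ∣ (sS : Ser 1) ^ b := by
  intro h
  have h1 := h2_zprime.dvd_of_dvd_pow h
  rw [h2_dvd, z0_sS] at h1
  exact PowerSeries.X_ne_zero h1

private lemma h2_zdiv {g : Ser 1}
    (hg : IsFormal ((MvPowerSeries.X (some 0) : Ser 1) * g)) : IsFormal g := by
  classical
  obtain ⟨R, hR, h⟩ := hg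
  refine ⟨R, hR, fun j => ?_⟩
  obtain ⟨C, hC⟩ := h j
  refine ⟨C * R, fun m hm => ?_⟩
  have h1 := hC (Finsupp.single (some 0) 1 + m) (by
    rw [Finsupp.add_apply, Finsupp.single_apply, if_neg (by simp), hm, zero_add])
  have h2 : MvPowerSeries.coeff (Finsupp.single (some 0) 1 + m)
      ((MvPowerSeries.X (some 0) : Ser 1) * g) = MvPowerSeries.coeff m g := by
    rw [MvPowerSeries.X, MvPowerSeries.coeff_add_monomial_mul, one_mul]
  rw [h2, map_add, Finsupp.degree_single] at h1
  rw [mul_assoc, ← pow_succ', add_comm m.degree 1]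
  exact h1

private lemma h2_zdiv_pow {g : Ser 1} (n : ℕ)
    (hg : IsFormal ((MvPowerSeries.X (some 0) : Ser 1) ^ n * g)) : IsFormal g := by
  induction n with
  | zero => rwa [pow_zero, one_mul] at hg
  | succ n ih =>
    rw [pow_succ', mul_assoc] at hg
    exact ih (h2_zdiv hg)

/-- if `s^b w₁ = z^n f` then `w₁ = z^n w` with `s^b w = f` -/
private lemma h2_quot {n : ℕ} {f : Ser 1} (w₁ : (formal 1).alg)
    (h : (sS : Ser 1) ^ b * (w₁ : Ser 1) = (MvPowerSeries.X (some 0) : Ser 1) ^ n * f) :
    ∃ w : (formal 1).alg, w₁ = (formal 1).var (some 0) ^ n * w ∧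
      (sS : Ser 1) ^ b * (w : Ser 1) = f := by
  have h1 : (MvPowerSeries.X (some 0) : Ser 1) ^ n ∣ (sS : Ser 1) ^ b * (w₁ : Ser 1) :=
    ⟨f, h⟩
  have h2 := h2_zprime.pow_dvd_of_dvd_mul_left n h2_znots h1
  obtain ⟨w, hw⟩ := h2
  refine ⟨⟨w, h2_zdiv_pow n (by rw [← hw]; exact w₁.2)⟩, Subtype.ext hw, ?_⟩
  refine mul_left_cancel₀ (pow_ne_zero n (h2_ne (some 0))) ?_
  change (MvPowerSeries.X (some 0) : Ser 1) ^ n * ((sS : Ser 1) ^ b * w) = _
  rw [← h, mul_left_comm, ← hw]

private lemma h2_lineB (u : M.L) (l : Fin r) :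
    (sS : Ser 1) ^ b * line v (φ.vec (M.T u) l) =
      (sS : Ser 1) ^ (b + 2) * serD none (line v (φ.vec u l))
        + ((φ.B.map (line v)).mulVec fun l => line v (φ.vec u l)) l := by
  have h1 := congrArg (line v) (congrFun (φ.vec_T u) l)
  rw [Pi.smul_apply, smul_eq_mul, Pi.add_apply, Pi.smul_apply, smul_eq_mul, map_add, map_mul,
    map_mul, map_pow, map_pow, line_sS, line_serD_none] at h1
  rw [h1, Matrix.mulVec, Matrix.mulVec, dotProduct, dotProduct, map_sum]
  congr 1
  exact Finset.sum_congr rfl fun j _ => map_mul _ _ _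

private lemma h2_lineE (e : M.L →ₗ[(formal d).alg] M.L) (u : M.L) (l : Fin r) :
    (sS : Ser 1) ^ b * line v (φ.vec (e u) l) =
      (((φ.E e).map (line v)).mulVec fun l => line v (φ.vec u l)) l := by
  have h1 := congrArg (line v) (congrFun (φ.vec_E e u) l)
  rw [Pi.smul_apply, smul_eq_mul, map_mul, map_pow, line_sS] at h1
  rw [h1, Matrix.mulVec, Matrix.mulVec, dotProduct, dotProduct, map_sum]
  exact Finset.sum_congr rfl fun j _ => map_mul _ _ _

private lemma h2_lineP (u : M.L) (l : Fin r) :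
    (sS : Ser 1) ^ b * ∑ i, v i • line v (φ.vec (M.P i u) l) =
      (sS : Ser 1) ^ (b + 1) * serD (some 0) (line v (φ.vec u l))
        + ((lineA v φ.A 0).mulVec fun l => line v (φ.vec u l)) l := by
  have h1 : ∀ i, (sS : Ser 1) ^ b * line v (φ.vec (M.P i u) l) =
      (sS : Ser 1) ^ (b + 1) * line v (serD (some i) (φ.vec u l))
        + ∑ j, line v (φ.A i l j) * line v (φ.vec u j) := by
    intro i
    have h2 := congrArg (line v) (congrFun (φ.vec_P i u) l)
    rw [Pi.smul_apply, smul_eq_mul, Pi.add_apply, Pi.smul_apply, smul_eq_mul, map_add, map_mul,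
      map_mul, map_pow, map_pow, line_sS] at h2
    rw [h2, Matrix.mulVec, dotProduct, map_sum]
    congr 1
    exact Finset.sum_congr rfl fun j _ => map_mul _ _ _
  rw [line_serD, Finset.mul_sum, Finset.mul_sum, Matrix.mulVec, dotProduct]
  have h3 : ∀ i, (sS : Ser 1) ^ b * (v i • line v (φ.vec (M.P i u) l)) =
      (sS : Ser 1) ^ (b + 1) * (v i • line v (serD (some i) (φ.vec u l))) +
        ∑ j, (v i • line v (φ.A i l j)) * line v (φ.vec u j) := by
    intro i
    rw [mul_smul_comm, h1, smul_add, mul_smul_comm, Finset.smul_sum]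
    congr 1
    exact Finset.sum_congr rfl fun j _ => (smul_mul_assoc _ _ _).symm
  rw [Finset.sum_congr rfl fun i _ => h3 i, Finset.sum_add_distrib]
  congr 1
  rw [Finset.sum_comm]
  refine Finset.sum_congr rfl fun j _ => ?_
  rw [lineA, Matrix.sum_apply, Finset.sum_mul]
  rfl

private lemma h2_mulVec_add (C : Mx 1 r) (y y' : Fin r → (formal 1).alg) (l : Fin r) :
    (C.mulVec fun l => ((y + y') l : Ser 1)) l =
      (C.mulVec fun l => (y l : Ser 1)) l + (C.mulVec fun l => (y' l : Ser 1)) l := by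
  rw [← Pi.add_apply, ← Matrix.mulVec_add]
  rfl

private lemma h2_mulVec_smul (C : Mx 1 r) (f : (formal 1).alg) (y : Fin r → (formal 1).alg)
    (l : Fin r) : (C.mulVec fun l => ((f • y) l : Ser 1)) l =
      (f : Ser 1) * (C.mulVec fun l => (y l : Ser 1)) l := by
  rw [← smul_eq_mul, ← Pi.smul_apply, ← Matrix.mulVec_smul]
  rfl

private lemma h2_zero (y : Fin r → (formal 1).alg) (l : Fin r) :
    ((0 : Fin r → (formal 1).alg) l : Ser 1) = 0 := rfl

private lemma h2_add (y y' : Fin r → (formal 1).alg) (l : Fin r) :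
    ((y + y') l : Ser 1) = (y l : Ser 1) + (y' l : Ser 1) := rfl

private lemma h2_smul (f : (formal 1).alg) (y : Fin r → (formal 1).alg) (l : Fin r) :
    ((f • y) l : Ser 1) = (f : Ser 1) * (y l : Ser 1) := rfl

private lemma h2_vz (n : ℕ) : (((formal 1).var (some 0) ^ n : (formal 1).alg) : Ser 1)
    = (MvPowerSeries.X (some 0) : Ser 1) ^ n := rfl

private lemma h2_dz_none (n : ℕ) (f : Ser 1) :
    serD none ((MvPowerSeries.X (some 0) : Ser 1) ^ n * f)
      = (MvPowerSeries.X (some 0) : Ser 1) ^ n * serD none f := by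
  have h0 : serD none (MvPowerSeries.X (some 0) : Ser 1) = 0 := by
    rw [serD_apply, MvPowerSeries.pderiv_X]
    simp
  induction n with
  | zero => rw [pow_zero, one_mul, one_mul]
  | succ n ih => rw [pow_succ', mul_assoc, Der.leib, ih, h0]; ring

private lemma h2_dz_some (n : ℕ) (f : Ser 1) :
    (MvPowerSeries.X (some 0) : Ser 1) *
      serD (some 0) ((MvPowerSeries.X (some 0) : Ser 1) ^ n * f)
      = (MvPowerSeries.X (some 0) : Ser 1) ^ (n + 1) * serD (some 0) f
        + (n : Ser 1) * (MvPowerSeries.X (some 0) : Ser 1) ^ n * f := by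
  have h0 : serD (some 0) (MvPowerSeries.X (some 0) : Ser 1) = 1 := by
    rw [serD_apply, MvPowerSeries.pderiv_X]
    simp
  induction n with
  | zero => rw [pow_zero, one_mul, Nat.cast_zero, zero_add, pow_one]; ring
  | succ n ih =>
    rw [pow_succ' _ n, mul_assoc, Der.leib, h0, mul_add, mul_left_comm, ih]
    push_cast
    ring

/-- MODULE h2. For `y ∈ lineS` from `Fr.vec_T` (restricted to the line, `line_serD_none`); if
`z^n y ∈ lineS`, then `s^b w₁ = z^n (s^(b+2) ∂_s y + B y)`, so `w₁ = z^n w` (`s`, `z` are coprime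
in `ℂ[[z, s]]`, and a quotient of a formal symbol by a power of `z` or `s` is formal). -/
lemma lineL_T (y : Fin r → (formal 1).alg) (h : y ∈ lineL φ v) :
    ∃ w ∈ lineL φ v, ∀ l, (sS : Ser 1) ^ b * (w l : Ser 1) =
      (sS : Ser 1) ^ (b + 2) * serD none (y l : Ser 1)
        + ((φ.B.map (line v)).mulVec fun l => (y l : Ser 1)) l := by
  have hS : ∀ y ∈ lineS φ v, ∃ w ∈ lineS φ v, ∀ l, (sS : Ser 1) ^ b * (w l : Ser 1) =
      (sS : Ser 1) ^ (b + 2) * serD none (y l : Ser 1)
        + ((φ.B.map (line v)).mulVec fun l => (y l : Ser 1)) l := by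
    intro y hy
    induction hy using Submodule.span_induction with
    | mem y hy =>
      obtain ⟨u, rfl⟩ := hy
      exact ⟨_, Submodule.subset_span ⟨M.T u, rfl⟩, fun l => h2_lineB φ v u l⟩
    | zero =>
      refine ⟨0, zero_mem _, fun l => ?_⟩
      have h1 : (fun l => ((0 : Fin r → (formal 1).alg) l : Ser 1)) = 0 := rfl
      rw [h1, Matrix.mulVec_zero]
      change (sS : Ser 1) ^ b * 0 = (sS : Ser 1) ^ (b + 2) * serD none (0 : Ser 1) + 0
      rw [map_zero, mul_zero, mul_zero, add_zero]
    | add y y' _ _ ih ih' =>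
      obtain ⟨w, hw, h1⟩ := ih
      obtain ⟨w', hw', h2⟩ := ih'
      refine ⟨w + w', add_mem hw hw', fun l => ?_⟩
      rw [h2_mulVec_add, h2_add, h2_add, mul_add, h1, h2, map_add]
      ring
    | smul f y hy ih =>
      obtain ⟨w, hw, h1⟩ := ih
      refine ⟨f • w + ((formal 1).var none ^ 2 * (formal 1).pd none f) • y,
        add_mem (Submodule.smul_mem _ _ hw) (Submodule.smul_mem _ _ hy), fun l => ?_⟩
      rw [h2_mulVec_smul, h2_add, h2_smul, h2_smul, h2_smul, Der.leib, mul_add,
        mul_left_comm, h1]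
      change _ + (sS : Ser 1) ^ b * ((sS : Ser 1) ^ 2 * serD none (f : Ser 1) * (y l : Ser 1)) = _
      ring
  obtain ⟨n, hn⟩ := h
  obtain ⟨w₁, hw₁, h1⟩ := hS _ hn
  have h2 : ∀ l, (sS : Ser 1) ^ b * (w₁ l : Ser 1) = (MvPowerSeries.X (some 0) : Ser 1) ^ n *
      ((sS : Ser 1) ^ (b + 2) * serD none (y l : Ser 1)
        + ((φ.B.map (line v)).mulVec fun l => (y l : Ser 1)) l) := by
    intro l
    rw [h1, h2_mulVec_smul, h2_smul, h2_vz, h2_dz_none]
    ring
  choose w hw hw' using fun l => h2_quot (w₁ l) (h2 l)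
  refine ⟨w, ⟨n, ?_⟩, hw'⟩
  have h3 : (formal 1).var (some 0) ^ n • w = w₁ := by
    funext l
    exact (hw l).symm
  rw [h3]
  exact hw₁

/-- MODULE h2. `P (z^n y) = z^n P y + n s z^(n-1) y`: use `n + 1`. -/
lemma lineL_P (y : Fin r → (formal 1).alg) (h : y ∈ lineL φ v) :
    ∃ w ∈ lineL φ v, ∀ l, (sS : Ser 1) ^ b * (w l : Ser 1) =
      (sS : Ser 1) ^ (b + 1) * serD (some 0) (y l : Ser 1)
        + ((lineA v φ.A 0).mulVec fun l => (y l : Ser 1)) l := by
  have hS : ∀ y ∈ lineS φ v, ∃ w ∈ lineS φ v, ∀ l, (sS : Ser 1) ^ b * (w l : Ser 1) =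
      (sS : Ser 1) ^ (b + 1) * serD (some 0) (y l : Ser 1)
        + ((lineA v φ.A 0).mulVec fun l => (y l : Ser 1)) l := by
    intro y hy
    induction hy using Submodule.span_induction with
    | mem y hy =>
      obtain ⟨u, rfl⟩ := hy
      refine ⟨∑ i, (algebraMap ℂ (formal 1).alg (v i)) •
        fun l => lineF v (φ.ι (M.P i u) l), Submodule.sum_mem _ fun i _ =>
          Submodule.smul_mem _ _ (Submodule.subset_span ⟨M.P i u, rfl⟩), fun l => ?_⟩
      have h1 : (((∑ i, (algebraMap ℂ (formal 1).alg (v i)) •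
          fun l => lineF v (φ.ι (M.P i u) l) : Fin r → (formal 1).alg) l : (formal 1).alg) :
            Ser 1) = ∑ i, v i • line v (φ.vec (M.P i u) l) := by
        rw [Finset.sum_apply, ← Subalgebra.coe_val, map_sum]
        refine Finset.sum_congr rfl fun i _ => ?_
        have h4 : ∀ f : (formal 1).alg, (formal 1).alg.val (algebraMap ℂ (formal 1).alg (v i) * f)
            = v i • (f : Ser 1) := fun f => by
          rw [map_mul, AlgHom.commutes, ← Algebra.smul_def]
          rfl
        exact h4 _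
      rw [h1]
      exact h2_lineP φ v u l
    | zero =>
      refine ⟨0, zero_mem _, fun l => ?_⟩
      have h1 : (fun l => ((0 : Fin r → (formal 1).alg) l : Ser 1)) = 0 := rfl
      rw [h1, Matrix.mulVec_zero]
      change (sS : Ser 1) ^ b * 0 = (sS : Ser 1) ^ (b + 1) * serD (some 0) (0 : Ser 1) + 0
      rw [map_zero, mul_zero, mul_zero, add_zero]
    | add y y' _ _ ih ih' =>
      obtain ⟨w, hw, h1⟩ := ih
      obtain ⟨w', hw', h2⟩ := ih'
      refine ⟨w + w', add_mem hw hw', fun l => ?_⟩
      rw [h2_mulVec_add, h2_add, h2_add, mul_add, h1, h2, map_add]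
      ring
    | smul f y hy ih =>
      obtain ⟨w, hw, h1⟩ := ih
      refine ⟨f • w + ((formal 1).var none * (formal 1).pd (some 0) f) • y,
        add_mem (Submodule.smul_mem _ _ hw) (Submodule.smul_mem _ _ hy), fun l => ?_⟩
      rw [h2_mulVec_smul, h2_add, h2_smul, h2_smul, h2_smul, Der.leib, mul_add,
        mul_left_comm, h1]
      change _ + (sS : Ser 1) ^ b * ((sS : Ser 1) * serD (some 0) (f : Ser 1) * (y l : Ser 1)) = _
      ring
  obtain ⟨n, hn⟩ := h
  obtain ⟨w₀, hw₀, h1⟩ := hS _ hn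
  have hw₁ : (formal 1).var (some 0) • w₀ -
      ((n : (formal 1).alg) * (formal 1).var none) • ((formal 1).var (some 0) ^ n • y)
        ∈ lineS φ v := sub_mem (Submodule.smul_mem _ _ hw₀) (Submodule.smul_mem _ _ hn)
  set w₁ := (formal 1).var (some 0) • w₀ -
      ((n : (formal 1).alg) * (formal 1).var none) • ((formal 1).var (some 0) ^ n • y) with hw₁d
  have hw₁l : ∀ l, (w₁ l : Ser 1) = (MvPowerSeries.X (some 0) : Ser 1) * (w₀ l : Ser 1)
      - (n : Ser 1) * (sS : Ser 1) * ((MvPowerSeries.X (some 0) : Ser 1) ^ n * (y l : Ser 1)) :=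
    fun l => by
      have h3 : (((n : (formal 1).alg) : (formal 1).alg) : Ser 1) = (n : Ser 1) :=
        map_natCast (formal 1).alg.val n
      rw [← h3]
      rfl
  have h2 : ∀ l, (sS : Ser 1) ^ b * (w₁ l : Ser 1) =
      (MvPowerSeries.X (some 0) : Ser 1) ^ (n + 1) *
      ((sS : Ser 1) ^ (b + 1) * serD (some 0) (y l : Ser 1)
        + ((lineA v φ.A 0).mulVec fun l => (y l : Ser 1)) l) := by
    intro l
    rw [hw₁l, mul_sub, mul_left_comm, h1, h2_mulVec_smul, h2_smul, h2_vz, mul_add, mul_left_comm,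
      h2_dz_some]
    ring
  choose w hw hw' using fun l => h2_quot (w₁ l) (h2 l)
  refine ⟨w, ⟨n + 1, ?_⟩, hw'⟩
  have h3 : (formal 1).var (some 0) ^ (n + 1) • w = w₁ := by
    funext l
    exact (hw l).symm
  rw [h3]
  exact hw₁

/-- MODULE h2 -/
lemma lineL_E (e : M.L →ₗ[(formal d).alg] M.L) (y : Fin r → (formal 1).alg)
    (h : y ∈ lineL φ v) :
    ∃ w ∈ lineL φ v, ∀ l, (sS : Ser 1) ^ b * (w l : Ser 1) =
      (((φ.E e).map (line v)).mulVec fun l => (y l : Ser 1)) l := by
  have hS : ∀ y ∈ lineS φ v, ∃ w ∈ lineS φ v, ∀ l, (sS : Ser 1) ^ b * (w l : Ser 1) =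
      (((φ.E e).map (line v)).mulVec fun l => (y l : Ser 1)) l := by
    intro y hy
    induction hy using Submodule.span_induction with
    | mem y hy =>
      obtain ⟨u, rfl⟩ := hy
      exact ⟨_, Submodule.subset_span ⟨e u, rfl⟩, fun l => h2_lineE φ v e u l⟩
    | zero =>
      refine ⟨0, zero_mem _, fun l => ?_⟩
      have h1 : (fun l => ((0 : Fin r → (formal 1).alg) l : Ser 1)) = 0 := rfl
      rw [h1, Matrix.mulVec_zero]
      change (sS : Ser 1) ^ b * 0 = 0
      rw [mul_zero]
    | add y y' _ _ ih ih' =>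
      obtain ⟨w, hw, h1⟩ := ih
      obtain ⟨w', hw', h2⟩ := ih'
      refine ⟨w + w', add_mem hw hw', fun l => ?_⟩
      rw [h2_mulVec_add, h2_add, mul_add, h1, h2]
    | smul f y hy ih =>
      obtain ⟨w, hw, h1⟩ := ih
      refine ⟨f • w, Submodule.smul_mem _ _ hw, fun l => ?_⟩
      rw [h2_mulVec_smul, h2_smul, mul_left_comm, h1]
  obtain ⟨n, hn⟩ := h
  obtain ⟨w₁, hw₁, h1⟩ := hS _ hn
  have h2 : ∀ l, (sS : Ser 1) ^ b * (w₁ l : Ser 1) = (MvPowerSeries.X (some 0) : Ser 1) ^ n *
      ((((φ.E e).map (line v)).mulVec fun l => (y l : Ser 1)) l) := by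
    intro l
    rw [h1, h2_mulVec_smul, h2_vz]
  choose w hw hw' using fun l => h2_quot (w₁ l) (h2 l)
  refine ⟨w, ⟨n, ?_⟩, hw'⟩
  have h3 : (formal 1).var (some 0) ^ n • w = w₁ := by
    funext l
    exact (hw l).symm
  rw [h3]
  exact hw₁

end h2

section h3

variable {M : FLat (formal d)} {b : ℕ} (φ : Fr M r b) (v : Fin d → ℂ)

private lemma h3_inj {b : ℕ} {w w' : Fin r → (formal 1).alg}
    (h : ∀ l, (sS : Ser 1) ^ b * (w l : Ser 1) = (sS : Ser 1) ^ b * (w' l : Ser 1)) :
    w = w' := by
  funext l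
  exact Subtype.ext (mul_left_cancel₀ (pow_ne_zero b (h2_ne none)) (h l))

/-- the operator `y ↦ a ∂ y + C y` -/
private noncomputable def h3_th (a : Ser 1) (o : Option (Fin 1)) (C : Mx 1 r)
    (y : Fin r → (formal 1).alg) (l : Fin r) : Ser 1 :=
  a * serD o (y l : Ser 1) + (C.mulVec fun l => (y l : Ser 1)) l

private lemma h3_th_add (a : Ser 1) (o : Option (Fin 1)) (C : Mx 1 r)
    (y y' : Fin r → (formal 1).alg) (l : Fin r) :
    h3_th a o C (y + y') l = h3_th a o C y l + h3_th a o C y' l := by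
  rw [h3_th, h2_mulVec_add, h2_add, map_add, h3_th, h3_th]
  ring

private lemma h3_th_smul (a : Ser 1) (o : Option (Fin 1)) (C : Mx 1 r) (f : (formal 1).alg)
    (y : Fin r → (formal 1).alg) (l : Fin r) :
    h3_th a o C (f • y) l = (f : Ser 1) * h3_th a o C y l
      + a * serD o (f : Ser 1) * (y l : Ser 1) := by
  rw [h3_th, h2_mulVec_smul, h2_smul, Der.leib, h3_th]
  ring

/-- the operator on a submodule -/
private noncomputable def h3_op (L : Submodule (formal 1).alg (Fin r → (formal 1).alg)) (b : ℕ)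
    (a : Ser 1) (o : Option (Fin 1)) (C : Mx 1 r)
    (h : ∀ y ∈ L, ∃ w ∈ L, ∀ l, (sS : Ser 1) ^ b * (w l : Ser 1) = h3_th a o C y l) : L →+ L :=
  AddMonoidHom.mk' (fun y => ⟨(h y y.2).choose, (h y y.2).choose_spec.1⟩) fun y y' =>
    Subtype.ext (h3_inj (b := b) fun l => by
      have h1 := (h y y.2).choose_spec.2 l
      have h2 := (h y' y'.2).choose_spec.2 l
      have h3 := (h (y + y' : L) (y + y' : L).2).choose_spec.2 l
      rw [h3]
      change h3_th a o C ((y : Fin r → (formal 1).alg) + (y' : Fin r → (formal 1).alg)) l = _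
      rw [h3_th_add, ← h1, ← h2]
      exact (mul_add _ _ _).symm)

private lemma h3_op_spec (L : Submodule (formal 1).alg (Fin r → (formal 1).alg)) (b : ℕ)
    (a : Ser 1) (o : Option (Fin 1)) (C : Mx 1 r)
    (h : ∀ y ∈ L, ∃ w ∈ L, ∀ l, (sS : Ser 1) ^ b * (w l : Ser 1) = h3_th a o C y l) (y : L)
    (l : Fin r) : (sS : Ser 1) ^ b * (((h3_op L b a o C h y : L) : Fin r → (formal 1).alg) l :
      Ser 1) = h3_th a o C (y : Fin r → (formal 1).alg) l :=
  (h y y.2).choose_spec.2 l

/-- two elements of `L` are equal if they are equal after multiplication with `s^b` -/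
private lemma h3_ext (L : Submodule (formal 1).alg (Fin r → (formal 1).alg)) (b : ℕ) {y y' : L}
    (h : ∀ l, (sS : Ser 1) ^ b * ((y : Fin r → (formal 1).alg) l : Ser 1)
      = (sS : Ser 1) ^ b * ((y' : Fin r → (formal 1).alg) l : Ser 1)) : y = y' :=
  Subtype.ext (h3_inj h)

private lemma h3_op_smul (L : Submodule (formal 1).alg (Fin r → (formal 1).alg)) (b : ℕ)
    (a : Ser 1) (o : Option (Fin 1)) (C : Mx 1 r)
    (h : ∀ y ∈ L, ∃ w ∈ L, ∀ l, (sS : Ser 1) ^ b * (w l : Ser 1) = h3_th a o C y l)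
    (f g : (formal 1).alg) (hg : a * serD o (f : Ser 1) = (sS : Ser 1) ^ b * (g : Ser 1)) (y : L) :
    h3_op L b a o C h (f • y) = f • h3_op L b a o C h y + g • y := by
  refine h3_ext L b fun l => ?_
  rw [h3_op_spec]
  change h3_th a o C (f • (y : Fin r → (formal 1).alg)) l = (sS : Ser 1) ^ b *
    ((f : Ser 1) * (((h3_op L b a o C h y : L) : Fin r → (formal 1).alg) l : Ser 1)
      + (g : Ser 1) * ((y : Fin r → (formal 1).alg) l : Ser 1))
  rw [h3_th_smul, ← h3_op_spec L b a o C h y l, hg]
  ring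

private lemma h3_alg {A V : Type} [CommRing A] [AddCommGroup V] [Module A V]
    (f s a c a' c' : A) (PTy TPy Py Ty y : V) :
    (f • PTy + c • Ty + (a • Py + a' • y)) - (f • TPy + a • Py + (c • Ty + c' • y))
      + s • (f • Py + c • y) = f • (PTy - TPy + s • Py) + (a' - c' + s * c) • y := by
  module

private lemma h3_sum {A V ι : Type} [CommRing A] [AddCommGroup V] [Module A V] (t : Finset ι)
    (f g h : ι → V) (a : A) (H : ∀ i, f i - g i = -(a • h i)) :
    ∑ i ∈ t, f i - ∑ i ∈ t, g i = -(a • ∑ i ∈ t, h i) := by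
  rw [← Finset.sum_sub_distrib, Finset.smul_sum, ← Finset.sum_neg_distrib]
  exact Finset.sum_congr rfl fun i _ => H i

private lemma h3_one {A V : Type} [CommRing A] [AddCommGroup V] [Module A V] (c s : A)
    (x y w : V) (h : x - y = -(s • w)) : c • x - c • y = -(s • c • w) := by
  rw [← smul_sub, h, smul_neg, smul_comm]

/-- the relation between `P` and `T` -/
private lemma h3_PT {V : Type} [AddCommGroup V] [Module (formal 1).alg V]
    (hz : ∀ (n : ℕ) (u : V), (formal 1).var (some 0) ^ n • u = 0 → u = 0)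
    (T P : V →+ V)
    (hT : ∀ (f : (formal 1).alg) (u : V),
      T (f • u) = f • T u + ((formal 1).var none ^ 2 * (formal 1).pd none f) • u)
    (hP : ∀ (f : (formal 1).alg) (u : V),
      P (f • u) = f • P u + ((formal 1).var none * (formal 1).pd (some 0) f) • u)
    (S : Set V) (h0 : ∀ u ∈ S, P (T u) - T (P u) = -((formal 1).var none • P u))
    (hS : ∀ y : V, ∃ n : ℕ, (formal 1).var (some 0) ^ n • y ∈ Submodule.span (formal 1).alg S)
    (u : V) : P (T u) - T (P u) = -((formal 1).var none • P u) := by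
  have hfun : ∀ f : (formal 1).alg, (formal 1).var none * (formal 1).pd (some 0)
        ((formal 1).var none ^ 2 * (formal 1).pd none f)
      - (formal 1).var none ^ 2 * (formal 1).pd none ((formal 1).var none *
        (formal 1).pd (some 0) f)
      + (formal 1).var none * ((formal 1).var none * (formal 1).pd (some 0) f) = 0 := by
    intro f
    refine Subtype.ext ?_
    change (sS : Ser 1) * serD (some 0) ((sS : Ser 1) ^ 2 * serD none (f : Ser 1)) -
      (sS : Ser 1) ^ 2 * serD none ((sS : Ser 1) * serD (some 0) (f : Ser 1)) +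
      (sS : Ser 1) * ((sS : Ser 1) * serD (some 0) (f : Ser 1)) = 0
    rw [Der.leib, Der.leib, pow_two, Der.leib, n5_s_x, n5_s_s, n5_comm none (some 0)]
    ring
  have hD : ∀ (f : (formal 1).alg) (y : V),
      P (T (f • y)) - T (P (f • y)) + (formal 1).var none • P (f • y) =
        f • (P (T y) - T (P y) + (formal 1).var none • P y) := by
    intro f y
    have h1 : P (T (f • y)) - T (P (f • y)) + (formal 1).var none • P (f • y) =
        f • (P (T y) - T (P y) + (formal 1).var none • P y) +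
        ((formal 1).var none * (formal 1).pd (some 0)
          ((formal 1).var none ^ 2 * (formal 1).pd none f)
        - (formal 1).var none ^ 2 * (formal 1).pd none ((formal 1).var none *
          (formal 1).pd (some 0) f)
        + (formal 1).var none * ((formal 1).var none * (formal 1).pd (some 0) f)) • y := by
      rw [hT, hP f y, map_add, map_add, hP, hP, hT, hT]
      exact h3_alg _ _ _ _ _ _ _ _ _ _ _
    rw [h1, hfun, zero_smul, add_zero]
  have h1 : ∀ y ∈ Submodule.span (formal 1).alg S,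
      P (T y) - T (P y) + (formal 1).var none • P y = 0 := by
    intro y hy
    induction hy using Submodule.span_induction with
    | mem y hy => rw [h0 y hy, neg_add_cancel]
    | zero => simp
    | add y y' _ _ ih ih' =>
      have h2 : P (T (y + y')) - T (P (y + y')) + (formal 1).var none • P (y + y') =
          (P (T y) - T (P y) + (formal 1).var none • P y) +
          (P (T y') - T (P y') + (formal 1).var none • P y') := by
        simp only [map_add, smul_add]
        abel
      rw [h2, ih, ih', add_zero]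
    | smul f y _ ih => rw [hD, ih, smul_zero]
  obtain ⟨n, hn⟩ := hS u
  have h2 := h1 _ hn
  rw [hD] at h2
  have h3 := hz n _ h2
  exact eq_neg_of_add_eq_zero_left h3

/-- the restriction to the line -/
private noncomputable def h3_Phi : M.L →+ lineL φ v :=
  AddMonoidHom.mk' (fun u => ⟨fun l => lineF v (φ.ι u l),
    ⟨0, by rw [pow_zero, one_smul]; exact Submodule.subset_span ⟨u, rfl⟩⟩⟩) fun u u' =>
    Subtype.ext (by
      funext l
      change lineF v (φ.ι (u + u') l) = lineF v (φ.ι u l) + lineF v (φ.ι u' l)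
      rw [map_add, Pi.add_apply, map_add])

private lemma h3_Phi_apply (u : M.L) (l : Fin r) :
    ((h3_Phi φ v u : lineL φ v) : Fin r → (formal 1).alg) l = lineF v (φ.ι u l) := rfl

private lemma h3_Phi_smul (f : (formal d).alg) (u : M.L) :
    h3_Phi φ v (f • u) = lineF v f • h3_Phi φ v u := by
  refine Subtype.ext ?_
  funext l
  change lineF v (φ.ι (f • u) l) = lineF v f * lineF v (φ.ι u l)
  rw [map_smul, Pi.smul_apply, smul_eq_mul, map_mul]

private lemma h3_sat (y : lineL φ v) : ∃ n : ℕ, (formal 1).var (some 0) ^ n • y ∈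
    Submodule.span (formal 1).alg (Set.range (h3_Phi φ v)) := by
  obtain ⟨n, hn⟩ := y.2
  refine ⟨n, ?_⟩
  have h1 : ∀ y ∈ lineS φ v, ∃ w ∈ Submodule.span (formal 1).alg (Set.range (h3_Phi φ v)),
      ((w : lineL φ v) : Fin r → (formal 1).alg) = y := by
    intro y hy
    induction hy using Submodule.span_induction with
    | mem y hy =>
      obtain ⟨u, rfl⟩ := hy
      exact ⟨_, Submodule.subset_span ⟨u, rfl⟩, rfl⟩
    | zero => exact ⟨0, zero_mem _, rfl⟩
    | add y y' _ _ ih ih' =>
      obtain ⟨w, hw, rfl⟩ := ih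
      obtain ⟨w', hw', rfl⟩ := ih'
      exact ⟨w + w', add_mem hw hw', rfl⟩
    | smul f y _ ih =>
      obtain ⟨w, hw, rfl⟩ := ih
      exact ⟨f • w, Submodule.smul_mem _ _ hw, rfl⟩
  obtain ⟨w, hw, h2⟩ := h1 _ hn
  have h3 : w = (formal 1).var (some 0) ^ n • y := Subtype.ext h2
  rw [← h3]
  exact hw

/-- MODULE h3. `N.L = lineL φ v` (free by `sat_free`), `T`, `P`, `e'` given by `lineL_T`,
`lineL_P`, `lineL_E` (the `w` is unique: `Ser 1` is a domain; additivity and the Leibniz rules
follow from uniqueness). `P_T`: `D y = P (T y) - T (P y) + s P y` satisfies `D (f y) = f D y`, is zero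
on the `Φ u`, so on the span, and `z^n D y = D (z^n y) = 0`. -/
theorem exists_lineData (e : M.L →ₗ[(formal d).alg] M.L) : Nonempty (LineData φ e v) := by
  obtain ⟨c⟩ := sat_free (b := b) (lineL φ v) (lineL_single φ v) (lineL_sat φ v)
  have hT := lineL_T φ v
  have hP := lineL_P φ v
  have hE : ∀ y ∈ lineL φ v, ∃ w ∈ lineL φ v, ∀ l, (sS : Ser 1) ^ b * (w l : Ser 1) =
      h3_th 0 none ((φ.E e).map (line v)) y l := by
    intro y hy
    obtain ⟨w, hw, h⟩ := lineL_E φ v e y hy
    refine ⟨w, hw, fun l => ?_⟩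
    rw [h, h3_th, zero_mul, zero_add]
  set T : lineL φ v →+ lineL φ v :=
    h3_op (lineL φ v) b ((sS : Ser 1) ^ (b + 2)) none (φ.B.map (line v)) hT with hTd
  set P : lineL φ v →+ lineL φ v :=
    h3_op (lineL φ v) b ((sS : Ser 1) ^ (b + 1)) (some 0) (lineA v φ.A 0) hP with hPd
  have T_smul : ∀ (f : (formal 1).alg) (u : lineL φ v),
      T (f • u) = f • T u + ((formal 1).var none ^ 2 * (formal 1).pd none f) • u := fun f u =>
    h3_op_smul _ _ _ _ _ _ _ _ (by
      change (sS : Ser 1) ^ (b + 2) * serD none (f : Ser 1) =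
        (sS : Ser 1) ^ b * ((sS : Ser 1) ^ 2 * serD none (f : Ser 1))
      ring) u
  have P_smul : ∀ (f : (formal 1).alg) (u : lineL φ v),
      P (f • u) = f • P u + ((formal 1).var none * (formal 1).pd (some 0) f) • u := fun f u =>
    h3_op_smul _ _ _ _ _ _ _ _ (by
      change (sS : Ser 1) ^ (b + 1) * serD (some 0) (f : Ser 1) =
        (sS : Ser 1) ^ b * ((sS : Ser 1) * serD (some 0) (f : Ser 1))
      ring) u
  have Phi_T : ∀ u, h3_Phi φ v (M.T u) = T (h3_Phi φ v u) := fun u =>
    h3_ext _ b fun l => by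
      rw [h3_op_spec]
      exact h2_lineB φ v u l
  have Phi_P : ∀ u, P (h3_Phi φ v u) =
      ∑ i, (algebraMap ℂ (formal 1).alg (v i)) • h3_Phi φ v (M.P i u) := fun u =>
    h3_ext _ b fun l => by
      rw [h3_op_spec]
      refine (h2_lineP φ v u l).symm.trans ?_
      congr 1
      rw [Submodule.coe_sum, Finset.sum_apply, ← Subalgebra.coe_val, map_sum]
      refine Finset.sum_congr rfl fun i _ => ?_
      have h4 : ∀ f : (formal 1).alg, (formal 1).alg.val (algebraMap ℂ (formal 1).alg (v i) * f)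
          = v i • (f : Ser 1) := fun f => by
        rw [map_mul, AlgHom.commutes, ← Algebra.smul_def]
        rfl
      exact (h4 (lineF v (φ.ι (M.P i u) l))).symm
  have hc : ∀ (o : Option (Fin 1)) (x : ℂ),
      (formal 1).pd o (algebraMap ℂ (formal 1).alg x) = 0 := by
    intro o x
    refine Subtype.ext ?_
    exact (MvPowerSeries.pderiv ℂ o).map_algebraMap x
  have Tc : ∀ (x : ℂ) (u : lineL φ v), T ((algebraMap ℂ (formal 1).alg x) • u) =
      (algebraMap ℂ (formal 1).alg x) • T u := by
    intro x u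
    rw [T_smul, hc, mul_zero, zero_smul, add_zero]
  have hz : ∀ (n : ℕ) (u : lineL φ v), (formal 1).var (some 0) ^ n • u = 0 → u = 0 := by
    intro n u hu
    refine Subtype.ext ?_
    funext l
    have h1 := congrArg (fun w : lineL φ v => (((w : Fin r → (formal 1).alg) l : (formal 1).alg) :
      Ser 1)) hu
    change (MvPowerSeries.X (some 0) : Ser 1) ^ n *
      ((u : Fin r → (formal 1).alg) l : Ser 1) = 0 at h1
    exact Subtype.ext ((mul_eq_zero.1 h1).resolve_left (pow_ne_zero n (h2_ne _)))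
  have P_T : ∀ u : lineL φ v, P (T u) - T (P u) = -((formal 1).var none • P u) := by
    refine h3_PT hz T P T_smul P_smul (Set.range (h3_Phi φ v)) ?_ (h3_sat φ v)
    rintro _ ⟨u, rfl⟩
    rw [← Phi_T, Phi_P, Phi_P, map_sum]
    refine h3_sum (A := (formal 1).alg) (V := lineL φ v) Finset.univ _ _ _ _ fun i => ?_
    rw [Tc, ← Phi_T]
    refine h3_one (A := (formal 1).alg) (V := lineL φ v) _ _ _ _ _ ?_
    have h1 := congrArg (h3_Phi φ v) (M.P_T i u)
    rw [map_sub, map_neg, h3_Phi_smul] at h1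
    refine h1.trans ?_
    congr 2
    exact Subtype.ext (line_sS v)
  refine ⟨{
    N := {
      L := lineL φ v
      free := Module.Free.of_basis c
      fin := Module.Finite.of_basis c
      T := T
      P := fun _ => P
      T_smul := T_smul
      P_smul := fun i f u => by
        rw [Subsingleton.elim i 0]
        exact P_smul f u
      P_T := fun i u => P_T u
      P_P := fun i j u => rfl }
    c := c
    j := (lineL φ v).subtype
    j_inj := Subtype.val_injective
    w := fun l => ⟨_, lineL_single φ v l⟩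
    hw := fun l => rfl
    Φ := h3_Phi φ v
    jΦ := fun u l => rfl
    Φ_T := Phi_T
    Φ_P := Phi_P
    e' := {
      toFun := h3_op (lineL φ v) b 0 none ((φ.E e).map (line v)) hE
      map_add' := map_add _
      map_smul' := fun f u => by
        have h1 := h3_op_smul (lineL φ v) b 0 none ((φ.E e).map (line v)) hE f 0 (by
          rw [zero_mul]
          exact (mul_zero _).symm) u
        rw [zero_smul, add_zero] at h1
        exact h1 }
    Φ_e := fun u => h3_ext _ b fun l => by
      refine Eq.trans ?_ (h3_op_spec (lineL φ v) b 0 none ((φ.E e).map (line v)) hE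
        (h3_Phi φ v u) l).symm
      rw [h3_th, zero_mul, zero_add]
      exact h2_lineE φ v e u l
    sat := h3_sat φ v }⟩

end h3

namespace LineData

variable {M : FLat (formal d)} {b : ℕ} {φ : Fr M r b} {e : M.L →ₗ[(formal d).alg] M.L}
  {v : Fin d → ℂ} (D : LineData φ e v)

/-- the basis `c` in the frame `f` -/
noncomputable def h : Mx 1 r := Matrix.of fun l i => (D.j (D.c i) l : Ser 1)

/-- the elements `s^b f_l` in the basis `c` -/
noncomputable def K : Mx 1 r := Matrix.of fun l i => (D.c.repr (D.w i) l : Ser 1)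

/-- the matrix of `P` in the basis `c` -/
noncomputable def At : Mx 1 r := matO D.N D.c (D.N.P 0)

/-- the matrix of `T` in the basis `c` -/
noncomputable def Bt : Mx 1 r := matO D.N D.c D.N.T

/-- the matrix of `e'` in the basis `c` -/
noncomputable def Et : Mx 1 r := Matrix.of fun l i => (D.c.repr (D.e' (D.c i)) l : Ser 1)

/- helper77, row h4 of mods_nf: inside `namespace LineData` of NGd.lean, in place of the stubs
hK, Kh, relP, relT, relE (statements verbatim, private helpers h4_*). -/

/-- `j y` in terms of the coordinates of `y` -/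
private lemma h4_j (y : D.N.L) (l : Fin r) :
    (D.j y l : Ser 1) = ∑ m, D.h l m * (D.c.repr y m : Ser 1) := by
  have h1 : D.j y = ∑ m, D.c.repr y m • D.j (D.c m) := by
    conv_lhs => rw [← D.c.sum_repr y, map_sum]
    exact Finset.sum_congr rfl fun m _ => map_smul _ _ _
  rw [h1, Finset.sum_apply, AddSubmonoidClass.coe_finsetSum]
  refine Finset.sum_congr rfl fun m _ => ?_
  rw [Pi.smul_apply, smul_eq_mul, mul_comm]
  rfl

/-- MODULE h4. `D.j` of `D.w i = ∑ K_{l i} c_l`. -/
lemma hK : D.h * D.K = (sS : Ser 1) ^ b • (1 : Mx 1 r) := by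
  classical
  ext1 l i
  rw [Matrix.mul_apply, Matrix.smul_apply, Matrix.one_apply, smul_eq_mul]
  have h1 := h4_j D (D.w i) l
  rw [D.hw, Pi.single_apply] at h1
  refine Eq.trans ?_ (h1.symm.trans ?_)
  · rfl
  · split_ifs with h2
    · rw [mul_one]; rfl
    · rw [mul_zero]; rfl

/-- MODULE h4. From `hK` over a domain. -/
lemma Kh : D.K * D.h = (sS : Ser 1) ^ b • (1 : Mx 1 r) := by
  have hs0 : (sS : Ser 1) ≠ 0 := fun h0 => by
    have h7 := congrArg (MvPowerSeries.coeff (Finsupp.single none 1)) h0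
    rw [sS, MvPowerSeries.coeff_X, if_pos rfl, map_zero] at h7
    exact one_ne_zero h7
  have hdet : D.h.det ≠ 0 := by
    intro h0
    have h1 := congrArg Matrix.det D.hK
    rw [Matrix.det_mul, h0, zero_mul, Matrix.det_smul, Matrix.det_one, mul_one] at h1
    exact pow_ne_zero _ (pow_ne_zero _ hs0) h1.symm
  have h1 : D.h * (D.K * D.h - (sS : Ser 1) ^ b • (1 : Mx 1 r)) = 0 := by
    rw [mul_sub, ← mul_assoc, D.hK, Matrix.smul_mul, one_mul, Matrix.mul_smul, mul_one, sub_self]
  have h2 : D.h.det • (D.K * D.h - (sS : Ser 1) ^ b • (1 : Mx 1 r)) = 0 := by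
    have h3 := congrArg (fun W => D.h.adjugate * W) h1
    simp only [← mul_assoc, Matrix.adjugate_mul, mul_zero, Matrix.smul_mul, one_mul] at h3
    exact h3
  have h4 : D.K * D.h - (sS : Ser 1) ^ b • (1 : Mx 1 r) = 0 := by
    ext1 l i
    have h5 := congrFun (congrFun h2 l) i
    rw [Matrix.smul_apply, Matrix.zero_apply, smul_eq_mul] at h5
    exact (mul_eq_zero.1 h5).resolve_left hdet
  exact sub_eq_zero.1 h4

/-- a linear functional which is zero on the `Φ u` is zero -/
private lemma h4_zero (F : D.N.L → Ser 1) (hadd : ∀ y y', F (y + y') = F y + F y')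
    (hsm : ∀ (f : (formal 1).alg) (y : D.N.L), F (f • y) = (f : Ser 1) * F y)
    (hΦ : ∀ u, F (D.Φ u) = 0) (y : D.N.L) : F y = 0 := by
  obtain ⟨n, hn⟩ := D.sat y
  have h0 : F 0 = 0 := by
    have h1 := hsm 0 0
    rw [zero_smul] at h1
    rw [h1]
    exact zero_mul _
  have h1 : F ((formal 1).var (some 0) ^ n • y) = 0 := by
    refine Submodule.span_induction (p := fun x _ => F x = 0) ?_ h0 ?_ ?_ hn
    · rintro x ⟨u, rfl⟩
      exact hΦ u
    · intro x x' _ _ hx hx'
      rw [hadd, hx, hx', add_zero]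
    · intro f x _ hx
      rw [hsm, hx, mul_zero]
  rw [hsm] at h1
  refine (mul_eq_zero.1 h1).resolve_left ?_
  have h2 : (((formal 1).var (some 0) ^ n : (formal 1).alg) : Ser 1)
      = (MvPowerSeries.X (some 0) : Ser 1) ^ n := rfl
  rw [h2]
  refine pow_ne_zero _ fun h3 => ?_
  have h7 := congrArg (MvPowerSeries.coeff (Finsupp.single (some 0) 1)) h3
  rw [MvPowerSeries.coeff_X, if_pos rfl, map_zero] at h7
  exact one_ne_zero h7

/-- the image of a symbol on the line -/
private lemma h4_line (f : (formal d).alg) : ((lineF v f : (formal 1).alg) : Ser 1) = line v f :=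
  rfl

/-- the left side of the relations -/
private lemma h4_RP (y : D.N.L) (l : Fin r) :
    (sS : Ser 1) ^ b * (D.j (D.N.P 0 y) l : Ser 1) =
      (sS : Ser 1) ^ (b + 1) * serD (some 0) (D.j y l : Ser 1)
        + ∑ m, lineA v φ.A 0 l m * (D.j y m : Ser 1) := by
  have key := h4_zero D (fun y => (sS : Ser 1) ^ b * (D.j (D.N.P 0 y) l : Ser 1) -
      ((sS : Ser 1) ^ (b + 1) * serD (some 0) (D.j y l : Ser 1)
        + ∑ m, lineA v φ.A 0 l m * (D.j y m : Ser 1))) ?_ ?_ ?_ y
  · exact sub_eq_zero.1 key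
  · intro y y'
    have h1 : ∀ m, (D.j (y + y') m : Ser 1) = (D.j y m : Ser 1) + (D.j y' m : Ser 1) :=
      fun m => by rw [map_add]; rfl
    have h2 : (D.j (D.N.P 0 (y + y')) l : Ser 1) =
        (D.j (D.N.P 0 y) l : Ser 1) + (D.j (D.N.P 0 y') l : Ser 1) := by
      rw [map_add, map_add]; rfl
    simp only [h1, h2]
    simp only [map_add, mul_add, Finset.sum_add_distrib]
    ring
  · intro f y
    have h1 : ∀ m, (D.j (f • y) m : Ser 1) = (f : Ser 1) * (D.j y m : Ser 1) :=
      fun m => by rw [map_smul]; rfl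
    have h2 : (D.j (D.N.P 0 (f • y)) l : Ser 1) =
        (f : Ser 1) * (D.j (D.N.P 0 y) l : Ser 1)
          + sS * serD (some 0) (f : Ser 1) * (D.j y l : Ser 1) := by
      rw [D.N.P_smul, map_add, map_smul, map_smul]; rfl
    simp only [h1, h2, Der.leib]
    have h3 : ∑ m, lineA v φ.A 0 l m * ((f : Ser 1) * (D.j y m : Ser 1))
        = (f : Ser 1) * ∑ m, lineA v φ.A 0 l m * (D.j y m : Ser 1) := by
      rw [Finset.mul_sum]
      exact Finset.sum_congr rfl fun m _ => by ring
    rw [h3]
    ring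
  · intro u
    rw [sub_eq_zero]
    have h1 : ∀ m, (D.j (D.Φ u) m : Ser 1) = line v (φ.vec u m) := fun m => by
      rw [D.jΦ]; rfl
    have h2 : (D.j (D.N.P 0 (D.Φ u)) l : Ser 1) = ∑ i, v i • line v (φ.vec (M.P i u) l) := by
      rw [D.Φ_P, map_sum, Finset.sum_apply, AddSubmonoidClass.coe_finsetSum]
      refine Finset.sum_congr rfl fun i _ => ?_
      rw [map_smul, Pi.smul_apply, smul_eq_mul, D.jΦ, Algebra.smul_def]
      rfl
    have h3 : ∀ i, (sS : Ser 1) ^ b * line v (φ.vec (M.P i u) l) =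
        (sS : Ser 1) ^ (b + 1) * line v (serD (some i) (φ.vec u l))
          + ∑ m, line v (φ.A i l m) * line v (φ.vec u m) := fun i => by
      have h4 := congrArg (line v) (congrFun (φ.vec_P i u) l)
      rw [Pi.smul_apply, Pi.add_apply, Pi.smul_apply, smul_eq_mul, smul_eq_mul, map_add, map_mul,
        map_mul, map_pow, map_pow, line_sS, Matrix.mulVec, dotProduct, map_sum] at h4
      rw [h4]
      congr 1
      exact Finset.sum_congr rfl fun m _ => map_mul _ _ _
    have h5 : ∀ m, lineA v φ.A 0 l m = ∑ i, v i • line v (φ.A i l m) := fun m => by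
      rw [lineA, Matrix.sum_apply]; rfl
    simp only [h1, h5]
    rw [h2, line_serD, Finset.mul_sum, Finset.mul_sum]
    simp only [Finset.sum_mul]
    rw [Finset.sum_comm, ← Finset.sum_add_distrib]
    refine Finset.sum_congr rfl fun i _ => ?_
    rw [mul_smul_comm, h3, smul_add, mul_smul_comm, Finset.smul_sum]
    congr 1
    exact Finset.sum_congr rfl fun m _ => (smul_mul_assoc _ _ _).symm

private lemma h4_RT (y : D.N.L) (l : Fin r) :
    (sS : Ser 1) ^ b * (D.j (D.N.T y) l : Ser 1) =
      (sS : Ser 1) ^ (b + 2) * serD none (D.j y l : Ser 1)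
        + ∑ m, φ.B.map (line v) l m * (D.j y m : Ser 1) := by
  have key := h4_zero D (fun y => (sS : Ser 1) ^ b * (D.j (D.N.T y) l : Ser 1) -
      ((sS : Ser 1) ^ (b + 2) * serD none (D.j y l : Ser 1)
        + ∑ m, φ.B.map (line v) l m * (D.j y m : Ser 1))) ?_ ?_ ?_ y
  · exact sub_eq_zero.1 key
  · intro y y'
    have h1 : ∀ m, (D.j (y + y') m : Ser 1) = (D.j y m : Ser 1) + (D.j y' m : Ser 1) :=
      fun m => by rw [map_add]; rfl
    have h2 : (D.j (D.N.T (y + y')) l : Ser 1) =
        (D.j (D.N.T y) l : Ser 1) + (D.j (D.N.T y') l : Ser 1) := by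
      rw [map_add, map_add]; rfl
    simp only [h1, h2]
    simp only [map_add, mul_add, Finset.sum_add_distrib]
    ring
  · intro f y
    have h1 : ∀ m, (D.j (f • y) m : Ser 1) = (f : Ser 1) * (D.j y m : Ser 1) :=
      fun m => by rw [map_smul]; rfl
    have h2 : (D.j (D.N.T (f • y)) l : Ser 1) =
        (f : Ser 1) * (D.j (D.N.T y) l : Ser 1)
          + sS ^ 2 * serD none (f : Ser 1) * (D.j y l : Ser 1) := by
      rw [D.N.T_smul, map_add, map_smul, map_smul]; rfl
    simp only [h1, h2, Der.leib]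
    have h3 : ∑ m, φ.B.map (line v) l m * ((f : Ser 1) * (D.j y m : Ser 1))
        = (f : Ser 1) * ∑ m, φ.B.map (line v) l m * (D.j y m : Ser 1) := by
      rw [Finset.mul_sum]
      exact Finset.sum_congr rfl fun m _ => by ring
    rw [h3]
    ring
  · intro u
    rw [sub_eq_zero]
    have h1 : ∀ m, (D.j (D.Φ u) m : Ser 1) = line v (φ.vec u m) := fun m => by
      rw [D.jΦ]; rfl
    have h2 : (D.j (D.N.T (D.Φ u)) l : Ser 1) = line v (φ.vec (M.T u) l) := by
      rw [← D.Φ_T, D.jΦ]; rfl
    have h4 := congrArg (line v) (congrFun (φ.vec_T u) l)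
    rw [Pi.smul_apply, Pi.add_apply, Pi.smul_apply, smul_eq_mul, smul_eq_mul, map_add, map_mul,
      map_mul, map_pow, map_pow, line_sS, Matrix.mulVec, dotProduct, map_sum,
      line_serD_none] at h4
    simp only [h1, h2]
    rw [h4]
    congr 1
    exact Finset.sum_congr rfl fun m _ => map_mul _ _ _

private lemma h4_RE (y : D.N.L) (l : Fin r) :
    (sS : Ser 1) ^ b * (D.j (D.e' y) l : Ser 1) =
      ∑ m, (φ.E e).map (line v) l m * (D.j y m : Ser 1) := by
  have key := h4_zero D (fun y => (sS : Ser 1) ^ b * (D.j (D.e' y) l : Ser 1) -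
      ∑ m, (φ.E e).map (line v) l m * (D.j y m : Ser 1)) ?_ ?_ ?_ y
  · exact sub_eq_zero.1 key
  · intro y y'
    have h1 : ∀ m, (D.j (y + y') m : Ser 1) = (D.j y m : Ser 1) + (D.j y' m : Ser 1) :=
      fun m => by rw [map_add]; rfl
    have h2 : (D.j (D.e' (y + y')) l : Ser 1) =
        (D.j (D.e' y) l : Ser 1) + (D.j (D.e' y') l : Ser 1) := by
      rw [map_add, map_add]; rfl
    simp only [h1, h2, mul_add, Finset.sum_add_distrib]
    ring
  · intro f y
    have h1 : ∀ m, (D.j (f • y) m : Ser 1) = (f : Ser 1) * (D.j y m : Ser 1) :=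
      fun m => by rw [map_smul]; rfl
    have h2 : (D.j (D.e' (f • y)) l : Ser 1) =
        (f : Ser 1) * (D.j (D.e' y) l : Ser 1) := by
      rw [map_smul, map_smul]; rfl
    simp only [h1, h2]
    have h3 : ∑ m, (φ.E e).map (line v) l m * ((f : Ser 1) * (D.j y m : Ser 1))
        = (f : Ser 1) * ∑ m, (φ.E e).map (line v) l m * (D.j y m : Ser 1) := by
      rw [Finset.mul_sum]
      exact Finset.sum_congr rfl fun m _ => by ring
    rw [h3]
    ring
  · intro u
    rw [sub_eq_zero]
    have h1 : ∀ m, (D.j (D.Φ u) m : Ser 1) = line v (φ.vec u m) := fun m => by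
      rw [D.jΦ]; rfl
    have h2 : (D.j (D.e' (D.Φ u)) l : Ser 1) = line v (φ.vec (e u) l) := by
      rw [← D.Φ_e, D.jΦ]; rfl
    have h4 := congrArg (line v) (congrFun (φ.vec_E e u) l)
    rw [Pi.smul_apply, smul_eq_mul, map_mul, map_pow, line_sS, Matrix.mulVec, dotProduct,
      map_sum] at h4
    simp only [h1, h2]
    rw [h4]
    exact Finset.sum_congr rfl fun m _ => map_mul _ _ _

/-- MODULE h4. For `y ∈ N.L`: `s^b j (P y) = s^(b+1) ∂_z (j y) + A_v j y`; true for `y = Φ u`
(restrict `Fr.vec_P` to the line), so on the span, so on the saturation; take `y = c_i`. -/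
lemma relP : (sS : Ser 1) ^ (b + 1) • D.h.map (serD (some 0)) + lineA v φ.A 0 * D.h
    = (sS : Ser 1) ^ b • (D.h * D.At) := by
  ext1 l i
  rw [Matrix.add_apply, Matrix.smul_apply, Matrix.map_apply, Matrix.mul_apply,
    Matrix.smul_apply, Matrix.mul_apply, smul_eq_mul, smul_eq_mul]
  have h1 := h4_RP D (D.c i) l
  rw [h4_j D (D.N.P 0 (D.c i)) l] at h1
  exact h1.symm

/-- MODULE h4 -/
lemma relT : (sS : Ser 1) ^ (b + 2) • D.h.map (serD none) + φ.B.map (line v) * D.h
    = (sS : Ser 1) ^ b • (D.h * D.Bt) := by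
  ext1 l i
  rw [Matrix.add_apply, Matrix.smul_apply, Matrix.map_apply, Matrix.mul_apply,
    Matrix.smul_apply, Matrix.mul_apply, smul_eq_mul, smul_eq_mul]
  have h1 := h4_RT D (D.c i) l
  rw [h4_j D (D.N.T (D.c i)) l] at h1
  exact h1.symm

/-- MODULE h4 -/
lemma relE : (φ.E e).map (line v) * D.h = (sS : Ser 1) ^ b • (D.h * D.Et) := by
  ext1 l i
  rw [Matrix.mul_apply, Matrix.smul_apply, Matrix.mul_apply, smul_eq_mul]
  have h1 := h4_RE D (D.c i) l
  rw [h4_j D (D.e' (D.c i)) l] at h1
  exact h1.symm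

/- helper77, row h5 of mods_nf: inside `namespace LineData` of NGd.lean, in place of the stub eig
(statement verbatim, private helpers h5_*). -/

private lemma h5_comm {A B : Mx 1 r} (h : Commute A B) (g : (Ser 1)[X]) :
    Commute A (aeval B g) := by
  induction g using Polynomial.induction_on' with
  | add p q hp hq => rw [map_add]; exact hp.add_right hq
  | monomial n a =>
    rw [aeval_monomial]
    exact Commute.mul_right (Algebra.commutes a A).symm (h.pow_right n)

/-- `Φ` is semilinear -/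
private lemma h5_smul (f : (formal d).alg) (u : M.L) : D.Φ (f • u) = lineF v f • D.Φ u := by
  refine D.j_inj ?_
  funext l
  rw [D.jΦ, map_smul D.j, Pi.smul_apply, D.jΦ, map_smul φ.ι, Pi.smul_apply, smul_eq_mul,
    smul_eq_mul, map_mul]

private lemma h5_var : lineF v ((formal d).var none) = (formal 1).var none :=
  Subtype.ext (line_sS v)

/-- division by `z ^ n` modulo `s` -/
private lemma h5_div {n : ℕ} {a c : (formal 1).alg}
    (h : (formal 1).var (some 0) ^ n * a = (formal 1).var none * c) :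
    ∃ g : (formal 1).alg, a = (formal 1).var none * g := by
  have h1 : (MvPowerSeries.X none : Ser 1) ∣ (a : Ser 1) := by
    rw [MvPowerSeries.X_dvd_iff]
    intro m hm
    have h2 : (MvPowerSeries.X none : Ser 1) ∣ (MvPowerSeries.X (some 0) : Ser 1) ^ n * (a : Ser 1) :=
      ⟨(c : Ser 1), congrArg (fun x : (formal 1).alg => (x : Ser 1)) h⟩
    rw [MvPowerSeries.X_dvd_iff] at h2
    have h3 := h2 (Finsupp.single (some 0) n + m) (by
      rw [Finsupp.add_apply, hm, Finsupp.single_eq_of_ne (by simp)])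
    rwa [MvPowerSeries.X_pow_eq, MvPowerSeries.coeff_add_monomial_mul, one_mul] at h3
  obtain ⟨g, hg⟩ := h1
  refine ⟨⟨g, SDiv.div g ?_⟩, Subtype.ext hg⟩
  rw [← hg]
  exact a.2

/-- an operator which maps the `Φ u` into `s N.L` kills -/
private lemma h5_kills (F : AddMonoid.End D.N.L) (hF : Lin D.N F)
    (h : ∀ u, ∃ w, F (D.Φ u) = (formal 1).var none • w) : D.N.Kills F := by
  intro y
  obtain ⟨n, hn⟩ := D.sat y
  have h1 : ∃ w, F ((formal 1).var (some 0) ^ n • y) = (formal 1).var none • w := by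
    refine Submodule.span_induction
      (p := fun x _ => ∃ w, F x = (formal 1).var none • w) ?_ ?_ ?_ ?_ hn
    · rintro x ⟨u, rfl⟩
      exact h u
    · exact ⟨0, by rw [map_zero, smul_zero]⟩
    · rintro x x' _ _ ⟨w, hw⟩ ⟨w', hw'⟩
      exact ⟨w + w', by rw [map_add, hw, hw', smul_add]⟩
    · rintro f x _ ⟨w, hw⟩
      obtain ⟨w', hw'⟩ := hF f x
      exact ⟨f • w + w', by rw [hw', hw, smul_add, smul_comm]⟩
  obtain ⟨w, hw⟩ := h1
  obtain ⟨w', hw'⟩ := hF ((formal 1).var (some 0) ^ n) y
  have h2 : (formal 1).var (some 0) ^ n • F y = (formal 1).var none • (w - w') := by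
    rw [smul_sub, ← hw, hw', add_sub_cancel_right]
  have h3 : ∀ l, ∃ g : (formal 1).alg, D.c.repr (F y) l = (formal 1).var none * g := fun l => by
    have h4 := congrArg (fun x => D.c.repr x l) h2
    simp only [map_smul, Finsupp.smul_apply, smul_eq_mul] at h4
    exact h5_div h4
  choose g hg using h3
  refine ⟨∑ l, g l • D.c l, ?_⟩
  conv_lhs => rw [← D.c.sum_repr (F y)]
  rw [Finset.smul_sum]
  refine Finset.sum_congr rfl fun l _ => ?_
  rw [hg, mul_smul]

private lemma h5_sum {S : SymRing 1} {N : Pool.Fml.Lattice S} (s : Finset ℕ)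
    (F : ℕ → AddMonoid.End N.L) (y : N.L) : (∑ n ∈ s, F n) y = ∑ n ∈ s, F n y := by
  classical
  induction s using Finset.induction_on with
  | empty => rfl
  | insert i s hi ih =>
    rw [Finset.sum_insert hi, Finset.sum_insert hi, ← ih]
    rfl

private lemma h5_sum' {S : SymRing d} {N : FLat S} (s : Finset ℕ)
    (F : ℕ → AddMonoid.End N.L) (y : N.L) : (∑ n ∈ s, F n) y = ∑ n ∈ s, F n y := by
  classical
  induction s using Finset.induction_on with
  | empty => rfl
  | insert i s hi ih =>
    rw [Finset.sum_insert hi, Finset.sum_insert hi, ← ih]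
    rfl

private lemma h5_evT {S : SymRing 1} (N : Pool.Fml.Lattice S) (p : S.alg[X]) {k : ℕ}
    (hk : p.natDegree < k) (y : N.L) :
    evT N p y = ∑ n ∈ Finset.range k, p.coeff n • (N.T ^ n) y := by
  have h1 : evT N p y = ∑ n ∈ Finset.range (p.natDegree + 1), p.coeff n • (N.T ^ n) y := by
    rw [evT, h5_sum]
    rfl
  rw [h1]
  refine Finset.sum_subset (fun n hn => ?_) fun n _ hn => ?_
  · rw [Finset.mem_range] at hn ⊢; omega
  · rw [Finset.mem_range, not_lt] at hn
    rw [coeff_eq_zero_of_natDegree_lt (by omega), zero_smul]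

private lemma h5_pow (n : ℕ) (u : M.L) : D.Φ ((M.T ^ n) u) = (D.N.T ^ n) (D.Φ u) := by
  induction n with
  | zero => rfl
  | succ n ih =>
    rw [pow_succ', pow_succ']
    change D.Φ (M.T ((M.T ^ n) u)) = D.N.T ((D.N.T ^ n) (D.Φ u))
    rw [D.Φ_T, ih]

/-- `p(T)` on the line -/
private lemma h5_ev (Q : (formal d).alg[X]) (u : M.L) :
    D.Φ (M.evT Q u) = evT D.N (Q.map (lineF v)) (D.Φ u) := by
  rw [h5_evT D.N (Q.map (lineF v)) (k := Q.natDegree + 1)
    (Nat.lt_succ_of_le natDegree_map_le), FLat.evT, h5_sum', map_sum]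
  refine Finset.sum_congr rfl fun n _ => ?_
  change D.Φ (Q.coeff n • (M.T ^ n) u) = _
  rw [h5_smul, h5_pow, coeff_map]

/-- derivative of the coefficients -/
private noncomputable def h5_px (p : (formal 1).alg[X]) : (formal 1).alg[X] :=
  ∑ n ∈ Finset.range (p.natDegree + 1), monomial n ((formal 1).pd (some 0) (p.coeff n))

private lemma h5_px_coeff (p : (formal 1).alg[X]) (n : ℕ) :
    (h5_px p).coeff n = (formal 1).pd (some 0) (p.coeff n) := by
  unfold h5_px
  rw [finsetSum_coeff]
  simp only [coeff_monomial]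
  rw [Finset.sum_ite_eq']
  split_ifs with h
  · rfl
  · rw [Finset.mem_range, not_lt] at h
    rw [coeff_eq_zero_of_natDegree_lt (by omega)]
    exact Subtype.ext (map_zero (serD (some 0))).symm

private lemma h5_toP (p : (formal 1).alg[X]) (n : ℕ) :
    (toP p).coeff n = (p.coeff n : Ser 1) := by
  unfold toP
  rw [coeff_map]
  rfl

private lemma h5_toP_px (p : (formal 1).alg[X]) :
    toP (h5_px p) = polD (serD (some 0)) (toP p) := by
  ext1 n
  rw [h5_toP, h5_px_coeff, polD_coeff, h5_toP]
  rfl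

private lemma h5_toP_der (p : (formal 1).alg[X]) : toP (derivative p) = derivative (toP p) := by
  unfold toP
  rw [derivative_map]

private lemma h5_pd (f : (formal d).alg) : (formal 1).pd (some 0) (lineF v f) =
    ∑ i, algebraMap ℂ (formal 1).alg (v i) * lineF v ((formal d).pd (some i) f) := by
  refine Subtype.ext ?_
  rw [AddSubmonoidClass.coe_finsetSum]
  refine (line_serD v (f : Ser d)).trans (Finset.sum_congr rfl fun i _ => ?_)
  rw [Algebra.smul_def]
  rfl

private lemma h5_evD (Q : (formal d).alg[X]) (u : M.L) :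
    ∑ i, algebraMap ℂ (formal 1).alg (v i) • D.Φ (M.evD i Q u) =
      evT D.N (h5_px (Q.map (lineF v))) (D.Φ u) := by
  have hdeg : (h5_px (Q.map (lineF v))).natDegree < Q.natDegree + 1 := by
    refine Nat.lt_succ_of_le ((natDegree_le_iff_coeff_eq_zero.2 fun n hn => ?_))
    rw [h5_px_coeff, coeff_map, coeff_eq_zero_of_natDegree_lt hn, map_zero]
    exact Subtype.ext (map_zero (serD (some 0)))
  rw [h5_evT D.N _ hdeg]
  have h1 : ∀ i, D.Φ (M.evD i Q u) = ∑ n ∈ Finset.range (Q.natDegree + 1),
      lineF v ((formal d).pd (some i) (Q.coeff n)) • (D.N.T ^ n) (D.Φ u) := fun i => by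
    rw [FLat.evD, h5_sum', map_sum]
    refine Finset.sum_congr rfl fun n _ => ?_
    change D.Φ ((formal d).pd (some i) (Q.coeff n) • (M.T ^ n) u) = _
    rw [h5_smul, h5_pow]
  simp only [h1, Finset.smul_sum]
  rw [Finset.sum_comm]
  refine Finset.sum_congr rfl fun n _ => ?_
  rw [h5_px_coeff, coeff_map, h5_pd, Finset.sum_smul]
  exact Finset.sum_congr rfl fun i _ => (mul_smul _ _ _).symm

/-- MODULE h5. On the line: `q_v(T) y ∈ s N.L` and `(∂_z q_v(T) - q_v'(T) P) y ∈ s N.L`, where
`∂_z q_v = ∑ v_i (∂_i q)_v`, for `y = Φ u` by the hypotheses, for `y ∈ span` by linearity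
modulo `s`, for `y ∈ N.L` because `z^n y ∈ s N.L` implies `y ∈ s N.L` (coordinates in the
basis). Then `kills_iff`, `sym_evT`, `sym_mul`, `sym_sub` of `NFc.lean`. -/
theorem eig (q : (CvS d)[X]) (h1 : M.Kills (M.evT (q.map (cvi d))))
    (h2 : ∀ i, M.Kills (M.evD i (q.map (cvi d)) - M.evT (derivative (q.map (cvi d))) * M.P i)) :
    Eig ((q.map (CvS d).val.toRingHom).map (line v)) (fun i => matO D.N D.c (D.N.P i)) D.Bt := by
  set Q : (formal d).alg[X] := q.map (cvi d) with hQ
  set qv : (formal 1).alg[X] := Q.map (lineF v) with hqv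
  have hT : D.N.T ∈ D.N.ops := Subring.subset_closure (Or.inr (Or.inl rfl))
  have hP : ∀ i, D.N.P i ∈ D.N.ops := fun i => Subring.subset_closure (Or.inr (Or.inr ⟨i, rfl⟩))
  have hp : toP qv = (q.map (CvS d).val.toRingHom).map (line v) := by
    ext1 n
    rw [h5_toP, hqv, coeff_map, hQ, coeff_map, coeff_map, coeff_map]
    rfl
  have hfree : ∀ n, SFree (qv.coeff n : Ser 1) := fun n => by
    rw [hqv, coeff_map, hQ, coeff_map]
    exact line_SFree v (q.coeff n).2.2
  have hfree1 : ∀ n, SFree ((h5_px qv).coeff n : Ser 1) := fun n m hm => by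
    rw [h5_px_coeff]
    change MvPowerSeries.coeff m (MvPowerSeries.pderiv ℂ (some 0) (qv.coeff n : Ser 1)) = 0
    rw [MvPowerSeries.coeff_pderiv, hfree n, zero_mul]
    rw [Finsupp.add_apply, Finsupp.single_eq_of_ne (by simp), add_zero]
    exact hm
  have hfree2 : ∀ n, SFree ((derivative qv).coeff n : Ser 1) := fun n m hm => by
    rw [coeff_derivative]
    have e : ((qv.coeff (n + 1) * ((n : (formal 1).alg) + 1) : (formal 1).alg) : Ser 1)
        = ((n + 1 : ℕ) : ℂ) • (qv.coeff (n + 1) : Ser 1) := by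
      push_cast
      rw [Algebra.smul_def, mul_comm]
      push_cast
      rfl
    rw [e, map_smul, hfree (n + 1) m hm, smul_zero]
  have hcomm : ∀ i, sym D.N D.c (D.N.P i) * sym D.N D.c D.N.T =
      sym D.N D.c D.N.T * sym D.N D.c (D.N.P i) := by
    intro i
    rw [← sym_mul D.N D.c (lin_of_mem D.N (hP i)), ← sym_mul D.N D.c (lin_of_mem D.N hT),
      ← sub_eq_zero, ← sym_sub]
    refine (kills_iff D.N D.c (lin_of_mem D.N (sub_mem (mul_mem (hP i) hT)
      (mul_mem hT (hP i))))).1 fun u => ⟨-D.N.P i u, ?_⟩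
    rw [smul_neg]
    exact D.N.P_T i u
  have hk1 : D.N.Kills (evT D.N qv) := by
    refine h5_kills D _ (lin_of_mem D.N (evT_mem D.N _)) fun u => ?_
    obtain ⟨w, hw⟩ := h1 u
    refine ⟨D.Φ w, ?_⟩
    rw [← h5_ev, hw, h5_smul, h5_var]
  have hmem : evT D.N (h5_px qv) - evT D.N (derivative qv) * D.N.P 0 ∈ D.N.ops :=
    sub_mem (evT_mem D.N _) (mul_mem (evT_mem D.N _) (hP 0))
  have hk2 : D.N.Kills (evT D.N (h5_px qv) - evT D.N (derivative qv) * D.N.P 0) := by
    refine h5_kills D _ (lin_of_mem D.N hmem) fun u => ?_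
    choose w hw using fun i => h2 i u
    choose w' hw' using fun i => lin_of_mem D.N (evT_mem D.N (derivative qv))
      (algebraMap ℂ (formal 1).alg (v i)) (D.Φ (M.P i u))
    refine ⟨∑ i, (algebraMap ℂ (formal 1).alg (v i) • D.Φ (w i) - w' i), ?_⟩
    change evT D.N (h5_px qv) (D.Φ u) - evT D.N (derivative qv) (D.N.P 0 (D.Φ u)) = _
    rw [← h5_evD, D.Φ_P, map_sum, ← Finset.sum_sub_distrib, Finset.smul_sum]
    refine Finset.sum_congr rfl fun i _ => ?_
    rw [hw', hqv, derivative_map, ← h5_ev, smul_sub, smul_comm ((formal 1).var none)]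
    have h3 : D.Φ (M.evD i Q u) = D.Φ (M.evT (derivative Q) (M.P i u))
        + (formal 1).var none • D.Φ (w i) := by
      rw [← h5_var (v := v), ← h5_smul, ← hw i, ← map_add]
      congr 1
      exact (add_sub_cancel _ _).symm
    rw [h3, smul_add]
    abel
  have e1 := (kills_iff D.N D.c (lin_of_mem D.N (evT_mem D.N qv))).1 hk1
  have e2 := (kills_iff D.N D.c (lin_of_mem D.N hmem)).1 hk2
  rw [sym_evT D.N D.c qv hfree] at e1
  rw [sym_sub, sym_mul D.N D.c (lin_of_mem D.N (evT_mem D.N _)), sym_evT D.N D.c _ hfree1,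
    sym_evT D.N D.c _ hfree2, sub_eq_zero] at e2
  rw [h5_toP_px, h5_toP_der, hp] at e2
  rw [hp] at e1
  refine ⟨hcomm, e1, fun i => ?_⟩
  have hi : i = 0 := Subsingleton.elim _ _
  subst hi
  change sym D.N D.c (D.N.P 0) * aeval (sym D.N D.c D.N.T) _ = aeval (sym D.N D.c D.N.T) _
  rw [e2]
  have hc : Commute (sym D.N D.c (D.N.P 0)) (sym D.N D.c D.N.T) := hcomm 0
  exact (h5_comm hc _).eq

end LineData

section r1

/- rows r1, r2, r3 of NGd.lean (helper33): goes into `section r1` of NGd.lean; statements verbatim -/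
section r1

private lemma r1_clear {R : Type} [CommRing R] [IsDomain R] (f : (FractionRing R)[X]) :
    ∃ (D : R) (g : R[X]), D ≠ 0 ∧ g.map (algebraMap R (FractionRing R)) =
      C (algebraMap R (FractionRing R) D) * f := by
  obtain ⟨D, hD', hD⟩ := IsLocalization.integerNormalization_spec (nonZeroDivisors R) f
  refine ⟨D, IsLocalization.integerNormalization (nonZeroDivisors R) f,
    nonZeroDivisors.ne_zero hD', ?_⟩
  rw [hD]
  ext n
  rw [Polynomial.coeff_smul, Polynomial.coeff_C_mul, Algebra.smul_def]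

private lemma r1_gen {R : Type} [CommRing R] [IsDomain R] [CharZero R] (χ : R[X])
    (hχ : χ.Monic) :
    ∃ (q α β : R[X]) (Δ : R) (N : ℕ), Δ ≠ 0 ∧ α * q + β * derivative q = C Δ ∧ χ ∣ q ^ N := by
  set L := FractionRing R
  have hι : Function.Injective (algebraMap R L) := IsFractionRing.injective R L
  have : CharZero L := charZero_of_injective_algebraMap hι
  have hχ0 : χ.map (algebraMap R L) ≠ 0 := (hχ.map _).ne_zero
  obtain ⟨y, n, hy, hyx, hxy⟩ := exists_squarefree_dvd_pow_of_ne_zero hχ0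
  obtain ⟨a, b, hab⟩ := PerfectField.separable_iff_squarefree.2 hy
  obtain ⟨D, q, hD, hq⟩ := r1_clear y
  obtain ⟨D₁, a₁, hD₁, ha₁⟩ := r1_clear a
  obtain ⟨D₂, b₁, hD₂, hb₁⟩ := r1_clear b
  refine ⟨q, C D₂ * a₁, C D₁ * b₁, D * D₁ * D₂, n, mul_ne_zero (mul_ne_zero hD hD₁) hD₂, ?_, ?_⟩
  · refine Polynomial.map_injective _ hι ?_
    rw [Polynomial.map_add, Polynomial.map_mul, Polynomial.map_mul, Polynomial.map_mul,
      Polynomial.map_mul, Polynomial.map_C, Polynomial.map_C, Polynomial.map_C, ha₁, hb₁, hq,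
      ← Polynomial.derivative_map, hq, Polynomial.derivative_C_mul]
    simp only [map_mul]
    linear_combination (C (algebraMap R L D) * C (algebraMap R L D₁) * C (algebraMap R L D₂)) * hab
  · rw [← Polynomial.map_dvd_map (algebraMap R L) hι hχ, Polynomial.map_pow, hq, mul_pow]
    exact Dvd.dvd.mul_left hxy _

/-- MODULE r1. -/
theorem exists_q_poly (χ : (CvS d)[X]) (hχ : χ.Monic) :
    ∃ (q α β : (CvS d)[X]) (Δ : CvS d) (N : ℕ), Δ ≠ 0 ∧ α * q + β * derivative q = C Δ ∧
      χ ∣ q ^ N := by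
  have : CharZero (CvS d) := charZero_of_injective_algebraMap (algebraMap ℂ (CvS d)).injective
  exact r1_gen χ hχ

private lemma r2_sco_coeff (f : Ser d) (m : Option (Fin d) →₀ ℕ) :
    MvPowerSeries.coeff m (sco 0 f) = if m none = 0 then MvPowerSeries.coeff m f else 0 := by
  rw [sco_coeff, Finsupp.single_zero, add_zero]

private lemma r2_sco_one : sco 0 (1 : Ser d) = 1 := by
  classical
  refine MvPowerSeries.ext fun m => ?_
  rw [r2_sco_coeff, MvPowerSeries.coeff_one]
  by_cases h : m = 0
  · subst h; simp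
  · simp [h]

private lemma r2_sco_mul (f g : Ser d) : sco 0 (f * g) = sco 0 f * sco 0 g := by
  classical
  refine MvPowerSeries.ext fun m => ?_
  rw [r2_sco_coeff, MvPowerSeries.coeff_mul, MvPowerSeries.coeff_mul]
  split_ifs with h
  · refine Finset.sum_congr rfl fun p hp => ?_
    rw [Finset.HasAntidiagonal.mem_antidiagonal] at hp
    have h2 : p.1 none + p.2 none = 0 := by rw [← Finsupp.add_apply, hp, h]
    rw [r2_sco_coeff, r2_sco_coeff, if_pos (by omega), if_pos (by omega)]
  · symm
    refine Finset.sum_eq_zero fun p hp => ?_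
    rw [Finset.HasAntidiagonal.mem_antidiagonal] at hp
    have h2 : p.1 none + p.2 none ≠ 0 := by rw [← Finsupp.add_apply, hp]; exact h
    rw [r2_sco_coeff, r2_sco_coeff]
    by_cases h1 : p.1 none = 0
    · rw [if_neg (by omega : ¬ p.2 none = 0), mul_zero]
    · rw [if_neg h1, zero_mul]

private lemma r2_sco_mem (f : (formal d).alg) : sco 0 (f : Ser d) ∈ CvS d := by
  refine ⟨Pool.Fml.Tame.mono f.2 fun m => ?_, fun m hm => ?_⟩
  · rw [r2_sco_coeff]
    split_ifs
    · exact le_rfl
    · rw [norm_zero]; exact norm_nonneg _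
  · rw [r2_sco_coeff, if_neg hm]

/-- the part free of `s` -/
private noncomputable def r2_sig : (formal d).alg →+* CvS d where
  toFun := fun f => ⟨sco 0 (f : Ser d), r2_sco_mem f⟩
  map_one' := Subtype.ext r2_sco_one
  map_mul' := fun f g => Subtype.ext (r2_sco_mul (f : Ser d) (g : Ser d))
  map_zero' := Subtype.ext (sco_zero 0)
  map_add' := fun f g => Subtype.ext (sco_add 0 (f : Ser d) (g : Ser d))

private lemma r2_split (f : (formal d).alg) :
    ∃ g, f = cvi d (r2_sig f) + (formal d).var none * g := by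
  classical
  let h : Ser d := fun m => MvPowerSeries.coeff (m + Finsupp.single none 1) (f : Ser d)
  have h1 : (MvPowerSeries.X none : Ser d) * h = (f : Ser d) - sco 0 (f : Ser d) := by
    refine MvPowerSeries.ext fun m => ?_
    have h2 := coeff_sS_mul h m
    rw [sS] at h2
    rw [h2, map_sub, r2_sco_coeff]
    split_ifs with h3
    · rw [sub_self]
    · rw [sub_zero]
      change MvPowerSeries.coeff (m - Finsupp.single none 1 + Finsupp.single none 1) (f : Ser d) = _
      rw [tsub_add_cancel_of_le]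
      intro i
      rcases eq_or_ne i none with hi | hi
      · subst hi
        rw [Finsupp.single_eq_same]; omega
      · rw [Finsupp.single_eq_of_ne hi]; exact Nat.zero_le _
  have h2 : h ∈ (formal d).alg := by
    refine SDiv.div h ?_
    rw [h1]
    exact sub_mem f.2 (r2_sco_mem f).1
  refine ⟨⟨h, h2⟩, Subtype.ext ?_⟩
  change (f : Ser d) = sco 0 (f : Ser d) + MvPowerSeries.X none * h
  rw [h1]
  ring

section r2

variable (M : FLat (formal d))

/-- `s L` -/
private noncomputable def r2_I : Submodule (formal d).alg M.L :=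
  LinearMap.range (LinearMap.lsmul (formal d).alg M.L ((formal d).var none))

private lemma r2_mem (x : M.L) : x ∈ r2_I M ↔ ∃ v, x = (formal d).var none • v := by
  rw [r2_I, LinearMap.mem_range]
  constructor
  · rintro ⟨v, hv⟩
    exact ⟨v, hv.symm⟩
  · rintro ⟨v, hv⟩
    exact ⟨v, hv.symm⟩

private lemma r2_kill (q : M.L ⧸ r2_I M) : (formal d).var none • q = 0 := by
  obtain ⟨x, rfl⟩ := Submodule.Quotient.mk_surjective _ q
  rw [← Submodule.Quotient.mk_smul, Submodule.Quotient.mk_eq_zero, r2_mem]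
  exact ⟨x, rfl⟩

private noncomputable def r2_T : Module.End (formal d).alg (M.L ⧸ r2_I M) :=
  (r2_I M).liftQ
    { toFun := fun u => Submodule.Quotient.mk (M.T u)
      map_add' := fun u v => by rw [map_add, Submodule.Quotient.mk_add]
      map_smul' := fun f u => by
        rw [M.T_smul, Submodule.Quotient.mk_add, Submodule.Quotient.mk_smul, RingHom.id_apply,
          pow_two, mul_assoc, mul_smul, Submodule.Quotient.mk_smul, r2_kill, add_zero] }
    (by
      intro x hx
      rw [r2_mem] at hx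
      obtain ⟨v, rfl⟩ := hx
      rw [LinearMap.mem_ker]
      change Submodule.Quotient.mk (M.T ((formal d).var none • v)) = (0 : M.L ⧸ r2_I M)
      rw [M.T_smul, Submodule.Quotient.mk_add, Submodule.Quotient.mk_smul, r2_kill, zero_add,
        pow_two, mul_assoc, mul_smul, Submodule.Quotient.mk_smul, r2_kill])

private lemma r2_T_mk (u : M.L) :
    r2_T M (Submodule.Quotient.mk u) = Submodule.Quotient.mk (M.T u) := rfl

private lemma r2_T_pow (n : ℕ) (u : M.L) :
    (r2_T M ^ n) (Submodule.Quotient.mk u) = Submodule.Quotient.mk ((M.T ^ n) u) := by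
  induction n generalizing u with
  | zero => rfl
  | succ n ih =>
    rw [pow_succ, pow_succ]
    change (r2_T M ^ n) (r2_T M (Submodule.Quotient.mk u)) =
      Submodule.Quotient.mk ((M.T ^ n) (M.T u))
    rw [r2_T_mk, ih]

private lemma r2_evT (p : (formal d).alg[X]) (u : M.L) :
    (aeval (r2_T M) p) (Submodule.Quotient.mk u) = Submodule.Quotient.mk (M.evT p u) := by
  rw [Polynomial.aeval_eq_sum_range, LinearMap.sum_apply]
  have h1 : M.evT p u = ∑ n ∈ Finset.range (p.natDegree + 1), p.coeff n • (M.T ^ n) u := by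
    rw [FLat.evT]
    have h2 : ∀ s : Finset ℕ, (∑ n ∈ s, M.mul (p.coeff n) * M.T ^ n : AddMonoid.End M.L) u =
        ∑ n ∈ s, p.coeff n • (M.T ^ n) u := by
      classical
      intro s
      induction s using Finset.induction_on with
      | empty => rfl
      | insert a s ha ih =>
        rw [Finset.sum_insert ha, Finset.sum_insert ha, ← ih]
        rfl
    exact h2 _
  rw [h1]
  have h3 : ∀ s : Finset ℕ, (Submodule.Quotient.mk (∑ n ∈ s, p.coeff n • (M.T ^ n) u) :
      M.L ⧸ r2_I M) = ∑ n ∈ s, p.coeff n • (r2_T M ^ n) (Submodule.Quotient.mk u) := by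
    intro s
    have h4 := map_sum (r2_I M).mkQ (fun n => p.coeff n • (M.T ^ n) u) s
    refine h4.trans (Finset.sum_congr rfl fun n _ => ?_)
    rw [map_smul, r2_T_pow]
    rfl
  rw [h3]
  rfl

private lemma r2_tau (p : (formal d).alg[X]) :
    aeval (r2_T M) (p.map ((cvi d).comp r2_sig)) = aeval (r2_T M) p := by
  induction p using Polynomial.induction_on' with
  | add p q hp hq => rw [Polynomial.map_add, map_add, map_add, hp, hq]
  | monomial n a =>
    rw [Polynomial.map_monomial, aeval_monomial, aeval_monomial]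
    congr 1
    refine LinearMap.ext fun x => ?_
    rw [Module.algebraMap_end_apply, Module.algebraMap_end_apply]
    obtain ⟨g, hg⟩ := r2_split a
    conv_rhs => rw [hg]
    rw [add_smul, mul_smul, r2_kill, add_zero]
    rfl

end r2

theorem FLat.exists_q (M : FLat (formal d)) :
    ∃ (q α β : (CvS d)[X]) (Δ : CvS d), Δ ≠ 0 ∧ α * q + β * derivative q = C Δ ∧
      M.Vanishes (M.evT (q.map (cvi d))) := by
  obtain ⟨p, hp, hp0⟩ := LinearMap.exists_monic_and_aeval_eq_zero (formal d).alg (r2_T M)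
  obtain ⟨q, α, β, Δ, N, hΔ, hq, c, hc⟩ := exists_q_poly (p.map r2_sig) (hp.map _)
  refine ⟨q, α, β, Δ, hΔ, hq, N, fun u => ?_⟩
  have h1 : (aeval (r2_T M) (q.map (cvi d))) ^ N = 0 := by
    rw [← map_pow, ← Polynomial.map_pow, hc, Polynomial.map_mul, map_mul, Polynomial.map_map,
      r2_tau, hp0, zero_mul]
  have h2 : ∀ (n : ℕ) (u : M.L), ((aeval (r2_T M) (q.map (cvi d))) ^ n)
      (Submodule.Quotient.mk u) = Submodule.Quotient.mk ((M.evT (q.map (cvi d)) ^ n) u) := by
    intro n
    induction n with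
    | zero => intro u; rfl
    | succ n ih =>
      intro u
      rw [pow_succ, pow_succ]
      change ((aeval (r2_T M) (q.map (cvi d))) ^ n)
        ((aeval (r2_T M) (q.map (cvi d))) (Submodule.Quotient.mk u)) =
        Submodule.Quotient.mk ((M.evT (q.map (cvi d)) ^ n) (M.evT (q.map (cvi d)) u))
      rw [r2_evT, ih]
  have h3 := h2 N u
  rw [h1] at h3
  have h4 : (Submodule.Quotient.mk ((M.evT (q.map (cvi d)) ^ N) u) : M.L ⧸ r2_I M) = 0 :=
    h3.symm
  rw [Submodule.Quotient.mk_eq_zero, r2_mem] at h4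
  exact h4

private lemma r3_comm {A R : Type} [CommRing A] [Ring R] [Algebra A R]
    (P V C : R) (h : P * V - V * P = C) (hc : P * C = C * P) (g : A[X]) :
    aeval P g * V - V * aeval P g = aeval P (derivative g) * C := by
  have hpow : ∀ n : ℕ, P ^ n * V - V * P ^ n = (n : R) * P ^ (n - 1) * C := by
    intro n
    induction n with
    | zero => simp
    | succ n ih =>
      have e1 : P ^ (n + 1) * V - V * P ^ (n + 1)
          = P ^ n * (P * V - V * P) + (P ^ n * V - V * P ^ n) * P := by
        rw [pow_succ]; noncomm_ring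
      rw [e1, h, ih]
      rcases n with _ | n
      · simp
      · have e2 : P ^ (n + 1 - 1) * C * P = P ^ (n + 1) * C := by
          rw [Nat.add_sub_cancel, mul_assoc, ← hc, ← mul_assoc, pow_succ]
        rw [mul_assoc, mul_assoc, ← mul_assoc (P ^ (n + 1 - 1)), e2, Nat.add_sub_cancel]
        push_cast
        noncomm_ring
  induction g using Polynomial.induction_on' with
  | add p q hp hq =>
    rw [derivative_add, map_add, map_add, add_mul, mul_add, add_mul, ← hp, ← hq]
    abel
  | monomial n a =>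
    rw [derivative_monomial, aeval_monomial, aeval_monomial]
    have e3 : (algebraMap A R a) * P ^ n * V - V * ((algebraMap A R a) * P ^ n)
        = algebraMap A R a * (P ^ n * V - V * P ^ n) := by
      rw [← mul_assoc V, ← Algebra.commutes a V]
      noncomm_ring
    rw [e3, hpow, map_mul, map_natCast]
    noncomm_ring

theorem jacobson_end {A R : Type} [CommRing A] [Algebra ℂ A] [Ring R] [Algebra A R]
    (P V C : R) (h : P * V - V * P = C) (hc : P * C = C * P) (f : A[X]) (hf : f.Monic)
    (h0 : aeval P f = 0) : IsNilpotent C := by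
  have hcom : ∀ g : A[X], Commute (aeval P g) C := by
    intro g
    induction g using Polynomial.induction_on' with
    | add p q hp hq => rw [map_add]; exact hp.add_left hq
    | monomial n a =>
      rw [aeval_monomial]
      have e4 : Commute (algebraMap A R a) C := Algebra.commutes a C
      exact e4.mul_left (Commute.pow_left hc n)
  have key : ∀ k : ℕ, ∃ m : ℕ, aeval P (derivative^[k] f) * C ^ m = 0 := by
    intro k
    induction k with
    | zero => exact ⟨0, by simpa using h0⟩
    | succ k ih =>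
      obtain ⟨m, hm⟩ := ih
      set g := derivative^[k] f with hg
      have h1 : aeval P g * C ^ m * V - V * (aeval P g * C ^ m) = 0 := by rw [hm]; simp
      have h2 : aeval P (derivative g) * C * C ^ m + aeval P g * (C ^ m * V - V * C ^ m) = 0 := by
        rw [← r3_comm P V C h hc g, ← h1]
        noncomm_ring
      refine ⟨m + (m + 1), ?_⟩
      have h3 : C ^ m * aeval P g = 0 := by
        rw [← ((hcom g).pow_right m).eq, hm]
      have h4 := congrArg (fun x => C ^ m * x) h2
      simp only [mul_add, mul_zero] at h4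
      rw [← mul_assoc (C ^ m) (aeval P g), h3, zero_mul, add_zero] at h4
      rw [Function.iterate_succ_apply', ← hg]
      have h5 : C ^ m * (aeval P (derivative g) * C * C ^ m)
          = aeval P (derivative g) * C ^ (m + (m + 1)) := by
        rw [mul_assoc, ← pow_succ', ← mul_assoc, ← ((hcom (derivative g)).pow_right m).eq,
          mul_assoc, ← pow_add]
      rw [← h5, h4]
  obtain ⟨m, hm⟩ := key f.natDegree
  have h6 : derivative^[f.natDegree] f = Polynomial.C ((f.natDegree.factorial : ℂ) • (1 : A)) := by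
    ext n
    rw [coeff_iterate_derivative, coeff_C]
    split_ifs with hn
    · rw [hn, zero_add, hf.coeff_natDegree, Nat.descFactorial_self, Nat.cast_smul_eq_nsmul]
    · rw [coeff_eq_zero_of_natDegree_lt (by omega), smul_zero]
  rw [h6, aeval_C, Algebra.smul_def, mul_one] at hm
  refine ⟨m, ?_⟩
  have h7 : (algebraMap A R (algebraMap ℂ A (f.natDegree.factorial : ℂ)⁻¹)) *
      (algebraMap A R (algebraMap ℂ A (f.natDegree.factorial : ℂ))) = 1 := by
    rw [← map_mul, ← map_mul, inv_mul_cancel₀ (by exact_mod_cast Nat.factorial_ne_zero _), map_one,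
      map_one]
  rw [← one_mul (C ^ m), ← h7, mul_assoc, hm, mul_zero]

end r1

-- paste in place of the stub of FLat.kills in NGd.lean (after jacobson_end; the block r4aux has its own variable S; place it before or inside section r1)
section r4aux

variable {S : SymRing d} (M : FLat S)

private def r4_Mod (k : ℕ) (F : AddMonoid.End M.L) : Prop := ∀ u, ∃ v, F u = S.var none ^ k • v

private def r4_Good (F : AddMonoid.End M.L) : Prop :=
  ∀ (k : ℕ) (u : M.L), ∃ v, F (S.var none ^ k • u) = S.var none ^ k • v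

private def r4_Lin2 (F : AddMonoid.End M.L) : Prop :=
  ∀ (f : S.alg) (u : M.L), ∃ v, F (f • u) = f • F u + S.var none ^ 2 • v

variable {M}

private lemma r4_mul_apply (f : S.alg) (u : M.L) : M.mul f u = f • u := rfl

private lemma r4_Mod.add {k : ℕ} {F G : AddMonoid.End M.L} (h : r4_Mod M k F) (h' : r4_Mod M k G) :
    r4_Mod M k (F + G) := fun u => by
  obtain ⟨v, hv⟩ := h u
  obtain ⟨v', hv'⟩ := h' u
  exact ⟨v + v', by change F u + G u = _; rw [hv, hv', smul_add]⟩

private lemma r4_Mod.neg {k : ℕ} {F : AddMonoid.End M.L} (h : r4_Mod M k F) :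
    r4_Mod M k (-F) := fun u => by
  obtain ⟨v, hv⟩ := h u
  exact ⟨-v, by change -(F u) = _; rw [hv, smul_neg]⟩

private lemma r4_Mod.sub {k : ℕ} {F G : AddMonoid.End M.L} (h : r4_Mod M k F) (h' : r4_Mod M k G) :
    r4_Mod M k (F - G) := by
  rw [sub_eq_add_neg]; exact h.add h'.neg

private lemma r4_Mod.right {k : ℕ} {F : AddMonoid.End M.L} (h : r4_Mod M k F)
    (G : AddMonoid.End M.L) : r4_Mod M k (F * G) := fun u => h (G u)

private lemma r4_Mod.left {k : ℕ} {F : AddMonoid.End M.L} (h : r4_Mod M k F)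
    {G : AddMonoid.End M.L} (hG : r4_Good M G) : r4_Mod M k (G * F) := fun u => by
  obtain ⟨v, hv⟩ := h u
  obtain ⟨v', hv'⟩ := hG k v
  exact ⟨v', by change G (F u) = _; rw [hv, hv']⟩

private lemma r4_Mod.zero {k : ℕ} : r4_Mod M k 0 := fun u => ⟨0, by rw [smul_zero]; rfl⟩

private lemma r4_Mod.sum {k : ℕ} {κ : Type} (s : Finset κ) {F : κ → AddMonoid.End M.L}
    (h : ∀ i ∈ s, r4_Mod M k (F i)) : r4_Mod M k (∑ i ∈ s, F i) := by
  classical
  induction s using Finset.induction_on with
  | empty => rw [Finset.sum_empty]; exact r4_Mod.zero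
  | insert i s hi ih =>
    rw [Finset.sum_insert hi]
    exact (h i (Finset.mem_insert_self _ _)).add (ih fun j hj => h j (Finset.mem_insert_of_mem hj))

private lemma r4_Good.mul' {F G : AddMonoid.End M.L} (h : r4_Good M F) (h' : r4_Good M G) :
    r4_Good M (F * G) := fun k u => by
  obtain ⟨v, hv⟩ := h' k u
  obtain ⟨v', hv'⟩ := h k v
  exact ⟨v', by change F (G _) = _; rw [hv, hv']⟩

private lemma r4_good_mul (f : S.alg) : r4_Good M (M.mul f) := fun k u =>
  ⟨f • u, by rw [r4_mul_apply, smul_comm]⟩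

private lemma r4_good_T : r4_Good M M.T := fun k u => by
  have h : S.pd none (S.var none ^ k) = (k : S.alg) * S.var none ^ (k - 1) := by
    refine S.ext' ?_
    rw [S.coe_pd]
    push_cast
    rw [S.coe_var, Derivation.leibniz_pow, MvPowerSeries.pderiv_X_self]
    simp [nsmul_eq_mul]
  rcases k with _ | k
  · exact ⟨M.T u, by rw [pow_zero, one_smul, one_smul]⟩
  · refine ⟨M.T u + ((k + 1 : ℕ) : S.alg) • S.var none • u, ?_⟩
    rw [M.T_smul, h, Nat.add_sub_cancel, smul_add, smul_smul, smul_smul]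
    congr 2
    ring

private lemma r4_good_P (i : Fin d) : r4_Good M (M.P i) := fun k u => by
  have h : S.pd (some i) (S.var none ^ k) = 0 := by
    refine S.ext' ?_
    rw [S.coe_pd]
    push_cast
    rw [S.coe_var, Derivation.leibniz_pow, MvPowerSeries.pderiv_X_of_ne (by simp)]
    simp
  exact ⟨M.P i u, by rw [M.P_smul, h, mul_zero, zero_smul, add_zero]⟩

private lemma r4_Good.pow {F : AddMonoid.End M.L} (h : r4_Good M F) (n : ℕ) :
    r4_Good M (F ^ n) := by
  induction n with
  | zero => exact fun k u => ⟨u, rfl⟩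
  | succ n ih => rw [pow_succ]; exact ih.mul' h

private lemma r4_PT (i : Fin d) : M.P i * M.T = M.T * M.P i - M.mul (S.var none) * M.P i := by
  ext u
  have h := M.P_T i u
  change M.P i (M.T u) = M.T (M.P i u) - S.var none • M.P i u
  rw [sub_eq_iff_eq_add] at h
  rw [h]; abel

private lemma r4_Pmul (i : Fin d) (c : S.alg) :
    M.P i * M.mul c = M.mul c * M.P i + M.mul (S.var none) * M.mul (S.pd (some i) c) := by
  ext u
  change M.P i (c • u) = c • M.P i u + S.var none • S.pd (some i) c • u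
  rw [M.P_smul, smul_smul]

private lemma r4_Ts (n : ℕ) :
    r4_Mod M 2 (M.T ^ n * M.mul (S.var none) - M.mul (S.var none) * M.T ^ n) := by
  induction n with
  | zero => rw [pow_zero, one_mul, mul_one, sub_self]; exact r4_Mod.zero
  | succ n ih =>
    have e : M.T ^ (n + 1) * M.mul (S.var none) - M.mul (S.var none) * M.T ^ (n + 1)
        = M.T * (M.T ^ n * M.mul (S.var none) - M.mul (S.var none) * M.T ^ n)
          + (M.T * M.mul (S.var none) - M.mul (S.var none) * M.T) * M.T ^ n := by
      rw [pow_succ']; noncomm_ring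
    rw [e]
    refine (ih.left r4_good_T).add (r4_Mod.right ?_ _)
    intro u
    refine ⟨u, ?_⟩
    change M.T (S.var none • u) - S.var none • M.T u = _
    rw [M.T_smul, S.pd_var_self, mul_one, add_sub_cancel_left]

/-- `[P_i, T^n] ≡ - n s T^(n-1) P_i` modulo `s²` -/
private lemma r4_PTn (i : Fin d) (n : ℕ) :
    r4_Mod M 2 (M.P i * M.T ^ n - M.T ^ n * M.P i
      + (n : AddMonoid.End M.L) * (M.mul (S.var none) * (M.T ^ (n - 1) * M.P i))) := by
  induction n with
  | zero => simp only [pow_zero, mul_one, one_mul, sub_self, Nat.cast_zero, zero_mul, add_zero]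
            exact r4_Mod.zero
  | succ n ih =>
    have e : M.P i * M.T ^ (n + 1) - M.T ^ (n + 1) * M.P i
        + ((n + 1 : ℕ) : AddMonoid.End M.L) * (M.mul (S.var none) * (M.T ^ (n + 1 - 1) * M.P i))
        = (M.P i * M.T ^ n - M.T ^ n * M.P i
            + (n : AddMonoid.End M.L) * (M.mul (S.var none) * (M.T ^ (n - 1) * M.P i))) * M.T
          + (n : AddMonoid.End M.L) * (M.mul (S.var none) * (M.T ^ (n - 1)
              * (M.mul (S.var none) * M.P i)))
          - (M.T ^ n * M.mul (S.var none) - M.mul (S.var none) * M.T ^ n) * M.P i := by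
      rcases n with _ | n
      · simp only [pow_zero, mul_one, one_mul, sub_self, Nat.cast_zero, zero_mul, add_zero,
          zero_add, pow_one, Nat.cast_one, Nat.sub_self]
        rw [r4_PT]
        noncomm_ring
      · rw [Nat.add_sub_cancel, Nat.add_sub_cancel, add_mul,
          show (M.P i * M.T ^ (n + 1) - M.T ^ (n + 1) * M.P i) * M.T
            = M.P i * M.T ^ (n + 1) * M.T - M.T ^ (n + 1) * (M.P i * M.T) by noncomm_ring,
          show ((n + 1 : ℕ) : AddMonoid.End M.L) * (M.mul (S.var none) * (M.T ^ n * M.P i)) * M.T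
            = ((n + 1 : ℕ) : AddMonoid.End M.L) * (M.mul (S.var none) * (M.T ^ n * (M.P i * M.T)))
              by noncomm_ring, r4_PT, pow_succ M.T (n + 1), pow_succ M.T n]
        push_cast
        noncomm_ring
    rw [e]
    refine ((ih.right _).add ?_).sub ((r4_Ts n).right _)
    intro u
    obtain ⟨v, hv⟩ := (r4_good_T (M := M)).pow (n - 1) 1 (M.P i u)
    refine ⟨(n : ℕ) • v, ?_⟩
    change ((n : ℕ) : AddMonoid.End M.L) (S.var none • (M.T ^ (n - 1)) (S.var none • M.P i u)) = _
    rw [pow_one] at hv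
    rw [hv, AddMonoid.End.natCast_apply, smul_comm (n : ℕ), smul_comm (n : ℕ), smul_smul, ← pow_two,
      smul_comm]

private lemma r4_evT_eq (p : S.alg[X]) {N : ℕ} (hN : p.natDegree < N) :
    M.evT p = ∑ n ∈ Finset.range N, M.mul (p.coeff n) * M.T ^ n := by
  unfold FLat.evT
  refine Finset.sum_subset (fun n hn => ?_) fun n _ hn => ?_
  · rw [Finset.mem_range] at hn ⊢; omega
  · rw [Finset.mem_range, not_lt] at hn
    rw [coeff_eq_zero_of_natDegree_lt (by omega)]
    ext u
    change (0 : S.alg) • (M.T ^ n) u = 0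
    rw [zero_smul]

private lemma r4_pd_zero (i : Option (Fin d)) : S.pd i (0 : S.alg) = 0 := by
  refine S.ext' ?_
  rw [S.coe_pd]
  exact map_zero _

/-- `[P_i, p(T)] ≡ s (p_x(T) - p_t(T) P_i)` modulo `s²` -/
private lemma r4_comm (i : Fin d) (p : S.alg[X]) :
    r4_Mod M 2 (M.P i * M.evT p - M.evT p * M.P i
      - M.mul (S.var none) * (M.evD i p - M.evT (derivative p) * M.P i)) := by
  set N := p.natDegree with hN
  have h1 := r4_evT_eq (M := M) p (N := N + 1) (by omega)
  have h2 : M.evD i p = ∑ n ∈ Finset.range (N + 1), M.mul (S.pd (some i) (p.coeff n)) * M.T ^ n :=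
    rfl
  have h3 := r4_evT_eq (M := M) (derivative p) (N := N + 1)
    (by have := natDegree_derivative_le p; omega)
  have h4 : ∑ n ∈ Finset.range (N + 1), M.mul ((derivative p).coeff n) * M.T ^ n
      = ∑ n ∈ Finset.range (N + 1), (n : AddMonoid.End M.L) * (M.mul (p.coeff n) * M.T ^ (n - 1)) := by
    rw [Finset.sum_range_succ, Finset.sum_range_succ' _ N]
    have e1 : (derivative p).coeff N = 0 := by
      rw [coeff_derivative, coeff_eq_zero_of_natDegree_lt (by omega), zero_mul]
    rw [e1]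
    have e2 : M.mul (0 : S.alg) * M.T ^ N = 0 := by
      ext u
      change (0 : S.alg) • (M.T ^ N) u = 0
      rw [zero_smul]
    rw [e2, add_zero, Nat.cast_zero, zero_mul, add_zero]
    refine Finset.sum_congr rfl fun n _ => ?_
    rw [coeff_derivative, Nat.add_sub_cancel]
    ext u
    change (p.coeff (n + 1) * ((n : S.alg) + 1)) • (M.T ^ n) u
      = ((n + 1 : ℕ) : AddMonoid.End M.L) (p.coeff (n + 1) • (M.T ^ n) u)
    rw [AddMonoid.End.natCast_apply, ← Nat.cast_smul_eq_nsmul S.alg, smul_smul]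
    congr 1
    push_cast
    ring
  have e : M.P i * M.evT p - M.evT p * M.P i
      - M.mul (S.var none) * (M.evD i p - M.evT (derivative p) * M.P i)
      = ∑ n ∈ Finset.range (N + 1), M.mul (p.coeff n) *
        (M.P i * M.T ^ n - M.T ^ n * M.P i
          + (n : AddMonoid.End M.L) * (M.mul (S.var none) * (M.T ^ (n - 1) * M.P i))) := by
    rw [h1, h2, h3, h4, mul_sub, Finset.mul_sum, Finset.sum_mul, Finset.mul_sum, Finset.sum_mul,
      Finset.mul_sum, ← Finset.sum_sub_distrib, ← Finset.sum_sub_distrib,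
      ← Finset.sum_sub_distrib]
    refine Finset.sum_congr rfl fun n _ => ?_
    rw [← mul_assoc (M.P i), r4_Pmul]
    have c1 : M.mul (p.coeff n) * M.mul (S.var none) = M.mul (S.var none) * M.mul (p.coeff n) := by
      ext u
      change p.coeff n • S.var none • u = S.var none • p.coeff n • u
      rw [smul_comm]
    have c2 : M.mul (p.coeff n) * ((n : AddMonoid.End M.L)
          * (M.mul (S.var none) * (M.T ^ (n - 1) * M.P i)))
        = (n : AddMonoid.End M.L) * (M.mul (S.var none) * (M.mul (p.coeff n)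
          * (M.T ^ (n - 1) * M.P i))) := by
      rw [← mul_assoc, ← (Nat.cast_commute n (M.mul (p.coeff n))).eq, mul_assoc,
        ← mul_assoc (M.mul (p.coeff n)), c1, mul_assoc]
    have c3 : M.mul (S.var none) * ((n : AddMonoid.End M.L) * (M.mul (p.coeff n) * M.T ^ (n - 1))
          * M.P i)
        = (n : AddMonoid.End M.L) * (M.mul (S.var none) * (M.mul (p.coeff n)
          * (M.T ^ (n - 1) * M.P i))) := by
      rw [mul_assoc, ← mul_assoc (M.mul (S.var none)), ← (Nat.cast_commute n _).eq, mul_assoc,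
        mul_assoc (M.mul (p.coeff n))]
    rw [mul_add, c2, c3]
    noncomm_ring
  rw [e]
  exact r4_Mod.sum _ fun n _ => (r4_PTn i n).left (r4_good_mul _)

private lemma r4_sum_apply (s : Finset ℕ) (F : ℕ → AddMonoid.End M.L) (v : M.L) :
    (∑ n ∈ s, F n) v = ∑ n ∈ s, F n v := by
  classical
  induction s using Finset.induction_on with
  | empty => rfl
  | insert i s hi ih =>
    rw [Finset.sum_insert hi, Finset.sum_insert hi, ← ih]
    rfl

/-- `F (f u) = f F u` modulo `s²` -/
private lemma r4_lin2 (p : S.alg[X]) : r4_Lin2 M (M.evT p) := by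
  have hT : ∀ n : ℕ, r4_Lin2 M (M.T ^ n) := by
    intro n
    induction n with
    | zero => exact fun f u => ⟨0, by rw [pow_zero, smul_zero, add_zero]; rfl⟩
    | succ n ih =>
      intro f u
      obtain ⟨v, hv⟩ := ih f u
      obtain ⟨w, hw⟩ := r4_good_T (M := M) 2 v
      refine ⟨S.pd none f • (M.T ^ n) u + w, ?_⟩
      rw [pow_succ']
      change M.T ((M.T ^ n) (f • u)) = f • M.T ((M.T ^ n) u) + _
      rw [hv, map_add, M.T_smul, hw, smul_add, smul_smul, add_assoc]
  intro f u
  choose w hw using fun n => hT n f u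
  refine ⟨∑ n ∈ Finset.range (p.natDegree + 1), p.coeff n • w n, ?_⟩
  have e : ∀ v, M.evT p v = ∑ n ∈ Finset.range (p.natDegree + 1), p.coeff n • (M.T ^ n) v := by
    intro v
    unfold FLat.evT
    rw [r4_sum_apply]; rfl
  rw [e, e, Finset.smul_sum, Finset.smul_sum, ← Finset.sum_add_distrib]
  refine Finset.sum_congr rfl fun n _ => ?_
  rw [hw, smul_add, smul_comm (p.coeff n) f, smul_comm (p.coeff n)]


private lemma r4_cancel {u v : M.L} (h : S.var none • u = S.var none • v) : u = v := by
  rw [← sub_eq_zero]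
  refine M.sinj _ ?_
  rw [smul_sub, h, sub_self]

private def r4_Lin (M : FLat S) (F : AddMonoid.End M.L) : Prop :=
  ∀ (f : S.alg) (u : M.L), ∃ v, F (f • u) = f • F u + S.var none • v

private noncomputable def r4_N (M : FLat S) : Submodule S.alg M.L :=
  LinearMap.range (LinearMap.lsmul S.alg M.L (S.var none))

private lemma r4_mem {u : M.L} : u ∈ r4_N M ↔ ∃ v, u = S.var none • v := by
  unfold r4_N
  rw [LinearMap.mem_range]
  exact ⟨fun ⟨v, hv⟩ => ⟨v, hv.symm⟩, fun ⟨v, hv⟩ => ⟨v, hv.symm⟩⟩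

private noncomputable def r4_bar (F : AddMonoid.End M.L) (h : r4_Lin M F) :
    Module.End S.alg (M.L ⧸ r4_N M) :=
  (r4_N M).liftQ
    { toFun := fun u => Submodule.Quotient.mk (F u)
      map_add' := fun u v => by rw [map_add, Submodule.Quotient.mk_add]
      map_smul' := fun f u => by
        obtain ⟨v, hv⟩ := h f u
        rw [hv, Submodule.Quotient.mk_add, Submodule.Quotient.mk_smul, RingHom.id_apply,
          (Submodule.Quotient.mk_eq_zero _).2 (r4_mem.2 ⟨v, rfl⟩), add_zero] }
    (fun u hu => by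
      obtain ⟨v, rfl⟩ := r4_mem.1 hu
      rw [LinearMap.mem_ker]
      change Submodule.Quotient.mk (F (S.var none • v)) = _
      obtain ⟨w, hw⟩ := h (S.var none) v
      rw [hw, ← smul_add]
      exact (Submodule.Quotient.mk_eq_zero _).2 (r4_mem.2 ⟨_, rfl⟩))

private lemma r4_bar_mk (F : AddMonoid.End M.L) (h : r4_Lin M F) (u : M.L) :
    r4_bar F h (Submodule.Quotient.mk u) = Submodule.Quotient.mk (F u) := rfl

private lemma r4_bar_pow (F : AddMonoid.End M.L) (h : r4_Lin M F) (n : ℕ) (u : M.L) :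
    (r4_bar F h ^ n) (Submodule.Quotient.mk u) = Submodule.Quotient.mk ((F ^ n) u) := by
  induction n generalizing u with
  | zero => rfl
  | succ n ih =>
    rw [pow_succ, pow_succ]
    change (r4_bar F h ^ n) (r4_bar F h (Submodule.Quotient.mk u)) = _
    rw [r4_bar_mk, ih]
    rfl

end r4aux

/-- MODULE r4. See the stub. -/
theorem FLat.kills (M : FLat (formal d)) (hM : M.Regular) (q : (CvS d)[X])
    (hv : M.Vanishes (M.evT (q.map (cvi d)))) :
    M.Kills (M.evT (q.map (cvi d))) ∧
      ∀ i, M.Kills (M.evD i (q.map (cvi d)) - M.evT (derivative (q.map (cvi d))) * M.P i) := by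
  have hP : ∀ i, M.P i ∈ M.ops := fun i => Subring.subset_closure (Or.inr (Or.inr ⟨i, rfl⟩))
  set p := q.map (cvi d) with hp
  have hkill : M.Kills (M.evT p) := hM _ (M.evT_mem p) hv
  refine ⟨hkill, fun i => ?_⟩
  set E : AddMonoid.End M.L := M.evD i p - M.evT (derivative p) * M.P i with hE
  have hEm : E ∈ M.ops := sub_mem (M.evD_mem i p) (mul_mem (M.evT_mem _) (hP i))
  refine hM E hEm ?_
  choose V₀ hV₀ using hkill
  set V : AddMonoid.End M.L :=
    { toFun := V₀
      map_zero' := r4_cancel (by rw [← hV₀, map_zero, smul_zero])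
      map_add' := fun u v => r4_cancel (by rw [← hV₀, map_add, smul_add, ← hV₀, ← hV₀]) }
    with hVdef
  have hV : ∀ u, M.evT p u = (formal d).var none • V u := hV₀
  have lV : r4_Lin M V := by
    intro f u
    obtain ⟨w, hw⟩ := r4_lin2 (M := M) p f u
    refine ⟨w, r4_cancel ?_⟩
    rw [← hV, hw, hV, smul_add, smul_comm f, pow_two, mul_smul]
  have lP : r4_Lin M (M.P i) := fun f u => M.ops_lin (hP i) f u
  have lE : r4_Lin M E := fun f u => M.ops_lin hEm f u
  have hPV : r4_bar (M.P i) lP * r4_bar V lV - r4_bar V lV * r4_bar (M.P i) lP = r4_bar E lE := by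
    refine LinearMap.ext fun x => ?_
    obtain ⟨u, rfl⟩ := Submodule.Quotient.mk_surjective _ x
    change r4_bar (M.P i) lP (r4_bar V lV (Submodule.Quotient.mk u)) -
      r4_bar V lV (r4_bar (M.P i) lP (Submodule.Quotient.mk u)) = _
    rw [r4_bar_mk, r4_bar_mk, r4_bar_mk, r4_bar_mk, r4_bar_mk, ← Submodule.Quotient.mk_sub,
      Submodule.Quotient.eq, r4_mem]
    obtain ⟨w, hw⟩ := r4_comm (M := M) i p u
    refine ⟨w, r4_cancel ?_⟩
    have h1 : M.P i (M.evT p u) - M.evT p (M.P i u) - (formal d).var none • E u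
        = (formal d).var none ^ 2 • w := hw
    rw [hV, hV, M.P_smul, (formal d).pd_var_ne (by simp), mul_zero, zero_smul, add_zero] at h1
    rw [smul_sub, smul_sub, smul_smul, ← pow_two, ← h1]
  have hc : r4_bar (M.P i) lP * r4_bar E lE = r4_bar E lE * r4_bar (M.P i) lP := by
    refine LinearMap.ext fun x => ?_
    obtain ⟨u, rfl⟩ := Submodule.Quotient.mk_surjective _ x
    change r4_bar (M.P i) lP (r4_bar E lE (Submodule.Quotient.mk u)) =
      r4_bar E lE (r4_bar (M.P i) lP (Submodule.Quotient.mk u))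
    rw [r4_bar_mk, r4_bar_mk, r4_bar_mk, r4_bar_mk, Submodule.Quotient.eq, r4_mem]
    exact M.ops_comm (hP i) hEm u
  obtain ⟨f, hf, hf0⟩ := LinearMap.exists_monic_and_aeval_eq_zero (formal d).alg
    (r4_bar (M.P i) lP)
  obtain ⟨n, hn⟩ := jacobson_end _ _ _ hPV hc f hf hf0
  refine ⟨n, fun u => ?_⟩
  have h1 := r4_bar_pow E lE n u
  rw [hn] at h1
  exact r4_mem.1 ((Submodule.Quotient.mk_eq_zero _).1 h1.symm)

end r1

end Pool.Agent.Fbc
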