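import Pool.Agent.Fbc.NGc

/-!
# Lattices which are not free, part e: comparison of the frames on a line
-/

set_option autoImplicit false
set_option linter.unusedVariables false

namespace Pool.Agent.Fbc

open Polynomial
open Finset.HasAntidiagonal (antidiagonal mem_antidiagonal)
open Pool.Fml (Ser SymRing formal micro IsFormal IsMicro cm eulM)

variable {d r : ℕ}

section d

/-- MODULE d3. The second half of the proof of `exists_NF` (NFb.lean): if `B(0, s)` is a polynomial
of degree `≤ k`, the gauge transformation can be taken with `G(0, s) = 1`. -/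
theorem exists_NF_fix {k : ℕ} {A : Fin d → Mx d r} {B : Mx d r} (h : Rel A B)
    (hB : ∀ m, Finsupp.weight (wx d) m = 0 → k < m none → cm m B = 0) :
    ∃ (A' : Fin d → Mx d r) (B' G H : Mx d r), NF k A A' B B' G H ∧ Rel A' B' ∧
      ∀ m, Finsupp.weight (wx d) m = 0 → cm m G = if m = 0 then 1 else 0 := by
  classical
  have hY0 : ∀ m, Finsupp.weight (wx d) m = 0 →
      cm m (∑ i, (MvPowerSeries.X (some i) : Ser d) • A i) = 0 := by
    intro m hm
    rw [map_sum]
    refine Finset.sum_eq_zero fun i _ => ?_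
    ext a b
    rw [Pool.Fml.cm_apply, Matrix.smul_apply, smul_eq_mul, MvPowerSeries.X,
      MvPowerSeries.coeff_monomial_mul, if_neg]
    · rfl
    · intro h1
      have h2 := h1 (some i)
      rw [Finsupp.single_eq_same] at h2
      have h3 : m (some i) * wx d (some i) ≤ Finsupp.weight (wx d) m := by
        rw [Finsupp.weight_eq_sum]
        exact Finset.single_le_sum (f := fun j => m j * wx d j) (fun _ _ => Nat.zero_le _)
          (Finset.mem_univ (some i))
      simp only [wx, Option.elim] at h3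
      rw [hm] at h3
      omega
  obtain ⟨G2, AE, hG2, hAE0, hAEs, heq⟩ := birkhoff _ hY0
  obtain ⟨H2, hGH2⟩ := exists_inv (G := G2) (by rw [hG2 0 (map_zero _), if_pos rfl])
  obtain ⟨A2, B2, g2⟩ := exists_gau A B hGH2
  have r2 := h.gauge g2
  have eul_eq : ∀ U : Mx d r, ∑ j, (MvPowerSeries.X (some j) : Ser d) • U.map (serD (some j))
      = eulM (wx d) U := by
    intro U
    ext1 a b
    rw [Matrix.sum_apply, Pool.Fml.eulM_apply, Pool.Fml.eul_apply, Fintype.sum_option]
    simp only [wx, Option.elim, zero_smul, zero_add, one_smul]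
    rfl
  have hsum : ∑ i, (MvPowerSeries.X (some i) : Ser d) • A2 i = AE := by
    have h1 : G2 * ∑ i, (MvPowerSeries.X (some i) : Ser d) • A2 i = G2 * AE := by
      rw [← heq, Finset.mul_sum]
      have h2 : ∀ i, G2 * ((MvPowerSeries.X (some i) : Ser d) • A2 i) =
          (sS : Ser d) • ((MvPowerSeries.X (some i) : Ser d) • G2.map (serD (some i)))
            + ((MvPowerSeries.X (some i) : Ser d) • A i) * G2 := by
        intro i
        rw [Matrix.mul_smul, ← g2.P i, smul_add, Matrix.smul_mul]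
        congr 1
        exact smul_comm _ _ _
      simp only [h2, Finset.sum_add_distrib]
      rw [← Finset.smul_sum, eul_eq, ← Finset.sum_mul]
    have h3 : H2 * (G2 * ∑ i, (MvPowerSeries.X (some i) : Ser d) • A2 i) = H2 * (G2 * AE) := by
      rw [h1]
    rw [← Matrix.mul_assoc, ← Matrix.mul_assoc, g2.HG, Matrix.one_mul, Matrix.one_mul] at h3
    exact h3
  have hB2 : ∀ m, Finsupp.weight (wx d) m = 0 → k < m none → cm m B2 = 0 := by
    intro m hm hk
    have hU : ∀ m, Finsupp.weight (wx d) m ≤ 0 → cm m (G2 - 1) = 0 := by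
      intro m hm
      rw [map_sub, hG2 m (Nat.le_zero.1 hm), Pool.Fml.cm_one, sub_self]
    have h1 := g2.T
    have h2 : B2 = B + (sS : Ser d) ^ 2 • (G2 - 1).map (serD none) + B * (G2 - 1)
        - (G2 - 1) * B2 := by
      have h3 : (G2 - 1).map (serD none) = G2.map (serD none) := by
        have h4 := map_sub (Der.mat (n := Fin r) (serD (none : Option (Fin d)))) G2 1
        rw [(Der.mat (n := Fin r) (serD (none : Option (Fin d)))).map_one', sub_zero] at h4
        exact h4
      rw [h3, Matrix.mul_sub, Matrix.sub_mul, ← h1]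
      rw [Matrix.mul_one, Matrix.one_mul]
      abel
    have h5 : cm m ((sS : Ser d) ^ 2 • (G2 - 1).map (serD none)) = 0 := by
      rw [pow_two, mul_smul, cm_sS_smul]
      split_ifs with h6
      · rfl
      · rw [cm_sS_smul]
        split_ifs with h7
        · rfl
        · rw [cm_map_serD, hU, smul_zero]
          have h8 : ∀ p q : Option (Fin d) →₀ ℕ, p ≤ q → Finsupp.weight (wx d) p
              ≤ Finsupp.weight (wx d) q := by
            intro p q hpq
            obtain ⟨c, rfl⟩ := exists_add_of_le hpq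
            rw [map_add]; omega
          rw [wx_add_single]
          exact ((h8 _ _ tsub_le_self).trans (h8 _ _ tsub_le_self)).trans (le_of_eq hm)
    rw [h2, map_sub, map_add, map_add, hB m hm hk, h5,
      (Pool.Fml.cm_mul_low (w := wx d) (K := 0) hU B m (le_of_eq hm)).2,
      (Pool.Fml.cm_mul_low (w := wx d) (K := 0) hU B2 m (le_of_eq hm)).1, sub_zero, add_zero,
      add_zero]
  obtain ⟨hfree, hdeg, hc, h0, hj⟩ := nf_of_rel r2 (by rw [hsum]; exact hAEs) hB2
  exact ⟨A2, B2, G2, H2,
    { GH := g2.GH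
      HG := g2.HG
      P := g2.P
      T := g2.T
      free := hfree
      deg := hdeg
      comm0 := hc
      eq0 := h0
      eqj := hj }, r2, hG2⟩


/-- MODULE d5. `H = adj(G) det(H)`, and `det(G)` is a formal symbol with inverse `det(H)`
(`isFormal_inv`). -/
theorem formal_inv_mx {G H : Mx d r} (hG : ∀ l j, IsFormal (G l j)) (h : G * H = 1) :
    ∀ l j, IsFormal (H l j) := by
  classical
  intro l j
  set G' : Matrix (Fin r) (Fin r) (formal d).alg := fun a b => ⟨G a b, hG a b⟩ with hG'
  set φ : (formal d).alg →+* Ser d := ((formal d).alg.val : (formal d).alg →ₐ[ℂ] Ser d).toRingHom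
    with hφ
  have hcoe : φ.mapMatrix G' = G := rfl
  have hform : ∀ x : (formal d).alg, IsFormal (φ x) := fun x => x.2
  have hdetG : IsFormal G.det := by
    have h1 := RingHom.map_det φ G'
    rw [hcoe] at h1
    rw [← h1]
    exact hform _
  have hadj : ∀ a b, IsFormal (G.adjugate a b) := by
    intro a b
    have h1 := RingHom.map_adjugate φ G'
    rw [hcoe] at h1
    rw [← h1]
    exact hform (G'.adjugate a b)
  have hdet : G.det * H.det = 1 := by rw [← Matrix.det_mul, h, Matrix.det_one]
  have hdH : IsFormal H.det := isFormal_inv hdetG hdet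
  have h2 : H = H.det • G.adjugate := by
    have h3 : G.adjugate = G.det • H := by
      calc G.adjugate = G.adjugate * (G * H) := by rw [h, Matrix.mul_one]
        _ = (G.adjugate * G) * H := by rw [Matrix.mul_assoc]
        _ = G.det • H := by rw [Matrix.adjugate_mul, Matrix.smul_mul, Matrix.one_mul]
    rw [h3, smul_smul, mul_comm, hdet, one_smul]
  rw [h2, Matrix.smul_apply, smul_eq_mul]
  exact Pool.Fml.isFormal_mul hdH (hadj l j)


private lemma d1_alg {k R : Type} [CommRing k] [Ring R] [Algebra k R] (D : Der R) (s2 sb sq : k)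
    (hs : s2 = sb * sq) {G H B B' h Bt U Bt' : R} (GH : G * H = 1) (HG : H * G = 1)
    (T : s2 • D G + B * G = G * B') (rT : s2 • D h + B * h = sb • (h * Bt))
    (eU : sq • D U + Bt * U = U * Bt') :
    s2 • D (H * h * U) + B' * (H * h * U) = sb • (H * h * U * Bt') := by
  have e1 : D H = -(H * D G * H) := by
    have h1 : D G * H + G * D H = 0 := by rw [← D.leib, GH, D.map_one']
    have h2 : H * (D G * H + G * D H) = 0 := by rw [h1, mul_zero]
    rw [mul_add, ← mul_assoc H G, HG, one_mul, ← mul_assoc] at h2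
    exact eq_neg_of_add_eq_zero_right h2
  have e2 : s2 • D G = G * B' - B * G := eq_sub_of_add_eq T
  have e3 : s2 • D H = H * B - B' * H := by
    have h1 : s2 • D H = -(H * (s2 • D G) * H) := by
      rw [e1, smul_neg, mul_smul_comm, smul_mul_assoc]
    have h2 : H * (G * B' - B * G) * H = B' * H - H * B := by
      rw [mul_sub, sub_mul, ← mul_assoc H G, HG, one_mul, mul_assoc H (B * G) H, mul_assoc B G H,
        GH, mul_one]
    rw [h1, e2, h2]
    abel
  have e4 : s2 • D h = sb • (h * Bt) - B * h := eq_sub_of_add_eq rT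
  have e5 : s2 • D U = sb • (U * Bt' - Bt * U) := by
    rw [hs, mul_smul, eq_sub_of_add_eq eU]
  have e6 : s2 • D (H * h * U) =
      ((s2 • D H) * h + H * (s2 • D h)) * U + H * h * (s2 • D U) := by
    rw [D.leib, D.leib, smul_add, smul_mul_assoc, mul_smul_comm, mul_smul_comm, ← smul_mul_assoc,
      smul_add]
  rw [e6, e3, e4, e5]
  simp only [mul_sub, sub_mul, add_mul, mul_smul_comm, smul_mul_assoc, smul_sub, mul_assoc]
  abel

private lemma d1_pm_mul {r : ℕ} (p q : Matrix (Fin r) (Fin r) ℂ[X]) : pm (p * q) = pm p * pm q :=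
  Matrix.map_mul (f := (Polynomial.coeToPowerSeries.ringHom : ℂ[X] →+* PowerSeries ℂ))

private lemma d1_pm_add {r : ℕ} (p q : Matrix (Fin r) (Fin r) ℂ[X]) : pm (p + q) = pm p + pm q := by
  ext l j n
  simp [pm]

private lemma d1_pm_one {r : ℕ} : pm (1 : Matrix (Fin r) (Fin r) ℂ[X]) = 1 := by
  ext l j n
  rw [pm, Matrix.map_apply, Matrix.one_apply, Matrix.one_apply]
  split_ifs <;> simp

private lemma d1_pm_smul {r : ℕ} (n : ℕ) (p : Matrix (Fin r) (Fin r) ℂ[X]) :
    pm ((X : ℂ[X]) ^ n • p) = (PowerSeries.X : PowerSeries ℂ) ^ n • pm p := by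
  ext l j m
  rw [pm, Matrix.map_apply, Matrix.smul_apply, Matrix.smul_apply, smul_eq_mul, smul_eq_mul,
    Polynomial.coe_mul, Polynomial.coe_pow, Polynomial.coe_X, pm, Matrix.map_apply]

private lemma d1_z0_mul (M N : Mx 1 r) : (M * N).map (z0 1) = M.map (z0 1) * N.map (z0 1) :=
  Matrix.map_mul (f := z0 1)

private lemma d1_z0_add (M N : Mx 1 r) : (M + N).map (z0 1) = M.map (z0 1) + N.map (z0 1) := by
  ext l j
  simp

private lemma d1_z0_one : (1 : Mx 1 r).map (z0 1) = 1 := by
  ext l j
  rw [Matrix.map_apply, Matrix.one_apply, Matrix.one_apply]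
  split_ifs <;> simp

private lemma d1_z0_smul (n : ℕ) (M : Mx 1 r) : ((sS : Ser 1) ^ n • M).map (z0 1) =
    (PowerSeries.X : PowerSeries ℂ) ^ n • M.map (z0 1) := by
  ext l j
  rw [Matrix.map_apply, Matrix.smul_apply, Matrix.smul_apply, Matrix.map_apply, smul_eq_mul,
    smul_eq_mul, map_mul, map_pow, z0_sS]

private lemma d1_z0_zi (M : Matrix (Fin r) (Fin r) (PowerSeries ℂ)) :
    (M.map (zi 1)).map (z0 1) = M := by
  ext l j
  rw [Matrix.map_apply, Matrix.map_apply, z0_zi]

/-- MODULE d1. The initial frame. Let `g₀ = (H h)(0, s)`, `K₀ = (K G)(0, s)`: `g₀ K₀ = K₀ g₀ = s^b`.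
`polyBasis` gives `U, V, p, q`. With `g = H h U`: `s^(b+2) ∂_s g + B' g = s^b g B₁`; at `z = 0`:
`s^(2b) B₁(0, s) = q (s^(b+2) p' + B'(0, s) p)` is a polynomial. -/
theorem init_frame {b k : ℕ} {A B E A' B' E' G H h K Bt : Mx 1 r}
    (hg : GauB b (fun _ : Fin 1 => A) (fun _ => A') B B' E E' G H)
    (hB0 : ∀ m, Finsupp.weight (wx 1) m = 0 → k < m none → cm m B' = 0)
    (hK : h * K = (sS : Ser 1) ^ b • (1 : Mx 1 r)) (Kh : K * h = (sS : Ser 1) ^ b • (1 : Mx 1 r))
    (rT : (sS : Ser 1) ^ (b + 2) • h.map (serD none) + B * h = (sS : Ser 1) ^ b • (h * Bt)) :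
    ∃ (k' : ℕ) (U V Bt' : Mx 1 r) (p q : Matrix (Fin r) (Fin r) ℂ[X]),
      U * V = 1 ∧ V * U = 1 ∧ U.map (serD (some 0)) = 0 ∧
      (∀ l j, IsFormal (U l j)) ∧ (∀ l j, IsFormal (V l j)) ∧
      (sS : Ser 1) ^ 2 • U.map (serD none) + Bt * U = U * Bt' ∧
      (∀ m, Finsupp.weight (wx 1) m = 0 → k' < m none → cm m Bt' = 0) ∧
      (H * h * U).map (z0 1) = pm p ∧ p * q = (X : ℂ[X]) ^ b • 1 ∧
      q * p = (X : ℂ[X]) ^ b • 1 := by
  have GH := hg.GH
  have HG := hg.HG
  have T := hg.T
  have e1 : (H * h).map (z0 1) * (K * G).map (z0 1) = (PowerSeries.X : PowerSeries ℂ) ^ b • 1 := by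
    rw [← d1_z0_mul, Matrix.mul_assoc, ← Matrix.mul_assoc h, hK, Matrix.smul_mul, Matrix.one_mul,
      Matrix.mul_smul, HG, d1_z0_smul, d1_z0_one]
  have e2 : (K * G).map (z0 1) * (H * h).map (z0 1) = (PowerSeries.X : PowerSeries ℂ) ^ b • 1 := by
    rw [← d1_z0_mul, Matrix.mul_assoc, ← Matrix.mul_assoc G, GH, Matrix.one_mul, Kh, d1_z0_smul,
      d1_z0_one]
  obtain ⟨U0, V0, p, q, UV, VU, hU, pq, qp⟩ := polyBasis _ _ e1 e2
  set U : Mx 1 r := U0.map (zi 1) with hUd
  set V : Mx 1 r := V0.map (zi 1) with hVd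
  have hUV : U * V = 1 := by
    rw [hUd, hVd, ← Matrix.map_mul (f := zi 1), UV]
    ext l j
    rw [Matrix.map_apply, Matrix.one_apply, Matrix.one_apply]
    split_ifs <;> simp
  have hVU : V * U = 1 := by
    rw [hUd, hVd, ← Matrix.map_mul (f := zi 1), VU]
    ext l j
    rw [Matrix.map_apply, Matrix.one_apply, Matrix.one_apply]
    split_ifs <;> simp
  set Bt' : Mx 1 r := V * ((sS : Ser 1) ^ 2 • U.map (serD none) + Bt * U) with hBt'
  have eU : (sS : Ser 1) ^ 2 • U.map (serD none) + Bt * U = U * Bt' := by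
    rw [hBt', ← Matrix.mul_assoc, hUV, Matrix.one_mul]
  have eg := d1_alg (k := Ser 1) (Der.mat (n := Fin r) (serD (none : Option (Fin 1))))
    ((sS : Ser 1) ^ (b + 2)) ((sS : Ser 1) ^ b) ((sS : Ser 1) ^ 2) (pow_add _ _ _)
    GH HG T rT eU
  have hp : (H * h * U).map (z0 1) = pm p := by
    rw [d1_z0_mul, hUd, d1_z0_zi, hU]
  -- the polynomial matrices
  set B0 : Matrix (Fin r) (Fin r) ℂ[X] := B'.map fun f => (z0 1 f).trunc (k + 1) with hB0d
  have hB0' : B'.map (z0 1) = pm B0 := by
    ext l j n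
    rw [hB0d, pm, Matrix.map_apply, Matrix.map_apply, Matrix.map_apply, Polynomial.coeff_coe,
      PowerSeries.coeff_trunc]
    split_ifs with hn
    · rfl
    · rw [z0_coeff]
      have h1 := hB0 (Finsupp.single none n) (by simp [wx, Finsupp.weight_single])
        (by rw [Finsupp.single_eq_same]; omega)
      have h2 := congrFun (congrFun h1 l) j
      exact h2
  set Q : Matrix (Fin r) (Fin r) ℂ[X] :=
    q * ((X : ℂ[X]) ^ (b + 2) • p.map Polynomial.derivative + B0 * p) with hQ
  have hQ' : pm Q = (PowerSeries.X : PowerSeries ℂ) ^ (2 * b) • Bt'.map (z0 1) := by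
    have h1 := congrArg (fun M : Mx 1 r => M.map (z0 1)) eg
    simp only [d1_z0_add, d1_z0_smul, d1_z0_mul] at h1
    rw [← d1_z0_mul, ← d1_z0_mul, hp, hB0'] at h1
    have h2 : (Der.mat (n := Fin r) (serD (none : Option (Fin 1))) (H * h * U)).map (z0 1) =
        pm (p.map Polynomial.derivative) := by
      ext l j n
      have h3 : z0 1 ((H * h * U) l j) = ((p l j : ℂ[X]) : PowerSeries ℂ) :=
        congrFun (congrFun hp l) j
      rw [Matrix.map_apply, Der.mat_apply, z0_serD, h3, pm, Matrix.map_apply, Matrix.map_apply,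
        PowerSeries.coeff_derivative, Polynomial.coeff_coe, Polynomial.coeff_coe,
        Polynomial.coeff_derivative]
    rw [h2] at h1
    rw [hQ, d1_pm_mul, d1_pm_add, d1_pm_smul, d1_pm_mul, h1, Matrix.mul_smul, ← Matrix.mul_assoc,
      ← d1_pm_mul, qp, d1_pm_smul, d1_pm_one, Matrix.smul_mul, Matrix.one_mul, smul_smul,
      ← pow_add, two_mul]
  refine ⟨∑ l, ∑ j, (Q l j).natDegree, U, V, Bt', p, q, hUV, hVU, ?_, ?_, ?_, eU, ?_, hp, pq, qp⟩
  · ext1 l j
    rw [hUd, Matrix.map_apply, Matrix.map_apply, zi_serD]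
    rfl
  · exact fun l j => zi_formal _
  · exact fun l j => zi_formal _
  · refine cm_of_z0 fun l j n hn => ?_
    have h1 : PowerSeries.coeff (n + 2 * b) (pm Q l j) = PowerSeries.coeff n (z0 1 (Bt' l j)) := by
      rw [hQ', Matrix.smul_apply, smul_eq_mul, PowerSeries.coeff_X_pow_mul, Matrix.map_apply]
    rw [← h1, pm, Matrix.map_apply, Polynomial.coeff_coe]
    refine Polynomial.coeff_eq_zero_of_natDegree_lt ?_
    have h2 : (Q l j).natDegree ≤ ∑ l, ∑ j, (Q l j).natDegree :=
      (Finset.single_le_sum (f := fun j => (Q l j).natDegree) (fun _ _ => Nat.zero_le _)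
        (Finset.mem_univ j)).trans
      (Finset.single_le_sum (f := fun l => ∑ j, (Q l j).natDegree) (fun _ _ => Nat.zero_le _)
        (Finset.mem_univ l))
    omega


section d6

variable {k R : Type} [CommRing k] [Ring R] [Algebra k R]

private lemma d6_inv (s : k) (D : Der R) {G H A A' : R} (GH : G * H = 1) (HG : H * G = 1)
    (hP : s • D G + A * G = G * A') : s • D H = H * A - A' * H := by
  have h1 : D H * G + H * D G = 0 := by
    rw [← D.leib, HG, D.map_one']
  have h2 : D H = -(H * D G * H) := by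
    have := congrArg (· * H) h1
    simp only [add_mul, zero_mul] at this
    rw [mul_assoc, GH, mul_one] at this
    exact eq_neg_of_add_eq_zero_left this
  have h3 : s • D G = G * A' - A * G := eq_sub_of_add_eq hP
  rw [h2, smul_neg, ← smul_mul_assoc, ← mul_smul_comm, h3, mul_sub, sub_mul, ← mul_assoc, HG,
    one_mul, mul_assoc H (A * G) H, mul_assoc A G H, GH, mul_one]
  abel

private lemma d6_fwd (t u : k) (D : Der R) {G H h G' A A' At A'' : R} (GH : G * H = 1)
    (HG : H * G = 1) (hP : (t * u) • D G + A * G = G * A')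
    (rP : (t * u) • D h + A * h = t • (h * At)) (hN : u • D G' + At * G' = G' * A'') :
    (t * u) • D (H * h * G') + A' * (H * h * G') = t • ((H * h * G') * A'') := by
  have h1 := d6_inv (t * u) D GH HG hP
  have h2 : (t * u) • D h = t • (h * At) - A * h := eq_sub_of_add_eq rP
  have h3 : (t * u) • D G' = t • (G' * A'' - At * G') := by
    rw [mul_smul, eq_sub_of_add_eq hN]
  have h4 : (t * u) • D (H * h * G') = (t * u) • D H * h * G' + H * ((t * u) • D h) * G'
      + H * h * ((t * u) • D G') := by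
    rw [D.leib, D.leib]
    simp only [smul_add, add_mul, smul_mul_assoc, mul_smul_comm]
  rw [h4, h1, h2, h3]
  simp only [smul_sub, sub_mul, mul_sub, smul_mul_assoc, mul_smul_comm, mul_assoc]
  abel

private lemma d6_bwd (t u : k) (ht : ∀ x y : R, t • x = t • y → x = y) (D : Der R)
    (Dt : ∀ x, D (t • x) = t • D x) {G h K G' H' A A' At A'' : R}
    (G'H' : G' * H' = 1) (H'G' : H' * G' = 1) (hK : h * K = t • (1 : R)) (Kh : K * h = t • (1 : R))
    (hP : (t * u) • D G + A * G = G * A')
    (rP : (t * u) • D h + A * h = t • (h * At)) (hN : u • D G' + At * G' = G' * A'') :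
    (t * u) • D (H' * K * G) + t • (A'' * (H' * K * G)) = (H' * K * G) * A' := by
  have h1 := d6_inv u D G'H' H'G' hN
  have h2 : (t * u) • D h = t • (h * At) - A * h := eq_sub_of_add_eq rP
  have h3 : (t * u) • D G = G * A' - A * G := eq_sub_of_add_eq hP
  have h4 : D h * K + h * D K = 0 := by
    rw [← D.leib, hK, Dt, D.map_one', smul_zero]
  have h5 : t • D K = -(K * D h * K) := by
    have := congrArg (K * ·) h4
    simp only [mul_add, mul_zero] at this
    rw [← mul_assoc, ← mul_assoc, Kh, smul_mul_assoc, one_mul] at this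
    exact eq_neg_of_add_eq_zero_right this
  have h6 : (t * u) • D K = K * A - t • (At * K) := by
    apply ht
    have e1 : t • (t * u) • D K = -(K * ((t * u) • D h) * K) := by
      rw [smul_comm, h5, smul_neg, mul_smul_comm, smul_mul_assoc]
    rw [e1, h2, mul_sub, sub_mul, mul_smul_comm, smul_mul_assoc, ← mul_assoc K h At, Kh,
      smul_mul_assoc, one_mul, mul_assoc K (A * h) K, mul_assoc A h K, hK, mul_smul_comm, mul_one,
      mul_smul_comm, smul_mul_assoc, smul_sub]
    abel
  have h7 : (t * u) • D (H' * K * G) = t • (u • D H') * K * G + H' * ((t * u) • D K) * G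
      + H' * K * ((t * u) • D G) := by
    rw [D.leib, D.leib, smul_smul]
    simp only [smul_add, add_mul, smul_mul_assoc, mul_smul_comm]
  rw [h7, h1, h6, h3]
  simp only [smul_sub, sub_mul, mul_sub, smul_mul_assoc, mul_smul_comm, mul_assoc]
  abel

end d6

/-- MODULE d6. `g = H h G'` is the matrix of the frame `c' = f h G'` in the frame `c = f G`,
`h₁ = H' K G` is `s^b g⁻¹`. -/
theorem compare {b : ℕ} {A B E A' B' E' G H h K At Bt Et A'' B'' G' H' : Mx 1 r}
    (hg : GauB b (fun _ : Fin 1 => A) (fun _ => A') B B' E E' G H)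
    (hK : h * K = (sS : Ser 1) ^ b • (1 : Mx 1 r)) (Kh : K * h = (sS : Ser 1) ^ b • (1 : Mx 1 r))
    (rP : (sS : Ser 1) ^ (b + 1) • h.map (serD (some 0)) + A * h = (sS : Ser 1) ^ b • (h * At))
    (rT : (sS : Ser 1) ^ (b + 2) • h.map (serD none) + B * h = (sS : Ser 1) ^ b • (h * Bt))
    (rE : E * h = (sS : Ser 1) ^ b • (h * Et))
    (hN : Gau (fun _ : Fin 1 => At) (fun _ => A'') Bt B'' G' H') :
    (H * h * G') * (H' * K * G) = (sS : Ser 1) ^ b • (1 : Mx 1 r) ∧
    (H' * K * G) * (H * h * G') = (sS : Ser 1) ^ b • (1 : Mx 1 r) ∧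
    (sS : Ser 1) ^ (b + 1) • (H * h * G').map (serD (some 0)) + A' * (H * h * G')
      = (sS : Ser 1) ^ b • ((H * h * G') * A'') ∧
    (sS : Ser 1) ^ (b + 2) • (H * h * G').map (serD none) + B' * (H * h * G')
      = (sS : Ser 1) ^ b • ((H * h * G') * B'') ∧
    E' * (H * h * G') = (sS : Ser 1) ^ b • ((H * h * G') * (H' * Et * G')) ∧
    (sS : Ser 1) ^ (b + 1) • (H' * K * G).map (serD (some 0)) + (sS : Ser 1) ^ b • (A'' * (H' * K * G))
      = (H' * K * G) * A' := by
  have ht : ∀ x y : Mx 1 r, (sS : Ser 1) ^ b • x = (sS : Ser 1) ^ b • y → x = y := by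
    intro x y e
    have hs : (sS : Ser 1) ^ b ≠ 0 := by
      refine pow_ne_zero _ fun h => ?_
      have := n5_s_s (d := 1)
      rw [h, map_zero] at this
      exact zero_ne_one this
    ext1 i j
    have := congrFun (congrFun e i) j
    simp only [Matrix.smul_apply, smul_eq_mul] at this
    exact mul_left_cancel₀ hs this
  have Ds : ∀ x : Mx 1 r, (serD (some (0 : Fin 1))).mat ((sS : Ser 1) ^ b • x)
      = (sS : Ser 1) ^ b • (serD (some (0 : Fin 1))).mat x := by
    have h0 : ∀ n : ℕ, serD (some (0 : Fin 1)) ((sS : Ser 1) ^ n) = 0 := by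
      intro n
      induction n with
      | zero => rw [pow_zero, Der.map_one']
      | succ n ih => rw [pow_succ, Der.leib, ih, n5_s_x, zero_mul, mul_zero, add_zero]
    intro x
    rw [n5_smul, h0, zero_smul, zero_add]
  refine ⟨?_, ?_, ?_, ?_, ?_, ?_⟩
  · have : (H * h * G') * (H' * K * G) = H * (h * (G' * H') * K) * G := by
      simp only [mul_assoc]
    rw [this, hN.GH, mul_one, hK, mul_smul_comm, mul_one, smul_mul_assoc, hg.HG]
  · have : (H' * K * G) * (H * h * G') = H' * (K * (G * H) * h) * G' := by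
      simp only [mul_assoc]
    rw [this, hg.GH, mul_one, Kh, mul_smul_comm, mul_one, smul_mul_assoc, hN.HG]
  · have e1 := hg.P 0
    have e2 := rP
    rw [pow_succ] at e1 e2 ⊢
    exact d6_fwd ((sS : Ser 1) ^ b) sS (serD (some 0)).mat hg.GH hg.HG e1 e2 (hN.P 0)
  · have e1 := hg.T
    have e2 := rT
    rw [pow_add] at e1 e2 ⊢
    exact d6_fwd ((sS : Ser 1) ^ b) (sS ^ 2) (serD none).mat hg.GH hg.HG e1 e2 hN.T
  · have h1 : E' * H = H * E := by
      have : H * (E * G) * H = H * (G * E') * H := by rw [hg.E]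
      rw [mul_assoc H (E * G) H, mul_assoc E G H, hg.GH, mul_one, ← mul_assoc H G E', hg.HG,
        one_mul] at this
      exact this.symm
    have h2 : (H * h * G') * (H' * Et * G') = H * (h * (G' * H') * Et) * G' := by
      simp only [mul_assoc]
    rw [h2, hN.GH, mul_one, ← smul_mul_assoc, ← mul_smul_comm, ← rE, ← mul_assoc, ← mul_assoc, h1,
      mul_assoc H E h]
  · have e1 := hg.P 0
    have e2 := rP
    rw [pow_succ] at e1 e2 ⊢
    exact d6_bwd ((sS : Ser 1) ^ b) sS ht (serD (some 0)).mat Ds hN.GH hN.HG hK Kh e1 e2 (hN.P 0)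

-- row d7 (helper18)

private lemma d7_pow {d r : ℕ} (M : Mx d r) (k : ℕ) (m : Option (Fin d) →₀ ℕ) :
    cm (m + Finsupp.single none k) ((sS : Ser d) ^ k • M) = cm m M := by
  induction k generalizing m with
  | zero => simp
  | succ k ih =>
    rw [pow_succ', mul_smul, cm_sS_smul, if_neg, Finsupp.single_add, ← add_assoc,
      add_tsub_cancel_right, ih]
    rw [Finsupp.add_apply, Finsupp.single_eq_same]; omega

private lemma d7_key {r D : ℕ} {g : Mx 1 r}
    (h0 : ∀ m, Finsupp.weight (wx 1) m = 0 → D < m none → cm m g = 0)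
    (hs : ∀ m : Option (Fin 1) →₀ ℕ, D < m none →
      (∀ q : Option (Fin 1) →₀ ℕ, q (some 0) ≤ m (some 0) → D < q none → cm q g = 0) →
      cm m (g.map (serD (some 0))) = 0) :
    ∀ m, D < m none → cm m g = 0 := by
  have key : ∀ (N : ℕ) (m : Option (Fin 1) →₀ ℕ), m (some 0) = N → D < m none → cm m g = 0 := by
    intro N
    induction N using Nat.strong_induction_on with
    | _ N ih =>
    intro m hN hm
    rcases Nat.eq_zero_or_pos N with h1 | h1
    · refine h0 m ?_ hm
      rw [Finsupp.weight_eq_sum, Fintype.sum_option, Fin.sum_univ_one]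
      rw [hN, h1]
      simp [wx]
    · obtain ⟨m', hm'⟩ : ∃ m' : Option (Fin 1) →₀ ℕ, m = m' + Finsupp.single (some 0) 1 := by
        refine ⟨m - Finsupp.single (some 0) 1, (tsub_add_cancel_of_le ?_).symm⟩
        rw [Finsupp.single_le_iff]
        omega
      have h2 : m' none = m none := by
        rw [hm', Finsupp.add_apply, Finsupp.single_eq_of_ne (by simp), add_zero]
      have h3 : m' (some 0) + 1 = N := by
        rw [← hN, hm', Finsupp.add_apply, Finsupp.single_eq_same]
      have h4 := hs m' (by omega) (fun q hq hq' => ih (q (some 0)) (by omega) q rfl hq')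
      rw [cm_map_serD, ← hm'] at h4
      rcases smul_eq_zero.1 h4 with h5 | h5
      · exfalso
        have : ((m' (some 0) + 1 : ℕ) : ℂ) = 0 := by push_cast; exact h5
        rw [Nat.cast_eq_zero] at this
        omega
      · exact h5
  exact fun m hm => key _ m rfl hm

/-- MODULE d7. Induction on the degree in `z`: the coefficient of `z^n` in
`s^(b+1) ∂_z g = s^b g A'' - A' g`. -/
theorem deg_g {b D : ℕ} {A' A'' g : Mx 1 r} (hA' : ∀ m, b < m none → cm m A' = 0)
    (hA'' : ∀ l j, SFree (A'' l j))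
    (h : (sS : Ser 1) ^ (b + 1) • g.map (serD (some 0)) + A' * g = (sS : Ser 1) ^ b • (g * A''))
    (h0 : ∀ m, Finsupp.weight (wx 1) m = 0 → D < m none → cm m g = 0) :
    ∀ m, D < m none → cm m g = 0 := by
  have hA2 : ∀ m, m none ≠ 0 → cm m A'' = 0 := by
    intro m hm
    ext l j
    exact hA'' l j m hm
  refine d7_key h0 fun m hm ih => ?_
  have h1 := congrArg (cm (m + Finsupp.single none (b + 1))) h
  have e1 : m + Finsupp.single (none : Option (Fin 1)) (b + 1)
      = (m + Finsupp.single none 1) + Finsupp.single none b := by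
    rw [Finsupp.single_add, add_assoc]
    congr 1
    exact add_comm _ _
  rw [map_add, d7_pow, e1, d7_pow, cm_conv_zero, cm_conv_zero, add_zero] at h1
  · exact h1
  · intro p q hpq
    have h4 : p none + q none = m none + 1 := by
      rw [← Finsupp.add_apply, hpq, Finsupp.add_apply, Finsupp.single_eq_same]
    have h5 : p (some 0) + q (some 0) = m (some 0) := by
      rw [← Finsupp.add_apply, hpq, Finsupp.add_apply, Finsupp.single_eq_of_ne (by simp), add_zero]
    by_cases hq : q none = 0
    · left; exact ih p (by omega) (by omega)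
    · right; exact hA2 q hq
  · intro p q hpq
    have h4 : p none + q none = m none + 1 + b := by
      rw [← Finsupp.add_apply, hpq, Finsupp.add_apply, Finsupp.add_apply, Finsupp.single_eq_same,
        Finsupp.single_eq_same]
    have h5 : p (some 0) + q (some 0) = m (some 0) := by
      rw [← Finsupp.add_apply, hpq, Finsupp.add_apply, Finsupp.add_apply,
        Finsupp.single_eq_of_ne (by simp), Finsupp.single_eq_of_ne (by simp), add_zero, add_zero]
    by_cases hp : b < p none
    · left; exact hA' p hp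
    · right; exact ih q (by omega) (by omega)

/-- MODULE d7 -/
theorem deg_h {b D : ℕ} {A' A'' g : Mx 1 r} (hA' : ∀ m, b < m none → cm m A' = 0)
    (hA'' : ∀ l j, SFree (A'' l j))
    (h : (sS : Ser 1) ^ (b + 1) • g.map (serD (some 0)) + (sS : Ser 1) ^ b • (A'' * g) = g * A')
    (h0 : ∀ m, Finsupp.weight (wx 1) m = 0 → D < m none → cm m g = 0) :
    ∀ m, D < m none → cm m g = 0 := by
  have hA2 : ∀ m, m none ≠ 0 → cm m A'' = 0 := by
    intro m hm
    ext l j
    exact hA'' l j m hm
  refine d7_key h0 fun m hm ih => ?_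
  have h1 := congrArg (cm (m + Finsupp.single none (b + 1))) h
  have e1 : m + Finsupp.single (none : Option (Fin 1)) (b + 1)
      = (m + Finsupp.single none 1) + Finsupp.single none b := by
    rw [Finsupp.single_add, add_assoc]
    congr 1
    exact add_comm _ _
  rw [map_add, d7_pow, e1, d7_pow, cm_conv_zero, cm_conv_zero, add_zero] at h1
  · exact h1
  · intro p q hpq
    have h4 : p none + q none = m none + 1 + b := by
      rw [← Finsupp.add_apply, hpq, Finsupp.add_apply, Finsupp.add_apply, Finsupp.single_eq_same,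
        Finsupp.single_eq_same]
    have h5 : p (some 0) + q (some 0) = m (some 0) := by
      rw [← Finsupp.add_apply, hpq, Finsupp.add_apply, Finsupp.add_apply,
        Finsupp.single_eq_of_ne (by simp), Finsupp.single_eq_of_ne (by simp), add_zero, add_zero]
    by_cases hq : b < q none
    · right; exact hA' q hq
    · left; exact ih p (by omega) (by omega)
  · intro p q hpq
    have h4 : p none + q none = m none + 1 := by
      rw [← Finsupp.add_apply, hpq, Finsupp.add_apply, Finsupp.single_eq_same]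
    have h5 : p (some 0) + q (some 0) = m (some 0) := by
      rw [← Finsupp.add_apply, hpq, Finsupp.add_apply, Finsupp.single_eq_of_ne (by simp), add_zero]
    by_cases hp : p none = 0
    · right; exact ih q (by omega) (by omega)
    · left; exact hA2 p hp

private lemma d8_mul {A B : Mx 1 r} (hA : ∀ l j, IsFormal (A l j)) (hB : ∀ l j, IsFormal (B l j)) :
    ∀ l j, IsFormal ((A * B) l j) := by
  intro l j
  rw [Matrix.mul_apply]
  exact sum_mem (S := (formal 1).alg) fun x _ => Pool.Fml.isFormal_mul (hA l x) (hB x j)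

private lemma d8_sub {A B : Mx 1 r} (hA : ∀ l j, IsFormal (A l j)) (hB : ∀ l j, IsFormal (B l j)) :
    ∀ l j, IsFormal ((A - B) l j) := by
  intro l j
  exact (formal 1).alg.sub_mem (hA l j) (hB l j)

private lemma d8_smul {A : Mx 1 r} (n : ℕ) (hA : ∀ l j, IsFormal (A l j)) :
    ∀ l j, IsFormal (((sS : Ser 1) ^ n • A) l j) := by
  intro l j
  exact (formal 1).alg.mul_mem ((formal 1).alg.pow_mem ((formal 1).X_mem none) n) (hA l j)

private lemma d8_der {A : Mx 1 r} (i : Option (Fin 1)) (hA : ∀ l j, IsFormal (A l j)) :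
    ∀ l j, IsFormal ((A.map (serD i)) l j) := fun l j => Pool.Fml.isFormal_pderiv i _ (hA l j)

private lemma d8_pow {b : ℕ} {f : Ser 1} (h : IsFormal ((sS : Ser 1) ^ b * f)) : IsFormal f := by
  obtain ⟨R, hR, h⟩ := h
  refine ⟨R, hR, fun j => ?_⟩
  obtain ⟨C, hC⟩ := h (b + j)
  refine ⟨C * R ^ b, fun m hm => ?_⟩
  have h1 := hC (Finsupp.single none b + m) (by
    rw [Finsupp.add_apply, Finsupp.single_eq_same, hm])
  rw [sS, MvPowerSeries.X_pow_eq, MvPowerSeries.coeff_add_monomial_mul, one_mul] at h1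
  refine h1.trans (le_of_eq ?_)
  rw [map_add, Finsupp.degree_single, pow_add]
  ring

private lemma d8_powM {b : ℕ} {A : Mx 1 r} (h : ∀ l j, IsFormal (((sS : Ser 1) ^ b • A) l j)) :
    ∀ l j, IsFormal (A l j) := fun l j => d8_pow (h l j)

/-- MODULE d8. `A' = (g A'' - s ∂_z g) h`: multiply the equation of `g` by `h` on the right and
cancel `s^b`. -/
theorem formal_A' {b : ℕ} {A' A'' g h : Mx 1 r}
    (gh : g * h = (sS : Ser 1) ^ b • (1 : Mx 1 r))
    (e : (sS : Ser 1) ^ (b + 1) • g.map (serD (some 0)) + A' * g = (sS : Ser 1) ^ b • (g * A''))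
    (hg : ∀ l j, IsFormal (g l j)) (hh : ∀ l j, IsFormal (h l j))
    (hA : ∀ l j, IsFormal (A'' l j)) : ∀ l j, IsFormal (A' l j) := by
  have e1 : (sS : Ser 1) ^ b • A' = (sS : Ser 1) ^ b • (g * A'' * h) -
      (sS : Ser 1) ^ (b + 1) • (g.map (serD (some 0)) * h) := by
    have e2 := congrArg (fun Z => Z * h) e
    simp only [Matrix.add_mul, Matrix.smul_mul] at e2
    rw [Matrix.mul_assoc A', gh, Matrix.mul_smul, Matrix.mul_one] at e2
    rw [← e2, add_sub_cancel_left]
  refine d8_powM (b := b) ?_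
  rw [e1]
  exact d8_sub (d8_smul b (d8_mul (d8_mul hg hA) hh)) (d8_smul (b + 1) (d8_mul (d8_der _ hg) hh))

/-- MODULE d8. `B' = (g B'' - s² ∂_s g) h` -/
theorem formal_B' {b : ℕ} {B' B'' g h : Mx 1 r}
    (gh : g * h = (sS : Ser 1) ^ b • (1 : Mx 1 r))
    (e : (sS : Ser 1) ^ (b + 2) • g.map (serD none) + B' * g = (sS : Ser 1) ^ b • (g * B''))
    (hg : ∀ l j, IsFormal (g l j)) (hh : ∀ l j, IsFormal (h l j))
    (hB : ∀ l j, IsFormal (B'' l j)) : ∀ l j, IsFormal (B' l j) := by
  have e1 : (sS : Ser 1) ^ b • B' = (sS : Ser 1) ^ b • (g * B'' * h) -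
      (sS : Ser 1) ^ (b + 2) • (g.map (serD none) * h) := by
    have e2 := congrArg (fun Z => Z * h) e
    simp only [Matrix.add_mul, Matrix.smul_mul] at e2
    rw [Matrix.mul_assoc B', gh, Matrix.mul_smul, Matrix.mul_one] at e2
    rw [← e2, add_sub_cancel_left]
  refine d8_powM (b := b) ?_
  rw [e1]
  exact d8_sub (d8_smul b (d8_mul (d8_mul hg hB) hh)) (d8_smul (b + 2) (d8_mul (d8_der _ hg) hh))

/-- MODULE d8. `E' = g E'' h` -/
theorem formal_E' {b : ℕ} {E' E'' g h : Mx 1 r}
    (gh : g * h = (sS : Ser 1) ^ b • (1 : Mx 1 r))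
    (e : E' * g = (sS : Ser 1) ^ b • (g * E''))
    (hg : ∀ l j, IsFormal (g l j)) (hh : ∀ l j, IsFormal (h l j))
    (hE : ∀ l j, IsFormal (E'' l j)) : ∀ l j, IsFormal (E' l j) := by
  have e1 : (sS : Ser 1) ^ b • E' = (sS : Ser 1) ^ b • (g * E'' * h) := by
    have e2 := congrArg (fun Z => Z * h) e
    simp only [Matrix.smul_mul] at e2
    rw [Matrix.mul_assoc E', gh, Matrix.mul_smul, Matrix.mul_one] at e2
    exact e2
  refine d8_powM (b := b) ?_
  rw [e1]
  exact d8_smul b (d8_mul (d8_mul hg hE) hh)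

/-- MODULE d8. `s^b G = C h` with `C = h₀ G'` -/
theorem formal_G' {b : ℕ} {G C h : Mx 1 r} (e : (sS : Ser 1) ^ b • G = C * h)
    (hC : ∀ l j, IsFormal (C l j)) (hh : ∀ l j, IsFormal (h l j)) :
    ∀ l j, IsFormal (G l j) := by
  refine d8_powM (b := b) ?_
  rw [e]
  exact d8_mul hC hh

end d

/-! ### The algebraic comparison lemma -/

section k0

variable {R : Type} [CommRing R]

/-- degree `≤ D` -/
def Dg (D : ℕ) (f : PowerSeries R) : Prop := ∀ n, D < n → PowerSeries.coeff n f = 0

/-- the reversed polynomial -/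
noncomputable def rv (D : ℕ) (f : PowerSeries R) : PowerSeries R :=
  PowerSeries.mk fun n => if n ≤ D then PowerSeries.coeff (D - n) f else 0

private lemma k0_add (D : ℕ) (f g : PowerSeries R) : rv D (f + g) = rv D f + rv D g := by
  ext n
  simp only [rv, PowerSeries.coeff_mk, map_add]
  split_ifs <;> simp

private noncomputable def k0_hom (D : ℕ) : PowerSeries R →+ PowerSeries R where
  toFun := rv D
  map_zero' := by ext n; simp [rv]
  map_add' := k0_add D

private lemma k0_sum {ι : Type*} (s : Finset ι) (D : ℕ) (f : ι → PowerSeries R) :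
    rv D (∑ i ∈ s, f i) = ∑ i ∈ s, rv D (f i) := map_sum (k0_hom D) f s

private lemma k0_mono {a D : ℕ} (h : a ≤ D) (c : R) :
    rv D (PowerSeries.C c * PowerSeries.X ^ a) = PowerSeries.C c * PowerSeries.X ^ (D - a) := by
  ext n
  simp only [rv, PowerSeries.coeff_mk, PowerSeries.coeff_C_mul, PowerSeries.coeff_X_pow]
  by_cases hn : n ≤ D
  · rw [if_pos hn]
    congr 1
    exact if_congr (by omega) rfl rfl
  · rw [if_neg hn, if_neg (by omega), mul_zero]

private lemma k0_eq {D : ℕ} {f : PowerSeries R} (hf : Dg D f) :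
    f = ∑ a ∈ Finset.range (D + 1), PowerSeries.C (PowerSeries.coeff a f) * PowerSeries.X ^ a := by
  ext n
  rw [map_sum]
  simp only [PowerSeries.coeff_C_mul, PowerSeries.coeff_X_pow]
  by_cases hn : n ≤ D
  · rw [Finset.sum_eq_single n]
    · simp
    · intro b _ hb
      rw [if_neg (Ne.symm hb), mul_zero]
    · intro h
      exact absurd (Finset.mem_range.2 (by omega)) h
  · rw [hf n (by omega), Finset.sum_eq_zero]
    intro b hb
    rw [Finset.mem_range] at hb
    rw [if_neg (by omega), mul_zero]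

/-- MODULE k0 -/
lemma rv_mul {D D' : ℕ} {f g : PowerSeries R} (hf : Dg D f) (hg : Dg D' g) :
    rv (D + D') (f * g) = rv D f * rv D' g := by
  have hf' := k0_eq hf
  have hg' := k0_eq hg
  generalize hF : (fun a => PowerSeries.coeff a f) = F at *
  generalize hG : (fun a => PowerSeries.coeff a g) = G at *
  have hF' : ∀ a, PowerSeries.coeff a f = F a := fun a => congrFun hF a
  have hG' : ∀ a, PowerSeries.coeff a g = G a := fun a => congrFun hG a
  simp only [hF', hG'] at hf' hg'
  clear hF hG hF' hG'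
  subst hf' hg'
  rw [Finset.sum_mul_sum, k0_sum, k0_sum, k0_sum, Finset.sum_mul_sum]
  refine Finset.sum_congr rfl fun a ha => ?_
  rw [k0_sum]
  refine Finset.sum_congr rfl fun b hb => ?_
  rw [Finset.mem_range] at ha hb
  rw [k0_mono (by omega), k0_mono (by omega)]
  have h1 : PowerSeries.C (F a) * (PowerSeries.X : PowerSeries R) ^ a *
      (PowerSeries.C (G b) * PowerSeries.X ^ b) =
      PowerSeries.C (F a * G b) * PowerSeries.X ^ (a + b) := by
    rw [map_mul, pow_add]; ring
  rw [h1, k0_mono (by omega), map_mul]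
  have h2 : D + D' - (a + b) = (D - a) + (D' - b) := by omega
  rw [h2, pow_add]
  ring

/-- MODULE k0 -/
lemma rv_add (D : ℕ) (f g : PowerSeries R) : rv D (f + g) = rv D f + rv D g := by
  exact k0_add D f g

/-- MODULE k0 -/
lemma rv_X_pow {b D : ℕ} (h : b ≤ D) :
    rv D ((PowerSeries.X : PowerSeries R) ^ b) = PowerSeries.X ^ (D - b) := by
  have := k0_mono h (1 : R)
  simpa using this

/-- MODULE k0 -/
lemma Dg.mul {D D' : ℕ} {f g : PowerSeries R} (hf : Dg D f) (hg : Dg D' g) :
    Dg (D + D') (f * g) := by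
  intro n hn
  rw [PowerSeries.coeff_mul]
  refine Finset.sum_eq_zero fun p hp => ?_
  rw [Finset.HasAntidiagonal.mem_antidiagonal] at hp
  by_cases h1 : D < p.1
  · rw [hf _ h1, zero_mul]
  · rw [hg _ (by omega), mul_zero]

/-- MODULE k0 -/
lemma rv_map {S : Type} [CommRing S] (φ : R →+* S) (D : ℕ) (f : PowerSeries R) :
    rv D (PowerSeries.map φ f) = PowerSeries.map φ (rv D f) := by
  ext n
  simp only [rv, PowerSeries.coeff_mk, PowerSeries.coeff_map]
  split_ifs
  · rfl
  · rw [map_zero]

end k0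

section k1

/-- private helper of k1: a linear map applied coefficientwise -/
private noncomputable def k1_L {K E : Type} [Field K] [Field E] [Algebra K E] (lam : E →ₗ[K] E) :
    PowerSeries E →+ PowerSeries E where
  toFun f := PowerSeries.mk fun n => lam (PowerSeries.coeff n f)
  map_zero' := by ext n; simp
  map_add' f g := by ext n; simp

private lemma k1_L_coeff {K E : Type} [Field K] [Field E] [Algebra K E] (lam : E →ₗ[K] E)
    (f : PowerSeries E) (n : ℕ) :
    PowerSeries.coeff n (k1_L lam f) = lam (PowerSeries.coeff n f) := by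
  exact PowerSeries.coeff_mk n fun n => lam (PowerSeries.coeff n f)

private lemma k1_L_mul {K E : Type} [Field K] [Field E] [Algebra K E] (lam : E →ₗ[K] E)
    (c : PowerSeries K) (f : PowerSeries E) :
    k1_L lam (PowerSeries.map (algebraMap K E) c * f) =
      PowerSeries.map (algebraMap K E) c * k1_L lam f := by
  ext n
  rw [k1_L_coeff, PowerSeries.coeff_mul, PowerSeries.coeff_mul, map_sum]
  refine Finset.sum_congr rfl fun p _ => ?_
  rw [k1_L_coeff, PowerSeries.coeff_map, ← Algebra.smul_def, map_smul, Algebra.smul_def]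

private lemma k1_L_mat {K E : Type} [Field K] [Field E] [Algebra K E] {r : ℕ} (lam : E →ₗ[K] E)
    (c : Matrix (Fin r) (Fin r) (PowerSeries K)) (f : Matrix (Fin r) (Fin r) (PowerSeries E)) :
    (c.map (PowerSeries.map (algebraMap K E)) * f).map (k1_L lam) =
      c.map (PowerSeries.map (algebraMap K E)) * f.map (k1_L lam) := by
  ext1 i j
  rw [Matrix.map_apply, Matrix.mul_apply, Matrix.mul_apply, map_sum]
  refine Finset.sum_congr rfl fun k _ => ?_
  rw [Matrix.map_apply, Matrix.map_apply, k1_L_mul]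

private lemma k1_L_X {K E : Type} [Field K] [Field E] [Algebra K E] {r : ℕ} (lam : E →ₗ[K] E)
    (N : ℕ) (f : Matrix (Fin r) (Fin r) (PowerSeries E)) :
    ((PowerSeries.X : PowerSeries E) ^ N • f).map (k1_L lam) =
      (PowerSeries.X : PowerSeries E) ^ N • f.map (k1_L lam) := by
  ext1 i j
  have h := k1_L_mul lam ((PowerSeries.X : PowerSeries K) ^ N) (f i j)
  rw [map_pow, PowerSeries.map_X] at h
  rw [Matrix.map_apply, Matrix.smul_apply, Matrix.smul_apply, Matrix.map_apply, smul_eq_mul,
    smul_eq_mul, h]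

private lemma k1_rv_zero {R : Type} [CommRing R] (D : ℕ) : rv D (0 : PowerSeries R) = 0 := by
  ext n
  rw [rv, PowerSeries.coeff_mk]
  simp

private lemma k1_rv_sum {R ι : Type} [CommRing R] (D : ℕ) (s : Finset ι) (f : ι → PowerSeries R) :
    rv D (∑ i ∈ s, f i) = ∑ i ∈ s, rv D (f i) := by
  classical
  induction s using Finset.induction_on with
  | empty => rw [Finset.sum_empty, Finset.sum_empty, k1_rv_zero]
  | insert a s ha ih => rw [Finset.sum_insert ha, Finset.sum_insert ha, rv_add, ih]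

private lemma k1_rv_mat {R : Type} [CommRing R] {r D D' : ℕ}
    {f g : Matrix (Fin r) (Fin r) (PowerSeries R)} (hf : ∀ i j, Dg D (f i j))
    (hg : ∀ i j, Dg D' (g i j)) :
    (f * g).map (rv (D + D')) = f.map (rv D) * g.map (rv D') := by
  ext1 i j
  rw [Matrix.map_apply, Matrix.mul_apply, Matrix.mul_apply, k1_rv_sum]
  exact Finset.sum_congr rfl fun k _ => by
    rw [Matrix.map_apply, Matrix.map_apply, rv_mul (hf i k) (hg k j)]

private lemma k1_cancel {E : Type} [Field E] {r N : ℕ}
    {f g : Matrix (Fin r) (Fin r) (PowerSeries E)}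
    (h : (PowerSeries.X : PowerSeries E) ^ N • f = (PowerSeries.X : PowerSeries E) ^ N • g) :
    f = g := by
  ext1 i j
  have h1 := congrFun (congrFun h i) j
  rw [Matrix.smul_apply, Matrix.smul_apply, smul_eq_mul, smul_eq_mul] at h1
  exact mul_left_cancel₀ (pow_ne_zero _ PowerSeries.X_ne_zero) h1

private lemma k1_lam {K E : Type} [Field K] [Field E] [Algebra K E] {x : E}
    (hx : x ∉ Set.range (algebraMap K E)) : ∃ lam : E →ₗ[K] E, lam 1 = 0 ∧ lam x ≠ 0 := by
  have h1 : x ∉ Submodule.span K ({1} : Set E) := by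
    intro h
    rw [Submodule.mem_span_singleton] at h
    obtain ⟨a, ha⟩ := h
    exact hx ⟨a, by rw [← ha, Algebra.smul_def, mul_one]⟩
  obtain ⟨f, hf, hk⟩ := Submodule.exists_le_ker_of_notMem h1
  refine ⟨(Algebra.linearMap K E).comp f, ?_, ?_⟩
  · have : f 1 = 0 := hk (Submodule.mem_span_singleton_self 1)
    rw [LinearMap.comp_apply, this, map_zero]
  · rw [LinearMap.comp_apply]
    intro h
    exact hf ((FaithfulSMul.algebraMap_injective K E) (by simpa using h))

/-- private helper of k1: step (ii) -/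
private lemma k1_main {K E : Type} [Field K] [Field E] [Algebra K E] {r b D : ℕ}
    (g hh G H Z : Matrix (Fin r) (Fin r) (PowerSeries E))
    (p C Kk Θ : Matrix (Fin r) (Fin r) (PowerSeries K))
    (dg : ∀ i j, Dg D (g i j)) (dh : ∀ i j, Dg D (hh i j))
    (gh : g * hh = (PowerSeries.X : PowerSeries E) ^ b • 1)
    (hg : hh * g = (PowerSeries.X : PowerSeries E) ^ b • 1)
    (GH : G * H = 1) (HG : H * G = 1)
    (eg : g = H * C.map (PowerSeries.map (algebraMap K E)))
    (eh : hh = Kk.map (PowerSeries.map (algebraMap K E)) * G)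
    (CK : C * Kk = (PowerSeries.X : PowerSeries K) ^ b • 1)
    (hbD : b ≤ 2 * D)
    (eZ : (p.map (PowerSeries.map (algebraMap K E))).map (rv D)
        * Θ.map (PowerSeries.map (algebraMap K E)) * hh.map (rv D)
      = (PowerSeries.X : PowerSeries E) ^ (2 * D - b) • Z)
    (Z0 : ∀ i j, PowerSeries.constantCoeff (Z i j) = if i = j then 1 else 0)
    (lam : E →ₗ[K] E) (hl : lam 1 = 0) : hh.map (k1_L lam) = 0 := by
  set N := 2 * D - b with hN
  have hDD : D + D = 2 * D := by ring
  -- step (i)
  have hL : hh.map (k1_L lam) =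
      Kk.map (PowerSeries.map (algebraMap K E)) * G.map (k1_L lam) := by
    rw [eh, k1_L_mat]
  have CK' : C.map (PowerSeries.map (algebraMap K E)) * Kk.map (PowerSeries.map (algebraMap K E)) =
      (PowerSeries.X : PowerSeries E) ^ b • 1 := by
    rw [← Matrix.map_mul, CK]
    ext1 i j
    rw [Matrix.map_apply, Matrix.smul_apply, Matrix.smul_apply, smul_eq_mul, smul_eq_mul, map_mul,
      map_pow, PowerSeries.map_X]
    congr 1
    rw [Matrix.one_apply, Matrix.one_apply]
    split_ifs
    · rw [map_one]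
    · rw [map_zero]
  have hi : g * hh.map (k1_L lam) =
      (PowerSeries.X : PowerSeries E) ^ b • (H * G.map (k1_L lam)) := by
    rw [hL, eg, Matrix.mul_assoc, ← Matrix.mul_assoc (C.map _), CK', Matrix.smul_mul,
      Matrix.one_mul, Matrix.mul_smul]
  -- degrees
  have dL : ∀ i j, Dg D (hh.map (k1_L lam) i j) := fun i j n hn => by
    rw [Matrix.map_apply, k1_L_coeff, dh i j n hn, map_zero]
  have dP : ∀ i j, Dg (D + D) ((g * hh.map (k1_L lam)) i j) := fun i j n hn => by
    rw [Matrix.mul_apply, map_sum]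
    exact Finset.sum_eq_zero fun k _ => Dg.mul (dg i k) (dL k j) n hn
  -- reversed identities
  have hgr : hh.map (rv D) * g.map (rv D) = (PowerSeries.X : PowerSeries E) ^ N • 1 := by
    rw [← k1_rv_mat dh dg, hg]
    ext1 i j
    rw [Matrix.map_apply, Matrix.smul_apply, Matrix.smul_apply, smul_eq_mul, smul_eq_mul,
      Matrix.one_apply]
    split_ifs
    · rw [mul_one, mul_one, rv_X_pow (by omega), hDD]
    · rw [mul_zero, mul_zero, k1_rv_zero]
  set Q : Matrix (Fin r) (Fin r) (PowerSeries K) := p.map (rv D) * Θ with hQ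
  have eQ : (p.map (PowerSeries.map (algebraMap K E))).map (rv D)
        * Θ.map (PowerSeries.map (algebraMap K E)) = Q.map (PowerSeries.map (algebraMap K E)) := by
    rw [hQ, Matrix.map_mul]
    congr 1
    ext1 i j
    simp only [Matrix.map_apply, rv_map]
  rw [eQ] at eZ
  have e1 : Q.map (PowerSeries.map (algebraMap K E)) = Z * g.map (rv D) := by
    apply k1_cancel (N := N)
    rw [← Matrix.smul_mul, ← eZ, Matrix.mul_assoc, hgr, Matrix.mul_smul, Matrix.mul_one]
  have e2 : (hh.map (rv D)).map (k1_L lam) = (hh.map (k1_L lam)).map (rv D) := by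
    ext i j n
    simp only [Matrix.map_apply, k1_L_coeff, rv, PowerSeries.coeff_mk]
    split_ifs
    · rfl
    · rw [map_zero]
  have e3 : Z * (g.map (rv D) * (hh.map (k1_L lam)).map (rv D)) =
      (PowerSeries.X : PowerSeries E) ^ N • Z.map (k1_L lam) := by
    rw [← Matrix.mul_assoc, ← e1, ← e2, ← k1_L_mat, eZ, k1_L_X]
  -- `Z.map L` is divisible by `X`
  have hZ1 : ∃ Z1 : Matrix (Fin r) (Fin r) (PowerSeries E),
      Z.map (k1_L lam) = (PowerSeries.X : PowerSeries E) • Z1 := by
    have h1 : ∀ i j, (PowerSeries.X : PowerSeries E) ∣ k1_L lam (Z i j) := fun i j => by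
      rw [PowerSeries.X_dvd_iff, ← PowerSeries.coeff_zero_eq_constantCoeff_apply, k1_L_coeff,
        PowerSeries.coeff_zero_eq_constantCoeff_apply, Z0]
      split_ifs
      · exact hl
      · exact map_zero _
    choose Z1 hZ1 using h1
    refine ⟨Matrix.of Z1, ?_⟩
    ext1 i j
    rw [Matrix.map_apply, Matrix.smul_apply, smul_eq_mul, Matrix.of_apply]
    exact hZ1 i j
  obtain ⟨Z1, hZ1⟩ := hZ1
  -- `Z` is invertible
  have hdet : IsUnit Z.det := by
    rw [PowerSeries.isUnit_iff_constantCoeff]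
    have h1 : PowerSeries.constantCoeff Z.det = (Z.map (PowerSeries.constantCoeff (R := E))).det :=
      RingHom.map_det _ _
    have h2 : Z.map (PowerSeries.constantCoeff (R := E)) = 1 := by
      ext1 i j
      rw [Matrix.map_apply, Z0, Matrix.one_apply]
    rw [h1, h2, Matrix.det_one]
    exact isUnit_one
  have e4 : (g * hh.map (k1_L lam)).map (rv (D + D)) =
      (PowerSeries.X : PowerSeries E) ^ (N + 1) • (Z⁻¹ * Z1) := by
    rw [k1_rv_mat dg dL]
    have h1 : Z⁻¹ * (Z * (g.map (rv D) * (hh.map (k1_L lam)).map (rv D))) =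
        g.map (rv D) * (hh.map (k1_L lam)).map (rv D) := by
      rw [← Matrix.mul_assoc, Matrix.nonsing_inv_mul _ hdet, Matrix.one_mul]
    rw [← h1, e3, hZ1, smul_smul, ← pow_succ, Matrix.mul_smul]
  -- `g * L hh = 0`
  have hP : g * hh.map (k1_L lam) = 0 := by
    ext i j n
    rw [Matrix.zero_apply, map_zero]
    rcases lt_or_ge n b with hnb | hnb
    · rw [hi, Matrix.smul_apply, smul_eq_mul, PowerSeries.coeff_X_pow_mul', if_neg (by omega)]
    · rcases lt_or_ge (D + D) n with hn | hn
      · exact dP i j n hn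
      · have h1 := congrArg (PowerSeries.coeff (2 * D - n)) (congrFun (congrFun e4 i) j)
        rw [Matrix.map_apply, Matrix.smul_apply, smul_eq_mul, PowerSeries.coeff_X_pow_mul',
          if_neg (by omega), rv, PowerSeries.coeff_mk, if_pos (by omega),
          show D + D - (2 * D - n) = n by omega] at h1
        exact h1
  have e5 : hh * (g * hh.map (k1_L lam)) =
      (PowerSeries.X : PowerSeries E) ^ b • hh.map (k1_L lam) := by
    rw [← Matrix.mul_assoc, hg, Matrix.smul_mul, Matrix.one_mul]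
  rw [hP, Matrix.mul_zero] at e5
  apply k1_cancel (N := b)
  rw [← e5, smul_zero]

/-- MODULE k1. THE COMPARISON LEMMA. `s = X`. Let `lam : E → E` be any `K`-linear map with
`lam 1 = 0`, applied coefficientwise (it commutes with products with elements of `K[[X]]`).
(i) `C lam(hh) = C Kk lam(G) = s^b lam(G)`, so `g lam(hh) = H C lam(hh) = s^b H lam(G)` is
divisible by `s^b`. (ii) With `u = 1/s` and reversed polynomials: `eZ` and
`hh^r g^r = u^(2D-b)` give (cancel `u^(2D-b)` on both sides) `Z g^r = p^r Θ`; applying `lam` to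
`eZ`: `p^r Θ lam(hh)^r = u^(2D-b) lam(Z)`, and `lam(Z)` is divisible by `u`. So
`Z (g lam(hh))^r = u^(2D-b) lam(Z)` (reversal at `2D`), `Z` is invertible, and
`(g lam(hh))^r` is divisible by `u^(2D-b+1)`: `g lam(hh)` has degree `< b`. So
`g lam(hh) = 0`, and `lam(hh) = 0` (multiply by `hh`). Since a vector outside the line
`K · 1` of the `K`-vector space `E` is detected by some `lam`, the coefficients of `hh` are in `K`.
(iii) `hh g = s^b` gives `hh lam(g) = 0`, `lam(g) = 0`. -/
theorem bu {K E : Type} [Field K] [Field E] [Algebra K E] {r b D : ℕ}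
    (g hh G H Z : Matrix (Fin r) (Fin r) (PowerSeries E))
    (p C Kk Θ : Matrix (Fin r) (Fin r) (PowerSeries K))
    (dg : ∀ i j, Dg D (g i j)) (dh : ∀ i j, Dg D (hh i j)) (dp : ∀ i j, Dg D (p i j))
    (gh : g * hh = (PowerSeries.X : PowerSeries E) ^ b • 1)
    (hg : hh * g = (PowerSeries.X : PowerSeries E) ^ b • 1)
    (GH : G * H = 1) (HG : H * G = 1)
    (eg : g = H * C.map (PowerSeries.map (algebraMap K E)))
    (eh : hh = Kk.map (PowerSeries.map (algebraMap K E)) * G)
    (CK : C * Kk = (PowerSeries.X : PowerSeries K) ^ b • 1)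
    (hbD : b ≤ 2 * D)
    (eZ : (p.map (PowerSeries.map (algebraMap K E))).map (rv D)
        * Θ.map (PowerSeries.map (algebraMap K E)) * hh.map (rv D)
      = (PowerSeries.X : PowerSeries E) ^ (2 * D - b) • Z)
    (Z0 : ∀ i j, PowerSeries.constantCoeff (Z i j) = if i = j then 1 else 0) :
    (∀ i j n, PowerSeries.coeff n (g i j) ∈ Set.range (algebraMap K E)) ∧
      ∀ i j n, PowerSeries.coeff n (hh i j) ∈ Set.range (algebraMap K E) := by
  have key := k1_main g hh G H Z p C Kk Θ dg dh gh hg GH HG eg eh CK hbD eZ Z0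
  have hhK : ∀ i j n, PowerSeries.coeff n (hh i j) ∈ Set.range (algebraMap K E) := by
    intro i j n
    by_contra hx
    obtain ⟨lam, h1, h2⟩ := k1_lam hx
    have h3 := congrArg (PowerSeries.coeff n) (congrFun (congrFun (key lam h1) i) j)
    rw [Matrix.map_apply, k1_L_coeff, Matrix.zero_apply, map_zero] at h3
    exact h2 h3
  refine ⟨?_, hhK⟩
  choose y hy using hhK
  set h0 : Matrix (Fin r) (Fin r) (PowerSeries K) :=
    Matrix.of fun i j => PowerSeries.mk fun n => y i j n with hh0
  have e0 : hh = h0.map (PowerSeries.map (algebraMap K E)) := by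
    ext i j n
    rw [Matrix.map_apply, PowerSeries.coeff_map, hh0, Matrix.of_apply, PowerSeries.coeff_mk, hy]
  intro i j n
  by_contra hx
  obtain ⟨lam, h1, h2⟩ := k1_lam hx
  have h3 : hh * g.map (k1_L lam) = 0 := by
    rw [e0, ← k1_L_mat, ← e0, hg, k1_L_X]
    have h4 : (1 : Matrix (Fin r) (Fin r) (PowerSeries E)).map (k1_L lam) = 0 := by
      ext i j n
      rw [Matrix.map_apply, k1_L_coeff, Matrix.one_apply, Matrix.zero_apply, map_zero]
      split_ifs
      · rw [PowerSeries.coeff_one]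
        split_ifs
        · exact h1
        · exact map_zero _
      · rw [map_zero, map_zero]
    rw [h4, smul_zero]
  have h5 : g * (hh * g.map (k1_L lam)) =
      (PowerSeries.X : PowerSeries E) ^ b • g.map (k1_L lam) := by
    rw [← Matrix.mul_assoc, gh, Matrix.smul_mul, Matrix.one_mul]
  rw [h3, Matrix.mul_zero] at h5
  have h6 : g.map (k1_L lam) = 0 := by
    apply k1_cancel (N := b)
    rw [← h5, smul_zero]
  have h7 := congrArg (PowerSeries.coeff n) (congrFun (congrFun h6 i) j)
  rw [Matrix.map_apply, k1_L_coeff, Matrix.zero_apply, map_zero] at h7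
  exact h2 h7

end k1

/-- power series in `z` -/
abbrev Zs : Type := MvPowerSeries (Fin 1) ℂ

/-- a power series in `z`, `s` as a power series in `s` with coefficients in `ℂ[[z]]` -/
noncomputable def sl : Ser 1 →+* PowerSeries Zs :=
  (MvPowerSeries.optionEquivLeft (Fin 1) ℂ).toRingEquiv.toRingHom

/-- the convergent power series in `z` -/
noncomputable def CvZ : Subalgebra ℂ Zs :=
  (formal 1).alg.comap (MvPowerSeries.rename (R := ℂ) (some : Fin 1 → Option (Fin 1)))

section k2

private lemma k2a_mem (f : Zs) : f ∈ CvZ ↔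
    IsFormal (MvPowerSeries.rename (R := ℂ) (some : Fin 1 → Option (Fin 1)) f) := Iff.rfl

private lemma k2a_coeff (f : Zs) (m : Fin 1 →₀ ℕ) :
    MvPowerSeries.coeff (Finsupp.mapDomain (some : Fin 1 → Option (Fin 1)) m)
      (MvPowerSeries.rename (R := ℂ) (some : Fin 1 → Option (Fin 1)) f) =
        MvPowerSeries.coeff m f := by
  have h := MvPowerSeries.coeff_embDomain_rename (R := ℂ)
    (Function.Embedding.some : Fin 1 ↪ Option (Fin 1)) f m
  rw [Finsupp.embDomain_eq_mapDomain] at h
  exact h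

private lemma k2a_deg (m : Fin 1 →₀ ℕ) :
    (Finsupp.mapDomain (some : Fin 1 → Option (Fin 1)) m).degree = m.degree := by
  rw [Finsupp.degree_eq_sum, Finsupp.degree_eq_sum, Fintype.sum_option]
  have h0 : Finsupp.mapDomain (some : Fin 1 → Option (Fin 1)) m none = 0 :=
    Finsupp.mapDomain_of_notMem_range _ _ (by simp)
  rw [h0, zero_add]
  exact Finset.sum_congr rfl fun i _ => Finsupp.mapDomain_apply (Option.some_injective _) _ _

private lemma k2a_none (m : Fin 1 →₀ ℕ) :
    Finsupp.mapDomain (some : Fin 1 → Option (Fin 1)) m none = 0 :=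
  Finsupp.mapDomain_of_notMem_range _ _ (by simp)

/-- MODULE k2a -/
lemma mem_CvZ (f : Zs) : f ∈ CvZ ↔ ∃ C R : ℝ, ∀ m, ‖MvPowerSeries.coeff m f‖ ≤ C * R ^ m.degree := by
  rw [k2a_mem]
  constructor
  · rintro ⟨R, hR, h⟩
    obtain ⟨C, hC⟩ := h 0
    refine ⟨C, R, fun m => ?_⟩
    have h1 := hC _ (k2a_none m)
    rwa [k2a_coeff, k2a_deg] at h1
  · rintro ⟨C, R, h⟩
    refine ⟨max |R| 1, lt_of_lt_of_le one_pos (le_max_right _ _), fun j => ⟨|C|, fun m _ => ?_⟩⟩
    by_cases hm : m ∈ Set.range (Finsupp.mapDomain (some : Fin 1 → Option (Fin 1)))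
    · obtain ⟨m', rfl⟩ := hm
      rw [k2a_coeff, k2a_deg]
      refine (h m').trans ((le_abs_self _).trans ?_)
      rw [abs_mul, abs_pow]
      exact mul_le_mul_of_nonneg_left (pow_le_pow_left₀ (abs_nonneg _) (le_max_left _ _) _)
        (abs_nonneg _)
    · rw [MvPowerSeries.coeff_rename_eq_zero _ _ hm, norm_zero]
      positivity

private lemma k2a_sl (f : Ser 1) (n : ℕ) (x : Fin 1 →₀ ℕ) :
    MvPowerSeries.coeff x (PowerSeries.coeff n (sl f)) = MvPowerSeries.coeff (x.optionElim n) f :=
  MvPowerSeries.coeff_coeff_optionEquivLeft f n x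

private lemma k2a_degE (n : ℕ) (x : Fin 1 →₀ ℕ) : (x.optionElim n).degree = n + x.degree := by
  rw [Finsupp.degree_eq_sum, Finsupp.degree_eq_sum, Fintype.sum_option]
  simp

/-- MODULE k2a -/
lemma sl_coeff_mem {f : Ser 1} (hf : IsFormal f) (n : ℕ) : PowerSeries.coeff n (sl f) ∈ CvZ := by
  obtain ⟨R, hR, h⟩ := hf
  obtain ⟨C, hC⟩ := h n
  refine (mem_CvZ _).2 ⟨C * R ^ n, R, fun m => ?_⟩
  rw [k2a_sl, mul_assoc, ← pow_add, ← k2a_degE]
  exact hC _ (by simp)

/-- MODULE k2a -/
lemma formal_of_sl {D : ℕ} {f : Ser 1} (hD : ∀ m, D < m none → MvPowerSeries.coeff m f = 0)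
    (h : ∀ n, PowerSeries.coeff n (sl f) ∈ CvZ) : IsFormal f := by
  simp only [mem_CvZ] at h
  choose C R h using h
  set R' : ℝ := 1 + ∑ n ∈ Finset.range (D + 1), |R n| with hR'
  have h1 : 1 ≤ R' := by
    have : 0 ≤ ∑ n ∈ Finset.range (D + 1), |R n| := Finset.sum_nonneg fun _ _ => abs_nonneg _
    linarith
  refine ⟨R', by linarith, fun j => ⟨|C j|, fun m hm => ?_⟩⟩
  by_cases hj : D < j
  · rw [hD m (by omega), norm_zero]
    positivity
  · have hm' : m = m.some.optionElim j := by
      ext v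
      cases v with
      | none => simpa using hm
      | some i => simp
    have hRj : |R j| ≤ R' := by
      have := Finset.single_le_sum (f := fun n => |R n|) (fun _ _ => abs_nonneg _)
        (Finset.mem_range.2 (show j < D + 1 by omega))
      linarith
    have h2 := h j m.some
    rw [k2a_sl, ← hm'] at h2
    refine h2.trans ((le_abs_self _).trans ?_)
    rw [abs_mul, abs_pow]
    refine mul_le_mul_of_nonneg_left ?_ (abs_nonneg _)
    refine (pow_le_pow_left₀ (abs_nonneg _) hRj _).trans (pow_le_pow_right₀ h1 ?_)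
    conv_rhs => rw [hm', k2a_degE]
    omega

private lemma k2b_mem {f : Zs} : f ∈ CvZ ↔
    IsFormal (MvPowerSeries.rename (R := ℂ) (some : Fin 1 → Option (Fin 1)) f) := Iff.rfl

private lemma k2b_free (f : Zs) :
    SFree (MvPowerSeries.rename (R := ℂ) (some : Fin 1 → Option (Fin 1)) f) := by
  intro m hm
  refine MvPowerSeries.coeff_rename_eq_zero (R := ℂ) (some : Fin 1 → Option (Fin 1)) f ?_
  rintro ⟨q, rfl⟩
  apply hm
  exact Finsupp.mapDomain_of_notMem_range _ _ (by rintro ⟨i, hi⟩; exact absurd hi (by simp))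

private lemma k2b_inj : Function.Injective
    (MvPowerSeries.rename (R := ℂ) (some : Fin 1 → Option (Fin 1))) :=
  MvPowerSeries.rename_injective (R := ℂ) (Function.Embedding.some : Fin 1 ↪ Option (Fin 1))

/-- MODULE k2b. A quotient of convergent power series in one variable which is a power series is
convergent (`Cv_one` in NFc.lean: a nonzero convergent series is `z^m` times a unit). -/
lemma CvZ_div {a c f : Zs} (ha : a ∈ CvZ) (hc : c ∈ CvZ) (h0 : c ≠ 0) (h : c * f = a) :
    f ∈ CvZ := by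
  rw [k2b_mem] at ha hc ⊢
  set ρ := MvPowerSeries.rename (R := ℂ) (some : Fin 1 → Option (Fin 1)) with hρ
  have hc0 : ρ c ≠ 0 := by
    intro h1
    apply h0
    apply k2b_inj
    rw [map_zero]
    exact h1
  obtain ⟨m, u, v, hu, hv, huv, hcm⟩ := Cv_one (ρ c) ⟨hc, k2b_free c⟩ hc0
  have h1 : MvPowerSeries.X (some 0) ^ m * ρ f = v * ρ a := by
    have h2 : ρ c * ρ f = ρ a := by rw [← map_mul, h]
    calc MvPowerSeries.X (some 0) ^ m * ρ f
        = v * (MvPowerSeries.X (some 0) ^ m * u * ρ f) := by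
          have h3 : v * (MvPowerSeries.X (some 0) ^ m * u * ρ f) =
            (u * v) * (MvPowerSeries.X (some 0) ^ m * ρ f) := by ring
          rw [h3, huv, one_mul]
      _ = v * ρ a := by rw [← hcm, h2]
  have h4 : IsFormal (v * ρ a) := Pool.Fml.isFormal_mul hv.1 ha
  rw [← h1] at h4
  obtain ⟨R, hR, hC⟩ := h4
  refine ⟨R, hR, fun j => ?_⟩
  obtain ⟨C, hC⟩ := hC j
  refine ⟨C * R ^ m, fun p hp => ?_⟩
  have h5 := hC (Finsupp.single (some 0) m + p) (by
    rw [Finsupp.add_apply, Finsupp.single_eq_of_ne (by simp), zero_add]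
    exact hp)
  rw [MvPowerSeries.X_pow_eq, MvPowerSeries.coeff_add_monomial_mul, one_mul] at h5
  refine h5.trans (le_of_eq ?_)
  rw [map_add, Finsupp.degree_single, pow_add]
  ring

/-- MODULE k2b. A power series in `z` whose image in `Frac ℂ[[z]]` lies in `Frac ℂ{z}` is
convergent. -/
lemma mem_of_frac [Algebra (FractionRing CvZ) (FractionRing Zs)]
    [IsScalarTower CvZ (FractionRing CvZ) (FractionRing Zs)] {f : Zs}
    (h : algebraMap Zs (FractionRing Zs) f ∈
      Set.range (algebraMap (FractionRing CvZ) (FractionRing Zs))) : f ∈ CvZ := by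
  obtain ⟨x, hx⟩ := h
  obtain ⟨a, c, hc, rfl⟩ := IsFractionRing.div_surjective (A := CvZ) x
  have hc0 : c ≠ 0 := nonZeroDivisors.ne_zero hc
  have hc1 : (c : Zs) ≠ 0 := fun h1 => hc0 (Subtype.ext h1)
  have key : ∀ y : CvZ, algebraMap (FractionRing CvZ) (FractionRing Zs)
      (algebraMap CvZ (FractionRing CvZ) y) = algebraMap Zs (FractionRing Zs) (y : Zs) := by
    intro y
    rw [← IsScalarTower.algebraMap_apply CvZ (FractionRing CvZ) (FractionRing Zs)]
    rfl
  rw [map_div₀, key, key] at hx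
  have hc2 : algebraMap Zs (FractionRing Zs) (c : Zs) ≠ 0 := by
    intro h1
    apply hc1
    exact (IsFractionRing.injective Zs (FractionRing Zs)) (by rw [h1, map_zero])
  refine CvZ_div a.2 c.2 hc1 ?_
  apply IsFractionRing.injective Zs (FractionRing Zs)
  rw [map_mul, ← hx, mul_div_cancel₀ _ hc2]

/-- MODULE k2b. `Frac ℂ{z} → Frac ℂ[[z]]` (`FractionRing.liftAlgebra`) -/
lemma exists_alg : ∃ (i : Algebra (FractionRing CvZ) (FractionRing Zs)),
    IsScalarTower CvZ (FractionRing CvZ) (FractionRing Zs) := by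
  have hinj : Function.Injective (algebraMap CvZ (FractionRing Zs)) := by
    intro x y hxy
    have h1 : algebraMap Zs (FractionRing Zs) (x : Zs) = algebraMap Zs (FractionRing Zs) (y : Zs) :=
      hxy
    exact Subtype.ext (IsFractionRing.injective Zs (FractionRing Zs) h1)
  have hf : FaithfulSMul CvZ (FractionRing Zs) := (faithfulSMul_iff_algebraMap_injective _ _).2 hinj
  exact ⟨FractionRing.liftAlgebra CvZ (FractionRing Zs),
    @FractionRing.isScalarTower_liftAlgebra CvZ _ (FractionRing Zs) _ _ hf⟩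

end k2

section k3

/-- primitive with respect to `z` -/
private noncomputable def k3a_prim (f : Zs) : Zs :=
  fun m => if m 0 = 0 then 0 else MvPowerSeries.coeff (m - Finsupp.single 0 1) f / (m 0 : ℂ)

private lemma k3a_coeff (f : Zs) (m : Fin 1 →₀ ℕ) : MvPowerSeries.coeff m (k3a_prim f) =
    if m 0 = 0 then 0 else MvPowerSeries.coeff (m - Finsupp.single 0 1) f / (m 0 : ℂ) := rfl

private lemma k3a_pd (f : Zs) : MvPowerSeries.pderiv ℂ 0 (k3a_prim f) = f := by
  ext m
  rw [MvPowerSeries.coeff_pderiv, k3a_coeff]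
  have h1 : (m + Finsupp.single 0 1 : Fin 1 →₀ ℕ) 0 = m 0 + 1 := by simp
  rw [h1, if_neg (Nat.succ_ne_zero _), add_tsub_cancel_right]
  have h2 : ((m 0 : ℕ) : ℂ) + 1 ≠ 0 := Nat.cast_add_one_ne_zero _
  push_cast
  field_simp

private lemma k3a_cst (f : Zs) : MvPowerSeries.constantCoeff (k3a_prim f) = 0 := by
  have : MvPowerSeries.coeff 0 (k3a_prim f) = 0 := by
    rw [k3a_coeff, if_pos (by simp)]
  simpa using this

private lemma k3a_mem {f : Zs} (hf : f ∈ CvZ) : k3a_prim f ∈ CvZ := by
  rw [mem_CvZ] at hf ⊢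
  obtain ⟨C, R, h⟩ := hf
  refine ⟨|C|, max |R| 1, fun m => ?_⟩
  rw [k3a_coeff]
  by_cases hm : m 0 = 0
  · rw [if_pos hm, norm_zero]; positivity
  · rw [if_neg hm, norm_div, Complex.norm_natCast]
    have h1 : (1 : ℝ) ≤ (m 0 : ℕ) := by exact_mod_cast Nat.one_le_iff_ne_zero.2 hm
    have hR : 1 ≤ max |R| 1 := le_max_right _ _
    calc ‖MvPowerSeries.coeff (m - Finsupp.single 0 1) f‖ / ((m 0 : ℕ) : ℝ)
        ≤ ‖MvPowerSeries.coeff (m - Finsupp.single 0 1) f‖ := div_le_self (norm_nonneg _) h1
      _ ≤ C * R ^ (m - Finsupp.single 0 1).degree := h _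
      _ ≤ |C * R ^ (m - Finsupp.single 0 1).degree| := le_abs_self _
      _ = |C| * |R| ^ (m - Finsupp.single 0 1).degree := by rw [abs_mul, abs_pow]
      _ ≤ |C| * (max |R| 1) ^ (m - Finsupp.single 0 1).degree :=
          mul_le_mul_of_nonneg_left (pow_le_pow_left₀ (abs_nonneg _) (le_max_left _ _) _)
            (abs_nonneg _)
      _ ≤ |C| * (max |R| 1) ^ m.degree :=
          mul_le_mul_of_nonneg_left (pow_le_pow_right₀ hR
            (Finsupp.degree_mono tsub_le_self)) (abs_nonneg _)

/-- the coefficients of `Θ` -/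
private noncomputable def k3a_seq {r : ℕ} (a : Matrix (Fin r) (Fin r) CvZ) :
    ℕ → Matrix (Fin r) (Fin r) CvZ
  | 0 => 1
  | n + 1 => fun i j => ⟨k3a_prim (∑ l, k3a_seq a n i l * a l j : CvZ).1, k3a_mem (Subtype.property _)⟩

/-- MODULE k3a. `Θ = 1 + ∑_{n>0} Θ_n u^n` with `∂_z Θ = u Θ a`, `Θ(z = 0) = 1`: primitives of
convergent power series are convergent. -/
theorem exists_theta {r : ℕ} (a : Matrix (Fin r) (Fin r) CvZ) :
    ∃ Θ : Matrix (Fin r) (Fin r) (PowerSeries CvZ),
      (∀ i j, PowerSeries.coeff 0 (Θ i j) = if i = j then 1 else 0) ∧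
      (∀ n i j, MvPowerSeries.pderiv ℂ 0 ((PowerSeries.coeff (n + 1) (Θ i j) : CvZ) : Zs) =
        ∑ l, ((PowerSeries.coeff n (Θ i l) : CvZ) : Zs) * (a l j : Zs)) ∧
      ∀ n i j, MvPowerSeries.constantCoeff ((PowerSeries.coeff (n + 1) (Θ i j) : CvZ) : Zs) = 0 := by
  refine ⟨fun i j => PowerSeries.mk fun n => k3a_seq a n i j, fun i j => ?_, fun n i j => ?_,
    fun n i j => ?_⟩
  · rw [PowerSeries.coeff_mk]
    exact Matrix.one_apply
  · simp only [PowerSeries.coeff_mk]
    have h : ((k3a_seq a (n + 1) i j : CvZ) : Zs) = k3a_prim (∑ l, k3a_seq a n i l * a l j : CvZ).1 :=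
      rfl
    rw [h, k3a_pd]
    simp
  · simp only [PowerSeries.coeff_mk]
    exact k3a_cst _

/-- coefficientwise derivative with respect to `z` -/
noncomputable def dz : PowerSeries Zs →+ PowerSeries Zs where
  toFun f := PowerSeries.mk fun n => MvPowerSeries.pderiv ℂ 0 (PowerSeries.coeff n f)
  map_zero' := by ext; simp
  map_add' f g := by ext; simp

private lemma k3b_coeff (f : PowerSeries Zs) (n : ℕ) :
    PowerSeries.coeff n (dz f) = MvPowerSeries.pderiv ℂ 0 (PowerSeries.coeff n f) := by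
  change PowerSeries.coeff n (PowerSeries.mk fun n => MvPowerSeries.pderiv ℂ 0
    (PowerSeries.coeff n f)) = _
  rw [PowerSeries.coeff_mk]

/-- MODULE k3b -/
lemma dz_mul (f g : PowerSeries Zs) : dz (f * g) = dz f * g + f * dz g := by
  refine PowerSeries.ext fun n => ?_
  rw [k3b_coeff, map_add, PowerSeries.coeff_mul, PowerSeries.coeff_mul, PowerSeries.coeff_mul,
    map_sum, ← Finset.sum_add_distrib]
  refine Finset.sum_congr rfl fun p _ => ?_
  rw [Derivation.leibniz, k3b_coeff, k3b_coeff, smul_eq_mul, smul_eq_mul]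
  ring

/-- MODULE k3b -/
lemma dz_sl (f : Ser 1) : dz (sl f) = sl (serD (some 0) f) := by
  refine PowerSeries.ext fun n => ?_
  rw [k3b_coeff]
  ext m
  rw [MvPowerSeries.coeff_pderiv]
  change MvPowerSeries.coeff (m + Finsupp.single 0 1)
    (PowerSeries.coeff n (MvPowerSeries.optionEquivLeft (Fin 1) ℂ f)) * _ = MvPowerSeries.coeff m
    (PowerSeries.coeff n (MvPowerSeries.optionEquivLeft (Fin 1) ℂ (MvPowerSeries.pderiv ℂ (some 0) f)))
  rw [MvPowerSeries.coeff_coeff_optionEquivLeft, MvPowerSeries.coeff_coeff_optionEquivLeft,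
    MvPowerSeries.coeff_pderiv]
  have h1 : (Finsupp.optionElim n m) (some 0) = m 0 := by simp
  have h2 : Finsupp.optionElim n (m + Finsupp.single 0 1) =
      Finsupp.optionElim n m + Finsupp.single (some 0) 1 := by
    classical
    ext v
    cases v with
    | none => simp
    | some i =>
      simp only [Finsupp.optionElim_apply_some, Finsupp.add_apply]
      congr 1
      rw [Finsupp.single_apply, Finsupp.single_apply]
      exact if_congr (by simp) rfl rfl
  rw [h1, h2]

/-- MODULE k3b -/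
lemma rv_dz (D : ℕ) (f : PowerSeries Zs) : rv D (dz f) = dz (rv D f) := by
  refine PowerSeries.ext fun n => ?_
  rw [k3b_coeff]
  simp only [rv, PowerSeries.coeff_mk]
  split_ifs
  · rw [k3b_coeff]
  · rw [map_zero]


private lemma k4_const {f : Zs} (h : MvPowerSeries.pderiv ℂ (0 : Fin 1) f = 0) :
    f = MvPowerSeries.C (MvPowerSeries.constantCoeff f) := by
  classical
  ext m
  rw [MvPowerSeries.coeff_C]
  split_ifs with hm
  · rw [hm]
    rfl
  · have h1 : m 0 ≠ 0 := by
      intro h2
      apply hm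
      refine Finsupp.ext fun i => ?_
      have hi : i = 0 := Subsingleton.elim _ _
      rw [hi, h2]
      rfl
    have h2 : m = (m - Finsupp.single 0 1) + Finsupp.single 0 1 := by
      rw [tsub_add_cancel_of_le]
      intro j
      have hj : j = 0 := Subsingleton.elim _ _
      rw [hj, Finsupp.single_eq_same]
      omega
    have h3 : MvPowerSeries.coeff m f *
        ((((m - Finsupp.single (0 : Fin 1) 1 : Fin 1 →₀ ℕ) 0 : ℕ) : ℂ) + 1) = 0 := by
      have h5 := congrArg (MvPowerSeries.coeff (m - Finsupp.single 0 1)) h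
      rw [MvPowerSeries.coeff_pderiv, ← h2] at h5
      exact h5.trans (map_zero _)
    rcases mul_eq_zero.1 h3 with h4 | h4
    · exact h4
    · exfalso
      have h5 : (((m - Finsupp.single (0 : Fin 1) 1 : Fin 1 →₀ ℕ) 0 + 1 : ℕ) : ℂ) = 0 := by
        push_cast
        exact h4
      exact absurd (Nat.cast_eq_zero.1 h5) (by omega)

/-- MODULE k4. Coefficient of `u^n`: `∂_z W_n = ∑_{a+c=n-1} W_a A_c`, `W_n(z = 0) = 0` for
`n ≠ N`, so `W_n = 0` for `n < N` and `W_N = 1`. -/
theorem exists_Z {r N : ℕ} (W A : Matrix (Fin r) (Fin r) (PowerSeries Zs))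
    (h : W.map dz = (PowerSeries.X : PowerSeries Zs) • (W * A))
    (h0 : ∀ n i j, MvPowerSeries.constantCoeff (PowerSeries.coeff n (W i j)) =
      if n = N ∧ i = j then 1 else 0) :
    ∃ Z : Matrix (Fin r) (Fin r) (PowerSeries Zs),
      W = (PowerSeries.X : PowerSeries Zs) ^ N • Z ∧
      ∀ i j, PowerSeries.constantCoeff (Z i j) = if i = j then 1 else 0 := by
  have hder : ∀ n i j, MvPowerSeries.pderiv ℂ (0 : Fin 1) (PowerSeries.coeff n (W i j)) =
      PowerSeries.coeff n ((PowerSeries.X : PowerSeries Zs) * ∑ l, W i l * A l j) := by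
    intro n i j
    have h1 := congrArg (PowerSeries.coeff n) (congrFun (congrFun h i) j)
    rw [Matrix.smul_apply, smul_eq_mul, Matrix.mul_apply, Matrix.map_apply] at h1
    rw [← h1]
    show _ = PowerSeries.coeff n (PowerSeries.mk fun n =>
      MvPowerSeries.pderiv ℂ 0 (PowerSeries.coeff n (W i j)))
    rw [PowerSeries.coeff_mk]
  have hz : ∀ n, (∀ m < n, ∀ i j, PowerSeries.coeff m (W i j) = 0) →
      ∀ i j, MvPowerSeries.pderiv ℂ (0 : Fin 1) (PowerSeries.coeff n (W i j)) = 0 := by
    intro n hn i j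
    rw [hder]
    rcases n with _ | n
    · rw [PowerSeries.coeff_zero_X_mul]
    · rw [PowerSeries.coeff_succ_X_mul, map_sum]
      refine Finset.sum_eq_zero fun l _ => ?_
      rw [PowerSeries.coeff_mul]
      refine Finset.sum_eq_zero fun p hp => ?_
      rw [mem_antidiagonal] at hp
      rw [hn p.1 (by omega), zero_mul]
  have hlow : ∀ n < N, ∀ i j, PowerSeries.coeff n (W i j) = 0 := by
    intro n
    induction n using Nat.strong_induction_on with
    | _ n ih =>
      intro hn i j
      rw [k4_const (hz n (fun m hm => ih m hm (hm.trans hn)) i j), h0, if_neg (by omega), map_zero]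
  have hN : ∀ i j, PowerSeries.coeff N (W i j) = if i = j then 1 else 0 := by
    intro i j
    rw [k4_const (hz N hlow i j), h0]
    by_cases hij : i = j
    · rw [if_pos ⟨rfl, hij⟩, if_pos hij, map_one]
    · rw [if_neg (fun h => hij h.2), if_neg hij, map_zero]
  refine ⟨W.map fun f => PowerSeries.mk fun n => PowerSeries.coeff (n + N) f, ?_, ?_⟩
  · ext1 i j
    rw [Matrix.smul_apply, smul_eq_mul, Matrix.map_apply]
    ext1 n
    rw [PowerSeries.coeff_X_pow_mul']
    split_ifs with hn
    · rw [PowerSeries.coeff_mk, Nat.sub_add_cancel hn]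
    · exact hlow n (by omega) i j
  · intro i j
    rw [Matrix.map_apply, ← PowerSeries.coeff_zero_eq_constantCoeff_apply, PowerSeries.coeff_mk,
      zero_add, hN]

private lemma k4_rv_sum {ι : Type} (D : ℕ) (s : Finset ι) (f : ι → PowerSeries Zs) :
    rv D (∑ l ∈ s, f l) = ∑ l ∈ s, rv D (f l) := by
  classical
  induction s using Finset.induction_on with
  | empty =>
    rw [Finset.sum_empty, Finset.sum_empty]
    ext1 n
    rw [rv, PowerSeries.coeff_mk]
    split_ifs <;> simp
  | insert a s ha ih => rw [Finset.sum_insert ha, Finset.sum_insert ha, rv_add, ih]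

private lemma k4_dg {D : ℕ} {f : Ser 1} (h : ∀ m, D < m none → MvPowerSeries.coeff m f = 0) :
    Dg D (sl f) := by
  intro n hn
  ext m
  show MvPowerSeries.coeff m (PowerSeries.coeff n (MvPowerSeries.optionEquivLeft (Fin 1) ℂ f)) = _
  rw [MvPowerSeries.coeff_coeff_optionEquivLeft, h _ (by
    rw [Finsupp.optionElim_apply_none]
    exact hn), map_zero]

private lemma k4_sl_s : sl (sS : Ser 1) = PowerSeries.X :=
  MvPowerSeries.optionEquivLeft_X_none

private lemma k4_rv_zero {f : PowerSeries Zs} (h : Dg 0 f) : rv 0 f = f := by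
  ext1 n
  rw [rv, PowerSeries.coeff_mk]
  split_ifs with hn
  · rw [Nat.le_zero.1 hn]
  · rw [h n (by omega)]

private lemma k4_rv_succ {b : ℕ} {f : PowerSeries Zs} (h : Dg b f) :
    rv (b + 1) f = PowerSeries.X * rv b f := by
  ext1 n
  rw [rv, PowerSeries.coeff_mk]
  rcases n with _ | n
  · rw [PowerSeries.coeff_zero_X_mul, if_pos (Nat.zero_le _), Nat.sub_zero, h _ (by omega)]
  · rw [PowerSeries.coeff_succ_X_mul, rv, PowerSeries.coeff_mk]
    by_cases hn : n ≤ b
    · rw [if_pos hn, if_pos (by omega)]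
      congr 1
      congr 1
      omega
    · rw [if_neg hn, if_neg (by omega)]

/-- MODULE k4. Reverse (at `D + b + 1`) the equation
`s^(b+1) ∂_z hh + s^b A'' hh = hh A'`. -/
theorem rev_ode {b D : ℕ} {hh A' A'' : Mx 1 r} (dh : ∀ m, D < m none → cm m hh = 0)
    (hA'' : ∀ l j, SFree (A'' l j)) (hA' : ∀ m, b < m none → cm m A' = 0)
    (ode : (sS : Ser 1) ^ (b + 1) • hh.map (serD (some 0)) + (sS : Ser 1) ^ b • (A'' * hh)
      = hh * A') :
    ((hh.map sl).map (rv D)).map dz = (PowerSeries.X : PowerSeries Zs) •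
      ((hh.map sl).map (rv D) * (A'.map sl).map (rv b) - A''.map sl * (hh.map sl).map (rv D)) := by
  have d1 : ∀ i j, Dg D (sl (hh i j)) := fun i j =>
    k4_dg fun m hm => congrFun (congrFun (dh m hm) i) j
  have d2 : ∀ i j, Dg b (sl (A' i j)) := fun i j =>
    k4_dg fun m hm => congrFun (congrFun (hA' m hm) i) j
  have d3 : ∀ i j, Dg 0 (sl (A'' i j)) := fun i j =>
    k4_dg fun m hm => hA'' i j m (by omega)
  have d4 : ∀ i j, Dg D (dz (sl (hh i j))) := by
    intro i j n hn
    show PowerSeries.coeff n (PowerSeries.mk fun n =>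
      MvPowerSeries.pderiv ℂ 0 (PowerSeries.coeff n (sl (hh i j)))) = 0
    rw [PowerSeries.coeff_mk, d1 i j n hn, map_zero]
  have dX : ∀ n : ℕ, Dg n ((PowerSeries.X : PowerSeries Zs) ^ n) := by
    intro n m hm
    rw [PowerSeries.coeff_X_pow, if_neg (by omega)]
  ext1 i j
  have h1 := congrArg sl (congrFun (congrFun ode i) j)
  rw [Matrix.add_apply, Matrix.smul_apply, Matrix.smul_apply, smul_eq_mul, smul_eq_mul,
    Matrix.mul_apply, Matrix.mul_apply, Matrix.map_apply, map_add, map_mul, map_mul, map_pow,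
    map_pow, k4_sl_s, map_sum, map_sum, ← dz_sl] at h1
  simp only [map_mul] at h1
  have h2 := congrArg (rv (b + 1 + D)) h1
  rw [rv_add, rv_mul (dX (b + 1)) (d4 i j), rv_X_pow le_rfl, Nat.sub_self, pow_zero, one_mul,
    Finset.mul_sum, k4_rv_sum, k4_rv_sum] at h2
  have e1 : ∀ l, rv (b + 1 + D) ((PowerSeries.X : PowerSeries Zs) ^ b *
      (sl (A'' i l) * sl (hh l j))) = PowerSeries.X * (sl (A'' i l) * rv D (sl (hh l j))) := by
    intro l
    have dXb : Dg (b + 1) ((PowerSeries.X : PowerSeries Zs) ^ b) := fun m hm =>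
      dX b m (by omega)
    have d5 : Dg D (sl (A'' i l) * sl (hh l j)) := by
      have := (d3 i l).mul (d1 l j)
      rwa [zero_add] at this
    have e2 : rv D (sl (A'' i l) * sl (hh l j)) = sl (A'' i l) * rv D (sl (hh l j)) := by
      have := rv_mul (d3 i l) (d1 l j)
      rwa [zero_add, k4_rv_zero (d3 i l)] at this
    rw [rv_mul dXb d5, rv_X_pow (Nat.le_succ b), e2]
    congr 1
    rw [Nat.succ_sub (le_refl b), Nat.sub_self, pow_one]
  have e3 : ∀ l, rv (b + 1 + D) (sl (hh i l) * sl (A' l j)) =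
      PowerSeries.X * (rv D (sl (hh i l)) * rv b (sl (A' l j))) := by
    intro l
    have d6 : Dg (b + 1) (sl (A' l j)) := fun m hm => d2 l j m (by omega)
    have := rv_mul (d1 i l) d6
    rw [add_comm D] at this
    rw [this, k4_rv_succ (d2 l j)]
    ring
  rw [Finset.sum_congr rfl fun l _ => e1 l, Finset.sum_congr rfl fun l _ => e3 l,
    ← Finset.mul_sum, ← Finset.mul_sum, rv_dz] at h2
  rw [Matrix.map_apply, Matrix.map_apply, Matrix.map_apply, Matrix.smul_apply, Matrix.sub_apply,
    Matrix.mul_apply, Matrix.mul_apply, smul_eq_mul, mul_sub]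
  simp only [Matrix.map_apply]
  rw [← h2]
  ring

end k3

section k5

private noncomputable def k5_lift (f : Ser 1) (hf : IsFormal f) : PowerSeries CvZ :=
  PowerSeries.mk fun n => ⟨PowerSeries.coeff n (sl f), sl_coeff_mem hf n⟩

private noncomputable def k5_v : PowerSeries CvZ →+* PowerSeries Zs :=
  PowerSeries.map (CvZ.val : CvZ →ₐ[ℂ] Zs).toRingHom

private lemma k5_lift_map (f : Ser 1) (hf : IsFormal f) : k5_v (k5_lift f hf) = sl f := by
  ext n : 1
  rw [k5_v, PowerSeries.coeff_map, k5_lift, PowerSeries.coeff_mk]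
  rfl

private lemma k5_Dg {D : ℕ} {f : Ser 1} (h : ∀ m, D < m none → MvPowerSeries.coeff m f = 0) :
    Dg D (sl f) := by
  intro n hn
  ext x
  have h1 : MvPowerSeries.coeff x (PowerSeries.coeff n (sl f)) =
      MvPowerSeries.coeff (x.optionElim n) f :=
    MvPowerSeries.coeff_coeff_optionEquivLeft (σ := Fin 1) (R := ℂ) f n x
  rw [h1, map_zero]
  refine h _ ?_
  simpa using hn

private lemma k5_sS : sl sS = (PowerSeries.X : PowerSeries Zs) :=
  MvPowerSeries.optionEquivLeft_X_none

private noncomputable def k5_rv (R : Type) [CommRing R] (D : ℕ) :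
    PowerSeries R →+ PowerSeries R where
  toFun := rv D
  map_zero' := by
    ext n
    rw [rv, PowerSeries.coeff_mk]
    split_ifs <;> simp
  map_add' := rv_add D

private lemma k5_rv_mul {R : Type} [CommRing R] {D D' : ℕ}
    {M N : Matrix (Fin r) (Fin r) (PowerSeries R)}
    (hM : ∀ i j, Dg D (M i j)) (hN : ∀ i j, Dg D' (N i j)) :
    (M * N).map (rv (D + D')) = M.map (rv D) * N.map (rv D') := by
  ext1 i j
  rw [Matrix.map_apply, Matrix.mul_apply, Matrix.mul_apply]
  have h1 : rv (D + D') (∑ l, M i l * N l j) = ∑ l, rv (D + D') (M i l * N l j) :=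
    map_sum (k5_rv R (D + D')) _ _
  rw [h1]
  refine Finset.sum_congr rfl fun l _ => ?_
  rw [rv_mul (hM i l) (hN l j), Matrix.map_apply, Matrix.map_apply]

private lemma k5_dz_mul {M N : Matrix (Fin r) (Fin r) (PowerSeries Zs)} :
    (M * N).map dz = M.map dz * N + M * N.map dz := by
  ext1 i j
  rw [Matrix.map_apply, Matrix.add_apply, Matrix.mul_apply, Matrix.mul_apply, Matrix.mul_apply,
    map_sum, ← Finset.sum_add_distrib]
  exact Finset.sum_congr rfl fun l _ => dz_mul _ _

private lemma k5_rv_mapM {R S : Type} [CommRing R] [CommRing S] (φ : R →+* S) (D : ℕ)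
    (M : Matrix (Fin r) (Fin r) (PowerSeries R)) :
    (M.map (PowerSeries.map φ)).map (rv D) = (M.map (rv D)).map (PowerSeries.map φ) := by
  ext1 i j
  exact rv_map φ D (M i j)

private lemma k5_mulM {R S : Type} [CommRing R] [CommRing S] (φ : R →+* S)
    (M N : Matrix (Fin r) (Fin r) R) : (M * N).map φ = M.map φ * N.map φ := Matrix.map_mul

private lemma k5_smulM {R S : Type} [CommRing R] [CommRing S] (φ : R →+* S) (f : R)
    (M : Matrix (Fin r) (Fin r) R) : (f • M).map φ = φ f • M.map φ := by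
  ext1 i j
  rw [Matrix.map_apply, Matrix.smul_apply, Matrix.smul_apply, Matrix.map_apply, smul_eq_mul,
    smul_eq_mul, map_mul]

private lemma k5_oneM {R S : Type} [CommRing R] [CommRing S] (φ : R →+* S) :
    (1 : Matrix (Fin r) (Fin r) R).map φ = 1 := by
  ext1 i j
  rw [Matrix.map_apply, Matrix.one_apply, Matrix.one_apply]
  split_ifs
  · exact map_one φ
  · exact map_zero φ

private lemma k5_coeff_dz (f : PowerSeries Zs) (n : ℕ) :
    PowerSeries.coeff n (dz f) = MvPowerSeries.pderiv ℂ 0 (PowerSeries.coeff n f) := by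
  change PowerSeries.coeff n (PowerSeries.mk fun n =>
    MvPowerSeries.pderiv ℂ 0 (PowerSeries.coeff n f)) = _
  rw [PowerSeries.coeff_mk]

/-- MODULE k5. Let `Θ` be the solution of `exists_theta` for `a = A''` (its entries are free of `s`
and formal) and `W = p^r Θ hh^r` (reversed polynomials, degree `≤ D`). By `rev_ode`
`∂_z W = u W A'^r` and `W(z = 0) = p^r q^r = u^(2D-b)`; `exists_Z`; then `bu` with
`K = FractionRing CvZ`, `E = FractionRing Zs` (`exists_alg`) for the images of all the
matrices; conclude with `mem_of_frac` and `formal_of_sl`. -/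
theorem bu_ser {b D : ℕ} (g hh Cc Kk G H A' A'' : Mx 1 r)
    (p q : Matrix (Fin r) (Fin r) ℂ[X])
    (GH : G * H = 1) (HG : H * G = 1)
    (hC : ∀ l j, IsFormal (Cc l j)) (hKk : ∀ l j, IsFormal (Kk l j))
    (CK : Cc * Kk = (sS : Ser 1) ^ b • (1 : Mx 1 r))
    (eg : g = H * Cc) (eh : hh = Kk * G)
    (gh : g * hh = (sS : Ser 1) ^ b • (1 : Mx 1 r))
    (hg : hh * g = (sS : Ser 1) ^ b • (1 : Mx 1 r))
    (hbD : b ≤ 2 * D)
    (dg : ∀ m, D < m none → cm m g = 0) (dh : ∀ m, D < m none → cm m hh = 0)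
    (hA'' : ∀ l j, SFree (A'' l j)) (hA''f : ∀ l j, IsFormal (A'' l j))
    (hA' : ∀ m, b < m none → cm m A' = 0)
    (ode : (sS : Ser 1) ^ (b + 1) • hh.map (serD (some 0)) + (sS : Ser 1) ^ b • (A'' * hh)
      = hh * A')
    (g0 : g.map (z0 1) = pm p) (h0 : hh.map (z0 1) = pm q)
    (pq : p * q = (X : ℂ[X]) ^ b • 1) :
    (∀ l j, IsFormal (g l j)) ∧ ∀ l j, IsFormal (hh l j) := by
  have dge : ∀ l j m, D < m none → MvPowerSeries.coeff m (g l j) = 0 := fun l j m hm =>
    congrFun (congrFun (dg m hm) l) j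
  have dhe : ∀ l j m, D < m none → MvPowerSeries.coeff m (hh l j) = 0 := fun l j m hm =>
    congrFun (congrFun (dh m hm) l) j
  let ε : PowerSeries Zs →+* PowerSeries ℂ := PowerSeries.map MvPowerSeries.constantCoeff
  have hz0 : ∀ f : Ser 1, ε (sl f) = z0 1 f := fun f => rfl
  -- the matrix `a`
  let a : Matrix (Fin r) (Fin r) CvZ :=
    Matrix.of fun i j => ⟨PowerSeries.coeff 0 (sl (A'' i j)), sl_coeff_mem (hA''f i j) 0⟩
  have ha : ∀ i j, sl (A'' i j) = PowerSeries.C (a i j : Zs) := by
    intro i j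
    ext n x
    have h1 : MvPowerSeries.coeff x (PowerSeries.coeff n (sl (A'' i j))) =
        MvPowerSeries.coeff (x.optionElim n) (A'' i j) :=
      MvPowerSeries.coeff_coeff_optionEquivLeft (σ := Fin 1) (R := ℂ) (A'' i j) n x
    rcases n with _ | n
    · rw [PowerSeries.coeff_zero_C]
      rfl
    · rw [h1, PowerSeries.coeff_C, if_neg (Nat.succ_ne_zero n), map_zero]
      exact hA'' i j _ (by simp)
  obtain ⟨Θ, hΘ0, hΘ1, hΘ2⟩ := exists_theta a
  set ΘZ : Matrix (Fin r) (Fin r) (PowerSeries Zs) := Θ.map k5_v with hΘZ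
  have cv : ∀ (f : PowerSeries CvZ) (n : ℕ),
      PowerSeries.coeff n (k5_v f) = ((PowerSeries.coeff n f : CvZ) : Zs) := by
    intro f n
    rw [k5_v, PowerSeries.coeff_map]
    rfl
  have hdΘ : ΘZ.map dz = (PowerSeries.X : PowerSeries Zs) • (ΘZ * A''.map sl) := by
    ext1 i j
    ext n : 1
    rw [Matrix.map_apply, Matrix.smul_apply, smul_eq_mul]
    rw [k5_coeff_dz, hΘZ, Matrix.map_apply, cv]
    rcases n with _ | n
    · rw [PowerSeries.coeff_zero_X_mul, hΘ0]
      split_ifs
      · exact Derivation.map_one_eq_zero _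
      · exact map_zero _
    · rw [PowerSeries.coeff_succ_X_mul, hΘ1, Matrix.mul_apply, map_sum]
      refine Finset.sum_congr rfl fun l _ => ?_
      rw [Matrix.map_apply, Matrix.map_apply, ha, PowerSeries.coeff_mul_C, cv]
  set pz : Matrix (Fin r) (Fin r) (PowerSeries CvZ) :=
    (pm p).map (PowerSeries.map (algebraMap ℂ CvZ)) with hpz
  set hr : Matrix (Fin r) (Fin r) (PowerSeries Zs) := (hh.map sl).map (rv D) with hhr
  set pr : Matrix (Fin r) (Fin r) (PowerSeries Zs) := (pz.map k5_v).map (rv D) with hpr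
  have hdp : pr.map dz = 0 := by
    ext1 i j
    ext n : 1
    rw [Matrix.map_apply, Matrix.zero_apply, map_zero]
    rw [k5_coeff_dz, hpr, Matrix.map_apply, Matrix.map_apply, rv, PowerSeries.coeff_mk]
    split_ifs with hn
    · rw [cv, hpz, Matrix.map_apply, PowerSeries.coeff_map]
      exact Derivation.map_algebraMap _ _
    · exact map_zero _
  have hW := rev_ode (b := b) (D := D) dh hA'' hA' ode
  set Ar : Matrix (Fin r) (Fin r) (PowerSeries Zs) := (A'.map sl).map (rv b) with hAr
  have hWode : (pr * ΘZ * hr).map dz = (PowerSeries.X : PowerSeries Zs) • (pr * ΘZ * hr * Ar) := by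
    rw [k5_dz_mul, k5_dz_mul, hdp, zero_mul, zero_add, hdΘ, hW, Matrix.mul_smul, Matrix.mul_smul,
      Matrix.smul_mul, ← smul_add]
    congr 1
    rw [mul_sub]
    simp only [Matrix.mul_assoc]
    abel
  have hDp : ∀ i j, Dg D (pm p i j) := by
    intro i j n hn
    rw [← g0, Matrix.map_apply, ← hz0, PowerSeries.coeff_map, k5_Dg (dge i j) n hn, map_zero]
  have hDq : ∀ i j, Dg D (pm q i j) := by
    intro i j n hn
    rw [← h0, Matrix.map_apply, ← hz0, PowerSeries.coeff_map, k5_Dg (dhe i j) n hn, map_zero]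
  have hpre : pr.map ε = (pm p).map (rv D) := by
    have h1 : (pz.map k5_v).map ε = pm p := by
      ext1 i j
      ext n
      rw [Matrix.map_apply, Matrix.map_apply, PowerSeries.coeff_map, cv, hpz, Matrix.map_apply,
        PowerSeries.coeff_map]
      exact MvPowerSeries.constantCoeff_C _
    rw [hpr, ← k5_rv_mapM, h1]
  have hhre : hr.map ε = (pm q).map (rv D) := by
    rw [hhr, ← k5_rv_mapM, ← h0]
    rfl
  have hΘe : ΘZ.map ε = 1 := by
    ext1 i j
    ext n
    rw [Matrix.map_apply, PowerSeries.coeff_map, hΘZ, Matrix.map_apply, cv]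
    rcases n with _ | n
    · rw [hΘ0, Matrix.one_apply]
      split_ifs
      · rw [PowerSeries.coeff_zero_one]
        exact map_one _
      · rw [map_zero]
        exact map_zero _
    · rw [hΘ2, Matrix.one_apply]
      split_ifs
      · rw [PowerSeries.coeff_one, if_neg (Nat.succ_ne_zero n)]
      · rw [map_zero]
  have hpq : pm p * pm q = (PowerSeries.X : PowerSeries ℂ) ^ b • 1 := by
    have h1 : pm p * pm q = pm (p * q) :=
      (Matrix.map_mul (L := p) (M := q) (f := Polynomial.coeToPowerSeries.ringHom)).symm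
    rw [h1, pq]
    ext1 i j
    rw [pm, Matrix.map_apply, Matrix.smul_apply, Matrix.smul_apply, Matrix.one_apply,
      Matrix.one_apply, smul_eq_mul, smul_eq_mul]
    split_ifs
    · rw [mul_one, mul_one, Polynomial.coe_pow, Polynomial.coe_X]
    · rw [mul_zero, mul_zero, Polynomial.coe_zero]
  have hWe : (pr * ΘZ * hr).map ε = (PowerSeries.X : PowerSeries ℂ) ^ (2 * D - b) • 1 := by
    rw [k5_mulM, k5_mulM, hpre, hΘe, hhre, mul_one, ← k5_rv_mul hDp hDq, hpq, ← two_mul]
    ext1 i j
    rw [Matrix.map_apply, Matrix.smul_apply, Matrix.smul_apply, Matrix.one_apply, smul_eq_mul,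
      smul_eq_mul]
    split_ifs
    · rw [mul_one, mul_one, rv_X_pow hbD]
    · rw [mul_zero, mul_zero]
      exact map_zero (k5_rv ℂ (2 * D))
  obtain ⟨Z, hZ, hZ0⟩ := exists_Z (N := 2 * D - b) (pr * ΘZ * hr) Ar hWode (by
    intro n i j
    have h1 := congrArg (PowerSeries.coeff n) (congrFun (congrFun hWe i) j)
    rw [Matrix.map_apply, PowerSeries.coeff_map] at h1
    rw [h1, Matrix.smul_apply, Matrix.one_apply, smul_eq_mul]
    by_cases hij : i = j
    · rw [if_pos hij, mul_one, PowerSeries.coeff_X_pow]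
      simp [hij]
    · rw [if_neg hij, mul_zero, map_zero, if_neg (fun h => hij h.2)])
  -- the fields
  obtain ⟨iA, iT⟩ := exists_alg
  letI := iA
  haveI := iT
  let jE : Zs →+* FractionRing Zs := algebraMap _ _
  let jK : CvZ →+* FractionRing CvZ := algebraMap _ _
  let κ : FractionRing CvZ →+* FractionRing Zs := algebraMap _ _
  have comm : ∀ x : CvZ, κ (jK x) = jE (x : Zs) := by
    intro x
    have h1 := IsScalarTower.algebraMap_apply CvZ (FractionRing CvZ) (FractionRing Zs) x
    rw [← h1]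
    rfl
  have comm' : ∀ f : PowerSeries CvZ,
      PowerSeries.map κ (PowerSeries.map jK f) = PowerSeries.map jE (k5_v f) := by
    intro f
    ext n
    rw [PowerSeries.coeff_map, PowerSeries.coeff_map, PowerSeries.coeff_map, cv, comm]
  let Φ : Ser 1 →+* PowerSeries (FractionRing Zs) := (PowerSeries.map jE).comp sl
  have hΦs : Φ sS = PowerSeries.X := by
    change PowerSeries.map jE (sl sS) = _
    rw [k5_sS, PowerSeries.map_X]
  let lf : ∀ (M : Mx 1 r), (∀ l j, IsFormal (M l j)) →
      Matrix (Fin r) (Fin r) (PowerSeries (FractionRing CvZ)) := fun M hM =>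
    Matrix.of fun i j => PowerSeries.map jK (k5_lift (M i j) (hM i j))
  have hlf : ∀ (M : Mx 1 r) (hM : ∀ l j, IsFormal (M l j)),
      (lf M hM).map (PowerSeries.map κ) = M.map Φ := by
    intro M hM
    ext1 i j
    rw [Matrix.map_apply, Matrix.map_apply]
    change PowerSeries.map κ (PowerSeries.map jK (k5_lift (M i j) (hM i j))) =
      PowerSeries.map jE (sl (M i j))
    rw [comm', k5_lift_map]
  have κinj : Function.Injective κ := κ.injective
  have κinj' : Function.Injective (PowerSeries.map κ) := by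
    intro x y hxy
    ext n
    have h1 := congrArg (PowerSeries.coeff n) hxy
    rw [PowerSeries.coeff_map, PowerSeries.coeff_map] at h1
    exact κinj h1
  have gh' : ∀ {M N : Mx 1 r}, M * N = (sS : Ser 1) ^ b • (1 : Mx 1 r) →
      M.map Φ * N.map Φ = (PowerSeries.X : PowerSeries (FractionRing Zs)) ^ b • 1 := by
    intro M N hMN
    rw [← k5_mulM, hMN, k5_smulM, k5_oneM, map_pow, hΦs]
  have key := bu (K := FractionRing CvZ) (E := FractionRing Zs) (r := r) (b := b) (D := D)
    (g.map Φ) (hh.map Φ) (G.map Φ) (H.map Φ) (Z.map (PowerSeries.map jE))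
    (pz.map (PowerSeries.map jK)) (lf Cc hC) (lf Kk hKk) (Θ.map (PowerSeries.map jK))
    (fun i j n hn => by
      change PowerSeries.coeff n (PowerSeries.map jE (sl (g i j))) = 0
      rw [PowerSeries.coeff_map, k5_Dg (dge i j) n hn, map_zero])
    (fun i j n hn => by
      change PowerSeries.coeff n (PowerSeries.map jE (sl (hh i j))) = 0
      rw [PowerSeries.coeff_map, k5_Dg (dhe i j) n hn, map_zero])
    (fun i j n hn => by
      rw [Matrix.map_apply, PowerSeries.coeff_map, hpz, Matrix.map_apply, PowerSeries.coeff_map,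
        hDp i j n hn, map_zero, map_zero])
    (gh' gh) (gh' hg)
    (by rw [← k5_mulM, GH, k5_oneM]) (by rw [← k5_mulM, HG, k5_oneM])
    (by
      have h1 := hlf Cc hC
      rw [h1, ← k5_mulM, ← eg])
    (by
      have h1 := hlf Kk hKk
      rw [h1, ← k5_mulM, ← eh])
    (by
      refine Matrix.map_injective κinj' ?_
      simp only
      have h1 : (lf Cc hC * lf Kk hKk).map (PowerSeries.map κ) =
          (PowerSeries.X : PowerSeries (FractionRing Zs)) ^ b • 1 := by
        rw [k5_mulM, hlf, hlf, gh' CK]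
      rw [h1, k5_smulM, k5_oneM, map_pow, PowerSeries.map_X])
    hbD
    (by
      have e1 : ((pz.map (PowerSeries.map jK)).map (PowerSeries.map κ)).map (rv D) =
          pr.map (PowerSeries.map jE) := by
        rw [hpr, ← k5_rv_mapM]
        congr 1
        ext1 i j
        exact comm' (pz i j)
      have e2 : (Θ.map (PowerSeries.map jK)).map (PowerSeries.map κ) =
          ΘZ.map (PowerSeries.map jE) := by
        ext1 i j
        exact comm' (Θ i j)
      have e3 : (hh.map Φ).map (rv D) = hr.map (PowerSeries.map jE) := by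
        rw [hhr, ← k5_rv_mapM]
        rfl
      have e4 : (pr * ΘZ * hr).map (PowerSeries.map jE) =
          (PowerSeries.X : PowerSeries (FractionRing Zs)) ^ (2 * D - b) •
            Z.map (PowerSeries.map jE) := by
        rw [hZ, k5_smulM, map_pow, PowerSeries.map_X]
      rw [k5_mulM, k5_mulM] at e4
      rw [← e4, ← e1, ← e2, ← e3])
    (by
      intro i j
      rw [Matrix.map_apply, ← PowerSeries.coeff_zero_eq_constantCoeff_apply,
        PowerSeries.coeff_map, PowerSeries.coeff_zero_eq_constantCoeff_apply, hZ0]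
      split_ifs
      · exact map_one jE
      · exact map_zero jE)
  refine ⟨fun l j => ?_, fun l j => ?_⟩
  · exact formal_of_sl (dge l j) fun n => mem_of_frac (by
      have h1 := key.1 l j n
      rw [Matrix.map_apply] at h1
      change PowerSeries.coeff n (PowerSeries.map jE (sl (g l j))) ∈ _ at h1
      rw [PowerSeries.coeff_map] at h1
      exact h1)
  · exact formal_of_sl (dhe l j) fun n => mem_of_frac (by
      have h1 := key.2 l j n
      rw [Matrix.map_apply] at h1
      change PowerSeries.coeff n (PowerSeries.map jE (sl (hh l j))) ∈ _ at h1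
      rw [PowerSeries.coeff_map] at h1
      exact h1)

end k5

end Pool.Agent.Fbc
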