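import Pool.Agent.Fbc.NGc

/-!
# Lattices which are not free, part f: descent
-/

set_option autoImplicit false
set_option linter.unusedVariables false

namespace Pool.Agent.Fbc

open Polynomial
open Pool.Fml (Ser SymRing formal micro IsFormal IsMicro cm eulM)

variable {d r : ℕ}

/-- a coframe with microdifferential matrices: `κ : L → R^r` and `ρ : R^r → L` (`R` = formal symbols)
with `ρ κ = s^b`, such that `κ ρ` and the matrices of `P_i`, `T` (times `s^b`) in the coframe are
microdifferential -/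
structure Cof (M : FLat (formal d)) (r b : ℕ) where
  /-- the coordinates -/
  κ : M.L →ₗ[(formal d).alg] (Fin r → (formal d).alg)
  /-- the map in the other direction -/
  ρ : (Fin r → (formal d).alg) →ₗ[(formal d).alg] M.L
  ρκ : ∀ u, ρ (κ u) = (formal d).var none ^ b • u
  micE : ∀ l j, IsMicro (κ (ρ (Pi.single j 1)) l : Ser d)
  /-- the matrices of `s^b P_i` -/
  A : Fin d → Mx d r
  micA : ∀ i l j, IsMicro (A i l j)
  hA : ∀ i u l, (sS : Ser d) ^ b * (κ (M.P i u) l : Ser d) =
    (sS : Ser d) ^ (b + 1) * serD (some i) (κ u l : Ser d) +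
      ((A i).mulVec fun l => (κ u l : Ser d)) l
  /-- the matrix of `s^b T` -/
  B : Mx d r
  micB : ∀ l j, IsMicro (B l j)
  hB : ∀ u l, (sS : Ser d) ^ b * (κ (M.T u) l : Ser d) =
    (sS : Ser d) ^ (b + 2) * serD none (κ u l : Ser d) + (B.mulVec fun l => (κ u l : Ser d)) l

private lemma e0_der (θ : Der (Ser d)) (G : Mx d r) (y : Fin r → Ser d) :
    (fun l => θ ((G.mulVec y) l)) = (G.map θ).mulVec y + G.mulVec fun l => θ (y l) := by
  funext l
  rw [Pi.add_apply]
  simp only [Matrix.mulVec, dotProduct, Matrix.map_apply]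
  rw [map_sum, ← Finset.sum_add_distrib]
  exact Finset.sum_congr rfl fun j _ => θ.leib _ _

private lemma e0_conj (θ : Der (Ser d)) (c e : Ser d) {G H X X' : Mx d r} (hGH : G * H = 1)
    (hHG : H * G = 1) (hX : c • G.map θ + X * G = G * X') (v w : Fin r → Ser d)
    (hw : e • w = c • (fun l => θ (v l)) + X.mulVec v) :
    e • H.mulVec w = c • (fun l => θ ((H.mulVec v) l)) + X'.mulVec (H.mulVec v) := by
  set y := H.mulVec v with hy
  have hv : v = G.mulVec y := by
    rw [hy, Matrix.mulVec_mulVec, hGH, Matrix.one_mulVec]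
  have h1 : e • w = c • (G.mulVec fun l => θ (y l)) + G.mulVec (X'.mulVec y) := by
    have h2 : (fun l => θ (v l)) = (G.map θ).mulVec y + G.mulVec fun l => θ (y l) := by
      rw [← e0_der, ← hv]
    have h3 : G.mulVec (X'.mulVec y) = c • (G.map θ).mulVec y + X.mulVec (G.mulVec y) := by
      rw [Matrix.mulVec_mulVec y G X', ← hX, Matrix.add_mulVec, Matrix.smul_mulVec,
        Matrix.mulVec_mulVec y X G]
    rw [hw, h2, h3, ← hv, smul_add]
    abel
  rw [← Matrix.mulVec_smul, h1, Matrix.mulVec_add, Matrix.mulVec_smul, Matrix.mulVec_mulVec,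
    Matrix.mulVec_mulVec, hHG, Matrix.one_mulVec, Matrix.one_mulVec]

private lemma e0_s_ne : (sS : Ser d) ≠ 0 := by
  intro h
  have := congrArg (MvPowerSeries.coeff (Finsupp.single none 1)) h
  rw [sS, MvPowerSeries.coeff_X, if_pos rfl, map_zero] at this
  exact one_ne_zero this

/-- MODULE e0. `κ u = H ι(u, 0)` and `ρ y` = first component of `∑_j (G y)_j u_j`, where `ι`, `u_j`
are the data of `φ`. `κ ρ = E'` (`Fr.vec_E` for `(M.pr m).e`), and the matrices are `A'`, `B'`;
they are micro by `isMicro_of_low`. -/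
theorem exists_Cof (M : FLat (formal d)) (m : ℕ) {b k : ℕ} (φ : Fr (M.plus m) r b)
    {A' : Fin d → Mx d r} {B' E' G H : Mx d r}
    (h : NFB b k φ.A A' φ.B B' (φ.E (M.pr m).e) E' G H)
    (hA' : ∀ i l j, IsFormal (A' i l j)) (hB' : ∀ l j, IsFormal (B' l j))
    (hE' : ∀ l j, IsFormal (E' l j)) (hG : ∀ l j, IsFormal (G l j))
    (hH : ∀ l j, IsFormal (H l j)) : Nonempty (Cof M r b) := by
  classical
  let inl' : M.L →ₗ[(formal d).alg] (M.plus m).L :=
    LinearMap.inl (formal d).alg M.L (Fin m → (formal d).alg)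
  let fst' : (M.plus m).L →ₗ[(formal d).alg] M.L :=
    LinearMap.fst (formal d).alg M.L (Fin m → (formal d).alg)
  have hpr : ∀ w, (M.pr m).e w = inl' (fst' w) := fun w => rfl
  have hP : ∀ i u, (M.plus m).P i (inl' u) = inl' (M.P i u) := by
    intro i u
    refine Prod.ext rfl ?_
    funext j
    change (formal d).var none * (formal d).pd (some i) 0 = 0
    rw [(formal d).pd_zero, mul_zero]
  have hT : ∀ u, (M.plus m).T (inl' u) = inl' (M.T u) := by
    intro u
    refine Prod.ext rfl ?_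
    funext j
    change (formal d).var none ^ 2 * (formal d).pd none 0 = 0
    rw [(formal d).pd_zero, mul_zero]
  let Hf : Matrix (Fin r) (Fin r) (formal d).alg := Matrix.of fun l j => ⟨H l j, hH l j⟩
  let Gf : Matrix (Fin r) (Fin r) (formal d).alg := Matrix.of fun l j => ⟨G l j, hG l j⟩
  have hGHf : Gf * Hf = 1 := by
    ext l j
    have h1 : ((Gf * Hf) l j : Ser d) = (G * H) l j := by
      rw [Matrix.mul_apply, Matrix.mul_apply, AddSubmonoidClass.coe_finsetSum]
      rfl
    rw [h1, h.gau.GH, Matrix.one_apply, Matrix.one_apply]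
    split_ifs <;> rfl
  have hcoe : ∀ (X : Matrix (Fin r) (Fin r) (formal d).alg) (y : Fin r → (formal d).alg),
      (fun l => (X.mulVec y l : Ser d)) =
        Matrix.mulVec (Matrix.of fun l j => (X l j : Ser d)) fun l => (y l : Ser d) := by
    intro X y
    funext l
    rw [Matrix.mulVec, Matrix.mulVec, dotProduct, dotProduct, AddSubmonoidClass.coe_finsetSum]
    rfl
  let κ : M.L →ₗ[(formal d).alg] (Fin r → (formal d).alg) := Hf.mulVecLin ∘ₗ φ.ι ∘ₗ inl'
  let ρ : (Fin r → (formal d).alg) →ₗ[(formal d).alg] M.L :=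
    fst' ∘ₗ (Fintype.linearCombination (formal d).alg φ.u) ∘ₗ Gf.mulVecLin
  have hκ : ∀ u, (fun l => (κ u l : Ser d)) = H.mulVec (φ.vec (inl' u)) := by
    intro u
    exact hcoe Hf (φ.ι (inl' u))
  have hlow : ∀ {X : Mx d r} {n : ℕ}, (∀ l j, IsFormal (X l j)) → (∀ m, n < m none → cm m X = 0) →
      ∀ l j, IsMicro (X l j) := fun {X n} h1 h2 l j =>
    isMicro_of_low (k := n) (h1 l j) fun m hm => by
      have h3 := congrFun (congrFun (h2 m hm) l) j
      rw [Pool.Fml.cm_apply] at h3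
      exact h3
  refine ⟨{ κ := κ, ρ := ρ, ρκ := ?_, micE := ?_, A := A', micA := ?_, hA := ?_, B := B', micB := ?_,
            hB := ?_ }⟩
  · intro u
    have h1 : Gf.mulVecLin (κ u) = φ.ι (inl' u) := by
      show Gf.mulVec (Hf.mulVec (φ.ι (inl' u))) = _
      rw [Matrix.mulVec_mulVec, hGHf, Matrix.one_mulVec]
    show fst' (Fintype.linearCombination (formal d).alg φ.u (Gf.mulVecLin (κ u))) = _
    rw [h1, Fintype.linearCombination_apply, ← φ.s_smul, map_smul]
    rfl
  · intro l j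
    set w := Fintype.linearCombination (formal d).alg φ.u (Gf.mulVecLin (Pi.single j 1)) with hw
    have h1 : ρ (Pi.single j 1) = fst' w := rfl
    have h2 : φ.vec w = (sS : Ser d) ^ b • fun i => G i j := by
      funext i
      have h3 : φ.ι w = fun i => Gf i j * (formal d).var none ^ b := by
        rw [hw, Fintype.linearCombination_apply, map_sum]
        funext i
        rw [Finset.sum_apply, Finset.sum_eq_single i]
        · rw [map_smul, φ.hu, Matrix.mulVecLin_apply, Matrix.mulVec_single_one]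
          simp [Matrix.col]
        · intro i' _ hi'
          rw [map_smul, φ.hu, Pi.smul_apply, Pi.single_eq_of_ne (Ne.symm hi'), smul_zero]
        · intro h4
          exact absurd (Finset.mem_univ _) h4
      show ((φ.ι w i : (formal d).alg) : Ser d) = _
      rw [h3, Pi.smul_apply, smul_eq_mul, mul_comm]
      rfl
    have h4 := φ.vec_E (M.pr m).e w
    rw [hpr, h2, Matrix.mulVec_smul] at h4
    have h5 : φ.vec (inl' (fst' w)) = (φ.E (M.pr m).e).mulVec fun i => G i j := by
      have h6 : (sS : Ser d) ^ b ≠ 0 := pow_ne_zero _ e0_s_ne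
      funext i
      have h7 := congrFun h4 i
      rw [Pi.smul_apply, Pi.smul_apply, smul_eq_mul, smul_eq_mul] at h7
      exact mul_left_cancel₀ h6 h7
    have h8 : (fun l => (κ (ρ (Pi.single j 1)) l : Ser d)) = fun l => E' l j := by
      rw [hκ, h1, h5, Matrix.mulVec_mulVec]
      have h9 : (fun i => G i j) = G.mulVec (Pi.single j 1) := by
        rw [Matrix.mulVec_single_one]
        rfl
      rw [h9, Matrix.mulVec_mulVec, mul_assoc, h.gau.E, ← mul_assoc, h.gau.HG, one_mul,
        Matrix.mulVec_single_one]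
      rfl
    have h10 := congrFun h8 l
    show IsMicro (κ (ρ (Pi.single j 1)) l : Ser d)
    rw [show (κ (ρ (Pi.single j 1)) l : Ser d) = E' l j from h10]
    exact hlow hE' h.degE l j
  · intro i
    exact hlow (hA' i) (h.degA i)
  · intro i u l
    have h1 := e0_conj (serD (some i)) ((sS : Ser d) ^ (b + 1)) ((sS : Ser d) ^ b) h.gau.GH h.gau.HG
      (h.gau.P i) (φ.vec (inl' u)) (φ.vec ((M.plus m).P i (inl' u))) (φ.vec_P i (inl' u))
    rw [hP, ← hκ, ← hκ] at h1
    exact congrFun h1 l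
  · exact hlow hB' h.degB
  · intro u l
    have h1 := e0_conj (serD none) ((sS : Ser d) ^ (b + 2)) ((sS : Ser d) ^ b) h.gau.GH h.gau.HG
      h.gau.T (φ.vec (inl' u)) (φ.vec ((M.plus m).T (inl' u))) (φ.vec_T (inl' u))
    rw [hT, ← hκ, ← hκ] at h1
    exact congrFun h1 l

namespace Cof

variable {M : FLat (formal d)} {b : ℕ} (D : Cof M r b)

/-- the convergent lattice: the elements with microdifferential coordinates -/
def sub : AddSubgroup M.L where
  carrier := {u | ∀ l, IsMicro (D.κ u l : Ser d)}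
  zero_mem' := fun l => by
    rw [map_zero]
    exact (micro d).alg.zero_mem
  add_mem' := fun {u v} hu hv l => by
    rw [map_add]
    exact (micro d).alg.add_mem (hu l) (hv l)
  neg_mem' := fun {u} hu l => by
    rw [map_neg]
    exact (micro d).alg.neg_mem (hu l)

private lemma e1_div {b : ℕ} {g : Ser d} (h : IsMicro ((sS : Ser d) ^ b * g)) : IsMicro g := by
  induction b generalizing g with
  | zero =>
    rw [pow_zero, one_mul] at h
    exact h
  | succ b ih =>
    rw [pow_succ, mul_assoc] at h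
    exact Pool.Fml.IsMicro.div (ih h) rfl

private lemma e1_mul {f g : Ser d} (hf : IsMicro f) (hg : IsMicro g) : IsMicro (f * g) :=
  (micro d).alg.mul_mem hf hg

private lemma e1_add {f g : Ser d} (hf : IsMicro f) (hg : IsMicro g) : IsMicro (f + g) :=
  (micro d).alg.add_mem hf hg

private lemma e1_s (n : ℕ) : IsMicro ((sS : Ser d) ^ n) :=
  (micro d).alg.pow_mem ((micro d).X_mem none) n

private lemma e1_mulVec {C : Mx d r} (hC : ∀ l j, IsMicro (C l j)) {v : Fin r → Ser d}
    (hv : ∀ l, IsMicro (v l)) (l : Fin r) : IsMicro ((C.mulVec v) l) :=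
  (micro d).alg.sum_mem fun j _ => e1_mul (hC l j) (hv j)

/-- MODULE e1 -/
lemma sub_smul (f : (micro d).alg) {u : M.L} (hu : u ∈ D.sub) :
    Pool.Fml.Lattice.inc d f • u ∈ D.sub := by
  intro l
  rw [map_smul]
  exact e1_mul f.2 (hu l)

/-- MODULE e1. (`Pool.Fml.IsMicro.div`: if `s f` is micro then `f` is micro.) -/
lemma sub_T {u : M.L} (hu : u ∈ D.sub) : M.T u ∈ D.sub := by
  intro l
  refine e1_div (b := b) ?_
  rw [D.hB]
  exact e1_add (e1_mul (e1_s _) ((micro d).pd_mem none _ (hu l))) (e1_mulVec D.micB hu l)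

/-- MODULE e1 -/
lemma sub_P (i : Fin d) {u : M.L} (hu : u ∈ D.sub) : M.P i u ∈ D.sub := by
  intro l
  refine e1_div (b := b) ?_
  rw [D.hA]
  exact e1_add (e1_mul (e1_s _) ((micro d).pd_mem (some i) _ (hu l)))
    (e1_mulVec (D.micA i) hu l)

/-- MODULE e1 -/
lemma sub_ρ {y : Fin r → (formal d).alg} (hy : ∀ l, IsMicro (y l : Ser d)) : D.ρ y ∈ D.sub := by
  intro l
  have h1 : y = ∑ j, y j • (Pi.single j 1 : Fin r → (formal d).alg) := by
    conv_lhs => rw [pi_eq_sum_univ' y]
  have h2 : D.κ (D.ρ y) l =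
      ∑ j, y j * D.κ (D.ρ (Pi.single j 1)) l := by
    conv_lhs => rw [h1]
    rw [map_sum, map_sum, Finset.sum_apply]
    refine Finset.sum_congr rfl fun j _ => ?_
    rw [map_smul, map_smul]
    rfl
  rw [h2]
  have h3 : ((∑ j, y j * D.κ (D.ρ (Pi.single j 1)) l : (formal d).alg) : Ser d) =
      ∑ j, (y j : Ser d) * (D.κ (D.ρ (Pi.single j 1)) l : Ser d) := by
    exact map_sum (formal d).alg.val _ _
  rw [h3]
  exact (micro d).alg.sum_mem fun j _ => e1_mul (hy j) (D.micE l j)

/-- MODULE e1 -/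
lemma sub_div {u : M.L} (hu : (formal d).var none • u ∈ D.sub) : u ∈ D.sub := by
  intro l
  have h1 := hu l
  rw [map_smul] at h1
  exact Pool.Fml.IsMicro.div h1 rfl

private lemma e1_coeff (b : ℕ) (g : Ser d) (m : Option (Fin d) →₀ ℕ) :
    MvPowerSeries.coeff m ((sS : Ser d) ^ b * g) =
      if b ≤ m none then MvPowerSeries.coeff (m - Finsupp.single none b) g else 0 := by
  classical
  have h1 : (sS : Ser d) ^ b = MvPowerSeries.monomial (Finsupp.single none b) 1 := by
    unfold sS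
    rw [MvPowerSeries.X_pow_eq]
  rw [h1, MvPowerSeries.coeff_monomial_mul]
  by_cases h : b ≤ m none
  · rw [if_pos h, if_pos (by rwa [Finsupp.single_le_iff]), one_mul]
  · rw [if_neg h, if_neg (by rwa [Finsupp.single_le_iff])]

/-- MODULE e1. `f = f₀ + s^b f₁` with `f₀` of degree `< b` in `s` (so `f₀` is micro,
`isMicro_of_low`). -/
lemma split (b : ℕ) (f : (formal d).alg) :
    ∃ (f₀ : (micro d).alg) (f₁ : (formal d).alg),
      f = Pool.Fml.Lattice.inc d f₀ + (formal d).var none ^ b * f₁ := by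
  obtain ⟨R, hR, hf⟩ := f.2
  let g₀ : Ser d := fun m => if m none < b then MvPowerSeries.coeff m (f : Ser d) else 0
  let g₁ : Ser d := fun m => MvPowerSeries.coeff (m + Finsupp.single none b) (f : Ser d)
  have h0 : ∀ m, MvPowerSeries.coeff m g₀ =
      if m none < b then MvPowerSeries.coeff m (f : Ser d) else 0 := fun m => rfl
  have h1 : ∀ m, MvPowerSeries.coeff m g₁ =
      MvPowerSeries.coeff (m + Finsupp.single none b) (f : Ser d) := fun m => rfl
  have hg₀ : IsFormal g₀ := by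
    refine ⟨R, hR, fun j => ?_⟩
    obtain ⟨C, hC⟩ := hf j
    refine ⟨|C|, fun m hm => ?_⟩
    rw [h0]
    split_ifs
    · exact (hC m hm).trans (mul_le_mul_of_nonneg_right (le_abs_self _) (by positivity))
    · rw [norm_zero]
      positivity
  have hg₁ : IsFormal g₁ := by
    refine ⟨R, hR, fun j => ?_⟩
    obtain ⟨C, hC⟩ := hf (j + b)
    refine ⟨C * R ^ b, fun m hm => ?_⟩
    rw [h1]
    refine (hC _ ?_).trans (le_of_eq ?_)
    · rw [Finsupp.add_apply, hm, Finsupp.single_eq_same]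
    · rw [map_add, Finsupp.degree_single, pow_add]
      ring
  have hm₀ : IsMicro g₀ := isMicro_of_low (k := b) hg₀ fun m hm => by
    rw [h0, if_neg (by omega)]
  refine ⟨⟨g₀, hm₀⟩, ⟨g₁, hg₁⟩, Subtype.ext ?_⟩
  change (f : Ser d) = g₀ + (sS : Ser d) ^ b * g₁
  ext m
  rw [map_add, e1_coeff, h0]
  by_cases h : b ≤ m none
  · rw [if_neg (by omega), if_pos h, zero_add, h1, tsub_add_cancel_of_le]
    rwa [Finsupp.single_le_iff]
  · rw [if_pos (by omega), if_neg h, add_zero]

private lemma e2_div (n : ℕ) : ∀ {u : M.L}, (formal d).var none ^ n • u ∈ D.sub → u ∈ D.sub := by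
  induction n with
  | zero => intro u hu; rwa [pow_zero, one_smul] at hu
  | succ n ih =>
    intro u hu
    refine ih (D.sub_div ?_)
    rwa [smul_smul, ← pow_succ']

/-- MODULE e2. Write `κ u = y₀ + s^b y₁` with `y₀` of degree `< b` in `s` (micro). Then
`u - ρ y₁ ∈ sub`: from `s^b κ(u) = κ ρ κ u = E' κ u` (with `E' = κ ρ`) one gets
`s^b κ(u - ρ y₁) = E' y₀`, which is micro; divide by `s^b`. -/
theorem decomp (u : M.L) : ∃ n ∈ D.sub, ∃ y : Fin r → (formal d).alg, u = n + D.ρ y := by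
  choose y₀ y₁ hy using fun l => split b (D.κ u l)
  refine ⟨u - D.ρ y₁, ?_, y₁, (sub_add_cancel _ _).symm⟩
  refine D.e2_div b ?_
  have h1 : (formal d).var none ^ b • (u - D.ρ y₁) =
      D.ρ (fun l => Pool.Fml.Lattice.inc d (y₀ l)) := by
    rw [smul_sub, ← D.ρκ, ← map_smul, ← map_sub]
    congr 1
    funext l
    rw [Pi.sub_apply, Pi.smul_apply, smul_eq_mul, hy l, add_sub_cancel_right]
  rw [h1]
  exact D.sub_ρ fun l => (y₀ l).2

private lemma e2_single (j : Fin r) : D.ρ (Pi.single j 1) ∈ D.sub := by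
  classical
  refine D.sub_ρ fun l => ?_
  by_cases h : l = j
  · subst h
    rw [Pi.single_eq_same]
    exact (micro d).alg.one_mem
  · rw [Pi.single_eq_of_ne h]
    exact (micro d).alg.zero_mem

private lemma e2_rho {α : Fin r → (formal d).alg} (hα : D.ρ α ∈ D.sub) :
    ∃ β : Fin r → (micro d).alg,
      D.ρ α = ∑ j, Pool.Fml.Lattice.inc d (β j) • D.ρ (Pi.single j 1) := by
  classical
  choose α₀ α₁ hs using fun l => split b (α l)
  have h0 : D.ρ α = D.ρ (fun l => Pool.Fml.Lattice.inc d (α₀ l)) +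
      (formal d).var none ^ b • D.ρ α₁ := by
    rw [← map_smul, ← map_add]
    congr 1
    funext l
    exact hs l
  have h1 : D.ρ α₁ ∈ D.sub := by
    refine D.e2_div b ?_
    have h2 : (formal d).var none ^ b • D.ρ α₁ =
        D.ρ α - D.ρ (fun l => Pool.Fml.Lattice.inc d (α₀ l)) := by
      rw [h0, add_sub_cancel_left]
    rw [h2]
    exact D.sub.sub_mem hα (D.sub_ρ fun l => (α₀ l).2)
  refine ⟨fun j => α₀ j + ⟨(D.κ (D.ρ α₁) j : Ser d), h1 j⟩, ?_⟩
  have h3 : D.ρ α = D.ρ (fun l => Pool.Fml.Lattice.inc d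
      (α₀ l + ⟨(D.κ (D.ρ α₁) l : Ser d), h1 l⟩)) := by
    rw [h0, ← D.ρκ, ← map_add]
    congr 1
  rw [h3]
  have h4 : ∀ γ : Fin r → (formal d).alg, D.ρ γ = ∑ j, γ j • D.ρ (Pi.single j 1) := fun γ => by
    conv_lhs => rw [pi_eq_sum_univ' γ, map_sum]
    refine Finset.sum_congr rfl fun j _ => ?_
    rw [map_smul]
  exact h4 _

/-- MODULE e2. Let `g_1, …, g_n` generate `M.L` over the formal symbols, `g_i = g'_i + ρ y_i`
(`decomp`). The `g'_i` and the `ρ e_j` generate `sub` over the micro symbols: for `u ∈ sub`,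
`u = ∑ a_i g_i`, `a_i = a_i' + s^b a_i''` with `a_i'` micro; `s^b g'_i = ρ κ g'_i = ∑_j κ(g'_i)_j ρ e_j`,
so `u = ∑ a_i' g'_i + ρ α` with a formal vector `α`. Now `ρ α ∈ sub`; write `α = α₀ + s^b α₁`,
`ρ (s^b α₁) = ρ κ ρ α₁ = ρ (E' α₁)` and `s^b E' α₁ = κ(ρ α) - E' α₀` is micro, so `E' α₁` is micro:
`ρ α = ρ (α₀ + E' α₁)` with a micro vector. -/
theorem finite : ∃ (n : ℕ) (w : Fin n → M.L), (∀ i, w i ∈ D.sub) ∧
    ∀ u ∈ D.sub, ∃ c : Fin n → (micro d).alg, u = ∑ i, Pool.Fml.Lattice.inc d (c i) • w i := by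
  classical
  obtain ⟨n, g, hg⟩ := Module.Finite.exists_fin (R := (formal d).alg) (M := M.L)
  choose g' hg' y hy using fun i => D.decomp (g i)
  refine ⟨n + r, Fin.append g' (fun j => D.ρ (Pi.single j 1)), fun i => ?_, fun u hu => ?_⟩
  · refine Fin.addCases (fun i => ?_) (fun j => ?_) i
    · rw [Fin.append_left]; exact hg' i
    · rw [Fin.append_right]
      exact D.e2_single j
  · have hu1 : u ∈ Submodule.span (formal d).alg (Set.range g) := by rw [hg]; trivial
    obtain ⟨a, ha⟩ := (Submodule.mem_span_range_iff_exists_fun _).1 hu1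
    choose a' a'' haa using fun i => split b (a i)
    have h1 : u = ∑ i, Pool.Fml.Lattice.inc d (a' i) • g' i +
        D.ρ (∑ i, (a'' i • D.κ (g' i) + a i • y i)) := by
      rw [map_sum, ← Finset.sum_add_distrib, ← ha]
      refine Finset.sum_congr rfl fun i _ => ?_
      rw [map_add, map_smul, map_smul, D.ρκ, ← add_assoc, smul_smul, ← add_smul,
        mul_comm (a'' i), ← haa i, ← smul_add, ← hy i]
    have h2 : D.ρ (∑ i, (a'' i • D.κ (g' i) + a i • y i)) ∈ D.sub := by
      have h3 : D.ρ (∑ i, (a'' i • D.κ (g' i) + a i • y i)) =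
          u - ∑ i, Pool.Fml.Lattice.inc d (a' i) • g' i := by
        rw [eq_sub_iff_add_eq, add_comm]; exact h1.symm
      rw [h3]
      exact D.sub.sub_mem hu (D.sub.sum_mem fun i _ => D.sub_smul _ (hg' i))
    obtain ⟨β, hβ⟩ := D.e2_rho h2
    refine ⟨Fin.append a' β, ?_⟩
    rw [Fin.sum_univ_add]
    simp only [Fin.append_left, Fin.append_right]
    rw [← hβ]
    exact h1

/-- the module structure of the convergent lattice -/
noncomputable instance : Module (micro d).alg D.sub where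
  smul f u := ⟨Pool.Fml.Lattice.inc d f • u.1, D.sub_smul f u.2⟩
  one_smul u := Subtype.ext (by
    change Pool.Fml.Lattice.inc d 1 • u.1 = u.1
    rw [map_one, one_smul])
  mul_smul f g u := Subtype.ext (by
    change Pool.Fml.Lattice.inc d (f * g) • u.1 = Pool.Fml.Lattice.inc d f • Pool.Fml.Lattice.inc d g • u.1
    rw [map_mul, mul_smul])
  smul_zero f := Subtype.ext (smul_zero _)
  smul_add f u v := Subtype.ext (smul_add _ _ _)
  add_smul f g u := Subtype.ext (by
    change Pool.Fml.Lattice.inc d (f + g) • u.1 = Pool.Fml.Lattice.inc d f • u.1 + Pool.Fml.Lattice.inc d g • u.1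
    rw [map_add, add_smul])
  zero_smul u := Subtype.ext (by
    change Pool.Fml.Lattice.inc d 0 • u.1 = 0
    rw [map_zero, zero_smul])

lemma coe_smul (f : (micro d).alg) (u : D.sub) :
    ((f • u : D.sub) : M.L) = Pool.Fml.Lattice.inc d f • (u : M.L) := rfl

/-- MODULE e3 -/
instance : Module.Finite (micro d).alg D.sub := by
  classical
  obtain ⟨n, w, hw, h⟩ := D.finite
  refine ⟨⟨Finset.univ.image (fun i => (⟨w i, hw i⟩ : D.sub)), eq_top_iff.2 fun u _ => ?_⟩⟩
  obtain ⟨c, hc⟩ := h u.1 u.2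
  have h1 : u = ∑ i, c i • (⟨w i, hw i⟩ : D.sub) := by
    refine Subtype.ext ?_
    rw [AddSubgroup.val_finsetSum, hc]
    rfl
  rw [h1]
  refine Submodule.sum_mem _ fun i _ => Submodule.smul_mem _ _ (Submodule.subset_span ?_)
  simp

/-- the convergent lattice -/
noncomputable def lat : FLat (micro d) where
  L := D.sub
  sinj := fun u hu => Subtype.ext (M.sinj u.1 (congrArg Subtype.val hu))
  T := (M.T.comp D.sub.subtype).codRestrict D.sub (fun u => D.sub_T u.2)
  P := fun i => ((M.P i).comp D.sub.subtype).codRestrict D.sub (fun u => D.sub_P i u.2)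
  T_smul := fun f u => Subtype.ext (M.T_smul (Pool.Fml.Lattice.inc d f) u.1)
  P_smul := fun i f u => Subtype.ext (M.P_smul i (Pool.Fml.Lattice.inc d f) u.1)
  P_T := fun i u => Subtype.ext (M.P_T i u.1)
  P_P := fun i j u => Subtype.ext (M.P_P i j u.1)

end Cof

/-- the formal symbols as an algebra over the microdifferential symbols -/
noncomputable abbrev micAlg (d : ℕ) : Algebra (micro d).alg (formal d).alg :=
  (Pool.Fml.Lattice.inc d).toRingHom.toAlgebra

/-- a lattice over the formal symbols as a module over the microdifferential symbols -/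
noncomputable abbrev FLat.micMod (M : FLat (formal d)) : Module (micro d).alg M.L :=
  Module.compHom M.L (Pool.Fml.Lattice.inc d).toRingHom

/-- compatibility of the two module structures -/
lemma FLat.micTower (M : FLat (formal d)) :
    @IsScalarTower (micro d).alg (formal d).alg M.L (micAlg d).toSMul _ M.micMod.toSMul :=
  @IsScalarTower.mk _ _ _ (micAlg d).toSMul _ M.micMod.toSMul
    (fun f g u => mul_smul (Pool.Fml.Lattice.inc d f) g u)

/-- `M` is obtained from `N` by extension of scalars from the microdifferential to the formal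
symbols: `M.L = R^ ⊗_R N.L`, compatibly with `T` and `P_i`. -/
def FExt (N : FLat (micro d)) (M : FLat (formal d)) : Prop :=
  letI := micAlg d
  letI := M.micMod
  haveI := M.micTower
  ∃ φ : N.L →ₗ[(micro d).alg] M.L, (∀ u, φ (N.T u) = M.T (φ u)) ∧
    (∀ i u, φ (N.P i u) = M.P i (φ u)) ∧ IsBaseChange (formal d).alg φ

section e4

attribute [local instance] micAlg FLat.micMod FLat.micTower

open TensorProduct

private lemma e4_single (j l : Fin r) :
    IsMicro ((Pi.single (M := fun _ => (formal d).alg) j 1 : Fin r → (formal d).alg) l : Ser d) := by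
  classical
  by_cases h : l = j
  · subst h
    rw [Pi.single_eq_same]
    exact (micro d).alg.one_mem
  · rw [Pi.single_eq_of_ne h]
    exact (micro d).alg.zero_mem

private lemma e4_div (k : ℕ) {f g : Ser d} (hf : IsMicro f) (h : f = (sS : Ser d) ^ k * g) :
    IsMicro g := by
  induction k generalizing f with
  | zero => rwa [h, pow_zero, one_mul] at hf
  | succ k ih =>
    refine ih (f := (sS : Ser d) ^ k * g) ?_ rfl
    refine Pool.Fml.IsMicro.div hf ?_
    rw [h, pow_succ', mul_assoc]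
    rfl

variable {M : FLat (formal d)} {b : ℕ} (D : Cof M r b)

/-- the elements `ρ e_j` -/
private noncomputable def e4_re (j : Fin r) : D.sub :=
  ⟨D.ρ (Pi.single j 1), D.sub_ρ (e4_single j)⟩

/-- the inclusion -/
private noncomputable def e4_inc : D.sub →ₗ[(micro d).alg] M.L where
  toFun u := u.1
  map_add' _ _ := rfl
  map_smul' _ _ := rfl

/-- the coordinates of an element of `sub` -/
private noncomputable def e4_ke (u : D.sub) (l : Fin r) : (micro d).alg := ⟨D.κ u.1 l, u.2 l⟩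

private lemma e4_rho (y : Fin r → (formal d).alg) :
    D.ρ y = ∑ j, y j • D.ρ (Pi.single j 1) := by
  classical
  have h1 : y = ∑ j, y j • (Pi.single j 1 : Fin r → (formal d).alg) := by
    funext l
    rw [Finset.sum_apply, Finset.sum_eq_single l]
    · rw [Pi.smul_apply, Pi.single_eq_same, smul_eq_mul, mul_one]
    · intro j _ hj
      rw [Pi.smul_apply, Pi.single_eq_of_ne hj.symm, smul_zero]
    · intro h
      exact absurd (Finset.mem_univ l) h
  conv_lhs => rw [h1, map_sum]
  exact Finset.sum_congr rfl fun j _ => map_smul _ _ _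

private lemma e4_coe_sum (c : Fin r → (micro d).alg) (w : Fin r → D.sub) :
    ((∑ j, c j • w j : D.sub) : M.L) = ∑ j, Pool.Fml.Lattice.inc d (c j) • (w j : M.L) := by
  rw [AddSubmonoidClass.coe_finsetSum]
  exact Finset.sum_congr rfl fun j _ => rfl

private lemma e4_inc_var (k : ℕ) :
    Pool.Fml.Lattice.inc d ((micro d).var none ^ k) = (formal d).var none ^ k := by
  rw [map_pow]
  rfl

private lemma e4_sb (n : D.sub) :
    (micro d).var none ^ b • n = ∑ j, e4_ke D n j • e4_re D j := by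
  refine Subtype.ext ?_
  rw [e4_coe_sum, Cof.coe_smul, e4_inc_var, ← D.ρκ, e4_rho]
  exact Finset.sum_congr rfl fun j _ => rfl

private lemma e4_mv (c : (micro d).alg) (a : (formal d).alg) (n : D.sub) :
    (Pool.Fml.Lattice.inc d c * a) ⊗ₜ[(micro d).alg] n = a ⊗ₜ[(micro d).alg] (c • n) :=
  TensorProduct.smul_tmul c a n

private lemma e4_form (t : (formal d).alg ⊗[(micro d).alg] D.sub) :
    ∃ (n : D.sub) (α : Fin r → (formal d).alg),
      t = 1 ⊗ₜ n + ∑ j, α j ⊗ₜ e4_re D j := by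
  induction t using TensorProduct.induction_on with
  | zero =>
    refine ⟨0, 0, ?_⟩
    rw [TensorProduct.tmul_zero, zero_add]
    refine (Finset.sum_eq_zero fun j _ => ?_).symm
    rw [Pi.zero_apply, TensorProduct.zero_tmul]
  | tmul a n =>
    obtain ⟨f₀, f₁, hf⟩ := Cof.split b a
    refine ⟨f₀ • n, fun j => Pool.Fml.Lattice.inc d (e4_ke D n j) * f₁, ?_⟩
    have h1 : (Pool.Fml.Lattice.inc d f₀) ⊗ₜ[(micro d).alg] n = 1 ⊗ₜ[(micro d).alg] (f₀ • n) := by
      rw [← e4_mv, mul_one]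
    have h2 : ((formal d).var none ^ b * f₁) ⊗ₜ[(micro d).alg] n =
        ∑ j, (Pool.Fml.Lattice.inc d (e4_ke D n j) * f₁) ⊗ₜ[(micro d).alg] e4_re D j := by
      rw [← e4_inc_var, e4_mv, e4_sb, TensorProduct.tmul_sum]
      exact Finset.sum_congr rfl fun j _ => (e4_mv D _ _ _).symm
    rw [hf, TensorProduct.add_tmul, h1, h2]
  | add x y hx hy =>
    obtain ⟨n, α, h1⟩ := hx
    obtain ⟨n', α', h2⟩ := hy
    refine ⟨n + n', α + α', ?_⟩
    rw [h1, h2, TensorProduct.tmul_add]
    simp only [Pi.add_apply, TensorProduct.add_tmul, Finset.sum_add_distrib]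
    abel

private lemma e4_zero (n : D.sub) (α : Fin r → (formal d).alg)
    (h : (n : M.L) + ∑ j, α j • D.ρ (Pi.single j 1) = 0) :
    (1 : (formal d).alg) ⊗ₜ[(micro d).alg] n + ∑ j, α j ⊗ₜ[(micro d).alg] e4_re D j = 0 := by
  classical
  rw [← e4_rho] at h
  choose f₀ f₁ hf using fun j => Cof.split b (α j)
  -- the matrix `κ ρ`
  have hκρ : ∀ (y : Fin r → (formal d).alg) (l : Fin r),
      D.κ (D.ρ y) l = ∑ j, y j * D.κ (D.ρ (Pi.single j 1)) l := by
    intro y l
    rw [e4_rho, map_sum, Finset.sum_apply]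
    refine Finset.sum_congr rfl fun j _ => ?_
    rw [map_smul, Pi.smul_apply, smul_eq_mul]
  have hα : α = (fun j => Pool.Fml.Lattice.inc d (f₀ j)) + (formal d).var none ^ b • f₁ := by
    funext j
    rw [hf j]
    rfl
  have hρα : D.ρ α ∈ D.sub := by
    have h1 : D.ρ α = -(n : M.L) := by
      rw [← sub_eq_zero, sub_neg_eq_add, add_comm]
      exact h
    rw [h1]
    exact D.sub.neg_mem n.2
  have hmic : ∀ l, IsMicro (D.κ (D.ρ f₁) l : Ser d) := by
    intro l
    have h1 : D.κ (D.ρ α) l = D.κ (D.ρ fun j => Pool.Fml.Lattice.inc d (f₀ j)) l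
        + (formal d).var none ^ b * D.κ (D.ρ f₁) l := by
      rw [hα, map_add, map_add, map_smul, map_smul]
      rfl
    have h2 : IsMicro (D.κ (D.ρ fun j => Pool.Fml.Lattice.inc d (f₀ j)) l : Ser d) := by
      rw [hκρ]
      have h3 : ((∑ j, Pool.Fml.Lattice.inc d (f₀ j) * D.κ (D.ρ (Pi.single j 1)) l :
          (formal d).alg) : Ser d) =
          ∑ j, (f₀ j : Ser d) * (D.κ (D.ρ (Pi.single j 1)) l : Ser d) := by
        rw [AddSubmonoidClass.coe_finsetSum]
        rfl
      rw [h3]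
      exact sum_mem (S := (micro d).alg) fun j _ => (micro d).alg.mul_mem (f₀ j).2 (D.micE l j)
    have h4 : (D.κ (D.ρ α) l : Ser d) =
        (D.κ (D.ρ fun j => Pool.Fml.Lattice.inc d (f₀ j)) l : Ser d)
          + (sS : Ser d) ^ b * (D.κ (D.ρ f₁) l : Ser d) :=
      congrArg (fun x : (formal d).alg => (x : Ser d)) h1
    refine e4_div b (f := (D.κ (D.ρ α) l : Ser d) -
      (D.κ (D.ρ fun j => Pool.Fml.Lattice.inc d (f₀ j)) l : Ser d)) ?_ ?_
    · exact (micro d).alg.sub_mem (hρα l) h2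
    · rw [h4, add_sub_cancel_left]
  -- the sum of the tensors
  set g : Fin r → (micro d).alg := fun l => ⟨D.κ (D.ρ f₁) l, hmic l⟩ with hg
  have hre : ∀ j, e4_ke D (e4_re D j) = fun l => ⟨D.κ (D.ρ (Pi.single j 1)) l, D.micE l j⟩ :=
    fun j => rfl
  have hS : ∑ j, α j ⊗ₜ[(micro d).alg] e4_re D j =
      (1 : (formal d).alg) ⊗ₜ[(micro d).alg] ((∑ j, f₀ j • e4_re D j) + ∑ l, g l • e4_re D l) := by
    have h1 : ∀ j, α j ⊗ₜ[(micro d).alg] e4_re D j =
        (1 : (formal d).alg) ⊗ₜ[(micro d).alg] (f₀ j • e4_re D j) +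
          ∑ l, (f₁ j * D.κ (D.ρ (Pi.single j 1)) l) ⊗ₜ[(micro d).alg] e4_re D l := by
      intro j
      have h2 : ((formal d).var none ^ b * f₁ j) ⊗ₜ[(micro d).alg] e4_re D j =
          ∑ l, (f₁ j * D.κ (D.ρ (Pi.single j 1)) l) ⊗ₜ[(micro d).alg] e4_re D l := by
        rw [← e4_inc_var, e4_mv, e4_sb, TensorProduct.tmul_sum]
        refine Finset.sum_congr rfl fun l _ => ?_
        rw [← e4_mv, mul_comm]
        rfl
      rw [hf j, TensorProduct.add_tmul, h2, ← e4_mv, mul_one]
    rw [Finset.sum_congr rfl fun j _ => h1 j, Finset.sum_add_distrib, Finset.sum_comm,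
      TensorProduct.tmul_add, TensorProduct.tmul_sum, TensorProduct.tmul_sum]
    congr 1
    refine Finset.sum_congr rfl fun l _ => ?_
    rw [← TensorProduct.sum_tmul, ← hκρ, ← e4_mv, mul_one]
    rfl
  have hv : (∑ j, f₀ j • e4_re D j) + ∑ l, g l • e4_re D l = -n := by
    refine Subtype.ext ?_
    have h1 : (((∑ j, f₀ j • e4_re D j) + ∑ l, g l • e4_re D l : D.sub) : M.L) =
        D.ρ (fun j => Pool.Fml.Lattice.inc d (f₀ j)) + D.ρ (D.κ (D.ρ f₁)) := by
      rw [e4_rho D (fun j => Pool.Fml.Lattice.inc d (f₀ j)), e4_rho D (D.κ (D.ρ f₁)),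
        AddSubgroup.coe_add, e4_coe_sum, e4_coe_sum]
      rfl
    rw [h1, D.ρκ, ← map_smul, ← map_add, ← hα]
    change D.ρ α = -(n : M.L)
    rw [← sub_eq_zero, sub_neg_eq_add, add_comm]
    exact h
  rw [hS, hv, ← TensorProduct.tmul_add, add_neg_cancel, TensorProduct.tmul_zero]

private lemma e4_base : IsBaseChange (formal d).alg (e4_inc D) := by
  have hl : ∀ (a : (formal d).alg) (n : D.sub),
      TensorProduct.lift (((Algebra.linearMap (formal d).alg <|
        Module.End (formal d).alg (D.sub →ₗ[(micro d).alg] M.L)).flip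
          (e4_inc D)).restrictScalars (micro d).alg) (a ⊗ₜ[(micro d).alg] n) = a • (n : M.L) :=
    fun a n => rfl
  constructor
  · rw [injective_iff_map_eq_zero]
    intro t ht
    obtain ⟨n, α, rfl⟩ := e4_form D t
    refine e4_zero D n α ?_
    rw [map_add, map_sum, hl, one_smul] at ht
    rw [← ht]
    rfl
  · intro u
    obtain ⟨n, hn, y, rfl⟩ := D.decomp u
    refine ⟨1 ⊗ₜ[(micro d).alg] (⟨n, hn⟩ : D.sub) + ∑ j, y j ⊗ₜ[(micro d).alg] e4_re D j, ?_⟩
    rw [map_add, map_sum, hl, one_smul, e4_rho]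
    rfl

end e4

/-- MODULE e4. `φ` = inclusion. `R^ ⊗_R sub → L` is surjective by `decomp`
(`ρ y = ∑ y_j ρ e_j`). Injective: as `a ⊗ n = 1 ⊗ a' n + a'' ⊗ s^b n` for `a = a' + s^b a''`, `a'`
micro (`split`), and `s^b n = ρ κ n = ∑_j κ(n)_j ρ e_j` with micro `κ(n)_j`, every element is
`1 ⊗ n + ∑_j α_j ⊗ ρ e_j`. If it maps to `0`, then `ρ α = - n`; write `α = α₀ + s^b α₁`; as in
`finite`, `∑_j α_j ⊗ ρ e_j = 1 ⊗ ρ α₀ + ∑_j α₁_j ⊗ s^b ρ e_j
= 1 ⊗ ρ α₀ + ∑_k (E' α₁)_k ⊗ ρ e_k = 1 ⊗ (ρ α₀ + ρ (E' α₁)) = 1 ⊗ ρ α = - 1 ⊗ n`, because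
`E' α₁` is micro. -/
theorem Cof.ext {M : FLat (formal d)} {b : ℕ} (D : Cof M r b) : FExt D.lat M := by
  exact ⟨e4_inc D, fun _ => rfl, fun _ _ => rfl, e4_base D⟩

-- MODULE e5 (helper7): uses the private lemmas e4_single, e4_rho of section e4 (MP_b26194_nf_e4_helper7.lean), placed before it in NGf.lean
/-- the value of an element of the convergent lattice -/
private def e5_v {M : FLat (formal d)} {b : ℕ} (D : Cof M r b) (u : D.lat.L) : M.L :=
  (show D.sub from u).1

/-- MODULE e5. Every `F ∈ N.ops` is the restriction of some `G ∈ M.ops`; `F^n N ⊆ s N` implies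
`G^n L ⊆ s L` (`L` is generated by `N`, `ops_lin`), so `G L ⊆ s L`, and `s L ∩ N = s N` by
`sub_div`. (Compare `regular_of_extension` in Fml/Final.lean.) -/
theorem Cof.regular {M : FLat (formal d)} (hM : M.Regular) {b : ℕ} (D : Cof M r b) :
    D.lat.Regular := by
  classical
  have hlift : ∀ F ∈ D.lat.ops, ∃ G ∈ M.ops, ∀ u : D.lat.L, e5_v D (F u) = G (e5_v D u) := by
    intro F hF
    refine Subring.closure_induction (p := fun F _ => ∃ G ∈ M.ops, ∀ u : D.lat.L,
      e5_v D (F u) = G (e5_v D u)) ?_ ?_ ?_ ?_ ?_ ?_ hF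
    · rintro F (⟨f, rfl⟩ | rfl | ⟨i, rfl⟩)
      · exact ⟨M.mul (Pool.Fml.Lattice.inc d f), Subring.subset_closure (Or.inl ⟨_, rfl⟩),
          fun u => rfl⟩
      · exact ⟨M.T, Subring.subset_closure (Or.inr (Or.inl rfl)), fun u => rfl⟩
      · exact ⟨M.P i, Subring.subset_closure (Or.inr (Or.inr ⟨i, rfl⟩)), fun u => rfl⟩
    · exact ⟨0, zero_mem _, fun u => rfl⟩
    · exact ⟨1, one_mem _, fun u => rfl⟩
    · rintro F F' _ _ ⟨G, hG, h1⟩ ⟨G', hG', h2⟩
      refine ⟨G + G', add_mem hG hG', fun u => ?_⟩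
      change e5_v D (F u) + e5_v D (F' u) = G (e5_v D u) + G' (e5_v D u)
      rw [h1, h2]
    · rintro F _ ⟨G, hG, h1⟩
      refine ⟨-G, neg_mem hG, fun u => ?_⟩
      change -e5_v D (F u) = -G (e5_v D u)
      rw [h1]
    · rintro F F' _ _ ⟨G, hG, h1⟩ ⟨G', hG', h2⟩
      refine ⟨G * G', mul_mem hG hG', fun u => ?_⟩
      change e5_v D (F (F' u)) = G (G' (e5_v D u))
      rw [h1, h2]
  intro F hF ⟨n, hn⟩
  obtain ⟨G, hG, hFG⟩ := hlift F hF
  have hpow : ∀ (k : ℕ) (u : D.lat.L), e5_v D ((F ^ k) u) = (G ^ k) (e5_v D u) := by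
    intro k
    induction k with
    | zero => intro u; rfl
    | succ k ih =>
      intro u
      rw [pow_succ, pow_succ]
      change e5_v D ((F ^ k) (F u)) = (G ^ k) (G (e5_v D u))
      rw [ih, hFG]
  have hGn : G ^ n ∈ M.ops := pow_mem hG n
  have hsub : ∀ u ∈ D.sub, ∃ v, (G ^ n) u = (formal d).var none • v := by
    intro u hu
    obtain ⟨v, hv⟩ := hn (⟨u, hu⟩ : D.sub)
    refine ⟨e5_v D v, ?_⟩
    have h1 := hpow n (⟨u, hu⟩ : D.sub)
    rw [hv] at h1
    exact h1.symm
  have hkill : M.Kills (G ^ n) := by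
    intro v
    obtain ⟨m, hm, y, rfl⟩ := D.decomp v
    obtain ⟨v₀, hv₀⟩ := hsub m hm
    have hy : ∀ j : Fin r, ∃ z, (G ^ n) (y j • D.ρ (Pi.single j 1)) = (formal d).var none • z := by
      intro j
      obtain ⟨z, hz⟩ := M.ops_lin hGn (y j) (D.ρ (Pi.single j 1))
      obtain ⟨z', hz'⟩ := hsub (D.ρ (Pi.single j 1)) (D.sub_ρ (e4_single j))
      refine ⟨y j • z' + z, ?_⟩
      rw [hz, hz', smul_add, smul_comm _ (y j) z']
    choose z hz using hy
    refine ⟨v₀ + ∑ j, z j, ?_⟩
    rw [map_add, hv₀, smul_add, Finset.smul_sum, e4_rho, map_sum]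
    congr 1
    exact Finset.sum_congr rfl fun j _ => hz j
  have hK := hM G hG ⟨n, hkill⟩
  intro u
  obtain ⟨v, hv⟩ := hK (e5_v D u)
  have h2 : e5_v D (F u) = (formal d).var none • v := by
    rw [hFG, hv]
  have h1 : (formal d).var none • v ∈ D.sub := by
    rw [← h2]
    exact (show D.sub from F u).2
  exact ⟨(⟨v, D.sub_div h1⟩ : D.sub), Subtype.ext h2⟩

end Pool.Agent.Fbc
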