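import Pool.Agent.Fbc.NGd
import Pool.Agent.Fbc.NGe
import Pool.Agent.Fbc.NGf

/-!
# Lattices which are not free, part g: assembly
-/

set_option autoImplicit false
set_option linter.unusedVariables false

namespace Pool.Agent.Fbc

open Polynomial
open MeasureTheory
open Pool.Fml (Ser SymRing formal micro IsFormal IsMicro cm eulM)

variable {d r : ℕ}

section closure

lemma fM_mul {A B : Mx d r} (hA : ∀ l j, IsFormal (A l j)) (hB : ∀ l j, IsFormal (B l j)) :
    ∀ l j, IsFormal ((A * B) l j) := fun l j => by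
  rw [Matrix.mul_apply]
  exact sum_mem (S := (formal d).alg) fun i _ => (formal d).alg.mul_mem (hA l i) (hB i j)

lemma fM_add {A B : Mx d r} (hA : ∀ l j, IsFormal (A l j)) (hB : ∀ l j, IsFormal (B l j)) :
    ∀ l j, IsFormal ((A + B) l j) := fun l j =>
  (formal d).alg.add_mem (hA l j) (hB l j)

lemma fM_smul {f : Ser d} (hf : IsFormal f) {A : Mx d r} (hA : ∀ l j, IsFormal (A l j)) :
    ∀ l j, IsFormal ((f • A) l j) := fun l j =>
  (formal d).alg.mul_mem hf (hA l j)

lemma fM_der {A : Mx d r} (hA : ∀ l j, IsFormal (A l j)) (i : Option (Fin d)) :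
    ∀ l j, IsFormal ((A.map (serD i)) l j) := fun l j =>
  (formal d).pd_mem i _ (hA l j)

lemma fM_sS_pow (n : ℕ) : IsFormal ((sS : Ser d) ^ n) :=
  (formal d).alg.pow_mem ((formal d).X_mem none) n

end closure

/-- MODULE d4 -/
theorem conv_NF {k : ℕ} (A A' : Fin 1 → Mx 1 r) (B B' G H : Mx 1 r)
    (hA : ∀ i a b, IsFormal (A i a b)) (hB : ∀ a b, IsFormal (B a b))
    (hNF : NF k A A' B B' G H) (q α β : (Ser 1)[X]) (Δ : Ser 1) (hΔ : Δ ≠ 0)
    (hq : α * q + β * derivative q = C Δ) (hE : Eig q A B) :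
    (∀ i a b, IsFormal (A' i a b)) ∧ (∀ a b, IsFormal (B' a b)) ∧ ∀ a b, IsFormal (G a b) := by
  have hBv : ∀ i j, sc 0 B i j ∈ CvS 1 := by
    intro i j
    refine ⟨?_, fun m hm => ?_⟩
    · exact Pool.Fml.Tame.mono (hB i j) fun m => by
        change ‖MvPowerSeries.coeff m (sco 0 (B i j))‖ ≤ _
        rw [sco_coeff]
        split_ifs
        · rw [Finsupp.single_zero, add_zero]
        · rw [norm_zero]; exact norm_nonneg _
    · change MvPowerSeries.coeff m (sco 0 (B i j)) = 0
      rw [sco_coeff, if_neg hm]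
  obtain ⟨m, p, a', b', n, hp, hdisc, hann⟩ := exists_disc (sc 0 B) hBv
  have hX : (MvPowerSeries.X (some 0) : Ser 1) ≠ 0 := by
    intro h2
    have := congrArg (MvPowerSeries.coeff (Finsupp.single (some 0) 1)) h2
    rw [MvPowerSeries.coeff_X, if_pos rfl, map_zero] at this
    exact one_ne_zero this
  set ψ := (CvS 1).val.toRingHom with hψ
  have hd1 : a'.map ψ * p.map ψ + b'.map ψ * derivative (p.map ψ)
      = C (MvPowerSeries.X (some 0) ^ m) := by
    have h1 := congrArg (Polynomial.map ψ) hdisc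
    simp only [Polynomial.map_add, Polynomial.map_mul, Polynomial.map_C] at h1
    rw [Polynomial.derivative_map]
    exact h1
  have hann' : aeval (sc 0 B) ((p.map ψ) ^ n) = 0 := by
    rw [← Polynomial.map_pow, ← hann]
    rw [Polynomial.aeval_def, Polynomial.aeval_def, Polynomial.eval₂_map]
    rfl
  have hsA : ∀ i, sc 0 (A i) * sc 0 B = sc 0 B * sc 0 (A i) := hE.comm
  have hEp : Eig (p.map ψ) A B := by
    refine ⟨hsA, ?_, fun i => ?_⟩
    · exact (eig_transfer (serD (some 0)) _ _ (hsA 0) _ _ _ _ hΔ hq hE.root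
        (hE.rel 0) _ _ _ _ (pow_ne_zero m hX) hd1 n hann').1
    · rw [Subsingleton.elim i 0]
      exact (eig_transfer (serD (some 0)) _ _ (hsA 0) _ _ _ _ hΔ hq hE.root
        (hE.rel 0) _ _ _ _ (pow_ne_zero m hX) hd1 n hann').2
  have hEp' := hEp.gauge hNF.gau
  have hok : ∀ q : (CvS 1)[X], PolOK (q.map ψ) := fun q =>
    ⟨fun n => by rw [coeff_map]; exact (q.coeff n).2.2,
      fun n => by rw [coeff_map]; exact (q.coeff n).2.1⟩
  exact conv_one 0 m k _ _ _ (hp.map ψ) (hok p) (hok a') (hok b') hd1 _ _ _ _ _ _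
    hA hB hNF hEp hEp'

/-- convergence on a line -/
theorem line_conv {b k : ℕ} {A B E A' B' E' G H h K At Bt Et : Mx 1 r}
    (hg : GauB b (fun _ : Fin 1 => A) (fun _ => A') B B' E E' G H)
    (hA' : ∀ m, b < m none → cm m A' = 0) (hB' : ∀ m, k < m none → cm m B' = 0)
    (hK : h * K = (sS : Ser 1) ^ b • (1 : Mx 1 r)) (Kh : K * h = (sS : Ser 1) ^ b • (1 : Mx 1 r))
    (fh : ∀ l j, IsFormal (h l j)) (fK : ∀ l j, IsFormal (K l j))
    (rP : (sS : Ser 1) ^ (b + 1) • h.map (serD (some 0)) + A * h = (sS : Ser 1) ^ b • (h * At))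
    (rT : (sS : Ser 1) ^ (b + 2) • h.map (serD none) + B * h = (sS : Ser 1) ^ b • (h * Bt))
    (rE : E * h = (sS : Ser 1) ^ b • (h * Et))
    (fAt : ∀ l j, IsFormal (At l j)) (fBt : ∀ l j, IsFormal (Bt l j))
    (fEt : ∀ l j, IsFormal (Et l j)) (hrel : Rel (fun _ : Fin 1 => At) Bt)
    (q α β : (Ser 1)[X]) (Δ : Ser 1) (hΔ : Δ ≠ 0)
    (hq : α * q + β * derivative q = C Δ) (hE : Eig q (fun _ : Fin 1 => At) Bt) :
    (∀ l j, IsFormal (A' l j)) ∧ (∀ l j, IsFormal (B' l j)) ∧ (∀ l j, IsFormal (E' l j)) ∧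
      ∀ l j, IsFormal (G l j) := by
  obtain ⟨k', U, V, Bt', p, qq, UV, VU, dU, fU, fV, hBt', hdeg, hp, pq, qp⟩ :=
    init_frame hg (fun m _ hm => hB' m hm) hK Kh rT
  -- the basis `e U`
  have gau1 : Gau (fun _ : Fin 1 => At) (fun _ => V * At * U) Bt Bt' U V := by
    refine ⟨UV, VU, fun i => ?_, hBt'⟩
    rw [Subsingleton.elim i 0, dU, smul_zero, zero_add, ← Matrix.mul_assoc, ← Matrix.mul_assoc, UV,
      Matrix.one_mul]
  have rel1 := hrel.gauge gau1
  obtain ⟨A'', B'', G', H', hNF, hrel', hG0⟩ := exists_NF_fix rel1 hdeg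
  have eig1 := hE.gauge gau1
  have fAt1 : ∀ l j, IsFormal ((V * At * U) l j) := fM_mul (fM_mul fV fAt) fU
  have eBt' : Bt' = V * ((sS : Ser 1) ^ 2 • U.map (serD none) + Bt * U) := by
    rw [hBt', ← Matrix.mul_assoc, VU, Matrix.one_mul]
  have fBt' : ∀ l j, IsFormal (Bt' l j) := by
    rw [eBt']
    exact fM_mul fV (fM_add (fM_smul (fM_sS_pow 2) (fM_der fU none)) (fM_mul fBt fU))
  obtain ⟨fA'', fB'', fG'⟩ := conv_NF _ _ _ _ _ _ (fun _ => fAt1) fBt' hNF q α β Δ hΔ hq eig1
  have fH' := formal_inv_mx fG' hNF.GH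
  have gau2 : Gau (fun _ : Fin 1 => At) (fun _ => A'' 0) Bt B'' (U * G') (H' * V) := by
    have h1 := gau1.trans hNF.gau
    have h2 : (fun _ : Fin 1 => A'' 0) = A'' := by
      funext i; rw [Subsingleton.elim i 0]
    rw [h2]; exact h1
  obtain ⟨gh, hgh, eP, eT, eE, eh⟩ := compare hg hK Kh rP rT rE gau2
  set g : Mx 1 r := H * h * (U * G') with hgdef
  set hh : Mx 1 r := H' * V * K * G with hhdef
  have free'' : ∀ l j, SFree (A'' 0 l j) := fun l j => hNF.free 0 l j
  -- the initial values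
  have zG' : G'.map (z0 1) = 1 := by
    refine Matrix.ext fun l j => PowerSeries.ext fun n => ?_
    rw [Matrix.map_apply, z0_coeff]
    have h1 := congrFun (congrFun (hG0 (Finsupp.single none n) (by
      rw [Finsupp.weight_single]; simp [wx])) l) j
    change MvPowerSeries.coeff _ _ = _ at h1
    rw [h1]
    rcases Nat.eq_zero_or_pos n with hn | hn
    · subst hn
      rw [Finsupp.single_zero, if_pos rfl]
      rcases eq_or_ne l j with hlj | hlj
      · rw [hlj, Matrix.one_apply_eq, Matrix.one_apply_eq]; simp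
      · rw [Matrix.one_apply_ne hlj, Matrix.one_apply_ne hlj]; simp
    · rw [if_neg (by
        intro h2
        have := congrArg (fun m : Option (Fin 1) →₀ ℕ => m none) h2
        simp only [Finsupp.single_eq_same, Finsupp.coe_zero, Pi.zero_apply] at this
        omega)]
      rw [Matrix.zero_apply]
      rcases eq_or_ne l j with hlj | hlj
      · rw [hlj, Matrix.one_apply_eq, PowerSeries.coeff_one, if_neg (by omega)]
      · rw [Matrix.one_apply_ne hlj]; simp
  have mmul : ∀ X Y : Mx 1 r, (X * Y).map (z0 1) = X.map (z0 1) * Y.map (z0 1) := fun X Y =>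
    (z0 1).mapMatrix.map_mul X Y
  have msmul : ((sS : Ser 1) ^ b • (1 : Mx 1 r)).map (z0 1)
      = (PowerSeries.X : PowerSeries ℂ) ^ b • 1 := by
    ext l j
    rw [Matrix.map_apply, Matrix.smul_apply, Matrix.smul_apply, smul_eq_mul, smul_eq_mul, map_mul,
      map_pow, z0_sS]
    rcases eq_or_ne l j with hlj | hlj
    · rw [hlj, Matrix.one_apply_eq, Matrix.one_apply_eq, map_one]
    · rw [Matrix.one_apply_ne hlj, Matrix.one_apply_ne hlj, map_zero]
  have zg : g.map (z0 1) = pm p := by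
    rw [hgdef, ← Matrix.mul_assoc, mmul, hp, zG', Matrix.mul_one]
  have pmmul : ∀ X Y : Matrix (Fin r) (Fin r) ℂ[X], pm (X * Y) = pm X * pm Y := fun X Y =>
    (Polynomial.coeToPowerSeries.ringHom (R := ℂ)).mapMatrix.map_mul X Y
  have pms : pm ((X : ℂ[X]) ^ b • (1 : Matrix (Fin r) (Fin r) ℂ[X]))
      = (PowerSeries.X : PowerSeries ℂ) ^ b • 1 := by
    ext l j
    rw [pm, Matrix.map_apply, Matrix.smul_apply, Matrix.smul_apply, smul_eq_mul, smul_eq_mul]
    rcases eq_or_ne l j with hlj | hlj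
    · rw [hlj, Matrix.one_apply_eq, Matrix.one_apply_eq]; simp
    · rw [Matrix.one_apply_ne hlj, Matrix.one_apply_ne hlj]; simp
  have xcancel : ∀ Y Z : Matrix (Fin r) (Fin r) (PowerSeries ℂ),
      (PowerSeries.X : PowerSeries ℂ) ^ b • Y = (PowerSeries.X : PowerSeries ℂ) ^ b • Z → Y = Z := by
    intro Y Z hYZ
    ext1 l j
    have h1 := congrFun (congrFun hYZ l) j
    rw [Matrix.smul_apply, Matrix.smul_apply, smul_eq_mul, smul_eq_mul] at h1
    exact mul_left_cancel₀ (pow_ne_zero b PowerSeries.X_ne_zero) h1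
  have zh : hh.map (z0 1) = pm qq := by
    have h1 : pm p * hh.map (z0 1) = (PowerSeries.X : PowerSeries ℂ) ^ b • 1 := by
      rw [← zg, ← mmul, gh, msmul]
    have h2 : pm qq * pm p = (PowerSeries.X : PowerSeries ℂ) ^ b • 1 := by
      rw [← pmmul, qp, pms]
    refine xcancel _ _ ?_
    calc (PowerSeries.X : PowerSeries ℂ) ^ b • hh.map (z0 1)
        = (pm qq * pm p) * hh.map (z0 1) := by
          rw [h2, Matrix.smul_mul, Matrix.one_mul]
      _ = pm qq * ((PowerSeries.X : PowerSeries ℂ) ^ b • 1) := by rw [Matrix.mul_assoc, h1]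
      _ = _ := by rw [Matrix.mul_smul, Matrix.mul_one]
  -- a common degree
  obtain ⟨D, hD1, hD2, hD3⟩ : ∃ D : ℕ, b ≤ 2 * D ∧ (∀ l j, (p l j).natDegree ≤ D) ∧
      ∀ l j, (qq l j).natDegree ≤ D := by
    refine ⟨b + (∑ l, ∑ j, (p l j).natDegree) + ∑ l, ∑ j, (qq l j).natDegree, by omega,
      fun l j => ?_, fun l j => ?_⟩
    · have h1 : (p l j).natDegree ≤ ∑ j, (p l j).natDegree :=
        Finset.single_le_sum (f := fun j => (p l j).natDegree) (fun _ _ => Nat.zero_le _)
          (Finset.mem_univ j)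
      have h2 : ∑ j, (p l j).natDegree ≤ ∑ l, ∑ j, (p l j).natDegree :=
        Finset.single_le_sum (f := fun l => ∑ j, (p l j).natDegree) (fun _ _ => Nat.zero_le _)
          (Finset.mem_univ l)
      omega
    · have h1 : (qq l j).natDegree ≤ ∑ j, (qq l j).natDegree :=
        Finset.single_le_sum (f := fun j => (qq l j).natDegree) (fun _ _ => Nat.zero_le _)
          (Finset.mem_univ j)
      have h2 : ∑ j, (qq l j).natDegree ≤ ∑ l, ∑ j, (qq l j).natDegree :=
        Finset.single_le_sum (f := fun l => ∑ j, (qq l j).natDegree) (fun _ _ => Nat.zero_le _)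
          (Finset.mem_univ l)
      omega
  have dg0 : ∀ m, Finsupp.weight (wx 1) m = 0 → D < m none → cm m g = 0 := by
    refine cm_of_z0 fun l j n hn => ?_
    have h1 := congrFun (congrFun zg l) j
    rw [Matrix.map_apply] at h1
    rw [h1, pm, Matrix.map_apply, Polynomial.coeff_coe]
    exact Polynomial.coeff_eq_zero_of_natDegree_lt (lt_of_le_of_lt (hD2 l j) hn)
  have dh0 : ∀ m, Finsupp.weight (wx 1) m = 0 → D < m none → cm m hh = 0 := by
    refine cm_of_z0 fun l j n hn => ?_
    have h1 := congrFun (congrFun zh l) j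
    rw [Matrix.map_apply] at h1
    rw [h1, pm, Matrix.map_apply, Polynomial.coeff_coe]
    exact Polynomial.coeff_eq_zero_of_natDegree_lt (lt_of_le_of_lt (hD3 l j) hn)
  have dg := deg_g hA' free'' eP dg0
  have dh := deg_h hA' free'' eh dh0
  have fC : ∀ l j, IsFormal ((h * (U * G')) l j) := fM_mul fh (fM_mul fU fG')
  have fKk : ∀ l j, IsFormal ((H' * V * K) l j) := fM_mul (fM_mul fH' fV) fK
  have CK : (h * (U * G')) * (H' * V * K) = (sS : Ser 1) ^ b • (1 : Mx 1 r) := by
    calc (h * (U * G')) * (H' * V * K) = h * (U * (G' * H') * V) * K := by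
          simp only [Matrix.mul_assoc]
      _ = _ := by rw [hNF.GH, Matrix.mul_one, UV, Matrix.mul_one, hK]
  obtain ⟨fg, fhh⟩ := bu_ser g hh (h * (U * G')) (H' * V * K) G H A' (A'' 0) p qq hg.GH hg.HG
    fC fKk CK (by rw [hgdef, Matrix.mul_assoc]) rfl gh hgh hD1 dg dh free'' (fA'' 0) hA' eh zg zh pq
  refine ⟨formal_A' gh eP fg fhh (fA'' 0), formal_B' gh eT fg fhh fB'',
    formal_E' gh eE fg fhh (fM_mul (fM_mul (fM_mul fH' fV) fEt) (fM_mul fU fG')), ?_⟩
  refine formal_G' (b := b) (C := h * (U * G')) (h := hh) ?_ fC fhh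
  calc (sS : Ser 1) ^ b • G = ((sS : Ser 1) ^ b • (1 : Mx 1 r)) * G := by
        rw [Matrix.smul_mul, Matrix.one_mul]
    _ = _ := by rw [← CK, Matrix.mul_assoc]

/-- convergence of the normal form -/
theorem conv_all (M : FLat (formal d)) (hM : M.Regular) {b : ℕ} (φ : Fr M r b) (π : Proj M) :
    ∃ (k : ℕ) (A' : Fin d → Mx d r) (B' E' G H : Mx d r),
      NFB b k φ.A A' φ.B B' (φ.E π.e) E' G H ∧ (∀ i l j, IsFormal (A' i l j)) ∧
      (∀ l j, IsFormal (B' l j)) ∧ (∀ l j, IsFormal (E' l j)) ∧ ∀ l j, IsFormal (G l j) := by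
  obtain ⟨k, A', B', E', G, H, h⟩ := exists_NFB φ π
  obtain ⟨q, α, β, Δ, hΔ, hq, hv⟩ := M.exists_q
  obtain ⟨h1, h2⟩ := M.kills hM q hv
  have hlines : ∀ᵐ v ∂(volume.restrict (Cube d)),
      (∀ l j, IsFormal (lineA (fun i => (v i : ℂ)) A' 0 l j)) ∧
      (∀ l j, IsFormal (B'.map (line (fun i => (v i : ℂ))) l j)) ∧
      (∀ l j, IsFormal (E'.map (line (fun i => (v i : ℂ))) l j)) ∧
      ∀ l j, IsFormal (G.map (line (fun i => (v i : ℂ))) l j) := by
    have hΔ' : (Δ : Ser d) ≠ 0 := fun h => hΔ (Subtype.ext h)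
    filter_upwards [line_ne_zero hΔ'] with v hv0
    set w : Fin d → ℂ := fun i => (v i : ℂ) with hw
    obtain ⟨D⟩ := exists_lineData φ w π.e
    have hEig := D.eig q h1 h2
    have hgl := h.gau.line w
    have e1 : ∀ X : Fin 1 → Mx 1 r, (fun _ : Fin 1 => X 0) = X := fun X => by
      funext i; rw [Subsingleton.elim i 0]
    have hgl' : GauB b (fun _ : Fin 1 => lineA w φ.A 0) (fun _ => lineA w A' 0) (φ.B.map (line w))
        (B'.map (line w)) ((φ.E π.e).map (line w)) (E'.map (line w)) (G.map (line w))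
        (H.map (line w)) := by
      rw [e1, e1]; exact hgl
    have hqv : ((α.map (CvS d).val.toRingHom).map (line w)) *
        ((q.map (CvS d).val.toRingHom).map (line w))
        + ((β.map (CvS d).val.toRingHom).map (line w)) *
          derivative ((q.map (CvS d).val.toRingHom).map (line w))
        = C (line w (Δ : Ser d)) := by
      have h3 := congrArg (Polynomial.map (line w))
        (congrArg (Polynomial.map (CvS d).val.toRingHom) hq)
      simp only [Polynomial.map_add, Polynomial.map_mul, Polynomial.map_C] at h3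
      rw [Polynomial.derivative_map, Polynomial.derivative_map]
      exact h3
    have hrelD : Rel (fun _ : Fin 1 => D.At) D.Bt := by
      have h3 := rel_of_lattice D.N D.c
      have h4 : (fun _ : Fin 1 => D.At) = fun i => matO D.N D.c (D.N.P i) := by
        funext i; rw [Subsingleton.elim i 0]; rfl
      rw [h4]; exact h3
    have hEig' : Eig ((q.map (CvS d).val.toRingHom).map (line w)) (fun _ : Fin 1 => D.At) D.Bt := by
      have h4 : (fun _ : Fin 1 => D.At) = fun i => matO D.N D.c (D.N.P i) := by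
        funext i; rw [Subsingleton.elim i 0]; rfl
      rw [h4]; exact hEig
    exact line_conv hgl' (cm_lineA_low w h.degA 0) (cm_line_low w h.degB) D.hK D.Kh
      (fun l j => (D.j (D.c j) l).2) (fun l j => (D.c.repr (D.w j) l).2) D.relP D.relT D.relE
      (fun l j => (D.c.repr (D.N.P 0 (D.c j)) l).2) (fun l j => (D.c.repr (D.N.T (D.c j)) l).2)
      (fun l j => (D.c.repr (D.e' (D.c j)) l).2) hrelD _ _ _ _ hv0 hqv hEig'
  refine ⟨k, A', B', E', G, H, h, ?_, fun l j => formal_of_lines _ ?_,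
    fun l j => formal_of_lines _ ?_, fun l j => formal_of_lines _ ?_⟩
  · refine formal_AB h.rel h.degA fun l j => formal_of_lines _ ?_
    filter_upwards [hlines] with v hv0
    rw [line_sum_X]
    exact Pool.Fml.isFormal_mul (Pool.Fml.isFormal_X _) (hv0.1 l j)
  · filter_upwards [hlines] with v hv0
    exact hv0.2.1 l j
  · filter_upwards [hlines] with v hv0
    exact hv0.2.2.1 l j
  · filter_upwards [hlines] with v hv0
    exact hv0.2.2.2 l j

/-- descent, for lattices which become free after adding trivial modules and inverting `s` -/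
theorem exists_cof (M : FLat (formal d)) (hM : M.Regular) (m : ℕ) {b : ℕ}
    (f : Fin r → M.L × (Fin m → (formal d).alg)) (hf : LinearIndependent (formal d).alg f)
    (hs : ∀ w : M.L × (Fin m → (formal d).alg),
      (formal d).var none ^ b • w ∈ Submodule.span (formal d).alg (Set.range f)) :
    Nonempty (Cof M r b) := by
  obtain ⟨φ⟩ := exists_Fr (M.plus m) f hf hs
  obtain ⟨k, A', B', E', G, H, h, hA', hB', hE', hG⟩ :=
    conv_all (M.plus m) (M.plus_regular hM m) φ (M.pr m)
  exact exists_Cof M m φ h hA' hB' hE' hG (formal_inv_mx hG h.gau.GH)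

/-- descent -/
theorem descent_frame (M : FLat (formal d)) (hM : M.Regular) (m : ℕ) {b : ℕ}
    (f : Fin r → M.L × (Fin m → (formal d).alg)) (hf : LinearIndependent (formal d).alg f)
    (hs : ∀ w : M.L × (Fin m → (formal d).alg),
      (formal d).var none ^ b • w ∈ Submodule.span (formal d).alg (Set.range f)) :
    ∃ N : FLat (micro d), N.Regular ∧ FExt N M := by
  obtain ⟨D⟩ := exists_cof M hM m f hf hs
  exact ⟨D.lat, D.regular hM, D.ext⟩

end Pool.Agent.Fbc
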