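import Pool.Agent.Fbc.Conn

/-!
# Nodes: definitions and elementary lemmas (modules a1, a2, a3)
-/

set_option autoImplicit false

namespace Pool.Agent.Fbc

open Polynomial

/-- `f = ∏ (t - u_i)` -/
noncomputable def fu {l : ℕ} (u : Fin l → K) : K[X] := ∏ i, (X - C (u i))

/-- `g ∈ K[t, 1/f]` -/
def IsPol {l : ℕ} (u : Fin l → K) (g : KT) : Prop :=
  ∃ (n : ℕ) (p : K[X]), g * (algebraMap K[X] KT (fu u)) ^ n = algebraMap K[X] KT p

/-- polynomials in `τ` as elements of `ℂ((τ))` -/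
noncomputable def polK : ℂ[X] →+* K := eval₂RingHom LS.C (LS.single 1 1)

/-- the polynomial formed by the coefficients of `z ^ n` -/
noncomputable def cfP (n : ℤ) (q : K[X]) : ℂ[X] :=
  ∑ m ∈ q.support, monomial m ((q.coeff m).coeff n)

/-- `p(a + z^κ τ)` as a polynomial in `τ` -/
noncomputable def subP (a : K) (κ : ℕ) (p : K[X]) : K[X] :=
  p.comp (C a + C (LS.single (κ : ℤ) 1) * X)

/-- the coefficient of `z ^ n` of `p` at the node `(a, κ)`, a polynomial in `τ` -/
noncomputable def nc (a : K) (κ : ℕ) (n : ℤ) (p : K[X]) : ℂ[X] := cfP n (subP a κ p)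

/-! ### module a1: closure properties and derivations -/

section a1

variable {l : ℕ} {u : Fin l → K}

lemma fu_ne_zero (u : Fin l → K) : algebraMap K[X] KT (fu u) ≠ 0 := by
  intro h
  have h1 : fu u = 0 := (map_eq_zero_iff _ (IsFractionRing.injective K[X] KT)).1 h
  exact Finset.prod_ne_zero_iff.2 (fun i _ => X_sub_C_ne_zero (u i)) h1

lemma IsPol.poly (u : Fin l → K) (p : K[X]) : IsPol u (algebraMap K[X] KT p) :=
  ⟨0, p, by rw [pow_zero, mul_one]⟩

lemma IsPol.add {g h : KT} (hg : IsPol u g) (hh : IsPol u h) : IsPol u (g + h) := by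
  obtain ⟨n, p, hp⟩ := hg
  obtain ⟨m, q, hq⟩ := hh
  refine ⟨n + m, p * fu u ^ m + q * fu u ^ n, ?_⟩
  rw [map_add, map_mul, map_mul, ← hp, ← hq, map_pow, map_pow]
  ring

lemma IsPol.neg {g : KT} (hg : IsPol u g) : IsPol u (-g) := by
  obtain ⟨n, p, hp⟩ := hg
  exact ⟨n, -p, by rw [map_neg, ← hp]; ring⟩

lemma IsPol.sub {g h : KT} (hg : IsPol u g) (hh : IsPol u h) : IsPol u (g - h) := by
  rw [sub_eq_add_neg]
  exact hg.add hh.neg

lemma IsPol.mul {g h : KT} (hg : IsPol u g) (hh : IsPol u h) : IsPol u (g * h) := by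
  obtain ⟨n, p, hp⟩ := hg
  obtain ⟨m, q, hq⟩ := hh
  refine ⟨n + m, p * q, ?_⟩
  rw [map_mul, ← hp, ← hq]
  ring

lemma IsPol.sum {ι : Type} {s : Finset ι} {g : ι → KT} (h : ∀ i ∈ s, IsPol u (g i)) :
    IsPol u (∑ i ∈ s, g i) := by
  refine Finset.sum_induction g (IsPol u) (fun a b ha hb => ha.add hb) ?_ h
  have := IsPol.poly u 0
  rwa [map_zero] at this

lemma IsPol.inv (i : Fin l) : IsPol u (tT - cT (u i))⁻¹ := by
  refine ⟨1, ∏ j ∈ Finset.univ.erase i, (X - C (u j)), ?_⟩
  have h1 : fu u = (X - C (u i)) * ∏ j ∈ Finset.univ.erase i, (X - C (u j)) :=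
    (Finset.mul_prod_erase Finset.univ (fun j => X - C (u j)) (Finset.mem_univ i)).symm
  have h2 : algebraMap K[X] KT (X - C (u i)) = tT - cT (u i) := by
    rw [map_sub]
    rfl
  have h3 : tT - cT (u i) ≠ 0 := by
    rw [← h2]
    intro h
    exact X_sub_C_ne_zero (u i) ((map_eq_zero_iff _ (IsFractionRing.injective K[X] KT)).1 h)
  rw [pow_one, h1, map_mul, h2, ← mul_assoc, inv_mul_cancel₀ h3, one_mul]

lemma IsPol.cT (a : K) : IsPol u (cT a) := IsPol.poly u _

lemma IsPol.tT : IsPol u tT := IsPol.poly u _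

private lemma a1_pow (θ : Der KT) (x : KT) (n : ℕ) : θ (x ^ n) * x = n * x ^ n * θ x := by
  induction n with
  | zero => rw [pow_zero, θ.map_one']; simp
  | succ n ih =>
    rw [pow_succ, θ.leib, add_mul, mul_assoc, mul_comm x x, ← mul_assoc, ih]
    push_cast
    ring

private lemma a1_der (θ : Der KT) (θ' : K[X] → K[X])
    (h : ∀ p, θ (algebraMap K[X] KT p) = algebraMap K[X] KT (θ' p)) {g : KT} (hg : IsPol u g) :
    IsPol u (θ g) := by
  obtain ⟨n, p, hp⟩ := hg
  refine ⟨n + 1, fu u * θ' p - n * p * θ' (fu u), ?_⟩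
  have h1 := congrArg θ hp
  rw [θ.leib, h] at h1
  have h2 := a1_pow θ (algebraMap K[X] KT (fu u)) n
  rw [h] at h2
  rw [map_sub, map_mul, map_mul, map_mul, map_natCast, ← hp, ← h1]
  have h3 : g * (θ (algebraMap K[X] KT (fu u) ^ n) * algebraMap K[X] KT (fu u)) =
      g * (n * algebraMap K[X] KT (fu u) ^ n * algebraMap K[X] KT (θ' (fu u))) := by rw [h2]
  linear_combination -h3

private lemma a1_natCast {L : Type} [CommRing L] (θ : Der L) (n : ℕ) : θ (n : L) = 0 := by
  induction n with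
  | zero => rw [Nat.cast_zero, map_zero]
  | succ n ih => rw [Nat.cast_succ, map_add, ih, θ.map_one', add_zero]

private lemma a1_uniq (θ : Der KT) (h : ∀ p : K[X], θ (algebraMap K[X] KT p) = 0) (g : KT) :
    θ g = 0 := by
  obtain ⟨p, q, hq, rfl⟩ := IsFractionRing.div_surjective (A := K[X]) g
  have hq0 : algebraMap K[X] KT q ≠ 0 := by
    intro h0
    exact nonZeroDivisors.ne_zero hq ((map_eq_zero_iff _ (IsFractionRing.injective K[X] KT)).1 h0)
  have h1 : (algebraMap K[X] KT p / algebraMap K[X] KT q) * algebraMap K[X] KT q =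
      algebraMap K[X] KT p := div_mul_cancel₀ _ hq0
  have h2 := congrArg θ h1
  rw [θ.leib, h, h, mul_zero, add_zero] at h2
  exact (mul_eq_zero.1 h2).resolve_right hq0

lemma IsPol.DK {g : KT} (hg : IsPol u g) : IsPol u (DK g) :=
  a1_der Fbc.DK (polD zd) (fun p => frD_algebraMap KT (polD zd) p) hg

lemma IsPol.Dt {g : KT} (hg : IsPol u g) : IsPol u (Dt g) :=
  a1_der Fbc.Dt (fun p => dX p) (fun p => frD_algebraMap KT dX p) hg

lemma DK_cT (a : K) : DK (cT a) = cT (zd a) := by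
  unfold DK cT
  rw [frD_algebraMap]
  congr 1
  ext1 n
  rw [polD_coeff, coeff_C, coeff_C]
  split_ifs
  · rfl
  · exact map_zero _

lemma DK_tT : DK tT = 0 := by
  unfold DK tT
  rw [frD_algebraMap]
  have : polD zd (X : K[X]) = 0 := by
    ext1 n
    rw [polD_coeff, coeff_X, coeff_zero]
    split_ifs
    · exact zd.map_one'
    · exact map_zero _
  rw [this, map_zero]

lemma Dt_cT (a : K) : Dt (cT a) = 0 := by
  unfold Dt cT
  rw [frD_algebraMap, dX_apply, derivative_C, map_zero]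

lemma Dt_tT : Dt tT = 1 := by
  unfold Dt tT
  rw [frD_algebraMap, dX_apply, derivative_X, map_one]

lemma DK_Dt (g : KT) : DK (Dt g) = Dt (DK g) := by
  let θ : Der KT :=
    { toFun := fun x => DK (Dt x) - Dt (DK x)
      map_zero' := by simp
      map_add' := fun x y => by simp only [map_add]; ring
      leib' := fun x y => by simp only [Der.leib, map_add]; ring }
  have h : θ g = 0 := by
    refine a1_uniq θ (fun p => ?_) g
    change DK (Dt (algebraMap K[X] KT p)) - Dt (DK (algebraMap K[X] KT p)) = 0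
    have e1 : Dt (algebraMap K[X] KT p) = algebraMap K[X] KT (derivative p) :=
      frD_algebraMap KT dX p
    have e2 : DK (algebraMap K[X] KT p) = algebraMap K[X] KT (polD zd p) :=
      frD_algebraMap KT (polD zd) p
    have e3 : DK (algebraMap K[X] KT (derivative p)) =
        algebraMap K[X] KT (polD zd (derivative p)) := frD_algebraMap KT (polD zd) _
    have e4 : Dt (algebraMap K[X] KT (polD zd p)) =
        algebraMap K[X] KT (derivative (polD zd p)) := frD_algebraMap KT dX _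
    rw [e1, e2, e3, e4, ← map_sub]
    have : polD zd (derivative p) - derivative (polD zd p) = 0 := by
      ext1 n
      rw [coeff_sub, polD_coeff, coeff_derivative, coeff_derivative, polD_coeff, zd.leib]
      have : zd ((n : K) + 1) = 0 := by
        rw [map_add, a1_natCast, zd.map_one', add_zero]
      rw [this, mul_zero, add_zero, sub_self, coeff_zero]
    rw [this, map_zero]
  exact sub_eq_zero.1 h

lemma tT_sub_ne (a : K) : tT - cT a ≠ 0 := by
  have h2 : algebraMap K[X] KT (X - C a) = tT - cT a := by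
    rw [map_sub]
    rfl
  rw [← h2]
  intro h
  exact X_sub_C_ne_zero a ((map_eq_zero_iff _ (IsFractionRing.injective K[X] KT)).1 h)

end a1

/-! ### module a2: derivations at the nodes -/

section a2

lemma node_cT (a : K) (κ : ℕ) (b : K) : node a κ (cT b) = inn b := by
  unfold cT
  rw [node_algebraMap]
  unfold nodeP
  rw [coe_eval₂RingHom, eval₂_C]

lemma node_tT (a : K) (κ : ℕ) : node a κ tT = inn a + LS.single (κ : ℤ) (LS.single 1 1) := by
  unfold tT
  rw [node_algebraMap]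
  unfold nodeP
  rw [coe_eval₂RingHom, eval₂_X]

lemma loc_cT (a b : K) : loc a (cT b) = LS.C b := by
  unfold cT
  rw [loc_algebraMap]
  unfold locP
  rw [coe_eval₂RingHom, eval₂_C]

lemma loc_tT (a : K) : loc a tT = LS.C a + LS.single 1 1 := by
  unfold tT
  rw [loc_algebraMap]
  unfold locP
  rw [coe_eval₂RingHom, eval₂_X]

lemma inf_cT (b : K) : inf (cT b) = LS.C b := by
  unfold cT
  rw [inf_algebraMap]
  unfold infP
  rw [coe_eval₂RingHom, eval₂_C]

lemma inf_tT : inf tT = LS.single (-1) 1 := by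
  unfold tT
  rw [inf_algebraMap]
  unfold infP
  rw [coe_eval₂RingHom, eval₂_X]

lemma Vge_inn {c : ℝ} {x : K} : Vge c (inn x) ↔ Vge c x := by
  unfold Vge
  refine forall_congr' fun n => forall_congr' fun _ => ?_
  rw [inn_coeff]
  exact map_eq_zero (LS.C : ℂ →+* K)

private lemma a2_uniq (φ : KT →+* F) (θ : Der KT) (δ : Der F)
    (hC : ∀ b, φ (θ (cT b)) = δ (φ (cT b))) (hX : φ (θ tT) = δ (φ tT)) (g : KT) :
    φ (θ g) = δ (φ g) := by
  have hmul : ∀ x y : KT, φ (θ x) = δ (φ x) → φ (θ y) = δ (φ y) → φ (θ (x * y)) = δ (φ (x * y)) := by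
    intro x y hx hy
    rw [θ.leib, map_add, map_mul, map_mul, map_mul, δ.leib, hx, hy]
  have hpol : ∀ p : K[X], φ (θ (algebraMap K[X] KT p)) = δ (φ (algebraMap K[X] KT p)) := by
    intro p
    induction p using Polynomial.induction_on with
    | C a => exact hC a
    | add p q hp hq => rw [map_add, map_add, map_add, map_add, map_add, hp, hq]
    | monomial n a ih =>
      rw [pow_succ, ← mul_assoc, map_mul (algebraMap K[X] KT)]
      exact hmul _ _ ih hX
  obtain ⟨p, q, hq, rfl⟩ := IsFractionRing.div_surjective (A := K[X]) g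
  have hq0 : algebraMap K[X] KT q ≠ 0 := by
    intro h0
    exact nonZeroDivisors.ne_zero hq ((map_eq_zero_iff _ (IsFractionRing.injective K[X] KT)).1 h0)
  set x := algebraMap K[X] KT p / algebraMap K[X] KT q with hx
  have h1 : x * algebraMap K[X] KT q = algebraMap K[X] KT p := div_mul_cancel₀ _ hq0
  have h2 : φ (θ (x * algebraMap K[X] KT q)) = δ (φ (x * algebraMap K[X] KT q)) := by
    rw [h1]
    exact hpol p
  rw [θ.leib, map_add, map_mul, map_mul, map_mul, δ.leib, hpol q] at h2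
  have h3 : φ (θ x) * φ (algebraMap K[X] KT q) = δ (φ x) * φ (algebraMap K[X] KT q) :=
    add_right_cancel h2
  exact mul_right_cancel₀ ((map_ne_zero φ).2 hq0) h3

/-- `(t - a) ∂_t` acts as `τ ∂_τ` at the node -/
lemma node_DY (a : K) (κ : ℕ) (g : KT) : node a κ (DY a g) = cd zd (node a κ g) := by
  have e1 : cd (zd : Der K) (inn a) = 0 := by
    ext1 n
    rw [cd_coeff, inn_coeff, zd_C, LS.coeff_zero]
  refine a2_uniq (node a κ) (DY a) (cd zd) (fun b => ?_) ?_ g
  · rw [node_cT]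
    unfold DY
    rw [Der.smul_apply, Dt_cT, mul_zero, map_zero]
    ext1 n
    rw [cd_coeff, inn_coeff, zd_C, LS.coeff_zero]
  · rw [node_tT, map_add, e1, zero_add, cd_single, zd_single]
    unfold DY
    rw [Der.smul_apply, Dt_tT, mul_one, map_sub, node_tT, node_cT, add_sub_cancel_left, Int.cast_one,
      one_mul]

/-- `X_a + κ Y_a` acts as `z ∂_z` at the node -/
lemma node_DX (a : K) (κ : ℕ) (g : KT) :
    node a κ (DX a g + (κ : KT) * DY a g) = zd (node a κ g) := by
  have e1 : ∀ b : K, zd (inn b) = inn (zd b) := by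
    intro b
    ext1 n
    rw [zd_coeff, inn_coeff, inn_coeff, zd_coeff, map_mul, map_intCast]
  have h := a2_uniq (node a κ) (DX a + (κ : KT) • DY a) zd (fun b => ?_) ?_ g
  · exact h
  · rw [node_cT, Der.add_apply, Der.smul_apply]
    unfold DX DY
    rw [Der.add_apply, Der.smul_apply, Der.smul_apply, Dt_cT, DK_cT, mul_zero, mul_zero, mul_zero,
      add_zero, add_zero, node_cT, e1]
  · rw [node_tT, Der.add_apply, Der.smul_apply]
    unfold DX DY
    rw [Der.add_apply, Der.smul_apply, Der.smul_apply, Dt_tT, DK_tT, mul_one, mul_one, zero_add,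
      map_add, map_add, map_mul, map_sub, node_tT, node_cT, node_cT, map_natCast, e1,
      add_sub_cancel_left, zd_single, Int.cast_natCast]

lemma loc_DY (a : K) (g : KT) : loc a (DY a g) = zd (loc a g) := by
  refine a2_uniq (loc a) (DY a) zd (fun b => ?_) ?_ g
  · unfold DY
    rw [Der.smul_apply, Dt_cT, mul_zero, map_zero, loc_cT, zd_C]
  · unfold DY
    rw [Der.smul_apply, Dt_tT, mul_one, map_sub, loc_tT, loc_cT, add_sub_cancel_left, map_add, zd_C,
      zero_add, zd_single, Int.cast_one, one_mul]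

private lemma a2_single_zero (n : ℤ) : (LS.single n (0 : K) : F) = 0 := by
  ext1 m
  rw [LS.coeff_single, LS.coeff_zero, ite_self]

lemma loc_DX (a : K) (g : KT) : loc a (DX a g) = cd zd (loc a g) := by
  refine a2_uniq (loc a) (DX a) (cd zd) (fun b => ?_) ?_ g
  · unfold DX
    rw [Der.add_apply, Der.smul_apply, Dt_cT, DK_cT, mul_zero, add_zero, loc_cT, loc_cT,
      LS.C_apply, LS.C_apply, cd_single]
  · unfold DX
    rw [Der.add_apply, Der.smul_apply, Dt_tT, DK_tT, mul_one, zero_add, loc_cT, loc_tT, map_add,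
      LS.C_apply, LS.C_apply, cd_single, cd_single, Der.map_one', a2_single_zero, add_zero]

lemma inf_DK (g : KT) : inf (DK g) = cd zd (inf g) := by
  refine a2_uniq inf DK (cd zd) (fun b => ?_) ?_ g
  · rw [DK_cT, inf_cT, inf_cT, LS.C_apply, LS.C_apply, cd_single]
  · rw [DK_tT, map_zero, inf_tT, cd_single, Der.map_one', a2_single_zero]

lemma inf_Dt (g : KT) : inf (Dt g) = -(LS.single 1 1 * zd (inf g)) := by
  have h := a2_uniq inf Dt ((-(LS.single 1 1 : F)) • (zd : Der F)) (fun b => ?_) ?_ g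
  · rw [h, Der.smul_apply, neg_mul]
  · rw [Dt_cT, map_zero, inf_cT, Der.smul_apply, zd_C, mul_zero]
  · rw [Dt_tT, map_one, inf_tT, Der.smul_apply, zd_single]
    have : (LS.single 1 1 : F) * LS.single (-1) 1 = 1 := by
      rw [LS.single_mul_single, mul_one, add_neg_cancel, LS.single_zero_one]
    push_cast
    linear_combination -this

end a2

/-! ### module a3: leading polynomials -/

section a3

lemma cfP_coeff (n : ℤ) (q : K[X]) (m : ℕ) : (cfP n q).coeff m = (q.coeff m).coeff n := by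
  unfold cfP
  rw [finsetSum_coeff]
  simp only [coeff_monomial]
  rw [Finset.sum_ite_eq' q.support m (fun j => (q.coeff j).coeff n)]
  split_ifs with h
  · rfl
  · rw [notMem_support_iff.1 h, LS.coeff_zero]

private lemma a3a_single_pow (j : ℕ) : (LS.single 1 1 : K) ^ j = LS.single (j : ℤ) 1 := by
  induction j with
  | zero => rw [pow_zero, Nat.cast_zero, LS.single_zero_one]
  | succ j ih => rw [pow_succ, ih, LS.single_mul_single, mul_one, Nat.cast_succ]

private lemma a3a_polK_monomial (j : ℕ) (a : ℂ) :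
    polK (monomial j a) = LS.single (j : ℤ) a := by
  unfold polK
  rw [coe_eval₂RingHom, eval₂_monomial, a3a_single_pow, LS.C_apply, LS.single_mul_single, zero_add,
    mul_one]

lemma polK_coeff (P : ℂ[X]) (m : ℕ) : (polK P).coeff m = P.coeff m := by
  induction P using Polynomial.induction_on' with
  | add p q hp hq => rw [map_add, LS.coeff_add, hp, hq, coeff_add]
  | monomial j a =>
    rw [a3a_polK_monomial, LS.coeff_single, coeff_monomial]
    by_cases h : j = m
    · rw [if_pos h, if_pos (by rw [h])]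
    · rw [if_neg h, if_neg (fun h' => h (by exact_mod_cast h'.symm))]

lemma polK_coeff_neg (P : ℂ[X]) (m : ℤ) (hm : m < 0) : (polK P).coeff m = 0 := by
  induction P using Polynomial.induction_on' with
  | add p q hp hq => rw [map_add, LS.coeff_add, hp, hq, add_zero]
  | monomial j a =>
    rw [a3a_polK_monomial, LS.coeff_single, if_neg (by omega)]

lemma polK_inj : Function.Injective polK := by
  intro p q h
  ext1 m
  rw [← polK_coeff, ← polK_coeff, h]

private lemma a3a_cfP_add (n : ℤ) (p q : K[X]) : cfP n (p + q) = cfP n p + cfP n q := by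
  ext1 m
  rw [coeff_add, cfP_coeff, cfP_coeff, cfP_coeff, coeff_add, LS.coeff_add]

private lemma a3a_cfP_monomial (n : ℤ) (m : ℕ) (b : K) :
    cfP n (monomial m b) = monomial m (b.coeff n) := by
  ext1 j
  rw [cfP_coeff, coeff_monomial, coeff_monomial]
  split_ifs
  · rfl
  · exact LS.coeff_zero n

private lemma a3a_eval (n : ℤ) (q : K[X]) :
    (eval₂ inn (LS.C (LS.single 1 1)) q).coeff n = polK (cfP n q) := by
  induction q using Polynomial.induction_on' with
  | add p q hp hq => rw [eval₂_add, LS.coeff_add, hp, hq, a3a_cfP_add, map_add]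
  | monomial m b =>
    rw [eval₂_monomial, a3a_cfP_monomial, a3a_polK_monomial, ← map_pow, mul_comm, LS.coeff_C_mul,
      inn_coeff, a3a_single_pow, LS.C_apply, LS.single_mul_single, add_zero, one_mul]

private lemma a3a_nodeP (a : K) (κ : ℕ) (p : K[X]) :
    nodeP a κ p = eval₂ inn (LS.C (LS.single 1 1)) (subP a κ p) := by
  unfold nodeP subP
  rw [coe_eval₂RingHom, eval₂_comp]
  congr 1
  rw [eval₂_add, eval₂_mul, eval₂_C, eval₂_C, eval₂_X]
  congr 1
  ext1 n
  rw [mul_comm, LS.coeff_C_mul, inn_coeff, LS.coeff_single, LS.coeff_single]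
  split_ifs
  · rw [map_one, mul_one]
  · rw [map_zero, mul_zero]

lemma nodeP_coeff (a : K) (κ : ℕ) (n : ℤ) (p : K[X]) :
    (nodeP a κ p).coeff n = polK (nc a κ n p) := by
  rw [a3a_nodeP, a3a_eval]
  rfl

/-- the leading polynomial is not zero -/
lemma nc_ord_ne {a : K} {κ : ℕ} {p : K[X]} (hp : p ≠ 0) :
    nc a κ (nodeP a κ p).ord p ≠ 0 := by
  intro h
  have h1 : nodeP a κ p ≠ 0 := fun h0 => hp (nodeP_inj a κ (by rw [h0, map_zero]))
  apply LS.coeff_ord_ne h1
  rw [nodeP_coeff, h, map_zero]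

lemma nc_natDegree_le (a : K) (κ : ℕ) (n : ℤ) (p : K[X]) :
    (nc a κ n p).natDegree ≤ p.natDegree := by
  have h1 : (cfP n (subP a κ p)).natDegree ≤ (subP a κ p).natDegree := by
    rw [natDegree_le_iff_coeff_eq_zero]
    intro m hm
    rw [cfP_coeff, coeff_eq_zero_of_natDegree_lt hm, LS.coeff_zero]
  refine h1.trans ?_
  unfold subP
  refine natDegree_comp_le.trans ?_
  have h2 : (C a + C (LS.single (κ : ℤ) 1) * X : K[X]).natDegree ≤ 1 := by
    rw [add_comm]
    exact natDegree_linear_le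
  calc _ ≤ p.natDegree * 1 := Nat.mul_le_mul_left _ h2
    _ = p.natDegree := mul_one _

lemma nc_sub (a : K) (κ : ℕ) (n : ℤ) (p q : K[X]) :
    nc a κ n (p - q) = nc a κ n p - nc a κ n q := by
  unfold nc subP
  ext1 m
  rw [coeff_sub, cfP_coeff, cfP_coeff, cfP_coeff, sub_comp, coeff_sub, LS.coeff_sub]

private lemma a3b_nc_zero {a : K} {κ : ℕ} {p : K[X]} {n : ℤ} (h : n < (nodeP a κ p).ord) :
    nc a κ n p = 0 := by
  have h1 := nodeP_coeff a κ n p
  rw [LS.coeff_of_lt_ord h] at h1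
  exact polK_inj (by rw [← h1, map_zero])

private lemma a3b_ord_le {a : K} {κ : ℕ} {p : K[X]} {n : ℤ} (h : nc a κ n p ≠ 0) :
    (nodeP a κ p).ord ≤ n := by
  by_contra hc
  exact h (a3b_nc_zero (not_le.1 hc))

private lemma a3b_Vge (a : K) (κ : ℕ) (p : K[X]) (m : ℕ) :
    Vge ((nodeP a κ p).ord : ℝ) ((subP a κ p).coeff m) := by
  intro n hn
  have hn' : n < (nodeP a κ p).ord := by exact_mod_cast hn
  have h1 := a3b_nc_zero hn'
  have h2 := cfP_coeff n (subP a κ p) m
  rw [← h2]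
  change (nc a κ n p).coeff m = 0
  rw [h1, coeff_zero]

private lemma a3b_le_ord {a : K} {κ : ℕ} {p : K[X]} (hp : p ≠ 0) {N : ℤ}
    (h : ∀ m, Vge (N : ℝ) ((subP a κ p).coeff m)) : N ≤ (nodeP a κ p).ord := by
  have hne : nodeP a κ p ≠ 0 := by
    intro h0
    exact hp (nodeP_inj a κ (by rw [h0, map_zero]))
  rw [LS.le_ord_iff hne]
  intro n hn
  rw [nodeP_coeff]
  have h1 : nc a κ n p = 0 := by
    ext m
    change (cfP n (subP a κ p)).coeff m = _
    rw [cfP_coeff, h m n (by exact_mod_cast hn), coeff_zero]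
  rw [h1, map_zero]

private lemma a3b_coeff_mul {k : Type} [Field k] {x y : LS k} {N M : ℤ} (hx : Vge (N : ℝ) x)
    (hy : Vge (M : ℝ) y) : (x * y).coeff (N + M) = x.coeff N * y.coeff M := by
  rw [LS.coeff_mul (N := N) (M := M) (fun n hn => hx n (by exact_mod_cast hn))
    (fun n hn => hy n (by exact_mod_cast hn)), add_sub_cancel_right, Finset.Icc_self,
    Finset.sum_singleton, add_sub_cancel_left]

private lemma a3b_pow {k : Type} [Field k] {γ : LS k} (hγ : Vge 0 γ) (j : ℕ) :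
    (γ ^ j).coeff 0 = (γ.coeff 0) ^ j := by
  induction j with
  | zero => rw [pow_zero, pow_zero, LS.coeff_one, if_pos rfl]
  | succ j ih =>
    have h1 := a3b_coeff_mul (N := 0) (M := 0) (x := γ ^ j) (y := γ)
      (by rw [Int.cast_zero]; exact hγ.pow0 j) (by rw [Int.cast_zero]; exact hγ)
    rw [pow_succ, pow_succ, ← ih]
    exact h1

private lemma a3b_eval {r : K[X]} {N : ℤ} (hr : ∀ j, Vge (N : ℝ) (r.coeff j)) {γ : K}
    (hγ : Vge 0 γ) :
    (r.eval γ).coeff N = (cfP N r).eval (γ.coeff 0) ∧ Vge (N : ℝ) (r.eval γ) := by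
  rw [Polynomial.eval_eq_sum_range]
  constructor
  · rw [LS.coeff_sum]
    have hd : (cfP N r).natDegree ≤ r.natDegree := by
      rw [Polynomial.natDegree_le_iff_coeff_eq_zero]
      intro m hm
      rw [cfP_coeff, Polynomial.coeff_eq_zero_of_natDegree_lt hm, LS.coeff_zero]
    rw [Polynomial.eval_eq_sum_range' (Nat.lt_succ_of_le hd)]
    refine Finset.sum_congr rfl fun j _ => ?_
    have h1 := a3b_coeff_mul (N := N) (M := 0) (x := r.coeff j) (y := γ ^ j) (hr j)
      (by rw [Int.cast_zero]; exact hγ.pow0 j)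
    rw [add_zero] at h1
    rw [h1, a3b_pow hγ, cfP_coeff]
  · refine Vge.sum fun j _ => ?_
    have h1 := (hr j).mul (hγ.pow0 j)
    rw [add_zero] at h1
    exact h1

private lemma a3b_natCast_mul_coeff {k : Type} [Field k] (m : ℕ) (x : LS k) (n : ℤ) :
    ((m : LS k) * x).coeff n = (m : k) * x.coeff n := by
  have h : (m : LS k) = LS.C (m : k) := by rw [map_natCast]
  rw [h, LS.coeff_C_mul]

private lemma a3b_hasse_Vge {q : K[X]} {N : ℤ} (hq : ∀ j, Vge (N : ℝ) (q.coeff j)) (m j : ℕ) :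
    Vge (N : ℝ) ((hasseDeriv m q).coeff j) := by
  rw [Polynomial.hasseDeriv_coeff]
  exact Vge.mul0 (Vge.natCast _) (hq _)

private lemma a3b_hasse_cfP (q : K[X]) (N : ℤ) (m : ℕ) :
    cfP N (hasseDeriv m q) = hasseDeriv m (cfP N q) := by
  ext j
  rw [cfP_coeff, Polynomial.hasseDeriv_coeff, Polynomial.hasseDeriv_coeff,
    a3b_natCast_mul_coeff, cfP_coeff]

private lemma a3b_comp_coeff (q : K[X]) (γ s : K) (m : ℕ) :
    (q.comp (C γ + C s * X)).coeff m = (hasseDeriv m q).eval γ * s ^ m := by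
  have h1 : q.comp (C γ + C s * X) = (Polynomial.taylor γ q).comp (C s * X) := by
    rw [Polynomial.taylor_apply, Polynomial.comp_assoc]
    congr 1
    simp only [Polynomial.add_comp, Polynomial.X_comp, Polynomial.C_comp]
    ring
  rw [h1, Polynomial.comp_C_mul_X_coeff, Polynomial.taylor_coeff]

private lemma a3b_subP (a : K) (κ κ' : ℕ) (γ : K) (p : K[X]) :
    subP (a + LS.single (κ : ℤ) 1 * γ) (κ + κ') p =
      (subP a κ p).comp (C γ + C (LS.single (κ' : ℤ) 1) * X) := by
  unfold subP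
  rw [Polynomial.comp_assoc]
  congr 1
  simp only [Polynomial.add_comp, Polynomial.X_comp, Polynomial.C_comp, Polynomial.mul_comp]
  have h1 : (LS.single ((κ + κ' : ℕ) : ℤ) (1 : ℂ)) =
      LS.single (κ : ℤ) 1 * LS.single (κ' : ℤ) 1 := by
    rw [LS.single_mul_single, one_mul]
    push_cast
    rfl
  rw [h1]
  simp only [map_add, map_mul]
  ring

private lemma a3b_shift (a b : K) (κ : ℕ) :
    b = a + LS.single (κ : ℤ) 1 * (LS.single (-(κ : ℤ)) 1 * (b - a)) := by
  rw [← mul_assoc, LS.single_mul_single, add_neg_cancel, one_mul, LS.single_zero_one, one_mul]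
  ring

private lemma a3b_shift_Vge {a b : K} {κ : ℕ} (hb : Vge (κ : ℝ) (b - a)) :
    Vge 0 (LS.single (-(κ : ℤ)) (1 : ℂ) * (b - a)) := by
  intro n hn
  rw [LS.coeff_single_mul, hb, mul_zero]
  push_cast
  have : (n : ℝ) < 0 := hn
  linarith

private lemma a3b_single_pow (m : ℕ) : (LS.single (1 : ℤ) (1 : ℂ)) ^ m = LS.single (m : ℤ) 1 := by
  induction m with
  | zero => rw [pow_zero]; rfl
  | succ m ih =>
    rw [pow_succ, ih, LS.single_mul_single, one_mul]
    push_cast
    rfl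

/-- order at a child `(b, κ+1)`, `b = a + c z^κ + …` (3.1) -/
lemma child_ord_le {a b : K} {κ : ℕ} {c : ℂ} (hb : Vge ((κ : ℝ) + 1) (b - a - LS.single κ c))
    {p : K[X]} (hp : p ≠ 0) :
    (nodeP b (κ + 1) p).ord ≤
      (nodeP a κ p).ord + (nc a κ (nodeP a κ p).ord p).rootMultiplicity c := by
  set N := (nodeP a κ p).ord with hN
  set P := nc a κ N p with hP
  set m := P.rootMultiplicity c with hm
  set γ := LS.single (-(κ : ℤ)) (1 : ℂ) * (b - a) with hγ
  have hP0 : P ≠ 0 := nc_ord_ne hp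
  have hba : Vge (κ : ℝ) (b - a) := by
    have h1 : b - a = (b - a - LS.single κ c) + LS.single κ c := by ring
    rw [h1]
    refine (hb.mono (by linarith)).add (Vge.single ?_ c)
    push_cast
    exact le_rfl
  have hγ0 : Vge 0 γ := a3b_shift_Vge hba
  have hγc : γ.coeff 0 = c := by
    rw [hγ, LS.coeff_single_mul, one_mul, zero_sub, neg_neg]
    have h1 := hb (κ : ℤ) (by push_cast; linarith)
    rw [LS.coeff_sub, LS.coeff_single_same, sub_eq_zero] at h1
    exact h1
  have hq : ∀ j, Vge (N : ℝ) ((subP a κ p).coeff j) := fun j => a3b_Vge a κ p j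
  have hsub : subP b (κ + 1) p = (subP a κ p).comp (C γ + C (LS.single (1 : ℤ) 1) * X) := by
    have h1 := a3b_subP a κ 1 γ p
    rw [hγ, ← a3b_shift a b κ] at h1
    rw [h1, hγ]
    rfl
  refine a3b_ord_le ?_
  intro h0
  have h1 : (nc b (κ + 1) (N + m) p).coeff m = 0 := by rw [h0, coeff_zero]
  change (cfP (N + m) (subP b (κ + 1) p)).coeff m = 0 at h1
  rw [cfP_coeff, hsub, a3b_comp_coeff, a3b_single_pow, mul_comm, LS.coeff_single_mul, one_mul,
    add_sub_cancel_right, (a3b_eval (fun j => a3b_hasse_Vge hq m j) hγ0).1, a3b_hasse_cfP, hγc]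
    at h1
  change (hasseDeriv m P).eval c = 0 at h1
  rw [← Polynomial.taylor_coeff, Polynomial.taylor_apply, hm,
    Polynomial.rootMultiplicity_eq_natTrailingDegree] at h1
  have h2 : (P.comp (X + C c)) ≠ 0 := by
    rw [← Polynomial.taylor_apply]
    intro h3
    exact hP0 (Polynomial.taylor_injective c (by rw [h3, map_zero]))
  exact (Polynomial.trailingCoeff_nonzero_iff_nonzero.2 h2) h1

lemma child_ord_ge {a b : K} {κ : ℕ} (hb : Vge (κ : ℝ) (b - a)) {p : K[X]} (hp : p ≠ 0) :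
    (nodeP a κ p).ord ≤ (nodeP b (κ + 1) p).ord := by
  refine a3b_le_ord hp fun m => ?_
  have h1 := a3b_subP a κ 1 (LS.single (-(κ : ℤ)) (1 : ℂ) * (b - a)) p
  rw [← a3b_shift a b κ] at h1
  rw [h1, a3b_comp_coeff]
  have h2 := (a3b_eval (fun j => a3b_hasse_Vge (a3b_Vge a κ p) m j) (a3b_shift_Vge hb)).2
  have h3 : Vge 0 ((LS.single ((1 : ℕ) : ℤ) (1 : ℂ)) ^ m) :=
    Vge.pow0 (Vge.single (by push_cast; norm_num) _) m
  have h4 := h2.mul h3
  rw [add_zero] at h4
  exact h4

/-- order at the parent (3.2) -/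
lemma parent_ord_le {a : K} {κ : ℕ} {p : K[X]} (hp : p ≠ 0) :
    (nodeP a κ p).ord ≤ (nodeP a (κ + 1) p).ord -
      (nc a (κ + 1) (nodeP a (κ + 1) p).ord p).natDegree := by
  set N := (nodeP a (κ + 1) p).ord with hN
  set P := nc a (κ + 1) N p with hP
  set d := P.natDegree with hd
  have hP0 : P ≠ 0 := nc_ord_ne hp
  have hsub : subP a (κ + 1) p = (subP a κ p).comp (C (LS.single (1 : ℤ) 1) * X) := by
    have h1 := a3b_subP a κ 1 0 p
    rw [mul_zero, add_zero, map_zero, zero_add] at h1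
    exact h1
  refine a3b_ord_le ?_
  intro h0
  have h1 : P.coeff d ≠ 0 := by
    rw [hd, Polynomial.coeff_natDegree]
    exact Polynomial.leadingCoeff_ne_zero.2 hP0
  apply h1
  change (cfP N (subP a (κ + 1) p)).coeff d = 0
  rw [cfP_coeff, hsub, Polynomial.comp_C_mul_X_coeff, a3b_single_pow, mul_comm,
    LS.coeff_single_mul, one_mul]
  have h2 : (nc a κ (N - d) p).coeff d = 0 := by rw [h0, coeff_zero]
  change (cfP (N - d) (subP a κ p)).coeff d = 0 at h2
  rw [cfP_coeff] at h2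
  exact h2

private lemma a3b_congr_le {a b : K} {κ : ℕ} (hb : Vge (κ : ℝ) (b - a)) {p : K[X]}
    (hp : p ≠ 0) : (nodeP a κ p).ord ≤ (nodeP b κ p).ord := by
  refine a3b_le_ord hp fun m => ?_
  have h1 := a3b_subP a κ 0 (LS.single (-(κ : ℤ)) (1 : ℂ) * (b - a)) p
  rw [← a3b_shift a b κ, add_zero] at h1
  rw [h1, a3b_comp_coeff]
  have h2 := (a3b_eval (fun j => a3b_hasse_Vge (a3b_Vge a κ p) m j) (a3b_shift_Vge hb)).2
  have h3 : Vge 0 ((LS.single ((0 : ℕ) : ℤ) (1 : ℂ)) ^ m) :=
    Vge.pow0 (Vge.single (by push_cast; norm_num) _) m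
  have h4 := h2.mul h3
  rw [add_zero] at h4
  exact h4

/-- the order depends only on `a` modulo `z^κ` -/
lemma nodeP_ord_congr {a b : K} {κ : ℕ} (hb : Vge (κ : ℝ) (b - a)) (p : K[X]) :
    (nodeP a κ p).ord = (nodeP b κ p).ord := by
  by_cases hp : p = 0
  · rw [hp, map_zero, map_zero]
  · refine le_antisymm (a3b_congr_le hb hp) (a3b_congr_le ?_ hp)
    have h1 : a - b = -(b - a) := by ring
    rw [h1]
    exact hb.neg

lemma node_Vge_congr {a b : K} {κ : ℕ} (hb : Vge (κ : ℝ) (b - a)) (c : ℝ) (g : KT) :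
    Vge c (node a κ g) ↔ Vge c (node b κ g) := by
  by_cases hg : g = 0
  · rw [hg, map_zero, map_zero]
  · obtain ⟨p, q, hq, hpq⟩ := IsFractionRing.div_surjective (A := K[X]) g
    have hq0 : q ≠ 0 := nonZeroDivisors.ne_zero hq
    have hqa : algebraMap K[X] KT q ≠ 0 := by
      intro h
      exact hq0 (IsFractionRing.injective K[X] KT (by rw [h, map_zero]))
    have hgq : g * algebraMap K[X] KT q = algebraMap K[X] KT p := by
      rw [← hpq, div_mul_cancel₀ _ hqa]
    have key : ∀ e : K, (node e κ g).ord = (nodeP e κ p).ord - (nodeP e κ q).ord := by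
      intro e
      have h1 : node e κ g * nodeP e κ q = nodeP e κ p := by
        rw [← node_algebraMap, ← node_algebraMap, ← map_mul, hgq]
      have h2 : node e κ g ≠ 0 := by
        intro h
        exact hg ((node e κ).injective (by rw [h, map_zero]))
      have h3 : nodeP e κ q ≠ 0 := by
        intro h
        exact hq0 (nodeP_inj e κ (by rw [h, map_zero]))
      rw [← h1, LS.ord_mul h2 h3]
      ring
    have hne : ∀ e : K, node e κ g ≠ 0 := by
      intro e h
      exact hg ((node e κ).injective (by rw [h, map_zero]))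
    rw [Vge_iff_ord (hne a), Vge_iff_ord (hne b), key a, key b, nodeP_ord_congr hb p,
      nodeP_ord_congr hb q]

end a3

/-! ### module a4: the orders of `f` -/

section a4

variable {l : ℕ}

open Classical in
/-- number of roots in the disc -/
noncomputable def nr (u : Fin l → K) (a : K) (κ : ℕ) : ℕ :=
  (Finset.univ.filter fun i => Vge (κ : ℝ) (u i - a)).card

private lemma a4a_coeff (a c : K) (κ : ℕ) (n : ℤ) :
    (nodeP a κ (X - C c)).coeff n =
      LS.C ((a - c).coeff n) + if n = (κ : ℤ) then LS.single 1 1 else 0 := by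
  unfold nodeP
  rw [coe_eval₂RingHom, eval₂_sub, eval₂_X, eval₂_C, LS.coeff_sub, LS.coeff_add, inn_coeff,
    inn_coeff, LS.coeff_single, LS.coeff_sub, map_sub]
  ring

private lemma a4a_ne (a c : K) (κ : ℕ) : nodeP a κ (X - C c) ≠ 0 := by
  intro h
  exact X_sub_C_ne_zero c (nodeP_inj a κ (by rw [h, map_zero]))

private lemma a4a_top (x : ℂ) : (LS.C x + LS.single 1 1 : K) ≠ 0 := by
  intro h
  have := congrArg (fun y : K => y.coeff 1) h
  simp only [LS.coeff_add, LS.coeff_C, LS.coeff_single_same, LS.coeff_zero] at this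
  rw [if_neg (by norm_num), zero_add] at this
  exact one_ne_zero this

private lemma a4a_ord_eq {k : Type} [Field k] {x : LS k} {N : ℤ} (h : x.coeff N ≠ 0)
    (h' : ∀ n < N, x.coeff n = 0) : x.ord = N := by
  have hx : x ≠ 0 := fun h0 => h (by rw [h0, LS.coeff_zero])
  refine le_antisymm ?_ ((LS.le_ord_iff hx N).2 h')
  by_contra hc
  exact h (LS.coeff_of_lt_ord (not_le.1 hc))

private lemma a4a_ge {a c : K} {κ : ℕ} (h : Vge (κ : ℝ) (a - c)) :
    (nodeP a κ (X - C c)).ord = κ := by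
  refine a4a_ord_eq ?_ fun n hn => ?_
  · rw [a4a_coeff, if_pos rfl]
    exact a4a_top _
  · rw [a4a_coeff, if_neg hn.ne, add_zero, h n (by exact_mod_cast hn), map_zero]

private lemma a4a_lt {a c : K} {κ : ℕ} (h : ¬ Vge (κ : ℝ) (a - c)) :
    (nodeP a κ (X - C c)).ord = (a - c).ord ∧ (a - c).ord < κ := by
  unfold Vge at h
  push Not at h
  obtain ⟨n, hn, hne⟩ := h
  have hn' : n < (κ : ℤ) := by exact_mod_cast hn
  have h0 : a - c ≠ 0 := fun h0 => hne (by rw [h0, LS.coeff_zero])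
  have hle : (a - c).ord ≤ n := by
    by_contra hc
    exact hne (LS.coeff_of_lt_ord (not_le.1 hc))
  have hlt : (a - c).ord < κ := by omega
  refine ⟨a4a_ord_eq ?_ fun m hm => ?_, hlt⟩
  · rw [a4a_coeff, if_neg hlt.ne, add_zero]
    intro h1
    exact LS.coeff_ord_ne h0 ((map_eq_zero (LS.C : ℂ →+* K)).1 h1)
  · rw [a4a_coeff, if_neg (by omega), add_zero, LS.coeff_of_lt_ord hm, map_zero]

open Classical in
private lemma a4a_factor {a b c : K} {κ : ℕ} (hb : Vge (κ : ℝ) (b - a)) :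
    (nodeP b (κ + 1) (X - C c)).ord = (nodeP a κ (X - C c)).ord +
      (if Vge ((κ + 1 : ℕ) : ℝ) (c - b) then 1 else 0 : ℤ) := by
  have hs : ∀ r : ℝ, Vge r (c - b) ↔ Vge r (b - c) := by
    intro r
    unfold Vge
    refine forall_congr' fun n => forall_congr' fun _ => ?_
    rw [LS.coeff_sub, LS.coeff_sub, sub_eq_zero, sub_eq_zero]
    exact eq_comm
  have hk : ((κ + 1 : ℕ) : ℝ) = (κ : ℝ) + 1 := by push_cast; rfl
  have hac : a - c = (b - c) - (b - a) := by ring
  have hbc : b - c = (a - c) + (b - a) := by ring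
  by_cases h1 : Vge ((κ + 1 : ℕ) : ℝ) (b - c)
  · rw [if_pos ((hs _).2 h1), a4a_ge h1]
    have h2 : Vge (κ : ℝ) (b - c) := h1.mono (by rw [hk]; linarith)
    rw [a4a_ge (by rw [hac]; exact h2.sub hb)]
    push_cast
    rfl
  · rw [if_neg (fun h => h1 ((hs _).1 h)), add_zero]
    obtain ⟨h2, h3⟩ := a4a_lt h1
    rw [h2]
    by_cases h4 : Vge (κ : ℝ) (b - c)
    · rw [a4a_ge (by rw [hac]; exact h4.sub hb)]
      have h5 : b - c ≠ 0 := fun h0 => h1 (by rw [h0]; exact Vge.zero _)
      have h6 : (κ : ℤ) ≤ (b - c).ord := (LS.le_ord_iff h5 _).2 fun n hn => h4 n (by exact_mod_cast hn)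
      push_cast at h3
      omega
    · have h5 : ¬ Vge (κ : ℝ) (a - c) := fun h => h4 (by rw [hbc]; exact h.add hb)
      obtain ⟨h6, h7⟩ := a4a_lt h5
      obtain ⟨-, h8⟩ := a4a_lt h4
      rw [h6]
      have h9 : a - c ≠ 0 := fun h0 => h5 (by rw [h0]; exact Vge.zero _)
      have hco : ∀ n : ℤ, n < κ → (b - c).coeff n = (a - c).coeff n := by
        intro n hn
        rw [hbc, LS.coeff_add, hb n (by exact_mod_cast hn), add_zero]
      refine a4a_ord_eq ?_ fun n hn => ?_
      · rw [hco _ h7]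
        exact LS.coeff_ord_ne h9
      · rw [hco n (by omega)]
        exact LS.coeff_of_lt_ord hn

private lemma a4a_ord_prod {ι : Type} (s : Finset ι) (f : ι → F) (hf : ∀ i ∈ s, f i ≠ 0) :
    (∏ i ∈ s, f i).ord = ∑ i ∈ s, (f i).ord := by
  classical
  induction s using Finset.induction_on with
  | empty => rw [Finset.prod_empty, Finset.sum_empty, LS.ord_one]
  | insert i s hi ih =>
    rw [Finset.prod_insert hi, Finset.sum_insert hi, LS.ord_mul (hf i (Finset.mem_insert_self i s))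
      (Finset.prod_ne_zero_iff.2 fun j hj => hf j (Finset.mem_insert_of_mem hj)),
      ih fun j hj => hf j (Finset.mem_insert_of_mem hj)]

private lemma a4a_ord_fu (u : Fin l → K) (a : K) (κ : ℕ) :
    (nodeP a κ (fu u)).ord = ∑ i, (nodeP a κ (X - C (u i))).ord := by
  unfold fu
  rw [map_prod, a4a_ord_prod _ _ fun i _ => a4a_ne a (u i) κ]

lemma fu_child (u : Fin l → K) {a b : K} {κ : ℕ} (hb : Vge (κ : ℝ) (b - a)) :
    (nodeP b (κ + 1) (fu u)).ord = (nodeP a κ (fu u)).ord + nr u b (κ + 1) := by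
  classical
  rw [a4a_ord_fu, a4a_ord_fu, Finset.sum_congr rfl fun i _ => a4a_factor (c := u i) hb,
    Finset.sum_add_distrib]
  congr 1
  unfold nr
  rw [Finset.card_filter, Nat.cast_sum]
  refine Finset.sum_congr rfl fun i _ => ?_
  split_ifs
  · rfl
  · rfl

lemma fu_gauss (u : Fin l → K) (hu : ∀ i, Vge 0 (u i)) : (nodeP 0 0 (fu u)).ord = 0 := by
  rw [a4a_ord_fu]
  refine Finset.sum_eq_zero fun i _ => ?_
  rw [a4a_ge]
  · rfl
  · rw [zero_sub, Nat.cast_zero]
    exact (hu i).neg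

private lemma a4b_sum_mult (P : ℂ[X]) (S : Finset ℂ) :
    ∑ c ∈ S, P.rootMultiplicity c ≤ P.natDegree := by
  classical
  have h1 : ∑ c ∈ S, P.rootMultiplicity c ≤ ∑ c ∈ P.roots.toFinset, P.rootMultiplicity c := by
    refine Finset.sum_le_sum_of_ne_zero fun c _ hc => ?_
    rw [Multiset.mem_toFinset, ← Multiset.one_le_count_iff_mem, Polynomial.count_roots]
    omega
  have h2 : ∑ c ∈ P.roots.toFinset, P.rootMultiplicity c = Multiset.card P.roots := by
    rw [← Multiset.toFinset_sum_count_eq]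
    exact Finset.sum_congr rfl fun c _ => (Polynomial.count_roots P).symm
  exact h1.trans (h2.le.trans P.card_roots')

private lemma a4b_class {l : ℕ} (u : Fin l → K) (i : Fin l) (κ : ℕ) (j j' : Fin l)
    (hj : Vge (κ : ℝ) (u j - u i)) :
    Vge ((κ + 1 : ℕ) : ℝ) (u j' - u j) ↔
      Vge (κ : ℝ) (u j' - u i) ∧ (u j' - u i).coeff κ = (u j - u i).coeff κ := by
  constructor
  · intro h
    constructor
    · have h1 : u j' - u i = (u j' - u j) + (u j - u i) := by ring
      rw [h1]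
      exact (h.mono (by push_cast; linarith)).add hj
    · have h2 := h (κ : ℤ) (by push_cast; linarith)
      have h3 : u j' - u i = (u j' - u j) + (u j - u i) := by ring
      rw [h3, LS.coeff_add, h2, zero_add]
  · rintro ⟨h1, h2⟩ n hn
    have h3 : u j' - u j = (u j' - u i) - (u j - u i) := by ring
    rw [h3, LS.coeff_sub]
    have h4 : n < (κ : ℤ) + 1 := by exact_mod_cast hn
    rcases lt_or_eq_of_le (Int.lt_add_one_iff.1 h4) with h5 | h5
    · have h6 : (n : ℝ) < (κ : ℝ) := by exact_mod_cast h5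
      rw [h1 n h6, hj n h6, sub_zero]
    · rw [h5, h2, sub_self]

/-- roots of a node, counted by classes: `∑_c N_c ≤ ∑_c mult_c(P)` implies a bound of the degree -/
lemma class_count (u : Fin l → K) (i : Fin l) (κ : ℕ) (P : ℂ[X]) (hP : P ≠ 0) (n : ℕ) (s : ℝ)
    (h : ∀ (j : Fin l) (c : ℂ), Vge (κ : ℝ) (u j - u i) →
      Vge ((κ : ℝ) + 1) (u j - u i - LS.single κ c) →
      s + n * nr u (u j) (κ + 1) ≤ P.rootMultiplicity c) :
    (0 ≤ s → s + n * nr u (u i) κ ≤ P.natDegree) ∧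
      (s ≤ 0 → l * s + n * nr u (u i) κ ≤ P.natDegree) := by
  classical
  set J : Finset (Fin l) := Finset.univ.filter fun j => Vge (κ : ℝ) (u j - u i) with hJ
  set cl : Fin l → ℂ := fun j => (u j - u i).coeff κ with hcl
  have hnr : nr u (u i) κ = J.card := by
    unfold nr
    rw [hJ]
  have hnj : ∀ j ∈ J, nr u (u j) (κ + 1) = (J.filter fun j' => cl j' = cl j).card := by
    intro j hj
    rw [hJ, Finset.mem_filter] at hj
    unfold nr
    rw [hJ, Finset.filter_filter]
    refine congrArg Finset.card ?_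
    ext j'
    rw [Finset.mem_filter, Finset.mem_filter]
    exact and_congr_right fun _ => a4b_class u i κ j j' hj.2
  have hJi : i ∈ J := by
    rw [hJ, Finset.mem_filter]
    refine ⟨Finset.mem_univ i, ?_⟩
    rw [sub_self]
    exact Vge.zero _
  have hone : 1 ≤ (J.image cl).card := Finset.card_pos.2 ⟨cl i, Finset.mem_image_of_mem cl hJi⟩
  have hle : (J.image cl).card ≤ l :=
    Finset.card_image_le.trans ((Finset.card_le_univ J).trans (Fintype.card_fin l).le)
  have hsum : (J.image cl).card * s + n * nr u (u i) κ ≤ P.natDegree := by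
    have h1 : (nr u (u i) κ : ℝ) =
        ∑ c ∈ J.image cl, ((J.filter fun j' => cl j' = c).card : ℝ) := by
      rw [hnr, Finset.card_eq_sum_card_image cl J]
      push_cast
      rfl
    have h2 : ((J.image cl).card : ℝ) * s + n * nr u (u i) κ =
        ∑ c ∈ J.image cl, (s + n * ((J.filter fun j' => cl j' = c).card : ℝ)) := by
      rw [Finset.sum_add_distrib, Finset.sum_const, nsmul_eq_mul, ← Finset.mul_sum, h1]
    have h3 : ∑ c ∈ J.image cl, (s + n * ((J.filter fun j' => cl j' = c).card : ℝ)) ≤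
        ∑ c ∈ J.image cl, (P.rootMultiplicity c : ℝ) := by
      refine Finset.sum_le_sum fun c hc => ?_
      obtain ⟨j, hj, rfl⟩ := Finset.mem_image.1 hc
      have hj2 : Vge (κ : ℝ) (u j - u i) := (Finset.mem_filter.1 hj).2
      rw [← hnj j hj]
      refine h j (cl j) hj2 ?_
      intro m hm
      have h4 : m < (κ : ℤ) + 1 := by exact_mod_cast hm
      rw [LS.coeff_sub, LS.coeff_single]
      rcases lt_or_eq_of_le (Int.lt_add_one_iff.1 h4) with h5 | h5
      · rw [hj2 m (by exact_mod_cast h5), if_neg h5.ne, sub_zero]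
      · rw [if_pos h5, h5]
        exact sub_self _
    have h5 : ∑ c ∈ J.image cl, (P.rootMultiplicity c : ℝ) ≤ P.natDegree := by
      have := a4b_sum_mult P (J.image cl)
      exact_mod_cast this
    rw [h2]
    exact h3.trans h5
  have h1 : (1 : ℝ) ≤ (J.image cl).card := by exact_mod_cast hone
  have h2 : ((J.image cl).card : ℝ) ≤ l := by exact_mod_cast hle
  refine ⟨fun hs => ?_, fun hs => ?_⟩
  · nlinarith
  · nlinarith

end a4

/-! ### module a5: convexity, leaves, values (Lemma 3.3, (5.1)) -/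

section a5

variable {l : ℕ}

private lemma a5a_ord_pow {k : Type} [Field k] {x : LS k} (hx : x ≠ 0) (n : ℕ) :
    (x ^ n).ord = n * x.ord := by
  induction n with
  | zero => rw [pow_zero, LS.ord_one]; simp
  | succ n ih =>
    rw [pow_succ, LS.ord_mul (pow_ne_zero n hx) hx, ih]
    push_cast
    ring

private lemma a5a_nodeP_ne_zero (a : K) (κ : ℕ) {p : K[X]} (hp : p ≠ 0) : nodeP a κ p ≠ 0 :=
  (map_ne_zero_iff _ (nodeP_inj a κ)).2 hp

private lemma a5a_fu_ne_zero (u : Fin l → K) : fu u ≠ 0 := by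
  intro h
  exact fu_ne_zero u (by rw [h, map_zero])

private lemma a5a_pol_ne_zero {u : Fin l → K} {g : KT} (hg : g ≠ 0) {n : ℕ} {p : K[X]}
    (h : g * (algebraMap K[X] KT (fu u)) ^ n = algebraMap K[X] KT p) : p ≠ 0 := by
  rintro rfl
  rw [map_zero] at h
  exact mul_ne_zero hg (pow_ne_zero n (fu_ne_zero u)) h

/-- `w(p) = w(g) + n w(f)` -/
private lemma a5a_node_rel {u : Fin l → K} {g : KT} (hg : g ≠ 0) {n : ℕ} {p : K[X]}
    (h : g * (algebraMap K[X] KT (fu u)) ^ n = algebraMap K[X] KT p) (a : K) (κ : ℕ) :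
    (nodeP a κ p).ord = (node a κ g).ord + n * (nodeP a κ (fu u)).ord := by
  have h1 : node a κ g * (nodeP a κ (fu u)) ^ n = nodeP a κ p := by
    rw [← node_algebraMap, ← node_algebraMap, ← map_pow, ← map_mul, h]
  rw [← h1, LS.ord_mul ((_root_.map_ne_zero _).2 hg)
    (pow_ne_zero n (a5a_nodeP_ne_zero a κ (a5a_fu_ne_zero u))),
    a5a_ord_pow (a5a_nodeP_ne_zero a κ (a5a_fu_ne_zero u))]

/-- Lemma 3.3 -/
theorem convex (u : Fin l → K) (i : Fin l) (κ : ℕ) {g : KT} (hg : IsPol u g) {ν ν' : ℝ}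
    (hν : ν ≤ ν')
    (hc : ∀ j, Vge ((κ : ℝ) + 1) (u j - u i) → Vge ν (node (u j) (κ + 2) g))
    (hp : Vge ν' (node (u i) κ g)) :
    Vge ((l * ν + ν') / (l + 1)) (node (u i) (κ + 1) g) := by
  by_cases hg0 : g = 0
  · rw [hg0, map_zero]; exact Vge.zero _
  obtain ⟨n, p, h⟩ := hg
  have hp0 : p ≠ 0 := a5a_pol_ne_zero hg0 h
  have hn0 : ∀ (a : K) (m : ℕ), node a m g ≠ 0 := fun a m => (_root_.map_ne_zero _).2 hg0
  rw [Vge_iff_ord (hn0 _ _)]
  rw [Vge_iff_ord (hn0 _ _)] at hp
  set μ : ℤ := (node (u i) (κ + 1) g).ord with hμ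
  set P : ℂ[X] := nc (u i) (κ + 1) (nodeP (u i) (κ + 1) p).ord p with hP
  have hPne : P ≠ 0 := nc_ord_ne hp0
  -- orders at `(u i, κ + 1)`
  have e1 := a5a_node_rel hg0 h (u i) (κ + 1)
  have e0 := a5a_node_rel hg0 h (u i) κ
  have f1 : (nodeP (u i) (κ + 1) (fu u)).ord = (nodeP (u i) κ (fu u)).ord + nr u (u i) (κ + 1) :=
    fu_child u (by rw [sub_self]; exact Vge.zero _)
  have hcount := class_count u i (κ + 1) P hPne n (ν - μ) (by
    intro j c hj1 hj2
    have hj1' : Vge ((κ : ℝ) + 1) (u j - u i) := by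
      have : (((κ + 1 : ℕ) : ℝ)) = (κ : ℝ) + 1 := by push_cast; ring
      rw [← this]; exact hj1
    have h2 := hc j hj1'
    rw [Vge_iff_ord (hn0 _ _)] at h2
    have h3 : (nodeP (u j) (κ + 1 + 1) p).ord ≤
      (nodeP (u i) (κ + 1) p).ord + P.rootMultiplicity c := child_ord_le hj2 hp0
    have e2 := a5a_node_rel hg0 h (u j) (κ + 1 + 1)
    have f2 : (nodeP (u j) (κ + 1 + 1) (fu u)).ord =
      (nodeP (u i) (κ + 1) (fu u)).ord + nr u (u j) (κ + 1 + 1) := fu_child u hj1
    rw [e2, e1, f2] at h3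
    have h4 : (node (u j) (κ + 2) g).ord + n * nr u (u j) (κ + 1 + 1) ≤
        μ + (P.rootMultiplicity c : ℤ) := by
      have : (node (u j) (κ + 1 + 1) g).ord = (node (u j) (κ + 2) g).ord := rfl
      rw [this] at h3
      rw [← hμ] at h3
      linarith
    have h5 : (((node (u j) (κ + 2) g).ord : ℝ)) + n * nr u (u j) (κ + 1 + 1) ≤
        μ + (P.rootMultiplicity c : ℝ) := by
      exact_mod_cast h4
    linarith)
  have h6 : (nodeP (u i) κ p).ord ≤ (nodeP (u i) (κ + 1) p).ord - P.natDegree :=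
    parent_ord_le hp0
  rw [e0, e1, f1, ← hμ] at h6
  have h7 : (node (u i) κ g).ord ≤ μ + n * nr u (u i) (κ + 1) - (P.natDegree : ℤ) := by linarith
  have h8 : ((node (u i) κ g).ord : ℝ) ≤ μ + n * nr u (u i) (κ + 1) - (P.natDegree : ℝ) := by
    exact_mod_cast h7
  have hl : (0 : ℝ) < (l : ℝ) + 1 := by positivity
  rw [div_le_iff₀ hl]
  rcases le_total 0 (ν - μ) with hs | hs
  · have h9 := hcount.1 hs
    have h10 : ν ≤ (μ : ℝ) := by linarith
    have h11 : ν = (μ : ℝ) := by linarith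
    have h12 : ν' ≤ (μ : ℝ) := by linarith
    rw [h11]
    linarith
  · have h9 := hcount.2 hs
    linarith

private lemma a5b_ord_eq {k : Type} [Field k] {x : LS k} {n : ℤ} (h0 : ∀ m < n, x.coeff m = 0)
    (h1 : x.coeff n ≠ 0) : x ≠ 0 ∧ x.ord = n := by
  have hx : x ≠ 0 := by
    rintro rfl
    exact h1 (LS.coeff_zero n)
  refine ⟨hx, le_antisymm ?_ ((LS.le_ord_iff hx n).2 h0)⟩
  by_contra hc
  exact h1 (LS.coeff_of_lt_ord (not_le.1 hc))

private lemma a5b_ord_pow {k : Type} [Field k] {x : LS k} (hx : x ≠ 0) (n : ℕ) :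
    (x ^ n).ord = n * x.ord := by
  induction n with
  | zero => rw [pow_zero, LS.ord_one]; simp
  | succ n ih =>
    rw [pow_succ, LS.ord_mul (pow_ne_zero n hx) hx, ih]
    push_cast
    ring

private lemma a5b_ord_prod {k : Type} [Field k] {ι : Type} (s : Finset ι) (f : ι → LS k)
    (h : ∀ i ∈ s, f i ≠ 0) : (∏ i ∈ s, f i).ord = ∑ i ∈ s, (f i).ord := by
  classical
  induction s using Finset.induction_on with
  | empty => rw [Finset.prod_empty, Finset.sum_empty, LS.ord_one]
  | insert a s ha ih =>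
    rw [Finset.prod_insert ha, Finset.sum_insert ha, LS.ord_mul (h a (Finset.mem_insert_self a s))
      (Finset.prod_ne_zero_iff.2 fun i hi => h i (Finset.mem_insert_of_mem hi)),
      ih fun i hi => h i (Finset.mem_insert_of_mem hi)]

private lemma a5b_mul_coeff {k : Type} [Field k] {x y : LS k} (hx : Vge 0 x) (hy : Vge 0 y) :
    (x * y).coeff 0 = x.coeff 0 * y.coeff 0 := by
  have h1 : ∀ m < (0 : ℤ), x.coeff m = 0 := fun m hm => hx m (by exact_mod_cast hm)
  have h2 : ∀ m < (0 : ℤ), y.coeff m = 0 := fun m hm => hy m (by exact_mod_cast hm)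
  rw [LS.coeff_mul h1 h2, sub_zero, Finset.Icc_self, Finset.sum_singleton, sub_zero]

private lemma a5b_pow_coeff {k : Type} [Field k] {x : LS k} (hx : Vge 0 x) (n : ℕ) :
    (x ^ n).coeff 0 = x.coeff 0 ^ n := by
  induction n with
  | zero => rw [pow_zero, pow_zero, LS.coeff_one, if_pos rfl]
  | succ n ih => rw [pow_succ, pow_succ, a5b_mul_coeff (hx.pow0 n) hx, ih]

/-- the expansion of a polynomial at `t = a` -/
private lemma a5b_locP (a : K) (q : K[X]) :
    Vge 0 (locP a q) ∧ (locP a q).coeff 0 = q.eval a := by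
  have hC : ∀ b : K, locP a (C b) = LS.C b := fun b => eval₂_C _ _
  have hX : locP a X = LS.C a + LS.single (1 : ℤ) (1 : K) := eval₂_X _ _
  have hXV : Vge 0 (locP a X) ∧ (locP a X).coeff 0 = a := by
    rw [hX]
    refine ⟨(Vge.C a).add (Vge.single (by norm_num) _), ?_⟩
    rw [LS.coeff_add, LS.coeff_C, LS.coeff_single, if_pos rfl, if_neg (by norm_num), add_zero]
  have hCV : ∀ b : K, Vge 0 (locP a (C b)) ∧ (locP a (C b)).coeff 0 = b := fun b => by
    rw [hC]
    exact ⟨Vge.C b, by rw [LS.coeff_C, if_pos rfl]⟩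
  induction q using Polynomial.induction_on' with
  | add p q hp hq =>
    rw [map_add, LS.coeff_add, hp.2, hq.2, eval_add]
    exact ⟨hp.1.add hq.1, rfl⟩
  | monomial n b =>
    rw [← C_mul_X_pow_eq_monomial, map_mul, map_pow, a5b_mul_coeff (hCV b).1 (hXV.1.pow0 n),
      a5b_pow_coeff hXV.1, (hCV b).2, hXV.2]
    exact ⟨(hCV b).1.mul0 (hXV.1.pow0 n), by simp⟩

private lemma a5b_locP_sub (a : K) : locP a (X - C a) = LS.single (1 : ℤ) (1 : K) := by
  have hC : locP a (C a) = LS.C a := eval₂_C _ _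
  have hX : locP a X = LS.C a + LS.single (1 : ℤ) (1 : K) := eval₂_X _ _
  rw [map_sub, hC, hX, add_sub_cancel_left]

/-- the value of a polynomial at `a` from its expansion at the node `(a, κ)` -/
private lemma a5b_node_val (a : K) (κ : ℕ) (q : K[X]) (n : ℤ) :
    ((nodeP a κ q).coeff n).coeff 0 = (q.eval a).coeff n := by
  have h := polK_coeff (nc a κ n q) 0
  rw [Nat.cast_zero] at h
  rw [nodeP_coeff, h]
  unfold nc subP
  rw [cfP_coeff, coeff_zero_eq_eval_zero, eval_comp]
  simp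

private lemma a5b_node_val_Vge {a : K} {κ : ℕ} {q : K[X]} {c : ℝ} (h : Vge c (nodeP a κ q)) :
    Vge c (q.eval a) := by
  intro n hn
  rw [← a5b_node_val a κ, h n hn, LS.coeff_zero]

/-- the order of a linear polynomial at a node -/
private lemma a5b_ord_lin {a b : K} {κ : ℕ} (h0 : a - b ≠ 0) (h : (a - b).ord ≤ κ) :
    (nodeP a κ (X - C b)).ord = (a - b).ord := by
  have hC : nodeP a κ (C b) = inn b := eval₂_C _ _
  have hX : nodeP a κ X = inn a + LS.single (κ : ℤ) (LS.single (1 : ℤ) (1 : ℂ)) := eval₂_X _ _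
  have e : nodeP a κ (X - C b) = inn (a - b) + LS.single (κ : ℤ) (LS.single (1 : ℤ) (1 : ℂ)) := by
    rw [map_sub, hC, hX, map_sub]; ring
  rw [e]
  refine (a5b_ord_eq (fun m hm => ?_) ?_).2
  · rw [LS.coeff_add, inn_coeff, LS.coeff_of_lt_ord hm, map_zero, LS.coeff_single,
      if_neg (by omega), add_zero]
  · intro hc
    have h1 := congrArg (fun x : LS ℂ => x.coeff 0) hc
    simp only [LS.coeff_add, inn_coeff, LS.coeff_zero, LS.coeff_C, if_true] at h1
    rw [LS.coeff_single] at h1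
    split_ifs at h1 with h2
    · rw [LS.coeff_single, if_neg (by norm_num), add_zero] at h1
      exact LS.coeff_ord_ne h0 h1
    · rw [LS.coeff_zero, add_zero] at h1
      exact LS.coeff_ord_ne h0 h1

/-- `∏ (t - u_j)`, `j ≠ i` -/
private noncomputable def a5b_f (u : Fin l → K) (i : Fin l) : K[X] :=
  ∏ j ∈ Finset.univ.erase i, (X - C (u j))

private lemma a5b_fu (u : Fin l → K) (i : Fin l) : fu u = (X - C (u i)) * a5b_f u i := by
  exact (Finset.mul_prod_erase Finset.univ (fun j => X - C (u j)) (Finset.mem_univ i)).symm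

private lemma a5b_sub {u : Fin l → K} {i : Fin l} {κ : ℕ}
    (hi : ∀ j, j ≠ i → ¬ Vge ((κ : ℝ) + 1) (u j - u i)) {j : Fin l} (hj : j ≠ i) :
    u i - u j ≠ 0 ∧ (u i - u j).ord ≤ κ := by
  have h1 := hi j hj
  have h0 : u i - u j ≠ 0 := by
    intro hc
    refine h1 ?_
    have : u j - u i = 0 := by rw [← neg_sub, hc, neg_zero]
    rw [this]; exact Vge.zero _
  refine ⟨h0, ?_⟩
  by_contra hc
  rw [not_le] at hc
  refine h1 ?_
  have h2 : Vge ((κ : ℝ) + 1) (u i - u j) := by
    rw [Vge_iff_ord h0]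
    have : ((κ : ℤ) + 1) ≤ (u i - u j).ord := hc
    exact_mod_cast this
  intro n hn
  have h3 := h2 n hn
  rw [LS.coeff_sub] at h3 ⊢
  rw [sub_eq_zero] at h3 ⊢
  exact h3.symm

private lemma a5b_f_ord {u : Fin l → K} {i : Fin l} {κ κ' : ℕ}
    (hi : ∀ j, j ≠ i → ¬ Vge ((κ : ℝ) + 1) (u j - u i)) (hκ : κ ≤ κ') :
    (nodeP (u i) κ' (a5b_f u i)).ord = ((a5b_f u i).eval (u i)).ord := by
  have hne : ∀ j ∈ Finset.univ.erase i, u i - u j ≠ 0 := fun j hj =>
    (a5b_sub hi (Finset.ne_of_mem_erase hj)).1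
  unfold a5b_f
  rw [map_prod, eval_prod, a5b_ord_prod, a5b_ord_prod]
  · refine Finset.sum_congr rfl fun j hj => ?_
    have h := a5b_sub hi (Finset.ne_of_mem_erase hj)
    rw [a5b_ord_lin h.1 (h.2.trans (by exact_mod_cast hκ)), eval_sub, eval_X, eval_C]
  · intro j hj
    rw [eval_sub, eval_X, eval_C]
    exact hne j hj
  · intro j hj
    rw [map_ne_zero_iff _ (nodeP_inj _ _)]
    exact X_sub_C_ne_zero _

private lemma a5b_f_eval {u : Fin l → K} {i : Fin l} {κ : ℕ}
    (hi : ∀ j, j ≠ i → ¬ Vge ((κ : ℝ) + 1) (u j - u i)) : (a5b_f u i).eval (u i) ≠ 0 := by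
  unfold a5b_f
  rw [eval_prod, Finset.prod_ne_zero_iff]
  intro j hj
  rw [eval_sub, eval_X, eval_C]
  exact (a5b_sub hi (Finset.ne_of_mem_erase hj)).1

private lemma a5b_f_ne (u : Fin l → K) (i : Fin l) : a5b_f u i ≠ 0 := by
  unfold a5b_f
  exact Finset.prod_ne_zero_iff.2 fun j _ => X_sub_C_ne_zero _

/-- `g f'^n = q` for a function regular at `u_i` -/
private lemma a5b_split (u : Fin l → K) (i : Fin l) (κ : ℕ)
    (hi : ∀ j, j ≠ i → ¬ Vge ((κ : ℝ) + 1) (u j - u i)) {g : KT} (hg : IsPol u g)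
    (hr : Vge 0 (loc (u i) g)) :
    ∃ (n : ℕ) (q : K[X]), g * (algebraMap K[X] KT (a5b_f u i)) ^ n = algebraMap K[X] KT q := by
  by_cases hg0 : g = 0
  · exact ⟨0, 0, by rw [hg0, zero_mul, map_zero]⟩
  obtain ⟨n, p, h⟩ := hg
  have hp0 : p ≠ 0 := by
    rintro rfl
    rw [map_zero] at h
    exact mul_ne_zero hg0 (pow_ne_zero n (fu_ne_zero u)) h
  obtain ⟨q, hq, hnd⟩ := exists_eq_pow_rootMultiplicity_mul_and_not_dvd p hp0 (u i)
  set e := p.rootMultiplicity (u i) with he
  have hqe : q.eval (u i) ≠ 0 := fun hc => hnd (dvd_iff_isRoot.2 hc)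
  have hord : ∀ r : K[X], r.eval (u i) ≠ 0 → locP (u i) r ≠ 0 ∧ (locP (u i) r).ord = 0 := by
    intro r hr
    obtain ⟨h1, h2⟩ := a5b_locP (u i) r
    exact a5b_ord_eq (fun m hm => h1 m (by exact_mod_cast hm)) (by rw [h2]; exact hr)
  obtain ⟨hQ0, hQ⟩ := hord q hqe
  obtain ⟨hF0, hF⟩ := hord (a5b_f u i) (a5b_f_eval hi)
  have hG0 : loc (u i) g ≠ 0 := (_root_.map_ne_zero _).2 hg0
  have hT : (LS.single (1 : ℤ) (1 : K)) ≠ 0 := by
    intro hc
    have := congrArg (fun x : LS K => x.coeff 1) hc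
    simp only [LS.coeff_single_same, LS.coeff_zero] at this
    exact one_ne_zero this
  have hTord : (LS.single (1 : ℤ) (1 : K)).ord = 1 := LS.ord_single one_ne_zero
  have h1 : loc (u i) g * ((LS.single (1 : ℤ) (1 : K)) ^ n * (locP (u i) (a5b_f u i)) ^ n)
      = (LS.single (1 : ℤ) (1 : K)) ^ e * locP (u i) q := by
    have h2 := congrArg (loc (u i)) h
    rw [map_mul, map_pow, loc_algebraMap, loc_algebraMap, a5b_fu, map_mul, a5b_locP_sub, mul_pow,
      hq, map_mul, map_pow, a5b_locP_sub] at h2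
    exact h2
  have hen : n ≤ e := by
    have h2 := congrArg LS.ord h1
    rw [LS.ord_mul hG0 (mul_ne_zero (pow_ne_zero _ hT) (pow_ne_zero _ hF0)),
      LS.ord_mul (pow_ne_zero _ hT) (pow_ne_zero _ hF0), LS.ord_mul (pow_ne_zero _ hT) hQ0,
      a5b_ord_pow hT, a5b_ord_pow hT, a5b_ord_pow hF0, hTord, hQ, hF] at h2
    rw [Vge_iff_ord hG0] at hr
    have h3 : 0 ≤ (loc (u i) g).ord := by exact_mod_cast hr
    have h4 : (n : ℤ) ≤ e := by linarith
    exact_mod_cast h4
  refine ⟨n, (X - C (u i)) ^ (e - n) * q, ?_⟩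
  have hXn : (algebraMap K[X] KT (X - C (u i))) ^ n ≠ 0 := by
    refine pow_ne_zero n ?_
    rw [map_ne_zero_iff _ (IsFractionRing.injective K[X] KT)]
    exact X_sub_C_ne_zero _
  refine mul_left_cancel₀ hXn ?_
  have e1 : (algebraMap K[X] KT (X - C (u i))) ^ n * (g * (algebraMap K[X] KT (a5b_f u i)) ^ n)
      = g * (algebraMap K[X] KT (fu u)) ^ n := by
    rw [a5b_fu, map_mul, mul_pow, mul_left_comm]
  have e2 : p = (X - C (u i)) ^ n * ((X - C (u i)) ^ (e - n) * q) := by
    rw [← mul_assoc, ← pow_add, Nat.add_sub_cancel' hen]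
    exact hq
  rw [e1, h, e2, map_mul, map_pow]

private lemma a5b_node_rel {u : Fin l → K} {i : Fin l} {g : KT} (hg : g ≠ 0) {n : ℕ} {q : K[X]}
    (h : g * (algebraMap K[X] KT (a5b_f u i)) ^ n = algebraMap K[X] KT q) (a : K) (κ : ℕ) :
    (nodeP a κ q).ord = (node a κ g).ord + n * (nodeP a κ (a5b_f u i)).ord := by
  have h1 : node a κ g * (nodeP a κ (a5b_f u i)) ^ n = nodeP a κ q := by
    rw [← node_algebraMap, ← node_algebraMap, ← map_pow, ← map_mul, h]
  have h2 : nodeP a κ (a5b_f u i) ≠ 0 :=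
    (map_ne_zero_iff _ (nodeP_inj a κ)).2 (a5b_f_ne u i)
  rw [← h1, LS.ord_mul ((_root_.map_ne_zero _).2 hg) (pow_ne_zero n h2), a5b_ord_pow h2]

private lemma a5b_q_ne {u : Fin l → K} {i : Fin l} {g : KT} (hg : g ≠ 0) {n : ℕ} {q : K[X]}
    (h : g * (algebraMap K[X] KT (a5b_f u i)) ^ n = algebraMap K[X] KT q) : q ≠ 0 := by
  rintro rfl
  rw [map_zero] at h
  refine mul_ne_zero hg (pow_ne_zero n ?_) h
  rw [map_ne_zero_iff _ (IsFractionRing.injective K[X] KT)]
  exact a5b_f_ne u i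

/-- a function regular at `u_i` (5.1) -/
theorem leaf (u : Fin l → K) (i : Fin l) (κ : ℕ)
    (hi : ∀ j, j ≠ i → ¬ Vge ((κ : ℝ) + 1) (u j - u i)) {g : KT} (hg : IsPol u g)
    (hr : Vge 0 (loc (u i) g)) {c : ℝ} (h : Vge c (node (u i) κ g)) :
    Vge c (node (u i) (κ + 1) g) := by
  by_cases hg0 : g = 0
  · rw [hg0, map_zero]; exact Vge.zero _
  obtain ⟨n, q, hq⟩ := a5b_split u i κ hi hg hr
  have hn0 : ∀ m : ℕ, node (u i) m g ≠ 0 := fun m => (_root_.map_ne_zero _).2 hg0
  rw [Vge_iff_ord (hn0 _)] at h ⊢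
  have e0 := a5b_node_rel hg0 hq (u i) κ
  have e1 := a5b_node_rel hg0 hq (u i) (κ + 1)
  rw [a5b_f_ord hi le_rfl] at e0
  rw [a5b_f_ord hi (Nat.le_succ κ)] at e1
  have h2 : (nodeP (u i) κ q).ord ≤ (nodeP (u i) (κ + 1) q).ord :=
    child_ord_ge (by rw [sub_self]; exact Vge.zero _) (a5b_q_ne hg0 hq)
  refine h.trans ?_
  have h3 : (node (u i) κ g).ord ≤ (node (u i) (κ + 1) g).ord := by linarith
  exact_mod_cast h3

/-- the value at `u_i` -/
theorem value_at (u : Fin l → K) (i : Fin l) (κ : ℕ)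
    (hi : ∀ j, j ≠ i → ¬ Vge ((κ : ℝ) + 1) (u j - u i)) {g : KT} (hg : IsPol u g)
    (hr : Vge 0 (loc (u i) g)) {c : ℝ} (h : Vge c (node (u i) (κ + 1) g)) :
    Vge c ((loc (u i) g).coeff 0) := by
  by_cases hg0 : g = 0
  · rw [hg0, map_zero]; exact Vge.zero _
  by_cases hv0 : (loc (u i) g).coeff 0 = 0
  · rw [hv0]; exact Vge.zero _
  obtain ⟨n, q, hq⟩ := a5b_split u i κ hi hg hr
  have hn0 : node (u i) (κ + 1) g ≠ 0 := (_root_.map_ne_zero _).2 hg0
  rw [Vge_iff_ord hn0] at h
  rw [Vge_iff_ord hv0]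
  have e1 := a5b_node_rel hg0 hq (u i) (κ + 1)
  rw [a5b_f_ord hi (Nat.le_succ κ)] at e1
  have h1 : (loc (u i) g).coeff 0 * ((a5b_f u i).eval (u i)) ^ n = q.eval (u i) := by
    have h2 := congrArg (loc (u i)) hq
    rw [map_mul, map_pow, loc_algebraMap, loc_algebraMap] at h2
    have h3 := congrArg (fun x : LS K => x.coeff 0) h2
    have hF := a5b_locP (u i) (a5b_f u i)
    rw [a5b_mul_coeff hr (hF.1.pow0 n), a5b_pow_coeff hF.1, hF.2, (a5b_locP (u i) q).2] at h3
    exact h3
  have hfe := a5b_f_eval hi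
  have hqe : q.eval (u i) ≠ 0 := by
    rw [← h1]; exact mul_ne_zero hv0 (pow_ne_zero n hfe)
  have h4 := congrArg LS.ord h1
  rw [LS.ord_mul hv0 (pow_ne_zero n hfe), a5b_ord_pow hfe] at h4
  have hQ0 : nodeP (u i) (κ + 1) q ≠ 0 :=
    (map_ne_zero_iff _ (nodeP_inj _ _)).2 (a5b_q_ne hg0 hq)
  have h5 : Vge ((nodeP (u i) (κ + 1) q).ord : ℝ) (q.eval (u i)) :=
    a5b_node_val_Vge ((Vge_iff_ord hQ0 _).2 le_rfl)
  rw [Vge_iff_ord hqe] at h5
  have h6 : (nodeP (u i) (κ + 1) q).ord ≤ (q.eval (u i)).ord := by exact_mod_cast h5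
  refine h.trans ?_
  have h7 : (node (u i) (κ + 1) g).ord ≤ ((loc (u i) g).coeff 0).ord := by linarith
  exact_mod_cast h7

private def a5c_Q (c : ℝ) (x : F) : Prop := ∀ n : ℤ, Vge c (x.coeff n)

private lemma a5c_add {c : ℝ} {x y : F} (hx : a5c_Q c x) (hy : a5c_Q c y) : a5c_Q c (x + y) := by
  intro n
  rw [LS.coeff_add]
  exact (hx n).add (hy n)

private lemma a5c_mul {c : ℝ} {x y : F} (hx : a5c_Q c x) (hy : a5c_Q 0 y) : a5c_Q c (x * y) := by
  intro n
  obtain ⟨N, hN⟩ := x.exists_lb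
  obtain ⟨M, hM⟩ := y.exists_lb
  rw [LS.coeff_mul hN hM]
  refine Vge.sum fun i _ => ?_
  have := (hx i).mul (hy (n - i))
  rwa [add_zero] at this

private lemma a5c_one : a5c_Q 0 (1 : F) := by
  intro n
  rw [LS.coeff_one]
  split_ifs
  · exact Vge.one
  · exact Vge.zero _

private lemma a5c_pow {x : F} (hx : a5c_Q 0 x) (n : ℕ) : a5c_Q 0 (x ^ n) := by
  induction n with
  | zero => rw [pow_zero]; exact a5c_one
  | succ n ih => rw [pow_succ]; exact a5c_mul ih hx

private lemma a5c_prod {ι : Type} (s : Finset ι) (f : ι → F) (hf : ∀ i ∈ s, a5c_Q 0 (f i)) :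
    a5c_Q 0 (∏ i ∈ s, f i) := by
  classical
  induction s using Finset.induction_on with
  | empty => rw [Finset.prod_empty]; exact a5c_one
  | insert i s hi ih =>
    rw [Finset.prod_insert hi]
    exact a5c_mul (hf i (Finset.mem_insert_self i s)) (ih fun j hj => hf j (Finset.mem_insert_of_mem hj))

private lemma a5c_single {c : ℝ} (m : ℤ) {b : K} (hb : Vge c b) :
    a5c_Q c (LS.single m b) := by
  intro n
  rw [LS.coeff_single]
  split_ifs
  · exact hb
  · exact Vge.zero _

private lemma a5c_single_pow (j : ℕ) : (LS.single (-1) 1 : F) ^ j = LS.single (-(j : ℤ)) 1 := by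
  induction j with
  | zero => rw [pow_zero, Nat.cast_zero, neg_zero, LS.single_zero_one]
  | succ j ih =>
    rw [pow_succ, ih, LS.single_mul_single, mul_one, Nat.cast_succ]
    congr 1
    ring

private lemma a5c_infP {c : ℝ} (p : K[X]) (hp : ∀ j, Vge c (p.coeff j)) : a5c_Q c (infP p) := by
  intro n
  unfold infP
  rw [coe_eval₂RingHom, eval₂_eq_sum, sum_def, LS.coeff_sum]
  refine Vge.sum fun j _ => ?_
  rw [a5c_single_pow, LS.C_apply, LS.single_mul_single, mul_one]
  exact a5c_single _ (hp j) n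

/-- the inverse of `T⁻¹ - u` -/
private noncomputable def a5c_y (v : K) : F :=
  LS.mk (fun n => if n ≤ 0 then 0 else v ^ (n - 1).toNat) ⟨1, fun n hn => if_pos (by omega)⟩

private lemma a5c_y_mul (v : K) : (LS.single (-1) 1 - LS.C v) * a5c_y v = 1 := by
  ext1 n
  rw [sub_mul, LS.coeff_sub, LS.coeff_single_mul, LS.coeff_C_mul, LS.coeff_one]
  unfold a5c_y
  rw [LS.coeff_mk, LS.coeff_mk, one_mul, sub_neg_eq_add]
  rcases lt_trichotomy n 0 with h | h | h
  · rw [if_pos (by omega), if_pos (by omega), if_neg (by omega), mul_zero, sub_zero]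
  · rw [h, if_neg (by omega), if_pos (by omega), if_pos rfl, mul_zero, sub_zero, zero_add, sub_self,
      Int.toNat_zero, pow_zero]
  · rw [if_neg (by omega), if_neg (by omega), if_neg (by omega)]
    obtain ⟨m, rfl⟩ : ∃ m : ℕ, n = (m : ℤ) + 1 := ⟨(n - 1).toNat, by omega⟩
    have e1 : ((m : ℤ) + 1 + 1 - 1).toNat = m + 1 := by omega
    have e2 : ((m : ℤ) + 1 - 1).toNat = m := by omega
    rw [e1, e2, pow_succ]
    ring

private lemma a5c_y_Q {v : K} (hv : Vge 0 v) : a5c_Q 0 (a5c_y v) := by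
  intro n
  unfold a5c_y
  rw [LS.coeff_mk]
  split_ifs
  · exact Vge.zero _
  · exact hv.pow0 _

/-- coefficients at infinity -/
theorem inf_coeff (u : Fin l → K) (hu : ∀ i, Vge 0 (u i)) {g : KT} (hg : IsPol u g) {c : ℝ}
    (h : Vge c (node 0 0 g)) (n : ℤ) : Vge c ((inf g).coeff n) := by
  obtain ⟨m, p, hp⟩ := hg
  -- the coefficients of `p`
  have h1 : Vge c (nodeP 0 0 p) := by
    have h2 := congrArg (node 0 0) hp
    rw [map_mul, map_pow, node_algebraMap, node_algebraMap] at h2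
    rw [← h2]
    have h3 : Vge 0 (nodeP 0 0 (fu u)) := by
      have h4 := fu_gauss u hu
      have h5 : nodeP 0 0 (fu u) ≠ 0 := by
        intro h0
        have h6 : fu u = 0 := nodeP_inj 0 0 (by rw [h0, map_zero])
        exact fu_ne_zero u (by rw [h6, map_zero])
      rw [Vge_iff_ord h5, h4, Int.cast_zero]
    have := h.mul (h3.pow0 m)
    rwa [add_zero] at this
  have hpc : ∀ j, Vge c (p.coeff j) := by
    intro j k hk
    have h2 := h1 k hk
    rw [nodeP_coeff] at h2
    have h3 : nc 0 0 k p = 0 := polK_inj (by rw [h2, map_zero])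
    have h4 := congrArg (fun q : ℂ[X] => q.coeff j) h3
    unfold nc at h4
    rw [coeff_zero] at h4
    rw [cfP_coeff] at h4
    have h5 : subP (0 : K) 0 p = p := by
      unfold subP
      rw [Nat.cast_zero, LS.single_zero_one, map_zero, map_one, zero_add, one_mul, comp_X]
    rwa [h5] at h4
  have hy : ∀ i, (infP (X - C (u i))) * a5c_y (u i) = 1 := by
    intro i
    unfold infP
    rw [coe_eval₂RingHom, eval₂_sub, eval₂_X, eval₂_C]
    exact a5c_y_mul (u i)
  have hf : infP (fu u) * ∏ i, a5c_y (u i) = 1 := by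
    unfold fu
    rw [map_prod, ← Finset.prod_mul_distrib]
    exact Finset.prod_eq_one fun i _ => hy i
  have hg' : inf g = infP p * (∏ i, a5c_y (u i)) ^ m := by
    have h2 := congrArg inf hp
    rw [map_mul, map_pow, inf_algebraMap, inf_algebraMap] at h2
    rw [← h2, mul_assoc, ← mul_pow, hf, one_pow, mul_one]
  rw [hg']
  exact a5c_mul (a5c_infP p hpc) (a5c_pow (a5c_prod _ _ fun i _ => a5c_y_Q (hu i)) m) n

end a5

/-! ### module a6: Lemma 7.1 -/

private lemma a6_single_pow {k : Type} [Field k] (n : ℕ) :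
    (LS.single (-1) (1 : k)) ^ n = LS.single (-(n : ℤ)) 1 := by
  induction n with
  | zero => rw [pow_zero, ← LS.single_zero_one]; simp
  | succ n ih =>
    rw [pow_succ, ih, LS.single_mul_single, mul_one]
    congr 1
    push_cast
    ring

private lemma a6_infP_coeff (p : K[X]) (k : ℤ) :
    (infP p).coeff k =
      ∑ i ∈ Finset.range (p.natDegree + 1), p.coeff i * (if k = -(i : ℤ) then 1 else 0) := by
  change (eval₂ LS.C (LS.single (-1 : ℤ) (1 : K)) p).coeff k = _
  rw [eval₂_eq_sum_range, LS.coeff_sum]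
  refine Finset.sum_congr rfl fun i _ => ?_
  rw [a6_single_pow, LS.coeff_C_mul, LS.coeff_single]

private lemma a6_infP_ord {p : K[X]} (hp : p ≠ 0) : (infP p).ord = -(p.natDegree : ℤ) := by
  have hne : infP p ≠ 0 := (map_ne_zero_iff _ infP_inj).2 hp
  apply le_antisymm
  · by_contra hc
    have h1 : (infP p).coeff (-(p.natDegree : ℤ)) = 0 := LS.coeff_of_lt_ord (not_le.1 hc)
    rw [a6_infP_coeff, Finset.sum_eq_single_of_mem p.natDegree (by simp)] at h1
    · rw [if_pos rfl, mul_one] at h1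
      exact hp (leadingCoeff_eq_zero.1 h1)
    · intro b _ hb
      rw [if_neg (by omega), mul_zero]
  · rw [LS.le_ord_iff hne]
    intro k hk
    rw [a6_infP_coeff]
    refine Finset.sum_eq_zero fun i hi => ?_
    rw [Finset.mem_range] at hi
    rw [if_neg (by omega), mul_zero]

private lemma a6_fu_natDegree {l : ℕ} (u : Fin l → K) : (fu u).natDegree = l := by
  unfold fu
  rw [natDegree_finsetProd_X_sub_C_eq_card]
  simp

/-- degree of `p` if `g` vanishes at infinity -/
private lemma a6_deg {l : ℕ} {u : Fin l → K} {g : KT} (hg : g ≠ 0) {n : ℕ} {p : K[X]}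
    (h : g * (algebraMap K[X] KT (fu u)) ^ n = algebraMap K[X] KT p) (hi : Vge 1 (inf g)) :
    (p.natDegree : ℤ) + 1 ≤ n * l := by
  have hp : p ≠ 0 := a5a_pol_ne_zero hg h
  have hf : fu u ≠ 0 := a5a_fu_ne_zero u
  have hfi : infP (fu u) ≠ 0 := (map_ne_zero_iff _ infP_inj).2 hf
  have h1 : inf g * (infP (fu u)) ^ n = infP p := by
    rw [← inf_algebraMap, ← inf_algebraMap, ← map_pow, ← map_mul, h]
  have hgi : inf g ≠ 0 := (_root_.map_ne_zero _).2 hg
  have h2 := congrArg LS.ord h1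
  rw [LS.ord_mul hgi (pow_ne_zero n hfi), a5a_ord_pow hfi, a6_infP_ord hp, a6_infP_ord hf,
    a6_fu_natDegree] at h2
  rw [Vge_iff_ord hgi] at hi
  have h3 : (1 : ℤ) ≤ (inf g).ord := by exact_mod_cast hi
  linarith

private lemma a6_uniform {l : ℕ} (u : Fin l → K) (g : Fin l → KT) (hg : ∀ i, IsPol u (g i)) :
    ∃ (n : ℕ) (p : Fin l → K[X]), ∀ i,
      g i * (algebraMap K[X] KT (fu u)) ^ n = algebraMap K[X] KT (p i) := by
  choose n p h using hg
  refine ⟨∑ i, n i, fun i => p i * fu u ^ (∑ i, n i - n i), fun i => ?_⟩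
  have h1 : n i ≤ ∑ i, n i := Finset.single_le_sum (fun _ _ => Nat.zero_le _) (Finset.mem_univ i)
  conv_lhs => rw [← Nat.add_sub_cancel' h1]
  rw [pow_add, ← mul_assoc, h, map_mul, map_pow]

/-- a perturbation of high order changes neither the order nor the leading polynomial -/
private lemma a6_lead {a : K} {κ : ℕ} {p q : K[X]} (hp : p ≠ 0)
    (h : ∀ m ≤ (nodeP a κ p).ord, (nodeP a κ (p - q)).coeff m = 0) :
    q ≠ 0 ∧ (nodeP a κ q).ord = (nodeP a κ p).ord ∧
      nc a κ (nodeP a κ q).ord q = nc a κ (nodeP a κ p).ord p := by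
  set π : ℤ := (nodeP a κ p).ord with hπ
  have h1 : nc a κ π (p - q) = 0 := by
    apply polK_inj
    rw [← nodeP_coeff, h π le_rfl, map_zero]
  have h2 : nc a κ π q = nc a κ π p := by
    rw [nc_sub] at h1
    exact (sub_eq_zero.1 h1).symm
  have h3 : nc a κ π q ≠ 0 := by rw [h2]; exact nc_ord_ne hp
  have h4 : (nodeP a κ q).coeff π ≠ 0 := by
    rw [nodeP_coeff]
    intro hc
    exact h3 (polK_inj (by rw [hc, map_zero]))
  have h5 : q ≠ 0 := by
    rintro rfl
    rw [map_zero, LS.coeff_zero] at h4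
    exact h4 rfl
  have h6 : (nodeP a κ q).ord = π := by
    apply le_antisymm
    · by_contra hc
      exact h4 (LS.coeff_of_lt_ord (not_le.1 hc))
    · rw [LS.le_ord_iff (a5a_nodeP_ne_zero a κ h5)]
      intro m hm
      have h7 := h m hm.le
      rw [map_sub, LS.coeff_sub, LS.coeff_of_lt_ord hm, zero_sub, neg_eq_zero] at h7
      exact h7
  exact ⟨h5, h6, by rw [h6, h2]⟩

/-- Lemma 7.1 (Liouville) -/
theorem liouville {l : ℕ} (u : Fin l → K) (hu : ∀ i, Vge 0 (u i)) (K₀ : ℕ) (hK : 1 ≤ K₀)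
    (hK₀ : ∀ i j, i ≠ j → ¬ Vge (K₀ : ℝ) (u i - u j)) (g : Fin l → KT)
    (hg : ∀ i, IsPol u (g i)) (hr : ∀ i, Vge 0 (loc (u i) (g i))) (hi : ∀ i, Vge 1 (inf (g i)))
    (δ : ℝ) (hd : ∀ i j (κ : ℕ), κ ≤ K₀ → Vge (κ : ℝ) (u i - u j) →
      Vge (-δ) (node (u i) κ (g i - g j))) (i : Fin l) (κ : ℕ) (hκ : κ ≤ K₀) :
    Vge (-δ) (node (u i) κ (g i)) := by
  classical
  by_contra hbad
  have hn0 : ∀ {a : K} {m : ℕ} {x : KT}, x ≠ 0 → node a m x ≠ 0 :=
    fun hx => (_root_.map_ne_zero _).2 hx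
  have hgi0 : g i ≠ 0 := by
    intro h0
    apply hbad
    rw [h0, map_zero]
    exact Vge.zero _
  rw [Vge_iff_ord (hn0 hgi0), not_le] at hbad
  -- the minimum
  obtain ⟨⟨i₀, k₀⟩, hmem, hmin⟩ := Finset.exists_min_image
    ((Finset.univ : Finset (Fin l × Fin (K₀ + 1))).filter fun x => g x.1 ≠ 0)
    (fun x => toLex ((node (u x.1) (x.2 : ℕ) (g x.1)).ord, (x.2 : ℕ)))
    ⟨(i, ⟨κ, by omega⟩), by simpa using hgi0⟩
  have hg0 : g i₀ ≠ 0 := by simpa using hmem
  obtain ⟨k, hk⟩ := k₀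
  have hkK : k ≤ K₀ := by omega
  set μ : ℤ := (node (u i₀) k (g i₀)).ord with hμ
  have hmin' : ∀ (j : Fin l) (m : ℕ), m ≤ K₀ → g j ≠ 0 →
      μ < (node (u j) m (g j)).ord ∨ μ = (node (u j) m (g j)).ord ∧ k ≤ m := by
    intro j m hm hj
    have h := hmin (j, ⟨m, by omega⟩) (by simpa using hj)
    rw [Prod.Lex.toLex_le_toLex] at h
    exact h
  have hle : ∀ (j : Fin l) (m : ℕ), m ≤ K₀ → g j ≠ 0 → μ ≤ (node (u j) m (g j)).ord := by
    intro j m hm hj
    rcases hmin' j m hm hj with h | h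
    · exact h.le
    · exact h.1.le
  have hμδ : (μ : ℝ) < -δ := by
    have h1 := hle i κ hκ hgi0
    have h2 : (μ : ℝ) ≤ ((node (u i) κ (g i)).ord : ℝ) := by exact_mod_cast h1
    linarith
  -- no smaller `κ` attains `μ`
  have hno : ∀ m, m < k → ¬ (node (u i₀) m (g i₀)).ord ≤ μ := by
    intro m hm hc
    rcases hmin' i₀ m (by omega) hg0 with h | h
    · omega
    · omega
  obtain ⟨n, p, hp⟩ := a6_uniform u g hg
  have hp0 : p i₀ ≠ 0 := a5a_pol_ne_zero hg0 (hp i₀)
  rcases Nat.lt_or_ge k K₀ with hlt | hge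
  · -- inner nodes
    set P : ℂ[X] := nc (u i₀) k (nodeP (u i₀) k (p i₀)).ord (p i₀) with hP
    have hPne : P ≠ 0 := nc_ord_ne hp0
    have e1 := a5a_node_rel hg0 (hp i₀) (u i₀) k
    rw [← hμ] at e1
    have hcount := (class_count u i₀ k P hPne n 0 (by
      intro j c hj1 hj2
      -- `p j` has the same leading polynomial
      have hjK : Vge (k : ℝ) (u i₀ - u j) := by
        have := hj1.neg
        rwa [neg_sub] at this
      have hdiff := hd i₀ j k hkK hjK
      have hz : ∀ m ≤ (nodeP (u i₀) k (p i₀)).ord,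
          (nodeP (u i₀) k (p i₀ - p j)).coeff m = 0 := by
        intro m hm
        by_cases hgz : g i₀ - g j = 0
        · have : algebraMap K[X] KT (p i₀ - p j) = 0 := by
            rw [map_sub, ← hp, ← hp, ← sub_mul, hgz, zero_mul]
          have hpz : p i₀ - p j = 0 := by
            exact (map_eq_zero_iff _ (IsFractionRing.injective K[X] KT)).1 this
          rw [hpz, map_zero, LS.coeff_zero]
        · have hrel : (g i₀ - g j) * (algebraMap K[X] KT (fu u)) ^ n =
              algebraMap K[X] KT (p i₀ - p j) := by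
            rw [map_sub, ← hp, ← hp, sub_mul]
          have e2 := a5a_node_rel hgz hrel (u i₀) k
          rw [Vge_iff_ord (hn0 hgz)] at hdiff
          have h1 : (μ : ℝ) < ((node (u i₀) k (g i₀ - g j)).ord : ℝ) := by linarith
          have h2 : μ < (node (u i₀) k (g i₀ - g j)).ord := by exact_mod_cast h1
          apply LS.coeff_of_lt_ord
          rw [e2]
          rw [e1] at hm
          linarith
      obtain ⟨hq0, hq1, hq2⟩ := a6_lead hp0 hz
      have hgj0 : g j ≠ 0 := by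
        intro h0
        have := hp j
        rw [h0, zero_mul] at this
        exact hq0 ((map_eq_zero_iff _ (IsFractionRing.injective K[X] KT)).1 this.symm)
      have h3 := child_ord_le hj2 hq0
      rw [hq2, hq1, ← hP] at h3
      have e3 := a5a_node_rel hgj0 (hp j) (u j) (k + 1)
      have f3 : (nodeP (u j) (k + 1) (fu u)).ord =
          (nodeP (u i₀) k (fu u)).ord + nr u (u j) (k + 1) := fu_child u hj1
      have h4 := hle j (k + 1) (by omega) hgj0
      rw [e3, f3, e1] at h3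
      have h5 : (n : ℤ) * nr u (u j) (k + 1) ≤ (P.rootMultiplicity c : ℤ) := by linarith
      have h6 : (n : ℝ) * nr u (u j) (k + 1) ≤ (P.rootMultiplicity c : ℝ) := by exact_mod_cast h5
      linarith)).1 le_rfl
    rw [zero_add] at hcount
    have hcz : (n : ℤ) * nr u (u i₀) k ≤ (P.natDegree : ℤ) := by exact_mod_cast hcount
    cases k with
    | zero =>
      have hnr : nr u (u i₀) 0 = l := by
        unfold nr
        rw [Finset.filter_true_of_mem]
        · simp
        · intro j _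
          have : ((0 : ℕ) : ℝ) = 0 := by simp
          rw [this]
          exact (hu j).sub (hu i₀)
      rw [hnr] at hcz
      have h1 := a6_deg hg0 (hp i₀) (hi i₀)
      have h2 : (P.natDegree : ℤ) ≤ ((p i₀).natDegree : ℤ) := by
        exact_mod_cast nc_natDegree_le _ _ _ _
      linarith
    | succ k =>
      have h6 : (nodeP (u i₀) k (p i₀)).ord ≤ (nodeP (u i₀) (k + 1) (p i₀)).ord - P.natDegree :=
        parent_ord_le hp0
      have e0 := a5a_node_rel hg0 (hp i₀) (u i₀) k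
      have f1 : (nodeP (u i₀) (k + 1) (fu u)).ord =
          (nodeP (u i₀) k (fu u)).ord + nr u (u i₀) (k + 1) :=
        fu_child u (by rw [sub_self]; exact Vge.zero _)
      rw [e0, e1, f1] at h6
      exact hno k (Nat.lt_succ_self k) (by linarith)
  · -- the leaf
    have hkeq : k = K₀ := le_antisymm hkK hge
    cases k with
    | zero => omega
    | succ k =>
      have h1 : Vge ((node (u i₀) k (g i₀)).ord : ℝ) (node (u i₀) k (g i₀)) :=
        (Vge_iff_ord (hn0 hg0) _).2 le_rfl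
      have h2 := leaf u i₀ k (by
        intro j hj hc
        have : ((k : ℝ) + 1) = (K₀ : ℝ) := by rw [← hkeq]; push_cast; ring
        rw [this] at hc
        exact hK₀ j i₀ hj hc) (hg i₀) (hr i₀) h1
      rw [Vge_iff_ord (hn0 hg0)] at h2
      have h3 : (node (u i₀) k (g i₀)).ord ≤ (node (u i₀) (k + 1) (g i₀)).ord := by
        exact_mod_cast h2
      exact hno k (Nat.lt_succ_self k) h3

end Pool.Agent.Fbc
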