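import Pool.Agent.Fbc.GrowL

import Pool.Agent.Fbc.Lat

/-!
# Convergence of `B` (sections 8 and 9)
-/

set_option autoImplicit false

namespace Pool.Agent.Fbc

open Polynomial

variable {l k r : ℕ}

/-- index set of the unknowns `B_0, …, B_k` -/
abbrev JX (k r : ℕ) : Type := Fin (k + 1) × (Fin r × Fin r)

/-- `(b_0, …, b_k)` as a vector -/
noncomputable def vecB (k : ℕ) (b : ℕ → MK r) : JX k r → K := fun p => b p.1.val p.2.1 p.2.2

/-- a vector as a sequence, zero above `k` -/
noncomputable def unvB (v : JX k r → K) : ℕ → MK r :=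
  fun j => if h : j < k + 1 then fun a b => v (⟨j, h⟩, (a, b)) else 0

/-- the matrix of the linearised equation -/
noncomputable def GLm (k : ℕ) (u : Fin l → K) (e : Fin l → MK r) (B : ℕ → MK r) :
    Matrix (JX k r) (JX k r) K :=
  fun p q => vecB k (LamK u e B (unvB (Pi.single q 1))) p

variable {u : Fin l → K} {e : Fin l → MK r} {B : ℕ → MK r}

/-! ### module o1 -/

private noncomputable def o1_lin (u : Fin l → K) (e : Fin l → MK r) (B : ℕ → MK r)
    (b : ℕ → MK r) (j : ℕ) : MK r :=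
  (if j = 0 then alp u e (b 0) else 0) + (alp u e (b 0) * B (j + 1) - B (j + 1) * alp u e (b 0))
    + (Am u e * b (j + 1) - b (j + 1) * Am u e)

private lemma o1_LamK (b : ℕ → MK r) (j : ℕ) :
    LamK u e B b j = (b j).map zd + o1_lin u e B b j := by
  simp only [LamK, Lam, o1_lin]
  abel

private lemma o1_lin_add (b b' : ℕ → MK r) (j : ℕ) :
    o1_lin u e B (b + b') j = o1_lin u e B b j + o1_lin u e B b' j := by
  simp only [o1_lin, Pi.add_apply, alp_add, mul_add, add_mul]
  split_ifs <;> abel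

private lemma o1_lin_smul (x : K) (b : ℕ → MK r) (j : ℕ) :
    o1_lin u e B (x • b) j = x • o1_lin u e B b j := by
  simp only [o1_lin, Pi.smul_apply, alp_smul, Matrix.mul_smul, Matrix.smul_mul, smul_add, smul_sub]
  split_ifs
  · rfl
  · rw [smul_zero]

private lemma o1_unvB_apply (v : JX k r → K) {j : ℕ} (hj : j < k + 1) (a b : Fin r) :
    unvB v j a b = v (⟨j, hj⟩, (a, b)) := by
  have h1 : unvB v j = fun a b => v (⟨j, hj⟩, (a, b)) := dif_pos hj
  rw [h1]

private lemma o1_unvB_top (v : JX k r → K) {j : ℕ} (hj : k < j) : unvB v j = 0 := by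
  have h : ¬ j < k + 1 := by omega
  unfold unvB
  exact dif_neg h

private lemma o1_unvB_add (v w : JX k r → K) : unvB (v + w) = unvB v + unvB w := by
  funext j a b
  by_cases hj : j < k + 1
  · rw [Pi.add_apply, Matrix.add_apply, o1_unvB_apply _ hj, o1_unvB_apply _ hj,
      o1_unvB_apply _ hj, Pi.add_apply]
  · have hj' : k < j := by omega
    rw [Pi.add_apply, o1_unvB_top _ hj', o1_unvB_top _ hj', o1_unvB_top _ hj', add_zero]

private lemma o1_unvB_smul (x : K) (v : JX k r → K) : unvB (x • v) = x • unvB v := by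
  funext j a b
  by_cases hj : j < k + 1
  · rw [Pi.smul_apply, Matrix.smul_apply, o1_unvB_apply _ hj, o1_unvB_apply _ hj, Pi.smul_apply]
  · have hj' : k < j := by omega
    rw [Pi.smul_apply, o1_unvB_top _ hj', o1_unvB_top _ hj', smul_zero]

private lemma o1_vecB_unvB (v : JX k r → K) : vecB k (unvB v) = v := by
  funext p
  obtain ⟨⟨j, hj⟩, a, b⟩ := p
  exact o1_unvB_apply v hj a b

private lemma o1_unvB_vecB {b : ℕ → MK r} (hb : ∀ j, k < j → b j = 0) :
    unvB (vecB k b) = b := by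
  funext j a c
  by_cases hj : j < k + 1
  · rw [o1_unvB_apply _ hj]
    rfl
  · have hj' : k < j := by omega
    rw [o1_unvB_top _ hj', hb j hj']

private noncomputable def o1_T (k : ℕ) (u : Fin l → K) (e : Fin l → MK r) (B : ℕ → MK r) :
    (JX k r → K) →ₗ[K] (JX k r → K) where
  toFun v := vecB k (o1_lin u e B (unvB v))
  map_add' v w := by
    funext p
    simp only [vecB, Pi.add_apply, o1_unvB_add, o1_lin_add, Matrix.add_apply]
  map_smul' x v := by
    funext p
    simp only [vecB, Pi.smul_apply, o1_unvB_smul, o1_lin_smul, Matrix.smul_apply, RingHom.id_apply]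

private lemma o1_vec (v : JX k r → K) (p : JX k r) :
    vecB k (LamK u e B (unvB v)) p = zd (v p) + o1_T k u e B v p := by
  have h1 : vecB k (LamK u e B (unvB v)) p =
      zd (vecB k (unvB v) p) + vecB k (o1_lin u e B (unvB v)) p := by
    simp only [vecB, o1_LamK, Matrix.add_apply, Matrix.map_apply]
  rw [h1, o1_vecB_unvB]
  rfl

private lemma o1_GLm : GLm k u e B = LinearMap.toMatrix' (o1_T k u e B) := by
  refine Matrix.ext fun p q => ?_
  rw [LinearMap.toMatrix'_apply]
  have h1 : zd ((Pi.single q 1 : JX k r → K) p) = 0 := by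
    rw [Pi.single_apply]
    split_ifs
    · exact Der.map_one' _
    · exact map_zero _
  change vecB k (LamK u e B (unvB (Pi.single q 1))) p = _
  rw [o1_vec, h1, zero_add]

lemma con_GLm (v : JX k r → K) :
    con zd (GLm k u e B) v = vecB k (LamK u e B (unvB v)) := by
  funext p
  rw [o1_vec, con, o1_GLm, LinearMap.toMatrix'_mulVec]

lemma con_GLm_iter (h : Dat k u e B) (v : JX k r → K) (n : ℕ) :
    (con zd (GLm k u e B))^[n] v = vecB k ((LamK u e B)^[n] (unvB v)) := by
  induction n with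
  | zero =>
    rw [Function.iterate_zero, Function.iterate_zero, id, id, o1_vecB_unvB]
  | succ n ih =>
    rw [Function.iterate_succ_apply', Function.iterate_succ_apply', ih, con_GLm,
      o1_unvB_vecB fun j hj => LamK_iter_top h (fun j hj => o1_unvB_top v hj) n j hj]

theorem Rg_GLm (h : Dat k u e B) (hl : 0 < l) : Rg (GLm k u e B) := by
  obtain ⟨K₀, hK, hK₀⟩ := exists_K0 u h.uinj
  refine Rg_of_growth _ fun σ hσ => ?_
  have h1 : ∀ q : JX k r, ∃ C : ℝ, ∀ (n j : ℕ),
      MVge (-(σ * n) - C) (((LamK u e B)^[n] (unvB (Pi.single q 1))) j) := fun q =>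
    Lam_growth h K₀ hK hK₀ hl (fun j hj => o1_unvB_top _ hj) hσ
  choose C hC using h1
  refine ⟨∑ q, |C q|, fun n p q => ?_⟩
  have h2 := congrFun (con_iterate_single zd (GLm k u e B) n q) p
  rw [con_GLm_iter h] at h2
  rw [← h2]
  refine (hC q n p.1.val p.2.1 p.2.2).mono ?_
  have h3 : |C q| ≤ ∑ q, |C q| :=
    Finset.single_le_sum (f := fun q => |C q|) (fun q _ => abs_nonneg _) (Finset.mem_univ q)
  have h4 := le_abs_self (C q)
  linarith

theorem Rg_Cd (h : Dat k u e B) : Rg (Cd e) := by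
  obtain ⟨K₀, hK, hK₀⟩ := exists_K0 u h.uinj
  exact Rg_of_growth _ fun σ hσ => diag_growth h K₀ hK hK₀ hσ

/-! ### module o2: the polynomial vector field -/

/-- the generic matrices; `B_j` itself for `j > k` -/
noncomputable def Xb (k : ℕ) (B : ℕ → MK r) (j : ℕ) :
    Matrix (Fin r) (Fin r) (MvPolynomial (JX k r) K) :=
  if h : j < k + 1 then fun a b => MvPolynomial.X (⟨j, h⟩, (a, b)) else (B j).map MvPolynomial.C

/-- the vector field -/
noncomputable def FvM (k : ℕ) (B : ℕ → MK r) (𝒜 : K[X]) (j : ℕ) :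
    Matrix (Fin r) (Fin r) (MvPolynomial (JX k r) K) :=
  -(if j = 0 then aeval (Xb k B 0) 𝒜 else 0)
    - (aeval (Xb k B 0) 𝒜 * Xb k B (j + 1) - Xb k B (j + 1) * aeval (Xb k B 0) 𝒜)

/-- its components -/
noncomputable def Fv (k : ℕ) (B : ℕ → MK r) (𝒜 : K[X]) (p : JX k r) : MvPolynomial (JX k r) K :=
  FvM k B 𝒜 p.1.val p.2.1 p.2.2

-- module o2 of Ode.lean (replaces the three lemmas after the definition of Fv; private helpers o2_*)

/-- polynomials with convergent coefficients -/
private def o2_PC {σ : Type} (p : MvPolynomial σ K) : Prop := ∀ m, Cv (p.coeff m)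

private lemma o2_add {σ : Type} {p q : MvPolynomial σ K} (hp : o2_PC p) (hq : o2_PC q) :
    o2_PC (p + q) := fun m => by
  rw [MvPolynomial.coeff_add]
  exact (hp m).add (hq m)

private lemma o2_neg {σ : Type} {p : MvPolynomial σ K} (hp : o2_PC p) : o2_PC (-p) := fun m => by
  rw [MvPolynomial.coeff_neg]
  exact (hp m).neg

private lemma o2_sub {σ : Type} {p q : MvPolynomial σ K} (hp : o2_PC p) (hq : o2_PC q) :
    o2_PC (p - q) := by
  rw [sub_eq_add_neg]
  exact o2_add hp (o2_neg hq)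

private lemma o2_zero {σ : Type} : o2_PC (0 : MvPolynomial σ K) := fun m => by
  rw [MvPolynomial.coeff_zero]
  exact Cv.zero

private lemma o2_C {σ : Type} {x : K} (hx : Cv x) :
    o2_PC (MvPolynomial.C x : MvPolynomial σ K) := fun m => by
  classical
  rw [MvPolynomial.coeff_C]
  split_ifs
  · exact hx
  · exact Cv.zero

private lemma o2_X {σ : Type} (s : σ) : o2_PC (MvPolynomial.X s : MvPolynomial σ K) := fun m => by
  classical
  rw [MvPolynomial.coeff_X']
  split_ifs
  · exact Cv.one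
  · exact Cv.zero

private lemma o2_mul {σ : Type} {p q : MvPolynomial σ K} (hp : o2_PC p) (hq : o2_PC q) :
    o2_PC (p * q) := fun m => by
  classical
  rw [MvPolynomial.coeff_mul]
  exact Cv.sum fun x _ => (hp x.1).mul (hq x.2)

private lemma o2_sum {σ ι : Type} {s : Finset ι} {f : ι → MvPolynomial σ K}
    (h : ∀ i ∈ s, o2_PC (f i)) : o2_PC (∑ i ∈ s, f i) := fun m => by
  rw [MvPolynomial.coeff_sum]
  exact Cv.sum fun i hi => h i hi m

private lemma o2_Mmul {σ : Type} {M N : Matrix (Fin r) (Fin r) (MvPolynomial σ K)}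
    (hM : ∀ a b, o2_PC (M a b)) (hN : ∀ a b, o2_PC (N a b)) (a b : Fin r) :
    o2_PC ((M * N) a b) := by
  rw [Matrix.mul_apply]
  exact o2_sum fun i _ => o2_mul (hM a i) (hN i b)

private lemma o2_Mpow {σ : Type} {M : Matrix (Fin r) (Fin r) (MvPolynomial σ K)}
    (hM : ∀ a b, o2_PC (M a b)) (n : ℕ) : ∀ a b : Fin r, o2_PC ((M ^ n) a b) := by
  induction n with
  | zero =>
    intro a b
    rw [pow_zero, Matrix.one_apply]
    split_ifs
    · rw [← MvPolynomial.C_1]
      exact o2_C Cv.one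
    · exact o2_zero
  | succ n ih =>
    intro a b
    rw [pow_succ]
    exact o2_Mmul ih hM a b

private lemma o2_aeval {σ : Type} {M : Matrix (Fin r) (Fin r) (MvPolynomial σ K)}
    (hM : ∀ a b, o2_PC (M a b)) {𝒜 : K[X]} (h𝒜 : ∀ n, Cv (𝒜.coeff n)) (a b : Fin r) :
    o2_PC ((aeval M 𝒜) a b) := by
  rw [aeval_eq_sum_range, Matrix.sum_apply]
  refine o2_sum fun n _ => ?_
  rw [Matrix.smul_apply, MvPolynomial.smul_eq_C_mul]
  exact o2_mul (o2_C (h𝒜 n)) (o2_Mpow hM n a b)

private lemma o2_const {x : K} (hx : zd x = 0) : Cv x := by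
  have h1 : x = LS.single 0 (x.coeff 0) := by
    ext n
    rw [LS.coeff_single]
    split_ifs with hn
    · rw [hn]
    · have h2 : (zd x).coeff n = 0 := by rw [hx, LS.coeff_zero]
      rw [zd_coeff] at h2
      exact (mul_eq_zero.1 h2).resolve_left (Int.cast_ne_zero.2 hn)
  rw [h1]
  exact Cv.single 0 _

private lemma o2_top (h : Dat k u e B) (j : ℕ) (hj : k < j) (a b : Fin r) : Cv (B j a b) := by
  rcases Nat.lt_or_ge (k + 1) j with hj' | hj'
  · rw [h.top j hj']
    exact Cv.zero
  · have hj2 : j = k + 1 := le_antisymm hj' hj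
    apply o2_const
    have h1 := congrArg (fun M => M a b) (h.eqn j)
    have h2 : ((B j).map zd) a b = 0 := by
      rw [h.eqn j, h.top (j + 1) (by omega), if_neg (by omega)]
      simp
    exact h2

private lemma o2_Xb (h : Dat k u e B) (j : ℕ) (a b : Fin r) : o2_PC (Xb k B j a b) := by
  unfold Xb
  split_ifs with hj
  · exact o2_X _
  · exact o2_C (o2_top h j (by omega) a b)

lemma Fv_conv (h : Dat k u e B) (𝒜 : K[X]) (h𝒜 : ∀ n, Cv (𝒜.coeff n)) (p : JX k r)
    (m : JX k r →₀ ℕ) : Cv ((Fv k B 𝒜 p).coeff m) := by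
  have hA := fun a b => o2_aeval (o2_Xb h 0) h𝒜 a b
  have hX := fun a b => o2_Xb h (p.1.val + 1) a b
  have h1 : o2_PC (Fv k B 𝒜 p) := by
    unfold Fv FvM
    refine o2_sub (o2_neg ?_) (o2_sub (o2_Mmul hA hX _ _) (o2_Mmul hX hA _ _))
    split_ifs
    · exact hA _ _
    · exact o2_zero
  exact h1 m

private lemma o2_aeval_mul (h : Dat k u e B) (f : K[X]) (i : Fin l) :
    aeval (B 0) f * e i = f.eval (u i) • e i := by
  induction f using Polynomial.induction_on' with
  | add p q hp hq => rw [map_add, add_mul, hp, hq, eval_add, add_smul]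
  | monomial n a =>
    rw [aeval_monomial, eval_monomial, mul_assoc]
    have h1 : ∀ n : ℕ, B 0 ^ n * e i = u i ^ n • e i := by
      intro n
      induction n with
      | zero => rw [pow_zero, pow_zero, one_mul, one_smul]
      | succ n ih =>
        rw [pow_succ', pow_succ, mul_assoc, ih, mul_smul_comm, h.Be, smul_smul]
    rw [h1, mul_smul_comm, Algebra.algebraMap_eq_smul_one, smul_mul_assoc, one_mul, smul_smul,
      mul_comm]

/-- `𝒜(B_0) = A` -/
lemma aeval_B0 (h : Dat k u e B) (𝒜 : K[X]) (hA1 : ∀ i, 𝒜.eval (u i) = -zd (u i)) :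
    aeval (B 0) 𝒜 = Am u e := by
  rw [← mul_one (aeval (B 0) 𝒜), ← h.sum, Finset.mul_sum]
  unfold Am
  rw [← Finset.sum_neg_distrib]
  refine Finset.sum_congr rfl fun i _ => ?_
  rw [o2_aeval_mul h, hA1, neg_smul]

private noncomputable def o2_ev (V : JX k r → K) : Matrix (Fin r) (Fin r) (MvPolynomial (JX k r) K) →ₐ[K]
    Matrix (Fin r) (Fin r) K := (MvPolynomial.aeval V).mapMatrix

private lemma o2_ev_apply (V : JX k r → K) (M : Matrix (Fin r) (Fin r) (MvPolynomial (JX k r) K))
    (a b : Fin r) : o2_ev V M a b = MvPolynomial.eval V (M a b) := by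
  unfold o2_ev
  rw [AlgHom.mapMatrix_apply, Matrix.map_apply, MvPolynomial.aeval_eq_eval]

private lemma o2_ev_Xb (B : ℕ → MK r) (j : ℕ) : o2_ev (vecB k B) (Xb k B j) = B j := by
  ext a b
  rw [o2_ev_apply]
  unfold Xb
  split_ifs with hj
  · rw [MvPolynomial.eval_X]
    rfl
  · rw [Matrix.map_apply, MvPolynomial.eval_C]

private lemma o2_ev_aeval (B : ℕ → MK r) (f : K[X]) :
    o2_ev (vecB k B) (aeval (Xb k B 0) f) = aeval (B 0) f := by
  rw [← aeval_algHom_apply, o2_ev_Xb]

lemma Fv_eval (h : Dat k u e B) (𝒜 : K[X]) (hA1 : ∀ i, 𝒜.eval (u i) = -zd (u i))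
    (p : JX k r) : zd (vecB k B p) = MvPolynomial.eval (vecB k B) (Fv k B 𝒜 p) := by
  have h1 : o2_ev (vecB k B) (FvM k B 𝒜 p.1.val) = (B p.1.val).map zd := by
    unfold FvM
    rw [map_sub, map_neg, map_sub, map_mul, map_mul, o2_ev_aeval, o2_ev_Xb, aeval_B0 h 𝒜 hA1,
      h.eqn]
    congr 2
    split_ifs
    · rw [o2_ev_aeval, aeval_B0 h 𝒜 hA1]
    · rw [map_zero]
  unfold Fv
  rw [← o2_ev_apply, h1]
  rfl

/-! ### module o3: the Jacobian -/

/-- the directional derivative along `eval V` -/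
private noncomputable def o3_d (V : JX k r → K) (q : JX k r)
    (M : Matrix (Fin r) (Fin r) (MvPolynomial (JX k r) K)) : Matrix (Fin r) (Fin r) K :=
  M.map fun x => MvPolynomial.eval V (MvPolynomial.pderiv q x)

private lemma o3_d_add (V : JX k r → K) (q : JX k r)
    (M N : Matrix (Fin r) (Fin r) (MvPolynomial (JX k r) K)) :
    o3_d V q (M + N) = o3_d V q M + o3_d V q N := by
  refine Matrix.ext fun a b => ?_
  show MvPolynomial.eval V (MvPolynomial.pderiv q (M a b + N a b)) = _
  rw [map_add, map_add]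
  rfl

private lemma o3_d_neg (V : JX k r → K) (q : JX k r)
    (M : Matrix (Fin r) (Fin r) (MvPolynomial (JX k r) K)) :
    o3_d V q (-M) = -o3_d V q M := by
  refine Matrix.ext fun a b => ?_
  show MvPolynomial.eval V (MvPolynomial.pderiv q (-(M a b))) = _
  rw [map_neg, map_neg]
  rfl

private lemma o3_d_sub (V : JX k r → K) (q : JX k r)
    (M N : Matrix (Fin r) (Fin r) (MvPolynomial (JX k r) K)) :
    o3_d V q (M - N) = o3_d V q M - o3_d V q N := by
  rw [sub_eq_add_neg, o3_d_add, o3_d_neg, sub_eq_add_neg]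

private lemma o3_d_mul (V : JX k r → K) (q : JX k r)
    (M N : Matrix (Fin r) (Fin r) (MvPolynomial (JX k r) K)) :
    o3_d V q (M * N) = o3_d V q M * o2_ev V N + o2_ev V M * o3_d V q N := by
  refine Matrix.ext fun a b => ?_
  show MvPolynomial.eval V (MvPolynomial.pderiv q ((M * N) a b)) = _
  rw [Matrix.add_apply, Matrix.mul_apply, Matrix.mul_apply, Matrix.mul_apply, map_sum, map_sum,
    ← Finset.sum_add_distrib]
  refine Finset.sum_congr rfl fun i _ => ?_
  rw [Derivation.leibniz, map_add, smul_eq_mul, smul_eq_mul, map_mul, map_mul, o2_ev_apply,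
    o2_ev_apply]
  show _ = MvPolynomial.eval V (MvPolynomial.pderiv q (M a i)) * _ +
    _ * MvPolynomial.eval V (MvPolynomial.pderiv q (N i b))
  ring

private lemma o3_d_alg (V : JX k r → K) (q : JX k r) (c : K) :
    o3_d V q (algebraMap K (Matrix (Fin r) (Fin r) (MvPolynomial (JX k r) K)) c) = 0 := by
  refine Matrix.ext fun a b => ?_
  show MvPolynomial.eval V (MvPolynomial.pderiv q
    (algebraMap K (Matrix (Fin r) (Fin r) (MvPolynomial (JX k r) K)) c a b)) = 0
  rw [Matrix.algebraMap_matrix_apply]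
  split_ifs
  · rw [MvPolynomial.algebraMap_eq, MvPolynomial.pderiv_C, map_zero]
  · rw [map_zero, map_zero]

private lemma o3_ev_alg (V : JX k r → K) (c : K) :
    o2_ev V (algebraMap K (Matrix (Fin r) (Fin r) (MvPolynomial (JX k r) K)) c) =
      algebraMap K _ c := AlgHom.commutes _ c

/-- the diagonal parts of the derivative of a polynomial -/
private lemma o3_diag (h : Dat k u e B) (q : JX k r) (f : K[X]) (i : Fin l) :
    e i * o3_d (vecB k B) q (aeval (Xb k B 0) f) * e i =
      (derivative f).eval (u i) • (e i * o3_d (vecB k B) q (Xb k B 0) * e i) := by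
  induction f using Polynomial.induction_on with
  | C a =>
    rw [aeval_C, o3_d_alg, mul_zero, zero_mul, derivative_C, eval_zero, zero_smul]
  | add f g hf hg =>
    rw [map_add, o3_d_add, mul_add, add_mul, hf, hg, derivative_add, eval_add, add_smul]
  | monomial n a ih =>
    have h1 : (C a * X ^ (n + 1) : K[X]) = C a * X ^ n * X := by rw [pow_succ, mul_assoc]
    rw [h1, map_mul, aeval_X, o3_d_mul, o2_ev_Xb, o2_ev_aeval, mul_add, add_mul, derivative_mul,
      derivative_X, mul_one, eval_add, eval_mul, eval_X, add_smul]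
    congr 1
    · rw [mul_assoc, mul_assoc, h.Be, mul_smul_comm, mul_smul_comm, ← mul_assoc, ih, smul_smul,
        mul_comm]
    · have h2 : e i * aeval (B 0) (C a * X ^ n) = (C a * X ^ n : K[X]).eval (u i) • e i := by
        have h3 : ∀ f : K[X], e i * aeval (B 0) f = f.eval (u i) • e i := by
          intro f
          induction f using Polynomial.induction_on' with
          | add p q hp hq => rw [map_add, mul_add, hp, hq, eval_add, add_smul]
          | monomial n a =>
            rw [aeval_monomial, eval_monomial, Algebra.algebraMap_eq_smul_one, smul_mul_assoc,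
              one_mul, mul_smul_comm]
            have h4 : ∀ n : ℕ, e i * B 0 ^ n = u i ^ n • e i := by
              intro n
              induction n with
              | zero => rw [pow_zero, pow_zero, mul_one, one_smul]
              | succ n ih =>
                rw [pow_succ, pow_succ, ← mul_assoc, ih, smul_mul_assoc, h.eB, smul_smul]
            rw [h4, smul_smul]
        exact h3 _
      rw [← mul_assoc, h2, smul_mul_assoc, smul_mul_assoc]

private lemma o3_off (h : Dat k u e B) (𝒜 : K[X]) (hA1 : ∀ i, 𝒜.eval (u i) = -zd (u i))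
    (q : JX k r) (i j : Fin l) (hij : i ≠ j) :
    e i * o3_d (vecB k B) q (aeval (Xb k B 0) 𝒜) * e j =
      -((zd (u i - u j) / (u i - u j)) • (e i * o3_d (vecB k B) q (Xb k B 0) * e j)) := by
  have h1 : Xb k B 0 * aeval (Xb k B 0) 𝒜 = aeval (Xb k B 0) 𝒜 * Xb k B 0 := by
    have h2 := congrArg (aeval (Xb k B 0)) (mul_comm (X : K[X]) 𝒜)
    rwa [map_mul, map_mul, aeval_X] at h2
  have h2 := congrArg (o3_d (vecB k B) q) h1
  rw [o3_d_mul, o3_d_mul, o2_ev_Xb, o2_ev_aeval, aeval_B0 h 𝒜 hA1] at h2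
  have h3 := congrArg (fun M => e i * M * e j) h2
  simp only [mul_add, add_mul] at h3
  have e1 : e i * (o3_d (vecB k B) q (Xb k B 0) * Am u e) * e j =
      -(zd (u j) • (e i * o3_d (vecB k B) q (Xb k B 0) * e j)) := by
    rw [mul_assoc, mul_assoc, h.Ae, mul_neg, mul_neg, mul_smul_comm, mul_smul_comm, mul_assoc]
  have e2 : e i * (B 0 * o3_d (vecB k B) q (aeval (Xb k B 0) 𝒜)) * e j =
      u i • (e i * o3_d (vecB k B) q (aeval (Xb k B 0) 𝒜) * e j) := by
    rw [← mul_assoc, h.eB, smul_mul_assoc, smul_mul_assoc]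
  have e3 : e i * (o3_d (vecB k B) q (aeval (Xb k B 0) 𝒜) * B 0) * e j =
      u j • (e i * o3_d (vecB k B) q (aeval (Xb k B 0) 𝒜) * e j) := by
    rw [mul_assoc, mul_assoc, h.Be, mul_smul_comm, mul_smul_comm, mul_assoc]
  have e4 : e i * (Am u e * o3_d (vecB k B) q (Xb k B 0)) * e j =
      -(zd (u i) • (e i * o3_d (vecB k B) q (Xb k B 0) * e j)) := by
    rw [← mul_assoc, h.eA, neg_mul, neg_mul, smul_mul_assoc, smul_mul_assoc]
  rw [e1, e2, e3, e4] at h3
  have hne : u i - u j ≠ 0 := sub_ne_zero.2 fun he => hij (h.uinj he)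
  have h4 : (u i - u j) • (e i * o3_d (vecB k B) q (aeval (Xb k B 0) 𝒜) * e j) =
      -(zd (u i - u j) • (e i * o3_d (vecB k B) q (Xb k B 0) * e j)) := by
    rw [sub_smul, map_sub, sub_smul, sub_eq_iff_eq_add]
    have h5 : u i • (e i * o3_d (vecB k B) q (aeval (Xb k B 0) 𝒜) * e j) =
        (u j • (e i * o3_d (vecB k B) q (aeval (Xb k B 0) 𝒜) * e j) +
          -(zd (u i) • (e i * o3_d (vecB k B) q (Xb k B 0) * e j))) -
        -(zd (u j) • (e i * o3_d (vecB k B) q (Xb k B 0) * e j)) := by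
      rw [← h3]
      abel
    rw [h5]
    abel
  have h5 : e i * o3_d (vecB k B) q (aeval (Xb k B 0) 𝒜) * e j = (u i - u j)⁻¹ •
      ((u i - u j) • (e i * o3_d (vecB k B) q (aeval (Xb k B 0) 𝒜) * e j)) := by
    rw [smul_smul, inv_mul_cancel₀ hne, one_smul]
  rw [h5, h4, smul_neg, smul_smul, div_eq_mul_inv, mul_comm]

private lemma o3_alp (h : Dat k u e B) (𝒜 : K[X]) (hA1 : ∀ i, 𝒜.eval (u i) = -zd (u i))
    (hA2 : ∀ i, (derivative 𝒜).eval (u i) = 0) (q : JX k r) :
    o3_d (vecB k B) q (aeval (Xb k B 0) 𝒜) = alp u e (o3_d (vecB k B) q (Xb k B 0)) := by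
  have h1 : o3_d (vecB k B) q (aeval (Xb k B 0) 𝒜) =
      ∑ i, ∑ j, e i * o3_d (vecB k B) q (aeval (Xb k B 0) 𝒜) * e j := by
    conv_lhs => rw [← one_mul (o3_d (vecB k B) q (aeval (Xb k B 0) 𝒜)),
      ← mul_one (1 * o3_d (vecB k B) q (aeval (Xb k B 0) 𝒜)), ← h.sum, Finset.sum_mul,
      Finset.sum_mul]
    exact Finset.sum_congr rfl fun i _ => Finset.mul_sum _ _ _
  rw [h1]
  unfold alp
  rw [← Finset.sum_neg_distrib]
  refine Finset.sum_congr rfl fun i _ => ?_
  rw [← Finset.sum_neg_distrib]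
  refine Finset.sum_congr rfl fun j _ => ?_
  by_cases hij : i = j
  · subst hij
    rw [o3_diag h q 𝒜 i, hA2, zero_smul, sub_self, map_zero, zero_div, zero_smul, neg_zero]
  · exact o3_off h 𝒜 hA1 q i j hij

private lemma o3_d_Xb (q : JX k r) (B : ℕ → MK r) (V : JX k r → K) (j : ℕ) :
    o3_d V q (Xb k B j) = unvB (Pi.single q (1 : K)) j := by
  refine Matrix.ext fun a b => ?_
  show MvPolynomial.eval V (MvPolynomial.pderiv q (Xb k B j a b)) = _
  unfold Xb unvB
  by_cases hj : j < k + 1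
  · rw [dif_pos hj, dif_pos hj]
    rw [MvPolynomial.pderiv_X, Pi.single_apply, Pi.single_apply]
    by_cases hq : q = (⟨j, hj⟩, (a, b))
    · rw [if_pos hq.symm, if_pos hq.symm, map_one]
    · rw [if_neg fun h' => hq h'.symm, if_neg fun h' => hq h'.symm, map_zero]
  · rw [dif_neg hj, dif_neg hj, Matrix.map_apply, MvPolynomial.pderiv_C, map_zero]
    rfl

private lemma o3_zd_unvB (q : JX k r) (j : ℕ) :
    (unvB (Pi.single q (1 : K)) j : MK r).map zd = 0 := by
  refine Matrix.ext fun a b => ?_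
  show zd (unvB (Pi.single q (1 : K)) j a b) = 0
  unfold unvB
  by_cases hj : j < k + 1
  · rw [dif_pos hj, Pi.single_apply]
    split_ifs
    · exact Der.map_one' _
    · exact map_zero _
  · rw [dif_neg hj]
    exact map_zero _

/-- the derivative of `𝒜(M)` at `B_0` in the direction `b` is `α(b)` -/
lemma Fv_jac (h : Dat k u e B) (𝒜 : K[X]) (hA1 : ∀ i, 𝒜.eval (u i) = -zd (u i))
    (hA2 : ∀ i, (derivative 𝒜).eval (u i) = 0) :
    -Jac (Fv k B 𝒜) (vecB k B) = GLm k u e B := by
  refine Matrix.ext fun p q => ?_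
  have h1 : -o3_d (vecB k B) q (FvM k B 𝒜 p.1.val) =
      LamK u e B (unvB (Pi.single q 1)) p.1.val := by
    unfold FvM LamK Lam
    beta_reduce
    rw [o3_d_sub, o3_d_neg, o3_d_sub, o3_d_mul, o3_d_mul, o3_alp h 𝒜 hA1 hA2, o2_ev_Xb,
      o2_ev_aeval, aeval_B0 h 𝒜 hA1, o3_d_Xb, o3_d_Xb, o3_zd_unvB, zero_add]
    have h2 : o3_d (vecB k B) q (if p.1.val = 0 then aeval (Xb k B 0) 𝒜 else 0) =
        if p.1.val = 0 then alp u e (unvB (Pi.single q 1) 0) else 0 := by
      split_ifs
      · rw [o3_alp h 𝒜 hA1 hA2, o3_d_Xb]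
      · refine Matrix.ext fun a b => ?_
        show MvPolynomial.eval (vecB k B) (MvPolynomial.pderiv q 0) = 0
        rw [map_zero, map_zero]
    rw [h2]
    abel
  have h3 := congrFun (congrFun h1 p.2.1) p.2.2
  exact h3

/-! ### module o4 -/

theorem B_conv (h : Dat k u e B) (hl : 0 < l) (𝒜 : K[X]) (h𝒜 : ∀ n, Cv (𝒜.coeff n))
    (hA1 : ∀ i, 𝒜.eval (u i) = -zd (u i)) (hA2 : ∀ i, (derivative 𝒜).eval (u i) = 0)
    (j : ℕ) (a b : Fin r) : Cv (B j a b) := by
  rcases lt_trichotomy j (k + 1) with hj | hj | hj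
  · refine malgrange (Fv k B 𝒜) (fun p m => Fv_conv h 𝒜 h𝒜 p m) (vecB k B)
      (fun p => h.Bint p.1.val p.2.1 p.2.2) (fun p => Fv_eval h 𝒜 hA1 p) ?_ (⟨j, hj⟩, (a, b))
    rw [Fv_jac h 𝒜 hA1 hA2]
    exact Rg_GLm h hl
  · subst hj
    have h1 : (B (k + 1)).map zd = 0 := by
      rw [h.eqn (k + 1), if_neg (Nat.succ_ne_zero k), h.top (k + 1 + 1) (Nat.lt_succ_self _),
        mul_zero, zero_mul, sub_self, neg_zero, sub_self]
    have h2 : zd (B (k + 1) a b) = 0 := by
      rw [← Matrix.map_apply (f := zd), h1, Matrix.zero_apply]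
    have h3 : B (k + 1) a b = LS.single 0 ((B (k + 1) a b).coeff 0) := by
      ext n
      rw [LS.coeff_single]
      split_ifs with hn
      · rw [hn]
      · have h4 : (zd (B (k + 1) a b)).coeff n = 0 := by rw [h2, LS.coeff_zero]
        rw [zd_coeff] at h4
        exact (mul_eq_zero.1 h4).resolve_left (Int.cast_ne_zero.2 hn)
    rw [h3]
    exact Cv.single _ _
  · rw [h.top j hj, Matrix.zero_apply]
    exact Cv.zero

private lemma o4_neg {κ : Type} (m : κ →₀ ℕ) {p : MvPolynomial κ K}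
    (h : Cv (p.coeff m)) : Cv ((-p).coeff m) := by
  rw [MvPolynomial.coeff_neg]
  exact h.neg

private lemma o4_coeff {κ : Type} (i : κ) (𝒜 : K[X]) (h𝒜 : ∀ n, Cv (𝒜.coeff n)) (m : κ →₀ ℕ) :
    Cv ((aeval (MvPolynomial.X i : MvPolynomial κ K) 𝒜).coeff m) := by
  classical
  rw [aeval_eq_sum_range, MvPolynomial.coeff_sum]
  refine Cv.sum fun n _ => ?_
  rw [MvPolynomial.coeff_smul, MvPolynomial.coeff_X_pow, smul_eq_mul]
  refine (h𝒜 n).mul ?_
  split_ifs
  · exact Cv.one
  · exact Cv.zero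

private lemma o4_eval (𝒜 : K[X]) (u : K) :
    MvPolynomial.eval (fun _ : Unit => u) (aeval (MvPolynomial.X () : MvPolynomial Unit K) 𝒜) =
      𝒜.eval u := by
  rw [aeval_eq_sum_range, map_sum, eval_eq_sum_range]
  refine Finset.sum_congr rfl fun n _ => ?_
  rw [MvPolynomial.smul_eval, map_pow, MvPolynomial.eval_X]

/-- the roots converge: `D(u) = -𝒜(u)`, with trivial linearised equation because `𝒜'(u) = 0` -/
theorem u_conv (𝒜 : K[X]) (h𝒜 : ∀ n, Cv (𝒜.coeff n)) (u : K) (hu : Vge 0 u)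
    (hA1 : 𝒜.eval u = -zd u) (hA2 : (derivative 𝒜).eval u = 0) : Cv u := by
  refine malgrange (κ := Unit)
    (fun _ => -(aeval (MvPolynomial.X () : MvPolynomial Unit K) 𝒜))
    (fun _ m => o4_neg m (o4_coeff () 𝒜 h𝒜 m)) (fun _ => u) (fun _ => hu) (fun _ => ?_) ?_ ()
  · rw [map_neg, o4_eval, hA1, neg_neg]
  · have h1 : Jac (fun _ : Unit => -(aeval (MvPolynomial.X () : MvPolynomial Unit K) 𝒜))
        (fun _ => u) = 0 := by
      ext i j
      rw [Jac, map_neg, map_neg, Derivation.map_aeval, smul_eq_mul, map_mul, o4_eval, hA2,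
        zero_mul, neg_zero, Matrix.zero_apply]
    rw [h1, neg_zero]
    refine ⟨1, 1, one_mul 1, ?_⟩
    have h2 : (1 : Matrix Unit Unit K).map zd = 0 := (zd : Der K).mat.map_one'
    rw [h2, zero_mul, add_zero, mul_zero]
    exact MVge.zero 0

private lemma o4_aeval (h : Dat k u e B) (q : K[X]) (i : Fin l) :
    aeval (B 0) q * e i = q.eval (u i) • e i := by
  have h1 : ∀ n : ℕ, B 0 ^ n * e i = (u i) ^ n • e i := by
    intro n
    induction n with
    | zero => rw [pow_zero, pow_zero, one_mul, one_smul]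
    | succ n ih => rw [pow_succ, mul_assoc, h.Be, Matrix.mul_smul, ih, smul_smul, pow_succ, mul_comm]
  rw [aeval_eq_sum_range, eval_eq_sum_range, Finset.sum_mul, Finset.sum_smul]
  refine Finset.sum_congr rfl fun n _ => ?_
  rw [Matrix.smul_mul, h1, smul_smul]

private lemma o4_poly {ι : Type} (s : Finset ι) (u : ι → K) (hu : ∀ i, Cv (u i)) :
    ∀ n, Cv ((∏ i ∈ s, (X - C (u i))).coeff n) := by
  classical
  induction s using Finset.induction_on with
  | empty =>
    intro n
    rw [Finset.prod_empty, coeff_one]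
    split_ifs
    · exact Cv.one
    · exact Cv.zero
  | insert i s hi ih =>
    intro n
    rw [Finset.prod_insert hi, coeff_mul]
    refine Cv.sum fun x _ => Cv.mul ?_ (ih _)
    rw [coeff_sub, coeff_X, coeff_C]
    refine Cv.sub ?_ ?_
    · split_ifs
      · exact Cv.one
      · exact Cv.zero
    · split_ifs
      · exact hu i
      · exact Cv.zero

private lemma o4_pow {M : MK r} (hM : ∀ a b, Cv (M a b)) (n : ℕ) :
    ∀ a b, Cv ((M ^ n) a b) := by
  induction n with
  | zero =>
    intro a b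
    rw [pow_zero, Matrix.one_apply]
    split_ifs
    · exact Cv.one
    · exact Cv.zero
  | succ n ih =>
    intro a b
    rw [pow_succ, Matrix.mul_apply]
    exact Cv.sum fun c _ => (ih a c).mul (hM c b)

/-- Lagrange interpolation -/
theorem e_conv (h : Dat k u e B) (hu : ∀ i, Cv (u i)) (hB : ∀ a b, Cv (B 0 a b)) (i : Fin l)
    (a b : Fin r) : Cv (e i a b) := by
  classical
  obtain ⟨q, hq⟩ : ∃ q : K[X], q = ∏ j ∈ Finset.univ.erase i, (X - C (u j)) := ⟨_, rfl⟩
  have hqc : ∀ n, Cv (q.coeff n) := by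
    rw [hq]
    exact o4_poly _ u hu
  have hqe : ∀ x : K, q.eval x = ∏ j ∈ Finset.univ.erase i, (x - u j) := by
    intro x
    rw [hq, eval_prod]
    simp only [eval_sub, eval_X, eval_C]
  have h0 : ∀ j, j ≠ i → q.eval (u j) = 0 := by
    intro j hj
    rw [hqe]
    exact Finset.prod_eq_zero (Finset.mem_erase.2 ⟨hj, Finset.mem_univ j⟩) (sub_self _)
  have h1 : q.eval (u i) ≠ 0 := by
    rw [hqe, Finset.prod_ne_zero_iff]
    intro j hj
    exact sub_ne_zero.2 fun hh => (Finset.mem_erase.1 hj).1 (h.uinj hh.symm)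
  have h2 : aeval (B 0) q = q.eval (u i) • e i := by
    rw [← mul_one (aeval (B 0) q), ← h.sum, Finset.mul_sum,
      Finset.sum_eq_single i (fun j _ hj => by rw [o4_aeval h, h0 j hj, zero_smul])
        (fun hh => absurd (Finset.mem_univ i) hh), o4_aeval h]
  have h3 : e i = (q.eval (u i))⁻¹ • aeval (B 0) q := by
    rw [h2, smul_smul, inv_mul_cancel₀ h1, one_smul]
  have h4 : Cv (q.eval (u i)) := by
    rw [hqe]
    exact Cv.prod fun j _ => (hu i).sub (hu j)
  rw [h3, Matrix.smul_apply, smul_eq_mul, aeval_eq_sum_range, Matrix.sum_apply]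
  refine h4.inv.mul (Cv.sum fun n _ => ?_)
  rw [Matrix.smul_apply, smul_eq_mul]
  exact (hqc n).mul (o4_pow hB n a b)

private lemma o4_eval_polD (f : K[X]) (x : K) :
    zd (f.eval x) = (polD zd f).eval x + (derivative f).eval x * zd x := by
  induction f using Polynomial.induction_on' with
  | add p q hp hq =>
    rw [eval_add, map_add, hp, hq, map_add, derivative_add, eval_add, eval_add]
    ring
  | monomial n a =>
    have h1 : polD zd (monomial n a : K[X]) = monomial n (zd a) := by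
      ext m
      rw [polD_coeff, coeff_monomial, coeff_monomial]
      split_ifs
      · rfl
      · exact map_zero _
    have h2 : ∀ m : ℕ, zd (x ^ m) = m * x ^ (m - 1) * zd x := by
      intro m
      induction m with
      | zero => rw [pow_zero, Der.map_one', Nat.cast_zero, zero_mul, zero_mul]
      | succ m ih =>
        rw [pow_succ, Der.leib, ih, Nat.add_sub_cancel]
        rcases m with _ | m
        · simp
        · rw [Nat.add_sub_cancel]
          push_cast
          ring
    rw [h1, derivative_monomial, eval_monomial, eval_monomial, eval_monomial, Der.leib, h2]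
    ring

private lemma o4_mul {p q : K[X]} (hp : ∀ n, Cv (p.coeff n)) (hq : ∀ n, Cv (q.coeff n)) (n : ℕ) :
    Cv ((p * q).coeff n) := by
  rw [coeff_mul]
  exact Cv.sum fun x _ => (hp _).mul (hq _)

private lemma o4_C {x : K} (hx : Cv x) {q : K[X]} (hq : ∀ n, Cv (q.coeff n)) (n : ℕ) :
    Cv ((C x * q).coeff n) := by
  rw [coeff_C_mul]
  exact hx.mul (hq n)

private lemma o4_natCast (n : ℕ) : Cv (n : K) := by
  induction n with
  | zero => rw [Nat.cast_zero]; exact Cv.zero
  | succ n ih => rw [Nat.cast_succ]; exact ih.add Cv.one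

private lemma o4_der {q : K[X]} (hq : ∀ n, Cv (q.coeff n)) (n : ℕ) :
    Cv ((derivative q).coeff n) := by
  rw [coeff_derivative]
  exact (hq _).mul ((o4_natCast n).add Cv.one)

/-- the Hermite polynomial -/
theorem exists_A (u : Fin l → K) (f α β : K[X]) (δ : K) (hδ : δ ≠ 0) (hδc : Cv δ)
    (hf : f = ∏ i, (X - C (u i))) (hfc : ∀ n, Cv (f.coeff n)) (hβ : ∀ n, Cv (β.coeff n))
    (hb : α * f + β * derivative f = C δ) :
    ∃ 𝒜 : K[X], (∀ n, Cv (𝒜.coeff n)) ∧ (∀ i, 𝒜.eval (u i) = -zd (u i)) ∧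
      ∀ i, (derivative 𝒜).eval (u i) = 0 := by
  have hf0 : ∀ i, f.eval (u i) = 0 := by
    intro i
    rw [hf, eval_prod]
    refine Finset.prod_eq_zero (Finset.mem_univ i) ?_
    rw [eval_sub, eval_X, eval_C, sub_self]
  have h1 : ∀ i, β.eval (u i) * (derivative f).eval (u i) = δ := by
    intro i
    have h2 := congrArg (fun p : K[X] => p.eval (u i)) hb
    simp only [eval_add, eval_mul, eval_C, hf0 i, mul_zero, zero_add] at h2
    exact h2
  obtain ⟨A₀, hA₀⟩ : ∃ A₀ : K[X], A₀ = C δ⁻¹ * (β * polD zd f) := ⟨_, rfl⟩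
  have hA₀c : ∀ n, Cv (A₀.coeff n) := by
    rw [hA₀]
    refine o4_C hδc.inv (o4_mul hβ fun n => ?_)
    rw [polD_coeff]
    exact (hfc n).zd
  have hA₀e : ∀ i, A₀.eval (u i) = -zd (u i) := by
    intro i
    have h2 := o4_eval_polD f (u i)
    rw [hf0 i, map_zero] at h2
    have h3 : (polD zd f).eval (u i) = -((derivative f).eval (u i) * zd (u i)) :=
      eq_neg_of_add_eq_zero_left h2.symm
    rw [hA₀, eval_mul, eval_mul, eval_C, h3]
    have h4 : δ⁻¹ * (β.eval (u i) * -((derivative f).eval (u i) * zd (u i))) =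
        -(δ⁻¹ * (β.eval (u i) * (derivative f).eval (u i)) * zd (u i)) := by ring
    rw [h4, h1 i, inv_mul_cancel₀ hδ, one_mul]
  refine ⟨A₀ - C δ⁻¹ * (β * (f * derivative A₀)), fun n => ?_, fun i => ?_, fun i => ?_⟩
  · rw [coeff_sub]
    exact (hA₀c n).sub (o4_C hδc.inv (o4_mul hβ (o4_mul hfc (o4_der hA₀c))) n)
  · rw [eval_sub, eval_mul, eval_mul, eval_mul, hf0 i, zero_mul, mul_zero, mul_zero, sub_zero,
      hA₀e i]
  · simp only [derivative_sub, derivative_mul, derivative_C, zero_mul, zero_add, eval_sub,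
      eval_add, eval_mul, eval_C, hf0 i, mul_zero, add_zero]
    have h4 : δ⁻¹ * (β.eval (u i) * ((derivative f).eval (u i) * (derivative A₀).eval (u i))) =
        (δ⁻¹ * (β.eval (u i) * (derivative f).eval (u i))) * (derivative A₀).eval (u i) := by ring
    rw [h4, h1 i, inv_mul_cancel₀ hδ, one_mul, sub_self]

end Pool.Agent.Fbc
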