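import Pool.Agent.Fbc.Blk

/-!
# The concrete system (sections 1 and 6)
-/

set_option autoImplicit false

namespace Pool.Agent.Fbc

open Polynomial

/-- `r × r` matrices over `K` -/
abbrev MK (r : ℕ) : Type := Matrix (Fin r) (Fin r) K

/-- `r × r` matrices over `K(t)` -/
abbrev MT (r : ℕ) : Type := Matrix (Fin r) (Fin r) KT

/-- the index set of the big system: `k + 1` blocks of size `r` -/
abbrev IX (k r : ℕ) : Type := Fin (k + 1) × Fin r

variable {l k r : ℕ}

/-- `A = - ∑ D(u_i) e_i` -/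
noncomputable def Am (u : Fin l → K) (e : Fin l → MK r) : MK r := -∑ i, zd (u i) • e i

/-- the data (D) of the text; the number of blocks is `k + 1`, so `B_{k+1}` is the last one -/
structure Dat (k : ℕ) (u : Fin l → K) (e : Fin l → MK r) (B : ℕ → MK r) : Prop where
  uint : ∀ i, Vge 0 (u i)
  uinj : Function.Injective u
  idem : ∀ i, e i * e i = e i
  orth : ∀ i j, i ≠ j → e i * e j = 0
  sum : ∑ i, e i = 1
  B0 : B 0 = ∑ i, u i • e i
  Bint : ∀ j, MVge 0 (B j)
  Aint : MVge 0 (Am u e)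
  top : ∀ j, k + 1 < j → B j = 0
  eqn : ∀ j, (B j).map zd = -(if j = 0 then Am u e else 0)
    - (Am u e * B (j + 1) - B (j + 1) * Am u e)

/-- constant matrices in `t` -/
noncomputable def cM : MK r →+* MT r := RingHom.mapMatrix
  ((algebraMap K[X] KT).comp (C : K →+* K[X]))

@[simp] lemma cM_apply (M : MK r) (i j : Fin r) : cM M i j = cT (M i j) := rfl

/-- `R = (t - B_0)⁻¹ = ∑ e_i / (t - u_i)` -/
noncomputable def Rm (u : Fin l → K) (e : Fin l → MK r) : MT r :=
  ∑ i, (tT - cT (u i))⁻¹ • cM (e i)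

/-- block matrices as matrices -/
def cmp {I J L : Type} (M : Matrix I I (Matrix J J L)) : Matrix (I × J) (I × J) L :=
  fun p q => M p.1 q.1 p.2 q.2

-- module s1 of Sys.lean: cmp_mul (in its place), then the whole section s1

lemma cmp_mul {I J L : Type} [Fintype I] [Fintype J] [CommRing L]
    (M N : Matrix I I (Matrix J J L)) : cmp (M * N) = cmp M * cmp N := by
  ext p q
  rw [Matrix.mul_apply, Fintype.sum_prod_type]
  show (M * N) p.1 q.1 p.2 q.2 = _
  rw [Matrix.mul_apply, Matrix.sum_apply]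
  refine Finset.sum_congr rfl fun i _ => ?_
  rw [Matrix.mul_apply]
  rfl

lemma cmp_add {I J L : Type} [CommRing L] (M N : Matrix I I (Matrix J J L)) :
    cmp (M + N) = cmp M + cmp N := rfl

lemma cmp_sub {I J L : Type} [CommRing L] (M N : Matrix I I (Matrix J J L)) :
    cmp (M - N) = cmp M - cmp N := rfl

/-- the scalar matrix `β` -/
noncomputable def bet (β : ℂ) : MT r := cT (LS.C β) • (1 : MT r)

/-- `Ω_t` -/
noncomputable def OT (k : ℕ) (u : Fin l → K) (e : Fin l → MK r) (B : ℕ → MK r) (β : ℂ) :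
    Matrix (IX k r) (IX k r) KT :=
  cmp (OmT (k := k) (fun j => cM (B j)) (bet β) (Rm u e))

/-- `Ω_D` -/
noncomputable def OD (k : ℕ) (u : Fin l → K) (e : Fin l → MK r) (B : ℕ → MK r) (β : ℂ) :
    Matrix (IX k r) (IX k r) KT :=
  cmp (OmD (k := k) (fun j => cM (B j)) (bet β) (Rm u e) (cM (Am u e)))

variable {u : Fin l → K} {e : Fin l → MK r} {B : ℕ → MK r}

/-! ### module s1: elementary facts on `R` -/

private lemma s1_sum_mul (h : Dat k u e B) (x : Fin l → K) (i : Fin l) :
    (∑ j, x j • e j) * e i = x i • e i := by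
  rw [Finset.sum_mul, Finset.sum_eq_single i]
  · rw [smul_mul_assoc, h.idem]
  · intro j _ hj
    rw [smul_mul_assoc, h.orth j i hj, smul_zero]
  · intro hi
    exact absurd (Finset.mem_univ i) hi

private lemma s1_mul_sum (h : Dat k u e B) (x : Fin l → K) (i : Fin l) :
    e i * (∑ j, x j • e j) = x i • e i := by
  rw [Finset.mul_sum, Finset.sum_eq_single i]
  · rw [mul_smul_comm, h.idem]
  · intro j _ hj
    rw [mul_smul_comm, h.orth i j hj.symm, smul_zero]
  · intro hi
    exact absurd (Finset.mem_univ i) hi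

lemma Dat.Be (h : Dat k u e B) (i : Fin l) : B 0 * e i = u i • e i := by
  rw [h.B0]
  exact s1_sum_mul h u i

lemma Dat.eB (h : Dat k u e B) (i : Fin l) : e i * B 0 = u i • e i := by
  rw [h.B0]
  exact s1_mul_sum h u i

lemma Dat.Ae (h : Dat k u e B) (i : Fin l) : Am u e * e i = -(zd (u i) • e i) := by
  unfold Am
  rw [neg_mul, s1_sum_mul h (fun j => zd (u j)) i]

lemma Dat.eA (h : Dat k u e B) (i : Fin l) : e i * Am u e = -(zd (u i) • e i) := by
  unfold Am
  rw [mul_neg, s1_mul_sum h (fun j => zd (u j)) i]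

private lemma s1_ne (a : K) : tT - cT a ≠ 0 := by
  unfold tT cT
  rw [← map_sub]
  exact (map_ne_zero_iff _ (IsFractionRing.injective K[X] KT)).2 (X_sub_C_ne_zero a)

private lemma s1_cM_smul (x : K) (M : MK r) : cM (x • M) = cT x • cM M := by
  ext i j
  rw [cM_apply, Matrix.smul_apply, Matrix.smul_apply, cM_apply, smul_eq_mul, smul_eq_mul]
  unfold cT
  rw [C_mul, map_mul]

lemma Rm_mul (h : Dat k u e B) : Rm u e * (tT • 1 - cM (B 0)) = 1 := by
  have h1 : ∑ i, cM (e i) = (1 : MT r) := by rw [← map_sum, h.sum, map_one]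
  unfold Rm
  rw [Finset.sum_mul, ← h1]
  refine Finset.sum_congr rfl fun i _ => ?_
  rw [h1, smul_mul_assoc, mul_sub, mul_smul_comm, mul_one, ← map_mul, h.eB, s1_cM_smul,
    ← sub_smul, smul_smul, inv_mul_cancel₀ (s1_ne _), one_smul]

lemma mul_Rm (h : Dat k u e B) : (tT • 1 - cM (B 0)) * Rm u e = 1 := by
  have h1 : ∑ i, cM (e i) = (1 : MT r) := by rw [← map_sum, h.sum, map_one]
  unfold Rm
  rw [Finset.mul_sum, ← h1]
  refine Finset.sum_congr rfl fun i _ => ?_
  rw [h1, mul_smul_comm, sub_mul, smul_mul_assoc, one_mul, ← map_mul, h.Be, s1_cM_smul,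
    ← sub_smul, smul_smul, inv_mul_cancel₀ (s1_ne _), one_smul]

private lemma s1_Dt_cT (x : K) : Dt (cT x) = 0 := by
  unfold Dt cT
  rw [frD_algebraMap, dX_apply, derivative_C, map_zero]

private lemma s1_Dt_tT : Dt tT = 1 := by
  unfold Dt tT
  rw [frD_algebraMap, dX_apply, derivative_X, map_one]

private lemma s1_DK_cT (x : K) : DK (cT x) = cT (zd x) := by
  unfold DK cT
  rw [frD_algebraMap]
  congr 1
  ext n
  rw [polD_coeff, coeff_C, coeff_C]
  split_ifs
  · rfl
  · rw [map_zero]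

private lemma s1_DK_tT : DK tT = 0 := by
  unfold DK tT
  rw [frD_algebraMap]
  have h : polD zd (X : K[X]) = 0 := by
    ext n
    rw [polD_coeff, coeff_X, coeff_zero]
    split_ifs
    · rw [Der.map_one']
    · rw [map_zero]
  rw [h, map_zero]

lemma Dt_cM (M : MK r) : Dt.mat (cM M) = 0 := by
  ext i j
  rw [Der.mat_apply, cM_apply, s1_Dt_cT]
  rfl

lemma DK_cM (M : MK r) : DK.mat (cM M) = cM (M.map zd) := by
  ext i j
  rw [Der.mat_apply, cM_apply, s1_DK_cT, cM_apply]
  rfl

private lemma s1_smul_one (θ : Der KT) (x : KT) :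
    θ.mat (x • (1 : MT r)) = θ x • (1 : MT r) := by
  ext i j
  rw [Der.mat_apply, Matrix.smul_apply, Matrix.smul_apply, Matrix.one_apply]
  split_ifs
  · rw [smul_eq_mul, smul_eq_mul, mul_one, mul_one]
  · rw [smul_zero, smul_zero, map_zero]

lemma Dt_Rm (h : Dat k u e B) : Dt.mat (Rm u e) = -(Rm u e * Rm u e) := by
  have h1 := Dt.mat.leib (Rm u e) (tT • 1 - cM (B 0))
  rw [Rm_mul h, Der.map_one', map_sub, s1_smul_one, s1_Dt_tT, one_smul, Dt_cM, sub_zero,
    mul_one] at h1
  have h2 : Dt.mat (Rm u e) * (tT • 1 - cM (B 0)) = -Rm u e := eq_neg_of_add_eq_zero_left h1.symm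
  have h3 : Dt.mat (Rm u e) * (tT • 1 - cM (B 0)) * Rm u e = -Rm u e * Rm u e := by rw [h2]
  rw [mul_assoc, mul_Rm h, mul_one, neg_mul] at h3
  exact h3

lemma DK_Rm (h : Dat k u e B) :
    DK.mat (Rm u e) = Rm u e * DK.mat (cM (B 0)) * Rm u e := by
  have h1 := DK.mat.leib (Rm u e) (tT • 1 - cM (B 0))
  rw [Rm_mul h, Der.map_one', map_sub, s1_smul_one, s1_DK_tT, zero_smul, zero_sub, mul_neg] at h1
  have h2 : DK.mat (Rm u e) * (tT • 1 - cM (B 0)) = Rm u e * DK.mat (cM (B 0)) := by
    rw [eq_comm, ← sub_eq_add_neg, sub_eq_zero] at h1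
    exact h1
  have h3 : DK.mat (Rm u e) * (tT • 1 - cM (B 0)) * Rm u e =
      Rm u e * DK.mat (cM (B 0)) * Rm u e := by rw [h2]
  rw [mul_assoc, mul_Rm h, mul_one] at h3
  exact h3

lemma A_Rm (h : Dat k u e B) : cM (Am u e) * Rm u e = Rm u e * cM (Am u e) := by
  unfold Rm
  rw [Finset.mul_sum, Finset.sum_mul]
  refine Finset.sum_congr rfl fun i _ => ?_
  rw [mul_smul_comm, smul_mul_assoc, ← map_mul, ← map_mul, h.Ae, h.eA]

/-- commutator with `R` -/
lemma comm_Rm (h : Dat k u e B) (x : MT r) :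
    x * Rm u e - Rm u e * x = Rm u e * (x * cM (B 0) - cM (B 0) * x) * Rm u e := by
  have h1 : x * cM (B 0) - cM (B 0) * x =
      (tT • 1 - cM (B 0)) * x - x * (tT • 1 - cM (B 0)) := by
    rw [sub_mul, mul_sub, smul_mul_assoc, mul_smul_comm, one_mul, mul_one]
    abel
  rw [h1, mul_sub, sub_mul, ← mul_assoc, Rm_mul h, one_mul, mul_assoc, mul_assoc, mul_Rm h, mul_one]

/-! ### module s2: the system is admissible -/

-- mods_rh s2 (helper47): Rm_gauss, adm_sys; section to paste into Sys.lean in place of the two statements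
lemma s2_int {k' : Type} [Field k'] (n : ℤ) : Vge 0 (n : LS k') := by
  obtain ⟨m, rfl | rfl⟩ := n.eq_nat_or_neg
  · rw [Int.cast_natCast]; exact Vge.natCast m
  · rw [Int.cast_neg, Int.cast_natCast]; exact (Vge.natCast m).neg

lemma s2_det {k' : Type} [Field k'] {m : Type} [Fintype m] [DecidableEq m]
    {M : Matrix m m (LS k')} (hM : MVge 0 M) : Vge 0 M.det := by
  rw [Matrix.det_apply']
  refine Vge.sum fun s _ => Vge.mul0 (s2_int _) (Vge.prod0 fun i _ => hM _ _)

lemma s2_adj {k' : Type} [Field k'] {m : Type} [Fintype m] [DecidableEq m]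
    {M : Matrix m m (LS k')} (hM : MVge 0 M) : MVge 0 M.adjugate := by
  intro i j
  rw [Matrix.adjugate_apply]
  refine s2_det fun a b => ?_
  rw [Matrix.updateRow_apply]
  split_ifs
  · rw [Pi.single_apply]
    split_ifs
    · exact Vge.one
    · exact Vge.zero _
  · exact hM _ _

lemma s2_charpoly (M : MK r) :
    ((tT • (1 : MT r) - cM M)).det = algebraMap K[X] KT M.charpoly := by
  rw [Matrix.charpoly, RingHom.map_det]
  congr 1
  ext i j
  simp only [Matrix.sub_apply, Matrix.smul_apply, smul_eq_mul, RingHom.mapMatrix_apply,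
    Matrix.map_apply, Matrix.charmatrix_apply, map_sub, cM_apply, Matrix.one_apply,
    Matrix.diagonal_apply]
  split_ifs <;> simp [tT, cT]

lemma s2_ord (p : K[X]) (hp : p.Monic) : (nodeP 0 0 p).coeff 0 ≠ 0 := by
  rw [nodeP_coeff]
  intro h
  have h1 : nc 0 0 0 p = 0 := polK_inj (by rw [h, map_zero])
  have h2 := congrArg (fun q => q.coeff p.natDegree) h1
  simp only [nc, cfP_coeff, subP, map_zero, zero_add, Nat.cast_zero, LS.single_zero_one, map_one,
    one_mul, comp_X, coeff_natDegree, hp.leadingCoeff, LS.coeff_one, if_true, coeff_zero] at h2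
  exact one_ne_zero h2

/-- `R` is integral at the Gauss point (`adj / charpoly`) -/
lemma Rm_gauss (h : Dat k u e B) : MVge 0 ((Rm u e).map (node 0 0)) := by
  set P : Matrix (Fin r) (Fin r) F := (tT • (1 : MT r) - cM (B 0)).map (node 0 0) with hP
  have hPint : MVge 0 P := by
    intro i j
    rw [hP]
    simp only [Matrix.map_apply, Matrix.sub_apply, Matrix.smul_apply, smul_eq_mul, map_sub,
      map_mul, cM_apply, node_cT, node_tT, map_zero, zero_add]
    refine Vge.sub (Vge.mul0 (Vge.single (by norm_num) _) ?_) (Vge_inn.2 (h.Bint 0 i j))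
    rw [Matrix.one_apply]
    split_ifs
    · rw [map_one]; exact Vge.one
    · rw [map_zero]; exact Vge.zero _
  have hdet : P.det = nodeP 0 0 (B 0).charpoly := by
    rw [hP, ← RingHom.mapMatrix_apply, ← RingHom.map_det, s2_charpoly, node_algebraMap]
  have hne := s2_ord _ (Matrix.charpoly_monic (B 0))
  rw [← hdet] at hne
  have hd0 : P.det ≠ 0 := by
    intro h0; rw [h0, LS.coeff_zero] at hne; exact hne rfl
  have hord : P.det.ord ≤ 0 := by
    by_contra hc
    exact hne (LS.coeff_of_lt_ord (not_le.1 hc))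
  have hinv : Vge 0 (P.det)⁻¹ := by
    rw [Vge_iff_ord (inv_ne_zero hd0), ord_inv hd0]
    exact_mod_cast (by omega : (0 : ℤ) ≤ -P.det.ord)
  have hPR : P * (Rm u e).map (node 0 0) = 1 := by
    have := congrArg (fun M : MT r => M.map (node 0 0)) (mul_Rm h)
    simp only [Matrix.map_mul] at this
    rw [← hP] at this
    rw [this]
    exact Matrix.map_one _ (map_zero _) (map_one _)
  have hR : (Rm u e).map (node 0 0) = (P.det)⁻¹ • P.adjugate := by
    have h1 : P.adjugate = P.det • (Rm u e).map (node 0 0) := by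
      calc P.adjugate = P.adjugate * (P * (Rm u e).map (node 0 0)) := by rw [hPR, mul_one]
        _ = P.det • (Rm u e).map (node 0 0) := by
          rw [← mul_assoc, Matrix.adjugate_mul, Matrix.smul_mul, one_mul]
    rw [h1, smul_smul, inv_mul_cancel₀ hd0, one_smul]
  rw [hR]
  have := MVge.smul hinv (s2_adj hPint)
  rwa [add_zero] at this

section s2gen

variable (φ : KT →+* F)

lemma s2_mul {m : Type} [Fintype m] {M N : Matrix m m KT} (hM : MVge 0 (M.map φ))
    (hN : MVge 0 (N.map φ)) : MVge 0 ((M * N).map φ) := by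
  rw [Matrix.map_mul]
  have := hM.mul hN
  rwa [add_zero] at this

lemma s2_one {m : Type} [Fintype m] [DecidableEq m] : MVge 0 ((1 : Matrix m m KT).map φ) := by
  rw [Matrix.map_one _ (map_zero _) (map_one _)]
  exact MVge.one

lemma s2_smul {m : Type} {x : KT} {M : Matrix m m KT} (hx : Vge 0 (φ x))
    (hM : MVge 0 (M.map φ)) : MVge 0 ((x • M).map φ) := by
  intro i j
  simp only [Matrix.map_apply, Matrix.smul_apply, smul_eq_mul, map_mul]
  exact hx.mul0 (hM i j)

lemma s2_add {m : Type} {M N : Matrix m m KT} (hM : MVge 0 (M.map φ))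
    (hN : MVge 0 (N.map φ)) : MVge 0 ((M + N).map φ) := by
  intro i j
  simp only [Matrix.map_apply, Matrix.add_apply, map_add]
  exact (hM i j).add (hN i j)

lemma s2_Jm (X : MT r) (hX : MVge 0 (X.map φ)) :
    MVge 0 ((cmp (Jm * dg X : Matrix (Fin (k + 1)) (Fin (k + 1)) (MT r))).map φ) := by
  rintro ⟨a, p⟩ ⟨b, q⟩
  simp only [Matrix.map_apply, cmp, dg, Matrix.mul_diagonal, Jm]
  split_ifs
  · rw [one_mul]; exact hX p q
  · rw [zero_mul, Matrix.zero_apply, map_zero]; exact Vge.zero _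

lemma s2_colE (ρ : Fin (k + 1) → MT r) (h : ∀ a, MVge 0 ((ρ a).map φ)) :
    MVge 0 ((cmp (colE ρ)).map φ) := by
  rintro ⟨a, p⟩ ⟨b, q⟩
  simp only [Matrix.map_apply, cmp, colE]
  split_ifs
  · exact h a p q
  · rw [Matrix.zero_apply, map_zero]; exact Vge.zero _

lemma s2_cM {M : MK r} (hφ : ∀ i j, Vge 0 (φ (cT (M i j)))) : MVge 0 ((cM M).map φ) :=
  fun i j => hφ i j

lemma s2_bet (β : ℂ) : (bet β : MT r) = cM (LS.C β • (1 : MK r)) := by
  ext i j
  simp only [bet, Matrix.smul_apply, cM_apply, smul_eq_mul, Matrix.one_apply, cT]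
  split_ifs <;> simp

lemma s2_rho (B : ℕ → MK r) (β : ℂ) (a : Fin (k + 1)) :
    rho (k := k) (fun j => cM (B j)) (bet β) a = cM (rho (k := k) B (LS.C β • (1 : MK r)) a) := by
  simp only [rho, map_add]
  congr 1
  split_ifs
  · exact s2_bet β
  · rw [map_zero]

/-- the rows `ρ` are integral -/
lemma s2_rho_int (h : Dat k u e B) (β : ℂ) (a : Fin (k + 1)) :
    MVge 0 (rho (k := k) B (LS.C β • (1 : MK r)) a) := by
  rw [rho]
  refine (h.Bint _).add ?_
  split_ifs
  · have := MVge.smul (Vge.C β) (MVge.one (k := ℂ) (m := Fin r))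
    rwa [add_zero] at this
  · exact MVge.zero _

/-- `Ω_t diag(X)` -/
lemma s2_OmTdg (B : ℕ → MT r) (β R X : MT r) :
    OmT (k := k) B β R * dg X = Jm * dg X + colE fun a => rho (k := k) B β a * (R * X) := by
  rw [OmT, add_mul]
  congr 1
  ext a b : 2
  rw [dg, Matrix.mul_diagonal, colE, colE]
  split_ifs
  · rw [mul_assoc]
  · rw [zero_mul]

lemma s2_dg_one : (dg (1 : MT r) : Matrix (Fin (k + 1)) (Fin (k + 1)) (MT r)) = 1 := by
  rw [dg]; exact Matrix.diagonal_one

/-- regularity of `Ω_t diag(X)` -/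
lemma s2_reg (β : ℂ) (X : MT r)
    (hρ : ∀ a, MVge 0 ((cM (rho (k := k) B (LS.C β • (1 : MK r)) a)).map φ))
    (hX : MVge 0 (X.map φ)) (hRX : MVge 0 ((Rm u e * X).map φ)) :
    MVge 0 ((cmp (OmT (k := k) (fun j => cM (B j)) (bet β) (Rm u e) * dg X)).map φ) := by
  rw [s2_OmTdg, cmp_add]
  refine s2_add φ (s2_Jm φ X hX) (s2_colE φ _ fun a => ?_)
  rw [s2_rho]
  exact s2_mul φ (hρ a) hRX

end s2gen

lemma s2_OT (β : ℂ) : OT k u e B β
    = cmp (OmT (k := k) (fun j => cM (B j)) (bet β) (Rm u e) * dg 1) := by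
  rw [OT, s2_dg_one, mul_one]

lemma s2_isPol_cM (M : MK r) (i j : Fin r) : IsPol u (cM M i j) := IsPol.cT _

lemma s2_isPol_R (i j : Fin r) : IsPol u (Rm u e i j) := by
  rw [Rm, Matrix.sum_apply]
  refine IsPol.sum fun m _ => ?_
  rw [Matrix.smul_apply, smul_eq_mul]
  exact (IsPol.inv m).mul (IsPol.cT _)

lemma s2_isPol_mul {m : Type} [Fintype m] {M N : Matrix m m KT} (hM : ∀ i j, IsPol u (M i j))
    (hN : ∀ i j, IsPol u (N i j)) (i j : m) : IsPol u ((M * N) i j) := by
  rw [Matrix.mul_apply]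
  exact IsPol.sum fun s _ => (hM i s).mul (hN s j)

lemma s2_isPol_zero : IsPol u (0 : KT) := by
  have := IsPol.poly u (0 : K[X])
  rwa [map_zero] at this

lemma s2_isPol_OT (β : ℂ) (X : MT r) (hX : ∀ i j, IsPol u (X i j)) (p q : IX k r) :
    IsPol u (cmp (OmT (k := k) (fun j => cM (B j)) (bet β) (Rm u e) * dg X) p q) := by
  rw [s2_OmTdg, cmp_add, Matrix.add_apply]
  refine IsPol.add ?_ ?_
  · simp only [cmp, dg, Matrix.mul_diagonal, Jm]
    split_ifs
    · rw [one_mul]; exact hX _ _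
    · rw [zero_mul, Matrix.zero_apply]; exact s2_isPol_zero
  · simp only [cmp, colE]
    split_ifs
    · rw [s2_rho]
      exact s2_isPol_mul (fun i j => s2_isPol_cM _ i j)
        (fun i j => s2_isPol_mul (fun i j => s2_isPol_R i j) hX i j) _ _
    · rw [Matrix.zero_apply]; exact s2_isPol_zero

/-- `(t - u_j)⁻¹` is regular at `u_i`, `i ≠ j` -/
lemma s2_inv_reg (h : Dat k u e B) {i j : Fin l} (hij : j ≠ i) :
    Vge 0 (loc (u i) (tT - cT (u j))⁻¹) := by
  rw [map_inv₀, map_sub, loc_tT, loc_cT]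
  have hne : u i - u j ≠ 0 := fun h0 => hij (h.uinj (sub_eq_zero.1 h0)).symm
  have hc : (LS.C (u i) + LS.single 1 1 - LS.C (u j) : F).coeff 0 ≠ 0 := by
    rw [LS.coeff_sub, LS.coeff_add, LS.coeff_C, LS.coeff_C, LS.coeff_single]
    simpa using hne
  have hd0 : (LS.C (u i) + LS.single 1 1 - LS.C (u j) : F) ≠ 0 := by
    intro h0; rw [h0, LS.coeff_zero] at hc; exact hc rfl
  have hord : (LS.C (u i) + LS.single 1 1 - LS.C (u j) : F).ord ≤ 0 := by
    by_contra hcc
    exact hc (LS.coeff_of_lt_ord (not_le.1 hcc))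
  rw [Vge_iff_ord (inv_ne_zero hd0), ord_inv hd0]
  exact_mod_cast (by omega : (0 : ℤ) ≤ -(LS.C (u i) + LS.single 1 1 - LS.C (u j) : F).ord)

lemma s2_cM_loc (a : K) (M : MK r) : MVge 0 ((cM M).map (loc a)) := by
  intro i j
  rw [Matrix.map_apply, cM_apply, loc_cT]
  exact Vge.C _

/-- (1.2) -/
lemma s2_RX (h : Dat k u e B) (i : Fin l) :
    MVge 0 ((Rm u e * cM (Am u e + zd (u i) • 1)).map (loc (u i))) := by
  have h1 : Rm u e * cM (Am u e + zd (u i) • 1) =
      ∑ j, ((tT - cT (u j))⁻¹ * cT (zd (u i) - zd (u j))) • cM (e j) := by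
    rw [Rm, Finset.sum_mul]
    refine Finset.sum_congr rfl fun j _ => ?_
    rw [Matrix.smul_mul, ← map_mul, mul_add, h.eA, Matrix.mul_smul, mul_one]
    ext p q
    simp only [Matrix.smul_apply, smul_eq_mul, cM_apply, Matrix.add_apply, Matrix.neg_apply, cT,
      map_add, map_neg, map_mul, map_sub]
    ring
  rw [h1]
  intro p q
  rw [Matrix.map_apply, Matrix.sum_apply, map_sum]
  refine Vge.sum fun j _ => ?_
  rw [Matrix.smul_apply, smul_eq_mul, map_mul, map_mul]
  by_cases hji : j = i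
  · have hz : cT (0 : K) = 0 := by rw [cT, map_zero, map_zero]
    rw [hji, sub_self, hz, map_zero, mul_zero, zero_mul]
    exact Vge.zero _
  · refine Vge.mul0 (Vge.mul0 (s2_inv_reg h hji) ?_) (s2_cM_loc (u i) (e j) p q)
    rw [loc_cT]; exact Vge.C _

lemma s2_tR (h : Dat k u e B) (i : Fin l) :
    MVge 0 (((tT - cT (u i)) • Rm u e).map (loc (u i))) := by
  intro p q
  rw [Matrix.map_apply, Rm, Finset.smul_sum, Matrix.sum_apply, map_sum]
  refine Vge.sum fun j _ => ?_
  rw [Matrix.smul_apply, Matrix.smul_apply, smul_eq_mul, smul_eq_mul, ← mul_assoc, map_mul]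
  refine Vge.mul0 ?_ (s2_cM_loc (u i) (e j) p q)
  by_cases hji : j = i
  · rw [hji, mul_inv_cancel₀ (tT_sub_ne _), map_one]; exact Vge.one
  · rw [map_mul]
    refine Vge.mul0 ?_ (s2_inv_reg h hji)
    rw [map_sub, loc_tT, loc_cT, add_sub_cancel_left]
    exact Vge.single (by norm_num) _

lemma s2_flat (h : Dat k u e B) (β : ℂ) : Flat DK Dt (OD k u e B β) (OT k u e B β) := by
  have hc := curvature (k := k) DK.mat Dt.mat (fun j => cM (B j)) (bet β) (Rm u e)
    (cM (Am u e)) (fun j hj => by rw [h.top j hj, map_zero]) (Dt_Rm h) (DK_Rm h) (A_Rm h)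
    (Dt_cM _) (fun j => Dt_cM _) (by rw [s2_bet]; exact Dt_cM _)
    (by
      rw [s2_bet, DK_cM]
      have : (LS.C β • (1 : MK r)).map zd = 0 := by
        ext i j
        rw [Matrix.map_apply, Matrix.smul_apply, smul_eq_mul, Matrix.one_apply]
        split_ifs
        · rw [mul_one, zd_C, Matrix.zero_apply]
        · rw [mul_zero, map_zero, Matrix.zero_apply]
      rw [this, map_zero])
    (fun x => by rw [bet, Matrix.smul_mul, one_mul, Matrix.mul_smul, mul_one])
  have h0 : (fun j => DK.mat (cM (B j)) + (if j = 0 then cM (Am u e) else 0)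
      + (cM (Am u e) * cM (B (j + 1)) - cM (B (j + 1)) * cM (Am u e))) = fun _ => (0 : MT r) := by
    funext j
    rw [DK_cM, h.eqn j, ← map_mul, ← map_mul, map_sub, map_neg, map_sub]
    split_ifs
    · abel
    · rw [map_zero]; abel
  simp only [h0] at hc
  have h1 : omT (k := k) (fun j => cM (B j)) (bet β) (Rm u e) (fun _ => (0 : MT r)) = 0 := by
    ext a b : 2
    rw [omT, colE]
    simp only [mul_zero, add_zero, zero_mul, ite_self, Matrix.zero_apply]
  rw [h1] at hc
  have h2 := congrArg (fun M => cmp M) hc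
  rw [Flat]
  have h3 : ∀ M : Matrix (Fin (k + 1)) (Fin (k + 1)) (MT r), ∀ θ : Der KT,
      cmp (θ.mat.mat M) = (cmp M).map θ := fun M θ => rfl
  simp only [cmp_sub, cmp_add, cmp_mul, h3] at h2
  exact h2

theorem adm_sys (h : Dat k u e B) (β : ℂ) : Adm u (OT k u e B β) (OD k u e B β) where
  polt a b := by
    rw [s2_OT]
    refine s2_isPol_OT β 1 (fun i j => ?_) a b
    rw [Matrix.one_apply]
    split_ifs
    · have := IsPol.poly u (1 : K[X])
      rwa [map_one] at this
    · exact s2_isPol_zero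
  polD a b := s2_isPol_OT β _ (fun i j => s2_isPol_cM _ i j) a b
  flat := s2_flat h β
  gt := by
    rw [s2_OT]
    refine s2_reg _ β 1 (fun a => ?_) (s2_one _) ?_
    · refine s2_cM _ fun i j => ?_
      rw [node_cT, Vge_inn]
      exact s2_rho_int h β a i j
    · rw [mul_one]; exact Rm_gauss h
  gD := by
    have hA : MVge 0 ((cM (Am u e)).map (node 0 0)) := s2_cM _ fun i j => by
      rw [node_cT, Vge_inn]
      exact h.Aint i j
    refine s2_reg _ β _ (fun a => ?_) hA (s2_mul _ (Rm_gauss h) hA)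
    refine s2_cM _ fun i j => ?_
    rw [node_cT, Vge_inn]
    exact s2_rho_int h β a i j
  regX i := by
    have h1 : OD k u e B β + cT (zd (u i)) • OT k u e B β =
        cmp (OmT (k := k) (fun j => cM (B j)) (bet β) (Rm u e)
          * dg (cM (Am u e + zd (u i) • 1))) := by
      have h2 : (dg (cM (Am u e + zd (u i) • 1)) : Matrix (Fin (k + 1)) (Fin (k + 1)) (MT r))
          = dg (cM (Am u e)) + dg (cT (zd (u i)) • (1 : MT r)) := by
        rw [dg, dg, dg, Matrix.diagonal_add]
        congr 1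
        funext _
        rw [map_add]
        congr 1
        ext p q
        simp only [cM_apply, Matrix.smul_apply, smul_eq_mul, Matrix.one_apply, cT]
        split_ifs <;> simp
      rw [h2, mul_add, cmp_add, OD, OmD]
      congr 1
      ext ⟨a, p⟩ ⟨b, q⟩
      simp only [cmp, dg, Matrix.mul_diagonal, Matrix.smul_apply, smul_eq_mul, OT,
        Matrix.mul_smul, mul_one]
    rw [h1]
    exact s2_reg _ β _ (fun a => s2_cM_loc _ _) (s2_cM_loc _ _) (s2_RX h i)
  regY i := by
    have h1 : (tT - cT (u i)) • OT k u e B β =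
        cmp (OmT (k := k) (fun j => cM (B j)) (bet β) (Rm u e)
          * dg ((tT - cT (u i)) • (1 : MT r))) := by
      ext ⟨a, p⟩ ⟨b, q⟩
      simp only [cmp, dg, Matrix.mul_diagonal, Matrix.smul_apply, smul_eq_mul, OT,
        Matrix.mul_smul, mul_one]
    rw [h1]
    refine s2_reg _ β _ (fun a => s2_cM_loc _ _) (s2_smul _ ?_ (s2_one _)) ?_
    · rw [map_sub, loc_tT, loc_cT, add_sub_cancel_left]
      exact Vge.single (by norm_num) _
    · rw [Matrix.mul_smul, mul_one]
      exact s2_tR h i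

/-! ### module s3: `α`, `om_t`, `y_i` -/

/-- `α(b_0)` -/
noncomputable def alp (u : Fin l → K) (e : Fin l → MK r) (b : MK r) : MK r :=
  -∑ p, ∑ q, (zd (u p - u q) / (u p - u q)) • (e p * b * e q)

lemma alp_add (b b' : MK r) : alp u e (b + b') = alp u e b + alp u e b' := by
  simp only [alp, mul_add, add_mul, smul_add, Finset.sum_add_distrib, neg_add]

lemma alp_smul (x : K) (b : MK r) : alp u e (x • b) = x • alp u e b := by
  simp only [alp, Matrix.mul_smul, Matrix.smul_mul, smul_neg, Finset.smul_sum]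
  congr 1
  refine Finset.sum_congr rfl fun p _ => Finset.sum_congr rfl fun q _ => ?_
  rw [smul_comm]

private lemma s3_term (u : Fin l → K) (e : Fin l → MK r) (p q : Fin l) :
    ∃ C : ℝ, 0 ≤ C ∧ ∀ (c : ℝ) (b : MK r), MVge c b →
      MVge (c - C) ((zd (u p - u q) / (u p - u q)) • (e p * b * e q)) := by
  obtain ⟨c₁, h₁⟩ := exists_Vge (zd (u p - u q) / (u p - u q))
  obtain ⟨c₂, h₂⟩ := exists_MVge (e p)
  obtain ⟨c₃, h₃⟩ := exists_MVge (e q)
  refine ⟨max 0 (-(c₁ + c₂ + c₃)), le_max_left _ _, fun c b hb => ?_⟩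
  refine MVge.mono (MVge.smul h₁ (MVge.mul (MVge.mul h₂ hb) h₃)) ?_
  have := le_max_right 0 (-(c₁ + c₂ + c₃))
  linarith

/-- the coefficients are integral, but not the `e_i`: a constant loss -/
lemma alp_bound (u : Fin l → K) (e : Fin l → MK r) :
    ∃ C : ℝ, ∀ (c : ℝ) (b : MK r), MVge c b → MVge (c - C) (alp u e b) := by
  choose C hC0 hC using s3_term u e
  refine ⟨∑ p, ∑ q, C p q, fun c b hb => ?_⟩
  unfold alp
  refine MVge.neg (MVge.sum fun p _ => MVge.sum fun q _ => ?_)
  refine MVge.mono (hC p q c b hb) ?_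
  have h1 : C p q ≤ ∑ q, C p q :=
    Finset.single_le_sum (f := fun q => C p q) (fun q _ => hC0 p q) (Finset.mem_univ q)
  have h2 : ∑ q, C p q ≤ ∑ p, ∑ q, C p q :=
    Finset.single_le_sum (f := fun p => ∑ q, C p q)
      (fun p _ => Finset.sum_nonneg fun q _ => hC0 p q) (Finset.mem_univ p)
  linarith

lemma alp_comm (h : Dat k u e B) (b : MK r) :
    alp u e b * B 0 - B 0 * alp u e b + (Am u e * b - b * Am u e) = 0 := by
  have hsum := h.sum
  have h1 : Am u e * b = -∑ p, ∑ q, zd (u p) • (e p * b * e q) := by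
    rw [Am, neg_mul, Finset.sum_mul]
    congr 1
    refine Finset.sum_congr rfl fun p _ => ?_
    rw [← Finset.smul_sum, ← Finset.mul_sum, hsum, mul_one, Matrix.smul_mul]
  have h2 : b * Am u e = -∑ p, ∑ q, zd (u q) • (e p * b * e q) := by
    rw [Am, mul_neg, Finset.mul_sum, Finset.sum_comm]
    congr 1
    refine Finset.sum_congr rfl fun q _ => ?_
    rw [← Finset.smul_sum, ← Finset.sum_mul, ← Finset.sum_mul, hsum, one_mul, Matrix.mul_smul]
  have h3 : alp u e b * B 0
      = -∑ p, ∑ q, (zd (u p - u q) / (u p - u q) * u q) • (e p * b * e q) := by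
    rw [alp, neg_mul, Finset.sum_mul]
    congr 1
    refine Finset.sum_congr rfl fun p _ => ?_
    rw [Finset.sum_mul]
    refine Finset.sum_congr rfl fun q _ => ?_
    rw [Matrix.smul_mul, mul_assoc (e p * b), h.eB, Matrix.mul_smul, smul_smul]
  have h4 : B 0 * alp u e b
      = -∑ p, ∑ q, (zd (u p - u q) / (u p - u q) * u p) • (e p * b * e q) := by
    rw [alp, mul_neg, Finset.mul_sum]
    congr 1
    refine Finset.sum_congr rfl fun p _ => ?_
    rw [Finset.mul_sum]
    refine Finset.sum_congr rfl fun q _ => ?_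
    rw [Matrix.mul_smul, mul_assoc (e p) b, ← mul_assoc (B 0), h.Be, Matrix.smul_mul, smul_smul]
  rw [h1, h2, h3, h4]
  simp only [neg_sub_neg, ← Finset.sum_sub_distrib, ← Finset.sum_add_distrib, ← sub_smul,
    ← add_smul]
  refine Finset.sum_eq_zero fun p _ => Finset.sum_eq_zero fun q _ => ?_
  have : zd (u p - u q) / (u p - u q) * u p - zd (u p - u q) / (u p - u q) * u q
      + (zd (u q) - zd (u p)) = 0 := by
    rw [← mul_sub]
    by_cases hpq : u p - u q = 0
    · have : u p = u q := sub_eq_zero.1 hpq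
      rw [this]; simp
    · rw [div_mul_cancel₀ _ hpq, map_sub]; ring
  rw [this, zero_smul]

lemma alp_diag (h : Dat k u e B) (b : MK r) (i : Fin l) : e i * alp u e b * e i = 0 := by
  rw [alp, mul_neg, neg_mul, neg_eq_zero, Finset.mul_sum, Finset.sum_mul]
  refine Finset.sum_eq_zero fun p _ => ?_
  rw [Finset.mul_sum, Finset.sum_mul]
  refine Finset.sum_eq_zero fun q _ => ?_
  by_cases hp : i = p
  · by_cases hq : q = i
    · subst hp; subst hq; simp
    · rw [Matrix.mul_smul, Matrix.smul_mul, mul_assoc (e i), mul_assoc (e p * b),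
        h.orth q i hq, mul_zero, mul_zero, smul_zero]
  · rw [Matrix.mul_smul, Matrix.smul_mul, ← mul_assoc, ← mul_assoc, h.orth i p hp, zero_mul,
      zero_mul, zero_mul, smul_zero]

/-- the linearised equation on `b = (b_0, …, b_k)`, `b_j = 0` for `j > k` -/
noncomputable def LamK (u : Fin l → K) (e : Fin l → MK r) (B : ℕ → MK r) (b : ℕ → MK r) :
    ℕ → MK r :=
  Lam (fun M => M.map zd) B (Am u e) (alp u e (b 0)) b

lemma LamK_top (h : Dat k u e B) {b : ℕ → MK r} (hb : ∀ j, k < j → b j = 0) (j : ℕ)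
    (hj : k < j) : LamK u e B b j = 0 := by
  have h0 : j ≠ 0 := by omega
  rw [LamK, Lam, hb j hj, hb (j + 1) (by omega), h.top (j + 1) (by omega), if_neg h0]
  ext a c
  simp

/-- `om_t(b)` -/
noncomputable def wT (k : ℕ) (u : Fin l → K) (e : Fin l → MK r) (B : ℕ → MK r) (β : ℂ)
    (b : ℕ → MK r) : Matrix (IX k r) (IX k r) KT :=
  cmp (omT (k := k) (fun j => cM (B j)) (bet β) (Rm u e) fun j => cM (b j))

/-- `y_i(b) = om_t(b) (A + D(u_i)) + Ω_t α` -/
noncomputable def yI (k : ℕ) (u : Fin l → K) (e : Fin l → MK r) (B : ℕ → MK r) (β : ℂ)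
    (i : Fin l) (b : ℕ → MK r) : Matrix (IX k r) (IX k r) KT :=
  cmp (omT (k := k) (fun j => cM (B j)) (bet β) (Rm u e) (fun j => cM (b j))
      * dg (cM (Am u e + zd (u i) • 1))
    + OmT (k := k) (fun j => cM (B j)) (bet β) (Rm u e) * dg (cM (alp u e (b 0))))

-- module s4 of Sys.lean: X_wT and yI_sub (with private helpers s4_*)

private lemma s4_zd_C (β : ℂ) : zd (LS.C β) = 0 := by
  ext n
  rw [zd_coeff, LS.coeff_C, LS.coeff_zero]
  by_cases hn : n = 0
  · rw [hn, Int.cast_zero, zero_mul]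
  · rw [if_neg hn, mul_zero]

private lemma s4_mat_cT (θ : Der KT) (x : KT) :
    θ.mat (x • (1 : MT r)) = θ x • (1 : MT r) := by
  ext i j
  rw [Der.mat_apply, Matrix.smul_apply, Matrix.smul_apply, Matrix.one_apply]
  split_ifs
  · rw [smul_eq_mul, smul_eq_mul, mul_one, mul_one]
  · rw [smul_zero, smul_zero, map_zero]

private lemma s4_Dt_cT (x : K) : Dt (cT x) = 0 := by
  unfold Dt cT
  rw [frD_algebraMap, dX_apply, derivative_C, map_zero]

private lemma s4_DK_cT (x : K) : DK (cT x) = cT (zd x) := by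
  unfold DK cT
  rw [frD_algebraMap]
  congr 1
  ext n
  rw [polD_coeff, coeff_C, coeff_C]
  split_ifs
  · rfl
  · rw [map_zero]

private lemma s4_Dt_bet (β : ℂ) : Dt.mat (bet (r := r) β) = 0 := by
  unfold bet
  rw [s4_mat_cT, s4_Dt_cT, zero_smul]

private lemma s4_DK_bet (β : ℂ) : DK.mat (bet (r := r) β) = 0 := by
  unfold bet
  rw [s4_mat_cT, s4_DK_cT, s4_zd_C]
  unfold cT
  rw [map_zero, map_zero, zero_smul]

private lemma s4_bet_comm (β : ℂ) (x : MT r) : bet β * x = x * bet β := by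
  unfold bet
  rw [smul_mul_assoc, one_mul, mul_smul_comm, mul_one]

private lemma s4_cmp_map {I J : Type} [Fintype I] [DecidableEq I] [Fintype J] [DecidableEq J]
    (θ : Der KT) (M : Matrix I I (Matrix J J KT)) :
    (cmp M).map θ = cmp (θ.mat.mat M) := rfl

private lemma s4_Lam (h : Dat k u e B) (b : ℕ → MK r) (j : ℕ) :
    Lam (DK.mat : MT r → MT r) (fun j => cM (B j)) (cM (Am u e)) (cM (alp u e (b 0)))
      (fun j => cM (b j)) j = cM (LamK u e B b j) := by
  unfold LamK Lam
  simp only [map_add, map_sub, map_mul, DK_cM]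
  congr 3
  split_ifs
  · rfl
  · rw [map_zero]

private lemma s4_nab_add {I : Type} [Fintype I] [DecidableEq I] (θ : Der KT)
    (G M N : Matrix I I KT) : nab θ G (M + N) = nab θ G M + nab θ G N := by
  unfold nab
  have : (M + N).map θ = M.map θ + N.map θ := by
    ext i j
    exact map_add θ _ _
  rw [this, mul_add, add_mul]
  abel

private lemma s4_nab_smul {I : Type} [Fintype I] [DecidableEq I]
    (G M : Matrix I I KT) (x : K) : nab Dt G (cT x • M) = cT x • nab Dt G M := by
  unfold nab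
  have : (cT x • M).map Dt = cT x • M.map Dt := by
    ext i j
    show Dt (cT x * M i j) = cT x * Dt (M i j)
    rw [Der.leib, s4_Dt_cT, zero_mul, zero_add]
  rw [this, mul_smul_comm, smul_mul_assoc, smul_sub, smul_add]

private lemma s4_dg_add (A x : MT r) :
    dg (k := k) (A + x) = dg A + dg x := by
  unfold dg
  rw [Matrix.diagonal_add]

private lemma s4_dg_smul (M : Matrix (Fin (k + 1)) (Fin (k + 1)) (MT r)) (x : K) :
    cmp (M * dg (cM (x • 1))) = cT x • cmp M := by
  ext p q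
  show (M * dg (k := k) (cM (x • (1 : MK r))) : Matrix (Fin (k + 1)) (Fin (k + 1)) (MT r))
    p.1 q.1 p.2 q.2 = cT x * M p.1 q.1 p.2 q.2
  unfold dg
  rw [Matrix.mul_diagonal]
  have : (cM (x • 1) : MT r) = cT x • 1 := by
    ext i j
    rw [cM_apply, Matrix.smul_apply, Matrix.smul_apply, Matrix.one_apply, Matrix.one_apply]
    unfold cT
    split_ifs
    · rw [smul_eq_mul, smul_eq_mul, mul_one, mul_one]
    · rw [smul_zero, smul_zero, map_zero, map_zero]
  rw [this, mul_smul_comm, mul_one]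
  rfl

private lemma s4_yI (β : ℂ) (i : Fin l) (b : ℕ → MK r) :
    yI k u e B β i b = cmp (omD (k := k) (fun j => cM (B j)) (bet β) (Rm u e) (cM (Am u e))
      (cM (alp u e (b 0))) fun j => cM (b j)) + cT (zd (u i)) • wT k u e B β b := by
  unfold yI omD wT
  rw [map_add, s4_dg_add, mul_add, ← s4_dg_smul, cmp_add, cmp_add, cmp_add]
  abel

/-- (6.2) (module s4) -/
theorem X_wT (h : Dat k u e B) (β : ℂ) (i : Fin l) {b : ℕ → MK r} (hb : ∀ j, k < j → b j = 0) :
    nab (DX (u i)) (gX u (OT k u e B β) (OD k u e B β) i) (wT k u e B β b) =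
      wT k u e B β (LamK u e B b) + nab Dt (OT k u e B β) (yI k u e B β i b) := by
  have h1 := linearised (k := k) DK.mat Dt.mat (fun j => cM (B j)) (fun j => cM (b j)) (bet β)
    (Rm u e) (cM (Am u e)) (cM (alp u e (b 0)))
    (fun j hj => by rw [h.top j hj, map_zero]) (fun j hj => by rw [hb j hj, map_zero])
    (Dt_Rm h) (DK_Rm h) (A_Rm h) (Dt_cM _) (fun j => Dt_cM _) (s4_Dt_bet β) (s4_DK_bet β)
    (s4_bet_comm β) (fun j => Dt_cM _) (Dt_cM _)
    (fun j => by
      rw [DK_cM, h.eqn j]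
      simp only [map_sub, map_neg, map_mul]
      congr 2
      split_ifs
      · rfl
      · rw [map_zero])
    (by
      have h2 := congrArg cM (alp_comm h (b 0))
      simpa only [map_add, map_sub, map_mul, map_zero] using h2)
    (comm_Rm h _)
  have h2 : Lam (DK.mat : MT r → MT r) (fun j => cM (B j)) (cM (Am u e)) (cM (alp u e (b 0)))
      (fun j => cM (b j)) = fun j => cM (LamK u e B b j) := funext fun j => s4_Lam h b j
  rw [h2] at h1
  have h3 := congrArg cmp h1
  simp only [cmp_sub, cmp_add, cmp_mul, ← s4_cmp_map] at h3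
  have h4 : nab DK (OD k u e B β) (wT k u e B β b) - nab Dt (OT k u e B β)
      (cmp (omD (k := k) (fun j => cM (B j)) (bet β) (Rm u e) (cM (Am u e))
      (cM (alp u e (b 0))) fun j => cM (b j))) = wT k u e B β (LamK u e B b) := h3
  have h5 : nab (DX (u i)) (gX u (OT k u e B β) (OD k u e B β) i) (wT k u e B β b) =
      nab DK (OD k u e B β) (wT k u e B β b) +
        cT (zd (u i)) • nab Dt (OT k u e B β) (wT k u e B β b) := by
    unfold nab gX
    have : (wT k u e B β b).map (DX (u i)) = (wT k u e B β b).map DK +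
        cT (zd (u i)) • (wT k u e B β b).map Dt := rfl
    rw [this, add_mul, mul_add, smul_mul_assoc, mul_smul_comm, smul_sub, smul_add]
    abel
  rw [h5, s4_yI, s4_nab_add, s4_nab_smul, ← add_assoc, ← h4, sub_add_cancel]

/-- `y_i - y_j = D(u_i - u_j) om_t` (module s4) -/
theorem yI_sub (i j : Fin l) (β : ℂ) (b : ℕ → MK r) :
    yI k u e B β i b - yI k u e B β j b = cT (zd (u i - u j)) • wT k u e B β b := by
  have h1 : cT (zd (u i - u j)) = cT (zd (u i)) - cT (zd (u j)) := by
    unfold cT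
    rw [map_sub, map_sub, map_sub]
  rw [s4_yI, s4_yI, h1, sub_smul]
  abel

private theorem s5_omT {S : Type} [Ring S] (B : ℕ → S) (β R : S) (b : ℕ → S) (a c : Fin (k + 1)) :
    omT (k := k) B β R b a c = if c = Fin.last k then
      (b (k + 1 - a.val) + rho (k := k) B β a * R * b 0) * R else 0 := rfl

private theorem s5_OmT {S : Type} [Ring S] (B : ℕ → S) (β R : S) (a c : Fin (k + 1)) :
    OmT (k := k) B β R a c = Jm a c + if c = Fin.last k then rho (k := k) B β a * R else 0 := rfl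

private theorem s5_cT_zero : cT (0 : K) = 0 := by
  unfold cT
  simp

private theorem s5_inv_reg {a b : K} (hab : a ≠ b) : Vge 0 (loc a (tT - cT b)⁻¹) := by
  have h0 : loc a (tT - cT b) ≠ 0 := by
    rw [Ne, map_eq_zero]
    exact tT_sub_ne b
  have h1 : loc a (tT - cT b) = LS.C (a - b) + LS.single 1 1 := by
    rw [map_sub, loc_tT, loc_cT, map_sub]
    ring
  have h2 : (loc a (tT - cT b)).ord ≤ 0 := by
    by_contra hc
    rw [not_le] at hc
    have := LS.coeff_of_lt_ord hc
    rw [h1, LS.coeff_add, LS.coeff_C, if_pos rfl, LS.coeff_single, if_neg (by norm_num),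
      add_zero] at this
    exact hab (sub_eq_zero.mp this)
  refine Vge_of_mul h0 ?_
  rw [← map_mul, mul_inv_cancel₀ (tT_sub_ne b), map_one]
  refine Vge.one.mono ?_
  have : ((loc a (tT - cT b)).ord : ℝ) ≤ 0 := by exact_mod_cast h2
  linarith

private theorem s5_cT_reg (a b : K) : Vge 0 (loc a (cT b)) := by
  rw [loc_cT]
  exact Vge.C _

private theorem s5_cM_reg (a : K) (M : MK r) : MVge 0 ((cM M).map (loc a)) := by
  intro p q
  exact s5_cT_reg a (M p q)

private theorem s5_inv_inf (b : K) : Vge 1 (inf (tT - cT b)⁻¹) := by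
  have h0 : inf (tT - cT b) ≠ 0 := by
    rw [Ne, map_eq_zero]
    exact tT_sub_ne b
  have h1 : inf (tT - cT b) = LS.single (-1) 1 - LS.C b := by
    rw [map_sub, inf_tT, inf_cT]
  have h2 : (inf (tT - cT b)).ord ≤ -1 := by
    by_contra hc
    rw [not_le] at hc
    have := LS.coeff_of_lt_ord hc
    rw [h1, LS.coeff_sub, LS.coeff_C, if_neg (by norm_num), LS.coeff_single, if_pos rfl,
      sub_zero] at this
    exact one_ne_zero this
  refine Vge_of_mul h0 ?_
  rw [← map_mul, mul_inv_cancel₀ (tT_sub_ne b), map_one]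
  refine Vge.one.mono ?_
  have : ((inf (tT - cT b)).ord : ℝ) ≤ -1 := by exact_mod_cast h2
  linarith

private theorem s5_cM_inf (M : MK r) : MVge 0 ((cM M).map inf) := by
  intro p q
  change Vge 0 (inf (cT (M p q)))
  rw [inf_cT]
  exact Vge.C _

/-- map of a product, sum -/
private theorem s5_mul_reg {φ : KT →+* F} {c c' : ℝ} {M N : MT r} (hM : MVge c (M.map φ))
    (hN : MVge c' (N.map φ)) : MVge (c + c') ((M * N).map φ) := by
  rw [Matrix.map_mul]
  exact hM.mul hN

private theorem s5_mul0 {φ : KT →+* F} {M N : MT r} (hM : MVge 0 (M.map φ))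
    (hN : MVge 0 (N.map φ)) : MVge 0 ((M * N).map φ) := by
  simpa using s5_mul_reg hM hN

private theorem s5_add {φ : KT →+* F} {c : ℝ} {M N : MT r} (hM : MVge c (M.map φ))
    (hN : MVge c (N.map φ)) : MVge c ((M + N).map φ) := by
  rw [Matrix.map_add (hf := map_add _)]
  exact hM.add hN

private theorem s5_sum {φ : KT →+* F} {c : ℝ} {ι : Type} {s : Finset ι} {M : ι → MT r}
    (hM : ∀ i ∈ s, MVge c ((M i).map φ)) : MVge c ((∑ i ∈ s, M i).map φ) := by
  intro p q
  have : (∑ i ∈ s, M i).map φ p q = ∑ i ∈ s, (M i).map φ p q := by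
    simp only [Matrix.map_apply, Matrix.sum_apply, map_sum]
  rw [this]
  exact Vge.sum fun i hi => hM i hi p q

private theorem s5_smul {φ : KT →+* F} {c c' : ℝ} {x : KT} {M : MT r} (hx : Vge c (φ x))
    (hM : MVge c' (M.map φ)) : MVge (c + c') ((x • M).map φ) := by
  intro p q
  have : (x • M).map φ p q = φ x * M.map φ p q := by
    simp only [Matrix.map_apply, Matrix.smul_apply, smul_eq_mul, map_mul]
  rw [this]
  exact hx.mul (hM p q)

private theorem s5_rho_reg {φ : KT →+* F} (hφ : ∀ x : K, Vge 0 (φ (cT x))) (β : ℂ)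
    (a : Fin (k + 1)) :
    MVge 0 ((rho (k := k) (fun j => cM (B j)) (bet β : MT r) a).map φ) := by
  unfold rho
  refine s5_add ?_ ?_
  · intro p q
    exact hφ _
  · split_ifs
    · intro p q
      unfold bet
      simp only [Matrix.map_apply, Matrix.smul_apply, Matrix.one_apply, smul_eq_mul]
      split_ifs
      · rw [mul_one]
        exact hφ _
      · rw [mul_zero, map_zero]
        exact Vge.zero _
    · intro p q
      simp only [Matrix.map_apply, Matrix.zero_apply, map_zero]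
      exact Vge.zero _

/-- block entries of `y_i` -/
private theorem s5_yI_entry (β : ℂ) (i : Fin l) (b : ℕ → MK r) (p q : IX k r) :
    yI k u e B β i b p q =
      (omT (k := k) (fun j => cM (B j)) (bet β) (Rm u e) (fun j => cM (b j)) p.1 q.1
        * cM (Am u e + zd (u i) • 1)
      + OmT (k := k) (fun j => cM (B j)) (bet β) (Rm u e) p.1 q.1
        * cM (alp u e (b 0)) : MT r) p.2 q.2 := by
  unfold yI cmp dg
  rw [Matrix.add_apply, Matrix.mul_diagonal, Matrix.mul_diagonal]

private theorem s5_eX (h : Dat k u e B) (i q : Fin l) :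
    cM (e q) * cM (Am u e + zd (u i) • 1) = cT (zd (u i) - zd (u q)) • cM (e q) := by
  rw [← map_mul]
  have h1 : e q * (Am u e + zd (u i) • 1) = (zd (u i) - zd (u q)) • e q := by
    rw [mul_add, h.eA, mul_smul_comm, mul_one, sub_smul]
    abel
  rw [h1]
  ext a b
  simp only [cM_apply, Matrix.smul_apply, smul_eq_mul]
  unfold cT
  rw [C_mul, map_mul]

private theorem s5_cM_smul (x : K) (M : MK r) : cM (x • M) = cT x • cM M := by
  ext a b
  simp only [cM_apply, Matrix.smul_apply, smul_eq_mul]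
  unfold cT
  rw [C_mul, map_mul]

/-- `R (A + D(u_i))` -/
private theorem s5_RX (h : Dat k u e B) (i : Fin l) :
    Rm u e * cM (Am u e + zd (u i) • 1) =
      ∑ q, ((tT - cT (u q))⁻¹ * cT (zd (u i) - zd (u q))) • cM (e q) := by
  unfold Rm
  rw [Finset.sum_mul]
  refine Finset.sum_congr rfl fun q _ => ?_
  rw [smul_mul_assoc, s5_eX h, smul_smul]

private theorem s5_RX_reg (h : Dat k u e B) (i : Fin l) :
    MVge 0 ((Rm u e * cM (Am u e + zd (u i) • 1)).map (loc (u i))) := by
  rw [s5_RX h]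
  refine s5_sum fun q _ => ?_
  have h1 : Vge 0 (loc (u i) ((tT - cT (u q))⁻¹ * cT (zd (u i) - zd (u q)))) := by
    by_cases hq : u i = u q
    · rw [hq, sub_self, s5_cT_zero, mul_zero, map_zero]
      exact Vge.zero _
    · rw [map_mul]
      simpa using (s5_inv_reg hq).mul (s5_cT_reg (u i) (zd (u i) - zd (u q)))
  simpa using s5_smul h1 (s5_cM_reg (u i) (e q))

private theorem s5_e_alp (h : Dat k u e B) (p : Fin l) (b : MK r) :
    e p * alp u e b = -∑ q, (zd (u p - u q) / (u p - u q)) • (e p * b * e q) := by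
  unfold alp
  rw [mul_neg, Finset.mul_sum, Finset.sum_eq_single p]
  · rw [Finset.mul_sum]
    congr 1
    refine Finset.sum_congr rfl fun q _ => ?_
    rw [mul_smul_comm, ← mul_assoc, ← mul_assoc, h.idem]
  · intro p' _ hp'
    rw [Finset.mul_sum]
    refine Finset.sum_eq_zero fun q _ => ?_
    rw [mul_smul_comm, ← mul_assoc, ← mul_assoc, h.orth p p' (Ne.symm hp'), zero_mul, zero_mul,
      smul_zero]
  · intro hp
    exact absurd (Finset.mem_univ p) hp

/-- `R b_0 R (A + D(u_i)) + R α` -/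
private theorem s5_Z (h : Dat k u e B) (i : Fin l) (b : MK r) :
    Rm u e * cM b * (Rm u e * cM (Am u e + zd (u i) • 1)) + Rm u e * cM (alp u e b) =
      ∑ p, ∑ q, ((tT - cT (u p))⁻¹ * (tT - cT (u q))⁻¹ * cT (zd (u i) - zd (u q))
        - (tT - cT (u p))⁻¹ * cT (zd (u p - u q) / (u p - u q))) • cM (e p * b * e q) := by
  rw [s5_RX h]
  have h1 : Rm u e * cM (alp u e b) = -∑ p, ∑ q, ((tT - cT (u p))⁻¹ *
      cT (zd (u p - u q) / (u p - u q))) • cM (e p * b * e q) := by
    unfold Rm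
    rw [Finset.sum_mul, ← Finset.sum_neg_distrib]
    refine Finset.sum_congr rfl fun p _ => ?_
    rw [smul_mul_assoc, ← map_mul, s5_e_alp h, map_neg, smul_neg, map_sum, Finset.smul_sum]
    congr 1
    refine Finset.sum_congr rfl fun q _ => ?_
    rw [s5_cM_smul, smul_smul]
  have h2 : Rm u e * cM b * (∑ q, ((tT - cT (u q))⁻¹ * cT (zd (u i) - zd (u q))) • cM (e q)) =
      ∑ p, ∑ q, ((tT - cT (u p))⁻¹ * (tT - cT (u q))⁻¹ * cT (zd (u i) - zd (u q))) •
        cM (e p * b * e q) := by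
    unfold Rm
    rw [Finset.sum_mul, Finset.sum_mul]
    refine Finset.sum_congr rfl fun p _ => ?_
    rw [Finset.mul_sum]
    refine Finset.sum_congr rfl fun q _ => ?_
    rw [smul_mul_assoc, smul_mul_assoc, mul_smul_comm, smul_smul, map_mul, map_mul,
      ← mul_assoc (tT - cT (u p))⁻¹]
  rw [h1, h2, ← sub_eq_add_neg, ← Finset.sum_sub_distrib]
  refine Finset.sum_congr rfl fun p _ => ?_
  rw [← Finset.sum_sub_distrib]
  refine Finset.sum_congr rfl fun q _ => ?_
  rw [sub_smul]

private theorem s5_coef_reg (h : Dat k u e B) (i p q : Fin l) :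
    Vge 0 (loc (u i) ((tT - cT (u p))⁻¹ * (tT - cT (u q))⁻¹ * cT (zd (u i) - zd (u q))
        - (tT - cT (u p))⁻¹ * cT (zd (u p - u q) / (u p - u q)))) := by
  by_cases hp : u i = u p
  · have hip := h.uinj hp
    subst hip
    by_cases hq : u i = u q
    · have hiq := h.uinj hq
      subst hiq
      rw [sub_self, sub_self, div_zero, s5_cT_zero, mul_zero, mul_zero, sub_zero, map_zero]
      exact Vge.zero _
    · have hne : cT (u i - u q) ≠ 0 := by
        unfold cT
        rw [Ne, map_eq_zero_iff _ (IsFractionRing.injective K[X] KT), C_eq_zero]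
        exact sub_ne_zero.mpr hq
      have h1 : (tT - cT (u i))⁻¹ * (tT - cT (u q))⁻¹ * cT (zd (u i) - zd (u q))
          - (tT - cT (u i))⁻¹ * cT (zd (u i - u q) / (u i - u q)) =
          -((tT - cT (u q))⁻¹ * cT (zd (u i - u q) / (u i - u q))) := by
        have e1 : cT (zd (u i - u q) / (u i - u q)) * cT (u i - u q) = cT (zd (u i - u q)) := by
          unfold cT
          rw [← map_mul, ← C_mul, div_mul_cancel₀ _ (sub_ne_zero.mpr hq)]
        have e2 : zd (u i) - zd (u q) = zd (u i - u q) := (map_sub _ _ _).symm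
        have e3 : cT (u i - u q) = (tT - cT (u q)) - (tT - cT (u i)) := by
          unfold cT
          rw [C_sub, map_sub]
          ring
        have n1 := tT_sub_ne (u i)
        have n2 := tT_sub_ne (u q)
        rw [e2, ← e1, e3]
        field_simp
        ring
      rw [h1, map_neg, map_mul]
      refine Vge.neg ?_
      simpa using (s5_inv_reg hq).mul (s5_cT_reg (u i) (zd (u i - u q) / (u i - u q)))
  · have h0 := s5_inv_reg hp
    rw [map_sub]
    refine Vge.sub ?_ ?_
    · by_cases hq : u i = u q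
      · rw [hq, sub_self, s5_cT_zero, mul_zero, map_zero]
        exact Vge.zero _
      · rw [map_mul, map_mul]
        have := (h0.mul (s5_inv_reg hq)).mul (s5_cT_reg (u i) (zd (u i) - zd (u q)))
        simpa using this
    · rw [map_mul]
      simpa using h0.mul (s5_cT_reg (u i) (zd (u p - u q) / (u p - u q)))

private theorem s5_Z_reg (h : Dat k u e B) (i : Fin l) (b : MK r) :
    MVge 0 ((Rm u e * cM b * (Rm u e * cM (Am u e + zd (u i) • 1)) +
      Rm u e * cM (alp u e b)).map (loc (u i))) := by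
  rw [s5_Z h]
  refine s5_sum fun p _ => s5_sum fun q _ => ?_
  simpa using s5_smul (s5_coef_reg h i p q) (s5_cM_reg (u i) (e p * b * e q))

private theorem s5_Jm_reg {φ : KT →+* F} (a b : Fin (k + 1)) :
    MVge 0 ((Jm (S := MT r) a b).map φ) := by
  unfold Jm
  split_ifs
  · intro p q
    simp only [Matrix.map_apply, Matrix.one_apply]
    split_ifs
    · rw [map_one]; exact Vge.one
    · rw [map_zero]; exact Vge.zero _
  · intro p q
    simp only [Matrix.map_apply, Matrix.zero_apply, map_zero]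
    exact Vge.zero _

/-- `y_i(b)` is regular at `u_i` (module s5) -/
theorem yI_reg (h : Dat k u e B) (β : ℂ) (i : Fin l) (b : ℕ → MK r) :
    MVge 0 ((yI k u e B β i b).map (loc (u i))) := by
  intro p q
  rw [Matrix.map_apply, s5_yI_entry]
  refine (show MVge 0 ((_ : MT r).map (loc (u i))) from ?_) p.2 q.2
  have hα := s5_cM_reg (u i) (alp u e (b 0))
  by_cases hq : q.1 = Fin.last k
  · have e1 : omT (k := k) (fun j => cM (B j)) (bet β) (Rm u e) (fun j => cM (b j)) p.1 q.1
        * cM (Am u e + zd (u i) • 1)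
      + OmT (k := k) (fun j => cM (B j)) (bet β) (Rm u e) p.1 q.1 * cM (alp u e (b 0)) =
        cM (b (k + 1 - p.1.val)) * (Rm u e * cM (Am u e + zd (u i) • 1)) +
        rho (k := k) (fun j => cM (B j)) (bet β) p.1 *
          (Rm u e * cM (b 0) * (Rm u e * cM (Am u e + zd (u i) • 1)) +
            Rm u e * cM (alp u e (b 0))) +
        Jm p.1 q.1 * cM (alp u e (b 0)) := by
      rw [s5_omT, s5_OmT, if_pos hq, if_pos hq]
      noncomm_ring
    rw [e1]
    refine s5_add (s5_add ?_ ?_) ?_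
    · exact s5_mul0 (s5_cM_reg _ _) (s5_RX_reg h i)
    · exact s5_mul0 (s5_rho_reg (s5_cT_reg (u i)) β _) (s5_Z_reg h i (b 0))
    · exact s5_mul0 (s5_Jm_reg _ _) hα
  · have e1 : omT (k := k) (fun j => cM (B j)) (bet β) (Rm u e) (fun j => cM (b j)) p.1 q.1
        * cM (Am u e + zd (u i) • 1)
      + OmT (k := k) (fun j => cM (B j)) (bet β) (Rm u e) p.1 q.1 * cM (alp u e (b 0)) =
        Jm p.1 q.1 * cM (alp u e (b 0)) := by
      rw [s5_omT, s5_OmT, if_neg hq, if_neg hq, zero_mul, zero_add, add_zero]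
    rw [e1]
    exact s5_mul0 (s5_Jm_reg _ _) hα

private theorem s5_R_inf : MVge 1 ((Rm u e).map inf) := by
  unfold Rm
  refine s5_sum fun q _ => ?_
  simpa using s5_smul (s5_inv_inf (u q)) (s5_cM_inf (e q))

private theorem s5_cT_inf (x : K) : Vge 0 (inf (cT x)) := by
  rw [inf_cT]
  exact Vge.C _

/-- `y_i(b) = J α + O(1/t)` (module s5) -/
theorem yI_inf (h : Dat k u e B) (β : ℂ) (i : Fin l) (b : ℕ → MK r) :
    MVge 1 ((yI k u e B β i b - cmp (Jm * dg (cM (alp u e (b 0))))).map inf) := by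
  intro p q
  rw [Matrix.map_apply, Matrix.sub_apply, s5_yI_entry]
  have e0 : cmp (Jm * dg (cM (alp u e (b 0)))) p q =
      (Jm (S := MT r) (k := k) p.1 q.1 * cM (alp u e (b 0))) p.2 q.2 := by
    unfold cmp dg
    rw [Matrix.mul_diagonal]
  rw [e0, ← Matrix.sub_apply]
  refine (show MVge 1 ((_ : MT r).map inf) from ?_) p.2 q.2
  by_cases hq : q.1 = Fin.last k
  · have e1 : omT (k := k) (fun j => cM (B j)) (bet β) (Rm u e) (fun j => cM (b j)) p.1 q.1
        * cM (Am u e + zd (u i) • 1)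
      + OmT (k := k) (fun j => cM (B j)) (bet β) (Rm u e) p.1 q.1 * cM (alp u e (b 0))
      - Jm p.1 q.1 * cM (alp u e (b 0)) =
        cM (b (k + 1 - p.1.val)) * (Rm u e * cM (Am u e + zd (u i) • 1)) +
        rho (k := k) (fun j => cM (B j)) (bet β) p.1 *
          (Rm u e * (cM (b 0) * (Rm u e * cM (Am u e + zd (u i) • 1)))) +
        rho (k := k) (fun j => cM (B j)) (bet β) p.1 * (Rm u e * cM (alp u e (b 0))) := by
      rw [s5_omT, s5_OmT, if_pos hq, if_pos hq]
      noncomm_ring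
    rw [e1]
    have hR := s5_R_inf (u := u) (e := e)
    have hX := s5_cM_inf (Am u e + zd (u i) • 1)
    have hRX : MVge 1 ((Rm u e * cM (Am u e + zd (u i) • 1)).map inf) := by
      simpa using s5_mul_reg hR hX
    have hρ := s5_rho_reg (k := k) (B := B) s5_cT_inf β p.1
    refine s5_add (s5_add ?_ ?_) ?_
    · simpa using s5_mul_reg (s5_cM_inf _) hRX
    · have h1 := s5_mul_reg (s5_cM_inf (b 0)) hRX
      have h2 := s5_mul_reg hρ (s5_mul_reg hR h1)
      exact h2.mono (by norm_num)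
    · have h2 := s5_mul_reg hρ (s5_mul_reg hR (s5_cM_inf (alp u e (b 0))))
      exact h2.mono (by norm_num)
  · have e1 : omT (k := k) (fun j => cM (B j)) (bet β) (Rm u e) (fun j => cM (b j)) p.1 q.1
        * cM (Am u e + zd (u i) • 1)
      + OmT (k := k) (fun j => cM (B j)) (bet β) (Rm u e) p.1 q.1 * cM (alp u e (b 0))
      - Jm p.1 q.1 * cM (alp u e (b 0)) = 0 := by
      rw [s5_omT, s5_OmT, if_neg hq, if_neg hq, zero_mul, zero_add, add_zero, sub_self]
    rw [e1]
    intro a c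
    simp only [Matrix.map_apply, Matrix.zero_apply, map_zero]
    exact Vge.zero _

/-- bounds at the nodes (module s5) -/
theorem wT_bound (h : Dat k u e B) (β : ℂ) (i : Fin l) (κ : ℕ) :
    ∃ C : ℝ, ∀ (c : ℝ) (b : ℕ → MK r), (∀ j, MVge c (b j)) →
      MVge (c - C) ((wT k u e B β b).map (node (u i) κ)) := by
  obtain ⟨c₁, hc₁⟩ := exists_MVge ((Rm u e).map (node (u i) κ))
  have hρ' : ∀ a : Fin (k + 1), ∃ c : ℝ, MVge c
      ((rho (k := k) (fun j => cM (B j)) (bet β : MT r) a).map (node (u i) κ)) :=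
    fun _ => exists_MVge _
  choose c₂ hc₂ using hρ'
  obtain ⟨c₃, hc₃⟩ : ∃ c : ℝ, ∀ a, c ≤ c₂ a := by
    obtain ⟨c, hc⟩ := (Set.finite_range c₂).bddBelow
    exact ⟨c, fun a => hc ⟨a, rfl⟩⟩
  refine ⟨max (-c₁) (-(c₃ + c₁ + c₁)), fun c b hb => ?_⟩
  have hbm : ∀ j, MVge c ((cM (b j)).map (node (u i) κ)) := by
    intro j p q
    change Vge c (node (u i) κ (cT (b j p q)))
    rw [node_cT]
    exact Vge_inn.mpr (hb j p q)
  intro p q
  change Vge _ (node (u i) κ (omT (k := k) (fun j => cM (B j)) (bet β) (Rm u e)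
    (fun j => cM (b j)) p.1 q.1 p.2 q.2))
  refine (show MVge (c - max (-c₁) (-(c₃ + c₁ + c₁))) ((_ : MT r).map (node (u i) κ)) from ?_)
    p.2 q.2
  by_cases hq : q.1 = Fin.last k
  · have e1 : omT (k := k) (fun j => cM (B j)) (bet β) (Rm u e) (fun j => cM (b j)) p.1 q.1 =
        cM (b (k + 1 - p.1.val)) * Rm u e +
        rho (k := k) (fun j => cM (B j)) (bet β) p.1 * Rm u e * cM (b 0) * Rm u e := by
      rw [s5_omT, if_pos hq]
      noncomm_ring
    rw [e1]
    refine s5_add ?_ ?_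
    · refine (s5_mul_reg (hbm _) hc₁).mono ?_
      have := le_max_left (-c₁) (-(c₃ + c₁ + c₁))
      linarith
    · refine (s5_mul_reg (s5_mul_reg (s5_mul_reg ((hc₂ p.1).mono (hc₃ _)) hc₁) (hbm 0))
        hc₁).mono ?_
      have := le_max_right (-c₁) (-(c₃ + c₁ + c₁))
      linarith
  · have e1 : omT (k := k) (fun j => cM (B j)) (bet β) (Rm u e) (fun j => cM (b j)) p.1 q.1 =
        0 := by
      rw [s5_omT, if_neg hq]
    rw [e1]
    intro a c
    simp only [Matrix.map_apply, Matrix.zero_apply, map_zero]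
    exact Vge.zero _

private theorem s5_pol_zero : IsPol u (0 : KT) := by
  have := IsPol.cT (u := u) (0 : K)
  rwa [s5_cT_zero] at this

private theorem s5_pol_mul {M N : MT r} (hM : ∀ a b, IsPol u (M a b)) (hN : ∀ a b, IsPol u (N a b))
    (a b : Fin r) : IsPol u ((M * N) a b) := by
  rw [Matrix.mul_apply]
  exact IsPol.sum fun c _ => (hM a c).mul (hN c b)

private theorem s5_pol_add {M N : MT r} (hM : ∀ a b, IsPol u (M a b)) (hN : ∀ a b, IsPol u (N a b))
    (a b : Fin r) : IsPol u ((M + N) a b) := (hM a b).add (hN a b)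

private theorem s5_pol_R (a b : Fin r) : IsPol u (Rm u e a b) := by
  unfold Rm
  rw [Matrix.sum_apply]
  refine IsPol.sum fun i _ => ?_
  rw [Matrix.smul_apply, smul_eq_mul]
  exact (IsPol.inv i).mul (IsPol.cT _)

private theorem s5_pol_cM (M : MK r) (a b : Fin r) : IsPol u (cM M a b) := IsPol.cT _

private theorem s5_pol_rho (β : ℂ) (c : Fin (k + 1)) (a b : Fin r) :
    IsPol u (rho (k := k) (fun j => cM (B j)) (bet β : MT r) c a b) := by
  unfold rho
  refine s5_pol_add (fun a b => IsPol.cT _) (fun a b => ?_) a b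
  split_ifs
  · unfold bet
    rw [Matrix.smul_apply, Matrix.one_apply, smul_eq_mul]
    split_ifs
    · rw [mul_one]; exact IsPol.cT _
    · rw [mul_zero]; exact s5_pol_zero
  · exact s5_pol_zero

private theorem s5_pol_omT (β : ℂ) (b : ℕ → MK r) (a c : Fin (k + 1)) (x y : Fin r) :
    IsPol u (omT (k := k) (fun j => cM (B j)) (bet β) (Rm u e) (fun j => cM (b j)) a c x y) := by
  rw [s5_omT]
  split_ifs
  · refine s5_pol_mul (fun x y => s5_pol_add (s5_pol_cM _) (fun x y => ?_) x y) s5_pol_R x y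
    exact s5_pol_mul (fun x y => s5_pol_mul (s5_pol_rho β a) s5_pol_R x y) (s5_pol_cM _) x y
  · exact s5_pol_zero

private theorem s5_pol_Jm (a c : Fin (k + 1)) (x y : Fin r) :
    IsPol u (Jm (S := MT r) a c x y) := by
  unfold Jm
  split_ifs
  · rw [Matrix.one_apply]
    split_ifs
    · have := IsPol.poly u (1 : K[X])
      rwa [map_one] at this
    · exact s5_pol_zero
  · exact s5_pol_zero

private theorem s5_pol_OmT (β : ℂ) (a c : Fin (k + 1)) (x y : Fin r) :
    IsPol u (OmT (k := k) (fun j => cM (B j)) (bet β) (Rm u e) a c x y) := by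
  rw [s5_OmT, Matrix.add_apply]
  refine (s5_pol_Jm a c x y).add ?_
  split_ifs
  · exact s5_pol_mul (s5_pol_rho β a) s5_pol_R x y
  · exact s5_pol_zero

theorem wT_isPol (β : ℂ) (b : ℕ → MK r) (p q : IX k r) : IsPol u (wT k u e B β b p q) :=
  s5_pol_omT β b p.1 q.1 p.2 q.2

theorem yI_isPol (β : ℂ) (i : Fin l) (b : ℕ → MK r) (p q : IX k r) :
    IsPol u (yI k u e B β i b p q) := by
  rw [s5_yI_entry]
  exact s5_pol_add (fun x y => s5_pol_mul (s5_pol_omT β b p.1 q.1) (s5_pol_cM _) x y)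
    (fun x y => s5_pol_mul (s5_pol_OmT β p.1 q.1) (s5_pol_cM _) x y) p.2 q.2

end Pool.Agent.Fbc
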