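import Pool.Agent.Fbc.Ext

/-!
# module t1: calculus of `Vge`, `MVge`, `VVge`
-/

set_option autoImplicit false

namespace Pool.Agent.Fbc

open Polynomial

section

variable {k : Type} [Field k]

lemma Vge.zero (c : ℝ) : Vge c (0 : LS k) := by
  intro n _
  exact LS.coeff_zero n

lemma Vge.mono {c c' : ℝ} {x : LS k} (h : Vge c x) (hc : c' ≤ c) : Vge c' x := by
  intro n hn
  exact h n (lt_of_lt_of_le hn hc)

lemma Vge.add {c : ℝ} {x y : LS k} (hx : Vge c x) (hy : Vge c y) : Vge c (x + y) := by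
  intro n hn
  rw [LS.coeff_add, hx n hn, hy n hn, add_zero]

lemma Vge.neg {c : ℝ} {x : LS k} (hx : Vge c x) : Vge c (-x) := by
  intro n hn
  rw [LS.coeff_neg, hx n hn, neg_zero]

lemma Vge.sub {c : ℝ} {x y : LS k} (hx : Vge c x) (hy : Vge c y) : Vge c (x - y) := by
  intro n hn
  rw [LS.coeff_sub, hx n hn, hy n hn, sub_zero]

lemma Vge.sum {ι : Type} {s : Finset ι} {c : ℝ} {f : ι → LS k} (h : ∀ i ∈ s, Vge c (f i)) :
    Vge c (∑ i ∈ s, f i) := by
  intro n hn
  rw [LS.coeff_sum]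
  exact Finset.sum_eq_zero fun i hi => h i hi n hn

lemma Vge.mul {c c' : ℝ} {x y : LS k} (hx : Vge c x) (hy : Vge c' y) : Vge (c + c') (x * y) := by
  intro n hn
  have h1 : ∀ m < ⌈c⌉, x.coeff m = 0 := fun m hm => hx m (Int.lt_ceil.1 hm)
  have h2 : ∀ m < ⌈c'⌉, y.coeff m = 0 := fun m hm => hy m (Int.lt_ceil.1 hm)
  rw [LS.coeff_mul h1 h2, Finset.Icc_eq_empty, Finset.sum_empty]
  intro hle
  have h3 : ((⌈c⌉ : ℤ) : ℝ) ≤ ((n - ⌈c'⌉ : ℤ) : ℝ) := Int.cast_le.2 hle
  rw [Int.cast_sub] at h3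
  have h4 := Int.le_ceil c
  have h5 := Int.le_ceil c'
  linarith

lemma Vge.mul0 {c : ℝ} {x y : LS k} (hx : Vge 0 x) (hy : Vge c y) : Vge c (x * y) := by
  have h := hx.mul hy
  rw [zero_add] at h
  exact h

lemma Vge.one : Vge 0 (1 : LS k) := by
  intro n hn
  rw [LS.coeff_one, if_neg]
  rintro rfl
  rw [Int.cast_zero] at hn
  exact lt_irrefl (0 : ℝ) hn

lemma Vge.pow0 {x : LS k} (hx : Vge 0 x) (n : ℕ) : Vge 0 (x ^ n) := by
  induction n with
  | zero => rw [pow_zero]; exact Vge.one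
  | succ n ih => rw [pow_succ]; exact ih.mul0 hx

lemma Vge.pow {c : ℝ} {x : LS k} (hx : Vge c x) (n : ℕ) : Vge (n * c) (x ^ n) := by
  induction n with
  | zero =>
    rw [pow_zero, Nat.cast_zero, zero_mul]
    exact Vge.one
  | succ n ih =>
    rw [pow_succ, Nat.cast_succ, add_mul, one_mul]
    exact ih.mul hx

lemma Vge.prod0 {ι : Type} {s : Finset ι} {f : ι → LS k} (h : ∀ i ∈ s, Vge 0 (f i)) :
    Vge 0 (∏ i ∈ s, f i) := by
  classical
  induction s using Finset.induction_on with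
  | empty => rw [Finset.prod_empty]; exact Vge.one
  | insert a s ha ih =>
    rw [Finset.prod_insert ha]
    exact (h a (Finset.mem_insert_self a s)).mul0
      (ih fun i hi => h i (Finset.mem_insert_of_mem hi))

lemma Vge.natCast (n : ℕ) : Vge 0 (n : LS k) := by
  induction n with
  | zero => rw [Nat.cast_zero]; exact Vge.zero 0
  | succ n ih => rw [Nat.cast_succ]; exact ih.add Vge.one

lemma Vge.C (a : k) : Vge 0 (LS.C a) := by
  intro n hn
  rw [LS.coeff_C, if_neg]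
  rintro rfl
  rw [Int.cast_zero] at hn
  exact lt_irrefl (0 : ℝ) hn

lemma Vge.single {c : ℝ} {n : ℤ} (h : c ≤ n) (a : k) : Vge c (LS.single n a) := by
  intro m hm
  rw [LS.coeff_single, if_neg]
  rintro rfl
  exact absurd hm (not_lt.2 h)

lemma exists_Vge (x : LS k) : ∃ c : ℝ, Vge c x := by
  obtain ⟨N, hN⟩ := x.exists_lb
  exact ⟨N, fun n hn => hN n (Int.cast_lt.1 hn)⟩

lemma Vge_iff_ord {x : LS k} (hx : x ≠ 0) (c : ℝ) : Vge c x ↔ c ≤ (x.ord : ℝ) := by
  constructor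
  · intro h
    by_contra hc
    exact LS.coeff_ord_ne hx (h _ (not_le.1 hc))
  · intro h n hn
    exact LS.coeff_of_lt_ord (Int.cast_lt.1 (lt_of_lt_of_le hn h))

lemma eq_zero_of_Vge {x : LS k} (h : ∀ c : ℝ, ∃ c', c ≤ c' ∧ Vge c' x) : x = 0 := by
  ext n
  obtain ⟨c', h1, h2⟩ := h ((n : ℝ) + 1)
  rw [h2 n (by linarith), LS.coeff_zero]

/-- division: if `x ≠ 0` and `x y` has order `≥ c + ord x` then `y` has order `≥ c` -/
lemma Vge_of_mul {c : ℝ} {x y : LS k} (hx : x ≠ 0) (h : Vge (c + x.ord) (x * y)) : Vge c y := by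
  by_cases hy : y = 0
  · rw [hy]
    exact Vge.zero c
  · rw [Vge_iff_ord (mul_ne_zero hx hy), LS.ord_mul hx hy, Int.cast_add] at h
    rw [Vge_iff_ord hy]
    linarith

lemma ord_inv {x : LS k} (hx : x ≠ 0) : (x⁻¹).ord = -x.ord := by
  have h := LS.ord_mul hx (inv_ne_zero hx)
  rw [mul_inv_cancel₀ hx, LS.ord_one] at h
  omega

lemma Vge.zd {c : ℝ} {x : LS k} (hx : Vge c x) : Vge c (zd x) := by
  intro n hn
  rw [zd_coeff, hx n hn, mul_zero]

lemma Vge.cd {c : ℝ} {x : LS k} (hx : Vge c x) (δ : Der k) : Vge c (cd δ x) := by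
  intro n hn
  rw [cd_coeff, hx n hn, map_zero]

lemma Vge_of_zd [CharZero k] {c : ℝ} (hc : c ≤ 0) {x : LS k} (h : Vge c (zd x)) : Vge c x := by
  intro n hn
  have h1 := h n hn
  rw [zd_coeff] at h1
  refine (mul_eq_zero.1 h1).resolve_left ?_
  rw [Int.cast_eq_zero]
  rintro rfl
  rw [Int.cast_zero] at hn
  linarith

lemma zd_cd (δ : Der k) (x : LS k) : zd (cd δ x) = cd δ (zd x) := by
  ext n
  rw [zd_coeff, cd_coeff, cd_coeff, zd_coeff, ← zsmul_eq_mul, ← zsmul_eq_mul, map_zsmul]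

lemma zd_single (n : ℤ) (a : k) : zd (LS.single n a) = (n : LS k) * LS.single n a := by
  ext m
  rw [← map_intCast (LS.C : k →+* LS k) n, LS.coeff_C_mul, zd_coeff, LS.coeff_single]
  split_ifs with h
  · rw [h]
  · rw [mul_zero, mul_zero]

lemma zd_C (a : k) : zd (LS.C a) = 0 := by
  ext n
  rw [zd_coeff, LS.coeff_C, LS.coeff_zero]
  split_ifs with h
  · rw [h, Int.cast_zero, zero_mul]
  · rw [mul_zero]

lemma cd_single (δ : Der k) (n : ℤ) (a : k) : cd δ (LS.single n a) = LS.single n (δ a) := by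
  ext m
  rw [cd_coeff, LS.coeff_single, LS.coeff_single]
  split_ifs
  · rfl
  · rw [map_zero]

/-- integral + `z`-adic limit: truncation -/
lemma exists_trunc (x : LS k) (N : ℤ) :
    ∃ y : LS k, (∀ n, N ≤ n → y.coeff n = 0) ∧ (∀ n < N, y.coeff n = x.coeff n) ∧
      Vge N (x - y) := by
  obtain ⟨M, hM⟩ := x.exists_lb
  refine ⟨LS.mk (fun n => if n < N then x.coeff n else 0) ⟨M, fun n hn => ?_⟩,
    fun n hn => ?_, fun n hn => ?_, fun n hn => ?_⟩
  · rw [hM n hn, ite_self]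
  · rw [LS.coeff_mk, if_neg (not_lt.2 hn)]
  · rw [LS.coeff_mk, if_pos hn]
  · rw [LS.coeff_sub, LS.coeff_mk, if_pos (Int.cast_lt.1 hn), sub_self]

end

section matrix

variable {k : Type} [Field k] {l m n : Type} [Fintype m]

lemma MVge.mono {c c' : ℝ} {M : Matrix l n (LS k)} (h : MVge c M) (hc : c' ≤ c) : MVge c' M := by
  intro i j
  exact (h i j).mono hc

lemma MVge.add {c : ℝ} {M N : Matrix l n (LS k)} (hM : MVge c M) (hN : MVge c N) :
    MVge c (M + N) := by
  intro i j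
  exact (hM i j).add (hN i j)

lemma MVge.sub {c : ℝ} {M N : Matrix l n (LS k)} (hM : MVge c M) (hN : MVge c N) :
    MVge c (M - N) := by
  intro i j
  exact (hM i j).sub (hN i j)

lemma MVge.neg {c : ℝ} {M : Matrix l n (LS k)} (hM : MVge c M) : MVge c (-M) := by
  intro i j
  exact (hM i j).neg

lemma MVge.sum {ι : Type} {s : Finset ι} {c : ℝ} {f : ι → Matrix l n (LS k)}
    (h : ∀ i ∈ s, MVge c (f i)) : MVge c (∑ i ∈ s, f i) := by
  intro i j
  rw [Matrix.sum_apply]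
  exact Vge.sum fun a ha => h a ha i j

lemma MVge.mul {c c' : ℝ} {M : Matrix l m (LS k)} {N : Matrix m n (LS k)} (hM : MVge c M)
    (hN : MVge c' N) : MVge (c + c') (M * N) := by
  intro i j
  rw [Matrix.mul_apply]
  exact Vge.sum fun a _ => (hM i a).mul (hN a j)

lemma MVge.mulVec {c c' : ℝ} {M : Matrix l m (LS k)} {v : m → LS k} (hM : MVge c M)
    (hv : VVge c' v) : VVge (c + c') (M.mulVec v) := by
  intro i
  rw [Matrix.mulVec, dotProduct]
  exact Vge.sum fun a _ => (hM i a).mul (hv a)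

lemma MVge.smul {c c' : ℝ} {x : LS k} {M : Matrix l n (LS k)} (hx : Vge c x) (hM : MVge c' M) :
    MVge (c + c') (x • M) := by
  intro i j
  rw [Matrix.smul_apply, smul_eq_mul]
  exact hx.mul (hM i j)

lemma MVge.one [DecidableEq m] : MVge 0 (1 : Matrix m m (LS k)) := by
  intro i j
  rw [Matrix.one_apply]
  split_ifs
  · exact Vge.one
  · exact Vge.zero 0

lemma MVge.zero (c : ℝ) : MVge c (0 : Matrix l n (LS k)) := by
  intro i j
  exact Vge.zero c

lemma MVge.pow [DecidableEq m] {c : ℝ} {M : Matrix m m (LS k)} (hM : MVge c M) (p : ℕ) :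
    MVge (p * c) (M ^ p) := by
  induction p with
  | zero =>
    rw [pow_zero, Nat.cast_zero, zero_mul]
    exact MVge.one
  | succ p ih =>
    rw [pow_succ, Nat.cast_succ, add_mul, one_mul]
    exact ih.mul hM

lemma MVge.trace {c : ℝ} {M : Matrix m m (LS k)} (hM : MVge c M) : Vge c M.trace := by
  rw [Matrix.trace]
  exact Vge.sum fun i _ => hM i i

lemma exists_MVge [Fintype l] (M : Matrix l m (LS k)) : ∃ c : ℝ, MVge c M := by
  classical
  choose f hf using fun (i : l) (j : m) => exists_Vge (M i j)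
  obtain ⟨c, hc⟩ := (Set.finite_range fun p : l × m => f p.1 p.2).bddBelow
  exact ⟨c, fun i j => (hf i j).mono (hc ⟨(i, j), rfl⟩)⟩

lemma exists_VVge (v : m → LS k) : ∃ c : ℝ, VVge c v := by
  classical
  choose f hf using fun (i : m) => exists_Vge (v i)
  obtain ⟨c, hc⟩ := (Set.finite_range f).bddBelow
  exact ⟨c, fun i => (hf i).mono (hc ⟨i, rfl⟩)⟩

lemma MVge.map_zd {c : ℝ} {M : Matrix l n (LS k)} (hM : MVge c M) : MVge c (M.map zd) := by
  intro i j
  exact (hM i j).zd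

lemma MVge.map_cd {c : ℝ} {M : Matrix l n (LS k)} (hM : MVge c M) (δ : Der k) :
    MVge c (M.map (cd δ)) := by
  intro i j
  exact (hM i j).cd δ

end matrix

end Pool.Agent.Fbc
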